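import Pool.Agent.NUM.Fam

/-!
# P2: exponent trading up to `2 cos (π / 7)`

From the interface `Trade c` we derive a contradiction for `1 < c < 2`, `c³ - c² - 2c + 1 < 0`.
-/

set_option autoImplicit false

namespace Pool.Agent.NUM

theorem Ex.mono {e e' : ℝ} {f : ℕ → ℕ} (h : Ex e f) (he : e ≤ e') : Ex e' f := by
  intro ε hε
  obtain ⟨L₀, hL⟩ := h ε hε
  refine ⟨L₀, fun L hL0 => (hL L hL0).trans ?_⟩
  apply Real.rpow_le_rpow_of_exponent_le (by norm_num)
  exact mul_le_mul_of_nonneg_right (by linarith) (Nat.cast_nonneg L)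

theorem Lin.mono {e e' : ℝ} {f : ℕ → ℕ} (h : Lin e f) (he : e ≤ e') : Lin e' f := by
  intro ε hε
  obtain ⟨L₀, hL⟩ := h ε hε
  exact ⟨L₀, fun L hL0 => (hL L hL0).trans
    (mul_le_mul_of_nonneg_right (by linarith) (Nat.cast_nonneg L))⟩

theorem Lin.zero {e : ℝ} (he : 0 ≤ e) : Lin e (fun _ => 0) := by
  intro ε hε
  refine ⟨0, fun L _ => ?_⟩
  simp only [Nat.cast_zero]
  positivity

theorem Lin.add {u u' : ℝ} {f g : ℕ → ℕ} (hf : Lin u f) (hg : Lin u' g) :
    Lin (u + u') (fun L => f L + g L) := by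
  intro ε hε
  obtain ⟨L₁, h1⟩ := hf (ε / 2) (by positivity)
  obtain ⟨L₂, h2⟩ := hg (ε / 2) (by positivity)
  refine ⟨max L₁ L₂, fun L hL => ?_⟩
  have := h1 L (le_trans (le_max_left _ _) hL)
  have := h2 L (le_trans (le_max_right _ _) hL)
  push_cast
  nlinarith

theorem Lin.max {u u' : ℝ} {f g : ℕ → ℕ} (hf : Lin u f) (hg : Lin u' g) :
    Lin (Max.max u u') (fun L => Max.max (f L) (g L)) := by
  intro ε hε
  obtain ⟨L₁, h1⟩ := hf ε hε
  obtain ⟨L₂, h2⟩ := hg ε hε
  refine ⟨Max.max L₁ L₂, fun L hL => ?_⟩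
  have h1' := h1 L (le_trans (le_max_left _ _) hL)
  have h2' := h2 L (le_trans (le_max_right _ _) hL)
  have hL0 : (0 : ℝ) ≤ L := Nat.cast_nonneg L
  push_cast
  apply max_le
  · exact h1'.trans (mul_le_mul_of_nonneg_right (by linarith [le_max_left u u']) hL0)
  · exact h2'.trans (mul_le_mul_of_nonneg_right (by linarith [le_max_right u u']) hL0)

theorem InCl.mono {T : Type} {π : Pres T} {P : T → Prop} {e e' : ℝ} (h : InCl π P e)
    (he : e ≤ e') : InCl π P e' := by
  obtain ⟨G, s, t, L₀, h1, h2, h3, h4⟩ := h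
  exact ⟨G, s, t, L₀, h1, h2.mono he, h3, h4⟩

theorem InCl.congr {T : Type} {π : Pres T} {P P' : T → Prop} {e : ℝ} (h : InCl π P e)
    (hP : ∀ τ, P τ ↔ P' τ) : InCl π P' e := by
  obtain ⟨G, s, t, L₀, h1, h2, h3, h4⟩ := h
  refine ⟨G, s, t, L₀, h1, h2, h3, fun τ hτ => ?_⟩
  obtain ⟨b, hb, hb'⟩ := h4 τ hτ
  exact ⟨b, hb, hb'.trans (hP τ)⟩

theorem Size.mono {T : Type} {π : Pres T} {b b' : ℝ} (h : Size π b) (hb : b ≤ b') :
    Size π b' := by
  obtain ⟨β, h1, h2⟩ := h
  exact ⟨β, h1.mono hb, h2⟩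

theorem Supp.mono {B B' : ℕ} {z : Inp} (h : Supp B z) (hB : B ≤ B') : Supp B' z :=
  fun a ha => h a (by omega)

theorem Supp.pair {B B' : ℕ} {p q : Inp} (hp : Supp B p) (hq : Supp B' q) :
    Supp (Max.max B B' + 1) (pair p q) := by
  intro a ha
  match a with
  | [] => rfl
  | false :: a =>
    simp only [List.length_cons] at ha
    rw [pair_false]
    exact hp a (by omega)
  | true :: a =>
    simp only [List.length_cons] at ha
    rw [pair_true]
    exact hq a (by omega)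

theorem supp_trc (B : ℕ) (y : Inp) : Supp B (trc B y) := by
  intro a ha
  simp only [trc]
  rw [if_neg (by omega)]

theorem supp_blk (w : ℕ) (y : Inp) (k : List Bool) : Supp w (blk w y k) := by
  intro a ha
  simp only [blk]
  rw [if_neg (by omega)]

theorem supp_lst (s : ℕ) (k : List Bool) : Supp s (lst s k) := by
  intro a ha
  simp only [lst]
  rw [if_neg (by omega)]

theorem Lin.const (e : ℝ) (he : 0 ≤ e) (k : ℕ) : Lin e (fun _ => k) := by
  intro ε hε
  obtain ⟨L₀, hL₀⟩ := exists_nat_ge (k / ε)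
  refine ⟨L₀, fun L hL => ?_⟩
  have : (L₀ : ℝ) ≤ L := by exact_mod_cast hL
  have h2 : k / ε ≤ L := hL₀.trans this
  rw [div_le_iff₀ hε] at h2
  have : 0 ≤ e * L := by positivity
  nlinarith

theorem Size.ext {T : Type} {π : Pres T} {b x : ℝ} {β : ℕ → ℕ} (h : Size π b)
    (hL : Lin x β) : Size (π.ext β) (max b x) := by
  obtain ⟨β', h1, h2⟩ := h
  refine ⟨fun L => Max.max (β' L) (β L) + 1, ?_, fun τ => (h2 τ.1).pair (supp_trc _ _)⟩
  simpa using (h1.max hL).add (Lin.const 0 le_rfl 1)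

theorem Lin.size {x : ℝ} {q : ℕ → ℕ} (hq : Lin x q) : Lin 0 (fun L => Nat.size (q L)) := by
  intro ε hε
  obtain ⟨L₁, h1⟩ := hq 1 one_pos
  -- `size (q L) ≤ 1 + log₂ (q L) ≤ ε L`
  obtain ⟨L₂, h2⟩ : ∃ L₂ : ℕ, ∀ L : ℕ, L₂ ≤ L → (|x| + 1) * L < 2 ^ (ε * L - 1) := by
    have hlim : Filter.Tendsto (fun L : ℝ => L ^ (1 : ℝ) * Real.exp (-(ε * Real.log 2) * L))
        Filter.atTop (nhds 0) :=
      tendsto_rpow_mul_exp_neg_mul_atTop_nhds_zero 1 _ (by positivity)
    have hev := (hlim.comp tendsto_natCast_atTop_atTop).eventually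
      (gt_mem_nhds (show (0 : ℝ) < 1 / (2 * (|x| + 1)) by positivity))
    obtain ⟨L₂, hL₂⟩ := Filter.eventually_atTop.1 hev
    refine ⟨L₂, fun L hL => ?_⟩
    have h := hL₂ L hL
    simp only [Function.comp, Real.rpow_one] at h
    have e1 : (2 : ℝ) ^ (ε * L - 1) = Real.exp (ε * Real.log 2 * L) / 2 := by
      rw [Real.rpow_sub (by norm_num), Real.rpow_one, Real.rpow_def_of_pos (by norm_num)]
      congr 2
      ring
    have e2 : Real.exp (-(ε * Real.log 2) * L) = (Real.exp (ε * Real.log 2 * L))⁻¹ := by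
      rw [← Real.exp_neg]
      congr 1
      ring
    rw [e2, ← div_eq_mul_inv, div_lt_div_iff₀ (Real.exp_pos _) (by positivity)] at h
    rw [e1, lt_div_iff₀ (by norm_num)]
    linarith
  refine ⟨Max.max L₁ L₂, fun L hL => ?_⟩
  have h1' := h1 L (le_trans (le_max_left _ _) hL)
  have h2' := h2 L (le_trans (le_max_right _ _) hL)
  have hL0 : (0 : ℝ) ≤ L := Nat.cast_nonneg L
  have hq' : (q L : ℝ) < 2 ^ (ε * L - 1) := by
    refine lt_of_le_of_lt (h1'.trans ?_) h2'
    exact mul_le_mul_of_nonneg_right (by linarith [le_abs_self x]) hL0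
  rcases Nat.eq_zero_or_pos (q L) with h0 | h0
  · simp only [h0, Nat.size_zero, Nat.cast_zero]
    positivity
  · have hs : 2 ^ (Nat.size (q L) - 1) ≤ q L := by
      rw [← Nat.lt_size]
      have : 0 < Nat.size (q L) := Nat.size_pos.2 h0
      omega
    have hs' : (2 : ℝ) ^ ((Nat.size (q L) : ℝ) - 1) ≤ q L := by
      have h3 : ((Nat.size (q L) - 1 : ℕ) : ℝ) = (Nat.size (q L) : ℝ) - 1 := by
        have : 1 ≤ Nat.size (q L) := Nat.size_pos.2 h0
        push_cast [Nat.cast_sub this]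
        ring
      rw [← h3, Real.rpow_natCast]
      exact_mod_cast hs
    have h4 := (Real.rpow_lt_rpow_left_iff (by norm_num : (1 : ℝ) < 2)).1 (lt_of_le_of_lt hs' hq')
    show ((Nat.size (q L) : ℕ) : ℝ) ≤ (0 + ε) * L
    linarith

theorem Size.view {T : Type} {π : Pres T} {b x : ℝ} {q w : ℕ → ℕ} (h : Size π b) (hb : 0 ≤ b)
    (hq : Lin x q) (hw : Lin 0 w) : Size (π.view q w) b := by
  obtain ⟨β', h1, h2⟩ := h
  refine ⟨fun L => Max.max (β' L) (Max.max (Nat.size (q L)) (w L) + 3) + 1, ?_, fun τ => ?_⟩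
  · have := ((h1.max ((hq.size.max hw).add (Lin.const 0 le_rfl 3)))).add (Lin.const 0 le_rfl 1)
    rw [max_self, add_zero, add_zero, max_eq_left hb] at this
    exact this
  · have hs : ∀ k : List Bool, Supp (Max.max (Nat.size (q (π.idx τ.1))) (w (π.idx τ.1)) + 1)
        (rec1 (q (π.idx τ.1)) (w (π.idx τ.1)) τ.2.2 k) :=
      fun k => (supp_lst _ _).pair (supp_blk _ _ _)
    have h3 : Supp (Max.max (Nat.size (q (π.idx τ.1))) (w (π.idx τ.1)) + 2)
        (pair (rec1 (q (π.idx τ.1)) (w (π.idx τ.1)) τ.2.2 τ.2.1.2.1)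
          (rec1 (q (π.idx τ.1)) (w (π.idx τ.1)) τ.2.2 τ.2.1.2.2)) :=
      ((hs _).pair (hs _)).mono (by simp)
    have h4 := ((hs τ.2.1.1).mono (Nat.le_succ _)).pair h3
    refine ((h2 τ.1).pair (h4.mono (B' := Max.max (Nat.size (q (π.idx τ.1))) (w (π.idx τ.1)) + 3)
      ?_)).mono le_rfl
    simp

/-! ### the derivation -/

theorem InE.mono {T : Type} {u e e' : ℝ} {π : Pres T} {P : T → Prop} (h : InE u π P e)
    (he : e ≤ e') : InE u π P e' := by
  obtain ⟨β, B, h2, h4, h5⟩ := h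
  exact ⟨β, B, h2, h4.mono he, h5⟩

/-- one round: speed up by `x = u`, merge, slow down -/
theorem InE.round {c : ℝ} (H : Trade c) {T : Type} {π : Pres T} {P : T → Prop}
    {b u e : ℝ} (hb : 1 ≤ b) (hbu : b ≤ u) (hs : Size π b) (hue : u ≤ e) (h : InE u π P e) :
    InE u π P (c * max u (e - u)) := by
  obtain ⟨β, B, hL, hB, n0, hP⟩ := h
  have hu0 : 0 ≤ u := by linarith
  have hs1 : Size (π.ext β) u := by
    have := hs.ext hL
    rwa [max_eq_right hbu] at this
  obtain ⟨q, w, B', hq, hw, hB', n1, hP'⟩ := H.speedup hs1 hB hu0 hue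
  have hd : InCl (((π.ext β).view q w).ext (fun _ => 0)) (fun p => B' p.1) (e - u) :=
    H.dummy (hs1.view hu0 hq hw) (Lin.zero le_rfl) hB'
  have hC := H.slow (hb.trans hbu) hs1 hq hw (Lin.zero (le_refl 0)) (by linarith) hd
  have hqw : Lin u (fun L => q L + w L) := by simpa using hq.add hw
  obtain ⟨β'', hL'', hC'⟩ := H.merge hs hL hqw hC
  refine ⟨β'', _, ?_, hC'.mono ?_, max n0 n1, ?_⟩
  · rwa [max_self] at hL''
  · rw [max_self]
  · intro τ hτ
    have h0 : n0 ≤ π.idx τ := le_trans (le_max_left _ _) hτ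
    have h1 : n1 ≤ π.idx τ := le_trans (le_max_right _ _) hτ
    rw [hP τ h0]
    constructor
    · rintro ⟨y, hy⟩
      rw [hP' (τ, y) h1] at hy
      obtain ⟨v, hv⟩ := hy
      exact ⟨pair y v, fun k _ => hv k⟩
    · rintro ⟨u', hu'⟩
      refine ⟨fun a => u' (false :: a), ?_⟩
      rw [hP' (τ, _) h1]
      exact ⟨fun a => u' (true :: a), fun k => hu' k (fun _ => false)⟩

/-- Lemma (R) -/
theorem InE.reduce {c : ℝ} (hc : 1 < c) (hc2 : c < 2) (H : Trade c) {T : Type} {π : Pres T}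
    {P : T → Prop} {b u : ℝ} (hb : 1 ≤ b) (hbu : b ≤ u) (hs : Size π b) (j : ℕ) :
    ∀ e : ℝ, c * u / (c - 1) - 2 * u ≤ (c * u / (c - 1) - e) * c ^ j → InE u π P e →
      InE u π P (c * u) := by
  have hu : 0 < u := by linarith
  have hc1 : 0 < c - 1 := by linarith
  have base : ∀ e : ℝ, e ≤ 2 * u → InE u π P e → InE u π P (c * u) := by
    intro e he h
    rcases le_total e u with h1 | h1
    · exact h.mono (h1.trans (by nlinarith))
    · refine (h.round H hb hbu hs h1).mono ?_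
      rw [max_eq_left (by linarith)]
  induction j with
  | zero =>
    intro e he h
    exact base e (by simp at he; linarith) h
  | succ j ih =>
    intro e he h
    rcases le_total e (2 * u) with h2 | h2
    · exact base e h2 h
    · have h3 : InE u π P (c * max u (e - u)) := h.round H hb hbu hs (by linarith)
      rw [max_eq_right (by linarith)] at h3
      refine ih _ ?_ h3
      have : (c * u / (c - 1) - c * (e - u)) = (c * u / (c - 1) - e) * c := by
        field_simp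
        ring
      rw [this]
      calc _ ≤ _ := he
        _ = _ := by ring

theorem InE.reduce' {c : ℝ} (hc : 1 < c) (hc2 : c < 2) (H : Trade c) {T : Type} {π : Pres T}
    {P : T → Prop} {b u e : ℝ} (hb : 1 ≤ b) (hbu : b ≤ u) (hs : Size π b)
    (he : e < c * u / (c - 1)) (h : InE u π P e) : InE u π P (c * u) := by
  obtain ⟨j, hj⟩ := pow_unbounded_of_one_lt ((c * u / (c - 1) - 2 * u) / (c * u / (c - 1) - e)) hc
  refine InE.reduce hc hc2 H hb hbu hs j e ?_ h
  have : 0 < c * u / (c - 1) - e := by linarith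
  rw [div_lt_iff₀ this] at hj
  linarith [hj]

/-- the statement `G(f)` -/
def GG (c f : ℝ) : Prop :=
  ∃ K : ℝ, 0 < K ∧ ∀ (T : Type) (π : Pres T) (P : T → Prop) (b e : ℝ), 1 ≤ b → Size π b →
    InCl π P e → K * b ≤ e → InE (f * e) π P (c * (f * e))

theorem GG.one {c : ℝ} (hc : 1 ≤ c) (H : Trade c) : GG c 1 := by
  refine ⟨1, one_pos, ?_⟩
  intro T π P b e hb hs hP he
  have h0 : 0 ≤ e := by linarith
  refine ⟨fun _ => 0, fun p => P p.1, Lin.zero (by linarith), ?_, 0, ?_⟩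
  · exact (H.dummy hs (Lin.zero le_rfl) hP).mono (by nlinarith)
  · intro τ _
    exact ⟨fun h => ⟨fun _ => false, h⟩, fun ⟨_, h⟩ => h⟩

theorem GG.step {c f f' : ℝ} (hc : 1 < c) (hc2 : c < 2) (H : Trade c) (hf : 0 < f) (hf1 : f' < 1)
    (hff : c * (c - 1) * f / (1 + c * (c - 1) * f) < f') (h : GG c f) : GG c f' := by
  obtain ⟨K, hK, hG⟩ := h
  have hc1 : 0 < c - 1 := by linarith
  have hκ : 0 < c * (c - 1) * f := by positivity
  have hf0 : 0 < f' := lt_trans (by positivity) hff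
  refine ⟨max (K / (1 - f')) (max 1 (1 / f')), by positivity, ?_⟩
  intro T π P b e hb hs hP he
  have h1f : 0 < 1 - f' := by linarith
  have hKb : K * b ≤ (1 - f') * e := by
    have : K / (1 - f') * b ≤ e := le_trans (by gcongr; exact le_max_left _ _) he
    rw [div_mul_eq_mul_div, div_le_iff₀ h1f] at this
    linarith
  have hbe : b ≤ f' * e := by
    have : 1 / f' * b ≤ e :=
      le_trans (by gcongr; exact (le_max_right _ _).trans (le_max_right _ _)) he
    rw [div_mul_eq_mul_div, div_le_iff₀ hf0] at this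
    linarith
  have he0 : 0 < e := by
    have : 0 < f' * e := by linarith
    exact (mul_pos_iff_of_pos_left hf0).mp this
  obtain ⟨q, w, A, hq, hw, hA, n0, hPA⟩ :=
    H.speedup hs hP (x := f' * e) (by positivity) (by nlinarith)
  have hs' := hs.view (by linarith) hq hw
  have hG' := hG _ (π.view q w) (fun p => ¬ A p) b (e - f' * e) hb hs' (H.not hs' hA)
    (by linarith)
  obtain ⟨β, B, hL₂, hB, n1, hAB⟩ := hG'
  have hBn := H.not (hs'.ext hL₂) hB
  have hu0 : 0 < e - f' * e := by nlinarith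
  have hC := H.slow hb hs hq hw hL₂ (by nlinarith [mul_pos hf hu0]) hBn
  rw [max_eq_right hbe] at hC
  have hqw : Lin (f' * e) (fun L => q L + w L) := by simpa using hq.add hw
  have hE : InE (f' * e) π P (c * max (f' * e) (c * (f * (e - f' * e)))) := by
    refine ⟨_, _, hqw, hC, max n0 n1, ?_⟩
    intro τ hτ
    rw [hPA τ (le_trans (le_max_left _ _) hτ)]
    refine exists_congr fun y => forall_congr' fun κ => ?_
    have := hAB (τ, κ, y) (le_trans (le_max_right _ _) hτ)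
    constructor
    · intro h v hv
      exact (this.mpr ⟨v, hv⟩) h
    · intro h
      by_contra h'
      obtain ⟨v, hv⟩ := this.mp h'
      exact h v hv
  refine InE.reduce' hc hc2 H hb hbe hs ?_ hE
  rw [lt_div_iff₀ hc1]
  have hfe : 0 < f' * e := by positivity
  rw [div_lt_iff₀ (by positivity)] at hff
  rcases le_total (f' * e) (c * (f * (e - f' * e))) with h1 | h1
  · rw [max_eq_right h1]
    have key : c * (c - 1) * f * (1 - f') < f' := by nlinarith
    have : c * (c * (f * (e - f' * e))) * (c - 1) = c * e * (c * (c - 1) * f * (1 - f')) := by ring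
    rw [this]
    calc c * e * (c * (c - 1) * f * (1 - f')) < c * e * f' := by
          apply mul_lt_mul_of_pos_left key (by positivity)
      _ = c * (f' * e) := by ring
  · rw [max_eq_left h1]
    have : c * (f' * e) * (c - 1) < c * (f' * e) * 1 :=
      mul_lt_mul_of_pos_left (by linarith) (by positivity)
    linarith

/-- there is `f` with `G(f)` and `c^2 f < 1` -/
theorem GG.small {c : ℝ} (hc : 1 < c) (hc2 : c < 2) (hc3 : c ^ 3 - c ^ 2 - 2 * c + 1 < 0)
    (H : Trade c) : ∃ f : ℝ, 0 < f ∧ c ^ 2 * f < 1 ∧ GG c f := by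
  by_contra hcon
  push Not at hcon
  have hc1 : 0 < c - 1 := by linarith
  set κ : ℝ := c * (c - 1) with hκ
  have hκ0 : 0 < κ := by positivity
  set S : Set ℝ := {f | 0 < f ∧ f ≤ 1 ∧ GG c f} with hS
  have h1S : (1 : ℝ) ∈ S := ⟨one_pos, le_rfl, GG.one hc.le H⟩
  have hbdd : ∀ f ∈ S, 1 / c ^ 2 ≤ f := by
    intro f hf
    by_contra h
    push Not at h
    rw [lt_div_iff₀ (by positivity)] at h
    exact hcon f hf.1 (by linarith) hf.2.2
  set f0 := sInf S with hf0
  have hf0l : 1 / c ^ 2 ≤ f0 := le_csInf ⟨1, h1S⟩ hbdd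
  have hf0p : 0 < f0 := lt_of_lt_of_le (by positivity) hf0l
  have hf01 : f0 ≤ 1 := csInf_le ⟨1 / c ^ 2, hbdd⟩ h1S
  -- `κ < 1 + κ f0`
  have hk : κ < 1 + κ * f0 := by
    have : κ < 1 + κ * (1 / c ^ 2) := by
      rw [hκ]
      have : c * (c - 1) * (1 / c ^ 2) = (c - 1) / c := by
        field_simp
      rw [this]
      have h2 : 1 + (c - 1) / c = (2 * c - 1) / c := by
        field_simp
        ring
      rw [h2, lt_div_iff₀ (by linarith)]
      nlinarith
    calc κ < 1 + κ * (1 / c ^ 2) := this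
      _ ≤ 1 + κ * f0 := by gcongr
  -- continuity
  have hg : κ * f0 / (1 + κ * f0) < f0 := by
    rw [div_lt_iff₀ (by positivity)]
    nlinarith
  have hcont : ContinuousAt (fun f : ℝ => κ * f / (1 + κ * f)) f0 := by
    apply ContinuousAt.div (by fun_prop) (by fun_prop)
    positivity
  have hev : ∀ᶠ f in nhds f0, κ * f / (1 + κ * f) < f0 := hcont.eventually (gt_mem_nhds hg)
  obtain ⟨ε, hε, hball⟩ := Metric.eventually_nhds_iff.mp hev
  obtain ⟨f, hfS, hff0⟩ := exists_lt_of_csInf_lt ⟨1, h1S⟩ (show sInf S < f0 + ε by linarith)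
  have hff : f0 ≤ f := csInf_le ⟨1 / c ^ 2, hbdd⟩ hfS
  have hgf : κ * f / (1 + κ * f) < f0 := hball (by
    rw [Real.dist_eq, abs_of_nonneg (by linarith)]
    linarith)
  obtain ⟨f', hf'1, hf'2⟩ := exists_between hgf
  have hf'0 : 0 < f' := lt_trans (by have := hfS.1; positivity) hf'1
  have hG' : GG c f' := GG.step hc hc2 H hfS.1 (by linarith) hf'1 hfS.2.2
  have : f0 ≤ f' := csInf_le ⟨1 / c ^ 2, hbdd⟩ ⟨hf'0, by linarith, hG'⟩
  linarith

theorem not_Trade {c : ℝ} (hc : 1 < c) (hc2 : c < 2) (hc3 : c ^ 3 - c ^ 2 - 2 * c + 1 < 0) :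
    ¬ Trade c := by
  intro H
  obtain ⟨f, hf, hcf, K, hK, hG⟩ := GG.small hc hc2 hc3 H
  obtain ⟨a, ha⟩ := exists_nat_ge (max 1 K)
  have ha1 : (1 : ℝ) ≤ a := le_trans (le_max_left _ _) ha
  have haK : K ≤ a := le_trans (le_max_right _ _) ha
  have he : c * (f * (c * a)) < a := by
    have : c * (f * (c * a)) = c ^ 2 * f * a := by ring
    rw [this]
    nlinarith
  have hue : f * (c * a) ≤ c * (f * (c * a)) := by
    have : 0 ≤ f * (c * a) := by positivity
    nlinarith
  obtain ⟨T, π, D, hs, hD, hno⟩ := H.diag a _ _ (by exact_mod_cast ha1) hue he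
  exact hno (hG _ π _ 1 (c * a) le_rfl hs hD (by nlinarith))

/-! ### the number `2 cos (π / 7)` -/

theorem cos_cubic : (2 * Real.cos (Real.pi / 7)) ^ 3 - (2 * Real.cos (Real.pi / 7)) ^ 2
    - 2 * (2 * Real.cos (Real.pi / 7)) + 1 = 0 := by
  set x := Real.cos (Real.pi / 7) with hx
  have h3 : Real.cos (3 * (Real.pi / 7)) = 4 * x ^ 3 - 3 * x := Real.cos_three_mul _
  have h4 : Real.cos (4 * (Real.pi / 7)) = 2 * (2 * x ^ 2 - 1) ^ 2 - 1 := by
    rw [show 4 * (Real.pi / 7) = 2 * (2 * (Real.pi / 7)) by ring, Real.cos_two_mul,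
      Real.cos_two_mul]
  have h34 : Real.cos (4 * (Real.pi / 7)) = - Real.cos (3 * (Real.pi / 7)) := by
    rw [show 4 * (Real.pi / 7) = Real.pi - 3 * (Real.pi / 7) by ring, Real.cos_pi_sub]
  have hx0 : 0 < x := Real.cos_pos_of_mem_Ioo ⟨by linarith [Real.pi_pos], by linarith [Real.pi_pos]⟩
  have key : (x + 1) * (8 * x ^ 3 - 4 * x ^ 2 - 4 * x + 1) = 0 := by
    rw [h3, h4] at h34
    linear_combination h34
  rcases mul_eq_zero.1 key with h | h
  · linarith
  · linear_combination h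

theorem cubic_neg {c : ℝ} (hc : 1 < c) (h : c < 2 * Real.cos (Real.pi / 7)) :
    c < 2 ∧ c ^ 3 - c ^ 2 - 2 * c + 1 < 0 := by
  have h7 := cos_cubic
  set r := 2 * Real.cos (Real.pi / 7) with hr
  have hr2 : r ≤ 2 := by
    have := Real.cos_le_one (Real.pi / 7)
    linarith
  refine ⟨by linarith, ?_⟩
  have hr3 : 2 < r ^ 2 := by
    have h4 : Real.cos (Real.pi / 4) < Real.cos (Real.pi / 7) :=
      Real.cos_lt_cos_of_nonneg_of_le_pi (by positivity) (by linarith [Real.pi_pos])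
        (by linarith [Real.pi_pos])
    rw [Real.cos_pi_div_four] at h4
    have h5 : Real.sqrt 2 < r := by linarith
    have h6 : Real.sqrt 2 ^ 2 = 2 := Real.sq_sqrt (by norm_num)
    have h7 : 0 ≤ Real.sqrt 2 := Real.sqrt_nonneg 2
    nlinarith
  have e : c ^ 3 - c ^ 2 - 2 * c + 1 = (c - r) * (c ^ 2 + c * r + r ^ 2 - c - r - 2) := by
    linear_combination h7
  rw [e]
  apply mul_neg_of_neg_of_pos (by linarith)
  nlinarith

/-- the machine-independent part of the theorem -/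
theorem trade_bound {c : ℝ} (hc : 1 < c) (h : c < 2 * Real.cos (Real.pi / 7)) : ¬ Trade c :=
  not_Trade hc (cubic_neg hc h).1 (cubic_neg hc h).2

end Pool.Agent.NUM
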