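import Pool.Agent.NUM.Basic

/-!
# Families in `Cl b e` as sequences of programs; calculus of subexponential functions
-/

namespace Pool.Agent.NUM

open Filter

/-- `f L ≤ 2 ^ (o(L))` -/
def SubExp (f : ℕ → ℕ) : Prop := ∀ δ : ℝ, 0 < δ → ∀ᶠ L : ℕ in atTop, (f L : ℝ) ≤ 2 ^ (δ * L)

/-- `f L ≤ 2 ^ ((e + o(1)) L)` -/
def ExpLe (e : ℝ) (f : ℕ → ℕ) : Prop :=
  ∀ δ : ℝ, 0 < δ → ∀ᶠ L : ℕ in atTop, (f L : ℝ) ≤ 2 ^ ((e + δ) * L)

theorem subExp_iff {f : ℕ → ℕ} : SubExp f ↔ ExpLe 0 f := by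
  unfold SubExp ExpLe
  simp only [zero_add]

theorem ExpLe.mono {e e' : ℝ} {f : ℕ → ℕ} (h : ExpLe e f) (hee : e ≤ e') : ExpLe e' f := by
  intro δ hδ
  filter_upwards [h δ hδ] with L hL
  refine hL.trans (Real.rpow_le_rpow_of_exponent_le (by norm_num) ?_)
  exact mul_le_mul_of_nonneg_right (by linarith) (Nat.cast_nonneg _)

theorem ExpLe.mono' {e : ℝ} {f g : ℕ → ℕ} (h : ExpLe e f) (hgf : ∀ᶠ L in atTop, g L ≤ f L) :
    ExpLe e g := by
  intro δ hδ
  filter_upwards [h δ hδ, hgf] with L hL hL2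
  have : (g L : ℝ) ≤ f L := by exact_mod_cast hL2
  exact this.trans hL

theorem SubExp.mono' {f g : ℕ → ℕ} (h : SubExp f) (hgf : ∀ᶠ L in atTop, g L ≤ f L) :
    SubExp g := subExp_iff.2 ((subExp_iff.1 h).mono' hgf)

theorem ExpLe.mul {e e' : ℝ} {f g : ℕ → ℕ} (hf : ExpLe e f) (hg : ExpLe e' g) :
    ExpLe (e + e') (fun L => f L * g L) := by
  intro δ hδ
  filter_upwards [hf (δ / 2) (by linarith), hg (δ / 2) (by linarith)] with L h1 h2
  have e1 : (e + e' + δ) * (L : ℝ) = (e + δ / 2) * L + (e' + δ / 2) * L := by ring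
  rw [e1, Real.rpow_add (by norm_num)]
  push_cast
  exact mul_le_mul h1 h2 (Nat.cast_nonneg _) (by positivity)

theorem ExpLe.add {e : ℝ} {f g : ℕ → ℕ} (hf : ExpLe e f) (hg : ExpLe e g) :
    ExpLe e (fun L => f L + g L) := by
  intro δ hδ
  obtain ⟨N, hN⟩ := exists_nat_ge (1 / (δ / 2))
  filter_upwards [hf (δ / 2) (by linarith), hg (δ / 2) (by linarith), eventually_ge_atTop N]
    with L h1 h2 h3
  have h4 : (1 : ℝ) ≤ δ / 2 * L := by
    have h5 : (N : ℝ) ≤ L := by exact_mod_cast h3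
    rw [div_le_iff₀ (by linarith)] at hN
    have := mul_le_mul_of_nonneg_right h5 (show (0 : ℝ) ≤ δ / 2 by linarith)
    linarith
  have e1 : (e + δ) * (L : ℝ) = (e + δ / 2) * L + δ / 2 * L := by ring
  rw [e1, Real.rpow_add (by norm_num)]
  have h6 : (2 : ℝ) ≤ 2 ^ (δ / 2 * (L : ℝ)) := by
    calc (2 : ℝ) = 2 ^ (1 : ℝ) := (Real.rpow_one 2).symm
      _ ≤ _ := Real.rpow_le_rpow_of_exponent_le (by norm_num) h4
  push_cast
  have h7 : (0 : ℝ) < 2 ^ ((e + δ / 2) * (L : ℝ)) := by positivity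
  nlinarith

theorem SubExp.mul {f g : ℕ → ℕ} (hf : SubExp f) (hg : SubExp g) : SubExp (fun L => f L * g L) := by
  rw [subExp_iff] at *
  simpa using hf.mul hg

theorem SubExp.add {f g : ℕ → ℕ} (hf : SubExp f) (hg : SubExp g) : SubExp (fun L => f L + g L) := by
  rw [subExp_iff] at *
  exact hf.add hg

theorem SubExp.const (c : ℕ) : SubExp (fun _ => c) := by
  intro δ hδ
  obtain ⟨N, hN⟩ := exists_nat_ge (c / δ)
  filter_upwards [eventually_ge_atTop N] with L hL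
  have h1 : (N : ℝ) ≤ L := by exact_mod_cast hL
  have h2 : (c : ℝ) ≤ δ * L := by
    rw [div_le_iff₀ hδ] at hN
    have := mul_le_mul_of_nonneg_right h1 hδ.le
    linarith
  calc (c : ℝ) ≤ 2 ^ (c : ℝ) := by
        rw [Real.rpow_natCast]
        exact_mod_cast (Nat.lt_two_pow_self (n := c)).le
    _ ≤ _ := Real.rpow_le_rpow_of_exponent_le (by norm_num) h2

theorem SubExp.pow {f : ℕ → ℕ} (hf : SubExp f) (k : ℕ) : SubExp (fun L => f L ^ k) := by
  induction k with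
  | zero => simpa using SubExp.const 1
  | succ k ih =>
    simp only [pow_succ]
    exact ih.mul hf

theorem SubExp.id : SubExp (fun L => L) := by
  intro δ hδ
  -- `L ≤ 2 ^ (δ L)` for large `L`
  have h1 : Tendsto (fun L : ℕ => (L : ℝ) ^ 1 * (2 ^ (-δ) : ℝ) ^ L) atTop (nhds 0) := by
    apply tendsto_pow_const_mul_const_pow_of_lt_one 1 (by positivity)
    exact Real.rpow_lt_one_of_one_lt_of_neg (by norm_num) (by linarith)
  filter_upwards [h1.eventually (gt_mem_nhds (show (0 : ℝ) < 1 by norm_num))] with L hL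
  rw [pow_one] at hL
  have h2 : ((2 : ℝ) ^ (-δ)) ^ L = (2 ^ (δ * L))⁻¹ := by
    rw [← Real.rpow_natCast, ← Real.rpow_mul (by norm_num), ← Real.rpow_neg (by norm_num)]
    congr 1
    ring
  rw [h2] at hL
  have h3 : (0 : ℝ) < 2 ^ (δ * (L : ℝ)) := by positivity
  have h4 := mul_lt_mul_of_pos_right hL h3
  rw [mul_assoc, inv_mul_cancel₀ h3.ne', mul_one, one_mul] at h4
  exact h4.le

theorem SubExp.linear {f : ℕ → ℕ} (K : ℝ) (h : ∀ᶠ L : ℕ in atTop, (f L : ℝ) ≤ K * L + K) :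
    SubExp f := by
  obtain ⟨k, hk⟩ := exists_nat_ge K
  have h1 : SubExp (fun L => k * L + k) := ((SubExp.const k).mul SubExp.id).add (SubExp.const k)
  refine h1.mono' ?_
  filter_upwards [h] with L hL
  have h2 : (f L : ℝ) ≤ ((k * L + k : ℕ) : ℝ) := by
    push_cast
    have : K * L ≤ k * L := mul_le_mul_of_nonneg_right hk (Nat.cast_nonneg _)
    linarith
  exact_mod_cast h2

theorem SubExp.floor (K : ℝ) : SubExp (fun L => ⌊K * L⌋₊) := by
  apply SubExp.linear |K|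
  filter_upwards with L
  rcases le_or_gt 0 (K * L) with h | h
  · have h1 := Nat.floor_le h
    have h2 : K * L ≤ |K| * L := mul_le_mul_of_nonneg_right (le_abs_self K) (Nat.cast_nonneg _)
    have := abs_nonneg K
    linarith
  · rw [Nat.floor_of_nonpos h.le]
    have := abs_nonneg K
    have : (0 : ℝ) ≤ |K| * L := by positivity
    push_cast
    linarith

/-- change of the index: `B L → ∞` and `B L ≤ (E + o(1)) L` -/
theorem ExpLe.comp {c E : ℝ} {f B : ℕ → ℕ} (hc : 0 ≤ c) (hE : 0 ≤ E) (h : ExpLe c f)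
    (hB : Tendsto B atTop atTop)
    (hBE : ∀ η : ℝ, 0 < η → ∀ᶠ L : ℕ in atTop, (B L : ℝ) ≤ (E + η) * L) :
    ExpLe (c * E) (fun L => f (B L)) := by
  intro δ hδ
  -- choose `δ1 (E + 1) ≤ δ / 2`, `c η ≤ δ / 2`, `η ≤ 1`
  obtain ⟨δ1, hδ1⟩ : ∃ δ1 : ℝ, δ1 = δ / (2 * (E + 1)) := ⟨_, rfl⟩
  have hδ1p : 0 < δ1 := by rw [hδ1]; positivity
  obtain ⟨η, hη⟩ : ∃ η : ℝ, η = min 1 (δ / (2 * (c + 1))) := ⟨_, rfl⟩
  have hη0 : 0 < η := by rw [hη]; exact lt_min one_pos (by positivity)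
  have hη1 : η ≤ 1 := by rw [hη]; exact min_le_left _ _
  have hη2 : η * (c + 1) ≤ δ / 2 := by
    have h1 : η ≤ δ / (2 * (c + 1)) := by rw [hη]; exact min_le_right _ _
    rw [le_div_iff₀ (by positivity)] at h1
    linarith
  have hδ1' : δ1 * (E + 1) = δ / 2 := by rw [hδ1]; field_simp
  filter_upwards [hB.eventually (h δ1 hδ1p), hBE η hη0] with L h1 h2
  refine h1.trans (Real.rpow_le_rpow_of_exponent_le (by norm_num) ?_)
  have hL : (0 : ℝ) ≤ L := Nat.cast_nonneg _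
  calc (c + δ1) * (B L : ℝ) ≤ (c + δ1) * ((E + η) * L) :=
        mul_le_mul_of_nonneg_left h2 (by positivity)
    _ = (c * E + (c * η + δ1 * (E + η))) * L := by ring
    _ ≤ (c * E + δ) * L := by
        apply mul_le_mul_of_nonneg_right _ hL
        have h3 : δ1 * (E + η) ≤ δ1 * (E + 1) := mul_le_mul_of_nonneg_left (by linarith) hδ1p.le
        nlinarith

theorem SubExp.comp {E : ℝ} {f B : ℕ → ℕ} (hE : 0 ≤ E) (h : SubExp f)
    (hB : Tendsto B atTop atTop)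
    (hBE : ∀ η : ℝ, 0 < η → ∀ᶠ L : ℕ in atTop, (B L : ℝ) ≤ (E + η) * L) :
    SubExp (fun L => f (B L)) := by
  rw [subExp_iff] at *
  simpa using h.comp le_rfl hE hB hBE

/-- the binary logarithm of a function of exponential growth -/
theorem ExpLe.clog {e : ℝ} {f : ℕ → ℕ} (he : 0 ≤ e) (h : ExpLe e f) :
    ∀ η : ℝ, 0 < η → ∀ᶠ L : ℕ in atTop, (Nat.clog 2 (f L) : ℝ) ≤ (e + η) * L := by
  intro η hη
  obtain ⟨N, hN⟩ := exists_nat_ge (1 / (η / 2))
  filter_upwards [h (η / 2) (by linarith), eventually_ge_atTop N] with L h1 h3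
  have h4 : (1 : ℝ) ≤ η / 2 * L := by
    have h5 : (N : ℝ) ≤ L := by exact_mod_cast h3
    rw [div_le_iff₀ (by linarith)] at hN
    have := mul_le_mul_of_nonneg_right h5 (show (0 : ℝ) ≤ η / 2 by linarith)
    linarith
  have hnn : (0 : ℝ) ≤ (e + η / 2) * L := by positivity
  have h5 : Nat.clog 2 (f L) ≤ ⌈(e + η / 2) * (L : ℝ)⌉₊ := by
    apply (Nat.clog_le_iff_le_pow (by norm_num)).2
    have h6 : (f L : ℝ) ≤ ((2 ^ ⌈(e + η / 2) * (L : ℝ)⌉₊ : ℕ) : ℝ) := by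
      refine h1.trans ?_
      push_cast
      rw [← Real.rpow_natCast]
      exact Real.rpow_le_rpow_of_exponent_le (by norm_num) (Nat.le_ceil _)
    exact_mod_cast h6
  have h6 : (Nat.clog 2 (f L) : ℝ) ≤ (⌈(e + η / 2) * (L : ℝ)⌉₊ : ℝ) := by exact_mod_cast h5
  have h7 := (Nat.ceil_lt_add_one hnn).le
  have e1 : (e + η) * (L : ℝ) = (e + η / 2) * L + η / 2 * L := by ring
  linarith

/-- **Families as sequences.** -/
theorem cl_iff {b e : ℝ} {A : ℕ → Inp → Prop} : Cl b e A ↔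
    ∃ (G : ℕ → List Ins) (s T : ℕ → ℕ), SubExp s ∧ ExpLe e T ∧ (∀ L, Sz (s L) (G L)) ∧
      ∀ᶠ L : ℕ in atTop, Decides (G L) ⌊b * L⌋₊ (T L) (A L) := by
  classical
  constructor
  · intro h
    -- for `n`, a bound from which `δ = 1 / (n + 1)` works
    have h1 : ∀ n : ℕ, ∃ L₀ : ℕ, ∀ L : ℕ, L₀ ≤ L → ∃ (G : List Ins) (s T : ℕ), Sz s G ∧
        (s : ℝ) ≤ 2 ^ (1 / ((n : ℝ) + 1) * L) ∧ (T : ℝ) ≤ 2 ^ ((e + 1 / ((n : ℝ) + 1)) * L) ∧
        Decides G ⌊b * L⌋₊ T (A L) := fun n => h _ (by positivity)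
    choose N hN using h1
    -- the largest `n ≤ L` whose bounds up to `n` are passed
    let P : ℕ → ℕ → Prop := fun L n => ∀ i ≤ n, N i ≤ L
    let nn : ℕ → ℕ := fun L => Nat.findGreatest (P L) L
    have hnn : ∀ L, N 0 ≤ L → N (nn L) ≤ L := by
      intro L hL
      have h2 : P L (nn L) := Nat.findGreatest_spec (P := P L) (Nat.zero_le L) (by
        intro i hi
        have : i = 0 := by omega
        subst this
        exact hL)
      exact h2 _ le_rfl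
    have hlim : ∀ n, ∀ᶠ L in atTop, n ≤ nn L := by
      intro n
      filter_upwards [eventually_ge_atTop (n + ∑ i ∈ Finset.range (n + 1), N i)] with L hL
      apply Nat.le_findGreatest (by omega)
      intro i hi
      have h3 : N i ≤ ∑ i ∈ Finset.range (n + 1), N i :=
        Finset.single_le_sum (f := N) (fun _ _ => Nat.zero_le _) (Finset.mem_range.2 (by omega))
      omega
    have h2 : ∀ L : ℕ, ∃ (G : List Ins) (s T : ℕ), Sz s G ∧ (N 0 ≤ L →
        (s : ℝ) ≤ 2 ^ (1 / ((nn L : ℝ) + 1) * L) ∧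
        (T : ℝ) ≤ 2 ^ ((e + 1 / ((nn L : ℝ) + 1)) * L) ∧ Decides G ⌊b * L⌋₊ T (A L)) := by
      intro L
      by_cases hL : N 0 ≤ L
      · obtain ⟨G, s, T, h3, h4⟩ := hN (nn L) L (hnn L hL)
        exact ⟨G, s, T, h3, fun _ => h4⟩
      · exact ⟨[], 0, 0, ⟨by simp, by simp⟩, fun h => absurd h hL⟩
    choose G s T hG using h2
    have hsmall : ∀ δ : ℝ, 0 < δ → ∀ᶠ L in atTop, 1 / ((nn L : ℝ) + 1) ≤ δ := by
      intro δ hδ
      obtain ⟨n, hn⟩ := exists_nat_ge (1 / δ)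
      filter_upwards [hlim n] with L hL
      have h3 : (n : ℝ) ≤ nn L := by exact_mod_cast hL
      rw [div_le_iff₀ (by positivity)]
      rw [div_le_iff₀ hδ] at hn
      nlinarith
    refine ⟨G, s, T, ?_, ?_, fun L => (hG L).1, ?_⟩
    · intro δ hδ
      filter_upwards [hsmall δ hδ, eventually_ge_atTop (N 0)] with L h3 h4
      refine ((hG L).2 h4).1.trans (Real.rpow_le_rpow_of_exponent_le (by norm_num) ?_)
      exact mul_le_mul_of_nonneg_right h3 (Nat.cast_nonneg _)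
    · intro δ hδ
      filter_upwards [hsmall δ hδ, eventually_ge_atTop (N 0)] with L h3 h4
      refine ((hG L).2 h4).2.1.trans (Real.rpow_le_rpow_of_exponent_le (by norm_num) ?_)
      exact mul_le_mul_of_nonneg_right (by linarith) (Nat.cast_nonneg _)
    · filter_upwards [eventually_ge_atTop (N 0)] with L h4
      exact ((hG L).2 h4).2.2
  · rintro ⟨G, s, T, hs, hT, hG, hD⟩ δ hδ
    obtain ⟨L₀, hL₀⟩ := eventually_atTop.1 ((hs δ hδ).and ((hT δ hδ).and hD))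
    exact ⟨L₀, fun L hL => ⟨G L, s L, T L, hG L, (hL₀ L hL).1, (hL₀ L hL).2.1, (hL₀ L hL).2.2⟩⟩

/-- the form in which families are produced -/
theorem cl_of_eventually {b e : ℝ} {A : ℕ → Inp → Prop} {s T : ℕ → ℕ} (hs : SubExp s)
    (hT : ExpLe e T) (h : ∀ᶠ L : ℕ in atTop, ∃ G : List Ins, Sz (s L) G ∧
      Decides G ⌊b * L⌋₊ (T L) (A L)) : Cl b e A := by
  intro δ hδ
  obtain ⟨L₀, hL₀⟩ := eventually_atTop.1 ((hs δ hδ).and ((hT δ hδ).and h))
  refine ⟨L₀, fun L hL => ?_⟩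
  obtain ⟨h1, h2, G, h3, h4⟩ := hL₀ L hL
  exact ⟨G, s L, T L, h3, h1, h2, h4⟩

theorem Decides.congr_supp {G : List Ins} {B T : ℕ} {P Q : Inp → Prop} (h : Decides G B T P)
    (hPQ : ∀ z, Supp B z → (P z ↔ Q z)) : Decides G B T Q := by
  intro z hz
  obtain ⟨b, h1, h2⟩ := h z hz
  exact ⟨b, h1, h2.trans (hPQ z hz)⟩

end Pool.Agent.NUM
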