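import Pool.Agent.NUM.GAbs

/-!
# Theorem H(b, γ) for random access machines, abstract part

As `RAbs`, but the separator constants of a problem of time exponent `e` have the exponent `β e`.
-/

set_option autoImplicit false

namespace Pool.Agent.NUM

/-- **Families of list problems**; `κ` is the exponent of the separator constants.  The levels `r` are
those with `κ ≤ (1 - γ) r`, `r ≤ e₀`. -/
structure IsFamB (γ κ : ℝ) {T : Type} (π : Pres T) (P : T → Prop) (e₀ : ℝ) (w : ℝ → ℕ → ℕ)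
    (Tr Bad : ℝ → T × Inp → Prop) : Prop where
  lin : ∀ r, κ ≤ (1 - γ) * r → r ≤ e₀ → Lin (κ + γ * r) (w r)
  /-- transcripts -/
  base : ∀ r, κ ≤ (1 - γ) * r → r ≤ e₀ → Cert ClsH r (π.ext (w r)) (Bad r) (Tr r) r
  /-- from level `r` to level `e` -/
  step : ∀ r e, κ ≤ (1 - γ) * r → r ≤ e → e ≤ e₀ → ∀ u e' : ℝ, 0 ≤ u → 0 ≤ e' →
    Cert ClsH u (π.ext (w r)) (Bad r) (Tr r) e' →
    Dual (e + κ - (1 - γ) * r) u (π.ext (w e)) (Bad e) (Tr e) e'
  /-- from level `r` to the problem itself -/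
  top : ∀ r, κ ≤ (1 - γ) * r → r ≤ e₀ → ∀ u e' : ℝ, 0 ≤ u → 0 ≤ e' →
    Cert ClsH u (π.ext (w r)) (Bad r) (Tr r) e' →
    Dual (e₀ + κ - (1 - γ) * r) u π P (fun τ => ¬ P τ) e'

/-- the interface -/
structure TradeB (S : Set ℕ) (Cls : (T : Type) → Pres T → (T → Prop) → ℝ → Prop) (c γ β₀ : ℝ) :
    Prop where
  mono : ∀ {T : Type} {π : Pres T} {P : T → Prop} {e e' : ℝ}, Cls T π P e → e ≤ e' → Cls T π P e'
  not : ∀ {T : Type} {π : Pres T} {P : T → Prop} {b e : ℝ}, Size π b → Cls T π P e →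
    Cls T π (fun τ => ¬ P τ) e
  merge : ∀ {T : Type} {π : Pres T} {b u u' e : ℝ} {β β' : ℕ → ℕ}
    {C : (T × Inp) × Inp → Prop}, Size π b → Lin u β → Lin u' β' →
    Cls _ ((π.ext β).ext β') C e →
    ∃ β'' : ℕ → ℕ, Lin (max u u') β'' ∧
      Cls _ (π.ext β'')
        (fun p => C ((p.1, fun a => p.2 (false :: a)), fun a => p.2 (true :: a))) e
  /-- transcripts -/
  toC : ∀ {T : Type} {π : Pres T} {P : T → Prop} {b e : ℝ}, Size π b → 0 ≤ e → Cls T π P e →
    Cert ClsH e π P (fun τ => ¬ P τ) e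
  mergeH : ∀ {T : Type} {π : Pres T} {b u u' e : ℝ} {β β' : ℕ → ℕ}
    {C : (T × Inp) × Inp → Prop}, Size π b → Lin u β → Lin u' β' →
    InH ((π.ext β).ext β') C e →
    ∃ β'' : ℕ → ℕ, Lin (max u u') β'' ∧
      InH (π.ext β'')
        (fun p => C ((p.1, fun a => p.2 (false :: a)), fun a => p.2 (true :: a))) e
  dummyH : ∀ {T : Type} {π : Pres T} {P : T → Prop} {b u e : ℝ} {β : ℕ → ℕ}, Size π b →
    Lin u β → InH π P e → InH (π.ext β) (fun p => P p.1) e
  elim : ∀ {T : Type} {π : Pres T} {b u e : ℝ} {β : ℕ → ℕ} {A : T × Inp → Prop},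
    (∀ τ, π.idx τ ∈ S) → 1 ≤ b → Size π b → Lin u β → InH (π.ext β) A e →
    Cls T π (fun τ => ∃ y, A (τ, y)) (c * max b (max u e))
  fam : ∀ {T : Type} {π : Pres T} {P : T → Prop} {b e : ℝ}, Size π b → 0 ≤ e → Cls T π P e →
    ∃ (w : ℝ → ℕ → ℕ) (Tr Bad : ℝ → T × Inp → Prop), IsFamB γ (β₀ * e) π P e w Tr Bad
  diag : ∀ (a : ℕ) (u e : ℝ), 1 ≤ a → u ≤ e → e < a →
    ∃ (T : Type) (π : Pres T) (D : T → Prop), (∀ τ, π.idx τ ∈ S) ∧ Size π 1 ∧
      Cls T π D (c * a) ∧ ¬ InEH u π D e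

section

variable {S : Set ℕ} {Cls : (T : Type) → Pres T → (T → Prop) → ℝ → Prop} {c γ β₀ : ℝ}

theorem Cert.monoB (H : TradeB S Cls c γ β₀) {T : Type} {u e e' : ℝ} {π : Pres T} {Y Z : T → Prop}
    (h : Cert Cls u π Y Z e) (he : e ≤ e') : Cert Cls u π Y Z e' := by
  obtain ⟨β, B, h1, h2, h3⟩ := h
  exact ⟨β, B, h1, H.mono h2 he, h3⟩

theorem Cert.toHB (H : TradeB S Cls c γ β₀) {T : Type} {b u e : ℝ} {π : Pres T} {Y Z : T → Prop}
    (hs : Size π b) (he : 0 ≤ e) (h : Cert Cls u π Y Z e) : Cert ClsH (max u e) π Y Z e := by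
  obtain ⟨β, B, h1, h2, L₀, h3⟩ := h
  obtain ⟨β', B', h4, h5, L₁, h6⟩ := H.toC (hs.ext h1) he h2
  obtain ⟨β'', h7, h8⟩ := H.mergeH hs h1 h4 h5
  refine ⟨β'', _, h7, h8, max L₀ L₁, fun τ hτ => ⟨fun hY => ?_, fun hZ y hy => ?_⟩⟩
  · obtain ⟨y, hy⟩ := (h3 τ (le_trans (le_max_left _ _) hτ)).1 hY
    obtain ⟨y', hy'⟩ := (h6 (τ, y) (le_trans (le_max_right _ _) hτ)).1 hy
    exact ⟨pair y y', hy'⟩
  · exact (h6 (τ, fun a => y (false :: a)) (le_trans (le_max_right _ _) hτ)).2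
      ((h3 τ (le_trans (le_max_left _ _) hτ)).2 hZ _) _ hy

/-- slow down -/
theorem Dual.certB (H : TradeB S Cls c γ β₀) {T : Type} {x u e b : ℝ} {π : Pres T} {Y Z : T → Prop}
    (hπ : ∀ τ, π.idx τ ∈ S) (hb : 1 ≤ b) (hs : Size π b) (h : Dual x u π Y Z e) :
    Cert Cls x π Y Z (c * max (max b x) (max u e)) := by
  obtain ⟨β, β', A, h1, h2, h3, L₀, h4⟩ := h
  have hs' : Size (π.ext β) (max b x) := hs.ext h1
  have h5 := H.elim (fun p => hπ p.1) (hb.trans (le_max_left b x)) hs' h2 h3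
  have h6 := H.not hs' h5
  refine ⟨β, _, h1, h6, L₀, fun τ hτ => ?_⟩
  obtain ⟨g1, g2⟩ := h4 τ hτ
  refine ⟨fun hY => ?_, fun hZ y hy => ?_⟩
  · obtain ⟨y, hy⟩ := g1 hY
    exact ⟨y, fun ⟨v, hv⟩ => hy v hv⟩
  · exact hy (g2 hZ y)

/-- one round: speed up, merge, slow down -/
theorem Cert.roundB (H : TradeB S Cls c γ β₀) (hγ1 : γ < 1) {T : Type}
    {π : Pres T} {Y Z : T → Prop} {b u e : ℝ} (hπ : ∀ τ, π.idx τ ∈ S) (hb : 1 ≤ b) (hbu : b ≤ u)
    (hs : Size π b) (hβ₀ : 0 ≤ β₀) (hue : u ≤ e) (hγe : (β₀ + γ) * e ≤ u)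
    (h : Cert Cls u π Y Z e) :
    Cert Cls u π Y Z (c * max u (((1 + β₀) * e - u) / (1 - γ))) := by
  obtain ⟨β, B, hL, hB, n0, hP⟩ := h
  have h1γ : 0 < 1 - γ := by linarith
  have hs1 : Size (π.ext β) u := by
    have := hs.ext hL
    rwa [max_eq_right hbu] at this
  have he0 : 0 ≤ e := by linarith
  obtain ⟨w, Tr, Bad, F⟩ := H.fam hs1 he0 hB
  set r : ℝ := ((1 + β₀) * e - u) / (1 - γ) with hr
  have hβe : 0 ≤ β₀ * e := mul_nonneg hβ₀ he0
  have hr0 : 0 ≤ r := div_nonneg (by linarith) h1γ.le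
  have hrt : (1 - γ) * r = (1 + β₀) * e - u := by
    rw [hr]
    field_simp
  have hκ : β₀ * e ≤ (1 - γ) * r := by
    rw [hrt]
    linarith
  have hre : r ≤ e := by
    rw [hr, div_le_iff₀ h1γ]
    linarith
  have hx : e + β₀ * e - (1 - γ) * r = u := by
    rw [hrt]
    ring
  have hD := F.top r hκ hre r r hr0 hr0 (F.base r hκ hre)
  rw [hx] at hD
  obtain ⟨β', β'', A, h1, h2, h3, L₀, h4⟩ := hD
  have hs2 : Size ((π.ext β).ext β') u := by
    have := hs1.ext h1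
    rwa [max_self] at this
  have h5 := H.not hs2 (H.elim (fun p => hπ p.1.1) (hb.trans hbu) hs2 h2 h3)
  obtain ⟨β₂, hβ₂, h6⟩ := H.merge hs hL h1 h5
  rw [max_self] at hβ₂
  rw [show max r r = r from max_self r] at h6
  refine ⟨β₂, _, hβ₂, h6, max n0 L₀, fun τ hτ => ?_⟩
  obtain ⟨g1, g2⟩ := hP τ (le_trans (le_max_left _ _) hτ)
  have hτ' : L₀ ≤ π.idx τ := le_trans (le_max_right _ _) hτ
  refine ⟨fun hY => ?_, fun hZ y hy => ?_⟩
  · obtain ⟨y, hy⟩ := g1 hY
    obtain ⟨y', hy'⟩ := (h4 (τ, y) hτ').1 hy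
    exact ⟨pair y y', fun ⟨v, hv⟩ => hy' v hv⟩
  · exact hy ((h4 (τ, fun a => y (false :: a)) hτ').2 (g2 hZ _) _)

/-- rounds until the time is `c u` -/
theorem Cert.reduceB (H : TradeB S Cls c γ β₀) (hc : 1 < c) (hγ : 0 ≤ γ) (hγ1 : γ < 1)
    (hβ₀ : 0 ≤ β₀) {T : Type}
    {π : Pres T} {Y Z : T → Prop} {b u : ℝ} (hπ : ∀ τ, π.idx τ ∈ S) (hb : 1 ≤ b) (hbu : b ≤ u)
    (hs : Size π b) (j : ℕ) :
    ∀ e : ℝ, e < c * u / (c - 1 + γ + c * β₀) →
      c * u / (c - 1 + γ + c * β₀) - (2 - γ) * u / (1 + β₀) ≤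
        (c * u / (c - 1 + γ + c * β₀) - e) * (c * (1 + β₀) / (1 - γ)) ^ j →
      Cert Cls u π Y Z e → Cert Cls u π Y Z (c * u) := by
  have hu : 0 < u := by linarith
  have h1γ : 0 < 1 - γ := by linarith
  have h1β : 0 < 1 + β₀ := by linarith
  have hcβ : 0 ≤ c * β₀ := mul_nonneg (by linarith) hβ₀
  have hcγ : 0 < c - 1 + γ + c * β₀ := by linarith
  have hγe : ∀ e, e < c * u / (c - 1 + γ + c * β₀) → (β₀ + γ) * e ≤ u := by
    intro e he
    rw [lt_div_iff₀ hcγ] at he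
    have h1 : (β₀ + γ) * (e * (c - 1 + γ + c * β₀)) ≤ (β₀ + γ) * (c * u) :=
      mul_le_mul_of_nonneg_left he.le (by linarith)
    have h2 : (β₀ + γ) * (c * u) ≤ u * (c - 1 + γ + c * β₀) := by
      have h3 : 0 ≤ u * ((c - 1) * (1 - γ)) :=
        mul_nonneg hu.le (mul_nonneg (by linarith) h1γ.le)
      have h4 : u * (c - 1 + γ + c * β₀) - (β₀ + γ) * (c * u) = u * ((c - 1) * (1 - γ)) := by ring
      linarith
    have h3 : ((β₀ + γ) * e) * (c - 1 + γ + c * β₀) ≤ u * (c - 1 + γ + c * β₀) := by linarith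
    exact le_of_mul_le_mul_right h3 hcγ
  have base : ∀ e : ℝ, e < c * u / (c - 1 + γ + c * β₀) → e ≤ (2 - γ) * u / (1 + β₀) →
      Cert Cls u π Y Z e → Cert Cls u π Y Z (c * u) := by
    intro e he he2 h
    rcases le_total e u with h1 | h1
    · exact h.monoB H (h1.trans (by nlinarith))
    · refine (h.roundB H hγ1 hπ hb hbu hs hβ₀ h1 (hγe e he)).monoB H ?_
      rw [max_eq_left]
      rw [div_le_iff₀ h1γ]
      rw [le_div_iff₀ h1β] at he2
      linarith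
  induction j with
  | zero =>
    intro e he he2 h
    exact base e he (by rw [pow_zero, mul_one] at he2; linarith) h
  | succ j ih =>
    intro e he he2 h
    rcases le_total e ((2 - γ) * u / (1 + β₀)) with h2 | h2
    · exact base e he h2 h
    · rcases le_total e u with hue' | hue
      · exact h.monoB H (hue'.trans (by nlinarith))
      have h3 := h.roundB H hγ1 hπ hb hbu hs hβ₀ hue (hγe e he)
      rw [max_eq_right (by
        rw [le_div_iff₀ h1γ]
        rw [div_le_iff₀ h1β] at h2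
        linarith)] at h3
      have hkey : c * u / (c - 1 + γ + c * β₀) - c * (((1 + β₀) * e - u) / (1 - γ)) =
          (c * u / (c - 1 + γ + c * β₀) - e) * (c * (1 + β₀) / (1 - γ)) := by
        field_simp
        ring
      have hpos : 0 < (c * u / (c - 1 + γ + c * β₀) - e) * (c * (1 + β₀) / (1 - γ)) :=
        mul_pos (by linarith) (div_pos (mul_pos (by linarith) h1β) h1γ)
      refine ih _ (by linarith) ?_ h3
      rw [hkey]
      calc _ ≤ _ := he2
        _ = _ := by rw [pow_succ]; ring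

theorem Cert.reduceB' (H : TradeB S Cls c γ β₀) (hc : 1 < c) (hγ : 0 ≤ γ) (hγ1 : γ < 1)
    (hβ₀ : 0 ≤ β₀) {T : Type}
    {π : Pres T} {Y Z : T → Prop} {b u e : ℝ} (hπ : ∀ τ, π.idx τ ∈ S) (hb : 1 ≤ b) (hbu : b ≤ u)
    (hs : Size π b) (he : e < c * u / (c - 1 + γ + c * β₀)) (h : Cert Cls u π Y Z e) :
    Cert Cls u π Y Z (c * u) := by
  have h1γ : 0 < 1 - γ := by linarith
  have hcβ : 0 ≤ c * β₀ := mul_nonneg (by linarith) hβ₀
  have hρ : 1 < c * (1 + β₀) / (1 - γ) := by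
    rw [lt_div_iff₀ h1γ]
    nlinarith
  obtain ⟨j, hj⟩ := pow_unbounded_of_one_lt
    ((c * u / (c - 1 + γ + c * β₀) - (2 - γ) * u / (1 + β₀)) / (c * u / (c - 1 + γ + c * β₀) - e)) hρ
  refine h.reduceB H hc hγ hγ1 hβ₀ hπ hb hbu hs j e he ?_
  have : 0 < c * u / (c - 1 + γ + c * β₀) - e := by linarith
  rw [div_lt_iff₀ this] at hj
  linarith [hj]

/-- slow down and rounds, for a dual certificate of size `y` with records of size `c x` -/
theorem Dual.pushB (H : TradeB S Cls c γ β₀) (hc : 1 < c) (hγ : 0 ≤ γ) (hγ1 : γ < 1)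
    (hβ₀ : 0 ≤ β₀) {x y₀ y : ℝ} (hxy : c * (c - 1 + γ + c * β₀) * x < y)
    (hy₀ : y₀ ≤ y) {T : Type}
    {π : Pres T} {Y Z : T → Prop} {b : ℝ} (hπ : ∀ τ, π.idx τ ∈ S) (hb : 1 ≤ b) (hs : Size π b)
    (hby : b ≤ y) (h : Dual y₀ (c * x) π Y Z (c * x)) : Cert Cls y π Y Z (c * y) := by
  have h1γ : 0 < 1 - γ := by linarith
  have hcβ : 0 ≤ c * β₀ := mul_nonneg (by linarith) hβ₀
  have hcγ : 0 < c - 1 + γ + c * β₀ := by linarith
  have h0 : Dual y (c * x) π Y Z (c * x) := by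
    obtain ⟨β, β', A, h1, h2, h3⟩ := h
    exact ⟨β, β', A, h1.mono hy₀, h2, h3⟩
  have h1 := h0.certB H hπ hb hs
  rw [max_eq_right hby, show max (c * x) (c * x) = c * x from max_self _] at h1
  rcases le_total (c * x) y with h2 | h2
  · rwa [max_eq_left h2] at h1
  · rw [max_eq_right h2] at h1
    refine h1.reduceB' H hc hγ hγ1 hβ₀ hπ hb hby hs ?_
    rw [lt_div_iff₀ hcγ]
    have e1 : c * (c * x) * (c - 1 + γ + c * β₀) = c * (c * (c - 1 + γ + c * β₀) * x) := by ring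
    rw [e1]
    exact mul_lt_mul_of_pos_left hxy (by linarith)

end

/-! ### the levels -/

/-- the pairs `(r, x)` such that the bad lists of level `r` have deterministic certificates of size
`c x`, in units of the exponent `a` of the diagonal problem; a level `r` has its transcripts, of size
`r = c (r / c)` -/
inductive BReach (c γ b : ℝ) : ℝ → ℝ → Prop
  | base {r : ℝ} : 0 < r → b ≤ (1 - γ) * r → r ≤ c → BReach c γ b r (r / c)
  | step {r x e y : ℝ} : BReach c γ b r x → r ≤ e → e ≤ c → e + b - (1 - γ) * r ≤ y →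
      c * (c - 1 + γ + b) * x < y → b + γ * e ≤ y → BReach c γ b e y

theorem BReach.pos {c γ b r x : ℝ} (h : BReach c γ b r x) (hc : 1 < c) (hγ : 0 ≤ γ) (hγ1 : γ < 1)
    (hb : 0 ≤ b) : 0 < r ∧ 0 < x ∧ b ≤ (1 - γ) * r ∧ r ≤ c := by
  have h1γ : 0 < 1 - γ := by linarith
  have hm : 0 ≤ c * (c - 1 + γ + b) := mul_nonneg (by linarith) (by linarith)
  induction h with
  | base h1 h2 h3 => exact ⟨h1, div_pos h1 (by linarith), h2, h3⟩
  | step _ h1 h2 _ h4 _ ih =>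
    obtain ⟨g1, g2, g3, -⟩ := ih
    refine ⟨g1.trans_le h1, lt_of_le_of_lt (mul_nonneg hm g2.le) h4, g3.trans ?_, h2⟩
    exact mul_le_mul_of_nonneg_left h1 h1γ.le

section

variable {S : Set ℕ} {Cls : (T : Type) → Pres T → (T → Prop) → ℝ → Prop} {c γ b : ℝ}

/-- **Certificates of bad lists** for the reachable pairs. -/
theorem BReach.cert {r x : ℝ} (h : BReach c γ b r x) (H : TradeB S Cls c γ (b / c)) (hc : 1 < c)
    (hγ : 0 ≤ γ) (hγ1 : γ < 1) (hb : 0 ≤ b) :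
    ∃ K : ℝ, ∀ a : ℝ, K ≤ a → 0 < a → ∀ (T : Type) (π : Pres T) (P : T → Prop) (w : ℝ → ℕ → ℕ)
      (Tr Bad : ℝ → T × Inp → Prop), (∀ τ, π.idx τ ∈ S) → Size π 1 →
      IsFamB γ (b * a) π P (c * a) w Tr Bad →
      Cert ClsH (c * (x * a)) (π.ext (w (r * a))) (Bad (r * a)) (Tr (r * a)) (c * (x * a)) := by
  have h1γ : 0 < 1 - γ := by linarith
  have hc0 : 0 < c := by linarith
  have hcb : c * (b / c) = b := by field_simp
  have hbc : 0 ≤ b / c := div_nonneg hb hc0.le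
  induction h with
  | @base r h1 h2 h3 =>
    refine ⟨0, fun a _ ha0 T π P w Tr Bad hπ hs F => ?_⟩
    have hκ : b * a ≤ (1 - γ) * (r * a) := by
      calc b * a ≤ (1 - γ) * r * a := mul_le_mul_of_nonneg_right h2 ha0.le
        _ = _ := by ring
    have hrc : r * a ≤ c * a := mul_le_mul_of_nonneg_right h3 ha0.le
    have e1 : c * (r / c * a) = r * a := by field_simp
    rw [e1]
    exact F.base _ hκ hrc
  | @step r x e y hr h1 h2 h3 h4 h5 ih =>
    obtain ⟨K, hK⟩ := ih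
    obtain ⟨g1, g2, g3, g4⟩ := hr.pos hc hγ hγ1 hb
    have hm : 0 ≤ c * (c - 1 + γ + b) := mul_nonneg hc0.le (by linarith)
    have hy : 0 < y := lt_of_le_of_lt (mul_nonneg hm g2.le) h4
    refine ⟨max K (1 / y), fun a ha ha0 T π P w Tr Bad hπ hs F => ?_⟩
    have hya : 1 ≤ y * a := by
      have h6 := (le_max_right K (1 / y)).trans ha
      rw [div_le_iff₀ hy] at h6
      linarith
    have hκ : b * a ≤ (1 - γ) * (r * a) := by
      calc b * a ≤ (1 - γ) * r * a := mul_le_mul_of_nonneg_right g3 ha0.le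
        _ = _ := by ring
    have hκe : b * a ≤ (1 - γ) * (e * a) := by
      refine hκ.trans (mul_le_mul_of_nonneg_left ?_ h1γ.le)
      exact mul_le_mul_of_nonneg_right h1 ha0.le
    have hre : r * a ≤ e * a := mul_le_mul_of_nonneg_right h1 ha0.le
    have hec : e * a ≤ c * a := mul_le_mul_of_nonneg_right h2 ha0.le
    have hxa : 0 < x * a := mul_pos g2 ha0
    have hcx : 0 ≤ c * (x * a) := by positivity
    have h8 := hK a ((le_max_left _ _).trans ha) ha0 T π P w Tr Bad hπ hs F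
    have h9 := F.step _ _ hκ hre hec (c * (x * a)) (c * (x * a)) hcx hcx h8
    have hs1 : Size (π.ext (w (e * a))) (y * a) := by
      refine (hs.ext (F.lin _ hκe hec)).mono (max_le hya ?_)
      calc b * a + γ * (e * a) = (b + γ * e) * a := by ring
        _ ≤ y * a := mul_le_mul_of_nonneg_right h5 ha0.le
    have h10 : Cert Cls (y * a) (π.ext (w (e * a))) (Bad (e * a)) (Tr (e * a)) (c * (y * a)) := by
      refine h9.pushB H hc hγ hγ1 hbc (y := y * a) ?_ ?_ (fun p => hπ p.1) hya hs1 le_rfl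
      · rw [hcb]
        calc c * (c - 1 + γ + b) * (x * a) = c * (c - 1 + γ + b) * x * a := by ring
          _ < y * a := mul_lt_mul_of_pos_right h4 ha0
      · calc e * a + b * a - (1 - γ) * (r * a) = (e + b - (1 - γ) * r) * a := by ring
          _ ≤ y * a := mul_le_mul_of_nonneg_right h3 ha0.le
    have hya0 : 0 ≤ y * a := by linarith
    have h11 := h10.toHB H (hs.ext (F.lin _ hκe hec)) (by positivity)
    rwa [max_eq_right (show y * a ≤ c * (y * a) by nlinarith)] at h11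

/-- **Exponent trading**, two parameters. -/
theorem not_TradeB_of_reach (hc : 1 < c) (hγ : 0 ≤ γ) (hγ1 : γ < 1) (hb : 0 ≤ b) {r x y : ℝ}
    (h : BReach c γ b r x) (h1 : c + b - (1 - γ) * r ≤ y) (h2 : c * (c - 1 + γ + b) * x < y)
    (h3 : c * y < 1) : ¬ TradeB S Cls c γ (b / c) := by
  intro H
  have h1γ : 0 < 1 - γ := by linarith
  have hc0 : 0 < c := by linarith
  have hcb : c * (b / c) = b := by field_simp
  have hbc : 0 ≤ b / c := div_nonneg hb hc0.le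
  obtain ⟨K, hK⟩ := h.cert H hc hγ hγ1 hb
  obtain ⟨g1, g2, g3, g4⟩ := h.pos hc hγ hγ1 hb
  have hm : 0 ≤ c * (c - 1 + γ + b) := mul_nonneg hc0.le (by linarith)
  have hy : 0 < y := lt_of_le_of_lt (mul_nonneg hm g2.le) h2
  obtain ⟨a, ha⟩ := exists_nat_ge (max 1 (max K (1 / y)))
  have ha1 : (1 : ℝ) ≤ a := le_trans (le_max_left _ _) ha
  have haK : K ≤ a := le_trans (le_trans (le_max_left _ _) (le_max_right _ _)) ha
  have hay : 1 / y ≤ a := le_trans (le_trans (le_max_right _ _) (le_max_right _ _)) ha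
  have ha0 : (0 : ℝ) < a := by linarith
  have hya : 1 ≤ y * a := by
    rw [div_le_iff₀ hy] at hay
    linarith
  have hya0 : 0 ≤ y * a := by linarith
  have he : c * (y * a) < a := by
    calc c * (y * a) = c * y * a := by ring
      _ < 1 * a := mul_lt_mul_of_pos_right h3 ha0
      _ = a := one_mul _
  have hue : y * a ≤ c * (y * a) := by nlinarith
  obtain ⟨T, π, D, hπ, hs, hD, hno⟩ := H.diag a _ _ (by exact_mod_cast ha1) (le_refl _) he
  obtain ⟨w, Tr, Bad, F⟩ := H.fam hs (by positivity) hD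
  have e1 : b / c * (c * a) = b * a := by field_simp
  rw [e1] at F
  have hκ : b * a ≤ (1 - γ) * (r * a) := by
    calc b * a ≤ (1 - γ) * r * a := mul_le_mul_of_nonneg_right g3 ha0.le
      _ = _ := by ring
  have hrc : r * a ≤ c * a := mul_le_mul_of_nonneg_right g4 ha0.le
  have hxa : 0 < x * a := mul_pos g2 ha0
  have hcx : 0 ≤ c * (x * a) := by positivity
  have h8 := hK a haK ha0 T π D w Tr Bad hπ hs F
  have h9 := F.top _ hκ hrc (c * (x * a)) (c * (x * a)) hcx hcx h8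
  have h10 : Cert Cls (y * a) π D (fun τ => ¬ D τ) (c * (y * a)) := by
    refine h9.pushB H hc hγ hγ1 hbc (y := y * a) ?_ ?_ hπ le_rfl hs hya
    · rw [hcb]
      calc c * (c - 1 + γ + b) * (x * a) = c * (c - 1 + γ + b) * x * a := by ring
        _ < y * a := mul_lt_mul_of_pos_right h2 ha0
    · calc c * a + b * a - (1 - γ) * (r * a) = (c + b - (1 - γ) * r) * a := by ring
        _ ≤ y * a := mul_le_mul_of_nonneg_right h1 ha0.le
  have h2' := h10.toHB H hs (by positivity)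
  rw [max_eq_right hue] at h2'
  obtain ⟨β, B, h3, h4, L₀, h5⟩ := h2'
  refine hno ⟨β, B, h3, h4, L₀, fun τ hτ => ?_⟩
  obtain ⟨g1, g2⟩ := h5 τ hτ
  refine ⟨g1, fun ⟨y, hy⟩ => ?_⟩
  by_contra hcon
  exact g2 hcon y hy

end

end Pool.Agent.NUM
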