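import Pool.Agent.NUM.Blk

/-!
# Block calculus: conjunctions, disjunctions, numbers, multiplexer
-/

namespace Pool.Agent.NUM

theorem Cp.all {b s n : ℕ} {f : ℕ → Inp → Mem → Bool} (h : ∀ i < n, Cp b s (f i)) :
    Cp b (n * (s + 30) + 30) (fun z M => (List.range n).all fun i => f i z M) := by
  induction n with
  | zero =>
    exact ((Cp.const b true).congr (by intro z M; simp)).mono le_rfl (by omega)
  | succ n ih =>
    have h1 := (ih fun i hi => h i (by omega)).and (h n (by omega))
    refine (h1.congr ?_).mono le_rfl ?_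
    · intro z M
      rw [List.range_succ, List.all_append]
      simp
    · rw [Nat.succ_mul]
      omega

theorem Cp.any {b s n : ℕ} {f : ℕ → Inp → Mem → Bool} (h : ∀ i < n, Cp b s (f i)) :
    Cp b (n * (s + 30) + 30) (fun z M => (List.range n).any fun i => f i z M) := by
  induction n with
  | zero =>
    exact ((Cp.const b false).congr (by intro z M; simp)).mono le_rfl (by omega)
  | succ n ih =>
    have h1 := (ih fun i hi => h i (by omega)).or (h n (by omega))
    refine (h1.congr ?_).mono le_rfl ?_
    · intro z M
      rw [List.range_succ, List.any_append]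
      simp
    · rw [Nat.succ_mul]
      omega

theorem num_succ (n : ℕ) (g : ℕ → Bool) :
    num (n + 1) g = num n g + if g n = true then 2 ^ n else 0 := by
  unfold num
  rw [Finset.sum_range_succ]

theorem num_lt (n : ℕ) (g : ℕ → Bool) : num n g < 2 ^ n := by
  induction n with
  | zero => simp [num]
  | succ n ih =>
    rw [num_succ, pow_succ]
    split_ifs <;> omega

theorem testBit_num (n : ℕ) (g : ℕ → Bool) (i : ℕ) :
    (num n g).testBit i = (decide (i < n) && g i) := by
  induction n with
  | zero => simp [num]
  | succ n ih =>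
    rw [num_succ]
    have hlt := num_lt n g
    split_ifs with hg
    · rw [Nat.add_comm]
      rcases Nat.lt_trichotomy i n with h | h | h
      · rw [Nat.testBit_two_pow_add_gt h, ih]
        simp [h, Nat.lt_succ_of_lt h]
      · subst h
        rw [Nat.testBit_two_pow_add_eq, Nat.testBit_lt_two_pow hlt, hg]
        simp
      · have h1 : 2 ^ n + num n g < 2 ^ i := by
          calc 2 ^ n + num n g < 2 ^ n + 2 ^ n := by omega
            _ = 2 ^ (n + 1) := by rw [pow_succ]; omega
            _ ≤ 2 ^ i := Nat.pow_le_pow_right (by norm_num) h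
        rw [Nat.testBit_lt_two_pow h1]
        have h2 : ¬ i < n + 1 := by omega
        simp [h2]
    · rw [Nat.add_zero, ih]
      rcases Nat.lt_trichotomy i n with h | h | h
      · simp [h, Nat.lt_succ_of_lt h]
      · subst h
        have h2 : g i = false := by simpa using hg
        simp [h2]
      · have h1 : ¬ i < n := by omega
        have h2 : ¬ i < n + 1 := by omega
        simp [h1, h2]

theorem num_testBit (n x : ℕ) : num n (fun i => x.testBit i) = x % 2 ^ n := by
  apply Nat.eq_of_testBit_eq
  intro i
  rw [testBit_num, Nat.testBit_mod_two_pow]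

theorem num_congr {n : ℕ} {g h : ℕ → Bool} (hgh : ∀ i < n, g i = h i) : num n g = num n h := by
  unfold num
  refine Finset.sum_congr rfl fun i hi => ?_
  rw [hgh i (Finset.mem_range.1 hi)]

theorem length_bits (n x : ℕ) : (bits n x).length = n := by simp [bits]

theorem bits_num (n : ℕ) (g : ℕ → Bool) : bits n (num n g) = (List.range n).map g := by
  unfold bits
  apply List.map_congr_left
  intro i hi
  rw [List.mem_range] at hi
  rw [testBit_num]
  simp [hi]

theorem num_eq_iff (n : ℕ) (g : ℕ → Bool) (k : ℕ) (hk : k < 2 ^ n) :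
    num n g = k ↔ ∀ i < n, g i = k.testBit i := by
  constructor
  · rintro h i hi
    rw [← h, testBit_num]
    simp [hi]
  · intro h
    rw [num_congr h, num_testBit, Nat.mod_eq_of_lt hk]

theorem bits_inj {n x y : ℕ} (hx : x < 2 ^ n) (hy : y < 2 ^ n) (h : bits n x = bits n y) :
    x = y := by
  have h1 : ∀ i < n, x.testBit i = y.testBit i := by
    intro i hi
    unfold bits at h
    exact List.map_inj_left.1 h i (List.mem_range.2 hi)
  have h2 := (num_eq_iff n (fun i => x.testBit i) y hy).2 h1
  rwa [num_testBit, Nat.mod_eq_of_lt hx] at h2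

theorem all_beq (n : ℕ) (g h : ℕ → Bool) :
    ((List.range n).all fun i => g i == h i) = decide (∀ i < n, g i = h i) := by
  rw [Bool.eq_iff_iff, List.all_eq_true, decide_eq_true_iff]
  simp only [List.mem_range, beq_iff_eq]

/-- equality with a constant -/
theorem Cp.numEq {b s n : ℕ} {g : ℕ → Inp → Mem → Bool} (h : ∀ i < n, Cp b s (g i)) (k : ℕ) :
    Cp b (n * (2 * s + 100) + 50) (fun z M => decide (num n (fun i => g i z M) = k)) := by
  by_cases hk : k < 2 ^ n
  · have h1 := Cp.all (n := n) (f := fun i z M => g i z M == k.testBit i)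
      (fun i hi => (h i hi).beq (Cp.const b (k.testBit i)))
    refine (h1.congr ?_).mono le_rfl ?_
    · intro z M
      rw [all_beq n (fun i => g i z M) (fun i => k.testBit i)]
      exact decide_eq_decide.2 (num_eq_iff n _ k hk).symm
    · have : n * (2 * s + 2 * 8 + 36 + 30) ≤ n * (2 * s + 100) := Nat.mul_le_mul_left _ (by omega)
      omega
  · refine ((Cp.const b false).congr ?_).mono le_rfl (by omega)
    intro z M
    symm
    rw [decide_eq_false_iff_not]
    intro h2
    exact hk (h2 ▸ num_lt n _)

theorem num_inj_iff (n : ℕ) (g g' : ℕ → Bool) : num n g = num n g' ↔ ∀ i < n, g i = g' i := by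
  rw [num_eq_iff n g _ (num_lt n g')]
  constructor
  · intro h i hi
    rw [h i hi, testBit_num]
    simp [hi]
  · intro h i hi
    rw [h i hi, testBit_num]
    simp [hi]

/-- equality of two computed numbers -/
theorem Cp.numEq₂ {b s t n : ℕ} {g g' : ℕ → Inp → Mem → Bool} (h : ∀ i < n, Cp b s (g i))
    (h' : ∀ i < n, Cp b t (g' i)) :
    Cp b (n * (2 * s + 2 * t + 100) + 50)
      (fun z M => decide (num n (fun i => g i z M) = num n (fun i => g' i z M))) := by
  have h1 := Cp.all (n := n) (f := fun i z M => g i z M == g' i z M)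
    (fun i hi => (h i hi).beq (h' i hi))
  refine (h1.congr ?_).mono le_rfl ?_
  · intro z M
    rw [all_beq n (fun i => g i z M) (fun i => g' i z M)]
    exact decide_eq_decide.2 (num_inj_iff n _ _).symm
  · have : n * (2 * s + 2 * t + 36 + 30) ≤ n * (2 * s + 2 * t + 100) :=
      Nat.mul_le_mul_left _ (by omega)
    omega

/-- equality of two lists of computed bits -/
theorem Cp.listEq {b s t n : ℕ} {g g' : ℕ → Inp → Mem → Bool} (h : ∀ i < n, Cp b s (g i))
    (h' : ∀ i < n, Cp b t (g' i)) :
    Cp b (n * (2 * s + 2 * t + 100) + 50)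
      (fun z M => decide ((List.range n).map (fun i => g i z M) =
        (List.range n).map (fun i => g' i z M))) := by
  refine (Cp.numEq₂ h h').congr ?_
  intro z M
  refine decide_eq_decide.2 ?_
  rw [num_inj_iff, List.map_inj_left]
  simp only [List.mem_range]

/-- multiplexer: `f` at a computed index -/
theorem Cp.sel {b s t n : ℕ} {g : ℕ → Inp → Mem → Bool} {f : ℕ → Inp → Mem → Bool}
    (h : ∀ i < n, Cp b s (g i)) (hf : ∀ k < 2 ^ n, Cp b t (f k)) :
    Cp b (2 ^ n * (n * (2 * s + 100) + t + 200) + 50)
      (fun z M => f (num n (fun i => g i z M)) z M) := by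
  have h1 := Cp.any (n := 2 ^ n)
    (f := fun k z M => decide (num n (fun i => g i z M) = k) && f k z M)
    (fun k hk => (Cp.numEq h k).and (hf k hk))
  refine (h1.congr ?_).mono le_rfl ?_
  · intro z M
    rw [Bool.eq_iff_iff, List.any_eq_true]
    constructor
    · rintro ⟨k, -, h2⟩
      rw [Bool.and_eq_true, decide_eq_true_iff] at h2
      rw [h2.1]
      exact h2.2
    · intro h2
      exact ⟨_, List.mem_range.2 (num_lt n _), by rw [h2]; simp⟩
  · have : 2 ^ n * (n * (2 * s + 100) + 50 + t + 7 + 30)
        ≤ 2 ^ n * (n * (2 * s + 100) + t + 200) := Nat.mul_le_mul_left _ (by omega)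
    omega

end Pool.Agent.NUM
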