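import Pool.Agent.NUM.Defs

/-!
# P2: families, presentations, classes (definitions of the abstract interface)

`n = 2 ^ L`, `L = π.idx τ`.  A *presentation* of a type `T` of problem instances is an index and an
input for every instance.  All exponents are up to o(1), and the machines are given by sequences
(`L ↦ G L`), so that predicates derived from the machines (pieces of runs) are again families.
-/

set_option autoImplicit false

namespace Pool.Agent.NUM

/-- `f L ≤ 2 ^ ((e + o(1)) L)` -/
def Ex (e : ℝ) (f : ℕ → ℕ) : Prop :=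
  ∀ ε : ℝ, 0 < ε → ∃ L₀ : ℕ, ∀ L : ℕ, L₀ ≤ L → (f L : ℝ) ≤ 2 ^ ((e + ε) * L)

/-- `β L ≤ (e + o(1)) L` -/
def Lin (e : ℝ) (β : ℕ → ℕ) : Prop :=
  ∀ ε : ℝ, 0 < ε → ∃ L₀ : ℕ, ∀ L : ℕ, L₀ ≤ L → (β L : ℝ) ≤ (e + ε) * L

/-- instances: index `L` and input -/
structure Pres (T : Type) where
  idx : T → ℕ
  inp : T → Inp

/-- the inputs have `2 ^ ((b + o(1)) L)` bits -/
def Size {T : Type} (π : Pres T) (b : ℝ) : Prop :=
  ∃ β : ℕ → ℕ, Lin b β ∧ ∀ τ, Supp (β (π.idx τ)) (π.inp τ)

/-- `P` is decided by programs of size `2 ^ o(L)` in time `2 ^ ((e + o(1)) L)` -/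
def InCl {T : Type} (π : Pres T) (P : T → Prop) (e : ℝ) : Prop :=
  ∃ (G : ℕ → List Ins) (s t : ℕ → ℕ) (L₀ : ℕ), Ex 0 s ∧ Ex e t ∧ (∀ L, Sz (s L) (G L)) ∧
    ∀ τ, L₀ ≤ π.idx τ →
      ∃ b, run (eval (G (π.idx τ)) (π.inp τ)) (t (π.idx τ)) zeroMem [] = some b ∧ (b = true ↔ P τ)

/-- truncation: only addresses of length at most `B` -/
def trc (B : ℕ) (y : Inp) : Inp := fun a => if a.length ≤ B then y a else false

/-- extension of the instances by a string of (at most) `2 ^ β` bits -/
def Pres.ext {T : Type} (π : Pres T) (β : ℕ → ℕ) : Pres (T × Inp) where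
  idx p := π.idx p.1
  inp p := pair (π.inp p.1) (trc (β (π.idx p.1)) p.2)

/-- a bit list made to have length exactly `q` -/
def fit (q : ℕ) (k : List Bool) : List Bool := (List.range q).map fun i => k.getD i false

/-- the number with the binary digits `a`, lowest digit first -/
def val (a : List Bool) : ℕ := num a.length fun i => a.getD i false

/-- a bit list as an input, in compact form: bit number `r` at the addresses of length at most `s`
that are binary expansions of `r` (lowest digit first) -/
def lst (s : ℕ) (k : List Bool) : Inp := fun a => if a.length ≤ s then k.getD (val a) false else false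

/-- block number `k` of the string `y`, truncated to addresses of length at most `w` -/
def blk (w : ℕ) (y : Inp) (k : List Bool) : Inp := fun a => if a.length ≤ w then y (k ++ a) else false

/-- record number `k` of the string `y`: the number (`q` bits, in compact form, address length at most
`Nat.size q`) and the record (address length at most `w`) -/
def rec1 (q w : ℕ) (y : Inp) (k : List Bool) : Inp :=
  pair (lst (Nat.size q) (fit q k)) (blk w y (fit q k))

/-- the local view of a string `y` of records: three record numbers (made to have length `q`) and the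
three records (of address length at most `w`): `⟨z, ⟨⟨k, y_k⟩, ⟨⟨i, y_i⟩, ⟨j, y_j⟩⟩⟩⟩` -/
def viewInp (q w : ℕ) (z y : Inp) (κ : List Bool × List Bool × List Bool) : Inp :=
  pair z (pair (rec1 q w y κ.1) (pair (rec1 q w y κ.2.1) (rec1 q w y κ.2.2)))

/-- the presentation in which only the local view of the string of records is known -/
def Pres.view {T : Type} (π : Pres T) (q w : ℕ → ℕ) :
    Pres (T × (List Bool × List Bool × List Bool) × Inp) where
  idx p := π.idx p.1
  inp p := viewInp (q (π.idx p.1)) (w (π.idx p.1)) (π.inp p.1) p.2.2 p.2.1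

/-- `P τ ↔ ∃ y, B (τ, y)` with a string `y` of `2 ^ ((u + o(1)) L)` bits and `B` in time
`2 ^ ((e + o(1)) L)` -/
def InE {T : Type} (u : ℝ) (π : Pres T) (P : T → Prop) (e : ℝ) : Prop :=
  ∃ (β : ℕ → ℕ) (B : T × Inp → Prop), Lin u β ∧ InCl (π.ext β) B e ∧
    ∃ L₀, ∀ τ, L₀ ≤ π.idx τ → (P τ ↔ ∃ y, B (τ, y))

/-- The interface: everything that the exponent trading needs to know about the machines. -/
structure Trade (c : ℝ) : Prop where
  /-- complement -/
  not : ∀ {T : Type} {π : Pres T} {P : T → Prop} {b e : ℝ}, Size π b → InCl π P e →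
    InCl π (fun τ => ¬ P τ) e
  /-- adding a string that is not used -/
  dummy : ∀ {T : Type} {π : Pres T} {P : T → Prop} {b u e : ℝ} {β : ℕ → ℕ}, Size π b → Lin u β →
    InCl π P e → InCl (π.ext β) (fun p => P p.1) e
  /-- two strings in one -/
  merge : ∀ {T : Type} {π : Pres T} {b u u' e : ℝ} {β β' : ℕ → ℕ}
    {C : (T × Inp) × Inp → Prop}, Size π b → Lin u β → Lin u' β' →
    InCl ((π.ext β).ext β') C e →
    ∃ β'' : ℕ → ℕ, Lin (max u u') β'' ∧
      InCl (π.ext β'')
        (fun p => C ((p.1, fun a => p.2 (false :: a)), fun a => p.2 (true :: a))) e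
  /-- (S) speed up: the run is cut into `2 ^ (x L)` pieces; the pieces are checked independently, from
  the instance and the local view of the list of pieces -/
  speedup : ∀ {T : Type} {π : Pres T} {P : T → Prop} {b e x : ℝ}, Size π b → InCl π P e →
    0 ≤ x → x ≤ e →
    ∃ (q w : ℕ → ℕ) (B : T × (List Bool × List Bool × List Bool) × Inp → Prop), Lin x q ∧ Lin 0 w ∧
      InCl (π.view q w) B (e - x) ∧
      ∃ L₀, ∀ τ, L₀ ≤ π.idx τ → (P τ ↔ ∃ y, ∀ κ, B (τ, κ, y))
  /-- (W) slow down -/
  slow : ∀ {T : Type} {π : Pres T} {b x u e : ℝ} {q w β : ℕ → ℕ}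
    {A : (T × (List Bool × List Bool × List Bool) × Inp) × Inp → Prop}, 1 ≤ b → Size π b →
    Lin x q → Lin 0 w → Lin u β → u ≤ e → InCl ((π.view q w).ext β) A e →
    InCl (π.ext fun L => q L + w L) (fun p => ∀ κ v, A ((p.1, κ, p.2), v)) (c * max (max b x) e)
  /-- (F) diagonal problems: the complement of the universal problem with clock `2 ^ (a L)` on inputs
  of `2 ^ L` bits -/
  diag : ∀ (a : ℕ) (u e : ℝ), 1 ≤ a → u ≤ e → e < a →
    ∃ (T : Type) (π : Pres T) (D : T → Prop), Size π 1 ∧ InCl π D (c * a) ∧ ¬ InE u π D e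

end Pool.Agent.NUM
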