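import Pool.Agent.NUM.HMach

/-!
# The check of a guessed list of boundary passes, as an abstract history machine
-/

set_option autoImplicit false

namespace Pool.Agent.NUM

/-- a list of claims: entry `i` says that the state after pass `tm i` is `st i`; the passes
`pv i + 1, …, tm i` have label `lb i`; `off i` is the own pass number of the check of label `lb i` at
which it has the state `pv i` -/
structure Lst (A : Type) where
  tm : ℕ → ℕ
  st : ℕ → A
  lb : ℕ → ℕ
  off : ℕ → ℕ
  fin : ℕ → Bool

namespace Lst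

variable {A : Type}

/-- the time before segment `i` -/
def pv (L : Lst A) : ℕ → ℕ
  | 0 => 0
  | i + 1 => L.tm i

/-- the state before segment `i` -/
def ps (L : Lst A) (a0 : A) : ℕ → A
  | 0 => a0
  | i + 1 => L.st i

end Lst

/-- binary search: the number of entries with `v j < q` (`k` bits left, `a` is the present base) -/
def bsr (v : ℕ → ℕ) (q : ℕ) : ℕ → ℕ → ℕ
  | 0, a => a
  | k + 1, a => if v (a + 2 ^ k - 1) < q then bsr v q k (a + 2 ^ k) else bsr v q k a

theorem bsr_eq {v : ℕ → ℕ} {q w j : ℕ} (hj : j < 2 ^ w) (h : ∀ i < 2 ^ w, v i < q ↔ i < j) :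
    bsr v q w 0 = j := by
  suffices key : ∀ k ≤ w, ∀ a, a ≤ j → j < a + 2 ^ k → a + 2 ^ k ≤ 2 ^ w → bsr v q k a = j from
    key w le_rfl 0 (Nat.zero_le _) (by omega) (by omega)
  intro k
  induction k with
  | zero =>
    intro _ a h1 h2 _
    simp only [pow_zero] at h2
    unfold bsr
    omega
  | succ k ih =>
    intro hk a h1 h2 h3
    have hp : 0 < 2 ^ k := Nat.pos_of_ne_zero (by positivity)
    rw [pow_succ] at h2 h3
    unfold bsr
    have h4 := h (a + 2 ^ k - 1) (by omega)
    by_cases h5 : v (a + 2 ^ k - 1) < q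
    · rw [if_pos h5]
      have h6 := h4.1 h5
      exact ih (by omega) _ (by omega) (by omega) (by omega)
    · rw [if_neg h5]
      have h6 : ¬ a + 2 ^ k - 1 < j := fun h => h5 (h4.2 h)
      exact ih (by omega) _ h1 (by omega) (by omega)

theorem bsr_lt {v : ℕ → ℕ} {q : ℕ} : ∀ k a : ℕ, bsr v q k a < a + 2 ^ k := by
  intro k
  induction k with
  | zero => intro a; simp [bsr]
  | succ k ih =>
    intro a
    unfold bsr
    rw [pow_succ]
    split_ifs
    · have := ih (a + 2 ^ k); omega
    · have := ih a; omega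

/-- result of a look-up -/
inductive Lk (A : Type)
  | bad
  | val (a : A)
  | own (m : ℕ)

/-- look-up of the state after pass `τ`, at time `u` in segment `i`, by the check of label `κ` -/
def lkup {A : Type} (L : Lst A) (a0 e0 : A) (w κ i u τ : ℕ) : Lk A :=
  if u < τ then .val e0
  else if τ = 0 then .val a0
  else if bsr L.tm τ w 0 ≤ i ∧ L.pv (bsr L.tm τ w 0) < τ ∧ τ ≤ L.tm (bsr L.tm τ w 0) then
    if τ = L.tm (bsr L.tm τ w 0) then .val (L.st (bsr L.tm τ w 0))
    else if L.lb (bsr L.tm τ w 0) = κ then
      .own (L.off (bsr L.tm τ w 0) + (τ - L.pv (bsr L.tm τ w 0)))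
    else .bad
  else .bad

/-- the own pass to be recalled -/
def Lk.num {A : Type} : Lk A → ℕ
  | .own m => m
  | _ => 0

/-- states of the check -/
structure St (A : Type) where
  hlt : Bool
  acc : Bool
  sim : Bool
  i : ℕ
  n : ℕ
  u : ℕ
  a : A
  q : ℕ

namespace St

variable {A : Type}

def rej (σ : St A) : St A := { σ with hlt := true, acc := false }

def yes (σ : St A) : St A := { σ with hlt := true, acc := true }

/-- start the simulation of the segment `i` -/
def enter (H : HM A) (L : Lst A) (κ w : ℕ) (σ : St A) : St A :=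
  { hlt := false, acc := false, sim := true, i := σ.i, n := σ.n + 1, u := L.pv σ.i,
    a := L.ps H.a0 σ.i,
    q := (lkup L H.a0 H.e0 w κ σ.i (L.pv σ.i) (H.idx (L.ps H.a0 σ.i))).num }

/-- continue the simulation in the state `a'` at time `u + 1` -/
def stay (H : HM A) (L : Lst A) (κ w : ℕ) (σ : St A) (a' : A) : St A :=
  { hlt := false, acc := false, sim := true, i := σ.i, n := σ.n + 1, u := σ.u + 1,
    a := a', q := (lkup L H.a0 H.e0 w κ σ.i (σ.u + 1) (H.idx a')).num }

/-- go to the next entry -/
def next (w : ℕ) (σ : St A) (u : ℕ) (a' : A) : St A :=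
  if σ.i + 1 < 2 ^ w then
    { hlt := false, acc := false, sim := false, i := σ.i + 1, n := σ.n + 1, u := u,
      a := a', q := 0 }
  else σ.rej

/-- the next state of the simulation if the simulated machine gets into the state `a'` -/
def move [DecidableEq A] (H : HM A) (L : Lst A) (κ w : ℕ) (σ : St A) (a' : A) : St A :=
  if H.hlt a' = true ∧ ¬ (σ.u + 1 = L.tm σ.i ∧ L.fin σ.i = true) then σ.rej
  else if σ.u + 1 = L.tm σ.i then
    if a' ≠ L.st σ.i then σ.rej
    else if L.fin σ.i = true then
      if H.hlt a' = true ∧ H.acc a' = true then σ.yes else σ.rej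
    else next w σ (σ.u + 1) a'
  else stay H L κ w σ a'

/-- scan an entry -/
def scan (H : HM A) (L : Lst A) (κ w : ℕ) (σ : St A) : St A :=
  if L.pv σ.i < L.tm σ.i then
    if L.lb σ.i = κ then
      if L.off σ.i = σ.n + 1 then enter H L κ w σ else σ.rej
    else if L.fin σ.i = true then σ.yes
    else next w σ σ.u σ.a
  else σ.rej

/-- one pass of the check; `ρ` is the recalled state -/
def pass [DecidableEq A] (H : HM A) (L : Lst A) (κ w lim : ℕ) (σ ρ : St A) : St A :=
  if lim ≤ σ.n + 1 then σ.rej
  else if σ.sim = true then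
    match lkup L H.a0 H.e0 w κ σ.i σ.u (H.idx σ.a) with
    | .bad => σ.rej
    | .val W => move H L κ w σ (H.step σ.a W)
    | .own _ => move H L κ w σ (H.step σ.a ρ.a)
  else scan H L κ w σ

end St

/-- the check of label `κ` for the list `L` -/
def hck {A : Type} [DecidableEq A] (H : HM A) (L : Lst A) (κ w lim : ℕ) : HM (St A) where
  step := St.pass H L κ w lim
  idx := St.q
  a0 := ⟨false, false, false, 0, 0, 0, H.a0, 0⟩
  e0 := ⟨false, false, false, 0, 0, 0, H.a0, 0⟩
  hlt := St.hlt
  acc := St.acc

end Pool.Agent.NUM
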