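import Pool.Agent.NUM.HBasic
import Pool.Agent.NUM.HChk
import Pool.Agent.NUM.CpList
import Pool.Agent.NUM.Fam

/-!
# The list of claims as a string; the statement about the code of the check

The string `v` has addresses `bits w i ++ bits 3 f ++ bits σ r`: bit `r` of field `f` of entry `i`
(fields: `0` time, `1` state, `2` label, `3` offset, `4` final).  The label of the check is the number
with the bits `κ (bits σ r)`, `r < w`.
-/

set_option autoImplicit false

namespace Pool.Agent.NUM

/-- bit `r` of field `f` of entry `i` -/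
def hbit (w σ : ℕ) (v : Inp) (i f r : ℕ) : Bool := v (bits w i ++ (bits 3 f ++ bits σ r))

/-- the list of claims in the string `v`: `2 ^ w` entries, states with `h` bits, times with `b` bits -/
def rdL (h w b σ : ℕ) (v : Inp) : Lst (Fin h → Bool) where
  tm i := num b (hbit w σ v i 0)
  st i := fun r => hbit w σ v i 1 r
  lb i := num w (hbit w σ v i 2)
  off i := num b (hbit w σ v i 3)
  fin i := hbit w σ v i 4 0

/-- the label in the string `κ` -/
def rdK (w σ : ℕ) (κ : Inp) : ℕ := num w fun r => κ (bits σ r)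

/-- length of the addresses of the list of claims -/
def hLen (w σ : ℕ) : ℕ := w + (3 + σ)

/-- the check of a list of claims for the program `G` with `d` pointer cells on the input `z` -/
def hchk (G : List Ins) (d h w b σ lim : ℕ) (z v κ : Inp) : HM (St (Fin h → Bool)) :=
  hck (finHM (eval G z) d h) (rdL h w b σ v) (rdK w σ κ) w lim

/-- **The statement about the code of the check**: for every program `G` there is a program `G'` which
carries out the check of a list of claims, pass by pass (with the same recalls). -/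
def HCodeOK : Prop :=
  ∀ (G : List Ins) (d h w b σ lim : ℕ), Sz (2 * h) G → 4 * d < 2 * h → 2 ≤ h → d ≤ b →
    h ≤ 2 ^ σ → w ≤ 2 ^ σ → b ≤ 2 ^ σ → lim < 2 ^ b →
    ∃ (G' : List Ins) (s' d' : ℕ), HSz s' d' G' ∧ s' ≤ (1000 * (h + w + b + σ + 10)) ^ 60 ∧
      ∀ (z v κ : Inp) (N : ℕ) (a : Bool), (hchk G d h w b σ lim z v κ).Out N a →
        HaltsAt (eval G' (pair (pair z (trc (hLen w σ) v)) (trc σ κ))) d' N ∧
        sta (eval G' (pair (pair z (trc (hLen w σ) v)) (trc σ κ))) d' N 2 = a ∧
        ∀ n < N, rcl (eval G' (pair (pair z (trc (hLen w σ) v)) (trc σ κ))) d' n =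
          ((hchk G d h w b σ lim z v κ).U n).q

/-! ### every list of claims is a list in a string -/

/-- a string with prescribed bits -/
theorem exists_hbit (w σ : ℕ) (g : ℕ → ℕ → ℕ → Bool) :
    ∃ v : Inp, ∀ i < 2 ^ w, ∀ f < 8, ∀ r < 2 ^ σ, hbit w σ v i f r = g i f r := by
  classical
  refine ⟨fun a => decide (∃ i < 2 ^ w, ∃ f < 8, ∃ r < 2 ^ σ,
    a = bits w i ++ (bits 3 f ++ bits σ r) ∧ g i f r = true), fun i hi f hf r hr => ?_⟩
  unfold hbit
  rw [Bool.eq_iff_iff, decide_eq_true_iff]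
  constructor
  · rintro ⟨i', hi', f', hf', r', hr', h1, h2⟩
    obtain ⟨h3, h4⟩ := List.append_inj h1 (by rw [length_bits, length_bits])
    obtain ⟨h5, h6⟩ := List.append_inj h4 (by rw [length_bits, length_bits])
    obtain rfl := bits_inj hi hi' h3
    obtain rfl := bits_inj (n := 3) hf hf' h5
    obtain rfl := bits_inj hr hr' h6
    exact h2
  · intro h
    exact ⟨i, hi, f, hf, r, hr, rfl, h⟩

/-- every list of claims (with bounded numbers) is in a string, up to the entries beyond `2 ^ w` -/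
theorem exists_rdL {h w b σ : ℕ} (hh : h ≤ 2 ^ σ) (hw : w ≤ 2 ^ σ) (hb : b ≤ 2 ^ σ)
    (L : Lst (Fin h → Bool)) (h1 : ∀ i < 2 ^ w, L.tm i < 2 ^ b) (h2 : ∀ i < 2 ^ w, L.lb i < 2 ^ w)
    (h3 : ∀ i < 2 ^ w, L.off i < 2 ^ b) :
    ∃ v : Inp, ∀ i < 2 ^ w, (rdL h w b σ v).tm i = L.tm i ∧ (rdL h w b σ v).st i = L.st i ∧
      (rdL h w b σ v).lb i = L.lb i ∧ (rdL h w b σ v).off i = L.off i ∧
      (rdL h w b σ v).fin i = L.fin i := by
  obtain ⟨v, hv⟩ := exists_hbit w σ fun i f r =>
    if f = 0 then (L.tm i).testBit r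
    else if f = 1 then (if hr : r < h then L.st i ⟨r, hr⟩ else false)
    else if f = 2 then (L.lb i).testBit r
    else if f = 3 then (L.off i).testBit r
    else L.fin i
  refine ⟨v, fun i hi => ⟨?_, ?_, ?_, ?_, ?_⟩⟩
  · show num b (hbit w σ v i 0) = _
    rw [num_congr (h := fun r => (L.tm i).testBit r) fun r hr => ?_, num_testBit,
      Nat.mod_eq_of_lt (h1 i hi)]
    rw [hv i hi 0 (by omega) r (by omega)]
    rfl
  · funext r
    show hbit w σ v i 1 r = _
    rw [hv i hi 1 (by omega) r (by have := r.2; omega)]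
    simp
  · show num w (hbit w σ v i 2) = _
    rw [num_congr (h := fun r => (L.lb i).testBit r) fun r hr => ?_, num_testBit,
      Nat.mod_eq_of_lt (h2 i hi)]
    rw [hv i hi 2 (by omega) r (by omega)]
    rfl
  · show num b (hbit w σ v i 3) = _
    rw [num_congr (h := fun r => (L.off i).testBit r) fun r hr => ?_, num_testBit,
      Nat.mod_eq_of_lt (h3 i hi)]
    rw [hv i hi 3 (by omega) r (by omega)]
    rfl
  · show hbit w σ v i 4 0 = _
    rw [hv i hi 4 (by omega) 0 (by positivity)]
    rfl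

/-- every label is in a string -/
theorem exists_rdK {w σ k : ℕ} (hw : w ≤ 2 ^ σ) (hk : k < 2 ^ w) : ∃ κ : Inp, rdK w σ κ = k := by
  classical
  refine ⟨fun a => decide (∃ r < 2 ^ σ, a = bits σ r ∧ k.testBit r = true), ?_⟩
  unfold rdK
  rw [num_congr (h := fun r => k.testBit r) fun r hr => ?_, num_testBit, Nat.mod_eq_of_lt hk]
  rw [Bool.eq_iff_iff, decide_eq_true_iff]
  constructor
  · rintro ⟨r', hr', h1, h2⟩
    obtain rfl := bits_inj (by omega) hr' h1
    exact h2
  · intro h
    exact ⟨r, by omega, rfl, h⟩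

theorem rdK_lt (w σ : ℕ) (κ : Inp) : rdK w σ κ < 2 ^ w := num_lt w _

theorem rdL_tm_lt (h w b σ : ℕ) (v : Inp) (i : ℕ) : (rdL h w b σ v).tm i < 2 ^ b := num_lt b _

theorem rdL_lb_lt (h w b σ : ℕ) (v : Inp) (i : ℕ) : (rdL h w b σ v).lb i < 2 ^ w := num_lt w _

theorem rdL_off_lt (h w b σ : ℕ) (v : Inp) (i : ℕ) : (rdL h w b σ v).off i < 2 ^ b := num_lt b _

end Pool.Agent.NUM
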