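import Pool.Agent.NUM.GList
import Pool.Agent.NUM.HRd

/-!
# Theorem H(γ): strings with systems of lists; the statement about the code of the static checks

The input of the refuter is `x = pair (pair (pair z l) y) v` (step) or `pair (pair z y) v` (top).
The string `y` contains
* the parent list `gR` (`false false …`), two numbers (`false true …`),
* the children lists `gC k` (`true false k …`),
* for every entry of every child a pointer (`true true false k i …`),
* for every entry of the parent a pointer (`true true true e …`);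
the string `v` contains numbers `k`, `i`, `e` (`false …`) and a string (`true …`).
-/

set_option autoImplicit false

namespace Pool.Agent.NUM

/-- the parameters: states have `h` bits, numbers `b` bits, lists have `2 ^ w₁` (parent) and `2 ^ w`
(children) entries, there are `2 ^ q` children; `d` pointer digits, flag bit `c` -/
structure GPar where
  h : ℕ
  b : ℕ
  σ : ℕ
  d : ℕ
  c : ℕ
  q : ℕ
  w₁ : ℕ
  w : ℕ
  lim₁ : ℕ
  lim : ℕ

/-- admissible parameters -/
structure GPar.Ok (p : GPar) : Prop where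
  h2 : 2 ≤ p.h
  hd : 4 * p.d < 2 * p.h
  db : p.d ≤ p.b
  ch : p.c < p.h
  hσ : p.h ≤ 2 ^ p.σ
  bσ : p.b ≤ 2 ^ p.σ
  qσ : p.q ≤ 2 ^ p.σ
  w₁σ : p.w₁ ≤ 2 ^ p.σ
  wσ : p.w ≤ 2 ^ p.σ
  w0 : 1 ≤ p.w
  w1 : 1 ≤ p.w₁
  wb : p.w ≤ p.b
  w₁b : p.w₁ ≤ p.b
  qb : p.q ≤ p.b
  limb : p.lim < 2 ^ p.b
  lim₁b : p.lim₁ < 2 ^ p.b

/-- the size parameter of the code -/
def GPar.X (p : GPar) : ℕ := 1000 * (p.h + p.b + p.σ + p.d + p.c + p.q + p.w₁ + p.w + 10)

section readers

variable (p : GPar)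

/-- the parent list -/
def gR (y : Inp) : Lst (Fin p.h → Bool) := rdL p.h p.w₁ p.b p.σ fun a => y (false :: false :: a)

/-- the children -/
def gC (y : Inp) (k : ℕ) : Lst (Fin p.h → Bool) :=
  rdL p.h p.w p.b p.σ fun a => y (true :: false :: (bits p.q k ++ a))

/-- bit `r` of field `f` of the pointer of entry `i` of child `k` -/
def gpb (y : Inp) (k i f r : ℕ) : Bool :=
  y (true :: true :: false :: (bits p.q k ++ (bits p.w i ++ (bits 2 f ++ bits p.σ r))))

def gX (y : Inp) (k i : ℕ) : Bool := gpb p y k i 0 0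

def gE (y : Inp) (k i : ℕ) : ℕ := num p.w₁ (gpb p y k i 1)

def gK (y : Inp) (k i : ℕ) : ℕ := num p.q (gpb p y k i 2)

def gI (y : Inp) (k i : ℕ) : ℕ := num p.w (gpb p y k i 3)

/-- bit `r` of field `f` of the pointer of entry `e` of the parent -/
def gdb (y : Inp) (e f r : ℕ) : Bool :=
  y (true :: true :: true :: (bits p.w₁ e ++ (bits 1 f ++ bits p.σ r)))

def gDk (y : Inp) (e : ℕ) : ℕ := num p.q (gdb p y e 0)

def gDi (y : Inp) (e : ℕ) : ℕ := num p.w (gdb p y e 1)

/-- the two numbers of the conflict -/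
def gi (y : Inp) : ℕ := num p.w₁ fun r => y (false :: true :: (bits 1 0 ++ bits p.σ r))

def gj (y : Inp) : ℕ := num p.w₁ fun r => y (false :: true :: (bits 1 1 ++ bits p.σ r))

/-- the three numbers of the refuter -/
def vk (v : Inp) : ℕ := num p.q fun r => v (false :: (bits 2 0 ++ bits p.σ r))

def vi (v : Inp) : ℕ := num p.w fun r => v (false :: (bits 2 1 ++ bits p.σ r))

def ve (v : Inp) : ℕ := num p.w₁ fun r => v (false :: (bits 2 2 ++ bits p.σ r))

/-- the record of child `k` -/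
def gRec (y : Inp) (k : ℕ) : Inp := fun a => y (true :: false :: (bits p.q k ++ a))

/-- the length of `y` -/
def gLen : ℕ := max (p.q + p.w) p.w₁ + p.σ + 8

/-- the length of the three numbers -/
def vLen : ℕ := p.σ + 3

end readers

theorem gC_eq (p : GPar) (y : Inp) (k : ℕ) : gC p y k = rdL p.h p.w p.b p.σ (gRec p y k) := rfl

/-- the lists have the same first `2 ^ w` entries -/
def LEq {A : Type} (w : ℕ) (L' L : Lst A) : Prop := ∀ i < 2 ^ w, L'.tm i = L.tm i ∧
  L'.st i = L.st i ∧ L'.lb i = L.lb i ∧ L'.off i = L.off i ∧ L'.fin i = L.fin i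

/-- the static conditions at entry `i` -/
def LStatAt {A : Type} (L : Lst A) (w lim i : ℕ) : Prop :=
  (i = 0 → L.off 0 = 1) ∧ L.pv i < L.tm i ∧
  (L.fin i = true → L.lb i ≠ 1 ∧ (i + 1 < 2 ^ w → L.fin (i + 1) = true)) ∧
  (L.fin i = false → i + 1 < 2 ^ w ∧
    L.off (i + 1) = L.off i + 1 + (if L.lb i = 1 then L.tm i - L.pv i else 0) ∧
    L.off (i + 1) < lim)

theorem lstat_iff {A : Type} {L : Lst A} {w lim : ℕ} :
    LStat L w lim ↔ ∀ i < 2 ^ w, LStatAt L w lim i := by
  constructor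
  · exact fun h i hi => ⟨fun _ => h.off0, h.srt i hi, h.fin i hi, h.run i hi⟩
  · exact fun h => ⟨(h 0 (by positivity)).1 rfl, fun i hi => (h i hi).2.1,
      fun i hi => (h i hi).2.2.1, fun i hi => (h i hi).2.2.2⟩

/-- `DfL` at entry `e` -/
def DfAt {A : Type} (H : HM A) (fl : A → Bool) (w : ℕ) (L L' : Lst A) (i j e : ℕ) : Prop :=
  i < 2 ^ w ∧ j < 2 ^ w ∧ L.fin i = false ∧ L.lb i = 1 ∧
  (Conf H fl L j (L.ps H.a0 i) (L.pv i) ∨
    ((e < i → L'.tm e = L.tm e ∧ L'.st e = L.st e ∧ L'.lb e = L.lb e ∧ L'.fin e = false) ∧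
      L'.fin i = false ∧ L'.lb i = 1 ∧ L'.tm i ≤ L.tm i ∧ (L'.tm i = L.tm i → L'.st i ≠ L.st i) ∧
      (L'.tm i < L.tm i → Conf H fl L j (L'.st i) (L'.tm i))))

theorem dfL_iff {A : Type} {H : HM A} {fl : A → Bool} {w : ℕ} {L L' : Lst A} {i j : ℕ} :
    DfL H fl w L L' i j ↔ ∀ e < 2 ^ w, DfAt H fl w L L' i j e := by
  constructor
  · rintro ⟨h1, h2, h3, h4, h5⟩ e _
    refine ⟨h1, h2, h3, h4, ?_⟩
    rcases h5 with h5 | ⟨h5, h6⟩
    · exact Or.inl h5
    · exact Or.inr ⟨fun he => h5 e he, h6⟩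
  · intro h
    obtain ⟨h1, h2, h3, h4, -⟩ := h 0 (by positivity)
    refine ⟨h1, h2, h3, h4, ?_⟩
    by_cases hC : Conf H fl L j (L.ps H.a0 i) (L.pv i)
    · exact Or.inl hC
    · right
      have h6 : ∀ e < 2 ^ w, (e < i → L'.tm e = L.tm e ∧ L'.st e = L.st e ∧ L'.lb e = L.lb e ∧
          L'.fin e = false) ∧
        L'.fin i = false ∧ L'.lb i = 1 ∧ L'.tm i ≤ L.tm i ∧ (L'.tm i = L.tm i → L'.st i ≠ L.st i) ∧
        (L'.tm i < L.tm i → Conf H fl L j (L'.st i) (L'.tm i)) := fun e he => by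
        rcases (h e he).2.2.2.2 with h7 | h7
        · exact absurd h7 hC
        · exact h7
      exact ⟨fun j' hj' => (h6 j' (by omega)).1 hj', (h6 0 (by positivity)).2⟩

/-- the machine of the program `G` -/
abbrev gH (p : GPar) (G : List Ins) (z : Inp) : HM (Fin p.h → Bool) := finHM (eval G z) p.d p.h

/-- the flag of the last state -/
def gfl (p : GPar) (S : Fin p.h → Bool) : Bool := if hc : p.c < p.h then S ⟨p.c, hc⟩ else false

/-- the answer -/
def gacc (p : GPar) (S : Fin p.h → Bool) : Bool := if hc : 1 < p.h then S ⟨1, hc⟩ else false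

/-- the static conditions on the system of lists in `y` at `k`, `i`, `e` -/
def SCom (p : GPar) (y : Inp) (k i e : ℕ) : Prop :=
  LStatAt (gC p y k) p.w p.lim i ∧ LStatAt (gR p y) p.w₁ p.lim₁ e ∧
  PtrOK p.q p.w₁ p.w (gR p y) (gC p y) k i (gX p y k i) (gE p y k i) (gK p y k i) (gI p y k i) ∧
  DirOK p.q p.w (gR p y) (gC p y) e (gDk p y e) (gDi p y e)

/-- the static conditions in the step -/
def SStep (p : GPar) (l y v : Inp) : Prop :=
  SCom p y (vk p v) (vi p v) (ve p v) ∧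
  DfAt (gH p [] fun _ => false) (gfl p) p.w₁ (rdL p.h p.w₁ p.b p.σ l) (gR p y) (gi p y) (gj p y)
    (ve p v)

/-- the static conditions at the top -/
def STop (p : GPar) (y v : Inp) : Prop :=
  SCom p y (vk p v) (vi p v) (ve p v) ∧ TopL (gfl p) (gacc p) (gR p y)

/-- **The statement about the code of the static checks.** In the step the input is
`pair (pair (pair z l) y) v`, at the top `pair (pair z y) v`. -/
def GCodeOK : Prop :=
  ∀ p : GPar, p.Ok →
    (∃ f : Inp → Bool, Cp 0 (p.X ^ 60) (fun x _ => f x) ∧ ∀ z l y v : Inp,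
      (f (pair (pair (pair z (trc (hLen p.w₁ p.σ) l)) (trc (gLen p) y)) v) = true ↔ SStep p l y v)) ∧
    ∃ f : Inp → Bool, Cp 0 (p.X ^ 60) (fun x _ => f x) ∧ ∀ z y v : Inp,
      (f (pair (pair z (trc (gLen p) y)) v) = true ↔ STop p y v)

end Pool.Agent.NUM
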