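import Pool.Agent.NUM.RExtDef
import Pool.Agent.NUM.HRd
import Pool.Agent.NUM.GRead

/-!
# Transcripts as strings; the statement about the code of their check

The string `v` has addresses `g :: bits 3 f ++ bits k x ++ bits σ r`: bit `r` of field `f` of position
`x` of transcript `g` (fields: `0` segment, `1` state, `2` rank, `3` array, `4` insertion point,
`5` time, `6` last position).
-/

set_option autoImplicit false

namespace Pool.Agent.NUM

/-- bit `r` of field `f` of position `x` -/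
def tbit (k σ : ℕ) (v : Inp) (g : Bool) (f x r : ℕ) : Bool :=
  v (g :: (bits 3 f ++ (bits k x ++ bits σ r)))

/-- the transcript `g` in the string `v`; positions have `k` bits, states `h` bits, segments `w`
bits, times `b` bits -/
def rdT (h w k b σ : ℕ) (v : Inp) (g : Bool) : Trc (Fin h → Bool) where
  I x := num w (tbit k σ v g 0 x)
  W x := fun i => tbit k σ v g 1 x i
  Rk x := num k (tbit k σ v g 2 x)
  Q x := num k (tbit k σ v g 3 x)
  J x := num k (tbit k σ v g 4 x)
  t x := num b (tbit k σ v g 5 x)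
  x := num k (tbit k σ v g 6 0)

/-- length of the addresses of transcripts -/
def tLen (k σ : ℕ) : ℕ := k + σ + 4

/-- the two lists of an instance -/
def rdP (h w b σ : ℕ) (l : Inp) (g : Bool) : Lst (Fin h → Bool) := rdL h w b σ fun a => l (g :: a)

/-- the parameters: `h₀` cells and `d` address digits of the program, numbers with `b` bits, lists with
`2 ^ w` entries, positions with `k` bits -/
structure TPar where
  d : ℕ
  h₀ : ℕ
  b : ℕ
  σ : ℕ
  w : ℕ
  k : ℕ

/-- admissible parameters -/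
structure TPar.Ok (p : TPar) : Prop where
  h2 : 2 ≤ p.h₀
  hd : 4 * p.d + 2 < 2 * p.h₀
  db : p.d ≤ p.b
  hσ : p.h₀ + p.b ≤ 2 ^ p.σ
  kσ : p.k ≤ 2 ^ p.σ
  wσ : p.w ≤ 2 ^ p.σ
  w0 : 1 ≤ p.w
  wb : p.w ≤ p.b
  kb : p.k ≤ p.b

/-- the size parameter of the code -/
def TPar.X (p : TPar) : ℕ := 1000 * (p.h₀ + p.b + p.σ + p.d + p.w + p.k + 10)

/-- the condition of the base case at `x`: the transcripts `T`, `T'` of the lists `L` (label `κ`) and
`L'` (label `κ'`) -/
def BaseC {A : Type} (M : XM A) (a0 : A) (w : ℕ) (L L' : Lst A) (κ κ' : ℕ) (T T' : Trc A)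
    (x : ℕ) : Prop :=
  T.Cnd M L a0 κ w x ∧ (T.Fail1 M L κ ∨ (T.Fail2 M L κ T' ∧ T'.Cnd M L' a0 κ' w x))

/-- the condition of the base case at `x` -/
def BaseAt (p : TPar) (G : List Ins) (z l v : Inp) (x : ℕ) : Prop :=
  BaseC (ramXM G z p.d p.h₀ p.b) (fun _ => false) p.w (rdP (p.h₀ + p.b) p.w p.b p.σ l false)
    (rdP (p.h₀ + p.b) p.w p.b p.σ l true) 1 1 (rdT (p.h₀ + p.b) p.w p.k p.b p.σ v false)
    (rdT (p.h₀ + p.b) p.w p.k p.b p.σ v true) x

/-- the condition for the transcript of the whole run at `x`; the string `v` contains the list and the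
transcript -/
def RunAt (p : TPar) (G : List Ins) (z v : Inp) (x : ℕ) : Prop :=
  (rdT (p.h₀ + p.b) p.w p.k p.b p.σ (fun a => v (true :: a)) false).Cnd (ramXM G z p.d p.h₀ p.b)
    (rdL (p.h₀ + p.b) p.w p.b p.σ fun a => v (false :: a)) (fun _ => false) 1 p.w x ∧
  (rdT (p.h₀ + p.b) p.w p.k p.b p.σ (fun a => v (true :: a)) false).Run (ramXM G z p.d p.h₀ p.b)
    (rdL (p.h₀ + p.b) p.w p.b p.σ fun a => v (false :: a)) 1 x

/-- the number in the string `κ` -/
def rdX (k σ : ℕ) (κ : Inp) : ℕ := num k fun r => κ (bits σ r)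

/-- **The statement about the code of the check of transcripts.** -/
def RTCodeOK : Prop :=
  ∀ (p : TPar) (G : List Ins), p.Ok → Sz (2 * p.h₀) G →
    (∃ f : Inp → Bool, Cp 0 (p.X ^ 60) (fun x _ => f x) ∧ ∀ z l v κ : Inp,
      (f (pair (pair (pair z (trc (hLen p.w p.σ + 1) l)) (trc (tLen p.k p.σ) v))
        (trc p.σ κ)) = true ↔ BaseAt p G z l v (rdX p.k p.σ κ))) ∧
    ∃ f : Inp → Bool, Cp 0 (p.X ^ 60) (fun x _ => f x) ∧ ∀ z v κ : Inp,
      (f (pair (pair z (trc (max (hLen p.w p.σ) (tLen p.k p.σ) + 1) v)) (trc p.σ κ)) = true ↔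
        RunAt p G z v (rdX p.k p.σ κ))

end Pool.Agent.NUM
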