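import Pool.Agent.NUM.RLoopA
import Pool.Agent.NUM.RTraceRd

/-!
# Loops over straight-line checks: the number in the string

`inH_loop`, `inH_loopM` and `Cp.virtM` are in `RLoopA`.
-/

set_option autoImplicit false

namespace Pool.Agent.NUM

theorem rdX_kstr {k σ x : ℕ} (hσ : k ≤ 2 ^ σ) (hx : x < 2 ^ k) :
    rdX k σ (trc σ (kstr k σ x)) = x := num_kstr hσ hx

end Pool.Agent.NUM
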