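import Pool.Agent.NUM.GParam

/-!
# Theorem H(γ): inequalities for the parameters
-/

set_option autoImplicit false

namespace Pool.Agent.NUM

namespace GSeq

variable {S : GSeq}

/-- `2 (t + 1) < 2 ^ n` and `(4 / 3) ^ 3 ≥ 2` -/
theorem Ok.depth (_hS : S.Ok) {L N : ℕ} (hN : N ≤ S.t L) :
    2 * ((N : ℝ) + 1) ≤ (4 / 3) ^ (S.D L - 1) := by
  obtain ⟨n, hn⟩ : ∃ n, n = Nat.size (2 * (S.t L + 1)) := ⟨_, rfl⟩
  have h1 : 2 * (N + 1) ≤ 2 ^ n := by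
    have := Nat.lt_size_self (2 * (S.t L + 1))
    rw [← hn] at this
    omega
  have h2 : S.D L - 1 = 3 * n + 12 := by
    unfold GSeq.D
    rw [← hn]
    omega
  have h3 : (2 : ℝ) ^ n ≤ (4 / 3) ^ (3 * n) := by
    rw [pow_mul]
    exact pow_le_pow_left₀ (by norm_num) (by norm_num) n
  have h4 : (4 / 3 : ℝ) ^ (3 * n) ≤ (4 / 3) ^ (3 * n + 12) :=
    pow_le_pow_right₀ (by norm_num) (by omega)
  have h5 : (2 * ((N : ℝ) + 1)) ≤ 2 ^ n := by exact_mod_cast h1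
  rw [h2]
  linarith

theorem gpa_A_pos (S : GSeq) (L : ℕ) : 1 ≤ S.A L := by
  unfold GSeq.A
  exact Nat.mul_pos (Nat.pow_pos (by omega)) (Nat.succ_pos _)

theorem gpa_R_pos (S : GSeq) (r : ℝ) (L : ℕ) : 1 ≤ S.R r L := by
  unfold GSeq.R
  exact Nat.mul_pos (gpa_A_pos S L) (Nat.two_pow_pos _)

/-- the main inequality: `(c + 2) R ^ γ ≤ R` -/
theorem Ok.gpa_main (hS : S.Ok) (r : ℝ) (L : ℕ) :
    (10 * (S.D L : ℝ) ^ 2 * S.k L + 2) * (S.R r L : ℝ) ^ S.γ ≤ S.R r L := by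
  set a : ℕ := 10 * S.D L ^ 2 * S.k L + 2 with ha
  set M : ℕ := ⌈1 / (1 - S.γ)⌉₊ with hM
  have hg : 0 < 1 - S.γ := by linarith [hS.γ1]
  have h1 : (a : ℝ) ^ M ≤ S.R r L := by
    have : a ^ M ≤ S.R r L := by
      unfold GSeq.R GSeq.A
      calc a ^ M = a ^ M * 1 * 1 := by ring
        _ ≤ a ^ M * (S.t L / 2 ^ ⌈S.e₀ * L⌉₊ + 1) * 2 ^ ⌈r * L⌉₊ :=
          Nat.mul_le_mul (Nat.mul_le_mul_left _ (Nat.le_add_left _ _)) (Nat.two_pow_pos _)
    exact_mod_cast this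
  have ha1 : (1 : ℝ) ≤ a := by
    have : 1 ≤ a := by omega
    exact_mod_cast this
  have h2 : (a : ℝ) ≤ (S.R r L : ℝ) ^ (1 - S.γ) := by
    calc (a : ℝ) = (a : ℝ) ^ (1 : ℝ) := (Real.rpow_one _).symm
      _ ≤ (a : ℝ) ^ ((M : ℝ) * (1 - S.γ)) := by
        apply Real.rpow_le_rpow_of_exponent_le ha1
        have h3 : 1 / (1 - S.γ) ≤ M := Nat.le_ceil _
        rwa [div_le_iff₀ hg] at h3
      _ = ((a : ℝ) ^ M) ^ (1 - S.γ) := by
        rw [Real.rpow_mul (by linarith), Real.rpow_natCast]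
      _ ≤ _ := Real.rpow_le_rpow (by positivity) h1 hg.le
  have hR : (0 : ℝ) < S.R r L := by
    have := gpa_R_pos S r L
    exact_mod_cast this
  have e1 : (a : ℝ) = 10 * (S.D L : ℝ) ^ 2 * S.k L + 2 := by
    rw [ha]
    push_cast
    ring
  rw [← e1]
  calc (a : ℝ) * (S.R r L : ℝ) ^ S.γ ≤ (S.R r L : ℝ) ^ (1 - S.γ) * (S.R r L : ℝ) ^ S.γ :=
        mul_le_mul_of_nonneg_right h2 (by positivity)
    _ = S.R r L := by
        rw [← Real.rpow_add hR, sub_add_cancel, Real.rpow_one]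

theorem Ok.dims (hS : S.Ok) (r : ℝ) (L : ℕ) :
    1 ≤ S.E r L ∧ S.E r L ≤ S.R r L ∧ 12 ≤ S.D L ∧
    10 * (S.D L : ℝ) ^ 2 * S.k L * (S.R r L : ℝ) ^ S.γ ≤ S.E r L ∧
    S.E r L + 2 ≤ 2 ^ S.w r L ∧ S.R r L + S.E r L + 3 ≤ S.lim r L ∧ 1 ≤ S.w r L := by
  have hR1 : (1 : ℝ) ≤ S.R r L := by
    have := gpa_R_pos S r L
    exact_mod_cast this
  have hRg : (1 : ℝ) ≤ (S.R r L : ℝ) ^ S.γ := Real.one_le_rpow hR1 hS.γ0
  have hx : 0 ≤ 10 * (S.D L : ℝ) ^ 2 * S.k L * (S.R r L : ℝ) ^ S.γ := by positivity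
  have hw := Nat.lt_size_self (S.E r L + 2)
  refine ⟨by unfold GSeq.E; omega, ?_, by unfold GSeq.D; omega, ?_, hw.le, le_rfl, ?_⟩
  · have h1 := hS.gpa_main r L
    have h2 := Nat.ceil_lt_add_one hx
    have h3 : ((S.E r L : ℕ) : ℝ) ≤ S.R r L := by
      unfold GSeq.E
      push_cast
      nlinarith
    exact_mod_cast h3
  · unfold GSeq.E
    push_cast
    have := Nat.le_ceil (10 * (S.D L : ℝ) ^ 2 * S.k L * (S.R r L : ℝ) ^ S.γ)
    linarith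
  · unfold GSeq.w
    exact Nat.size_pos.2 (by omega)

/-- number of children -/
theorem Ok.num (hS : S.Ok) (e r : ℝ) (L : ℕ) :
    1 + 3 * (S.D L : ℝ) * ((S.lim e L + 1) / S.R r L + 2 ^ S.w e L / S.E r L) ≤ 2 ^ S.q e r L := by
  have hR : 0 < S.R r L := gpa_R_pos S r L
  have hE : 0 < S.E r L := (hS.dims r L).1
  have hdiv : ∀ a b : ℕ, 0 < b → (a : ℝ) / b ≤ ((a / b : ℕ) : ℝ) + 1 := by
    intro a b hb
    rw [div_le_iff₀ (by exact_mod_cast hb)]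
    have h1 := Nat.div_add_mod a b
    have h2 := Nat.mod_lt a hb
    have h3 : a ≤ (a / b + 1) * b := by nlinarith
    exact_mod_cast h3
  have h1 := hdiv (S.lim e L + 1) _ hR
  have h2 := hdiv (2 ^ S.w e L) _ hE
  push_cast at h1 h2
  have h3 := (Nat.lt_size_self (1 + 3 * S.D L * ((S.lim e L + 1) / S.R r L +
    2 ^ S.w e L / S.E r L + 2))).le
  have h4 : ((1 + 3 * S.D L * ((S.lim e L + 1) / S.R r L + 2 ^ S.w e L / S.E r L + 2) : ℕ) : ℝ) ≤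
      2 ^ S.q e r L := by exact_mod_cast h3
  rw [Nat.cast_add, Nat.cast_mul, Nat.cast_mul, Nat.cast_add, Nat.cast_add] at h4
  push_cast at h4
  refine le_trans ?_ h4
  have h5 : (0 : ℝ) ≤ 3 * (S.D L : ℝ) := by positivity
  have h6 := mul_le_mul_of_nonneg_left (add_le_add h1 h2) h5
  push_cast at h6 ⊢
  linarith

/-- the highest level is large enough -/
theorem Ok.top (_hS : S.Ok) {L N : ℕ} (hN : N ≤ S.t L) : N + 2 < S.lim S.e₀ L := by
  have h1 : S.t L < S.R S.e₀ L := by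
    unfold GSeq.R GSeq.A
    have h2 : 1 ≤ (10 * S.D L ^ 2 * S.k L + 2) ^ ⌈1 / (1 - S.γ)⌉₊ := Nat.pow_pos (by omega)
    have h3 := Nat.lt_div_mul_add (a := S.t L) (Nat.two_pow_pos ⌈S.e₀ * L⌉₊)
    calc S.t L < (S.t L / 2 ^ ⌈S.e₀ * L⌉₊ + 1) * 2 ^ ⌈S.e₀ * L⌉₊ := by
          rw [Nat.add_mul, Nat.one_mul]
          exact h3
      _ ≤ _ := by
          apply Nat.mul_le_mul_right
          exact Nat.le_mul_of_pos_left _ h2
  unfold GSeq.lim
  omega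

theorem gpa_R_mono (S : GSeq) {r r' : ℝ} (h : r ≤ r') (L : ℕ) : S.R r L ≤ S.R r' L := by
  unfold GSeq.R
  apply Nat.mul_le_mul_left
  apply Nat.pow_le_pow_right (by norm_num)
  apply Nat.ceil_mono
  exact mul_le_mul_of_nonneg_right h (Nat.cast_nonneg _)

theorem Ok.gpa_E_mono (hS : S.Ok) {r r' : ℝ} (h : r ≤ r') (L : ℕ) : S.E r L ≤ S.E r' L := by
  unfold GSeq.E
  apply Nat.add_le_add_right
  apply Nat.ceil_mono
  apply mul_le_mul_of_nonneg_left _ (by positivity)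
  apply Real.rpow_le_rpow (by positivity) _ hS.γ0
  exact_mod_cast gpa_R_mono S h L

theorem Ok.gpa_w_mono (hS : S.Ok) {r r' : ℝ} (h : r ≤ r') (L : ℕ) : S.w r L ≤ S.w r' L := by
  unfold GSeq.w
  exact Nat.size_le_size (Nat.add_le_add_right (hS.gpa_E_mono h L) 2)

theorem Ok.gpa_lim_mono (hS : S.Ok) {r r' : ℝ} (h : r ≤ r') (L : ℕ) : S.lim r L ≤ S.lim r' L := by
  unfold GSeq.lim
  have h1 := gpa_R_mono S h L
  have h2 := hS.gpa_E_mono h L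
  omega

theorem gpa_b (S : GSeq) (L : ℕ) : S.t L + S.lim S.e₀ L + 2 ^ S.w S.e₀ L + 10 < 2 ^ S.b L := by
  have h1 := Nat.lt_size_self (S.t L + S.lim S.e₀ L + 2 ^ S.w S.e₀ L + 10)
  refine h1.trans_le (Nat.pow_le_pow_right (by norm_num) ?_)
  unfold GSeq.b
  omega

theorem Ok.times (hS : S.Ok) {r : ℝ} (hr : r ≤ S.e₀) {L N : ℕ} (hN : N ≤ S.t L) :
    N + 2 ^ S.w r L + 1 < 2 ^ S.b L ∧ S.lim r L < 2 ^ S.b L := by
  have h1 := gpa_b S L
  have h2 := hS.gpa_lim_mono hr L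
  have h3 : 2 ^ S.w r L ≤ 2 ^ S.w S.e₀ L :=
    Nat.pow_le_pow_right (by norm_num) (hS.gpa_w_mono hr L)
  have h4 := Nat.two_pow_pos (S.w r L)
  constructor <;> omega

theorem Ok.gpa_q (hS : S.Ok) {e r : ℝ} (he : e ≤ S.e₀) (L : ℕ) : S.q e r L ≤ S.b L := by
  have h1 : S.q e r L ≤ Nat.size (1 + 3 * S.D L * (S.lim S.e₀ L + 1 + 2 ^ S.w S.e₀ L + 2)) := by
    unfold GSeq.q
    apply Nat.size_le_size
    apply Nat.add_le_add_left
    apply Nat.mul_le_mul_left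
    have h2 := hS.gpa_lim_mono he L
    have h3 : 2 ^ S.w e L ≤ 2 ^ S.w S.e₀ L :=
      Nat.pow_le_pow_right (by norm_num) (hS.gpa_w_mono he L)
    have h4 := Nat.div_le_self (S.lim e L + 1) (S.R r L)
    have h5 := Nat.div_le_self (2 ^ S.w e L) (S.E r L)
    omega
  refine h1.trans ?_
  unfold GSeq.b
  omega

theorem Ok.par (hS : S.Ok) {e r : ℝ} (hr : r ≤ e) (he : e ≤ S.e₀) (L : ℕ) : (S.p e r L).Ok := by
  have hσ := Nat.lt_size_self (S.h L + S.b L)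
  have hσ' : S.h L + S.b L < 2 ^ S.σ L := hσ
  have hh : S.h L = 100 * (S.s L + 10) ^ 2 + 2 := by unfold GSeq.h; rfl
  have hd := hS.hd L
  have hc := hS.hc L
  have hq := hS.gpa_q (r := r) he L
  have hwb : S.w S.e₀ L ≤ S.b L := by
    unfold GSeq.b
    omega
  have hw := hS.gpa_w_mono (hr.trans he) L
  have hw1 := hS.gpa_w_mono he L
  have hs2 : S.s L ≤ 100 * (S.s L + 10) ^ 2 := by
    calc S.s L ≤ S.s L + 10 := Nat.le_add_right _ _
      _ ≤ (S.s L + 10) ^ 2 := Nat.le_self_pow (by norm_num) _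
      _ ≤ 100 * (S.s L + 10) ^ 2 := Nat.le_mul_of_pos_left _ (by norm_num)
  have ht := hS.times (hr.trans he) (L := L) (N := 0) (Nat.zero_le _)
  have ht1 := hS.times he (L := L) (N := 0) (Nat.zero_le _)
  have hdb : S.d L ≤ S.b L := by
    unfold GSeq.b
    omega
  exact {
    h2 := by show 2 ≤ S.h L; omega
    hd := by show 4 * S.d L < 2 * S.h L; omega
    db := hdb
    ch := by show S.c L < S.h L; omega
    hσ := by show S.h L ≤ 2 ^ S.σ L; omega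
    bσ := by show S.b L ≤ 2 ^ S.σ L; omega
    qσ := by show S.q e r L ≤ 2 ^ S.σ L; omega
    w₁σ := by show S.w e L ≤ 2 ^ S.σ L; omega
    wσ := by show S.w r L ≤ 2 ^ S.σ L; omega
    w0 := (hS.dims r L).2.2.2.2.2.2
    w1 := (hS.dims e L).2.2.2.2.2.2
    wb := hw.trans hwb
    w₁b := hw1.trans hwb
    qb := hq
    limb := ht.2
    lim₁b := ht1.2 }

end GSeq

end Pool.Agent.NUM
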