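import Pool.Agent.NUM.LocalB
import Pool.Agent.NUM.CpList

/-!
# Block calculus: asks at computed addresses, local maps (all statements in LocalA, LocalB)
-/
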