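import Pool.Agent.NUM.Blk

/-!
# Block calculus: transformations of the memory

`Tr b s F`: composition, assembling a transformation from its cells, conditional, and the passage
to programs (`Tr.decides`).
-/

namespace Pool.Agent.NUM

theorem Tr.mono {b s s' : ℕ} {F : Inp → Mem → Mem} (h : Tr b s F) (hs : s ≤ s') : Tr b s' F := by
  refine ⟨h.dep, fun c hc => ?_⟩
  obtain ⟨C, hC, h1⟩ := h.code c hc
  exact ⟨C, hC.mono hs (by omega), h1⟩

theorem lift_lt {b : ℕ} {F : Inp → Mem → Mem} {z : Inp} {M : Mem} {q : ℕ} (hq : q < b) :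
    lift b F z M q = F z M q := if_pos hq

theorem lift_ge {b : ℕ} {F : Inp → Mem → Mem} {z : Inp} {M : Mem} {q : ℕ} (hq : b ≤ q) :
    lift b F z M q = M q := if_neg (by omega)

theorem Tr.congr {b s : ℕ} {F F' : Inp → Mem → Mem} (h : Tr b s F)
    (hF : ∀ z M, Agr b (F z M) (F' z M)) : Tr b s F' := by
  refine ⟨fun z M M' hM => ((hF z M).symm.trans (h.dep z M M' hM)).trans (hF z M'),
    fun c hc => ?_⟩
  obtain ⟨C, hC, h1⟩ := h.code c hc
  refine ⟨C, hC, fun z M q hq => ?_⟩
  rw [h1 z M q hq]
  by_cases hqb : q < b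
  · rw [lift_lt hqb, lift_lt hqb]; exact hF z M q hqb
  · rw [lift_ge (by omega), lift_ge (by omega)]

/-- the transformation on more cells -/
theorem Tr.lift {b s b' : ℕ} {F : Inp → Mem → Mem} (h : Tr b s F) (hb : b ≤ b') :
    Tr b' s (lift b F) := by
  refine ⟨fun z M M' hM q hq => ?_, fun c hc => ?_⟩
  · by_cases hqb : q < b
    · rw [lift_lt hqb, lift_lt hqb]; exact h.dep z M M' (hM.mono hb) q hqb
    · rw [lift_ge (by omega), lift_ge (by omega)]; exact hM q hq
  · obtain ⟨C, hC, h1⟩ := h.code c (hb.trans hc)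
    refine ⟨C, hC, fun z M q hq => ?_⟩
    rw [h1 z M q hq]
    by_cases hqb : q < b
    · rw [lift_lt hqb, lift_lt (by omega), lift_lt hqb]
    · rw [lift_ge (by omega)]
      by_cases hqb' : q < b'
      · rw [lift_lt hqb', lift_ge (by omega)]
      · rw [lift_ge (by omega)]

theorem Tr.id (b : ℕ) : Tr b 0 (fun _ M => M) := by
  refine ⟨fun z M M' hM => hM, fun c hc => ⟨[], Fit.nil _ _, fun z M q hq => ?_⟩⟩
  by_cases hqb : q < b
  · rw [lift_lt hqb]; rfl
  · rw [lift_ge (by omega)]; rfl

theorem Tr.comp {b s t : ℕ} {F G : Inp → Mem → Mem} (hF : Tr b s F) (hG : Tr b t G) :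
    Tr b (s + t) (fun z M => G z (F z M)) := by
  refine ⟨fun z M M' hM => hG.dep _ _ _ (hF.dep _ _ _ hM), fun c hc => ?_⟩
  obtain ⟨C₁, hC₁, h₁⟩ := hF.code c hc
  obtain ⟨C₂, hC₂, h₂⟩ := hG.code c hc
  refine ⟨C₁ ++ C₂, hC₁.append hC₂ le_rfl (by omega) (by omega), fun z M q hq => ?_⟩
  rw [eval_append, h₂ z _ q hq]
  have e1 := h₁ z M
  by_cases hqb : q < b
  · rw [lift_lt hqb, lift_lt hqb]
    refine hG.dep z _ _ (fun p hp => ?_) q hqb
    rw [e1 p (by omega), lift_lt hp]
  · rw [lift_ge (by omega), lift_ge (by omega), e1 q hq, lift_ge (by omega)]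

/-- one pass of a program -/
theorem Tr.pass {s : ℕ} {G : List Ins} (hG : Sz s G) : Tr s s (fun z M => eval G z M) := by
  refine ⟨fun z M M' hM => eval_agr hG.2 hM, fun c hc => ⟨G, ⟨hG.1, fun i hi => ?_⟩,
    fun z M q hq => ?_⟩⟩
  · have h := hG.2 i hi
    refine ⟨by omega, ?_⟩
    cases i with
    | nand i j k => simp [Ins.len]
    | ask i j l =>
      simp only [Ins.top, max_le_iff] at h
      simp only [Ins.len]; omega
  · by_cases hqs : q < s
    · rw [lift_lt hqs]
    · rw [lift_ge (by omega), eval_ge hG.2 (by omega)]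

/-- assignment to one cell -/
theorem Tr.set {b s : ℕ} {f : Inp → Mem → Bool} (hf : Cp b s f) {o : ℕ} (ho : o < b) :
    Tr b s (fun z M => Function.update M o (f z M)) := by
  refine ⟨fun z M M' hM => ?_, fun c hc => ?_⟩
  · show Agr b (Function.update M o (f z M)) (Function.update M' o (f z M'))
    rw [hf.dep z M M' hM]
    exact hM.update _ _
  · obtain ⟨C, hC, h1⟩ := hf.code c hc o (by omega)
    refine ⟨C, hC, fun z M q hq => ?_⟩
    by_cases hqo : q = o
    · subst hqo
      rw [(h1 z M).1, lift_lt ho]; simp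
    · rw [(h1 z M).2 q hq hqo]
      by_cases hqb : q < b
      · rw [lift_lt hqb, Function.update_of_ne hqo]
      · rw [lift_ge (by omega)]

/-- copying the cells `a, …, a + n - 1` to `d, …, d + n - 1` (disjoint), scratch cell `x` -/
def copyCode (a d x : ℕ) : ℕ → List Ins
  | 0 => []
  | n + 1 => copyCode a d x n ++ [Ins.nand x (a + n) (a + n), Ins.nand (d + n) x x]

theorem copyCode_length (a d x n : ℕ) : (copyCode a d x n).length = 2 * n := by
  induction n with
  | zero => rfl
  | succ n ih => rw [copyCode, List.length_append, ih]; simp; omega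

theorem copyCode_top {a d x n s : ℕ} (ha : a + n ≤ s) (hd : d + n ≤ s) (hx : x < s) :
    ∀ i ∈ copyCode a d x n, i.top ≤ s ∧ i.len = 0 := by
  induction n with
  | zero => simp [copyCode]
  | succ n ih =>
    intro i hi
    rw [copyCode, List.mem_append] at hi
    rcases hi with hi | hi
    · exact ih (by omega) (by omega) i hi
    · simp only [List.mem_cons, List.not_mem_nil, or_false] at hi
      rcases hi with rfl | rfl <;> refine ⟨?_, rfl⟩ <;> simp only [Ins.top, max_le_iff] <;> omega

theorem eval_copyCode {a d x n : ℕ} (h : a + n ≤ d ∨ d + n ≤ a) (hxa : x < a ∨ a + n ≤ x)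
    (hxd : x < d ∨ d + n ≤ x) (z : Inp) (M : Mem) :
    (∀ i < n, eval (copyCode a d x n) z M (d + i) = M (a + i)) ∧
      ∀ q, q ≠ x → (q < d ∨ d + n ≤ q) → eval (copyCode a d x n) z M q = M q := by
  induction n with
  | zero => simp [copyCode]
  | succ n ih =>
    obtain ⟨ih1, ih2⟩ := ih (by omega) (by omega) (by omega)
    rw [copyCode]
    simp only [eval_append, eval_cons, eval_nil, Ins.exec]
    refine ⟨fun i hi => ?_, fun q hqx hq => ?_⟩
    · by_cases hin : i = n
      · subst hin
        rw [Function.update_self, Function.update_self]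
        rw [ih2 (a + i) (by omega) (by omega)]
        simp
      · rw [Function.update_of_ne (by omega), Function.update_of_ne (by omega),
          ih1 i (by omega)]
    · rw [Function.update_of_ne (by omega), Function.update_of_ne hqx, ih2 q hqx (by omega)]

/-- assembling a transformation from its output cells -/
theorem Tr.ofCp {b s : ℕ} {F : Inp → Mem → Mem} (hF : ∀ q < b, Cp b s (fun z M => F z M q)) :
    Tr b (b * (s + 3) + 1) F := by
  refine ⟨fun z M M' hM q hq => (hF q hq).dep z M M' hM, fun c hc => ?_⟩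
  -- first compute the first `n` cells into `c, …, c + n - 1`
  have key : ∀ n ≤ b, ∃ C : List Ins, Fit c (n * (s + 1)) C ∧
      ∀ z M, (∀ q < n, eval C z M (c + q) = F z M q) ∧ Agr c (eval C z M) M := by
    intro n
    induction n with
    | zero =>
      intro _
      exact ⟨[], Fit.nil _ _, fun z M => ⟨by simp, fun q _ => rfl⟩⟩
    | succ n ih =>
      intro hn
      obtain ⟨C, hC, h1⟩ := ih (by omega)
      obtain ⟨D, hD, h2⟩ := (hF n (by omega)).code' (c + n + 1) (by omega) (c + n) (by omega)
      refine ⟨C ++ D, hC.append hD (by nlinarith) (by nlinarith) (by nlinarith),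
        fun z M => ?_⟩
      obtain ⟨h3, h4⟩ := h1 z M
      obtain ⟨h5, h6⟩ := h2 z (eval C z M) M (h4.mono hc)
      rw [eval_append]
      refine ⟨fun q hq => ?_, fun q hq => ?_⟩
      · by_cases hqn : q = n
        · subst hqn; exact h5
        · rw [h6 (c + q) (by omega) (by omega), h3 q (by omega)]
      · rw [h6 q (by omega) (by omega), h4 q hq]
  obtain ⟨C, hC, h1⟩ := key b le_rfl
  refine ⟨C ++ copyCode c 0 (c + b) b, ?_, fun z M q hq => ?_⟩
  · refine hC.append (c₂ := c + b + 1) (s₂ := 2 * b) ⟨(copyCode_length _ _ _ _).le, ?_⟩ ?_ ?_ ?_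
    · intro i hi
      obtain ⟨h2, h3⟩ := copyCode_top (s := c + b + 1 + 2 * b) (by omega) (by omega) (by omega) i hi
      exact ⟨h2, by omega⟩
    · nlinarith
    · nlinarith
    · nlinarith
  · obtain ⟨h3, h4⟩ := h1 z M
    rw [eval_append]
    obtain ⟨h5, h6⟩ := eval_copyCode (a := c) (d := 0) (x := c + b) (n := b) (by omega) (by omega)
      (by omega) z (eval C z M)
    by_cases hqb : q < b
    · have := h5 q hqb
      rw [Nat.zero_add] at this
      rw [this, h3 q hqb, lift_lt hqb]
    · rw [h6 q (by omega) (by omega), h4 q hq, lift_ge (by omega)]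

/-- an output cell of a transformation is computable -/
theorem Tr.cell {b s q : ℕ} {F : Inp → Mem → Mem} (hF : Tr b s F) (hq : q < b) :
    Cp b (s + 4 * b + 4) (fun z M => F z M q) := by
  refine ⟨fun z M M' hM => hF.dep z M M' hM q hq, fun c hc o ho => ?_⟩
  -- save `0..b-1` in `c..c+b-1`, result in `c+b`, scratch `c+b+1`
  obtain ⟨C, hC, h1⟩ := hF.code (c + b + 2) (by omega)
  refine ⟨copyCode 0 c (c + b + 1) b ++ (C ++ ([Ins.nand (c + b + 1) q q,
    Ins.nand (c + b) (c + b + 1) (c + b + 1)] ++ (copyCode c 0 (c + b + 1) b ++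
      [Ins.nand (c + b + 1) (c + b) (c + b), Ins.nand o (c + b + 1) (c + b + 1)]))), ?_,
    fun z M => ?_⟩
  · refine ⟨?_, ?_⟩
    · simp only [List.length_append, copyCode_length, List.length_cons, List.length_nil]
      have := hC.1
      omega
    · intro i hi
      simp only [List.mem_append, List.mem_cons, List.not_mem_nil, or_false] at hi
      rcases hi with hi | hi | (rfl | rfl) | hi | (rfl | rfl)
      · obtain ⟨h2, h3⟩ := copyCode_top (s := c + b + 2) (by omega) (by omega) (by omega) i hi
        omega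
      · have := hC.2 i hi
        omega
      · simp only [Ins.top, Ins.len, max_le_iff]; omega
      · simp only [Ins.top, Ins.len, max_le_iff]; omega
      · obtain ⟨h2, h3⟩ := copyCode_top (s := c + b + 2) (by omega) (by omega) (by omega) i hi
        omega
      · simp only [Ins.top, Ins.len, max_le_iff]; omega
      · simp only [Ins.top, Ins.len, max_le_iff]; omega
  · simp only [eval_append, eval_cons, eval_nil, Ins.exec]
    obtain ⟨a1, a2⟩ := eval_copyCode (a := 0) (d := c) (x := c + b + 1) (n := b) (by omega)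
      (by omega) (by omega) z M
    set M₁ := eval (copyCode 0 c (c + b + 1) b) z M
    have e1 := h1 z M₁
    set M₂ := eval C z M₁
    have hqF : M₂ q = F z M q := by
      rw [e1 q (by omega), lift_lt hq]
      exact hF.dep z M₁ M (fun p hp => a2 p (by omega) (by omega)) q hq
    set M₃ := Function.update (Function.update M₂ (c + b + 1) (!(M₂ q && M₂ q))) (c + b)
      (!(Function.update M₂ (c + b + 1) (!(M₂ q && M₂ q)) (c + b + 1) &&
        Function.update M₂ (c + b + 1) (!(M₂ q && M₂ q)) (c + b + 1))) with hM₃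
    have f1 : M₃ (c + b) = F z M q := by
      rw [hM₃]
      simp [hqF]
    have f2 : ∀ p, p < c + b → M₃ p = M₂ p := by
      intro p hp
      rw [hM₃, Function.update_of_ne (by omega), Function.update_of_ne (by omega)]
    obtain ⟨b1, b2⟩ := eval_copyCode (a := c) (d := 0) (x := c + b + 1) (n := b) (by omega)
      (by omega) (by omega) z M₃
    set M₄ := eval (copyCode c 0 (c + b + 1) b) z M₃
    have g1 : M₄ (c + b) = F z M q := by rw [b2 (c + b) (by omega) (by omega), f1]
    have g2 : ∀ p, p < c → M₄ p = M p := by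
      intro p hp
      by_cases hpb : p < b
      · have h3 := b1 p hpb
        rw [Nat.zero_add] at h3
        have h4 := a1 p hpb
        rw [Nat.zero_add] at h4
        rw [h3, f2 (c + p) (by omega), e1 (c + p) (by omega), lift_ge (by omega), h4]
      · rw [b2 p (by omega) (by omega), f2 p (by omega), e1 p (by omega), lift_ge (by omega),
          a2 p (by omega) (by omega)]
    refine ⟨by simp [g1], fun p hp hpo => ?_⟩
    rw [Function.update_of_ne hpo, Function.update_of_ne (by omega), g2 p hp]

/-- a computable function after a transformation -/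
theorem Cp.comp {b s t : ℕ} {f : Inp → Mem → Bool} {F : Inp → Mem → Mem} (hf : Cp b s f)
    (hF : Tr b t F) (hb : 0 < b) : Cp b (s + t + 4 * b + 4) (fun z M => f z (F z M)) := by
  have h1 : Tr b (t + s) (fun z M => Function.update (F z M) 0 (f z (F z M))) :=
    hF.comp (Tr.set hf hb)
  refine ((h1.cell hb).congr (fun z M => ?_)).mono le_rfl (by omega)
  simp

/-- conditional transformation -/
theorem Tr.ite {b s t u : ℕ} {f : Inp → Mem → Bool} {F G : Inp → Mem → Mem} (hf : Cp b s f)
    (hF : Tr b t F) (hG : Tr b u G) :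
    Tr b (b * (2 * s + t + u + 8 * b + 42) + 1) (fun z M => bif f z M then F z M else G z M) := by
  refine (Tr.ofCp (s := 2 * s + (t + 4 * b + 4) + (u + 4 * b + 4) + 31) (fun q hq => ?_)).mono
    (by nlinarith)
  exact (Cp.ite hf (hF.cell hq) (hG.cell hq)).congr (fun z M => by
    cases f z M <;> rfl)

/-- conditional function update of a block of cells given by computable functions -/
theorem Tr.setMany {b s : ℕ} {g : ℕ → Inp → Mem → Bool} {S : ℕ → Bool}
    (hg : ∀ q < b, S q = true → Cp b s (g q)) :
    Tr b (b * (s + 5) + 1) (fun z M q => bif S q then g q z M else M q) := by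
  refine (Tr.ofCp (s := s + 2) (fun q hq => ?_)).mono (by nlinarith)
  cases hS : S q with
  | true =>
    exact ((hg q hq hS).mono le_rfl (by omega)).congr (fun z M => by simp)
  | false =>
    exact ((Cp.cell hq).mono le_rfl (by omega)).congr (fun z M => by simp)

/-- from an abstract machine `F` with `Tr b s F` to a program -/
theorem Tr.exists_code {b s : ℕ} {F : Inp → Mem → Mem} (hF : Tr b s F) :
    ∃ G : List Ins, Sz (b + s) G ∧ ∀ z M M', Agr b M M' → Agr b (eval G z M) (F z M') := by
  obtain ⟨C, hC, h1⟩ := hF.code b le_rfl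
  refine ⟨C, ⟨hC.1.trans (by omega), fun i hi => (hC.2 i hi).1⟩, fun z M M' hM q hq => ?_⟩
  rw [h1 z M q hq, lift_lt hq]
  exact hF.dep z M M' hM q hq

theorem run_congr {f g : Mem → Mem} {s : ℕ} (hs : 3 ≤ s)
    (hfg : ∀ M M', Agr s M M' → Agr s (f M) (g M')) {T : ℕ} {b : Bool} {M M' : Mem}
    (hM : Agr s M M') (h : run f T M [] = some b) : run g T M' [] = some b := by
  rw [run_nil_iff] at h ⊢
  obtain ⟨k, V, hk, hE, hV⟩ := h
  obtain ⟨V', hV', hE'⟩ := hE.transfer hs hfg M' hM
  exact ⟨k, V', hk, hE', by rw [← hV' 2 (by omega)]; exact hV⟩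

theorem run_congr_iff {f g : Mem → Mem} {s : ℕ} (hs : 3 ≤ s)
    (hfg : ∀ M M', Agr s M M' → Agr s (f M) (g M')) {T : ℕ} {b : Bool} {M M' : Mem}
    (hM : Agr s M M') : run f T M [] = some b ↔ run g T M' [] = some b :=
  ⟨run_congr hs hfg hM, run_congr hs (fun M M' h => (hfg M' M h.symm).symm) hM.symm⟩

/-- from an abstract machine to a program -/
theorem Tr.decides {b s B T : ℕ} {F : Inp → Mem → Mem} {P : Inp → Prop} (hF : Tr b s F)
    (hb : 3 ≤ b) (hP : ∀ z, Supp B z → ∃ v, run (F z) T zeroMem [] = some v ∧ (v = true ↔ P z)) :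
    ∃ G : List Ins, Sz (b + s) G ∧ Decides G B T P := by
  obtain ⟨G, hG, h1⟩ := hF.exists_code
  refine ⟨G, hG, fun z hz => ?_⟩
  obtain ⟨v, hv, hvP⟩ := hP z hz
  refine ⟨v, ?_, hvP⟩
  exact (run_congr_iff hb (fun M M' h => h1 z M M' h) (Agr.refl _ _)).2 hv

/-- complement -/
theorem Decides.compl {G : List Ins} {s B T : ℕ} {P : Inp → Prop} (hG : Sz s G) (hs : 3 ≤ s)
    (hP : Decides G B T P) :
    ∃ G' : List Ins, Sz (2 * s + 100) G' ∧ Decides G' B T (fun z => ¬ P z) := by
  -- after each pass, cell 2 is negated if the operation is a pop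
  have h1 : Cp s 70 (fun _ M => bif M 0 && M 1 then !(M 2) else M 2) :=
    (Cp.ite ((Cp.cell (show 0 < s by omega)).and (Cp.cell (show 1 < s by omega)))
      (Cp.cell (show 2 < s by omega)).not (Cp.cell (show 2 < s by omega))).mono le_rfl
      (by norm_num)
  have h2 : Tr s (s + 70) (fun z M => Function.update (eval G z M) 2
      (bif eval G z M 0 && eval G z M 1 then
        !(eval G z M 2) else eval G z M 2)) :=
    (Tr.pass hG).comp (Tr.set h1 (show 2 < s by omega))
  obtain ⟨G', hG', h3⟩ := h2.decides (B := B) (T := T) (P := fun z => ¬ P z) hs (by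
    intro z hz
    obtain ⟨v, hv, hvP⟩ := hP z hz
    refine ⟨!v, ?_, by cases v <;> simp_all⟩
    rw [run_nil_iff] at hv ⊢
    obtain ⟨k, V, hk, hE, hV⟩ := hv
    have key : ∀ k M V, Ev (eval G z) k M V →
        Ev (fun M => Function.update (eval G z M) 2
          (bif eval G z M 0 && eval G z M 1 then
            !(eval G z M 2) else eval G z M 2)) k M
          (Function.update V 2 (!(V 2))) := by
      intro k M V hE
      induction hE with
      | @halt M h0 h1 =>
        have : Function.update (eval G z M) 2 (!(eval G z M 2)) =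
          (fun M => Function.update (eval G z M) 2
            (bif eval G z M 0 && eval G z M 1 then
              !(eval G z M 2) else eval G z M 2)) M := by
          simp [h0, h1]
        rw [this]
        refine Ev.halt ?_ ?_ <;> simp [h0, h1]
      | @go M k V h0 _ ih =>
        refine Ev.go (by simp [h0]) ?_
        simpa [h0] using ih
      | @push M k₁ k₂ V₁ V h0 h1 _ _ ih₁ ih₂ =>
        refine Ev.push (V₁ := Function.update V₁ 2 (!(V₁ 2))) (by simp [h0]) (by simp [h1]) ?_ ?_
        · simpa [h0, h1] using ih₁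
        · simpa [h0, h1] using ih₂
    exact ⟨k, _, hk, key k _ _ hE, by simp [hV]⟩)
  exact ⟨G', hG'.mono (by omega), h3⟩

end Pool.Agent.NUM
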