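import Pool.Agent.NUM.Blk

/-!
# Block calculus: programs on virtual inputs
-/

namespace Pool.Agent.NUM

namespace VirtAux

/-- one instruction on the virtual input -/
theorem ins_virt {c s l t : ℕ} {φ : Inp → Inp} (hφ : Loc l t φ) {I : Ins}
    (hI : I.top ≤ c + s) (hl : I.len ≤ l) :
    ∃ C' : List Ins, C'.length ≤ t + 1 ∧ (∀ x ∈ C', x.top ≤ c + s + t ∧ x.len ≤ t) ∧
      ∀ z M M', Agr (c + s) M M' → Agr (c + s) (eval C' z M) (I.exec (φ z) M') := by
  cases I with
  | nand i j k =>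
    refine ⟨[.nand i j k], by simp, ?_, ?_⟩
    · intro x hx
      rw [List.mem_singleton] at hx
      subst hx
      simp only [Ins.len]
      omega
    · intro z M M' hM
      exact Ins.exec_agr hI hM
  | ask i j k =>
    simp only [Ins.top, max_le_iff] at hI
    simp only [Ins.len] at hl
    obtain ⟨C', hC', h1⟩ := (hφ k hl j).code' (c + s) hI.2 i (by omega)
    refine ⟨C', by have := hC'.1; omega, fun x hx => ?_, fun z M M' hM q hq => ?_⟩
    · have := hC'.2 x hx; omega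
    · obtain ⟨h2, h3⟩ := h1 z M M (Agr.refl _ _)
      simp only [Ins.exec]
      by_cases e : q = i
      · subst e
        rw [h2, Function.update_self, word_congr hM hI.2]
      · rw [Function.update_of_ne e, h3 q hq e, hM q hq]

theorem list_virt {c s l t : ℕ} {φ : Inp → Inp} (hφ : Loc l t φ) : ∀ C : List Ins,
    (∀ x ∈ C, x.top ≤ c + s ∧ x.len ≤ l) →
    ∃ C' : List Ins, C'.length ≤ C.length * (t + 1) ∧
      (∀ x ∈ C', x.top ≤ c + s + t ∧ x.len ≤ t) ∧
      ∀ z M M', Agr (c + s) M M' → Agr (c + s) (eval C' z M) (eval C (φ z) M') := by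
  intro C
  induction C with
  | nil => intro _; exact ⟨[], by simp, by simp, fun z M M' hM => hM⟩
  | cons I C ih =>
    intro hC
    obtain ⟨A, hA1, hA2, hA3⟩ := ins_virt (s := s) (c := c) hφ (hC I List.mem_cons_self).1
      (hC I List.mem_cons_self).2
    obtain ⟨B, hB1, hB2, hB3⟩ := ih (fun x hx => hC x (List.mem_cons_of_mem _ hx))
    refine ⟨A ++ B, ?_, ?_, ?_⟩
    · rw [List.length_append, List.length_cons, Nat.succ_mul]; omega
    · intro x hx
      rcases List.mem_append.1 hx with hx | hx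
      · exact hA2 x hx
      · exact hB2 x hx
    · intro z M M' hM
      rw [eval_append, eval_cons]
      exact hB3 z _ _ (hA3 z M M' hM)

end VirtAux

open VirtAux

/-- core: replace every `ask` by the code of the local map -/
theorem exists_virt {c s l t : ℕ} {φ : Inp → Inp} (hφ : Loc l t φ) {C : List Ins}
    (hC : Fit c s C) (hs : s ≤ l) :
    ∃ C' : List Ins, Fit c (s * (t + 1) + s + t) C' ∧
      ∀ z M M', Agr (c + s) M M' → Agr (c + s) (eval C' z M) (eval C (φ z) M') := by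
  obtain ⟨C', h1, h2, h3⟩ := list_virt (c := c) (s := s) hφ C
    (fun x hx => ⟨(hC.2 x hx).1, (hC.2 x hx).2.trans hs⟩)
  refine ⟨C', ⟨?_, fun x hx => ?_⟩, h3⟩
  · have := Nat.mul_le_mul_right (t + 1) hC.1
    omega
  · have := h2 x hx; omega

theorem Cp.virt {b s l t : ℕ} {f : Inp → Mem → Bool} (hf : Cp b s f) {φ : Inp → Inp}
    (hφ : Loc l t φ) (hs : s ≤ l) :
    Cp b (s * (t + 1) + s + t) (fun z M => f (φ z) M) := by
  refine ⟨fun z M M' hM => hf.dep (φ z) M M' hM, fun c hc o ho => ?_⟩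
  obtain ⟨C, hC, h1⟩ := hf.code c hc o ho
  obtain ⟨C', hC', h2⟩ := exists_virt hφ hC hs
  refine ⟨C', hC', fun z M => ?_⟩
  have h3 := h2 z M M (Agr.refl _ _)
  refine ⟨?_, fun q hq hqo => ?_⟩
  · rw [h3 o (by omega), (h1 (φ z) M).1]
  · rw [h3 q (by omega), (h1 (φ z) M).2 q hq hqo]

theorem Tr.virt {b s l t : ℕ} {F : Inp → Mem → Mem} (hF : Tr b s F) {φ : Inp → Inp}
    (hφ : Loc l t φ) (hs : s ≤ l) :
    Tr b (s * (t + 1) + s + t) (fun z M => F (φ z) M) := by
  refine ⟨fun z M M' hM => hF.dep (φ z) M M' hM, fun c hc => ?_⟩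
  obtain ⟨C, hC, h1⟩ := hF.code c hc
  obtain ⟨C', hC', h2⟩ := exists_virt hφ hC hs
  refine ⟨C', hC', fun z M q hq => ?_⟩
  rw [h2 z M M (Agr.refl _ _) q (by omega), h1 (φ z) M q hq]
  rfl

theorem Loc.comp {l s l' t : ℕ} {φ ψ : Inp → Inp} (hφ : Loc l s φ) (hψ : Loc l' t ψ)
    (hs : s ≤ l') : Loc l (s * (t + 1) + s + t) (fun z => φ (ψ z)) :=
  fun k hk j => (hφ k hk j).virt hψ hs

/-- a program on a virtual input: same number of steps -/
theorem Decides.virt {G : List Ins} {s l t B B' T : ℕ} {P : Inp → Prop} (hG : Sz s G)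
    (hs : 3 ≤ s) (hP : Decides G B T P) {φ : Inp → Inp} (hφ : Loc l t φ) (hl : s ≤ l)
    (hB : ∀ z, Supp B' z → Supp B (φ z)) :
    ∃ G' : List Ins, Sz (s * (t + 1) + 2 * s + t) G' ∧ Decides G' B' T (fun z => P (φ z)) := by
  have hF : Fit 0 s G := by
    refine ⟨hG.1, fun x hx => ?_⟩
    have h1 := hG.2 x hx
    refine ⟨by omega, ?_⟩
    cases x with
    | nand i j k => simp [Ins.len]
    | ask i j k =>
      simp only [Ins.top, max_le_iff] at h1
      simp only [Ins.len]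
      omega
  obtain ⟨G', hG', h2⟩ := exists_virt hφ hF hl
  refine ⟨G', ⟨by have := hG'.1; omega, fun x hx => by have := (hG'.2 x hx).1; omega⟩, ?_⟩
  intro z hz
  obtain ⟨b, h3, h4⟩ := hP (φ z) (hB z hz)
  refine ⟨b, ?_, h4⟩
  obtain ⟨k, V, hk, hE, hb⟩ := run_nil_iff.1 h3
  obtain ⟨V', hV, hE'⟩ := hE.transfer (g := eval G' z) hs
    (fun M M' hM => by
      have := h2 z M' M (by rw [Nat.zero_add]; exact hM.symm)
      rw [Nat.zero_add] at this
      exact this.symm) zeroMem (Agr.refl _ _)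
  exact run_nil_iff.2 ⟨k, V', hk, hE', by rw [← hV 2 (by omega)]; exact hb⟩

end Pool.Agent.NUM
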