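import Pool.Agent.NUM.Abs
import Pool.Agent.NUM.Asym
import Pool.Agent.NUM.Virt
import Pool.Agent.NUM.Trans
import Pool.Agent.NUM.Local

/-!
# The fields `not`, `dummy`, `merge` of the interface `Trade`; virtual inputs for `InCl`
-/

set_option autoImplicit false

namespace Pool.Agent.NUM

open Filter

/-! ## asymptotic notation -/

theorem ex_iff {e : ℝ} {f : ℕ → ℕ} : Ex e f ↔ ExpLe e f := by
  unfold Ex ExpLe
  simp only [eventually_atTop]

theorem ex_zero_iff {f : ℕ → ℕ} : Ex 0 f ↔ SubExp f := by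
  rw [ex_iff, subExp_iff]

theorem Ex.of_le {e : ℝ} {f g : ℕ → ℕ} (h : Ex e f) (hg : ∃ L₀, ∀ L, L₀ ≤ L → g L ≤ f L) :
    Ex e g := by
  rw [ex_iff] at *
  exact h.mono' (eventually_atTop.2 hg)

theorem Lin.subExp {u : ℝ} {f : ℕ → ℕ} (h : Lin u f) : SubExp f := by
  obtain ⟨L₀, h1⟩ := h 1 one_pos
  refine SubExp.linear (|u + 1|) (eventually_atTop.2 ⟨L₀, fun L hL => ?_⟩)
  have h2 := h1 L hL
  have h3 : (u + 1) * (L : ℝ) ≤ |u + 1| * L :=
    mul_le_mul_of_nonneg_right (le_abs_self _) (Nat.cast_nonneg _)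
  have := abs_nonneg (u + 1)
  linarith

/-! ## programs, pointwise in the input -/

/-- a program on a virtual input -/
theorem exists_virt_run {G : List Ins} {s l t : ℕ} (hG : Sz s G) (hs : 3 ≤ s) {φ : Inp → Inp}
    (hφ : Loc l t φ) (hl : s ≤ l) :
    ∃ G' : List Ins, Sz (s * (t + 1) + 2 * s + t) G' ∧ ∀ (z : Inp) (T : ℕ) (b : Bool),
      run (eval G (φ z)) T zeroMem [] = some b → run (eval G' z) T zeroMem [] = some b := by
  obtain ⟨G', hG', h1⟩ := ((Tr.pass hG).virt hφ hl).exists_code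
  refine ⟨G', hG'.mono (by omega), fun z T b h => ?_⟩
  exact (run_congr_iff hs (fun M M' hM => h1 z M M' hM) (Agr.refl _ _)).2 h

/-- complement, pointwise in the input -/
theorem exists_compl_run {G : List Ins} {s : ℕ} (hG : Sz s G) (hs : 3 ≤ s) :
    ∃ G' : List Ins, Sz (2 * s + 100) G' ∧ ∀ (z : Inp) (T : ℕ) (b : Bool),
      run (eval G z) T zeroMem [] = some b → run (eval G' z) T zeroMem [] = some (!b) := by
  have h1 : Cp s 70 (fun _ M => bif M 0 && M 1 then !(M 2) else M 2) :=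
    (Cp.ite ((Cp.cell (show 0 < s by omega)).and (Cp.cell (show 1 < s by omega)))
      (Cp.cell (show 2 < s by omega)).not (Cp.cell (show 2 < s by omega))).mono le_rfl
      (by norm_num)
  have h2 : Tr s (s + 70) (fun z M => Function.update (eval G z M) 2
      (bif eval G z M 0 && eval G z M 1 then
        !(eval G z M 2) else eval G z M 2)) :=
    (Tr.pass hG).comp (Tr.set h1 (show 2 < s by omega))
  obtain ⟨G', hG', h3⟩ := h2.exists_code
  refine ⟨G', hG'.mono (by omega), fun z T b h => ?_⟩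
  refine (run_congr_iff hs (fun M M' hM => h3 z M M' hM) (Agr.refl _ _)).2 ?_
  rw [run_nil_iff] at h ⊢
  obtain ⟨k, V, hk, hE, hV⟩ := h
  have key : ∀ k M V, Ev (eval G z) k M V →
      Ev (fun M => Function.update (eval G z M) 2
        (bif eval G z M 0 && eval G z M 1 then
          !(eval G z M 2) else eval G z M 2)) k M
        (Function.update V 2 (!(V 2))) := by
    intro k M V hE
    induction hE with
    | @halt M h0 h1 =>
      have : Function.update (eval G z M) 2 (!(eval G z M 2)) =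
        (fun M => Function.update (eval G z M) 2
          (bif eval G z M 0 && eval G z M 1 then
            !(eval G z M 2) else eval G z M 2)) M := by
        simp [h0, h1]
      rw [this]
      refine Ev.halt ?_ ?_ <;> simp [h0, h1]
    | @go M k V h0 _ ih =>
      refine Ev.go (by simp [h0]) ?_
      simpa [h0] using ih
    | @push M k₁ k₂ V₁ V h0 h1 _ _ ih₁ ih₂ =>
      refine Ev.push (V₁ := Function.update V₁ 2 (!(V₁ 2))) (by simp [h0]) (by simp [h1]) ?_ ?_
      · simpa [h0, h1] using ih₁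
      · simpa [h0, h1] using ih₂
  exact ⟨k, _, hk, key k _ _ hE, by simp [hV]⟩

/-! ## families -/

/-- sizes at least 3 -/
theorem InCl.sz3 {T : Type} {π : Pres T} {P : T → Prop} {e : ℝ} (h : InCl π P e) :
    ∃ (G : ℕ → List Ins) (s t : ℕ → ℕ) (L₀ : ℕ), SubExp s ∧ ExpLe e t ∧ (∀ L, 3 ≤ s L) ∧
      (∀ L, Sz (s L) (G L)) ∧ ∀ τ, L₀ ≤ π.idx τ →
      ∃ b, run (eval (G (π.idx τ)) (π.inp τ)) (t (π.idx τ)) zeroMem [] = some b ∧
        (b = true ↔ P τ) := by
  obtain ⟨G, s, t, L₀, h1, h2, h3, h4⟩ := h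
  refine ⟨G, fun L => s L + 3, t, L₀, (ex_zero_iff.1 h1).add (SubExp.const 3), ex_iff.1 h2,
    fun L => Nat.le_add_left _ _, fun L => (h3 L).mono (Nat.le_add_right _ _), h4⟩

theorem InCl.compl {T : Type} {π : Pres T} {P : T → Prop} {e : ℝ} (h : InCl π P e) :
    InCl π (fun τ => ¬ P τ) e := by
  obtain ⟨G, s, t, L₀, h1, h2, h3, h4, h5⟩ := h.sz3
  choose G' hG' hrun using fun L => exists_compl_run (h4 L) (h3 L)
  refine ⟨G', fun L => 2 * s L + 100, t, L₀, ?_, ex_iff.2 h2, hG', fun τ hτ => ?_⟩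
  · exact ex_zero_iff.2 (((SubExp.const 2).mul h1).add (SubExp.const 100))
  · obtain ⟨b, hb, hbP⟩ := h5 τ hτ
    exact ⟨!b, hrun _ _ _ _ hb, by cases b <;> simp_all⟩

/-- **Virtual inputs for families.**  The instances `σ` of `ρ` are decided by the program for the
instances `f σ` of `π`, if the input of `f σ` is a local function of the input of `σ`. -/
theorem InCl.virt {T S : Type} {π : Pres T} {ρ : Pres S} {P : T → Prop} {e : ℝ} (h : InCl π P e)
    (f : S → T) (hidx : ∀ σ, π.idx (f σ) = ρ.idx σ) (φ : ℕ → Inp → Inp)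
    (hφ : ∀ s : ℕ → ℕ, SubExp s → ∃ t : ℕ → ℕ, SubExp t ∧ ∀ L, Loc (s L) (t L) (φ L))
    (hinp : ∃ L₁, ∀ σ, L₁ ≤ ρ.idx σ → π.inp (f σ) = φ (ρ.idx σ) (ρ.inp σ)) :
    InCl ρ (fun σ => P (f σ)) e := by
  obtain ⟨G, s, t, L₀, h1, h2, h3, h4, h5⟩ := h.sz3
  obtain ⟨u, hu, hu'⟩ := hφ s h1
  obtain ⟨L₁, hL₁⟩ := hinp
  choose G' hG' hrun using fun L => exists_virt_run (h4 L) (h3 L) (hu' L) le_rfl
  refine ⟨G', fun L => s L * (u L + 1) + 2 * s L + u L, t, max L₀ L₁, ?_, ex_iff.2 h2, hG',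
    fun σ hσ => ?_⟩
  · exact ex_zero_iff.2 (((h1.mul (hu.add (SubExp.const 1))).add ((SubExp.const 2).mul h1)).add hu)
  · obtain ⟨b, hb, hbP⟩ := h5 (f σ) (by rw [hidx]; exact le_trans (le_max_left _ _) hσ)
    rw [hidx, hL₁ σ (le_trans (le_max_right _ _) hσ)] at hb
    exact ⟨b, hrun _ _ _ _ hb, hbP⟩

/-! ## local maps with subexponential cost -/

/-- the family `φ` of maps of inputs is local with subexponential cost -/
def LocF (φ : ℕ → Inp → Inp) : Prop :=
  ∀ s : ℕ → ℕ, SubExp s → ∃ t : ℕ → ℕ, SubExp t ∧ ∀ L, Loc (s L) (t L) (φ L)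

theorem LocF.id : LocF (fun _ z => z) := fun s hs =>
  ⟨fun L => s L + 1, hs.add (SubExp.const 1), fun L => Loc.id (s L)⟩

theorem LocF.pair {φ ψ : ℕ → Inp → Inp} (hφ : LocF φ) (hψ : LocF ψ) :
    LocF (fun L z => NUM.pair (φ L z) (ψ L z)) := by
  intro s hs
  obtain ⟨t, ht, h1⟩ := hφ s hs
  obtain ⟨t', ht', h2⟩ := hψ s hs
  exact ⟨fun L => t L + t' L + 40, (ht.add ht').add (SubExp.const 40),
    fun L => Loc.pair (h1 L) (h2 L)⟩

theorem LocF.shift {φ : ℕ → Inp → Inp} (pre : List Bool) (hφ : LocF φ) :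
    LocF (fun L z a => φ L z (pre ++ a)) := by
  intro s hs
  obtain ⟨t, ht, h1⟩ := hφ (fun L => s L + pre.length) (hs.add (SubExp.const _))
  exact ⟨fun L => 20 * (s L + pre.length) + t L + 20,
    ((((SubExp.const 20).mul (hs.add (SubExp.const _)))).add ht).add (SubExp.const 20),
    fun L => Loc.shift pre (h1 L)⟩

theorem LocF.trc {φ : ℕ → Inp → Inp} (hφ : LocF φ) (B : ℕ → ℕ) :
    LocF (fun L z => NUM.trc (B L) (φ L z)) := by
  intro s hs
  obtain ⟨t, ht, h1⟩ := hφ s hs
  exact ⟨fun L => t L + 8, ht.add (SubExp.const 8), fun L => Loc.trunc (h1 L) (B L)⟩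

theorem LocF.comp {φ ψ : ℕ → Inp → Inp} (hφ : LocF φ) (hψ : LocF ψ) :
    LocF (fun L z => φ L (ψ L z)) := by
  intro s hs
  obtain ⟨t, ht, h1⟩ := hφ s hs
  obtain ⟨t', ht', h2⟩ := hψ t ht
  exact ⟨fun L => t L * (t' L + 1) + t L + t' L,
    ((ht.mul (ht'.add (SubExp.const 1))).add ht).add ht',
    fun L => Loc.comp (h1 L) (h2 L) le_rfl⟩

/-! ## the fields of `Trade` -/

theorem trade_not {T : Type} {π : Pres T} {P : T → Prop} {b e : ℝ} (_ : Size π b)
    (h : InCl π P e) : InCl π (fun τ => ¬ P τ) e := h.compl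

theorem trade_dummy {T : Type} {π : Pres T} {P : T → Prop} {b u e : ℝ} {β : ℕ → ℕ}
    (_ : Size π b) (_ : Lin u β) (h : InCl π P e) : InCl (π.ext β) (fun p => P p.1) e := by
  refine h.virt (ρ := π.ext β) Prod.fst (fun _ => rfl) (fun _ z a => z ([false] ++ a))
    (LocF.shift [false] LocF.id) ⟨0, fun σ _ => ?_⟩
  rfl

theorem trade_merge {T : Type} {π : Pres T} {b u u' e : ℝ} {β β' : ℕ → ℕ}
    {C : (T × Inp) × Inp → Prop} (_ : Size π b) (hβ : Lin u β) (hβ' : Lin u' β')
    (h : InCl ((π.ext β).ext β') C e) :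
    ∃ β'' : ℕ → ℕ, Lin (max u u') β'' ∧
      InCl (π.ext β'')
        (fun p => C ((p.1, fun a => p.2 (false :: a)), fun a => p.2 (true :: a))) e := by
  refine ⟨fun L => max (β L) (β' L) + 1, ?_, ?_⟩
  · have := (hβ.max hβ').add (Lin.const 0 le_rfl 1)
    rwa [add_zero] at this
  · refine h.virt (ρ := π.ext fun L => max (β L) (β' L) + 1)
      (fun p => ((p.1, fun a => p.2 (false :: a)), fun a => p.2 (true :: a))) (fun _ => rfl)
      (fun L z => pair (pair (fun a => z ([false] ++ a)) (trc (β L) fun a => z ([true, false] ++ a)))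
        (trc (β' L) fun a => z ([true, true] ++ a)))
      (LocF.pair (LocF.pair (LocF.shift [false] LocF.id)
        (LocF.trc (LocF.shift [true, false] LocF.id) β))
        (LocF.trc (LocF.shift [true, true] LocF.id) β')) ⟨0, fun p _ => ?_⟩
    set m := max (β (π.idx p.1)) (β' (π.idx p.1)) + 1 with hm
    have e1 : trc (β (π.idx p.1)) (fun a => p.2 (false :: a)) =
        trc (β (π.idx p.1)) (fun a => trc m p.2 (false :: a)) := by
      funext a
      simp only [trc]
      by_cases ha : a.length ≤ β (π.idx p.1)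
      · have h1 : (false :: a).length ≤ m := by
          simp only [List.length_cons, hm]
          exact Nat.succ_le_succ (ha.trans (le_max_left _ _))
        rw [if_pos ha, if_pos ha, if_pos h1]
      · rw [if_neg ha, if_neg ha]
    have e2 : trc (β' (π.idx p.1)) (fun a => p.2 (true :: a)) =
        trc (β' (π.idx p.1)) (fun a => trc m p.2 (true :: a)) := by
      funext a
      simp only [trc]
      by_cases ha : a.length ≤ β' (π.idx p.1)
      · have h1 : (true :: a).length ≤ m := by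
          simp only [List.length_cons, hm]
          exact Nat.succ_le_succ (ha.trans (le_max_right _ _))
        rw [if_pos ha, if_pos ha, if_pos h1]
      · rw [if_neg ha, if_neg ha]
    show pair (pair (π.inp p.1) (trc (β (π.idx p.1)) fun a => p.2 (false :: a)))
      (trc (β' (π.idx p.1)) fun a => p.2 (true :: a)) =
      pair (pair (π.inp p.1) (trc (β (π.idx p.1)) fun a => trc m p.2 (false :: a)))
      (trc (β' (π.idx p.1)) fun a => trc m p.2 (true :: a))
    rw [e1, e2]

end Pool.Agent.NUM
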