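import Pool.Agent.NUM.HChkCompl

/-!
# Honest lists from partitions of the computation
-/

set_option autoImplicit false

namespace Pool.Agent.NUM

open Finset

/-- increasing enumeration of a finite set -/
theorem exists_enum (B : Finset ℕ) : ∃ t : ℕ → ℕ, (∀ i < B.card, t i ∈ B) ∧
    (∀ i j, i < j → j < B.card → t i < t j) ∧ ∀ x ∈ B, ∃ i < B.card, t i = x := by
  classical
  refine ⟨fun i => if h : i < B.card then B.orderEmbOfFin rfl ⟨i, h⟩ else 0, ?_, ?_, ?_⟩
  · intro i hi
    simp only [dif_pos hi]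
    exact B.orderEmbOfFin_mem rfl _
  · intro i j hij hj
    simp only [dif_pos hj, dif_pos (hij.trans hj)]
    exact (B.orderEmbOfFin rfl).strictMono (by simpa using hij)
  · intro x hx
    have h1 : x ∈ Set.range (B.orderEmbOfFin rfl) := by
      rw [Finset.range_orderEmbOfFin]
      exact hx
    obtain ⟨⟨i, hi⟩, h2⟩ := h1
    exact ⟨i, hi, by simp only [dif_pos hi]; exact h2⟩

variable {A : Type} {H : HM A}

/-- **Honest lists exist.** -/
theorem exists_hon {N r k w : ℕ} (hO : H.Out N true) (hN : 0 < N) (cls : ℕ → ℕ)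
    (hr : ∀ j, ((range (N + 1)).filter fun u => cls u = j).card ≤ r) (S : Finset ℕ)
    (hS : S.card ≤ k) (hS' : ∀ u < N, (cls u ≠ cls (u + 1) → u ∈ S) ∧
      (H.idx (H.U u) ≤ u → cls (H.idx (H.U u)) ≠ cls (u + 1) → H.idx (H.U u) ∈ S))
    (hw : k + 1 ≤ 2 ^ w) :
    ∃ (L : Lst A) (M : ℕ), (∀ κ, Hon H L w κ N M) ∧ M ≤ k + 1 ∧ (∀ κ, epos L κ M ≤ k + 1 + r) ∧
      (∀ i, L.tm i ≤ N) ∧ (∀ i < 2 ^ w, L.lb i < 2 ^ w) ∧ (∀ i, L.off i ≤ k + 1 + r) := by
  classical
  -- the boundary passes
  obtain ⟨B, hB⟩ : ∃ B : Finset ℕ, B = insert N (S.filter fun v => 0 < v ∧ v < N) := ⟨_, rfl⟩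
  have hBmem : ∀ v, v ∈ B ↔ v = N ∨ (v ∈ S ∧ 0 < v ∧ v < N) := by
    intro v
    rw [hB, mem_insert, mem_filter]
  have hNB : N ∈ B := (hBmem N).2 (Or.inl rfl)
  have hBpos : ∀ v ∈ B, 0 < v := by
    intro v hv
    rcases (hBmem v).1 hv with h | h
    · omega
    · exact h.2.1
  have hBle : ∀ v ∈ B, v ≤ N := by
    intro v hv
    rcases (hBmem v).1 hv with h | h
    · omega
    · exact h.2.2.le
  obtain ⟨M, hM⟩ : ∃ M, M = B.card := ⟨_, rfl⟩
  have hM0 : 0 < M := by
    rw [hM]
    exact card_pos.2 ⟨N, hNB⟩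
  have hMk : M ≤ k + 1 := by
    rw [hM, hB]
    refine (card_insert_le _ _).trans ?_
    have := card_filter_le S fun v => 0 < v ∧ v < N
    omega
  obtain ⟨t, ht1, ht2, ht3⟩ := exists_enum B
  rw [← hM] at ht1 ht2 ht3
  obtain ⟨tm, htm⟩ : ∃ tm : ℕ → ℕ, tm = fun i => if i < M then t i else N := ⟨_, rfl⟩
  have htmi : ∀ i, i < M → tm i = t i := by
    intro i hi
    rw [htm]
    exact if_pos hi
  have htmB : ∀ i < M, tm i ∈ B := by
    intro i hi
    rw [htmi i hi]
    exact ht1 i hi
  have htmlt : ∀ i j, i < j → j < M → tm i < tm j := by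
    intro i j hij hj
    rw [htmi i (by omega), htmi j hj]
    exact ht2 i j hij hj
  have htmN : ∀ i, tm i ≤ N := by
    intro i
    by_cases hi : i < M
    · exact hBle _ (htmB i hi)
    · rw [htm]
      simp [hi]
  have hlast : tm (M - 1) = N := by
    obtain ⟨i, hi, hiN⟩ := ht3 N hNB
    rw [← htmi i hi] at hiN
    rcases Nat.lt_or_ge i (M - 1) with h | h
    · have h1 := htmlt i (M - 1) h (by omega)
      have h2 := htmN (M - 1)
      omega
    · rw [show M - 1 = i by omega]
      exact hiN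
  -- the list
  obtain ⟨lb, hlb⟩ : ∃ lb : ℕ → ℕ, ∀ i, cls (tm (lb i)) = cls (tm i) ∧
      ∀ j, cls (tm j) = cls (tm i) → lb i ≤ j := by
    have h1 : ∀ i, ∃ j, cls (tm j) = cls (tm i) := fun i => ⟨i, rfl⟩
    exact ⟨fun i => Nat.find (h1 i), fun i => ⟨Nat.find_spec (h1 i),
      fun j hj => Nat.find_min' (h1 i) hj⟩⟩
  have hlbeq : ∀ i j, cls (tm i) = cls (tm j) → lb i = lb j := by
    intro i j hij
    have h1 := (hlb i).2 (lb j) ((hlb j).1.trans hij.symm)
    have h2 := (hlb j).2 (lb i) ((hlb i).1.trans hij)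
    omega
  have hlble : ∀ i, lb i ≤ i := fun i => (hlb i).2 i rfl
  obtain ⟨L0, hL0⟩ : ∃ L0 : Lst A, L0 = ⟨tm, fun i => H.U (tm i), lb, fun _ => 0,
      fun i => decide (i = M - 1)⟩ := ⟨_, rfl⟩
  obtain ⟨L, hL⟩ : ∃ L : Lst A, L = ⟨tm, fun i => H.U (tm i), lb,
      fun i => if i < M then epos L0 (lb i) i + 1 else 0, fun i => decide (i = M - 1)⟩ := ⟨_, rfl⟩
  have hLtm : ∀ i, L.tm i = tm i := by intro i; rw [hL]
  have hLlb : ∀ i, L.lb i = lb i := by intro i; rw [hL]
  have hpv : ∀ i, L.pv (i + 1) = tm i := by intro i; rw [hL]; rfl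
  have hpv0 : L.pv 0 = 0 := rfl
  have hepos : ∀ κ i, epos L κ i = epos L0 κ i := by
    intro κ i
    induction i with
    | zero => rfl
    | succ i ih =>
      have e1 : L.pv i = L0.pv i := by rw [hL, hL0]; cases i <;> rfl
      have e2 : L.tm i = L0.tm i := by rw [hL, hL0]
      have e3 : L.lb i = L0.lb i := by rw [hL, hL0]
      simp only [epos]
      rw [ih, e1, e2, e3]
  have hsrt : ∀ i < M, L.pv i < L.tm i := by
    intro i hi
    rw [hLtm]
    cases i with
    | zero => rw [hpv0]; exact hBpos _ (htmB 0 hi)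
    | succ i => rw [hpv]; exact htmlt i (i + 1) (by omega) hi
  -- strictly inside a segment there are no boundary passes
  have hin : ∀ i < M, ∀ u, L.pv i < u → u < tm i → u ∉ B := by
    intro i hi u h1 h2 hu
    obtain ⟨i', hi', hi'u⟩ := ht3 u hu
    rw [← htmi i' hi'] at hi'u
    rcases Nat.lt_or_ge i' i with h | h
    · obtain ⟨i0, rfl⟩ : ∃ i0, i = i0 + 1 := ⟨i - 1, by omega⟩
      rw [hpv] at h1
      rcases Nat.lt_or_ge i' i0 with h3 | h3
      · have := htmlt i' i0 h3 (by omega)
        omega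
      · have : i' = i0 := by omega
        subst this
        omega
    · rcases Nat.lt_or_ge i i' with h3 | h3
      · have := htmlt i i' h3 hi'
        omega
      · have : i' = i := by omega
        subst this
        omega
  -- classes are constant on segments
  have hcls : ∀ i < M, ∀ u, L.pv i < u → u ≤ tm i → cls u = cls (tm i) := by
    intro i hi u h1 h2
    obtain ⟨e, he⟩ : ∃ e, tm i = u + e := ⟨tm i - u, by omega⟩
    induction e generalizing u with
    | zero => rw [he]; rfl
    | succ e ih =>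
      have h3 : u ∉ B := hin i hi u h1 (by omega)
      have h4 := htmN i
      have h5 : cls u = cls (u + 1) := by
        by_contra h6
        exact h3 ((hBmem u).2 (Or.inr ⟨(hS' u (by omega)).1 h6, by omega, by omega⟩))
      rw [h5]
      exact ih (u + 1) (by omega) (by omega) (by omega)
  -- every time is in a segment
  have hseg : ∀ u, 0 < u → u ≤ N → ∃ j < M, L.pv j < u ∧ u ≤ tm j := by
    intro u hu huN
    have hex : ∃ j, u ≤ tm j := ⟨M - 1, by rw [hlast]; exact huN⟩
    obtain ⟨j, hj, hj'⟩ : ∃ j, u ≤ tm j ∧ ∀ j' < j, ¬ u ≤ tm j' :=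
      ⟨Nat.find hex, Nat.find_spec hex, fun j' hj' => Nat.find_min hex hj'⟩
    have hjM : j ≤ M - 1 := by
      by_contra h
      exact hj' (M - 1) (by omega) (by rw [hlast]; exact huN)
    refine ⟨j, by omega, ?_, hj⟩
    cases j with
    | zero => rw [hpv0]; exact hu
    | succ j =>
      rw [hpv]
      have := hj' j (by omega)
      omega
  have hpvN : ∀ i ≤ M, L.pv i ≤ N := by
    intro i _
    cases i with
    | zero => rw [hpv0]; omega
    | succ i => rw [hpv]; exact htmN i
  -- the total length of the segments of a label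
  have htot : ∀ κ, ∀ i ≤ M, epos L κ i ≤
      i + ((range (N + 1)).filter fun u => cls u = cls (tm κ) ∧ u ≤ L.pv i ∧ 0 < u).card := by
    intro κ i
    induction i with
    | zero => intro _; simp [epos]
    | succ i ih =>
      intro hi
      have h1 := ih (by omega)
      simp only [epos]
      have hlt := hsrt i (by omega)
      rw [hLtm] at hlt
      by_cases hκ : L.lb i = κ
      · rw [if_pos hκ, hLtm]
        have h2 : ((range (N + 1)).filter fun u => cls u = cls (tm κ) ∧ u ≤ L.pv i ∧ 0 < u).card +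
            (tm i - L.pv i) ≤
            ((range (N + 1)).filter fun u => cls u = cls (tm κ) ∧ u ≤ L.pv (i + 1) ∧ 0 < u).card := by
          rw [← Nat.card_Ioc, ← card_union_of_disjoint]
          · apply card_le_card
            intro u hu
            rw [mem_union, mem_filter, mem_Ioc, mem_range] at hu
            rw [mem_filter, mem_range, hpv]
            have := htmN i
            rcases hu with hu | hu
            · exact ⟨hu.1, hu.2.1, by omega, hu.2.2.2⟩
            · refine ⟨by omega, ?_, by omega, by omega⟩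
              rw [hcls i (by omega) u hu.1 hu.2, ← (hlb i).1, ← hLlb, hκ]
          · rw [disjoint_left]
            intro u hu hu'
            rw [mem_filter] at hu
            rw [mem_Ioc] at hu'
            omega
        omega
      · rw [if_neg hκ]
        have h2 : ((range (N + 1)).filter fun u => cls u = cls (tm κ) ∧ u ≤ L.pv i ∧ 0 < u).card ≤
            ((range (N + 1)).filter fun u => cls u = cls (tm κ) ∧ u ≤ L.pv (i + 1) ∧ 0 < u).card := by
          apply card_le_card
          intro u hu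
          rw [mem_filter] at hu ⊢
          rw [hpv]
          exact ⟨hu.1, hu.2.1, by omega, hu.2.2.2⟩
        omega
  have hepr : ∀ κ, epos L κ M ≤ k + 1 + r := by
    intro κ
    have h1 := htot κ M le_rfl
    have h2 : ((range (N + 1)).filter fun u => cls u = cls (tm κ) ∧ u ≤ L.pv M ∧ 0 < u).card ≤ r := by
      refine (card_le_card ?_).trans (hr (cls (tm κ)))
      intro u hu
      rw [mem_filter] at hu ⊢
      exact ⟨hu.1, hu.2.1⟩
    omega
  have hoff : ∀ i < M, L.off i = epos L (L.lb i) i + 1 := by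
    intro i hi
    rw [hepos, hLlb]
    rw [hL]
    exact if_pos hi
  refine ⟨L, M, fun κ => ⟨hM0, by omega, hsrt, by rw [hLtm]; exact hlast, ?_, ?_, ?_,
    fun i hi hκ => by rw [hoff i hi, hκ], ?_⟩, hMk, hepr,
    fun i => by rw [hLtm]; exact htmN i, ?_, ?_⟩
  · intro i _
    rw [hL]
    simp
  · intro i _ hi
    rw [hLtm, htm]
    simp [Nat.not_lt.2 hi]
  · intro i _
    rw [hL]
  · intro i hi hκ u hu hu' h0 hle
    rw [← hκ]
    rw [hLtm] at hu'
    have h1 := htmN i
    obtain ⟨j, hj, hj1, hj2⟩ := hseg (H.idx (H.U u)) h0 (by omega)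
    refine ⟨j, hj, hj1, by rw [hLtm]; exact hj2, ?_⟩
    rw [hLtm, hLlb, hLlb]
    rcases Nat.lt_or_ge (H.idx (H.U u)) (tm j) with h | h
    · right
      have h2 : H.idx (H.U u) ∉ B := hin j hj _ hj1 h
      have h3 : cls (H.idx (H.U u)) = cls (u + 1) := by
        by_contra h4
        exact h2 ((hBmem _).2 (Or.inr ⟨(hS' u (by omega)).2 hle h4, h0, by omega⟩))
      apply hlbeq
      rw [← hcls j hj _ hj1 hj2, h3, hcls i hi (u + 1) (by omega) (by omega)]
    · left
      omega
  · intro i hi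
    rw [hLlb]
    exact lt_of_le_of_lt (hlble i) hi
  · intro i
    by_cases hi : i < M
    · rw [hoff i hi]
      have h1 : epos L (L.lb i) (i + 1) ≤ epos L (L.lb i) M := epos_mono (by omega)
      have h2 := hepr (L.lb i)
      simp only [epos] at h1
      omega
    · have : L.off i = 0 := by
        rw [hL]
        exact if_neg hi
      omega

/-- **Completeness of the checks**, for every list which agrees with the honest list on the entries
below `2 ^ w`. -/
theorem hck_complete [DecidableEq A] {N r k w lim : ℕ} (hO : H.Out N true) (hN : 0 < N)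
    (cls : ℕ → ℕ) (hr : ∀ j, ((range (N + 1)).filter fun u => cls u = j).card ≤ r) (S : Finset ℕ)
    (hS : S.card ≤ k) (hS' : ∀ u < N, (cls u ≠ cls (u + 1) → u ∈ S) ∧
      (H.idx (H.U u) ≤ u → cls (H.idx (H.U u)) ≠ cls (u + 1) → H.idx (H.U u) ∈ S))
    (hw : k + 1 ≤ 2 ^ w) (hlim : k + 1 + r < lim) :
    ∃ L : Lst A, (∀ i < 2 ^ w, L.tm i ≤ N ∧ L.lb i < 2 ^ w ∧ L.off i ≤ k + 1 + r) ∧
      ∀ L' : Lst A, (∀ i < 2 ^ w, L'.tm i = L.tm i ∧ L'.st i = L.st i ∧ L'.lb i = L.lb i ∧
        L'.off i = L.off i ∧ L'.fin i = L.fin i) →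
      ∀ κ, ∃ n ≤ k + 1 + r, (hck H L' κ w lim).Out n true := by
  obtain ⟨L, M, h1, h2, h3, h4, h5, h6⟩ := exists_hon hO hN cls hr S hS hS' hw
  refine ⟨L, fun i hi => ⟨h4 i, h5 i hi, h6 i⟩, fun L' hL κ => ?_⟩
  obtain ⟨g1, g2⟩ := (h1 κ).congr hL
  have g3 := g2 M le_rfl
  have g4 := h3 κ
  obtain ⟨n, hn, g5⟩ := g1.accept (lim := lim) hO (by omega)
  exact ⟨n, by omega, g5⟩

end Pool.Agent.NUM
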