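import Pool.Agent.NUM.Region

/-!
# Three ways to say that a computation graph falls apart

Times `0, …, n - 1`; the step `t → t + 1` uses `t` and `rc t` (if `rc t ≤ t`).
-/

set_option autoImplicit false

namespace Pool.Agent.NUM.Region

open Finset

/-- after deleting at most `K` times the computation graph falls into parts of at most `l` times:
`f` is constant on the parts -/
def Frag (n : ℕ) (rc : ℕ → ℕ) (K l : ℕ) : Prop :=
  ∃ X : Finset ℕ, X.card ≤ K ∧ ∃ f : ℕ → ℕ,
    (∀ t, t + 1 < n → t + 1 ∉ X → (t ∉ X → f t = f (t + 1)) ∧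
      (rc t ≤ t → rc t ∉ X → f (rc t) = f (t + 1))) ∧
    ∀ j, ((range n).filter fun u => u ∉ X ∧ f u = j).card ≤ l

/-- the times are cut into classes of at most `r` times, and all times which are used in other
classes are among `k` times -/
def Part (n : ℕ) (rc : ℕ → ℕ) (r k : ℕ) : Prop :=
  ∃ cls : ℕ → ℕ, (∀ j, ((range n).filter fun u => cls u = j).card ≤ r) ∧
    ∃ S : Finset ℕ, S.card ≤ k ∧ ∀ t, t + 1 < n → (cls t ≠ cls (t + 1) → t ∈ S) ∧
      (rc t ≤ t → cls (rc t) ≠ cls (t + 1) → rc t ∈ S)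

theorem Part.mono {n : ℕ} {rc : ℕ → ℕ} {r r' k k' : ℕ} (h : Part n rc r k) (hr : r ≤ r')
    (hk : k ≤ k') : Part n rc r' k' := by
  obtain ⟨cls, h1, S, h2, h3⟩ := h
  exact ⟨cls, fun j => (h1 j).trans hr, S, h2.trans hk, h3⟩

theorem Frag.mono {n : ℕ} {rc : ℕ → ℕ} {K K' l l' : ℕ} (h : Frag n rc K l) (hK : K ≤ K')
    (hl : l ≤ l') : Frag n rc K' l' := by
  obtain ⟨X, h1, f, h2, h3⟩ := h
  exact ⟨X, h1.trans hK, f, h2, fun j => (h3 j).trans hl⟩

theorem Part.frag {n : ℕ} {rc : ℕ → ℕ} {r k : ℕ} (h : Part n rc r k) : Frag n rc k r := by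
  obtain ⟨cls, h1, S, h2, h4⟩ := h
  refine ⟨S, h2, cls, fun t ht _ => ⟨fun h3 => ?_, fun h5 h3 => ?_⟩, fun j => ?_⟩
  · by_contra h6
    exact h3 ((h4 t ht).1 h6)
  · by_contra h6
    exact h3 ((h4 t ht).2 h5 h6)
  · refine (card_le_card ?_).trans (h1 j)
    intro u hu
    rw [mem_filter] at hu ⊢
    exact ⟨hu.1, hu.2.2⟩

theorem Frag.part {n : ℕ} {rc : ℕ → ℕ} {K l : ℕ} (h : Frag n rc K l) :
    Part n rc (max l 1) (3 * K) := by
  obtain ⟨X, h1, f, h2, h3⟩ := h
  obtain ⟨cls, hcls⟩ : ∃ cls : ℕ → ℕ, cls = fun u => if u ∈ X then 2 * u else 2 * f u + 1 :=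
    ⟨_, rfl⟩
  have hc1 : ∀ u, u ∈ X → cls u = 2 * u := by intro u hu; rw [hcls]; simp [hu]
  have hc2 : ∀ u, u ∉ X → cls u = 2 * f u + 1 := by intro u hu; rw [hcls]; simp [hu]
  refine ⟨cls, fun j => ?_, X ∪ (X.image (fun u => u - 1) ∪ X.image fun u => rc (u - 1)), ?_,
    fun t ht => ⟨fun hne => ?_, fun hle hne => ?_⟩⟩
  · rcases Nat.even_or_odd' j with ⟨i, hi | hi⟩
    · -- a deleted time
      refine le_trans ?_ (le_max_right _ _)
      rw [card_le_one]
      intro a ha b hb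
      rw [mem_filter] at ha hb
      have key : ∀ u, cls u = j → u = i := by
        intro u hu
        by_cases hX : u ∈ X
        · rw [hc1 u hX] at hu; omega
        · rw [hc2 u hX] at hu; omega
      rw [key a ha.2, key b hb.2]
    · refine le_trans (le_trans (card_le_card ?_) (h3 i)) (le_max_left _ _)
      intro u hu
      rw [mem_filter] at hu ⊢
      by_cases hX : u ∈ X
      · rw [hc1 u hX] at hu; omega
      · rw [hc2 u hX] at hu
        exact ⟨hu.1, hX, by omega⟩
  · refine (card_union_le _ _).trans ?_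
    have h5 := card_union_le (X.image fun u => u - 1) (X.image fun u => rc (u - 1))
    have h6 := card_image_le (s := X) (f := fun u => u - 1)
    have h7 := card_image_le (s := X) (f := fun u => rc (u - 1))
    omega
  · rw [mem_union, mem_union, mem_image, mem_image]
    by_cases hvX : t ∈ X
    · exact Or.inl hvX
    · by_cases htX : t + 1 ∈ X
      · exact Or.inr (Or.inl ⟨_, htX, rfl⟩)
      · exact absurd (by rw [hc2 _ hvX, hc2 _ htX, (h2 t ht htX).1 hvX]) hne
  · rw [mem_union, mem_union, mem_image, mem_image]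
    by_cases hvX : rc t ∈ X
    · exact Or.inl hvX
    · by_cases htX : t + 1 ∈ X
      · exact Or.inr (Or.inr ⟨_, htX, rfl⟩)
      · exact absurd (by rw [hc2 _ hvX, hc2 _ htX, (h2 t ht htX).2 hle hvX]) hne

/-- small treewidth gives good partitions -/
theorem TreeDec.part {n : ℕ} {rc : ℕ → ℕ} {k : ℕ} (D : TreeDec n rc k) (l : ℕ) :
    ∃ r : ℕ, r * l ≤ 4 * n + l ∧ Part n rc (l + k) (r * (2 * (k + 2))) := by
  obtain ⟨r, reg, b₁, b₂, h1, h2, h3, h4, h5, h6, h7, h8⟩ := D.exists_regions l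
  refine ⟨r, h1, reg, h6, (range r).biUnion fun R => b₁ R ∪ b₂ R, ?_, fun t ht => ?_⟩
  · refine card_biUnion_le.trans ?_
    refine (sum_le_sum (g := fun _ => 2 * (k + 2)) fun R _ => ?_).trans ?_
    · have := card_union_le (b₁ R) (b₂ R)
      have := h2 R
      omega
    · simp
  · have key : ∀ v, (v ∈ b₁ (reg (t + 1)) ∨ v ∈ b₂ (reg (t + 1)) ∨ reg v = reg (t + 1)) →
        reg v ≠ reg (t + 1) → v ∈ (range r).biUnion fun R => b₁ R ∪ b₂ R := by
      intro v hv hne
      rw [mem_biUnion]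
      refine ⟨reg (t + 1), mem_range.2 (h5 _ ht), ?_⟩
      rw [mem_union]
      rcases hv with h | h | h
      · exact Or.inl h
      · exact Or.inr h
      · exact absurd h hne
    exact ⟨fun hne => key t (h7 t ht).1 hne, fun hle hne => key _ ((h7 t ht).2 hle) hne⟩

/-- the same in one formula: treewidth `k`, classes of size `l + k`, at most
`(4 n / l + 1) * 2 (k + 2)` boundary times -/
theorem TreeDec.part' {n : ℕ} {rc : ℕ → ℕ} {k : ℕ} (D : TreeDec n rc k) {l : ℕ} (hl : 0 < l) :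
    Part n rc (l + k) ((4 * n / l + 1) * (2 * (k + 2))) := by
  obtain ⟨r, h1, h2⟩ := D.part l
  refine h2.mono le_rfl (Nat.mul_le_mul_right _ ?_)
  rcases Nat.eq_zero_or_pos r with h0 | h0
  · rw [h0]; exact Nat.zero_le _
  · obtain ⟨r', rfl⟩ : ∃ r', r = r' + 1 := ⟨r - 1, by omega⟩
    have h3 : r' * l ≤ 4 * n := by
      rw [Nat.add_mul, Nat.one_mul] at h1
      omega
    have := (Nat.le_div_iff_mul_le hl).2 h3
    exact Nat.succ_le_succ this

end Pool.Agent.NUM.Region
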