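import Pool.Agent.NUM.FragDef
import Pool.Agent.NUM.Bridge

/-!
# Partitions of computation graphs
-/

set_option autoImplicit false

namespace Pool.Agent.NUM

open Finset

/-- the passes `0, …, N` are cut into classes of at most `r` passes, and all passes which are used by
passes of other classes are among `k` passes -/
def PartOK (N : ℕ) (rc : ℕ → ℕ) (r k : ℕ) : Prop :=
  ∃ cls : ℕ → ℕ, (∀ j, ((range (N + 1)).filter fun u => cls u = j).card ≤ r) ∧
    ∃ S : Finset ℕ, S.card ≤ k ∧ ∀ u < N, (cls u ≠ cls (u + 1) → u ∈ S) ∧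
      (rc u ≤ u → cls (rc u) ≠ cls (u + 1) → rc u ∈ S)

theorem partOK_iff {N : ℕ} {rc : ℕ → ℕ} {r k : ℕ} : PartOK N rc r k ↔ Region.Part (N + 1) rc r k := by
  unfold PartOK Region.Part
  simp only [Nat.add_lt_add_iff_right]

theorem fragOK_iff {N : ℕ} {rc : ℕ → ℕ} {K l : ℕ} : FragOK N rc K l ↔ Region.Frag (N + 1) rc K l := by
  unfold FragOK Region.Frag
  simp only [Nat.add_lt_add_iff_right]

theorem PartOK.mono {N : ℕ} {rc : ℕ → ℕ} {r r' k k' : ℕ} (h : PartOK N rc r k) (hr : r ≤ r')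
    (hk : k ≤ k') : PartOK N rc r' k' := partOK_iff.2 ((partOK_iff.1 h).mono hr hk)

theorem FragOK.mono {N : ℕ} {rc : ℕ → ℕ} {K K' l l' : ℕ} (h : FragOK N rc K l) (hK : K ≤ K')
    (hl : l ≤ l') : FragOK N rc K' l' := fragOK_iff.2 ((fragOK_iff.1 h).mono hK hl)

/-- only the recalls before the end matter, and only if they name an earlier pass -/
theorem PartOK.congr {N r k : ℕ} {rc rc' : ℕ → ℕ} (h : ∀ t < N, rc' t ≤ t → rc' t = rc t)
    (H : PartOK N rc r k) : PartOK N rc' r k := by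
  obtain ⟨cls, h1, S, h2, h3⟩ := H
  refine ⟨cls, h1, S, h2, fun u hu => ⟨(h3 u hu).1, fun h4 h5 => ?_⟩⟩
  have h6 := h u hu h4
  rw [h6] at h4 h5 ⊢
  exact (h3 u hu).2 h4 h5

theorem FragOK.congr {N K l : ℕ} {rc rc' : ℕ → ℕ} (h : ∀ t < N, rc' t ≤ t → rc' t = rc t)
    (H : FragOK N rc K l) : FragOK N rc' K l := by
  obtain ⟨X, h1, f, h2, h3⟩ := H
  refine ⟨X, h1, f, fun u hu hX => ⟨(h2 u hu hX).1, fun h4 h5 => ?_⟩, h3⟩
  have h6 := h u hu h4
  rw [h6] at h4 h5 ⊢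
  exact (h2 u hu hX).2 h4 h5

theorem PartOK.fragOK {N : ℕ} {rc : ℕ → ℕ} {r k : ℕ} (h : PartOK N rc r k) : FragOK N rc k r :=
  fragOK_iff.2 (partOK_iff.1 h).frag

theorem FragOK.partOK {N : ℕ} {rc : ℕ → ℕ} {K l : ℕ} (h : FragOK N rc K l) :
    PartOK N rc (max l 1) (3 * K) := partOK_iff.2 (fragOK_iff.1 h).part

/-- small treewidth gives good partitions: treewidth `k`, classes of size `l + k`, at most
`(4 (N + 1) / l + 1) * 2 (k + 2)` boundary passes -/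
theorem PartOK.of_treeDec {N : ℕ} {rc : ℕ → ℕ} {k : ℕ} (D : Region.TreeDec (N + 1) rc k) {l : ℕ}
    (hl : 0 < l) : PartOK N rc (l + k) ((4 * (N + 1) / l + 1) * (2 * (k + 2))) :=
  partOK_iff.2 (D.part' hl)

theorem FragOK.of_treeDec {N : ℕ} {rc : ℕ → ℕ} {k : ℕ} (D : Region.TreeDec (N + 1) rc k) {l : ℕ}
    (hl : 0 < l) : FragOK N rc ((4 * (N + 1) / l + 1) * (2 * (k + 2))) (l + k) :=
  (PartOK.of_treeDec D hl).fragOK

end Pool.Agent.NUM
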