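import Pool.Agent.NUM.HFam
import Pool.Agent.NUM.Part

/-!
# The class `InS`: computations which can be divided into classes with a small boundary
-/

set_option autoImplicit false

namespace Pool.Agent.NUM

/-- `P` is decided by functional programs of size `2 ^ o(L)` in time `2 ^ ((c E + o(1)) L)` whose
computations can be divided into classes of size `2 ^ ((ρ E + o(1)) L)` with
`2 ^ ((y E + o(1)) L)` boundary states -/
def InS (c ρ y : ℝ) {T : Type} (π : Pres T) (P : T → Prop) (E : ℝ) : Prop :=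
  ∃ r k : ℕ → ℕ, Ex (ρ * E) r ∧ Ex (y * E) k ∧
    InG (fun L N rc => PartOK N rc (r L) (k L)) π P (c * E) fun _ => True

theorem InS.toH {c ρ y : ℝ} {T : Type} {π : Pres T} {P : T → Prop} {E : ℝ}
    (h : InS c ρ y π P E) : InH π P (c * E) := by
  obtain ⟨r, k, _, _, h⟩ := h
  exact h.toH

theorem InS.mono {c ρ y : ℝ} (hc : 0 ≤ c) (hρ : 0 ≤ ρ) (hy : 0 ≤ y) {T : Type} {π : Pres T}
    {P : T → Prop} {E E' : ℝ} (h : InS c ρ y π P E) (hE : E ≤ E') : InS c ρ y π P E' := by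
  obtain ⟨r, k, hr, hk, h⟩ := h
  exact ⟨r, k, hr.mono (mul_le_mul_of_nonneg_left hE hρ),
    hk.mono (mul_le_mul_of_nonneg_left hE hy),
    h.mono (mul_le_mul_of_nonneg_left hE hc) (fun _ _ _ h => h) fun _ h => h⟩

theorem InS.congr {c ρ y : ℝ} {T : Type} {π : Pres T} {P P' : T → Prop} {E : ℝ}
    (h : InS c ρ y π P E) (hP : ∀ τ, P τ ↔ P' τ) : InS c ρ y π P' E := by
  obtain ⟨r, k, hr, hk, h⟩ := h
  exact ⟨r, k, hr, hk, h.congr hP⟩

theorem ex_floor_pow {ρ E : ℝ} (hρ : 0 ≤ ρ) {m : ℕ → ℕ} (hm : Lin E m) :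
    Ex (ρ * E) (fun L => ⌊(2 : ℝ) ^ (ρ * m L)⌋₊) := by
  intro ε hε
  obtain ⟨L₀, h⟩ := hm (ε / (ρ + 1)) (by positivity)
  refine ⟨L₀, fun L hL => (Nat.floor_le (by positivity)).trans ?_⟩
  apply Real.rpow_le_rpow_of_exponent_le (by norm_num)
  have h1 := mul_le_mul_of_nonneg_left (h L hL) hρ
  have h2 : ρ * (ε / (ρ + 1)) ≤ ε := by
    rw [← mul_div_assoc, div_le_iff₀ (by positivity)]
    nlinarith
  have hL0 : (0 : ℝ) ≤ L := Nat.cast_nonneg L
  nlinarith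

/-- the property of the computations of a 3SAT program which is refuted -/
def QP (ρ y : ℝ) : ℕ → ℕ → (ℕ → ℕ) → Prop := fun m N rc =>
  PartOK N rc ⌊(2 : ℝ) ^ (ρ * m)⌋₊ ⌊(2 : ℝ) ^ (y * m)⌋₊

theorem InV.toS {c ρ y : ℝ} (hρ : 0 ≤ ρ) (hy : 0 ≤ y) {T : Type} {π : Pres T} {P : T → Prop}
    {E : ℝ} (h : InV (QP ρ y) c π P E) : InS c ρ y π P E := by
  obtain ⟨m, hm, _, h⟩ := h
  exact ⟨_, _, ex_floor_pow hρ hm, ex_floor_pow hy hm, h⟩

end Pool.Agent.NUM
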