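import Pool.Agent.NUM.HRd
import Pool.Agent.NUM.HHon
import Pool.Agent.NUM.PFam
import Pool.Agent.NUM.Closure

/-!
# The field `speedup` of the interface `TradeP`

A computation with a good partition is guessed by the list of its boundary states; one check for each
class.
-/

set_option autoImplicit false

namespace Pool.Agent.NUM

open Filter

/-- the number of binary digits of a function of exponential growth -/
theorem ExpLe.lin_size {e : ℝ} {f : ℕ → ℕ} (he : 0 ≤ e) (h : ExpLe e f) :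
    Lin e (fun L => Nat.size (f L)) := by
  intro ε hε
  obtain ⟨L₁, h1⟩ := eventually_atTop.1 (h (ε / 2) (by positivity))
  obtain ⟨N, hN⟩ := exists_nat_ge (1 / (ε / 2))
  refine ⟨max L₁ N, fun L hL => ?_⟩
  have h1' := h1 L (le_trans (le_max_left _ _) hL)
  have h3 : (N : ℝ) ≤ L := by exact_mod_cast le_trans (le_max_right _ _) hL
  have h4 : (1 : ℝ) ≤ ε / 2 * L := by
    rw [div_le_iff₀ (by linarith)] at hN
    have := mul_le_mul_of_nonneg_right h3 (show (0 : ℝ) ≤ ε / 2 by linarith)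
    linarith
  have hnn : (0 : ℝ) ≤ (e + ε / 2) * L := by positivity
  have h5 : Nat.size (f L) ≤ ⌊(e + ε / 2) * (L : ℝ)⌋₊ + 1 := by
    rw [Nat.size_le]
    have h6 : (f L : ℝ) < ((2 ^ (⌊(e + ε / 2) * (L : ℝ)⌋₊ + 1) : ℕ) : ℝ) := by
      refine lt_of_le_of_lt h1' ?_
      push_cast
      rw [← Real.rpow_natCast]
      apply Real.rpow_lt_rpow_of_exponent_lt (by norm_num)
      push_cast
      exact Nat.lt_floor_add_one _
    exact_mod_cast h6
  have h6 : ((Nat.size (f L) : ℕ) : ℝ) ≤ (⌊(e + ε / 2) * (L : ℝ)⌋₊ : ℝ) + 1 := by exact_mod_cast h5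
  have h7 := Nat.floor_le hnn
  show ((Nat.size (f L) : ℕ) : ℝ) ≤ (e + ε) * L
  have e1 : (e + ε) * (L : ℝ) = (e + ε / 2) * L + ε / 2 * L := by ring
  linarith

/-- a linear function is subexponential -/
theorem Lin.subExp' {u : ℝ} {f : ℕ → ℕ} (h : Lin u f) : SubExp f := by
  obtain ⟨L₀, hL₀⟩ := h 1 one_pos
  refine SubExp.linear (|u| + 1) ?_
  filter_upwards [eventually_ge_atTop L₀] with L hL
  refine (hL₀ L hL).trans ?_
  have h1 : (u + 1) * (L : ℝ) ≤ (|u| + 1) * L :=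
    mul_le_mul_of_nonneg_right (by linarith [le_abs_self u]) (Nat.cast_nonneg _)
  have := abs_nonneg u
  linarith

/-- **Completeness of the checks**, for lists read from strings. -/
theorem hck_complete' {A : Type} [DecidableEq A] {H : HM A} {N r k w lim : ℕ} (hO : H.Out N true)
    (hN : 0 < N) (hP : PartOK N (fun n => H.idx (H.U n)) r k) (hw : k + 1 ≤ 2 ^ w)
    (hlim : k + r + 2 ≤ lim) :
    ∃ L : Lst A, (∀ i < 2 ^ w, L.tm i ≤ N ∧ L.lb i < 2 ^ w ∧ L.off i ≤ lim) ∧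
      ∀ L' : Lst A, (∀ i < 2 ^ w, L'.tm i = L.tm i ∧ L'.st i = L.st i ∧ L'.lb i = L.lb i ∧
        L'.off i = L.off i ∧ L'.fin i = L.fin i) → ∀ κ, ∃ N', (hck H L' κ w lim).Out N' true := by
  obtain ⟨cls, hr, S, hS, hS'⟩ := hP
  obtain ⟨L, h1, h2⟩ := hck_complete (lim := lim) hO hN cls hr S hS hS' hw (by omega)
  refine ⟨L, fun i hi => ⟨(h1 i hi).1, (h1 i hi).2.1, ?_⟩, fun L' hL' κ => ?_⟩
  · have := (h1 i hi).2.2
    omega
  · obtain ⟨n, -, hn⟩ := h2 L' hL' κ
    exact ⟨n, hn⟩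

theorem tradeP_speedup_of (hcode : HCodeOK) {c ρ y : ℝ} (hc : 0 ≤ c)
    (hy : 0 ≤ y) {T : Type} {π : Pres T} {P : T → Prop} {E : ℝ}
    (hE : 0 ≤ E) (h : InS c ρ y π P E) :
    ∃ (β l : ℕ → ℕ) (B : (T × Inp) × Inp → Prop), Lin (y * E) β ∧ Lin 0 l ∧
      InH ((π.ext β).ext l) B (max y ρ * E) ∧
      ∃ L₀, ∀ τ, L₀ ≤ π.idx τ → (P τ ↔ ∃ v, ∀ κ, B ((τ, v), κ)) := by
  obtain ⟨r, k, hr, hk, G, s, t, d, L₀, hs, ht, hG, hrun⟩ := h
  have hyE : 0 ≤ y * E := mul_nonneg hy hE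
  have hcE : 0 ≤ c * E := mul_nonneg hc hE
  have hμE : 0 ≤ max y ρ * E := mul_nonneg (hy.trans (le_max_left _ _)) hE
  obtain ⟨h, hhdef⟩ : ∃ h : ℕ → ℕ, h = fun L => s L + 2 := ⟨_, rfl⟩
  obtain ⟨w, hwdef⟩ : ∃ w : ℕ → ℕ, w = fun L => Nat.size (k L + 1) := ⟨_, rfl⟩
  obtain ⟨lim, hlimdef⟩ : ∃ lim : ℕ → ℕ, lim = fun L => k L + r L + 2 := ⟨_, rfl⟩
  obtain ⟨b, hbdef⟩ : ∃ b : ℕ → ℕ, b = fun L => Nat.size (t L + lim L) + d L := ⟨_, rfl⟩
  obtain ⟨σ, hσdef⟩ : ∃ σ : ℕ → ℕ, σ = fun L => Nat.size (h L + w L + b L) := ⟨_, rfl⟩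
  have hs' : SubExp s := ex_zero_iff.1 hs
  have ht' : ExpLe (c * E) t := ex_iff.1 ht
  have hr' : ExpLe (ρ * E) r := ex_iff.1 hr
  have hk' : ExpLe (y * E) k := ex_iff.1 hk
  have hcst : ∀ {e : ℝ}, 0 ≤ e → ∀ n : ℕ, ExpLe e (fun _ => n) := fun he n =>
    (subExp_iff.1 (SubExp.const n)).mono he
  have hh : SubExp h := by rw [hhdef]; exact hs'.add (SubExp.const 2)
  have hk1 : ExpLe (y * E) (fun L => k L + 1) := hk'.add (hcst hyE 1)
  have hw : Lin (y * E) w := by rw [hwdef]; exact hk1.lin_size hyE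
  have hlim : ExpLe (max y ρ * E) lim := by
    rw [hlimdef]
    have e1 : y * E ≤ max y ρ * E := mul_le_mul_of_nonneg_right (le_max_left _ _) hE
    have e2 : ρ * E ≤ max y ρ * E := mul_le_mul_of_nonneg_right (le_max_right _ _) hE
    exact ((hk'.mono e1).add (hr'.mono e2)).add (hcst hμE 2)
  have hd : SubExp d := hs'.mono' (Eventually.of_forall fun L => by have := (hG L).2; omega)
  have hb : SubExp b := by
    rw [hbdef]
    have h1 : ExpLe (max (c * E) (max y ρ * E)) (fun L => t L + lim L) :=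
      (ht'.mono (le_max_left _ _)).add (hlim.mono (le_max_right _ _))
    exact (h1.lin_size (hcE.trans (le_max_left _ _))).subExp'.add hd
  have hsum : SubExp (fun L => h L + w L + b L) := (hh.add hw.subExp').add hb
  have hσ : Lin 0 σ := by rw [hσdef]; exact (subExp_iff.1 hsum).lin_size le_rfl
  have bd : ∀ L, h L + w L + b L < 2 ^ σ L := fun L => by rw [hσdef]; exact Nat.lt_size_self _
  have hbd : ∀ L, t L + lim L < 2 ^ b L := fun L => by
    rw [hbdef]
    refine (Nat.lt_size_self _).trans_le ?_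
    exact Nat.pow_le_pow_right (by norm_num) (Nat.le_add_right _ _)
  have hdb : ∀ L, d L ≤ b L := fun L => by rw [hbdef]; exact Nat.le_add_left _ _
  have hkw : ∀ L, k L + 1 ≤ 2 ^ w L := fun L => by
    rw [hwdef]; exact (Nat.lt_size_self _).le
  have hsh : ∀ L, s L ≤ 2 * h L := fun L => by rw [hhdef]; show s L ≤ 2 * (s L + 2); omega
  have hh2 : ∀ L, 2 ≤ h L := fun L => by rw [hhdef]; show 2 ≤ s L + 2; omega
  have hd4 : ∀ L, 4 * d L < 2 * h L := fun L => by
    have h1 := (hG L).2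
    have h2 := hsh L
    omega
  have hlim1 : ∀ L, 1 ≤ lim L := fun L => by
    rw [hlimdef]
    exact Nat.le_add_left 1 (k L + r L + 1)
  have hGh : ∀ L, Sz (2 * h L) (G L) := fun L => (hG L).1.mono (hsh L)
  choose G' s'' d' hG' hs'' hrun' using fun L => hcode (G L) (d L) (h L) (w L) (b L) (σ L) (lim L)
    (hGh L) (hd4 L) (hh2 L) (hdb L) (by have := bd L; omega) (by have := bd L; omega)
    (by have := bd L; omega) (by have := hbd L; omega)
  refine ⟨fun L => hLen (w L) (σ L), σ, fun p => ∃ N,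
    (hchk (G (π.idx p.1.1)) (d (π.idx p.1.1)) (h (π.idx p.1.1)) (w (π.idx p.1.1))
      (b (π.idx p.1.1)) (σ (π.idx p.1.1)) (lim (π.idx p.1.1)) (π.inp p.1.1) p.1.2 p.2).Out N true,
    ?_, hσ, ?_, L₀, ?_⟩
  · have h1 := hw.add ((Lin.const 0 le_rfl 3).add hσ)
    simpa [hLen] using h1
  · refine ⟨G', s'', lim, d', 0, ?_, ex_iff.2 hlim, hG', fun p _ => ⟨?_, fun _ _ _ => trivial⟩⟩
    · have h1 : SubExp (fun L => (1000 * (h L + w L + b L + σ L + 10)) ^ 60) :=
        ((SubExp.const 1000).mul ((hsum.add hσ.subExp').add (SubExp.const 10))).pow 60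
      exact ex_zero_iff.2 (h1.mono' (Eventually.of_forall hs''))
    · obtain ⟨⟨τ, v⟩, κ⟩ := p
      obtain ⟨N, a, hN, hO⟩ := hck_halts (H := finHM (eval (G (π.idx τ)) (π.inp τ)) (d (π.idx τ))
        (h (π.idx τ))) (L := rdL (h (π.idx τ)) (w (π.idx τ)) (b (π.idx τ)) (σ (π.idx τ)) v)
        (κ := rdK (w (π.idx τ)) (σ (π.idx τ)) κ) (w := w (π.idx τ)) (hlim1 (π.idx τ))
      obtain ⟨h1, h2, -⟩ := hrun' (π.idx τ) (π.inp τ) v κ N a hO
      refine ⟨a, ⟨N, hN, h1, h2⟩, ?_⟩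
      constructor
      · rintro rfl
        exact ⟨N, hO⟩
      · rintro ⟨N', hO'⟩
        exact (hO.unique hO').2
  · intro τ hτ
    obtain ⟨⟨a, ha, haP⟩, hpart⟩ := hrun τ hτ
    obtain ⟨L, hL⟩ : ∃ L, L = π.idx τ := ⟨_, rfl⟩
    have hf := eval_evAgr (hG L).1 (hsh L) (π.inp τ)
    have hd' : 4 * d L < 2 * h L := hd4 L
    obtain ⟨H, hH⟩ : ∃ H : HM (Fin (h L) → Bool), H = finHM (eval (G L) (π.inp τ)) (d L) (h L) :=
      ⟨_, rfl⟩
    rw [← hL] at ha hpart
    constructor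
    · intro hP
      have hat : a = true := haP.2 hP
      subst hat
      obtain ⟨N, hN, hHN, h2⟩ := ha
      have hOut : H.Out N true := by
        rw [hH]
        exact (finHM_Out (hh2 L) hd' hf).2 ⟨hHN, h2⟩
      have hPart : PartOK N (fun n => H.idx (H.U n)) (r L) (k L) := by
        have e : (fun n => H.idx (H.U n)) = rcl (eval (G L) (π.inp τ)) (d L) := by
          funext n
          rw [hH]
          exact finHM_rcl hd' hf n
        rw [e]
        exact hpart trivial N hHN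
      obtain ⟨Ls, hL1, hL2⟩ := hck_complete' (lim := lim L) hOut hHN.pos hPart (hkw L)
        (by rw [hlimdef])
      obtain ⟨v, hv⟩ := exists_rdL (h := h L) (w := w L) (b := b L) (σ := σ L)
        (by have := bd L; omega) (by have := bd L; omega) (by have := bd L; omega) Ls
        (fun i hi => by have := (hL1 i hi).1; have := hbd L; omega)
        (fun i hi => (hL1 i hi).2.1)
        (fun i hi => by have := (hL1 i hi).2.2; have := hbd L; omega)
      refine ⟨v, fun κ => ?_⟩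
      obtain ⟨N', hN'⟩ := hL2 _ hv (rdK (w L) (σ L) κ)
      refine ⟨N', ?_⟩
      show (hchk (G (π.idx τ)) (d (π.idx τ)) (h (π.idx τ)) (w (π.idx τ)) (b (π.idx τ))
        (σ (π.idx τ)) (lim (π.idx τ)) (π.inp τ) v κ).Out N' true
      rw [← hL]
      unfold hchk
      rw [← hH]
      exact hN'
    · rintro ⟨v, hv⟩
      obtain ⟨N, hN⟩ : ∃ N, H.Out N true := by
        refine hck_sound (L := rdL (h L) (w L) (b L) (σ L) v) (w := w L) (lim := lim L) ?_
          (fun i => rdL_lb_lt _ _ _ _ _ i) ?_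
        · rw [hH]
          show embM (fun _ => false : Fin (h L) → Bool) 0 = false
          exact embM_even (fun _ => false : Fin (h L) → Bool) ⟨0, by have := hh2 L; omega⟩
        · intro k' hk'
          obtain ⟨κ, hκ⟩ := exists_rdK (σ := σ L) (by have := bd L; omega) hk'
          have h1 := hv κ
          have h2 : ∃ N, (hchk (G (π.idx τ)) (d (π.idx τ)) (h (π.idx τ)) (w (π.idx τ))
            (b (π.idx τ)) (σ (π.idx τ)) (lim (π.idx τ)) (π.inp τ) v κ).Out N true := h1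
          rw [← hL] at h2
          unfold hchk at h2
          rw [hκ, ← hH] at h2
          exact h2
      rw [hH] at hN
      obtain ⟨h3, h4⟩ := (finHM_Out (hh2 L) hd' hf).1 hN
      obtain ⟨-, h5⟩ := ha.of_haltsAt h3
      exact haP.1 (h5.symm.trans h4)

end Pool.Agent.NUM
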