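import Pool.Agent.NUM.GParam
import Pool.Agent.NUM.HSpeed

/-!
# Theorem H(γ): growth of the parameters
-/

set_option autoImplicit false

namespace Pool.Agent.NUM

open Filter

/-- `1 ≤ δ L` for large `L` -/
theorem gp_one {δ : ℝ} (hδ : 0 < δ) : ∀ᶠ L : ℕ in atTop, (1 : ℝ) ≤ δ * L := by
  obtain ⟨N, hN⟩ := exists_nat_ge (1 / δ)
  filter_upwards [eventually_ge_atTop N] with L hL
  have h3 : (N : ℝ) ≤ L := by exact_mod_cast hL
  rw [div_le_iff₀ hδ] at hN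
  have := mul_le_mul_of_nonneg_right h3 hδ.le
  linarith

theorem gp_const {δ : ℝ} (hδ : 0 < δ) (C : ℕ) : ∀ᶠ L : ℕ in atTop, (C : ℝ) ≤ 2 ^ (δ * L) :=
  SubExp.const C δ hδ

theorem gp_pow {r : ℝ} (hr : 0 ≤ r) : ExpLe r (fun L => 2 ^ ⌈r * (L : ℝ)⌉₊) := by
  intro δ hδ
  filter_upwards [gp_one hδ] with L hL
  have h1 : (0 : ℝ) ≤ r * L := by positivity
  have h2 := (Nat.ceil_lt_add_one h1).le
  push_cast
  rw [← Real.rpow_natCast]
  apply Real.rpow_le_rpow_of_exponent_le (by norm_num)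
  linarith

theorem gp_div {e x : ℝ} {f : ℕ → ℕ} (h : ExpLe e f) :
    ExpLe (e - x) (fun L => f L / 2 ^ ⌈x * (L : ℝ)⌉₊) := by
  intro δ hδ
  filter_upwards [h δ hδ] with L hL
  have h2 : ((f L / 2 ^ ⌈x * (L : ℝ)⌉₊ : ℕ) : ℝ) ≤ (f L : ℝ) / 2 ^ (x * L) := by
    refine Nat.cast_div_le.trans ?_
    push_cast
    apply div_le_div_of_nonneg_left (Nat.cast_nonneg _) (by positivity)
    rw [← Real.rpow_natCast]
    exact Real.rpow_le_rpow_of_exponent_le (by norm_num) (Nat.le_ceil _)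
  refine h2.trans ?_
  rw [div_le_iff₀ (by positivity), ← Real.rpow_add (by norm_num)]
  refine hL.trans (Real.rpow_le_rpow_of_exponent_le (by norm_num) ?_)
  exact le_of_eq (by ring)

theorem gp_rpow {γ r : ℝ} (hγ : 0 ≤ γ) (hr : 0 ≤ r) {R : ℕ → ℕ} (h : ExpLe r R) :
    ExpLe (γ * r) (fun L => ⌈(R L : ℝ) ^ γ⌉₊) := by
  intro δ hδ
  have hδ2 : 0 < δ / 2 / (γ + 1) := by positivity
  filter_upwards [h _ hδ2, gp_one (show 0 < δ / 2 by linarith)] with L h1 h2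
  have h3 : (R L : ℝ) ^ γ ≤ 2 ^ ((γ * r + δ / 2) * L) := by
    have h4 : (R L : ℝ) ^ γ ≤ (2 ^ ((r + δ / 2 / (γ + 1)) * (L : ℝ))) ^ γ :=
      Real.rpow_le_rpow (Nat.cast_nonneg _) h1 hγ
    refine h4.trans ?_
    rw [← Real.rpow_mul (by norm_num)]
    apply Real.rpow_le_rpow_of_exponent_le (by norm_num)
    have h5 : γ * (δ / 2 / (γ + 1)) ≤ δ / 2 := by
      rw [mul_div_assoc', div_le_iff₀ (by positivity)]
      nlinarith
    have h6 : (0 : ℝ) ≤ L := Nat.cast_nonneg _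
    calc (r + δ / 2 / (γ + 1)) * (L : ℝ) * γ = (γ * r + γ * (δ / 2 / (γ + 1))) * L := by ring
      _ ≤ _ := mul_le_mul_of_nonneg_right (by linarith) h6
  have h7 : (0 : ℝ) ≤ (R L : ℝ) ^ γ := by positivity
  have h8 := (Nat.ceil_lt_add_one h7).le
  have e1 : (γ * r + δ) * (L : ℝ) = (γ * r + δ / 2) * L + δ / 2 * L := by ring
  rw [e1, Real.rpow_add (by norm_num)]
  have h9 : (2 : ℝ) ≤ 2 ^ (δ / 2 * (L : ℝ)) := by
    calc (2 : ℝ) = 2 ^ (1 : ℝ) := (Real.rpow_one 2).symm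
      _ ≤ _ := Real.rpow_le_rpow_of_exponent_le (by norm_num) h2
  have h10 : (1 : ℝ) ≤ 2 ^ ((γ * r + δ / 2) * (L : ℝ)) :=
    Real.one_le_rpow (by norm_num) (by positivity)
  nlinarith

theorem gp_cst {e : ℝ} (he : 0 ≤ e) (n : ℕ) : ExpLe e (fun _ => n) :=
  (subExp_iff.1 (SubExp.const n)).mono he

theorem SubExp.toExp {f : ℕ → ℕ} (h : SubExp f) {e : ℝ} (he : 0 ≤ e) : ExpLe e f :=
  (subExp_iff.1 h).mono he

theorem gp_size {x : ℕ} (hx : 0 < x) : 2 ^ Nat.size x ≤ 2 * x := by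
  have h1 : 0 < Nat.size x := Nat.size_pos.2 hx
  obtain ⟨w, hw⟩ : ∃ w, Nat.size x = w + 1 := ⟨Nat.size x - 1, by omega⟩
  have h2 : 2 ^ w ≤ x := by
    rw [← Nat.lt_size]
    omega
  rw [hw, pow_succ]
  omega

namespace GSeq

variable {S : GSeq}

theorem Ok.gpD (hS : S.Ok) : SubExp S.D := by
  have h1 : ExpLe S.e₀ (fun L => 2 * (S.t L + 1)) := by
    have := (SubExp.const 2).toExp (le_refl 0) |>.mul ((ex_iff.1 hS.ht).add (gp_cst hS.e0 1))
    simpa using this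
  have h2 : SubExp (fun L => Nat.size (2 * (S.t L + 1))) := (h1.lin_size hS.e0).subExp'
  exact ((SubExp.const 3).mul h2).add (SubExp.const 13)

theorem Ok.gpc (hS : S.Ok) : SubExp (fun L => 10 * S.D L ^ 2 * S.k L) :=
  ((SubExp.const 10).mul (hS.gpD.pow 2)).mul (ex_zero_iff.1 hS.hk)

theorem Ok.gpA (hS : S.Ok) : SubExp S.A := by
  have h1 : SubExp (fun L => S.t L / 2 ^ ⌈S.e₀ * (L : ℝ)⌉₊) := by
    rw [subExp_iff]
    have := gp_div (x := S.e₀) (ex_iff.1 hS.ht)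
    rwa [sub_self] at this
  exact ((hS.gpc.add (SubExp.const 2)).pow _).mul (h1.add (SubExp.const 1))

theorem gpA_pos (S : GSeq) (L : ℕ) : 0 < S.A L := by
  unfold A
  positivity

theorem Ok.gpR (hS : S.Ok) {r : ℝ} (hr : 0 ≤ r) : ExpLe r (S.R r) := by
  have := (hS.gpA.toExp (le_refl 0)).mul (gp_pow hr)
  rw [zero_add] at this
  exact this

theorem Ok.gpE (hS : S.Ok) {r : ℝ} (hr : 0 ≤ r) : ExpLe (S.γ * r) (S.E r) := by
  have hγr : 0 ≤ S.γ * r := mul_nonneg hS.γ0 hr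
  have h1 : ExpLe (0 + S.γ * r) (fun L => 10 * S.D L ^ 2 * S.k L * ⌈(S.R r L : ℝ) ^ S.γ⌉₊) :=
    (hS.gpc.toExp (le_refl 0)).mul (gp_rpow hS.γ0 hr (hS.gpR hr))
  rw [zero_add] at h1
  refine (h1.add (gp_cst hγr 1)).mono' (Eventually.of_forall fun L => ?_)
  unfold E
  apply Nat.add_le_add_right
  rw [Nat.ceil_le]
  push_cast
  exact mul_le_mul_of_nonneg_left (Nat.le_ceil _) (by positivity)

theorem Ok.gpw (hS : S.Ok) {r : ℝ} (hr : 0 ≤ r) : ExpLe (S.γ * r) (fun L => 2 ^ S.w r L) := by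
  have hγr : 0 ≤ S.γ * r := mul_nonneg hS.γ0 hr
  have h1 : ExpLe (0 + S.γ * r) (fun L => 2 * (S.E r L + 2)) :=
    (gp_cst (le_refl 0) 2).mul ((hS.gpE hr).add (gp_cst hγr 2))
  rw [zero_add] at h1
  exact h1.mono' (Eventually.of_forall fun L => gp_size (by omega))

theorem Ok.gplim (hS : S.Ok) {r : ℝ} (hr : 0 ≤ r) : ExpLe r (S.lim r) := by
  have h1 : S.γ * r ≤ r := by nlinarith [hS.γ1]
  exact ((hS.gpR hr).add ((hS.gpE hr).mono h1)).add (gp_cst hr 3)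

theorem Ok.grow_w (hS : S.Ok) {r : ℝ} (hr : 0 ≤ r) : Lin (S.γ * r) (S.w r) := by
  have hγr : 0 ≤ S.γ * r := mul_nonneg hS.γ0 hr
  exact ((hS.gpE hr).add (gp_cst hγr 2)).lin_size hγr

theorem Ok.grow_lim (hS : S.Ok) {r : ℝ} (hr : 0 ≤ r) : Ex r (S.lim r) :=
  ex_iff.2 (hS.gplim hr)

theorem Ok.grow (hS : S.Ok) : SubExp S.h ∧ SubExp S.b ∧ SubExp S.σ ∧ Lin 0 S.σ := by
  have hs := ex_zero_iff.1 hS.hs
  have hh : SubExp S.h :=
    ((SubExp.const 100).mul ((hs.add (SubExp.const 10)).pow 2)).add (SubExp.const 2)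
  have hd : SubExp S.d := hs.mono' (Eventually.of_forall fun L => by have := hS.hd L; omega)
  have h1 : ExpLe S.e₀ (fun L => 2 ^ S.w S.e₀ L) :=
    (hS.gpw hS.e0).mono (by nlinarith [hS.γ1, hS.e0])
  have h2 : ExpLe S.e₀ (fun L => S.t L + S.lim S.e₀ L + 2 ^ S.w S.e₀ L + 10) :=
    (((ex_iff.1 hS.ht).add (hS.gplim hS.e0)).add h1).add (gp_cst hS.e0 10)
  have h3 : ExpLe S.e₀ (fun L => 1 + 3 * S.D L * (S.lim S.e₀ L + 1 + 2 ^ S.w S.e₀ L + 2)) := by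
    have h4 : ExpLe (0 + S.e₀) (fun L => 3 * S.D L * (S.lim S.e₀ L + 1 + 2 ^ S.w S.e₀ L + 2)) :=
      (((SubExp.const 3).mul hS.gpD).toExp (le_refl 0)).mul
        ((((hS.gplim hS.e0).add (gp_cst hS.e0 1)).add h1).add (gp_cst hS.e0 2))
    rw [zero_add] at h4
    exact (gp_cst hS.e0 1).add h4
  have hb : SubExp S.b :=
    ((((h2.lin_size hS.e0).subExp'.add hd).add (hS.grow_w hS.e0).subExp').add
      (h3.lin_size hS.e0).subExp').add (SubExp.const 2)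
  have hσ : Lin 0 S.σ := (subExp_iff.1 (hh.add hb)).lin_size le_rfl
  exact ⟨hh, hb, hσ.subExp', hσ⟩

/-- the ratio of the numbers of entries -/
theorem Ok.gp_ratio (hS : S.Ok) {e r : ℝ} (hr : 0 ≤ r) (hre : r ≤ e) (L : ℕ) :
    ((2 ^ S.w e L / S.E r L : ℕ) : ℝ) ≤ 12 * 2 ^ ((e - r) * L) := by
  have hγ0 := hS.γ0
  have hγ1 := hS.γ1
  have hLn : (0 : ℝ) ≤ L := Nat.cast_nonneg _
  obtain ⟨X, hX⟩ : ∃ X : ℝ, X = 2 ^ ((e - r) * (L : ℝ)) := ⟨_, rfl⟩
  have hX1 : 1 ≤ X := by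
    rw [hX]
    exact Real.one_le_rpow (by norm_num) (mul_nonneg (by linarith) hLn)
  obtain ⟨a, ha⟩ : ∃ a : ℝ, a = S.A L := ⟨_, rfl⟩
  have ha0 : 0 < a := by
    rw [ha]
    exact_mod_cast S.gpA_pos L
  -- the ratio of the numbers of passes
  have hRe : (S.R e L : ℝ) ≤ 2 * X * S.R r L := by
    have h1 : (S.R e L : ℝ) ≤ a * (2 * 2 ^ (e * (L : ℝ))) := by
      unfold R
      push_cast
      rw [← ha]
      apply mul_le_mul_of_nonneg_left _ ha0.le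
      have h2 := (Nat.ceil_lt_add_one (show 0 ≤ e * (L : ℝ) from
        mul_nonneg (by linarith) hLn)).le
      calc (2 : ℝ) ^ ⌈e * (L : ℝ)⌉₊ = 2 ^ ((⌈e * (L : ℝ)⌉₊ : ℕ) : ℝ) := (Real.rpow_natCast _ _).symm
        _ ≤ 2 ^ (e * (L : ℝ) + 1) := Real.rpow_le_rpow_of_exponent_le (by norm_num) h2
        _ = _ := by rw [Real.rpow_add (by norm_num), Real.rpow_one]; ring
    have h3 : a * 2 ^ (r * (L : ℝ)) ≤ S.R r L := by
      unfold R
      push_cast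
      rw [← ha]
      apply mul_le_mul_of_nonneg_left _ ha0.le
      rw [← Real.rpow_natCast]
      exact Real.rpow_le_rpow_of_exponent_le (by norm_num) (Nat.le_ceil _)
    have h4 : (2 : ℝ) ^ (e * (L : ℝ)) = X * 2 ^ (r * (L : ℝ)) := by
      rw [hX, ← Real.rpow_add (by norm_num)]
      congr 1
      ring
    calc (S.R e L : ℝ) ≤ a * (2 * 2 ^ (e * (L : ℝ))) := h1
      _ = 2 * X * (a * 2 ^ (r * (L : ℝ))) := by rw [h4]; ring
      _ ≤ _ := mul_le_mul_of_nonneg_left h3 (by positivity)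
  have hRγ : (S.R e L : ℝ) ^ S.γ ≤ 2 * X * (S.R r L : ℝ) ^ S.γ := by
    have h1 : (S.R e L : ℝ) ^ S.γ ≤ (2 * X * S.R r L) ^ S.γ :=
      Real.rpow_le_rpow (Nat.cast_nonneg _) hRe hγ0
    rw [Real.mul_rpow (by positivity) (Nat.cast_nonneg _)] at h1
    have h2 : (2 * X) ^ S.γ ≤ 2 * X := by
      calc (2 * X) ^ S.γ ≤ (2 * X) ^ (1 : ℝ) :=
            Real.rpow_le_rpow_of_exponent_le (by linarith) hγ1.le
        _ = 2 * X := Real.rpow_one _
    exact h1.trans (mul_le_mul_of_nonneg_right h2 (by positivity))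
  obtain ⟨c, hc⟩ : ∃ c : ℝ, c = 10 * (S.D L : ℝ) ^ 2 * S.k L := ⟨_, rfl⟩
  have hc0 : 0 ≤ c := by rw [hc]; positivity
  have hEe : (S.E e L : ℝ) ≤ c * (S.R e L : ℝ) ^ S.γ + 2 := by
    unfold E
    push_cast
    rw [← hc]
    have := (Nat.ceil_lt_add_one (show 0 ≤ c * (S.R e L : ℝ) ^ S.γ by positivity)).le
    linarith
  have hEr : c * (S.R r L : ℝ) ^ S.γ + 1 ≤ S.E r L := by
    unfold E
    push_cast
    rw [← hc]
    have := Nat.le_ceil (c * (S.R r L : ℝ) ^ S.γ)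
    linarith
  have hE : (S.E e L : ℝ) ≤ 2 * X * S.E r L := by
    have h1 : c * (S.R e L : ℝ) ^ S.γ ≤ c * (2 * X * (S.R r L : ℝ) ^ S.γ) :=
      mul_le_mul_of_nonneg_left hRγ hc0
    have h2 : 2 * X * (c * (S.R r L : ℝ) ^ S.γ + 1) ≤ 2 * X * S.E r L :=
      mul_le_mul_of_nonneg_left hEr (by positivity)
    nlinarith
  have hE1 : (1 : ℝ) ≤ S.E e L := by
    have : 1 ≤ S.E e L := Nat.le_add_left _ _
    exact_mod_cast this
  have hEr0 : (0 : ℝ) < S.E r L := by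
    have : 0 < S.E r L := Nat.succ_pos _
    exact_mod_cast this
  have hw : ((2 ^ S.w e L : ℕ) : ℝ) ≤ 2 * (S.E e L + 2) := by
    have := gp_size (show 0 < S.E e L + 2 by omega)
    have h2 : 2 ^ S.w e L ≤ 2 * (S.E e L + 2) := this
    exact_mod_cast h2
  refine Nat.cast_div_le.trans ?_
  rw [div_le_iff₀ hEr0, ← hX]
  linarith

theorem Ok.gpq (hS : S.Ok) {e r : ℝ} (hr : 0 ≤ r) (hre : r ≤ e) : ExpLe (e - r)
    (fun L => 1 + 3 * S.D L * ((S.lim e L + 1) / S.R r L + 2 ^ S.w e L / S.E r L + 2)) := by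
  have her : 0 ≤ e - r := by linarith
  have he : 0 ≤ e := by linarith
  have h1 : ExpLe (e - r) (fun L => (S.lim e L + 1) / S.R r L) := by
    refine (gp_div (x := r) ((hS.gplim he).add (gp_cst he 1))).mono'
      (Eventually.of_forall fun L => ?_)
    apply Nat.div_le_div_left
    · unfold R
      exact Nat.le_mul_of_pos_left _ (S.gpA_pos L)
    · positivity
  have h2 : ExpLe (e - r) (fun L => 2 ^ S.w e L / S.E r L) := by
    intro δ hδ
    filter_upwards [gp_const hδ 12] with L hL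
    refine (hS.gp_ratio hr hre L).trans ?_
    have e1 : (e - r + δ) * (L : ℝ) = δ * L + (e - r) * L := by ring
    rw [e1, Real.rpow_add (by norm_num)]
    exact mul_le_mul_of_nonneg_right (by exact_mod_cast hL) (by positivity)
  have h3 : ExpLe (0 + (e - r)) (fun L => 3 * S.D L * ((S.lim e L + 1) / S.R r L +
      2 ^ S.w e L / S.E r L + 2)) :=
    (((SubExp.const 3).mul hS.gpD).toExp (le_refl 0)).mul ((h1.add h2).add (gp_cst her 2))
  rw [zero_add] at h3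
  exact (gp_cst her 1).add h3

theorem Ok.grow_q (hS : S.Ok) {e r : ℝ} (hr : 0 ≤ r) (hre : r ≤ e) : Lin (e - r) (S.q e r) :=
  (hS.gpq hr hre).lin_size (by linarith)

theorem Ok.grow_len (hS : S.Ok) {e r : ℝ} (hr : 0 ≤ r) (hre : r ≤ e) :
    Lin (e - (1 - S.γ) * r) (fun L => gLen (S.p e r L)) := by
  have hγ0 := hS.γ0
  have hγ1 := hS.γ1
  have h0 : 0 ≤ e - (1 - S.γ) * r := by nlinarith
  have h1 : Lin (e - (1 - S.γ) * r) (fun L => S.q e r L + S.w r L) := by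
    have h2 := (hS.grow_q hr hre).add (hS.grow_w hr)
    refine h2.mono (le_of_eq (by ring))
  have h3 : Lin (e - (1 - S.γ) * r) (S.w e) :=
    (hS.grow_w (show 0 ≤ e by linarith)).mono (by nlinarith)
  have h4 : Lin (max (e - (1 - S.γ) * r) (e - (1 - S.γ) * r)) (fun L =>
      max (S.q e r L + S.w r L) (S.w e L)) := h1.max h3
  rw [max_self] at h4
  have h5 := (h4.add hS.grow.2.2.2).add (Lin.const 0 le_rfl 8)
  rw [add_zero, add_zero] at h5
  exact h5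

theorem Ok.grow_X (hS : S.Ok) {e r : ℝ} (hr : 0 ≤ r) (hre : r ≤ e) (_ : e ≤ S.e₀) :
    SubExp (fun L => (S.p e r L).X) := by
  obtain ⟨hh, hb, hσ, -⟩ := hS.grow
  have hs := ex_zero_iff.1 hS.hs
  have hd : SubExp S.d := hs.mono' (Eventually.of_forall fun L => by have := hS.hd L; omega)
  have hc : SubExp S.c := ((SubExp.const 100).mul ((hs.add (SubExp.const 10)).pow 2)).mono'
    (Eventually.of_forall fun L => by have := hS.hc L; omega)
  exact (SubExp.const 1000).mul ((((((((hh.add hb).add hσ).add hd).add hc).add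
    (hS.grow_q hr hre).subExp').add (hS.grow_w (show 0 ≤ e by linarith)).subExp').add
    (hS.grow_w hr).subExp').add (SubExp.const 10))

end GSeq

end Pool.Agent.NUM
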