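import Pool.Agent.NUM.Closure

/-!
# P5: the pivot

`Pivot c` is what the reduction to `SAT` and the hypothesis on `SAT` give: a problem `V n sg` which
tells, for inputs `z` which start with the table of a program `G`, whether some `y` makes `G` accept
`(z, y)` within `2 ^ (n - sg)` steps, and which has programs of time `2 ^ ((c + o(1)) (n + sg))`.
-/

set_option autoImplicit false

namespace Pool.Agent.NUM

open Filter

/-- the programs which are covered by the pivot -/
structure PGood (n sg : ℕ) (G : List Ins) : Prop where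
  len : G.length < 2 ^ sg
  top : ∀ c ∈ G, c.top ≤ 2 ^ sg
  ask : ∀ i j l, Ins.ask i j l ∈ G → l < n
  big : n + 3 ≤ 2 ^ sg
  three : 3 ≤ sg
  le : sg ≤ n

/-- the pivot, without decider -/
structure PivotB where
  V : ℕ → ℕ → Inp → Prop
  enc : ℕ → ℕ → List Ins → Inp
  supp_enc : ∀ n sg G, Supp (3 * sg + 10) (enc n sg G)
  sound : ∀ {n sg : ℕ} {G : List Ins}, PGood n sg G → ∀ {z : Inp},
    (∀ a, z (false :: a) = enc n sg G a) → ∀ {y : Inp},
    run (eval G (pair z y)) (2 ^ (n - sg)) zeroMem [] = some true → V n sg z
  complete : ∀ {n sg : ℕ} {G : List Ins}, PGood n sg G → ∀ {z : Inp},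
    (∀ a, z (false :: a) = enc n sg G a) → V n sg z →
    ∃ y : Inp, Supp (n - 2) y ∧ run (eval G (pair z y)) (2 ^ (n - sg)) zeroMem [] = some true

/-- the pivot -/
structure Pivot (c : ℝ) extends PivotB where
  dec : ∀ (n sg : ℕ → ℕ) (E : ℝ), 0 ≤ E → Lin E (fun L => n L + sg L) → Tendsto n atTop atTop →
    (∀ L, sg L ≤ n L) →
    ∃ (G : ℕ → List Ins) (s t : ℕ → ℕ) (L₀ : ℕ), Ex 0 s ∧ Ex (c * E) t ∧ (∀ L, Sz (s L) (G L)) ∧
      ∀ L, L₀ ≤ L → ∀ B, Decides (G L) B (t L) (V (n L) (sg L))

/-! ### asymptotics -/

theorem Lin.mono' {e : ℝ} {f g : ℕ → ℕ} (h : Lin e f) (hg : ∀ L, g L ≤ f L) : Lin e g := by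
  intro ε hε
  obtain ⟨L₀, hL⟩ := h ε hε
  exact ⟨L₀, fun L hL0 => (Nat.cast_le.2 (hg L)).trans (hL L hL0)⟩

theorem Lin.const_mul {f : ℕ → ℕ} (h : Lin 0 f) (k : ℕ) : Lin 0 (fun L => k * f L) := by
  induction k with
  | zero => simpa using Lin.zero (le_refl (0 : ℝ))
  | succ k ih =>
    have := ih.add h
    simp only [add_zero] at this
    refine this.mono' fun L => ?_
    rw [Nat.succ_mul]

theorem lin_clog {e : ℝ} {f : ℕ → ℕ} (he : 0 ≤ e) (h : ExpLe e f) :
    Lin e (fun L => Nat.clog 2 (f L)) := by
  intro η hη
  exact eventually_atTop.1 (h.clog he η hη)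

theorem lin_id {b : ℝ} (hb : 1 ≤ b) : Lin b (fun L => L) := by
  intro ε hε
  refine ⟨0, fun L _ => ?_⟩
  have : (0 : ℝ) ≤ L := Nat.cast_nonneg L
  nlinarith

theorem two_pow_clog_le {f : ℕ} (h : 1 ≤ f) : 2 ^ Nat.clog 2 f ≤ 2 * f := by
  rcases Nat.lt_or_ge 1 f with h1 | h1
  · have h2 := Nat.pow_pred_clog_lt_self (b := 2) (by norm_num) h1
    have h3 : 0 < Nat.clog 2 f := Nat.clog_pos (by norm_num) h1
    obtain ⟨k, hk⟩ : ∃ k, Nat.clog 2 f = k + 1 := ⟨Nat.clog 2 f - 1, by omega⟩
    rw [hk] at h2 ⊢
    simp only [Nat.pred_succ] at h2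
    rw [pow_succ]
    omega
  · have : f = 1 := by omega
    subst this
    simp

/-! ### trimming: short asks only -/

/-- asks of addresses of length at least `n` are replaced by the constant `false` -/
def trimIns (n c : ℕ) : Ins → List Ins
  | .nand i j k => [.nand i j k]
  | .ask i j l => if l < n then [.ask i j l] else
      [.nand c c c, .nand (c + 1) c c, .nand (c + 1) c (c + 1), .nand i (c + 1) (c + 1)]

/-- the trimmed program -/
def trim (n c : ℕ) (G : List Ins) : List Ins := G.flatMap (trimIns n c)

theorem trim_ask {n c : ℕ} {G : List Ins} {i j l : ℕ} (h : Ins.ask i j l ∈ trim n c G) : l < n := by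
  unfold trim at h
  rw [List.mem_flatMap] at h
  obtain ⟨I, -, hI⟩ := h
  cases I with
  | nand i' j' k' => simp [trimIns] at hI
  | ask i' j' l' =>
    simp only [trimIns] at hI
    split_ifs at hI with h1
    · simp only [List.mem_singleton, Ins.ask.injEq] at hI
      omega
    · simp at hI

theorem trim_length (n c : ℕ) (G : List Ins) : (trim n c G).length ≤ 4 * G.length := by
  induction G with
  | nil => simp [trim]
  | cons I G ih =>
    have h1 : (trimIns n c I).length ≤ 4 := by
      cases I with
      | nand i j k => simp [trimIns]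
      | ask i j l => simp only [trimIns]; split_ifs <;> simp
    have h2 : trim n c (I :: G) = trimIns n c I ++ trim n c G := by simp [trim]
    rw [h2, List.length_append, List.length_cons]
    omega

theorem trim_top {n c : ℕ} {G : List Ins} (hG : ∀ I ∈ G, I.top ≤ c) :
    ∀ I ∈ trim n c G, I.top ≤ c + 2 := by
  intro I hI
  unfold trim at hI
  rw [List.mem_flatMap] at hI
  obtain ⟨J, hJ, hI⟩ := hI
  have h1 := hG J hJ
  cases J with
  | nand i' j' k' =>
    simp only [trimIns, List.mem_singleton] at hI
    subst hI
    omega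
  | ask i' j' l' =>
    simp only [trimIns] at hI
    split_ifs at hI with h2
    · simp only [List.mem_singleton] at hI
      subst hI
      omega
    · simp only [Ins.top, max_le_iff] at h1
      simp only [List.mem_cons, List.not_mem_nil, or_false] at hI
      rcases hI with rfl | rfl | rfl | rfl <;> simp only [Ins.top, max_le_iff] <;> omega

theorem trim_agr {n c : ℕ} {z : Inp} (hz : ∀ a : List Bool, n ≤ a.length → z a = false) :
    ∀ (G : List Ins), (∀ I ∈ G, I.top ≤ c) → ∀ M M' : Mem, Agr c M M' →
      Agr c (eval (trim n c G) z M) (eval G z M') := by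
  intro G
  induction G with
  | nil => intro _ M M' h; exact h
  | cons I G ih =>
    intro hG M M' hM
    have h2 : trim n c (I :: G) = trimIns n c I ++ trim n c G := by simp [trim]
    rw [h2, eval_append, eval_cons]
    have hI := hG I List.mem_cons_self
    apply ih (fun J hJ => hG J (List.mem_cons_of_mem _ hJ))
    cases I with
    | nand i j k =>
      simp only [trimIns, eval_cons, eval_nil]
      exact Ins.exec_agr hI hM
    | ask i j l =>
      simp only [trimIns]
      split_ifs with h1
      · simp only [eval_cons, eval_nil]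
        exact Ins.exec_agr hI hM
      · simp only [Ins.top, max_le_iff] at hI
        have e1 : z (word M' j l) = false := hz _ (by rw [word_length]; omega)
        intro q hq
        simp only [eval_cons, eval_nil, Ins.exec, e1]
        by_cases hqi : q = i
        · subst hqi
          simp [Function.update_self]
        · rw [Function.update_of_ne hqi, Function.update_of_ne hqi,
            Function.update_of_ne (by omega), Function.update_of_ne (by omega),
            Function.update_of_ne (by omega)]
          exact hM q hq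

/-- every program has an equivalent one with short asks, on inputs without long addresses -/
theorem exists_trim_run {G : List Ins} {s : ℕ} (n : ℕ) (hG : Sz s G) (hs : 3 ≤ s) :
    ∃ G' : List Ins, Sz (4 * s + 2) G' ∧ (∀ i j l, Ins.ask i j l ∈ G' → l < n) ∧
      ∀ z : Inp, (∀ a : List Bool, n ≤ a.length → z a = false) → ∀ (T : ℕ) (b : Bool),
        (run (eval G' z) T zeroMem [] = some b ↔ run (eval G z) T zeroMem [] = some b) := by
  refine ⟨trim n s G, ⟨?_, fun c hc => ?_⟩, fun i j l h => trim_ask h, fun z hz T b => ?_⟩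
  · have h1 := trim_length n s G
    have h2 := hG.1
    omega
  · exact (trim_top hG.2 c hc).trans (by omega)
  · exact run_congr_iff hs (fun M M' h => trim_agr hz G hG.2 M M' h) (Agr.refl _ _)

end Pool.Agent.NUM
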