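import Pool.Agent.NUM.RDef
import Pool.Agent.NUM.GPar1
import Pool.Agent.NUM.GPar2
import Pool.Agent.NUM.Pivot

/-!
# Theorem H(γ) for random access machines: the parameters
-/

set_option autoImplicit false

namespace Pool.Agent.NUM

namespace GSeq

open Filter

variable {S : GSeq}

theorem rpa_b (S : GSeq) (L : ℕ) :
    4 * (S.t L + S.lim S.e₀ L + 2 ^ S.w S.e₀ L + 10) < 2 ^ S.b L ∧ S.w S.e₀ L + 2 ≤ S.b L := by
  obtain ⟨x, hx⟩ : ∃ x, x = S.t L + S.lim S.e₀ L + 2 ^ S.w S.e₀ L + 10 := ⟨_, rfl⟩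
  have h1 := Nat.lt_size_self x
  have h2 : Nat.size x + 2 ≤ S.b L := by
    unfold GSeq.b
    rw [← hx]
    omega
  have h3 : 2 ^ (Nat.size x + 2) ≤ 2 ^ S.b L := Nat.pow_le_pow_right (by norm_num) h2
  rw [pow_add] at h3
  refine ⟨by rw [← hx]; omega, ?_⟩
  unfold GSeq.b
  omega

theorem Ok.timesR (hS : S.Ok) {r : ℝ} (hr : r ≤ S.e₀) {L N : ℕ} (hN : N ≤ S.t L) :
    N + 2 ^ (S.w r L + 1) + 1 < 2 ^ S.b L ∧ S.lim r L + 1 < 2 ^ S.b L := by
  obtain ⟨h1, -⟩ := rpa_b S L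
  have h2 := hS.gpa_lim_mono hr L
  have h3 : 2 ^ S.w r L ≤ 2 ^ S.w S.e₀ L :=
    Nat.pow_le_pow_right (by norm_num) (hS.gpa_w_mono hr L)
  have h4 := Nat.two_pow_pos (S.w r L)
  rw [pow_succ]
  constructor <;> omega

/-- the number of steps has few digits -/
theorem Ok.stepsR (hS : S.Ok) {L N : ℕ} (hN : N ≤ S.t L) : N < 2 ^ S.b L := by
  have _ := hS
  obtain ⟨h1, -⟩ := rpa_b S L
  have h4 := Nat.two_pow_pos (S.w S.e₀ L)
  omega

theorem Ok.rpa_q (hS : S.Ok) {e r : ℝ} (he : e ≤ S.e₀) (L : ℕ) : S.q e r L + 2 ≤ S.b L := by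
  have h1 : S.q e r L ≤ Nat.size (1 + 3 * S.D L * (S.lim S.e₀ L + 1 + 2 ^ S.w S.e₀ L + 2)) := by
    unfold GSeq.q
    apply Nat.size_le_size
    apply Nat.add_le_add_left
    apply Nat.mul_le_mul_left
    have h2 := hS.gpa_lim_mono he L
    have h3 : 2 ^ S.w e L ≤ 2 ^ S.w S.e₀ L :=
      Nat.pow_le_pow_right (by norm_num) (hS.gpa_w_mono he L)
    have h4 := Nat.div_le_self (S.lim e L + 1) (S.R r L)
    have h5 := Nat.div_le_self (2 ^ S.w e L) (S.E r L)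
    omega
  have h2 : Nat.size (1 + 3 * S.D L * (S.lim S.e₀ L + 1 + 2 ^ S.w S.e₀ L + 2)) + 2 ≤ S.b L := by
    unfold GSeq.b
    omega
  omega

theorem Ok.parR (hS : S.Ok) {e r : ℝ} (hr : r ≤ e) (he : e ≤ S.e₀) (L : ℕ) : (S.pr e r L).Ok := by
  have hσ' : S.h L + S.b L < 2 ^ S.σ L := Nat.lt_size_self (S.h L + S.b L)
  have hh : S.h L = 100 * (S.s L + 10) ^ 2 + 2 := rfl
  have hq := hS.rpa_q (r := r) he L
  obtain ⟨-, hwb⟩ := rpa_b S L
  have hw := hS.gpa_w_mono (hr.trans he) L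
  have hw1 := hS.gpa_w_mono he L
  have ht := hS.times (hr.trans he) (L := L) (N := 0) (Nat.zero_le _)
  have ht1 := hS.timesR he (L := L) (N := 0) (Nat.zero_le _)
  exact {
    h2 := by show 2 ≤ S.h L + S.b L; omega
    hd := by show 4 * 0 < 2 * (S.h L + S.b L); omega
    db := Nat.zero_le _
    ch := by show S.h L < S.h L + S.b L; omega
    hσ := by show S.h L + S.b L ≤ 2 ^ S.σ L; omega
    bσ := by show S.b L ≤ 2 ^ S.σ L; omega
    qσ := by show S.q e r L + 1 ≤ 2 ^ S.σ L; omega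
    w₁σ := by show S.w e L + 1 ≤ 2 ^ S.σ L; omega
    wσ := by show S.w r L ≤ 2 ^ S.σ L; omega
    w0 := (hS.dims r L).2.2.2.2.2.2
    w1 := by show 1 ≤ S.w e L + 1; omega
    wb := by show S.w r L ≤ S.b L; omega
    w₁b := by show S.w e L + 1 ≤ S.b L; omega
    qb := by show S.q e r L + 1 ≤ S.b L; omega
    limb := ht.2
    lim₁b := ht1.2 }

/-- number of children -/
theorem Ok.numR (hS : S.Ok) (e r : ℝ) (L : ℕ) :
    1 + 3 * (S.D L : ℝ) * ((((S.lim e L + 1 : ℕ) : ℝ) + 1) / S.R r L +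
      2 ^ (S.w e L + 1) / S.E r L) ≤ 2 ^ (S.q e r L + 1) := by
  have h1 := hS.num e r L
  have hR : (0 : ℝ) < S.R r L := by
    have := gpa_R_pos S r L
    exact_mod_cast this
  have hE : (0 : ℝ) < S.E r L := by
    have := (hS.dims r L).1
    exact_mod_cast this
  have h2 : (((S.lim e L + 1 : ℕ) : ℝ) + 1) / S.R r L ≤ 2 * (((S.lim e L : ℝ) + 1) / S.R r L) := by
    rw [mul_div_assoc']
    gcongr
    push_cast
    have : (0 : ℝ) ≤ S.lim e L := Nat.cast_nonneg _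
    linarith
  have h3 : (2 : ℝ) ^ (S.w e L + 1) / S.E r L = 2 * (2 ^ S.w e L / S.E r L) := by
    rw [pow_succ]
    ring
  rw [h3, pow_succ]
  have h5 : (0 : ℝ) ≤ 3 * (S.D L : ℝ) := by positivity
  have h6 := mul_le_mul_of_nonneg_left (add_le_add h2 (le_refl (2 * (2 ^ S.w e L / (S.E r L : ℝ))))) h5
  nlinarith

theorem Ok.grow_lLen (hS : S.Ok) {r : ℝ} (hr : 0 ≤ r) :
    Lin (S.γ * r) (fun L => lLen (S.w r L) (S.σ L)) := by
  have h1 := ((hS.grow_w hr).add ((Lin.const 0 le_rfl 3).add hS.grow.2.2.2)).add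
    (Lin.const 0 le_rfl 1)
  rw [add_zero, add_zero, add_zero] at h1
  exact h1

theorem Ok.grow_rLen (hS : S.Ok) {e r : ℝ} (hr : 0 ≤ r) (hre : r ≤ e) :
    Lin (e - (1 - S.γ) * r) (fun L => rLen (S.pr e r L)) := by
  have h1 := (hS.grow_len hr hre).add (Lin.const 0 le_rfl 2)
  rw [add_zero] at h1
  refine h1.mono' fun L => ?_
  show max (S.q e r L + 1 + S.w r L) (S.w e L + 1) + S.σ L + 8 + 1 ≤
    max (S.q e r L + S.w r L) (S.w e L) + S.σ L + 8 + 2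
  omega

theorem Ok.grow_uLen (hS : S.Ok) (e r : ℝ) : Lin 0 (fun L => uLen (S.pr e r L)) := by
  have h1 := hS.grow.2.2.2.add (Lin.const 0 le_rfl 4)
  rw [add_zero] at h1
  exact h1

theorem Ok.grow_XR (hS : S.Ok) {e r : ℝ} (hr : 0 ≤ r) (hre : r ≤ e) (_ : e ≤ S.e₀) :
    SubExp (fun L => (S.pr e r L).X) := by
  obtain ⟨hh, hb, hσ, -⟩ := hS.grow
  exact (SubExp.const 1000).mul (((((((((hh.add hb).add hb).add hσ).add (SubExp.const 0)).add
    hh).add ((hS.grow_q hr hre).subExp'.add (SubExp.const 1))).add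
    ((hS.grow_w (show 0 ≤ e by linarith)).subExp'.add (SubExp.const 1))).add
    (hS.grow_w hr).subExp').add (SubExp.const 10))

end GSeq

end Pool.Agent.NUM
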