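import Pool.Agent.NUM.RTCodeB

/-!
# The code of the check of transcripts
-/

set_option autoImplicit false

namespace Pool.Agent.NUM

namespace RTC

/-! ### truncation -/

theorem tbit_trc (k σ : ℕ) (v : Inp) : NUM.tbit k σ (trc (tLen k σ) v) = NUM.tbit k σ v := by
  funext g f x r
  unfold NUM.tbit
  apply trc_apply_of_le
  simp only [List.length_cons, List.length_append, length_bits, tLen]
  omega

theorem rdT_congr {h w k b σ : ℕ} {v v' : Inp} (hv : NUM.tbit k σ v = NUM.tbit k σ v') :
    rdT h w k b σ v = rdT h w k b σ v' := by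
  funext g
  unfold rdT
  rw [hv]

theorem rdP_trc (h w b σ : ℕ) (l : Inp) : rdP h w b σ (trc (hLen w σ + 1) l) = rdP h w b σ l := by
  funext g
  unfold rdP
  refine rdL_congr fun i f r => ?_
  unfold hbit
  apply trc_apply_of_le
  simp only [List.length_cons, List.length_append, length_bits, hLen]
  omega

theorem rdX_trc (k σ : ℕ) (κ : Inp) : rdX k σ (trc σ κ) = rdX k σ κ := by
  unfold rdX
  refine num_congr fun r _ => ?_
  apply trc_apply_of_le
  rw [length_bits]

theorem baseAt_trc (p : TPar) (G : List Ins) (z l v : Inp) (x : ℕ) :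
    BaseAt p G z (trc (hLen p.w p.σ + 1) l) (trc (tLen p.k p.σ) v) x ↔ BaseAt p G z l v x := by
  unfold BaseAt
  rw [rdP_trc, rdT_congr (tbit_trc p.k p.σ v)]

theorem runAt_trc (p : TPar) (G : List Ins) (z v : Inp) (x : ℕ) :
    RunAt p G z (trc (max (hLen p.w p.σ) (tLen p.k p.σ) + 1) v) x ↔ RunAt p G z v x := by
  have h1 : NUM.tbit p.k p.σ (fun a => trc (max (hLen p.w p.σ) (tLen p.k p.σ) + 1) v (true :: a)) =
      NUM.tbit p.k p.σ (fun a => v (true :: a)) := by
    funext g f x r
    unfold NUM.tbit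
    apply trc_apply_of_le
    simp only [List.length_cons, List.length_append, length_bits, tLen]
    omega
  have h2 : rdL (p.h₀ + p.b) p.w p.b p.σ
      (fun a => trc (max (hLen p.w p.σ) (tLen p.k p.σ) + 1) v (false :: a)) =
      rdL (p.h₀ + p.b) p.w p.b p.σ (fun a => v (false :: a)) := by
    refine rdL_congr fun i f r => ?_
    unfold hbit
    apply trc_apply_of_le
    simp only [List.length_cons, List.length_append, length_bits, hLen]
    omega
  unfold RunAt
  rw [h2, rdT_congr h1]

/-! ### the parameters -/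

theorem X_big (p : TPar) : 1000 ≤ p.X := by
  unfold TPar.X
  omega

theorem X_size (p : TPar) : 1000 * (p.h₀ + p.b + p.σ + p.d + p.w + p.k + 10) ≤ p.X := le_rfl

theorem rdX_cn (p : TPar) :
    CN p.X (p.X ^ (0 + 1)) p.k (fun x _ => rdX p.k p.σ fun a => x (true :: a)) := by
  refine CN.of (k := 0) (X_big p) (g := fun r x _ => x (true :: bits p.σ r)) fun r _ => ?_
  refine (Cp.askConst p.X (true :: bits p.σ r)).mono le_rfl ?_
  have := X_size p
  rw [List.length_cons, length_bits, Nat.zero_add, pow_one]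
  omega

/-- the list at the prefix `uL` and the transcript `g` at the prefix `uT` -/
theorem ctx {p : TPar} (hp : p.Ok) (g : Bool) (uL uT : List Bool) (hL : uL.length ≤ 4)
    (hT : uT.length ≤ 3) :
    Ctx p.X p.X (p.h₀ + p.b) p.w p.b p.k
      (fun x _ => rdL (p.h₀ + p.b) p.w p.b p.σ fun a => x (uL ++ a)) (fun _ _ => 1)
      (fun x _ => rdT (p.h₀ + p.b) p.w p.k p.b p.σ (fun a => x (uT ++ a)) g) := by
  have hs := X_size p
  have hw := hp.w0
  exact mkCtx (uL := fun x _ a => x (uL ++ a)) (uT := fun x _ a => x (uT ++ a)) g (X_big p)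
    (by omega) (by omega) (by omega) (by omega)
    ((CN.const (X_big p) (Nat.one_lt_two_pow (by omega))).up (X_big p) (by omega))
    (CStr.pre (X_big p) uL) (CStr.pre (X_big p) uT)

theorem X60 (p : TPar) {s : ℕ} (hs : s ≤ 59) : p.X ^ s + p.X ≤ p.X ^ 60 := by
  have h1 := X_big p
  have h2 : p.X ^ s ≤ p.X ^ 59 := Nat.pow_le_pow_right (by omega) hs
  have h3 : p.X ≤ p.X ^ 59 := Nat.le_self_pow (by norm_num) _
  have h4 : p.X ^ 60 = p.X * p.X ^ 59 := by rw [← pow_succ']
  rw [h4]
  calc p.X ^ s + p.X ≤ 2 * p.X ^ 59 := by omega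
    _ ≤ p.X * p.X ^ 59 := Nat.mul_le_mul_right _ (by omega)

end RTC

open RTC in
/-- **The code of the check of transcripts.** -/
theorem rtCodeOK : RTCodeOK := by
  intro p G hp hG
  have hX := X_big p
  have hs := X_size p
  have hx := rdX_cn p
  constructor
  · have HM : XCtx p.X (p.h₀ + p.b) p.b
        (fun y => ramXM G (fun w => y ([false, false, false] ++ w)) p.d p.h₀ p.b) :=
      xCtx hG (by omega) hp.db _ (by simp)
    have H := ctx hp false [false, false, true, false] [false, true] (by simp) (by simp)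
    have H' := ctx hp true [false, false, true, true] [false, true] (by simp) (by simp)
    obtain ⟨f, hf, hP⟩ := inpFun (P := fun x => BaseAt p G (fun w => x ([false, false, false] ++ w))
      (fun a => x ([false, false, true] ++ a)) (fun a => x ([false, true] ++ a))
      (rdX p.k p.σ fun a => x (true :: a))) ((baseC HM H H' hx).congr fun x _ => Iff.rfl)
    refine ⟨f, hf.mono le_rfl (X60 p (by norm_num)), fun z l v κ => ?_⟩
    rw [hP, ← rdX_trc p.k p.σ κ]
    exact baseAt_trc p G z l v _
  · have HM : XCtx p.X (p.h₀ + p.b) p.b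
        (fun y => ramXM G (fun w => y ([false, false] ++ w)) p.d p.h₀ p.b) :=
      xCtx hG (by omega) hp.db _ (by simp)
    have H := ctx hp false [false, true, false] [false, true, true] (by simp) (by simp)
    have h6 := CP.and hX (cnd HM H hx) ((RTC.run HM H hx).up hX (by omega : 40 ≤ 0 + 40))
    obtain ⟨f, hf, hP⟩ := inpFun (P := fun x => RunAt p G (fun w => x ([false, false] ++ w))
      (fun a => x ([false, true] ++ a)) (rdX p.k p.σ fun a => x (true :: a)))
      (h6.congr fun x _ => Iff.rfl)
    refine ⟨f, hf.mono le_rfl (X60 p (by norm_num)), fun z v κ => ?_⟩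
    rw [hP, ← rdX_trc p.k p.σ κ]
    exact runAt_trc p G z v _

end Pool.Agent.NUM
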