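import Pool.Agent.NUM.GRead

/-!
# Theorem H(γ): strings for systems of lists; invariance
-/

set_option autoImplicit false

namespace Pool.Agent.NUM

/-! ### families of strings -/

/-- the string whose block number `k` (address prefix `bits n k`) is `g k` -/
def famS (n : ℕ) (g : ℕ → Inp) : Inp := fun a => g (val (a.take n)) (a.drop n)

theorem val_bitsG {n k : ℕ} (hk : k < 2 ^ n) : val (bits n k) = k := by
  unfold val
  rw [length_bits, num_congr (h := fun i => k.testBit i) fun i hi => ?_, num_testBit,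
    Nat.mod_eq_of_lt hk]
  unfold bits
  simp [List.getD, hi]

theorem famS_apply {n k : ℕ} (hk : k < 2 ^ n) (g : ℕ → Inp) (a : List Bool) :
    famS n g (bits n k ++ a) = g k a := by
  unfold famS
  have h1 : (bits n k ++ a).take n = bits n k := by
    rw [List.take_append_of_le_length (by rw [length_bits]),
      List.take_of_length_le (by rw [length_bits])]
  have h2 : (bits n k ++ a).drop n = a := by
    rw [List.drop_append_of_le_length (by rw [length_bits]),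
      List.drop_of_length_le (by rw [length_bits]), List.nil_append]
  rw [h1, h2, val_bitsG hk]

theorem famS_apply' {n k : ℕ} (hk : k < 2 ^ n) (g : ℕ → Inp) : famS n g (bits n k) = g k [] := by
  have := famS_apply hk g []
  rwa [List.append_nil] at this

theorem num_eq_of_testBit {n k : ℕ} (hk : k < 2 ^ n) {g : ℕ → Bool}
    (h : ∀ r < n, g r = k.testBit r) : num n g = k := by
  rw [num_congr h, num_testBit, Nat.mod_eq_of_lt hk]

/-- five strings in one -/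
def five (a b c d e : Inp) : Inp
  | false :: false :: t => a t
  | false :: true :: t => b t
  | true :: false :: t => c t
  | true :: true :: false :: t => d t
  | true :: true :: true :: t => e t
  | _ => false

/-- **every system of lists is in a string** -/
theorem exists_gy {p : GPar} (hp : p.Ok) (R : Lst (Fin p.h → Bool))
    (C : ℕ → Lst (Fin p.h → Bool)) (X : ℕ → ℕ → Bool) (E K I : ℕ → ℕ → ℕ) (Dk Di : ℕ → ℕ)
    (i j : ℕ)
    (hR : ∀ e < 2 ^ p.w₁, R.tm e < 2 ^ p.b ∧ R.lb e < 2 ^ p.w₁ ∧ R.off e < 2 ^ p.b)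
    (hC : ∀ k < 2 ^ p.q, ∀ i < 2 ^ p.w, (C k).tm i < 2 ^ p.b ∧ (C k).lb i < 2 ^ p.w ∧
      (C k).off i < 2 ^ p.b)
    (hE : ∀ k < 2 ^ p.q, ∀ i < 2 ^ p.w, E k i < 2 ^ p.w₁ ∧ K k i < 2 ^ p.q ∧ I k i < 2 ^ p.w)
    (hD : ∀ e < 2 ^ p.w₁, Dk e < 2 ^ p.q ∧ Di e < 2 ^ p.w)
    (hi : i < 2 ^ p.w₁) (hj : j < 2 ^ p.w₁) :
    ∃ y : Inp, LEq p.w₁ (gR p y) R ∧ (∀ k < 2 ^ p.q, LEq p.w (gC p y k) (C k)) ∧
      (∀ k < 2 ^ p.q, ∀ i < 2 ^ p.w, gX p y k i = X k i ∧ gE p y k i = E k i ∧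
        gK p y k i = K k i ∧ gI p y k i = I k i) ∧
      (∀ e < 2 ^ p.w₁, gDk p y e = Dk e ∧ gDi p y e = Di e) ∧ gi p y = i ∧ gj p y = j := by
  classical
  have hhσ := hp.hσ
  have hbσ := hp.bσ
  have hqσ := hp.qσ
  have hw₁σ := hp.w₁σ
  have hwσ := hp.wσ
  obtain ⟨vR, hvR⟩ := exists_rdL (h := p.h) (w := p.w₁) (b := p.b) (σ := p.σ) hhσ hw₁σ hbσ R
    (fun e he => (hR e he).1) (fun e he => (hR e he).2.1) (fun e he => (hR e he).2.2)
  have hvC : ∀ k, ∃ vC : Inp, k < 2 ^ p.q → LEq p.w (rdL p.h p.w p.b p.σ vC) (C k) := by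
    intro k
    by_cases hk : k < 2 ^ p.q
    · obtain ⟨vC, h⟩ := exists_rdL (h := p.h) (w := p.w) (b := p.b) (σ := p.σ) hhσ hwσ hbσ (C k)
        (fun e he => (hC k hk e he).1) (fun e he => (hC k hk e he).2.1)
        (fun e he => (hC k hk e he).2.2)
      exact ⟨vC, fun _ => h⟩
    · exact ⟨fun _ => false, fun h => absurd h hk⟩
  choose vC hvC using hvC
  have hσ0 : 0 < 2 ^ p.σ := by positivity
  obtain ⟨vN, hvN⟩ : ∃ vN : Inp, vN = famS 1 fun f => famS p.σ fun r _ =>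
    if f = 0 then i.testBit r else j.testBit r := ⟨_, rfl⟩
  obtain ⟨vP, hvP⟩ : ∃ vP : Inp, vP = famS p.q fun k => famS p.w fun i' => famS 2 fun f =>
    famS p.σ fun r _ => if f = 0 then X k i' else if f = 1 then (E k i').testBit r else
      if f = 2 then (K k i').testBit r else (I k i').testBit r := ⟨_, rfl⟩
  obtain ⟨vD, hvD⟩ : ∃ vD : Inp, vD = famS p.w₁ fun e => famS 1 fun f => famS p.σ fun r _ =>
    if f = 0 then (Dk e).testBit r else (Di e).testBit r := ⟨_, rfl⟩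
  have eP : ∀ k < 2 ^ p.q, ∀ i' < 2 ^ p.w, ∀ f < 2 ^ 2, ∀ r < 2 ^ p.σ,
      vP (bits p.q k ++ (bits p.w i' ++ (bits 2 f ++ bits p.σ r))) =
      if f = 0 then X k i' else if f = 1 then (E k i').testBit r else
      if f = 2 then (K k i').testBit r else (I k i').testBit r := by
    intro k hk i' hi' f hf r hr
    rw [hvP, famS_apply hk, famS_apply hi', famS_apply hf, famS_apply' hr]
  have eD : ∀ e < 2 ^ p.w₁, ∀ f < 2 ^ 1, ∀ r < 2 ^ p.σ,
      vD (bits p.w₁ e ++ (bits 1 f ++ bits p.σ r)) =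
      if f = 0 then (Dk e).testBit r else (Di e).testBit r := by
    intro e he f hf r hr
    rw [hvD, famS_apply he, famS_apply hf, famS_apply' hr]
  have eN : ∀ f < 2 ^ 1, ∀ r < 2 ^ p.σ, vN (bits 1 f ++ bits p.σ r) =
      if f = 0 then i.testBit r else j.testBit r := by
    intro f hf r hr
    rw [hvN, famS_apply hf, famS_apply' hr]
  refine ⟨five vR vN (famS p.q vC) vP vD, hvR, fun k hk => ?_, fun k hk i' hi' => ⟨?_, ?_, ?_, ?_⟩,
    fun e he => ⟨?_, ?_⟩, ?_, ?_⟩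
  · have h1 : gRec p (five vR vN (famS p.q vC) vP vD) k = vC k := by
      funext a
      show famS p.q vC (bits p.q k ++ a) = vC k a
      exact famS_apply hk _ _
    rw [gC_eq, h1]
    exact hvC k hk
  · show vP (bits p.q k ++ (bits p.w i' ++ (bits 2 0 ++ bits p.σ 0))) = _
    rw [eP k hk i' hi' 0 (by norm_num) 0 hσ0, if_pos rfl]
  · refine num_eq_of_testBit (hE k hk i' hi').1 fun r hr => ?_
    show vP (bits p.q k ++ (bits p.w i' ++ (bits 2 1 ++ bits p.σ r))) = _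
    rw [eP k hk i' hi' 1 (by norm_num) r (by omega), if_neg (by norm_num), if_pos rfl]
  · refine num_eq_of_testBit (hE k hk i' hi').2.1 fun r hr => ?_
    show vP (bits p.q k ++ (bits p.w i' ++ (bits 2 2 ++ bits p.σ r))) = _
    rw [eP k hk i' hi' 2 (by norm_num) r (by omega), if_neg (by norm_num), if_neg (by norm_num),
      if_pos rfl]
  · refine num_eq_of_testBit (hE k hk i' hi').2.2 fun r hr => ?_
    show vP (bits p.q k ++ (bits p.w i' ++ (bits 2 3 ++ bits p.σ r))) = _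
    rw [eP k hk i' hi' 3 (by norm_num) r (by omega), if_neg (by norm_num), if_neg (by norm_num),
      if_neg (by norm_num)]
  · refine num_eq_of_testBit (hD e he).1 fun r hr => ?_
    show vD (bits p.w₁ e ++ (bits 1 0 ++ bits p.σ r)) = _
    rw [eD e he 0 (by norm_num) r (by omega), if_pos rfl]
  · refine num_eq_of_testBit (hD e he).2 fun r hr => ?_
    show vD (bits p.w₁ e ++ (bits 1 1 ++ bits p.σ r)) = _
    rw [eD e he 1 (by norm_num) r (by omega), if_neg (by norm_num)]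
  · refine num_eq_of_testBit hi fun r hr => ?_
    show vN (bits 1 0 ++ bits p.σ r) = _
    rw [eN 0 (by norm_num) r (by omega), if_pos rfl]
  · refine num_eq_of_testBit hj fun r hr => ?_
    show vN (bits 1 1 ++ bits p.σ r) = _
    rw [eN 1 (by norm_num) r (by omega), if_neg (by norm_num)]

/-- **every triple of numbers and every string are in a string** -/
theorem exists_gv {p : GPar} (hp : p.Ok) {k i e : ℕ} (hk : k < 2 ^ p.q) (hi : i < 2 ^ p.w)
    (he : e < 2 ^ p.w₁) (u : Inp) :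
    ∃ v : Inp, vk p v = k ∧ vi p v = i ∧ ve p v = e ∧ ∀ a, v (true :: a) = u a := by
  have hqσ := hp.qσ
  have hw₁σ := hp.w₁σ
  have hwσ := hp.wσ
  obtain ⟨s, hs⟩ : ∃ s : Inp, s = famS 2 fun f => famS p.σ fun r _ =>
    if f = 0 then k.testBit r else if f = 1 then i.testBit r else e.testBit r := ⟨_, rfl⟩
  have eS : ∀ f < 2 ^ 2, ∀ r < 2 ^ p.σ, s (bits 2 f ++ bits p.σ r) =
      if f = 0 then k.testBit r else if f = 1 then i.testBit r else e.testBit r := by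
    intro f hf r hr
    rw [hs, famS_apply hf, famS_apply' hr]
  refine ⟨pair s u, ?_, ?_, ?_, fun a => rfl⟩
  · refine num_eq_of_testBit hk fun r hr => ?_
    show s (bits 2 0 ++ bits p.σ r) = _
    rw [eS 0 (by norm_num) r (by omega), if_pos rfl]
  · refine num_eq_of_testBit hi fun r hr => ?_
    show s (bits 2 1 ++ bits p.σ r) = _
    rw [eS 1 (by norm_num) r (by omega), if_neg (by norm_num), if_pos rfl]
  · refine num_eq_of_testBit he fun r hr => ?_
    show s (bits 2 2 ++ bits p.σ r) = _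
    rw [eS 2 (by norm_num) r (by omega), if_neg (by norm_num), if_neg (by norm_num)]

/-! ### ranges -/

theorem gE_lt (p : GPar) (y : Inp) (k i : ℕ) : gE p y k i < 2 ^ p.w₁ := num_lt _ _

theorem gK_lt (p : GPar) (y : Inp) (k i : ℕ) : gK p y k i < 2 ^ p.q := num_lt _ _

theorem gI_lt (p : GPar) (y : Inp) (k i : ℕ) : gI p y k i < 2 ^ p.w := num_lt _ _

theorem gDk_lt (p : GPar) (y : Inp) (e : ℕ) : gDk p y e < 2 ^ p.q := num_lt _ _

theorem gDi_lt (p : GPar) (y : Inp) (e : ℕ) : gDi p y e < 2 ^ p.w := num_lt _ _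

theorem gi_lt (p : GPar) (y : Inp) : gi p y < 2 ^ p.w₁ := num_lt _ _

theorem gj_lt (p : GPar) (y : Inp) : gj p y < 2 ^ p.w₁ := num_lt _ _

theorem vk_lt (p : GPar) (v : Inp) : vk p v < 2 ^ p.q := num_lt _ _

theorem vi_lt (p : GPar) (v : Inp) : vi p v < 2 ^ p.w := num_lt _ _

theorem ve_lt (p : GPar) (v : Inp) : ve p v < 2 ^ p.w₁ := num_lt _ _

/-! ### invariance -/

section

variable {A : Type} {w : ℕ} {L L' L'' : Lst A}

theorem LEq.refl (w : ℕ) (L : Lst A) : LEq w L L := fun _ _ => ⟨rfl, rfl, rfl, rfl, rfl⟩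

theorem LEq.symm (h : LEq w L' L) : LEq w L L' := fun i hi =>
  ⟨(h i hi).1.symm, (h i hi).2.1.symm, (h i hi).2.2.1.symm, (h i hi).2.2.2.1.symm,
    (h i hi).2.2.2.2.symm⟩

theorem LEq.trans (h : LEq w L'' L') (h' : LEq w L' L) : LEq w L'' L := fun i hi =>
  ⟨(h i hi).1.trans (h' i hi).1, (h i hi).2.1.trans (h' i hi).2.1,
    (h i hi).2.2.1.trans (h' i hi).2.2.1, (h i hi).2.2.2.1.trans (h' i hi).2.2.2.1,
    (h i hi).2.2.2.2.trans (h' i hi).2.2.2.2⟩

theorem LEq.mono {w' : ℕ} (h : LEq w L' L) (hw : w' ≤ w) : LEq w' L' L := fun i hi =>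
  h i (lt_of_lt_of_le hi (Nat.pow_le_pow_right (by norm_num) hw))

theorem LEq.pv (h : LEq w L' L) {i : ℕ} (hi : i ≤ 2 ^ w) : L'.pv i = L.pv i := by
  cases i with
  | zero => rfl
  | succ i => exact (h i (by omega)).1

theorem LEq.ps (h : LEq w L' L) (a : A) {i : ℕ} (hi : i ≤ 2 ^ w) : L'.ps a i = L.ps a i := by
  cases i with
  | zero => rfl
  | succ i => exact (h i (by omega)).2.1

theorem LEq.stat {lim : ℕ} (h : LEq w L' L) (hs : LStat L w lim) : LStat L' w lim := by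
  refine ⟨?_, fun i hi => ?_, fun i hi hf => ?_, fun i hi hf => ?_⟩
  · rw [(h 0 (by positivity)).2.2.2.1]
    exact hs.off0
  · rw [h.pv hi.le, (h i hi).1]
    exact hs.srt i hi
  · rw [(h i hi).2.2.2.2] at hf
    obtain ⟨h1, h2⟩ := hs.fin i hi hf
    refine ⟨?_, fun h3 => ?_⟩
    · rw [(h i hi).2.2.1]
      exact h1
    · rw [(h (i + 1) h3).2.2.2.2]
      exact h2 h3
  · rw [(h i hi).2.2.2.2] at hf
    obtain ⟨h1, h2, h3⟩ := hs.run i hi hf
    refine ⟨h1, ?_, ?_⟩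
    · rw [(h (i + 1) h1).2.2.2.1, (h i hi).2.2.2.1, (h i hi).2.2.1, (h i hi).1, h.pv hi.le]
      exact h2
    · rw [(h (i + 1) h1).2.2.2.1]
      exact h3

theorem LEq.trueE {H : HM A} {N : ℕ} (h : LEq w L' L) {i : ℕ} (hi : i < 2 ^ w) :
    TrueE H N L' i ↔ TrueE H N L i := by
  unfold TrueE
  rw [(h i hi).1, (h i hi).2.1]

theorem LEq.avail (h : LEq w L' L) {i τ : ℕ} (hi : i < 2 ^ w) (ha : Avail L i τ) :
    Avail L' i τ := by
  obtain ⟨j, hj, h1, h2, h3⟩ := ha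
  refine ⟨j, hj, ?_, ?_, ?_⟩
  · rw [h.pv (by omega)]
    exact h1
  · rw [(h j (by omega)).1]
    exact h2
  · rw [(h j (by omega)).1, (h j (by omega)).2.2.1]
    exact h3

theorem LEq.trL {H : HM A} {N lim : ℕ} (h : LEq w L' L) (ht : TrL H N L w lim) :
    TrL H N L' w lim := by
  refine ⟨h.stat ht.stat, fun i hi hf => ?_, fun i hi hf hl u h1 h2 h3 h4 => ?_⟩
  · rw [(h i hi).2.2.2.2] at hf
    exact (h.trueE hi).2 (ht.tru i hi hf)
  · rw [(h i hi).2.2.2.2] at hf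
    rw [(h i hi).2.2.1] at hl
    rw [h.pv hi.le] at h1
    rw [(h i hi).1] at h2
    exact h.avail hi (ht.clo i hi hf hl u h1 h2 h3 h4)

theorem LEq.badL {H : HM A} {N lim : ℕ} (h : LEq w L' L) (ht : BadL H N L w lim) :
    BadL H N L' w lim := by
  obtain ⟨hs, i, hi, hf, hl, htr, hb⟩ := ht
  refine ⟨h.stat hs, i, hi, ?_, ?_, fun j hj => ?_, ?_⟩
  · rw [(h i hi).2.2.2.2]
    exact hf
  · rw [(h i hi).2.2.1]
    exact hl
  · exact (h.trueE (by omega)).2 (htr j hj)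
  · rw [h.trueE hi]
    exact hb

theorem LEq.topL {fl acc : A → Bool} (h : LEq w L' L) (ht : TopL fl acc L) : TopL fl acc L' := by
  obtain ⟨h1, h2, h3, h4⟩ := ht
  obtain ⟨-, e2, e3, -, e5⟩ := h 0 (by positivity)
  exact ⟨e5.trans h1, e3.trans h2, by rw [e2]; exact h3, by rw [e2]; exact h4⟩

theorem LEq.conf {H : HM A} {fl : A → Bool} (h : LEq w L' L) {j : ℕ} (hj : j < 2 ^ w) {S : A}
    {u : ℕ} (hc : Conf H fl L j S u) : Conf H fl L' j S u := by
  unfold Conf at hc ⊢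
  rw [h.pv hj.le, (h j hj).1, (h j hj).2.2.1]
  exact hc

theorem LEq.dfL {H : HM A} {fl : A → Bool} {M M' : Lst A} (h : LEq w M L) (h' : LEq w M' L')
    {i j : ℕ} (hd : DfL H fl w L L' i j) : DfL H fl w M M' i j := by
  obtain ⟨hi, hj, h1, h2, h3⟩ := hd
  obtain ⟨e1, e2, e3, e4, e5⟩ := h i hi
  obtain ⟨f1, f2, f3, f4, f5⟩ := h' i hi
  refine ⟨hi, hj, e5.trans h1, e3.trans h2, ?_⟩
  rcases h3 with h3 | ⟨h3, h4, h5, h6, h7, h8⟩
  · left
    rw [h.ps H.a0 hi.le, h.pv hi.le]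
    exact h.conf hj h3
  · right
    refine ⟨fun j' hj' => ?_, f5.trans h4, f3.trans h5, ?_, fun h9 => ?_, fun h9 => ?_⟩
    · obtain ⟨g1, g2, g3, g4, g5⟩ := h j' (by omega)
      obtain ⟨k1, k2, k3, k4, k5⟩ := h' j' (by omega)
      obtain ⟨l1, l2, l3, l4⟩ := h3 j' hj'
      exact ⟨k1.trans (l1.trans g1.symm), k2.trans (l2.trans g2.symm),
        k3.trans (l3.trans g3.symm), k5.trans l4⟩
    · rw [f1, e1]
      exact h6
    · rw [f2, e2]
      rw [f1, e1] at h9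
      exact h7 h9
    · rw [f1, e1] at h9
      rw [f2, f1]
      exact h.conf hj (h8 h9)

theorem ptrOK_congr {q w₁ : ℕ} {R R' : Lst A} {C C' : ℕ → Lst A} (hR : LEq w₁ R' R)
    (hC : ∀ k < 2 ^ q, LEq w (C' k) (C k)) {k i : ℕ} (hk : k < 2 ^ q) (hi : i < 2 ^ w) {x : Bool}
    {e k' i' : ℕ} (h : PtrOK q w₁ w R C k i x e k' i') : PtrOK q w₁ w R' C' k i x e k' i' := by
  intro h1 h2
  obtain ⟨e1, e2, e3, e4, e5⟩ := hC k hk i hi
  rw [e5] at h1
  rw [e3] at h2
  have h3 := h h1 h2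
  by_cases hx : x = true
  · rw [if_pos hx] at h3 ⊢
    obtain ⟨g1, g2, g3, g4⟩ := h3
    obtain ⟨f1, f2, f3, f4, f5⟩ := hR e g1
    exact ⟨g1, f5.trans g2, f1.trans (g3.trans e1.symm), f2.trans (g4.trans e2.symm)⟩
  · rw [if_neg hx] at h3 ⊢
    obtain ⟨g1, g2, g3, g4, g5, g6⟩ := h3
    obtain ⟨f1, f2, f3, f4, f5⟩ := hC k' g1 i' g2
    exact ⟨g1, g2, f5.trans g3, f3.trans g4, f1.trans (g5.trans e1.symm),
      f2.trans (g6.trans e2.symm)⟩

theorem dirOK_congr {q w₁ : ℕ} {R R' : Lst A} {C C' : ℕ → Lst A} (hR : LEq w₁ R' R)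
    (hC : ∀ k < 2 ^ q, LEq w (C' k) (C k)) {e : ℕ} (he : e < 2 ^ w₁) {k i : ℕ}
    (h : DirOK q w R C e k i) : DirOK q w R' C' e k i := by
  intro h1 h2
  obtain ⟨e1, e2, e3, e4, e5⟩ := hR e he
  rw [e5] at h1
  rw [e3] at h2
  obtain ⟨g1, g2, g3, g4, g5, g6⟩ := h h1 h2
  obtain ⟨f1, f2, f3, f4, f5⟩ := hC k g1 i g2
  exact ⟨g1, g2, f5.trans g3, f3.trans g4, f1.trans (g5.trans e1.symm),
    f2.trans (g6.trans e2.symm)⟩

end

end Pool.Agent.NUM
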