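import Pool.Agent.NUM.RTraceRd
import Pool.Agent.NUM.GStr

/-!
# Transcripts as strings: every transcript is in a string; invariance
-/

set_option autoImplicit false

namespace Pool.Agent.NUM

/-- the transcripts agree below `B` -/
def TEq {A : Type} (B : ℕ) (T' T : Trc A) : Prop :=
  T'.x = T.x ∧ ∀ x < B, T'.I x = T.I x ∧ T'.t x = T.t x ∧ T'.W x = T.W x ∧ T'.Rk x = T.Rk x ∧
    T'.Q x = T.Q x ∧ T'.J x = T.J x

/-- bit `r` of field `f` of position `x` of a transcript -/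
private def fldT {h : ℕ} (T : Trc (Fin h → Bool)) (f x r : ℕ) : Bool :=
  match f with
  | 0 => (T.I x).testBit r
  | 1 => if hr : r < h then T.W x ⟨r, hr⟩ else false
  | 2 => (T.Rk x).testBit r
  | 3 => (T.Q x).testBit r
  | 4 => (T.J x).testBit r
  | 5 => (T.t x).testBit r
  | _ => T.x.testBit r

/-- the string with two transcripts -/
private def strT {h : ℕ} (k σ : ℕ) (T : Bool → Trc (Fin h → Bool)) : Inp
  | g :: a => famS 3 (fun f => famS k fun x => famS σ fun r _ => fldT (T g) f x r) a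
  | [] => false

private theorem tbit_strT {h k σ : ℕ} (T : Bool → Trc (Fin h → Bool)) (g : Bool) {f x r : ℕ}
    (hf : f < 8) (hx : x < 2 ^ k) (hr : r < 2 ^ σ) :
    tbit k σ (strT k σ T) g f x r = fldT (T g) f x r := by
  show famS 3 (fun f => famS k fun x => famS σ fun r _ => fldT (T g) f x r)
    (bits 3 f ++ (bits k x ++ bits σ r)) = _
  rw [famS_apply (show f < 2 ^ 3 from hf), famS_apply hx, famS_apply' hr]

/-- two transcripts with bounded numbers are in a string -/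
theorem exists_rdT {h w k b σ : ℕ} (hh : h ≤ 2 ^ σ) (hw : w ≤ 2 ^ σ) (hk : k ≤ 2 ^ σ)
    (hb : b ≤ 2 ^ σ) (T : Bool → Trc (Fin h → Bool)) (h1 : ∀ g, (T g).Bd w (2 ^ k) (2 ^ b)) :
    ∃ v : Inp, ∀ g, TEq (2 ^ k) (rdT h w k b σ v g) (T g) := by
  refine ⟨strT k σ T, fun g => ⟨?_, fun x hx => ⟨?_, ?_, ?_, ?_, ?_, ?_⟩⟩⟩
  · exact num_eq_of_testBit (h1 g).x fun r hr =>
      tbit_strT T g (by norm_num) (Nat.two_pow_pos k) (lt_of_lt_of_le hr hk)
  · exact num_eq_of_testBit ((h1 g).I x) fun r hr =>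
      tbit_strT T g (by norm_num) hx (lt_of_lt_of_le hr hw)
  · exact num_eq_of_testBit ((h1 g).t x) fun r hr =>
      tbit_strT T g (by norm_num) hx (lt_of_lt_of_le hr hb)
  · funext i
    show tbit k σ (strT k σ T) g 1 x i = (T g).W x i
    rw [tbit_strT T g (by norm_num) hx (lt_of_lt_of_le i.2 hh)]
    show (if hr : (i : ℕ) < h then (T g).W x ⟨i, hr⟩ else false) = _
    rw [dif_pos i.2]
  · exact num_eq_of_testBit ((h1 g).Rk x) fun r hr =>
      tbit_strT T g (by norm_num) hx (lt_of_lt_of_le hr hk)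
  · exact num_eq_of_testBit ((h1 g).Q x) fun r hr =>
      tbit_strT T g (by norm_num) hx (lt_of_lt_of_le hr hk)
  · exact num_eq_of_testBit ((h1 g).J x) fun r hr =>
      tbit_strT T g (by norm_num) hx (lt_of_lt_of_le hr hk)

section

variable {A : Type} {M : XM A} {L L' : Lst A} {a0 : A} {κ w B B' : ℕ} {T T' : Trc A}

/-- the conditions at `x` -/
theorem TEq.cnd (hL : LEq w L' L) (h : TEq B T' T) (hT : T.Bd w B B') (hB : 0 < B) (x : ℕ) :
    T'.Cnd M L' a0 κ w x ↔ T.Cnd M L a0 κ w x := by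
  obtain ⟨ex, hall⟩ := h
  have hI : ∀ y < B, T'.I y = T.I y := fun y hy => (hall y hy).1
  have ht : ∀ y < B, T'.t y = T.t y := fun y hy => (hall y hy).2.1
  have hW : ∀ y < B, T'.W y = T.W y := fun y hy => (hall y hy).2.2.1
  have hRk : ∀ y < B, T'.Rk y = T.Rk y := fun y hy => (hall y hy).2.2.2.1
  have hQ : ∀ y < B, T'.Q y = T.Q y := fun y hy => (hall y hy).2.2.2.2.1
  have hJ : ∀ y < B, T'.J y = T.J y := fun y hy => (hall y hy).2.2.2.2.2
  have bI := hT.I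
  have bRk := hT.Rk
  have bQ := hT.Q
  have bJ := hT.J
  have bJ1 : ∀ y, T.J y - 1 < B := fun y => lt_of_le_of_lt (Nat.sub_le _ _) (hT.J y)
  have bx := hT.x
  have lf : ∀ i < 2 ^ w, L'.fin i = L.fin i := fun i hi => (hL i hi).2.2.2.2
  have ll : ∀ i < 2 ^ w, L'.lb i = L.lb i := fun i hi => (hL i hi).2.2.1
  have lt : ∀ i < 2 ^ w, L'.tm i = L.tm i := fun i hi => (hL i hi).1
  have ls : ∀ i < 2 ^ w, L'.st i = L.st i := fun i hi => (hL i hi).2.1
  by_cases hx : x < B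
  · have hx1 : x - 1 < B := lt_of_le_of_lt (Nat.sub_le _ _) hx
    by_cases hx2 : x + 1 < B
    · simp only [Trc.Cnd, Trc.At, Trc.Pos, Trc.Sta, Trc.ArrAt, Trc.Hit, ex, hI, ht, hW, hRk, hQ,
        hJ, bI, bRk, bQ, bJ, bJ1, lf, ll, lt, ls, hx, hx1, hx2, hB]
    · have hx3 : ¬ x + 1 < T.x := by omega
      simp only [Trc.Cnd, Trc.At, Trc.Pos, Trc.Sta, Trc.ArrAt, Trc.Hit, ex, hI, ht, hW, hRk, hQ,
        hJ, bI, bRk, bQ, bJ, bJ1, lf, ll, lt, ls, hx, hx1, hx3, hB, false_imp_iff]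
  · have hx4 : ¬ x ≤ T.x := by omega
    have hx5 : ¬ x < T.x := by omega
    simp only [Trc.Cnd, ex, ht, hW, hB, hx4, hx5, false_imp_iff]

/-- the conditions depend only on the entries below `2 ^ k` of the transcript and below `2 ^ w` of the
list -/
theorem TEq.ok (hL : LEq w L' L) (h : TEq B T' T) (hT : T.Bd w B B') (hB : 0 < B) :
    (T.OK M L a0 κ w ↔ T'.OK M L' a0 κ w) ∧ (T.Fail1 M L κ ↔ T'.Fail1 M L' κ) ∧
    ((∀ x, T.Run M L κ x) ↔ ∀ x, T'.Run M L' κ x) := by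
  refine ⟨forall_congr' fun x => (h.cnd hL hT hB x).symm, ?_, ?_⟩
  all_goals
    obtain ⟨ex, hall⟩ := h
    have hI : ∀ y < B, T'.I y = T.I y := fun y hy => (hall y hy).1
    have ht : ∀ y < B, T'.t y = T.t y := fun y hy => (hall y hy).2.1
    have hW : ∀ y < B, T'.W y = T.W y := fun y hy => (hall y hy).2.2.1
    have bI := hT.I
    have bx := hT.x
    have bx1 : T.x - 1 < B := lt_of_le_of_lt (Nat.sub_le _ _) bx
    have ll : ∀ i < 2 ^ w, L'.lb i = L.lb i := fun i hi => (hL i hi).2.2.1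
    have lt : ∀ i < 2 ^ w, L'.tm i = L.tm i := fun i hi => (hL i hi).1
    have ls : ∀ i < 2 ^ w, L'.st i = L.st i := fun i hi => (hL i hi).2.1
    have h0 : 0 < 2 ^ w := Nat.two_pow_pos w
  · simp only [Trc.Fail1, ex, hI, ht, hW, bI, bx, bx1, ll, lt, ls]
  · refine forall_congr' fun x => ?_
    by_cases hx : x < B
    · simp only [Trc.Run, ex, hI, hW, bx, ll, h0, hx]
    · have hx5 : ¬ x < T.x := by omega
      simp only [Trc.Run, ex, hI, hW, bx, ll, h0, hx5, false_imp_iff]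

theorem TEq.fail2 {T₁ T₁' T₂ T₂' : Trc A} (hL : LEq w L' L) (h₁ : TEq B T₁' T₁)
    (h₂ : TEq B T₂' T₂) (hT₁ : T₁.Bd w B B') (hT₂ : T₂.Bd w B B') :
    T₁.Fail2 M L κ T₂ ↔ T₁'.Fail2 M L' κ T₂' := by
  obtain ⟨ex, hall⟩ := h₁
  obtain ⟨ex', hall'⟩ := h₂
  have hI : ∀ y < B, T₁'.I y = T₁.I y := fun y hy => (hall y hy).1
  have ht : ∀ y < B, T₁'.t y = T₁.t y := fun y hy => (hall y hy).2.1
  have hW : ∀ y < B, T₁'.W y = T₁.W y := fun y hy => (hall y hy).2.2.1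
  have ht' : ∀ y < B, T₂'.t y = T₂.t y := fun y hy => (hall' y hy).2.1
  have hW' : ∀ y < B, T₂'.W y = T₂.W y := fun y hy => (hall' y hy).2.2.1
  have bI := hT₁.I
  have bx := hT₁.x
  have bx' := hT₂.x
  have bx1 : T₁.x - 1 < B := lt_of_le_of_lt (Nat.sub_le _ _) bx
  have ll : ∀ i < 2 ^ w, L'.lb i = L.lb i := fun i hi => (hL i hi).2.2.1
  simp only [Trc.Fail2, ex, ex', hI, ht, hW, ht', hW', bI, bx, bx', bx1, ll]

end

/-- transcripts with numbers of `k` bits: it is enough to check below `2 ^ k` -/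
theorem Trc.ok_iff {A : Type} {M : XM A} {L : Lst A} {a0 : A} {κ w k : ℕ} {T : Trc A}
    (hx : T.x < 2 ^ k) : T.OK M L a0 κ w ↔ ∀ x < 2 ^ k, T.Cnd M L a0 κ w x := by
  refine ⟨fun h x _ => h x, fun h x => ?_⟩
  rcases Nat.lt_or_ge x (2 ^ k) with h1 | h1
  · exact h x h1
  · obtain ⟨h2, h3, h4, -, -⟩ := h 0 (Nat.two_pow_pos k)
    exact ⟨h2, h3, h4, fun _ h5 => absurd h5 (by omega), fun h5 => absurd h5 (by omega)⟩

end Pool.Agent.NUM
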