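import Pool.Agent.NUM.RTraceDef

/-!
# Transcripts: soundness
-/

set_option autoImplicit false

namespace Pool.Agent.NUM

variable {A : Type} {M : XM A} {X : ℕ → A} {sc : ℕ → ℕ} {N : ℕ} {L L' : Lst A} {κ w lim : ℕ}

theorem KLt.trans' {a t a' t' a'' t'' : ℕ} (h : KLt a t a' t') (h' : KLt a' t' a'' t'') :
    KLt a t a'' t'' := by
  unfold KLt at *
  omega

namespace Trc.OK

variable {T : Trc A} {a0 : A}

theorem x_pos (hOK : T.OK M L a0 κ w) : 1 ≤ T.x := (hOK 0).1

theorem t_zero (hOK : T.OK M L a0 κ w) : T.t 0 = 0 := (hOK 0).2.1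

theorem W_zero (hOK : T.OK M L a0 κ w) : T.W 0 = a0 := (hOK 0).2.2.1

theorem at_pos (hOK : T.OK M L a0 κ w) {x : ℕ} (h1 : 1 ≤ x) (h2 : x ≤ T.x) :
    T.At M L a0 κ w x := (hOK x).2.2.2.1 h1 h2

theorem arr (hOK : T.OK M L a0 κ w) {j : ℕ} (h : j < T.x) : T.ArrAt M j := (hOK j).2.2.2.2 h

/-- the first facts about the positions -/
theorem pos' (hOK : T.OK M L a0 κ w) (hsrt : ∀ i < 2 ^ w, L.pv i < L.tm i) :
    ∀ x, 1 ≤ x → x ≤ T.x → T.I x < 2 ^ w ∧
      L.fin (T.I x) = false ∧ L.pv (T.I x) < T.t x ∧ T.t x ≤ L.tm (T.I x) ∧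
      (L.lb (T.I x) = κ ∨ T.t x = L.tm (T.I x)) ∧
      (L.lb (T.I x) = κ → T.t x = T.t (x - 1) + 1) ∧ L.pv (T.I x) ≤ T.t (x - 1) ∧
      T.t (x - 1) < T.t x := by
  intro x
  induction x with
  | zero =>
    intro h
    omega
  | succ x ih =>
    intro h1 h2
    have hP := (hOK.at_pos h1 h2).1
    unfold Trc.Pos at hP
    rw [show x + 1 - 1 = x by omega] at hP ⊢
    obtain ⟨hI, hf, hc⟩ := hP
    have hs := hsrt _ hI
    refine ⟨hI, hf, ?_⟩
    rcases hc with ⟨h3, h4, h5, h6, h7⟩ | ⟨h3, h4, h5⟩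
    · obtain ⟨_, _, g1, _, _, _, _, _⟩ := ih (by omega) (by omega)
      rw [← h4] at g1
      exact ⟨by omega, by omega, Or.inl h5, fun _ => h7, by omega, by omega⟩
    · have hpv : L.pv (T.I (x + 1)) = T.t x := by
        rcases h3 with ⟨g1, g2⟩ | ⟨g1, g2, g3⟩
        · rw [g2, show x = 0 by omega, hOK.t_zero]
          rfl
        · rw [g2, g3]
          rfl
      by_cases hl : L.lb (T.I (x + 1)) = κ
      · have h6 := h4 hl
        exact ⟨by omega, by omega, Or.inl hl, fun _ => h6, by omega, by omega⟩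
      · have h6 := h5 hl
        exact ⟨by omega, by omega, Or.inr h6, fun h => absurd h hl, by omega, by omega⟩

theorem t_lt (hOK : T.OK M L a0 κ w) (hsrt : ∀ i < 2 ^ w, L.pv i < L.tm i) {x y : ℕ}
    (hxy : x < y) (hy : y ≤ T.x) : T.t x < T.t y := by
  induction y with
  | zero => omega
  | succ y ih =>
    have h1 : T.t (y + 1 - 1) < T.t (y + 1) := (hOK.pos' hsrt (y + 1) (by omega) hy).2.2.2.2.2.2.2
    rw [show y + 1 - 1 = y by omega] at h1
    rcases Nat.lt_or_ge x y with h2 | h2
    · have := ih h2 (by omega)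
      omega
    · rw [show x = y by omega]
      exact h1

theorem tm_mono (hsrt : ∀ i < 2 ^ w, L.pv i < L.tm i) {i j : ℕ} (hij : i ≤ j)
    (hj : j < 2 ^ w) : L.tm i ≤ L.tm j := by
  induction j with
  | zero => rw [show i = 0 by omega]
  | succ j ih =>
    rcases Nat.lt_or_ge i (j + 1) with h1 | h1
    · have h2 := ih (by omega) (by omega)
      have h3 : L.tm j < L.tm (j + 1) := hsrt (j + 1) hj
      omega
    · rw [show i = j + 1 by omega]

/-- the available times have positions -/
theorem cover (hOK : T.OK M L a0 κ w) (hsrt : ∀ i < 2 ^ w, L.pv i < L.tm i) {s : ℕ} :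
    ∀ x, 1 ≤ x → x ≤ T.x → s ≤ T.t x → AvailK L κ (T.I x) s → ∃ y, 1 ≤ y ∧ y ≤ x ∧ T.t y = s := by
  intro x
  induction x with
  | zero =>
    intro h
    omega
  | succ x ih =>
    intro h1 h2 h3 h4
    by_cases h5 : s = T.t (x + 1)
    · exact ⟨x + 1, h1, le_rfl, h5.symm⟩
    have hP := (hOK.at_pos h1 h2).1
    unfold Trc.Pos at hP
    rw [show x + 1 - 1 = x by omega] at hP
    obtain ⟨hI, hf, hc⟩ := hP
    obtain ⟨j, hj1, hj2, hj3, hj4⟩ := h4
    rcases hc with ⟨g1, g2, g3, g4, g5⟩ | ⟨g1, g2, g3⟩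
    · obtain ⟨y, e1, e2, e3⟩ := ih (by omega) (by omega) (by omega) ⟨j, by omega, hj2, hj3, hj4⟩
      exact ⟨y, e1, by omega, e3⟩
    · rcases g1 with ⟨e1, e2⟩ | ⟨e1, e2, e3⟩
      · exfalso
        obtain rfl : j = 0 := by omega
        rw [e2] at g2 g3
        have hx0 : x = 0 := by omega
        subst hx0
        rw [hOK.t_zero] at g2
        have hj2' : 0 < s := hj2
        by_cases hl : L.lb 0 = κ
        · have := g2 hl
          omega
        · have := g3 hl
          rcases hj4 with h | h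
          · omega
          · exact hl h
      · rcases Nat.lt_or_ge j (T.I (x + 1)) with h6 | h6
        · have h7 : L.tm j ≤ L.tm (T.I x) := tm_mono hsrt (by omega) (by omega)
          obtain ⟨y, f1, f2, f3⟩ := ih (by omega) (by omega) (by omega) ⟨j, by omega, hj2, hj3, hj4⟩
          exact ⟨y, f1, by omega, f3⟩
        · exfalso
          obtain rfl : j = T.I (x + 1) := by omega
          have hpv : L.pv (T.I (x + 1)) = T.t x := by
            rw [e2, e3]
            rfl
          by_cases hl : L.lb (T.I (x + 1)) = κ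
          · have := g2 hl
            omega
          · have := g3 hl
            rcases hj4 with h | h
            · omega
            · exact hl h

/-- the array is sorted -/
theorem sorted (hOK : T.OK M L a0 κ w) {i j : ℕ} (hij : i < j) (hj : j < T.x) :
    KLt (M.wad (T.W (T.Q i))) (T.t (T.Q i)) (M.wad (T.W (T.Q j))) (T.t (T.Q j)) := by
  induction j with
  | zero => omega
  | succ j ih =>
    have h1 := (hOK.arr (show j < T.x by omega)).2.2 (by omega)
    rcases Nat.lt_or_ge i j with h2 | h2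
    · exact (ih h2 (by omega)).trans' h1
    · rw [show i = j by omega]
      exact h1

end Trc.OK

/-- own positions: the number of the step in which the record was stored -/
theorem Trc.OK.pos {T : Trc A} (hOK : T.OK M L (X 0) κ w)
    (hsrt : ∀ i < 2 ^ w, L.pv i < L.tm i) : ∀ x, 1 ≤ x → x ≤ T.x → T.I x < 2 ^ w ∧
      L.fin (T.I x) = false ∧ L.pv (T.I x) < T.t x ∧ T.t x ≤ L.tm (T.I x) ∧
      (L.lb (T.I x) = κ ∨ T.t x = L.tm (T.I x)) ∧
      (L.lb (T.I x) = κ → T.t x = T.t (x - 1) + 1) := by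
  intro x h1 h2
  obtain ⟨g1, g2, g3, g4, g5, g6, _, _⟩ := hOK.pos' hsrt x h1 h2
  exact ⟨g1, g2, g3, g4, g5, g6⟩

/-- a right transcript contains the true states, as long as the entries used are true and the reads
are available -/
theorem Trc.OK.sound {T : Trc A} (hrun : XRun M X sc) (hsrt : ∀ i < 2 ^ w, L.pv i < L.tm i)
    (hOK : T.OK M L (X 0) κ w) {τ : ℕ}
    (htr : ∀ i < 2 ^ w, L.fin i = false → L.lb i ≠ κ → L.tm i ≤ τ → L.st i = X (L.tm i))
    (hclo : CloK sc L κ w τ) :
    ∀ x ≤ T.x, T.t x ≤ τ → T.W x = X (T.t x) := by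
  intro x
  induction x using Nat.strong_induction_on with
  | _ x ih =>
    intro hx hτ
    rcases Nat.eq_zero_or_pos x with rfl | hx0
    · rw [hOK.W_zero, hOK.t_zero]
    obtain ⟨hP, hS, hR1, hR2⟩ := hOK.at_pos hx0 hx
    obtain ⟨g1, g2, g3, g4, g5, g6, g7, g8⟩ := hOK.pos' hsrt x hx0 hx
    unfold Trc.Sta at hS
    obtain ⟨hS1, hS2⟩ := hS
    by_cases hl : L.lb (T.I x) = κ
    swap
    · have h1 : T.t x = L.tm (T.I x) := by
        rcases g5 with h | h
        · exact absurd h hl
        · exact h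
      rw [hS1 hl, h1]
      exact htr _ g1 g2 hl (by omega)
    · obtain ⟨s1, s2, s3, s4, s5⟩ := hS2 hl
      have ht := g6 hl
      have hW : T.W (x - 1) = X (T.t (x - 1)) := ih (x - 1) (by omega) (by omega) (by omega)
      -- facts about positions with a smaller time
      have hlt : ∀ y, y ≤ T.x → T.t y < T.t x → y < x := by
        intro y hy h
        by_contra hcon
        rcases Nat.lt_or_ge x y with h2 | h2
        · have := hOK.t_lt hsrt h2 hy
          omega
        · obtain rfl : x = y := by omega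
          omega
      have hWy : ∀ y, y ≤ T.x → T.t y < T.t x → T.W y = X (T.t y) := by
        intro y hy h
        exact ih y (hlt y hy h) hy (by omega)
      have hlast : ∀ y, y ≤ T.x → T.t y < T.t x → M.wad (T.W y) = M.rad (T.W (x - 1)) →
          T.t y ≤ sc (T.t (x - 1)) := by
        intro y hy h h2
        by_contra hcon
        refine hrun.last (T.t (x - 1)) (T.t y) (by omega) (by omega) ?_
        rw [← hWy y hy h, ← hW]
        exact h2
      have hX := hrun.step (T.t (x - 1))
      rw [← ht] at hX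
      rcases Nat.eq_zero_or_pos (sc (T.t (x - 1))) with h0 | h0
      · -- nothing was stored
        have hnh : ¬ T.Hit M x := by
          rintro ⟨e1, e2⟩
          obtain ⟨f1, f2, _⟩ := hOK.arr (show T.J x - 1 < T.x by omega)
          have hk := s3 e1
          unfold KLt at hk
          have h3 : T.t (T.Q (T.J x - 1)) < T.t x := by omega
          have h4 := hlast _ f2 h3 e2
          have h5 := hOK.t_lt hsrt (show 0 < T.Q (T.J x - 1) by omega) f2
          omega
        rw [s5 hnh, hX, h0, hW]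
      · have hsl := hrun.le (T.t (x - 1))
        have hav : AvailK L κ (T.I x) (sc (T.t (x - 1))) :=
          hclo _ g1 g2 hl (T.t (x - 1)) g7 (by omega) (by omega) h0
        obtain ⟨y, y1, y2, y3⟩ := hOK.cover hsrt x hx0 hx (by omega) hav
        have hyx : T.t y < T.t x := by omega
        have hy := hWy y (by omega) hyx
        have hwy : M.wad (T.W y) = M.rad (T.W (x - 1)) := by
          rw [hy, hW, y3]
          exact hrun.src _ h0
        obtain ⟨_, _, r1, r2⟩ := hOK.at_pos y1 (show y ≤ T.x by omega)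
        -- the rank of `y` is before the insertion point
        have hrJ : T.Rk y < T.J x := by
          by_contra hcon
          have h6 : T.J x < T.x := by omega
          have h7 := s2 h6
          have h8 : KLt (M.wad (T.W (T.Q (T.Rk y)))) (T.t (T.Q (T.Rk y))) (M.rad (T.W (x - 1)))
              (T.t x) := by
            rw [r2]
            right
            exact ⟨hwy, hyx⟩
          rcases Nat.lt_or_ge (T.J x) (T.Rk y) with h9 | h9
          · exact h7 ((hOK.sorted h9 r1).trans' h8)
          · rw [show T.J x = T.Rk y by omega] at h7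
            exact h7 h8
        have hJ0 : 0 < T.J x := by omega
        have hk := s3 hJ0
        obtain ⟨f1, f2, _⟩ := hOK.arr (show T.J x - 1 < T.x by omega)
        have hkey : M.wad (T.W (T.Q (T.J x - 1))) = M.rad (T.W (x - 1)) ∧
            T.t y ≤ T.t (T.Q (T.J x - 1)) ∧ T.t (T.Q (T.J x - 1)) < T.t x := by
          rcases Nat.lt_or_ge (T.Rk y) (T.J x - 1) with h9 | h9
          · have h10 := hOK.sorted h9 (show T.J x - 1 < T.x by omega)
            rw [r2] at h10
            unfold KLt at h10 hk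
            omega
          · have h11 : T.Q (T.J x - 1) = y := by
              rw [show T.J x - 1 = T.Rk y by omega]
              exact r2
            rw [h11]
            exact ⟨hwy, le_rfl, hyx⟩
        obtain ⟨k1, k2, k3⟩ := hkey
        have h12 := hlast _ f2 k3 k1
        have h13 : T.t (T.Q (T.J x - 1)) = sc (T.t (x - 1)) := by omega
        rw [s4 ⟨hJ0, k1⟩, hX, hWy _ f2 k3, h13, hW]

/-- true pairs do not fail -/
theorem TrR.not_fail {T T' : Trc A} (hrun : XRun M X sc)
    (hsrx : ∀ S R p, p ≤ N → M.srx (M.xs S R p) = p) (hfl : ∀ m ≤ N, (M.fl (X m) = true ↔ m = N))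
    (h : TrR X sc N L w lim) (h' : TrR X sc N L' w lim) (hOK : T.OK M L (X 0) 1 w) :
    ¬ (T.Fail1 M L 1 ∨ (T.Fail2 M L 1 T' ∧ T'.OK M L' (X 0) 1 w)) := by
  have hW : ∀ {T : Trc A} {L : Lst A}, TrR X sc N L w lim → T.OK M L (X 0) 1 w →
      T.t T.x ≤ N ∧ ∀ x ≤ T.x, T.W x = X (T.t x) := by
    intro T L h hOK
    have hsrt := h.stat.srt
    have hx := hOK.x_pos
    obtain ⟨g1, g2, _, g4, _, _, _, _⟩ := hOK.pos' hsrt T.x hx le_rfl
    have h1 : T.t T.x ≤ N := by
      have := (h.tru _ g1 g2).1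
      omega
    refine ⟨h1, fun x hxT => ?_⟩
    refine hOK.sound hrun hsrt (τ := N) (fun i hi hf _ _ => (h.tru i hi hf).2) ?_ x hxT ?_
    · intro i hi hf hl u e1 e2 _ e3
      exact h.clo i hi hf hl u e1 e2 e3
    · rcases Nat.lt_or_ge x T.x with h3 | h3
      · have := hOK.t_lt hsrt h3 le_rfl
        omega
      · rw [show x = T.x by omega]
        exact h1
  have hx := hOK.x_pos
  obtain ⟨h1, h2⟩ := hW h hOK
  obtain ⟨g1, g2, g3, g4, g5, g6, g7, g8⟩ := hOK.pos' h.stat.srt T.x hx le_rfl
  rintro (⟨e1, e2⟩ | ⟨⟨e1, e2, e3, e4⟩, hOK'⟩)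
  · rcases e2 with e2 | ⟨e2, e3⟩
    · rw [h2 (T.x - 1) (by omega), hfl _ (by omega)] at e2
      omega
    · apply e3
      rw [h2 T.x le_rfl, e2]
      exact ((h.tru _ g1 g2).2).symm
  · obtain ⟨h1', h2'⟩ := hW h' hOK'
    have ht := g6 e1
    have hle := hrun.le (T.t (T.x - 1))
    rw [h2 T.x le_rfl, ht, hrun.step, hsrx _ _ _ (by omega)] at e4
    rw [h2' T'.x le_rfl, h2 (T.x - 1) (by omega)] at e2
    exact hrun.last _ _ e4 (by omega) e2

/-- the transcript of the whole run -/
theorem Trc.OK.run {T : Trc A} (hrun : XRun M X sc)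
    (hfl : ∀ m ≤ N, (M.fl (X m) = true ↔ m = N)) (hN : 0 < N)
    (hOK : T.OK M L (X 0) κ w) (hR : ∀ x, T.Run M L κ x) : M.acc (X N) = true := by
  obtain ⟨r1, r2, r3, r4, _⟩ := hR 0
  -- all positions are in segment `0`
  have hI : ∀ d x, 1 ≤ x → x + d = T.x → T.I x = 0 := by
    intro d
    induction d with
    | zero =>
      intro x _ hx
      rw [show x = T.x by omega]
      exact r2
    | succ d ih =>
      intro x hx1 hx
      have h1 := ih (x + 1) (by omega) (by omega)
      have hP := (hOK.at_pos (show 1 ≤ x + 1 by omega) (by omega)).1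
      unfold Trc.Pos at hP
      rw [show x + 1 - 1 = x by omega] at hP
      obtain ⟨_, _, hc⟩ := hP
      rcases hc with ⟨_, g2, _⟩ | ⟨⟨g1, _⟩ | ⟨_, g2, _⟩, _⟩
      · omega
      · omega
      · omega
  have hI0 : ∀ x, 1 ≤ x → x ≤ T.x → T.I x = 0 := fun x h1 h2 => hI (T.x - x) x h1 (by omega)
  -- the list with one segment
  let L1 : Lst A :=
    { tm := fun k => max 1 (L.tm 0) + k
      st := L.st
      lb := L.lb
      off := L.off
      fin := fun k => if k = 0 then L.fin 0 else true }
  have hsrt : ∀ i < 2 ^ w, L1.pv i < L1.tm i := by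
    intro i _
    cases i with
    | zero =>
      show 0 < max 1 (L.tm 0) + 0
      have := le_max_left 1 (L.tm 0)
      omega
    | succ i =>
      show max 1 (L.tm 0) + i < max 1 (L.tm 0) + (i + 1)
      omega
  have hOK1 : T.OK M L1 (X 0) κ w := by
    intro x
    obtain ⟨c1, c2, c3, c4, c5⟩ := hOK x
    refine ⟨c1, c2, c3, fun h1 h2 => ?_, c5⟩
    obtain ⟨d1, d2, d3⟩ := c4 h1 h2
    have hx0 := hI0 x h1 h2
    refine ⟨?_, d2, d3⟩
    unfold Trc.Pos at d1 ⊢
    rw [hx0] at d1 ⊢
    obtain ⟨e1, e2, e3⟩ := d1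
    refine ⟨e1, ?_, ?_⟩
    · show (if (0 : ℕ) = 0 then L.fin 0 else true) = false
      rw [if_pos rfl]
      exact e2
    · rcases e3 with ⟨g1, g2, g3, g4, g5⟩ | ⟨g1, g2, g3⟩
      · left
        refine ⟨g1, g2, g3, ?_, g5⟩
        show T.t (x - 1) < max 1 (L.tm 0) + 0
        have := le_max_right 1 (L.tm 0)
        omega
      · right
        refine ⟨?_, g2, fun h => absurd r1 h⟩
        rcases g1 with g1 | ⟨_, g1, _⟩
        · exact Or.inl g1
        · omega
  have ht : ∀ x ≤ T.x, T.t x = x := by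
    intro x
    induction x with
    | zero =>
      intro _
      exact hOK.t_zero
    | succ x ih =>
      intro hx
      have h1 := (hOK1.pos' hsrt (x + 1) (by omega) hx).2.2.2.2.2.1
        (by rw [hI0 (x + 1) (by omega) hx]; exact r1)
      rw [show x + 1 - 1 = x by omega, ih (by omega)] at h1
      exact h1
  have hW : ∀ x ≤ T.x, T.W x = X x := by
    intro x hx
    have h1 := hOK1.sound hrun hsrt (τ := T.x) ?_ ?_ x hx (by rw [ht x hx]; exact hx)
    · rw [h1, ht x hx]
    · intro i _ hf hl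
      exfalso
      by_cases hi : i = 0
      · rw [hi] at hl
        exact hl r1
      · have hf' : (if i = 0 then L.fin 0 else true) = false := hf
        rw [if_neg hi] at hf'
        cases hf'
    · intro i _ hf hl u _ e2 _ e4
      by_cases hi : i = 0
      · subst hi
        refine ⟨0, le_rfl, e4, ?_, Or.inr r1⟩
        have := hrun.le u
        omega
      · exfalso
        have hf' : (if i = 0 then L.fin 0 else true) = false := hf
        rw [if_neg hi] at hf'
        cases hf'
  have hTN : T.x = N := by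
    rcases Nat.lt_or_ge N T.x with h1 | h1
    · exfalso
      have h2 := (hR N).2.2.2.2 hN h1
      rw [hW N (by omega)] at h2
      have h3 := (hfl N le_rfl).2 rfl
      rw [h2] at h3
      cases h3
    · rw [hW T.x le_rfl] at r3
      exact (hfl _ h1).1 r3
  rw [hW T.x le_rfl, hTN] at r4
  exact r4

end Pool.Agent.NUM
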