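import Pool.Agent.NUM.RTraceC
import Pool.Agent.NUM.RTraceS

/-!
# Stale pairs of lists fail
-/

set_option autoImplicit false

namespace Pool.Agent.NUM

variable {A : Type} {M : XM A} {X : ℕ → A} {sc : ℕ → ℕ} {N : ℕ} {L L' : Lst A} {κ w lim : ℕ}

/-- the segments of the positions are increasing -/
theorem Trc.OK.mono_I {T : Trc A} {a0 : A} (hOK : T.OK M L a0 κ w) {x y : ℕ} (hx : 1 ≤ x)
    (hxy : x ≤ y) (hy : y ≤ T.x) : T.I x ≤ T.I y := by
  induction y, hxy using Nat.le_induction with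
  | base => exact le_rfl
  | succ y h1 ih =>
    refine (ih (by omega)).trans ?_
    obtain ⟨⟨_, _, h2⟩, _⟩ := (hOK (y + 1)).2.2.2.1 (by omega) hy
    simp only [Nat.add_sub_cancel] at h2
    rcases h2 with h2 | ⟨h2 | h2, _⟩
    · rw [h2.2.1]
    · omega
    · rw [h2.2.1]
      omega

/-- the times of the positions are strictly increasing -/
theorem Trc.OK.lt_t {T : Trc A} {a0 : A} (hOK : T.OK M L a0 κ w)
    (hsrt : ∀ i < 2 ^ w, L.pv i < L.tm i) {x : ℕ} (hx : 1 ≤ x) (hxT : x ≤ T.x) :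
    T.t (x - 1) < T.t x := by
  obtain ⟨⟨h1, _, h2⟩, _⟩ := (hOK x).2.2.2.1 hx hxT
  rcases h2 with h2 | ⟨h2, h3, h4⟩
  · rw [h2.2.2.2.2]
    omega
  · by_cases h5 : L.lb (T.I x) = κ
    · rw [h3 h5]
      omega
    · rw [h4 h5]
      have h6 := hsrt _ h1
      rcases h2 with h2 | h2
      · rw [h2.1, (hOK 0).2.1]
        rw [h2.1] at h6
        omega
      · rw [h2.2.2]
        rw [h2.2.1] at h6 ⊢
        exact h6

theorem Trc.OK.lt_t_of {T : Trc A} {a0 : A} (hOK : T.OK M L a0 κ w)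
    (hsrt : ∀ i < 2 ^ w, L.pv i < L.tm i) {x y : ℕ} (hxy : x < y) (hy : y ≤ T.x) :
    T.t x < T.t y := by
  induction y, hxy using Nat.le_induction with
  | base =>
    have := hOK.lt_t hsrt (show 1 ≤ x + 1 by omega) hy
    simpa using this
  | succ y h1 ih =>
    have h2 := hOK.lt_t hsrt (show 1 ≤ y + 1 by omega) hy
    simp only [Nat.add_sub_cancel] at h2
    exact (ih (by omega)).trans h2

/-- stale pairs fail -/
theorem Stale.exists_fail (hrun : XRun M X sc)
    (hsrx : ∀ S R p, p ≤ N → M.srx (M.xs S R p) = p)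
    (h : Stale X sc N L L' w lim) {B' : ℕ} (hB : ∀ i < 2 ^ w, L.tm i < B')
    (hB' : ∀ i < 2 ^ w, L'.tm i < B') :
    ∃ T T' : Trc A, T.OK M L (X 0) 1 w ∧ T'.OK M L' (X 0) 1 w ∧ T.Bd w lim B' ∧
      T'.Bd w lim B' ∧ T.Fail2 M L 1 T' := by
  have hst := h.stat
  have hst' := h.stat'
  obtain ⟨i, hi, u, hf, hl, h1, h2, h3, h4, h5, h6, h7, h8⟩ := h.bad
  obtain ⟨T, hT, hTI, hTt, hTB⟩ := exists_trc (κ := 1) M (X 0) hst.srt hi
    (fun j hj => hst.nfin hj hi hf) (τ := u + 1) (by omega) (by omega) (Or.inl hl)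
    (hst.nAv_le hi hf) (hB i hi)
  obtain ⟨i', hi', hf', g1, g2, g3, g4, g5⟩ := h8
  obtain ⟨T', hT', hTI', hTt', hTB'⟩ := exists_trc (κ := 1) M (X 0) hst'.srt hi'
    (fun j hj => hst'.nfin hj hi' hf') g1 g2 (g4.imp id fun h => h.1)
    (hst'.nAv_le hi' hf') (hB' i' hi')
  refine ⟨T, T', hT, hT', hTB, hTB', ?_⟩
  have hT1 : 1 ≤ T.x := (hT 0).1
  have hT1' : 1 ≤ T'.x := (hT' 0).1
  obtain ⟨-, -, -, -, -, p6⟩ := hT.pos hst.srt T.x hT1 le_rfl
  have e1 : T.t (T.x - 1) = u := by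
    have := p6 (by rw [hTI]; exact hl)
    omega
  have htr : ∀ j < 2 ^ w, L.fin j = false → L.lb j ≠ 1 → L.tm j ≤ u → L.st j = X (L.tm j) := by
    intro j hj _ _ h9
    have h10 : j < i := by
      by_contra hcon
      have := hst.mono_tm (show i ≤ j by omega) hj
      omega
    exact (h4 j h10).2
  have s1 := hT.sound hrun hst.srt htr (cloTo_iff.1 h5)
  have htr' : ∀ j < 2 ^ w, L'.fin j = false → L'.lb j ≠ 1 → L'.tm j ≤ sc u →
      L'.st j = X (L'.tm j) := by
    intro j hj _ h9 h10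
    rcases Nat.lt_trichotomy j i' with h11 | h11 | h11
    · exact (g3 j h11).2
    · subst h11
      exact (g4.resolve_left h9).2.2
    · have := hst'.tm_lt h11 hj
      omega
  have s2 := hT'.sound hrun hst'.srt htr' (cloTo_iff.1 g5)
  have e2 : T'.W T'.x = X (sc u) := by
    rw [s2 T'.x le_rfl (by omega), hTt']
  have e3 : T.W (T.x - 1) = X u := by
    rw [s1 (T.x - 1) (by omega) (by omega), e1]
  refine ⟨by rw [hTI]; exact hl, ?_, ?_, ?_⟩
  · rw [e2, e3]
    exact hrun.src u h6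
  · rw [hTt, hTt']
    have := hrun.le u
    omega
  · rw [hTt']
    obtain ⟨_, ⟨_, h9⟩, _⟩ := (hT T.x).2.2.2.1 hT1 le_rfl
    obtain ⟨h10, _, h11, h12, h13⟩ := h9 (by rw [hTI]; exact hl)
    by_cases h14 : T.Hit M T.x
    · rw [h12 h14]
      obtain ⟨h15, h16⟩ := h14
      have h17 := h11 h15
      obtain ⟨q1, q2, -⟩ := (hT (T.J T.x - 1)).2.2.2.2 (by omega)
      set q := T.Q (T.J T.x - 1) with hq
      have h18 : T.t q ≤ u := by
        unfold KLt at h17
        omega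
      rw [hsrx _ _ _ (by omega)]
      have e4 : T.W q = X (T.t q) := s1 q q2 h18
      have h19 : T.t q ≤ sc u := by
        by_contra hcon
        refine hrun.last u (T.t q) (by omega) h18 ?_
        rw [← e4, ← e3]
        exact h16
      have h20 : T.t q ≠ sc u := by
        intro hcon
        obtain ⟨r1, r2, r3, r4, r5, -⟩ := hT.pos hst.srt q q1 q2
        refine h7 ⟨T.I q, ?_, ?_, ?_, ?_⟩
        · rw [← hTI]
          exact hT.mono_I q1 q2 le_rfl
        · rw [← hcon]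
          exact r3
        · rw [← hcon]
          exact r4
        · rw [← hcon]
          exact r5.symm
      omega
    · rw [h13 h14, hsrx _ _ _ (Nat.zero_le _)]
      exact h6

end Pool.Agent.NUM
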