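import Pool.Agent.NUM.RTraceF1
import Pool.Agent.NUM.RTraceF2
import Pool.Agent.NUM.RTStr
import Pool.Agent.NUM.RTCode
import Pool.Agent.NUM.RLoop
import Pool.Agent.NUM.RPar

/-!
# Theorem H(γ) for random access machines: transcripts as certificates at the base level
-/

set_option autoImplicit false

namespace Pool.Agent.NUM

open Filter

theorem trc_idem (n : ℕ) (y : Inp) : trc n (trc n y) = trc n y := by
  funext a
  unfold trc
  split <;> simp_all

theorem base_sq (x : ℕ) : x ≤ 100 * (x + 10) ^ 2 :=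
  calc x ≤ x + 10 := Nat.le_add_right _ _
    _ ≤ (x + 10) ^ 2 := Nat.le_self_pow (by norm_num) _
    _ ≤ 100 * (x + 10) ^ 2 := Nat.le_mul_of_pos_left _ (by norm_num)

/-- the parameters for the transcripts at level `r` -/
noncomputable def basePar (S : GSeq) (r : ℝ) (L : ℕ) : TPar where
  d := S.d L
  h₀ := S.h L
  b := S.b L
  σ := S.σ L
  w := S.w r L
  k := Nat.size (S.lim r L)

theorem basePar_ok {S : GSeq} (hS : S.Ok) {r : ℝ} (hre : r ≤ S.e₀) (L : ℕ) :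
    (basePar S r L).Ok := by
  have hσ : S.h L + S.b L < 2 ^ S.σ L := Nat.lt_size_self (S.h L + S.b L)
  have hh : S.h L = 100 * (S.s L + 10) ^ 2 + 2 := rfl
  have hss : S.s L ≤ 100 * (S.s L + 10) ^ 2 := base_sq (S.s L)
  have hd := hS.hd L
  have hdb : S.d L ≤ S.b L := by
    unfold GSeq.b
    omega
  obtain ⟨-, hwb⟩ := GSeq.rpa_b S L
  have hw := hS.gpa_w_mono hre L
  have hk : Nat.size (S.lim r L) ≤ S.b L := by
    have h1 := hS.gpa_lim_mono hre L
    have h3 := Nat.two_pow_pos (S.w S.e₀ L)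
    have h2 : Nat.size (S.lim r L) ≤ Nat.size (S.t L + S.lim S.e₀ L + 2 ^ S.w S.e₀ L + 10) :=
      Nat.size_le_size (by omega)
    refine h2.trans ?_
    unfold GSeq.b
    omega
  exact
    { h2 := by show 2 ≤ S.h L; omega
      hd := by show 4 * S.d L + 2 < 2 * S.h L; omega
      db := hdb
      hσ := hσ.le
      kσ := by show Nat.size (S.lim r L) ≤ 2 ^ S.σ L; omega
      wσ := by show S.w r L ≤ 2 ^ S.σ L; omega
      w0 := (hS.dims r L).2.2.2.2.2.2
      wb := by show S.w r L ≤ S.b L; omega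
      kb := hk }

section

variable {p : TPar} {G : List Ins} {z l v : Inp}

/-- the condition for all positions -/
theorem baseAt_all (h : ∀ x < 2 ^ p.k, BaseAt p G z l v x) :
    (rdT (p.h₀ + p.b) p.w p.k p.b p.σ v false).OK (ramXM G z p.d p.h₀ p.b)
      (rdP (p.h₀ + p.b) p.w p.b p.σ l false) (fun _ => false) 1 p.w ∧
    ((rdT (p.h₀ + p.b) p.w p.k p.b p.σ v false).Fail1 (ramXM G z p.d p.h₀ p.b)
        (rdP (p.h₀ + p.b) p.w p.b p.σ l false) 1 ∨
      ((rdT (p.h₀ + p.b) p.w p.k p.b p.σ v false).Fail2 (ramXM G z p.d p.h₀ p.b)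
          (rdP (p.h₀ + p.b) p.w p.b p.σ l false) 1 (rdT (p.h₀ + p.b) p.w p.k p.b p.σ v true) ∧
        (rdT (p.h₀ + p.b) p.w p.k p.b p.σ v true).OK (ramXM G z p.d p.h₀ p.b)
          (rdP (p.h₀ + p.b) p.w p.b p.σ l true) (fun _ => false) 1 p.w)) := by
  have hx : ∀ g, (rdT (p.h₀ + p.b) p.w p.k p.b p.σ v g).x < 2 ^ p.k := fun g => num_lt _ _
  refine ⟨(Trc.ok_iff (hx false)).2 fun x hx => (h x hx).1, ?_⟩
  by_cases hF : (rdT (p.h₀ + p.b) p.w p.k p.b p.σ v false).Fail1 (ramXM G z p.d p.h₀ p.b)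
    (rdP (p.h₀ + p.b) p.w p.b p.σ l false) 1
  · exact Or.inl hF
  · have h2 := fun x hx => (h x hx).2.resolve_left hF
    exact Or.inr ⟨(h2 0 (by positivity)).1, (Trc.ok_iff (hx true)).2 fun x hx => (h2 x hx).2⟩

/-- true pairs have no transcripts -/
theorem base_sound {N lim : ℕ} (hR : RamRun G z p.d p.h₀ p.b N)
    (h1 : TrR (ramX (eval G z) p.d p.h₀ p.b) (rsrc (eval G z) p.d) N
      (rdP (p.h₀ + p.b) p.w p.b p.σ l false) p.w lim)
    (h2 : TrR (ramX (eval G z) p.d p.h₀ p.b) (rsrc (eval G z) p.d) N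
      (rdP (p.h₀ + p.b) p.w p.b p.σ l true) p.w lim) : ¬ ∀ x < 2 ^ p.k, BaseAt p G z l v x := by
  intro h
  obtain ⟨h3, h4⟩ := baseAt_all h
  rw [← hR.zero] at h3 h4
  exact h1.not_fail hR.run hR.srx hR.fl h2 h3 h4

/-- bad pairs have transcripts -/
theorem base_complete (hp : p.Ok) {N lim : ℕ} (hlim : lim ≤ 2 ^ p.k)
    (hR : RamRun G z p.d p.h₀ p.b N)
    (h : Bad1 (ramX (eval G z) p.d p.h₀ p.b) (rsrc (eval G z) p.d) N
        (rdP (p.h₀ + p.b) p.w p.b p.σ l false) p.w lim ∨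
      Stale (ramX (eval G z) p.d p.h₀ p.b) (rsrc (eval G z) p.d) N
        (rdP (p.h₀ + p.b) p.w p.b p.σ l false) (rdP (p.h₀ + p.b) p.w p.b p.σ l true) p.w lim) :
    ∃ v : Inp, ∀ x, BaseAt p G z l v x := by
  have hbσ : p.b ≤ 2 ^ p.σ := by have := hp.hσ; omega
  have htm : ∀ g, ∀ i < 2 ^ p.w, (rdP (p.h₀ + p.b) p.w p.b p.σ l g).tm i < 2 ^ p.b :=
    fun g i _ => rdL_tm_lt _ _ _ _ _ _
  have hmono : ∀ T : Trc (Fin (p.h₀ + p.b) → Bool), T.Bd p.w lim (2 ^ p.b) →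
      T.Bd p.w (2 ^ p.k) (2 ^ p.b) := fun T h =>
    ⟨h.I, h.t, fun x => lt_of_lt_of_le (h.Rk x) hlim, fun x => lt_of_lt_of_le (h.Q x) hlim,
      fun x => lt_of_lt_of_le (h.J x) hlim, lt_of_lt_of_le h.x hlim⟩
  have hrefl : ∀ g, LEq p.w (rdP (p.h₀ + p.b) p.w p.b p.σ l g)
      (rdP (p.h₀ + p.b) p.w p.b p.σ l g) := fun g i _ => ⟨rfl, rfl, rfl, rfl, rfl⟩
  rcases h with h | h
  · obtain ⟨T, hOK, hBd, hF⟩ := h.exists_fail hR.run hR.fl (htm false)
    obtain ⟨v, hv⟩ := exists_rdT (h := p.h₀ + p.b) (w := p.w) (k := p.k) (b := p.b) (σ := p.σ)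
      hp.hσ hp.wσ hp.kσ hbσ (fun _ => T) fun _ => hmono T hBd
    obtain ⟨g1, g2, -⟩ := TEq.ok (M := ramXM G z p.d p.h₀ p.b) (a0 := fun _ => false) (κ := 1)
      (hrefl false) (hv false) (hmono T hBd) (by positivity)
    rw [hR.zero] at hOK
    exact ⟨v, fun x => ⟨g1.1 hOK x, Or.inl (g2.1 hF)⟩⟩
  · obtain ⟨T, T', hOK, hOK', hBd, hBd', hF⟩ :=
      h.exists_fail (M := ramXM G z p.d p.h₀ p.b) hR.run hR.srx (htm false) (htm true)
    obtain ⟨v, hv⟩ := exists_rdT (h := p.h₀ + p.b) (w := p.w) (k := p.k) (b := p.b) (σ := p.σ)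
      hp.hσ hp.wσ hp.kσ hbσ (fun g => if g then T' else T) fun g => by
        cases g
        · exact hmono T hBd
        · exact hmono T' hBd'
    have hv0 : TEq (2 ^ p.k) (rdT (p.h₀ + p.b) p.w p.k p.b p.σ v false) T := hv false
    have hv1 : TEq (2 ^ p.k) (rdT (p.h₀ + p.b) p.w p.k p.b p.σ v true) T' := hv true
    obtain ⟨g1, -, -⟩ := TEq.ok (M := ramXM G z p.d p.h₀ p.b) (a0 := fun _ => false) (κ := 1)
      (hrefl false) hv0 (hmono T hBd) (by positivity)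
    obtain ⟨g2, -, -⟩ := TEq.ok (M := ramXM G z p.d p.h₀ p.b) (a0 := fun _ => false) (κ := 1)
      (hrefl true) hv1 (hmono T' hBd') (by positivity)
    have g3 := TEq.fail2 (M := ramXM G z p.d p.h₀ p.b) (κ := 1) (hrefl false) hv0 hv1
      (hmono T hBd) (hmono T' hBd')
    rw [hR.zero] at hOK hOK'
    exact ⟨v, fun x => ⟨g1.1 hOK x, Or.inr ⟨g3.1 hF, g2.1 hOK' x⟩⟩⟩

end

/-- **base**: bad pairs have transcripts, true pairs have none -/
theorem exists_baseR {S : GSeq} (hS : S.Ok) {T : Type} {π : Pres T} (G : ℕ → List Ins)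
    (hG : ∀ L, RSz (S.s L) (S.d L) (G L)) {r : ℝ} (hr : 0 ≤ r) (hre : r ≤ S.e₀) :
    ∃ (β : ℕ → ℕ) (A : (T × Inp) × Inp → Prop), Lin r β ∧
      InH ((π.ext fun L => lLen (S.w r L) (S.σ L)).ext β) A r ∧
      ∀ (p : T × Inp) (N : ℕ), RRun S (G (π.idx p.1)) (π.inp p.1) (π.idx p.1) N →
        (BadP S (G (π.idx p.1)) (π.inp p.1) (π.idx p.1) N r p.2 → ∃ y, A (p, y)) ∧
        (TrP S (G (π.idx p.1)) (π.inp p.1) (π.idx p.1) N r p.2 → ∀ y, ¬ A (p, y)) := by
  obtain ⟨hh, hb, hσ, hσ0⟩ := hS.grow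
  have hK : Lin r (fun L => Nat.size (S.lim r L)) := (ex_iff.1 (hS.grow_lim hr)).lin_size hr
  have hw : SubExp (S.w r) := (hS.grow_w hr).subExp'
  have hs : SubExp S.s := ex_zero_iff.1 hS.hs
  have hd : SubExp S.d := hs.mono' (Eventually.of_forall fun L => by have := hS.hd L; omega)
  have hsh : ∀ L, S.s L ≤ 2 * S.h L := fun L => by
    have hh : S.h L = 100 * (S.s L + 10) ^ 2 + 2 := rfl
    have := base_sq (S.s L)
    omega
  choose f hf hf' using fun L => (rtCodeOK (basePar S r L) (G L) (basePar_ok hS hre L)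
    ((hG L).1.mono (hsh L))).1
  have hX : SubExp (fun L => (basePar S r L).X ^ 60) := by
    apply SubExp.pow
    exact (SubExp.const 1000).mul ((((((hh.add hb).add hσ).add hd).add hw).add hK.subExp').add
      (SubExp.const 10))
  refine ⟨fun L => tLen (Nat.size (S.lim r L)) (S.σ L),
    fun q => ∀ x < 2 ^ (basePar S r (π.idx q.1.1)).k, BaseAt (basePar S r (π.idx q.1.1))
      (G (π.idx q.1.1)) (π.inp q.1.1) q.1.2 q.2 x, ?_, ?_, fun q N hN => ⟨fun h => ?_, fun h y => ?_⟩⟩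
  · have h5 := (hK.add hσ0).add (Lin.const 0 le_rfl 4)
    simp only [add_zero] at h5
    exact h5
  · refine InG.congr (inH_loop (k := fun L => Nat.size (S.lim r L)) (σ := S.σ) hr hK hσ hX f hf)
      fun q => ?_
    refine forall_congr' fun x => forall_congr' fun hx => ?_
    have h6 := hf' (π.idx q.1.1) (π.inp q.1.1) q.1.2 q.2
      (trc (S.σ (π.idx q.1.1)) (kstr (Nat.size (S.lim r (π.idx q.1.1))) (S.σ (π.idx q.1.1)) x))
    have h7 : rdX (Nat.size (S.lim r (π.idx q.1.1))) (S.σ (π.idx q.1.1))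
        (trc (S.σ (π.idx q.1.1)) (kstr (Nat.size (S.lim r (π.idx q.1.1))) (S.σ (π.idx q.1.1)) x)) =
        x := rdX_kstr (basePar_ok hS hre (π.idx q.1.1)).kσ hx
    have h8 : trc (basePar S r (π.idx q.1.1)).σ (trc (S.σ (π.idx q.1.1))
        (kstr (Nat.size (S.lim r (π.idx q.1.1))) (S.σ (π.idx q.1.1)) x)) =
        trc (S.σ (π.idx q.1.1)) (kstr (Nat.size (S.lim r (π.idx q.1.1))) (S.σ (π.idx q.1.1)) x) :=
      trc_idem _ _
    rw [h8] at h6
    refine h6.trans ?_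
    show BaseAt _ _ _ _ _ (rdX (Nat.size (S.lim r (π.idx q.1.1))) (S.σ (π.idx q.1.1))
        (trc (S.σ (π.idx q.1.1)) (kstr (Nat.size (S.lim r (π.idx q.1.1)))
          (S.σ (π.idx q.1.1)) x))) ↔ _
    rw [h7]
  · obtain ⟨v, hv⟩ := base_complete (p := basePar S r (π.idx q.1)) (basePar_ok hS hre _)
      (show S.lim r (π.idx q.1) ≤ 2 ^ Nat.size (S.lim r (π.idx q.1)) from
        (Nat.lt_size_self _).le) hN.run h
    exact ⟨v, fun x _ => hv x⟩
  · exact base_sound (p := basePar S r (π.idx q.1)) hN.run (h false) (h true)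

end Pool.Agent.NUM
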