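import Pool.Agent.NUM.BPar
import Pool.Agent.NUM.RBase

/-!
# Two-parameter form of theorem H(γ): transcripts as certificates at the base level

The parts which do not depend on the sequences of parameters (`trc_idem`, `base_sq`, `baseAt_all`,
`base_sound`, `base_complete`) are those of `RBase`.
-/

set_option autoImplicit false

namespace Pool.Agent.NUM.BB

open Filter

/-- the parameters for the transcripts at level `r` -/
noncomputable def basePar (S : GSeq) (r : ℝ) (L : ℕ) : TPar where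
  d := S.d L
  h₀ := S.h L
  b := S.b L
  σ := S.σ L
  w := S.w r L
  k := Nat.size (S.lim r L)

theorem basePar_ok {S : GSeq} (hS : S.Ok) {r : ℝ} (hre : r ≤ S.e₀) (L : ℕ) :
    (basePar S r L).Ok := by
  have hσ : S.h L + S.b L < 2 ^ S.σ L := Nat.lt_size_self (S.h L + S.b L)
  have hh : S.h L = 100 * (S.s L + 10) ^ 2 + 2 := rfl
  have hss : S.s L ≤ 100 * (S.s L + 10) ^ 2 := base_sq (S.s L)
  have hd := hS.hd L
  have hdb : S.d L ≤ S.b L := by
    unfold GSeq.b
    omega
  obtain ⟨-, hwb⟩ := GSeq.rpa_b S L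
  have hw := hS.gpa_w_mono hre L
  have hk : Nat.size (S.lim r L) ≤ S.b L := by
    have h1 := hS.gpa_lim_mono hre L
    have h3 := Nat.two_pow_pos (S.w S.e₀ L)
    have h2 : Nat.size (S.lim r L) ≤ Nat.size (S.t L + S.lim S.e₀ L + 2 ^ S.w S.e₀ L + 10) :=
      Nat.size_le_size (by omega)
    refine h2.trans ?_
    unfold GSeq.b
    omega
  exact
    { h2 := by show 2 ≤ S.h L; omega
      hd := by show 4 * S.d L + 2 < 2 * S.h L; omega
      db := hdb
      hσ := hσ.le
      kσ := by show Nat.size (S.lim r L) ≤ 2 ^ S.σ L; omega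
      wσ := by show S.w r L ≤ 2 ^ S.σ L; omega
      w0 := (hS.dims r L).2.2.2.2.2.2
      wb := by show S.w r L ≤ S.b L; omega
      kb := hk }

/-- **base**: bad pairs have transcripts, true pairs have none -/
theorem exists_baseR {S : GSeq} (hS : S.Ok) {T : Type} {π : Pres T} (G : ℕ → List Ins)
    (hG : ∀ L, RSz (S.s L) (S.d L) (G L)) {r : ℝ} (har : S.al ≤ r) (hre : r ≤ S.e₀) :
    ∃ (β : ℕ → ℕ) (A : (T × Inp) × Inp → Prop), Lin r β ∧
      InH ((π.ext fun L => lLen (S.w r L) (S.σ L)).ext β) A r ∧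
      ∀ (p : T × Inp) (N : ℕ), RRun S (G (π.idx p.1)) (π.inp p.1) (π.idx p.1) N →
        (BadP S (G (π.idx p.1)) (π.inp p.1) (π.idx p.1) N r p.2 → ∃ y, A (p, y)) ∧
        (TrP S (G (π.idx p.1)) (π.inp p.1) (π.idx p.1) N r p.2 → ∀ y, ¬ A (p, y)) := by
  obtain ⟨hh, hb, hσ, hσ0⟩ := hS.grow
  have hr : 0 ≤ r := (div_nonneg hS.κ0 (by linarith [hS.γ1])).trans har
  have hK : Lin r (fun L => Nat.size (S.lim r L)) := (ex_iff.1 (hS.grow_lim har)).lin_size hr
  have hw : SubExp (S.w r) := (hS.grow_w har).subExp'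
  have hs : SubExp S.s := ex_zero_iff.1 hS.hs
  have hd : SubExp S.d := hs.mono' (Eventually.of_forall fun L => by have := hS.hd L; omega)
  have hsh : ∀ L, S.s L ≤ 2 * S.h L := fun L => by
    have hh : S.h L = 100 * (S.s L + 10) ^ 2 + 2 := rfl
    have := base_sq (S.s L)
    omega
  choose f hf hf' using fun L => (rtCodeOK (basePar S r L) (G L) (basePar_ok hS hre L)
    ((hG L).1.mono (hsh L))).1
  have hX : SubExp (fun L => (basePar S r L).X ^ 60) := by
    apply SubExp.pow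
    exact (SubExp.const 1000).mul ((((((hh.add hb).add hσ).add hd).add hw).add hK.subExp').add
      (SubExp.const 10))
  refine ⟨fun L => tLen (Nat.size (S.lim r L)) (S.σ L),
    fun q => ∀ x < 2 ^ (basePar S r (π.idx q.1.1)).k, BaseAt (basePar S r (π.idx q.1.1))
      (G (π.idx q.1.1)) (π.inp q.1.1) q.1.2 q.2 x, ?_, ?_, fun q N hN => ⟨fun h => ?_, fun h y => ?_⟩⟩
  · have h5 := (hK.add hσ0).add (Lin.const 0 le_rfl 4)
    simp only [add_zero] at h5
    exact h5
  · refine InG.congr (inH_loop (k := fun L => Nat.size (S.lim r L)) (σ := S.σ) hr hK hσ hX f hf)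
      fun q => ?_
    refine forall_congr' fun x => forall_congr' fun hx => ?_
    have h6 := hf' (π.idx q.1.1) (π.inp q.1.1) q.1.2 q.2
      (trc (S.σ (π.idx q.1.1)) (kstr (Nat.size (S.lim r (π.idx q.1.1))) (S.σ (π.idx q.1.1)) x))
    have h7 : rdX (Nat.size (S.lim r (π.idx q.1.1))) (S.σ (π.idx q.1.1))
        (trc (S.σ (π.idx q.1.1)) (kstr (Nat.size (S.lim r (π.idx q.1.1))) (S.σ (π.idx q.1.1)) x)) =
        x := rdX_kstr (basePar_ok hS hre (π.idx q.1.1)).kσ hx
    have h8 : trc (basePar S r (π.idx q.1.1)).σ (trc (S.σ (π.idx q.1.1))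
        (kstr (Nat.size (S.lim r (π.idx q.1.1))) (S.σ (π.idx q.1.1)) x)) =
        trc (S.σ (π.idx q.1.1)) (kstr (Nat.size (S.lim r (π.idx q.1.1))) (S.σ (π.idx q.1.1)) x) :=
      trc_idem _ _
    rw [h8] at h6
    refine h6.trans ?_
    show BaseAt _ _ _ _ _ (rdX (Nat.size (S.lim r (π.idx q.1.1))) (S.σ (π.idx q.1.1))
        (trc (S.σ (π.idx q.1.1)) (kstr (Nat.size (S.lim r (π.idx q.1.1)))
          (S.σ (π.idx q.1.1)) x))) ↔ _
    rw [h7]
  · obtain ⟨v, hv⟩ := base_complete (p := basePar S r (π.idx q.1)) (basePar_ok hS hre _)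
      (show S.lim r (π.idx q.1) ≤ 2 ^ Nat.size (S.lim r (π.idx q.1)) from
        (Nat.lt_size_self _).le) hN.run h
    exact ⟨v, fun x _ => hv x⟩
  · exact base_sound (p := basePar S r (π.idx q.1)) hN.run (h false) (h true)

end Pool.Agent.NUM.BB
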