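import Pool.Agent.NUM.BFinal

/-!
# Theorem H(b, γ): the condition

* `sat_ram_bound₂'`: the lower bound for `1 ≤ c`.
* `bcond_zero_iff`: for `b = 0` the condition is `(c ^ 2 - 1) (c + γ - 1) < (1 - γ) c`.
* `bcond_of_lt_one`: it holds if `c (c - 1 + γ + b) < 1`, hence for every `b + γ < 1` for some `c > 1`
  (`exists_bcond`).
-/

set_option autoImplicit false

namespace Pool.Agent.NUM

open S3 Finset Filter

theorem bcond_of_lt_one {b c γ : ℝ} (hc : 1 < c) (hγ : 0 ≤ γ) (hγ1 : γ < 1) (hb : 0 ≤ b)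
    (hm : c * (c - 1 + γ + b) < 1) : BCond b c γ := by
  obtain ⟨n, hn⟩ := exists_sum_of_lt' hc hγ hγ1 hm
  have hm0 : 0 < c * (c - 1 + γ + b) := mul_pos (by linarith) (by linarith)
  have hle : ∀ i : ℕ, ((1 - γ) / 1) ^ (i + 1) ≤ ((1 - γ) / (c * (c - 1 + γ + b))) ^ (i + 1) := by
    intro i
    refine pow_le_pow_left₀ (div_nonneg (by linarith) zero_le_one) ?_ _
    exact div_le_div_of_nonneg_left (by linarith) hm0 hm.le
  exact ⟨n, hn.trans_le (add_le_add (sum_le_sum fun i _ => hle i)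
    (mul_le_mul_of_nonneg_left (hle n) (by linarith)))⟩

/-- for all `b + γ < 1` the condition holds for some `c > 1` -/
theorem exists_bcond {b γ : ℝ} (hγ : 0 ≤ γ) (hb : 0 ≤ b) (h : b + γ < 1) :
    ∃ c, 1 < c ∧ BCond b c γ := by
  have hcont : ContinuousAt (fun c : ℝ => c * (c - 1 + γ + b)) 1 := by fun_prop
  have hev : ∀ᶠ c : ℝ in nhds 1, c * (c - 1 + γ + b) < 1 :=
    hcont.eventually (gt_mem_nhds (by linarith))
  have hev' : ∀ᶠ c : ℝ in nhdsWithin 1 (Set.Ioi 1), c * (c - 1 + γ + b) < 1 :=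
    nhdsWithin_le_nhds hev
  have hev3 : ∀ᶠ c : ℝ in nhdsWithin 1 (Set.Ioi 1), c ∈ Set.Ioi (1 : ℝ) := self_mem_nhdsWithin
  obtain ⟨c, h1, h2⟩ := (hev'.and hev3).exists
  exact ⟨c, h2, bcond_of_lt_one h2 hγ (by linarith) hb h1⟩

/-- the condition for `b = 0` -/
theorem bcond_zero_iff {c γ : ℝ} (hc : 1 < c) (hγ : 0 ≤ γ) (hγ1 : γ < 1) :
    BCond 0 c γ ↔ (c ^ 2 - 1) * (c + γ - 1) < (1 - γ) * c := by
  have hc0 : 0 < c := by linarith
  have h1γ : 0 < 1 - γ := by linarith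
  obtain ⟨m, hm⟩ : ∃ m : ℝ, m = c * (c - 1 + γ) := ⟨_, rfl⟩
  have hm0 : 0 < m := by rw [hm]; exact mul_pos hc0 (by linarith)
  obtain ⟨q, hq⟩ : ∃ q : ℝ, q = (1 - γ) / m := ⟨_, rfl⟩
  have hq0 : 0 < q := by rw [hq]; positivity
  have e0 : BCond 0 c γ ↔ ∃ n : ℕ, c ^ 2 - 1 < ∑ i ∈ range n, q ^ (i + 1) + c * q ^ (n + 1) := by
    unfold BCond
    simp only [zero_mul, add_zero]
    rw [← hm, ← hq]
  have e1 : ∀ n : ℕ, (1 - q) * (∑ i ∈ range n, q ^ (i + 1) + c * q ^ (n + 1)) =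
      q + q ^ (n + 1) * (c * (1 - q) - 1) := by
    intro n
    have h1 : ∑ i ∈ range n, q ^ (i + 1) = q * ∑ i ∈ range n, q ^ i := by
      rw [mul_sum]
      exact sum_congr rfl fun i _ => by ring
    have h2 := mul_neg_geom_sum q n
    rw [h1]
    calc (1 - q) * (q * ∑ i ∈ range n, q ^ i + c * q ^ (n + 1)) =
        q * ((1 - q) * ∑ i ∈ range n, q ^ i) + (1 - q) * (c * q ^ (n + 1)) := by ring
      _ = q * (1 - q ^ n) + (1 - q) * (c * q ^ (n + 1)) := by rw [h2]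
      _ = _ := by ring
  have e2 : (c ^ 2 - 1) * (c + γ - 1) < (1 - γ) * c ↔ (c ^ 2 - 1) * (1 - q) < q := by
    have h1 : (c ^ 2 - 1) * (1 - q) < q ↔ c ^ 2 - 1 < c ^ 2 * q := by
      constructor <;> intro h <;> nlinarith
    have h2 : c ^ 2 * q = (1 - γ) * c / (c - 1 + γ) := by
      rw [hq, hm]
      field_simp
    rw [h1, h2, lt_div_iff₀ (by linarith)]
    constructor <;> intro h <;> nlinarith
  rw [e0, e2]
  have hc2 : 0 < c ^ 2 - 1 := by nlinarith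
  constructor
  · rintro ⟨n, hn⟩
    rcases lt_or_ge q 1 with h1 | h1
    · have h2 := e1 n
      have h3 : 0 < q ^ (n + 1) := by positivity
      have h4 : (1 - q) * (c ^ 2 - 1) <
          (1 - q) * (∑ i ∈ range n, q ^ (i + 1) + c * q ^ (n + 1)) :=
        mul_lt_mul_of_pos_left hn (by linarith)
      rcases le_or_gt (c * (1 - q)) 1 with h5 | h5
      · have h6 : q ^ (n + 1) * (c * (1 - q) - 1) ≤ 0 :=
          mul_nonpos_of_nonneg_of_nonpos h3.le (by linarith)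
        linarith
      · exfalso
        have h6 : q ^ (n + 1) ≤ q := by
          have := pow_le_pow_of_le_one hq0.le h1.le (show 1 ≤ n + 1 by omega)
          rwa [pow_one] at this
        have h7 : q ^ (n + 1) * (c * (1 - q) - 1) ≤ q * (c * (1 - q) - 1) :=
          mul_le_mul_of_nonneg_right h6 (by linarith)
        have h8 : (1 - q) * (c ^ 2 - 1) < (1 - q) * (c * q) := by nlinarith
        have h9 : c ^ 2 - 1 < c * q := lt_of_mul_lt_mul_left h8 (by linarith)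
        nlinarith
    · nlinarith
  · intro h
    rcases lt_or_ge q 1 with h1 | h1
    · have hlim : Tendsto (fun n : ℕ => q ^ (n + 1)) atTop (nhds 0) :=
        (tendsto_pow_atTop_nhds_zero_of_lt_one hq0.le h1).comp (tendsto_add_atTop_nat 1)
      obtain ⟨n, hn⟩ := (hlim.eventually
        (gt_mem_nhds (show 0 < q - (c ^ 2 - 1) * (1 - q) by linarith))).exists
      refine ⟨n, ?_⟩
      have h2 := e1 n
      have h3 : 0 < q ^ (n + 1) := by positivity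
      have h5 : 0 ≤ q ^ (n + 1) * (c * (1 - q)) := by
        have : 0 < 1 - q := by linarith
        positivity
      have h4 : (1 - q) * (c ^ 2 - 1) <
          (1 - q) * (∑ i ∈ range n, q ^ (i + 1) + c * q ^ (n + 1)) := by
        rw [h2]
        linarith
      exact lt_of_mul_lt_mul_left h4 (by linarith)
    · obtain ⟨n, hn⟩ := exists_nat_gt (c ^ 2 - 1)
      refine ⟨n, hn.trans_le ?_⟩
      have h2 : (n : ℝ) ≤ ∑ i ∈ range n, q ^ (i + 1) := by
        calc (n : ℝ) = ∑ _i ∈ range n, (1 : ℝ) := by simp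
          _ ≤ _ := sum_le_sum fun i _ => one_le_pow₀ h1
      have h3 : 0 ≤ c * q ^ (n + 1) := by positivity
      linarith

/-- **The lower bound**, for `1 ≤ c`. -/
theorem sat_ram_bound₂' {b c γ : ℝ} (hb : 0 ≤ b) (hγ : 0 ≤ γ) (hγ1 : γ < 1) (hc : 1 ≤ c)
    (h : ∃ n : ℕ, c ^ 2 - 1 + b * c * ∑ i ∈ range (n + 1), (1 - γ) ^ i <
      ∑ i ∈ range n, ((1 - γ) / (c * (c - 1 + γ + b))) ^ (i + 1) +
        c * ((1 - γ) / (c * (c - 1 + γ + b))) ^ (n + 1)) :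
    ∃ (δ : ℝ) (A M₀ : ℕ), 0 < δ ∧ ∀ M : ℕ, M₀ ≤ M → ∃ m : ℕ, M ≤ m ∧ m ≤ A * M ∧
      ∀ (G : List Ins) (d s T K : ℕ), RSz s d G →
      (s : ℝ) ≤ 2 ^ (δ * m) → (T : ℝ) ≤ 2 ^ (c * m) → (K : ℝ) ≤ 2 ^ ((b + δ) * m) →
        ¬ RamDecides G d (satLen m) T γ K (SAT m) := by
  obtain ⟨n, hn⟩ := h
  have hc0 : 0 < c := by linarith
  have hm : c * (c - 1 + γ + b) ≠ 0 := by
    intro h0
    rw [h0] at hn
    have h1 : ∑ i ∈ range n, ((1 - γ) / 0) ^ (i + 1) = 0 :=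
      sum_eq_zero fun i _ => by rw [div_zero]; exact zero_pow (Nat.succ_ne_zero i)
    rw [h1, div_zero, zero_pow (Nat.succ_ne_zero n)] at hn
    have h2 : 0 ≤ ∑ i ∈ range (n + 1), (1 - γ) ^ i :=
      sum_nonneg fun i _ => pow_nonneg (by linarith) _
    have h3 : 0 ≤ b * c * ∑ i ∈ range (n + 1), (1 - γ) ^ i :=
      mul_nonneg (mul_nonneg hb hc0.le) h2
    nlinarith
  have hcq : ContinuousAt (fun x : ℝ => (1 - γ) / (x * (x - 1 + γ + b))) c :=
    ContinuousAt.div (by fun_prop) (by fun_prop) hm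
  have hcont : ContinuousAt (fun x : ℝ => x ^ 2 - 1 + b * x * ∑ i ∈ range (n + 1), (1 - γ) ^ i -
      (∑ i ∈ range n, ((1 - γ) / (x * (x - 1 + γ + b))) ^ (i + 1) +
        x * ((1 - γ) / (x * (x - 1 + γ + b))) ^ (n + 1))) c := by
    refine ContinuousAt.sub (by fun_prop) (ContinuousAt.add ?_ ?_)
    · exact tendsto_finsetSum _ fun i _ => hcq.pow _
    · exact ContinuousAt.mul continuousAt_id (hcq.pow _)
  have hev : ∀ᶠ x : ℝ in nhds c, x ^ 2 - 1 + b * x * ∑ i ∈ range (n + 1), (1 - γ) ^ i -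
      (∑ i ∈ range n, ((1 - γ) / (x * (x - 1 + γ + b))) ^ (i + 1) +
        x * ((1 - γ) / (x * (x - 1 + γ + b))) ^ (n + 1)) < 0 :=
    hcont.eventually (gt_mem_nhds (by linarith))
  have hev' : ∀ᶠ x : ℝ in nhdsWithin c (Set.Ioi c),
      x ^ 2 - 1 + b * x * ∑ i ∈ range (n + 1), (1 - γ) ^ i -
      (∑ i ∈ range n, ((1 - γ) / (x * (x - 1 + γ + b))) ^ (i + 1) +
        x * ((1 - γ) / (x * (x - 1 + γ + b))) ^ (n + 1)) < 0 :=
    nhdsWithin_le_nhds hev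
  have hev3 : ∀ᶠ x : ℝ in nhdsWithin c (Set.Ioi c), x ∈ Set.Ioi c := self_mem_nhdsWithin
  obtain ⟨x, h1, h2⟩ := (hev'.and hev3).exists
  have h2' : c < x := h2
  obtain ⟨δ, A, M₀, hδ, H⟩ := sat_ram_bound₂ hb hγ hγ1 (show 1 < x by linarith)
    ⟨n, by linarith⟩
  refine ⟨δ, A, M₀, hδ, fun M hM => ?_⟩
  obtain ⟨m, g1, g2, H⟩ := H M hM
  refine ⟨m, g1, g2, fun G d s T K hsz hs hT hK => H G d s T K hsz hs (hT.trans ?_) hK⟩
  apply Real.rpow_le_rpow_of_exponent_le (by norm_num)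
  exact mul_le_mul_of_nonneg_right h2'.le (Nat.cast_nonneg m)

end Pool.Agent.NUM
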