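import Pool.Agent.NUM.Closure

/-!
# P5: the wrapper of the field `slow` of `Trade`

The challenge `κ` (three record numbers) and the string `v` are read from one guessed string `y'`:
bit `r` of record number `f` at the address `false :: (bits 2 f ++ bits (size q) r)`, and `v` at the
addresses `true :: a`.
-/

set_option autoImplicit false

namespace Pool.Agent.NUM

open Filter

/-! ## more local maps -/

theorem Loc.and {l t t' : ℕ} {φ ψ : Inp → Inp} (hφ : Loc l t φ) (hψ : Loc l t' ψ) :
    Loc l (t + t' + 7) (fun z a => φ z a && ψ z a) := fun k hk j => (hφ k hk j).and (hψ k hk j)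

theorem LocF.and {φ ψ : ℕ → Inp → Inp} (hφ : LocF φ) (hψ : LocF ψ) :
    LocF (fun L z a => φ L z a && ψ L z a) := by
  intro s hs
  obtain ⟨t, ht, h1⟩ := hφ s hs
  obtain ⟨t', ht', h2⟩ := hψ s hs
  exact ⟨fun L => t L + t' L + 7, (ht.add ht').add (SubExp.const 7), fun L => (h1 L).and (h2 L)⟩

theorem LocF.congr {φ ψ : ℕ → Inp → Inp} (hφ : LocF φ) (h : ∀ L z a, φ L z a = ψ L z a) :
    LocF ψ := by
  have : φ = ψ := by
    funext L z a
    exact h L z a
  rwa [← this]

/-- computed prefix -/
theorem LocF.pref {φ : ℕ → Inp → Inp} (hφ : LocF φ) {r s : ℕ → ℕ} (hr : SubExp r) (hs : SubExp s)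
    {g : ℕ → ℕ → Inp → Bool} (hg : ∀ L, ∀ i < r L, Cp 0 (s L) (fun z _ => g L i z)) :
    LocF (fun L z a => φ L z ((List.range (r L)).map (fun i => g L i z) ++ a)) := by
  intro l hl
  obtain ⟨t, ht, h1⟩ := hφ (fun L => l L + r L) (hl.add hr)
  exact ⟨fun L => (l L + r L) * (s L + 20) + t L + 20,
    (((hl.add hr).mul (hs.add (SubExp.const 20))).add ht).add (SubExp.const 20),
    fun L => Loc.pref (hg L) (h1 L)⟩

/-- a table -/
theorem LocF.const {w : ℕ → ℕ} (hw : SubExp w) (hw2 : SubExp fun L => 2 ^ w L) {c : ℕ → Inp}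
    (hc : ∀ L (a : List Bool), w L < a.length → c L a = false) : LocF (fun L _ => c L) := by
  intro l _
  exact ⟨fun L => 2 ^ w L * (w L * 200 + 400) + 100,
    (hw2.mul ((hw.mul (SubExp.const 200)).add (SubExp.const 400))).add (SubExp.const 100),
    fun L => Loc.const (l L) (w L) (c L) (hc L)⟩

/-- padding of the address by `false` to length `s` -/
theorem Loc.pad {l l' t s : ℕ} {φ : Inp → Inp} (hφ : Loc l' t φ) (hs : s ≤ l') :
    Loc l (s * 9 + t + s + 8)
      (fun z a => if a.length ≤ s then φ z (a ++ List.replicate (s - a.length) false)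
        else false) := by
  intro k hk j
  by_cases hks : k ≤ s
  · have h := Cp.app (b := j + k) (s := 8) (k := s) (l := l') (t := t) (φ := φ)
      (g := fun i _ M => if i < k then M (j + i) else false) ?_ hφ hs
    · refine (h.congr fun z M => ?_).mono le_rfl (by omega)
      show φ z _ = if (word M j k).length ≤ s then
        φ z (word M j k ++ List.replicate (s - (word M j k).length) false) else false
      rw [word_length, if_pos hks]
      congr 1
      apply List.ext_getElem
      · simp only [List.length_map, List.length_range, List.length_append, List.length_replicate,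
          word_length]
        omega
      · intro i h1 h2
        simp only [List.length_map, List.length_range] at h1
        simp only [List.getElem_map, List.getElem_range]
        by_cases hik : i < k
        · rw [if_pos hik, List.getElem_append_left (by rw [word_length]; exact hik)]
          simp [word]
        · rw [if_neg hik, List.getElem_append_right (by rw [word_length]; omega)]
          simp
    · intro i _
      by_cases hik : i < k
      · simp only [hik, if_true]
        exact (Cp.cell (by omega)).mono le_rfl (by omega)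
      · simp only [hik, if_false]
        exact Cp.const _ _
  · refine ((Cp.const (j + k) false).congr fun z M => ?_).mono le_rfl (by omega)
    show false = if (word M j k).length ≤ s then
        φ z (word M j k ++ List.replicate (s - (word M j k).length) false) else false
    rw [word_length, if_neg hks]

theorem LocF.pad {φ : ℕ → Inp → Inp} (hφ : LocF φ) {s : ℕ → ℕ} (hs : SubExp s) :
    LocF (fun L z a => if a.length ≤ s L then φ L z (a ++ List.replicate (s L - a.length) false)
      else false) := by
  intro l _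
  obtain ⟨t, ht, h1⟩ := hφ s hs
  exact ⟨fun L => s L * 9 + t L + s L + 8,
    (((hs.mul (SubExp.const 9)).add ht).add hs).add (SubExp.const 8),
    fun L => Loc.pad (h1 L) le_rfl⟩

/-! ## numbers and bit lists -/

theorem val_bits {n x : ℕ} (hx : x < 2 ^ n) : val (bits n x) = x := by
  unfold val
  rw [length_bits]
  have h : num n (fun i => (bits n x).getD i false) = num n (fun i => x.testBit i) := by
    apply num_congr
    intro i hi
    simp [bits, List.getD_eq_getElem?_getD, hi]
  rw [h, num_testBit, Nat.mod_eq_of_lt hx]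

theorem val_lt (a : List Bool) : val a < 2 ^ a.length := num_lt _ _

/-- padding gives the canonical expansion -/
theorem pad_eq_bits {a : List Bool} {s : ℕ} (ha : a.length ≤ s) :
    a ++ List.replicate (s - a.length) false = bits s (val a) := by
  apply List.ext_getElem
  · simp only [List.length_append, List.length_replicate, length_bits]
    omega
  · intro i h1 h2
    rw [length_bits] at h2
    have h3 : (bits s (val a))[i] = (val a).testBit i := by simp [bits]
    rw [h3, val, testBit_num]
    by_cases hi : i < a.length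
    · rw [List.getElem_append_left hi]
      simp [hi, List.getD_eq_getElem?_getD]
    · rw [List.getElem_append_right (by omega)]
      simp [hi]

theorem fit_length (q : ℕ) (k : List Bool) : (fit q k).length = q := by simp [fit]

theorem fit_eq_self {q : ℕ} {k : List Bool} (h : k.length = q) : fit q k = k := by
  apply List.ext_getElem
  · simp [fit, h]
  · intro i h1 h2
    simp [fit, List.getD_eq_getElem?_getD, h2]

theorem fit_fit (q : ℕ) (k : List Bool) : fit q (fit q k) = fit q k :=
  fit_eq_self (fit_length q k)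

theorem viewInp_fit (q w : ℕ) (z y : Inp) (κ : List Bool × List Bool × List Bool) :
    viewInp q w z y (fit q κ.1, fit q κ.2.1, fit q κ.2.2) = viewInp q w z y κ := by
  simp only [viewInp, rec1, fit_fit]

/-! ## the challenge in the guessed string -/

/-- record number `f` of the challenge written in `y'` -/
def kap (q : ℕ) (y' : Inp) (f : ℕ) : List Bool :=
  (List.range q).map fun r => y' (false :: (bits 2 f ++ bits (Nat.size q) r))

theorem kap_length (q : ℕ) (y' : Inp) (f : ℕ) : (kap q y' f).length = q := by simp [kap]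

/-- the guessed string made of a challenge and a string -/
def mkY (q : ℕ) (κ : List Bool × List Bool × List Bool) (v : Inp) : Inp
  | [] => false
  | true :: a => v a
  | false :: c =>
    (if val (c.take 2) = 0 then fit q κ.1 else if val (c.take 2) = 1 then fit q κ.2.1
      else fit q κ.2.2).getD (val (c.drop 2)) false

theorem mkY_true (q : ℕ) (κ : List Bool × List Bool × List Bool) (v : Inp) :
    (fun a => mkY q κ v (true :: a)) = v := rfl

theorem kap_mkY_aux (q : ℕ) (κ : List Bool × List Bool × List Bool) (v : Inp) {f : ℕ}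
    (hf : f < 4) : kap q (mkY q κ v) f =
      if f = 0 then fit q κ.1 else if f = 1 then fit q κ.2.1 else fit q κ.2.2 := by
  apply List.ext_getElem
  · rw [kap_length]
    split_ifs <;> rw [fit_length]
  · intro r h1 h2
    rw [kap_length] at h1
    have hr : r < 2 ^ Nat.size q := lt_trans h1 (Nat.lt_size_self q)
    have e1 : (bits 2 f ++ bits (Nat.size q) r).take 2 = bits 2 f := by
      rw [List.take_append_of_le_length (by rw [length_bits])]
      rw [List.take_of_length_le (by rw [length_bits])]
    have e2 : (bits 2 f ++ bits (Nat.size q) r).drop 2 = bits (Nat.size q) r := by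
      rw [List.drop_append_of_le_length (by rw [length_bits])]
      rw [List.drop_of_length_le (by rw [length_bits]), List.nil_append]
    simp only [kap, List.getElem_map, List.getElem_range, mkY, e1, e2, val_bits hr,
      val_bits (n := 2) (x := f) (by omega)]
    rw [List.getD_eq_getElem?_getD, List.getElem?_eq_getElem h2]
    rfl

/-! ## the wrapper -/

/-- the answer only depends on the index and the input -/
theorem InCl.det {T : Type} {π : Pres T} {P : T → Prop} {e : ℝ} (h : InCl π P e) :
    ∃ L₀, ∀ τ τ', L₀ ≤ π.idx τ → π.idx τ = π.idx τ' → π.inp τ = π.inp τ' → (P τ ↔ P τ') := by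
  obtain ⟨G, s, t, L₀, h1, h2, h3, h4⟩ := h
  refine ⟨L₀, fun τ τ' hτ hi hz => ?_⟩
  obtain ⟨b, hb, hbP⟩ := h4 τ hτ
  obtain ⟨b', hb', hbP'⟩ := h4 τ' (hi ▸ hτ)
  rw [← hi, ← hz, hb] at hb'
  rw [← hbP, ← hbP', Option.some.inj hb']

theorem InCl.congr_ev {T : Type} {π : Pres T} {P P' : T → Prop} {e : ℝ} (h : InCl π P e)
    (hP : ∃ L₁, ∀ τ, L₁ ≤ π.idx τ → (P τ ↔ P' τ)) : InCl π P' e := by
  obtain ⟨G, s, t, L₀, h1, h2, h3, h4⟩ := h
  obtain ⟨L₁, hL₁⟩ := hP
  refine ⟨G, s, t, max L₀ L₁, h1, h2, h3, fun τ hτ => ?_⟩
  obtain ⟨b, hb, hb'⟩ := h4 τ (le_trans (le_max_left _ _) hτ)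
  exact ⟨b, hb, hb'.trans (hL₁ τ (le_trans (le_max_right _ _) hτ))⟩

theorem Lin.nonneg {x : ℝ} {q : ℕ → ℕ} (h : Lin x q) : 0 ≤ x := by
  by_contra hx
  push Not at hx
  obtain ⟨L₀, h1⟩ := h (-x / 2) (by linarith)
  have h2 := h1 (L₀ + 1) (by omega)
  have h3 : (0 : ℝ) ≤ q (L₀ + 1) := Nat.cast_nonneg _
  have h4 : (0 : ℝ) < ((L₀ + 1 : ℕ) : ℝ) := by positivity
  nlinarith

/-- the local map of one record -/
theorem locF_rec {q w : ℕ → ℕ} {x : ℝ} (hq : Lin x q) (f : ℕ) :
    LocF (fun L z => pair
      (fun a => decide (a.length ≤ Nat.size (q L) ∧ val a < q L) &&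
        (if a.length ≤ Nat.size (q L) then
          z ([true, false] ++ (bits 2 f ++ (a ++ List.replicate (Nat.size (q L) - a.length) false)))
          else false))
      (trc (w L) fun a => z ([false, true] ++
        ((List.range (q L)).map (fun r => z ([true, false] ++ (bits 2 f ++
          bits (Nat.size (q L)) r))) ++ a)))) := by
  have hq0 : SubExp q := hq.subExp
  have hs0 : SubExp (fun L => Nat.size (q L)) := hq.size.subExp
  have h2s : SubExp (fun L => 2 ^ Nat.size (q L)) := by
    refine (((SubExp.const 2).mul hq0).add (SubExp.const 1)).mono' (Eventually.of_forall fun L => ?_)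
    show 2 ^ Nat.size (q L) ≤ 2 * q L + 1
    by_cases h0 : q L = 0
    · rw [h0]; simp
    · have h1 : 0 < Nat.size (q L) := Nat.size_pos.2 (Nat.pos_of_ne_zero h0)
      obtain ⟨k, hk⟩ : ∃ k, Nat.size (q L) = k + 1 := ⟨Nat.size (q L) - 1, by omega⟩
      have h2 : 2 ^ k ≤ q L := by
        have : k < Nat.size (q L) := by omega
        exact Nat.lt_size.1 this
      rw [hk, pow_succ]
      omega
  refine LocF.pair (LocF.and ?_ ?_) (LocF.trc ?_ w)
  · refine (LocF.const (w := fun L => Nat.size (q L)) hs0 h2s
      (c := fun L a => decide (a.length ≤ Nat.size (q L) ∧ val a < q L)) ?_)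
    intro L a ha
    simp only [decide_eq_false_iff_not, not_and]
    intro h1
    omega
  · have h1 : LocF (fun (_ : ℕ) (z : Inp) (a : List Bool) => z (([true, false] ++ bits 2 f) ++ a)) :=
      LocF.shift ([true, false] ++ bits 2 f) LocF.id
    refine (h1.pad hs0).congr fun L z a => ?_
    simp only [List.append_assoc]
  · have h1 : LocF (fun (_ : ℕ) (z : Inp) (a : List Bool) => z ([false, true] ++ a)) :=
      LocF.shift [false, true] LocF.id
    refine h1.pref hq0 (s := fun L => 12 * (Nat.size (q L) + 4) + 1)
      (((SubExp.const 12).mul (hs0.add (SubExp.const 4))).add (SubExp.const 1)) ?_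
    intro L r _
    refine (Cp.askConst 0 _).mono le_rfl ?_
    simp only [List.length_append, List.length_cons, List.length_nil, length_bits]
    omega

/-- the local map computes a record -/
theorem rec_eq {q w β' : ℕ} {Z y y' : Inp} (hβ : Nat.size q + 3 ≤ β') (f : ℕ) {z : Inp}
    (hz : z = pair (pair Z (trc (q + w) y)) (trc β' y')) :
    pair
      (fun a => decide (a.length ≤ Nat.size q ∧ val a < q) &&
        (if a.length ≤ Nat.size q then
          z ([true, false] ++ (bits 2 f ++ (a ++ List.replicate (Nat.size q - a.length) false)))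
          else false))
      (trc w fun a => z ([false, true] ++
        ((List.range q).map (fun r => z ([true, false] ++ (bits 2 f ++
          bits (Nat.size q) r))) ++ a))) = rec1 q w y (kap q y' f) := by
  have hk : (List.range q).map (fun r => z ([true, false] ++ (bits 2 f ++ bits (Nat.size q) r))) =
      kap q y' f := by
    unfold kap
    apply List.map_congr_left
    intro r _
    rw [hz]
    show trc β' y' (false :: (bits 2 f ++ bits (Nat.size q) r)) = _
    rw [trc, if_pos]
    simp only [List.length_cons, List.length_append, length_bits]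
    omega
  rw [hk]
  unfold rec1
  rw [fit_eq_self (kap_length q y' f)]
  congr 1
  · funext a
    unfold lst
    by_cases ha : a.length ≤ Nat.size q
    · rw [if_pos ha, if_pos ha]
      by_cases hv : val a < q
      · have h1 : (kap q y' f).getD (val a) false =
            y' (false :: (bits 2 f ++ bits (Nat.size q) (val a))) := by
          rw [List.getD_eq_getElem?_getD, List.getElem?_eq_getElem (by rw [kap_length]; exact hv)]
          simp [kap]
        rw [h1, pad_eq_bits ha, hz]
        simp only [ha, hv, and_self, decide_true, Bool.true_and]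
        show trc β' y' (false :: (bits 2 f ++ bits (Nat.size q) (val a))) = _
        rw [trc, if_pos]
        simp only [List.length_cons, List.length_append, length_bits]
        omega
      · have h1 : (kap q y' f).getD (val a) false = false := by
          rw [List.getD_eq_getElem?_getD, List.getElem?_eq_none (by rw [kap_length]; omega)]
          rfl
        rw [h1]
        simp [hv]
    · rw [if_neg ha, if_neg ha, Bool.and_false]
  · funext a
    unfold trc blk
    by_cases ha : a.length ≤ w
    · rw [if_pos ha, if_pos ha, hz]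
      show trc (q + w) y (kap q y' f ++ a) = _
      rw [trc, if_pos]
      rw [List.length_append, kap_length]
      omega
    · rw [if_neg ha, if_neg ha]

theorem slow_wrap0 {T : Type} {π : Pres T} {x u e : ℝ} {q w β : ℕ → ℕ}
    {A : (T × (List Bool × List Bool × List Bool) × Inp) × Inp → Prop} (hq : Lin x q)
    (hβ : Lin u β) (h : InCl ((π.view q w).ext β) A e) :
    ∃ (β' : ℕ → ℕ) (A' : (T × Inp) × Inp → Prop), Lin (max u 0) β' ∧
      InCl ((π.ext fun L => q L + w L).ext β') A' e ∧
      ∃ L₀, ∀ τ y, L₀ ≤ π.idx τ → ((∃ y', A' ((τ, y), y')) ↔ ∃ κ v, A ((τ, κ, y), v)) := by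
  refine ⟨fun L => max (β L) (Nat.size (q L) + 3) + 1,
    fun p => A ((p.1.1, (kap (q (π.idx p.1.1)) p.2 0, kap (q (π.idx p.1.1)) p.2 1,
      kap (q (π.idx p.1.1)) p.2 2), p.1.2), fun a => p.2 (true :: a)), ?_, ?_, ?_⟩
  · have h1 := (hβ.max (hq.size.add (Lin.const 0 le_rfl 3))).add (Lin.const 0 le_rfl 1)
    rwa [add_zero, add_zero] at h1
  · refine h.virt (ρ := (π.ext fun L => q L + w L).ext fun L => max (β L) (Nat.size (q L) + 3) + 1)
      (fun p => ((p.1.1, (kap (q (π.idx p.1.1)) p.2 0, kap (q (π.idx p.1.1)) p.2 1,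
        kap (q (π.idx p.1.1)) p.2 2), p.1.2), fun a => p.2 (true :: a))) (fun _ => rfl) _
      (LocF.pair (LocF.pair (LocF.shift [false, false] LocF.id)
        (LocF.pair (locF_rec (w := w) hq 0) (LocF.pair (locF_rec (w := w) hq 1)
          (locF_rec (w := w) hq 2))))
        (LocF.trc (LocF.shift [true, true] LocF.id) β)) ⟨0, fun p _ => ?_⟩
    set L := π.idx p.1.1 with hL
    set β' := max (β L) (Nat.size (q L) + 3) + 1 with hβ'
    have hs : Nat.size (q L) + 3 ≤ β' := by
      rw [hβ']; exact (le_max_right _ _).trans (Nat.le_succ _)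
    have hb : β L + 1 ≤ β' := by
      rw [hβ']; exact Nat.succ_le_succ (le_max_left _ _)
    have hz : ((π.ext fun L => q L + w L).ext fun L => max (β L) (Nat.size (q L) + 3) + 1).inp p =
      pair (pair (π.inp p.1.1) (trc (q L + w L) p.1.2)) (trc β' p.2) := rfl
    show pair (viewInp (q L) (w L) (π.inp p.1.1) p.1.2 (kap (q L) p.2 0, kap (q L) p.2 1,
        kap (q L) p.2 2)) (trc (β L) fun a => p.2 (true :: a)) = _
    rw [hz]
    unfold viewInp
    rw [← rec_eq (w := w L) (Z := π.inp p.1.1) (y := p.1.2) (y' := p.2) hs 0 rfl,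
      ← rec_eq (w := w L) (Z := π.inp p.1.1) (y := p.1.2) (y' := p.2) hs 1 rfl,
      ← rec_eq (w := w L) (Z := π.inp p.1.1) (y := p.1.2) (y' := p.2) hs 2 rfl]
    have e1 : trc (β L) (fun a => p.2 (true :: a)) =
        trc (β L) (fun a => (pair (pair (π.inp p.1.1) (trc (q L + w L) p.1.2)) (trc β' p.2))
          ([true, true] ++ a)) := by
      funext a
      simp only [trc]
      by_cases ha : a.length ≤ β L
      · rw [if_pos ha, if_pos ha]
        show _ = (if (true :: a).length ≤ β' then p.2 (true :: a) else false)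
        rw [if_pos]
        simp only [List.length_cons]
        omega
      · rw [if_neg ha, if_neg ha]
    rw [e1]
    rfl
  · obtain ⟨L₀, hL₀⟩ := h.det
    refine ⟨L₀, fun τ y hτ => ⟨fun ⟨y', hy'⟩ => ⟨_, _, hy'⟩, fun ⟨κ, v, hA⟩ =>
      ⟨mkY (q (π.idx τ)) κ v, ?_⟩⟩⟩
    show A ((τ, (kap (q (π.idx τ)) (mkY (q (π.idx τ)) κ v) 0,
      kap (q (π.idx τ)) (mkY (q (π.idx τ)) κ v) 1,
      kap (q (π.idx τ)) (mkY (q (π.idx τ)) κ v) 2), y), fun a => mkY (q (π.idx τ)) κ v (true :: a))
    rw [mkY_true, kap_mkY_aux _ _ _ (show 0 < 4 by norm_num),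
      kap_mkY_aux _ _ _ (show 1 < 4 by norm_num), kap_mkY_aux _ _ _ (show 2 < 4 by norm_num)]
    refine (hL₀ ((τ, (fit (q (π.idx τ)) κ.1, fit (q (π.idx τ)) κ.2.1, fit (q (π.idx τ)) κ.2.2),
      y), v) ((τ, κ, y), v) hτ rfl ?_).2 hA
    show pair (viewInp _ _ _ _ _) _ = pair (viewInp _ _ _ _ _) _
    congr 1
    exact viewInp_fit _ _ _ _ κ

theorem slow_wrap {T : Type} {π : Pres T} {x u e : ℝ} {q w β : ℕ → ℕ}
    {A : (T × (List Bool × List Bool × List Bool) × Inp) × Inp → Prop} (hq : Lin x q)
    (hβ : Lin u β) (h : InCl ((π.view q w).ext β) A e) :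
    ∃ (β' : ℕ → ℕ) (A' : (T × Inp) × Inp → Prop), Lin (max x u) β' ∧
      InCl ((π.ext fun L => q L + w L).ext β') A' e ∧
      ∃ L₀, ∀ τ y, L₀ ≤ π.idx τ → ((∃ y', A' ((τ, y), y')) ↔ ∃ κ v, A ((τ, κ, y), v)) := by
  obtain ⟨β', A', hβ', h1, h2⟩ := slow_wrap0 hq hβ h
  exact ⟨β', A', hβ'.mono (max_le (le_max_right _ _) (hq.nonneg.trans (le_max_left _ _))), h1, h2⟩

/-- the field `slow` of `Trade`, from the elimination of one existential quantifier -/
theorem trade_slow {c : ℝ}
    (slowE : ∀ {T : Type} {π : Pres T} {b u e : ℝ} {β : ℕ → ℕ} {B : T × Inp → Prop}, 1 ≤ b →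
      Size π b → Lin u β → InCl (π.ext β) B e →
      InCl π (fun τ => ∃ y, B (τ, y)) (c * max b (max u e)))
    {T : Type} {π : Pres T} {b x u e : ℝ} {q w β : ℕ → ℕ}
    {A : (T × (List Bool × List Bool × List Bool) × Inp) × Inp → Prop} (hb : 1 ≤ b)
    (hs : Size π b) (hq : Lin x q) (hw : Lin 0 w) (hβ : Lin u β) (hue : u ≤ e)
    (h : InCl ((π.view q w).ext β) A e) :
    InCl (π.ext fun L => q L + w L) (fun p => ∀ κ v, A ((p.1, κ, p.2), v))
      (c * max (max b x) e) := by
  obtain ⟨β', A', hβ', hA', L₀, hL₀⟩ := slow_wrap hq hβ h.compl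
  have hsz : Size (π.ext fun L => q L + w L) (max b x) := by
    have h1 : Lin x (fun L => q L + w L) := by simpa using hq.add hw
    exact hs.ext h1
  have h1 := (slowE (hb.trans (le_max_left _ _)) hsz hβ' hA').compl
  have e1 : max (max b x) (max (max x u) e) = max (max b x) e := by
    have h2 : max (max x u) e = max x e := by
      rw [max_assoc, max_eq_right hue]
    rw [h2, max_assoc, ← max_assoc x x e, max_self, ← max_assoc]
  rw [e1] at h1
  refine h1.congr_ev ⟨L₀, fun p hp => ?_⟩
  have h3 := hL₀ p.1 p.2 hp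
  constructor
  · intro h4 κ v
    by_contra h5
    exact h4 (h3.2 ⟨κ, v, h5⟩)
  · rintro h4 h5
    obtain ⟨κ, v, h6⟩ := h3.1 h5
    exact h6 (h4 κ v)

end Pool.Agent.NUM
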