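import Pool.Agent.NUM.HFam
import Pool.Agent.NUM.Closure
import Pool.Agent.NUM.Slow

/-!
# Closure properties of the classes of functional programs

Virtual inputs, complement, dummy strings, merging of strings for `InG Q π P e D`.
-/

set_option autoImplicit false

namespace Pool.Agent.NUM

open Filter

/-! ## the sequence of states (own copies, prefixed `hcl_`) -/

theorem hcl_hist (f : Mem → Mem) (d : ℕ) : ∀ n m, hist f d n m =
    if m ≤ n then sta f d m else zeroMem := by
  intro n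
  induction n with
  | zero =>
    intro m
    by_cases h : m ≤ 0
    · obtain rfl : m = 0 := by omega
      rfl
    · rw [if_neg h]
      rfl
  | succ n ih =>
    intro m
    by_cases h : m = n + 1
    · subst h
      rw [if_pos le_rfl]
      rfl
    · have h1 : hist f d (n + 1) m = hist f d n m := by
        show Function.update (hist f d n) (n + 1) _ m = _
        rw [Function.update_of_ne h]
      rw [h1, ih]
      by_cases h2 : m ≤ n
      · rw [if_pos h2, if_pos (by omega)]
      · rw [if_neg h2, if_neg (by omega)]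

theorem hcl_zero (f : Mem → Mem) (d : ℕ) : sta f d 0 = zeroMem := rfl

theorem hcl_succ (f : Mem → Mem) (d n : ℕ) : sta f d (n + 1) =
    f (mrg (sta f d n) (if rcl f d n ≤ n then sta f d (rcl f d n) else zeroMem)) := by
  have h1 : sta f d (n + 1) = f (mrg (hist f d n n) (hist f d n (ptr d (hist f d n n)))) := by
    show Function.update (hist f d n) (n + 1) _ (n + 1) = _
    rw [Function.update_self]
  rw [h1, hcl_hist f d n (ptr d (hist f d n n))]
  rfl

theorem hcl_mrg {s : ℕ} {V V' W W' : Mem} (h : Agr s V V') (h' : Agr s W W') :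
    Agr s (mrg V W) (mrg V' W') := by
  intro q hq
  unfold mrg
  by_cases e : q % 2 = 0
  · rw [if_pos e, if_pos e, h q hq]
  · rw [if_neg e, if_neg e, h' (q - 1) (by omega)]

theorem hcl_ptr {s d : ℕ} (hd : 4 * d < s) {V V' : Mem} (h : Agr s V V') :
    ptr d V = ptr d V' := by
  unfold ptr
  apply Finset.sum_congr rfl
  intro r hr
  rw [Finset.mem_range] at hr
  rw [h (4 * r + 4) (by omega)]

/-- step functions which agree below `s` have computations which agree below `s` -/
theorem hcl_agr {f g : Mem → Mem} {s d : ℕ} (hd : 4 * d < s)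
    (hfg : ∀ M M', Agr s M M' → Agr s (f M) (g M')) : ∀ t, Agr s (sta f d t) (sta g d t) := by
  intro t
  induction t using Nat.strong_induction_on with
  | _ t ih =>
    cases t with
    | zero => exact Agr.refl _ _
    | succ t =>
      have e : rcl f d t = rcl g d t := hcl_ptr hd (ih t (by omega))
      rw [hcl_succ, hcl_succ, ← e]
      refine hfg _ _ (hcl_mrg (ih t (by omega)) ?_)
      by_cases hr : rcl f d t ≤ t
      · rw [if_pos hr, if_pos hr]
        exact ih _ (by omega)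
      · rw [if_neg hr, if_neg hr]
        exact Agr.refl _ _

theorem hcl_rcl {f g : Mem → Mem} {s d : ℕ} (hd : 4 * d < s)
    (hfg : ∀ M M', Agr s M M' → Agr s (f M) (g M')) : rcl f d = rcl g d :=
  funext fun t => hcl_ptr hd (hcl_agr hd hfg t)

theorem hcl_halts {f g : Mem → Mem} {s d N : ℕ} (hd : 4 * d < s)
    (hfg : ∀ M M', Agr s M M' → Agr s (f M) (g M')) : HaltsAt f d N ↔ HaltsAt g d N := by
  have h0 : 0 < s := by omega
  unfold HaltsAt
  rw [hcl_agr hd hfg N 0 h0]
  constructor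
  · rintro ⟨h1, h2⟩
    exact ⟨h1, fun n hn => by rw [← hcl_agr hd hfg n 0 h0]; exact h2 n hn⟩
  · rintro ⟨h1, h2⟩
    exact ⟨h1, fun n hn => by rw [hcl_agr hd hfg n 0 h0]; exact h2 n hn⟩

theorem hcl_ans {f g : Mem → Mem} {s d T : ℕ} {b : Bool} (hs : 3 ≤ s) (hd : 4 * d < s)
    (hfg : ∀ M M', Agr s M M' → Agr s (f M) (g M')) : HAns f d T b ↔ HAns g d T b := by
  unfold HAns
  constructor
  · rintro ⟨N, h1, h2, h3⟩
    exact ⟨N, h1, (hcl_halts hd hfg).1 h2, by rw [← hcl_agr hd hfg N 2 (by omega)]; exact h3⟩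
  · rintro ⟨N, h1, h2, h3⟩
    exact ⟨N, h1, (hcl_halts hd hfg).2 h2, by rw [hcl_agr hd hfg N 2 (by omega)]; exact h3⟩

theorem hcl_unique {f : Mem → Mem} {d N N' : ℕ} (h : HaltsAt f d N) (h' : HaltsAt f d N') :
    N = N' := by
  by_contra hne
  rcases Nat.lt_or_gt_of_ne hne with h1 | h1
  · have := h'.2 N h1
    rw [h.1] at this
    exact Bool.noConfusion this
  · have := h.2 N' h1
    rw [h'.1] at this
    exact Bool.noConfusion this

theorem hcl_det {f : Mem → Mem} {d T T' : ℕ} {b b' : Bool} (h : HAns f d T b)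
    (h' : HAns f d T' b') : b = b' := by
  obtain ⟨N, _, h1, h2⟩ := h
  obtain ⟨N', _, h3, h4⟩ := h'
  obtain rfl := hcl_unique h1 h3
  rw [← h2, ← h4]

/-! ## changing the answer -/

/-- cell `2` is changed when cell `0` is set -/
def flipAns (f : Mem → Mem) : Mem → Mem := fun M => Function.update (f M) 2 (xor (f M 2) (f M 0))

theorem ptr_update_two (d : ℕ) (V : Mem) (b : Bool) : ptr d (Function.update V 2 b) = ptr d V := by
  unfold ptr
  apply Finset.sum_congr rfl
  intro r _
  rw [Function.update_of_ne (by omega)]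

theorem flipAns_of_false {f : Mem → Mem} {M : Mem} (h : f M 0 = false) : flipAns f M = f M := by
  unfold flipAns
  rw [h, Bool.xor_false, Function.update_eq_self]

theorem flipAns_sta_lt {f : Mem → Mem} {d N : ℕ} (h : ∀ t < N, sta f d t 0 = false) :
    ∀ t < N, sta (flipAns f) d t = sta f d t := by
  intro t
  induction t using Nat.strong_induction_on with
  | _ t ih =>
    intro ht
    cases t with
    | zero => rfl
    | succ t =>
      have e : sta (flipAns f) d t = sta f d t := ih t (by omega) (by omega)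
      have er : rcl (flipAns f) d t = rcl f d t := by unfold rcl; rw [e]
      have e2 : (if rcl f d t ≤ t then sta (flipAns f) d (rcl f d t) else zeroMem) =
          (if rcl f d t ≤ t then sta f d (rcl f d t) else zeroMem) := by
        by_cases hr : rcl f d t ≤ t
        · rw [if_pos hr, if_pos hr, ih _ (by omega) (by omega)]
        · rw [if_neg hr, if_neg hr]
      rw [hcl_succ, er, e, e2]
      have h5 := h (t + 1) ht
      rw [hcl_succ] at h5 ⊢
      exact flipAns_of_false h5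

theorem flipAns_sta {f : Mem → Mem} {d N : ℕ} (h : ∀ t < N, sta f d t 0 = false) :
    sta (flipAns f) d N = Function.update (sta f d N) 2 (xor (sta f d N 2) (sta f d N 0)) := by
  have key := flipAns_sta_lt h
  cases N with
  | zero =>
    show zeroMem = Function.update zeroMem 2 (xor (zeroMem 2) (zeroMem 0))
    unfold zeroMem
    simp
  | succ t =>
    have e : sta (flipAns f) d t = sta f d t := key t (by omega)
    have er : rcl (flipAns f) d t = rcl f d t := by unfold rcl; rw [e]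
    have e2 : (if rcl f d t ≤ t then sta (flipAns f) d (rcl f d t) else zeroMem) =
        (if rcl f d t ≤ t then sta f d (rcl f d t) else zeroMem) := by
      by_cases hr : rcl f d t ≤ t
      · rw [if_pos hr, if_pos hr, key _ (by omega)]
      · rw [if_neg hr, if_neg hr]
    rw [hcl_succ (flipAns f), er, e, e2, hcl_succ f]
    rfl

theorem flipAns_halts {f : Mem → Mem} {d N : ℕ} (h : HaltsAt f d N) :
    HaltsAt (flipAns f) d N := by
  refine ⟨?_, fun t ht => by rw [flipAns_sta_lt h.2 t ht]; exact h.2 t ht⟩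
  rw [flipAns_sta h.2, Function.update_of_ne (by omega)]
  exact h.1

theorem flipAns_rcl {f : Mem → Mem} {d N : ℕ} (h : ∀ t < N, sta f d t 0 = false) :
    ∀ t ≤ N, rcl (flipAns f) d t = rcl f d t := by
  intro t ht
  rcases Nat.lt_or_ge t N with h3 | h3
  · unfold rcl; rw [flipAns_sta_lt h t h3]
  · obtain rfl : t = N := by omega
    unfold rcl
    rw [flipAns_sta h, ptr_update_two]

theorem flipAns_ans {f : Mem → Mem} {d T : ℕ} {b : Bool} (h : HAns f d T b) :
    HAns (flipAns f) d T (!b) := by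
  obtain ⟨N, h0, h1, h2⟩ := h
  refine ⟨N, h0, flipAns_halts h1, ?_⟩
  rw [flipAns_sta h1.2, Function.update_self, h1.1, h2]
  simp

/-- the halting pass of the changed computation -/
theorem flipAns_halts_iff {f : Mem → Mem} {d N : ℕ} : HaltsAt (flipAns f) d N ↔ HaltsAt f d N := by
  refine ⟨fun h => ?_, flipAns_halts⟩
  have hex : ∃ t, t ≤ N ∧ sta f d t 0 = true := by
    by_contra hno
    push Not at hno
    have h3 : ∀ t < N, sta f d t 0 = false := fun t ht => by
      have := hno t ht.le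
      simpa using this
    have h5 := h.1
    rw [flipAns_sta h3, Function.update_of_ne (by omega)] at h5
    exact hno N le_rfl h5
  classical
  have hM := Nat.find_spec hex
  have hlt : ∀ t < Nat.find hex, sta f d t 0 = false := fun t ht => by
    have h3 := Nat.find_min hex ht
    by_contra h4
    exact h3 ⟨(ht.le.trans hM.1), by simpa using h4⟩
  have hH : HaltsAt f d (Nat.find hex) := ⟨hM.2, hlt⟩
  have := hcl_unique (flipAns_halts hH) h
  rwa [this] at hH

/-! ## programs, pointwise in the input -/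

/-- a program on a virtual input -/
theorem exists_virt_hist {G : List Ins} {s l t d : ℕ} (hG : HSz s d G) (hs : 3 ≤ s)
    {φ : Inp → Inp} (hφ : Loc l t φ) (hl : s ≤ l) :
    ∃ G' : List Ins, HSz (s * (t + 1) + 2 * s + t) d G' ∧ ∀ z : Inp,
      (∀ T b, HAns (eval G (φ z)) d T b → HAns (eval G' z) d T b) ∧
      (∀ N, HaltsAt (eval G' z) d N → HaltsAt (eval G (φ z)) d N) ∧
      rcl (eval G' z) d = rcl (eval G (φ z)) d := by
  obtain ⟨G', hG', h1⟩ := ((Tr.pass hG.1).virt hφ hl).exists_code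
  have hd := hG.2
  refine ⟨G', ⟨hG'.mono (by omega), by nlinarith [Nat.zero_le (s * (t + 1)), Nat.zero_le t]⟩,
    fun z => ?_⟩
  have h2 : ∀ M M', Agr s M M' → Agr s (eval G' z M) (eval G (φ z) M') :=
    fun M M' hM => h1 z M M' hM
  exact ⟨fun T b h => (hcl_ans hs hd h2).2 h, fun N h => (hcl_halts hd h2).1 h, hcl_rcl hd h2⟩

/-- complement, pointwise in the input -/
theorem exists_compl_hist {G : List Ins} {s d : ℕ} (hG : HSz s d G) (hs : 3 ≤ s) :
    ∃ G' : List Ins, HSz (2 * s + 100) d G' ∧ ∀ z : Inp,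
      (∀ T b, HAns (eval G z) d T b → HAns (eval G' z) d T (!b)) ∧
      (∀ N, HaltsAt (eval G' z) d N → HaltsAt (eval G z) d N ∧
        ∀ t ≤ N, rcl (eval G' z) d t = rcl (eval G z) d t) := by
  have h1 : Cp s 70 (fun _ M => bif M 0 then !(M 2) else M 2) :=
    (Cp.ite (Cp.cell (show 0 < s by omega))
      (Cp.cell (show 2 < s by omega)).not (Cp.cell (show 2 < s by omega))).mono le_rfl
      (by norm_num)
  have h2 : Tr s (s + 70) (fun z M => Function.update (eval G z M) 2
      (bif eval G z M 0 then !(eval G z M 2) else eval G z M 2)) :=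
    (Tr.pass hG.1).comp (Tr.set h1 (show 2 < s by omega))
  obtain ⟨G', hG', h3⟩ := h2.exists_code
  have hd := hG.2
  refine ⟨G', ⟨hG'.mono (by omega), by omega⟩, fun z => ?_⟩
  have e : (fun M => Function.update (eval G z M) 2
      (bif eval G z M 0 then !(eval G z M 2) else eval G z M 2)) = flipAns (eval G z) := by
    funext M
    unfold flipAns
    congr 1
    cases eval G z M 0 <;> simp
  have h4 : ∀ M M', Agr s M M' → Agr s (eval G' z M) (flipAns (eval G z) M') := by
    intro M M' hM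
    rw [← e]
    exact h3 z M M' hM
  refine ⟨fun T b h => (hcl_ans hs hd h4).2 (flipAns_ans h), fun N h => ?_⟩
  have h5 := flipAns_halts_iff.1 ((hcl_halts hd h4).1 h)
  refine ⟨h5, fun t ht => ?_⟩
  rw [hcl_rcl hd h4]
  exact flipAns_rcl h5.2 t ht

/-! ## families -/

/-- the property only depends on the pointers before the end of the computation -/
def QLoc (Q : ℕ → ℕ → (ℕ → ℕ) → Prop) : Prop :=
  ∀ L N rc rc', (∀ t < N, rc' t = rc t) → Q L N rc → Q L N rc'

theorem QLoc.true : QLoc fun _ _ _ => True := fun _ _ _ _ _ _ => trivial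

section families

variable {T S : Type} {Q : ℕ → ℕ → (ℕ → ℕ) → Prop} {π : Pres T} {ρ : Pres S} {P D : T → Prop}
  {e : ℝ}

/-- sizes at least 3 -/
theorem InG.sz3 (h : InG Q π P e D) :
    ∃ (G : ℕ → List Ins) (s t d : ℕ → ℕ) (L₀ : ℕ), SubExp s ∧ ExpLe e t ∧ (∀ L, 3 ≤ s L) ∧
      (∀ L, HSz (s L) (d L) (G L)) ∧ ∀ τ, L₀ ≤ π.idx τ →
      (∃ b, HAns (eval (G (π.idx τ)) (π.inp τ)) (d (π.idx τ)) (t (π.idx τ)) b ∧
        (b = true ↔ P τ)) ∧
      (D τ → ∀ N, HaltsAt (eval (G (π.idx τ)) (π.inp τ)) (d (π.idx τ)) N →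
        Q (π.idx τ) N (rcl (eval (G (π.idx τ)) (π.inp τ)) (d (π.idx τ)))) := by
  obtain ⟨G, s, t, d, L₀, h1, h2, h3, h4⟩ := h
  refine ⟨G, fun L => s L + 3, t, d, L₀, (ex_zero_iff.1 h1).add (SubExp.const 3), ex_iff.1 h2,
    fun L => Nat.le_add_left _ _, fun L => ⟨(h3 L).1.mono (Nat.le_add_right _ _), ?_⟩, h4⟩
  exact lt_of_lt_of_le (h3 L).2 (Nat.le_add_right _ _)

theorem InG.compl (hQ : QLoc Q) (h : InG Q π P e D) : InG Q π (fun τ => ¬ P τ) e D := by
  obtain ⟨G, s, t, d, L₀, h1, h2, h3, h4, h5⟩ := h.sz3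
  choose G' hG' hrun using fun L => exists_compl_hist (h4 L) (h3 L)
  refine ⟨G', fun L => 2 * s L + 100, t, d, L₀, ?_, ex_iff.2 h2, hG', fun τ hτ => ⟨?_, ?_⟩⟩
  · exact ex_zero_iff.2 (((SubExp.const 2).mul h1).add (SubExp.const 100))
  · obtain ⟨b, hb, hbP⟩ := (h5 τ hτ).1
    exact ⟨!b, (hrun _ _).1 _ _ hb, by cases b <;> simp_all⟩
  · intro hD N hN
    obtain ⟨h6, h7⟩ := (hrun _ _).2 N hN
    exact hQ _ _ _ _ (fun t ht => h7 t ht.le) ((h5 τ hτ).2 hD N h6)

/-- **Virtual inputs for families.**  The instances `σ` of `ρ` are decided by the program for the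
instances `f σ` of `π`, if the input of `f σ` is a local function of the input of `σ`. The
computation is the same. -/
theorem InG.virt (h : InG Q π P e D)
    (f : S → T) (hidx : ∀ σ, π.idx (f σ) = ρ.idx σ) (φ : ℕ → Inp → Inp)
    (hφ : LocF φ)
    (hinp : ∃ L₁, ∀ σ, L₁ ≤ ρ.idx σ → π.inp (f σ) = φ (ρ.idx σ) (ρ.inp σ)) :
    InG Q ρ (fun σ => P (f σ)) e (fun σ => D (f σ)) := by
  obtain ⟨G, s, t, d, L₀, h1, h2, h3, h4, h5⟩ := h.sz3
  obtain ⟨u, hu, hu'⟩ := hφ s h1
  obtain ⟨L₁, hL₁⟩ := hinp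
  choose G' hG' hrun using fun L => exists_virt_hist (h4 L) (h3 L) (hu' L) le_rfl
  refine ⟨G', fun L => s L * (u L + 1) + 2 * s L + u L, t, d, max L₀ L₁, ?_, ex_iff.2 h2, hG',
    fun σ hσ => ?_⟩
  · exact ex_zero_iff.2 (((h1.mul (hu.add (SubExp.const 1))).add ((SubExp.const 2).mul h1)).add hu)
  · have h6 := h5 (f σ) (by rw [hidx]; exact le_trans (le_max_left _ _) hσ)
    rw [hidx, hL₁ σ (le_trans (le_max_right _ _) hσ)] at h6
    obtain ⟨h7, h8, h9⟩ := hrun (ρ.idx σ) (ρ.inp σ)
    refine ⟨?_, fun hD N hN => ?_⟩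
    · obtain ⟨b, hb, hbP⟩ := h6.1
      exact ⟨b, h7 _ _ hb, hbP⟩
    · rw [h9]
      exact h6.2 hD N (h8 N hN)

theorem InG.dummy (β : ℕ → ℕ) (h : InG Q π P e D) :
    InG Q (π.ext β) (fun p => P p.1) e (fun p => D p.1) := by
  refine h.virt (ρ := π.ext β) Prod.fst (fun _ => rfl) (fun _ z a => z ([false] ++ a))
    (LocF.shift [false] LocF.id) ⟨0, fun σ _ => ?_⟩
  rfl

/-- the input with two strings is a local function of the input with the merged string -/
theorem ext_merge (π : Pres T) (β β' : ℕ → ℕ) (p : T × Inp) :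
    ((π.ext β).ext β').inp ((p.1, fun a => p.2 (false :: a)), fun a => p.2 (true :: a)) =
      (fun z => pair (pair (fun a => z ([false] ++ a))
          (trc (β (π.idx p.1)) fun a => z ([true, false] ++ a)))
        (trc (β' (π.idx p.1)) fun a => z ([true, true] ++ a)))
        ((π.ext fun L => max (β L) (β' L) + 1).inp p) := by
  set m := max (β (π.idx p.1)) (β' (π.idx p.1)) + 1 with hm
  have e1 : trc (β (π.idx p.1)) (fun a => p.2 (false :: a)) =
      trc (β (π.idx p.1)) (fun a => trc m p.2 (false :: a)) := by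
    funext a
    simp only [trc]
    by_cases ha : a.length ≤ β (π.idx p.1)
    · have h1 : (false :: a).length ≤ m := by
        simp only [List.length_cons, hm]
        exact Nat.succ_le_succ (ha.trans (le_max_left _ _))
      rw [if_pos ha, if_pos ha, if_pos h1]
    · rw [if_neg ha, if_neg ha]
  have e2 : trc (β' (π.idx p.1)) (fun a => p.2 (true :: a)) =
      trc (β' (π.idx p.1)) (fun a => trc m p.2 (true :: a)) := by
    funext a
    simp only [trc]
    by_cases ha : a.length ≤ β' (π.idx p.1)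
    · have h1 : (true :: a).length ≤ m := by
        simp only [List.length_cons, hm]
        exact Nat.succ_le_succ (ha.trans (le_max_right _ _))
      rw [if_pos ha, if_pos ha, if_pos h1]
    · rw [if_neg ha, if_neg ha]
  show pair (pair (π.inp p.1) (trc (β (π.idx p.1)) fun a => p.2 (false :: a)))
    (trc (β' (π.idx p.1)) fun a => p.2 (true :: a)) =
    pair (pair (π.inp p.1) (trc (β (π.idx p.1)) fun a => trc m p.2 (false :: a)))
    (trc (β' (π.idx p.1)) fun a => trc m p.2 (true :: a))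
  rw [e1, e2]

theorem InG.merge {u u' : ℝ} {β β' : ℕ → ℕ} {C D : (T × Inp) × Inp → Prop} (hβ : Lin u β)
    (hβ' : Lin u' β') (h : InG Q ((π.ext β).ext β') C e D) :
    ∃ β'' : ℕ → ℕ, Lin (max u u') β'' ∧
      InG Q (π.ext β'')
        (fun p => C ((p.1, fun a => p.2 (false :: a)), fun a => p.2 (true :: a))) e
        (fun p => D ((p.1, fun a => p.2 (false :: a)), fun a => p.2 (true :: a))) := by
  refine ⟨fun L => max (β L) (β' L) + 1, ?_, ?_⟩
  · have := (hβ.max hβ').add (Lin.const 0 le_rfl 1)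
    rwa [add_zero] at this
  · exact h.virt (ρ := π.ext fun L => max (β L) (β' L) + 1)
      (fun p => ((p.1, fun a => p.2 (false :: a)), fun a => p.2 (true :: a))) (fun _ => rfl)
      (fun L z => pair (pair (fun a => z ([false] ++ a)) (trc (β L) fun a => z ([true, false] ++ a)))
        (trc (β' L) fun a => z ([true, true] ++ a)))
      (LocF.pair (LocF.pair (LocF.shift [false] LocF.id)
        (LocF.trc (LocF.shift [true, false] LocF.id) β))
        (LocF.trc (LocF.shift [true, true] LocF.id) β')) ⟨0, fun p _ => ext_merge π β β' p⟩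

theorem InG.congr_ev {P' : T → Prop} (h : InG Q π P e D)
    (hP : ∃ L₁, ∀ τ, L₁ ≤ π.idx τ → (P τ ↔ P' τ)) : InG Q π P' e D := by
  obtain ⟨G, s, t, d, L₀, h1, h2, h3, h4⟩ := h
  obtain ⟨L₁, hL₁⟩ := hP
  refine ⟨G, s, t, d, max L₀ L₁, h1, h2, h3, fun τ hτ => ⟨?_, (h4 τ (le_trans (le_max_left _ _)
    hτ)).2⟩⟩
  obtain ⟨b, hb, hb'⟩ := (h4 τ (le_trans (le_max_left _ _) hτ)).1
  exact ⟨b, hb, hb'.trans (hL₁ τ (le_trans (le_max_right _ _) hτ))⟩

/-- the answer only depends on the index and the input -/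
theorem InG.det (h : InG Q π P e D) :
    ∃ L₀, ∀ τ τ', L₀ ≤ π.idx τ → π.idx τ = π.idx τ' → π.inp τ = π.inp τ' → (P τ ↔ P τ') := by
  obtain ⟨G, s, t, d, L₀, h1, h2, h3, h4⟩ := h
  refine ⟨L₀, fun τ τ' hτ hi hz => ?_⟩
  obtain ⟨b, hb, hbP⟩ := (h4 τ hτ).1
  obtain ⟨b', hb', hbP'⟩ := (h4 τ' (hi ▸ hτ)).1
  rw [← hi, ← hz] at hb'
  rw [← hbP, ← hbP', hcl_det hb hb']

end families

/-! ## `InH`, `InV` -/

section classes

variable {T S : Type} {π : Pres T} {ρ' : Pres S} {P : T → Prop} {e c E : ℝ}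

theorem InH.compl (h : InH π P e) : InH π (fun τ => ¬ P τ) e := InG.compl QLoc.true h

theorem InH.virt (h : InH π P e)
    (f : S → T) (hidx : ∀ σ, π.idx (f σ) = ρ'.idx σ) (φ : ℕ → Inp → Inp)
    (hφ : LocF φ)
    (hinp : ∃ L₁, ∀ σ, L₁ ≤ ρ'.idx σ → π.inp (f σ) = φ (ρ'.idx σ) (ρ'.inp σ)) :
    InH ρ' (fun σ => P (f σ)) e := InG.virt h f hidx φ hφ hinp

theorem InH.dummy (β : ℕ → ℕ) (h : InH π P e) : InH (π.ext β) (fun p => P p.1) e :=
  InG.dummy β h

theorem InH.congr_ev {P' : T → Prop} (h : InH π P e)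
    (hP : ∃ L₁, ∀ τ, L₁ ≤ π.idx τ → (P τ ↔ P' τ)) : InH π P' e := InG.congr_ev h hP

variable {Qs : ℕ → ℕ → (ℕ → ℕ) → Prop}

theorem InV.compl (hQ : QLoc Qs) (h : InV Qs c π P E) : InV Qs c π (fun τ => ¬ P τ) E := by
  obtain ⟨m, h1, h2, h3⟩ := h
  exact ⟨m, h1, h2, h3.compl fun L N rc rc' h h' => hQ (m L) N rc rc' h h'⟩

theorem InV.dummy (β : ℕ → ℕ) (h : InV Qs c π P E) : InV Qs c (π.ext β) (fun p => P p.1) E := by
  obtain ⟨m, h1, h2, h3⟩ := h
  exact ⟨m, h1, h2, h3.dummy β⟩

theorem InV.merge {u u' : ℝ} {β β' : ℕ → ℕ} {C : (T × Inp) × Inp → Prop} (hβ : Lin u β)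
    (hβ' : Lin u' β') (h : InV Qs c ((π.ext β).ext β') C E) :
    ∃ β'' : ℕ → ℕ, Lin (max u u') β'' ∧
      InV Qs c (π.ext β'')
        (fun p => C ((p.1, fun a => p.2 (false :: a)), fun a => p.2 (true :: a))) E := by
  obtain ⟨m, h1, h2, h3⟩ := h
  obtain ⟨β'', h4, h5⟩ := InG.merge hβ hβ' h3
  exact ⟨β'', h4, m, h1, h2, h5⟩

theorem InV.congr_ev {P' : T → Prop} (h : InV Qs c π P E)
    (hP : ∃ L₁, ∀ τ, L₁ ≤ π.idx τ → (P τ ↔ P' τ)) : InV Qs c π P' E := by
  obtain ⟨m, h1, h2, h3⟩ := h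
  exact ⟨m, h1, h2, h3.congr_ev hP⟩

end classes

end Pool.Agent.NUM
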