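import Pool.Agent.NUM.RBasic
import Pool.Agent.NUM.HClosure

/-!
# Closure properties of the classes of programs of random access machines

Virtual inputs, complement, dummy strings, merging of strings for `InR Q π P e D`.
-/

set_option autoImplicit false

namespace Pool.Agent.NUM

open Filter

/-! ## changing the answer -/

theorem flipAns_rst_lt {f : Mem → Mem} {d N : ℕ} (h : ∀ t < N, rst f d t 0 = false) :
    ∀ t < N, rst (flipAns f) d t = rst f d t ∧ rsrc (flipAns f) d t = rsrc f d t := by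
  intro t
  induction t using Nat.strong_induction_on with
  | _ t ih =>
    intro ht
    have h1 : rst (flipAns f) d t = rst f d t := by
      cases t with
      | zero => rfl
      | succ t =>
        have h2 := ih t (by omega) (by omega)
        have h3 := (ih (rsrc f d t) (by have := rsrc_le f d t; omega)
          (by have := rsrc_le f d t; omega)).1
        rw [rst_succ, h2.1, h2.2, h3]
        have h5 := h (t + 1) ht
        rw [rst_succ] at h5 ⊢
        exact flipAns_of_false h5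
    refine ⟨h1, ?_⟩
    unfold rsrc
    refine findGreatest_congr fun p hp => ?_
    have h4 : rst (flipAns f) d p = rst f d p := by
      rcases Nat.lt_or_ge p t with h6 | h6
      · exact (ih p h6 (by omega)).1
      · obtain rfl : p = t := by omega
        exact h1
    rw [h1, h4]

theorem flipAns_rst {f : Mem → Mem} {d N : ℕ} (h : ∀ t < N, rst f d t 0 = false) :
    rst (flipAns f) d N = Function.update (rst f d N) 2 (xor (rst f d N 2) (rst f d N 0)) := by
  have key := flipAns_rst_lt h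
  cases N with
  | zero =>
    show zeroMem = Function.update zeroMem 2 (xor (zeroMem 2) (zeroMem 0))
    unfold zeroMem
    simp
  | succ t =>
    have h2 := key t (by omega)
    have h3 := (key (rsrc f d t) (by have := rsrc_le f d t; omega)).1
    rw [rst_succ (flipAns f), h2.1, h2.2, h3, rst_succ f]
    rfl

theorem flipAns_rHalts {f : Mem → Mem} {d N : ℕ} (h : RHalts f d N) :
    RHalts (flipAns f) d N := by
  refine ⟨?_, fun t ht => by rw [(flipAns_rst_lt h.2 t ht).1]; exact h.2 t ht⟩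
  rw [flipAns_rst h.2, Function.update_of_ne (by omega)]
  exact h.1

theorem flipAns_rsrc {f : Mem → Mem} {d N : ℕ} (h : ∀ t < N, rst f d t 0 = false) :
    ∀ t < N, rsrc (flipAns f) d t = rsrc f d t := fun t ht => (flipAns_rst_lt h t ht).2

theorem flipAns_rAns {f : Mem → Mem} {d T : ℕ} {b : Bool} (h : RAns f d T b) :
    RAns (flipAns f) d T (!b) := by
  obtain ⟨N, h0, h1, h2⟩ := h
  refine ⟨N, h0, flipAns_rHalts h1, ?_⟩
  rw [flipAns_rst h1.2, Function.update_self, h1.1, h2]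
  simp

/-- the halting step of the changed computation -/
theorem flipAns_rHalts_iff {f : Mem → Mem} {d N : ℕ} : RHalts (flipAns f) d N ↔ RHalts f d N := by
  refine ⟨fun h => ?_, flipAns_rHalts⟩
  have hex : ∃ t, t ≤ N ∧ rst f d t 0 = true := by
    by_contra hno
    push Not at hno
    have h3 : ∀ t < N, rst f d t 0 = false := fun t ht => by
      have := hno t ht.le
      simpa using this
    have h5 := h.1
    rw [flipAns_rst h3, Function.update_of_ne (by omega)] at h5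
    exact hno N le_rfl h5
  obtain ⟨t, ht, h1⟩ := hex
  obtain ⟨N', hN', h2⟩ := exists_rHalts h1
  have := rhalts_unique (flipAns_rHalts h2) h
  rwa [this] at h2

/-! ## programs, pointwise in the input -/

/-- a program on a virtual input -/
theorem exists_virt_ram {G : List Ins} {s l t d : ℕ} (hG : RSz s d G) (hs : 3 ≤ s)
    {φ : Inp → Inp} (hφ : Loc l t φ) (hl : s ≤ l) :
    ∃ G' : List Ins, RSz (s * (t + 1) + 2 * s + t) d G' ∧ ∀ z : Inp,
      (∀ T b, RAns (eval G (φ z)) d T b → RAns (eval G' z) d T b) ∧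
      (∀ N, RHalts (eval G' z) d N → RHalts (eval G (φ z)) d N) ∧
      rsrc (eval G' z) d = rsrc (eval G (φ z)) d := by
  have _ := hs
  obtain ⟨G', hG', h1⟩ := ((Tr.pass hG.1).virt hφ hl).exists_code
  have hd := hG.2
  refine ⟨G', ⟨hG'.mono (by omega), by nlinarith [Nat.zero_le (s * (t + 1)), Nat.zero_le t]⟩,
    fun z => ?_⟩
  have h2 : ∀ M M', Agr s M M' → EvAgr s (eval G' z M) (eval G (φ z) M') :=
    fun M M' hM => (h1 z M M' hM).ev
  exact ⟨fun T b h => (rAns_transfer hd h2).2 h, fun N h => (rHalts_transfer hd h2).1 h,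
    rsrc_transfer hd h2⟩

/-- complement, pointwise in the input -/
theorem exists_compl_ram {G : List Ins} {s d : ℕ} (hG : RSz s d G) (hs : 3 ≤ s) :
    ∃ G' : List Ins, RSz (2 * s + 100) d G' ∧ ∀ z : Inp,
      (∀ T b, RAns (eval G z) d T b → RAns (eval G' z) d T (!b)) ∧
      (∀ N, RHalts (eval G' z) d N → RHalts (eval G z) d N ∧
        ∀ t < N, rsrc (eval G' z) d t = rsrc (eval G z) d t) := by
  have h1 : Cp s 70 (fun _ M => bif M 0 then !(M 2) else M 2) :=
    (Cp.ite (Cp.cell (show 0 < s by omega))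
      (Cp.cell (show 2 < s by omega)).not (Cp.cell (show 2 < s by omega))).mono le_rfl
      (by norm_num)
  have h2 : Tr s (s + 70) (fun z M => Function.update (eval G z M) 2
      (bif eval G z M 0 then !(eval G z M 2) else eval G z M 2)) :=
    (Tr.pass hG.1).comp (Tr.set h1 (show 2 < s by omega))
  obtain ⟨G', hG', h3⟩ := h2.exists_code
  have hd := hG.2
  refine ⟨G', ⟨hG'.mono (by omega), by omega⟩, fun z => ?_⟩
  have e : (fun M => Function.update (eval G z M) 2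
      (bif eval G z M 0 then !(eval G z M 2) else eval G z M 2)) = flipAns (eval G z) := by
    funext M
    unfold flipAns
    congr 1
    cases eval G z M 0 <;> simp
  have h4 : ∀ M M', Agr s M M' → EvAgr s (eval G' z M) (flipAns (eval G z) M') := by
    intro M M' hM
    rw [← e]
    exact (h3 z M M' hM).ev
  refine ⟨fun T b h => (rAns_transfer hd h4).2 (flipAns_rAns h), fun N h => ?_⟩
  have h5 := flipAns_rHalts_iff.1 ((rHalts_transfer hd h4).1 h)
  refine ⟨h5, fun t ht => ?_⟩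
  rw [rsrc_transfer hd h4]
  exact flipAns_rsrc h5.2 t ht

/-! ## families -/

/-- `P` is decided by programs of random access machines of size `2 ^ o(L)` in `2 ^ ((e + o(1)) L)`
steps on all instances (with large index); on the instances in `D` the computation has the property
`Q` (of the index, the number of steps and the sources of the records) -/
def InR {T : Type} (Q : ℕ → ℕ → (ℕ → ℕ) → Prop) (π : Pres T) (P : T → Prop) (e : ℝ)
    (D : T → Prop) : Prop :=
  ∃ (G : ℕ → List Ins) (s t d : ℕ → ℕ) (L₀ : ℕ), Ex 0 s ∧ Ex e t ∧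
    (∀ L, RSz (s L) (d L) (G L)) ∧
    ∀ τ, L₀ ≤ π.idx τ →
      (∃ b, RAns (eval (G (π.idx τ)) (π.inp τ)) (d (π.idx τ)) (t (π.idx τ)) b ∧
        (b = true ↔ P τ)) ∧
      (D τ → ∀ N, RHalts (eval (G (π.idx τ)) (π.inp τ)) (d (π.idx τ)) N →
        Q (π.idx τ) N (rsrc (eval (G (π.idx τ)) (π.inp τ)) (d (π.idx τ))))

theorem InR.mono {T : Type} {Q Q' : ℕ → ℕ → (ℕ → ℕ) → Prop} {π : Pres T} {P D D' : T → Prop}
    {e e' : ℝ} (h : InR Q π P e D) (he : e ≤ e') (hQ : ∀ L N rc, Q L N rc → Q' L N rc)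
    (hD : ∀ τ, D' τ → D τ) : InR Q' π P e' D' := by
  obtain ⟨G, s, t, d, L₀, h1, h2, h3, h4⟩ := h
  exact ⟨G, s, t, d, L₀, h1, h2.mono he, h3, fun τ hτ =>
    ⟨(h4 τ hτ).1, fun hDτ N hN => hQ _ _ _ ((h4 τ hτ).2 (hD τ hDτ) N hN)⟩⟩

theorem InR.congr {T : Type} {Q : ℕ → ℕ → (ℕ → ℕ) → Prop} {π : Pres T} {P P' D : T → Prop}
    {e : ℝ} (h : InR Q π P e D) (hP : ∀ τ, P τ ↔ P' τ) : InR Q π P' e D := by
  obtain ⟨G, s, t, d, L₀, h1, h2, h3, h4⟩ := h
  refine ⟨G, s, t, d, L₀, h1, h2, h3, fun τ hτ => ⟨?_, (h4 τ hτ).2⟩⟩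
  obtain ⟨b, hb, hb'⟩ := (h4 τ hτ).1
  exact ⟨b, hb, hb'.trans (hP τ)⟩

/-- without the property of the computations -/
theorem InR.weak {T : Type} {Q : ℕ → ℕ → (ℕ → ℕ) → Prop} {π : Pres T} {P D : T → Prop}
    {e : ℝ} (h : InR Q π P e D) : InR (fun _ _ _ => True) π P e fun _ => True := by
  obtain ⟨G, s, t, d, L₀, h1, h2, h3, h4⟩ := h
  exact ⟨G, s, t, d, L₀, h1, h2, h3, fun τ hτ => ⟨(h4 τ hτ).1, fun _ _ _ => trivial⟩⟩

section families

variable {T S : Type} {Q : ℕ → ℕ → (ℕ → ℕ) → Prop} {π : Pres T} {ρ : Pres S} {P D : T → Prop}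
  {e : ℝ}

/-- sizes at least 3 -/
theorem InR.sz3 (h : InR Q π P e D) :
    ∃ (G : ℕ → List Ins) (s t d : ℕ → ℕ) (L₀ : ℕ), SubExp s ∧ ExpLe e t ∧ (∀ L, 3 ≤ s L) ∧
      (∀ L, RSz (s L) (d L) (G L)) ∧ ∀ τ, L₀ ≤ π.idx τ →
      (∃ b, RAns (eval (G (π.idx τ)) (π.inp τ)) (d (π.idx τ)) (t (π.idx τ)) b ∧
        (b = true ↔ P τ)) ∧
      (D τ → ∀ N, RHalts (eval (G (π.idx τ)) (π.inp τ)) (d (π.idx τ)) N →
        Q (π.idx τ) N (rsrc (eval (G (π.idx τ)) (π.inp τ)) (d (π.idx τ)))) := by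
  obtain ⟨G, s, t, d, L₀, h1, h2, h3, h4⟩ := h
  exact ⟨G, s, t, d, L₀, ex_zero_iff.1 h1, ex_iff.1 h2,
    fun L => by have := (h3 L).2; omega, h3, h4⟩

theorem InR.compl (hQ : QLoc Q) (h : InR Q π P e D) : InR Q π (fun τ => ¬ P τ) e D := by
  obtain ⟨G, s, t, d, L₀, h1, h2, h3, h4, h5⟩ := h.sz3
  choose G' hG' hrun using fun L => exists_compl_ram (h4 L) (h3 L)
  refine ⟨G', fun L => 2 * s L + 100, t, d, L₀, ?_, ex_iff.2 h2, hG', fun τ hτ => ⟨?_, ?_⟩⟩
  · exact ex_zero_iff.2 (((SubExp.const 2).mul h1).add (SubExp.const 100))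
  · obtain ⟨b, hb, hbP⟩ := (h5 τ hτ).1
    exact ⟨!b, (hrun _ _).1 _ _ hb, by cases b <;> simp_all⟩
  · intro hD N hN
    obtain ⟨h6, h7⟩ := (hrun _ _).2 N hN
    exact hQ _ _ _ _ (fun t ht => h7 t ht) ((h5 τ hτ).2 hD N h6)

/-- **Virtual inputs for families.**  The instances `σ` of `ρ` are decided by the program for the
instances `f σ` of `π`, if the input of `f σ` is a local function of the input of `σ`. The
computation is the same. -/
theorem InR.virt (h : InR Q π P e D)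
    (f : S → T) (hidx : ∀ σ, π.idx (f σ) = ρ.idx σ) (φ : ℕ → Inp → Inp)
    (hφ : LocF φ)
    (hinp : ∃ L₁, ∀ σ, L₁ ≤ ρ.idx σ → π.inp (f σ) = φ (ρ.idx σ) (ρ.inp σ)) :
    InR Q ρ (fun σ => P (f σ)) e (fun σ => D (f σ)) := by
  obtain ⟨G, s, t, d, L₀, h1, h2, h3, h4, h5⟩ := h.sz3
  obtain ⟨u, hu, hu'⟩ := hφ s h1
  obtain ⟨L₁, hL₁⟩ := hinp
  choose G' hG' hrun using fun L => exists_virt_ram (h4 L) (h3 L) (hu' L) le_rfl
  refine ⟨G', fun L => s L * (u L + 1) + 2 * s L + u L, t, d, max L₀ L₁, ?_, ex_iff.2 h2, hG',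
    fun σ hσ => ?_⟩
  · exact ex_zero_iff.2 (((h1.mul (hu.add (SubExp.const 1))).add ((SubExp.const 2).mul h1)).add hu)
  · have h6 := h5 (f σ) (by rw [hidx]; exact le_trans (le_max_left _ _) hσ)
    rw [hidx, hL₁ σ (le_trans (le_max_right _ _) hσ)] at h6
    obtain ⟨h7, h8, h9⟩ := hrun (ρ.idx σ) (ρ.inp σ)
    refine ⟨?_, fun hD N hN => ?_⟩
    · obtain ⟨b, hb, hbP⟩ := h6.1
      exact ⟨b, h7 _ _ hb, hbP⟩
    · rw [h9]
      exact h6.2 hD N (h8 N hN)

theorem InR.dummy (β : ℕ → ℕ) (h : InR Q π P e D) :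
    InR Q (π.ext β) (fun p => P p.1) e (fun p => D p.1) := by
  refine h.virt (ρ := π.ext β) Prod.fst (fun _ => rfl) (fun _ z a => z ([false] ++ a))
    (LocF.shift [false] LocF.id) ⟨0, fun σ _ => ?_⟩
  rfl

theorem InR.merge {u u' : ℝ} {β β' : ℕ → ℕ} {C D : (T × Inp) × Inp → Prop} (hβ : Lin u β)
    (hβ' : Lin u' β') (h : InR Q ((π.ext β).ext β') C e D) :
    ∃ β'' : ℕ → ℕ, Lin (max u u') β'' ∧
      InR Q (π.ext β'')
        (fun p => C ((p.1, fun a => p.2 (false :: a)), fun a => p.2 (true :: a))) e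
        (fun p => D ((p.1, fun a => p.2 (false :: a)), fun a => p.2 (true :: a))) := by
  refine ⟨fun L => max (β L) (β' L) + 1, ?_, ?_⟩
  · have := (hβ.max hβ').add (Lin.const 0 le_rfl 1)
    rwa [add_zero] at this
  · exact h.virt (ρ := π.ext fun L => max (β L) (β' L) + 1)
      (fun p => ((p.1, fun a => p.2 (false :: a)), fun a => p.2 (true :: a))) (fun _ => rfl)
      (fun L z => pair (pair (fun a => z ([false] ++ a)) (trc (β L) fun a => z ([true, false] ++ a)))
        (trc (β' L) fun a => z ([true, true] ++ a)))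
      (LocF.pair (LocF.pair (LocF.shift [false] LocF.id)
        (LocF.trc (LocF.shift [true, false] LocF.id) β))
        (LocF.trc (LocF.shift [true, true] LocF.id) β')) ⟨0, fun p _ => ext_merge π β β' p⟩

theorem InR.congr_ev {P' : T → Prop} (h : InR Q π P e D)
    (hP : ∃ L₁, ∀ τ, L₁ ≤ π.idx τ → (P τ ↔ P' τ)) : InR Q π P' e D := by
  obtain ⟨G, s, t, d, L₀, h1, h2, h3, h4⟩ := h
  obtain ⟨L₁, hL₁⟩ := hP
  refine ⟨G, s, t, d, max L₀ L₁, h1, h2, h3, fun τ hτ => ⟨?_, (h4 τ (le_trans (le_max_left _ _)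
    hτ)).2⟩⟩
  obtain ⟨b, hb, hb'⟩ := (h4 τ (le_trans (le_max_left _ _) hτ)).1
  exact ⟨b, hb, hb'.trans (hL₁ τ (le_trans (le_max_right _ _) hτ))⟩

/-- the answer only depends on the index and the input -/
theorem InR.det (h : InR Q π P e D) :
    ∃ L₀, ∀ τ τ', L₀ ≤ π.idx τ → π.idx τ = π.idx τ' → π.inp τ = π.inp τ' → (P τ ↔ P τ') := by
  obtain ⟨G, s, t, d, L₀, h1, h2, h3, h4⟩ := h
  refine ⟨L₀, fun τ τ' hτ hi hz => ?_⟩
  obtain ⟨b, hb, hbP⟩ := (h4 τ hτ).1
  obtain ⟨b', hb', hbP'⟩ := (h4 τ' (hi ▸ hτ)).1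
  rw [← hi, ← hz] at hb'
  rw [← hbP, ← hbP', hb.det hb']

end families

/-- `P` is decided by the 3SAT program (of a random access machine) on virtual instances of order
`m L`, `m L ≤ (E + o(1)) L`; `Qs` is the property of the computations of the 3SAT program of a given
order -/
def InRV (Qs : ℕ → ℕ → (ℕ → ℕ) → Prop) (c : ℝ) {T : Type} (π : Pres T) (P : T → Prop) (E : ℝ) :
    Prop :=
  ∃ m : ℕ → ℕ, Lin E m ∧ Filter.Tendsto m Filter.atTop Filter.atTop ∧
    InR (fun L => Qs (m L)) π P (c * E) fun _ => True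

section classes

variable {T S : Type} {π : Pres T} {P : T → Prop} {c E : ℝ} {Qs : ℕ → ℕ → (ℕ → ℕ) → Prop}

theorem InRV.compl (hQ : QLoc Qs) (h : InRV Qs c π P E) : InRV Qs c π (fun τ => ¬ P τ) E := by
  obtain ⟨m, h1, h2, h3⟩ := h
  exact ⟨m, h1, h2, h3.compl fun L N rc rc' h h' => hQ (m L) N rc rc' h h'⟩

theorem InRV.dummy (β : ℕ → ℕ) (h : InRV Qs c π P E) : InRV Qs c (π.ext β) (fun p => P p.1) E := by
  obtain ⟨m, h1, h2, h3⟩ := h
  exact ⟨m, h1, h2, h3.dummy β⟩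

theorem InRV.merge {u u' : ℝ} {β β' : ℕ → ℕ} {C : (T × Inp) × Inp → Prop} (hβ : Lin u β)
    (hβ' : Lin u' β') (h : InRV Qs c ((π.ext β).ext β') C E) :
    ∃ β'' : ℕ → ℕ, Lin (max u u') β'' ∧
      InRV Qs c (π.ext β'')
        (fun p => C ((p.1, fun a => p.2 (false :: a)), fun a => p.2 (true :: a))) E := by
  obtain ⟨m, h1, h2, h3⟩ := h
  obtain ⟨β'', h4, h5⟩ := InR.merge hβ hβ' h3
  exact ⟨β'', h4, m, h1, h2, h5⟩

theorem InRV.congr_ev {P' : T → Prop} (h : InRV Qs c π P E)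
    (hP : ∃ L₁, ∀ τ, L₁ ≤ π.idx τ → (P τ ↔ P' τ)) : InRV Qs c π P' E := by
  obtain ⟨m, h1, h2, h3⟩ := h
  exact ⟨m, h1, h2, h3.congr_ev hP⟩

end classes

end Pool.Agent.NUM
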