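import Pool.Agent.NUM.GCls
import Pool.Agent.NUM.RClosure

/-!
# The class of the problems which are decided by random access programs with hereditary separators
-/

set_option autoImplicit false

namespace Pool.Agent.NUM

/-- `P` is decided in `2 ^ ((e + o(1)) L)` steps by random access programs of size `2 ^ o(L)` whose
computations have hereditary separators of size `2 ^ o(L) * |W| ^ γ` -/
def ClsR (γ : ℝ) : (T : Type) → Pres T → (T → Prop) → ℝ → Prop := fun _ π P e =>
  ∃ k : ℕ → ℕ, Ex 0 k ∧ InR (fun L N rc => HSep N rc γ (k L)) π P e fun _ => True

end Pool.Agent.NUM
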