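import Pool.Agent.NUM.Defs

/-!
# Basic lemmas on nonuniform pushdown programs
-/

namespace Pool.Agent.NUM

/-! ## run and Ev -/

theorem run_succ (f : Mem → Mem) (k : ℕ) (M : Mem) (st : List Bool) :
    run f (k + 1) M st =
      if f M 0 = true then
        if f M 1 = true then
          match st with
          | [] => some (f M 2)
          | b :: st' => run f k (Function.update (f M) 2 b) st'
        else run f k (f M) (f M 2 :: st)
      else run f k (f M) st := by
  cases st <;> rfl

theorem run_mono {f : Mem → Mem} {k : ℕ} {M : Mem} {st : List Bool} {b : Bool}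
    (h : run f k M st = some b) : ∀ k', k ≤ k' → run f k' M st = some b := by
  induction k generalizing M st with
  | zero => simp [run] at h
  | succ k ih =>
    intro k' hk'
    obtain ⟨k'', rfl⟩ : ∃ k'', k' = k'' + 1 := ⟨k' - 1, by omega⟩
    rw [run_succ] at h ⊢
    by_cases h0 : f M 0 = true
    · by_cases h1 : f M 1 = true
      · simp only [h0, h1, if_true] at h ⊢
        cases st with
        | nil => exact h
        | cons b st' => exact ih h k'' (by omega)
      · simp only [h0, h1, if_true, if_false] at h ⊢
        exact ih h k'' (by omega)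
    · simp only [h0, if_false] at h ⊢
      exact ih h k'' (by omega)

theorem Ev.run_eq {f : Mem → Mem} {k : ℕ} {M V : Mem} (h : Ev f k M V) (j : ℕ)
    (st : List Bool) : run f (k + j) M st =
      match st with
      | [] => some (V 2)
      | b :: st' => run f j (Function.update V 2 b) st' := by
  induction h generalizing j st with
  | @halt M h0 h1 =>
    rw [show 1 + j = j + 1 by omega, run_succ]
    simp only [h0, h1, if_true]
  | @go M k V h0 _ ih =>
    rw [show k + 1 + j = (k + j) + 1 by omega, run_succ]
    simp only [h0]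
    exact ih j st
  | @push M k₁ k₂ V₁ V h0 h1 _ _ ih₁ ih₂ =>
    rw [show k₁ + k₂ + 1 + j = (k₁ + (k₂ + j)) + 1 by omega, run_succ]
    simp only [h0, h1, if_true]
    rw [ih₁ (k₂ + j) (f M 2 :: st)]
    exact ih₂ j st

theorem Ev.run_nil {f : Mem → Mem} {k : ℕ} {M V : Mem} (h : Ev f k M V) {T : ℕ} (hT : k ≤ T) :
    run f T M [] = some (V 2) := by
  have := h.run_eq 0 []
  exact run_mono (by simpa using this) T hT

theorem exists_Ev_of_run {f : Mem → Mem} : ∀ (T : ℕ) (M : Mem) (st : List Bool) (b : Bool),
    run f T M st = some b → ∃ k V, k ≤ T ∧ Ev f k M V ∧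
      match st with
      | [] => V 2 = b
      | c :: st' => run f (T - k) (Function.update V 2 c) st' = some b := by
  intro T
  induction T using Nat.strong_induction_on with
  | _ T ih =>
    intro M st b h
    cases T with
    | zero => simp [run] at h
    | succ T =>
      rw [run_succ] at h
      by_cases h0 : f M 0 = true
      · by_cases h1 : f M 1 = true
        · simp only [h0, h1, if_true] at h
          refine ⟨1, f M, by omega, Ev.halt h0 h1, ?_⟩
          cases st with
          | nil => simpa using h
          | cons c st' => simpa using h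
        · simp only [h0, h1, if_true] at h
          have h1' : f M 1 = false := by simpa using h1
          obtain ⟨k₁, V₁, hk₁, hE₁, hr⟩ := ih T (by omega) (f M) (f M 2 :: st) b (by simpa using h)
          simp only at hr
          obtain ⟨k₂, V, hk₂, hE₂, hr₂⟩ := ih (T - k₁) (by omega) _ st b hr
          refine ⟨k₁ + k₂ + 1, V, by omega, Ev.push h0 h1' hE₁ hE₂, ?_⟩
          cases st with
          | nil => exact hr₂
          | cons c st' =>
            simp only at hr₂ ⊢
            rw [show T + 1 - (k₁ + k₂ + 1) = T - k₁ - k₂ by omega]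
            exact hr₂
      · have h0' : f M 0 = false := by simpa using h0
        simp only [h0] at h
        obtain ⟨k, V, hk, hE, hr⟩ := ih T (by omega) (f M) st b (by simpa using h)
        refine ⟨k + 1, V, by omega, Ev.go h0' hE, ?_⟩
        cases st with
        | nil => exact hr
        | cons c st' =>
          simp only at hr ⊢
          rw [show T + 1 - (k + 1) = T - k by omega]
          exact hr

theorem run_nil_iff {f : Mem → Mem} {T : ℕ} {M : Mem} {b : Bool} :
    run f T M [] = some b ↔ ∃ k V, k ≤ T ∧ Ev f k M V ∧ V 2 = b := by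
  constructor
  · intro h
    obtain ⟨k, V, hk, hE, hr⟩ := exists_Ev_of_run T M [] b h
    exact ⟨k, V, hk, hE, hr⟩
  · rintro ⟨k, V, hk, hE, rfl⟩
    exact hE.run_nil hk

theorem Ev.det {f : Mem → Mem} {k k' : ℕ} {M V V' : Mem} (h : Ev f k M V) (h' : Ev f k' M V') :
    k = k' ∧ V = V' := by
  induction h generalizing k' V' with
  | @halt M h0 h1 =>
    cases h' with
    | halt _ _ => exact ⟨rfl, rfl⟩
    | go h0' _ => simp [h0] at h0'
    | push _ h1' _ _ => simp [h1] at h1'
  | @go M k V h0 _ ih =>
    cases h' with
    | halt h0' _ => simp [h0] at h0'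
    | go _ h2 =>
      obtain ⟨h3, h4⟩ := ih h2
      exact ⟨by omega, h4⟩
    | push h0' _ _ _ => simp [h0] at h0'
  | @push M k₁ k₂ V₁ V h0 h1 _ _ ih₁ ih₂ =>
    cases h' with
    | halt _ h1' => simp [h1] at h1'
    | go h0' _ => simp [h0] at h0'
    | push _ _ h2 h3 =>
      obtain ⟨h4, h5⟩ := ih₁ h2
      subst h5
      obtain ⟨h6, h7⟩ := ih₂ h3
      exact ⟨by omega, h7⟩

theorem Ev.pos {f : Mem → Mem} {k : ℕ} {M V : Mem} (h : Ev f k M V) : 1 ≤ k := by
  cases h <;> omega

/-- the final memory has the two operation cells set -/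
theorem Ev.final {f : Mem → Mem} {k : ℕ} {M V : Mem} (h : Ev f k M V) :
    V 0 = true ∧ V 1 = true := by
  induction h with
  | halt h0 h1 => exact ⟨h0, h1⟩
  | go _ _ ih => exact ih
  | push _ _ _ _ _ ih => exact ih

/-! ## agreement of memories on the cells below `s` -/

/-- the memories agree on the cells below `s` -/
def Agr (s : ℕ) (M M' : Mem) : Prop := ∀ q < s, M q = M' q

theorem Agr.refl (s : ℕ) (M : Mem) : Agr s M M := fun _ _ => rfl

theorem Agr.symm {s : ℕ} {M M' : Mem} (h : Agr s M M') : Agr s M' M := fun q hq => (h q hq).symm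

theorem Agr.trans {s : ℕ} {M M' M'' : Mem} (h : Agr s M M') (h' : Agr s M' M'') :
    Agr s M M'' := fun q hq => (h q hq).trans (h' q hq)

theorem Agr.mono {s t : ℕ} {M M' : Mem} (h : Agr s M M') (hst : t ≤ s) : Agr t M M' :=
  fun q hq => h q (lt_of_lt_of_le hq hst)

theorem Agr.update {s : ℕ} {M M' : Mem} (h : Agr s M M') (i : ℕ) (b : Bool) :
    Agr s (Function.update M i b) (Function.update M' i b) := by
  intro q hq
  by_cases hqi : q = i
  · subst hqi; simp
  · rw [Function.update_of_ne hqi, Function.update_of_ne hqi]; exact h q hq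

theorem word_congr {s : ℕ} {M M' : Mem} (h : Agr s M M') {j l : ℕ} (hjl : j + l ≤ s) :
    word M j l = word M' j l := by
  unfold word
  apply List.map_congr_left
  intro t ht
  rw [List.mem_range] at ht
  exact h _ (by omega)

theorem word_length (M : Mem) (j l : ℕ) : (word M j l).length = l := by simp [word]

/-- Transfer of a computation: the step functions `f` and `g` agree on the cells below `s`, on
memories which agree below `s`. -/
theorem Ev.transfer {f g : Mem → Mem} {s : ℕ} (hs : 3 ≤ s)
    (hfg : ∀ M M', Agr s M M' → Agr s (f M) (g M')) {k : ℕ} {M V : Mem} (h : Ev f k M V) :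
    ∀ M', Agr s M M' → ∃ V', Agr s V V' ∧ Ev g k M' V' := by
  induction h with
  | @halt M h0 h1 =>
    intro M' hM
    have := hfg M M' hM
    refine ⟨g M', this, Ev.halt ?_ ?_⟩
    · rw [← this 0 (by omega)]; exact h0
    · rw [← this 1 (by omega)]; exact h1
  | @go M k V h0 _ ih =>
    intro M' hM
    have hf := hfg M M' hM
    obtain ⟨V', hV, hE⟩ := ih (g M') hf
    refine ⟨V', hV, Ev.go ?_ hE⟩
    rw [← hf 0 (by omega)]; exact h0
  | @push M k₁ k₂ V₁ V h0 h1 _ _ ih₁ ih₂ =>
    intro M' hM
    have hf := hfg M M' hM
    obtain ⟨V₁', hV₁, hE₁⟩ := ih₁ (g M') hf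
    obtain ⟨V', hV, hE⟩ := ih₂ (Function.update V₁' 2 (g M' 2)) (by
      rw [← hf 2 (by omega)]; exact hV₁.update 2 _)
    refine ⟨V', hV, Ev.push ?_ ?_ hE₁ hE⟩
    · rw [← hf 0 (by omega)]; exact h0
    · rw [← hf 1 (by omega)]; exact h1

/-! ## basic facts on eval -/

@[simp] theorem eval_nil (z : Inp) (M : Mem) : eval [] z M = M := rfl

@[simp] theorem eval_cons (c : Ins) (G : List Ins) (z : Inp) (M : Mem) :
    eval (c :: G) z M = eval G z (c.exec z M) := rfl

theorem eval_append (G H : List Ins) (z : Inp) (M : Mem) :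
    eval (G ++ H) z M = eval H z (eval G z M) := by
  simp [eval, List.foldl_append]

theorem Ins.exec_agr {s : ℕ} {c : Ins} (hc : c.top ≤ s) {z : Inp} {M M' : Mem}
    (h : Agr s M M') : Agr s (c.exec z M) (c.exec z M') := by
  cases c with
  | nand i j k =>
    simp only [Ins.top, max_le_iff] at hc
    simp only [Ins.exec]
    rw [h j (by omega), h k (by omega)]
    exact h.update _ _
  | ask i j l =>
    simp only [Ins.top, max_le_iff] at hc
    simp only [Ins.exec]
    rw [word_congr h hc.2]
    exact h.update _ _

theorem eval_agr {s : ℕ} {G : List Ins} (hG : ∀ c ∈ G, c.top ≤ s) {z : Inp} {M M' : Mem}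
    (h : Agr s M M') : Agr s (eval G z M) (eval G z M') := by
  induction G generalizing M M' with
  | nil => simpa using h
  | cons c G ih =>
    simp only [eval_cons]
    exact ih (fun c' hc' => hG c' (List.mem_cons_of_mem _ hc'))
      (Ins.exec_agr (hG c List.mem_cons_self) h)

theorem Ins.exec_ge {s : ℕ} {c : Ins} (hc : c.top ≤ s) {z : Inp} {M : Mem} {q : ℕ} (hq : s ≤ q) :
    c.exec z M q = M q := by
  cases c with
  | nand i j k =>
    simp only [Ins.top, max_le_iff] at hc
    simp only [Ins.exec]
    rw [Function.update_of_ne (by omega)]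
  | ask i j l =>
    simp only [Ins.top, max_le_iff] at hc
    simp only [Ins.exec]
    rw [Function.update_of_ne (by omega)]

theorem eval_ge {s : ℕ} {G : List Ins} (hG : ∀ c ∈ G, c.top ≤ s) {z : Inp} {M : Mem} {q : ℕ}
    (hq : s ≤ q) : eval G z M q = M q := by
  induction G generalizing M with
  | nil => rfl
  | cons c G ih =>
    simp only [eval_cons]
    rw [ih (fun c' hc' => hG c' (List.mem_cons_of_mem _ hc')),
      Ins.exec_ge (hG c List.mem_cons_self) hq]

/-- the result only depends on the input at addresses of length at most `s` -/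
theorem eval_congr_inp {s : ℕ} {G : List Ins} (hG : ∀ c ∈ G, c.top ≤ s) {z z' : Inp}
    (h : ∀ a : List Bool, a.length ≤ s → z a = z' a) (M : Mem) : eval G z M = eval G z' M := by
  induction G generalizing M with
  | nil => rfl
  | cons c G ih =>
    simp only [eval_cons]
    have h1 : c.exec z M = c.exec z' M := by
      have hc := hG c List.mem_cons_self
      cases c with
      | nand i j k => rfl
      | ask i j l =>
        simp only [Ins.top, max_le_iff] at hc
        simp only [Ins.exec]
        rw [h (word M j l) (by rw [word_length]; omega)]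
    rw [h1]
    exact ih (fun c' hc' => hG c' (List.mem_cons_of_mem _ hc')) _

theorem Sz.mono {s t : ℕ} {G : List Ins} (h : Sz s G) (hst : s ≤ t) : Sz t G :=
  ⟨h.1.trans hst, fun c hc => (h.2 c hc).trans hst⟩

theorem Sz.append {s t : ℕ} {G H : List Ins} (hG : Sz s G) (hH : Sz t H) {u : ℕ}
    (hu : s + t ≤ u) : Sz u (G ++ H) := by
  refine ⟨?_, ?_⟩
  · rw [List.length_append]; have := hG.1; have := hH.1; omega
  · intro c hc
    rw [List.mem_append] at hc
    rcases hc with hc | hc
    · have := hG.2 c hc; omega
    · have := hH.2 c hc; omega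

theorem Decides.mono {G : List Ins} {B T T' : ℕ} {P : Inp → Prop} (h : Decides G B T P)
    (hT : T ≤ T') : Decides G B T' P := by
  intro z hz
  obtain ⟨b, hb, hP⟩ := h z hz
  exact ⟨b, run_mono hb T' hT, hP⟩

end Pool.Agent.NUM
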