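import Mathlib

/-!
# Abstract history machines

A step uses the present state and one earlier state, whose number is computed from the present state.
-/

set_option autoImplicit false

namespace Pool.Agent.NUM

/-- an abstract history machine: `a0` is the first state, `e0` is received if the recalled pass does
not exist -/
structure HM (A : Type) where
  step : A → A → A
  idx : A → ℕ
  a0 : A
  e0 : A
  hlt : A → Bool
  acc : A → Bool

namespace HM

variable {A : Type}

/-- the states after the passes `0, …, n` -/
def hist (H : HM A) : ℕ → ℕ → A
  | 0 => fun j => if j = 0 then H.a0 else H.e0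
  | n + 1 => Function.update (H.hist n) (n + 1)
      (H.step (H.hist n n) (H.hist n (H.idx (H.hist n n))))

/-- the state after pass `n` -/
def U (H : HM A) (n : ℕ) : A := H.hist n n

/-- the state received by a recall of pass `j` after pass `n` -/
def rc (H : HM A) (n j : ℕ) : A := if j ≤ n then H.U j else H.e0

theorem hist_eq (H : HM A) (n j : ℕ) : H.hist n j = H.rc n j := by
  induction n with
  | zero =>
    unfold rc hist
    by_cases hj : j = 0
    · subst hj; simp [U, hist]
    · rw [if_neg hj, if_neg (by omega)]
  | succ n ih =>
    rcases Nat.lt_trichotomy j (n + 1) with h | h | h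
    · have h1 : H.hist (n + 1) j = H.hist n j := by
        rw [hist, Function.update_of_ne (by omega)]
      rw [h1, ih]
      unfold rc
      rw [if_pos (by omega), if_pos (by omega)]
    · subst h
      unfold rc
      rw [if_pos le_rfl]
      rfl
    · have h1 : H.hist (n + 1) j = H.hist n j := by
        rw [hist, Function.update_of_ne (by omega)]
      rw [h1, ih]
      unfold rc
      rw [if_neg (by omega), if_neg (by omega)]

theorem U_zero (H : HM A) : H.U 0 = H.a0 := rfl

theorem U_succ (H : HM A) (n : ℕ) :
    H.U (n + 1) = H.step (H.U n) (H.rc n (H.idx (H.U n))) := by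
  rw [← hist_eq]
  show H.hist (n + 1) (n + 1) = _
  rw [hist, Function.update_self]
  rfl

/-- the computation halts after pass `N` with answer `b` -/
def Out (H : HM A) (N : ℕ) (b : Bool) : Prop :=
  (∀ m < N, H.hlt (H.U m) = false) ∧ H.hlt (H.U N) = true ∧ H.acc (H.U N) = b

theorem Out.unique {H : HM A} {N N' : ℕ} {b b' : Bool} (h : H.Out N b) (h' : H.Out N' b') :
    N = N' ∧ b = b' := by
  have : N = N' := by
    rcases Nat.lt_trichotomy N N' with h1 | h1 | h1
    · have := h'.1 N h1
      rw [h.2.1] at this
      cases this
    · exact h1
    · have := h.1 N' h1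
      rw [h'.2.1] at this
      cases this
  subst this
  exact ⟨rfl, h.2.2.symm.trans h'.2.2⟩

end HM

end Pool.Agent.NUM
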