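import Pool.Agent.NUM.HCore
import Pool.Agent.NUM.HMach
import Pool.Agent.NUM.Basic

/-!
# Basic lemmas on history programs

* recursion for the states (`sta_zero`, `sta_succ`, `sta_unique`), halting is deterministic;
* transfer: programs which agree on the cells below `s`;
* the computation as an abstract history machine (`memHM`), its restriction to the even cells below
  `2 h` (`finHM`) and the simulation lemma `hsim`.
-/

set_option autoImplicit false

namespace Pool.Agent.NUM

/-! ### the recursion -/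

theorem hist_succ (f : Mem → Mem) (d n : ℕ) :
    hist f d (n + 1) = Function.update (hist f d n) (n + 1)
      (f (mrg (hist f d n n) (hist f d n (ptr d (hist f d n n))))) := rfl

theorem hist_eq (f : Mem → Mem) (d n m : ℕ) :
    hist f d n m = if m ≤ n then sta f d m else zeroMem := by
  induction n with
  | zero =>
    by_cases hm : m ≤ 0
    · obtain rfl : m = 0 := by omega
      rw [if_pos hm]
      rfl
    · rw [if_neg hm]
      rfl
  | succ n ih =>
    rcases Nat.lt_trichotomy m (n + 1) with h | h | h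
    · rw [hist_succ, Function.update_of_ne (by omega), ih, if_pos (by omega), if_pos (by omega)]
    · subst h
      rw [if_pos le_rfl]
      rfl
    · rw [hist_succ, Function.update_of_ne (by omega), ih, if_neg (by omega), if_neg (by omega)]

/-- the state received by pass number `n + 1` if the pointer is `j` -/
def rcv (f : Mem → Mem) (d n j : ℕ) : Mem := if j ≤ n then sta f d j else zeroMem

theorem rcv_of_le {f : Mem → Mem} {d n j : ℕ} (h : j ≤ n) : rcv f d n j = sta f d j := if_pos h

theorem rcv_of_lt {f : Mem → Mem} {d n j : ℕ} (h : n < j) : rcv f d n j = zeroMem :=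
  if_neg (by omega)

theorem sta_zero (f : Mem → Mem) (d : ℕ) : sta f d 0 = zeroMem := rfl

theorem sta_succ' (f : Mem → Mem) (d n : ℕ) :
    sta f d (n + 1) = f (mrg (sta f d n) (rcv f d n (rcl f d n))) := by
  have h : sta f d (n + 1) = f (mrg (hist f d n n) (hist f d n (ptr d (hist f d n n)))) := by
    show hist f d (n + 1) (n + 1) = _
    rw [hist_succ, Function.update_self]
  rw [h, hist_eq f d n (ptr d (hist f d n n))]
  rfl

theorem sta_succ (f : Mem → Mem) (d n : ℕ) :
    sta f d (n + 1) =
      f (mrg (sta f d n) (if rcl f d n ≤ n then sta f d (rcl f d n) else zeroMem)) :=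
  sta_succ' f d n

/-- strong induction along the computation -/
theorem sta_induction (f : Mem → Mem) (d : ℕ) {p : ℕ → Mem → Prop} (h0 : p 0 zeroMem)
    (hs : ∀ n W, (rcl f d n ≤ n → W = sta f d (rcl f d n) ∧ p (rcl f d n) W) →
      (n < rcl f d n → W = zeroMem) → p n (sta f d n) → p (n + 1) (f (mrg (sta f d n) W))) :
    ∀ n, p n (sta f d n) := by
  intro n
  induction n using Nat.strong_induction_on with
  | _ n ih =>
    cases n with
    | zero => exact h0
    | succ n =>
      rw [sta_succ']
      refine hs n _ (fun h => ?_) (fun h => rcv_of_lt h) (ih n (by omega))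
      rw [rcv_of_le h]
      exact ⟨rfl, ih _ (by omega)⟩

/-- the recursion determines the states -/
theorem sta_unique {f : Mem → Mem} {d N : ℕ} {U : ℕ → Mem} (h0 : U 0 = zeroMem)
    (hs : ∀ n < N, U (n + 1) =
      f (mrg (U n) (if ptr d (U n) ≤ n then U (ptr d (U n)) else zeroMem))) :
    ∀ n ≤ N, sta f d n = U n := by
  intro n
  induction n using Nat.strong_induction_on with
  | _ n ih =>
    intro hn
    cases n with
    | zero => rw [h0]; rfl
    | succ n =>
      have h1 : sta f d n = U n := ih n (by omega) (by omega)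
      have h2 : rcl f d n = ptr d (U n) := by unfold rcl; rw [h1]
      rw [sta_succ, hs n (by omega), h1, h2]
      by_cases h3 : ptr d (U n) ≤ n
      · rw [if_pos h3, if_pos h3, ih _ (by omega) (by omega)]
      · rw [if_neg h3, if_neg h3]

/-! ### halting -/

theorem HaltsAt.unique {f : Mem → Mem} {d N N' : ℕ} (h : HaltsAt f d N) (h' : HaltsAt f d N') :
    N = N' := by
  rcases Nat.lt_trichotomy N N' with h1 | h1 | h1
  · have := h'.2 N h1
    rw [h.1] at this
    cases this
  · exact h1
  · have := h.2 N' h1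
    rw [h'.1] at this
    cases this

theorem HaltsAt.pos {f : Mem → Mem} {d N : ℕ} (h : HaltsAt f d N) : 0 < N := by
  rcases Nat.eq_zero_or_pos N with h0 | h0
  · subst h0
    have := h.1
    simp [sta_zero, zeroMem] at this
  · exact h0

theorem exists_haltsAt {f : Mem → Mem} {d n : ℕ} (h : sta f d n 0 = true) :
    ∃ N ≤ n, HaltsAt f d N := by
  classical
  have hex : ∃ m, sta f d m 0 = true := ⟨n, h⟩
  refine ⟨Nat.find hex, Nat.find_min' hex h, Nat.find_spec hex, fun m hm => ?_⟩
  have := Nat.find_min hex hm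
  simpa using this

theorem HAns.mono {f : Mem → Mem} {d T T' : ℕ} {b : Bool} (h : HAns f d T b) (hT : T ≤ T') :
    HAns f d T' b := by
  obtain ⟨N, h1, h2⟩ := h
  exact ⟨N, h1.trans hT, h2⟩

theorem HAns.det {f : Mem → Mem} {d T T' : ℕ} {b b' : Bool} (h : HAns f d T b)
    (h' : HAns f d T' b') : b = b' := by
  obtain ⟨N, _, h2, h3⟩ := h
  obtain ⟨N', _, h2', h3'⟩ := h'
  obtain rfl := h2.unique h2'
  exact h3.symm.trans h3'

theorem HAns.of_haltsAt {f : Mem → Mem} {d T N : ℕ} {b : Bool} (h : HAns f d T b)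
    (hN : HaltsAt f d N) : N ≤ T ∧ sta f d N 2 = b := by
  obtain ⟨N', h1, h2, h3⟩ := h
  obtain rfl := hN.unique h2
  exact ⟨h1, h3⟩

theorem not_hAns_zero {f : Mem → Mem} {d : ℕ} {b : Bool} : ¬ HAns f d 0 b := by
  rintro ⟨N, h1, h2, _⟩
  have := h2.pos
  omega

/-! ### transfer -/

theorem mrg_even (V W : Mem) (i : ℕ) : mrg V W (2 * i) = V (2 * i) := by
  unfold mrg
  rw [if_pos (by omega)]

theorem mrg_odd (V W : Mem) (i : ℕ) : mrg V W (2 * i + 1) = W (2 * i) := by
  unfold mrg
  rw [if_neg (by omega)]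
  rfl

/-- the memories agree on the even cells below `s` -/
def EvAgr (s : ℕ) (M M' : Mem) : Prop := ∀ q < s, q % 2 = 0 → M q = M' q

theorem Agr.ev {s : ℕ} {M M' : Mem} (h : Agr s M M') : EvAgr s M M' := fun q hq _ => h q hq

theorem EvAgr.refl (s : ℕ) (M : Mem) : EvAgr s M M := fun _ _ _ => rfl

theorem EvAgr.symm {s : ℕ} {M M' : Mem} (h : EvAgr s M M') : EvAgr s M' M :=
  fun q hq h2 => (h q hq h2).symm

theorem EvAgr.trans {s : ℕ} {M M' M'' : Mem} (h : EvAgr s M M') (h' : EvAgr s M' M'') :
    EvAgr s M M'' := fun q hq h2 => (h q hq h2).trans (h' q hq h2)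

theorem mrg_agr {s : ℕ} {V V' W W' : Mem} (h : EvAgr s V V') (h' : EvAgr s W W') :
    Agr s (mrg V W) (mrg V' W') := by
  intro q hq
  unfold mrg
  by_cases hq2 : q % 2 = 0
  · rw [if_pos hq2, if_pos hq2, h q hq hq2]
  · rw [if_neg hq2, if_neg hq2, h' (q - 1) (by omega) (by omega)]

theorem ptr_congr {d : ℕ} {V V' : Mem} (h : ∀ r < d, V (4 * r + 4) = V' (4 * r + 4)) :
    ptr d V = ptr d V' := by
  unfold ptr
  refine Finset.sum_congr rfl fun r hr => ?_
  rw [Finset.mem_range] at hr
  rw [h r hr]

theorem ptr_agr {s d : ℕ} (hd : 4 * d < s) {V V' : Mem} (h : EvAgr s V V') :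
    ptr d V = ptr d V' :=
  ptr_congr fun r hr => h _ (by omega) (by omega)

theorem ptr_zeroMem (d : ℕ) : ptr d zeroMem = 0 := by
  unfold ptr
  refine Finset.sum_eq_zero fun r _ => ?_
  rw [if_neg (by simp [zeroMem])]

theorem ptr_lt (d : ℕ) (V : Mem) : ptr d V < 2 ^ d := by
  unfold ptr
  induction d with
  | zero => simp
  | succ d ih =>
    rw [Finset.sum_range_succ, pow_succ]
    split_ifs <;> omega

/-- Transfer of a computation, with pass counts: `f` and `g` agree on the first `N` passes -/
theorem sta_transfer {f g : Mem → Mem} {s d : ℕ} (hd : 4 * d < s)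
    (hfg : ∀ M M', Agr s M M' → EvAgr s (f M) (g M')) :
    ∀ n, EvAgr s (sta f d n) (sta g d n) := by
  intro n
  induction n using Nat.strong_induction_on with
  | _ n ih =>
    cases n with
    | zero => exact EvAgr.refl _ _
    | succ n =>
      have h1 := ih n (by omega)
      have h2 : rcl f d n = rcl g d n := ptr_agr hd h1
      rw [sta_succ', sta_succ', ← h2]
      refine hfg _ _ (mrg_agr h1 ?_)
      unfold rcv
      by_cases h3 : rcl f d n ≤ n
      · rw [if_pos h3, if_pos h3]
        exact ih _ (by omega)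
      · rw [if_neg h3, if_neg h3]
        exact EvAgr.refl _ _

theorem rcl_transfer {f g : Mem → Mem} {s d : ℕ} (hd : 4 * d < s)
    (hfg : ∀ M M', Agr s M M' → EvAgr s (f M) (g M')) (n : ℕ) : rcl f d n = rcl g d n :=
  ptr_agr hd (sta_transfer hd hfg n)

theorem HaltsAt.transfer {f g : Mem → Mem} {s d : ℕ} (hs : 0 < s) (hd : 4 * d < s)
    (hfg : ∀ M M', Agr s M M' → EvAgr s (f M) (g M')) {N : ℕ} (h : HaltsAt f d N) :
    HaltsAt g d N := by
  refine ⟨?_, fun n hn => ?_⟩
  · rw [← sta_transfer hd hfg N 0 hs rfl]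
    exact h.1
  · rw [← sta_transfer hd hfg n 0 hs rfl]
    exact h.2 n hn

theorem HAns.transfer {f g : Mem → Mem} {s d : ℕ} (hs : 3 ≤ s) (hd : 4 * d < s)
    (hfg : ∀ M M', Agr s M M' → EvAgr s (f M) (g M')) {T : ℕ} {b : Bool} (h : HAns f d T b) :
    HAns g d T b := by
  obtain ⟨N, h1, h2, h3⟩ := h
  refine ⟨N, h1, h2.transfer (by omega) hd hfg, ?_⟩
  rw [← sta_transfer hd hfg N 2 (by omega) rfl]
  exact h3

theorem eval_transfer {s : ℕ} {G : List Ins} (hG : Sz s G) {z z' : Inp}
    (hz : ∀ a : List Bool, a.length ≤ s → z a = z' a) {M M' : Mem} (h : Agr s M M') :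
    Agr s (eval G z M) (eval G z' M') := by
  rw [eval_congr_inp hG.2 hz M]
  exact eval_agr hG.2 h

/-- the computation of a program depends only on the input bits with short addresses -/
theorem HAns.congr_inp {s d : ℕ} {G : List Ins} (hG : HSz s d G) {z z' : Inp}
    (hz : ∀ a : List Bool, a.length ≤ s → z a = z' a) {T : ℕ} {b : Bool} (hs : 3 ≤ s)
    (h : HAns (eval G z) d T b) : HAns (eval G z') d T b :=
  h.transfer hs hG.2 fun _ _ hM => (eval_transfer hG.1 hz hM).ev

theorem HSz.mono {s t d : ℕ} {G : List Ins} (h : HSz s d G) (hst : s ≤ t) : HSz t d G :=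
  ⟨h.1.mono hst, lt_of_lt_of_le h.2 hst⟩

/-! ### abstract machines -/

/-- the computation of a step function as an abstract history machine -/
def memHM (f : Mem → Mem) (d : ℕ) : HM Mem where
  step V W := f (mrg V W)
  idx := ptr d
  a0 := zeroMem
  e0 := zeroMem
  hlt V := V 0
  acc V := V 2

/-- **Simulation.** If `R` relates memories to states of an abstract machine, then the computations
are related.  Only the first `N` passes matter. -/
theorem hsim {A : Type} {f : Mem → Mem} {d : ℕ} {H : HM A} {R : Mem → A → Prop} {N : ℕ}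
    (h0 : R zeroMem H.a0) (he : R zeroMem H.e0)
    (hidx : ∀ n < N, ∀ V, R V (H.U n) → ptr d V = H.idx (H.U n))
    (hstep : ∀ n < N, ∀ V W, R V (H.U n) → R W (H.rc n (H.idx (H.U n))) →
      R (f (mrg V W)) (H.U (n + 1))) :
    ∀ n ≤ N, R (sta f d n) (H.U n) := by
  intro n
  induction n using Nat.strong_induction_on with
  | _ n ih =>
    intro hn
    cases n with
    | zero => exact h0
    | succ n =>
      have h1 := ih n (by omega) (by omega)
      have h2 : rcl f d n = H.idx (H.U n) := hidx n (by omega) _ h1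
      rw [sta_succ']
      refine hstep n (by omega) _ _ h1 ?_
      rw [← h2]
      unfold rcv HM.rc
      by_cases h3 : rcl f d n ≤ n
      · rw [if_pos h3, if_pos h3]
        exact ih _ (by omega) (by omega)
      · rw [if_neg h3, if_neg h3]
        exact he

/-- simulation, with a relation that is kept by all steps -/
theorem hsim' {A : Type} {f : Mem → Mem} {d : ℕ} {H : HM A} {R : Mem → A → Prop}
    (h0 : R zeroMem H.a0) (he : R zeroMem H.e0) (hidx : ∀ V a, R V a → ptr d V = H.idx a)
    (hstep : ∀ V a W b, R V a → R W b → R (f (mrg V W)) (H.step a b)) :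
    ∀ n, R (sta f d n) (H.U n) := fun n =>
  hsim (N := n) h0 he (fun _ _ V hV => hidx V _ hV)
    (fun m _ V W hV hW => by rw [H.U_succ]; exact hstep _ _ _ _ hV hW) n le_rfl

/-- the answer, from a simulation -/
theorem Out_iff_of_sim {A : Type} {f : Mem → Mem} {d : ℕ} {H : HM A} {N : ℕ} {b : Bool}
    (h0 : ∀ n ≤ N, sta f d n 0 = H.hlt (H.U n)) (h2 : sta f d N 2 = H.acc (H.U N)) :
    H.Out N b ↔ (HaltsAt f d N ∧ sta f d N 2 = b) := by
  unfold HM.Out HaltsAt
  rw [h0 N le_rfl, h2]
  constructor
  · rintro ⟨h3, h4, h5⟩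
    exact ⟨⟨h4, fun n hn => by rw [h0 n hn.le]; exact h3 n hn⟩, h5⟩
  · rintro ⟨⟨h4, h3⟩, h5⟩
    exact ⟨fun n hn => by rw [← h0 n hn.le]; exact h3 n hn, h4, h5⟩

/-- the answer, from a simulation -/
theorem HAns_iff_of_sim {A : Type} {f : Mem → Mem} {d : ℕ} {H : HM A} {T : ℕ} {b : Bool}
    (h0 : ∀ n ≤ T, sta f d n 0 = H.hlt (H.U n)) (h2 : ∀ n ≤ T, sta f d n 2 = H.acc (H.U n)) :
    HAns f d T b ↔ ∃ N ≤ T, H.Out N b := by
  unfold HAns
  refine exists_congr fun N => and_congr_right fun hN => ?_
  exact (Out_iff_of_sim (fun n hn => h0 n (hn.trans hN)) (h2 N hN)).symm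

theorem memHM_U (f : Mem → Mem) (d n : ℕ) : (memHM f d).U n = sta f d n :=
  (hsim' (H := memHM f d) (R := fun V a => V = a) rfl rfl (fun V a h => by rw [h]; rfl)
    (fun V a W b h1 h2 => by rw [h1, h2]; rfl) n).symm

/-- the even cells below `2 h` -/
def resM (h : ℕ) (V : Mem) : Fin h → Bool := fun i => V (2 * i)

/-- a memory with these even cells -/
def embM {h : ℕ} (a : Fin h → Bool) : Mem :=
  fun q => if hq : q / 2 < h then (if q % 2 = 0 then a ⟨q / 2, hq⟩ else false) else false

theorem embM_even {h : ℕ} (a : Fin h → Bool) (i : Fin h) : embM a (2 * i) = a i := by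
  unfold embM
  have h1 : 2 * (i : ℕ) / 2 = i := by omega
  have h2 : 2 * (i : ℕ) % 2 = 0 := by omega
  rw [dif_pos (by rw [h1]; exact i.2), if_pos h2]
  congr 1
  exact Fin.ext h1

theorem resM_embM {h : ℕ} (a : Fin h → Bool) : resM h (embM a) = a := by
  funext i
  exact embM_even a i

theorem embM_resM {h : ℕ} (V : Mem) : EvAgr (2 * h) (embM (resM h V)) V := by
  intro q hq hq2
  unfold embM resM
  have h1 : q / 2 < h := by omega
  rw [dif_pos h1, if_pos hq2]
  show V (2 * (q / 2)) = V q
  congr 1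
  omega

/-- equality of the restrictions is agreement on the even cells -/
theorem resM_eq_iff {h : ℕ} {V W : Mem} : resM h V = resM h W ↔ EvAgr (2 * h) V W := by
  constructor
  · intro hVW q hq hq2
    have := congrFun hVW ⟨q / 2, by omega⟩
    unfold resM at this
    simp only at this
    rwa [show 2 * (q / 2) = q by omega] at this
  · intro hVW
    funext i
    exact hVW _ (by omega) (by omega)

theorem resM_eq_iff' {h : ℕ} {V : Mem} {a : Fin h → Bool} :
    resM h V = a ↔ ∀ i : Fin h, V (2 * i) = a i := by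
  rw [funext_iff]
  rfl

/-- the computation restricted to the even cells below `2 h` -/
def finHM (f : Mem → Mem) (d h : ℕ) : HM (Fin h → Bool) where
  step a b := resM h (f (mrg (embM a) (embM b)))
  idx a := ptr d (embM a)
  a0 := fun _ => false
  e0 := fun _ => false
  hlt a := embM a 0
  acc a := embM a 2

theorem resM_zeroMem (h : ℕ) : resM h zeroMem = fun _ => false := rfl

/-- the restricted computation -/
theorem finHM_U {f : Mem → Mem} {d h : ℕ} (hd : 4 * d < 2 * h)
    (hf : ∀ M M', Agr (2 * h) M M' → EvAgr (2 * h) (f M) (f M')) (n : ℕ) :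
    (finHM f d h).U n = resM h (sta f d n) := by
  refine (hsim' (H := finHM f d h) (R := fun V a => resM h V = a) rfl rfl ?_ ?_ n).symm
  · rintro V _ rfl
    exact (ptr_agr hd (embM_resM V)).symm
  · rintro V _ W _ rfl rfl
    refine resM_eq_iff.2 (hf _ _ (mrg_agr ?_ ?_))
    · exact (embM_resM V).symm
    · exact (embM_resM W).symm

theorem finHM_idx {f : Mem → Mem} {d h : ℕ} (hd : 4 * d < 2 * h) (V : Mem) :
    (finHM f d h).idx (resM h V) = ptr d V := ptr_agr hd (embM_resM V)

theorem finHM_hlt {f : Mem → Mem} {d h : ℕ} (hh : 0 < h) (V : Mem) :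
    (finHM f d h).hlt (resM h V) = V 0 := embM_resM V 0 (by omega) rfl

theorem finHM_acc {f : Mem → Mem} {d h : ℕ} (hh : 1 < h) (V : Mem) :
    (finHM f d h).acc (resM h V) = V 2 := embM_resM V 2 (by omega) rfl

/-- the recalls of the restricted computation -/
theorem finHM_rcl {f : Mem → Mem} {d h : ℕ} (hd : 4 * d < 2 * h)
    (hf : ∀ M M', Agr (2 * h) M M' → EvAgr (2 * h) (f M) (f M')) (n : ℕ) :
    (finHM f d h).idx ((finHM f d h).U n) = rcl f d n := by
  rw [finHM_U hd hf, finHM_idx hd]
  rfl

/-- halting and answer of the restricted computation -/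
theorem finHM_Out {f : Mem → Mem} {d h : ℕ} (hh : 1 < h) (hd : 4 * d < 2 * h)
    (hf : ∀ M M', Agr (2 * h) M M' → EvAgr (2 * h) (f M) (f M')) {N : ℕ} {b : Bool} :
    (finHM f d h).Out N b ↔ (HaltsAt f d N ∧ sta f d N 2 = b) :=
  Out_iff_of_sim
    (fun n _ => by rw [finHM_U hd hf, finHM_hlt (by omega)])
    (by rw [finHM_U hd hf, finHM_acc hh])

/-- the step function of a program of size `s ≤ 2 h` -/
theorem eval_evAgr {s h : ℕ} {G : List Ins} (hG : Sz s G) (hs : s ≤ 2 * h) (z : Inp) :
    ∀ M M', Agr (2 * h) M M' → EvAgr (2 * h) (eval G z M) (eval G z M') :=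
  fun _ _ hM => (eval_agr (fun c hc => (hG.2 c hc).trans hs) hM).ev

end Pool.Agent.NUM
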