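import Pool.Agent.NUM.RList

/-!
# Transcripts of the simulation of a list (random access machines)

The own segments of a list `L` are those with label `κ`.  The available steps (foreign entries and
own steps) get the positions `1, 2, …` in the order of time.  A transcript contains, for every
position `x`, the segment `I x`, the time `t x`, the state `W x`, the rank `Rk x` of the position in
the list `Q 0, Q 1, …` of all positions, sorted by (address written, time), and for own positions the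
insertion point `J x` of the address which is read.  Position `0` is the blank state at time `0`.
-/

set_option autoImplicit false

namespace Pool.Agent.NUM

variable {A : Type}

/-- a machine on extended states: `xs S R p` is the extended state after a step from `S` with the
record `R` which was stored in step `p`; `rad` address read, `wad` address written -/
structure XM (A : Type) where
  xs : A → A → ℕ → A
  rad : A → ℕ
  wad : A → ℕ
  srx : A → ℕ
  fl : A → Bool
  acc : A → Bool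

/-- the run of the machine: `X 0` is blank; `sc t` is the last step `≤ t` in which the address read in
step `t + 1` was written, `0` if there is none -/
structure XRun (M : XM A) (X : ℕ → A) (sc : ℕ → ℕ) : Prop where
  step : ∀ t, X (t + 1) = M.xs (X t) (X (sc t)) (sc t)
  le : ∀ t, sc t ≤ t
  src : ∀ t, 0 < sc t → M.wad (X (sc t)) = M.rad (X t)
  last : ∀ t p, sc t < p → p ≤ t → M.wad (X p) ≠ M.rad (X t)

/-- `Avail` for the label `κ` -/
def AvailK (L : Lst A) (κ i τ : ℕ) : Prop :=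
  ∃ j ≤ i, L.pv j < τ ∧ τ ≤ L.tm j ∧ (τ = L.tm j ∨ L.lb j = κ)

/-- `CloTo` for the label `κ` -/
def CloK (sc : ℕ → ℕ) (L : Lst A) (κ w t : ℕ) : Prop :=
  ∀ i < 2 ^ w, L.fin i = false → L.lb i = κ → ∀ u, L.pv i ≤ u → u < L.tm i → u < t →
    0 < sc u → AvailK L κ i (sc u)

theorem cloTo_iff {sc : ℕ → ℕ} {L : Lst A} {w t : ℕ} : CloTo sc L w t ↔ CloK sc L 1 w t := Iff.rfl

/-- a transcript up to position `x` -/
structure Trc (A : Type) where
  I : ℕ → ℕ
  t : ℕ → ℕ
  W : ℕ → A
  Rk : ℕ → ℕ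
  Q : ℕ → ℕ
  J : ℕ → ℕ
  x : ℕ

/-- `(a, t)` is before `(a', t')` -/
def KLt (a t a' t' : ℕ) : Prop := a < a' ∨ (a = a' ∧ t < t')

namespace Trc

variable (M : XM A) (L : Lst A) (a0 : A) (κ w : ℕ) (T : Trc A)

/-- segment and time of position `x` -/
def Pos (x : ℕ) : Prop :=
  T.I x < 2 ^ w ∧ L.fin (T.I x) = false ∧
  ((2 ≤ x ∧ T.I x = T.I (x - 1) ∧ L.lb (T.I x) = κ ∧ T.t (x - 1) < L.tm (T.I x) ∧
      T.t x = T.t (x - 1) + 1) ∨
    (((x = 1 ∧ T.I x = 0) ∨ (2 ≤ x ∧ T.I x = T.I (x - 1) + 1 ∧ T.t (x - 1) = L.tm (T.I (x - 1)))) ∧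
      (L.lb (T.I x) = κ → T.t x = T.t (x - 1) + 1) ∧ (L.lb (T.I x) ≠ κ → T.t x = L.tm (T.I x))))

/-- a record is found for the own position `x` -/
def Hit (x : ℕ) : Prop := 0 < T.J x ∧ M.wad (T.W (T.Q (T.J x - 1))) = M.rad (T.W (x - 1))

/-- the state in position `x` -/
def Sta (x : ℕ) : Prop :=
  (L.lb (T.I x) ≠ κ → T.W x = L.st (T.I x)) ∧
  (L.lb (T.I x) = κ →
    T.J x ≤ T.x ∧
    (T.J x < T.x → ¬ KLt (M.wad (T.W (T.Q (T.J x)))) (T.t (T.Q (T.J x))) (M.rad (T.W (x - 1)))
      (T.t x)) ∧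
    (0 < T.J x → KLt (M.wad (T.W (T.Q (T.J x - 1)))) (T.t (T.Q (T.J x - 1))) (M.rad (T.W (x - 1)))
      (T.t x)) ∧
    (T.Hit M x → T.W x = M.xs (T.W (x - 1)) (T.W (T.Q (T.J x - 1))) (T.t (T.Q (T.J x - 1)))) ∧
    (¬ T.Hit M x → T.W x = M.xs (T.W (x - 1)) a0 0))

/-- the conditions at a position -/
def At (x : ℕ) : Prop :=
  T.Pos L κ w x ∧ T.Sta M L a0 κ x ∧ T.Rk x < T.x ∧ T.Q (T.Rk x) = x

/-- the conditions at an index of the array -/
def ArrAt (j : ℕ) : Prop :=
  1 ≤ T.Q j ∧ T.Q j ≤ T.x ∧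
  (j + 1 < T.x → KLt (M.wad (T.W (T.Q j))) (T.t (T.Q j)) (M.wad (T.W (T.Q (j + 1))))
    (T.t (T.Q (j + 1))))

/-- the conditions at `x` (a position and an index of the array) -/
def Cnd (x : ℕ) : Prop :=
  1 ≤ T.x ∧ T.t 0 = 0 ∧ T.W 0 = a0 ∧ (1 ≤ x → x ≤ T.x → T.At M L a0 κ w x) ∧
  (x < T.x → T.ArrAt M x)

/-- the transcript is right -/
def OK : Prop := ∀ x, T.Cnd M L a0 κ w x

/-- the simulation of `L` fails at the last position: first kind -/
def Fail1 : Prop :=
  L.lb (T.I T.x) = κ ∧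
  (M.fl (T.W (T.x - 1)) = true ∨ (T.t T.x = L.tm (T.I T.x) ∧ T.W T.x ≠ L.st (T.I T.x)))

/-- the simulation of `L` fails at the last position: the last position of the transcript `T'` (of
another list or label) contains a later record -/
def Fail2 (T' : Trc A) : Prop :=
  L.lb (T.I T.x) = κ ∧ M.wad (T'.W T'.x) = M.rad (T.W (T.x - 1)) ∧ T'.t T'.x < T.t T.x ∧
  M.srx (T.W T.x) < T'.t T'.x

/-- the run of the whole machine (in the own segment `0`) accepts at the last position -/
def Run (x : ℕ) : Prop :=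
  L.lb 0 = κ ∧ T.I T.x = 0 ∧ M.fl (T.W T.x) = true ∧ M.acc (T.W T.x) = true ∧
  (1 ≤ x → x < T.x → M.fl (T.W x) = false)

end Trc

/-- bounds for a transcript -/
structure Trc.Bd (T : Trc A) (w B B' : ℕ) : Prop where
  I : ∀ x, T.I x < 2 ^ w
  t : ∀ x, T.t x < B'
  Rk : ∀ x, T.Rk x < B
  Q : ∀ x, T.Q x < B
  J : ∀ x, T.J x < B
  x : T.x < B

/-- number of the available steps in the segments `< i` -/
def nAv (L : Lst A) (κ i : ℕ) : ℕ :=
  ∑ j ∈ Finset.range i, if L.lb j = κ then L.tm j - L.pv j else 1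

end Pool.Agent.NUM
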