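import Pool.Agent.NUM.RCore
import Pool.Agent.NUM.HBasic
import Pool.Agent.NUM.RTraceDef

/-!
# The computation of a random access machine with extended states
-/

set_option autoImplicit false

namespace Pool.Agent.NUM

/-- the program `G` with `d` address cells as a machine on extended states: the even cells below
`2 h₀` of the state, followed by the `b` digits of the number of a step -/
def ramXM (G : List Ins) (z : Inp) (d h₀ b : ℕ) : XM (Fin (h₀ + b) → Bool) where
  xs S R p := fun i =>
    if (i : ℕ) < h₀ then eval G z (mrg (embM S) (embM R)) (2 * i) else p.testBit (i - h₀)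
  rad S := ptr d (embM S)
  wad S := wad d (embM S)
  srx S := num b fun r => embM S (2 * (h₀ + r))
  fl S := embM S 0
  acc S := embM S 2

/-- the extended state after step `t` -/
def ramX (f : Mem → Mem) (d h₀ b t : ℕ) : Fin (h₀ + b) → Bool := fun i =>
  if t = 0 then false
  else if (i : ℕ) < h₀ then rst f d t (2 * i) else (rsrc f d (t - 1)).testBit (i - h₀)

/-- the data of a run -/
structure RamRun (G : List Ins) (z : Inp) (d h₀ b N : ℕ) : Prop where
  run : XRun (ramXM G z d h₀ b) (ramX (eval G z) d h₀ b) (rsrc (eval G z) d)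
  srx : ∀ S R p, p ≤ N → (ramXM G z d h₀ b).srx ((ramXM G z d h₀ b).xs S R p) = p
  fl : ∀ m ≤ N, ((ramXM G z d h₀ b).fl (ramX (eval G z) d h₀ b m) = true ↔ m = N)
  acc : (ramXM G z d h₀ b).acc (ramX (eval G z) d h₀ b N) = rst (eval G z) d N 2
  zero : ramX (eval G z) d h₀ b 0 = fun _ => false
  pos : 0 < N

end Pool.Agent.NUM
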