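import Pool.Agent.NUM.GList

/-!
# Local lists of claims for random access machines

`X t` is the extended state after step `t` (the state and the number of the step in which the record
used in step `t` was stored); `sc t ≤ t` is the number of the step in which the record read in step
`t + 1` was stored (`0`: nothing was stored).  The computation has the steps `1, …, N`.  The types
`Lst`, the static conditions `LStat` and `Avail` are those of `GList`.

An instance is a pair `(L, L'')` of lists.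
-/

set_option autoImplicit false

namespace Pool.Agent.NUM

variable {A : Type}

/-- entry `i` is true -/
def TrueR (X : ℕ → A) (N : ℕ) (L : Lst A) (i : ℕ) : Prop := L.tm i ≤ N ∧ L.st i = X (L.tm i)

/-- the records read in the own steps `≤ t` are available -/
def CloTo (sc : ℕ → ℕ) (L : Lst A) (w t : ℕ) : Prop :=
  ∀ i < 2 ^ w, L.fin i = false → L.lb i = 1 → ∀ u, L.pv i ≤ u → u < L.tm i → u < t →
    0 < sc u → Avail L i (sc u)

/-- **true lists** -/
structure TrR (X : ℕ → A) (sc : ℕ → ℕ) (N : ℕ) (L : Lst A) (w lim : ℕ) : Prop where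
  stat : LStat L w lim
  tru : ∀ i < 2 ^ w, L.fin i = false → TrueR X N L i
  clo : ∀ i < 2 ^ w, L.fin i = false → L.lb i = 1 → ∀ u, L.pv i ≤ u → u < L.tm i →
    0 < sc u → Avail L i (sc u)

/-- **bad lists**: some own entry is false although all entries before it are true and all own reads
before it are available -/
structure Bad1 (X : ℕ → A) (sc : ℕ → ℕ) (N : ℕ) (L : Lst A) (w lim : ℕ) : Prop where
  stat : LStat L w lim
  bad : ∃ i < 2 ^ w, L.fin i = false ∧ L.lb i = 1 ∧ (∀ j < i, TrueR X N L j) ∧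
    CloTo sc L w (min (L.tm i) N) ∧ ¬ TrueR X N L i

/-- the list determines the state after step `τ` -/
def Good (X : ℕ → A) (sc : ℕ → ℕ) (N : ℕ) (L : Lst A) (w τ : ℕ) : Prop :=
  ∃ i < 2 ^ w, L.fin i = false ∧ L.pv i < τ ∧ τ ≤ L.tm i ∧ (∀ j < i, TrueR X N L j) ∧
    (L.lb i = 1 ∨ (τ = L.tm i ∧ TrueR X N L i)) ∧ CloTo sc L w τ

/-- **stale pairs**: the record read in an own step of `L` was stored in a step which is not available
in `L`, but in `L''` -/
structure Stale (X : ℕ → A) (sc : ℕ → ℕ) (N : ℕ) (L L'' : Lst A) (w lim : ℕ) : Prop where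
  stat : LStat L w lim
  stat' : LStat L'' w lim
  bad : ∃ i < 2 ^ w, ∃ u, L.fin i = false ∧ L.lb i = 1 ∧ L.pv i ≤ u ∧ u < L.tm i ∧ u < N ∧
    (∀ j < i, TrueR X N L j) ∧ CloTo sc L w u ∧ 0 < sc u ∧ ¬ Avail L i (sc u) ∧
    Good X sc N L'' w (sc u)

/-- the first `n` entries of the lists agree -/
def EqTo (L L' : Lst A) (n : ℕ) : Prop :=
  ∀ k < n, L'.tm k = L.tm k ∧ L'.st k = L.st k ∧ L'.lb k = L.lb k ∧ L'.fin k = L.fin k

/-- `R` shows that the list `L` is wrong at its own segment `i` -/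
def Df1 (a0 : A) (fl : A → Bool) (w : ℕ) (L R : Lst A) (i : ℕ) : Prop :=
  i < 2 ^ w ∧ L.fin i = false ∧ L.lb i = 1 ∧
  (fl (L.ps a0 i) = true ∨
    (EqTo L R i ∧ R.fin i = false ∧ R.lb i = 1 ∧ R.tm i ≤ L.tm i ∧
      (R.tm i = L.tm i → R.st i ≠ L.st i) ∧ (R.tm i < L.tm i → fl (R.st i) = true)))

/-- `R`, `R'` show that the pair `L`, `L''` is stale: `R` is `L` up to the own segment `i` with one
inserted entry inside the foreign segment `j`, and then an own entry which has read this record -/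
def Df2 (srx : A → ℕ) (w : ℕ) (L L'' R R' : Lst A) (i j i'' : ℕ) : Prop :=
  i < 2 ^ w ∧ j < i ∧ i'' < 2 ^ w ∧ L.fin i = false ∧ L.lb i = 1 ∧ L.lb j ≠ 1 ∧
  EqTo L R j ∧
  R.fin j = false ∧ R.lb j ≠ 1 ∧ L.pv j < R.tm j ∧ R.tm j < L.tm j ∧
  (∀ k, j ≤ k → k < i → R.tm (k + 1) = L.tm k ∧ R.st (k + 1) = L.st k ∧ R.lb (k + 1) = L.lb k ∧
    R.fin (k + 1) = L.fin k) ∧
  R.fin (i + 1) = false ∧ R.lb (i + 1) = 1 ∧ L.pv i < R.tm (i + 1) ∧ R.tm (i + 1) ≤ L.tm i ∧
  srx (R.st (i + 1)) = R.tm j ∧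
  L''.fin i'' = false ∧
  ((L''.tm i'' = R.tm j ∧ L''.st i'' = R.st j) ∨
    (L''.lb i'' = 1 ∧ EqTo L'' R' i'' ∧ R'.fin i'' = false ∧ R'.lb i'' = 1 ∧
      L''.pv i'' < R'.tm i'' ∧ R'.tm i'' ≤ L''.tm i'' ∧ R'.tm i'' = R.tm j ∧ R'.st i'' = R.st j))

/-- the certificate against a pair of lists -/
def DfR (a0 : A) (fl : A → Bool) (srx : A → ℕ) (w : ℕ) (L L'' R R' : Lst A) (i j i'' : ℕ) : Prop :=
  Df1 a0 fl w L R i ∨ Df2 srx w L L'' R R' i j i''

/-- every entry `e` of the parent list is entry `i` of list `k`, own if it is own in the parent list -/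
def DirR (q w : ℕ) (R : Lst A) (C : ℕ → Lst A) (e k i : ℕ) : Prop :=
  R.fin e = false → k < 2 ^ q ∧ i < 2 ^ w ∧ (C k).fin i = false ∧ (R.lb e = 1 → (C k).lb i = 1) ∧
    (C k).tm i = R.tm e ∧ (C k).st i = R.st e

/-- the own segment `i` of list `k` is inside the own segment `e` of the parent list -/
def ContR (w₁ : ℕ) (R : Lst A) (C : ℕ → Lst A) (k i e : ℕ) : Prop :=
  (C k).fin i = false → (C k).lb i = 1 → e < 2 ^ w₁ ∧ R.fin e = false ∧ R.lb e = 1 ∧
    R.pv e ≤ (C k).pv i ∧ (C k).tm i ≤ R.tm e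

/-! ### first consequences -/

theorem TrR.cloTo {X : ℕ → A} {sc : ℕ → ℕ} {N : ℕ} {L : Lst A} {w lim : ℕ}
    (h : TrR X sc N L w lim) (t : ℕ) : CloTo sc L w t :=
  fun i hi hf hl u h1 h2 _ h3 => h.clo i hi hf hl u h1 h2 h3

theorem CloTo.mono {sc : ℕ → ℕ} {L : Lst A} {w t t' : ℕ} (h : CloTo sc L w t) (ht : t' ≤ t) :
    CloTo sc L w t' := fun i hi hf hl u h1 h2 h3 h4 => h i hi hf hl u h1 h2 (by omega) h4

end Pool.Agent.NUM
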