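import Pool.Agent.NUM.GRead
import Pool.Agent.NUM.RList

/-!
# Theorem H(γ) for random access machines: strings with systems of lists

The instances are pairs of lists.  The input of the refuter is `x = pair (pair (pair z l) y) v` (step)
or `pair (pair z y) v` (top).  The strings `l` and `y` are pairs: `pk l j`, `pk y j` are their parts.
Each part of `y` is a package with the format of `GRead` (a parent list, children, pointers, two
numbers); the string `v` contains a bit `j`, numbers `k`, `k'`, `i`, `e` (`false …`) and a string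
(`true …`).

The parameters are those of `GRead`: `p.h` is the number of bits of an extended state, `p.c` the
number of the bits before the last `p.b` bits; the lists of the instance have `2 ^ (p.w₁ - 1)` entries,
the parent lists have `2 ^ p.w₁` entries.
-/

set_option autoImplicit false

namespace Pool.Agent.NUM

/-- part `j` of a string -/
def pk (y : Inp) (j : Bool) : Inp := fun a => y (j :: a)

@[simp] theorem pk_pair_false (a b : Inp) : pk (pair a b) false = a := rfl

@[simp] theorem pk_pair_true (a b : Inp) : pk (pair a b) true = b := rfl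

section readers

variable (p : GPar)

/-- bit `r` of field `f` of the string of the refuter -/
def ubit (v : Inp) (f r : ℕ) : Bool := v (false :: (bits 3 f ++ bits p.σ r))

def uj (v : Inp) : Bool := ubit p v 0 0

def uk (v : Inp) : ℕ := num p.q (ubit p v 1)

def uk' (v : Inp) : ℕ := num p.q (ubit p v 2)

def ui (v : Inp) : ℕ := num p.w (ubit p v 3)

def ue (v : Inp) : ℕ := num p.w₁ (ubit p v 4)

/-- the length of `l` -/
def lLen (w σ : ℕ) : ℕ := hLen w σ + 1

/-- the length of `y` -/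
def rLen : ℕ := gLen p + 1

/-- the length of the numbers of the refuter -/
def uLen : ℕ := p.σ + 4

/-- list `j` of the instance in the step -/
def rL (l : Inp) (j : Bool) : Lst (Fin p.h → Bool) := rdL p.h (p.w₁ - 1) p.b p.σ (pk l j)

/-- the pair of the records of the children `k`, `k'` of package `j` -/
def rRec (y : Inp) (j : Bool) (k k' : ℕ) : Inp := pair (gRec p (pk y j) k) (gRec p (pk y j) k')

/-- the next instance -/
def rNext (y v : Inp) : Inp := rRec p y (uj p v) (uk p v) (uk' p v)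

/-- the flag of the last state -/
def rfg (S : Fin p.h → Bool) : Bool := if hc : 0 < p.h then S ⟨0, hc⟩ else false

/-- the number at the end of the extended state -/
def rsx (S : Fin p.h → Bool) : ℕ :=
  num p.b fun r => if hr : p.c + r < p.h then S ⟨p.c + r, hr⟩ else false

end readers

/-- entry `k` of the list `L'` is entry `k` of `L` -/
def EqAtR {A : Type} (L L' : Lst A) (k : ℕ) : Prop :=
  L'.tm k = L.tm k ∧ L'.st k = L.st k ∧ L'.lb k = L.lb k ∧ L'.fin k = L.fin k

/-- entry `k + 1` of the list `L'` is entry `k` of `L` -/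
def EqSh {A : Type} (L L' : Lst A) (k : ℕ) : Prop :=
  L'.tm (k + 1) = L.tm k ∧ L'.st (k + 1) = L.st k ∧ L'.lb (k + 1) = L.lb k ∧
    L'.fin (k + 1) = L.fin k

/-- `Df1` at entry `e` -/
def Df1At {A : Type} (a0 : A) (fl : A → Bool) (w : ℕ) (L R : Lst A) (i e : ℕ) : Prop :=
  i < 2 ^ w ∧ L.fin i = false ∧ L.lb i = 1 ∧
  (fl (L.ps a0 i) = true ∨
    ((e < i → EqAtR L R e) ∧ R.fin i = false ∧ R.lb i = 1 ∧ R.tm i ≤ L.tm i ∧
      (R.tm i = L.tm i → R.st i ≠ L.st i) ∧ (R.tm i < L.tm i → fl (R.st i) = true)))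

/-- `Df2` at entry `e` -/
def Df2At {A : Type} (srx : A → ℕ) (w : ℕ) (L L'' R R' : Lst A) (i j i'' e : ℕ) : Prop :=
  i < 2 ^ w ∧ j < i ∧ i'' < 2 ^ w ∧ L.fin i = false ∧ L.lb i = 1 ∧ L.lb j ≠ 1 ∧
  (e < j → EqAtR L R e) ∧
  R.fin j = false ∧ R.lb j ≠ 1 ∧ L.pv j < R.tm j ∧ R.tm j < L.tm j ∧
  (j ≤ e → e < i → EqSh L R e) ∧
  R.fin (i + 1) = false ∧ R.lb (i + 1) = 1 ∧ L.pv i < R.tm (i + 1) ∧ R.tm (i + 1) ≤ L.tm i ∧
  srx (R.st (i + 1)) = R.tm j ∧
  L''.fin i'' = false ∧
  ((L''.tm i'' = R.tm j ∧ L''.st i'' = R.st j) ∨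
    (L''.lb i'' = 1 ∧ (e < i'' → EqAtR L'' R' e) ∧ R'.fin i'' = false ∧ R'.lb i'' = 1 ∧
      L''.pv i'' < R'.tm i'' ∧ R'.tm i'' ≤ L''.tm i'' ∧ R'.tm i'' = R.tm j ∧ R'.st i'' = R.st j))

theorem df1_iff {A : Type} {a0 : A} {fl : A → Bool} {w w₁ : ℕ} (hw : w ≤ w₁) {L R : Lst A} {i : ℕ} :
    Df1 a0 fl w L R i ↔ ∀ e < 2 ^ w₁, Df1At a0 fl w L R i e := by
  have hww : 2 ^ w ≤ 2 ^ w₁ := Nat.pow_le_pow_right (by norm_num) hw
  constructor
  · rintro ⟨h1, h2, h3, h4⟩ e _
    refine ⟨h1, h2, h3, ?_⟩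
    rcases h4 with h4 | ⟨h4, h5⟩
    · exact Or.inl h4
    · exact Or.inr ⟨fun he => h4 e he, h5⟩
  · intro h
    obtain ⟨h1, h2, h3, -⟩ := h 0 (by positivity)
    refine ⟨h1, h2, h3, ?_⟩
    by_cases hC : fl (L.ps a0 i) = true
    · exact Or.inl hC
    · right
      have h6 : ∀ e < 2 ^ w₁, (e < i → EqAtR L R e) ∧ R.fin i = false ∧ R.lb i = 1 ∧
          R.tm i ≤ L.tm i ∧ (R.tm i = L.tm i → R.st i ≠ L.st i) ∧
          (R.tm i < L.tm i → fl (R.st i) = true) := fun e he => by
        rcases (h e he).2.2.2 with h7 | h7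
        · exact absurd h7 hC
        · exact h7
      exact ⟨fun k hk => (h6 k (by omega)).1 hk, (h6 0 (by positivity)).2⟩

theorem df2_iff {A : Type} {srx : A → ℕ} {w w₁ : ℕ} (hw : w ≤ w₁) {L L'' R R' : Lst A}
    {i j i'' : ℕ} :
    Df2 srx w L L'' R R' i j i'' ↔ ∀ e < 2 ^ w₁, Df2At srx w L L'' R R' i j i'' e := by
  have hww : 2 ^ w ≤ 2 ^ w₁ := Nat.pow_le_pow_right (by norm_num) hw
  constructor
  · rintro ⟨h1, h2, h3, h4, h5, h6, h7, h8, h9, h10, h11, h12, h13, h14, h15, h16, h17, h18, h19⟩ e _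
    refine ⟨h1, h2, h3, h4, h5, h6, fun he => h7 e he, h8, h9, h10, h11,
      fun he he' => h12 e he he', h13, h14, h15, h16, h17, h18, ?_⟩
    rcases h19 with h19 | ⟨g1, g2, g3⟩
    · exact Or.inl h19
    · exact Or.inr ⟨g1, fun he => g2 e he, g3⟩
  · intro h
    obtain ⟨h1, h2, h3, h4, h5, h6, -, h8, h9, h10, h11, -, h13, h14, h15, h16, h17, h18, -⟩ :=
      h 0 (by positivity)
    refine ⟨h1, h2, h3, h4, h5, h6, fun k hk => ?_, h8, h9, h10, h11, fun k hk hk' => ?_, h13, h14,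
      h15, h16, h17, h18, ?_⟩
    · exact (h k (by omega)).2.2.2.2.2.2.1 hk
    · exact (h k (by omega)).2.2.2.2.2.2.2.2.2.2.2.1 hk hk'
    · by_cases hC : L''.tm i'' = R.tm j ∧ L''.st i'' = R.st j
      · exact Or.inl hC
      · right
        have h6 : ∀ e < 2 ^ w₁, L''.lb i'' = 1 ∧ (e < i'' → EqAtR L'' R' e) ∧ R'.fin i'' = false ∧
            R'.lb i'' = 1 ∧ L''.pv i'' < R'.tm i'' ∧ R'.tm i'' ≤ L''.tm i'' ∧
            R'.tm i'' = R.tm j ∧ R'.st i'' = R.st j := fun e he => by
          rcases (h e he).2.2.2.2.2.2.2.2.2.2.2.2.2.2.2.2.2.2 with h7 | h7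
          · exact absurd h7 hC
          · exact h7
        obtain ⟨g1, g2, g3⟩ := h6 0 (by positivity)
        exact ⟨g1, fun k hk => (h6 k (by omega)).2.1 hk, g3⟩

/-- the static conditions on a package at `k`, `i`, `e` -/
def RCom (p : GPar) (y : Inp) (k i e : ℕ) : Prop :=
  LStatAt (gC p y k) p.w p.lim i ∧ LStatAt (gR p y) p.w₁ p.lim₁ e ∧
  PtrOK p.q p.w₁ p.w (gR p y) (gC p y) k i (gX p y k i) (gE p y k i) (gK p y k i) (gI p y k i) ∧
  DirR p.q p.w (gR p y) (gC p y) e (gDk p y e) (gDi p y e) ∧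
  ContR p.w₁ (gR p y) (gC p y) k i (gE p y k i)

/-- the certificate against the instance `l` at entry `e`; the kind of the certificate is the number
`gj` of package `1` -/
def RDf (p : GPar) (l y : Inp) (e : ℕ) : Prop :=
  if gj p (pk y true) = 0 then
    Df1At (fun _ => false) (rfg p) (p.w₁ - 1) (rL p l false) (gR p (pk y false))
      (gi p (pk y false)) e
  else
    Df2At (rsx p) (p.w₁ - 1) (rL p l false) (rL p l true) (gR p (pk y false)) (gR p (pk y true))
      (gi p (pk y false)) (gj p (pk y false)) (gi p (pk y true)) e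

/-- the static conditions in the step -/
def RStepC (p : GPar) (l y v : Inp) : Prop :=
  RCom p (pk y (uj p v)) (uk p v) (ui p v) (ue p v) ∧ RDf p l y (ue p v)

/-- the static conditions at the top -/
def RTopC (p : GPar) (y v : Inp) : Prop :=
  RCom p (pk y (uj p v)) (uk p v) (ui p v) (ue p v) ∧ TopL (rfg p) (gacc p) (gR p (pk y false))

/-- **The statement about the code of the static checks.** In the step the input is
`pair (pair (pair z l) y) v`, at the top `pair (pair z y) v`. -/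
def RCodeOK : Prop :=
  ∀ p : GPar, p.Ok →
    (∃ f : Inp → Bool, Cp 0 (p.X ^ 100) (fun x _ => f x) ∧ ∀ z l y v : Inp,
      (f (pair (pair (pair z (trc (lLen (p.w₁ - 1) p.σ) l)) (trc (rLen p) y)) v) = true ↔
        RStepC p l y v)) ∧
    ∃ f : Inp → Bool, Cp 0 (p.X ^ 100) (fun x _ => f x) ∧ ∀ z y v : Inp,
      (f (pair (pair z (trc (rLen p) y)) v) = true ↔ RTopC p y v)

end Pool.Agent.NUM
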