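import Pool.Agent.NUM.GList

/-!
# Bad lists have certificates; the list about the last state
-/

set_option autoImplicit false

namespace Pool.Agent.NUM

variable {A : Type} {H : HM A} {N : ℕ} {L : Lst A} {w lim : ℕ}

/-- segments which meet are equal -/
theorem LStat.seg_unique (h : LStat L w lim) {i j τ : ℕ} (hi : i < 2 ^ w) (hj : j < 2 ^ w)
    (h1 : L.pv i < τ) (h2 : τ ≤ L.tm i) (h3 : L.pv j < τ) (h4 : τ ≤ L.tm j) : i = j := by
  rcases Nat.lt_trichotomy i j with h5 | h5 | h5
  · have := h.tm_le_pv h5 hj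
    omega
  · exact h5
  · have := h.tm_le_pv h5 hi
    omega

/-- every time is in a segment -/
theorem exists_seg (L : Lst A) : ∀ i τ, 0 < τ → τ ≤ L.pv i →
    ∃ j < i, L.pv j < τ ∧ τ ≤ L.tm j := by
  intro i
  induction i with
  | zero =>
    intro τ h1 h2
    have h3 : L.pv 0 = 0 := rfl
    omega
  | succ i ih =>
    intro τ h1 h2
    have h2' : τ ≤ L.tm i := h2
    rcases Nat.lt_or_ge (L.pv i) τ with h | h
    · exact ⟨i, by omega, h, h2'⟩
    · obtain ⟨j, hj, h3, h4⟩ := ih τ h1 h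
      exact ⟨j, by omega, h3, h4⟩

theorem LStat.off_le (h : LStat L w lim) (hlim : 1 ≤ lim) : ∀ i, i < 2 ^ w →
    (∀ j < i, L.fin j = false) → L.off i ≤ lim := by
  intro i hi hf
  cases i with
  | zero => rw [h.off0]; exact hlim
  | succ i => exact ((h.run i (by omega) (hf i (by omega))).2.2).le

theorem ps_true {i : ℕ} (h : ∀ j < i, TrueE H N L j) : L.ps H.a0 i = H.U (L.pv i) := by
  cases i with
  | zero => rfl
  | succ i => exact (h i (by omega)).2

/-- the list which is cut at time `u` in the segment `i`, with state `S` -/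
def cutL (L : Lst A) (i u : ℕ) (S : A) : Lst A where
  tm k := if k < i then L.tm k else u + (k - i)
  st k := if k < i then L.st k else S
  lb k := if k < i then L.lb k else if k = i then 1 else 0
  off k := if k ≤ i then L.off k else L.off i + 1 + (u - L.pv i)
  fin k := decide (i < k)

theorem cutL_pv {i u : ℕ} {S : A} : ∀ k ≤ i, (cutL L i u S).pv k = L.pv k := by
  intro k hk
  cases k with
  | zero => rfl
  | succ k =>
    show (if k < i then L.tm k else u + (k - i)) = L.tm k
    rw [if_pos (by omega)]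

theorem cutL_tm {i u : ℕ} {S : A} : (cutL L i u S).tm i = u := by
  show (if i < i then L.tm i else u + (i - i)) = u
  rw [if_neg (by omega)]
  omega

theorem cutL_tm_lt {i u k : ℕ} {S : A} (hk : k < i) : (cutL L i u S).tm k = L.tm k :=
  if_pos hk

theorem cutL_tm_gt {i u k : ℕ} {S : A} (hk : i < k) : (cutL L i u S).tm k = u + (k - i) :=
  if_neg (by omega)

theorem cutL_st {i u : ℕ} {S : A} : (cutL L i u S).st i = S := if_neg (lt_irrefl i)

theorem cutL_st_lt {i u k : ℕ} {S : A} (hk : k < i) : (cutL L i u S).st k = L.st k := if_pos hk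

theorem cutL_lb {i u : ℕ} {S : A} : (cutL L i u S).lb i = 1 := by
  show (if i < i then L.lb i else if i = i then 1 else 0) = 1
  rw [if_neg (lt_irrefl i), if_pos rfl]

theorem cutL_lb_lt {i u k : ℕ} {S : A} (hk : k < i) : (cutL L i u S).lb k = L.lb k := if_pos hk

theorem cutL_lb_gt {i u k : ℕ} {S : A} (hk : i < k) : (cutL L i u S).lb k = 0 := by
  show (if k < i then L.lb k else if k = i then 1 else 0) = 0
  rw [if_neg (by omega), if_neg (by omega)]

theorem cutL_fin {i u k : ℕ} {S : A} (hk : k ≤ i) : (cutL L i u S).fin k = false := by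
  show decide (i < k) = false
  rw [decide_eq_false_iff_not]
  omega

theorem cutL_fin_gt {i u k : ℕ} {S : A} (hk : i < k) : (cutL L i u S).fin k = true := by
  show decide (i < k) = true
  rw [decide_eq_true_iff]
  exact hk

theorem cutL_off {i u k : ℕ} {S : A} (hk : k ≤ i) : (cutL L i u S).off k = L.off k := if_pos hk

theorem cutL_off_gt {i u k : ℕ} {S : A} (hk : i < k) :
    (cutL L i u S).off k = L.off i + 1 + (u - L.pv i) := if_neg (by omega)

/-- the cut list is true -/
theorem cutL_true (h : LStat L w lim) (hlim : 1 ≤ lim) {i u : ℕ} (hi : i < 2 ^ w)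
    (hfi : L.fin i = false) (hlb : L.lb i = 1) (htr : ∀ j < i, TrueE H N L j) (hu : L.pv i < u)
    (hu' : u ≤ L.tm i) (huN : u ≤ N)
    (hav : ∀ k ≤ i, L.lb k = 1 → ∀ t, L.pv k ≤ t → t < L.tm k → t < u → 0 < H.idx (H.U t) →
      H.idx (H.U t) ≤ t → Avail L k (H.idx (H.U t))) :
    TrL H N (cutL L i u (H.U u)) w lim ∧ ∀ k, (cutL L i u (H.U u)).tm k ≤ N + k + 1 ∧
      ((cutL L i u (H.U u)).lb k ≤ 1 ∨ (cutL L i u (H.U u)).lb k = L.lb k) ∧
      (cutL L i u (H.U u)).off k ≤ lim := by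
  have hnf : ∀ j ≤ i, L.fin j = false := fun j hj => h.nfin hj hi hfi
  obtain ⟨hrun1, hrun2, hrun3⟩ := h.run i hi hfi
  rw [if_pos hlb] at hrun2
  have hoff : L.off i + 1 + (u - L.pv i) < lim := by omega
  refine ⟨⟨⟨?_, ?_, ?_, ?_⟩, ?_, ?_⟩, ?_⟩
  · rw [cutL_off (Nat.zero_le _)]
    exact h.off0
  · intro k hk
    rcases Nat.lt_trichotomy k i with h1 | h1 | h1
    · rw [cutL_pv k h1.le, cutL_tm_lt h1]
      exact h.srt k hk
    · subst h1
      rw [cutL_pv k le_rfl, cutL_tm]
      exact hu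
    · obtain ⟨k', rfl⟩ : ∃ k', k = k' + 1 := ⟨k - 1, by omega⟩
      rw [cutL_tm_gt h1]
      show (cutL L i u (H.U u)).tm k' < _
      rcases Nat.lt_or_ge i k' with h2 | h2
      · rw [cutL_tm_gt h2]
        omega
      · have : k' = i := by omega
        subst this
        rw [cutL_tm]
        omega
  · intro k hk hfk
    have h1 : i < k := by
      by_contra hcon
      rw [cutL_fin (by omega)] at hfk
      cases hfk
    refine ⟨?_, fun _ => cutL_fin_gt (by omega)⟩
    rw [cutL_lb_gt h1]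
    omega
  · intro k hk hfk
    have h1 : k ≤ i := by
      by_contra hcon
      rw [cutL_fin_gt (by omega)] at hfk
      cases hfk
    rcases Nat.lt_or_ge k i with h2 | h2
    · obtain ⟨g1, g2, g3⟩ := h.run k hk (hnf k h1)
      refine ⟨g1, ?_, ?_⟩
      · rw [cutL_off (by omega), cutL_off h1, cutL_lb_lt h2, cutL_tm_lt h2, cutL_pv k h1]
        exact g2
      · rw [cutL_off (by omega)]
        exact g3
    · have : k = i := by omega
      subst this
      refine ⟨hrun1, ?_, ?_⟩
      · rw [cutL_off_gt (by omega), cutL_off le_rfl, cutL_lb, cutL_tm, cutL_pv k le_rfl,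
          if_pos rfl]
      · rw [cutL_off_gt (by omega)]
        exact hoff
  · intro k hk hfk
    have h1 : k ≤ i := by
      by_contra hcon
      rw [cutL_fin_gt (by omega)] at hfk
      cases hfk
    unfold TrueE
    rcases Nat.lt_or_ge k i with h2 | h2
    · rw [cutL_tm_lt h2, cutL_st_lt h2]
      exact htr k h2
    · have : k = i := by omega
      subst this
      rw [cutL_tm, cutL_st]
      exact ⟨huN, rfl⟩
  · intro k hk hfk hlk t ht ht' h3 h4
    have h1 : k ≤ i := by
      by_contra hcon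
      rw [cutL_fin_gt (by omega)] at hfk
      cases hfk
    rw [cutL_pv k h1] at ht
    have hlk' : L.lb k = 1 := by
      rcases Nat.lt_or_ge k i with h2 | h2
      · rwa [cutL_lb_lt h2] at hlk
      · rwa [show k = i by omega]
    have ht2 : t < L.tm k ∧ t < u := by
      rcases Nat.lt_or_ge k i with h2 | h2
      · rw [cutL_tm_lt h2] at ht'
        have := h.tm_le_pv h2 hi
        exact ⟨ht', by omega⟩
      · have : k = i := by omega
        subst this
        rw [cutL_tm] at ht'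
        exact ⟨by omega, ht'⟩
    obtain ⟨j, hj, g1, g2, g3⟩ := hav k h1 hlk' t ht ht2.1 ht2.2 h3 h4
    refine ⟨j, hj, ?_, ?_, ?_⟩
    · rw [cutL_pv j (by omega)]
      exact g1
    · rcases Nat.lt_or_ge j i with h2 | h2
      · rw [cutL_tm_lt h2]
        exact g2
      · have : j = i := by omega
        subst this
        rw [cutL_tm]
        omega
    · rcases Nat.lt_or_ge j i with h2 | h2
      · rw [cutL_tm_lt h2, cutL_lb_lt h2]
        exact g3
      · have : j = i := by omega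
        subst this
        rw [cutL_lb]
        exact Or.inr rfl
  · intro k
    rcases Nat.lt_trichotomy k i with h1 | h1 | h1
    · rw [cutL_tm_lt h1, cutL_lb_lt h1, cutL_off h1.le]
      refine ⟨?_, Or.inr rfl, h.off_le hlim k (by omega) fun j hj => hnf j (by omega)⟩
      have := (htr k h1).1
      omega
    · subst h1
      rw [cutL_tm, cutL_lb, cutL_off le_rfl]
      exact ⟨by omega, Or.inl le_rfl, h.off_le hlim k hi fun j hj => hnf j (by omega)⟩
    · rw [cutL_tm_gt h1, cutL_lb_gt h1, cutL_off_gt h1]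
      exact ⟨by omega, Or.inl (Nat.zero_le _), hoff.le⟩

/-- the empty list -/
def emptyL (a : A) : Lst A where
  tm k := k + 1
  st _ := a
  lb _ := 0
  off _ := 1
  fin _ := true

theorem emptyL_true (a : A) : TrL H N (emptyL a) w lim := by
  refine ⟨⟨rfl, ?_, ?_, ?_⟩, ?_, ?_⟩
  · intro k _
    cases k with
    | zero => show 0 < 0 + 1; omega
    | succ k => show k + 1 < k + 1 + 1; omega
  · intro k _ _
    exact ⟨by show (0 : ℕ) ≠ 1; omega, fun _ => rfl⟩
  · intro k _ h
    cases h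
  · intro k _ h
    cases h
  · intro k _ h
    cases h

/-- a recalled state which is not available is inside a foreign segment -/
theorem exists_foreign {i τ : ℕ} (h2 : τ ≤ L.pv i ∨ L.lb i = 1 ∧ τ ≤ L.tm i)
    (h0 : 0 < τ) (hna : ¬ Avail L i τ) :
    ∃ j < i, L.pv j < τ ∧ τ < L.tm j ∧ L.lb j ≠ 1 := by
  have h3 : τ ≤ L.pv i := by
    rcases h2 with h2 | ⟨h2, h2'⟩
    · exact h2
    · by_contra hcon
      exact hna ⟨i, le_rfl, by omega, h2', Or.inr h2⟩
  obtain ⟨j, hj, g1, g2⟩ := exists_seg L i τ h0 h3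
  refine ⟨j, hj, g1, ?_, ?_⟩
  · rcases Nat.lt_or_ge τ (L.tm j) with h | h
    · exact h
    · exact absurd ⟨j, hj.le, g1, g2, Or.inl (by omega)⟩ hna
  · intro h
    exact hna ⟨j, hj.le, g1, g2, Or.inr h⟩

/-- **Bad lists have certificates.** -/
theorem BadL.exists_df {fl : A → Bool} (hfl : ∀ m ≤ N, (fl (H.U m) = true ↔ m = N))
    (hlim : 1 ≤ lim) (h : BadL H N L w lim) :
    ∃ (L' : Lst A) (i j : ℕ), DfL H fl w L L' i j ∧ TrL H N L' w lim ∧
      ∀ k, L'.tm k ≤ N + k + 1 ∧ (L'.lb k ≤ 1 ∨ L'.lb k = L.lb k) ∧ L'.off k ≤ lim := by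
  classical
  obtain ⟨hs, i₀, hi₀, hf₀, hl₀, htr, hbad⟩ := h
  have hpv : L.pv i₀ ≤ N := by
    cases i₀ with
    | zero => exact Nat.zero_le _
    | succ i => exact (htr i (by omega)).1
  obtain ⟨P, hP⟩ : ∃ P : ℕ → Prop, ∀ u, P u ↔ (u ≤ N ∧ ∃ i ≤ i₀, L.lb i = 1 ∧ L.pv i ≤ u ∧
      u < L.tm i ∧ (u = N ∨ (0 < H.idx (H.U u) ∧ H.idx (H.U u) ≤ u ∧
        ¬ Avail L i (H.idx (H.U u))))) := ⟨_, fun _ => Iff.rfl⟩
  by_cases hex : ∃ u, P u
  · -- the first problem
    obtain ⟨u, hu, hmin⟩ : ∃ u, P u ∧ ∀ t < u, ¬ P t :=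
      ⟨Nat.find hex, Nat.find_spec hex, fun t ht => Nat.find_min hex ht⟩
    obtain ⟨huN, i, hi, hli, hpi, hui, hprob⟩ := (hP u).1 hu
    have hfi : L.fin i = false := hs.nfin hi hi₀ hf₀
    have htr' : ∀ j < i, TrueE H N L j := fun j hj => htr j (by omega)
    obtain ⟨j, hj, hconf⟩ : ∃ j < 2 ^ w, Conf H fl L j (H.U u) u := by
      rcases hprob with h1 | ⟨h1, h2, h3⟩
      · exact ⟨0, by positivity, Or.inl ((hfl u huN).2 h1)⟩
      · obtain ⟨j, hj, g1, g2, g3⟩ := exists_foreign (Or.inr ⟨hli, by omega⟩) h1 h3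
        exact ⟨j, by omega, Or.inr ⟨h1, h2, g1, g2, g3⟩⟩
    rcases Nat.eq_or_lt_of_le hpi with heq | hlt
    · refine ⟨emptyL H.a0, i, j, ⟨by omega, hj, hfi, hli, Or.inl ?_⟩, emptyL_true _, fun k => ?_⟩
      · rw [ps_true htr', heq]
        exact hconf
      · exact ⟨by show k + 1 ≤ N + k + 1; omega, Or.inl (Nat.zero_le _), hlim⟩
    · obtain ⟨g1, g2⟩ := cutL_true (H := H) (N := N) hs hlim (by omega) hfi hli htr' hlt hui.le huN
        (by
          intro k hk hlk t ht ht' htu h3 h4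
          by_contra hna
          exact hmin t htu ((hP t).2 ⟨by omega, k, by omega, hlk, ht, ht', Or.inr ⟨h3, h4, hna⟩⟩))
      refine ⟨cutL L i u (H.U u), i, j, ⟨by omega, hj, hfi, hli, Or.inr ⟨?_, ?_, ?_, ?_, ?_, ?_⟩⟩,
        g1, g2⟩
      · intro j' hj'
        exact ⟨cutL_tm_lt hj', cutL_st_lt hj', cutL_lb_lt hj', cutL_fin hj'.le⟩
      · exact cutL_fin le_rfl
      · exact cutL_lb
      · rw [cutL_tm]; exact hui.le
      · intro h1
        rw [cutL_tm] at h1
        omega
      · intro _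
        rw [cutL_st, cutL_tm]
        exact hconf
  · -- the simulation of the bad segment ends with another state
    push Not at hex
    have htm : L.tm i₀ ≤ N := by
      by_contra hcon
      exact hex N ((hP N).2 ⟨le_rfl, i₀, le_rfl, hl₀, hpv, by omega, Or.inl rfl⟩)
    have hst : L.st i₀ ≠ H.U (L.tm i₀) := fun h => hbad ⟨htm, h⟩
    obtain ⟨g1, g2⟩ := cutL_true (H := H) (N := N) hs hlim hi₀ hf₀ hl₀ htr (hs.srt i₀ hi₀) le_rfl
      htm (by
        intro k hk hlk t ht ht' htu h3 h4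
        by_contra hna
        exact hex t ((hP t).2 ⟨by omega, k, hk, hlk, ht, ht', Or.inr ⟨h3, h4, hna⟩⟩))
    refine ⟨cutL L i₀ (L.tm i₀) (H.U (L.tm i₀)), i₀, 0, ⟨hi₀, by positivity, hf₀, hl₀,
      Or.inr ⟨?_, ?_, ?_, ?_, ?_, ?_⟩⟩, g1, g2⟩
    · intro j' hj'
      exact ⟨cutL_tm_lt hj', cutL_st_lt hj', cutL_lb_lt hj', cutL_fin hj'.le⟩
    · exact cutL_fin le_rfl
    · exact cutL_lb
    · rw [cutL_tm]
    · intro _
      rw [cutL_st]
      exact fun h => hst h.symm
    · intro h1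
      rw [cutL_tm] at h1
      omega

/-- no conflict on a true list -/
theorem TrL.not_conf {fl : A → Bool} (hfl : ∀ m ≤ N, (fl (H.U m) = true ↔ m = N))
    (h : TrL H N L w lim) {i j u : ℕ} (hi : i < 2 ^ w) (hj : j < 2 ^ w) (hfi : L.fin i = false)
    (hli : L.lb i = 1) (h1 : L.pv i ≤ u) (h2 : u < L.tm i) : ¬ Conf H fl L j (H.U u) u := by
  have hN : L.tm i ≤ N := (h.tru i hi hfi).1
  rintro (h3 | ⟨h3, h4, h5, h6, h7⟩)
  · have := (hfl u (by omega)).1 h3
    omega
  · obtain ⟨j', hj', g1, g2, g3⟩ := h.clo i hi hfi hli u h1 h2 h3 h4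
    have : j' = j := h.stat.seg_unique (by omega) hj g1 g2 h5 h6.le
    subst this
    rcases g3 with g3 | g3
    · omega
    · exact h7 g3

/-- **Certificates against true lists are bad lists.** -/
theorem TrL.bad_of_df {fl : A → Bool} (hfl : ∀ m ≤ N, (fl (H.U m) = true ↔ m = N))
    (h : TrL H N L w lim) {L' : Lst A} {i j : ℕ} (hd : DfL H fl w L L' i j)
    (hs : LStat L' w lim) : BadL H N L' w lim := by
  obtain ⟨hi, hj, hfi, hli, hd⟩ := hd
  have hnf : ∀ k < i, L.fin k = false := fun k hk => h.stat.nfin hk.le hi hfi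
  have htr : ∀ k < i, TrueE H N L k := fun k hk => h.tru k (by omega) (hnf k hk)
  rcases hd with hd | ⟨hag, hf', hl', htm, hst, hcf⟩
  · rw [ps_true htr] at hd
    exact absurd hd (h.not_conf hfl hi hj hfi hli le_rfl (h.stat.srt i hi))
  · refine ⟨hs, i, hi, hf', hl', fun k hk => ?_, ?_⟩
    · obtain ⟨g1, g2, -, -⟩ := hag k hk
      unfold TrueE
      rw [g1, g2]
      exact htr k hk
    · rintro ⟨h1, h2⟩
      have hpv : L'.pv i = L.pv i := by
        cases i with
        | zero => rfl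
        | succ i => exact (hag i (by omega)).1
      have hsrt := hs.srt i hi
      rw [hpv] at hsrt
      rcases Nat.eq_or_lt_of_le htm with h3 | h3
      · apply hst h3
        rw [h2, h3]
        exact (h.tru i hi hfi).2.symm
      · have h4 := hcf h3
        rw [h2] at h4
        exact h.not_conf hfl hi hj hfi hli hsrt.le h3 h4

/-- **the list about the last state** -/
theorem exists_top {fl acc : A → Bool} (hfl : ∀ m ≤ N, (fl (H.U m) = true ↔ m = N))
    (hacc : acc (H.U N) = true) (hN : 0 < N) (hw : 1 ≤ w) (hlim : N + 2 < lim) :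
    ∃ L : Lst A, TrL H N L w lim ∧ TopL fl acc L ∧
      ∀ k, L.tm k ≤ N + k ∧ L.lb k ≤ 1 ∧ L.off k ≤ lim := by
  have h2w : 2 ≤ 2 ^ w := by
    calc 2 = 2 ^ 1 := rfl
      _ ≤ 2 ^ w := Nat.pow_le_pow_right (by norm_num) hw
  obtain ⟨L, hL⟩ : ∃ L : Lst A, L = ⟨fun k => N + k, fun _ => H.U N,
    fun k => if k = 0 then 1 else 0, fun k => if k = 0 then 1 else N + 2,
    fun k => decide (0 < k)⟩ := ⟨_, rfl⟩
  have e1 : ∀ k, L.tm k = N + k := fun k => by rw [hL]
  have e2 : ∀ k, L.st k = H.U N := fun k => by rw [hL]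
  have e3 : L.lb 0 = 1 := by rw [hL]; rfl
  have e4 : ∀ k, 0 < k → L.lb k = 0 := fun k hk => by
    rw [hL]
    show (if k = 0 then 1 else 0) = 0
    rw [if_neg (by omega)]
  have e5 : L.off 0 = 1 := by rw [hL]; rfl
  have e6 : ∀ k, 0 < k → L.off k = N + 2 := fun k hk => by
    rw [hL]
    show (if k = 0 then 1 else N + 2) = N + 2
    rw [if_neg (by omega)]
  have e7 : L.fin 0 = false := by rw [hL]; rfl
  have e8 : ∀ k, 0 < k → L.fin k = true := fun k hk => by
    rw [hL]
    show decide (0 < k) = true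
    rw [decide_eq_true_iff]
    exact hk
  have e9 : L.pv 0 = 0 := rfl
  have hf0 : ∀ k, L.fin k = false → k = 0 := by
    intro k hk
    by_contra hcon
    rw [e8 k (by omega)] at hk
    cases hk
  refine ⟨L, ⟨⟨e5, ?_, ?_, ?_⟩, ?_, ?_⟩, ⟨e7, e3, ?_, ?_⟩, ?_⟩
  · intro k _
    cases k with
    | zero => rw [e9, e1]; omega
    | succ k =>
      show L.tm k < L.tm (k + 1)
      rw [e1, e1]
      omega
  · intro k _ hk
    have hk0 : 0 < k := by
      rcases Nat.eq_zero_or_pos k with h | h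
      · subst h
        rw [e7] at hk
        cases hk
      · exact h
    refine ⟨?_, fun _ => e8 _ (by omega)⟩
    rw [e4 k hk0]
    omega
  · intro k _ hk
    have := hf0 k hk
    subst this
    refine ⟨by omega, ?_, ?_⟩
    · rw [e6 (0 + 1) (by omega), e5, e3, e9, e1, if_pos rfl]
      omega
    · rw [e6 (0 + 1) (by omega)]
      exact hlim
  · intro k _ hk
    have := hf0 k hk
    subst this
    unfold TrueE
    rw [e1, e2, Nat.add_zero]
    exact ⟨le_rfl, rfl⟩
  · intro k _ hk _ u _ h2 h3 h4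
    have := hf0 k hk
    subst this
    rw [e1] at h2
    exact ⟨0, le_rfl, by rw [e9]; exact h3, by rw [e1]; omega, Or.inr e3⟩
  · rw [e2]
    exact (hfl N le_rfl).2 rfl
  · rw [e2]
    exact hacc
  · intro k
    rcases Nat.eq_zero_or_pos k with h | h
    · subst h
      rw [e1, e3, e5]
      exact ⟨le_rfl, le_rfl, by omega⟩
    · rw [e1, e4 k h, e6 k h]
      exact ⟨le_rfl, by omega, by omega⟩

/-- if the machine rejects, every list about an accepting last state is bad -/
theorem bad_of_top {fl acc : A → Bool} (hfl : ∀ m ≤ N, (fl (H.U m) = true ↔ m = N))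
    (hacc : acc (H.U N) = false) (hs : LStat L w lim) (ht : TopL fl acc L) :
    BadL H N L w lim := by
  obtain ⟨h1, h2, h3, h4⟩ := ht
  refine ⟨hs, 0, by positivity, h1, h2, fun j hj => absurd hj (Nat.not_lt_zero j), ?_⟩
  rintro ⟨h5, h6⟩
  rw [h6] at h3 h4
  have h7 := (hfl _ h5).1 h3
  rw [h7, hacc] at h4
  cases h4

end Pool.Agent.NUM
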