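import Pool.Agent.NUM.RList
import Pool.Agent.NUM.GNeg

/-!
# Theorem H(γ) for random access machines: certificates of the first kind, the list about the last
state
-/

set_option autoImplicit false

namespace Pool.Agent.NUM

variable {A : Type} {X : ℕ → A} {sc : ℕ → ℕ} {N : ℕ} {L : Lst A} {w lim : ℕ}

theorem ps_trueR {i : ℕ} (h : ∀ j < i, TrueR X N L j) : L.ps (X 0) i = X (L.pv i) := by
  cases i with
  | zero => rfl
  | succ i => exact (h i (by omega)).2

theorem emptyL_trueR (a : A) : TrR X sc N (emptyL a) w lim := by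
  refine ⟨⟨rfl, ?_, ?_, ?_⟩, ?_, ?_⟩
  · intro k _
    cases k with
    | zero => show 0 < 0 + 1; omega
    | succ k => show k + 1 < k + 1 + 1; omega
  · intro k _ _
    exact ⟨by show (0 : ℕ) ≠ 1; omega, fun _ => rfl⟩
  · intro k _ h
    cases h
  · intro k _ h
    cases h
  · intro k _ h
    cases h

/-- the cut list is true -/
theorem cutL_trueR (hsc : ∀ u, sc u ≤ u) (h : LStat L w lim) (hlim : 1 ≤ lim) {w' lim' : ℕ}
    (hw : w ≤ w') (hl : lim ≤ lim') {i u : ℕ} (hi : i < 2 ^ w)
    (hfi : L.fin i = false) (hlb : L.lb i = 1) (htr : ∀ j < i, TrueR X N L j) (hu : L.pv i < u)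
    (hu' : u ≤ L.tm i) (huN : u ≤ N)
    (hav : ∀ k ≤ i, L.lb k = 1 → ∀ t, L.pv k ≤ t → t < L.tm k → t < u → 0 < sc t →
      Avail L k (sc t)) :
    TrR X sc N (cutL L i u (X u)) w' lim' ∧ ∀ k, (cutL L i u (X u)).tm k ≤ N + k + 1 ∧
      ((cutL L i u (X u)).lb k ≤ 1 ∨ (cutL L i u (X u)).lb k = L.lb k) ∧
      (cutL L i u (X u)).off k ≤ lim := by
  have hpw : 2 ^ w ≤ 2 ^ w' := Nat.pow_le_pow_right (by norm_num) hw
  have hnf : ∀ j ≤ i, L.fin j = false := fun j hj => h.nfin hj hi hfi
  obtain ⟨hrun1, hrun2, hrun3⟩ := h.run i hi hfi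
  rw [if_pos hlb] at hrun2
  have hoff : L.off i + 1 + (u - L.pv i) < lim := by omega
  refine ⟨⟨⟨?_, ?_, ?_, ?_⟩, ?_, ?_⟩, ?_⟩
  · rw [cutL_off (Nat.zero_le _)]
    exact h.off0
  · intro k hk
    rcases Nat.lt_trichotomy k i with h1 | h1 | h1
    · rw [cutL_pv k h1.le, cutL_tm_lt h1]
      exact h.srt k (by omega)
    · subst h1
      rw [cutL_pv k le_rfl, cutL_tm]
      exact hu
    · obtain ⟨k', rfl⟩ : ∃ k', k = k' + 1 := ⟨k - 1, by omega⟩
      rw [cutL_tm_gt h1]
      show (cutL L i u (X u)).tm k' < _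
      rcases Nat.lt_or_ge i k' with h2 | h2
      · rw [cutL_tm_gt h2]
        omega
      · have : k' = i := by omega
        subst this
        rw [cutL_tm]
        omega
  · intro k hk hfk
    have h1 : i < k := by
      by_contra hcon
      rw [cutL_fin (by omega)] at hfk
      cases hfk
    refine ⟨?_, fun _ => cutL_fin_gt (by omega)⟩
    rw [cutL_lb_gt h1]
    omega
  · intro k hk hfk
    have h1 : k ≤ i := by
      by_contra hcon
      rw [cutL_fin_gt (by omega)] at hfk
      cases hfk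
    rcases Nat.lt_or_ge k i with h2 | h2
    · obtain ⟨g1, g2, g3⟩ := h.run k (by omega) (hnf k h1)
      refine ⟨by omega, ?_, ?_⟩
      · rw [cutL_off (by omega), cutL_off h1, cutL_lb_lt h2, cutL_tm_lt h2, cutL_pv k h1]
        exact g2
      · rw [cutL_off (by omega)]
        exact lt_of_lt_of_le g3 hl
    · have : k = i := by omega
      subst this
      refine ⟨by omega, ?_, ?_⟩
      · rw [cutL_off_gt (by omega), cutL_off le_rfl, cutL_lb, cutL_tm, cutL_pv k le_rfl,
          if_pos rfl]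
      · rw [cutL_off_gt (by omega)]
        exact lt_of_lt_of_le hoff hl
  · intro k hk hfk
    have h1 : k ≤ i := by
      by_contra hcon
      rw [cutL_fin_gt (by omega)] at hfk
      cases hfk
    unfold TrueR
    rcases Nat.lt_or_ge k i with h2 | h2
    · rw [cutL_tm_lt h2, cutL_st_lt h2]
      exact htr k h2
    · have : k = i := by omega
      subst this
      rw [cutL_tm, cutL_st]
      exact ⟨huN, rfl⟩
  · intro k hk hfk hlk t ht ht' h3
    have h1 : k ≤ i := by
      by_contra hcon
      rw [cutL_fin_gt (by omega)] at hfk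
      cases hfk
    rw [cutL_pv k h1] at ht
    have hlk' : L.lb k = 1 := by
      rcases Nat.lt_or_ge k i with h2 | h2
      · rwa [cutL_lb_lt h2] at hlk
      · rwa [show k = i by omega]
    have ht2 : t < L.tm k ∧ t < u := by
      rcases Nat.lt_or_ge k i with h2 | h2
      · rw [cutL_tm_lt h2] at ht'
        have := h.tm_le_pv h2 hi
        exact ⟨ht', by omega⟩
      · have : k = i := by omega
        subst this
        rw [cutL_tm] at ht'
        exact ⟨by omega, ht'⟩
    obtain ⟨j, hj, g1, g2, g3⟩ := hav k h1 hlk' t ht ht2.1 ht2.2 h3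
    have hst := hsc t
    refine ⟨j, hj, ?_, ?_, ?_⟩
    · rw [cutL_pv j (by omega)]
      exact g1
    · rcases Nat.lt_or_ge j i with h2 | h2
      · rw [cutL_tm_lt h2]
        exact g2
      · have : j = i := by omega
        subst this
        rw [cutL_tm]
        omega
    · rcases Nat.lt_or_ge j i with h2 | h2
      · rw [cutL_tm_lt h2, cutL_lb_lt h2]
        exact g3
      · have : j = i := by omega
        subst this
        rw [cutL_lb]
        exact Or.inr rfl
  · intro k
    rcases Nat.lt_trichotomy k i with h1 | h1 | h1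
    · rw [cutL_tm_lt h1, cutL_lb_lt h1, cutL_off h1.le]
      refine ⟨?_, Or.inr rfl, h.off_le hlim k (by omega) fun j hj => hnf j (by omega)⟩
      have := (htr k h1).1
      omega
    · subst h1
      rw [cutL_tm, cutL_lb, cutL_off le_rfl]
      exact ⟨by omega, Or.inl le_rfl, h.off_le hlim k hi fun j hj => hnf j (by omega)⟩
    · rw [cutL_tm_gt h1, cutL_lb_gt h1, cutL_off_gt h1]
      exact ⟨by omega, Or.inl (Nat.zero_le _), hoff.le⟩

/-- **bad lists have certificates** -/
theorem Bad1.exists_df {fl : A → Bool} (hfl : ∀ m ≤ N, (fl (X m) = true ↔ m = N))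
    (hsc : ∀ u, sc u ≤ u) (hlim : 1 ≤ lim) (h : Bad1 X sc N L w lim) :
    ∃ (R : Lst A) (i : ℕ), Df1 (X 0) fl w L R i ∧ TrR X sc N R (w + 1) (lim + 1) ∧
      ∀ k, R.tm k ≤ N + k + 1 ∧ (R.lb k ≤ 1 ∨ R.lb k = L.lb k) ∧ R.off k ≤ lim := by
  obtain ⟨hs, i, hi, hfi, hli, htr, hclo, hbad⟩ := h
  have hpv : L.pv i ≤ N := by
    cases i with
    | zero => exact Nat.zero_le _
    | succ i => exact (htr i (by omega)).1
  have hsrt := hs.srt i hi
  rcases Nat.eq_or_lt_of_le hpv with heq | hlt
  · -- the computation has ended before the segment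
    refine ⟨emptyL (X 0), i, ⟨hi, hfi, hli, Or.inl ?_⟩, emptyL_trueR _, fun k => ?_⟩
    · rw [ps_trueR htr]
      exact (hfl _ hpv).2 heq
    · exact ⟨by show k + 1 ≤ N + k + 1; omega, Or.inl (Nat.zero_le _), hlim⟩
  · obtain ⟨u, hu⟩ : ∃ u, u = min (L.tm i) N := ⟨_, rfl⟩
    have hu1 : u ≤ L.tm i := by omega
    have hu2 : u ≤ N := by omega
    obtain ⟨g1, g2⟩ := cutL_trueR hsc hs hlim (Nat.le_succ w) (Nat.le_succ lim) hi hfi hli htr
      (show L.pv i < u by omega) hu1 hu2 (by
        intro k hk hlk t ht ht' htu h3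
        exact hclo k (by omega) (hs.nfin hk hi hfi) hlk t ht ht' (by rw [← hu]; exact htu) h3)
    refine ⟨cutL L i u (X u), i, ⟨hi, hfi, hli, Or.inr ⟨?_, ?_, ?_, ?_, ?_, ?_⟩⟩, g1, g2⟩
    · intro k hk
      refine ⟨cutL_tm_lt hk, cutL_st_lt hk, cutL_lb_lt hk, ?_⟩
      rw [cutL_fin hk.le]
      exact (hs.nfin hk.le hi hfi).symm
    · exact cutL_fin le_rfl
    · exact cutL_lb
    · rw [cutL_tm]; exact hu1
    · intro h1
      rw [cutL_tm] at h1
      rw [cutL_st]
      intro h2
      exact hbad ⟨by omega, by rw [← h2, h1]⟩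
    · intro h1
      rw [cutL_tm] at h1
      rw [cutL_st]
      exact (hfl u hu2).2 (by omega)

/-- **certificates against true lists are bad** -/
theorem TrR.bad_of_df1 {fl : A → Bool} (hsc : ∀ u, sc u ≤ u)
    (hfl : ∀ m ≤ N, (fl (X m) = true ↔ m = N)) (h : TrR X sc N L w lim) {R : Lst A} {i : ℕ}
    (hd : Df1 (X 0) fl w L R i) {lim₁ : ℕ} (hs : LStat R (w + 1) lim₁) :
    Bad1 X sc N R (w + 1) lim₁ := by
  obtain ⟨hi, hfi, hli, hd⟩ := hd
  have hpw : 2 ^ (w + 1) = 2 * 2 ^ w := by rw [pow_succ]; ring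
  have hnf : ∀ k < i, L.fin k = false := fun k hk => h.stat.nfin hk.le hi hfi
  have htr : ∀ k < i, TrueR X N L k := fun k hk => h.tru k (by omega) (hnf k hk)
  have hsrt0 := h.stat.srt i hi
  have htm0 := (h.tru i hi hfi).1
  rcases hd with hd | ⟨hag, hf', hl', htm, hst, hcf⟩
  · rw [ps_trueR htr] at hd
    have := (hfl _ (by omega)).1 hd
    omega
  · have hpv : ∀ k ≤ i, R.pv k = L.pv k := by
      intro k hk
      cases k with
      | zero => rfl
      | succ k => exact (hag k (by omega)).1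
    refine ⟨hs, i, by omega, hf', hl', fun k hk => ?_, ?_, ?_⟩
    · obtain ⟨g1, g2, -, -⟩ := hag k hk
      unfold TrueR
      rw [g1, g2]
      exact htr k hk
    · intro k hk hfk hlk u h1 h2 h3 h4
      have hki : k ≤ i := by
        by_contra hcon
        have := hs.tm_le_pv (show i < k by omega) hk
        omega
      have hlk' : L.lb k = 1 := by
        rcases Nat.lt_or_ge k i with h5 | h5
        · rw [← (hag k h5).2.2.1]
          exact hlk
        · rwa [show k = i by omega]
      have htk : u < L.tm k := by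
        rcases Nat.lt_or_ge k i with h5 | h5
        · rw [← (hag k h5).1]
          exact h2
        · have : k = i := by omega
          subst this
          omega
      have hsu := hsc u
      obtain ⟨j, hj, g1, g2, g3⟩ := h.clo k (by omega) (h.stat.nfin hki hi hfi) hlk' u
        (by rw [← hpv k hki]; exact h1) htk h4
      refine ⟨j, hj, by rw [hpv j (by omega)]; exact g1, ?_, ?_⟩
      · rcases Nat.lt_or_ge j i with h5 | h5
        · rw [(hag j h5).1]
          exact g2
        · have : j = k := by omega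
          subst this
          omega
      · rcases Nat.lt_or_ge j i with h5 | h5
        · rw [(hag j h5).1, (hag j h5).2.2.1]
          exact g3
        · have : j = i := by omega
          subst this
          exact Or.inr hl'
    · rintro ⟨h1, h2⟩
      rcases Nat.eq_or_lt_of_le htm with h3 | h3
      · apply hst h3
        rw [h2, h3]
        exact (h.tru i hi hfi).2.symm
      · have h4 := hcf h3
        rw [h2] at h4
        have := (hfl _ h1).1 h4
        omega

/-- **the list about the last state** -/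
theorem exists_topR {fl acc : A → Bool} (hfl : ∀ m ≤ N, (fl (X m) = true ↔ m = N))
    (hsc : ∀ u, sc u ≤ u) (hacc : acc (X N) = true) (hN : 0 < N) (hw : 1 ≤ w)
    (hlim : N + 2 < lim) :
    ∃ L : Lst A, TrR X sc N L w lim ∧ TopL fl acc L ∧
      ∀ k, L.tm k ≤ N + k ∧ L.lb k ≤ 1 ∧ L.off k ≤ lim := by
  have h2w : 2 ≤ 2 ^ w := by
    calc 2 = 2 ^ 1 := rfl
      _ ≤ 2 ^ w := Nat.pow_le_pow_right (by norm_num) hw
  obtain ⟨L, hL⟩ : ∃ L : Lst A, L = ⟨fun k => N + k, fun _ => X N,
    fun k => if k = 0 then 1 else 0, fun k => if k = 0 then 1 else N + 2,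
    fun k => decide (0 < k)⟩ := ⟨_, rfl⟩
  have e1 : ∀ k, L.tm k = N + k := fun k => by rw [hL]
  have e2 : ∀ k, L.st k = X N := fun k => by rw [hL]
  have e3 : L.lb 0 = 1 := by rw [hL]; rfl
  have e4 : ∀ k, 0 < k → L.lb k = 0 := fun k hk => by
    rw [hL]
    show (if k = 0 then 1 else 0) = 0
    rw [if_neg (by omega)]
  have e5 : L.off 0 = 1 := by rw [hL]; rfl
  have e6 : ∀ k, 0 < k → L.off k = N + 2 := fun k hk => by
    rw [hL]
    show (if k = 0 then 1 else N + 2) = N + 2
    rw [if_neg (by omega)]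
  have e7 : L.fin 0 = false := by rw [hL]; rfl
  have e8 : ∀ k, 0 < k → L.fin k = true := fun k hk => by
    rw [hL]
    show decide (0 < k) = true
    rw [decide_eq_true_iff]
    exact hk
  have e9 : L.pv 0 = 0 := rfl
  have hf0 : ∀ k, L.fin k = false → k = 0 := by
    intro k hk
    by_contra hcon
    rw [e8 k (by omega)] at hk
    cases hk
  refine ⟨L, ⟨⟨e5, ?_, ?_, ?_⟩, ?_, ?_⟩, ⟨e7, e3, ?_, ?_⟩, ?_⟩
  · intro k _
    cases k with
    | zero => rw [e9, e1]; omega
    | succ k =>
      show L.tm k < L.tm (k + 1)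
      rw [e1, e1]
      omega
  · intro k _ hk
    have hk0 : 0 < k := by
      rcases Nat.eq_zero_or_pos k with h | h
      · subst h
        rw [e7] at hk
        cases hk
      · exact h
    refine ⟨?_, fun _ => e8 _ (by omega)⟩
    rw [e4 k hk0]
    omega
  · intro k _ hk
    have := hf0 k hk
    subst this
    refine ⟨by omega, ?_, ?_⟩
    · rw [e6 (0 + 1) (by omega), e5, e3, e9, e1, if_pos rfl]
      omega
    · rw [e6 (0 + 1) (by omega)]
      exact hlim
  · intro k _ hk
    have := hf0 k hk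
    subst this
    unfold TrueR
    rw [e1, e2, Nat.add_zero]
    exact ⟨le_rfl, rfl⟩
  · intro k _ hk _ u _ h2 h3
    have := hf0 k hk
    subst this
    rw [e1] at h2
    have hu := hsc u
    exact ⟨0, le_rfl, by rw [e9]; exact h3, by rw [e1]; omega, Or.inr e3⟩
  · rw [e2]
    exact (hfl N le_rfl).2 rfl
  · rw [e2]
    exact hacc
  · intro k
    rcases Nat.eq_zero_or_pos k with h | h
    · subst h
      rw [e1, e3, e5]
      exact ⟨le_rfl, le_rfl, by omega⟩
    · rw [e1, e4 k h, e6 k h]
      exact ⟨le_rfl, by omega, by omega⟩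

/-- if the machine rejects, every list about an accepting last state is bad -/
theorem bad_of_topR {fl acc : A → Bool} (hfl : ∀ m ≤ N, (fl (X m) = true ↔ m = N))
    (hsc : ∀ u, sc u ≤ u) (hacc : acc (X N) = false) (hs : LStat L w lim) (ht : TopL fl acc L) :
    Bad1 X sc N L w lim := by
  obtain ⟨h1, h2, h3, h4⟩ := ht
  refine ⟨hs, 0, by positivity, h1, h2, fun j hj => absurd hj (Nat.not_lt_zero j), ?_, ?_⟩
  · intro k hk hfk hlk u g1 g2 g3 g4
    have hk0 : k = 0 := by
      by_contra hcon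
      have := hs.tm_le_pv (show 0 < k by omega) hk
      omega
    subst hk0
    have hu := hsc u
    exact ⟨0, le_rfl, g4, by omega, Or.inr h2⟩
  · rintro ⟨h5, h6⟩
    rw [h6] at h3 h4
    have h7 := (hfl _ h5).1 h3
    rw [h7, hacc] at h4
    cases h4

end Pool.Agent.NUM
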