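import Pool.Agent.NUM.RList
import Pool.Agent.NUM.GNeg

/-!
# Random access machines: certificates of the second kind (stale pairs)
-/

set_option autoImplicit false

namespace Pool.Agent.NUM

variable {A : Type} {X : ℕ → A} {sc : ℕ → ℕ} {N : ℕ} {L L'' : Lst A} {w lim : ℕ}

namespace RN2

theorem pow_lt_succ {i w : ℕ} (h : i + 1 < 2 ^ w) : i + 1 + 1 < 2 ^ (w + 1) := by
  rw [pow_succ]
  omega

theorem pv_eqTo {R : Lst A} {n : ℕ} (h : EqTo L R n) : ∀ k ≤ n, R.pv k = L.pv k := by
  intro k hk
  cases k with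
  | zero => rfl
  | succ k => exact (h k (by omega)).1

/-- the cut list is true -/
theorem cut_true (h : LStat L w lim) {i u : ℕ} (hi : i < 2 ^ w)
    (hfi : L.fin i = false) (hlb : L.lb i = 1) (htr : ∀ j < i, TrueR X N L j) (hu : L.pv i < u)
    (hu' : u ≤ L.tm i) (huN : u ≤ N) (hsc : ∀ u, sc u ≤ u) (hclo : CloTo sc L w u) :
    TrR X sc N (cutL L i u (X u)) (w + 1) (lim + 1) ∧ ∀ k, (cutL L i u (X u)).tm k ≤ N + k + 1 ∧
      ((cutL L i u (X u)).lb k ≤ 1 ∨ (cutL L i u (X u)).lb k = L.lb k) ∧
      (cutL L i u (X u)).off k ≤ lim + 1 := by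
  have hnf : ∀ j ≤ i, L.fin j = false := fun j hj => h.nfin hj hi hfi
  obtain ⟨hrun1, hrun2, hrun3⟩ := h.run i hi hfi
  rw [if_pos hlb] at hrun2
  have hoff : L.off i + 1 + (u - L.pv i) < lim := by omega
  have hp := pow_lt_succ hrun1
  have hoffle : ∀ k ≤ i, L.off k ≤ lim := fun k hk =>
    h.off_le (by omega) k (by omega) fun j hj => hnf j (by omega)
  refine ⟨⟨⟨?_, ?_, ?_, ?_⟩, ?_, ?_⟩, ?_⟩
  · rw [cutL_off (Nat.zero_le _)]
    exact h.off0
  · intro k _
    rcases Nat.lt_trichotomy k i with h1 | h1 | h1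
    · rw [cutL_pv k h1.le, cutL_tm_lt h1]
      exact h.srt k (by omega)
    · subst h1
      rw [cutL_pv k le_rfl, cutL_tm]
      exact hu
    · obtain ⟨k', rfl⟩ : ∃ k', k = k' + 1 := ⟨k - 1, by omega⟩
      rw [cutL_tm_gt h1]
      show (cutL L i u (X u)).tm k' < _
      rcases Nat.lt_or_ge i k' with h2 | h2
      · rw [cutL_tm_gt h2]
        omega
      · have : k' = i := by omega
        subst this
        rw [cutL_tm]
        omega
  · intro k hk hfk
    have h1 : i < k := by
      by_contra hcon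
      rw [cutL_fin (by omega)] at hfk
      cases hfk
    refine ⟨?_, fun _ => cutL_fin_gt (by omega)⟩
    rw [cutL_lb_gt h1]
    omega
  · intro k hk hfk
    have h1 : k ≤ i := by
      by_contra hcon
      rw [cutL_fin_gt (by omega)] at hfk
      cases hfk
    rcases Nat.lt_or_ge k i with h2 | h2
    · obtain ⟨g1, g2, g3⟩ := h.run k (by omega) (hnf k h1)
      refine ⟨by omega, ?_, ?_⟩
      · rw [cutL_off (by omega), cutL_off h1, cutL_lb_lt h2, cutL_tm_lt h2, cutL_pv k h1]
        exact g2
      · rw [cutL_off (by omega)]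
        omega
    · have : k = i := by omega
      subst this
      refine ⟨by omega, ?_, ?_⟩
      · rw [cutL_off_gt (by omega), cutL_off le_rfl, cutL_lb, cutL_tm, cutL_pv k le_rfl,
          if_pos rfl]
      · rw [cutL_off_gt (by omega)]
        omega
  · intro k hk hfk
    have h1 : k ≤ i := by
      by_contra hcon
      rw [cutL_fin_gt (by omega)] at hfk
      cases hfk
    unfold TrueR
    rcases Nat.lt_or_ge k i with h2 | h2
    · rw [cutL_tm_lt h2, cutL_st_lt h2]
      exact htr k h2
    · have : k = i := by omega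
      subst this
      rw [cutL_tm, cutL_st]
      exact ⟨huN, rfl⟩
  · intro k hk hfk hlk t ht ht' h3
    have h1 : k ≤ i := by
      by_contra hcon
      rw [cutL_fin_gt (by omega)] at hfk
      cases hfk
    rw [cutL_pv k h1] at ht
    have hlk' : L.lb k = 1 := by
      rcases Nat.lt_or_ge k i with h2 | h2
      · rwa [cutL_lb_lt h2] at hlk
      · rwa [show k = i by omega]
    have ht2 : t < L.tm k ∧ t < u := by
      rcases Nat.lt_or_ge k i with h2 | h2
      · rw [cutL_tm_lt h2] at ht'
        have := h.tm_le_pv h2 hi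
        exact ⟨ht', by omega⟩
      · have : k = i := by omega
        subst this
        rw [cutL_tm] at ht'
        exact ⟨by omega, ht'⟩
    obtain ⟨j, hj, g1, g2, g3⟩ := hclo k (by omega) (hnf k h1) hlk' t ht ht2.1 ht2.2 h3
    have hsct := hsc t
    refine ⟨j, hj, ?_, ?_, ?_⟩
    · rw [cutL_pv j (by omega)]
      exact g1
    · rcases Nat.lt_or_ge j i with h2 | h2
      · rw [cutL_tm_lt h2]
        exact g2
      · have : j = i := by omega
        subst this
        rw [cutL_tm]
        omega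
    · rcases Nat.lt_or_ge j i with h2 | h2
      · rw [cutL_tm_lt h2, cutL_lb_lt h2]
        exact g3
      · have : j = i := by omega
        subst this
        rw [cutL_lb]
        exact Or.inr rfl
  · intro k
    rcases Nat.lt_trichotomy k i with h1 | h1 | h1
    · rw [cutL_tm_lt h1, cutL_lb_lt h1, cutL_off h1.le]
      have h4 := hoffle k h1.le
      refine ⟨?_, Or.inr rfl, by omega⟩
      have := (htr k h1).1
      omega
    · subst h1
      rw [cutL_tm, cutL_lb, cutL_off le_rfl]
      have h4 := hoffle k le_rfl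
      exact ⟨by omega, Or.inl le_rfl, by omega⟩
    · rw [cutL_tm_gt h1, cutL_lb_gt h1, cutL_off_gt h1]
      exact ⟨by omega, Or.inl (Nat.zero_le _), by omega⟩

theorem empty_true (a : A) : TrR X sc N (emptyL a) w lim := by
  refine ⟨⟨rfl, ?_, ?_, ?_⟩, ?_, ?_⟩
  · intro k _
    cases k with
    | zero => show 0 < 0 + 1; omega
    | succ k => show k + 1 < k + 1 + 1; omega
  · intro k _ _
    exact ⟨by show (0 : ℕ) ≠ 1; omega, fun _ => rfl⟩
  · intro k _ h
    cases h
  · intro k _ h
    cases h
  · intro k _ h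
    cases h

/-- the list up to the segment `i` with an inserted foreign entry `(t, S)` in the segment `j`, and an
own entry `(t₂, S₂)` -/
def insL (L : Lst A) (i j t : ℕ) (S : A) (t₂ : ℕ) (S₂ : A) : Lst A where
  tm k := if k < j then L.tm k else if k = j then t else if k ≤ i then L.tm (k - 1)
    else t₂ + (k - (i + 1))
  st k := if k < j then L.st k else if k = j then S else if k ≤ i then L.st (k - 1) else S₂
  lb k := if k < j then L.lb k else if k = j then 0 else if k ≤ i then L.lb (k - 1)
    else if k = i + 1 then 1 else 0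
  off k := if k ≤ j then L.off k else if k ≤ i + 1 then L.off (k - 1) + 1
    else L.off i + 1 + 1 + (t₂ - L.pv i)
  fin k := decide (i + 1 < k)

section

variable {i j t t₂ : ℕ} {S S₂ : A}

theorem ins_lt {k : ℕ} (hk : k < j) : (insL L i j t S t₂ S₂).tm k = L.tm k ∧
    (insL L i j t S t₂ S₂).st k = L.st k ∧ (insL L i j t S t₂ S₂).lb k = L.lb k :=
  ⟨if_pos hk, if_pos hk, if_pos hk⟩

theorem ins_pv_le {k : ℕ} (hk : k ≤ j) : (insL L i j t S t₂ S₂).pv k = L.pv k := by
  cases k with
  | zero => rfl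
  | succ k => exact (ins_lt (show k < j by omega)).1

theorem ins_eq : (insL L i j t S t₂ S₂).tm j = t ∧
    (insL L i j t S t₂ S₂).st j = S ∧ (insL L i j t S t₂ S₂).lb j = 0 := by
  refine ⟨?_, ?_, ?_⟩
  · show (if j < j then _ else if j = j then t else _) = t
    rw [if_neg (lt_irrefl j), if_pos rfl]
  · show (if j < j then _ else if j = j then S else _) = S
    rw [if_neg (lt_irrefl j), if_pos rfl]
  · show (if j < j then _ else if j = j then 0 else _) = 0
    rw [if_neg (lt_irrefl j), if_pos rfl]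

theorem ins_mid {k : ℕ} (hk : j ≤ k) (hk' : k < i) : (insL L i j t S t₂ S₂).tm (k + 1) = L.tm k ∧
    (insL L i j t S t₂ S₂).st (k + 1) = L.st k ∧ (insL L i j t S t₂ S₂).lb (k + 1) = L.lb k := by
  refine ⟨?_, ?_, ?_⟩
  · show (if k + 1 < j then _ else if k + 1 = j then _ else if k + 1 ≤ i then L.tm (k + 1 - 1)
      else _) = _
    rw [if_neg (by omega), if_neg (by omega), if_pos (by omega)]
    rfl
  · show (if k + 1 < j then _ else if k + 1 = j then _ else if k + 1 ≤ i then L.st (k + 1 - 1)
      else _) = _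
    rw [if_neg (by omega), if_neg (by omega), if_pos (by omega)]
    rfl
  · show (if k + 1 < j then _ else if k + 1 = j then _ else if k + 1 ≤ i then L.lb (k + 1 - 1)
      else _) = _
    rw [if_neg (by omega), if_neg (by omega), if_pos (by omega)]
    rfl

theorem ins_pv_mid {k : ℕ} (hk : j < k) (hk' : k ≤ i) :
    (insL L i j t S t₂ S₂).pv (k + 1) = L.pv k := by
  obtain ⟨k, rfl⟩ : ∃ k', k = k' + 1 := ⟨k - 1, by omega⟩
  exact (ins_mid (show j ≤ k by omega) (by omega)).1

theorem ins_last (hj : j < i) : (insL L i j t S t₂ S₂).tm (i + 1) = t₂ ∧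
    (insL L i j t S t₂ S₂).st (i + 1) = S₂ ∧ (insL L i j t S t₂ S₂).lb (i + 1) = 1 := by
  refine ⟨?_, ?_, ?_⟩
  · show (if i + 1 < j then _ else if i + 1 = j then _ else if i + 1 ≤ i then _
      else t₂ + (i + 1 - (i + 1))) = _
    rw [if_neg (by omega), if_neg (by omega), if_neg (by omega)]
    omega
  · show (if i + 1 < j then _ else if i + 1 = j then _ else if i + 1 ≤ i then _
      else S₂) = _
    rw [if_neg (by omega), if_neg (by omega), if_neg (by omega)]
  · show (if i + 1 < j then _ else if i + 1 = j then _ else if i + 1 ≤ i then _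
      else if i + 1 = i + 1 then 1 else 0) = _
    rw [if_neg (by omega), if_neg (by omega), if_neg (by omega), if_pos rfl]

theorem ins_gt (hj : j < i) {k : ℕ} (hk : i + 1 < k) :
    (insL L i j t S t₂ S₂).tm k = t₂ + (k - (i + 1)) ∧ (insL L i j t S t₂ S₂).lb k = 0 := by
  refine ⟨?_, ?_⟩
  · show (if k < j then _ else if k = j then _ else if k ≤ i then _
      else t₂ + (k - (i + 1))) = _
    rw [if_neg (by omega), if_neg (by omega), if_neg (by omega)]
  · show (if k < j then _ else if k = j then _ else if k ≤ i then _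
      else if k = i + 1 then 1 else 0) = _
    rw [if_neg (by omega), if_neg (by omega), if_neg (by omega), if_neg (by omega)]

theorem ins_fin {k : ℕ} (hk : k ≤ i + 1) : (insL L i j t S t₂ S₂).fin k = false := by
  show decide (i + 1 < k) = false
  rw [decide_eq_false_iff_not]
  omega

theorem ins_fin_gt {k : ℕ} (hk : i + 1 < k) : (insL L i j t S t₂ S₂).fin k = true := by
  show decide (i + 1 < k) = true
  rw [decide_eq_true_iff]
  exact hk

theorem ins_off {k : ℕ} (hk : k ≤ j) : (insL L i j t S t₂ S₂).off k = L.off k := if_pos hk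

theorem ins_off_mid {k : ℕ} (hk : j ≤ k) (hk' : k ≤ i) :
    (insL L i j t S t₂ S₂).off (k + 1) = L.off k + 1 := by
  show (if k + 1 ≤ j then _ else if k + 1 ≤ i + 1 then L.off (k + 1 - 1) + 1 else _) = _
  rw [if_neg (by omega), if_pos (by omega)]
  rfl

theorem ins_off_gt (hj : j < i) {k : ℕ} (hk : i + 1 < k) :
    (insL L i j t S t₂ S₂).off k = L.off i + 1 + 1 + (t₂ - L.pv i) := by
  show (if k ≤ j then _ else if k ≤ i + 1 then _ else _) = _
  rw [if_neg (by omega), if_neg (by omega)]

end

/-- availability is kept if an entry is inserted: `R` is `L` with an inserted entry at `j` -/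
theorem avail_ins {R : Lst A} {i j : ℕ} (hlj : L.lb j ≠ 1) (he : EqTo L R j)
    (ht : R.tm j < L.tm j)
    (hm : ∀ k, j ≤ k → k < i → R.tm (k + 1) = L.tm k ∧ R.lb (k + 1) = L.lb k) :
    ∀ {k τ : ℕ}, k < i → j < k → Avail L k τ → Avail R (k + 1) τ := by
  intro k τ hk hjk ⟨j', hj', g1, g2, g3⟩
  rcases Nat.lt_trichotomy j' j with h1 | h1 | h1
  · obtain ⟨e1, -, e3, -⟩ := he j' h1
    refine ⟨j', by omega, ?_, ?_, ?_⟩
    · rw [pv_eqTo he j' h1.le]; exact g1
    · rw [e1]; exact g2
    · rw [e1, e3]; exact g3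
  · subst h1
    have g4 : τ = L.tm j' := by
      rcases g3 with g3 | g3
      · exact g3
      · exact absurd g3 hlj
    obtain ⟨e1, e2⟩ := hm j' le_rfl (by omega)
    refine ⟨j' + 1, by omega, ?_, ?_, ?_⟩
    · show R.tm j' < τ
      omega
    · rw [e1]; exact g2
    · rw [e1]; exact Or.inl g4
  · obtain ⟨j'', rfl⟩ : ∃ j'', j' = j'' + 1 := ⟨j' - 1, by omega⟩
    obtain ⟨e1, -⟩ := hm j'' (by omega) (by omega)
    obtain ⟨e3, e4⟩ := hm (j'' + 1) (by omega) (by omega)
    refine ⟨j'' + 1 + 1, by omega, ?_, ?_, ?_⟩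
    · show R.tm (j'' + 1) < τ
      rw [e1]; exact g1
    · rw [e3]; exact g2
    · rw [e3, e4]; exact g3

/-- availability is kept on an initial part -/
theorem avail_eqTo {R : Lst A} {n k τ : ℕ} (he : EqTo L R n) (hk : k < n) (h : Avail L k τ) :
    Avail R k τ := by
  obtain ⟨j', hj', g1, g2, g3⟩ := h
  obtain ⟨e1, -, e3, -⟩ := he j' (by omega)
  refine ⟨j', hj', ?_, ?_, ?_⟩
  · rw [pv_eqTo he j' (by omega)]; exact g1
  · rw [e1]; exact g2
  · rw [e1, e3]; exact g3

end RN2

open RN2

/-- stale pairs have certificates -/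
theorem Stale.exists_df {srx : A → ℕ} (hsrx : ∀ u < N, srx (X (u + 1)) = sc u)
    (hsc : ∀ u, sc u ≤ u) (hlim : 1 ≤ lim) (h : Stale X sc N L L'' w lim) :
    ∃ (R R' : Lst A) (i j i'' : ℕ), Df2 srx w L L'' R R' i j i'' ∧
      TrR X sc N R (w + 1) (lim + 1) ∧ TrR X sc N R' (w + 1) (lim + 1) ∧
      (∀ k, R.tm k ≤ N + k + 1 ∧ (R.lb k ≤ 1 ∨ ∃ k', R.lb k = L.lb k') ∧ R.off k ≤ lim + 1) ∧
      ∀ k, R'.tm k ≤ N + k + 1 ∧ (R'.lb k ≤ 1 ∨ R'.lb k = L''.lb k) ∧ R'.off k ≤ lim + 1 := by
  obtain ⟨hs, hs'', i, hi, u, hfi, hli, hpu, hut, huN, htr, hclo, h0, hna, i'', hi'', hf'', hp'',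
    ht'', htr'', hor, hclo''⟩ := h
  have hscu := hsc u
  -- the foreign segment which contains the source
  obtain ⟨j, hj, g1, g2, g3⟩ := exists_foreign (L := L) (i := i) (τ := sc u)
    (Or.inr ⟨hli, by omega⟩) h0 hna
  have hnf : ∀ k ≤ i, L.fin k = false := fun k hk => hs.nfin hk hi hfi
  -- the second list
  obtain ⟨R', hR', hb', hdf'⟩ : ∃ R' : Lst A, TrR X sc N R' (w + 1) (lim + 1) ∧
      (∀ k, R'.tm k ≤ N + k + 1 ∧ (R'.lb k ≤ 1 ∨ R'.lb k = L''.lb k) ∧ R'.off k ≤ lim + 1) ∧
      ((L''.tm i'' = sc u ∧ L''.st i'' = X (sc u)) ∨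
    (L''.lb i'' = 1 ∧ EqTo L'' R' i'' ∧ R'.fin i'' = false ∧ R'.lb i'' = 1 ∧
      L''.pv i'' < R'.tm i'' ∧ R'.tm i'' ≤ L''.tm i'' ∧ R'.tm i'' = sc u ∧
      R'.st i'' = X (sc u))) := by
    rcases hor with hor | ⟨hor, hor'⟩
    · obtain ⟨c1, c2⟩ := cut_true hs'' hi'' hf'' hor htr'' hp'' ht'' (show sc u ≤ N by omega) hsc
        hclo''
      refine ⟨_, c1, c2, Or.inr ⟨hor, ?_, cutL_fin le_rfl, cutL_lb, ?_, ?_, cutL_tm, cutL_st⟩⟩
      · intro k hk
        refine ⟨cutL_tm_lt hk, cutL_st_lt hk, cutL_lb_lt hk, ?_⟩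
        rw [cutL_fin hk.le, hs''.nfin hk.le hi'' hf'']
      · rw [cutL_tm]; exact hp''
      · rw [cutL_tm]; exact ht''
    · refine ⟨emptyL (X 0), empty_true _, fun k => ⟨?_, Or.inl (Nat.zero_le _), ?_⟩, Or.inl ⟨hor.symm,
        ?_⟩⟩
      · show k + 1 ≤ N + k + 1
        omega
      · show 1 ≤ lim + 1
        omega
      · rw [hor'.2, hor]
  obtain ⟨hrun1, hrun2, hrun3⟩ := hs.run i hi hfi
  rw [if_pos hli] at hrun2
  have hp2 := pow_lt_succ hrun1
  have hoffle : ∀ k ≤ i, L.off k ≤ lim := fun k hk =>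
    hs.off_le hlim k (by omega) fun j hj => hnf j (by omega)
  have hoff : L.off i + 1 + 1 + (u + 1 - L.pv i) < lim + 1 := by omega
  have hpvj : L.tm j ≤ L.pv i := hs.tm_le_pv hj hi
  obtain ⟨R, hR⟩ : ∃ R, R = insL L i j (sc u) (X (sc u)) (u + 1) (X (u + 1)) := ⟨_, rfl⟩
  have r_lt : ∀ {k}, k < j → R.tm k = L.tm k ∧ R.st k = L.st k ∧ R.lb k = L.lb k := by
    intro k hk; rw [hR]; exact ins_lt hk
  have r_eq : R.tm j = sc u ∧ R.st j = X (sc u) ∧ R.lb j = 0 := by rw [hR]; exact ins_eq
  have r_mid : ∀ {k}, j ≤ k → k < i → R.tm (k + 1) = L.tm k ∧ R.st (k + 1) = L.st k ∧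
      R.lb (k + 1) = L.lb k := by
    intro k hk hk'; rw [hR]; exact ins_mid hk hk'
  have r_last : R.tm (i + 1) = u + 1 ∧ R.st (i + 1) = X (u + 1) ∧ R.lb (i + 1) = 1 := by
    rw [hR]; exact ins_last hj
  have r_gt : ∀ {k}, i + 1 < k → R.tm k = u + 1 + (k - (i + 1)) ∧ R.lb k = 0 := by
    intro k hk; rw [hR]; exact ins_gt hj hk
  have r_fin : ∀ {k}, k ≤ i + 1 → R.fin k = false := by
    intro k hk; rw [hR]; exact ins_fin hk
  have r_fin_gt : ∀ {k}, i + 1 < k → R.fin k = true := by
    intro k hk; rw [hR]; exact ins_fin_gt hk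
  have r_pv : ∀ {k}, k ≤ j → R.pv k = L.pv k := by
    intro k hk; rw [hR]; exact ins_pv_le hk
  have r_pv_mid : ∀ {k}, j < k → k ≤ i → R.pv (k + 1) = L.pv k := by
    intro k hk hk'; rw [hR]; exact ins_pv_mid hk hk'
  have r_off : ∀ {k}, k ≤ j → R.off k = L.off k := by
    intro k hk; rw [hR]; exact ins_off hk
  have r_off_mid : ∀ {k}, j ≤ k → k ≤ i → R.off (k + 1) = L.off k + 1 := by
    intro k hk hk'; rw [hR]; exact ins_off_mid hk hk'
  have r_off_gt : ∀ {k}, i + 1 < k → R.off k = L.off i + 1 + 1 + (u + 1 - L.pv i) := by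
    intro k hk; rw [hR]; exact ins_off_gt hj hk
  clear hR
  have hEq : EqTo L R j := by
    intro k hk
    obtain ⟨e1, e2, e3⟩ := r_lt hk
    exact ⟨e1, e2, e3, by rw [r_fin (by omega), hnf k (by omega)]⟩
  have hMid : ∀ k, j ≤ k → k < i → R.tm (k + 1) = L.tm k ∧ R.lb (k + 1) = L.lb k :=
    fun k hk hk' => ⟨(r_mid hk hk').1, (r_mid hk hk').2.2⟩
  have hle : ∀ {k}, R.fin k = false → k ≤ i + 1 := by
    intro k hk
    by_contra hcon
    rw [r_fin_gt (by omega)] at hk
    cases hk
  refine ⟨R, R', i, j, i'', ⟨hi, hj, hi'', hfi, hli, g3, hEq, r_fin (by omega), ?_, ?_, ?_, ?_,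
    r_fin le_rfl, r_last.2.2, ?_, ?_, ?_, hf'', ?_⟩, ⟨⟨?_, ?_, ?_, ?_⟩, ?_, ?_⟩, hR', ?_, hb'⟩
  · rw [r_eq.2.2]; omega
  · rw [r_eq.1]; exact g1
  · rw [r_eq.1]; exact g2
  · intro k hk hk'
    obtain ⟨e1, e2, e3⟩ := r_mid hk hk'
    exact ⟨e1, e2, e3, by rw [r_fin (by omega), hnf k (by omega)]⟩
  · rw [r_last.1]; omega
  · rw [r_last.1]; omega
  · rw [r_last.2.1, r_eq.1]; exact hsrx u huN
  · rw [r_eq.1, r_eq.2.1]; exact hdf'
  · rw [r_off (Nat.zero_le _)]; exact hs.off0
  · -- sorted
    intro k hk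
    rcases Nat.lt_trichotomy k j with h1 | h1 | h1
    · rw [r_pv h1.le, (r_lt h1).1]
      exact hs.srt k (by omega)
    · subst h1
      rw [r_pv le_rfl, r_eq.1]
      exact g1
    · obtain ⟨k, rfl⟩ : ∃ k', k = k' + 1 := ⟨k - 1, by omega⟩
      rcases Nat.lt_trichotomy k i with h2 | h2 | h2
      · rw [(r_mid (by omega) h2).1]
        rcases Nat.eq_or_lt_of_le (show j ≤ k by omega) with h3 | h3
        · subst h3
          show R.tm j < L.tm j
          rw [r_eq.1]
          exact g2
        · rw [r_pv_mid h3 h2.le]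
          exact hs.srt k (by omega)
      · subst h2
        rw [r_pv_mid hj le_rfl, r_last.1]
        omega
      · rw [(r_gt (by omega)).1]
        show R.tm k < _
        rcases Nat.eq_or_lt_of_le (show i + 1 ≤ k by omega) with h3 | h3
        · rw [← h3, r_last.1]
          omega
        · rw [(r_gt h3).1]
          omega
  · -- the terminators
    intro k hk hfk
    have h1 : i + 1 < k := by
      by_contra hcon
      rw [r_fin (by omega)] at hfk
      cases hfk
    refine ⟨?_, fun _ => r_fin_gt (by omega)⟩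
    rw [(r_gt h1).2]
    omega
  · -- offsets
    intro k hk hfk
    have h1 := hle hfk
    rcases Nat.lt_trichotomy k j with h2 | h2 | h2
    · obtain ⟨q1, q2, q3⟩ := hs.run k (by omega) (hnf k (by omega))
      refine ⟨by omega, ?_, ?_⟩
      · rw [r_off (by omega), r_off (by omega), (r_lt h2).2.2, (r_lt h2).1, r_pv (by omega)]
        exact q2
      · rw [r_off (by omega)]
        omega
    · subst h2
      have := hoffle k (by omega)
      obtain ⟨q1, q2, q3⟩ := hs.run k (by omega) (hnf k (by omega))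
      rw [r_off_mid le_rfl hj.le, r_off le_rfl, r_eq.2.2]
      refine ⟨by omega, ?_, ?_⟩
      · rw [if_neg (by omega)]
      · omega
    · obtain ⟨k, rfl⟩ : ∃ k', k = k' + 1 := ⟨k - 1, by omega⟩
      rcases Nat.lt_or_ge k i with h3 | h3
      · obtain ⟨q1, q2, q3⟩ := hs.run k (by omega) (hnf k (by omega))
        refine ⟨by omega, ?_, ?_⟩
        · rw [r_off_mid (by omega) (by omega), r_off_mid (by omega) (by omega), q2,
            (r_mid (by omega) h3).2.2, (r_mid (by omega) h3).1]
          rcases Nat.eq_or_lt_of_le (show j ≤ k by omega) with h4 | h4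
          · subst h4
            rw [if_neg g3, if_neg g3]
          · rw [r_pv_mid h4 h3.le]
            omega
        · rw [r_off_mid (by omega) (by omega)]
          omega
      · have h4 : k = i := by omega
        subst h4
        refine ⟨by omega, ?_, ?_⟩
        · rw [r_off_gt (by omega), r_off_mid (by omega) le_rfl, r_last.2.2, if_pos rfl,
            r_last.1, r_pv_mid hj le_rfl]
        · rw [r_off_gt (by omega)]
          exact hoff
  · -- truth
    intro k hk hfk
    have h1 := hle hfk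
    unfold TrueR
    rcases Nat.lt_trichotomy k j with h2 | h2 | h2
    · rw [(r_lt h2).1, (r_lt h2).2.1]
      exact htr k (by omega)
    · subst h2
      rw [r_eq.1, r_eq.2.1]
      exact ⟨by omega, rfl⟩
    · obtain ⟨k, rfl⟩ : ∃ k', k = k' + 1 := ⟨k - 1, by omega⟩
      rcases Nat.lt_or_ge k i with h3 | h3
      · rw [(r_mid (by omega) h3).1, (r_mid (by omega) h3).2.1]
        exact htr k h3
      · have h4 : k = i := by omega
        subst h4
        rw [r_last.1, r_last.2.1]
        exact ⟨by omega, rfl⟩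
  · -- closure
    intro k hk hfk hlk v hv hv' hv0
    have h1 := hle hfk
    rcases Nat.lt_trichotomy k j with h2 | h2 | h2
    · rw [r_pv h2.le] at hv
      rw [(r_lt h2).1] at hv'
      rw [(r_lt h2).2.2] at hlk
      have h5 := hs.tm_le_pv (show k < i by omega) hi
      exact avail_eqTo hEq h2 (hclo k (by omega) (hnf k (by omega)) hlk v hv hv' (by omega) hv0)
    · subst h2
      rw [r_eq.2.2] at hlk
      omega
    · obtain ⟨k, rfl⟩ : ∃ k', k = k' + 1 := ⟨k - 1, by omega⟩
      rcases Nat.lt_or_ge k i with h3 | h3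
      · rw [(r_mid (by omega) h3).2.2] at hlk
        have h4 : j < k := by
          rcases Nat.eq_or_lt_of_le (show j ≤ k by omega) with h4 | h4
          · subst h4
            exact absurd hlk g3
          · exact h4
        rw [r_pv_mid h4 h3.le] at hv
        rw [(r_mid (by omega) h3).1] at hv'
        have h5 := hs.tm_le_pv h3 hi
        exact avail_ins g3 hEq (by rw [r_eq.1]; exact g2) hMid h3 h4
          (hclo k (by omega) (hnf k (by omega)) hlk v hv hv' (by omega) hv0)
      · have h4 : k = i := by omega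
        subst h4
        rw [r_pv_mid hj le_rfl] at hv
        rw [r_last.1] at hv'
        rcases Nat.lt_or_ge v u with h5 | h5
        · obtain ⟨j', hj', q1, q2, q3⟩ := hclo k hi hfi hli v hv (by omega) h5 hv0
          have hscv := hsc v
          rcases Nat.lt_or_ge j' k with h6 | h6
          · rcases Nat.lt_trichotomy j' j with h7 | h7 | h7
            · obtain ⟨j'', hj'', q1, q2, q3⟩ : Avail R j' (sc v) :=
                avail_eqTo hEq h7 ⟨j', le_rfl, q1, q2, q3⟩
              exact ⟨j'', by omega, q1, q2, q3⟩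
            · subst h7
              have q4 : sc v = L.tm j' := by
                rcases q3 with q3 | q3
                · exact q3
                · exact absurd q3 g3
              refine ⟨j' + 1, by omega, ?_, ?_, ?_⟩
              · show R.tm j' < _
                rw [r_eq.1]; omega
              · rw [(r_mid le_rfl h6).1]; exact q2
              · rw [(r_mid le_rfl h6).1]; exact Or.inl q4
            · obtain ⟨j'', hj'', q1, q2, q3⟩ : Avail R (j' + 1) (sc v) :=
                avail_ins g3 hEq (by rw [r_eq.1]; exact g2) hMid h6 h7 ⟨j', le_rfl, q1, q2, q3⟩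
              exact ⟨j'', by omega, q1, q2, q3⟩
          · have h7 : j' = k := by omega
            subst h7
            refine ⟨j' + 1, le_rfl, ?_, ?_, Or.inr r_last.2.2⟩
            · rw [r_pv_mid hj le_rfl]; exact q1
            · rw [r_last.1]; omega
        · have h6 : v = u := by omega
          subst h6
          refine ⟨j, by omega, ?_, ?_, ?_⟩
          · rw [r_pv le_rfl]; exact g1
          · rw [r_eq.1]
          · rw [r_eq.1]; exact Or.inl rfl
  · -- bounds
    intro k
    rcases Nat.lt_trichotomy k j with h2 | h2 | h2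
    · rw [(r_lt h2).1, (r_lt h2).2.2, r_off h2.le]
      have h3 := (htr k (by omega)).1
      have h4 := hoffle k (by omega)
      exact ⟨by omega, Or.inr ⟨k, rfl⟩, by omega⟩
    · subst h2
      rw [r_eq.1, r_eq.2.2, r_off le_rfl]
      have h4 := hoffle k (by omega)
      exact ⟨by omega, Or.inl (Nat.zero_le _), by omega⟩
    · obtain ⟨k, rfl⟩ : ∃ k', k = k' + 1 := ⟨k - 1, by omega⟩
      rcases Nat.lt_trichotomy k i with h3 | h3 | h3
      · rw [(r_mid (by omega) h3).1, (r_mid (by omega) h3).2.2, r_off_mid (by omega) (by omega)]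
        have h4 := hoffle k (by omega)
        have h5 := (htr k h3).1
        exact ⟨by omega, Or.inr ⟨k, rfl⟩, by omega⟩
      · subst h3
        rw [r_last.1, r_last.2.2, r_off_mid (by omega) le_rfl]
        have h4 := hoffle k le_rfl
        exact ⟨by omega, Or.inl le_rfl, by omega⟩
      · rw [(r_gt (by omega)).1, (r_gt (by omega)).2, r_off_gt (by omega)]
        exact ⟨by omega, Or.inl (Nat.zero_le _), by omega⟩

/-- certificates against true pairs are bad -/
theorem TrR.bad_of_df2 {srx : A → ℕ} (hsrx : ∀ u < N, srx (X (u + 1)) = sc u)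
    (hsc : ∀ u, sc u ≤ u) (h : TrR X sc N L w lim) (h'' : TrR X sc N L'' w lim)
    {R R' : Lst A} {i j i'' : ℕ} (hd : Df2 srx w L L'' R R' i j i'') {lim₁ : ℕ}
    (hs : LStat R (w + 1) lim₁) (hs' : LStat R' (w + 1) lim₁) :
    Bad1 X sc N R (w + 1) lim₁ ∨ Bad1 X sc N R' (w + 1) lim₁ := by
  obtain ⟨hi, hj, hi'', hfi, hli, hlj, hEq, hRfj, hRlj, hRt, hRt', hMid, hRfi, hRli, hRp, hRti,
    hsr, hf'', hor⟩ := hd
  have hnf : ∀ k ≤ i, L.fin k = false := fun k hk => h.stat.nfin hk hi hfi
  have htr : ∀ k ≤ i, TrueR X N L k := fun k hk => h.tru k (by omega) (hnf k hk)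
  have hnf'' : ∀ k ≤ i'', L''.fin k = false := fun k hk => h''.stat.nfin hk hi'' hf''
  have htr'' : ∀ k ≤ i'', TrueR X N L'' k := fun k hk => h''.tru k (by omega) (hnf'' k hk)
  have hrun1 := (h.stat.run i hi hfi).1
  have hp2 := pow_lt_succ hrun1
  have hpvj : L.tm j ≤ L.pv i := h.stat.tm_le_pv hj hi
  have htmi := (htr i le_rfl).1
  have htmj := (htr j hj.le).1
  have hpj : L.pv j < L.tm j := h.stat.srt j (by omega)
  by_cases hS : R.st j = X (R.tm j)
  · -- the inserted entry is true: the own entry is wrong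
    left
    have r_pv : ∀ {k}, k ≤ j → R.pv k = L.pv k := fun {k} hk => pv_eqTo hEq k hk
    have r_pv_mid : ∀ {k}, j < k → k ≤ i → R.pv (k + 1) = L.pv k := by
      intro k hk hk'
      obtain ⟨k, rfl⟩ : ∃ k', k = k' + 1 := ⟨k - 1, by omega⟩
      exact (hMid k (by omega) (by omega)).1
    have hMid' : ∀ k, j ≤ k → k < i → R.tm (k + 1) = L.tm k ∧ R.lb (k + 1) = L.lb k :=
      fun k hk hk' => ⟨(hMid k hk hk').1, (hMid k hk hk').2.2.1⟩
    refine ⟨hs, i + 1, by omega, hRfi, hRli, ?_, ?_, ?_⟩
    · intro k hk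
      unfold TrueR
      rcases Nat.lt_trichotomy k j with h2 | h2 | h2
      · rw [(hEq k h2).1, (hEq k h2).2.1]
        exact htr k (by omega)
      · subst h2
        exact ⟨by omega, hS⟩
      · obtain ⟨k, rfl⟩ : ∃ k', k = k' + 1 := ⟨k - 1, by omega⟩
        rw [(hMid k (by omega) (by omega)).1, (hMid k (by omega) (by omega)).2.1]
        exact htr k (by omega)
    · intro k hk hfk hlk v hv hv' hvm hv0
      rcases Nat.lt_trichotomy k j with h2 | h2 | h2
      · rw [r_pv h2.le] at hv
        rw [(hEq k h2).1] at hv'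
        rw [(hEq k h2).2.2.1] at hlk
        exact avail_eqTo hEq h2 (h.clo k (by omega) (hnf k (by omega)) hlk v hv hv' hv0)
      · subst h2
        exact absurd hlk hRlj
      · obtain ⟨k, rfl⟩ : ∃ k', k = k' + 1 := ⟨k - 1, by omega⟩
        rcases Nat.lt_trichotomy k i with h3 | h3 | h3
        · rw [(hMid k (by omega) h3).2.2.1] at hlk
          have h4 : j < k := by
            rcases Nat.eq_or_lt_of_le (show j ≤ k by omega) with h4 | h4
            · subst h4
              exact absurd hlk hlj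
            · exact h4
          rw [r_pv_mid h4 h3.le] at hv
          rw [(hMid k (by omega) h3).1] at hv'
          exact avail_ins hlj hEq hRt' hMid' h3 h4
            (h.clo k (by omega) (hnf k (by omega)) hlk v hv hv' hv0)
        · subst h3
          rw [r_pv_mid hj le_rfl] at hv
          obtain ⟨j', hj', q1, q2, q3⟩ := h.clo k hi hfi hli v hv (by omega) hv0
          have hscv := hsc v
          rcases Nat.lt_or_ge j' k with h6 | h6
          · rcases Nat.lt_trichotomy j' j with h7 | h7 | h7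
            · obtain ⟨j'', hj'', q1, q2, q3⟩ : Avail R j' (sc v) :=
                avail_eqTo hEq h7 ⟨j', le_rfl, q1, q2, q3⟩
              exact ⟨j'', by omega, q1, q2, q3⟩
            · subst h7
              have q4 : sc v = L.tm j' := by
                rcases q3 with q3 | q3
                · exact q3
                · exact absurd q3 hlj
              refine ⟨j' + 1, by omega, ?_, ?_, ?_⟩
              · show R.tm j' < _
                omega
              · rw [(hMid j' le_rfl h6).1]; exact q2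
              · rw [(hMid j' le_rfl h6).1]; exact Or.inl q4
            · obtain ⟨j'', hj'', q1, q2, q3⟩ : Avail R (j' + 1) (sc v) :=
                avail_ins hlj hEq hRt' hMid' h6 h7 ⟨j', le_rfl, q1, q2, q3⟩
              exact ⟨j'', by omega, q1, q2, q3⟩
          · have h7 : j' = k := by omega
            subst h7
            refine ⟨j' + 1, le_rfl, ?_, ?_, Or.inr hRli⟩
            · rw [r_pv_mid hj le_rfl]; exact q1
            · omega
        · have h4 : R.tm (i + 1) ≤ R.pv (k + 1) := hs.tm_le_pv (by omega) hk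
          omega
    · rintro ⟨h1, h2⟩
      have hv := h.clo i hi hfi hli (R.tm (i + 1) - 1) (by omega) (by omega)
      have h3 := hsrx (R.tm (i + 1) - 1) (by omega)
      rw [show R.tm (i + 1) - 1 + 1 = R.tm (i + 1) by omega, ← h2, hsr] at h3
      rw [← h3] at hv
      obtain ⟨j', hj', q1, q2, q3⟩ := hv (by omega)
      have : j' = j := h.stat.seg_unique (by omega) (by omega) q1 q2 hRt hRt'.le
      subst this
      rcases q3 with q3 | q3
      · omega
      · exact hlj q3
  · -- the inserted entry is wrong: the second list is bad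
    right
    rcases hor with ⟨h1, h2⟩ | ⟨hl'', hEq'', hRf'', hRl'', hRp'', hRt'', he1, he2⟩
    · exfalso
      apply hS
      rw [← h1, ← h2]
      exact (htr'' i'' le_rfl).2
    · have hpw : i'' < 2 ^ (w + 1) := by
        rw [pow_succ]
        omega
      refine ⟨hs', i'', hpw, hRf'', hRl'', ?_, ?_, ?_⟩
      · intro k hk
        unfold TrueR
        rw [(hEq'' k hk).1, (hEq'' k hk).2.1]
        exact htr'' k hk.le
      · intro k hk hfk hlk v hv hv' hvm hv0
        rcases Nat.lt_trichotomy k i'' with h2 | h2 | h2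
        · rw [pv_eqTo hEq'' k h2.le] at hv
          rw [(hEq'' k h2).1] at hv'
          rw [(hEq'' k h2).2.2.1] at hlk
          exact avail_eqTo hEq'' h2 (h''.clo k (by omega) (hnf'' k h2.le) hlk v hv hv' hv0)
        · subst h2
          rw [pv_eqTo hEq'' k le_rfl] at hv
          obtain ⟨j', hj', q1, q2, q3⟩ := h''.clo k hi'' hf'' hl'' v hv (by omega) hv0
          have hscv := hsc v
          rcases Nat.lt_or_ge j' k with h6 | h6
          · obtain ⟨j'', hj'', q1, q2, q3⟩ : Avail R' j' (sc v) :=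
              avail_eqTo hEq'' h6 ⟨j', le_rfl, q1, q2, q3⟩
            exact ⟨j'', by omega, q1, q2, q3⟩
          · have h7 : j' = k := by omega
            subst h7
            refine ⟨j', le_rfl, ?_, by omega, Or.inr hRl''⟩
            rw [pv_eqTo hEq'' j' le_rfl]
            exact q1
        · have h4 := hs'.tm_le_pv h2 hk
          omega
      · rintro ⟨h1, h2⟩
        apply hS
        rw [← he2, ← he1]
        exact h2

end Pool.Agent.NUM
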