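import Pool.Agent.NUM.RList

/-!
# Theorem H(γ) for random access machines: composition

If the parent list is bad, then one of the children is bad or a pair of children is stale.
-/

set_option autoImplicit false

namespace Pool.Agent.NUM

variable {A : Type} {X : ℕ → A} {sc : ℕ → ℕ} {N : ℕ} {w lim : ℕ}

/-- two segments with a common time agree -/
theorem LStat.seg_inj {L : Lst A} {w lim : ℕ} (h : LStat L w lim) {i j τ : ℕ} (hi : i < 2 ^ w)
    (hj : j < 2 ^ w) (h1 : L.pv i < τ) (h2 : τ ≤ L.tm i) (h3 : L.pv j < τ) (h4 : τ ≤ L.tm j) :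
    i = j := by
  rcases Nat.lt_trichotomy i j with h5 | h5 | h5
  · have := h.tm_le_pv h5 hj
    omega
  · exact h5
  · have := h.tm_le_pv h5 hi
    omega

/-- **coverage**: every own time of the parent list is an own time of a child -/
theorem cover_own {q w₁ lim₁ : ℕ} {R : Lst A} {C : ℕ → Lst A}
    {px : ℕ → ℕ → Bool} {pe pk pi : ℕ → ℕ → ℕ} {dk di : ℕ → ℕ}
    (hR : LStat R w₁ lim₁) (hC : ∀ k < 2 ^ q, LStat (C k) w lim)
    (hp : ∀ k < 2 ^ q, ∀ i < 2 ^ w, PtrOK q w₁ w R C k i (px k i) (pe k i) (pk k i) (pi k i))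
    (hd : ∀ e < 2 ^ w₁, DirR q w R C e (dk e) (di e))
    {e x : ℕ} (he : e < 2 ^ w₁) (hf : R.fin e = false) (hl : R.lb e = 1) (hx : R.pv e < x)
    (hx' : x ≤ R.tm e) :
    ∃ k < 2 ^ q, ∃ i < 2 ^ w, (C k).fin i = false ∧ (C k).lb i = 1 ∧ (C k).pv i < x ∧
      x ≤ (C k).tm i := by
  -- descent: an own entry of a child at a time inside of the segment `e`
  have key : ∀ τ, x ≤ τ → τ ≤ R.tm e → (∃ k < 2 ^ q, ∃ i < 2 ^ w, (C k).fin i = false ∧
      (C k).lb i = 1 ∧ (C k).tm i = τ) → ∃ k < 2 ^ q, ∃ i < 2 ^ w, (C k).fin i = false ∧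
      (C k).lb i = 1 ∧ (C k).pv i < x ∧ x ≤ (C k).tm i := by
    intro τ
    induction τ using Nat.strong_induction_on with
    | _ τ ih =>
      rintro h1 h2 ⟨k, hk, i, hi, hfi, hli, hti⟩
      rcases Nat.lt_or_ge ((C k).pv i) x with h3 | h3
      · exact ⟨k, hk, i, hi, hfi, hli, h3, by omega⟩
      · -- the entry before `i`
        have hsrt := (hC k hk).srt i hi
        obtain ⟨i', rfl⟩ : ∃ i', i = i' + 1 := by
          rcases i with _ | i'
          · exfalso
            have : (C k).pv 0 = 0 := rfl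
            omega
          · exact ⟨i', rfl⟩
        have hpv : (C k).pv (i' + 1) = (C k).tm i' := rfl
        rw [hpv] at h3 hsrt
        have hfi' : (C k).fin i' = false := (hC k hk).nfin (by omega) hi hfi
        have hlt : (C k).tm i' < τ := by omega
        by_cases hli' : (C k).lb i' = 1
        · exact ih _ hlt h3 (by omega) ⟨k, hk, i', by omega, hfi', hli', rfl⟩
        · have hp1 := hp k hk i' (by omega) hfi' hli'
          by_cases hpx : px k i' = true
          · -- an entry of the parent inside of the segment `e`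
            rw [if_pos hpx] at hp1
            obtain ⟨g1, g2, g3, g4⟩ := hp1
            exfalso
            rcases Nat.lt_or_ge (pe k i') e with h4 | h4
            · have := hR.tm_le_pv h4 he
              omega
            · have := hR.mono_tm h4 g1
              omega
          · rw [if_neg hpx] at hp1
            obtain ⟨g1, g2, g3, g4, g5, g6⟩ := hp1
            exact ih _ hlt h3 (by omega) ⟨pk k i', g1, pi k i', g2, g3, g4, g5⟩
  obtain ⟨g1, g2, g3, g4, g5, g6⟩ := hd e he hf
  exact key (R.tm e) hx' le_rfl ⟨dk e, g1, di e, g2, g3, g4 hl, g5⟩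

/-- **composition** -/
theorem Bad1.exists_pair (hsc : ∀ u, sc u ≤ u) {q w₁ lim₁ : ℕ} {R : Lst A} {C : ℕ → Lst A}
    {px : ℕ → ℕ → Bool} {pe pk pi : ℕ → ℕ → ℕ} {dk di : ℕ → ℕ}
    (h : Bad1 X sc N R w₁ lim₁) (hC : ∀ k < 2 ^ q, LStat (C k) w lim)
    (hp : ∀ k < 2 ^ q, ∀ i < 2 ^ w, PtrOK q w₁ w R C k i (px k i) (pe k i) (pk k i) (pi k i))
    (hc : ∀ k < 2 ^ q, ∀ i < 2 ^ w, ContR w₁ R C k i (pe k i))
    (hd : ∀ e < 2 ^ w₁, DirR q w R C e (dk e) (di e)) :
    ∃ k < 2 ^ q, ∃ k' < 2 ^ q, Bad1 X sc N (C k) w lim ∨ Stale X sc N (C k) (C k') w lim := by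
  classical
  obtain ⟨hR, e₀, he₀, hf₀, hl₀, htr₀, hclo₀, hbad₀⟩ := h
  -- the minimal time of a false own entry of a child
  let PF : ℕ → Prop := fun t => ∃ k < 2 ^ q, ∃ i < 2 ^ w, (C k).fin i = false ∧ (C k).lb i = 1 ∧
    (C k).tm i = t ∧ ¬ TrueR X N (C k) i
  have hPF : PF (R.tm e₀) := by
    obtain ⟨g1, g2, g3, g4, g5, g6⟩ := hd e₀ he₀ hf₀
    refine ⟨dk e₀, g1, di e₀, g2, g3, g4 hl₀, g5, fun hT => hbad₀ ⟨?_, ?_⟩⟩
    · rw [← g5]
      exact hT.1
    · rw [← g5, ← g6]
      exact hT.2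
  have hex : ∃ t, PF t := ⟨_, hPF⟩
  let tf := Nat.find hex
  have htf : PF tf := Nat.find_spec hex
  have htf_le : tf ≤ R.tm e₀ := Nat.find_min' hex hPF
  have htf_min : ∀ t < tf, ¬ PF t := fun t ht => Nat.find_min hex ht
  -- all entries before `tf` are true
  have htrue : ∀ k < 2 ^ q, ∀ i < 2 ^ w, (C k).fin i = false → (C k).tm i < tf →
      TrueR X N (C k) i := by
    intro k hk i hi hfi hti
    by_cases hli : (C k).lb i = 1
    · by_contra hcon
      exact htf_min _ hti ⟨k, hk, i, hi, hfi, hli, rfl, hcon⟩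
    · have hp1 := hp k hk i hi hfi hli
      by_cases hpx : px k i = true
      · rw [if_pos hpx] at hp1
        obtain ⟨g1, g2, g3, g4⟩ := hp1
        have h4 : pe k i < e₀ := by
          by_contra h5
          have := hR.mono_tm (not_lt.1 h5) g1
          omega
        have h5 := htr₀ _ h4
        exact ⟨by rw [← g3]; exact h5.1, by rw [← g3, ← g4]; exact h5.2⟩
      · rw [if_neg hpx] at hp1
        obtain ⟨g1, g2, g3, g4, g5, g6⟩ := hp1
        have h5 : TrueR X N (C (pk k i)) (pi k i) := by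
          by_contra hcon
          exact htf_min _ hti ⟨pk k i, g1, pi k i, g2, g3, g4, g5, hcon⟩
        exact ⟨by rw [← g5]; exact h5.1, by rw [← g5, ← g6]; exact h5.2⟩
  -- entries before a time `≤ tf`
  have hbefore : ∀ k < 2 ^ q, ∀ i < 2 ^ w, (C k).fin i = false → (C k).pv i < tf →
      ∀ j < i, TrueR X N (C k) j := by
    intro k hk i hi hfi hpv j hj
    have h1 := (hC k hk).tm_le_pv hj hi
    exact htrue k hk j (by omega) ((hC k hk).nfin hj.le hi hfi) (by omega)
  -- is there a read which is not available?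
  let PU : ℕ → Prop := fun u => u < tf ∧ u < N ∧ 0 < sc u ∧ ∃ k < 2 ^ q, ∃ i < 2 ^ w,
    (C k).fin i = false ∧ (C k).lb i = 1 ∧ (C k).pv i ≤ u ∧ u < (C k).tm i ∧
    ¬ Avail (C k) i (sc u)
  by_cases hexu : ∃ u, PU u
  · -- the first one
    let u := Nat.find hexu
    have hu : PU u := Nat.find_spec hexu
    have hu_min : ∀ u' < u, ¬ PU u' := fun u' hu' => Nat.find_min hexu hu'
    obtain ⟨hutf, huN, hus, k, hk, i, hi, hfi, hli, hpi, hti, hna⟩ := hu
    -- the lists are closed up to `u`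
    have hclo : ∀ k < 2 ^ q, ∀ t ≤ u, CloTo sc (C k) w t := by
      intro k hk t ht i hi hfi hli u' h1 h2 h3 h4
      by_contra hcon
      exact hu_min u' (by omega) ⟨by omega, by omega, h4, k, hk, i, hi, hfi, hli, h1, h2, hcon⟩
    obtain ⟨c1, c2, c3, c4, c5⟩ := hc k hk i hi hfi hli
    have hscu := hsc u
    -- the record is available in the parent list
    have hav : Avail R (pe k i) (sc u) :=
      hclo₀ (pe k i) c1 c2 c3 u (by omega) (by omega) (by
        rw [lt_min_iff]
        exact ⟨by omega, huN⟩) hus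
    obtain ⟨e, he, hpe, hte, hor⟩ := hav
    have he2 : e < 2 ^ w₁ := by omega
    have hfe : R.fin e = false := hR.nfin he c1 c2
    -- the second child
    have hgood : ∃ k' < 2 ^ q, Good X sc N (C k') w (sc u) := by
      by_cases hle : R.lb e = 1
      · obtain ⟨k', hk', i', hi', hfi', hli', hpi', hti'⟩ :=
          cover_own hR hC hp hd he2 hfe hle hpe hte
        exact ⟨k', hk', i', hi', hfi', hpi', hti', hbefore k' hk' i' hi' hfi' (by omega),
          Or.inl hli', hclo k' hk' _ hscu⟩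
      · have hteq : sc u = R.tm e := by
          rcases hor with h1 | h1
          · exact h1
          · exact absurd h1 hle
        obtain ⟨g1, g2, g3, g4, g5, g6⟩ := hd e he2 hfe
        have hsrt := (hC _ g1).srt _ g2
        refine ⟨dk e, g1, di e, g2, g3, by omega, by omega,
          hbefore _ g1 _ g2 g3 (by omega), Or.inr ⟨by omega, ?_⟩, hclo _ g1 _ hscu⟩
        exact htrue _ g1 _ g2 g3 (by omega)
    obtain ⟨k', hk', hgood'⟩ := hgood
    refine ⟨k, hk, k', hk', Or.inr ⟨hC k hk, hC k' hk', i, hi, u, hfi, hli, hpi, hti, huN,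
      hbefore k hk i hi hfi (by omega), hclo k hk u le_rfl, hus, hna, hgood'⟩⟩
  · -- none: the child with the false own entry is bad
    obtain ⟨k, hk, i, hi, hfi, hli, hti, hbad⟩ := htf
    have hsrt := (hC k hk).srt i hi
    refine ⟨k, hk, k, hk, Or.inl ⟨hC k hk, i, hi, hfi, hli, hbefore k hk i hi hfi (by omega), ?_,
      hbad⟩⟩
    intro i' hi' hfi' hli' u h1 h2 h3 h4
    rw [lt_min_iff] at h3
    by_contra hcon
    exact hexu ⟨u, by omega, h3.2, h4, k, hk, i', hi', hfi', hli', h1, h2, hcon⟩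

end Pool.Agent.NUM
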