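import Pool.Agent.NUM.HDiv

/-!
# Division lemma, with all old entries

As in `HDiv`; in addition every entry of the divided region is an entry of one of the parts.
-/

set_option autoImplicit false

namespace Pool.Agent.NUM

open Finset

/-- **One split**, which keeps the entries. -/
theorem exists_splitK {N : ℕ} {rc : ℕ → ℕ} {γ : ℝ} {K : ℕ} (h : HSep N rc γ K) (hγ : 0 ≤ γ)
    {r s : ℝ} (hr : 0 < r) (hs : 0 < s) {S E : Finset ℕ} (hSE : S ∪ E ⊆ range (N + 1))
    (hcl : Closed rc S E) {j : ℕ} (hj : ((S ∪ E).card : ℝ) ≤ (3 / 2) ^ j) :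
    ∃ (S₁ E₁ S₂ E₂ : Finset ℕ) (x : ℝ), 0 ≤ x ∧
      x ≤ (j + 1) * K * ((S ∪ E).card : ℝ) ^ γ ∧
      S₁ ∪ S₂ = S ∧ Disjoint S₁ S₂ ∧ E₁ ⊆ S ∪ E ∧ E₂ ⊆ S ∪ E ∧
      (∀ v ∈ E, v ∈ S₁ → v ∈ E₁) ∧ (∀ v ∈ E, v ∈ S₂ → v ∈ E₂) ∧
      (∀ v ∈ E₁, v ∈ S₂ → v ∈ E₂) ∧ (∀ v ∈ E₂, v ∈ S₁ → v ∈ E₁) ∧
      Closed rc S₁ E₁ ∧ Closed rc S₂ E₂ ∧ E ⊆ E₁ ∪ E₂ ∧
      wt r s S₁ E₁ + wt r s S₂ E₂ ≤ wt r s S E + (4 * x / r + 6 * x / s) ∧
      wt r s S₁ E₁ ≤ 2 / 3 * wt r s S E + (3 * x / r + 3 * x / s) ∧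
      wt r s S₂ E₂ ≤ 2 / 3 * wt r s S E + (3 * x / r + 3 * x / s) := by
  classical
  obtain ⟨V, hVdef⟩ : ∃ V, V = S ∪ E := ⟨_, rfl⟩
  rw [← hVdef] at hSE hj
  let w : ℕ → ℝ := fun v => 1 / r + if v ∈ E then 1 / s else 0
  have hw : ∀ v, 0 ≤ w v := by
    intro v
    have : 0 ≤ if v ∈ E then 1 / s else 0 := by split_ifs <;> positivity
    have : 0 ≤ 1 / r := by positivity
    show 0 ≤ 1 / r + _
    linarith
  have hwsum : ∀ Y : Finset ℕ, ∑ v ∈ Y, w v = Y.card / r + (E ∩ Y).card / s := by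
    intro Y
    show ∑ v ∈ Y, (1 / r + if v ∈ E then 1 / s else 0) = _
    rw [sum_add_distrib, sum_const, ← sum_filter, sum_const, nsmul_eq_mul, nsmul_eq_mul]
    have : Y.filter (fun v => v ∈ E) = E ∩ Y := by
      ext v
      simp only [mem_filter, mem_inter]
      tauto
    rw [this]
    ring
  obtain ⟨A, hA, B, hB, h1, h2, h3, h4, h5⟩ := h.exists_weighted hγ hw hSE hj
  obtain ⟨X, hX⟩ : ∃ X, X = V \ (A ∪ B) := ⟨_, rfl⟩
  rw [← hX] at h5
  have hVm : ∀ v, v ∈ V ↔ v ∈ S ∨ v ∈ E := by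
    intro v
    rw [hVdef, mem_union]
  have hcov : ∀ v ∈ V, v ∈ X ∨ v ∈ A ∨ v ∈ B := by
    intro v hv
    rw [hX]
    simp only [mem_sdiff, mem_union]
    tauto
  have hXV : X ⊆ V := by rw [hX]; exact sdiff_subset
  have hXA : ∀ v, v ∈ X → v ∈ A → False := by
    intro v hv hv'
    rw [hX] at hv
    simp only [mem_sdiff, mem_union] at hv
    tauto
  have hXB : ∀ v, v ∈ X → v ∈ B → False := by
    intro v hv hv'
    rw [hX] at hv
    simp only [mem_sdiff, mem_union] at hv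
    tauto
  have hAB : ∀ v, v ∈ A → v ∈ B → False := fun v a b => disjoint_left.1 h1 a b
  obtain ⟨Dp, hDp⟩ : ∃ Dp, Dp = deps rc (S ∩ X) ∩ V := ⟨_, rfl⟩
  have hDpV : Dp ⊆ V := by rw [hDp]; exact inter_subset_right
  have hDpc : Dp.card ≤ 2 * X.card := by
    rw [hDp]
    refine (card_le_card inter_subset_left).trans ((card_deps_le rc _).trans ?_)
    have := card_le_card (inter_subset_right : S ∩ X ⊆ X)
    omega
  obtain ⟨S₁, hS₁⟩ : ∃ S₁, S₁ = S ∩ (A ∪ X) := ⟨_, rfl⟩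
  obtain ⟨S₂, hS₂⟩ : ∃ S₂, S₂ = S ∩ B := ⟨_, rfl⟩
  obtain ⟨E₁, hE₁⟩ : ∃ E₁, E₁ = (E ∩ A) ∪ X ∪ Dp := ⟨_, rfl⟩
  obtain ⟨E₂, hE₂⟩ : ∃ E₂, E₂ = (E ∩ B) ∪ X ∪ (Dp ∩ B) := ⟨_, rfl⟩
  have mS₁ : ∀ v, v ∈ S₁ ↔ v ∈ S ∧ (v ∈ A ∨ v ∈ X) := by
    intro v
    rw [hS₁, mem_inter, mem_union]
  have mS₂ : ∀ v, v ∈ S₂ ↔ v ∈ S ∧ v ∈ B := by
    intro v
    rw [hS₂, mem_inter]
  have mE₁ : ∀ v, v ∈ E₁ ↔ (v ∈ E ∧ v ∈ A) ∨ v ∈ X ∨ v ∈ Dp := by
    intro v
    rw [hE₁, mem_union, mem_union, mem_inter, or_assoc]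
  have mE₂ : ∀ v, v ∈ E₂ ↔ (v ∈ E ∧ v ∈ B) ∨ v ∈ X ∨ (v ∈ Dp ∧ v ∈ B) := by
    intro v
    rw [hE₂, mem_union, mem_union, mem_inter, mem_inter, or_assoc]
  -- sizes
  have c1 : (S₁ ∪ E₁).card ≤ A.card + 3 * X.card := by
    have e1 : S₁ ∪ E₁ ⊆ A ∪ (X ∪ Dp) := by
      intro v hv
      simp only [mem_union, mS₁, mE₁] at hv ⊢
      tauto
    refine (card_le_card e1).trans ((card_union_le _ _).trans ?_)
    have := card_union_le X Dp
    omega
  have c2 : E₁.card ≤ (E ∩ A).card + 3 * X.card := by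
    rw [hE₁]
    refine (card_union_le _ _).trans ?_
    have := card_union_le (E ∩ A) X
    omega
  have c3 : (S₂ ∪ E₂).card ≤ B.card + 1 * X.card := by
    have e1 : S₂ ∪ E₂ ⊆ B ∪ X := by
      intro v hv
      simp only [mem_union, mS₂, mE₂] at hv ⊢
      tauto
    refine (card_le_card e1).trans ((card_union_le _ _).trans ?_)
    omega
  have c4 : E₂.card ≤ (E ∩ B).card + 3 * X.card := by
    rw [hE₂]
    refine (card_union_le _ _).trans ?_
    have e1 := card_union_le (E ∩ B) X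
    have e2 := card_le_card (inter_subset_left : Dp ∩ B ⊆ Dp)
    omega
  have hwV : ∑ v ∈ V, w v = wt r s S E := by
    rw [hwsum]
    unfold wt
    rw [← hVdef]
    have : E ∩ V = E := by
      apply inter_eq_left.2
      rw [hVdef]
      exact subset_union_right
    rw [this]
  have hx0 : (0 : ℝ) ≤ X.card := by positivity
  have w1 : wt r s S₁ E₁ ≤ ∑ v ∈ A, w v + (3 * X.card / r + 3 * X.card / s) := by
    rw [hwsum]
    unfold wt
    have e1 : ((S₁ ∪ E₁).card : ℝ) ≤ A.card + 3 * X.card := by exact_mod_cast c1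
    have e2 : (E₁.card : ℝ) ≤ (E ∩ A).card + 3 * X.card := by exact_mod_cast c2
    have e3 : ((S₁ ∪ E₁).card : ℝ) / r ≤ (A.card + 3 * X.card) / r := by gcongr
    have e4 : (E₁.card : ℝ) / s ≤ ((E ∩ A).card + 3 * X.card) / s := by gcongr
    rw [add_div] at e3 e4
    linarith
  have w2 : wt r s S₂ E₂ ≤ ∑ v ∈ B, w v + (1 * X.card / r + 3 * X.card / s) := by
    rw [hwsum]
    unfold wt
    have e1 : ((S₂ ∪ E₂).card : ℝ) ≤ B.card + 1 * X.card := by exact_mod_cast c3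
    have e2 : (E₂.card : ℝ) ≤ (E ∩ B).card + 3 * X.card := by exact_mod_cast c4
    have e3 : ((S₂ ∪ E₂).card : ℝ) / r ≤ (B.card + 1 * X.card) / r := by gcongr
    have e4 : (E₂.card : ℝ) / s ≤ ((E ∩ B).card + 3 * X.card) / s := by gcongr
    rw [add_div] at e3 e4
    linarith
  have wAB : ∑ v ∈ A, w v + ∑ v ∈ B, w v ≤ ∑ v ∈ V, w v := by
    rw [← sum_union h1]
    exact sum_le_sum_of_subset_of_nonneg (union_subset hA hB) fun v _ _ => hw v
  have hxr : (0 : ℝ) ≤ X.card / r := by positivity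
  have hmr : ∀ a : ℝ, a * X.card / r = a * (X.card / r) := fun a => by ring
  have hms : ∀ a : ℝ, a * X.card / s = a * (X.card / s) := fun a => by ring
  rw [hmr, hms] at w1 w2
  rw [hwV] at h3 h4 wAB
  refine ⟨S₁, E₁, S₂, E₂, X.card, hx0, ?_, ?_, ?_, ?_, ?_, ?_, ?_, ?_, ?_, ?_, ?_, ?_, ?_, ?_, ?_⟩
  · rw [← hVdef]; exact h5
  · ext v
    rw [mem_union, mS₁, mS₂]
    constructor
    · tauto
    · intro hv
      rcases hcov v ((hVm v).2 (Or.inl hv)) with h | h | h <;> tauto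
  · rw [disjoint_left]
    intro v hv hv'
    rw [mS₁] at hv
    rw [mS₂] at hv'
    rcases hv.2 with h | h
    · exact hAB v h hv'.2
    · exact hXB v h hv'.2
  · intro v hv
    rw [← hVdef]
    rcases (mE₁ v).1 hv with h | h | h
    · exact hA h.2
    · exact hXV h
    · exact hDpV h
  · intro v hv
    rw [← hVdef]
    rcases (mE₂ v).1 hv with h | h | h
    · exact hB h.2
    · exact hXV h
    · exact hDpV h.1
  · intro v hv hv'
    rw [mS₁] at hv'
    rw [mE₁]
    tauto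
  · intro v hv hv'
    rw [mS₂] at hv'
    rw [mE₂]
    tauto
  · intro v hv hv'
    rw [mS₂] at hv'
    rw [mE₁] at hv
    rw [mE₂]
    have := hAB v
    tauto
  · intro v hv hv'
    rw [mS₁] at hv'
    rw [mE₂] at hv
    rw [mE₁]
    have := hAB v
    have := hXB v
    tauto
  · -- closed 1
    intro t ht
    rw [mS₁] at ht
    obtain ⟨g1, g2⟩ := hcl t ht.1
    have key : ∀ v, v ∈ S ∪ E → (t + 1 ∈ A → v ∉ B) → (t + 1 ∈ S ∩ X → v ∈ deps rc (S ∩ X)) →
        v ∈ S₁ ∪ E₁ := by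
      intro v hv hvB hvD
      rw [mem_union, mS₁, mE₁, hDp, mem_inter]
      rw [← hVdef] at hv
      have hv' := (hVm v).1 hv
      rcases ht.2 with h | h
      · have := hvB h
        rcases hcov v hv with h' | h' | h' <;> tauto
      · have := hvD (mem_inter.2 ⟨ht.1, h⟩)
        tauto
    refine ⟨key t g1 (fun h => ((h2 t).1 h).1) (fun h => (mem_deps h).1), fun hrc => ?_⟩
    exact key (rc t) (g2 hrc) (fun h => ((h2 t).1 h).2 hrc) (fun h => (mem_deps h).2)
  · -- closed 2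
    intro t ht
    rw [mS₂] at ht
    obtain ⟨g1, g2⟩ := hcl t ht.1
    have key : ∀ v, v ∈ S ∪ E → v ∉ A → v ∈ S₂ ∪ E₂ := by
      intro v hv hvA
      rw [mem_union, mS₂, mE₂]
      rw [← hVdef] at hv
      have hv' := (hVm v).1 hv
      rcases hcov v hv with h' | h' | h' <;> tauto
    refine ⟨key t g1 ((h2 t).2 ht.2).1, fun hrc => ?_⟩
    exact key (rc t) (g2 hrc) (((h2 t).2 ht.2).2 hrc)
  · intro v hv
    rw [mem_union, mE₁, mE₂]
    rcases hcov v ((hVm v).2 (Or.inr hv)) with h | h | h <;> tauto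
  · rw [hmr, hms]
    linarith
  · rw [hmr, hms]
    linarith
  · rw [hmr, hms]
    linarith

/-- **Division lemma**, with all old entries. -/
theorem HSep.exists_divisionK {N : ℕ} {rc : ℕ → ℕ} {γ : ℝ} {K : ℕ} (h : HSep N rc γ K)
    (hγ : 0 ≤ γ) (hγ1 : γ ≤ 1) {r s : ℝ} (hs : 0 < s) (hsr : s ≤ r) {D : ℕ} (hD : 12 ≤ D)
    (hK : 10 * (D : ℝ) ^ 2 * K * r ^ γ ≤ s) (d : ℕ) :
    ∀ S E : Finset ℕ, S ∪ E ⊆ range (N + 1) → Closed rc S E →
      ((S ∪ E).card : ℝ) ≤ (3 / 2) ^ (D - 1) → wt r s S E ≤ (4 / 3) ^ d →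
      ∃ l : List (Finset ℕ × Finset ℕ), Division rc S E l ∧ (∀ v ∈ E, ∃ p ∈ l, v ∈ p.2) ∧
        (∀ p ∈ l, ((p.1 ∪ p.2).card : ℝ) ≤ r ∧ (p.2.card : ℝ) ≤ s) ∧
        (l.length : ℝ) ≤ 1 + d * (1 + 1 / D) ^ d * wt r s S E := by
  have hr : 0 < r := hs.trans_le hsr
  have hD0 : (0 : ℝ) < D := by
    have : (12 : ℝ) ≤ D := by exact_mod_cast hD
    linarith
  have hwt0 : ∀ S E : Finset ℕ, 0 ≤ wt r s S E := by
    intro S E
    unfold wt
    positivity
  have hleaf : ∀ S E : Finset ℕ, Closed rc S E → wt r s S E ≤ 1 → ∀ d : ℕ,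
      ∃ l : List (Finset ℕ × Finset ℕ), Division rc S E l ∧ (∀ v ∈ E, ∃ p ∈ l, v ∈ p.2) ∧
        (∀ p ∈ l, ((p.1 ∪ p.2).card : ℝ) ≤ r ∧ (p.2.card : ℝ) ≤ s) ∧
        (l.length : ℝ) ≤ 1 + d * (1 + 1 / D) ^ d * wt r s S E := by
    intro S E hcl hw d
    refine ⟨[(S, E)], Division.single hcl, fun v hv => ⟨(S, E), by simp, hv⟩, ?_, ?_⟩
    · intro p hp
      simp only [List.mem_singleton] at hp
      subst hp
      have e1 : 0 ≤ ((S ∪ E).card : ℝ) / r := by positivity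
      have e2 : 0 ≤ (E.card : ℝ) / s := by positivity
      unfold wt at hw
      constructor
      · have : ((S ∪ E).card : ℝ) / r ≤ 1 := by linarith
        rwa [div_le_one hr] at this
      · have : (E.card : ℝ) / s ≤ 1 := by linarith
        rwa [div_le_one hs] at this
    · have := hwt0 S E
      have : 0 ≤ (d : ℝ) * (1 + 1 / D) ^ d * wt r s S E := by positivity
      simp only [List.length_singleton, Nat.cast_one]
      linarith
  induction d with
  | zero =>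
    intro S E hSE hcl _ hw
    exact hleaf S E hcl (by simpa using hw) 0
  | succ d ih =>
    intro S E hSE hcl hcard hw
    by_cases h1 : wt r s S E ≤ 1
    · exact hleaf S E hcl h1 (d + 1)
    · rw [not_le] at h1
      obtain ⟨S₁, E₁, S₂, E₂, x, hx0, hx, g1, g2, g3, g4, g5, g6, g7, g8, g9, g10, gK, g11, g12,
        g13⟩ := exists_splitK h hγ hr hs hSE hcl hcard
      -- the separator is small
      have hcr : ((S ∪ E).card : ℝ) ≤ r * wt r s S E := by
        unfold wt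
        have e1 : r * (((S ∪ E).card : ℝ) / r + E.card / s) =
            (S ∪ E).card + r * (E.card / s) := by
          field_simp
        rw [e1]
        have : 0 ≤ r * ((E.card : ℝ) / s) := by positivity
        linarith
      have hpow : ((S ∪ E).card : ℝ) ^ γ ≤ r ^ γ * wt r s S E := by
        calc ((S ∪ E).card : ℝ) ^ γ ≤ (r * wt r s S E) ^ γ :=
              Real.rpow_le_rpow (by positivity) hcr hγ
          _ = r ^ γ * (wt r s S E) ^ γ := Real.mul_rpow hr.le (hwt0 _ _)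
          _ ≤ r ^ γ * (wt r s S E) ^ (1 : ℝ) := by
              apply mul_le_mul_of_nonneg_left _ (by positivity)
              exact Real.rpow_le_rpow_of_exponent_le h1.le hγ1
          _ = _ := by rw [Real.rpow_one]
      have hDj : (((D - 1 : ℕ) : ℝ) + 1) = D := by
        have : D - 1 + 1 = D := by omega
        exact_mod_cast this
      rw [hDj] at hx
      have hxs : 10 * x / s ≤ wt r s S E / D := by
        rw [div_le_div_iff₀ hs hD0]
        calc 10 * x * D ≤ 10 * ((D : ℝ) * K * (r ^ γ * wt r s S E)) * D := by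
              have : x ≤ (D : ℝ) * K * (r ^ γ * wt r s S E) :=
                hx.trans (mul_le_mul_of_nonneg_left hpow (by positivity))
              nlinarith
          _ = wt r s S E * (10 * (D : ℝ) ^ 2 * K * r ^ γ) := by ring
          _ ≤ wt r s S E * s := mul_le_mul_of_nonneg_left hK (hwt0 _ _)
      have hxr : x / r ≤ x / s := by gcongr
      have hxs' : 10 * (x / s) ≤ wt r s S E / D := by
        have : 10 * x / s = 10 * (x / s) := by ring
        rw [← this]; exact hxs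
      have hxs0 : 0 ≤ x / s := by positivity
      have hm : ∀ a y : ℝ, a * x / y = a * (x / y) := fun a y => by ring
      rw [hm, hm] at g11 g12 g13
      have hD12 : wt r s S E / D ≤ wt r s S E / 12 := by
        have : (12 : ℝ) ≤ D := by exact_mod_cast hD
        have := hwt0 S E
        gcongr
      have hSum : wt r s S₁ E₁ + wt r s S₂ E₂ ≤ (1 + 1 / D) * wt r s S E := by
        have : (1 + 1 / (D : ℝ)) * wt r s S E = wt r s S E + wt r s S E / D := by ring
        rw [this]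
        linarith
      have hw' := hw
      rw [pow_succ] at hw'
      have hW1 : wt r s S₁ E₁ ≤ (4 / 3) ^ d := by
        have : wt r s S₁ E₁ ≤ 3 / 4 * wt r s S E := by linarith
        linarith
      have hW2 : wt r s S₂ E₂ ≤ (4 / 3) ^ d := by
        have : wt r s S₂ E₂ ≤ 3 / 4 * wt r s S E := by linarith
        linarith
      have hsub1 : S₁ ∪ E₁ ⊆ S ∪ E := by
        refine union_subset ?_ g3
        rw [← g1]
        exact subset_union_left.trans subset_union_left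
      have hsub2 : S₂ ∪ E₂ ⊆ S ∪ E := by
        refine union_subset ?_ g4
        rw [← g1]
        exact subset_union_right.trans subset_union_left
      obtain ⟨l₁, L1, LK, L2, L3⟩ := ih S₁ E₁ (hsub1.trans hSE) g9
        (le_trans (by exact_mod_cast card_le_card hsub1) hcard) hW1
      obtain ⟨l₂, M1, MK, M2, M3⟩ := ih S₂ E₂ (hsub2.trans hSE) g10
        (le_trans (by exact_mod_cast card_le_card hsub2) hcard) hW2
      refine ⟨l₁ ++ l₂, Division.append g1 g2 g3 g4 g5 g6 g7 g8 L1 M1, fun v hv => ?_, ?_, ?_⟩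
      · rcases mem_union.1 (gK hv) with hv | hv
        · obtain ⟨p, hp, hvp⟩ := LK v hv
          exact ⟨p, List.mem_append_left _ hp, hvp⟩
        · obtain ⟨p, hp, hvp⟩ := MK v hv
          exact ⟨p, List.mem_append_right _ hp, hvp⟩
      · intro p hp
        rcases List.mem_append.1 hp with hp | hp
        · exact L2 p hp
        · exact M2 p hp
      · rw [List.length_append]
        push_cast
        have hq : (0 : ℝ) ≤ 1 + 1 / D := by positivity
        have hq1 : (1 : ℝ) ≤ 1 + 1 / D := by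
          have : (0 : ℝ) ≤ 1 / D := by positivity
          linarith
        have k1 : (d : ℝ) * (1 + 1 / D) ^ d * (wt r s S₁ E₁ + wt r s S₂ E₂) ≤
            d * (1 + 1 / D) ^ (d + 1) * wt r s S E := by
          calc (d : ℝ) * (1 + 1 / D) ^ d * (wt r s S₁ E₁ + wt r s S₂ E₂) ≤
              d * (1 + 1 / D) ^ d * ((1 + 1 / D) * wt r s S E) :=
                mul_le_mul_of_nonneg_left hSum (by positivity)
            _ = _ := by rw [pow_succ]; ring
        have k2 : wt r s S E ≤ (1 + 1 / (D : ℝ)) ^ (d + 1) * wt r s S E := by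
          have := one_le_pow₀ hq1 (n := d + 1)
          have := hwt0 S E
          nlinarith
        calc (l₁.length : ℝ) + l₂.length ≤
            1 + 1 + (d : ℝ) * (1 + 1 / D) ^ d * (wt r s S₁ E₁ + wt r s S₂ E₂) := by linarith
          _ ≤ 1 + wt r s S E + d * (1 + 1 / D) ^ (d + 1) * wt r s S E := by linarith
          _ ≤ 1 + ((d : ℝ) + 1) * (1 + 1 / D) ^ (d + 1) * wt r s S E := by
              have : ((d : ℝ) + 1) * (1 + 1 / D) ^ (d + 1) * wt r s S E =
                d * (1 + 1 / D) ^ (d + 1) * wt r s S E +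
                  (1 + 1 / (D : ℝ)) ^ (d + 1) * wt r s S E := by ring
              rw [this]
              linarith

/-- **Division lemma**, with all old entries and a bound for the depth. -/
theorem HSep.exists_divisionK' {N : ℕ} {rc : ℕ → ℕ} {γ : ℝ} {K : ℕ} (h : HSep N rc γ K)
    (hγ : 0 ≤ γ) (hγ1 : γ ≤ 1) {r s : ℝ} (hs : 1 ≤ s) (hsr : s ≤ r) {D : ℕ} (hD : 12 ≤ D)
    (hK : 10 * (D : ℝ) ^ 2 * K * r ^ γ ≤ s) {S E : Finset ℕ} (hSE : S ∪ E ⊆ range (N + 1))
    (hcl : Closed rc S E) (hN : 2 * ((N : ℝ) + 1) ≤ (4 / 3) ^ (D - 1)) :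
    ∃ l : List (Finset ℕ × Finset ℕ), Division rc S E l ∧ (∀ v ∈ E, ∃ p ∈ l, v ∈ p.2) ∧
      (∀ p ∈ l, ((p.1 ∪ p.2).card : ℝ) ≤ r ∧ (p.2.card : ℝ) ≤ s) ∧
      (l.length : ℝ) ≤ 1 + 3 * D * (((S ∪ E).card : ℝ) / r + E.card / s) := by
  have hs0 : 0 < s := by linarith
  have hr0 : 0 < r := by linarith
  have hD0 : (0 : ℝ) < D := by
    have : (12 : ℝ) ≤ D := by exact_mod_cast hD
    linarith
  have hc : (S ∪ E).card ≤ N + 1 := by
    have := card_le_card hSE
    rwa [card_range] at this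
  have hc' : ((S ∪ E).card : ℝ) ≤ N + 1 := by exact_mod_cast hc
  have hE' : (E.card : ℝ) ≤ N + 1 := by
    have : E.card ≤ (S ∪ E).card := card_le_card subset_union_right
    exact_mod_cast this.trans hc
  have hN0 : (0 : ℝ) ≤ N := by positivity
  obtain ⟨l, h1, hk, h2, h3⟩ := h.exists_divisionK hγ hγ1 hs0 hsr hD hK D S E hSE hcl (by
      refine hc'.trans ((by linarith : (N : ℝ) + 1 ≤ 2 * (N + 1)).trans (hN.trans ?_))
      exact pow_le_pow_left₀ (by norm_num) (by norm_num) _) (by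
      unfold wt
      have e1 : ((S ∪ E).card : ℝ) / r ≤ N + 1 := by
        rw [div_le_iff₀ hr0]
        nlinarith
      have e2 : (E.card : ℝ) / s ≤ N + 1 := by
        rw [div_le_iff₀ hs0]
        nlinarith
      have e3 : ((4 : ℝ) / 3) ^ (D - 1) ≤ (4 / 3) ^ D :=
        pow_le_pow_right₀ (by norm_num) (by omega)
      linarith)
  refine ⟨l, h1, hk, h2, h3.trans ?_⟩
  have e0 : 0 ≤ ((S ∪ E).card : ℝ) / r + E.card / s := by positivity
  have e1 : (1 + 1 / (D : ℝ)) ^ D ≤ 3 := by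
    have e2 : (1 + 1 / (D : ℝ)) ^ D ≤ Real.exp 1 := by
      calc (1 + 1 / (D : ℝ)) ^ D ≤ (Real.exp (1 / D)) ^ D := by
            apply pow_le_pow_left₀ (by positivity)
            have := Real.add_one_le_exp (1 / (D : ℝ))
            linarith
        _ = Real.exp 1 := by
            rw [← Real.exp_nat_mul]
            congr 1
            field_simp
    have := Real.exp_one_lt_d9
    linarith
  unfold wt
  have e3 : (D : ℝ) * (1 + 1 / D) ^ D ≤ 3 * D := by nlinarith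
  have e4 := mul_le_mul_of_nonneg_right e3 e0
  linarith

end Pool.Agent.NUM
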