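import Pool.Agent.NUM.NGSplitT
import Pool.Agent.NUM.RDiv
import Pool.Agent.NUM.RList

/-!
# Honest lists from a division, for random access machines
-/

set_option autoImplicit false

namespace Pool.Agent.NUM

open Finset

variable {A : Type}

/-- **Honest children**, with all entries of the parent. -/
theorem exists_childrenK {H : HM A} {N : ℕ} {R : Lst A} {g : ℝ} {K r s D q w w₁ lim lim₁ : ℕ}
    (hS : HSep N (fun n => H.idx (H.U n)) g K) (hg : 0 ≤ g) (hg1 : g ≤ 1)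
    (h : TrL H N R w₁ lim₁) (hs : 1 ≤ s) (hsr : s ≤ r) (hD : 12 ≤ D)
    (hK : 10 * (D : ℝ) ^ 2 * K * (r : ℝ) ^ g ≤ s)
    (hN : 2 * ((N : ℝ) + 1) ≤ (4 / 3) ^ (D - 1)) (hw : s + 2 ≤ 2 ^ w)
    (hlim : r + s + 3 ≤ lim)
    (hq : 1 + 3 * (D : ℝ) * (((lim₁ : ℝ) + 1) / r + 2 ^ w₁ / s) ≤ 2 ^ q) :
    ∃ (C : ℕ → Lst A) (px : ℕ → ℕ → Bool) (pe pk pi : ℕ → ℕ → ℕ) (dk di : ℕ → ℕ)
      (ce : ℕ → ℕ → ℕ),
      (∀ k, TrL H N (C k) w lim) ∧
      (∀ k, ∀ i < 2 ^ w, PtrOK q w₁ w R C k i (px k i) (pe k i) (pk k i) (pi k i)) ∧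
      (∀ e < 2 ^ w₁, DirR q w R C e (dk e) (di e)) ∧
      (∀ k, ∀ i < 2 ^ w, ContR w₁ R C k i (ce k i)) ∧
      (∀ k, ∀ i < 2 ^ w, (C k).tm i ≤ N + 2 ^ w + 1) ∧ (∀ k i, (C k).lb i ≤ 1) ∧
      (∀ k i, (C k).off i ≤ lim) ∧ (∀ k i, pe k i < 2 ^ w₁ ∧ pk k i < 2 ^ q ∧ pi k i < 2 ^ w) ∧
      (∀ e, dk e < 2 ^ q ∧ di e < 2 ^ w) ∧ (∀ k i, ce k i < 2 ^ w₁) := by
  classical
  obtain ⟨S, E, hSr, hEr, hcl, hgap, hc1, hc2, memS, memE⟩ := exists_region h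
  obtain ⟨l₀, hdiv₀, hkeep₀, hsz₀, hlen₀⟩ := hS.exists_divisionK' hg hg1 (s := (s : ℝ)) (r := (r : ℝ))
    (by exact_mod_cast hs) (by exact_mod_cast hsr) hD hK (S := S) (E := E)
    (union_subset hSr hEr) hcl hN
  obtain ⟨l, hl⟩ : ∃ l, l = l₀.dedup := ⟨_, rfl⟩
  have hdiv : Division (fun n => H.idx (H.U n)) S E l := by
    rw [hl]
    exact hdiv₀.dedup
  have hsz : ∀ p ∈ l, ((p.1 ∪ p.2).card : ℝ) ≤ r ∧ (p.2.card : ℝ) ≤ s := by
    intro p hp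
    rw [hl] at hp
    exact hsz₀ p (List.mem_dedup.1 hp)
  have hkeep : ∀ v ∈ E, ∃ p ∈ l, v ∈ p.2 := by
    intro v hv
    obtain ⟨p, hp, hvp⟩ := hkeep₀ v hv
    exact ⟨p, by rw [hl]; exact List.mem_dedup.2 hp, hvp⟩
  have hlen : (l.length : ℝ) ≤ l₀.length := by
    rw [hl]
    exact_mod_cast (List.dedup_sublist l₀).length_le
  have hs0 : (0 : ℝ) < s := by exact_mod_cast hs
  have hr0 : (0 : ℝ) < r := by exact_mod_cast (lt_of_lt_of_le (by omega : 0 < s) hsr)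
  have hlq : l.length ≤ 2 ^ q := by
    have h1 : ((S ∪ E).card : ℝ) / r + E.card / s ≤ ((lim₁ : ℝ) + 1) / r + 2 ^ w₁ / s := by
      have e1 : ((S ∪ E).card : ℝ) ≤ (lim₁ : ℝ) + 1 := by exact_mod_cast hc1
      have e2 : (E.card : ℝ) ≤ 2 ^ w₁ := by exact_mod_cast hc2
      gcongr
    have h2 : (l.length : ℝ) ≤ 2 ^ q := by
      refine hlen.trans (hlen₀.trans (le_trans ?_ hq))
      have : (0 : ℝ) ≤ 3 * D := by positivity
      have := mul_le_mul_of_nonneg_left h1 this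
      linarith
    exact_mod_cast h2
  -- the list of every leaf
  have hleaf : ∀ k, ∃ C : Lst A, TrL H N C w lim ∧ (∀ i < 2 ^ w, C.tm i ≤ N + 2 ^ w + 1) ∧
      (∀ i, C.lb i ≤ 1) ∧ (∀ i, C.off i ≤ lim) ∧
      (∀ i < 2 ^ w, C.fin i = false → ∃ hk : k < l.length, C.tm i ∈ (l[k]).2 ∧ 0 < C.tm i ∧
        C.st i = H.U (C.tm i) ∧ (C.lb i = 1 ↔ C.tm i ∈ (l[k]).1)) ∧
      (∀ hk : k < l.length, ∀ x ∈ (l[k]).2, 0 < x → ∃ i < 2 ^ w, C.fin i = false ∧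
        C.tm i = x) := by
    intro k
    by_cases hk : k < l.length
    · obtain ⟨p, hp⟩ : ∃ p, p = l[k] := ⟨_, rfl⟩
      have hpl : p ∈ l := by rw [hp]; exact List.getElem_mem hk
      have h1 := hsz p hpl
      have e1 : (p.1 ∪ p.2).card ≤ r := by exact_mod_cast h1.1
      have e2 : p.2.card ≤ s := by exact_mod_cast h1.2
      have e3 : p.1.card ≤ r := (card_le_card subset_union_left).trans e1
      obtain ⟨C, g1, g2, g3, g4, g5, g6⟩ := exists_honest H (w := w) (lim := lim)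
        ((hdiv.sub p hpl).trans hSr) ((hdiv.ent p hpl).trans (union_subset hSr hEr))
        (hdiv.cl p hpl) (hdiv.gap hgap p hpl) (by omega) (by omega)
      refine ⟨C, g1, g2, g3, g4, fun i hi hf => ⟨hk, ?_⟩, fun _ => ?_⟩
      · rw [← hp]
        exact g5 i hi hf
      · rw [← hp]
        exact g6
    · refine ⟨nilL H.a0, trL_nil _ _ _ _ _, fun i hi => ?_, fun i => ?_, fun i => ?_,
        fun i _ hf => ?_, fun h => absurd h hk⟩
      · show i + 1 ≤ _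
        omega
      · show 0 ≤ 1
        omega
      · show 1 ≤ lim
        omega
      · cases hf
  choose C c1 c2 c3 c4 c5 c6 using hleaf
  have c1' : ∀ k, LStat (C k) w lim := fun k => (c1 k).stat
  have hw0 : 0 < 2 ^ w := Nat.two_pow_pos _
  have hw1 : 0 < 2 ^ w₁ := Nat.two_pow_pos _
  have hq0 : 0 < 2 ^ q := Nat.two_pow_pos _
  -- own segments are contained in the leaf
  have hsub : ∀ k, ∀ i < 2 ^ w, (C k).fin i = false → (C k).lb i = 1 →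
      ∃ hk : k < l.length, ∀ t, (C k).pv i < t → t ≤ (C k).tm i → t ∈ (l[k]).1 := by
    intro k i hi hf hlb
    obtain ⟨hk, -, -, -, -⟩ := c5 k i hi hf
    refine ⟨hk, ?_⟩
    refine own_sub (c1' k) (hdiv.cl _ (List.getElem_mem hk)) (fun j hj hfj hlj => ?_)
      (c6 k hk) i hi hf hlb
    obtain ⟨_, -, -, -, h6⟩ := c5 k j hj hfj
    exact h6.1 hlj
  -- a state of `S` which is an entry of a leaf is an own entry of its leaf
  have hown : ∀ x ∈ S, 0 < x → (∃ p ∈ l, x ∈ p.2) ∨ x ∈ E → ∃ k < 2 ^ q, ∃ i < 2 ^ w,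
      (C k).fin i = false ∧ (C k).lb i = 1 ∧ (C k).tm i = x ∧ (C k).st i = H.U x := by
    intro x hx hx0 hxe
    obtain ⟨p, hp, hxp⟩ := hdiv.cov x hx
    have hxp2 : x ∈ p.2 := by
      rcases hxe with ⟨p', hp', hxp'⟩ | hxE
      · exact hdiv.exp p' hp' p hp x hxp' hxp
      · exact hdiv.old p hp x hxE hxp
    obtain ⟨k, hk, rfl⟩ := List.getElem_of_mem hp
    obtain ⟨i, hi, h1, h2⟩ := c6 k hk x hxp2 hx0
    obtain ⟨hk', h3, h4, h5, h6⟩ := c5 k i hi h1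
    refine ⟨k, by omega, i, hi, h1, ?_, h2, ?_⟩
    · rw [h6, h2]
      exact hxp
    · rw [h5, h2]
  have hptr : ∀ k i, ∃ (x : Bool) (e k' i' : ℕ), (i < 2 ^ w → PtrOK q w₁ w R C k i x e k' i') ∧
      e < 2 ^ w₁ ∧ k' < 2 ^ q ∧ i' < 2 ^ w := by
    intro k i
    by_cases hki : i < 2 ^ w ∧ (C k).fin i = false ∧ (C k).lb i ≠ 1
    · obtain ⟨hi, hf, hl⟩ := hki
      obtain ⟨hk', h3, h4, h5, h6⟩ := c5 k i hi hf
      have hmem : (l[k]) ∈ l := List.getElem_mem hk'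
      rcases mem_union.1 (hdiv.ent _ hmem h3) with h7 | h7
      · obtain ⟨k', hk'q, i', hi', g1, g2, g3, g4⟩ := hown _ h7 h4 (Or.inl ⟨_, hmem, h3⟩)
        refine ⟨false, 0, k', i', fun _ _ _ => ?_, hw1, hk'q, hi'⟩
        rw [if_neg (by decide)]
        exact ⟨hk'q, hi', g1, g2, g3, by rw [g4, h5]⟩
      · rcases (memE _).1 h7 with h8 | ⟨e, he, hfe, hte⟩
        · omega
        · refine ⟨true, e, 0, 0, fun _ _ _ => ?_, he, hq0, hw0⟩
          rw [if_pos rfl]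
          exact ⟨he, hfe, hte, by rw [(h.tru e he hfe).2, h5, hte]⟩
    · exact ⟨true, 0, 0, 0, fun hi h1 h2 => absurd ⟨hi, h1, h2⟩ hki, hw1, hq0, hw0⟩
  have hdir : ∀ e, ∃ (k i : ℕ), (e < 2 ^ w₁ → DirR q w R C e k i) ∧ k < 2 ^ q ∧ i < 2 ^ w := by
    intro e
    by_cases he : e < 2 ^ w₁ ∧ R.fin e = false
    · obtain ⟨he, hf⟩ := he
      have hlt := h.stat.srt e he
      have hxE : R.tm e ∈ E := (memE _).2 (Or.inr ⟨e, he, hf, rfl⟩)
      by_cases hle : R.lb e = 1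
      · have hx : R.tm e ∈ S := (memS _).2 ⟨e, he, hf, hle, hlt, le_rfl⟩
        obtain ⟨k, hk, i, hi, g1, g2, g3, g4⟩ := hown _ hx (by omega) (Or.inr hxE)
        refine ⟨k, i, fun _ _ => ⟨hk, hi, g1, fun _ => g2, g3, ?_⟩, hk, hi⟩
        rw [g4, (h.tru e he hf).2]
      · obtain ⟨p, hp, hxp⟩ := hkeep _ hxE
        obtain ⟨k, hk, rfl⟩ := List.getElem_of_mem hp
        obtain ⟨i, hi, h1, h2⟩ := c6 k hk _ hxp (by omega)
        obtain ⟨hk', h3, h4, h5, h6⟩ := c5 k i hi h1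
        refine ⟨k, i, fun _ _ => ⟨by omega, hi, h1, fun h7 => absurd h7 hle, h2, ?_⟩, by omega, hi⟩
        rw [h5, h2, (h.tru e he hf).2]
    · exact ⟨0, 0, fun h0 h1 => absurd ⟨h0, h1⟩ he, hq0, hw0⟩
  -- containment
  have hcont : ∀ k i, ∃ e, (i < 2 ^ w → ContR w₁ R C k i e) ∧ e < 2 ^ w₁ := by
    intro k i
    by_cases hki : i < 2 ^ w ∧ (C k).fin i = false ∧ (C k).lb i = 1
    · obtain ⟨hi, hf, hlb⟩ := hki
      obtain ⟨hk, hin⟩ := hsub k i hi hf hlb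
      have hlt : (C k).pv i < (C k).tm i := (c1' k).srt i hi
      have hSt : (C k).tm i ∈ S := hdiv.sub _ (List.getElem_mem hk) (hin _ hlt le_rfl)
      obtain ⟨e, he, hfe, hle, h1, h2⟩ := (memS _).1 hSt
      refine ⟨e, fun _ _ _ => ⟨he, hfe, hle, ?_, h2⟩, he⟩
      -- the start of the parent segment is not inside the child segment
      by_contra hcon
      push Not at hcon
      obtain ⟨x, hx⟩ : ∃ x, x = R.pv e := ⟨_, rfl⟩
      rw [← hx] at hcon h1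
      have hxE : x ∈ E := by
        rw [memE]
        cases e with
        | zero => exact Or.inl hx
        | succ e =>
          exact Or.inr ⟨e, by omega, h.stat.nfin (Nat.le_succ e) he hfe, hx.symm⟩
      have hxl : x ∈ (l[k]).1 := hin x hcon h1.le
      have hxl2 : x ∈ (l[k]).2 := hdiv.old _ (List.getElem_mem hk) x hxE hxl
      obtain ⟨j, hj, hfj, hjx⟩ := c6 k hk x hxl2 (by omega)
      rcases Nat.lt_trichotomy i j with h' | h' | h'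
      · have := (c1' k).tm_lt h' hj
        omega
      · subst h'
        omega
      · have := (c1' k).tm_le_pv h' hi
        omega
    · exact ⟨0, fun hi h1 h2 => absurd ⟨hi, h1, h2⟩ hki, hw1⟩
  choose px pe pk pi hp1 hp2 hp3 hp4 using hptr
  choose dk di hd1 hd2 hd3 using hdir
  choose ce hc1 hc2 using hcont
  exact ⟨C, px, pe, pk, pi, dk, di, ce, c1, fun k i hi => hp1 k i hi, fun e he => hd1 e he,
    fun k i hi => hc1 k i hi, c2, c3, c4,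
    fun k i => ⟨hp2 k i, hp3 k i, hp4 k i⟩, fun e => ⟨hd2 e, hd3 e⟩, hc2⟩

/-- the sequences `X`, `sc` as a machine with a clock in the state -/
def seqM (X : ℕ → A) (sc : ℕ → ℕ) : HM (A × ℕ) where
  step a _ := (X (a.2 + 1), a.2 + 1)
  idx a := sc a.2
  a0 := (X 0, 0)
  e0 := (X 0, 0)
  hlt _ := false
  acc _ := false

theorem seqM_U (X : ℕ → A) (sc : ℕ → ℕ) (n : ℕ) : (seqM X sc).U n = (X n, n) := by
  induction n with
  | zero => rfl
  | succ n ih =>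
    rw [HM.U_succ, ih]
    rfl

theorem TrR.lft {X : ℕ → A} {sc : ℕ → ℕ} {N w lim : ℕ} {L : Lst A} (h : TrR X sc N L w lim) :
    TrL (seqM X sc) N L.lft w lim := by
  refine ⟨h.stat.lft, fun i hi hf => ?_, fun i hi hf hl u hu hu' h1 h2 => ?_⟩
  · obtain ⟨h1, h2⟩ := h.tru i hi hf
    refine ⟨h1, ?_⟩
    rw [seqM_U]
    show (L.st i, L.tm i) = (X (L.tm i), L.tm i)
    rw [h2]
  · rw [Lst.lft_pv] at hu
    rw [seqM_U] at h1 h2 ⊢
    obtain ⟨j, hj, g1, g2, g3⟩ := h.clo i hi hf hl u hu hu' h1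
    exact ⟨j, hj, by rw [Lst.lft_pv]; exact g1, g2, g3⟩

theorem TrL.drpR {X : ℕ → A} {sc : ℕ → ℕ} (hsc : ∀ u, sc u ≤ u) {N w lim : ℕ}
    {L : Lst (A × ℕ)} (h : TrL (seqM X sc) N L w lim) : TrR X sc N L.drp w lim := by
  refine ⟨h.stat.drp, fun i hi hf => ?_, fun i hi hf hl u hu hu' h1 => ?_⟩
  · obtain ⟨h1, h2⟩ := h.tru i hi hf
    refine ⟨h1, ?_⟩
    show (L.st i).1 = X (L.tm i)
    rw [h2, seqM_U]
  · rw [Lst.drp_pv] at hu
    have h3 := h.clo i hi hf hl u hu hu'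
    rw [seqM_U] at h3
    obtain ⟨j, hj, g1, g2, g3⟩ := h3 h1 (hsc u)
    exact ⟨j, hj, by rw [Lst.drp_pv]; exact g1, g2, g3⟩

/-- **Honest children**, for random access machines. -/
theorem exists_childrenR {X : ℕ → A} {sc : ℕ → ℕ} {N : ℕ} {R : Lst A} {g : ℝ}
    {K r s D q w w₁ lim lim₁ : ℕ}
    (hsc : ∀ u, sc u ≤ u) (hS : HSep N sc g K) (hg : 0 ≤ g) (hg1 : g ≤ 1)
    (h : TrR X sc N R w₁ lim₁) (hs : 1 ≤ s) (hsr : s ≤ r) (hD : 12 ≤ D)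
    (hK : 10 * (D : ℝ) ^ 2 * K * (r : ℝ) ^ g ≤ s)
    (hN : 2 * ((N : ℝ) + 1) ≤ (4 / 3) ^ (D - 1)) (hw : s + 2 ≤ 2 ^ w)
    (hlim : r + s + 3 ≤ lim)
    (hq : 1 + 3 * (D : ℝ) * (((lim₁ : ℝ) + 1) / r + 2 ^ w₁ / s) ≤ 2 ^ q) :
    ∃ (C : ℕ → Lst A) (px : ℕ → ℕ → Bool) (pe pk pi : ℕ → ℕ → ℕ) (dk di : ℕ → ℕ),
      (∀ k, TrR X sc N (C k) w lim) ∧
      (∀ k, ∀ i < 2 ^ w, PtrOK q w₁ w R C k i (px k i) (pe k i) (pk k i) (pi k i)) ∧
      (∀ k, ∀ i < 2 ^ w, ContR w₁ R C k i (pe k i)) ∧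
      (∀ e < 2 ^ w₁, DirR q w R C e (dk e) (di e)) ∧
      (∀ k, ∀ i < 2 ^ w, (C k).tm i ≤ N + 2 ^ w + 1) ∧ (∀ k i, (C k).lb i ≤ 1) ∧
      (∀ k i, (C k).off i ≤ lim) ∧ (∀ k i, pe k i < 2 ^ w₁ ∧ pk k i < 2 ^ q ∧ pi k i < 2 ^ w) ∧
      (∀ e, dk e < 2 ^ q ∧ di e < 2 ^ w) := by
  classical
  have hS' : HSep N (fun n => (seqM X sc).idx ((seqM X sc).U n)) g K := by
    have : (fun n => (seqM X sc).idx ((seqM X sc).U n)) = sc := by
      funext n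
      rw [seqM_U]
      rfl
    rw [this]
    exact hS
  obtain ⟨C, px, pe, pk, pi, dk, di, ce, c1, c2, c3, c4, c6, c7, c8, c9, c10, c11⟩ :=
    exists_childrenK hS' hg hg1 h.lft hs hsr hD hK hN hw hlim hq
  refine ⟨fun k => (C k).drp, px, fun k i => if (C k).lb i = 1 then ce k i else pe k i, pk, pi,
    dk, di, fun k => (c1 k).drpR hsc, ?_, ?_, ?_, c6, c7, c8, ?_, c10⟩
  · intro k i hi hf hl
    have hl' : (C k).lb i ≠ 1 := hl
    have h1 := c2 k i hi hf hl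
    simp only [if_neg hl']
    by_cases hx : px k i = true
    · rw [if_pos hx] at h1 ⊢
      obtain ⟨g1, g2, g3, g4⟩ := h1
      exact ⟨g1, g2, g3, congrArg Prod.fst g4⟩
    · rw [if_neg hx] at h1 ⊢
      obtain ⟨g1, g2, g3, g4, g5, g6⟩ := h1
      exact ⟨g1, g2, g3, g4, g5, congrArg Prod.fst g6⟩
  · intro k i hi hf hl
    have hl' : (C k).lb i = 1 := hl
    obtain ⟨g1, g2, g3, g4, g5⟩ := c4 k i hi hf hl
    simp only [if_pos hl']
    refine ⟨g1, g2, g3, ?_, g5⟩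
    rw [Lst.drp_pv]
    rw [Lst.lft_pv] at g4
    exact g4
  · intro e he hf
    obtain ⟨g1, g2, g3, g4, g5, g6⟩ := c3 e he hf
    exact ⟨g1, g2, g3, g4, g5, congrArg Prod.fst g6⟩
  · intro k i
    obtain ⟨g1, g2, g3⟩ := c9 k i
    refine ⟨?_, g2, g3⟩
    show (if (C k).lb i = 1 then ce k i else pe k i) < 2 ^ w₁
    split_ifs
    · exact c11 k i
    · exact g1

end Pool.Agent.NUM
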