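import Pool.Agent.NUM.RRead
import Pool.Agent.NUM.GStr

/-!
# Theorem H(γ) for random access machines: strings for the refuter; invariance
-/

set_option autoImplicit false

namespace Pool.Agent.NUM

/-- **a string for the refuter** -/
theorem exists_uv {p : GPar} (hp : p.Ok) (j : Bool) {k k' i e : ℕ} (hk : k < 2 ^ p.q)
    (hk' : k' < 2 ^ p.q) (hi : i < 2 ^ p.w) (he : e < 2 ^ p.w₁) (u : Inp) :
    ∃ v : Inp, uj p v = j ∧ uk p v = k ∧ uk' p v = k' ∧ ui p v = i ∧ ue p v = e ∧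
      ∀ a, v (true :: a) = u a := by
  have hqσ := hp.qσ
  have hw₁σ := hp.w₁σ
  have hwσ := hp.wσ
  have hσ0 : 0 < 2 ^ p.σ := by positivity
  obtain ⟨s, hs⟩ : ∃ s : Inp, s = famS 3 fun f => famS p.σ fun r _ =>
    if f = 0 then j else if f = 1 then k.testBit r else if f = 2 then k'.testBit r else
      if f = 3 then i.testBit r else e.testBit r := ⟨_, rfl⟩
  have eS : ∀ f < 2 ^ 3, ∀ r < 2 ^ p.σ, s (bits 3 f ++ bits p.σ r) =
      if f = 0 then j else if f = 1 then k.testBit r else if f = 2 then k'.testBit r else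
      if f = 3 then i.testBit r else e.testBit r := by
    intro f hf r hr
    rw [hs, famS_apply hf, famS_apply' hr]
  refine ⟨pair s u, ?_, ?_, ?_, ?_, ?_, fun a => rfl⟩
  · show s (bits 3 0 ++ bits p.σ 0) = _
    rw [eS 0 (by norm_num) 0 hσ0, if_pos rfl]
  · refine num_eq_of_testBit hk fun r hr => ?_
    show s (bits 3 1 ++ bits p.σ r) = _
    rw [eS 1 (by norm_num) r (by omega), if_neg (by norm_num), if_pos rfl]
  · refine num_eq_of_testBit hk' fun r hr => ?_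
    show s (bits 3 2 ++ bits p.σ r) = _
    rw [eS 2 (by norm_num) r (by omega), if_neg (by norm_num), if_neg (by norm_num), if_pos rfl]
  · refine num_eq_of_testBit hi fun r hr => ?_
    show s (bits 3 3 ++ bits p.σ r) = _
    rw [eS 3 (by norm_num) r (by omega), if_neg (by norm_num), if_neg (by norm_num),
      if_neg (by norm_num), if_pos rfl]
  · refine num_eq_of_testBit he fun r hr => ?_
    show s (bits 3 4 ++ bits p.σ r) = _
    rw [eS 4 (by norm_num) r (by omega), if_neg (by norm_num), if_neg (by norm_num),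
      if_neg (by norm_num), if_neg (by norm_num)]

/-- a string for the refuter (the name of the stub) -/
theorem exists_uv' {p : GPar} (hp : p.Ok) (j : Bool) {k k' i e : ℕ} (hk : k < 2 ^ p.q)
    (hk' : k' < 2 ^ p.q) (hi : i < 2 ^ p.w) (he : e < 2 ^ p.w₁) (u : Inp) :
    ∃ v : Inp, uj p v = j ∧ uk p v = k ∧ uk' p v = k' ∧ ui p v = i ∧ ue p v = e ∧
      ∀ a, v (true :: a) = u a := exists_uv hp j hk hk' hi he u

theorem uk_lt (p : GPar) (v : Inp) : uk p v < 2 ^ p.q := num_lt _ _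

theorem uk'_lt (p : GPar) (v : Inp) : uk' p v < 2 ^ p.q := num_lt _ _

theorem ui_lt (p : GPar) (v : Inp) : ui p v < 2 ^ p.w := num_lt _ _

theorem ue_lt (p : GPar) (v : Inp) : ue p v < 2 ^ p.w₁ := num_lt _ _

section

variable {A : Type} {X : ℕ → A} {sc : ℕ → ℕ} {N w : ℕ} {L L' : Lst A}

theorem LEq.trueR (h : LEq w L' L) {i : ℕ} (hi : i < 2 ^ w) :
    TrueR X N L' i ↔ TrueR X N L i := by
  unfold TrueR
  rw [(h i hi).1, (h i hi).2.1]

theorem LEq.cloTo {t : ℕ} (h : LEq w L' L) (hc : CloTo sc L w t) : CloTo sc L' w t := by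
  intro i hi hf hl u h1 h2 h3 h4
  rw [(h i hi).2.2.2.2] at hf
  rw [(h i hi).2.2.1] at hl
  rw [h.pv hi.le] at h1
  rw [(h i hi).1] at h2
  exact h.avail hi (hc i hi hf hl u h1 h2 h3 h4)

theorem LEq.trR {lim : ℕ} (h : LEq w L' L) (ht : TrR X sc N L w lim) : TrR X sc N L' w lim := by
  refine ⟨h.stat ht.stat, fun i hi hf => ?_, fun i hi hf hl u h1 h2 h3 => ?_⟩
  · rw [(h i hi).2.2.2.2] at hf
    exact (h.trueR hi).2 (ht.tru i hi hf)
  · rw [(h i hi).2.2.2.2] at hf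
    rw [(h i hi).2.2.1] at hl
    rw [h.pv hi.le] at h1
    rw [(h i hi).1] at h2
    exact h.avail hi (ht.clo i hi hf hl u h1 h2 h3)

theorem LEq.bad1 {lim : ℕ} (h : LEq w L' L) (ht : Bad1 X sc N L w lim) :
    Bad1 X sc N L' w lim := by
  obtain ⟨hs, i, hi, hf, hl, htr, hc, hb⟩ := ht
  refine ⟨h.stat hs, i, hi, ?_, ?_, fun j hj => ?_, ?_, ?_⟩
  · rw [(h i hi).2.2.2.2]
    exact hf
  · rw [(h i hi).2.2.1]
    exact hl
  · exact (h.trueR (by omega)).2 (htr j hj)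
  · rw [(h i hi).1]
    exact h.cloTo hc
  · rw [h.trueR hi]
    exact hb

theorem LEq.good {τ : ℕ} (h : LEq w L' L) (ht : Good X sc N L w τ) : Good X sc N L' w τ := by
  obtain ⟨i, hi, hf, h1, h2, htr, hor, hc⟩ := ht
  refine ⟨i, hi, ?_, ?_, ?_, fun j hj => (h.trueR (by omega)).2 (htr j hj), ?_, h.cloTo hc⟩
  · rw [(h i hi).2.2.2.2]
    exact hf
  · rw [h.pv hi.le]
    exact h1
  · rw [(h i hi).1]
    exact h2
  · rcases hor with hor | ⟨hor, hor'⟩
    · left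
      rw [(h i hi).2.2.1]
      exact hor
    · right
      rw [(h i hi).1]
      exact ⟨hor, (h.trueR hi).2 hor'⟩

theorem LEq.stale {M M' : Lst A} {lim : ℕ} (h : LEq w L' L) (h' : LEq w M' M)
    (ht : Stale X sc N L M w lim) : Stale X sc N L' M' w lim := by
  obtain ⟨hs, hs', i, hi, u, hf, hl, h1, h2, h3, htr, hc, h4, h5, h6⟩ := ht
  refine ⟨h.stat hs, h'.stat hs', i, hi, u, ?_, ?_, ?_, ?_, h3,
    fun j hj => (h.trueR (by omega)).2 (htr j hj), h.cloTo hc, h4, fun h7 => ?_, h'.good h6⟩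
  · rw [(h i hi).2.2.2.2]
    exact hf
  · rw [(h i hi).2.2.1]
    exact hl
  · rw [h.pv hi.le]
    exact h1
  · rw [(h i hi).1]
    exact h2
  · exact h5 (h.symm.avail hi h7)

theorem LEq.eqTo {M : Lst A} {n : ℕ} (h : LEq w L' L) (hn : n ≤ 2 ^ w) (he : EqTo M L n) :
    EqTo M L' n := by
  intro k hk
  obtain ⟨e1, e2, e3, -, e5⟩ := h k (by omega)
  obtain ⟨f1, f2, f3, f4⟩ := he k hk
  exact ⟨e1.trans f1, e2.trans f2, e3.trans f3, e5.trans f4⟩

/-- the parent list (with `2 ^ (w + 1)` entries) may be changed -/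
theorem LEq.df1 {a0 : A} {fl : A → Bool} {M R R' : Lst A} (h : LEq (w + 1) R' R) {i : ℕ}
    (hd : Df1 a0 fl w M R i) : Df1 a0 fl w M R' i := by
  obtain ⟨hi, h1, h2, h3⟩ := hd
  have hi' : i < 2 ^ (w + 1) := by rw [pow_succ]; omega
  obtain ⟨e1, e2, e3, -, e5⟩ := h i hi'
  refine ⟨hi, h1, h2, ?_⟩
  rcases h3 with h3 | ⟨h3, h4, h5, h6, h7, h8⟩
  · exact Or.inl h3
  · right
    refine ⟨h.eqTo hi'.le h3, e5.trans h4, e3.trans h5, ?_, ?_, ?_⟩
    · rw [e1]; exact h6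
    · rw [e1, e2]; exact h7
    · rw [e1, e2]; exact h8

theorem LEq.df2 {srx : A → ℕ} {M M' R R' Q Q' : Lst A} (h : LEq (w + 1) R' R)
    (h' : LEq (w + 1) Q' Q) {i j i'' : ℕ} (hd : Df2 srx w M M' R Q i j i'') :
    Df2 srx w M M' R' Q' i j i'' := by
  obtain ⟨h1, h2, h3, h4, h5, h6, h7, h8, h9, h10, h11, h12, h13, h14, h15, h16, h17, h18, h19⟩ := hd
  have hp : 2 ^ (w + 1) = 2 ^ w * 2 := pow_succ 2 w
  obtain ⟨e1, e2, e3, -, e5⟩ := h j (by omega)
  obtain ⟨f1, f2, f3, -, f5⟩ := h (i + 1) (by omega)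
  obtain ⟨g1, g2, g3, -, g5⟩ := h' i'' (by omega)
  refine ⟨h1, h2, h3, h4, h5, h6, h.eqTo (by omega) h7, e5.trans h8, ?_, ?_, ?_, ?_, f5.trans h13,
    f3.trans h14, ?_, ?_, ?_, h18, ?_⟩
  · rw [e3]; exact h9
  · rw [e1]; exact h10
  · rw [e1]; exact h11
  · intro k hk hk'
    obtain ⟨k1, k2, k3, -, k5⟩ := h (k + 1) (by omega)
    obtain ⟨l1, l2, l3, l4⟩ := h12 k hk hk'
    exact ⟨k1.trans l1, k2.trans l2, k3.trans l3, k5.trans l4⟩
  · rw [f1]; exact h15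
  · rw [f1]; exact h16
  · rw [f2, e1]; exact h17
  · rcases h19 with ⟨h19, h20⟩ | ⟨h19, h20, h21, h22, h23, h24, h25, h26⟩
    · left
      rw [e1, e2]
      exact ⟨h19, h20⟩
    · right
      refine ⟨h19, h'.eqTo (by omega) h20, g5.trans h21, g3.trans h22, ?_, ?_, ?_, ?_⟩
      · rw [g1]; exact h23
      · rw [g1]; exact h24
      · rw [g1, e1]; exact h25
      · rw [g2, e2]; exact h26

theorem dirR_congr {q w₁ : ℕ} {R R' : Lst A} {C C' : ℕ → Lst A} (hR : LEq w₁ R' R)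
    (hC : ∀ k < 2 ^ q, LEq w (C' k) (C k)) {e : ℕ} (he : e < 2 ^ w₁) {k i : ℕ}
    (h : DirR q w R C e k i) : DirR q w R' C' e k i := by
  intro h1
  obtain ⟨e1, e2, e3, e4, e5⟩ := hR e he
  rw [e5] at h1
  obtain ⟨g1, g2, g3, g4, g5, g6⟩ := h h1
  obtain ⟨f1, f2, f3, f4, f5⟩ := hC k g1 i g2
  refine ⟨g1, g2, f5.trans g3, fun h2 => ?_, f1.trans (g5.trans e1.symm),
    f2.trans (g6.trans e2.symm)⟩
  rw [e3] at h2
  exact f3.trans (g4 h2)

theorem contR_congr {q w₁ : ℕ} {R R' : Lst A} {C C' : ℕ → Lst A} (hR : LEq w₁ R' R)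
    (hC : ∀ k < 2 ^ q, LEq w (C' k) (C k)) {k i e : ℕ} (hk : k < 2 ^ q) (hi : i < 2 ^ w)
    (h : ContR w₁ R C k i e) : ContR w₁ R' C' k i e := by
  intro h1 h2
  obtain ⟨e1, e2, e3, e4, e5⟩ := hC k hk i hi
  rw [e5] at h1
  rw [e3] at h2
  obtain ⟨g1, g2, g3, g4, g5⟩ := h h1 h2
  obtain ⟨f1, f2, f3, f4, f5⟩ := hR e g1
  refine ⟨g1, f5.trans g2, f3.trans g3, ?_, ?_⟩
  · rw [hR.pv g1.le, (hC k hk).pv hi.le]
    exact g4
  · rw [e1, f1]
    exact g5

end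

end Pool.Agent.NUM
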