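import Pool.Agent.NUM.BDef
import Pool.Agent.NUM.BPar
import Pool.Agent.NUM.RStep

/-!
# Two-parameter form of theorem H(γ): the systems of lists, on strings

The parts which do not depend on the sequences of parameters (`sys_trueR`, `sys_staticR`, `sys_badR`,
`rcom_pair`) are those of `RStep`.
-/

set_option autoImplicit false

namespace Pool.Agent.NUM.BB

section

variable {S : GSeq}

theorem one_lt_h (S : GSeq) (L : ℕ) : 1 < S.h L := by
  unfold GSeq.h
  have : 1 ≤ (S.s L + 10) ^ 2 := Nat.one_le_pow _ _ (by omega)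
  omega

theorem rfg_eq (e r : ℝ) (L : ℕ) (T : Fin (S.h L + S.b L) → Bool) :
    rfg (S.pr e r L) T = embM T 0 := by
  have hpos : 0 < S.h L + S.b L := by
    have := one_lt_h S L
    omega
  have h2 := embM_even T ⟨0, hpos⟩
  unfold rfg
  rw [dif_pos (show 0 < (S.pr e r L).h from hpos)]
  exact h2.symm

theorem gacc_eqR (e r : ℝ) (L : ℕ) (T : Fin (S.h L + S.b L) → Bool) :
    gacc (S.pr e r L) T = embM T 2 := by
  have hpos : 1 < S.h L + S.b L := by
    have := one_lt_h S L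
    omega
  have h2 := embM_even T ⟨1, hpos⟩
  unfold gacc
  rw [dif_pos (show 1 < (S.pr e r L).h from hpos)]
  exact h2.symm

theorem rsx_eq (e r : ℝ) (L : ℕ) (T : Fin (S.h L + S.b L) → Bool) :
    rsx (S.pr e r L) T = num (S.b L) fun r => embM T (2 * (S.h L + r)) := by
  unfold rsx num
  refine Finset.sum_congr rfl fun i hi => ?_
  have hi' : i < S.b L := Finset.mem_range.1 hi
  have hlt : S.h L + i < S.h L + S.b L := by omega
  have h2 := embM_even T ⟨S.h L + i, hlt⟩
  have h3 : (if hr : (S.pr e r L).c + i < (S.pr e r L).h then T ⟨(S.pr e r L).c + i, hr⟩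
      else false) = T ⟨S.h L + i, hlt⟩ := dif_pos hlt
  have h4 : embM T (2 * (S.h L + i)) = T ⟨S.h L + i, hlt⟩ := h2
  have h5 : ∀ x y : Bool, x = y →
      (if x = true then 2 ^ i else 0) = if y = true then 2 ^ i else 0 := by
    intro x y hxy
    rw [hxy]
  exact h5 _ _ (h3.trans h4.symm)

variable {G : List Ins} {z : Inp} {L N : ℕ}

theorem RRun.src_le (hD : RRun S G z L N) : ∀ u, rsrc (eval G z) (S.d L) u ≤ u := hD.run.run.le

theorem RRun.flag (hD : RRun S G z L N) (e r : ℝ) : ∀ m ≤ N,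
    (rfg (S.pr e r L) (ramX (eval G z) (S.d L) (S.h L) (S.b L) m) = true ↔ m = N) := by
  intro m hm
  rw [rfg_eq]
  exact hD.run.fl m hm

theorem RRun.srx (hD : RRun S G z L N) (e r : ℝ) : ∀ u < N,
    rsx (S.pr e r L) (ramX (eval G z) (S.d L) (S.h L) (S.b L) (u + 1)) =
      rsrc (eval G z) (S.d L) u := by
  intro u hu
  rw [rsx_eq, hD.run.run.step u]
  exact hD.run.srx _ _ _ (by have := hD.src_le u; omega)

theorem trP_next {e r : ℝ} {y0 y1 : Inp}
    (h0 : ∀ k < 2 ^ (S.pr e r L).q, TrR (ramX (eval G z) (S.d L) (S.h L) (S.b L))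
      (rsrc (eval G z) (S.d L)) N (gC (S.pr e r L) y0 k) (S.w r L) (S.lim r L))
    (h1 : ∀ k < 2 ^ (S.pr e r L).q, TrR (ramX (eval G z) (S.d L) (S.h L) (S.b L))
      (rsrc (eval G z) (S.d L)) N (gC (S.pr e r L) y1 k) (S.w r L) (S.lim r L)) (v : Inp) :
    TrP S G z L N r (rNext (S.pr e r L) (pair y0 y1) v) := by
  have hk := uk_lt (S.pr e r L) v
  have hk' := uk'_lt (S.pr e r L) v
  intro j
  unfold rNext rRec
  rcases Bool.eq_false_or_eq_true (uj (S.pr e r L) v) with hu | hu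
  · rw [hu]
    cases j
    · exact h1 _ hk
    · exact h1 _ hk'
  · rw [hu]
    cases j
    · exact h0 _ hk
    · exact h0 _ hk'

theorem badP_of {e r : ℝ} {y : Inp} {j : Bool}
    (h : ∃ k < 2 ^ (S.pr e r L).q, ∃ k' < 2 ^ (S.pr e r L).q,
      Bad1 (ramX (eval G z) (S.d L) (S.h L) (S.b L)) (rsrc (eval G z) (S.d L)) N
        (gC (S.pr e r L) (pk y j) k) (S.w r L) (S.lim r L) ∨
      Stale (ramX (eval G z) (S.d L) (S.h L) (S.b L)) (rsrc (eval G z) (S.d L)) N
        (gC (S.pr e r L) (pk y j) k) (gC (S.pr e r L) (pk y j) k') (S.w r L) (S.lim r L)) :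
    ∃ j : Bool, ∃ k < 2 ^ (S.pr e r L).q, ∃ k' < 2 ^ (S.pr e r L).q,
      BadP S G z L N r (rRec (S.pr e r L) y j k k') := by
  obtain ⟨k, hk, k', hk', h⟩ := h
  exact ⟨j, k, hk, k', hk', h⟩

/-- a package for a true list of a level `≤ e₀` -/
theorem exists_pack (hS : S.Ok) {e r : ℝ} (hre : r ≤ e) (he : e ≤ S.e₀) (hD : RRun S G z L N)
    {R : Lst (Fin (S.h L + S.b L) → Bool)}
    (hR : TrR (ramX (eval G z) (S.d L) (S.h L) (S.b L)) (rsrc (eval G z) (S.d L)) N R
      (S.w e L + 1) (S.lim e L + 1))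
    (hRb : ∀ k < 2 ^ (S.w e L + 1), R.tm k ≤ N + k + 1 ∧ R.lb k < 2 ^ (S.w e L + 1) ∧
      R.off k ≤ S.lim e L + 1) {i j : ℕ} (hi : i < 2 ^ (S.w e L + 1))
    (hj : j < 2 ^ (S.w e L + 1)) :
    ∃ y : Inp, LEq (S.w e L + 1) (gR (S.pr e r L) y) R ∧ gi (S.pr e r L) y = i ∧
      gj (S.pr e r L) y = j ∧
      (∀ k < 2 ^ (S.pr e r L).q, ∀ i < 2 ^ (S.pr e r L).w, ∀ e' < 2 ^ (S.pr e r L).w₁,
        RCom (S.pr e r L) y k i e') ∧
      ∀ k < 2 ^ (S.pr e r L).q, TrR (ramX (eval G z) (S.d L) (S.h L) (S.b L))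
        (rsrc (eval G z) (S.d L)) N (gC (S.pr e r L) y k) (S.w r L) (S.lim r L) := by
  obtain ⟨d1, d2, d3, d4, d5, d6, d7⟩ := hS.dims r L
  obtain ⟨t1, -⟩ := hS.times (hre.trans he) hD.le
  obtain ⟨t3, t4⟩ := hS.timesR he hD.le
  exact sys_trueR (p := S.pr e r L) (hS.parR hre he L) hD.src_le hD.sep hS.γ0 hS.γ1.le hR d1 d2 d3
    d4 (hS.depth hD.le) d5 d6 (hS.numR e r L) t1
    (fun k hk => by
      have hk' : k < 2 ^ (S.w e L + 1) := hk
      obtain ⟨g1, g2, g3⟩ := hRb k hk'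
      exact ⟨show R.tm k < 2 ^ S.b L by omega, g2, show R.off k < 2 ^ S.b L by omega⟩) hi hj

/-- **step, bad pairs** -/
theorem step_badR (hS : S.Ok) {e r : ℝ} (_ : S.al ≤ r) (hre : r ≤ e) (he : e ≤ S.e₀)
    (hD : RRun S G z L N) {l : Inp} (h : BadP S G z L N e l) :
    ∃ y : Inp, ∀ v : Inp, RStepC (S.pr e r L) l y v ∧
      TrP S G z L N r (rNext (S.pr e r L) y v) := by
  obtain ⟨g1, g2, g3, g4, g5, g6, g7⟩ := hS.dims e L
  have h2w : 2 ≤ 2 ^ S.w e L := by omega
  have hpow : 2 ^ (S.w e L + 1) = 2 ^ S.w e L * 2 := pow_succ 2 _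
  have hlim : 1 ≤ S.lim e L := by omega
  rcases h with h | h
  · -- certificates of the first kind
    obtain ⟨R, i, hdf, hR, hRb⟩ := Bad1.exists_df (hD.flag e r) hD.src_le hlim h
    have hi := hdf.1
    obtain ⟨y, h1, h2, h3, h4, h5⟩ := exists_pack hS hre he hD hR
      (fun k hk => by
        obtain ⟨f1, f2, f3⟩ := hRb k
        refine ⟨f1, ?_, by omega⟩
        rcases f2 with f2 | f2
        · omega
        · have f4 := rdL_lb_lt (S.h L + S.b L) (S.w e L) (S.b L) (S.σ L) (pk l false) k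
          rw [← f2] at f4
          omega) (i := i) (j := 0) (by omega) (by positivity)
    refine ⟨pair y y, fun v => ⟨⟨rcom_pair h4 h4 v, ?_⟩, trP_next h5 h5 v⟩⟩
    unfold RDf
    rw [if_pos (show gj (S.pr e r L) (pk (pair y y) true) = 0 from h3)]
    have hdf' := h1.df1 hdf
    rw [hD.run.zero] at hdf'
    rw [← h2] at hdf'
    exact (df1_iff (Nat.le_succ (S.w e L))).1 hdf' _ (ue_lt (S.pr e r L) v)
  · -- certificates of the second kind
    obtain ⟨R, R', i, j, i'', hdf, hR, hR', hRb, hRb'⟩ :=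
      Stale.exists_df (hD.srx e r) hD.src_le hlim h
    have hi := hdf.1
    have hj := hdf.2.1
    have hi'' := hdf.2.2.1
    obtain ⟨y0, h1, h2, h3, h4, h5⟩ := exists_pack hS hre he hD hR
      (fun k hk => by
        obtain ⟨f1, f2, f3⟩ := hRb k
        refine ⟨f1, ?_, by omega⟩
        rcases f2 with f2 | ⟨k', f2⟩
        · omega
        · have f4 := rdL_lb_lt (S.h L + S.b L) (S.w e L) (S.b L) (S.σ L) (pk l false) k'
          rw [← f2] at f4
          omega) (i := i) (j := j) (by omega) (by omega)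
    obtain ⟨y1, k1, k2, k3, k4, k5⟩ := exists_pack hS hre he hD hR'
      (fun k hk => by
        obtain ⟨f1, f2, f3⟩ := hRb' k
        refine ⟨f1, ?_, by omega⟩
        rcases f2 with f2 | f2
        · omega
        · have f4 := rdL_lb_lt (S.h L + S.b L) (S.w e L) (S.b L) (S.σ L) (pk l true) k
          rw [← f2] at f4
          omega) (i := i'') (j := 1) (by omega) (by omega)
    refine ⟨pair y0 y1, fun v => ⟨⟨rcom_pair h4 k4 v, ?_⟩, trP_next h5 k5 v⟩⟩
    unfold RDf
    rw [if_neg (show gj (S.pr e r L) (pk (pair y0 y1) true) ≠ 0 by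
      rw [pk_pair_true, k3]
      omega)]
    have hdf' := h1.df2 k1 hdf
    rw [← h2, ← h3, ← k2] at hdf'
    exact (df2_iff (Nat.le_succ (S.w e L))).1 hdf' _ (ue_lt (S.pr e r L) v)

/-- **step, true pairs** -/
theorem step_trueR (hS : S.Ok) {e r : ℝ} (_ : S.al ≤ r) (hre : r ≤ e) (he : e ≤ S.e₀)
    (hD : RRun S G z L N) {l : Inp} (h : TrP S G z L N e l) (y : Inp) :
    (∃ v : Inp, ¬ RStepC (S.pr e r L) l y v) ∨
      ∃ j : Bool, ∃ k < 2 ^ (S.pr e r L).q, ∃ k' < 2 ^ (S.pr e r L).q,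
        BadP S G z L N r (rRec (S.pr e r L) y j k k') := by
  by_cases hall : ∀ v : Inp, RStepC (S.pr e r L) l y v
  · right
    have hp := hS.parR hre he L
    have hcom := fun v => (hall v).1
    have hdf : ∀ e' < 2 ^ (S.pr e r L).w₁, RDf (S.pr e r L) l y e' := by
      intro e' he'
      obtain ⟨v, -, -, -, -, g3, -⟩ := exists_uv hp false (k := 0) (k' := 0) (i := 0)
        (by positivity) (by positivity) (by positivity) he' fun _ => false
      have h6 := (hall v).2
      rwa [g3] at h6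
    have hst0 := (sys_staticR hp hcom false).2.1
    have hst1 := (sys_staticR hp hcom true).2.1
    by_cases hgj : gj (S.pr e r L) (pk y true) = 0
    · have hd1 : Df1 (ramX (eval G z) (S.d L) (S.h L) (S.b L) 0) (rfg (S.pr e r L)) (S.w e L)
          (rdL (S.h L + S.b L) (S.w e L) (S.b L) (S.σ L) (pk l false))
          (gR (S.pr e r L) (pk y false)) (gi (S.pr e r L) (pk y false)) := by
        refine (df1_iff (Nat.le_succ (S.w e L))).2 fun e' he' => ?_
        have h6 := hdf e' he'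
        unfold RDf at h6
        rw [if_pos hgj] at h6
        rw [hD.run.zero]
        exact h6
      exact badP_of (sys_badR hp hD.src_le hcom
        (TrR.bad_of_df1 hD.src_le (hD.flag e r) (h false) hd1 hst0))
    · have hd2 : Df2 (rsx (S.pr e r L)) (S.w e L)
          (rdL (S.h L + S.b L) (S.w e L) (S.b L) (S.σ L) (pk l false))
          (rdL (S.h L + S.b L) (S.w e L) (S.b L) (S.σ L) (pk l true))
          (gR (S.pr e r L) (pk y false)) (gR (S.pr e r L) (pk y true))
          (gi (S.pr e r L) (pk y false)) (gj (S.pr e r L) (pk y false))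
          (gi (S.pr e r L) (pk y true)) := by
        refine (df2_iff (Nat.le_succ (S.w e L))).2 fun e' he' => ?_
        have h6 := hdf e' he'
        unfold RDf at h6
        rw [if_neg hgj] at h6
        exact h6
      rcases TrR.bad_of_df2 (hD.srx e r) hD.src_le (h false) (h true) hd2 hst0 hst1 with h7 | h7
      · exact badP_of (sys_badR hp hD.src_le hcom h7)
      · exact badP_of (sys_badR hp hD.src_le hcom h7)
  · left
    push Not at hall
    exact hall

/-- **top, accepted inputs** -/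
theorem top_yesR (hS : S.Ok) {r : ℝ} (_ : S.al ≤ r) (hre : r ≤ S.e₀)
    (hD : RRun S G z L N) (hacc : rst (eval G z) (S.d L) N 2 = true) :
    ∃ y : Inp, ∀ v : Inp, RTopC (S.pr S.e₀ r L) y v ∧
      TrP S G z L N r (rNext (S.pr S.e₀ r L) y v) := by
  have hacc' : gacc (S.pr S.e₀ r L) (ramX (eval G z) (S.d L) (S.h L) (S.b L) N) = true := by
    rw [gacc_eqR]
    exact hD.run.acc.trans hacc
  have hlim : N + 2 < S.lim S.e₀ L + 1 := by
    have := hS.top hD.le
    omega
  obtain ⟨R, hR, htop, hRb⟩ := exists_topR (w := S.w S.e₀ L + 1) (lim := S.lim S.e₀ L + 1)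
    (acc := gacc (S.pr S.e₀ r L)) (hD.flag S.e₀ r) hD.src_le hacc' hD.run.pos (Nat.le_add_left _ _)
    hlim
  have h2w : 2 ≤ 2 ^ (S.w S.e₀ L + 1) := by
    rw [pow_succ]
    have := Nat.two_pow_pos (S.w S.e₀ L)
    omega
  obtain ⟨y, h1, -, -, h4, h5⟩ := exists_pack hS hre le_rfl hD hR
    (fun k _ => by
      obtain ⟨f1, f2, f3⟩ := hRb k
      exact ⟨by omega, by omega, f3⟩) (i := 0) (j := 0) (by positivity) (by positivity)
  exact ⟨pair y y, fun v => ⟨⟨rcom_pair h4 h4 v, h1.topL htop⟩, trP_next h5 h5 v⟩⟩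

/-- **top, rejected inputs** -/
theorem top_noR (hS : S.Ok) {r : ℝ} (_ : S.al ≤ r) (hre : r ≤ S.e₀)
    (hD : RRun S G z L N) (hacc : rst (eval G z) (S.d L) N 2 = false) (y : Inp) :
    (∃ v : Inp, ¬ RTopC (S.pr S.e₀ r L) y v) ∨
      ∃ j : Bool, ∃ k < 2 ^ (S.pr S.e₀ r L).q, ∃ k' < 2 ^ (S.pr S.e₀ r L).q,
        BadP S G z L N r (rRec (S.pr S.e₀ r L) y j k k') := by
  by_cases hall : ∀ v : Inp, RTopC (S.pr S.e₀ r L) y v
  · right
    have hp := hS.parR hre le_rfl L
    have hcom := fun v => (hall v).1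
    have hacc' : gacc (S.pr S.e₀ r L) (ramX (eval G z) (S.d L) (S.h L) (S.b L) N) = false := by
      rw [gacc_eqR]
      exact hD.run.acc.trans hacc
    have hst0 := (sys_staticR hp hcom false).2.1
    exact badP_of (sys_badR hp hD.src_le hcom
      (bad_of_topR (hD.flag S.e₀ r) hD.src_le hacc' hst0 (hall fun _ => false).2))
  · left
    push Not at hall
    exact hall

end

end Pool.Agent.NUM.BB
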