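import Pool.Agent.NUM.HSep
import Pool.Agent.NUM.HClosure

/-!
# The class of the problems with computations with hereditary separators
-/

set_option autoImplicit false

namespace Pool.Agent.NUM

/-- `P` is decided in `2 ^ ((e + o(1)) L)` passes by functional programs of size `2 ^ o(L)` whose
computations have hereditary separators of size `2 ^ o(L) * |W| ^ γ` -/
def ClsG (γ : ℝ) : (T : Type) → Pres T → (T → Prop) → ℝ → Prop := fun _ π P e =>
  ∃ k : ℕ → ℕ, Ex 0 k ∧ InG (fun L N rc => HSep N rc γ (k L)) π P e fun _ => True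

/-- the property of the computations of the 3SAT programs of order `m` -/
def QG (γ : ℝ) : ℝ → ℕ → ℕ → (ℕ → ℕ) → Prop := fun δ m N rc => HSep N rc γ ⌊(2 : ℝ) ^ (δ * m)⌋₊

theorem QLoc.hsep (γ : ℝ) (k : ℕ → ℕ) : QLoc fun L N rc => HSep N rc γ (k L) :=
  fun _ _ _ _ h H => HSep.congr H fun t ht => (h t ht).symm

end Pool.Agent.NUM
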