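import Pool.Agent.NUM.HLevel
import Pool.Agent.NUM.Asym

/-!
# History programs: diagonal problems
-/

set_option autoImplicit false

namespace Pool.Agent.NUM

open Filter

/-- the instances of the diagonal problem: all inputs, with indices in `S` -/
def hdpres (S : Set ℕ) : Pres ({L : ℕ // L ∈ S} × Inp) :=
  ⟨fun p => (p.1 : ℕ), fun p => trc (p.1 : ℕ) p.2⟩

theorem size_hdpres (S : Set ℕ) : Size (hdpres S) 1 :=
  ⟨fun L => L, (by intro ε hε; exact ⟨0, fun L _ => by have : (0 : ℝ) ≤ L := Nat.cast_nonneg L; nlinarith⟩),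
    fun τ => supp_trc _ _⟩

/-- the diagonal argument -/
theorem hdiag_core (P : PivotHB) {S : Set ℕ} (hS : S.Infinite) (a : ℕ) (u e : ℝ) (ha : 1 ≤ a) (hue : u ≤ e)
    (hea : e < a) :
    ∃ n sg : ℕ → ℕ, Lin a (fun L => n L + sg L) ∧ (∀ L, L ≤ 2 * n L) ∧ (∀ L, sg L ≤ n L) ∧
      ¬ InEH u (hdpres S) (fun p => ¬ P.V (n p.1) (sg p.1) (trc (p.1 : ℕ) p.2)) e := by
  have ha' : (1 : ℝ) ≤ a := by exact_mod_cast ha
  obtain ⟨e', he'⟩ : ∃ e' : ℝ, e' = max e 0 := ⟨_, rfl⟩
  have he0 : 0 ≤ e' := by rw [he']; exact le_max_right _ _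
  have hee' : e ≤ e' := by rw [he']; exact le_max_left _ _
  have he'a : e' < a := by rw [he']; exact max_lt hea (by linarith)
  obtain ⟨d, hd⟩ : ∃ d : ℝ, d = a - e' := ⟨_, rfl⟩
  have hd0 : 0 < d := by rw [hd]; linarith
  obtain ⟨η, hη⟩ : ∃ η : ℝ, η = min (d / 4) (1 / 8) := ⟨_, rfl⟩
  have hη0 : 0 < η := by rw [hη]; exact lt_min (by linarith) (by norm_num)
  have hηd : η ≤ d / 4 := by rw [hη]; exact min_le_left _ _
  have hη8 : η ≤ 1 / 8 := by rw [hη]; exact min_le_right _ _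
  -- the parameters
  obtain ⟨sg, hsg⟩ : ∃ sg : ℕ → ℕ, sg = fun L : ℕ => ⌊η * (L : ℝ)⌋₊ := ⟨_, rfl⟩
  obtain ⟨n, hn⟩ : ∃ n : ℕ → ℕ, n = fun L => a * L - sg L := ⟨_, rfl⟩
  have hsgle : ∀ L : ℕ, (sg L : ℝ) ≤ η * L := by
    intro L
    rw [hsg]
    exact Nat.floor_le (by positivity)
  have hsggt : ∀ L : ℕ, η * L - 1 < (sg L : ℝ) := by
    intro L
    rw [hsg]
    exact Nat.sub_one_lt_floor _
  have hsgL : ∀ L : ℕ, 8 * sg L ≤ L := by
    intro L
    have h1 := hsgle L
    have h2 : (0 : ℝ) ≤ L := Nat.cast_nonneg L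
    have h3 : (8 : ℝ) * sg L ≤ L := by nlinarith
    exact_mod_cast h3
  have hLa : ∀ L : ℕ, L ≤ a * L := fun L => Nat.le_mul_of_pos_left L ha
  have hnsum : ∀ L, n L + sg L = a * L := by
    intro L
    have h1 := hsgL L
    have h2 := hLa L
    rw [hn]
    show a * L - sg L + sg L = a * L
    omega
  have hnsumR : ∀ L : ℕ, (n L : ℝ) + sg L = a * L := by
    intro L
    exact_mod_cast hnsum L
  refine ⟨n, sg, ?_, ?_, ?_, ?_⟩
  · intro ε hε
    refine ⟨0, fun L _ => ?_⟩
    push_cast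
    rw [hnsumR]
    have : (0 : ℝ) ≤ L := Nat.cast_nonneg L
    nlinarith
  · intro L
    have h3 := hsgL L
    have h4 := hnsum L
    have h5 := hLa L
    omega
  · intro L
    have h3 := hsgL L
    have h4 := hnsum L
    have h5 := hLa L
    omega
  · rintro ⟨β, B, hβ, hB, L₁, hL₁⟩
    obtain ⟨G, s, t, dd, L₀, hs0, ht, hs3, hG, hrun⟩ := InG.sz3 hB
    -- the wrapper: the string is truncated
    have hloc : LocF (fun L w => pair (fun a => w ([false] ++ a))
        (trc (β L) fun a => w ([true] ++ a))) :=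
      LocF.pair (LocF.shift [false] LocF.id) (LocF.trc (LocF.shift [true] LocF.id) β)
    obtain ⟨t1, ht1, hloc1⟩ := hloc s hs0
    choose G1 hG1 hG1run using fun L => exists_virt_hist (hG L) (hs3 L) (hloc1 L) le_rfl
    obtain ⟨s1, hs1⟩ : ∃ s1 : ℕ → ℕ, s1 = fun L => s L * (t1 L + 1) + 2 * s L + t1 L := ⟨_, rfl⟩
    have hs1sub : SubExp s1 := by
      rw [hs1]
      exact ((hs0.mul (ht1.add (SubExp.const 1))).add ((SubExp.const 2).mul hs0)).add ht1
    have hs1three : ∀ L, 3 ≤ s1 L := by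
      intro L
      have := hs3 L
      rw [hs1]
      show 3 ≤ s L * (t1 L + 1) + 2 * s L + t1 L
      omega
    have hG1' : ∀ L, HSz (s1 L) (dd L) (G1 L) := by
      intro L
      rw [hs1]
      exact hG1 L
    -- a large index
    have hf : SubExp (fun L => 2 * (4 * (1000 * (s1 L + a * L + 10) ^ 8) + 2 + (4 * (a * L) + 9))) :=
      (SubExp.const 2).mul ((((SubExp.const 4).mul ((SubExp.const 1000).mul
        (((hs1sub.add ((SubExp.const a).mul SubExp.id)).add (SubExp.const 10)).pow 8))).add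
        (SubExp.const 2)).add (((SubExp.const 4).mul ((SubExp.const a).mul SubExp.id)).add
          (SubExp.const 9)))
    have ht' : ExpLe e' t := ht.mono hee'
    have hβ' : Lin e' β := hβ.mono (hue.trans hee')
    obtain ⟨L₂, hL₂⟩ := hβ' (d / 4) (by linarith)
    obtain ⟨N, hN⟩ := exists_nat_ge (5 / η)
    have hev := (hf η hη0).and ((ht' (d / 4) (by linarith)).and ((eventually_ge_atTop L₀).and
      ((eventually_ge_atTop L₁).and ((eventually_ge_atTop L₂).and ((eventually_ge_atTop N).and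
        (eventually_ge_atTop 26))))))
    have hfreq : ∃ᶠ L : ℕ in atTop, L ∈ S := Nat.frequently_atTop_iff_infinite.2 hS
    obtain ⟨L, hLS, hfL, htL, hLL₀, hLL₁, hLL₂, hLN, hL26⟩ := (hfreq.and_eventually hev).exists
    have hLpos : (0 : ℝ) < L := by
      have : (26 : ℝ) ≤ L := by exact_mod_cast hL26
      linarith
    have hηL : 5 ≤ η * L := by
      have h1 : (N : ℝ) ≤ L := by exact_mod_cast hLN
      have h2 := hN.trans h1
      rw [div_le_iff₀ hη0] at h2
      linarith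
    have h2sg : 4 * (1000 * (s1 L + a * L + 10) ^ 8) + 2 + (4 * (a * L) + 9) ≤ 2 ^ sg L := by
      have h1 : (2 : ℝ) ^ (η * L) ≤ 2 * 2 ^ sg L := by
        have h2 : (2 : ℝ) ^ (η * L) ≤ 2 ^ ((sg L : ℝ) + 1) :=
          Real.rpow_le_rpow_of_exponent_le (by norm_num) (by have := hsggt L; linarith)
        rw [Real.rpow_add (by norm_num), Real.rpow_natCast, Real.rpow_one] at h2
        linarith
      have h3 : (((2 * (4 * (1000 * (s1 L + a * L + 10) ^ 8) + 2 + (4 * (a * L) + 9)) : ℕ) : ℝ)) ≤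
          ((2 * 2 ^ sg L : ℕ) : ℝ) := by
        push_cast
        push_cast at hfL
        exact hfL.trans h1
      have h4 := Nat.cast_le.1 h3
      omega
    have hnle : n L ≤ a * L := by rw [← hnsum L]; exact Nat.le_add_right _ _
    have hsg4 : 4 ≤ sg L := by
      have h1 := hsggt L
      have h2 : (4 : ℝ) < (sg L : ℝ) + 0 + 1 := by linarith
      have h3 : (4 : ℝ) < ((sg L + 1 : ℕ) : ℝ) := by push_cast; linarith
      have h4 : 4 < sg L + 1 := by exact_mod_cast h3
      omega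
    have hsg8 := hsgL L
    have haL := hLa L
    have hnL := hnsum L
    have hnR := hnsumR L
    have hsgR := hsgle L
    -- the guess fits
    have hβn : β L + 2 ≤ n L := by
      have h1 := hL₂ L hLL₂
      have h2 : (β L : ℝ) + 2 ≤ n L := by
        have h3 : η * L ≤ d / 4 * L := mul_le_mul_of_nonneg_right hηd hLpos.le
        have h4 : (a : ℝ) * L = e' * L + d * L := by rw [hd]; ring
        nlinarith
      exact_mod_cast h2
    have hTn : t L ≤ 2 ^ (n L - sg L) := by
      have h1 : sg L ≤ n L := by omega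
      have h2 : ((n L - sg L : ℕ) : ℝ) = (n L : ℝ) - sg L := Nat.cast_sub h1
      have h3 : (t L : ℝ) ≤ (2 : ℝ) ^ (n L - sg L) := by
        rw [← Real.rpow_natCast]
        refine htL.trans (Real.rpow_le_rpow_of_exponent_le (by norm_num) ?_)
        rw [h2]
        have h3 : η * L ≤ d / 4 * L := mul_le_mul_of_nonneg_right hηd hLpos.le
        have h4 : (a : ℝ) * L = e' * L + d * L := by rw [hd]; ring
        nlinarith
      exact_mod_cast h3
    have hsz : hlvSz (s1 L) (n L - sg L) < 2 ^ sg L := by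
      unfold hlvSz normSz
      have h1 : (s1 L + (n L - sg L) + 10) ^ 8 ≤ (s1 L + a * L + 10) ^ 8 :=
        Nat.pow_le_pow_left (by omega) 8
      omega
    obtain ⟨tab, htab, hV⟩ := hlevel P (n := n L) (sg := sg L) (s := s1 L) (T := t L)
      (d := dd L) (G := G1 L) (hG1' L) (hs1three L) hsz (by omega) (by omega) (by omega) hTn
      (by omega)
    obtain ⟨z, hzdef⟩ : ∃ z : Inp, z = pair tab (fun _ => false) := ⟨_, rfl⟩
    have hzs : Supp (3 * sg L + 11) z := by
      rw [hzdef]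
      have h5 : Supp (3 * sg L + 10) (fun _ => false : Inp) := fun _ _ => rfl
      have h6 := htab.pair h5
      rwa [max_self] at h6
    have hz : trc L z = z := by
      funext a
      unfold trc
      split_ifs with h
      · rfl
      · exact (hzs a (by omega)).symm
    have hBrun : ∀ y : Inp, ∃ b', HAns (eval (G L) (pair z (trc (β L) y)))
        (dd L) (t L) b' ∧ (b' = true ↔ B ((⟨L, hLS⟩, z), y)) := by
      intro y
      have h1 := (hrun ((⟨L, hLS⟩, z), y) hLL₀).1
      have h2 : ((hdpres S).ext β).inp ((⟨L, hLS⟩, z), y) = pair z (trc (β L) y) := by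
        show pair (trc L z) (trc (β L) y) = _
        rw [hz]
      rw [h2] at h1
      exact h1
    have htrc : ∀ y : Inp, trc (β L) (trc (β L) y) = trc (β L) y := by
      intro y
      funext a
      simp only [trc]
      split_ifs <;> rfl
    have hfin := hV z (fun y => B ((⟨L, hLS⟩, z), y)) (β L) hβn (hzs.mono (by omega))
      (fun a => by rw [hzdef]; rfl) (fun y => ?_) (fun y => ?_)
    · have h1 := hL₁ (⟨L, hLS⟩, z) hLL₁
      rw [← hfin] at h1
      have h2 : P.V (n L) (sg L) (trc L z) = P.V (n L) (sg L) z := by rw [hz]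
      change (¬ P.V (n L) (sg L) (trc L z)) ↔ _ at h1
      rw [h2] at h1
      exact iff_not_self h1.symm
    · obtain ⟨b', hb', hbB⟩ := hBrun y
      exact ⟨b', (hG1run L (pair z y)).1 _ _ hb', hbB⟩
    · obtain ⟨b1, hb1, hbB1⟩ := hBrun y
      obtain ⟨b2, hb2, hbB2⟩ := hBrun (trc (β L) y)
      rw [htrc] at hb2
      have : b1 = b2 := hcl_det hb1 hb2
      subst this
      exact hbB1.symm.trans hbB2

/-- **Diagonal problems** (class `InV`). -/
theorem hdiag {Qs : ℕ → ℕ → (ℕ → ℕ) → Prop} (hQ : QLoc Qs) {c : ℝ} (P : PivotH Qs c) (a : ℕ)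
    (u e : ℝ) (ha : 1 ≤ a) (hue : u ≤ e) (hea : e < a) :
    ∃ (T : Type) (π : Pres T) (D : T → Prop), Size π 1 ∧ InV Qs c π D a ∧ ¬ InEH u π D e := by
  obtain ⟨n, sg, h1, h2, h3, h4⟩ := hdiag_core P.toPivotHB Set.infinite_univ a u e ha hue hea
  have ha0 : (0 : ℝ) ≤ a := Nat.cast_nonneg a
  have hn : Tendsto n atTop atTop := by
    rw [tendsto_atTop_atTop]
    intro b
    exact ⟨2 * b, fun L hL => by have := h2 L; omega⟩
  obtain ⟨G, s, t, d, m, L₀, hs, ht, hm, hm', hG, hrun⟩ := P.dec n sg a ha0 h1 hn h3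
  have h5 : InV Qs c (hdpres Set.univ)
      (fun p => P.V (n p.1) (sg p.1) (trc (p.1 : ℕ) p.2)) a := by
    refine ⟨m, hm, hm', G, s, t, d, L₀, hs, ht, hG, fun τ hτ => ?_⟩
    obtain ⟨h6, h7⟩ := hrun τ.1 hτ (trc (τ.1 : ℕ) τ.2)
    exact ⟨h6, fun _ => h7⟩
  exact ⟨_, hdpres Set.univ, fun p => ¬ P.V (n p.1) (sg p.1) (trc (p.1 : ℕ) p.2),
    size_hdpres _, h5.compl hQ, h4⟩

end Pool.Agent.NUM
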