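import Pool.Agent.NUM.Pivot

/-!
# P5: slow-down with the pivot
-/

set_option autoImplicit false

namespace Pool.Agent.NUM

open Filter

/-- `z ↦ pair tab z` with a constant table -/
theorem loc_tab (l w : ℕ) (c : Inp) (hc : Supp w c) :
    Loc l (2 ^ w * (w * 200 + 400) + 100 + (l + 1) + 40) (fun z => pair c z) :=
  Loc.pair (Loc.const l w c hc) (Loc.id l)

/-- one level of the slow-down: the table for the program `G` -/
theorem slow_level (P : PivotB) {n sg s T β : ℕ} {G : List Ins}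
    (hsg : 4 * s + 2 < 2 ^ sg) (hn : n + 3 ≤ 2 ^ sg) (h3 : 3 ≤ sg)
    (hs : 3 ≤ s) (hG : Sz s G) (hβ : β + 2 ≤ n)
    (htab : 3 * sg + 13 ≤ n) (hT : T ≤ 2 ^ (n - sg)) :
    ∃ tab : Inp, Supp (3 * sg + 10) tab ∧ ∀ (z : Inp) (B : Inp → Prop), Supp (n - 3) z →
      (∀ t y : Inp, ∃ b, run (eval G (pair (pair t z) y)) T zeroMem [] = some b ∧
        (b = true ↔ B y)) → (∀ y, B y ↔ B (trc β y)) →
      (P.V n sg (pair tab z) ↔ ∃ y, B y) := by
  obtain ⟨G', h1, h2, h4⟩ := exists_trim_run n hG hs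
  have hgood : PGood n sg G' := by
    refine ⟨by have := h1.1; omega, fun c hc => (h1.2 c hc).trans (by omega), h2, hn, h3,
      by omega⟩
  refine ⟨P.enc n sg G', P.supp_enc n sg G', fun z B hz hB hBβ => ?_⟩
  have hsupp : ∀ y : Inp, Supp (n - 2) y → ∀ a : List Bool, n ≤ a.length →
      pair (pair (P.enc n sg G') z) y a = false := by
    intro y hy a ha
    have h5 := ((P.supp_enc n sg G').pair hz).pair hy
    apply h5
    have : max (max (3 * sg + 10) (n - 3) + 1) (n - 2) + 1 < n := by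
      have h6 : max (3 * sg + 10) (n - 3) = n - 3 := max_eq_right (by omega)
      rw [h6]
      have h7 : max (n - 3 + 1) (n - 2) = n - 2 := max_eq_right (by omega)
      rw [h7]
      omega
    omega
  have key : ∀ y : Inp, Supp (n - 2) y →
      (run (eval G' (pair (pair (P.enc n sg G') z) y)) (2 ^ (n - sg)) zeroMem [] = some true ↔
        B y) := by
    intro y hy
    rw [h4 _ (hsupp y hy)]
    obtain ⟨b, hb, hbB⟩ := hB (P.enc n sg G') y
    rw [run_mono hb _ hT, ← hbB]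
    simp
  constructor
  · intro h
    obtain ⟨y, hy, hr⟩ := P.complete hgood (fun _ => rfl) h
    exact ⟨y, (key y hy).1 hr⟩
  · rintro ⟨y, hy⟩
    rw [hBβ] at hy
    exact P.sound hgood (fun _ => rfl) ((key _ ((supp_trc β y).mono (by omega))).2 hy)

theorem three_mul_le_pow : ∀ k : ℕ, 7 ≤ k → 3 * (k + 1) + 16 ≤ 2 ^ k := by
  intro k hk
  induction k, hk using Nat.le_induction with
  | base => norm_num
  | succ k hk ih => rw [pow_succ]; omega

/-- **Reduction to the pivot.** -/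
theorem pivot_reduce' (P : PivotB) {T : Type} {π : Pres T} {B : T × Inp → Prop} {b u e : ℝ}
    {β : ℕ → ℕ} (hb : 1 ≤ b) (hs : Size π b) (hβ : Lin u β)
    (h : InCl (π.ext β) B e) :
    ∃ (n sg : ℕ → ℕ) (tab : ℕ → Inp), Lin (max b (max u e)) (fun L => n L + sg L) ∧
      (∀ L, L ≤ n L) ∧ SubExp (fun L => 2 ^ (3 * sg L + 10)) ∧
      SubExp (fun L => 3 * sg L + 10) ∧ (∀ L, Supp (3 * sg L + 10) (tab L)) ∧
      (∀ L, sg L ≤ n L) ∧
      ∃ L₀, ∀ τ, L₀ ≤ π.idx τ →
        (P.V (n (π.idx τ)) (sg (π.idx τ)) (pair (tab (π.idx τ)) (π.inp τ)) ↔ ∃ y, B (τ, y)) := by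
  obtain ⟨βz, hβz, hsupp⟩ := hs
  obtain ⟨G, s, t, L₀, hs0, ht, hs3, hG, hrun⟩ := h.sz3
  -- the wrapper
  have hloc : LocF (fun L w => pair (fun a => w ([false, true] ++ a))
      (trc (β L) fun a => w ([true] ++ a))) :=
    LocF.pair (LocF.shift [false, true] LocF.id) (LocF.trc (LocF.shift [true] LocF.id) β)
  obtain ⟨t1, ht1, hloc1⟩ := hloc s hs0
  choose G1 hG1 hG1run using fun L => exists_virt_run (hG L) (hs3 L) (hloc1 L) le_rfl
  obtain ⟨s1, hs1⟩ : ∃ s1 : ℕ → ℕ, s1 = fun L => s L * (t1 L + 1) + 2 * s L + t1 L := ⟨_, rfl⟩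
  have hs1sub : SubExp s1 := by
    rw [hs1]
    exact ((hs0.mul (ht1.add (SubExp.const 1))).add ((SubExp.const 2).mul hs0)).add ht1
  have hs1three : ∀ L, 3 ≤ s1 L := by
    intro L
    have := hs3 L
    rw [hs1]
    show 3 ≤ s L * (t1 L + 1) + 2 * s L + t1 L
    omega
  have hG1' : ∀ L, Sz (s1 L) (G1 L) := by
    intro L
    rw [hs1]
    exact hG1 L
  -- parameters
  obtain ⟨e', he'⟩ : ∃ e' : ℝ, e' = max e 0 := ⟨_, rfl⟩
  have he0 : 0 ≤ e' := by rw [he']; exact le_max_right _ _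
  have ht' : ExpLe e' t := ht.mono (by rw [he']; exact le_max_left _ _)
  obtain ⟨M, hM⟩ : ∃ M : ℕ → ℕ, M = fun L => max L (max (βz L) (max (β L) (Nat.clog 2 (t L)))) :=
    ⟨_, rfl⟩
  have hMlin : Lin (max b (max u e')) M := by
    have h1 := (lin_id hb).max (hβz.max (hβ.max (lin_clog he0 ht')))
    rw [hM]
    refine h1.mono ?_
    simp
  have hE0 : 0 ≤ max b (max u e') := by
    have := le_max_left b (max u e')
    linarith
  have hE : max b (max u e') = max b (max u e) := by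
    rw [he']
    rcases le_total e 0 with h1 | h1
    · rw [max_eq_right h1]
      rcases le_total u 0 with h2 | h2
      · rw [max_eq_right h2, max_eq_left (by linarith), max_eq_left (max_le (by linarith)
          (by linarith))]
      · rw [max_eq_left h2, max_eq_left (h1.trans h2)]
    · rw [max_eq_left h1]
  obtain ⟨f, hf⟩ : ∃ f : ℕ → ℕ, f = fun L => 2 * (M L + 4 * s1 L) + 200 := ⟨_, rfl⟩
  have hfsub : SubExp f := by
    rw [hf]
    exact ((SubExp.const 2).mul (hMlin.subExp.add ((SubExp.const 4).mul hs1sub))).add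
      (SubExp.const 200)
  obtain ⟨sg, hsg⟩ : ∃ sg : ℕ → ℕ, sg = fun L => Nat.clog 2 (f L) := ⟨_, rfl⟩
  have hsglin : Lin 0 sg := by
    rw [hsg]
    exact lin_clog le_rfl (subExp_iff.1 hfsub)
  have hsgpow : ∀ L, f L ≤ 2 ^ sg L := by
    intro L
    rw [hsg]
    exact Nat.le_pow_clog (by norm_num) _
  have hsg8 : ∀ L, 8 ≤ sg L := by
    intro L
    by_contra h1
    have h2 : 2 ^ sg L ≤ 2 ^ 7 := Nat.pow_le_pow_right (by norm_num) (by omega)
    have h3 := hsgpow L
    have h4 : 200 ≤ f L := by rw [hf]; exact Nat.le_add_left _ _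
    omega
  obtain ⟨n, hn⟩ : ∃ n : ℕ → ℕ, n = fun L => M L + 3 * sg L + 13 := ⟨_, rfl⟩
  have hbig : ∀ L, M L + 4 * s1 L + 100 + (3 * sg L + 16) ≤ 2 ^ sg L := by
    intro L
    obtain ⟨k, hk⟩ : ∃ k, sg L = k + 1 := ⟨sg L - 1, by have := hsg8 L; omega⟩
    have h1 := three_mul_le_pow k (by have := hsg8 L; omega)
    have h2 := hsgpow L
    have h3 : f L = 2 * (M L + 4 * s1 L) + 200 := by rw [hf]
    rw [hk] at h2 ⊢
    rw [pow_succ] at h2 ⊢
    omega
  -- the tables
  have hT : ∀ L, t L ≤ 2 ^ (n L - sg L) := by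
    intro L
    have h1 : t L ≤ 2 ^ Nat.clog 2 (t L) := Nat.le_pow_clog (by norm_num) _
    refine h1.trans (Nat.pow_le_pow_right (by norm_num) ?_)
    have h2 : Nat.clog 2 (t L) ≤ M L := by
      rw [hM]
      exact (le_max_right _ _).trans ((le_max_right _ _).trans (le_max_right _ _))
    rw [hn]
    show _ ≤ M L + 3 * sg L + 13 - sg L
    omega
  have hMβ : ∀ L, β L ≤ M L := by
    intro L
    rw [hM]
    exact (le_max_left _ _).trans ((le_max_right _ _).trans (le_max_right _ _))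
  have hMβz : ∀ L, βz L ≤ M L := by
    intro L
    rw [hM]
    exact (le_max_left _ _).trans (le_max_right _ _)
  have hML : ∀ L, L ≤ M L := by
    intro L
    rw [hM]
    exact le_max_left _ _
  have hnL : ∀ L, n L = M L + 3 * sg L + 13 := by intro L; rw [hn]
  have hlev := fun L => slow_level P (n := n L) (sg := sg L) (s := s1 L) (T := t L) (β := β L)
    (G := G1 L) (by have := hbig L; omega) (by have := hbig L; have := hnL L; omega)
    (by have := hsg8 L; omega) (hs1three L) (hG1' L)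
    (by have := hnL L; have := hMβ L; omega) (by have := hnL L; omega) (hT L)
  choose tab htab hV using hlev
  -- the pivot
  have hnsg : Lin (max b (max u e')) (fun L => n L + sg L) := by
    have h1 := (hMlin.add (hsglin.const_mul 4)).add (Lin.const 0 le_rfl 13)
    simp only [add_zero] at h1
    refine h1.mono' fun L => ?_
    rw [hnL]
    show _ ≤ M L + 4 * sg L + 13
    omega
  have hntop : ∀ L, L ≤ n L := by
    intro L
    rw [hnL]
    have := hML L
    omega
  rw [← hE]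
  refine ⟨n, sg, tab, hnsg, hntop, ?_, ?_, htab, ?_, L₀, fun τ hL0 => ?_⟩
  · have h2sg : SubExp (fun L => 2 ^ sg L) := by
      refine ((SubExp.const 2).mul hfsub).mono' (Eventually.of_forall fun L => ?_)
      rw [hsg]
      exact two_pow_clog_le (by rw [hf]; show 1 ≤ 2 * (M L + 4 * s1 L) + 200; omega)
    have h1 := (h2sg.pow 3).mul (SubExp.const (2 ^ 10))
    refine h1.mono' (Eventually.of_forall fun L => ?_)
    rw [pow_add, mul_comm 3 (sg L), pow_mul]
  · exact ((SubExp.const 3).mul hsglin.subExp).add (SubExp.const 10)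
  · intro L
    have := hnL L
    omega
  · have hBrun : ∀ y : Inp, ∃ b', run (eval (G (π.idx τ)) (pair (π.inp τ) (trc (β (π.idx τ)) y)))
        (t (π.idx τ)) zeroMem [] = some b' ∧ (b' = true ↔ B (τ, y)) := fun y => hrun (τ, y) hL0
    have htrc : ∀ y : Inp, trc (β (π.idx τ)) (trc (β (π.idx τ)) y) = trc (β (π.idx τ)) y := by
      intro y
      funext a
      simp only [trc]
      split_ifs <;> rfl
    refine hV (π.idx τ) (π.inp τ) (fun y => B (τ, y)) ?_ ?_ ?_
    · refine (hsupp τ).mono ?_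
      have := hMβz (π.idx τ)
      have := hnL (π.idx τ)
      omega
    · intro tb y
      obtain ⟨b', hb', hbB⟩ := hBrun y
      exact ⟨b', hG1run _ _ _ _ hb', hbB⟩
    · intro y
      obtain ⟨b1, hb1, hbB1⟩ := hBrun y
      obtain ⟨b2, hb2, hbB2⟩ := hBrun (trc (β (π.idx τ)) y)
      rw [htrc, hb1] at hb2
      have : b1 = b2 := by simpa using hb2
      subst this
      exact hbB1.symm.trans hbB2

theorem pivot_reduce (P : PivotB) {T : Type} {π : Pres T} {B : T × Inp → Prop} {b u e : ℝ}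
    {β : ℕ → ℕ} (hb : 1 ≤ b) (hs : Size π b) (hβ : Lin u β)
    (h : InCl (π.ext β) B e) :
    ∃ (n sg : ℕ → ℕ) (tab : ℕ → Inp), Lin (max b (max u e)) (fun L => n L + sg L) ∧
      Tendsto n atTop atTop ∧ SubExp (fun L => 2 ^ (3 * sg L + 10)) ∧
      SubExp (fun L => 3 * sg L + 10) ∧ (∀ L, Supp (3 * sg L + 10) (tab L)) ∧
      (∀ L, sg L ≤ n L) ∧
      ∃ L₀, ∀ τ, L₀ ≤ π.idx τ →
        (P.V (n (π.idx τ)) (sg (π.idx τ)) (pair (tab (π.idx τ)) (π.inp τ)) ↔ ∃ y, B (τ, y)) := by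
  obtain ⟨n, sg, tab, h1, h2, h3⟩ := pivot_reduce' P hb hs hβ h
  exact ⟨n, sg, tab, h1, tendsto_atTop_mono h2 tendsto_id, h3⟩

theorem locF_tab {sg : ℕ → ℕ} {tab : ℕ → Inp} (h2w : SubExp (fun L => 2 ^ (3 * sg L + 10)))
    (hw : SubExp (fun L => 3 * sg L + 10)) (htab : ∀ L, Supp (3 * sg L + 10) (tab L)) :
    LocF (fun L z => pair (tab L) z) := by
  intro s hs
  refine ⟨_, ?_, fun L => loc_tab (s L) (3 * sg L + 10) (tab L) (htab L)⟩
  exact (((h2w.mul ((hw.mul (SubExp.const 200)).add (SubExp.const 400))).add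
    (SubExp.const 100)).add (hs.add (SubExp.const 1))).add (SubExp.const 40)

/-- **Slow-down.** -/
theorem slowE {c : ℝ} (P : Pivot c) {T : Type} {π : Pres T} {B : T × Inp → Prop} {b u e : ℝ}
    {β : ℕ → ℕ} (hb : 1 ≤ b) (hs : Size π b) (hβ : Lin u β)
    (h : InCl (π.ext β) B e) : InCl π (fun τ => ∃ y, B (τ, y)) (c * max b (max u e)) := by
  obtain ⟨n, sg, tab, hnsg, hntop, h2w, hw, htab, hle, L₀, hV⟩ :=
    pivot_reduce P.toPivotB hb hs hβ h
  have hE0 : 0 ≤ max b (max u e) := le_trans (by linarith) (le_max_left _ _)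
  obtain ⟨GV, sV, tV, L₁, hsV, htV, hGV, hGVrun⟩ := P.dec n sg _ hE0 hnsg hntop hle
  have hsV' : SubExp (fun L => sV L + 3) := (ex_zero_iff.1 hsV).add (SubExp.const 3)
  obtain ⟨t, ht, hloc⟩ := locF_tab h2w hw htab (fun L => sV L + 3) hsV'
  choose G3 hG3 hG3run using fun L => exists_virt_run ((hGV L).mono (Nat.le_add_right (sV L) 3))
    (Nat.le_add_left _ _) (hloc L) le_rfl
  refine ⟨G3, _, tV, max L₀ L₁, ?_, htV, hG3, fun τ hτ => ?_⟩
  · exact ex_zero_iff.2 (((hsV'.mul (ht.add (SubExp.const 1))).add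
      ((SubExp.const 2).mul hsV')).add ht)
  · obtain ⟨βz, -, hsupp⟩ := hs
    obtain ⟨r, hr, hrV⟩ := hGVrun (π.idx τ) (le_trans (le_max_right _ _) hτ) _
      (pair (tab (π.idx τ)) (π.inp τ)) ((htab (π.idx τ)).pair (hsupp τ))
    exact ⟨r, hG3run _ _ _ _ hr, hrV.trans (hV τ (le_trans (le_max_left _ _) hτ))⟩

end Pool.Agent.NUM
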