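import Pool.Agent.NUM.HLevel
import Pool.Agent.NUM.SlowE

/-!
# History programs: slow-down
-/

set_option autoImplicit false

namespace Pool.Agent.NUM

open Filter

/-- **Reduction to the pivot.** -/
theorem hpivot_reduce (P : PivotHB) {T : Type} {π : Pres T} {B : T × Inp → Prop} {b u e : ℝ}
    {β : ℕ → ℕ} (hb : 1 ≤ b) (hs : Size π b) (hβ : Lin u β)
    (h : InH (π.ext β) B e) :
    ∃ (n sg : ℕ → ℕ) (tab : ℕ → Inp), Lin (max b (max u e)) (fun L => n L + sg L) ∧
      (∀ L, L ≤ n L) ∧ SubExp (fun L => 2 ^ (3 * sg L + 10)) ∧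
      SubExp (fun L => 3 * sg L + 10) ∧ (∀ L, Supp (3 * sg L + 10) (tab L)) ∧
      (∀ L, sg L ≤ n L) ∧
      ∃ L₀, ∀ τ, L₀ ≤ π.idx τ →
        (P.V (n (π.idx τ)) (sg (π.idx τ)) (pair (tab (π.idx τ)) (π.inp τ)) ↔ ∃ y, B (τ, y)) := by
  obtain ⟨βz, hβz, hsupp⟩ := hs
  obtain ⟨G, s, t, dd, L₀, hs0, ht, hs3, hG, hrun⟩ := InG.sz3 h
  -- the wrapper
  have hloc : LocF (fun L w => pair (fun a => w ([false, true] ++ a))
      (trc (β L) fun a => w ([true] ++ a))) :=
    LocF.pair (LocF.shift [false, true] LocF.id) (LocF.trc (LocF.shift [true] LocF.id) β)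
  obtain ⟨t1, ht1, hloc1⟩ := hloc s hs0
  choose G1 hG1 hG1run using fun L => exists_virt_hist (hG L) (hs3 L) (hloc1 L) le_rfl
  obtain ⟨s1, hs1⟩ : ∃ s1 : ℕ → ℕ, s1 = fun L => s L * (t1 L + 1) + 2 * s L + t1 L := ⟨_, rfl⟩
  have hs1sub : SubExp s1 := by
    rw [hs1]
    exact ((hs0.mul (ht1.add (SubExp.const 1))).add ((SubExp.const 2).mul hs0)).add ht1
  have hs1three : ∀ L, 3 ≤ s1 L := by
    intro L
    have := hs3 L
    rw [hs1]
    show 3 ≤ s L * (t1 L + 1) + 2 * s L + t1 L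
    omega
  have hG1' : ∀ L, HSz (s1 L) (dd L) (G1 L) := by
    intro L
    rw [hs1]
    exact hG1 L
  -- parameters
  obtain ⟨e', he'⟩ : ∃ e' : ℝ, e' = max e 0 := ⟨_, rfl⟩
  have he0 : 0 ≤ e' := by rw [he']; exact le_max_right _ _
  have ht' : ExpLe e' t := ht.mono (by rw [he']; exact le_max_left _ _)
  obtain ⟨M, hM⟩ : ∃ M : ℕ → ℕ, M = fun L => max L (max (βz L) (max (β L) (Nat.clog 2 (t L)))) :=
    ⟨_, rfl⟩
  have hMlin : Lin (max b (max u e')) M := by
    have h1 := (lin_id hb).max (hβz.max (hβ.max (lin_clog he0 ht')))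
    rw [hM]
    refine h1.mono ?_
    simp
  have hE0 : 0 ≤ max b (max u e') := by
    have := le_max_left b (max u e')
    linarith
  have hE : max b (max u e') = max b (max u e) := by
    rw [he']
    rcases le_total e 0 with h1 | h1
    · rw [max_eq_right h1]
      rcases le_total u 0 with h2 | h2
      · rw [max_eq_right h2, max_eq_left (by linarith), max_eq_left (max_le (by linarith)
          (by linarith))]
      · rw [max_eq_left h2, max_eq_left (h1.trans h2)]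
    · rw [max_eq_left h1]
  obtain ⟨X, hX⟩ : ∃ X : ℕ → ℕ, X = fun L => s1 L + M L + 100 := ⟨_, rfl⟩
  have hXL : ∀ L, X L = s1 L + M L + 100 := by intro L; rw [hX]
  have hXsub : SubExp X := by
    rw [hX]
    exact (hs1sub.add hMlin.subExp).add (SubExp.const 100)
  obtain ⟨j, hj⟩ : ∃ j : ℕ → ℕ, j = fun L => Nat.clog 2 (X L) := ⟨_, rfl⟩
  have hjlin : Lin 0 j := by
    rw [hj]
    exact lin_clog le_rfl (subExp_iff.1 hXsub)
  have hjX : ∀ L, X L ≤ 2 ^ j L := by
    intro L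
    rw [hj]
    exact Nat.le_pow_clog (by norm_num) _
  have hj2X : ∀ L, 2 ^ j L ≤ 2 * X L := by
    intro L
    rw [hj]
    exact two_pow_clog_le (by rw [hXL]; omega)
  obtain ⟨sg, hsg⟩ : ∃ sg : ℕ → ℕ, sg = fun L => 9 * j L + 60 := ⟨_, rfl⟩
  have hsgL : ∀ L, sg L = 9 * j L + 60 := by intro L; rw [hsg]
  have hsglin : Lin 0 sg := by
    rw [hsg]
    have := (hjlin.const_mul 9).add (Lin.const 0 le_rfl 60)
    simpa using this
  have hsg8 : ∀ L, 8 ≤ sg L := by intro L; rw [hsgL]; omega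
  obtain ⟨n, hn⟩ : ∃ n : ℕ → ℕ, n = fun L => M L + 3 * sg L + 14 := ⟨_, rfl⟩
  have hsgpow : ∀ L, 2 ^ sg L = 2 ^ 60 * (2 ^ j L) ^ 9 := by
    intro L
    rw [hsgL, pow_add, mul_comm 9 (j L), pow_mul, mul_comm]
  have hbig : ∀ L, hlvSz (s1 L) (M L + 2 * sg L + 14) < 2 ^ sg L ∧
      4 * (M L + 3 * sg L + 14) + 8 ≤ 2 ^ sg L := by
    intro L
    have h1 := hXL L
    have h2 := hjX L
    have h3 : j L < 2 ^ j L := Nat.lt_two_pow_self
    obtain ⟨Y, hY⟩ : ∃ Y, Y = 2 ^ j L := ⟨_, rfl⟩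
    rw [hsgpow, ← hY]
    rw [← hY] at h2 h3
    have h4 := hsgL L
    have hY1 : 100 ≤ Y := by omega
    have h5 : s1 L + (M L + 2 * sg L + 14) + 10 ≤ 21 * Y := by omega
    have h6 : (s1 L + (M L + 2 * sg L + 14) + 10) ^ 8 ≤ (21 * Y) ^ 8 := Nat.pow_le_pow_left h5 8
    have h7 : (21 * Y) ^ 8 = 37822859361 * Y ^ 8 := by
      rw [mul_pow]
      norm_num
    have h8 : Y ^ 8 ≤ Y ^ 9 := Nat.pow_le_pow_right (by omega) (by norm_num)
    have h9 : Y ≤ Y ^ 9 := by
      calc Y = Y ^ 1 := (pow_one Y).symm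
        _ ≤ Y ^ 9 := Nat.pow_le_pow_right (by omega) (by norm_num)
    have h10 : (2 : ℕ) ^ 60 = 1152921504606846976 := by norm_num
    unfold hlvSz normSz
    constructor
    · omega
    · omega
  -- the tables
  have hT : ∀ L, t L ≤ 2 ^ (n L - sg L) := by
    intro L
    have h1 : t L ≤ 2 ^ Nat.clog 2 (t L) := Nat.le_pow_clog (by norm_num) _
    refine h1.trans (Nat.pow_le_pow_right (by norm_num) ?_)
    have h2 : Nat.clog 2 (t L) ≤ M L := by
      rw [hM]
      exact (le_max_right _ _).trans ((le_max_right _ _).trans (le_max_right _ _))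
    rw [hn]
    show _ ≤ M L + 3 * sg L + 14 - sg L
    omega
  have hMβ : ∀ L, β L ≤ M L := by
    intro L
    rw [hM]
    exact (le_max_left _ _).trans ((le_max_right _ _).trans (le_max_right _ _))
  have hMβz : ∀ L, βz L ≤ M L := by
    intro L
    rw [hM]
    exact (le_max_left _ _).trans (le_max_right _ _)
  have hML : ∀ L, L ≤ M L := by
    intro L
    rw [hM]
    exact le_max_left _ _
  have hnL : ∀ L, n L = M L + 3 * sg L + 14 := by intro L; rw [hn]
  have hlev := fun L => hlevel P (n := n L) (sg := sg L) (s := s1 L) (T := t L)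
    (d := dd L) (G := G1 L) (hG1' L) (hs1three L)
    (by
      have h1 : n L - sg L = M L + 2 * sg L + 14 := by have := hnL L; omega
      rw [h1]
      exact (hbig L).1) (by rw [hnL]; exact (hbig L).2) (by have := hsg8 L; omega)
    (by have := hnL L; omega) (hT L) (by have := hnL L; omega)
  choose tab htab hV using hlev
  -- the pivot
  have hnsg : Lin (max b (max u e')) (fun L => n L + sg L) := by
    have h1 := (hMlin.add (hsglin.const_mul 4)).add (Lin.const 0 le_rfl 14)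
    simp only [add_zero] at h1
    refine h1.mono' fun L => ?_
    rw [hnL]
    show _ ≤ M L + 4 * sg L + 14
    omega
  have hntop : ∀ L, L ≤ n L := by
    intro L
    rw [hnL]
    have := hML L
    omega
  rw [← hE]
  refine ⟨n, sg, tab, hnsg, hntop, ?_, ?_, htab, ?_, L₀, fun τ hL0 => ?_⟩
  · have h1 : SubExp (fun L => 2 ^ 190 * (2 * X L) ^ 27) :=
      (SubExp.const _).mul (((SubExp.const 2).mul hXsub).pow 27)
    refine h1.mono' (Eventually.of_forall fun L => ?_)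
    have e1 : 3 * sg L + 10 = 190 + j L * 27 := by rw [hsgL]; omega
    rw [e1, pow_add, pow_mul]
    exact Nat.mul_le_mul_left _ (Nat.pow_le_pow_left (hj2X L) 27)
  · exact ((SubExp.const 3).mul hsglin.subExp).add (SubExp.const 10)
  · intro L
    have := hnL L
    omega
  · obtain ⟨L, hLdef⟩ : ∃ L, L = π.idx τ := ⟨_, rfl⟩
    have hBrun : ∀ y : Inp, ∃ b', HAns (eval (G (π.idx τ)) (pair (π.inp τ) (trc (β (π.idx τ)) y)))
        (dd (π.idx τ)) (t (π.idx τ)) b' ∧ (b' = true ↔ B (τ, y)) := fun y => (hrun (τ, y) hL0).1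
    have htrc : ∀ y : Inp, trc (β (π.idx τ)) (trc (β (π.idx τ)) y) = trc (β (π.idx τ)) y := by
      intro y
      funext a
      simp only [trc]
      split_ifs <;> rfl
    refine hV (π.idx τ) (pair (tab (π.idx τ)) (π.inp τ)) (fun y => B (τ, y)) (β (π.idx τ)) ?_ ?_
      (fun a => rfl) ?_ ?_
    · have := hMβ (π.idx τ)
      have := hnL (π.idx τ)
      omega
    · refine ((htab (π.idx τ)).pair (hsupp τ)).mono ?_
      have h1 := hMβz (π.idx τ)
      have h2 := hnL (π.idx τ)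
      rcases le_total (3 * sg (π.idx τ) + 10) (βz (π.idx τ)) with h3 | h3
      · rw [max_eq_right h3]; omega
      · rw [max_eq_left h3]; omega
    · intro y
      obtain ⟨b', hb', hbB⟩ := hBrun y
      exact ⟨b', (hG1run _ _).1 _ _ hb', hbB⟩
    · intro y
      obtain ⟨b1, hb1, hbB1⟩ := hBrun y
      obtain ⟨b2, hb2, hbB2⟩ := hBrun (trc (β (π.idx τ)) y)
      rw [htrc] at hb2
      have : b1 = b2 := hcl_det hb1 hb2
      subst this
      exact hbB1.symm.trans hbB2

/-- **Slow-down** for history programs: the new program is the 3SAT program on a virtual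
instance. -/
theorem hslow {Qs : ℕ → ℕ → (ℕ → ℕ) → Prop} {c : ℝ} (P : PivotH Qs c) {T : Type} {π : Pres T}
    {B : T × Inp → Prop} {b u e : ℝ} {β : ℕ → ℕ} (hb : 1 ≤ b) (hs : Size π b) (hβ : Lin u β)
    (h : InH (π.ext β) B e) : InV Qs c π (fun τ => ∃ y, B (τ, y)) (max b (max u e)) := by
  obtain ⟨n, sg, tab, hnsg, hntop, h2w, hw, htab, hle, L₀, hV⟩ :=
    hpivot_reduce P.toPivotHB hb hs hβ h
  have hE0 : 0 ≤ max b (max u e) := le_trans (by linarith) (le_max_left _ _)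
  obtain ⟨GV, sV, tV, dV, m, L₁, hsV, htV, hm, hm', hGV, hGVrun⟩ := P.dec n sg _ hE0 hnsg
    (tendsto_atTop_mono hntop tendsto_id) hle
  have hsV' : SubExp (fun L => sV L + 3) := (ex_zero_iff.1 hsV).add (SubExp.const 3)
  obtain ⟨t, ht, hloc⟩ := locF_tab h2w hw htab (fun L => sV L + 3) hsV'
  choose G3 hG3 hG3run using fun L => exists_virt_hist
    (show HSz (sV L + 3) (dV L) (GV L) from ⟨(hGV L).1.mono (Nat.le_add_right (sV L) 3),
      by have := (hGV L).2; omega⟩)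
    (Nat.le_add_left _ _) (hloc L) le_rfl
  refine ⟨m, hm, hm', G3, _, tV, dV, max L₀ L₁, ?_, htV, hG3, fun τ hτ => ?_⟩
  · exact ex_zero_iff.2 (((hsV'.mul (ht.add (SubExp.const 1))).add
      ((SubExp.const 2).mul hsV')).add ht)
  · obtain ⟨h1, h2, h3⟩ := hG3run (π.idx τ) (π.inp τ)
    obtain ⟨⟨r, hr, hrV⟩, hQ⟩ := hGVrun (π.idx τ) (le_trans (le_max_right _ _) hτ)
      (pair (tab (π.idx τ)) (π.inp τ))
    refine ⟨⟨r, h1 _ _ hr, hrV.trans (hV τ (le_trans (le_max_left _ _) hτ))⟩, fun _ N hN => ?_⟩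
    rw [h3]
    exact hQ N (h2 N hN)

end Pool.Agent.NUM
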