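import Pool.Agent.NUM.HPivotSat
import Pool.Agent.NUM.HDiag
import Pool.Agent.NUM.HSlow

/-!
# The pivot for history programs relative to a set of indices (window version)
-/

set_option autoImplicit false

namespace Pool.Agent.NUM

open Filter

/-- the pivot; the decider exists for the indices in `S` only; `Qs L m` is the property of the
computations of the 3SAT program of order `m` in the window of `L` -/
structure PivotHW (S : Set ℕ) (Qs : ℕ → ℕ → ℕ → (ℕ → ℕ) → Prop) (c : ℝ) extends PivotHB where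
  dec : ∀ (n sg : ℕ → ℕ) (E : ℝ), 0 ≤ E → Lin E (fun L => n L + sg L) →
    (∀ L, L ≤ 2 * n L) → (∀ L, sg L ≤ n L) →
    ∃ (G : ℕ → List Ins) (s t d m : ℕ → ℕ) (L₀ : ℕ), Ex 0 s ∧ Ex (c * E) t ∧ Lin E m ∧
      Filter.Tendsto m Filter.atTop Filter.atTop ∧ (∀ L, HSz (s L) (d L) (G L)) ∧
      ∀ L, L ∈ S → L₀ ≤ L → ∀ z : Inp,
        (∃ b, HAns (eval (G L) z) (d L) (t L) b ∧ (b = true ↔ V (n L) (sg L) z)) ∧
        ∀ N, HaltsAt (eval (G L) z) (d L) N → Qs L (m L) N (rcl (eval (G L) z) (d L))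

/-- `P` is decided by the 3SAT program on virtual instances of order `m L`, `m L ≤ (E + o(1)) L` -/
def InVW (Qs : ℕ → ℕ → ℕ → (ℕ → ℕ) → Prop) (c : ℝ) {T : Type} (π : Pres T) (P : T → Prop)
    (E : ℝ) : Prop :=
  ∃ m : ℕ → ℕ, Lin E m ∧ Filter.Tendsto m Filter.atTop Filter.atTop ∧
    InG (fun L => Qs L (m L)) π P (c * E) fun _ => True

theorem InVW.compl {Qs : ℕ → ℕ → ℕ → (ℕ → ℕ) → Prop} (hQ : ∀ L, QLoc (Qs L)) {c E : ℝ} {T : Type}
    {π : Pres T} {P : T → Prop} (h : InVW Qs c π P E) : InVW Qs c π (fun τ => ¬ P τ) E := by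
  obtain ⟨m, hm, hm', h⟩ := h
  exact ⟨m, hm, hm', h.compl fun L N rc rc' h1 h2 => hQ L (m L) N rc rc' h1 h2⟩

/-- **Slow-down** for history programs: the new program is the 3SAT program on a virtual
instance. -/
theorem hslowW {S : Set ℕ} {Qs : ℕ → ℕ → ℕ → (ℕ → ℕ) → Prop} {c : ℝ} (P : PivotHW S Qs c)
    {T : Type} {π : Pres T} (hπ : ∀ τ, π.idx τ ∈ S)
    {B : T × Inp → Prop} {b u e : ℝ} {β : ℕ → ℕ} (hb : 1 ≤ b) (hs : Size π b) (hβ : Lin u β)
    (h : InH (π.ext β) B e) : InVW Qs c π (fun τ => ∃ y, B (τ, y)) (max b (max u e)) := by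
  obtain ⟨n, sg, tab, hnsg, hntop, h2w, hw, htab, hle, L₀, hV⟩ :=
    hpivot_reduce P.toPivotHB hb hs hβ h
  have hE0 : 0 ≤ max b (max u e) := le_trans (by linarith) (le_max_left _ _)
  obtain ⟨GV, sV, tV, dV, m, L₁, hsV, htV, hm, hm', hGV, hGVrun⟩ := P.dec n sg _ hE0 hnsg
    (fun L => by have := hntop L; omega) hle
  have hsV' : SubExp (fun L => sV L + 3) := (ex_zero_iff.1 hsV).add (SubExp.const 3)
  obtain ⟨t, ht, hloc⟩ := locF_tab h2w hw htab (fun L => sV L + 3) hsV'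
  choose G3 hG3 hG3run using fun L => exists_virt_hist
    (show HSz (sV L + 3) (dV L) (GV L) from ⟨(hGV L).1.mono (Nat.le_add_right (sV L) 3),
      by have := (hGV L).2; omega⟩)
    (Nat.le_add_left _ _) (hloc L) le_rfl
  refine ⟨m, hm, hm', G3, _, tV, dV, max L₀ L₁, ?_, htV, hG3, fun τ hτ => ?_⟩
  · exact ex_zero_iff.2 (((hsV'.mul (ht.add (SubExp.const 1))).add
      ((SubExp.const 2).mul hsV')).add ht)
  · obtain ⟨h1, h2, h3⟩ := hG3run (π.idx τ) (π.inp τ)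
    obtain ⟨⟨r, hr, hrV⟩, hQ⟩ := hGVrun (π.idx τ) (hπ τ) (le_trans (le_max_right _ _) hτ)
      (pair (tab (π.idx τ)) (π.inp τ))
    refine ⟨⟨r, h1 _ _ hr, hrV.trans (hV τ (le_trans (le_max_left _ _) hτ))⟩, fun _ N hN => ?_⟩
    rw [h3]
    exact hQ N (h2 N hN)

/-- **Diagonal problems.** -/
theorem hdiagW {S : Set ℕ} (hS : S.Infinite) {Qs : ℕ → ℕ → ℕ → (ℕ → ℕ) → Prop}
    (hQ : ∀ L, QLoc (Qs L)) {c : ℝ} (P : PivotHW S Qs c) (a : ℕ)
    (u e : ℝ) (ha : 1 ≤ a) (hue : u ≤ e) (hea : e < a) :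
    ∃ (T : Type) (π : Pres T) (D : T → Prop), (∀ τ, π.idx τ ∈ S) ∧ Size π 1 ∧
      InVW Qs c π D a ∧ ¬ InEH u π D e := by
  obtain ⟨n, sg, h1, h2, h3, h4⟩ := hdiag_core P.toPivotHB hS a u e ha hue hea
  have ha0 : (0 : ℝ) ≤ a := Nat.cast_nonneg a
  obtain ⟨G, s, t, d, m, L₀, hs, ht, hm, hm', hG, hrun⟩ := P.dec n sg a ha0 h1 h2 h3
  have h5 : InVW Qs c (hdpres S)
      (fun p => P.V (n p.1) (sg p.1) (trc (p.1 : ℕ) p.2)) a := by
    refine ⟨m, hm, hm', G, s, t, d, L₀, hs, ht, hG, fun τ hτ => ?_⟩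
    obtain ⟨h6, h7⟩ := hrun τ.1 τ.1.2 hτ (trc (τ.1 : ℕ) τ.2)
    exact ⟨h6, fun _ => h7⟩
  exact ⟨_, hdpres S, fun p => ¬ P.V (n p.1) (sg p.1) (trc (p.1 : ℕ) p.2), fun τ => τ.1.2,
    size_hdpres _, h5.compl hQ, h4⟩

/-- in arbitrarily long windows of orders 3SAT has history programs of size `2 ^ (δ m)` with
`2 ^ ((c + δ) m)` passes whose computations have the property `Qd δ m` -/
def SatGW (Qd : ℝ → ℕ → ℕ → (ℕ → ℕ) → Prop) (c : ℝ) : Prop :=
  ∀ δ : ℝ, 0 < δ → ∀ A M₀ : ℕ, ∃ M : ℕ, M₀ ≤ M ∧ ∀ m : ℕ, M ≤ m → m ≤ A * M →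
    ∃ (G : List Ins) (d s T : ℕ), HSz s d G ∧
    (s : ℝ) ≤ 2 ^ (δ * m) ∧ (T : ℝ) ≤ 2 ^ ((c + δ) * m) ∧ ∀ z, Supp (S3.satLen m) z →
      (∃ b, HAns (eval G z) d T b ∧ (b = true ↔ S3.SAT m z)) ∧
      ∀ N, HaltsAt (eval G z) d N → Qd δ m N (rcl (eval G z) d)

/-- the programs exist in the window around `L` -/
def GoodW (Qd : ℝ → ℕ → ℕ → (ℕ → ℕ) → Prop) (c : ℝ) (k L : ℕ) : Prop :=
  ∀ m : ℕ, L ≤ (k + 1) * m → m ≤ (k + 1) * L → ∃ (G : List Ins) (d s T : ℕ), HSz s d G ∧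
    (s : ℝ) ≤ 2 ^ (1 / ((k : ℝ) + 1) * m) ∧ (T : ℝ) ≤ 2 ^ ((c + 1 / ((k : ℝ) + 1)) * m) ∧
    ∀ z, Supp (S3.satLen m) z →
      (∃ b, HAns (eval G z) d T b ∧ (b = true ↔ S3.SAT m z)) ∧
      ∀ N, HaltsAt (eval G z) d N → Qd (1 / ((k : ℝ) + 1)) m N (rcl (eval G z) d)

theorem exists_windowsH {Qd : ℝ → ℕ → ℕ → (ℕ → ℕ) → Prop} {c : ℝ} (H : SatGW Qd c) :
    ∃ ℓ : ℕ → ℕ, StrictMono ℓ ∧ ∀ k, GoodW Qd c k (ℓ k) := by
  apply Filter.extraction_forall_of_frequently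
  intro k
  rw [frequently_atTop]
  intro L₀
  obtain ⟨M, hM, h⟩ := H (1 / ((k : ℝ) + 1)) (by positivity) ((k + 1) * (k + 1)) L₀
  refine ⟨(k + 1) * M, ?_, fun m h1 h2 => h m ?_ ?_⟩
  · calc L₀ ≤ M := hM
      _ ≤ (k + 1) * M := Nat.le_mul_of_pos_left M (Nat.succ_pos k)
  · exact Nat.le_of_mul_le_mul_left h1 (Nat.succ_pos k)
  · rw [Nat.mul_assoc]
    exact h2

/-- **The pivot from history programs for 3SAT in long windows.** -/
theorem exists_pivotHW {Qd : ℝ → ℕ → ℕ → (ℕ → ℕ) → Prop} {c : ℝ} (hc : 0 ≤ c)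
    (H : SatGW Qd c) : ∃ (S : Set ℕ) (dl : ℕ → ℝ), S.Infinite ∧
      (∀ L, 0 ≤ dl L) ∧ (∀ δ : ℝ, 0 < δ → ∀ᶠ L in atTop, dl L ≤ δ) ∧
      Nonempty (PivotHW S (fun L => Qd (dl L)) c) := by
  classical
  obtain ⟨ℓ, hℓ, hgood⟩ := exists_windowsH H
  -- the number of the window
  obtain ⟨kk, hkk⟩ : ∃ kk : ℕ → ℕ, ∀ L, L ∈ Set.range ℓ → ℓ (kk L) = L := by
    refine ⟨fun L => if h : ∃ k, ℓ k = L then h.choose else 0, fun L hL => ?_⟩
    obtain ⟨k, hk⟩ := hL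
    have h : ∃ k, ℓ k = L := ⟨k, hk⟩
    simp only [h, dif_pos]
    exact h.choose_spec
  have hkkge : ∀ K L, L ∈ Set.range ℓ → ℓ K ≤ L → K ≤ kk L := by
    intro K L hL hK
    rw [← hkk L hL] at hK
    exact hℓ.le_iff_le.1 hK
  obtain ⟨dl, hdl⟩ : ∃ dl : ℕ → ℝ, dl = fun L => if L ∈ Set.range ℓ then 1 / ((kk L : ℝ) + 1)
    else 0 := ⟨_, rfl⟩
  have hdlS : ∀ L, L ∈ Set.range ℓ → dl L = 1 / ((kk L : ℝ) + 1) := by
    intro L hL
    rw [hdl]
    exact if_pos hL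
  have hdlN : ∀ L, L ∉ Set.range ℓ → dl L = 0 := by
    intro L hL
    rw [hdl]
    exact if_neg hL
  have hdl0 : ∀ L, 0 ≤ dl L := by
    intro L
    by_cases hL : L ∈ Set.range ℓ
    · rw [hdlS L hL]; positivity
    · rw [hdlN L hL]
  have hkt : ∀ δ : ℝ, 0 < δ → ∀ᶠ L in atTop, dl L ≤ δ := by
    intro δ hδ
    obtain ⟨N, hN⟩ := exists_nat_ge (1 / δ)
    filter_upwards [eventually_ge_atTop (ℓ N)] with L hL
    by_cases hLS : L ∈ Set.range ℓ
    · rw [hdlS L hLS]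
      have h1 : N ≤ kk L := hkkge N L hLS hL
      have h2 : (N : ℝ) ≤ kk L := by exact_mod_cast h1
      rw [div_le_iff₀ (by positivity)]
      rw [div_le_iff₀ hδ] at hN
      nlinarith
    · rw [hdlN L hLS]
      exact hδ.le
  refine ⟨Set.range ℓ, dl, Set.infinite_range_of_injective hℓ.injective, hdl0, hkt,
    ⟨⟨pivotHB_sat, ?_⟩⟩⟩
  intro n sg E hE hlin hn hle
  -- the sizes of the instances
  obtain ⟨m, hm⟩ : ∃ m : ℕ → ℕ, m = fun L => S3.Vm (n L) (sg L) := ⟨_, rfl⟩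
  have hmL : ∀ L, m L = S3.Vm (n L) (sg L) := fun L => by rw [hm]
  have hnlin : Lin E n := hlin.mono' fun L => Nat.le_add_right _ _
  have hsglin : Lin E sg := hlin.mono' fun L => Nat.le_add_left _ _
  have hmlin : Lin E m := by
    have h1 := (hlin.add hnlin.size_linear).add (Lin.const 0 le_rfl 9)
    simp only [add_zero] at h1
    rw [hm]
    exact h1.mono' fun L => S3.Vm_le _ _
  have hnm : ∀ L, n L ≤ m L := by
    intro L
    rw [hmL]
    show n L ≤ S3.mm _ _ _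
    unfold S3.mm
    omega
  have hmtop : Tendsto m atTop atTop := by
    rw [tendsto_atTop_atTop]
    intro b
    exact ⟨2 * b, fun L hL => by have := hn L; have := hnm L; omega⟩
  -- programs
  obtain ⟨L₁, hL₁⟩ := hmlin 1 one_pos
  obtain ⟨K, hK⟩ := exists_nat_ge (E + 1)
  have hex : ∀ L, ∃ (G : List Ins) (d s T : ℕ), HSz s d G ∧
      (L ∈ Set.range ℓ → (s : ℝ) ≤ 2 ^ (dl L * m L) ∨ s ≤ 1) ∧
      (L ∈ Set.range ℓ → (T : ℝ) ≤ 2 ^ ((c + dl L) * m L)) ∧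
      (L ∉ Set.range ℓ → s ≤ 1 ∧ T = 0) ∧
      (L ∈ Set.range ℓ → max L₁ (ℓ (K + 1)) ≤ L → ∀ z, Supp (S3.satLen (m L)) z →
        (∃ b, HAns (eval G z) d T b ∧ (b = true ↔ S3.SAT (m L) z)) ∧
        ∀ N, HaltsAt (eval G z) d N → Qd (dl L) (m L) N (rcl (eval G z) d)) := by
    intro L
    have hnil : HSz 1 0 ([] : List Ins) := ⟨⟨by simp, by simp⟩, by omega⟩
    by_cases hL : L ∈ Set.range ℓ
    · by_cases hL' : max L₁ (ℓ (K + 1)) ≤ L
      · have h1 := hL₁ L (le_trans (le_max_left _ _) hL')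
        have h2 : K + 1 ≤ kk L := hkkge _ L hL (le_trans (le_max_right _ _) hL')
        have h3 : GoodW Qd c (kk L) L := by
          have := hgood (kk L)
          rwa [hkk L hL] at this
        have h4 : m L ≤ (kk L + 1) * L := by
          have h5 : (m L : ℝ) ≤ ((kk L + 1 : ℕ) : ℝ) * L := by
            refine h1.trans (mul_le_mul_of_nonneg_right ?_ (Nat.cast_nonneg _))
            have h6 : (K : ℝ) ≤ ((kk L + 1 : ℕ) : ℝ) := by exact_mod_cast (by omega : K ≤ kk L + 1)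
            linarith
          exact_mod_cast h5
        have h5 : L ≤ (kk L + 1) * m L := by
          calc L ≤ 2 * n L := hn L
            _ ≤ 2 * m L := Nat.mul_le_mul_left 2 (hnm L)
            _ ≤ (kk L + 1) * m L := Nat.mul_le_mul_right _ (by omega)
        obtain ⟨G, d, s, T, h6, h7, h8, h9⟩ := h3 (m L) h5 h4
        rw [hdlS L hL]
        exact ⟨G, d, s, T, h6, fun _ => Or.inl h7, fun _ => h8, fun h => absurd hL h,
          fun _ _ => h9⟩
      · refine ⟨[], 0, 1, 0, hnil, fun _ => Or.inr le_rfl, fun _ => ?_,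
          fun _ => ⟨le_rfl, rfl⟩, fun _ h => absurd h hL'⟩
        rw [Nat.cast_zero]; positivity
    · exact ⟨[], 0, 1, 0, hnil, fun h => absurd h hL, fun h => absurd h hL,
        fun _ => ⟨le_rfl, rfl⟩, fun h => absurd h hL⟩
  choose G d s T hG hs' hT' h0 hD using hex
  -- asymptotics
  have hmev : ∀ η : ℝ, 0 < η → ∀ᶠ L : ℕ in atTop, (m L : ℝ) ≤ (E + η) * L := fun η hη =>
    eventually_atTop.2 (hmlin η hη)
  have hs : SubExp s := by
    intro δ hδ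
    have hδ' : 0 < δ / (E + 1) := by positivity
    filter_upwards [hkt _ hδ', hmev 1 one_pos] with L h1 h2
    have hone : (1 : ℝ) ≤ 2 ^ (δ * (L : ℝ)) := Real.one_le_rpow (by norm_num) (by positivity)
    by_cases hL : L ∈ Set.range ℓ
    · rcases hs' L hL with h4 | h4
      · refine h4.trans (Real.rpow_le_rpow_of_exponent_le (by norm_num) ?_)
        have h3 : (0 : ℝ) ≤ m L := Nat.cast_nonneg _
        calc dl L * m L ≤ δ / (E + 1) * m L := mul_le_mul_of_nonneg_right h1 h3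
          _ ≤ δ / (E + 1) * ((E + 1) * L) := mul_le_mul_of_nonneg_left h2 hδ'.le
          _ = δ * L := by field_simp
      · have : (s L : ℝ) ≤ 1 := by exact_mod_cast h4
        linarith
    · have : (s L : ℝ) ≤ 1 := by exact_mod_cast (h0 L hL).1
      linarith
  have hT : ExpLe (c * E) T := by
    intro δ hδ
    obtain ⟨η, hη⟩ : ∃ η : ℝ, η = δ / (2 * (c + 1)) := ⟨_, rfl⟩
    have hη0 : 0 < η := by rw [hη]; positivity
    obtain ⟨θ, hθ⟩ : ∃ θ : ℝ, θ = δ / (2 * (E + 1)) := ⟨_, rfl⟩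
    have hθ0 : 0 < θ := by rw [hθ]; positivity
    filter_upwards [hkt θ hθ0, hmev (min η 1) (lt_min hη0 one_pos)] with L h1 h2
    by_cases hL : L ∈ Set.range ℓ
    · refine (hT' L hL).trans (Real.rpow_le_rpow_of_exponent_le (by norm_num) ?_)
      have h3 : (0 : ℝ) ≤ m L := Nat.cast_nonneg _
      have h4 : (0 : ℝ) ≤ L := Nat.cast_nonneg _
      have h5 : (m L : ℝ) ≤ (E + η) * L :=
        h2.trans (mul_le_mul_of_nonneg_right (by linarith [min_le_left η 1]) h4)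
      have h6 : (m L : ℝ) ≤ (E + 1) * L :=
        h2.trans (mul_le_mul_of_nonneg_right (by linarith [min_le_right η 1]) h4)
      have h7 : c * m L ≤ c * ((E + η) * L) := mul_le_mul_of_nonneg_left h5 hc
      have h8 : dl L * m L ≤ θ * ((E + 1) * L) :=
        mul_le_mul h1 h6 h3 hθ0.le
      have h9 : θ * ((E + 1) * L) = δ / 2 * L := by rw [hθ]; field_simp
      have h10 : c * η ≤ δ / 2 := by
        rw [hη]
        have : c * (δ / (2 * (c + 1))) = δ / 2 * (c / (c + 1)) := by field_simp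
        rw [this]
        have h11 : c / (c + 1) ≤ 1 := by
          rw [div_le_one (by linarith)]
          linarith
        calc δ / 2 * (c / (c + 1)) ≤ δ / 2 * 1 := mul_le_mul_of_nonneg_left h11 (by linarith)
          _ = δ / 2 := by ring
      calc (c + dl L) * m L = c * m L + dl L * m L := by ring
        _ ≤ c * ((E + η) * L) + δ / 2 * L := by rw [← h9]; exact add_le_add h7 h8
        _ = (c * E + δ / 2) * L + c * η * L := by ring
        _ ≤ (c * E + δ / 2) * L + δ / 2 * L := by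
            have := mul_le_mul_of_nonneg_right h10 h4
            linarith
        _ = (c * E + δ) * L := by ring
    · rw [(h0 L hL).2, Nat.cast_zero]
      positivity
  choose G' hG' hD' using fun L => show ∃ G' : List Ins,
    HSz ((s L + 3) * (S3.VS (n L) (sg L) + 3) * 4) (d L) G' ∧
    (L ∈ Set.range ℓ → max L₁ (ℓ (K + 1)) ≤ L → ∀ z : Inp,
      (∃ b, HAns (eval G' z) (d L) (T L) b ∧ (b = true ↔ S3.V (n L) (sg L) z)) ∧
      ∀ N, HaltsAt (eval G' z) (d L) N → Qd (dl L) (m L) N (rcl (eval G' z) (d L)))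
    from by
      by_cases h : L ∈ Set.range ℓ ∧ max L₁ (ℓ (K + 1)) ≤ L
      · have h2 := hD L h.1 h.2
        rw [hmL] at h2 ⊢
        obtain ⟨G', h3, h4⟩ := S3.V_decidesH (Q := Qd (dl L) (S3.Vm (n L) (sg L))) (hle L) (hG L) h2
        exact ⟨G', h3, fun _ _ => h4⟩
      · refine ⟨[], ⟨⟨by simp, by simp⟩, ?_⟩, fun h1 h2 => absurd ⟨h1, h2⟩ h⟩
        have h3 := (hG L).2
        have h4 : s L * 1 ≤ (s L + 3) * (S3.VS (n L) (sg L) + 3) :=
          Nat.mul_le_mul (by omega) (by omega)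
        omega
  refine ⟨G', _, T, d, m, max L₁ (ℓ (K + 1)), ?_, ex_iff.2 hT, hmlin, hmtop, hG',
    fun L hLS hL => hD' L hLS hL⟩
  have hSS : SubExp (fun L => S3.SS (n L) (sg L + 1) (Nat.size (S3.nst (n L)))) := by
    have h1 : SubExp (fun L => Nat.size (S3.nst (n L))) := hnlin.size_linear.subExp
    unfold S3.SS
    exact (((hnlin.subExp.add (hsglin.subExp.add (SubExp.const 1))).add h1).add
      (SubExp.const 100))
  exact ex_zero_iff.2 (((hs.add (SubExp.const 3)).mul ((hSS.pow 8).add (SubExp.const 3))).mul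
    (SubExp.const 4))

end Pool.Agent.NUM
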