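import Pool.Agent.NUM.GAbs
import Pool.Agent.NUM.GCls
import Pool.Agent.NUM.HWin

/-!
# Theorem H(γ): the fields of `TradeG` from the pivot
-/

set_option autoImplicit false

namespace Pool.Agent.NUM

open Filter

/-- the field `fam` of `TradeG` for the class `ClsG γ` -/
def FamG (γ : ℝ) : Prop :=
  ∀ {T : Type} {π : Pres T} {P : T → Prop} {b e : ℝ}, Size π b → 0 ≤ e → ClsG γ T π P e →
    ∃ (w : ℝ → ℕ → ℕ) (Tr Bad : ℝ → T × Inp → Prop), IsFam γ π P e w Tr Bad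

section

variable {γ c : ℝ} {T : Type} {π : Pres T} {P : T → Prop}

theorem clsG_mono {e e' : ℝ} (h : ClsG γ T π P e) (he : e ≤ e') : ClsG γ T π P e' := by
  obtain ⟨k, hk, h⟩ := h
  exact ⟨k, hk, h.mono he (fun _ _ _ h => h) fun _ h => h⟩

theorem clsG_not {e : ℝ} (h : ClsG γ T π P e) : ClsG γ T π (fun τ => ¬ P τ) e := by
  obtain ⟨k, hk, h⟩ := h
  exact ⟨k, hk, h.compl (QLoc.hsep γ k)⟩

theorem clsG_merge {u u' e : ℝ} {β β' : ℕ → ℕ} {C : (T × Inp) × Inp → Prop} (hβ : Lin u β)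
    (hβ' : Lin u' β') (h : ClsG γ _ ((π.ext β).ext β') C e) :
    ∃ β'' : ℕ → ℕ, Lin (max u u') β'' ∧
      ClsG γ _ (π.ext β'')
        (fun p => C ((p.1, fun a => p.2 (false :: a)), fun a => p.2 (true :: a))) e := by
  obtain ⟨k, hk, h⟩ := h
  obtain ⟨β'', h1, h2⟩ := InG.merge hβ hβ' h
  exact ⟨β'', h1, k, hk, h2⟩

theorem clsG_toH {e : ℝ} (h : ClsG γ T π P e) : InH π P e := by
  obtain ⟨k, hk, h⟩ := h
  exact h.toH

theorem ex_floor_dl {dl : ℕ → ℝ} (hdl0 : ∀ L, 0 ≤ dl L)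
    (hdl : ∀ δ : ℝ, 0 < δ → ∀ᶠ L in atTop, dl L ≤ δ) {E : ℝ} (hE : 0 ≤ E) {m : ℕ → ℕ}
    (hm : Lin E m) : Ex 0 fun L => ⌊(2 : ℝ) ^ (dl L * m L)⌋₊ := by
  intro ε hε
  obtain ⟨L₁, h1⟩ := hm 1 one_pos
  obtain ⟨L₂, h2⟩ := eventually_atTop.1 (hdl (ε / (E + 1)) (by positivity))
  refine ⟨max L₁ L₂, fun L hL => (Nat.floor_le (by positivity)).trans ?_⟩
  apply Real.rpow_le_rpow_of_exponent_le (by norm_num)
  have h3 := h1 L ((le_max_left _ _).trans hL)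
  have h4 := h2 L ((le_max_right _ _).trans hL)
  have hL0 : (0 : ℝ) ≤ L := Nat.cast_nonneg L
  calc dl L * m L ≤ dl L * ((E + 1) * L) := mul_le_mul_of_nonneg_left h3 (hdl0 L)
    _ ≤ ε / (E + 1) * ((E + 1) * L) := mul_le_mul_of_nonneg_right h4 (by positivity)
    _ = (0 + ε) * L := by field_simp; ring

theorem InVW.toG {dl : ℕ → ℝ} (hdl0 : ∀ L, 0 ≤ dl L)
    (hdl : ∀ δ : ℝ, 0 < δ → ∀ᶠ L in atTop, dl L ≤ δ) {E : ℝ} (hE : 0 ≤ E)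
    (h : InVW (fun L => QG γ (dl L)) c π P E) : ClsG γ T π P (c * E) := by
  obtain ⟨m, hm, _, h⟩ := h
  exact ⟨_, ex_floor_dl hdl0 hdl hE hm, h⟩

end

theorem QLoc.qG (γ δ : ℝ) : QLoc (QG γ δ) := fun _ _ _ _ h H =>
  HSep.congr H fun t ht => (h t ht).symm

/-- **The fields of `TradeG` from the pivot.** -/
theorem trade_of_pivotG {γ c : ℝ} {S : Set ℕ} {dl : ℕ → ℝ} (hS : S.Infinite)
    (hdl0 : ∀ L, 0 ≤ dl L) (hdl : ∀ δ : ℝ, 0 < δ → ∀ᶠ L in atTop, dl L ≤ δ)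
    (P : PivotHW S (fun L => QG γ (dl L)) c) (hfam : FamG γ) : TradeG S (ClsG γ) c γ where
  mono := fun h he => clsG_mono h he
  not := fun _ h => clsG_not h
  merge := fun _ hβ hβ' h => clsG_merge hβ hβ' h
  toH := fun h => clsG_toH h
  dummyH := fun _ _ h => h.dummy _
  elim := fun hπ hb hs hβ h =>
    (hslowW P hπ hb hs hβ h).toG hdl0 hdl (le_trans (by linarith) (le_max_left _ _))
  fam := fun hs he h => hfam hs he h
  diag := fun a u e ha hue hea => by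
    obtain ⟨T, π, D, h0, h1, h2, h3⟩ := hdiagW hS (fun L => QLoc.qG γ (dl L)) P a u e ha hue hea
    exact ⟨T, π, D, h0, h1, h2.toG hdl0 hdl (Nat.cast_nonneg a), h3⟩

theorem not_satGW_sep {γ c : ℝ} (hc : 1 < c) (hγ : 0 ≤ γ) (hγ1 : γ < 1)
    (hc3 : c ^ 3 - (1 - γ) * c ^ 2 - (2 - γ) * c + (1 - γ) < 0) (hfam : FamG γ) :
    ¬ SatGW (QG γ) c := by
  intro H
  obtain ⟨S, dl, hS, hdl0, hdl, ⟨P⟩⟩ := exists_pivotHW (by linarith) H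
  exact not_TradeG hc hγ hγ1 hc3 (trade_of_pivotG hS hdl0 hdl P hfam)

/-- **The final statement**, if the field `fam` is given: `3SAT` is not decided in time `n ^ c` by
programs whose computations have hereditary separators. -/
theorem sat_sep_window {γ : ℝ} (hfam : FamG γ) (hγ : 0 ≤ γ) (hγ1 : γ < 1) {c : ℝ} (hc1 : 1 < c)
    (hc3 : c ^ 3 - (1 - γ) * c ^ 2 - (2 - γ) * c + (1 - γ) < 0) :
    ∃ (δ : ℝ) (A M₀ : ℕ), 0 < δ ∧ ∀ M : ℕ, M₀ ≤ M → ∃ m : ℕ, M ≤ m ∧ m ≤ A * M ∧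
      ∀ (G : List Ins) (d s T K : ℕ), HSz s d G → (s : ℝ) ≤ 2 ^ (δ * m) →
        (T : ℝ) ≤ 2 ^ (c * m) → (K : ℝ) ≤ 2 ^ (δ * m) →
        ¬ ∀ z, Supp (S3.satLen m) z → ∃ N ≤ T, HaltsAt (eval G z) d N ∧
          (sta (eval G z) d N 2 = true ↔ S3.SAT m z) ∧ HSep N (rcl (eval G z) d) γ K := by
  have hnot := not_satGW_sep hc1 hγ hγ1 hc3 hfam
  unfold SatGW at hnot
  push Not at hnot
  obtain ⟨δ, hδ, A, M₀, h⟩ := hnot
  refine ⟨δ, A, M₀, hδ, fun M hM => ?_⟩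
  obtain ⟨m, hm, hmA, h⟩ := h M hM
  refine ⟨m, hm, hmA, fun G d s T K hsz hs hT hK hD => ?_⟩
  have hT' : (T : ℝ) ≤ 2 ^ ((c + δ) * m) := by
    refine hT.trans (Real.rpow_le_rpow_of_exponent_le (by norm_num) ?_)
    have : (0 : ℝ) ≤ m := by positivity
    nlinarith
  obtain ⟨z, hz, h⟩ := h G d s T hsz hs hT'
  obtain ⟨N, hN, h1, h2, h3⟩ := hD z hz
  obtain ⟨N', h4, h5⟩ := h ⟨_, ⟨N, hN, h1, rfl⟩, h2⟩
  have : N = N' := hcl_unique h1 h4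
  subst this
  exact h5 (h3.mono (Nat.le_floor hK))

/-- the same for `1 ≤ c` -/
theorem sat_sep_window' {γ : ℝ} (hfam : FamG γ) (hγ : 0 ≤ γ) (hγ1 : γ < 1) {c : ℝ} (hc1 : 1 ≤ c)
    (hc3 : c ^ 3 - (1 - γ) * c ^ 2 - (2 - γ) * c + (1 - γ) < 0) :
    ∃ (δ : ℝ) (A M₀ : ℕ), 0 < δ ∧ ∀ M : ℕ, M₀ ≤ M → ∃ m : ℕ, M ≤ m ∧ m ≤ A * M ∧
      ∀ (G : List Ins) (d s T K : ℕ), HSz s d G → (s : ℝ) ≤ 2 ^ (δ * m) →
        (T : ℝ) ≤ 2 ^ (c * m) → (K : ℝ) ≤ 2 ^ (δ * m) →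
        ¬ ∀ z, Supp (S3.satLen m) z → ∃ N ≤ T, HaltsAt (eval G z) d N ∧
          (sta (eval G z) d N 2 = true ↔ S3.SAT m z) ∧ HSep N (rcl (eval G z) d) γ K := by
  have hcont : ContinuousAt
      (fun x : ℝ => x ^ 3 - (1 - γ) * x ^ 2 - (2 - γ) * x + (1 - γ)) c := by fun_prop
  have hev : ∀ᶠ x : ℝ in nhds c, x ^ 3 - (1 - γ) * x ^ 2 - (2 - γ) * x + (1 - γ) < 0 :=
    hcont.eventually (gt_mem_nhds hc3)
  obtain ⟨ε, hε, hball⟩ := Metric.eventually_nhds_iff.mp hev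
  have h1 := hball (y := c + ε / 2) (by
    rw [Real.dist_eq]
    have : c + ε / 2 - c = ε / 2 := by ring
    rw [this, abs_of_pos (by linarith)]
    linarith)
  obtain ⟨δ, A, M₀, hδ, h⟩ := sat_sep_window hfam hγ hγ1 (c := c + ε / 2) (by linarith) h1
  refine ⟨δ, A, M₀, hδ, fun M hM => ?_⟩
  obtain ⟨m, hm, hmA, h⟩ := h M hM
  refine ⟨m, hm, hmA, fun G d s T K hsz hs hT hK => h G d s T K hsz hs (hT.trans ?_) hK⟩
  apply Real.rpow_le_rpow_of_exponent_le (by norm_num)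
  have : (0 : ℝ) ≤ m := by positivity
  nlinarith

end Pool.Agent.NUM
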