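import Mathlib

/-!
# Hereditary separators of computation graphs

`rc t` is the number of the state recalled in the pass `t → t + 1`; the state `t + 1` is joined to the
states `t` and `rc t` (if `rc t ≤ t`).
-/

set_option autoImplicit false

namespace Pool.Agent.NUM

open Finset

/-- no state of `A` is joined to a state of `B` -/
def NoEdge (rc : ℕ → ℕ) (A B : Finset ℕ) : Prop :=
  ∀ t, (t + 1 ∈ A → t ∉ B ∧ (rc t ≤ t → rc t ∉ B)) ∧
    (t + 1 ∈ B → t ∉ A ∧ (rc t ≤ t → rc t ∉ A))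

/-- **Hereditary separators.**  Every set `W` of the states `0, …, N` has two disjoint parts `A`, `B`
which are not joined, each with at most two thirds of the states of `W`, such that at most
`K * |W| ^ γ` states of `W` are in neither of them. -/
def HSep (N : ℕ) (rc : ℕ → ℕ) (γ : ℝ) (K : ℕ) : Prop :=
  ∀ W ⊆ range (N + 1), ∃ A ⊆ W, ∃ B ⊆ W, Disjoint A B ∧ NoEdge rc A B ∧
    3 * A.card ≤ 2 * W.card ∧ 3 * B.card ≤ 2 * W.card ∧
    ((W \ (A ∪ B)).card : ℝ) ≤ K * (W.card : ℝ) ^ γ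

theorem NoEdge.symm {rc : ℕ → ℕ} {A B : Finset ℕ} (h : NoEdge rc A B) : NoEdge rc B A :=
  fun t => ⟨(h t).2, (h t).1⟩

theorem NoEdge.mono {rc : ℕ → ℕ} {A B A' B' : Finset ℕ} (h : NoEdge rc A B) (hA : A' ⊆ A)
    (hB : B' ⊆ B) : NoEdge rc A' B' :=
  fun t => ⟨fun h1 => ⟨fun h2 => ((h t).1 (hA h1)).1 (hB h2),
      fun h3 h2 => ((h t).1 (hA h1)).2 h3 (hB h2)⟩,
    fun h1 => ⟨fun h2 => ((h t).2 (hB h1)).1 (hA h2),
      fun h3 h2 => ((h t).2 (hB h1)).2 h3 (hA h2)⟩⟩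

theorem NoEdge.union {rc : ℕ → ℕ} {A B C : Finset ℕ} (h : NoEdge rc A B) (h' : NoEdge rc A C) :
    NoEdge rc A (B ∪ C) := by
  intro t
  constructor
  · intro h1
    refine ⟨fun h2 => ?_, fun h3 h2 => ?_⟩
    · rcases mem_union.1 h2 with h2 | h2
      · exact ((h t).1 h1).1 h2
      · exact ((h' t).1 h1).1 h2
    · rcases mem_union.1 h2 with h2 | h2
      · exact ((h t).1 h1).2 h3 h2
      · exact ((h' t).1 h1).2 h3 h2
  · intro h1
    rcases mem_union.1 h1 with h1 | h1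
    · exact ⟨((h t).2 h1).1, ((h t).2 h1).2⟩
    · exact ⟨((h' t).2 h1).1, ((h' t).2 h1).2⟩

theorem NoEdge.empty {rc : ℕ → ℕ} {A : Finset ℕ} : NoEdge rc A ∅ := by
  intro t
  simp

/-- `HSep` only depends on the pointers of the passes `1, …, N` -/
theorem HSep.congr {N : ℕ} {rc rc' : ℕ → ℕ} {γ : ℝ} {K : ℕ} (h : HSep N rc γ K)
    (hr : ∀ t < N, rc t = rc' t) : HSep N rc' γ K := by
  intro W hW
  obtain ⟨A, hA, B, hB, h1, h2, h3⟩ := h W hW
  refine ⟨A, hA, B, hB, h1, fun t => ?_, h3⟩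
  constructor
  · intro ht
    have hN : t < N := by
      have := hW (hA ht)
      simp only [mem_range] at this
      omega
    rw [← hr t hN]
    exact (h2 t).1 ht
  · intro ht
    have hN : t < N := by
      have := hW (hB ht)
      simp only [mem_range] at this
      omega
    rw [← hr t hN]
    exact (h2 t).2 ht

theorem HSep.mono {N : ℕ} {rc : ℕ → ℕ} {γ : ℝ} {K K' : ℕ} (h : HSep N rc γ K) (hK : K ≤ K') :
    HSep N rc γ K' := by
  intro W hW
  obtain ⟨A, hA, B, hB, h1, h2, h3, h4, h5⟩ := h W hW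
  refine ⟨A, hA, B, hB, h1, h2, h3, h4, h5.trans ?_⟩
  have : (K : ℝ) ≤ K' := by exact_mod_cast hK
  have h6 : (0 : ℝ) ≤ (W.card : ℝ) ^ γ := by positivity
  exact mul_le_mul_of_nonneg_right this h6

/-- **Weighted separators.** -/
theorem HSep.weighted {N : ℕ} {rc : ℕ → ℕ} {γ : ℝ} {K : ℕ} (h : HSep N rc γ K) (hγ : 0 ≤ γ)
    {w : ℕ → ℝ} (hw : ∀ v, 0 ≤ w v) {V : Finset ℕ} (hV : V ⊆ range (N + 1)) (j : ℕ) :
    ∀ W ⊆ V, ∀ R ⊆ V, Disjoint W R → NoEdge rc W R → 3 * ∑ v ∈ R, w v ≤ ∑ v ∈ V, w v →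
      (W.card : ℝ) ≤ (3 / 2) ^ j →
      ∃ A ⊆ W ∪ R, ∃ B ⊆ W ∪ R, Disjoint A B ∧ NoEdge rc A B ∧
        3 * ∑ v ∈ A, w v ≤ 2 * ∑ v ∈ V, w v ∧ 3 * ∑ v ∈ B, w v ≤ 2 * ∑ v ∈ V, w v ∧
        (((W ∪ R) \ (A ∪ B)).card : ℝ) ≤ (j + 1) * K * (V.card : ℝ) ^ γ := by
  induction j with
  | zero =>
    intro W hW R hR hd hn hwR hc
    have hWc : W.card ≤ 1 := by
      have : (W.card : ℝ) ≤ 1 := by simpa using hc
      exact_mod_cast this
    obtain ⟨A, hA, B, hB, h1, h2, h3, h4, h5⟩ := h W (hW.trans hV)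
    have hA0 : A = ∅ := by
      rw [← Finset.card_eq_zero]
      omega
    have hB0 : B = ∅ := by
      rw [← Finset.card_eq_zero]
      omega
    subst hA0
    subst hB0
    have hV0 : 0 ≤ ∑ v ∈ V, w v := sum_nonneg fun v _ => hw v
    refine ⟨∅, empty_subset _, R, subset_union_right, disjoint_empty_left _,
      NoEdge.empty.symm, by simpa using hV0, by linarith, ?_⟩
    have h6 : (W ∪ R) \ (∅ ∪ R) ⊆ W \ (∅ ∪ ∅) := by
      intro v hv
      simp only [empty_union, mem_sdiff, mem_union] at hv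
      simp only [empty_union, sdiff_empty]
      tauto
    have h7 : (((W ∪ R) \ (∅ ∪ R)).card : ℝ) ≤ ((W \ (∅ ∪ ∅)).card : ℝ) := by
      exact_mod_cast card_le_card h6
    refine h7.trans (h5.trans ?_)
    have h8 : (W.card : ℝ) ^ γ ≤ (V.card : ℝ) ^ γ := by
      apply Real.rpow_le_rpow (by positivity) _ hγ
      exact_mod_cast card_le_card hW
    push_cast
    rw [zero_add, one_mul]
    exact mul_le_mul_of_nonneg_left h8 (by positivity)
  | succ j ih =>
    intro W hW R hR hd hn hwR hc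
    obtain ⟨A', hA', B', hB', h1', h2', h3', h4', h5'⟩ := h W (hW.trans hV)
    -- `A` is the heavier part
    obtain ⟨A, hA, B, hB, h1, h2, h3, h5, hAB⟩ : ∃ A ⊆ W, ∃ B ⊆ W, Disjoint A B ∧
        NoEdge rc A B ∧ 3 * A.card ≤ 2 * W.card ∧
        ((W \ (A ∪ B)).card : ℝ) ≤ K * (W.card : ℝ) ^ γ ∧ ∑ v ∈ B, w v ≤ ∑ v ∈ A, w v := by
      rcases le_total (∑ v ∈ B', w v) (∑ v ∈ A', w v) with h | h
      · exact ⟨A', hA', B', hB', h1', h2', h3', h5', h⟩
      · exact ⟨B', hB', A', hA', h1'.symm, h2'.symm, h4', by rw [union_comm]; exact h5', h⟩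
    have h8 : (W.card : ℝ) ^ γ ≤ (V.card : ℝ) ^ γ := by
      apply Real.rpow_le_rpow (by positivity) _ hγ
      exact_mod_cast card_le_card hW
    have h9 : ((W \ (A ∪ B)).card : ℝ) ≤ K * (V.card : ℝ) ^ γ :=
      h5.trans (mul_le_mul_of_nonneg_left h8 (by positivity))
    have hAR : Disjoint A R := disjoint_of_subset_left hA hd
    have hBR : Disjoint B R := disjoint_of_subset_left hB hd
    have hsum : ∑ v ∈ A, w v + (∑ v ∈ B, w v + ∑ v ∈ R, w v) ≤ ∑ v ∈ V, w v := by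
      rw [← sum_union hBR, ← sum_union (disjoint_union_right.2 ⟨h1, hAR⟩)]
      refine sum_le_sum_of_subset_of_nonneg ?_ fun v _ _ => hw v
      exact union_subset (hA.trans hW) (union_subset (hB.trans hW) hR)
    have hBRs : ∑ v ∈ B ∪ R, w v = ∑ v ∈ B, w v + ∑ v ∈ R, w v := sum_union hBR
    by_cases hheavy : 2 * ∑ v ∈ V, w v < 3 * ∑ v ∈ A, w v
    · obtain ⟨A₁, hA₁, B₁, hB₁, g1, g2, g3, g4, g5⟩ := ih A (hA.trans hW) (B ∪ R)
        (union_subset (hB.trans hW) hR) (disjoint_union_right.2 ⟨h1, hAR⟩)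
        (h2.union (hn.mono hA subset_rfl)) (by rw [hBRs]; linarith) (by
          have e1 : (3 * A.card : ℝ) ≤ 2 * W.card := by exact_mod_cast h3
          rw [pow_succ] at hc
          linarith)
      have hsub : A ∪ (B ∪ R) ⊆ W ∪ R := by
        intro v hv
        simp only [mem_union] at hv ⊢
        rcases hv with hv | hv | hv
        · exact Or.inl (hA hv)
        · exact Or.inl (hB hv)
        · exact Or.inr hv
      refine ⟨A₁, hA₁.trans hsub, B₁, hB₁.trans hsub, g1, g2, g3, g4, ?_⟩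
      have h6 : (W ∪ R) \ (A₁ ∪ B₁) ⊆ (W \ (A ∪ B)) ∪ ((A ∪ (B ∪ R)) \ (A₁ ∪ B₁)) := by
        intro v hv
        simp only [mem_sdiff, mem_union] at hv ⊢
        tauto
      have h7 : (((W ∪ R) \ (A₁ ∪ B₁)).card : ℝ) ≤
          ((W \ (A ∪ B)).card : ℝ) + (((A ∪ (B ∪ R)) \ (A₁ ∪ B₁)).card : ℝ) := by
        exact_mod_cast (card_le_card h6).trans (card_union_le _ _)
      push_cast
      nlinarith
    · rw [not_lt] at hheavy
      refine ⟨A, hA.trans subset_union_left, B ∪ R,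
        union_subset (hB.trans subset_union_left) subset_union_right,
        disjoint_union_right.2 ⟨h1, hAR⟩, h2.union (hn.mono hA subset_rfl), hheavy, ?_, ?_⟩
      · rw [hBRs]
        linarith
      · have h6 : (W ∪ R) \ (A ∪ (B ∪ R)) ⊆ W \ (A ∪ B) := by
          intro v hv
          simp only [mem_sdiff, mem_union] at hv ⊢
          tauto
        have h7 : (((W ∪ R) \ (A ∪ (B ∪ R))).card : ℝ) ≤ ((W \ (A ∪ B)).card : ℝ) := by
          exact_mod_cast card_le_card h6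
        have h10 : (0 : ℝ) ≤ K * (V.card : ℝ) ^ γ := by positivity
        push_cast
        nlinarith

/-- every set of states has a separator which is balanced for a given weight -/
theorem HSep.exists_weighted {N : ℕ} {rc : ℕ → ℕ} {γ : ℝ} {K : ℕ} (h : HSep N rc γ K)
    (hγ : 0 ≤ γ) {w : ℕ → ℝ} (hw : ∀ v, 0 ≤ w v) {V : Finset ℕ} (hV : V ⊆ range (N + 1)) {j : ℕ}
    (hj : (V.card : ℝ) ≤ (3 / 2) ^ j) :
    ∃ A ⊆ V, ∃ B ⊆ V, Disjoint A B ∧ NoEdge rc A B ∧
      3 * ∑ v ∈ A, w v ≤ 2 * ∑ v ∈ V, w v ∧ 3 * ∑ v ∈ B, w v ≤ 2 * ∑ v ∈ V, w v ∧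
      ((V \ (A ∪ B)).card : ℝ) ≤ (j + 1) * K * (V.card : ℝ) ^ γ := by
  have hV0 : 0 ≤ ∑ v ∈ V, w v := sum_nonneg fun v _ => hw v
  have := h.weighted hγ hw hV j V subset_rfl ∅ (empty_subset _) (disjoint_empty_right _)
    NoEdge.empty (by simpa using hV0) hj
  simpa using this

end Pool.Agent.NUM
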