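import Pool.Agent.NUM.RCore
import Pool.Agent.NUM.HSep

/-!
# Deciding on a random access machine with hereditary separators of the data flow
-/

namespace Pool.Agent.NUM

/-- `G`, with `d` address cells of each kind, decides `P` on the inputs of support `B` within `T`
steps, and for each of these inputs every set `W` of states of the computation has a balanced
separator of at most `K * |W| ^ γ` states in the graph of the data flow -/
def RamDecides (G : List Ins) (d B T : ℕ) (γ : ℝ) (K : ℕ) (P : Inp → Prop) : Prop :=
  ∀ z, Supp B z → ∃ N ≤ T, RHalts (eval G z) d N ∧ (rst (eval G z) d N 2 = true ↔ P z) ∧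
    HSep N (rsrc (eval G z) d) γ K

end Pool.Agent.NUM
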