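import Pool.Agent.NUM.S3Bv

/-! # the formula as a random access input -/

namespace Pool.Agent.NUM.S3

namespace S3AddrAux

theorem length_satAddr (m : ℕ) (c : BV m) (j i : ℕ) : (satAddr m c j i).length = satLen m := by
  unfold satAddr satLen
  rw [List.length_append, List.length_append, List.length_ofFn, length_bits, length_bits]

theorem getD_satAddr (m : ℕ) (c : BV m) (j i : ℕ) (k : Fin m) :
    (satAddr m c j i).getD k false = c k := by
  unfold satAddr
  have h1 : (k : ℕ) < (List.ofFn c).length := by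
    rw [List.length_ofFn]
    exact k.2
  have h2 : (k : ℕ) < (List.ofFn c ++ bits 2 j).length := by
    rw [List.length_append]
    omega
  rw [List.getD_append _ _ _ _ h2, List.getD_append _ _ _ _ h1, List.getD_eq_getElem _ _ h1,
    List.getElem_ofFn]

theorem drop_satAddr (m : ℕ) (c : BV m) (j i : ℕ) :
    (satAddr m c j i).drop m = bits 2 j ++ bits (Nat.size m) i := by
  unfold satAddr
  rw [List.append_assoc]
  have h1 : (List.ofFn c).length = m := List.length_ofFn
  exact List.drop_left' h1

theorem take_satAddr (m : ℕ) (c : BV m) (j i : ℕ) :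
    ((satAddr m c j i).drop m).take 2 = bits 2 j := by
  rw [drop_satAddr]
  exact List.take_left' (length_bits 2 j)

theorem drop2_satAddr (m : ℕ) (c : BV m) (j i : ℕ) :
    (satAddr m c j i).drop (m + 2) = bits (Nat.size m) i := by
  rw [← List.drop_drop, drop_satAddr]
  exact List.drop_left' (length_bits 2 j)

theorem Phi_addr {n v w : ℕ} (sg : ℕ) (z : Inp) (c : Ix n v w) (j : Fin 3) {i : ℕ}
    (hi : i ≤ mm n v w) :
    Phi n v w sg z (satAddr (mm n v w) c.code j i) =
      if i = 0 then (cls sg z c j).1 else gt (cls sg z c j).2.code (i - 1) := by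
  have h1 : lnum (((satAddr (mm n v w) c.code j i).drop (mm n v w)).take 2) = j := by
    rw [take_satAddr, lnum_bits]
    have := j.2
    omega
  have h2 : lnum ((satAddr (mm n v w) c.code j i).drop (mm n v w + 2)) = i := by
    rw [drop2_satAddr, lnum_bits]
    exact Nat.mod_eq_of_lt (lt_of_le_of_lt hi (Nat.lt_size_self _))
  have h3 : (Ix.dec fun k : Fin (mm n v w) => (satAddr (mm n v w) c.code j i).getD k false) = c := by
    have h4 : (fun k : Fin (mm n v w) => (satAddr (mm n v w) c.code j i).getD k false)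
        = c.code := by
      funext k
      exact getD_satAddr _ _ _ _ k
    rw [h4, Ix.dec_code]
  have h5 : (⟨(j : ℕ) % 3, Nat.mod_lt _ (by norm_num)⟩ : Fin 3) = j := by
    apply Fin.ext
    exact Nat.mod_eq_of_lt j.2
  unfold Phi
  rw [if_pos (length_satAddr _ _ _ _)]
  simp only [h1, h2, h3, h5]
  rw [if_pos j.2]

end S3AddrAux

open S3AddrAux

theorem Phi_sign {n v w : ℕ} (sg : ℕ) (z : Inp) (c : Ix n v w) (j : Fin 3) :
    Phi n v w sg z (satAddr (mm n v w) c.code j 0) = (cls sg z c j).1 := by
  rw [Phi_addr sg z c j (Nat.zero_le _), if_pos rfl]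

theorem Phi_var {n v w : ℕ} (sg : ℕ) (z : Inp) (c : Ix n v w) (j : Fin 3) (i : Fin (mm n v w)) :
    Phi n v w sg z (satAddr (mm n v w) c.code j (i + 1)) = (cls sg z c j).2.code i := by
  rw [Phi_addr sg z c j (Nat.succ_le_of_lt i.2), if_neg (Nat.succ_ne_zero _), Nat.succ_sub_one,
    gt_of_lt _ i.2]

theorem SAT_Phi (n v w sg : ℕ) (z : Inp) :
    SAT (mm n v w) (Phi n v w sg z) ↔ TSat (n := n) (v := v) (w := w) (cls sg z) := by
  constructor
  · rintro ⟨a, ha⟩
    refine ⟨fun x => a x.code, fun c => ?_⟩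
    obtain ⟨j, hj⟩ := ha c.code
    refine ⟨j, ?_⟩
    rw [Phi_sign] at hj
    rw [← hj]
    beta_reduce
    congr 1
    funext i
    exact (Phi_var sg z c j i).symm
  · rintro ⟨a, ha⟩
    refine ⟨fun x => a (Ix.dec x), fun c => ?_⟩
    obtain ⟨j, hj⟩ := ha (Ix.dec c)
    refine ⟨j, ?_⟩
    have h1 : c = (Ix.dec c).code := (Ix.code_dec c).symm
    have h2 : (fun i : Fin (mm n v w) => Phi n v w sg z (satAddr (mm n v w) c j (i + 1)))
        = (cls sg z (Ix.dec c) j).2.code := by
      funext i
      conv_lhs => rw [h1]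
      exact Phi_var sg z (Ix.dec c) j i
    have h3 : Phi n v w sg z (satAddr (mm n v w) c j 0) = (cls sg z (Ix.dec c) j).1 := by
      conv_lhs => rw [h1]
      exact Phi_sign sg z (Ix.dec c) j
    rw [h2, h3]
    beta_reduce
    rw [Ix.dec_code]
    exact hj

/-- the formula lives on addresses of length `satLen` -/
theorem Supp_Phi (n v w sg : ℕ) (z : Inp) : Supp (satLen (mm n v w)) (Phi n v w sg z) := by
  intro a ha
  unfold Phi
  rw [if_neg]
  intro h
  rw [h] at ha
  exact lt_irrefl _ ha

end Pool.Agent.NUM.S3
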