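import Pool.Agent.NUM.S3LPhi
import Pool.Agent.NUM.S3Addr
import Pool.Agent.NUM.Virt

/-! # a decider of 3SAT decides the pivot problem -/

namespace Pool.Agent.NUM.S3

/-- the size of the instance -/
def Vm (n sg : ℕ) : ℕ := mm n (sg + 1) (Nat.size (nst n))

/-- size parameter of the pivot -/
def VS (n sg : ℕ) : ℕ := SS n (sg + 1) (Nat.size (nst n)) ^ 8

theorem V_decides {n sg T s : ℕ} (hsg : sg ≤ n) {G : List Ins} (hs : Sz s G)
    (h : Decides G (satLen (Vm n sg)) T (SAT (Vm n sg))) :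
    ∃ G' : List Ins, Sz ((s + 3) * (VS n sg + 3) * 4) G' ∧ ∀ B, Decides G' B T (V n sg) := by
  have hφ : Loc (s + 3) (VS n sg)
      (fun z => Phi n (sg + 1) (Nat.size (nst n)) sg z) := loc_Phi _ _ _ _ hsg _
  have hF : Fit 0 (s + 3) G := by
    refine ⟨by have := hs.1; omega, fun x hx => ?_⟩
    have h1 := hs.2 x hx
    refine ⟨by omega, ?_⟩
    cases x with
    | nand i j k => simp [Ins.len]
    | ask i j k =>
      simp only [Ins.top, max_le_iff] at h1
      simp only [Ins.len]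
      omega
  obtain ⟨G', hG', h2⟩ := exists_virt hφ hF le_rfl
  have hle : (s + 3) * (VS n sg + 1) + (s + 3) + VS n sg ≤ (s + 3) * (VS n sg + 3) * 4 := by
    nlinarith [Nat.zero_le (s * VS n sg), Nat.zero_le s, Nat.zero_le (VS n sg)]
  refine ⟨G', ⟨hG'.1.trans hle, fun x hx => ?_⟩, ?_⟩
  · have := (hG'.2 x hx).1; omega
  intro B z _
  obtain ⟨b, h3, h4⟩ := h (Phi n (sg + 1) (Nat.size (nst n)) sg z) (Supp_Phi _ _ _ _ _)
  refine ⟨b, ?_, h4⟩
  obtain ⟨k, W, hk, hE, hb⟩ := run_nil_iff.1 h3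
  obtain ⟨W', hV, hE'⟩ := hE.transfer (s := s + 3) (g := eval G' z) (by omega)
    (fun M M' hM => by
      have := h2 z M' M (by rw [Nat.zero_add]; exact hM.symm)
      rw [Nat.zero_add] at this
      exact this.symm) zeroMem (Agr.refl _ _)
  exact run_nil_iff.2 ⟨k, W', hk, hE', by rw [← hV 2 (by omega)]; exact hb⟩

/-- the size of the instance is `n + O(sg) + O(log n)` -/
theorem Vm_le (n sg : ℕ) : Vm n sg ≤ n + sg + Nat.size (5 * (n + 1)) + 9 := by
  unfold Vm mm nst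
  omega

end Pool.Agent.NUM.S3
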