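import Pool.Agent.NUM.S3Bv

/-! # positions of input bits -/

namespace Pool.Agent.NUM.S3

/-- the position with digits `a ++ [1] ++ 0 … 0` -/
def posOf (n : ℕ) (a : List Bool) : BV (n + 1) := fun i => (a ++ [true]).getD i false

theorem gt_posOf {n : ℕ} {a : List Bool} (h : a.length < n) (t : ℕ) :
    gt (posOf n a) t = if t < a.length then a.getD t false else decide (t = a.length) := by
  by_cases ht : t < n + 1
  · rw [gt_of_lt _ ht]
    show (a ++ [true]).getD t false = _
    by_cases h1 : t < a.length
    · rw [if_pos h1, List.getD_append _ _ _ _ h1]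
    · rw [if_neg h1, List.getD_append_right _ _ _ _ (Nat.not_lt.1 h1)]
      by_cases h2 : t = a.length
      · subst h2; simp
      · have h3 : t - a.length ≠ 0 := by omega
        obtain ⟨s, hs⟩ := Nat.exists_eq_succ_of_ne_zero h3
        rw [hs]
        simp [h2]
  · rw [gt_of_le _ (Nat.not_lt.1 ht), if_neg (by omega)]
    have : t ≠ a.length := by omega
    simp [this]

private theorem lastOne_posOf {n : ℕ} {a : List Bool} (h : a.length < n) :
    lastOne (posOf n a) = a.length + 1 := by
  unfold lastOne
  rw [Nat.findGreatest_eq_iff]
  refine ⟨by omega, fun _ => ⟨by omega, ?_⟩, ?_⟩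
  · rw [gt_posOf h]
    simp
  · intro t h1 h2 h3
    have h4 := h3.2
    rw [gt_posOf h, if_neg (by omega)] at h4
    simp at h4
    omega

theorem inBit_nil {n : ℕ} (hn : 0 < n) (z : Inp) : inBit z (posOf n []) = some false := by
  have h : ([] : List Bool).length < n := hn
  unfold inBit
  rw [lastOne_posOf h]
  simp

theorem inBit_false {n : ℕ} {a : List Bool} (h : a.length + 1 < n) (z : Inp) :
    inBit z (posOf n (false :: a)) = some (z a) := by
  have h' : (false :: a).length < n := by simpa using h
  unfold inBit
  rw [lastOne_posOf h', gt_posOf h', if_neg (by simp), if_neg (by simp)]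
  have h0 : ¬ ((if 0 < (false :: a).length then (false :: a).getD 0 false
      else decide (0 = (false :: a).length)) = true) := by simp
  rw [if_neg h0]
  congr 2
  apply List.ext_getElem
  · simp
  · intro i h1 h2
    have h3 : i < a.length := by simpa using h1
    simp only [List.getElem_map, List.getElem_range]
    rw [gt_posOf h', if_pos (by simp; omega)]
    simp [List.getD, h3]

theorem inBit_true {n : ℕ} {a : List Bool} (h : a.length + 1 < n) (z : Inp) :
    inBit z (posOf n (true :: a)) = none := by
  have h' : (true :: a).length < n := by simpa using h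
  unfold inBit
  rw [lastOne_posOf h', gt_posOf h', if_neg (by simp), if_neg (by simp)]
  have h0 : ((if 0 < (true :: a).length then (true :: a).getD 0 false
      else decide (0 = (true :: a).length)) = true) := by simp
  rw [if_pos h0]

theorem posOf_injective {n : ℕ} {a b : List Bool} (ha : a.length < n) (hb : b.length < n)
    (h : posOf n a = posOf n b) : a = b := by
  have h1 : a.length = b.length := by
    have := congrArg lastOne h
    rw [lastOne_posOf ha, lastOne_posOf hb] at this
    omega
  apply List.ext_getElem h1
  intro i hi hi'
  have : gt (posOf n a) i = gt (posOf n b) i := by rw [h]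
  rw [gt_posOf ha, gt_posOf hb, if_pos hi, if_pos hi'] at this
  simpa [List.getD, hi, hi'] using this

private theorem posOf_of_lastOne {n : ℕ} {P : BV (n + 1)} (hP : gt P n = false)
    (h0 : lastOne P ≠ 0) :
    P = posOf n ((List.range (lastOne P - 1)).map (gt P)) := by
  have h1 : lastOne P ≤ n := Nat.findGreatest_le n
  have hlen : ((List.range (lastOne P - 1)).map (gt P)).length = lastOne P - 1 := by simp
  have hlt : ((List.range (lastOne P - 1)).map (gt P)).length < n := by rw [hlen]; omega
  have h2 : gt P (lastOne P - 1) = true :=
    ((Nat.findGreatest_eq_iff.1 (rfl : lastOne P = lastOne P)).2.1 h0).2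
  apply ext_gt
  intro i hi
  rw [gt_posOf hlt, hlen]
  by_cases hi1 : i < lastOne P - 1
  · rw [if_pos hi1]
    simp [List.getD, hi1]
  · rw [if_neg hi1]
    by_cases hi2 : i = lastOne P - 1
    · subst hi2
      simp [h2]
    · have hd : decide (i = lastOne P - 1) = false := by simp [hi2]
      rw [hd]
      by_cases hi3 : i = n
      · subst hi3; exact hP
      · have h4 : ¬ (i + 1 ≠ 0 ∧ gt P (i + 1 - 1) = true) :=
          Nat.findGreatest_is_greatest (P := fun i => i ≠ 0 ∧ gt P (i - 1) = true) (n := n)
            (show Nat.findGreatest _ n < i + 1 by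
              show lastOne P < i + 1
              omega) (by omega)
        simpa using h4

/-- every position with top digit `0` where `inBit` is `some b`: it is `posOf a` and `b` is
`pair z y a` for all `y` -/
theorem inBit_some {n : ℕ} {z : Inp} {P : BV (n + 1)} (hP : gt P n = false) {b : Bool}
    (h : inBit z P = some b) : ∃ a : List Bool, a.length < n ∧ P = posOf n a ∧
      ∀ y, pair z y a = b := by
  have h1 : lastOne P ≤ n := Nat.findGreatest_le n
  unfold inBit at h
  split at h
  · exact absurd h (by simp)
  rename_i h0
  refine ⟨(List.range (lastOne P - 1)).map (gt P), by simp; omega, posOf_of_lastOne hP h0, ?_⟩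
  intro y
  split at h
  · rename_i h2
    rw [h2]
    simp at h
    simpa using h
  rename_i h2
  split at h
  · exact absurd h (by simp)
  rename_i h3
  have h4 : lastOne P - 1 = (lastOne P - 2) + 1 := by omega
  rw [h4, List.range_succ_eq_map, List.map_cons]
  have h5 : gt P 0 = false := by simpa using h3
  rw [h5, pair_false]
  simp only [Option.some.injEq] at h
  rw [← h, List.map_map]
  rfl

end Pool.Agent.NUM.S3
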