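import Pool.Agent.NUM.S3Bv

/-! # reading the table of a program -/

namespace Pool.Agent.NUM.S3

/-- the type of block `P` is `bval P % 2 ^ sg` -/
theorem dbit_enc {n sg : ℕ} (hsg : sg ≤ n) {z : Inp} {G : List Ins}
    (hz : ∀ a, z (false :: a) = enc n sg G a) (P : BV (n + 1)) (I : BV (sg + 1)) (K : BV 3)
    (j : Fin 3) (i : ℕ) (hi : i < 2 ^ (sg + 1 + 3)) :
    dbit sg z P I K j i = lbit (lcl n sg G (bval P % 2 ^ sg) (bval I) (bval K) j) i := by
  have hA1 : (List.range sg).map (gt P) = bits sg (bval P) := by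
    unfold bits
    apply List.map_congr_left
    intro t _
    rw [testBit_bval]
  have l1 : (bits sg (bval P)).length = sg := length_bits _ _
  have l2 : (List.ofFn I).length = sg + 1 := List.length_ofFn
  have l3 : (List.ofFn K).length = 3 := List.length_ofFn
  have l4 : (bits 2 (j : ℕ)).length = 2 := length_bits _ _
  unfold dbit
  rw [hz, hA1]
  generalize hB1 : bits sg (bval P) = B1 at l1
  generalize hB2 : List.ofFn I = B2 at l2
  generalize hB3 : List.ofFn K = B3 at l3
  generalize hB4 : bits 2 (j : ℕ) = B4 at l4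
  generalize hB5 : bits (sg + 1 + 3) i = B5
  have e1 : (B1 ++ B2 ++ B3 ++ B4 ++ B5).take sg = B1 := by
    rw [List.append_assoc, List.append_assoc, List.append_assoc]
    exact List.take_left' l1
  have e2' : (B1 ++ B2 ++ B3 ++ B4 ++ B5).drop sg = B2 ++ (B3 ++ (B4 ++ B5)) := by
    rw [List.append_assoc, List.append_assoc, List.append_assoc]
    exact List.drop_left' l1
  have e3' : (B1 ++ B2 ++ B3 ++ B4 ++ B5).drop (sg + (sg + 1)) = B3 ++ (B4 ++ B5) := by
    rw [← List.drop_drop, e2']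
    exact List.drop_left' l2
  have e4' : (B1 ++ B2 ++ B3 ++ B4 ++ B5).drop (sg + (sg + 1) + 3) = B4 ++ B5 := by
    rw [← List.drop_drop, e3']
    exact List.drop_left' l3
  have e5' : (B1 ++ B2 ++ B3 ++ B4 ++ B5).drop (sg + (sg + 1) + 3 + 2) = B5 := by
    rw [← List.drop_drop, e4']
    exact List.drop_left' l4
  have e2 : ((B1 ++ B2 ++ B3 ++ B4 ++ B5).drop sg).take (sg + 1) = B2 := by
    rw [e2']; exact List.take_left' l2
  have e3 : ((B1 ++ B2 ++ B3 ++ B4 ++ B5).drop (sg + (sg + 1))).take 3 = B3 := by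
    rw [e3']; exact List.take_left' l3
  have e4 : ((B1 ++ B2 ++ B3 ++ B4 ++ B5).drop (sg + (sg + 1) + 3)).take 2 = B4 := by
    rw [e4']; exact List.take_left' l4
  have n1 : lnum B1 = bval P % 2 ^ sg := by rw [← hB1, lnum_bits]
  have n2 : lnum B2 = bval I := by rw [← hB2, lnum_ofFn]
  have n3 : lnum B3 = bval K := by rw [← hB3, lnum_ofFn]
  have n4 : lnum B4 = (j : ℕ) := by
    rw [← hB4, lnum_bits]
    exact Nat.mod_eq_of_lt (by have := j.2; norm_num; omega)
  have n5 : lnum B5 = i := by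
    rw [← hB5, lnum_bits]; exact Nat.mod_eq_of_lt hi
  have hlen : (B1 ++ B2 ++ B3 ++ B4 ++ B5).length = 3 * sg + 10 := by
    have l5 : B5.length = sg + 1 + 3 := by rw [← hB5, length_bits]
    simp only [List.length_append, l1, l2, l3, l4, l5]
    omega
  unfold enc
  simp only [e1, e2, e3, e4, e5', n1, n2, n3, n4, n5]
  rw [if_pos ⟨hlen, j.2⟩]
  congr 2
  apply Fin.ext
  exact Nat.mod_eq_of_lt j.2

private theorem pow_ge (sg : ℕ) : sg + 4 < 2 ^ (sg + 1 + 3) := by
  have h : sg < 2 ^ sg := Nat.lt_two_pow_self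
  have : 2 ^ (sg + 1 + 3) = 16 * 2 ^ sg := by ring
  omega

theorem dbit_sign {n sg : ℕ} (hsg : sg ≤ n) {z : Inp} {G : List Ins}
    (hz : ∀ a, z (false :: a) = enc n sg G a) (P : BV (n + 1)) (I : BV (sg + 1)) (K : BV 3)
    (j : Fin 3) :
    dbit sg z P I K j 0 = (lcl n sg G (bval P % 2 ^ sg) (bval I) (bval K) j).1 := by
  rw [dbit_enc hsg hz P I K j 0 (by positivity)]
  rfl

theorem dbit_kind {n sg : ℕ} (hsg : sg ≤ n) {z : Inp} {G : List Ins}
    (hz : ∀ a, z (false :: a) = enc n sg G a) (P : BV (n + 1)) (I : BV (sg + 1)) (K : BV 3)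
    (j : Fin 3) :
    (fun i : Fin 3 => dbit sg z P I K j (1 + i)) =
      bvec 3 (lcl n sg G (bval P % 2 ^ sg) (bval I) (bval K) j).2.1 := by
  funext i
  have hp := pow_ge sg
  rw [dbit_enc hsg hz P I K j (1 + i) (by have := i.2; omega)]
  unfold lbit bvec
  rw [if_neg (by omega), if_pos (by have := i.2; omega), Nat.add_sub_cancel_left]

theorem dbit_idx {n sg : ℕ} (hsg : sg ≤ n) {z : Inp} {G : List Ins}
    (hz : ∀ a, z (false :: a) = enc n sg G a) (P : BV (n + 1)) (I : BV (sg + 1)) (K : BV 3)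
    (j : Fin 3) :
    (fun i : Fin (sg + 1) => dbit sg z P I K j (4 + i)) =
      bvec (sg + 1) (lcl n sg G (bval P % 2 ^ sg) (bval I) (bval K) j).2.2 := by
  funext i
  have hp := pow_ge sg
  rw [dbit_enc hsg hz P I K j (4 + i) (by have := i.2; omega)]
  unfold lbit bvec
  rw [if_neg (by omega), if_neg (by omega), Nat.add_sub_cancel_left]

theorem supp_enc (n sg : ℕ) (G : List Ins) : Supp (3 * sg + 10) (enc n sg G) := by
  intro a ha
  unfold enc
  rw [if_neg (by omega)]

end Pool.Agent.NUM.S3
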