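import Pool.Agent.NUM.S3Bv

/-! # a satisfying assignment gives a solution of the constraints -/

namespace Pool.Agent.NUM.S3

private theorem cspA_cls0 {n v w : ℕ} (sg : ℕ) (z : Inp) (P : BV (n + 1)) (I : BV v) (K : BV 3)
    (R : BV w) : cls sg z ⟨bvec 4 0, P, I, K, R⟩ = cl0 sg z ⟨bvec 4 0, P, I, K, R⟩ := by
  unfold cls
  dsimp only
  rw [if_pos rfl]


private theorem cspA_cls1 {n v w : ℕ} (sg : ℕ) (z : Inp) (P : BV (n + 1)) (I : BV v) (K : BV 3)
    (R : BV w) : cls sg z ⟨bvec 4 1, P, I, K, R⟩ = cl1 ⟨bvec 4 1, P, I, K, R⟩ := by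
  unfold cls
  dsimp only
  rw [if_neg, if_pos rfl]
  all_goals decide


private theorem cspA_cls2 {n v w : ℕ} (sg : ℕ) (z : Inp) (P : BV (n + 1)) (I : BV v) (K : BV 3)
    (R : BV w) : cls sg z ⟨bvec 4 2, P, I, K, R⟩ = cl2 ⟨bvec 4 2, P, I, K, R⟩ := by
  unfold cls
  dsimp only
  rw [if_neg, if_neg, if_pos rfl]
  all_goals decide


private theorem cspA_cls3 {n v w : ℕ} (sg : ℕ) (z : Inp) (P : BV (n + 1)) (I : BV v) (K : BV 3)
    (R : BV w) : cls sg z ⟨bvec 4 3, P, I, K, R⟩ = cl3 n v w := by
  unfold cls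
  dsimp only
  rw [if_neg, if_neg, if_neg, if_pos rfl]
  all_goals decide


private theorem cspA_cls4 {n v w : ℕ} (sg : ℕ) (z : Inp) (P : BV (n + 1)) (I : BV v) (K : BV 3)
    (R : BV w) : cls sg z ⟨bvec 4 4, P, I, K, R⟩ = cl4 ⟨bvec 4 4, P, I, K, R⟩ := by
  unfold cls
  dsimp only
  rw [if_neg, if_neg, if_neg, if_neg, if_pos rfl]
  all_goals decide


private theorem cspA_cls5 {n v w : ℕ} (sg : ℕ) (z : Inp) (P : BV (n + 1)) (I : BV v) (K : BV 3)
    (R : BV w) : cls sg z ⟨bvec 4 5, P, I, K, R⟩ = cl5 ⟨bvec 4 5, P, I, K, R⟩ := by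
  unfold cls
  dsimp only
  rw [if_neg, if_neg, if_neg, if_neg, if_neg, if_pos rfl]
  all_goals decide


private theorem cspA_cls6 {n v w : ℕ} (sg : ℕ) (z : Inp) (P : BV (n + 1)) (I : BV v) (K : BV 3)
    (R : BV w) : cls sg z ⟨bvec 4 6, P, I, K, R⟩ = cl6 ⟨bvec 4 6, P, I, K, R⟩ := by
  unfold cls
  dsimp only
  rw [if_neg, if_neg, if_neg, if_neg, if_neg, if_neg, if_pos rfl]
  all_goals decide


private theorem cspA_cls7 {n v w : ℕ} (sg : ℕ) (z : Inp) (P : BV (n + 1)) (I : BV v) (K : BV 3)
    (R : BV w) : cls sg z ⟨bvec 4 7, P, I, K, R⟩ = cl7 z ⟨bvec 4 7, P, I, K, R⟩ := by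
  unfold cls
  dsimp only
  rw [if_neg, if_neg, if_neg, if_neg, if_neg, if_neg, if_neg, if_pos rfl]
  all_goals decide


private theorem cspA_cls8 {n v w : ℕ} (sg : ℕ) (z : Inp) (P : BV (n + 1)) (I : BV v) (K : BV 3)
    (R : BV w) : cls sg z ⟨bvec 4 8, P, I, K, R⟩ = cl8 ⟨bvec 4 8, P, I, K, R⟩ := by
  unfold cls
  dsimp only
  rw [if_neg, if_neg, if_neg, if_neg, if_neg, if_neg, if_neg, if_neg, if_pos rfl]
  all_goals decide


private theorem cspA_cls9 {n v w : ℕ} (sg : ℕ) (z : Inp) (P : BV (n + 1)) (I : BV v) (K : BV 3)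
    (R : BV w) : cls sg z ⟨bvec 4 9, P, I, K, R⟩ = cl9 ⟨bvec 4 9, P, I, K, R⟩ := by
  unfold cls
  dsimp only
  rw [if_neg, if_neg, if_neg, if_neg, if_neg, if_neg, if_neg, if_neg, if_neg, if_pos rfl]
  all_goals decide


/-- (take `X P K I` = value of `vloc w P K I`, `pay P I` = value of `vnet (zv w) P true I`; through
the stages of the network `vnet (bvec w (nst n)) P b I` has the value of
`vnet (zv w) (trace c (nst n) P) b I` with `c t p` = value of `vsel v (bvec w t) p`) -/
theorem csp_of_tsat {n v w sg : ℕ} (hw : nst n < 2 ^ w) {z : Inp}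
    (h : TSat (n := n) (v := v) (w := w) (cls sg z)) :
    ∃ X pay, Csp (n := n) (v := v) sg z X pay := by
  obtain ⟨a, ha⟩ := h
  have hceq : ∀ x y : Ix n v w, (∀ b : Bool, ∃ j : Fin 3, a (ceq b x y j).2 = (ceq b x y j).1) →
      a x = a y := by
    intro x y hb
    obtain ⟨j0, h0⟩ := hb false
    obtain ⟨j1, h1⟩ := hb true
    have h0' : a x = false ∨ a y = true := by
      fin_cases j0
      · exact Or.inl h0
      · exact Or.inr h0
      · exact Or.inr h0
    have h1' : a x = true ∨ a y = false := by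
      fin_cases j1
      · exact Or.inl h1
      · exact Or.inr h1
      · exact Or.inr h1
    rcases h0' with h | h <;> rcases h1' with h' | h' <;> simp_all
  have hunit : ∀ (s : Bool) (x : Ix n v w),
      (∃ j : Fin 3, a (cunit s x j).2 = (cunit s x j).1) → a x = s := by
    rintro s x ⟨j, hj⟩
    fin_cases j
    · exact hj
    · exact hj
    · exact hj
  let c : ℕ → BV (n + 1) → Bool := fun t p => a (vsel v (bvec w t) p)
  -- the network
  have hnet : ∀ t ≤ nst n, ∀ (P : BV (n + 1)) (b : Bool) (I : BV v),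
      a (vnet (bvec w t) P b I) = a (vnet (zv w) (trace c t P) b I) := by
    intro t
    induction t with
    | zero =>
      intro _ P b I
      have h0 : bvec w 0 = zv w := by
        funext i
        exact Nat.zero_testBit i
      rw [h0]
      rfl
    | succ t ih =>
      intro ht P b I
      have htl : t < nst n := ht
      have hbt : bval (bvec w t) = t := bval_bvec_of_lt (htl.trans hw)
      have hinc : inc (bvec w t) = bvec w (t + 1) := by
        unfold inc
        rw [hbt]
      have hstep : a (vnet (bvec w t) (src t (c t) P) b I) = a (vnet (bvec w (t + 1)) P b I) := by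
        have hk : ∀ k2 : Bool, a (vnet (bvec w t) (src t (c t) P) b I) = k2 ∨
            a (vnet (bvec w (t + 1)) P b I) = !k2 := by
          intro k2
          have h1 := ha ⟨bvec 4 8, P, I, ![b, c t P, k2], bvec w t⟩
          rw [cspA_cls8] at h1
          unfold cl8 at h1
          dsimp only at h1
          rw [hbt, if_pos htl, hinc] at h1
          obtain ⟨j, hj⟩ := h1
          fin_cases j
          · exfalso
            have h2 : c t P = !(c t P) := hj
            cases hc : c t P <;> rw [hc] at h2 <;> simp at h2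
          · left
            exact hj
          · right
            exact hj
        have h1 := hk true
        have h2 := hk false
        rcases h1 with h | h <;> rcases h2 with h' | h' <;> simp_all
      rw [← hstep, ih htl.le]
      rfl
  refine ⟨fun P K I => a (vloc w P K I), fun P I => a (vnet (zv w) P true I), ?_⟩
  refine ⟨?_, ?_, ?_, ?_, ?_, ?_, ?_, ?_⟩
  · -- loc
    intro P hP I K
    have h1 := ha ⟨bvec 4 0, P, I, K, zv w⟩
    rw [cspA_cls0] at h1
    unfold cl0 at h1
    dsimp only at h1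
    rw [if_pos hP] at h1
    exact h1
  · -- link
    intro P hP hne I
    refine hceq _ _ fun b => ?_
    have h1 := ha ⟨bvec 4 1, P, I, fun _ => b, zv w⟩
    rw [cspA_cls1] at h1
    unfold cl1 at h1
    dsimp only at h1
    rw [if_pos ⟨hP, hne⟩] at h1
    exact h1
  · -- init
    intro I
    refine hunit _ _ ?_
    have h1 := ha ⟨bvec 4 2, zv _, I, zv 3, zv w⟩
    rw [cspA_cls2] at h1
    exact h1
  · -- fin
    refine hunit _ _ ?_
    have h1 := ha ⟨bvec 4 3, zv _, zv v, zv 3, zv w⟩
    rw [cspA_cls3] at h1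
    exact h1
  · -- self
    intro P I hI
    refine hunit _ _ ?_
    have h1 := ha ⟨bvec 4 4, P, I, zv 3, zv w⟩
    rw [cspA_cls4] at h1
    unfold cl4 at h1
    dsimp only at h1
    rw [if_pos hI] at h1
    exact h1
  · -- pay1
    intro P hP I
    refine hceq _ _ fun b => ?_
    have h1 := ha ⟨bvec 4 6, P, I, fun _ => b, zv w⟩
    rw [cspA_cls6] at h1
    unfold cl6 at h1
    dsimp only at h1
    rw [if_pos hP] at h1
    exact h1
  · -- pay0
    intro P hP b hb
    refine hunit _ _ ?_
    have h1 := ha ⟨bvec 4 7, P, zv v, zv 3, zv w⟩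
    rw [cspA_cls7] at h1
    unfold cl7 at h1
    dsimp only at h1
    have hP' : ¬ gt P n = true := by rw [hP]; exact Bool.false_ne_true
    rw [if_neg hP', hb] at h1
    exact h1
  · -- look
    intro P hP
    refine ⟨trace c (nst n) P, ?_, ?_⟩
    · intro I hI
      have h1 : a (vnet (bvec w (nst n)) P false I) = a (vloc w P kK I) := by
        refine hceq _ _ fun b => ?_
        have h1 := ha ⟨bvec 4 9, P, I, ![false, b, false], zv w⟩
        rw [cspA_cls9] at h1
        unfold cl9 at h1
        dsimp only at h1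
        rw [if_pos ⟨hP, Or.inr hI⟩] at h1
        exact h1
      have h2 : a (vnet (zv w) (trace c (nst n) P) false I) = gt (trace c (nst n) P) (bval I) := by
        refine hunit _ _ ?_
        have h1 := ha ⟨bvec 4 5, trace c (nst n) P, I, zv 3, zv w⟩
        rw [cspA_cls5] at h1
        unfold cl5 at h1
        dsimp only at h1
        rw [if_pos hI] at h1
        exact h1
      rw [← h2, ← hnet (nst n) le_rfl, h1]
    · intro I
      have h1 : a (vnet (bvec w (nst n)) P true I) = a (vloc w P kR I) := by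
        refine hceq _ _ fun b => ?_
        have h1 := ha ⟨bvec 4 9, P, I, ![true, b, false], zv w⟩
        rw [cspA_cls9] at h1
        unfold cl9 at h1
        dsimp only at h1
        rw [if_pos ⟨hP, Or.inl rfl⟩] at h1
        exact h1
      rw [← hnet (nst n) le_rfl, h1]

end Pool.Agent.NUM.S3
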