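import Pool.Agent.NUM.S3Bv
import Pool.Agent.HWM.Select

/-! # the selection network in the form used by the clauses -/

namespace Pool.Agent.NUM.S3

open Pool.Agent.HWM.BenesB in
private theorem sbit_eq {k : ℕ} (j : ℕ) (hj : j < 5 * k) :
    sbit k (5 * k - 1 - j) = (walkBit k ⟨j, hj⟩ : ℕ) := by
  unfold sbit walkBit
  by_cases h1 : j < 2 * k
  · have e1 : ¬ (5 * k - 1 - j < k) := by omega
    have e2 : ¬ (5 * k - 1 - j < 2 * k) := by omega
    have e3 : ¬ (5 * k - 1 - j < 3 * k) := by omega
    simp only [e1, e2, e3, h1, if_false, dif_pos]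
    unfold bitAt
    by_cases h2 : j < k
    · have e4 : ¬ (5 * k - 1 - j < 4 * k) := by omega
      simp only [e4, if_false, h2, dif_pos]
      omega
    · have e4 : 5 * k - 1 - j < 4 * k := by omega
      simp only [e4, if_true, h2, dif_neg, not_false_eq_true]
      omega
  · by_cases h2 : j < 3 * k
    · have e1 : ¬ (5 * k - 1 - j < k) := by omega
      have e2 : ¬ (5 * k - 1 - j < 2 * k) := by omega
      have e3 : 5 * k - 1 - j < 3 * k := by omega
      simp only [e1, e2, e3, h1, h2, if_false, if_true, dif_pos, dif_neg, not_false_eq_true]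
      omega
    · simp only [h1, h2, dif_neg, not_false_eq_true]
      unfold bitAt
      by_cases h3 : j - 3 * k < k
      · have e1 : ¬ (5 * k - 1 - j < k) := by omega
        have e2 : 5 * k - 1 - j < 2 * k := by omega
        simp only [e1, e2, h3, if_false, if_true, dif_pos]
        omega
      · have e1 : 5 * k - 1 - j < k := by omega
        simp only [e1, h3, if_true, dif_neg, not_false_eq_true]
        omega

open Pool.Agent.HWM.BenesB in
private theorem flipAt_eq {k : ℕ} (j : Fin k) (p : BV k) : flipAt (j : ℕ) p = flipBit j p := by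
  funext i
  unfold flipAt flipBit
  by_cases h : i = j
  · subst h; simp
  · have h' : ¬ ((i : ℕ) = (j : ℕ)) := fun h1 => h (Fin.ext h1)
    simp [h, h']

open Pool.Agent.HWM.BenesB in
/-- every function is realised by some selections (`k ≥ 1`) -/
theorem trace_complete (k : ℕ) (f : BV k → BV k) :
    ∃ c : ℕ → BV k → Bool, ∀ p, trace c (5 * k) p = f p := by
  obtain ⟨d, hd⟩ := select_walk k f
  let c : ℕ → BV k → Bool := fun t p =>
    if h : 5 * k - 1 - t < 5 * k then d ⟨5 * k - 1 - t, h⟩ p else false
  refine ⟨c, fun p => ?_⟩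
  have key : ∀ j, j ≤ 5 * k →
      trace c (5 * k) p = trace c (5 * k - j) (walk (5 * k) (walkBit k) d j p) := by
    intro j
    induction j with
    | zero => intro _; rfl
    | succ j ih =>
      intro hj
      rw [ih (by omega)]
      obtain ⟨m, hm⟩ : ∃ m, 5 * k - j = m + 1 := ⟨5 * k - j - 1, by omega⟩
      have h1 : 5 * k - (j + 1) = m := by omega
      have h4 : j < 5 * k := by omega
      have h5 : 5 * k - 1 - j = m := by omega
      have h6 : 5 * k - 1 - m = j := by omega
      rw [hm, h1, trace, walk, dif_pos h4]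
      congr 1
      have h7 : c m = d ⟨j, h4⟩ := by
        funext q
        simp only [c, h6, h4, dif_pos]
      have h8 := sbit_eq (k := k) j h4
      rw [h5] at h8
      unfold src stage
      rw [h7, h8, flipAt_eq]
  have := key (5 * k) le_rfl
  rw [Nat.sub_self, hd] at this
  exact this

end Pool.Agent.NUM.S3
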