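import Pool.Agent.NUM.S3Bv
import Pool.Agent.NUM.S3Net

/-! # a solution of the constraints gives a satisfying assignment -/

namespace Pool.Agent.NUM.S3

private theorem cspB_triv {n v w : ℕ} (a : Ix n v w → Bool) :
    ∃ j : Fin 3, a (ctriv n v w j).2 = (ctriv n v w j).1 := by
  cases h : a ⟨zv 4, zv _, zv v, zv 3, zv w⟩
  · exact ⟨1, h⟩
  · exact ⟨0, h⟩

private theorem cspB_ceq {n v w : ℕ} (a : Ix n v w → Bool) (b : Bool) {x y : Ix n v w}
    (h : a x = a y) : ∃ j : Fin 3, a (ceq b x y j).2 = (ceq b x y j).1 := by
  by_cases hb : a x = b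
  · exact ⟨0, hb⟩
  · refine ⟨1, ?_⟩
    change a y = !b
    rw [← h]
    exact Bool.eq_not.2 hb

private theorem cspB_unit {n v w : ℕ} (a : Ix n v w → Bool) (b : Bool) {x : Ix n v w}
    (h : a x = b) : ∃ j : Fin 3, a (cunit b x j).2 = (cunit b x j).1 := ⟨0, h⟩

/-- (assignment: tag `0`: `X P K I`; tag `1`, stage `t` = value of `R`, position `P`: with
`p = trace c t P`, the key bit `I` is `gt p (bval I)` (`false` if `n < bval I`), the payload bit `I`
is `pay p I`; tag `2`: `c t P`. The selections `c` realise `f` where `f P` is the position given by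
`look` if the top digit of `P` is `1`, and `f P = P` otherwise) -/
theorem tsat_of_csp {n v w sg : ℕ} (hw : nst n < 2 ^ w) {z : Inp}
    {X : BV (n + 1) → BV 3 → BV v → Bool} {pay : BV (n + 1) → BV v → Bool}
    (h : Csp sg z X pay) : TSat (n := n) (v := v) (w := w) (cls sg z) := by
  classical
  -- the positions given by the lookups
  have hf : ∀ P : BV (n + 1), ∃ p : BV (n + 1), gt P n = true →
      (∀ I : BV v, bval I ≤ n → X P kK I = gt p (bval I)) ∧ ∀ I, X P kR I = pay p I := by
    intro P
    by_cases hP : gt P n = true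
    · obtain ⟨p, hp⟩ := h.look P hP
      exact ⟨p, fun _ => hp⟩
    · exact ⟨P, fun hP' => absurd hP' hP⟩
  choose f hfP using hf
  obtain ⟨c, hc⟩ := trace_complete (n + 1) f
  let val : Bool → BV (n + 1) → BV v → Bool := fun b p I => if b = true then pay p I else gt p (bval I)
  let a : Ix n v w → Bool := fun x =>
    if x.T = bvec 4 0 then X x.P x.K x.I
    else if x.T = bvec 4 1 then val (x.K 0) (trace c (bval x.R) x.P) x.I
    else c (bval x.R) x.P
  have aloc : ∀ P K I, a (vloc w P K I) = X P K I := by
    intro P K I
    change (if bvec 4 0 = bvec 4 0 then _ else _) = _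
    rw [if_pos rfl]
    rfl
  have anet : ∀ R P b I, a (vnet R P b I) = val b (trace c (bval R) P) I := by
    intro R P b I
    change (if bvec 4 1 = bvec 4 0 then _ else if bvec 4 1 = bvec 4 1 then _ else _) = _
    rw [if_neg (by decide), if_pos rfl]
    rfl
  have asel : ∀ R P, a (vsel v R P) = c (bval R) P := by
    intro R P
    change (if bvec 4 2 = bvec 4 0 then _ else if bvec 4 2 = bvec 4 1 then _ else _) = _
    rw [if_neg (by decide), if_neg (by decide)]
    rfl
  have hz : bval (zv w) = 0 := bval_zv w
  refine ⟨a, fun x => ?_⟩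
  unfold cls
  split_ifs with t0 t1 t2 t3 t4 t5 t6 t7 t8 t9
  · -- local clauses
    unfold cl0
    split_ifs with hP
    · obtain ⟨j, hj⟩ := h.loc x.P hP x.I x.K
      refine ⟨j, ?_⟩
      change a (vloc w x.P _ _) = _
      rw [aloc]
      exact hj
    · exact cspB_triv a
  · -- consecutive blocks
    unfold cl1
    split_ifs with hP
    · refine cspB_ceq a _ ?_
      rw [aloc, aloc]
      exact h.link x.P hP.1 hP.2 x.I
    · exact cspB_triv a
  · refine cspB_unit a _ ?_
    rw [aloc]
    exact h.init x.I
  · refine cspB_unit a _ ?_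
    rw [aloc]
    exact h.fin
  · unfold cl4
    split_ifs with hI
    · refine cspB_unit a _ ?_
      rw [aloc]
      exact h.self x.P x.I hI
    · exact cspB_triv a
  · unfold cl5
    split_ifs with hI
    · refine cspB_unit a _ ?_
      rw [anet, hz]
      rfl
    · exact cspB_triv a
  · unfold cl6
    split_ifs with hP
    · refine cspB_ceq a _ ?_
      rw [anet, aloc, hz]
      exact h.pay1 x.P hP x.I
    · exact cspB_triv a
  · unfold cl7
    split_ifs with hP
    · exact cspB_triv a
    · have hP' : gt x.P n = false := by simpa using hP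
      rcases hb : inBit z x.P with _ | b
      · exact cspB_triv a
      · refine cspB_unit a _ ?_
        rw [anet, hz]
        exact h.pay0 x.P hP' b hb
  · unfold cl8
    by_cases hR : bval x.R < nst n
    · rw [if_pos hR]
      by_cases h1 : c (bval x.R) x.P = !(x.K 1)
      · refine ⟨0, ?_⟩
        change a (vsel v x.R x.P) = !(x.K 1)
        rw [asel]
        exact h1
      · have h1' : c (bval x.R) x.P = x.K 1 := by
          have := Bool.eq_not.2 (fun e => h1 (by rw [e]) : ¬ c (bval x.R) x.P = !(x.K 1))
          rwa [Bool.not_not] at this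
        have hinc : bval (inc x.R) = bval x.R + 1 := by
          refine bval_inc x.R fun hall => ?_
          rw [bval_max_iff] at hall
          have h2 : 2 ^ w - 1 < nst n := by rw [← hall]; exact hR
          omega
        have hsame : a (vnet x.R (if x.K 1 = true then flipAt (sbit (n + 1) (bval x.R)) x.P else x.P)
            (x.K 0) x.I) = a (vnet (inc x.R) x.P (x.K 0) x.I) := by
          rw [anet, anet, hinc]
          have h3 : trace c (bval x.R + 1) x.P =
              trace c (bval x.R) (src (bval x.R) (c (bval x.R)) x.P) := rfl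
          rw [h3]
          unfold src
          rw [h1']
        by_cases h4 : a (vnet (inc x.R) x.P (x.K 0) x.I) = x.K 2
        · exact ⟨1, hsame.trans h4⟩
        · exact ⟨2, Bool.eq_not.2 h4⟩
    · rw [if_neg hR]
      exact cspB_triv a
  · unfold cl9
    by_cases hP : gt x.P n = true ∧ (x.K 0 = true ∨ bval x.I ≤ n)
    · rw [if_pos hP]
      refine cspB_ceq a _ ?_
      have hb : bval (bvec w (nst n)) = nst n := bval_bvec_of_lt hw
      have ht : trace c (nst n) x.P = f x.P := hc x.P
      rw [anet, hb, ht, aloc]
      obtain ⟨hk, hr⟩ := hfP x.P hP.1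
      by_cases hK : x.K 0 = true
      · change (if x.K 0 = true then pay (f x.P) x.I else gt (f x.P) (bval x.I)) = _
        rw [if_pos hK, if_pos hK, hr]
      · change (if x.K 0 = true then pay (f x.P) x.I else gt (f x.P) (bval x.I)) = _
        rw [if_neg hK, if_neg hK]
        have hI : bval x.I ≤ n := hP.2.resolve_left hK
        rw [hk x.I hI]
    · rw [if_neg hP]
      exact cspB_triv a
  · exact cspB_triv a

end Pool.Agent.NUM.S3
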