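import Pool.Agent.NUM.S3Run
import Pool.Agent.NUM.S3Tab
import Pool.Agent.NUM.S3InBit

/-! # a solution of the constraints is a computation -/

namespace Pool.Agent.NUM.S3

/-- the next state only depends on the relevant cells -/
theorem bnext_congr {n sg : ℕ} {G : List Ins} (hG : Good n sg G) {p : ℕ}
    {s s' r r' self self' : ℕ → Bool} (hs : ∀ I < 2 ^ (sg + 1), s I = s' I)
    (hself : ∀ t ≤ n, self t = self' t)
    (hr : p = 2 ^ sg - 1 → isNe n sg s' = true → ∀ I < 2 ^ (sg + 1), r I = r' I)
    (hr0 : p ≠ 2 ^ sg - 1 → ∀ i j l, G[p]? = some (.ask i j l) → r 0 = r' 0) :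
    ∀ I < 2 ^ (sg + 1), bnext n sg G p s r self I = bnext n sg G p s' r' self' I := by
  intro I hI
  have h2 : 2 ^ (sg + 1) = 2 * 2 ^ sg := by ring
  have hbig := hG.big
  unfold bnext
  by_cases hp : p = 2 ^ sg - 1
  · rw [if_pos hp, if_pos hp]
    have e0 : s 0 = s' 0 := hs _ (by omega)
    have e1 : s 1 = s' 1 := hs _ (by omega)
    have e2 : s 2 = s' 2 := hs _ (by omega)
    have e3 : s (2 ^ sg + n) = s' (2 ^ sg + n) := hs _ (by omega)
    have e4 : s (2 ^ (sg + 1) - 2) = s' (2 ^ (sg + 1) - 2) := hs _ (by omega)
    have e5 : s I = s' I := hs _ hI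
    have e6 : isPush s = isPush s' := by unfold isPush; rw [e0, e1]
    have e7 : isPop s = isPop s' := by unfold isPop; rw [e0, e1]
    have e8 : isNe n sg s = isNe n sg s' := by unfold isNe; rw [e3]
    have e9 : (isPop s' && isNe n sg s') = true → ∀ J < 2 ^ (sg + 1), r J = r' J := by
      intro h
      rw [Bool.and_eq_true] at h
      exact hr hp h.2
    unfold ctlNext
    rw [e6, e7, e8, e2, e4, e5]
    split_ifs with c1 c2 c3 c4 c5 c6
    · exact e9 c2 2 (by omega)
    · rfl
    · rfl
    · exact hself _ (by omega)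
    · exact e9 c6 I hI
    all_goals rfl
  · rw [if_neg hp, if_neg hp]
    cases hg : G[p]? with
    | none => exact hs I hI
    | some c =>
      have hmem : c ∈ G := List.mem_of_getElem? hg
      have htop := hG.top c hmem
      cases c with
      | nand i j k =>
        simp only [Ins.top, max_le_iff] at htop
        simp only
        rw [hs j (by omega), hs k (by omega)]
        by_cases hIi : I = i
        · subst hIi; simp
        · rw [Function.update_of_ne hIi, Function.update_of_ne hIi]; exact hs I hI
      | ask i j l =>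
        simp only
        rw [hr0 hp i j l hg]
        by_cases hIi : I = i
        · subst hIi; simp
        · rw [Function.update_of_ne hIi, Function.update_of_ne hIi]; exact hs I hI

section
variable {n sg : ℕ} {G : List Ins} {z : Inp}
  {X : BV (n + 1) → BV 3 → BV (sg + 1) → Bool} {pay : BV (n + 1) → BV (sg + 1) → Bool}

/-- the second input of a solution -/
def solY (n sg : ℕ) (pay : BV (n + 1) → BV (sg + 1) → Bool) : Inp := fun a =>
  if a.length + 2 ≤ n then pay (posOf n (true :: a)) (zv (sg + 1)) else false

/-- the position of block `k` -/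
def bpos (n k : ℕ) : BV (n + 1) := bvec (n + 1) (2 ^ n + k)

theorem bval_bpos {k : ℕ} (hk : k < 2 ^ n) : bval (bpos n k) = 2 ^ n + k := by
  have : 2 ^ (n + 1) = 2 * 2 ^ n := by ring
  exact bval_bvec_of_lt (by omega)

theorem gt_bpos_top {k : ℕ} (hk : k < 2 ^ n) : gt (bpos n k) n = true := by
  rw [gt_top_iff, bval_bpos hk]; omega

theorem gt_bpos {k : ℕ} (hk : k < 2 ^ n) (t : ℕ) : gt (bpos n k) t = selfOf n k t := by
  rw [← testBit_bval, bval_bpos hk]; rfl

theorem bpos_mod (hsg : sg ≤ n) {k : ℕ} (hk : k < 2 ^ n) :
    bval (bpos n k) % 2 ^ sg = k % 2 ^ sg := by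
  rw [bval_bpos hk]
  have : 2 ^ n = 2 ^ sg * 2 ^ (n - sg) := by rw [← pow_add]; congr 1; omega
  rw [this, add_comm, Nat.add_mul_mod_self_left]

theorem inc_bpos {k : ℕ} (hk : k + 1 < 2 ^ n) : inc (bpos n k) = bpos n (k + 1) := by
  have h1 : ¬ ∀ i, bpos n k i = true := by
    rw [bval_max_iff, bval_bpos (by omega)]
    have : 2 ^ (n + 1) = 2 * 2 ^ n := by ring
    omega
  apply bval_injective
  rw [bval_inc _ h1, bval_bpos (by omega), bval_bpos hk]
  omega

/-- the meaning of the local clauses in a solution -/
theorem Csp.local' (h : Csp sg z X pay) (hG : Good n sg G)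
    (hz : ∀ a, z (false :: a) = enc n sg G a) {k : ℕ} (hk : k < 2 ^ n) :
    (∀ I < 2 ^ (sg + 1), X (bpos n k) kA (bvec (sg + 1) I) =
      bnext n sg G (k % 2 ^ sg) (fun I => X (bpos n k) kB (bvec (sg + 1) I))
        (fun I => X (bpos n k) kR (bvec (sg + 1) I))
        (fun I => X (bpos n k) kS (bvec (sg + 1) I)) I) ∧
      ∀ f, bkey n sg G (k % 2 ^ sg) (fun I => X (bpos n k) kB (bvec (sg + 1) I)) = some f →
        ∀ t ≤ n, X (bpos n k) kK (bvec (sg + 1) t) = f t := by
  refine local_sound (x := fun K I => X (bpos n k) (bvec 3 K) (bvec (sg + 1) I)) hG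
    (Nat.mod_lt _ (by positivity)) ?_
  intro I hI K hK
  obtain ⟨j, hj⟩ := h.loc (bpos n k) (gt_bpos_top hk) (bvec (sg + 1) I) (bvec 3 K)
  rw [dbit_kind hG.le hz, dbit_idx hG.le hz, dbit_sign hG.le hz, bval_bvec_of_lt hI,
    bval_bvec_of_lt (by norm_num; exact hK), bpos_mod hG.le hk] at hj
  exact ⟨j, hj⟩

/-- the states in a solution are the states of the computation -/
theorem Csp.states (h : Csp sg z X pay) (hG : Good n sg G)
    (hz : ∀ a, z (false :: a) = enc n sg G a) : ∀ k < 2 ^ n,
    (∀ I < 2 ^ (sg + 1), X (bpos n k) kB (bvec (sg + 1) I) =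
      bst n sg G (pair z (solY n sg pay)) k I) ∧
    (∀ I < 2 ^ (sg + 1), X (bpos n k) kA (bvec (sg + 1) I) =
      bst n sg G (pair z (solY n sg pay)) (k + 1) I) := by
  intro k
  induction k using Nat.strong_induction_on with
  | _ k ih =>
    intro hk
    have h2 : 2 ^ (sg + 1) = 2 * 2 ^ sg := by ring
    have hbig := hG.big
    set Z := pair z (solY n sg pay) with hZ
    have hB : ∀ I < 2 ^ (sg + 1), X (bpos n k) kB (bvec (sg + 1) I) = bst n sg G Z k I := by
      intro I hI
      cases k with
      | zero => rw [bst_zero]; exact h.init _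
      | succ k =>
        rw [← inc_bpos hk, ← h.link (bpos n k) (gt_bpos_top (by omega)) ?_,
          (ih k (by omega) (by omega)).2 I hI]
        rw [bval_max_iff, bval_bpos (by omega)]
        have : 2 ^ (n + 1) = 2 * 2 ^ n := by ring
        omega
    refine ⟨hB, fun I hI => ?_⟩
    obtain ⟨hloc, hkey⟩ := h.local' hG hz hk
    obtain ⟨P, hP1, hP2⟩ := h.look (bpos n k) (gt_bpos_top hk)
    have hK : ∀ t ≤ n, X (bpos n k) kK (bvec (sg + 1) t) = gt P t := by
      intro t ht
      have e : bval (bvec (sg + 1) t) = t := bval_bvec_of_lt (by omega)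
      rw [hP1 _ (by rw [e]; exact ht), e]
    rw [hloc I hI, bst_succ]
    refine bnext_congr hG hB ?_ ?_ ?_ I hI
    · intro t ht
      have e : bval (bvec (sg + 1) t) = t := bval_bvec_of_lt (by omega)
      show X (bpos n k) kS (bvec (sg + 1) t) = _
      rw [h.self _ _ (by rw [e]; exact ht), e, gt_bpos hk]
    · intro hp hne J hJ
      show X (bpos n k) kR (bvec (sg + 1) J) = _
      obtain ⟨q1, q2⟩ := ptr_lt hG Z k hk.le hne
      rw [rcv_ctl n sg G Z k hp q1.le, hP2]
      set q := num n fun t => bst n sg G Z k (2 ^ sg + t) with hq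
      have hPq : P = bpos n q := by
        apply ext_gt
        intro t ht
        rw [← hK t (by omega), hkey (fun t => X (bpos n k) kB (bvec (sg + 1) (2 ^ sg + t)))
          (by unfold bkey; rw [if_pos hp]) t (by omega), hB _ (by omega), gt_bpos (by omega)]
        unfold selfOf
        by_cases htn : t = n
        · subst htn
          rw [Nat.testBit_two_pow_add_eq, Nat.testBit_lt_two_pow (by omega)]
          exact hne
        · have htn' : t < n := by omega
          rw [Nat.testBit_two_pow_add_gt htn', hq, testBit_num]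
          simp [htn']
      rw [hPq, h.pay1 _ (gt_bpos_top (by omega)), (ih q q1 (by omega)).1 J hJ]
    · intro hp i j l hg
      show X (bpos n k) kR (bvec (sg + 1) 0) = _
      have hmem : Ins.ask i j l ∈ G := List.mem_of_getElem? hg
      have hl : l < n := hG.ask i j l hmem
      have htop := hG.top _ hmem
      simp only [Ins.top, max_le_iff] at htop
      set w := word (bst n sg G Z k) j l with hw
      have hwl : w.length = l := by rw [hw]; simp [word]
      rw [rcv_ask Z k hp hg, hP2]
      have hPw : P = posOf n w := by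
        apply ext_gt
        intro t ht
        rw [← hK t (by omega), hkey (fun t => if t < l then
          X (bpos n k) kB (bvec (sg + 1) (j + t)) else decide (t = l))
          (by unfold bkey; rw [if_neg hp, hg]) t (by omega), gt_posOf (by omega), hwl]
        split_ifs with htl
        · rw [hB _ (by omega), hw]
          unfold word
          rw [List.getD_eq_getElem _ _ (by simpa using htl)]
          simp
        · rfl
      have hz0 : bvec (sg + 1) 0 = zv (sg + 1) := by
        funext i; simp [bvec, zv]
      have htopw : gt (posOf n w) n = false := by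
        rw [gt_posOf (by omega), if_neg (by omega)]
        simp only [decide_eq_false_iff_not]; omega
      rw [hPw, hz0]
      show _ = Z w
      clear_value w
      cases w with
      | nil => rw [h.pay0 _ htopw false (inBit_nil (by omega) z), hZ, pair_nil]
      | cons b a =>
        rw [List.length_cons] at hwl
        cases b with
        | false =>
          rw [h.pay0 _ htopw _ (inBit_false (by omega) z), hZ, pair_false]
        | true =>
          rw [hZ, pair_true, solY, if_pos (by omega)]

end

/-- (put `y a = pay (posOf n (true :: a)) 0` for `a.length + 2 ≤ n`, `false` otherwise; show by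
strong induction on `k ≤ 2 ^ n - 1` that the state before block `k` in the solution is `bst k`) -/
theorem run_of_csp {n sg : ℕ} {G : List Ins} (hG : Good n sg G) {z : Inp}
    (hz : ∀ a, z (false :: a) = enc n sg G a)
    {X : BV (n + 1) → BV 3 → BV (sg + 1) → Bool} {pay : BV (n + 1) → BV (sg + 1) → Bool}
    (h : Csp sg z X pay) :
    ∃ y : Inp, Supp (n - 2) y ∧
      run (eval G (pair z y)) (2 ^ (n - sg)) zeroMem [] = some true := by
  refine ⟨solY n sg pay, ?_, ?_⟩
  · intro a ha
    unfold solY
    rw [if_neg (by omega)]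
  · rw [run_iff_acc hG]
    have hpos : 0 < 2 ^ n := by positivity
    have h1 := (h.states hG hz (2 ^ n - 1) (by omega)).2 (2 ^ (sg + 1) - 1) (by
      have : 0 < 2 ^ (sg + 1) := by positivity
      omega)
    rw [show 2 ^ n - 1 + 1 = 2 ^ n by omega] at h1
    rw [← h1]
    have e1 : bpos n (2 ^ n - 1) = fun _ => true := by
      apply bval_injective
      rw [bval_true, bval_bpos (by omega)]
      have : 2 ^ (n + 1) = 2 * 2 ^ n := by ring
      omega
    have e2 : bvec (sg + 1) (2 ^ (sg + 1) - 1) = fun _ => true := by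
      apply bval_injective
      rw [bval_true, bval_bvec_of_lt]
      have : 0 < 2 ^ (sg + 1) := by positivity
      omega
    rw [e1, e2]
    exact h.fin

end Pool.Agent.NUM.S3
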