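import Pool.Agent.NUM.S3Addr
import Pool.Agent.NUM.S3CspA
import Pool.Agent.NUM.S3CspB
import Pool.Agent.NUM.S3Sound
import Pool.Agent.NUM.S3Compl

/-! # the pivot property -/

namespace Pool.Agent.NUM.S3

theorem V_of_run {n sg : ℕ} {G : List Ins} (hG : Good n sg G) {z : Inp}
    (hz : ∀ a, z (false :: a) = enc n sg G a) {y : Inp}
    (h : run (eval G (pair z y)) (2 ^ (n - sg)) zeroMem [] = some true) : V n sg z := by
  obtain ⟨X, pay, hX⟩ := csp_of_run hG hz h
  exact (SAT_Phi n (sg + 1) (Nat.size (nst n)) sg z).mpr (tsat_of_csp (Nat.lt_size_self _) hX)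

theorem run_of_V {n sg : ℕ} {G : List Ins} (hG : Good n sg G) {z : Inp}
    (hz : ∀ a, z (false :: a) = enc n sg G a) (h : V n sg z) :
    ∃ y : Inp, Supp (n - 2) y ∧
      run (eval G (pair z y)) (2 ^ (n - sg)) zeroMem [] = some true := by
  obtain ⟨X, pay, hX⟩ := csp_of_tsat (Nat.lt_size_self _)
    ((SAT_Phi n (sg + 1) (Nat.size (nst n)) sg z).mp h)
  exact run_of_csp hG hz hX

end Pool.Agent.NUM.S3
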