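import Pool.Agent.NUM.Pivot
import Pool.Agent.NUM.S3Dec
import Pool.Agent.NUM.S3Pivot

/-!
# P5/P6: the pivot from a program for 3SAT
-/

set_option autoImplicit false

namespace Pool.Agent.NUM

open Filter

/-- 3SAT with `2 ^ m` variables and `2 ^ m` clauses has programs of size `2 ^ o(m)` and time
`2 ^ ((c + o(1)) m)` -/
def SatCl (c : ℝ) : Prop :=
  ∀ δ : ℝ, 0 < δ → ∃ m₀ : ℕ, ∀ m : ℕ, m₀ ≤ m → ∃ (G : List Ins) (s T : ℕ), Sz s G ∧
    (s : ℝ) ≤ 2 ^ (δ * m) ∧ (T : ℝ) ≤ 2 ^ ((c + δ) * m) ∧ Decides G (S3.satLen m) T (S3.SAT m)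

/-- from `∀ δ ∃ G` to sequences -/
theorem seq_of_delta {e : ℝ} {Q : ℕ → List Ins → ℕ → Prop}
    (h : ∀ δ : ℝ, 0 < δ → ∃ L₀ : ℕ, ∀ L : ℕ, L₀ ≤ L → ∃ (G : List Ins) (s T : ℕ), Sz s G ∧
      (s : ℝ) ≤ 2 ^ (δ * L) ∧ (T : ℝ) ≤ 2 ^ ((e + δ) * L) ∧ Q L G T) :
    ∃ (G : ℕ → List Ins) (s T : ℕ → ℕ), SubExp s ∧ ExpLe e T ∧ (∀ L, Sz (s L) (G L)) ∧
      ∀ᶠ L : ℕ in atTop, Q L (G L) (T L) := by
  classical
  -- for `n`, a bound from which `δ = 1 / (n + 1)` works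
  have h1 : ∀ n : ℕ, ∃ L₀ : ℕ, ∀ L : ℕ, L₀ ≤ L → ∃ (G : List Ins) (s T : ℕ), Sz s G ∧
      (s : ℝ) ≤ 2 ^ (1 / ((n : ℝ) + 1) * L) ∧ (T : ℝ) ≤ 2 ^ ((e + 1 / ((n : ℝ) + 1)) * L) ∧
      Q L G T := fun n => h _ (by positivity)
  choose N hN using h1
  -- the largest `n ≤ L` whose bounds up to `n` are passed
  let P : ℕ → ℕ → Prop := fun L n => ∀ i ≤ n, N i ≤ L
  let nn : ℕ → ℕ := fun L => Nat.findGreatest (P L) L
  have hnn : ∀ L, N 0 ≤ L → N (nn L) ≤ L := by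
    intro L hL
    have h2 : P L (nn L) := Nat.findGreatest_spec (P := P L) (Nat.zero_le L) (by
      intro i hi
      have : i = 0 := by omega
      subst this
      exact hL)
    exact h2 _ le_rfl
  have hlim : ∀ n, ∀ᶠ L in atTop, n ≤ nn L := by
    intro n
    filter_upwards [eventually_ge_atTop (n + ∑ i ∈ Finset.range (n + 1), N i)] with L hL
    apply Nat.le_findGreatest (by omega)
    intro i hi
    have h3 : N i ≤ ∑ i ∈ Finset.range (n + 1), N i :=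
      Finset.single_le_sum (f := N) (fun _ _ => Nat.zero_le _) (Finset.mem_range.2 (by omega))
    omega
  have h2 : ∀ L : ℕ, ∃ (G : List Ins) (s T : ℕ), Sz s G ∧ (N 0 ≤ L →
      (s : ℝ) ≤ 2 ^ (1 / ((nn L : ℝ) + 1) * L) ∧
      (T : ℝ) ≤ 2 ^ ((e + 1 / ((nn L : ℝ) + 1)) * L) ∧ Q L G T) := by
    intro L
    by_cases hL : N 0 ≤ L
    · obtain ⟨G, s, T, h3, h4⟩ := hN (nn L) L (hnn L hL)
      exact ⟨G, s, T, h3, fun _ => h4⟩
    · exact ⟨[], 0, 0, ⟨by simp, by simp⟩, fun h => absurd h hL⟩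
  choose G s T hG using h2
  have hsmall : ∀ δ : ℝ, 0 < δ → ∀ᶠ L in atTop, 1 / ((nn L : ℝ) + 1) ≤ δ := by
    intro δ hδ
    obtain ⟨n, hn⟩ := exists_nat_ge (1 / δ)
    filter_upwards [hlim n] with L hL
    have h3 : (n : ℝ) ≤ nn L := by exact_mod_cast hL
    rw [div_le_iff₀ (by positivity)]
    rw [div_le_iff₀ hδ] at hn
    nlinarith
  refine ⟨G, s, T, ?_, ?_, fun L => (hG L).1, ?_⟩
  · intro δ hδ
    filter_upwards [hsmall δ hδ, eventually_ge_atTop (N 0)] with L h3 h4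
    refine ((hG L).2 h4).1.trans (Real.rpow_le_rpow_of_exponent_le (by norm_num) ?_)
    exact mul_le_mul_of_nonneg_right h3 (Nat.cast_nonneg _)
  · intro δ hδ
    filter_upwards [hsmall δ hδ, eventually_ge_atTop (N 0)] with L h3 h4
    refine ((hG L).2 h4).2.1.trans (Real.rpow_le_rpow_of_exponent_le (by norm_num) ?_)
    exact mul_le_mul_of_nonneg_right (by linarith) (Nat.cast_nonneg _)
  · filter_upwards [eventually_ge_atTop (N 0)] with L h4
    exact ((hG L).2 h4).2.2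

theorem Lin.size_linear {E : ℝ} {n : ℕ → ℕ} (h : Lin E n) :
    Lin 0 (fun L => Nat.size (5 * (n L + 1))) := by
  have h1 := h.add (Lin.const 0 le_rfl 1)
  have h2 := h1.add (h1.add (h1.add (h1.add h1)))
  refine (h2.mono' fun L => ?_ : Lin _ (fun L => 5 * (n L + 1))).size
  omega

/-- the pivot problem of 3SAT -/
def pivotB_sat : PivotB where
  V := S3.V
  enc := S3.enc
  supp_enc := fun n sg G => S3.supp_enc n sg G
  sound := fun hG _ hz _ h => S3.V_of_run ⟨hG.len, hG.top, hG.ask, hG.big, hG.three, hG.le⟩ hz h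
  complete := fun hG _ hz h =>
    S3.run_of_V ⟨hG.len, hG.top, hG.ask, hG.big, hG.three, hG.le⟩ hz h

/-- sizes of the instances of 3SAT -/
theorem pivot_sizes {c E : ℝ} {s T n sg : ℕ → ℕ} (hc : 0 ≤ c) (hs : SubExp s) (hT : ExpLe c T)
    (hE : 0 ≤ E) (hlin : Lin E (fun L => n L + sg L)) (hn : Tendsto n atTop atTop) :
    Ex 0 (fun L => (s (S3.Vm (n L) (sg L)) + 3) * (S3.VS (n L) (sg L) + 3) * 4) ∧
      Ex (c * E) (fun L => T (S3.Vm (n L) (sg L))) ∧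
      Tendsto (fun L => S3.Vm (n L) (sg L)) atTop atTop := by
  have hnlin : Lin E n := hlin.mono' fun L => Nat.le_add_right _ _
  have hsglin : Lin E sg := hlin.mono' fun L => Nat.le_add_left _ _
  have hmlin : Lin E (fun L => S3.Vm (n L) (sg L)) := by
    have h1 := (hlin.add hnlin.size_linear).add (Lin.const 0 le_rfl 9)
    simp only [add_zero] at h1
    exact h1.mono' fun L => S3.Vm_le _ _
  have hmtop : Tendsto (fun L => S3.Vm (n L) (sg L)) atTop atTop := by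
    refine tendsto_atTop_mono (fun L => ?_) hn
    show n L ≤ S3.mm _ _ _
    unfold S3.mm
    omega
  have hBE : ∀ η : ℝ, 0 < η → ∀ᶠ L : ℕ in atTop,
      ((S3.Vm (n L) (sg L) : ℕ) : ℝ) ≤ (E + η) * L := fun η hη =>
    eventually_atTop.2 (hmlin η hη)
  have hsm : SubExp (fun L => s (S3.Vm (n L) (sg L))) := hs.comp hE hmtop hBE
  have hTm : ExpLe (c * E) (fun L => T (S3.Vm (n L) (sg L))) := hT.comp hc hE hmtop hBE
  refine ⟨?_, ex_iff.2 hTm, hmtop⟩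
  have hSS : SubExp (fun L => S3.SS (n L) (sg L + 1) (Nat.size (S3.nst (n L)))) := by
    have h1 : SubExp (fun L => Nat.size (S3.nst (n L))) := hnlin.size_linear.subExp
    unfold S3.SS
    exact (((hnlin.subExp.add (hsglin.subExp.add (SubExp.const 1))).add h1).add
      (SubExp.const 100))
  exact ex_zero_iff.2 (((hsm.add (SubExp.const 3)).mul ((hSS.pow 8).add (SubExp.const 3))).mul
    (SubExp.const 4))

/-- **The pivot from a program for 3SAT.** -/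
theorem exists_pivot {c : ℝ} (hc : 0 ≤ c) (H : SatCl c) : Nonempty (Pivot c) := by
  obtain ⟨G, s, T, hs, hT, hG, hQ⟩ := seq_of_delta (Q := fun m G T =>
    Decides G (S3.satLen m) T (S3.SAT m)) H
  obtain ⟨m₀, hm₀⟩ := eventually_atTop.1 hQ
  refine ⟨⟨pivotB_sat, ?_⟩⟩
  intro n sg E hE hlin hn hle
  obtain ⟨hSS, hTm, hmtop⟩ := pivot_sizes hc hs hT hE hlin hn
  choose G' hG' hD using fun L => show ∃ G' : List Ins,
    Sz ((s (S3.Vm (n L) (sg L)) + 3) * (S3.VS (n L) (sg L) + 3) * 4) G' ∧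
    (m₀ ≤ S3.Vm (n L) (sg L) → ∀ B, Decides G' B (T (S3.Vm (n L) (sg L))) (S3.V (n L) (sg L)))
    from by
      by_cases h : m₀ ≤ S3.Vm (n L) (sg L)
      · obtain ⟨G', h1, h2⟩ := S3.V_decides (hle L) (hG _) (hm₀ _ h)
        exact ⟨G', h1, fun _ => h2⟩
      · exact ⟨[], ⟨by simp, by simp⟩, fun h' => absurd h' h⟩
  obtain ⟨L₁, hL₁⟩ := eventually_atTop.1 (hmtop.eventually (eventually_ge_atTop m₀))
  exact ⟨G', _, _, L₁, hSS, hTm, hG', fun L hL => hD L (hL₁ L hL)⟩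

end Pool.Agent.NUM
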