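import Pool.Agent.NUM.HCore
import Pool.Agent.NUM.Abs

/-!
# Classes of problems for purely functional programs
-/

set_option autoImplicit false

namespace Pool.Agent.NUM

theorem ptr_eq_num (d : ℕ) (V : Mem) : ptr d V = num d fun r => V (4 * r + 4) := rfl

/-- `P` is decided by functional programs of size `2 ^ o(L)` in `2 ^ ((e + o(1)) L)` passes on all
instances (with large index); on the instances in `D` the computation has the property `Q` (of the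
index, the number of passes and the pointers) -/
def InG {T : Type} (Q : ℕ → ℕ → (ℕ → ℕ) → Prop) (π : Pres T) (P : T → Prop) (e : ℝ)
    (D : T → Prop) : Prop :=
  ∃ (G : ℕ → List Ins) (s t d : ℕ → ℕ) (L₀ : ℕ), Ex 0 s ∧ Ex e t ∧
    (∀ L, HSz (s L) (d L) (G L)) ∧
    ∀ τ, L₀ ≤ π.idx τ →
      (∃ b, HAns (eval (G (π.idx τ)) (π.inp τ)) (d (π.idx τ)) (t (π.idx τ)) b ∧
        (b = true ↔ P τ)) ∧
      (D τ → ∀ N, HaltsAt (eval (G (π.idx τ)) (π.inp τ)) (d (π.idx τ)) N →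
        Q (π.idx τ) N (rcl (eval (G (π.idx τ)) (π.inp τ)) (d (π.idx τ))))

/-- no condition on the computation -/
def InH {T : Type} (π : Pres T) (P : T → Prop) (e : ℝ) : Prop :=
  InG (fun _ _ _ => True) π P e fun _ => True

/-- `P` is decided by the 3SAT program on virtual instances of order `m L`, `m L ≤ (E + o(1)) L`; `Qs`
is the property of the computations of the 3SAT program of a given order -/
def InV (Qs : ℕ → ℕ → (ℕ → ℕ) → Prop) (c : ℝ) {T : Type} (π : Pres T) (P : T → Prop) (E : ℝ) :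
    Prop :=
  ∃ m : ℕ → ℕ, Lin E m ∧ Filter.Tendsto m Filter.atTop Filter.atTop ∧
    InG (fun L => Qs (m L)) π P (c * E) fun _ => True

/-- `P τ ↔ ∃ v, B (τ, v)` with a string `v` of `2 ^ ((u + o(1)) L)` bits and `B` in time
`2 ^ ((e + o(1)) L)` -/
def InEH {T : Type} (u : ℝ) (π : Pres T) (P : T → Prop) (e : ℝ) : Prop :=
  ∃ (β : ℕ → ℕ) (B : T × Inp → Prop), Lin u β ∧ InH (π.ext β) B e ∧
    ∃ L₀, ∀ τ, L₀ ≤ π.idx τ → (P τ ↔ ∃ v, B (τ, v))

/-! ### basic lemmas -/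

theorem InG.mono {T : Type} {Q Q' : ℕ → ℕ → (ℕ → ℕ) → Prop} {π : Pres T} {P D D' : T → Prop}
    {e e' : ℝ} (h : InG Q π P e D) (he : e ≤ e') (hQ : ∀ L N rc, Q L N rc → Q' L N rc)
    (hD : ∀ τ, D' τ → D τ) : InG Q' π P e' D' := by
  obtain ⟨G, s, t, d, L₀, h1, h2, h3, h4⟩ := h
  exact ⟨G, s, t, d, L₀, h1, h2.mono he, h3, fun τ hτ =>
    ⟨(h4 τ hτ).1, fun hDτ N hN => hQ _ _ _ ((h4 τ hτ).2 (hD τ hDτ) N hN)⟩⟩

theorem InG.congr {T : Type} {Q : ℕ → ℕ → (ℕ → ℕ) → Prop} {π : Pres T} {P P' D : T → Prop}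
    {e : ℝ} (h : InG Q π P e D) (hP : ∀ τ, P τ ↔ P' τ) : InG Q π P' e D := by
  obtain ⟨G, s, t, d, L₀, h1, h2, h3, h4⟩ := h
  refine ⟨G, s, t, d, L₀, h1, h2, h3, fun τ hτ => ⟨?_, (h4 τ hτ).2⟩⟩
  obtain ⟨b, hb, hb'⟩ := (h4 τ hτ).1
  exact ⟨b, hb, hb'.trans (hP τ)⟩

theorem InG.toH {T : Type} {Q : ℕ → ℕ → (ℕ → ℕ) → Prop} {π : Pres T} {P D : T → Prop}
    {e : ℝ} (h : InG Q π P e D) : InH π P e := by
  obtain ⟨G, s, t, d, L₀, h1, h2, h3, h4⟩ := h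
  exact ⟨G, s, t, d, L₀, h1, h2, h3, fun τ hτ => ⟨(h4 τ hτ).1, fun _ _ _ => trivial⟩⟩

theorem InH.mono {T : Type} {π : Pres T} {P : T → Prop} {e e' : ℝ} (h : InH π P e)
    (he : e ≤ e') : InH π P e' := InG.mono h he (fun _ _ _ h => h) fun _ h => h

end Pool.Agent.NUM
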