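import Pool.Agent.NUM.S3Loc
import Pool.Agent.NUM.HFam

/-!
# The pivot for history programs: table of local clauses, blocks

The control block at the end of a pass: the key names the block at the beginning of the pass which
is recalled (its even cells are the recalled state), always (the recalls of the programs are valid);
afterwards the even cells are kept, the odd cells receive the even cells which are returned, the last
index is `cell 0 ∧ cell 2`.
-/

set_option autoImplicit false

namespace Pool.Agent.NUM.S3

/-- the recall at the end of a pass -/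
def lctlH (n sg I K : ℕ) : Fin 3 → LLit :=
  match K with
  | 0 => if I < 2 ^ sg ∧ I % 2 = 1 then leq false (1, I) (2, I - 1)
      else if I = 2 ^ (sg + 1) - 1 then land 0 (1, I) (true, 0, 0) (true, 0, 2)
      else leq false (1, I) (0, I)
  | 1 => if I < 2 ^ sg ∧ I % 2 = 1 then leq true (1, I) (2, I - 1)
      else if I = 2 ^ (sg + 1) - 1 then land 1 (1, I) (true, 0, 0) (true, 0, 2)
      else leq true (1, I) (0, I)
  | 2 => if I = 2 ^ (sg + 1) - 1 then land 2 (1, I) (true, 0, 0) (true, 0, 2)
      else if I ≤ n then
        (if sg ≤ I ∧ I < n then leq false (3, I) (0, 4 * (I - sg) + 4)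
         else ![(decide (I = n), 3, I), (decide (I = n), 3, I), (decide (I = n), 3, I)])
      else ltriv
  | 3 => if sg ≤ I ∧ I < n then leq true (3, I) (0, 4 * (I - sg) + 4) else ltriv
  | _ => ltriv

/-- the local clauses in a block of type `p` -/
def lclH (n sg : ℕ) (G : List Ins) (p I K : ℕ) : Fin 3 → LLit :=
  if p = 2 ^ sg - 1 then lctlH n sg I K
  else match G[p]? with
    | none => lkeep I K
    | some (.nand i j k) => lnand i j k I K
    | some (.ask i j l) => lask n i j l I K

/-- the table of the program `G` -/
def encH (n sg : ℕ) (G : List Ins) : Inp := fun a =>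
  let p := lnum (a.take sg)
  let I := lnum ((a.drop sg).take (sg + 1))
  let K := lnum ((a.drop (sg + (sg + 1))).take 3)
  let j := lnum ((a.drop (sg + (sg + 1) + 3)).take 2)
  let i := lnum (a.drop (sg + (sg + 1) + 3 + 2))
  if a.length = 3 * sg + 10 ∧ j < 3 then
    lbit (lclH n sg G p I K ⟨j % 3, Nat.mod_lt _ (by norm_num)⟩) i else false

/-- state after the recall, `r` = returned state -/
def ctlNextH (sg : ℕ) (s r : ℕ → Bool) : ℕ → Bool := fun I =>
  if I < 2 ^ sg ∧ I % 2 = 1 then r (I - 1)
  else if I = 2 ^ (sg + 1) - 1 then s 0 && s 2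
  else s I

/-- state after a block of type `p` -/
def bnextH (sg : ℕ) (G : List Ins) (p : ℕ) (s r : ℕ → Bool) : ℕ → Bool :=
  if p = 2 ^ sg - 1 then ctlNextH sg s r
  else match G[p]? with
    | none => s
    | some (.nand i j k) => Function.update s i (!(s j && s k))
    | some (.ask i _ _) => Function.update s i (r 0)

/-- digit `t` of the key of a block of type `p` (where it matters) -/
def bkeyH (n sg : ℕ) (G : List Ins) (p : ℕ) (s : ℕ → Bool) : Option (ℕ → Bool) :=
  if p = 2 ^ sg - 1 then
    some fun t => if sg ≤ t ∧ t < n then s (4 * (t - sg) + 4) else decide (t = n)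
  else match G[p]? with
    | some (.ask _ j l) => some fun t => if t < l then s (j + t) else decide (t = l)
    | _ => none

/-- the programs which are covered: cells below `2 ^ sg`, asks shorter than `n`, and on short inputs
the state recalled after pass `t` is a state before number `t`, `1 ≤ t < 2 ^ (n - sg)` -/
structure GoodH (n sg : ℕ) (G : List Ins) : Prop where
  len : G.length < 2 ^ sg
  top : ∀ c ∈ G, c.top ≤ 2 ^ sg
  ask : ∀ i j l, Ins.ask i j l ∈ G → l < n
  big : 4 * n + 8 ≤ 2 ^ sg
  three : 3 ≤ sg
  le : sg ≤ n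
  val : ∀ Z : Inp, (∀ a : List Bool, n ≤ a.length → Z a = false) →
    ∀ t, 1 ≤ t → t < 2 ^ (n - sg) → rcl (eval G Z) (n - sg) t < t

/-- acceptance after exactly `2 ^ (n - sg)` passes -/
def HAcc (n sg : ℕ) (G : List Ins) (Z : Inp) : Prop :=
  sta (eval G Z) (n - sg) (2 ^ (n - sg)) 0 = true ∧ sta (eval G Z) (n - sg) (2 ^ (n - sg)) 2 = true

/-- the recalled state before block `k` -/
def recIx (n sg : ℕ) (s : ℕ → Bool) : ℕ := 2 ^ sg * num (n - sg) fun r => s (4 * r + 4)

/-- what the lookup returns in a block of type `p`, for the list `H` of the states before the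
earlier blocks and before this block -/
def brecvH (n sg : ℕ) (G : List Ins) (Z : Inp) (p : ℕ) (H : List (ℕ → Bool)) (s : ℕ → Bool) :
    ℕ → Bool :=
  if p = 2 ^ sg - 1 then H.getD (recIx n sg s) (fun _ => false)
  else match G[p]? with
    | some (.ask _ j l) => fun _ => Z (word s j l)
    | _ => fun _ => false

/-- the states before the blocks `0, …, k` -/
def histH (n sg : ℕ) (G : List Ins) (Z : Inp) : ℕ → List (ℕ → Bool)
  | 0 => [fun _ => false]
  | k + 1 =>
    let H := histH n sg G Z k
    let s := H.getD k (fun _ => false)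
    H ++ [bnextH sg G (k % 2 ^ sg) s (brecvH n sg G Z (k % 2 ^ sg) H s)]

/-- the state before block `k` -/
def bstH (n sg : ℕ) (G : List Ins) (Z : Inp) (k : ℕ) : ℕ → Bool :=
  (histH n sg G Z k).getD k (fun _ => false)

/-- what the lookup of block `k` returns -/
def rcvH (n sg : ℕ) (G : List Ins) (Z : Inp) (k : ℕ) : ℕ → Bool :=
  brecvH n sg G Z (k % 2 ^ sg) (histH n sg G Z k) (bstH n sg G Z k)

end Pool.Agent.NUM.S3
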