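import Pool.Agent.NUM.Basic
import Pool.Agent.NUM.HBasic
import Pool.Agent.NUM.S3HDefs

/-! # the computation of a history program cut into blocks (one instruction or one recall each) -/

set_option autoImplicit false

namespace Pool.Agent.NUM.S3

theorem bstH_zero (n sg : ℕ) (G : List Ins) (Z : Inp) : bstH n sg G Z 0 = fun _ => false := by
  rfl

private theorem histH_length (n sg : ℕ) (G : List Ins) (Z : Inp) (k : ℕ) :
    (histH n sg G Z k).length = k + 1 := by
  induction k with
  | zero => rfl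
  | succ k ih => simp [histH, ih]

theorem bstH_succ (n sg : ℕ) (G : List Ins) (Z : Inp) (k : ℕ) :
    bstH n sg G Z (k + 1) = bnextH sg G (k % 2 ^ sg) (bstH n sg G Z k) (rcvH n sg G Z k) := by
  have h1 := histH_length n sg G Z k
  change (histH n sg G Z (k + 1)).getD (k + 1) (fun _ => false) = _
  simp only [histH]
  rw [List.getD_append_right _ _ _ _ (by rw [h1]), h1, Nat.sub_self]
  rfl

private theorem histH_getD (n sg : ℕ) (G : List Ins) (Z : Inp) (k i : ℕ) (hi : i ≤ k) :
    (histH n sg G Z k).getD i (fun _ => false) = bstH n sg G Z i := by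
  induction k with
  | zero =>
    have : i = 0 := by omega
    subst this; rfl
  | succ k ih =>
    by_cases h : i = k + 1
    · subst h; rfl
    · rw [← ih (by omega)]
      simp only [histH]
      rw [List.getD_append _ _ _ _ (by rw [histH_length]; omega)]

theorem rcvH_ctl (n sg : ℕ) (G : List Ins) (Z : Inp) (k : ℕ) (h : k % 2 ^ sg = 2 ^ sg - 1)
    (hk : recIx n sg (bstH n sg G Z k) ≤ k) :
    rcvH n sg G Z k = bstH n sg G Z (recIx n sg (bstH n sg G Z k)) := by
  unfold rcvH brecvH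
  rw [if_pos h, histH_getD _ _ _ _ _ _ hk]

theorem rcvH_ask {n sg : ℕ} {G : List Ins} (Z : Inp) (k : ℕ) {i j l : ℕ}
    (hp : k % 2 ^ sg ≠ 2 ^ sg - 1) (h : G[k % 2 ^ sg]? = some (.ask i j l)) :
    rcvH n sg G Z k = fun _ => Z (word (bstH n sg G Z k) j l) := by
  unfold rcvH brecvH
  rw [if_neg hp, h]

/-- instruction blocks execute the instruction -/
private theorem bstH_ins {n sg : ℕ} {G : List Ins} (Z : Inp) (k : ℕ)
    (hp : k % 2 ^ sg ≠ 2 ^ sg - 1) :
    bstH n sg G Z (k + 1) = match G[k % 2 ^ sg]? with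
      | none => bstH n sg G Z k
      | some c => c.exec Z (bstH n sg G Z k) := by
  rw [bstH_succ]
  unfold bnextH
  rw [if_neg hp]
  cases h : G[k % 2 ^ sg]? with
  | none => rfl
  | some c =>
    cases c with
    | nand i j k' => rfl
    | ask i j l =>
      rw [rcvH_ask Z k hp h]
      rfl

private theorem bstH_ctl {n sg : ℕ} {G : List Ins} (Z : Inp) (k : ℕ)
    (hp : k % 2 ^ sg = 2 ^ sg - 1) :
    bstH n sg G Z (k + 1) = ctlNextH sg (bstH n sg G Z k) (rcvH n sg G Z k) := by
  rw [bstH_succ]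
  unfold bnextH
  rw [if_pos hp]

/-- the state after the first `p` blocks of a pass -/
private theorem bstH_pass {n sg : ℕ} {G : List Ins} (Z : Inp) (t p : ℕ) (hp : p ≤ 2 ^ sg - 1) :
    bstH n sg G Z (t * 2 ^ sg + p) = eval (G.take p) Z (bstH n sg G Z (t * 2 ^ sg)) := by
  induction p with
  | zero => simp
  | succ p ih =>
    have h1 : (t * 2 ^ sg + p) % 2 ^ sg = p := by
      rw [Nat.mul_comm, Nat.mul_add_mod]
      exact Nat.mod_eq_of_lt (by omega)
    rw [← Nat.add_assoc, bstH_ins Z _ (by rw [h1]; omega), h1, ih (by omega), List.take_add_one]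
    cases h : G[p]? with
    | none => simp
    | some c => rw [eval_append]; rfl

/-- the state before the recall of pass `t` -/
private theorem bstH_before {n sg : ℕ} {G : List Ins} (hG : GoodH n sg G) (Z : Inp) (t : ℕ) :
    bstH n sg G Z (t * 2 ^ sg + (2 ^ sg - 1)) = eval G Z (bstH n sg G Z (t * 2 ^ sg)) := by
  rw [bstH_pass Z t _ le_rfl, List.take_of_length_le]
  have := hG.len
  omega

private theorem num_eq_ptr {n sg d : ℕ} {s : ℕ → Bool} {V : Mem} (hd : d = n - sg)
    (hbig : 4 * n + 8 ≤ 2 ^ sg) (h : ∀ q < 2 ^ sg, q % 2 = 0 → s q = V q) :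
    (num (n - sg) fun r => s (4 * r + 4)) = ptr d V := by
  subst hd
  unfold num ptr
  refine Finset.sum_congr rfl fun r hr => ?_
  rw [Finset.mem_range] at hr
  simp only [h (4 * r + 4) (by omega) (by omega)]

/-- the states of the program and the states before the blocks -/
private theorem pass_invH {n sg : ℕ} {G : List Ins} (hG : GoodH n sg G) {Z : Inp}
    (hZ : ∀ a : List Bool, n ≤ a.length → Z a = false) (t : ℕ) :
    t ≤ 2 ^ (n - sg) →
      (∀ q < 2 ^ sg, q % 2 = 0 → bstH n sg G Z (t * 2 ^ sg) q = sta (eval G Z) (n - sg) t q) ∧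
      Agr (2 ^ sg) (bstH n sg G Z (t * 2 ^ sg))
        (mrg (sta (eval G Z) (n - sg) t)
          (rcv (eval G Z) (n - sg) t (rcl (eval G Z) (n - sg) t))) := by
  induction t using Nat.strong_induction_on with
  | _ t ih =>
    intro ht
    cases t with
    | zero =>
      rw [Nat.zero_mul, bstH_zero]
      have h1 : rcl (eval G Z) (n - sg) 0 = 0 := ptr_zeroMem _
      rw [h1, rcv_of_le le_rfl, sta_zero]
      refine ⟨fun q _ _ => rfl, fun q _ => ?_⟩
      unfold mrg zeroMem
      split_ifs <;> rfl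
    | succ t =>
      obtain ⟨-, ihA⟩ := ih t (by omega) (by omega)
      have hpos : 0 < 2 ^ sg := Nat.two_pow_pos sg
      set k := t * 2 ^ sg + (2 ^ sg - 1) with hk
      have hk1 : (t + 1) * 2 ^ sg = k + 1 := by rw [Nat.succ_mul]; omega
      have hkmod : k % 2 ^ sg = 2 ^ sg - 1 := by
        rw [hk, Nat.mul_comm, Nat.mul_add_mod]
        exact Nat.mod_eq_of_lt (by omega)
      have hs : Agr (2 ^ sg) (bstH n sg G Z k) (sta (eval G Z) (n - sg) (t + 1)) := by
        rw [sta_succ', hk, bstH_before hG Z t]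
        exact eval_agr hG.top ihA
      have hbig := hG.big
      have hp2 : 2 ^ (sg + 1) = 2 * 2 ^ sg := by rw [pow_succ]; ring
      have hnum : (num (n - sg) fun r => bstH n sg G Z k (4 * r + 4)) =
          rcl (eval G Z) (n - sg) (t + 1) :=
        num_eq_ptr rfl hbig fun q hq _ => hs q hq
      have hτ : rcl (eval G Z) (n - sg) (t + 1) ≤ t := by
        rcases Nat.lt_or_ge (t + 1) (2 ^ (n - sg)) with h | h
        · have := hG.val Z hZ (t + 1) (by omega) h
          omega
        · have h2 : rcl (eval G Z) (n - sg) (t + 1) < 2 ^ (n - sg) := NUM.ptr_lt _ _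
          omega
      have hrec : recIx n sg (bstH n sg G Z k) = rcl (eval G Z) (n - sg) (t + 1) * 2 ^ sg := by
        unfold recIx
        rw [hnum, Nat.mul_comm]
      have hle : recIx n sg (bstH n sg G Z k) ≤ k := by
        rw [hrec]
        exact (Nat.mul_le_mul_right _ hτ).trans (by omega)
      have hnext : bstH n sg G Z ((t + 1) * 2 ^ sg) =
          ctlNextH sg (bstH n sg G Z k)
            (bstH n sg G Z (rcl (eval G Z) (n - sg) (t + 1) * 2 ^ sg)) := by
        rw [hk1, bstH_ctl Z k hkmod, rcvH_ctl n sg G Z k hkmod hle, hrec]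
      obtain ⟨ihτ, -⟩ := ih _ (Nat.lt_succ_of_le hτ) (by omega)
      have hev : ∀ q < 2 ^ sg, q % 2 = 0 → bstH n sg G Z ((t + 1) * 2 ^ sg) q =
          sta (eval G Z) (n - sg) (t + 1) q := by
        intro q hq hq2
        rw [hnext]
        unfold ctlNextH
        rw [if_neg (by omega), if_neg (by omega)]
        exact hs q hq
      refine ⟨hev, fun q hq => ?_⟩
      unfold mrg
      by_cases hq2 : q % 2 = 0
      · rw [if_pos hq2]
        exact hev q hq hq2
      · rw [if_neg hq2, hnext]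
        unfold ctlNextH
        rw [if_pos ⟨hq, by omega⟩, rcv_of_le (by omega)]
        exact ihτ (q - 1) (by omega) (by omega)

private theorem ctl_facts {n sg : ℕ} {G : List Ins} (hG : GoodH n sg G) {Z : Inp}
    (hZ : ∀ a : List Bool, n ≤ a.length → Z a = false) {t : ℕ} (ht : t < 2 ^ (n - sg)) :
    Agr (2 ^ sg) (bstH n sg G Z (t * 2 ^ sg + (2 ^ sg - 1)))
        (sta (eval G Z) (n - sg) (t + 1)) ∧
      recIx n sg (bstH n sg G Z (t * 2 ^ sg + (2 ^ sg - 1))) ≤ t * 2 ^ sg := by
  have h1 := (pass_invH hG hZ t ht.le).2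
  have hs : Agr (2 ^ sg) (bstH n sg G Z (t * 2 ^ sg + (2 ^ sg - 1)))
      (sta (eval G Z) (n - sg) (t + 1)) := by
    rw [sta_succ', bstH_before hG Z t]
    exact eval_agr hG.top h1
  refine ⟨hs, ?_⟩
  have hnum := num_eq_ptr (n := n) (sg := sg) rfl hG.big fun q hq _ => hs q hq
  have hτ : ptr (n - sg) (sta (eval G Z) (n - sg) (t + 1)) ≤ t := by
    rcases Nat.lt_or_ge (t + 1) (2 ^ (n - sg)) with h | h
    · have := hG.val Z hZ (t + 1) (by omega) h
      unfold rcl at this
      omega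
    · have h2 := NUM.ptr_lt (n - sg) (sta (eval G Z) (n - sg) (t + 1))
      omega
  unfold recIx
  rw [hnum, Nat.mul_comm]
  exact Nat.mul_le_mul_right _ hτ

/-- the recalled block is an earlier one -/
theorem recIx_le {n sg : ℕ} {G : List Ins} (hG : GoodH n sg G) {Z : Inp}
    (hZ : ∀ a : List Bool, n ≤ a.length → Z a = false) {k : ℕ} (hk : k < 2 ^ n)
    (h : k % 2 ^ sg = 2 ^ sg - 1) : recIx n sg (bstH n sg G Z k) ≤ k := by
  have hpos : 0 < 2 ^ sg := Nat.two_pow_pos sg
  have h1 : k = k / 2 ^ sg * 2 ^ sg + (2 ^ sg - 1) := by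
    have h2 := Nat.div_add_mod k (2 ^ sg)
    rw [h, Nat.mul_comm] at h2
    exact h2.symm
  have h2 : 2 ^ (n - sg) * 2 ^ sg = 2 ^ n := by
    rw [← pow_add, Nat.sub_add_cancel hG.le]
  have h3 : k / 2 ^ sg < 2 ^ (n - sg) := by
    rw [Nat.div_lt_iff_lt_mul hpos, h2]
    exact hk
  have h4 := (ctl_facts hG hZ h3).2
  rw [← h1] at h4
  omega

/-- the last cell at the end tells whether the program accepts -/
theorem acc_iff_bstH {n sg : ℕ} {G : List Ins} (hG : GoodH n sg G) {Z : Inp}
    (hZ : ∀ a : List Bool, n ≤ a.length → Z a = false) :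
    HAcc n sg G Z ↔ bstH n sg G Z (2 ^ n) (2 ^ (sg + 1) - 1) = true := by
  have hpos : 0 < 2 ^ sg := Nat.two_pow_pos sg
  have hT : 0 < 2 ^ (n - sg) := Nat.two_pow_pos _
  have h2 : 2 ^ (n - sg) * 2 ^ sg = 2 ^ n := by
    rw [← pow_add, Nat.sub_add_cancel hG.le]
  obtain ⟨t, ht⟩ : ∃ t, 2 ^ (n - sg) = t + 1 := ⟨2 ^ (n - sg) - 1, by omega⟩
  have hk : 2 ^ n = t * 2 ^ sg + (2 ^ sg - 1) + 1 := by
    rw [← h2, ht, Nat.succ_mul]; omega
  have hkmod : (t * 2 ^ sg + (2 ^ sg - 1)) % 2 ^ sg = 2 ^ sg - 1 := by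
    rw [Nat.mul_comm, Nat.mul_add_mod]
    exact Nat.mod_eq_of_lt (by omega)
  have hs := (ctl_facts hG hZ (t := t) (by omega)).1
  have hbig := hG.big
  have hp2 : 2 ^ (sg + 1) = 2 * 2 ^ sg := by rw [pow_succ]; ring
  unfold HAcc
  rw [ht, ← hs 0 (by omega), ← hs 2 (by omega), hk, bstH_ctl Z _ hkmod]
  unfold ctlNextH
  rw [if_neg (by omega), if_pos rfl, Bool.and_eq_true]

end Pool.Agent.NUM.S3
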