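import Pool.Agent.NUM.S3Defs

/-! # bit vectors, numbers, names -/

namespace Pool.Agent.NUM.S3

theorem num_lt (n : ℕ) (g : ℕ → Bool) : num n g < 2 ^ n := by
  induction n with
  | zero => simp [num]
  | succ n ih =>
    unfold num at ih ⊢
    rw [Finset.sum_range_succ, pow_succ]
    split <;> omega

private theorem num_succ (n : ℕ) (g : ℕ → Bool) :
    num (n + 1) g = 2 ^ n * (g n).toNat + num n g := by
  unfold num
  rw [Finset.sum_range_succ, add_comm]
  cases g n <;> simp

theorem testBit_num (n : ℕ) (g : ℕ → Bool) (i : ℕ) :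
    (num n g).testBit i = (decide (i < n) && g i) := by
  induction n with
  | zero => simp [num]
  | succ n ih =>
    rw [num_succ, Nat.testBit_two_pow_mul_add _ (num_lt n g), ih]
    by_cases h : i < n
    · simp [h, Nat.lt_succ_of_lt h]
    · rw [if_neg h]
      by_cases h' : i = n
      · subst h'
        cases g i <;> simp
      · have h2 : ¬ i < n + 1 := by omega
        have h3 : 1 ≤ i - n := by omega
        simp only [h2, decide_false, Bool.false_and]
        cases g n
        · simp
        · have : (true.toNat) = 1 := rfl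
          rw [this]
          have h4 : i - n ≠ 0 := by omega
          exact Nat.testBit_eq_false_of_lt (by
            calc 1 < 2 ^ 1 := by norm_num
              _ ≤ 2 ^ (i - n) := Nat.pow_le_pow_right (by norm_num) h3)

/-- `bval` in terms of `num` -/
theorem bval_eq_num {k : ℕ} (b : BV k) : bval b = num k (gt b) := by
  unfold bval num
  rw [Finset.sum_range]
  refine Finset.sum_congr rfl fun i _ => ?_
  simp [gt, i.isLt]

theorem bval_lt {k : ℕ} (b : BV k) : bval b < 2 ^ k := by
  rw [bval_eq_num]; exact num_lt _ _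

theorem gt_of_lt {k : ℕ} (b : BV k) {i : ℕ} (h : i < k) : gt b i = b ⟨i, h⟩ := by
  simp [gt, h]

theorem gt_of_le {k : ℕ} (b : BV k) {i : ℕ} (h : k ≤ i) : gt b i = false := by
  simp [gt, Nat.not_lt.2 h]

theorem testBit_bval {k : ℕ} (b : BV k) (i : ℕ) : (bval b).testBit i = gt b i := by
  rw [bval_eq_num, testBit_num]
  by_cases h : i < k
  · simp [h]
  · simp [h, gt_of_le b (Nat.not_lt.1 h)]

theorem bvec_bval {k : ℕ} (b : BV k) : bvec k (bval b) = b := by
  funext i
  simp only [bvec]
  rw [testBit_bval, gt_of_lt b i.isLt]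

theorem gt_bvec {k : ℕ} (x i : ℕ) : gt (bvec k x) i = (decide (i < k) && x.testBit i) := by
  by_cases h : i < k
  · rw [gt_of_lt _ h]; simp [h, bvec]
  · rw [gt_of_le _ (Nat.not_lt.1 h)]; simp [h]

theorem bval_bvec (k x : ℕ) : bval (bvec k x) = x % 2 ^ k := by
  apply Nat.eq_of_testBit_eq
  intro i
  rw [testBit_bval, gt_bvec, Nat.testBit_mod_two_pow]

theorem bval_bvec_of_lt {k x : ℕ} (h : x < 2 ^ k) : bval (bvec k x) = x := by
  rw [bval_bvec, Nat.mod_eq_of_lt h]

theorem bval_injective {k : ℕ} : Function.Injective (bval : BV k → ℕ) := by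
  intro a b h
  rw [← bvec_bval a, ← bvec_bval b, h]

theorem ext_gt {k : ℕ} {a b : BV k} (h : ∀ i < k, gt a i = gt b i) : a = b := by
  funext i
  have := h i i.isLt
  rwa [gt_of_lt a i.isLt, gt_of_lt b i.isLt] at this

theorem bval_true (k : ℕ) : bval (fun _ : Fin k => true) = 2 ^ k - 1 := by
  apply Nat.eq_of_testBit_eq
  intro i
  rw [testBit_bval, Nat.testBit_two_pow_sub_one]
  by_cases h : i < k
  · rw [gt_of_lt _ h]; simp [h]
  · rw [gt_of_le _ (Nat.not_lt.1 h)]; simp [h]

theorem bval_zv (k : ℕ) : bval (zv k) = 0 := by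
  simp [bval, zv]

theorem bval_max_iff {k : ℕ} (b : BV k) : (∀ i, b i = true) ↔ bval b = 2 ^ k - 1 := by
  rw [← bval_true k]
  constructor
  · intro h
    congr 1
    funext i
    exact h i
  · intro h i
    rw [bval_injective h]

theorem bval_inc {k : ℕ} (b : BV k) (h : ¬ ∀ i, b i = true) : bval (inc b) = bval b + 1 := by
  rw [inc, bval_bvec_of_lt]
  have h1 := bval_lt b
  have h2 : bval b ≠ 2 ^ k - 1 := fun h2 => h ((bval_max_iff b).2 h2)
  have h3 : 0 < 2 ^ k := by positivity
  omega

/-- the top digit of a vector of length `n + 1` -/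
theorem gt_top_iff {n : ℕ} (P : BV (n + 1)) : gt P n = true ↔ 2 ^ n ≤ bval P := by
  rw [bval_eq_num, num_succ]
  have h1 := num_lt n (gt P)
  cases gt P n
  · simp; omega
  · simp

theorem length_bits (n x : ℕ) : (bits n x).length = n := by
  simp [bits]

theorem getD_bits {n x i : ℕ} (h : i < n) : (bits n x).getD i false = x.testBit i := by
  simp [bits, List.getD, h]

private theorem num_congr' {n : ℕ} {g g' : ℕ → Bool} (h : ∀ i < n, g i = g' i) :
    num n g = num n g' := by
  unfold num
  refine Finset.sum_congr rfl fun i hi => ?_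
  rw [h i (Finset.mem_range.1 hi)]

theorem lnum_bits (n x : ℕ) : lnum (bits n x) = x % 2 ^ n := by
  unfold lnum
  rw [length_bits]
  apply Nat.eq_of_testBit_eq
  intro i
  rw [testBit_num, Nat.testBit_mod_two_pow]
  by_cases h : i < n
  · rw [getD_bits h]
  · simp [h]

theorem lnum_ofFn {k : ℕ} (b : BV k) : lnum (List.ofFn b) = bval b := by
  unfold lnum
  rw [bval_eq_num, List.length_ofFn]
  apply num_congr'
  intro i hi
  rw [gt_of_lt b hi]
  simp [List.getD, hi]

private theorem dec_T {n v w : ℕ} (x : Ix n v w) : (Ix.dec x.code).T = x.T := by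
  funext i
  have hi := i.isLt
  simp only [Ix.dec]
  rw [gt_of_lt _ (show (i : ℕ) < mm n v w by unfold mm; omega)]
  simp only [Ix.code]
  rw [if_pos hi, gt_of_lt _ hi]

private theorem dec_P {n v w : ℕ} (x : Ix n v w) : (Ix.dec x.code).P = x.P := by
  funext i
  have hi := i.isLt
  simp only [Ix.dec]
  rw [gt_of_lt _ (show 4 + (i : ℕ) < mm n v w by unfold mm; omega)]
  simp only [Ix.code]
  rw [if_neg (by omega), if_pos (by omega), show 4 + (i : ℕ) - 4 = i by omega, gt_of_lt _ hi]

private theorem dec_I {n v w : ℕ} (x : Ix n v w) : (Ix.dec x.code).I = x.I := by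
  funext i
  have hi := i.isLt
  simp only [Ix.dec]
  rw [gt_of_lt _ (show 4 + (n + 1) + (i : ℕ) < mm n v w by unfold mm; omega)]
  simp only [Ix.code]
  rw [if_neg (by omega), if_neg (by omega), if_pos (by omega),
    show 4 + (n + 1) + (i : ℕ) - (4 + (n + 1)) = i by omega, gt_of_lt _ hi]

private theorem dec_K {n v w : ℕ} (x : Ix n v w) : (Ix.dec x.code).K = x.K := by
  funext i
  have hi := i.isLt
  simp only [Ix.dec]
  rw [gt_of_lt _ (show 4 + (n + 1) + v + (i : ℕ) < mm n v w by unfold mm; omega)]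
  simp only [Ix.code]
  rw [if_neg (by omega), if_neg (by omega), if_neg (by omega), if_pos (by omega),
    show 4 + (n + 1) + v + (i : ℕ) - (4 + (n + 1) + v) = i by omega, gt_of_lt _ hi]

private theorem dec_R {n v w : ℕ} (x : Ix n v w) : (Ix.dec x.code).R = x.R := by
  funext i
  have hi := i.isLt
  simp only [Ix.dec]
  rw [gt_of_lt _ (show 4 + (n + 1) + v + 3 + (i : ℕ) < mm n v w by unfold mm; omega)]
  simp only [Ix.code]
  rw [if_neg (by omega), if_neg (by omega), if_neg (by omega), if_neg (by omega),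
    show 4 + (n + 1) + v + 3 + (i : ℕ) - (4 + (n + 1) + v + 3) = i by omega, gt_of_lt _ hi]

theorem Ix.dec_code {n v w : ℕ} (x : Ix n v w) : Ix.dec x.code = x :=
  Ix.ext (dec_T x) (dec_P x) (dec_I x) (dec_K x) (dec_R x)

theorem Ix.code_dec {n v w : ℕ} (c : BV (mm n v w)) : (Ix.dec c).code = c := by
  apply ext_gt
  intro i hi
  rw [gt_of_lt _ hi]
  simp only [Ix.code]
  have hi' : i < 4 + (n + 1) + v + 3 + w := hi
  by_cases h1 : i < 4
  · rw [if_pos h1, gt_of_lt _ h1]
    rfl
  rw [if_neg h1]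
  by_cases h2 : i < 4 + (n + 1)
  · rw [if_pos h2, gt_of_lt _ (by omega)]
    simp only [Ix.dec]
    rw [show 4 + (i - 4) = i by omega]
  rw [if_neg h2]
  by_cases h3 : i < 4 + (n + 1) + v
  · rw [if_pos h3, gt_of_lt _ (by omega)]
    simp only [Ix.dec]
    rw [show 4 + (n + 1) + (i - (4 + (n + 1))) = i by omega]
  rw [if_neg h3]
  by_cases h4 : i < 4 + (n + 1) + v + 3
  · rw [if_pos h4, gt_of_lt _ (by omega)]
    simp only [Ix.dec]
    rw [show 4 + (n + 1) + v + (i - (4 + (n + 1) + v)) = i by omega]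
  rw [if_neg h4, gt_of_lt _ (by omega)]
  simp only [Ix.dec]
  rw [show 4 + (n + 1) + v + 3 + (i - (4 + (n + 1) + v + 3)) = i by omega]

theorem bvec4_injective {a b : ℕ} (ha : a < 16) (hb : b < 16) (h : bvec 4 a = bvec 4 b) :
    a = b := by
  have := congrArg bval h
  rwa [bval_bvec_of_lt (by norm_num; omega), bval_bvec_of_lt (by norm_num; omega)] at this

end Pool.Agent.NUM.S3
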