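import Pool.Agent.NUM.S3HLoc
import Pool.Agent.NUM.S3HTab
import Pool.Agent.NUM.S3HRun
import Pool.Agent.NUM.S3Sound

/-! # a solution of the constraints is a computation (history programs) -/

set_option autoImplicit false

namespace Pool.Agent.NUM.S3

/-- the next state only depends on the relevant cells -/
theorem bnextH_congr {n sg : ℕ} {G : List Ins} (hG : GoodH n sg G) {p : ℕ}
    {s s' r r' : ℕ → Bool} (hs : ∀ I < 2 ^ (sg + 1), s I = s' I)
    (hr : p = 2 ^ sg - 1 → ∀ I < 2 ^ (sg + 1), r I = r' I)
    (hr0 : p ≠ 2 ^ sg - 1 → ∀ i j l, G[p]? = some (.ask i j l) → r 0 = r' 0) :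
    ∀ I < 2 ^ (sg + 1), bnextH sg G p s r I = bnextH sg G p s' r' I := by
  intro I hI
  have h2 : 2 ^ (sg + 1) = 2 * 2 ^ sg := by ring
  have hbig := hG.big
  unfold bnextH
  by_cases hp : p = 2 ^ sg - 1
  · rw [if_pos hp, if_pos hp]
    unfold ctlNextH
    split_ifs with c1 c2
    · exact hr hp _ (by omega)
    · rw [hs 0 (by omega), hs 2 (by omega)]
    · exact hs I hI
  · rw [if_neg hp, if_neg hp]
    cases hg : G[p]? with
    | none => exact hs I hI
    | some c =>
      have hmem : c ∈ G := List.mem_of_getElem? hg
      have htop := hG.top c hmem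
      cases c with
      | nand i j k =>
        simp only [Ins.top, max_le_iff] at htop
        simp only
        rw [hs j (by omega), hs k (by omega)]
        by_cases hIi : I = i
        · subst hIi; simp
        · rw [Function.update_of_ne hIi, Function.update_of_ne hIi]; exact hs I hI
      | ask i j l =>
        simp only
        rw [hr0 hp i j l hg]
        by_cases hIi : I = i
        · subst hIi; simp
        · rw [Function.update_of_ne hIi, Function.update_of_ne hIi]; exact hs I hI

section
variable {n sg : ℕ} {G : List Ins} {z : Inp}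
  {X : BV (n + 1) → BV 3 → BV (sg + 1) → Bool} {pay : BV (n + 1) → BV (sg + 1) → Bool}

/-- the meaning of the local clauses in a solution -/
theorem Csp.localH (h : Csp sg z X pay) (hG : GoodH n sg G)
    (hz : ∀ a, z (false :: a) = encH n sg G a) {k : ℕ} (hk : k < 2 ^ n) :
    (∀ I < 2 ^ (sg + 1), X (bpos n k) kA (bvec (sg + 1) I) =
      bnextH sg G (k % 2 ^ sg) (fun I => X (bpos n k) kB (bvec (sg + 1) I))
        (fun I => X (bpos n k) kR (bvec (sg + 1) I)) I) ∧
      ∀ f, bkeyH n sg G (k % 2 ^ sg) (fun I => X (bpos n k) kB (bvec (sg + 1) I)) = some f →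
        ∀ t ≤ n, X (bpos n k) kK (bvec (sg + 1) t) = f t := by
  refine local_soundH (x := fun K I => X (bpos n k) (bvec 3 K) (bvec (sg + 1) I)) hG
    (Nat.mod_lt _ (by positivity)) ?_
  intro I hI K hK
  obtain ⟨j, hj⟩ := h.loc (bpos n k) (gt_bpos_top hk) (bvec (sg + 1) I) (bvec 3 K)
  rw [dbit_kindH hG.le hz, dbit_idxH hG.le hz, dbit_signH hG.le hz, bval_bvec_of_lt hI,
    bval_bvec_of_lt (by norm_num; exact hK), bpos_mod hG.le hk] at hj
  exact ⟨j, hj⟩

theorem solY_supp : Supp (n - 2) (solY n sg pay) := by
  intro a ha
  unfold solY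
  rw [if_neg (by omega)]

theorem pair_short (hn : 2 ≤ n) {y : Inp} (hzs : Supp (n - 2) z) (hy : Supp (n - 2) y) :
    ∀ a : List Bool, n ≤ a.length → pair z y a = false := by
  intro a ha
  cases a with
  | nil => rfl
  | cons b a =>
    rw [List.length_cons] at ha
    cases b with
    | false => rw [pair_false]; exact hzs a (by omega)
    | true => rw [pair_true]; exact hy a (by omega)

/-- the states in a solution are the states of the computation -/
theorem Csp.statesH (h : Csp sg z X pay) (hG : GoodH n sg G) (hzs : Supp (n - 2) z)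
    (hz : ∀ a, z (false :: a) = encH n sg G a) : ∀ k < 2 ^ n,
    (∀ I < 2 ^ (sg + 1), X (bpos n k) kB (bvec (sg + 1) I) =
      bstH n sg G (pair z (solY n sg pay)) k I) ∧
    (∀ I < 2 ^ (sg + 1), X (bpos n k) kA (bvec (sg + 1) I) =
      bstH n sg G (pair z (solY n sg pay)) (k + 1) I) := by
  intro k
  induction k using Nat.strong_induction_on with
  | _ k ih =>
    intro hk
    have h2 : 2 ^ (sg + 1) = 2 * 2 ^ sg := by ring
    have hbig := hG.big
    have hthree := hG.three
    have hle := hG.le
    set Z := pair z (solY n sg pay) with hZ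
    have hZs : ∀ a : List Bool, n ≤ a.length → Z a = false :=
      pair_short (by omega) hzs solY_supp
    have hB : ∀ I < 2 ^ (sg + 1), X (bpos n k) kB (bvec (sg + 1) I) = bstH n sg G Z k I := by
      intro I hI
      cases k with
      | zero => rw [bstH_zero]; exact h.init _
      | succ k =>
        rw [← inc_bpos hk, ← h.link (bpos n k) (gt_bpos_top (by omega)) ?_,
          (ih k (by omega) (by omega)).2 I hI]
        rw [bval_max_iff, bval_bpos (by omega)]
        have : 2 ^ (n + 1) = 2 * 2 ^ n := by ring
        omega
    refine ⟨hB, fun I hI => ?_⟩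
    obtain ⟨hloc, hkey⟩ := h.localH hG hz hk
    obtain ⟨P, hP1, hP2⟩ := h.look (bpos n k) (gt_bpos_top hk)
    have hK : ∀ t ≤ n, X (bpos n k) kK (bvec (sg + 1) t) = gt P t := by
      intro t ht
      have e : bval (bvec (sg + 1) t) = t := bval_bvec_of_lt (by omega)
      rw [hP1 _ (by rw [e]; exact ht), e]
    rw [hloc I hI, bstH_succ]
    refine bnextH_congr hG hB ?_ ?_ I hI
    · intro hp J hJ
      show X (bpos n k) kR (bvec (sg + 1) J) = _
      have q1 := recIx_le hG hZs hk hp
      rw [rcvH_ctl n sg G Z k hp q1, hP2]
      set q := recIx n sg (bstH n sg G Z k) with hq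
      have hqlt : q < 2 ^ n := lt_of_le_of_lt q1 hk
      have hPq : P = bpos n q := by
        apply ext_gt
        intro t ht
        rw [← hK t (by omega), hkey (fun t => if sg ≤ t ∧ t < n then
          X (bpos n k) kB (bvec (sg + 1) (4 * (t - sg) + 4)) else decide (t = n))
          (by unfold bkeyH; rw [if_pos hp]) t (by omega), gt_bpos hqlt]
        unfold selfOf
        by_cases htn : t = n
        · subst htn
          rw [Nat.testBit_two_pow_add_eq, Nat.testBit_lt_two_pow (by omega)]
          simp
        · have htn' : t < n := by omega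
          rw [Nat.testBit_two_pow_add_gt htn', hq, recIx, Nat.testBit_two_pow_mul, testBit_num]
          by_cases hts : sg ≤ t
          · rw [if_pos ⟨hts, htn'⟩, hB _ (by omega)]
            have : t - sg < n - sg := by omega
            simp [hts, this]
          · rw [if_neg (by omega)]
            simp [hts, htn]
      rw [hPq, h.pay1 _ (gt_bpos_top hqlt)]
      rcases Nat.lt_or_ge q k with hqk | hqk
      · exact (ih q hqk (by omega)).1 J hJ
      · have : q = k := by omega
        rw [this]
        exact hB J hJ
    · intro hp i j l hg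
      show X (bpos n k) kR (bvec (sg + 1) 0) = _
      have hmem : Ins.ask i j l ∈ G := List.mem_of_getElem? hg
      have hl : l < n := hG.ask i j l hmem
      have htop := hG.top _ hmem
      simp only [Ins.top, max_le_iff] at htop
      set w := word (bstH n sg G Z k) j l with hw
      have hwl : w.length = l := by rw [hw]; simp [word]
      rw [rcvH_ask Z k hp hg, hP2]
      have hPw : P = posOf n w := by
        apply ext_gt
        intro t ht
        rw [← hK t (by omega), hkey (fun t => if t < l then
          X (bpos n k) kB (bvec (sg + 1) (j + t)) else decide (t = l))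
          (by unfold bkeyH; rw [if_neg hp, hg]) t (by omega), gt_posOf (by omega), hwl]
        split_ifs with htl
        · rw [hB _ (by omega), hw]
          unfold word
          rw [List.getD_eq_getElem _ _ (by simpa using htl)]
          simp
        · rfl
      have hz0 : bvec (sg + 1) 0 = zv (sg + 1) := by
        funext i; simp [bvec, zv]
      have htopw : gt (posOf n w) n = false := by
        rw [gt_posOf (by omega), if_neg (by omega)]
        simp only [decide_eq_false_iff_not]; omega
      rw [hPw, hz0]
      show _ = Z w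
      clear_value w
      cases w with
      | nil => rw [h.pay0 _ htopw false (inBit_nil (by omega) z), hZ, pair_nil]
      | cons b a =>
        rw [List.length_cons] at hwl
        cases b with
        | false =>
          rw [h.pay0 _ htopw _ (inBit_false (by omega) z), hZ, pair_false]
        | true =>
          rw [hZ, pair_true, solY, if_pos (by omega)]

end

/-- a solution of the constraints is an accepting computation -/
theorem acc_of_cspH {n sg : ℕ} {G : List Ins} (hG : GoodH n sg G) {z : Inp} (hzs : Supp (n - 2) z)
    (hz : ∀ a, z (false :: a) = encH n sg G a)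
    {X : BV (n + 1) → BV 3 → BV (sg + 1) → Bool} {pay : BV (n + 1) → BV (sg + 1) → Bool}
    (h : Csp sg z X pay) :
    ∃ y : Inp, Supp (n - 2) y ∧ HAcc n sg G (pair z y) := by
  have hthree := hG.three
  have hle := hG.le
  refine ⟨solY n sg pay, solY_supp, ?_⟩
  rw [acc_iff_bstH hG (pair_short (by omega) hzs solY_supp)]
  have hpos : 0 < 2 ^ n := by positivity
  have h1 := (h.statesH hG hzs hz (2 ^ n - 1) (by omega)).2 (2 ^ (sg + 1) - 1) (by
    have : 0 < 2 ^ (sg + 1) := by positivity
    omega)
  rw [show 2 ^ n - 1 + 1 = 2 ^ n by omega] at h1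
  rw [← h1]
  have e1 : bpos n (2 ^ n - 1) = fun _ => true := by
    apply bval_injective
    rw [bval_true, bval_bpos (by omega)]
    have : 2 ^ (n + 1) = 2 * 2 ^ n := by ring
    omega
  have e2 : bvec (sg + 1) (2 ^ (sg + 1) - 1) = fun _ => true := by
    apply bval_injective
    rw [bval_true, bval_bvec_of_lt]
    have : 0 < 2 ^ (sg + 1) := by positivity
    omega
  rw [e1, e2]
  exact h.fin

end Pool.Agent.NUM.S3
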