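import Pool.Agent.NUM.S3HLoc
import Pool.Agent.NUM.S3HTab
import Pool.Agent.NUM.S3HRun
import Pool.Agent.NUM.S3HSound
import Pool.Agent.NUM.S3Compl

/-! # an accepting computation gives a solution of the constraints (history programs) -/

set_option autoImplicit false

namespace Pool.Agent.NUM.S3

namespace S3HComplAux

open S3ComplAux

/-- digits of the position which is looked up in block `k` -/
def fk (n sg : ℕ) (G : List Ins) (Z : Inp) (k : ℕ) : ℕ → Bool :=
  (bkeyH n sg G (k % 2 ^ sg) (bstH n sg G Z k)).getD (fun _ => false)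

/-- the position which is looked up in block `P` -/
def fP (n sg : ℕ) (G : List Ins) (Z : Inp) (P : BV (n + 1)) : BV (n + 1) :=
  fun t => fk n sg G Z (bval P - 2 ^ n) t

open Classical in
/-- the payloads -/
noncomputable def py (n sg : ℕ) (G : List Ins) (Z : Inp) (P : BV (n + 1)) (I : BV (sg + 1)) :
    Bool :=
  if gt P n = true then bstH n sg G Z (bval P - 2 ^ n) (bval I)
  else decide (I = zv (sg + 1) ∧ ∃ a : List Bool, a.length < n ∧ P = posOf n a ∧ Z a = true)

/-- the local variables by numbers -/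
noncomputable def xx (n sg : ℕ) (G : List Ins) (Z : Inp) (P : BV (n + 1)) : ℕ → ℕ → Bool
  | 0 => bstH n sg G Z (bval P - 2 ^ n)
  | 1 => bstH n sg G Z (bval P - 2 ^ n + 1)
  | 2 => fun i => py n sg G Z (fP n sg G Z P) (bvec (sg + 1) i)
  | 3 => gt (fP n sg G Z P)
  | 4 => gt P
  | _ => fun _ => false

theorem gt_fP {n sg : ℕ} (G : List Ins) (Z : Inp) (P : BV (n + 1)) {t : ℕ} (ht : t ≤ n) :
    gt (fP n sg G Z P) t = fk n sg G Z (bval P - 2 ^ n) t := by
  rw [gt_of_lt _ (by omega : t < n + 1)]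
  rfl

/-- the control block: what is looked up -/
theorem py_ctl {n sg : ℕ} {G : List Ins} (hG : GoodH n sg G) {Z : Inp}
    (hZ : ∀ a : List Bool, n ≤ a.length → Z a = false) {P : BV (n + 1)}
    (hP : gt P n = true) (hp : (bval P - 2 ^ n) % 2 ^ sg = 2 ^ sg - 1) {i : ℕ}
    (hi : i < 2 ^ (sg + 1)) :
    py n sg G Z (fP n sg G Z P) (bvec (sg + 1) i) = rcvH n sg G Z (bval P - 2 ^ n) i := by
  have hk1 := bval_pos hP
  set k := bval P - 2 ^ n with hk
  set s := bstH n sg G Z k with hs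
  have hk2 : k < 2 ^ n := by
    have h1 := bval_lt P
    have h2 : 2 ^ (n + 1) = 2 ^ n + 2 ^ n := by rw [pow_succ]; ring
    omega
  have hfk : ∀ t, fk n sg G Z k t =
      if sg ≤ t ∧ t < n then s (4 * (t - sg) + 4) else decide (t = n) := by
    intro t
    unfold fk bkeyH
    rw [if_pos hp]
    rfl
  have q1 := recIx_le hG hZ hk2 hp
  set q := recIx n sg (bstH n sg G Z k) with hq
  have hqlt : q < 2 ^ n := lt_of_le_of_lt q1 hk2
  have hPq : fP n sg G Z P = bpos n q := by
    apply ext_gt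
    intro t ht
    rw [gt_fP G Z P (by omega), ← hk, hfk, gt_bpos hqlt]
    unfold selfOf
    by_cases htn : t = n
    · subst htn
      rw [Nat.testBit_two_pow_add_eq, Nat.testBit_lt_two_pow (by omega)]
      simp
    · have htn' : t < n := by omega
      rw [Nat.testBit_two_pow_add_gt htn', hq, recIx, Nat.testBit_two_pow_mul, testBit_num]
      by_cases hts : sg ≤ t
      · rw [if_pos ⟨hts, htn'⟩]
        have : t - sg < n - sg := by omega
        simp [hts, this, hs]
      · rw [if_neg (by omega)]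
        simp [hts, htn]
  rw [hPq]
  unfold py
  rw [if_pos (gt_bpos_top hqlt), bval_bpos hqlt, Nat.add_sub_cancel_left, bval_bvec_of_lt hi,
    rcvH_ctl n sg G Z k hp q1]

/-- an ask block: the position -/
theorem fP_ask {n sg : ℕ} {G : List Ins} (hG : GoodH n sg G) (Z : Inp) {P : BV (n + 1)}
    (hp : (bval P - 2 ^ n) % 2 ^ sg ≠ 2 ^ sg - 1) {i j l : ℕ}
    (ha : G[(bval P - 2 ^ n) % 2 ^ sg]? = some (.ask i j l)) :
    l < n ∧ fP n sg G Z P = posOf n (word (bstH n sg G Z (bval P - 2 ^ n)) j l) := by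
  have hl : l < n := hG.ask i j l (List.mem_of_getElem? ha)
  refine ⟨hl, ext_gt fun t ht => ?_⟩
  rw [gt_fP G Z P (by omega), gt_posOf (by rw [length_word]; exact hl), length_word]
  have hfk : fk n sg G Z (bval P - 2 ^ n) t =
      if t < l then bstH n sg G Z (bval P - 2 ^ n) (j + t) else decide (t = l) := by
    unfold fk bkeyH
    rw [if_neg hp, ha]
    rfl
  rw [hfk]
  by_cases htl : t < l
  · rw [if_pos htl, if_pos htl, getD_word _ _ _ _ htl]
  · rw [if_neg htl, if_neg htl]

theorem py_posOf {n sg : ℕ} (G : List Ins) (Z : Inp) {a : List Bool} (h : a.length < n) :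
    py n sg G Z (posOf n a) (zv (sg + 1)) = Z a := by
  unfold py
  rw [if_neg (by rw [gt_posOf_top h]; exact Bool.false_ne_true)]
  cases hZ : Z a with
  | true =>
    simp only [decide_eq_true_eq]
    exact ⟨trivial, a, h, rfl, hZ⟩
  | false =>
    rw [decide_eq_false_iff_not]
    rintro ⟨-, b, hb, hab, hZb⟩
    rw [← posOf_injective h hb hab, hZ] at hZb
    exact Bool.false_ne_true hZb

/-- the local clauses hold -/
theorem xx_holds {n sg : ℕ} {G : List Ins} (hG : GoodH n sg G) {Z : Inp}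
    (hZ : ∀ a : List Bool, n ≤ a.length → Z a = false) {P : BV (n + 1)}
    (hP : gt P n = true) : ∀ I < 2 ^ (sg + 1), ∀ K < 8,
      Holds (xx n sg G Z P) (lclH n sg G ((bval P - 2 ^ n) % 2 ^ sg) I K) := by
  refine local_completeH hG (Nat.mod_lt _ (Nat.two_pow_pos sg)) ?_ ?_
  · intro I hI
    show bstH n sg G Z (bval P - 2 ^ n + 1) I = bnextH sg G ((bval P - 2 ^ n) % 2 ^ sg)
      (bstH n sg G Z (bval P - 2 ^ n)) (xx n sg G Z P 2) I
    rw [bstH_succ]
    have h2 : ∀ i, xx n sg G Z P 2 i = py n sg G Z (fP n sg G Z P) (bvec (sg + 1) i) :=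
      fun i => rfl
    unfold bnextH
    by_cases hp : (bval P - 2 ^ n) % 2 ^ sg = 2 ^ sg - 1
    · rw [if_pos hp, if_pos hp]
      unfold ctlNextH
      by_cases h1 : I < 2 ^ sg ∧ I % 2 = 1
      · rw [if_pos h1, if_pos h1, h2, py_ctl hG hZ hP hp (by omega)]
      · rw [if_neg h1, if_neg h1]
    · rw [if_neg hp, if_neg hp]
      rcases hGp : G[(bval P - 2 ^ n) % 2 ^ sg]? with _ | ⟨i, j, k⟩ | ⟨i, j, l⟩
      · rfl
      · rfl
      · obtain ⟨hl, hf⟩ := fP_ask hG Z hp hGp
        have h5 : xx n sg G Z P 2 0 = rcvH n sg G Z (bval P - 2 ^ n) 0 := by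
          rw [h2, hf, bvec_zero, py_posOf G Z (by rw [length_word]; exact hl),
            rcvH_ask Z _ hp hGp]
        show Function.update _ _ _ I = Function.update _ _ _ I
        rw [h5]
  · intro f hf t ht
    show gt (fP n sg G Z P) t = f t
    have hf' : bkeyH n sg G ((bval P - 2 ^ n) % 2 ^ sg) (bstH n sg G Z (bval P - 2 ^ n)) =
      some f := hf
    rw [gt_fP G Z P ht]
    unfold fk
    rw [hf']
    rfl

/-- the local variables -/
noncomputable def XX (n sg : ℕ) (G : List Ins) (Z : Inp) (P : BV (n + 1)) (K : BV 3)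
    (I : BV (sg + 1)) : Bool := xx n sg G Z P (bval K) (bval I)

theorem XX_bvec {n sg : ℕ} (G : List Ins) (Z : Inp) (P : BV (n + 1)) {K I : ℕ} (hK : K < 8)
    (hI : I < 2 ^ (sg + 1)) : XX n sg G Z P (bvec 3 K) (bvec (sg + 1) I) = xx n sg G Z P K I := by
  unfold XX
  rw [bval_bvec_of_lt (by norm_num; exact hK), bval_bvec_of_lt hI]

theorem XX_kind {n sg : ℕ} (G : List Ins) (Z : Inp) (P : BV (n + 1)) {K : ℕ} (hK : K < 8)
    (I : BV (sg + 1)) : XX n sg G Z P (bvec 3 K) I = xx n sg G Z P K (bval I) := by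
  unfold XX
  rw [bval_bvec_of_lt (by norm_num; exact hK)]

end S3HComplAux

open S3ComplAux (mod_eq)
open S3HComplAux

/-- (for the block `k` at position `P`, `bval P = 2 ^ n + k`: `X P 0 = bstH k`,
`X P 1 = bstH (k + 1)`, `X P 2 = pay f(P)`, `X P 3 = digits of f(P)`, `X P 4 = digits of P`;
`pay P = bstH k` for such `P`, `pay (posOf a) I = pair z y a` and `false` elsewhere) -/
theorem csp_of_accH {n sg : ℕ} {G : List Ins} (hG : GoodH n sg G) {z : Inp} (hzs : Supp (n - 2) z)
    (hz : ∀ a, z (false :: a) = encH n sg G a) {y : Inp} (hy : Supp (n - 2) y)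
    (h : HAcc n sg G (pair z y)) :
    ∃ X : BV (n + 1) → BV 3 → BV (sg + 1) → Bool, ∃ pay, Csp sg z X pay := by
  have h3 := hG.three
  have h4 := hG.le
  have hZs := pair_short (n := n) (by omega) hzs hy
  set Z := pair z y with hZ
  refine ⟨XX n sg G Z, py n sg G Z, ?_, ?_, ?_, ?_, ?_, ?_, ?_, ?_⟩
  · -- loc
    intro P hP I K
    obtain ⟨j, hj⟩ := xx_holds hG hZs hP (bval I) (bval_lt I) (bval K)
      (by have := bval_lt K; norm_num at this; exact this)
    refine ⟨j, ?_⟩
    rw [dbit_kindH hG.le hz, dbit_idxH hG.le hz, dbit_signH hG.le hz, mod_eq hG.le hP]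
    obtain ⟨h1, h2⟩ := local_rangeH hG (p := (bval P - 2 ^ n) % 2 ^ sg) (K := bval K)
      (Nat.mod_lt _ (Nat.two_pow_pos sg)) (bval_lt I) j
    rw [XX_bvec G Z P h1 h2]
    exact hj
  · -- link
    intro P hP hne I
    have h1 : XX n sg G Z P kA I = bstH n sg G Z (bval P - 2 ^ n + 1) (bval I) :=
      XX_kind G Z P (by norm_num) I
    have h2 : XX n sg G Z (inc P) kB I = bstH n sg G Z (bval (inc P) - 2 ^ n) (bval I) :=
      XX_kind G Z (inc P) (by norm_num) I
    have h3 := (gt_top_iff P).1 hP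
    rw [h1, h2, bval_inc P hne, Nat.sub_add_comm h3]
  · -- init
    intro I
    have h2 : XX n sg G Z (bvec (n + 1) (2 ^ n)) kB I =
        bstH n sg G Z (bval (bvec (n + 1) (2 ^ n)) - 2 ^ n) (bval I) :=
      XX_kind G Z _ (by norm_num) I
    rw [h2, bval_bvec_of_lt (Nat.pow_lt_pow_right (by norm_num) (Nat.lt_succ_self n)),
      Nat.sub_self, bstH_zero]
  · -- fin
    have h2 : XX n sg G Z (fun _ => true) kA (fun _ => true) =
        bstH n sg G Z (bval (fun _ : Fin (n + 1) => true) - 2 ^ n + 1)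
          (bval (fun _ : Fin (sg + 1) => true)) :=
      XX_kind G Z _ (by norm_num) _
    have h3 : 2 ^ (n + 1) - 1 - 2 ^ n + 1 = 2 ^ n := by
      have h4 : 2 ^ (n + 1) = 2 ^ n + 2 ^ n := by rw [pow_succ]; ring
      have h5 : 1 ≤ 2 ^ n := Nat.one_le_two_pow
      omega
    rw [h2, bval_true, bval_true, h3]
    exact (acc_iff_bstH hG hZs).1 h
  · -- self
    intro P I hI
    exact XX_kind G Z P (by norm_num) I
  · -- pay1
    intro P hP I
    have h1 : XX n sg G Z P kB I = bstH n sg G Z (bval P - 2 ^ n) (bval I) :=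
      XX_kind G Z P (by norm_num) I
    rw [h1]
    unfold py
    rw [if_pos hP]
  · -- pay0
    intro P hP b hb
    obtain ⟨a, ha, rfl, hab⟩ := inBit_some hP hb
    rw [py_posOf G Z ha]
    exact hab y
  · -- look
    intro P hP
    refine ⟨fP n sg G Z P, fun I hI => XX_kind G Z P (by norm_num) I, fun I => ?_⟩
    have h1 : XX n sg G Z P kR I = py n sg G Z (fP n sg G Z P) (bvec (sg + 1) (bval I)) :=
      XX_kind G Z P (by norm_num) I
    rw [h1, bvec_bval]

end Pool.Agent.NUM.S3
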