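import Pool.Agent.NUM.S3Addr
import Pool.Agent.NUM.S3CspA
import Pool.Agent.NUM.S3CspB
import Pool.Agent.NUM.S3HCompl

/-! # the pivot property for history programs -/

set_option autoImplicit false

namespace Pool.Agent.NUM.S3

theorem V_of_acc {n sg : ℕ} {G : List Ins} (hG : GoodH n sg G) {z : Inp} (hzs : Supp (n - 2) z)
    (hz : ∀ a, z (false :: a) = encH n sg G a) {y : Inp} (hy : Supp (n - 2) y)
    (h : HAcc n sg G (pair z y)) : V n sg z := by
  obtain ⟨X, pay, hX⟩ := csp_of_accH hG hzs hz hy h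
  exact (SAT_Phi n (sg + 1) (Nat.size (nst n)) sg z).mpr (tsat_of_csp (Nat.lt_size_self _) hX)

theorem acc_of_V {n sg : ℕ} {G : List Ins} (hG : GoodH n sg G) {z : Inp} (hzs : Supp (n - 2) z)
    (hz : ∀ a, z (false :: a) = encH n sg G a) (h : V n sg z) :
    ∃ y : Inp, Supp (n - 2) y ∧ HAcc n sg G (pair z y) := by
  obtain ⟨X, pay, hX⟩ := csp_of_tsat (Nat.lt_size_self _)
    ((SAT_Phi n (sg + 1) (Nat.size (nst n)) sg z).mp h)
  exact acc_of_cspH hG hzs hz hX

end Pool.Agent.NUM.S3
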