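import Pool.Agent.NUM.Core

/-!
# 3SAT with random access to the formula
-/

namespace Pool.Agent.NUM

/-- the `n` lowest binary digits of `x`, lowest first -/
def bits (n x : ℕ) : List Bool := (List.range n).map fun i => x.testBit i

namespace S3

/-- bit vectors -/
abbrev BV (n : ℕ) := Fin n → Bool

/-- address of bit `i` of literal `j` of clause `c` -/
def satAddr (m : ℕ) (c : BV m) (j i : ℕ) : List Bool :=
  List.ofFn c ++ bits 2 j ++ bits (Nat.size m) i

/-- the 3-CNF formula with clauses numbered by `{0,1}^m` and variables numbered by `{0,1}^m` which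
is written in `φ` is satisfiable: literal `j` of clause `c` has sign `φ (satAddr m c j 0)` and its
variable has the number with the bits `φ (satAddr m c j (i + 1))`, `i < m` -/
def SAT (m : ℕ) (φ : Inp) : Prop :=
  ∃ a : BV m → Bool, ∀ c : BV m, ∃ j : Fin 3,
    a (fun i => φ (satAddr m c j (i + 1))) = φ (satAddr m c j 0)

/-- length of the addresses of a formula -/
def satLen (m : ℕ) : ℕ := m + 2 + Nat.size m

end S3

end Pool.Agent.NUM
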