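import Pool.Agent.NUM.HFam
import Pool.Agent.NUM.Sat

/-!
# The hypothesis on 3SAT for history programs
-/

set_option autoImplicit false

namespace Pool.Agent.NUM

open S3

/-- 3SAT with `2 ^ m` variables and `2 ^ m` clauses has history programs of size `2 ^ o(m)` with
`2 ^ ((c + o(1)) m)` passes whose computations have the property `Qs m` -/
def SatG (Qs : ℕ → ℕ → (ℕ → ℕ) → Prop) (c : ℝ) : Prop :=
  ∀ δ : ℝ, 0 < δ → ∃ m₀ : ℕ, ∀ m : ℕ, m₀ ≤ m → ∃ (G : List Ins) (d s T : ℕ), HSz s d G ∧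
    (s : ℝ) ≤ 2 ^ (δ * m) ∧ (T : ℝ) ≤ 2 ^ ((c + δ) * m) ∧ ∀ z, Supp (satLen m) z →
      (∃ b, HAns (eval G z) d T b ∧ (b = true ↔ SAT m z)) ∧
      ∀ N, HaltsAt (eval G z) d N → Qs m N (rcl (eval G z) d)

end Pool.Agent.NUM
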