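import Pool.Agent.NUM.HPivotDef
import Pool.Agent.NUM.HBasic
import Pool.Agent.NUM.HClosure
import Pool.Agent.NUM.SatGDef
import Pool.Agent.NUM.PivotSat
import Pool.Agent.NUM.S3HPivot

/-!
# The pivot for history programs from a history program for 3SAT
-/

set_option autoImplicit false

namespace Pool.Agent.NUM

open Filter

/-- from `∀ δ ∃ G` to sequences -/
theorem seq_of_deltaH {e : ℝ} {Q : ℕ → List Ins → ℕ → ℕ → Prop}
    (h : ∀ δ : ℝ, 0 < δ → ∃ L₀ : ℕ, ∀ L : ℕ, L₀ ≤ L → ∃ (G : List Ins) (d s T : ℕ), HSz s d G ∧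
      (s : ℝ) ≤ 2 ^ (δ * L) ∧ (T : ℝ) ≤ 2 ^ ((e + δ) * L) ∧ Q L G d T) :
    ∃ (G : ℕ → List Ins) (d s T : ℕ → ℕ), SubExp s ∧ ExpLe e T ∧ (∀ L, HSz (s L) (d L) (G L)) ∧
      ∀ᶠ L : ℕ in atTop, Q L (G L) (d L) (T L) := by
  classical
  have h1 : ∀ n : ℕ, ∃ L₀ : ℕ, ∀ L : ℕ, L₀ ≤ L → ∃ (G : List Ins) (d s T : ℕ), HSz s d G ∧
      (s : ℝ) ≤ 2 ^ (1 / ((n : ℝ) + 1) * L) ∧ (T : ℝ) ≤ 2 ^ ((e + 1 / ((n : ℝ) + 1)) * L) ∧
      Q L G d T := fun n => h _ (by positivity)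
  choose N hN using h1
  let P : ℕ → ℕ → Prop := fun L n => ∀ i ≤ n, N i ≤ L
  let nn : ℕ → ℕ := fun L => Nat.findGreatest (P L) L
  have hnn : ∀ L, N 0 ≤ L → N (nn L) ≤ L := by
    intro L hL
    have h2 : P L (nn L) := Nat.findGreatest_spec (P := P L) (Nat.zero_le L) (by
      intro i hi
      have : i = 0 := by omega
      subst this
      exact hL)
    exact h2 _ le_rfl
  have hlim : ∀ n, ∀ᶠ L in atTop, n ≤ nn L := by
    intro n
    filter_upwards [eventually_ge_atTop (n + ∑ i ∈ Finset.range (n + 1), N i)] with L hL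
    apply Nat.le_findGreatest (by omega)
    intro i hi
    have h3 : N i ≤ ∑ i ∈ Finset.range (n + 1), N i :=
      Finset.single_le_sum (f := N) (fun _ _ => Nat.zero_le _) (Finset.mem_range.2 (by omega))
    omega
  have h2 : ∀ L : ℕ, ∃ (G : List Ins) (d s T : ℕ), HSz s d G ∧ (N 0 ≤ L →
      (s : ℝ) ≤ 2 ^ (1 / ((nn L : ℝ) + 1) * L) ∧
      (T : ℝ) ≤ 2 ^ ((e + 1 / ((nn L : ℝ) + 1)) * L) ∧ Q L G d T) := by
    intro L
    by_cases hL : N 0 ≤ L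
    · obtain ⟨G, d, s, T, h3, h4⟩ := hN (nn L) L (hnn L hL)
      exact ⟨G, d, s, T, h3, fun _ => h4⟩
    · exact ⟨[], 0, 1, 0, ⟨⟨by simp, by simp⟩, by omega⟩, fun h => absurd h hL⟩
  choose G d s T hG using h2
  have hsmall : ∀ δ : ℝ, 0 < δ → ∀ᶠ L in atTop, 1 / ((nn L : ℝ) + 1) ≤ δ := by
    intro δ hδ
    obtain ⟨n, hn⟩ := exists_nat_ge (1 / δ)
    filter_upwards [hlim n] with L hL
    have h3 : (n : ℝ) ≤ nn L := by exact_mod_cast hL
    rw [div_le_iff₀ (by positivity)]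
    rw [div_le_iff₀ hδ] at hn
    nlinarith
  refine ⟨G, d, s, T, ?_, ?_, fun L => (hG L).1, ?_⟩
  · intro δ hδ
    filter_upwards [hsmall δ hδ, eventually_ge_atTop (N 0)] with L h3 h4
    refine ((hG L).2 h4).1.trans (Real.rpow_le_rpow_of_exponent_le (by norm_num) ?_)
    exact mul_le_mul_of_nonneg_right h3 (Nat.cast_nonneg _)
  · intro δ hδ
    filter_upwards [hsmall δ hδ, eventually_ge_atTop (N 0)] with L h3 h4
    refine ((hG L).2 h4).2.1.trans (Real.rpow_le_rpow_of_exponent_le (by norm_num) ?_)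
    exact mul_le_mul_of_nonneg_right (by linarith) (Nat.cast_nonneg _)
  · filter_upwards [eventually_ge_atTop (N 0)] with L h4
    exact ((hG L).2 h4).2.2

/-- a history program for 3SAT decides the pivot problem, with the same computations -/
theorem S3.V_decidesH {n sg T s d : ℕ} {Q : ℕ → (ℕ → ℕ) → Prop} (hsg : sg ≤ n) {G : List Ins}
    (hs : HSz s d G) (h : ∀ z, Supp (S3.satLen (S3.Vm n sg)) z →
      (∃ b, HAns (eval G z) d T b ∧ (b = true ↔ S3.SAT (S3.Vm n sg) z)) ∧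
      ∀ N, HaltsAt (eval G z) d N → Q N (rcl (eval G z) d)) :
    ∃ G' : List Ins, HSz ((s + 3) * (S3.VS n sg + 3) * 4) d G' ∧ ∀ z : Inp,
      (∃ b, HAns (eval G' z) d T b ∧ (b = true ↔ S3.V n sg z)) ∧
      ∀ N, HaltsAt (eval G' z) d N → Q N (rcl (eval G' z) d) := by
  have hφ : Loc (s + 3) (S3.VS n sg)
      (fun z => S3.Phi n (sg + 1) (Nat.size (S3.nst n)) sg z) := S3.loc_Phi _ _ _ _ hsg _
  obtain ⟨G', hG', h2⟩ := exists_virt_hist (hs.mono (show s ≤ s + 3 by omega)) (by omega) hφ le_rfl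
  have hle : (s + 3) * (S3.VS n sg + 1) + 2 * (s + 3) + S3.VS n sg ≤
      (s + 3) * (S3.VS n sg + 3) * 4 := by
    nlinarith [Nat.zero_le (s * S3.VS n sg), Nat.zero_le s, Nat.zero_le (S3.VS n sg)]
  refine ⟨G', hG'.mono hle, fun z => ?_⟩
  obtain ⟨⟨b, h3, h4⟩, h5⟩ := h (S3.Phi n (sg + 1) (Nat.size (S3.nst n)) sg z)
    (S3.Supp_Phi _ _ _ _ _)
  obtain ⟨h6, h7, h8⟩ := h2 z
  refine ⟨⟨b, h6 T b h3, h4⟩, fun N hN => ?_⟩
  rw [h8]
  exact h5 N (h7 N hN)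

theorem lin_Vm {E : ℝ} {n sg : ℕ → ℕ} (hlin : Lin E (fun L => n L + sg L)) :
    Lin E (fun L => S3.Vm (n L) (sg L)) := by
  have hnlin : Lin E n := hlin.mono' fun L => Nat.le_add_right _ _
  have h1 := (hlin.add hnlin.size_linear).add (Lin.const 0 le_rfl 9)
  simp only [add_zero] at h1
  exact h1.mono' fun L => S3.Vm_le _ _

/-- the pivot problem of 3SAT, for history programs -/
def pivotHB_sat : PivotHB where
  V := S3.V
  enc := S3.encH
  supp_enc := fun n sg G a ha => by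
    unfold S3.encH
    rw [if_neg]
    omega
  sound := fun hG _ hzs hz _ hy h => S3.V_of_acc hG hzs hz hy h
  complete := fun hG _ hzs hz h => S3.acc_of_V hG hzs hz h

/-- **The pivot from history programs for 3SAT.** -/
theorem exists_pivotH {Qs : ℕ → ℕ → (ℕ → ℕ) → Prop} {c : ℝ} (hc : 0 ≤ c) (H : SatG Qs c) :
    Nonempty (PivotH Qs c) := by
  obtain ⟨G, d, s, T, hs, hT, hG, hQ⟩ := seq_of_deltaH (Q := fun m G d T =>
    ∀ z, Supp (S3.satLen m) z → (∃ b, HAns (eval G z) d T b ∧ (b = true ↔ S3.SAT m z)) ∧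
      ∀ N, HaltsAt (eval G z) d N → Qs m N (rcl (eval G z) d)) H
  obtain ⟨m₀, hm₀⟩ := eventually_atTop.1 hQ
  refine ⟨⟨pivotHB_sat, ?_⟩⟩
  intro n sg E hE hlin hn hle
  obtain ⟨hSS, hTm, hmtop⟩ := pivot_sizes hc hs hT hE hlin hn
  choose G' d' hG' hD using fun L => show ∃ (G' : List Ins) (d' : ℕ),
    HSz ((s (S3.Vm (n L) (sg L)) + 3) * (S3.VS (n L) (sg L) + 3) * 4) d' G' ∧
    (m₀ ≤ S3.Vm (n L) (sg L) → ∀ z : Inp,
      (∃ b, HAns (eval G' z) d' (T (S3.Vm (n L) (sg L))) b ∧ (b = true ↔ S3.V (n L) (sg L) z)) ∧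
      ∀ N, HaltsAt (eval G' z) d' N → Qs (S3.Vm (n L) (sg L)) N (rcl (eval G' z) d'))
    from by
      by_cases h : m₀ ≤ S3.Vm (n L) (sg L)
      · obtain ⟨G', h1, h2⟩ := S3.V_decidesH (hle L) (hG _) (hm₀ _ h)
        exact ⟨G', _, h1, fun _ => h2⟩
      · refine ⟨[], 0, ⟨⟨by simp, by simp⟩, ?_⟩, fun h' => absurd h' h⟩
        nlinarith [Nat.zero_le (s (S3.Vm (n L) (sg L)) * S3.VS (n L) (sg L)),
          Nat.zero_le (s (S3.Vm (n L) (sg L))), Nat.zero_le (S3.VS (n L) (sg L))]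
  obtain ⟨L₁, hL₁⟩ := eventually_atTop.1 (hmtop.eventually (eventually_ge_atTop m₀))
  exact ⟨G', _, _, d', fun L => S3.Vm (n L) (sg L), L₁, hSS, hTm, lin_Vm hlin, hmtop, hG',
    fun L hL => hD L (hL₁ L hL)⟩

end Pool.Agent.NUM
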