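import Pool.Agent.NUM.RAbs
import Pool.Agent.NUM.RCls
import Pool.Agent.NUM.RWin
import Pool.Agent.NUM.RStmt
import Pool.Agent.NUM.GTrade

/-!
# Theorem H(γ) for random access machines: the fields of `TradeR` from the pivot
-/

set_option autoImplicit false

namespace Pool.Agent.NUM

open Filter S3

/-- the field `toC` of `TradeR` for the class `ClsR γ` -/
def ToCR (γ : ℝ) : Prop :=
  ∀ {T : Type} {π : Pres T} {P : T → Prop} {b e : ℝ}, Size π b → 0 ≤ e → ClsR γ T π P e →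
    Cert ClsH e π P (fun τ => ¬ P τ) e

/-- the field `fam` of `TradeR` for the class `ClsR γ` -/
def FamR (γ : ℝ) : Prop :=
  ∀ {T : Type} {π : Pres T} {P : T → Prop} {b e : ℝ}, Size π b → 0 ≤ e → ClsR γ T π P e →
    ∃ (w : ℝ → ℕ → ℕ) (Tr Bad : ℝ → T × Inp → Prop), IsFamR γ π P e w Tr Bad

section

variable {γ c : ℝ} {T : Type} {π : Pres T} {P : T → Prop}

theorem clsR_mono {e e' : ℝ} (h : ClsR γ T π P e) (he : e ≤ e') : ClsR γ T π P e' := by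
  obtain ⟨k, hk, h⟩ := h
  exact ⟨k, hk, h.mono he (fun _ _ _ h => h) fun _ h => h⟩

theorem clsR_not {e : ℝ} (h : ClsR γ T π P e) : ClsR γ T π (fun τ => ¬ P τ) e := by
  obtain ⟨k, hk, h⟩ := h
  exact ⟨k, hk, h.compl (QLoc.hsep γ k)⟩

theorem clsR_merge {u u' e : ℝ} {β β' : ℕ → ℕ} {C : (T × Inp) × Inp → Prop} (hβ : Lin u β)
    (hβ' : Lin u' β') (h : ClsR γ _ ((π.ext β).ext β') C e) :
    ∃ β'' : ℕ → ℕ, Lin (max u u') β'' ∧
      ClsR γ _ (π.ext β'')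
        (fun p => C ((p.1, fun a => p.2 (false :: a)), fun a => p.2 (true :: a))) e := by
  obtain ⟨k, hk, h⟩ := h
  obtain ⟨β'', h1, h2⟩ := InR.merge hβ hβ' h
  exact ⟨β'', h1, k, hk, h2⟩

theorem InVRW.toG {dl : ℕ → ℝ} (hdl0 : ∀ L, 0 ≤ dl L)
    (hdl : ∀ δ : ℝ, 0 < δ → ∀ᶠ L in atTop, dl L ≤ δ) {E : ℝ} (hE : 0 ≤ E)
    (h : InVRW (fun L => QG γ (dl L)) c π P E) : ClsR γ T π P (c * E) := by
  obtain ⟨m, hm, _, h⟩ := h
  exact ⟨_, ex_floor_dl hdl0 hdl hE hm, h⟩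

end

/-- **The fields of `TradeR` from the pivot.** -/
theorem trade_of_pivotR {γ c : ℝ} {S : Set ℕ} {dl : ℕ → ℝ} (hS : S.Infinite)
    (hdl0 : ∀ L, 0 ≤ dl L) (hdl : ∀ δ : ℝ, 0 < δ → ∀ᶠ L in atTop, dl L ≤ δ)
    (P : PivotRW S (fun L => QG γ (dl L)) c) (htoC : ToCR γ) (hfam : FamR γ) :
    TradeR S (ClsR γ) c γ where
  mono := fun h he => clsR_mono h he
  not := fun _ h => clsR_not h
  merge := fun _ hβ hβ' h => clsR_merge hβ hβ' h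
  toC := fun hs he h => htoC hs he h
  mergeH := fun _ hβ hβ' h => InG.merge hβ hβ' h
  dummyH := fun _ _ h => h.dummy _
  elim := fun hπ hb hs hβ h =>
    (rslowW P hπ hb hs hβ h).toG hdl0 hdl (le_trans (by linarith) (le_max_left _ _))
  fam := fun hs he h => hfam hs he h
  diag := fun a u e ha hue hea => by
    obtain ⟨T, π, D, h0, h1, h2, h3⟩ := rdiagW hS (fun L => QLoc.qG γ (dl L)) P a u e ha hue hea
    exact ⟨T, π, D, h0, h1, h2.toG hdl0 hdl (Nat.cast_nonneg a), h3⟩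

theorem not_satRW_sep {γ c : ℝ} (hc : 1 < c) (hγ : 0 ≤ γ) (hγ1 : γ < 1)
    (hc3 : c ^ 3 - (1 - γ) * c ^ 2 - (2 - γ) * c + (1 - γ) < 0) (htoC : ToCR γ)
    (hfam : FamR γ) : ¬ SatRW (QG γ) c := by
  intro H
  obtain ⟨S, dl, hS, hdl0, hdl, ⟨P⟩⟩ := exists_pivotRW (by linarith) H
  exact not_TradeR hc hγ hγ1 hc3 (trade_of_pivotR hS hdl0 hdl P htoC hfam)

/-- the final statement from the negation of `SatRW` -/
theorem sepR_core {γ c c' : ℝ} (hcc : c ≤ c') (hnot : ¬ SatRW (QG γ) c') :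
    ∃ (δ : ℝ) (A M₀ : ℕ), 0 < δ ∧ ∀ M : ℕ, M₀ ≤ M → ∃ m : ℕ, M ≤ m ∧ m ≤ A * M ∧
      ∀ (G : List Ins) (d s T K : ℕ), RSz s d G → (s : ℝ) ≤ 2 ^ (δ * m) →
        (T : ℝ) ≤ 2 ^ (c * m) → (K : ℝ) ≤ 2 ^ (δ * m) →
        ¬ RamDecides G d (satLen m) T γ K (SAT m) := by
  unfold SatRW at hnot
  push Not at hnot
  obtain ⟨δ, hδ, A, M₀, h⟩ := hnot
  refine ⟨δ, A, M₀, hδ, fun M hM => ?_⟩
  obtain ⟨m, hm, hmA, h⟩ := h M hM
  refine ⟨m, hm, hmA, fun G d s T K hsz hs hT hK hD => ?_⟩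
  have hT' : (T : ℝ) ≤ 2 ^ ((c' + δ) * m) := by
    refine hT.trans (Real.rpow_le_rpow_of_exponent_le (by norm_num) ?_)
    have : (0 : ℝ) ≤ m := by positivity
    nlinarith
  obtain ⟨z, hz, h⟩ := h G d s T hsz hs hT'
  obtain ⟨N, hN, h1, h2, h3⟩ := hD z hz
  obtain ⟨N', h4, h5⟩ := h ⟨_, ⟨N, hN, h1, rfl⟩, h2⟩
  have : N = N' := rhalts_unique h1 h4
  subst this
  exact h5 (h3.mono (Nat.le_floor hK))

/-- **The final statement**, if the fields `toC` and `fam` are given. -/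
theorem sat_ram_window {γ : ℝ} (htoC : ToCR γ) (hfam : FamR γ) (hγ : 0 ≤ γ) (hγ1 : γ < 1) {c : ℝ}
    (hc1 : 1 ≤ c) (hc3 : (c ^ 2 - 1) * (c + γ - 1) < (1 - γ) * c) :
    ∃ (δ : ℝ) (A M₀ : ℕ), 0 < δ ∧ ∀ M : ℕ, M₀ ≤ M → ∃ m : ℕ, M ≤ m ∧ m ≤ A * M ∧
      ∀ (G : List Ins) (d s T K : ℕ), RSz s d G → (s : ℝ) ≤ 2 ^ (δ * m) →
        (T : ℝ) ≤ 2 ^ (c * m) → (K : ℝ) ≤ 2 ^ (δ * m) →
        ¬ RamDecides G d (satLen m) T γ K (SAT m) := by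
  have hcont : ContinuousAt
      (fun x : ℝ => x ^ 3 - (1 - γ) * x ^ 2 - (2 - γ) * x + (1 - γ)) c := by fun_prop
  have hev : ∀ᶠ x : ℝ in nhds c, x ^ 3 - (1 - γ) * x ^ 2 - (2 - γ) * x + (1 - γ) < 0 :=
    hcont.eventually (gt_mem_nhds (by linarith))
  obtain ⟨ε, hε, hball⟩ := Metric.eventually_nhds_iff.mp hev
  have h1 := hball (y := c + ε / 2) (by
    rw [Real.dist_eq]
    have : c + ε / 2 - c = ε / 2 := by ring
    rw [this, abs_of_pos (by linarith)]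
    linarith)
  exact sepR_core (show c ≤ c + ε / 2 by linarith)
    (not_satRW_sep (by linarith) hγ hγ1 h1 htoC hfam)

end Pool.Agent.NUM
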