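import Pool.Agent.NUM.BNum
import Pool.Agent.NUM.BCls
import Pool.Agent.NUM.RTrade

/-!
# Theorem H(b, γ) for random access machines: the fields of `TradeB` from the pivot
-/

set_option autoImplicit false

namespace Pool.Agent.NUM

open Filter S3

/-- the field `toC` of `TradeB` for the class `ClsB γ β₀` -/
def ToCB (γ β₀ : ℝ) : Prop :=
  ∀ {T : Type} {π : Pres T} {P : T → Prop} {b e : ℝ}, Size π b → 0 ≤ e → ClsB γ β₀ T π P e →
    Cert ClsH e π P (fun τ => ¬ P τ) e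

/-- the field `fam` of `TradeB` for the class `ClsB γ β₀` -/
def FamB (γ β₀ : ℝ) : Prop :=
  ∀ {T : Type} {π : Pres T} {P : T → Prop} {b e : ℝ}, Size π b → 0 ≤ e → ClsB γ β₀ T π P e →
    ∃ (w : ℝ → ℕ → ℕ) (Tr Bad : ℝ → T × Inp → Prop), IsFamB γ (β₀ * e) π P e w Tr Bad

/-- the property of the computations of the 3SAT programs of order `m`, with separators of size
`2 ^ ((b + δ) m) * |W| ^ γ` -/
def QB (b γ : ℝ) : ℝ → ℕ → ℕ → (ℕ → ℕ) → Prop := fun δ m N rc =>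
  HSep N rc γ ⌊(2 : ℝ) ^ ((b + δ) * m)⌋₊

section

variable {γ β₀ c b : ℝ} {T : Type} {π : Pres T} {P : T → Prop}

theorem clsB_mono (hβ₀ : 0 ≤ β₀) {e e' : ℝ} (h : ClsB γ β₀ T π P e) (he : e ≤ e') :
    ClsB γ β₀ T π P e' := by
  obtain ⟨k, hk, h⟩ := h
  exact ⟨k, hk.mono (mul_le_mul_of_nonneg_left he hβ₀), h.mono he (fun _ _ _ h => h) fun _ h => h⟩

theorem clsB_not {e : ℝ} (h : ClsB γ β₀ T π P e) : ClsB γ β₀ T π (fun τ => ¬ P τ) e := by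
  obtain ⟨k, hk, h⟩ := h
  exact ⟨k, hk, h.compl (QLoc.hsep γ k)⟩

theorem clsB_merge {u u' e : ℝ} {β β' : ℕ → ℕ} {C : (T × Inp) × Inp → Prop} (hβ : Lin u β)
    (hβ' : Lin u' β') (h : ClsB γ β₀ _ ((π.ext β).ext β') C e) :
    ∃ β'' : ℕ → ℕ, Lin (max u u') β'' ∧
      ClsB γ β₀ _ (π.ext β'')
        (fun p => C ((p.1, fun a => p.2 (false :: a)), fun a => p.2 (true :: a))) e := by
  obtain ⟨k, hk, h⟩ := h
  obtain ⟨β'', h1, h2⟩ := InR.merge hβ hβ' h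
  exact ⟨β'', h1, k, hk, h2⟩

theorem ex_floor_dlB (hb : 0 ≤ b) {dl : ℕ → ℝ} (hdl0 : ∀ L, 0 ≤ dl L)
    (hdl : ∀ δ : ℝ, 0 < δ → ∀ᶠ L in atTop, dl L ≤ δ) {E : ℝ} (hE : 0 ≤ E) {m : ℕ → ℕ}
    (hm : Lin E m) : Ex (b * E) fun L => ⌊(2 : ℝ) ^ ((b + dl L) * m L)⌋₊ := by
  intro ε hε
  have hb1 : 0 < b + 1 := by linarith
  obtain ⟨L₁, h1⟩ := hm (min 1 (ε / (2 * (b + 1)))) (lt_min one_pos (by positivity))
  obtain ⟨L₂, h2⟩ := eventually_atTop.1 (hdl (ε / (2 * (E + 1))) (by positivity))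
  refine ⟨max L₁ L₂, fun L hL => (Nat.floor_le (by positivity)).trans ?_⟩
  apply Real.rpow_le_rpow_of_exponent_le (by norm_num)
  have h3 := h1 L ((le_max_left _ _).trans hL)
  have h4 := h2 L ((le_max_right _ _).trans hL)
  have hL0 : (0 : ℝ) ≤ L := Nat.cast_nonneg L
  have h5 : (m L : ℝ) ≤ (E + 1) * L := h3.trans (mul_le_mul_of_nonneg_right
    (by linarith [min_le_left (1 : ℝ) (ε / (2 * (b + 1)))]) hL0)
  have h6 : (m L : ℝ) ≤ (E + ε / (2 * (b + 1))) * L := h3.trans (mul_le_mul_of_nonneg_right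
    (by linarith [min_le_right (1 : ℝ) (ε / (2 * (b + 1)))]) hL0)
  have h7 : dl L * m L ≤ ε / 2 * L := by
    calc dl L * m L ≤ dl L * ((E + 1) * L) := mul_le_mul_of_nonneg_left h5 (hdl0 L)
      _ ≤ ε / (2 * (E + 1)) * ((E + 1) * L) := mul_le_mul_of_nonneg_right h4 (by positivity)
      _ = ε / 2 * L := by field_simp
  have h8 : b * m L ≤ (b * E + ε / 2) * L := by
    calc b * m L ≤ b * ((E + ε / (2 * (b + 1))) * L) := mul_le_mul_of_nonneg_left h6 hb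
      _ = (b * E + b * (ε / (2 * (b + 1)))) * L := by ring
      _ ≤ (b * E + ε / 2) * L := by
        refine mul_le_mul_of_nonneg_right ?_ hL0
        have h9 : b * (ε / (2 * (b + 1))) ≤ ε / 2 := by
          rw [mul_div_assoc', div_le_iff₀ (by positivity)]
          nlinarith
        linarith
  calc (b + dl L) * m L = b * m L + dl L * m L := by ring
    _ ≤ (b * E + ε / 2) * L + ε / 2 * L := add_le_add h8 h7
    _ = (b * E + ε) * L := by ring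

theorem InVRW.toB (hc : 0 < c) (hb : 0 ≤ b) {dl : ℕ → ℝ} (hdl0 : ∀ L, 0 ≤ dl L)
    (hdl : ∀ δ : ℝ, 0 < δ → ∀ᶠ L in atTop, dl L ≤ δ) {E : ℝ} (hE : 0 ≤ E)
    (h : InVRW (fun L => QB b γ (dl L)) c π P E) : ClsB γ (b / c) T π P (c * E) := by
  obtain ⟨m, hm, _, h⟩ := h
  have e1 : b / c * (c * E) = b * E := by field_simp
  refine ⟨_, ?_, h⟩
  rw [e1]
  exact ex_floor_dlB hb hdl0 hdl hE hm

end

theorem QLoc.qB (b γ δ : ℝ) : QLoc (QB b γ δ) := fun _ _ _ _ h H =>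
  HSep.congr H fun t ht => (h t ht).symm

/-- **The fields of `TradeB` from the pivot.** -/
theorem trade_of_pivotB {γ c b : ℝ} (hc : 0 < c) (hb : 0 ≤ b) {S : Set ℕ} {dl : ℕ → ℝ}
    (hS : S.Infinite) (hdl0 : ∀ L, 0 ≤ dl L) (hdl : ∀ δ : ℝ, 0 < δ → ∀ᶠ L in atTop, dl L ≤ δ)
    (P : PivotRW S (fun L => QB b γ (dl L)) c) (htoC : ToCB γ (b / c)) (hfam : FamB γ (b / c)) :
    TradeB S (ClsB γ (b / c)) c γ (b / c) where
  mono := fun h he => clsB_mono (div_nonneg hb hc.le) h he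
  not := fun _ h => clsB_not h
  merge := fun _ hβ hβ' h => clsB_merge hβ hβ' h
  toC := fun hs he h => htoC hs he h
  mergeH := fun _ hβ hβ' h => InG.merge hβ hβ' h
  dummyH := fun _ _ h => h.dummy _
  elim := fun hπ hb' hs hβ h =>
    (rslowW P hπ hb' hs hβ h).toB hc hb hdl0 hdl (le_trans (by linarith) (le_max_left _ _))
  fam := fun hs he h => hfam hs he h
  diag := fun a u e ha hue hea => by
    obtain ⟨T, π, D, h0, h1, h2, h3⟩ := rdiagW hS (fun L => QLoc.qB b γ (dl L)) P a u e ha hue hea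
    exact ⟨T, π, D, h0, h1, h2.toB hc hb hdl0 hdl (Nat.cast_nonneg a), h3⟩

/-- the closed condition -/
def BCond (b c γ : ℝ) : Prop :=
  ∃ n : ℕ, c ^ 2 - 1 + b * c * ∑ i ∈ Finset.range (n + 1), (1 - γ) ^ i <
    ∑ i ∈ Finset.range n, ((1 - γ) / (c * (c - 1 + γ + b))) ^ (i + 1) +
      c * ((1 - γ) / (c * (c - 1 + γ + b))) ^ (n + 1)

theorem not_satRW_sepB {γ c b : ℝ} (hc : 1 < c) (hγ : 0 ≤ γ) (hγ1 : γ < 1) (hb : 0 ≤ b)
    (h : BCond b c γ) (htoC : ToCB γ (b / c)) (hfam : FamB γ (b / c)) : ¬ SatRW (QB b γ) c := by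
  intro H
  obtain ⟨S, dl, hS, hdl0, hdl, ⟨P⟩⟩ := exists_pivotRW (by linarith) H
  obtain ⟨r, x, y, h1, h2, h3, h4⟩ := exists_reach_of_cond hc hγ hγ1 h
  exact not_TradeB_of_reach hc hγ hγ1 hb h1 h2 h3 h4
    (trade_of_pivotB (by linarith) hb hS hdl0 hdl P htoC hfam)

/-- the final statement from the negation of `SatRW` -/
theorem sepB_core {b γ c : ℝ} (hnot : ¬ SatRW (QB b γ) c) :
    ∃ (δ : ℝ) (A M₀ : ℕ), 0 < δ ∧ ∀ M : ℕ, M₀ ≤ M → ∃ m : ℕ, M ≤ m ∧ m ≤ A * M ∧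
      ∀ (G : List Ins) (d s T K : ℕ), RSz s d G → (s : ℝ) ≤ 2 ^ (δ * m) →
        (T : ℝ) ≤ 2 ^ (c * m) → (K : ℝ) ≤ 2 ^ ((b + δ) * m) →
        ¬ RamDecides G d (satLen m) T γ K (SAT m) := by
  unfold SatRW at hnot
  push Not at hnot
  obtain ⟨δ, hδ, A, M₀, h⟩ := hnot
  refine ⟨δ, A, M₀, hδ, fun M hM => ?_⟩
  obtain ⟨m, hm, hmA, h⟩ := h M hM
  refine ⟨m, hm, hmA, fun G d s T K hsz hs hT hK hD => ?_⟩
  have hT' : (T : ℝ) ≤ 2 ^ ((c + δ) * m) := by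
    refine hT.trans (Real.rpow_le_rpow_of_exponent_le (by norm_num) ?_)
    have : (0 : ℝ) ≤ m := by positivity
    nlinarith
  obtain ⟨z, hz, h⟩ := h G d s T hsz hs hT'
  obtain ⟨N, hN, h1, h2, h3⟩ := hD z hz
  obtain ⟨N', h4, h5⟩ := h ⟨_, ⟨N, hN, h1, rfl⟩, h2⟩
  have : N = N' := rhalts_unique h1 h4
  subst this
  exact h5 (h3.mono (Nat.le_floor hK))

/-- **The final statement**, if the fields `toC` and `fam` are given. -/
theorem sat_ram_windowB {b γ c : ℝ} (hc : 1 < c) (hγ : 0 ≤ γ) (hγ1 : γ < 1) (hb : 0 ≤ b)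
    (h : BCond b c γ) (htoC : ToCB γ (b / c)) (hfam : FamB γ (b / c)) :
    ∃ (δ : ℝ) (A M₀ : ℕ), 0 < δ ∧ ∀ M : ℕ, M₀ ≤ M → ∃ m : ℕ, M ≤ m ∧ m ≤ A * M ∧
      ∀ (G : List Ins) (d s T K : ℕ), RSz s d G → (s : ℝ) ≤ 2 ^ (δ * m) →
        (T : ℝ) ≤ 2 ^ (c * m) → (K : ℝ) ≤ 2 ^ ((b + δ) * m) →
        ¬ RamDecides G d (satLen m) T γ K (SAT m) :=
  sepB_core (not_satRW_sepB hc hγ hγ1 hb h htoC hfam)

end Pool.Agent.NUM
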