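import Pool.Agent.NUM.GCode
import Pool.Agent.NUM.RRead

/-!
# Theorem H(γ) for random access machines: the code of the static checks
-/

set_option autoImplicit false

namespace Pool.Agent.NUM

/-! ### truncation -/

theorem pk_trc (p : GPar) (y : Inp) (j : Bool) :
    pk (trc (rLen p) y) j = trc (gLen p) (pk y j) := by
  funext a
  unfold pk trc rLen
  simp only [List.length_cons]
  by_cases h : a.length ≤ gLen p
  · rw [if_pos (by omega), if_pos h]
  · rw [if_neg (by omega), if_neg h]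

theorem pk_trcL (w σ : ℕ) (l : Inp) (j : Bool) :
    pk (trc (lLen w σ) l) j = trc (hLen w σ) (pk l j) := by
  funext a
  unfold pk trc lLen
  simp only [List.length_cons]
  by_cases h : a.length ≤ hLen w σ
  · rw [if_pos (by omega), if_pos h]
  · rw [if_neg (by omega), if_neg h]

theorem rL_trc (p : GPar) (l : Inp) (j : Bool) :
    rL p (trc (lLen (p.w₁ - 1) p.σ) l) j = rL p l j := by
  unfold rL
  rw [pk_trcL, gct_rdL_trc]

theorem rcom_trc (p : GPar) (y : Inp) (k i e : ℕ) :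
    RCom p (trc (gLen p) y) k i e ↔ RCom p y k i e := by
  unfold RCom
  rw [gR_trc, gC_trc, gX_trc, gE_trc, gK_trc, gI_trc, gDk_trc, gDi_trc]

theorem rdf_trc (p : GPar) (l y : Inp) (e : ℕ) :
    RDf p (trc (lLen (p.w₁ - 1) p.σ) l) (trc (rLen p) y) e ↔ RDf p l y e := by
  unfold RDf
  rw [rL_trc, rL_trc, pk_trc, pk_trc, gj_trc, gj_trc, gi_trc, gi_trc, gR_trc, gR_trc]

/-- **Truncation, step.** -/
theorem rstep_trc (p : GPar) (l y v : Inp) :
    RStepC p (trc (lLen (p.w₁ - 1) p.σ) l) (trc (rLen p) y) v ↔ RStepC p l y v := by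
  unfold RStepC
  rw [rdf_trc, pk_trc, rcom_trc]

/-- **Truncation, top.** -/
theorem rtop_trc (p : GPar) (y v : Inp) : RTopC p (trc (rLen p) y) v ↔ RTopC p y v := by
  unfold RTopC
  rw [pk_trc, pk_trc, rcom_trc, gR_trc]

/-! ### chains of conditions -/

section

variable {X B k l m n n' c c' : ℕ}

theorem CP.andc {K j : ℕ} {P Q : Inp → Mem → Prop} (hX : 1000 ≤ X) (h : CP B (X ^ K) P)
    (h' : CP B (X ^ (K + j)) Q) : CP B (X ^ (K + (j + 1))) (fun z M => P z M ∧ Q z M) :=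
  CP.and (k := K + j) hX (h.up hX (by omega)) h'

theorem CP.impc {K : ℕ} {P Q : Inp → Mem → Prop} (hX : 1000 ≤ X) (h : CP B (X ^ k) P)
    (h' : CP B (X ^ l) Q) (h1 : k + 2 ≤ K) (h2 : l + 2 ≤ K) :
    CP B (X ^ K) (fun z M => P z M → Q z M) := by
  obtain ⟨K', rfl⟩ : ∃ K', K = K' + 2 := ⟨K - 2, by omega⟩
  exact CP.imp hX (h.up hX (by omega)) (h'.up hX (by omega))

/-- one computed bit as an address -/
theorem CA.bit1 {f : Inp → Mem → Bool} (hX : 1000 ≤ X) (hf : Cp B (X ^ (k + 1)) f) :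
    CA B (X ^ (k + 1)) 1 (fun z M => [f z M]) := by
  refine ⟨fun _ _ => rfl, fun j => ?_⟩
  cases j with
  | zero => exact hf.congr fun z M => rfl
  | succ j =>
    exact ((CX.const hX false).up hX (by omega : 1 ≤ k + 1)).congr fun z M => by simp

/-- part `j` of a string at a computed bit `j` -/
theorem CStr.pk {y : Inp → Mem → Inp} {f : Inp → Mem → Bool} (hX : 1000 ≤ X)
    (hy : CStr B (X ^ (k + 1)) c y) (hf : Cp B (X ^ (k + 1)) f) :
    CStr B (X ^ (k + 1)) (c + 1) (fun z M => NUM.pk (y z M) (f z M)) :=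
  (hy.sub (CA.bit1 hX hf)).congr fun _ _ _ => rfl

/-- part `j` of a string -/
theorem CStr.pkC {y : Inp → Mem → Inp} (hX : 1000 ≤ X)
    (hy : CStr B (X ^ (k + 1)) c y) (j : Bool) :
    CStr B (X ^ (k + 1)) (c + 1) (fun z M => NUM.pk (y z M) j) :=
  CStr.pk hX hy ((CX.const hX j).up hX (by omega))

/-- a computable list with indices of every width -/
structure CG (B X k h w b : ℕ) (L : Inp → Mem → Lst (Fin h → Bool)) : Prop where
  tm : ∀ (l n : ℕ) (i : Inp → Mem → ℕ), k ≤ l → CN B (X ^ l) n i →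
    CN B (X ^ (l + 5)) b fun z M => (L z M).tm (i z M)
  st : ∀ (l n : ℕ) (i : Inp → Mem → ℕ), k ≤ l → CN B (X ^ l) n i →
    CV B (X ^ (l + 5)) fun z M => (L z M).st (i z M)
  lb : ∀ (l n : ℕ) (i : Inp → Mem → ℕ), k ≤ l → CN B (X ^ l) n i →
    CN B (X ^ (l + 5)) w fun z M => (L z M).lb (i z M)
  fin : ∀ (l n : ℕ) (i : Inp → Mem → ℕ), k ≤ l → CN B (X ^ l) n i →
    Cp B (X ^ (l + 5)) fun z M => (L z M).fin (i z M)
  pv : ∀ (l n : ℕ) (i : Inp → Mem → ℕ), k ≤ l → n + 2 ≤ X → CN B (X ^ l) n i →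
    CN B (X ^ (l + 12)) b fun z M => (L z M).pv (i z M)
  ps : ∀ (l n : ℕ) (i : Inp → Mem → ℕ), k ≤ l → n + 2 ≤ X → CN B (X ^ l) n i →
    CV B (X ^ (l + 12)) fun z M => (L z M).ps (fun _ => false) (i z M)

/-- a list of claims in a substring -/
theorem CStr.cg {h w b σ : ℕ} {u : Inp → Mem → Inp} (hX : 1000 ≤ X)
    (hc : c + w + σ + 20 ≤ X) (hu : CStr B (X ^ (k + 1)) c u) :
    CG B X (k + 1) h w b fun z M => rdL h w b σ (u z M) := by
  constructor
  · intro l n i hl hi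
    obtain ⟨l', rfl⟩ : ∃ l', l = l' + 1 := ⟨l - 1, by omega⟩
    exact (CStr.tm hX hc (hu.up hX hl) hi).up hX (by omega)
  · intro l n i hl hi
    obtain ⟨l', rfl⟩ : ∃ l', l = l' + 1 := ⟨l - 1, by omega⟩
    exact (CStr.st hX hc (hu.up hX hl) hi).up hX (by omega)
  · intro l n i hl hi
    obtain ⟨l', rfl⟩ : ∃ l', l = l' + 1 := ⟨l - 1, by omega⟩
    exact (CStr.lb (h := h) (b := b) hX hc (hu.up hX hl) hi).up hX (by omega)
  · intro l n i hl hi
    obtain ⟨l', rfl⟩ : ∃ l', l = l' + 1 := ⟨l - 1, by omega⟩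
    exact (CStr.fin (h := h) (b := b) hX hc (hu.up hX hl) hi).up hX (by omega)
  · intro l n i hl hn hi
    obtain ⟨l', rfl⟩ : ∃ l', l = l' + 1 := ⟨l - 1, by omega⟩
    exact (CStr.pv (h := h) hX hc hn (hu.up hX hl) hi).up hX (by omega)
  · intro l n i hl hn hi
    obtain ⟨l', rfl⟩ : ∃ l', l = l' + 1 := ⟨l - 1, by omega⟩
    exact (CStr.ps (b := b) hX hc hn (hu.up hX hl) hi).up hX (by omega)

variable {h w w' b : ℕ} {L L' : Inp → Mem → Lst (Fin h → Bool)} {i j e : Inp → Mem → ℕ}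

theorem CG.finF (hX : 1000 ≤ X) (hL : CG B X k h w b L) (hl : k ≤ l) (hi : CN B (X ^ l) n i) :
    CP B (X ^ (l + 10)) fun z M => (L z M).fin (i z M) = false :=
  (CP.ofFalse hX (hL.fin l n i hl hi)).up hX (by omega)

theorem CG.lb1 (hX : 1000 ≤ X) (hw : w ≤ X) (hL : CG B X k h w b L) (hl : k ≤ l)
    (hi : CN B (X ^ l) n i) : CP B (X ^ (l + 10)) fun z M => (L z M).lb (i z M) = 1 :=
  (CP.eqC (k := l + 4) hX hw (hL.lb l n i hl hi) 1).up hX (by omega)

theorem CG.lbn (hX : 1000 ≤ X) (hw : w ≤ X) (hL : CG B X k h w b L) (hl : k ≤ l)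
    (hi : CN B (X ^ l) n i) : CP B (X ^ (l + 11)) fun z M => (L z M).lb (i z M) ≠ 1 :=
  (CP.not hX (hL.lb1 hX hw hl hi)).congr fun _ _ => Iff.rfl

/-- equality of two flags -/
theorem CP.eqB {f g : Inp → Mem → Bool} (hX : 1000 ≤ X) (hf : Cp B (X ^ k) f)
    (hg : Cp B (X ^ k) g) : CP B (X ^ (k + 3)) fun z M => f z M = g z M := by
  have b1 := CP.imp hX (CP.ofTrue hf) (CP.ofTrue hg)
  have b2 := CP.imp hX (CP.ofTrue hg) (CP.ofTrue hf)
  refine (CP.and hX b1 b2).congr fun z M => ?_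
  cases f z M <;> cases g z M <;> simp

/-- equality of entry `i` of `L'` and entry `j` of `L` -/
theorem CG.same (hX : 1000 ≤ X) (hh : h ≤ X) (hb : b ≤ X) (hw' : w' ≤ X) (hww : w ≤ w')
    (hL : CG B X k h w b L) (hL' : CG B X k h w' b L') (hl : k ≤ l)
    (hi : CN B (X ^ l) n i) (hj : CN B (X ^ l) n' j) :
    CP B (X ^ (l + 14)) fun z M => (L' z M).tm (i z M) = (L z M).tm (j z M) ∧
      (L' z M).st (i z M) = (L z M).st (j z M) ∧ (L' z M).lb (i z M) = (L z M).lb (j z M) ∧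
      (L' z M).fin (i z M) = (L z M).fin (j z M) := by
  have a1 := CP.eqN hX hb (hL'.tm l n i hl hi) (hL.tm l n' j hl hj)
  have a2 := CP.eqV (k := l + 4) hX hh (hL'.st l n i hl hi) (hL.st l n' j hl hj)
  have a3 := CP.eqN hX hw' (hL'.lb l n i hl hi) ((hL.lb l n' j hl hj).widen hww)
  have a4 := CP.eqB hX (hL'.fin l n i hl hi) (hL.fin l n' j hl hj)
  have c1 := CP.andc (K := l + 8) (j := 0) hX (a3.up hX (by omega)) (a4.up hX (by omega))
  have c2 := CP.andc hX (a2.up hX (by omega)) c1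
  have c3 := CP.andc hX (a1.up hX (by omega)) c2
  exact c3.up hX (by omega)

theorem CG.eqAt (hX : 1000 ≤ X) (hh : h ≤ X) (hb : b ≤ X) (hw' : w' ≤ X) (hww : w ≤ w')
    (hL : CG B X k h w b L) (hL' : CG B X k h w' b L') (hl : k ≤ l) (he : CN B (X ^ l) n e) :
    CP B (X ^ (l + 14)) fun z M => EqAtR (L z M) (L' z M) (e z M) :=
  (CG.same hX hh hb hw' hww hL hL' hl he he).congr fun _ _ => Iff.rfl

theorem CG.eqSh (hX : 1000 ≤ X) (hh : h ≤ X) (hb : b ≤ X) (hw' : w' ≤ X) (hww : w ≤ w')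
    (hn : n + 1 ≤ X) (hL : CG B X k h w b L) (hL' : CG B X k h w' b L') (hl : k ≤ l)
    (he : CN B (X ^ l) n e) :
    CP B (X ^ (l + 16)) fun z M => EqSh (L z M) (L' z M) (e z M) :=
  ((CG.same (l := l + 2) hX hh hb hw' hww hL hL' (by omega) (CN.succ hX hn he)
    (he.up hX (by omega))).congr fun _ _ => Iff.rfl).up hX (by omega)

end

/-! ### the static conditions on a package -/

section

variable {B k l c cv : ℕ} {p : GPar} {y : Inp → Mem → Inp} {κ i e : Inp → Mem → ℕ}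

theorem CP.dirR (p : GPar) (hc : c ≤ 10) (hy : CStr B (p.X ^ (k + 1)) c y)
    (he : CN B (p.X ^ (k + 1)) p.w₁ e) :
    CP B (p.X ^ (k + 20)) (fun z M => DirR p.q p.w (gR p (y z M)) (gC p (y z M))
      (e z M) (gDk p (y z M) (e z M)) (gDi p (y z M) (e z M))) := by
  have hX := p.X_big
  have hs := p.X_size
  have hfin := CStr.fin (h := p.h) (b := p.b) (w := p.w₁) (σ := p.σ) hX (by omega)
    (hy.gRstr hX) he
  have hlb1 := CP.eqC hX (by omega) (CStr.lb (h := p.h) (b := p.b) (w := p.w₁) (σ := p.σ) hX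
    (by omega) (hy.gRstr hX) he) 1
  have hK := hy.gdbN p hX (by omega) he 0 p.q
  have hI := hy.gdbN p hX (by omega) he 1 p.w
  have hy' : CStr B (p.X ^ (k + 2 + 1)) c y := hy.up hX (by omega)
  have hR := hy'.gRstr hX
  have he' : CN B (p.X ^ (k + 2 + 1)) p.w₁ e := he.up hX (by omega)
  have hC' := hy'.gRec p hX hK
  have b1 := CP.ltC (k := k + 2) hX (by omega) hK (2 ^ p.q)
  have b2 := CP.ltC (k := k + 2) hX (by omega) hI (2 ^ p.w)
  have b3 := CP.ofFalse hX (CStr.fin (h := p.h) (b := p.b) (w := p.w) (σ := p.σ) hX (by omega)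
    hC' hI)
  have b4 := CP.eqC hX (by omega) (CStr.lb (h := p.h) (b := p.b) (w := p.w) (σ := p.σ) hX
    (by omega) hC' hI) 1
  have b5 := CP.same (h := p.h) (b := p.b) (w := p.w₁) (w' := p.w) (σ := p.σ) hX (by omega)
    (by omega) (by omega) (by omega) hR hC' he' hI
  have b4' := CP.impc (K := k + 10) hX hlb1 b4 (by omega) (by omega)
  have b6 := CP.andc (K := k + 10) (j := 0) hX b4' (b5.up hX (by omega))
  have b7 := CP.andc hX (b3.up hX (by omega)) b6
  have b8 := CP.andc hX (b2.up hX (by omega)) b7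
  have b9 := CP.andc hX (b1.up hX (by omega)) b8
  have c3 := CP.impc (K := k + 20) hX (CP.ofFalse hX hfin) b9 (by omega) (by omega)
  exact c3.congr fun z M => Iff.rfl

theorem CP.contR (p : GPar) (hc : c ≤ 10) (hy : CStr B (p.X ^ (k + 1)) c y)
    (hκ : CN B (p.X ^ (k + 1)) p.q κ) (hi : CN B (p.X ^ (k + 1)) p.w i) :
    CP B (p.X ^ (k + 30)) (fun z M => ContR p.w₁ (gR p (y z M)) (gC p (y z M))
      (κ z M) (i z M) (gE p (y z M) (κ z M) (i z M))) := by
  have hX := p.X_big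
  have hs := p.X_size
  have hC := hy.gRec p hX hκ
  have hfin := CStr.fin (h := p.h) (b := p.b) (w := p.w) (σ := p.σ) hX (by omega) hC hi
  have hlb1 := CP.eqC hX (by omega) (CStr.lb (h := p.h) (b := p.b) (w := p.w) (σ := p.σ) hX
    (by omega) hC hi) 1
  have hpv := CStr.pv (h := p.h) (b := p.b) (w := p.w) (σ := p.σ) hX (by omega) (by omega) hC hi
  have htm := CStr.tm (h := p.h) (b := p.b) (w := p.w) (σ := p.σ) hX (by omega) hC hi
  have hE := hy.gpbN p hX (by omega) hκ hi 1 p.w₁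
  have hy' : CStr B (p.X ^ (k + 2 + 1)) c y := hy.up hX (by omega)
  have hR := hy'.gRstr hX
  have a1 := CP.ltC (k := k + 2) hX (by omega) hE (2 ^ p.w₁)
  have a2 := CP.ofFalse hX (CStr.fin (h := p.h) (b := p.b) (w := p.w₁) (σ := p.σ) hX (by omega)
    hR hE)
  have a3 := CP.eqC hX (by omega) (CStr.lb (h := p.h) (b := p.b) (w := p.w₁) (σ := p.σ) hX
    (by omega) hR hE) 1
  have rpv := CStr.pv (h := p.h) (b := p.b) (w := p.w₁) (σ := p.σ) hX (by omega) (by omega) hR hE
  have rtm := CStr.tm (h := p.h) (b := p.b) (w := p.w₁) (σ := p.σ) hX (by omega) hR hE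
  have a4 := CP.leN hX (by omega) rpv (hpv.up hX (by omega))
  have a5 := CP.leN hX (by omega) (htm.up hX (by omega)) rtm
  have b1 := CP.andc (K := k + 20) (j := 0) hX (a4.up hX (by omega)) (a5.up hX (by omega))
  have b2 := CP.andc hX (a3.up hX (by omega)) b1
  have b3 := CP.andc hX (a2.up hX (by omega)) b2
  have b4 := CP.andc hX (a1.up hX (by omega)) b3
  have b5 := CP.impc (K := k + 26) hX hlb1 b4 (by omega) (by omega)
  have b6 := CP.impc (K := k + 30) hX (CP.ofFalse hX hfin) b5 (by omega) (by omega)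
  exact b6.congr fun z M => Iff.rfl

theorem CP.rCom (p : GPar) (hc : c ≤ 10) (hy : CStr B (p.X ^ (k + 1)) c y)
    (hκ : CN B (p.X ^ (k + 1)) p.q κ) (hi : CN B (p.X ^ (k + 1)) p.w i)
    (he : CN B (p.X ^ (k + 1)) p.w₁ e) :
    CP B (p.X ^ (k + 40)) (fun z M => RCom p (y z M) (κ z M) (i z M) (e z M)) := by
  have hX := p.X_big
  have hs := p.X_size
  have h1 := CP.lstatAt (h := p.h) (b := p.b) (w := p.w) (σ := p.σ) hX (by omega) (by omega)
    (by omega) (hy.gRec p hX hκ) hi p.lim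
  have h2 := CP.lstatAt (h := p.h) (b := p.b) (w := p.w₁) (σ := p.σ) hX (by omega) (by omega)
    (by omega) (hy.gRstr hX) he p.lim₁
  have h3 := CP.ptrOK p hc hy hκ hi
  have h4 := CP.dirR p hc hy he
  have h5 := CP.contR p hc hy hκ hi
  have h6 := CP.andc (K := k + 36) (j := 0) hX (h4.up hX (by omega)) (h5.up hX (by omega))
  have h7 := CP.andc hX (h3.up hX (by omega)) h6
  have h8 := CP.andc hX (h2.up hX (by omega)) h7
  have h9 := CP.andc hX (h1.up hX (by omega)) h8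
  exact (h9.congr fun z M => Iff.rfl).up hX (by omega)

/-- the numbers of the refuter -/
theorem CN.unum (p : GPar) {v : Inp → Mem → Inp} (hc : cv ≤ 10)
    (hv : CStr B (p.X ^ (k + 1)) cv v) :
    Cp B (p.X ^ (k + 3)) (fun z M => uj p (v z M)) ∧
    CN B (p.X ^ (k + 3)) p.q (fun z M => uk p (v z M)) ∧
    CN B (p.X ^ (k + 3)) p.w (fun z M => ui p (v z M)) ∧
    CN B (p.X ^ (k + 3)) p.w₁ (fun z M => ue p (v z M)) := by
  have hX := p.X_big
  have hs := p.X_size
  have hl : ∀ f, (false :: bits 3 f).length = 4 := fun f => by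
    rw [List.length_cons, length_bits]
  have hl' : (false :: (bits 3 0 ++ bits p.σ 0)).length = 4 + p.σ := by
    rw [List.length_cons, List.length_append, length_bits, length_bits]
    omega
  exact ⟨hv.bit hX (CA.const' hX (false :: (bits 3 0 ++ bits p.σ 0)) hl') (by omega),
    hv.numC hX (false :: bits 3 1) p.σ p.q (by rw [hl]; omega),
    hv.numC hX (false :: bits 3 3) p.σ p.w (by rw [hl]; omega),
    hv.numC hX (false :: bits 3 4) p.σ p.w₁ (by rw [hl]; omega)⟩

/-- **`RCom` on the input** -/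
theorem CP.rComV (p : GPar) {v : Inp → Mem → Inp} (hc : c + 1 ≤ 10) (hcv : cv ≤ 10)
    (hy : CStr B (p.X ^ (k + 1)) c y) (hv : CStr B (p.X ^ (k + 1)) cv v) :
    CP B (p.X ^ (k + 42)) (fun z M => RCom p (pk (y z M) (uj p (v z M))) (uk p (v z M))
      (ui p (v z M)) (ue p (v z M))) := by
  have hX := p.X_big
  obtain ⟨h0, h1, h2, h3⟩ := CN.unum p hcv hv
  exact CP.rCom (k := k + 2) p hc (CStr.pk hX (hy.up hX (by omega)) h0) h1 h2 h3

end

/-! ### the certificates -/

section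

variable {X B k l : ℕ} {p : GPar}

/-- the flag of a computable state -/
theorem CV.rfg (hp : p.Ok) {S : Inp → Mem → Fin p.h → Bool} (hS : CV B (X ^ k) S) :
    Cp B (X ^ k) fun z M => rfg p (S z M) := by
  have h1 : 0 < p.h := by have := hp.h2; omega
  refine (hS ⟨0, h1⟩).congr fun z M => ?_
  unfold Pool.Agent.NUM.rfg
  rw [dif_pos h1]

/-- the number at the end of a computable state -/
theorem CV.rsx (hX : 1000 ≤ X) {S : Inp → Mem → Fin p.h → Bool} (hS : CV B (X ^ (k + 1)) S) :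
    CN B (X ^ (k + 1)) p.b fun z M => rsx p (S z M) := by
  refine CN.of hX (g := fun r z M => if hr : p.c + r < p.h then S z M ⟨p.c + r, hr⟩ else false)
    fun r _ => ?_
  by_cases hr : p.c + r < p.h
  · refine (hS ⟨p.c + r, hr⟩).congr fun z M => ?_
    rw [dif_pos hr]
  · refine ((CX.const hX false).up hX (by omega : 1 ≤ k + 1)).congr fun z M => ?_
    rw [dif_neg hr]

variable {w w₁ n : ℕ} {L L'' R R' : Inp → Mem → Lst (Fin p.h → Bool)}
  {i j i'' e : Inp → Mem → ℕ}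

/-- the code of the first certificate -/
theorem CG.df1At (hp : p.Ok) (hX : 1000 ≤ X) (hh : p.h ≤ X) (hb : p.b ≤ X) (hw₁ : w₁ + 10 ≤ X)
    (hww : w ≤ w₁) (hn : n + 2 ≤ X)
    (hL : CG B X k p.h w p.b L) (hR : CG B X k p.h w₁ p.b R) (hl : k ≤ l + 1)
    (hi : CN B (X ^ (l + 1)) n i) (he : CN B (X ^ (l + 1)) n e) :
    CP B (X ^ (l + 40)) fun z M =>
      Df1At (fun _ => false) (rfg p) w (L z M) (R z M) (i z M) (e z M) := by
  have hLf := hL.finF hX hl hi
  have hLl := hL.lb1 hX (by omega) hl hi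
  have hi0 := CP.ltC hX (by omega) hi (2 ^ w)
  have hfl := CP.ofTrue (CV.rfg hp (hL.ps _ n i hl (by omega) hi))
  have hei := CP.ltN hX (by omega) he hi
  have hEq := CG.eqAt hX hh hb (by omega) hww hL hR hl he
  have g1 := CP.impc (K := l + 18) hX hei hEq (by omega) (by omega)
  have g2 := hR.finF hX hl hi
  have g3 := hR.lb1 hX (by omega) hl hi
  have tR := hR.tm _ n i hl hi
  have tL := hL.tm _ n i hl hi
  have sR := hR.st _ n i hl hi
  have sL := hL.st _ n i hl hi
  have g4 := CP.leN hX hb tR tL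
  have g5a := CP.eqN hX hb tR tL
  have g5b := CP.not hX (CP.eqV (k := l + 5) hX hh sR sL)
  have g5 := CP.impc (K := l + 18) hX g5a g5b (by omega) (by omega)
  have g6a := CP.ltN hX hb tR tL
  have g6b := CP.ofTrue (CV.rfg hp sR)
  have g6 := CP.impc (K := l + 18) hX g6a g6b (by omega) (by omega)
  have k1 := CP.andc (K := l + 18) (j := 0) hX g5 g6
  have k2 := CP.andc hX (g4.up hX (by omega)) k1
  have k3 := CP.andc hX (g3.up hX (by omega)) k2
  have k4 := CP.andc hX (g2.up hX (by omega)) k3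
  have k5 := CP.andc hX g1 k4
  have k6 := CP.or hX (hfl.up hX (by omega)) k5
  have k7 := CP.andc (K := l + 30) (j := 0) hX (hLl.up hX (by omega)) (k6.up hX (by omega))
  have k8 := CP.andc hX (hLf.up hX (by omega)) k7
  have k9 := CP.andc hX (hi0.up hX (by omega)) k8
  exact (k9.congr fun z M => Iff.rfl).up hX (by omega)

/-- the code of the second certificate -/
theorem CG.df2At (hX : 1000 ≤ X) (hh : p.h ≤ X) (hb : p.b ≤ X)
    (hw₁ : w₁ + 10 ≤ X) (hww : w ≤ w₁) (hn : n + 10 ≤ X)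
    (hL : CG B X k p.h w p.b L) (hL'' : CG B X k p.h w p.b L'') (hR : CG B X k p.h w₁ p.b R)
    (hR' : CG B X k p.h w₁ p.b R') (hl : k ≤ l + 1)
    (hi : CN B (X ^ (l + 1)) n i) (hj : CN B (X ^ (l + 1)) n j) (hi'' : CN B (X ^ (l + 1)) n i'')
    (he : CN B (X ^ (l + 1)) n e) :
    CP B (X ^ (l + 60)) fun z M =>
      Df2At (rsx p) w (L z M) (L'' z M) (R z M) (R' z M) (i z M) (j z M) (i'' z M) (e z M) := by
  have hs : CN B (X ^ (l + 3)) (n + 1) fun z M => i z M + 1 := CN.succ hX (by omega) hi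
  have hl3 : k ≤ l + 3 := by omega
  -- the conditions
  have a1 := CP.ltC hX (by omega) hi (2 ^ w)
  have a2 := CP.ltN hX (by omega) hj hi
  have a3 := CP.ltC hX (by omega) hi'' (2 ^ w)
  have a4 := hL.finF hX hl hi
  have a5 := hL.lb1 hX (by omega) hl hi
  have a6 := hL.lbn hX (by omega) hl hj
  have a7 := CP.impc (K := l + 25) hX (CP.ltN hX (by omega) he hj)
    (CG.eqAt hX hh hb (by omega) hww hL hR hl he) (by omega) (by omega)
  have a8 := hR.finF hX hl hj
  have a9 := hR.lbn hX (by omega) hl hj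
  have Rtj := hR.tm _ n j hl hj
  have Rsj := hR.st _ n j hl hj
  have a10 := CP.ltN hX hb (hL.pv _ n j hl (by omega) hj) (Rtj.up hX (by omega))
  have a11 := CP.ltN hX hb Rtj (hL.tm _ n j hl hj)
  have a12a := CP.impc (K := l + 22) hX (CP.ltN hX (by omega) he hi)
    (CG.eqSh hX hh hb (by omega) hww (by omega) hL hR hl he) (by omega) (by omega)
  have a12 := CP.impc (K := l + 25) hX (CP.leN hX (by omega) hj he) a12a (by omega) (by omega)
  have a13 := hR.finF hX hl3 hs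
  have a14 := hR.lb1 hX (by omega) hl3 hs
  have Rt1 := hR.tm _ _ _ hl3 hs
  have Rs1 := hR.st _ _ _ hl3 hs
  have a15 := CP.ltN hX hb (hL.pv _ n i hl (by omega) hi) (Rt1.up hX (by omega))
  have a16 := CP.leN hX hb Rt1 ((hL.tm _ n i hl hi).up hX (by omega))
  have a17 := CP.eqN hX hb (CV.rsx (k := l + 7) hX Rs1) (Rtj.up hX (by omega))
  have a18 := hL''.finF hX hl hi''
  have L2t := hL''.tm _ n i'' hl hi''
  have L2s := hL''.st _ n i'' hl hi''
  have b1 := CP.eqN hX hb L2t Rtj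
  have b2 := CP.eqV (k := l + 5) hX hh L2s Rsj
  have b3 := CP.andc (K := l + 25) (j := 0) hX (b1.up hX (by omega)) (b2.up hX (by omega))
  have c1 := hL''.lb1 hX (by omega) hl hi''
  have c2 := CP.impc (K := l + 25) hX (CP.ltN hX (by omega) he hi'')
    (CG.eqAt hX hh hb (by omega) hww hL'' hR' hl he) (by omega) (by omega)
  have c3 := hR'.finF hX hl hi''
  have c4 := hR'.lb1 hX (by omega) hl hi''
  have R2t := hR'.tm _ n i'' hl hi''
  have R2s := hR'.st _ n i'' hl hi''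
  have c5 := CP.ltN hX hb (hL''.pv _ n i'' hl (by omega) hi'') (R2t.up hX (by omega))
  have c6 := CP.leN hX hb R2t L2t
  have c7 := CP.eqN hX hb R2t Rtj
  have c8 := CP.eqV (k := l + 5) hX hh R2s Rsj
  have d1 := CP.andc (K := l + 25) (j := 0) hX (c7.up hX (by omega)) (c8.up hX (by omega))
  have d2 := CP.andc hX (c6.up hX (by omega)) d1
  have d3 := CP.andc hX (c5.up hX (by omega)) d2
  have d4 := CP.andc hX (c4.up hX (by omega)) d3
  have d5 := CP.andc hX (c3.up hX (by omega)) d4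
  have d6 := CP.andc hX c2 d5
  have d7 := CP.andc hX (c1.up hX (by omega)) d6
  have d8 := CP.or hX (b3.up hX (by omega)) d7
  have f1 := CP.andc (K := l + 35) (j := 0) hX (a18.up hX (by omega)) (d8.up hX (by omega))
  have f2 := CP.andc hX (a17.up hX (by omega)) f1
  have f3 := CP.andc hX (a16.up hX (by omega)) f2
  have f4 := CP.andc hX (a15.up hX (by omega)) f3
  have f5 := CP.andc hX (a14.up hX (by omega)) f4
  have f6 := CP.andc hX (a13.up hX (by omega)) f5
  have f7 := CP.andc hX (a12.up hX (by omega)) f6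
  have f8 := CP.andc hX (a11.up hX (by omega)) f7
  have f9 := CP.andc hX (a10.up hX (by omega)) f8
  have f10 := CP.andc hX (a9.up hX (by omega)) f9
  have f11 := CP.andc hX (a8.up hX (by omega)) f10
  have f12 := CP.andc hX (a7.up hX (by omega)) f11
  have f13 := CP.andc hX (a6.up hX (by omega)) f12
  have f14 := CP.andc hX (a5.up hX (by omega)) f13
  have f15 := CP.andc hX (a4.up hX (by omega)) f14
  have f16 := CP.andc hX (a3.up hX (by omega)) f15
  have f17 := CP.andc hX (a2.up hX (by omega)) f16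
  have f18 := CP.andc hX (a1.up hX (by omega)) f17
  exact (f18.congr fun z M => Iff.rfl).up hX (by omega)

/-- the code of the condition at the top -/
theorem CG.topL (hp : p.Ok) (hX : 1000 ≤ X) (hw : w ≤ X) (hL : CG B X k p.h w p.b L)
    (hl : k ≤ l + 1) :
    CP B (X ^ (l + 20)) fun z M => TopL (rfg p) (gacc p) (L z M) := by
  have zero : CN B (X ^ (l + 1)) w fun _ _ => 0 :=
    (CN.const hX (by positivity)).up hX (by omega)
  have a1 := hL.finF hX hl zero
  have a2 := hL.lb1 hX hw hl zero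
  have a3 := CP.ofTrue (CV.rfg hp (hL.st _ _ _ hl zero))
  have a4 := CP.ofTrue (CV.gacc hp (hL.st _ _ _ hl zero))
  have b1 := CP.andc (K := l + 11) (j := 0) hX (a3.up hX (by omega)) (a4.up hX (by omega))
  have b2 := CP.andc hX (a2.up hX (by omega)) b1
  have b3 := CP.andc hX (a1.up hX (by omega)) b2
  exact (b3.congr fun z M => Iff.rfl).up hX (by omega)

end

/-- **The code of the static checks.** -/
theorem rCodeOK : RCodeOK := by
  intro p hp
  have hX := p.X_big
  have hs := p.X_size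
  have hy : CStr 0 (p.X ^ (0 + 1)) 2 (fun x _ => yI x) := CStr.yIn p
  have hv : CStr 0 (p.X ^ (0 + 1)) 1 (fun x _ => vI x) := CStr.vIn p
  have hl : CStr 0 (p.X ^ (0 + 1)) 3 (fun x _ => lI x) := CStr.lIn p
  have h1 := CP.rComV p (by omega) (by omega) hy hv
  have hp0 := hy.pkC hX false
  have hp1 := hy.pkC hX true
  have hR0 : CG 0 p.X (0 + 1) p.h p.w₁ p.b fun x _ => gR p (pk (yI x) false) :=
    CStr.cg hX (by omega) (hp0.gRstr hX)
  have hR1 : CG 0 p.X (0 + 1) p.h p.w₁ p.b fun x _ => gR p (pk (yI x) true) :=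
    CStr.cg hX (by omega) (hp1.gRstr hX)
  obtain ⟨-, -, -, he⟩ := CN.unum p (by omega) hv
  constructor
  · have hL0 : CG 0 p.X (0 + 1) p.h (p.w₁ - 1) p.b fun x _ => rL p (lI x) false :=
      CStr.cg hX (by omega) (hl.pkC hX false)
    have hL1 : CG 0 p.X (0 + 1) p.h (p.w₁ - 1) p.b fun x _ => rL p (lI x) true :=
      CStr.cg hX (by omega) (hl.pkC hX true)
    obtain ⟨hi0, hj0⟩ := CN.ynum p (by omega) hp0
    obtain ⟨hi1, hj1⟩ := CN.ynum p (by omega) hp1
    have c1 := CG.df1At (l := 2) hp hX (by omega) (by omega) (by omega : p.w₁ + 10 ≤ p.X)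
      (Nat.sub_le _ _) (by omega) hL0 hR0 (by omega) hi0 he
    have c2 := CG.df2At (l := 2) hX (by omega) (by omega) (by omega : p.w₁ + 10 ≤ p.X)
      (Nat.sub_le _ _) (by omega) hL0 hL1 hR0 hR1 (by omega) hi0 hj0 hi1 he
    have c0 := CP.eqC (k := 2) hX (by omega) hj1 0
    have c3 : CP 0 (p.X ^ (2 + 60 + 1)) fun x (_ : Mem) => RDf p (lI x) (yI x) (ue p (vI x)) :=
      (CP.ite hX (c0.up hX (by omega)) (c1.up hX (by omega)) c2).congr fun z M => Iff.rfl
    obtain ⟨f, hf, hP⟩ := CP.inpFun (P := fun x => RStepC p (lI x) (yI x) (vI x))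
      ((CP.andc (K := 70) (j := 0) hX (h1.up hX (by omega)) (c3.up hX (by omega))).up hX
        (by omega : 70 + (0 + 1) ≤ 100))
    refine ⟨f, hf, fun z l y v => ?_⟩
    rw [hP]
    exact rstep_trc p l y v
  · have h2 := CG.topL (l := 0) hp hX (by omega) hR0 (by omega)
    obtain ⟨f, hf, hP⟩ := CP.inpFun (P := fun x => RTopC p (yI x) (vI x))
      ((CP.andc (K := 70) (j := 0) hX (h1.up hX (by omega)) (h2.up hX (by omega))).up hX
        (by omega : 70 + (0 + 1) ≤ 100))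
    refine ⟨f, hf, fun z y v => ?_⟩
    rw [hP]
    exact rtop_trc p y v

end Pool.Agent.NUM
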