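import Pool.Agent.NUM.RCore
import Pool.Agent.NUM.HBasic

/-!
# Basic lemmas on random access machines

* the table of records in terms of the states (`ram_snd`), recursion for the states (`rst_zero`,
  `rst_succ`), characterisation of `rsrc`, uniqueness (`rst_unique`), halting is deterministic;
* transfer: programs which agree on the cells below `s`.
-/

set_option autoImplicit false

namespace Pool.Agent.NUM

/-! ### addresses -/

theorem wad_congr {d : ℕ} {V V' : Mem} (h : ∀ r < d, V (4 * r + 6) = V' (4 * r + 6)) :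
    wad d V = wad d V' := by
  unfold wad
  refine Finset.sum_congr rfl fun r hr => ?_
  rw [Finset.mem_range] at hr
  rw [h r hr]

theorem wad_agr {s d : ℕ} (hd : 4 * d + 2 < s) {V V' : Mem} (h : EvAgr s V V') :
    wad d V = wad d V' :=
  wad_congr fun r hr => h _ (by omega) (by omega)

theorem wad_zeroMem (d : ℕ) : wad d zeroMem = 0 := by
  unfold wad
  refine Finset.sum_eq_zero fun r _ => ?_
  rw [if_neg (by simp [zeroMem])]

theorem wad_lt (d : ℕ) (V : Mem) : wad d V < 2 ^ d := by
  unfold wad
  induction d with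
  | zero => simp
  | succ d ih =>
    rw [Finset.sum_range_succ, pow_succ]
    split_ifs <;> omega

theorem wad_update_two (d : ℕ) (V : Mem) (b : Bool) : wad d (Function.update V 2 b) = wad d V := by
  unfold wad
  apply Finset.sum_congr rfl
  intro r _
  rw [Function.update_of_ne (by omega)]

/-! ### the recursion -/

theorem findGreatest_congr {P Q : ℕ → Prop} [DecidablePred P] [DecidablePred Q] :
    ∀ {n : ℕ}, (∀ p ≤ n, (P p ↔ Q p)) → Nat.findGreatest P n = Nat.findGreatest Q n := by
  intro n
  induction n with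
  | zero => intro _; rfl
  | succ n ih =>
    intro h
    rw [Nat.findGreatest_succ, Nat.findGreatest_succ, ih fun p hp => h p (by omega)]
    by_cases h1 : P (n + 1)
    · rw [if_pos h1, if_pos ((h _ le_rfl).1 h1)]
    · rw [if_neg h1, if_neg fun h2 => h1 ((h _ le_rfl).2 h2)]

theorem ram_zero (f : Mem → Mem) (d : ℕ) : ram f d 0 = (zeroMem, fun _ => zeroMem) := rfl

theorem rst_zero (f : Mem → Mem) (d : ℕ) : rst f d 0 = zeroMem := rfl

/-- **the table of records** contains the last state which was stored at the address, state `0` if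
there is none -/
theorem ram_snd (f : Mem → Mem) (d n a : ℕ) : (ram f d n).2 a =
    rst f d (Nat.findGreatest (fun p => 0 < p ∧ wad d (rst f d p) = a) n) := by
  induction n with
  | zero => rfl
  | succ n ih =>
    have h1 : (ram f d (n + 1)).2 =
        Function.update (ram f d n).2 (wad d (rst f d (n + 1))) (rst f d (n + 1)) := rfl
    rw [h1, Nat.findGreatest_succ]
    by_cases h : wad d (rst f d (n + 1)) = a
    · rw [if_pos ⟨Nat.succ_pos n, h⟩, ← h, Function.update_self]
    · rw [if_neg fun h2 => h h2.2, Function.update_of_ne fun h2 => h h2.symm, ih]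

/-- **the recursion for the states** -/
theorem rst_succ (f : Mem → Mem) (d n : ℕ) :
    rst f d (n + 1) = f (mrg (rst f d n) (rst f d (rsrc f d n))) := by
  have h : rst f d (n + 1) = f (mrg (rst f d n) ((ram f d n).2 (ptr d (rst f d n)))) := rfl
  rw [h, ram_snd]
  rfl

theorem rsrc_le (f : Mem → Mem) (d n : ℕ) : rsrc f d n ≤ n := Nat.findGreatest_le n

theorem rsrc_zero (f : Mem → Mem) (d : ℕ) : rsrc f d 0 = 0 := rfl

theorem rsrc_wad {f : Mem → Mem} {d n : ℕ} (h : 0 < rsrc f d n) :
    wad d (rst f d (rsrc f d n)) = ptr d (rst f d n) :=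
  (Nat.findGreatest_of_ne_zero (P := fun p => 0 < p ∧ wad d (rst f d p) = ptr d (rst f d n))
    rfl (ne_of_gt h)).2

theorem rsrc_last {f : Mem → Mem} {d n p : ℕ} (h : rsrc f d n < p) (hp : p ≤ n) :
    wad d (rst f d p) ≠ ptr d (rst f d n) := fun h1 =>
  Nat.findGreatest_is_greatest (P := fun p => 0 < p ∧ wad d (rst f d p) = ptr d (rst f d n)) h hp
    ⟨by omega, h1⟩

/-- characterisation of the source of the record which is read in step `n + 1` -/
theorem rsrc_eq_iff {f : Mem → Mem} {d n p : ℕ} : rsrc f d n = p ↔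
    p ≤ n ∧ (0 < p → wad d (rst f d p) = ptr d (rst f d n)) ∧
      ∀ q, p < q → q ≤ n → wad d (rst f d q) ≠ ptr d (rst f d n) := by
  constructor
  · rintro rfl
    exact ⟨rsrc_le f d n, rsrc_wad, fun q => rsrc_last⟩
  · rintro ⟨h1, h2, h3⟩
    refine Nat.findGreatest_eq_iff.2 ⟨h1, fun h4 => ⟨by omega, h2 (by omega)⟩, ?_⟩
    rintro q hq1 hq2 ⟨-, h5⟩
    exact h3 q hq1 hq2 h5

/-- strong induction along the computation -/
theorem rst_induction (f : Mem → Mem) (d : ℕ) {p : ℕ → Mem → Prop} (h0 : p 0 zeroMem)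
    (hs : ∀ n, p n (rst f d n) → p (rsrc f d n) (rst f d (rsrc f d n)) →
      p (n + 1) (f (mrg (rst f d n) (rst f d (rsrc f d n))))) :
    ∀ n, p n (rst f d n) := by
  intro n
  induction n using Nat.strong_induction_on with
  | _ n ih =>
    cases n with
    | zero => exact h0
    | succ n =>
      rw [rst_succ]
      exact hs n (ih n (by omega)) (ih _ (by have := rsrc_le f d n; omega))

/-- the recursion determines the states and the sources -/
theorem rst_unique {f : Mem → Mem} {d N : ℕ} {U : ℕ → Mem} {sc : ℕ → ℕ} (h0 : U 0 = zeroMem)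
    (hs : ∀ n < N, U (n + 1) = f (mrg (U n) (U (sc n)))) (hle : ∀ n < N, sc n ≤ n)
    (hsrc : ∀ n < N, 0 < sc n → wad d (U (sc n)) = ptr d (U n))
    (hlast : ∀ n < N, ∀ p, sc n < p → p ≤ n → wad d (U p) ≠ ptr d (U n)) :
    ∀ n ≤ N, rst f d n = U n ∧ (n < N → rsrc f d n = sc n) := by
  intro n
  induction n using Nat.strong_induction_on with
  | _ n ih =>
    intro hn
    have h1 : rst f d n = U n := by
      cases n with
      | zero => rw [h0]; rfl
      | succ n =>
        have h2 := ih n (by omega) (by omega)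
        have h3 := h2.2 (by omega)
        have h4 := ih (sc n) (by have := hle n (by omega); omega)
          (by have := hle n (by omega); omega)
        rw [rst_succ, hs n (by omega), h2.1, h3, h4.1]
    refine ⟨h1, fun hlt => rsrc_eq_iff.2 ⟨hle n hlt, fun hp => ?_, fun q hq1 hq2 => ?_⟩⟩
    · have h5 := hle n hlt
      rcases Nat.lt_or_ge (sc n) n with h6 | h6
      · rw [(ih _ h6 (by omega)).1, h1]
        exact hsrc n hlt hp
      · have h7 : sc n = n := by omega
        rw [h7, h1]
        have := hsrc n hlt hp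
        rwa [h7] at this
    · rcases Nat.lt_or_ge q n with h6 | h6
      · rw [(ih _ h6 (by omega)).1, h1]
        exact hlast n hlt q hq1 hq2
      · have h7 : q = n := by omega
        rw [h7, h1]
        have := hlast n hlt q hq1 hq2
        rwa [h7] at this

/-! ### halting -/

theorem rhalts_unique {f : Mem → Mem} {d N N' : ℕ} (h : RHalts f d N) (h' : RHalts f d N') :
    N = N' := by
  rcases Nat.lt_trichotomy N N' with h1 | h1 | h1
  · have := h'.2 N h1
    rw [h.1] at this
    cases this
  · exact h1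
  · have := h.2 N' h1
    rw [h'.1] at this
    cases this

theorem RHalts.pos {f : Mem → Mem} {d N : ℕ} (h : RHalts f d N) : 0 < N := by
  rcases Nat.eq_zero_or_pos N with h0 | h0
  · subst h0
    have := h.1
    simp [rst_zero, zeroMem] at this
  · exact h0

theorem exists_rHalts {f : Mem → Mem} {d n : ℕ} (h : rst f d n 0 = true) :
    ∃ N ≤ n, RHalts f d N := by
  classical
  have hex : ∃ m, rst f d m 0 = true := ⟨n, h⟩
  refine ⟨Nat.find hex, Nat.find_min' hex h, Nat.find_spec hex, fun m hm => ?_⟩
  have := Nat.find_min hex hm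
  simpa using this

theorem RAns.mono {f : Mem → Mem} {d T T' : ℕ} {b : Bool} (h : RAns f d T b) (hT : T ≤ T') :
    RAns f d T' b := by
  obtain ⟨N, h1, h2⟩ := h
  exact ⟨N, h1.trans hT, h2⟩

theorem RAns.det {f : Mem → Mem} {d T T' : ℕ} {b b' : Bool} (h : RAns f d T b)
    (h' : RAns f d T' b') : b = b' := by
  obtain ⟨N, _, h2, h3⟩ := h
  obtain ⟨N', _, h2', h3'⟩ := h'
  obtain rfl := rhalts_unique h2 h2'
  exact h3.symm.trans h3'

theorem RAns.of_rHalts {f : Mem → Mem} {d T N : ℕ} {b : Bool} (h : RAns f d T b)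
    (hN : RHalts f d N) : N ≤ T ∧ rst f d N 2 = b := by
  obtain ⟨N', h1, h2, h3⟩ := h
  obtain rfl := rhalts_unique hN h2
  exact ⟨h1, h3⟩

theorem not_rAns_zero {f : Mem → Mem} {d : ℕ} {b : Bool} : ¬ RAns f d 0 b := by
  rintro ⟨N, h1, h2, _⟩
  have := h2.pos
  omega

/-! ### transfer -/

/-- **Transfer of a computation**, with the sources of the records -/
theorem rst_transfer' {f g : Mem → Mem} {s d : ℕ} (hd : 4 * d + 2 < s)
    (hfg : ∀ M M', Agr s M M' → EvAgr s (f M) (g M')) :
    ∀ n, EvAgr s (rst f d n) (rst g d n) ∧ rsrc f d n = rsrc g d n := by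
  intro n
  induction n using Nat.strong_induction_on with
  | _ n ih =>
    have h1 : EvAgr s (rst f d n) (rst g d n) := by
      cases n with
      | zero => exact EvAgr.refl _ _
      | succ n =>
        have h2 := ih n (by omega)
        rw [rst_succ, rst_succ, ← h2.2]
        exact hfg _ _ (mrg_agr h2.1 (ih _ (by have := rsrc_le f d n; omega)).1)
    refine ⟨h1, ?_⟩
    unfold rsrc
    refine findGreatest_congr fun p hp => ?_
    have h3 : ptr d (rst f d n) = ptr d (rst g d n) := ptr_agr (by omega) h1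
    have h4 : wad d (rst f d p) = wad d (rst g d p) := by
      rcases Nat.lt_or_ge p n with h6 | h6
      · exact wad_agr hd (ih p h6).1
      · obtain rfl : p = n := by omega
        exact wad_agr hd h1
    rw [h3, h4]

theorem rst_transfer {f g : Mem → Mem} {s d : ℕ} (hd : 4 * d + 2 < s)
    (hfg : ∀ M M', Agr s M M' → EvAgr s (f M) (g M')) (n : ℕ) :
    EvAgr s (rst f d n) (rst g d n) := (rst_transfer' hd hfg n).1

theorem rsrc_transfer {f g : Mem → Mem} {s d : ℕ} (hd : 4 * d + 2 < s)
    (hfg : ∀ M M', Agr s M M' → EvAgr s (f M) (g M')) : rsrc f d = rsrc g d :=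
  funext fun n => (rst_transfer' hd hfg n).2

theorem rHalts_transfer {f g : Mem → Mem} {s d : ℕ} (hd : 4 * d + 2 < s)
    (hfg : ∀ M M', Agr s M M' → EvAgr s (f M) (g M')) {N : ℕ} :
    RHalts f d N ↔ RHalts g d N := by
  have h0 : 0 < s := by omega
  unfold RHalts
  rw [rst_transfer hd hfg N 0 h0 rfl]
  refine and_congr_right fun _ => forall₂_congr fun n _ => ?_
  rw [rst_transfer hd hfg n 0 h0 rfl]

theorem rAns_transfer {f g : Mem → Mem} {s d : ℕ} (hd : 4 * d + 2 < s)
    (hfg : ∀ M M', Agr s M M' → EvAgr s (f M) (g M')) {T : ℕ} {b : Bool} :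
    RAns f d T b ↔ RAns g d T b := by
  unfold RAns
  refine exists_congr fun N => and_congr_right fun _ => ?_
  rw [rHalts_transfer hd hfg, rst_transfer hd hfg N 2 (by omega) rfl]

/-- the computation of a program depends only on the input bits with short addresses -/
theorem RAns.congr_inp {s d : ℕ} {G : List Ins} (hG : RSz s d G) {z z' : Inp}
    (hz : ∀ a : List Bool, a.length ≤ s → z a = z' a) {T : ℕ} {b : Bool}
    (h : RAns (eval G z) d T b) : RAns (eval G z') d T b :=
  (rAns_transfer hG.2 fun _ _ hM => (eval_transfer hG.1 hz hM).ev).1 h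

theorem RSz.mono {s t d : ℕ} {G : List Ins} (h : RSz s d G) (hst : s ≤ t) : RSz t d G :=
  ⟨h.1.mono hst, lt_of_lt_of_le h.2 hst⟩

end Pool.Agent.NUM
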