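import Pool.Agent.NUM.RExtDef
import Pool.Agent.NUM.RBasic
import Pool.Agent.NUM.CpList

/-!
# The computation of a random access machine with extended states: the run
-/

set_option autoImplicit false

namespace Pool.Agent.NUM

/-- the even cells of an extended state -/
theorem ramX_evAgr (f : Mem → Mem) (d h₀ b t : ℕ) :
    EvAgr (2 * h₀) (embM (ramX f d h₀ b t)) (rst f d t) := by
  intro q hq hq2
  have h1 : q / 2 < h₀ + b := by omega
  have h3 : embM (ramX f d h₀ b t) (2 * (⟨q / 2, h1⟩ : Fin (h₀ + b))) =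
      ramX f d h₀ b t ⟨q / 2, h1⟩ := embM_even _ _
  have h4 : 2 * ((⟨q / 2, h1⟩ : Fin (h₀ + b)) : ℕ) = q := by
    show 2 * (q / 2) = q
    omega
  rw [h4] at h3
  rw [h3]
  unfold ramX
  by_cases ht : t = 0
  · subst ht
    rw [if_pos rfl]
    rfl
  · rw [if_neg ht, if_pos (show q / 2 < h₀ by omega)]
    show rst f d t (2 * (q / 2)) = rst f d t q
    rw [show 2 * (q / 2) = q by omega]

/-- **the run with extended states** -/
theorem ramX_run {G : List Ins} {z : Inp} {d h₀ b s : ℕ} (hG : Sz s G) (hs : s ≤ 2 * h₀)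
    (hd : 4 * d + 2 < 2 * h₀) :
    XRun (ramXM G z d h₀ b) (ramX (eval G z) d h₀ b) (rsrc (eval G z) d) := by
  have hptr : ∀ t, ptr d (embM (ramX (eval G z) d h₀ b t)) = ptr d (rst (eval G z) d t) :=
    fun t => ptr_agr (by omega) (ramX_evAgr _ _ _ _ _)
  have hwad : ∀ t, wad d (embM (ramX (eval G z) d h₀ b t)) = wad d (rst (eval G z) d t) :=
    fun t => wad_agr hd (ramX_evAgr _ _ _ _ _)
  refine ⟨fun t => ?_, rsrc_le _ _, fun t ht => ?_, fun t p hp hpt => ?_⟩
  · funext i
    show ramX (eval G z) d h₀ b (t + 1) i =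
      if (i : ℕ) < h₀ then eval G z (mrg (embM (ramX (eval G z) d h₀ b t))
        (embM (ramX (eval G z) d h₀ b (rsrc (eval G z) d t)))) (2 * i)
      else (rsrc (eval G z) d t).testBit (i - h₀)
    have e1 : ramX (eval G z) d h₀ b (t + 1) i =
        if (i : ℕ) < h₀ then rst (eval G z) d (t + 1) (2 * i)
        else (rsrc (eval G z) d t).testBit (i - h₀) := by
      unfold ramX
      rw [if_neg (Nat.succ_ne_zero t)]
      rfl
    rw [e1]
    by_cases hi : (i : ℕ) < h₀
    · rw [if_pos hi, if_pos hi, rst_succ]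
      refine (eval_evAgr hG hs z _ _ (mrg_agr ?_ ?_) (2 * i) (by omega) (by omega)).symm
      · exact ramX_evAgr _ _ _ _ _
      · exact ramX_evAgr _ _ _ _ _
    · rw [if_neg hi, if_neg hi]
  · show wad d (embM _) = ptr d (embM _)
    rw [hptr, hwad]
    exact rsrc_wad ht
  · show wad d (embM _) ≠ ptr d (embM _)
    rw [hptr, hwad]
    exact rsrc_last hp hpt

/-- the number of the source in an extended state -/
theorem ramXM_srx {G : List Ins} {z : Inp} {d h₀ b p : ℕ} (hp : p < 2 ^ b)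
    (S R : Fin (h₀ + b) → Bool) :
    (ramXM G z d h₀ b).srx ((ramXM G z d h₀ b).xs S R p) = p := by
  show num b (fun r => embM ((ramXM G z d h₀ b).xs S R p) (2 * (h₀ + r))) = p
  have h2 : num b (fun r => embM ((ramXM G z d h₀ b).xs S R p) (2 * (h₀ + r))) =
      num b (fun r => p.testBit r) := by
    refine num_congr fun r hr => ?_
    have h3 : embM ((ramXM G z d h₀ b).xs S R p) (2 * (⟨h₀ + r, by omega⟩ : Fin (h₀ + b))) =
        (ramXM G z d h₀ b).xs S R p ⟨h₀ + r, by omega⟩ := embM_even _ _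
    show embM ((ramXM G z d h₀ b).xs S R p) (2 * (⟨h₀ + r, by omega⟩ : Fin (h₀ + b))) = _
    rw [h3]
    show (if h₀ + r < h₀ then eval G z (mrg (embM S) (embM R)) (2 * (h₀ + r))
      else p.testBit (h₀ + r - h₀)) = _
    rw [if_neg (show ¬ h₀ + r < h₀ by omega), Nat.add_sub_cancel_left]
  rw [h2, num_testBit, Nat.mod_eq_of_lt hp]

/-- **the data of a run** -/
theorem ramRun {G : List Ins} {z : Inp} {d h₀ b s N : ℕ} (hG : RSz s d G) (hs : s ≤ 2 * h₀)
    (hN : N < 2 ^ b) (h : RHalts (eval G z) d N) : RamRun G z d h₀ b N := by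
  have hd : 4 * d + 2 < 2 * h₀ := lt_of_lt_of_le hG.2 hs
  refine ⟨ramX_run hG.1 hs hd, fun S R p hp => ramXM_srx (hp.trans_lt hN) S R, fun m hm => ?_, ?_, ?_,
    h.pos⟩
  · show embM (ramX (eval G z) d h₀ b m) 0 = true ↔ m = N
    rw [ramX_evAgr _ _ _ _ _ 0 (by omega) rfl]
    constructor
    · intro h1
      by_contra hne
      have := h.2 m (by omega)
      rw [h1] at this
      cases this
    · rintro rfl
      exact h.1
  · show embM (ramX (eval G z) d h₀ b N) 2 = _
    exact ramX_evAgr _ _ _ _ _ 2 (by omega) rfl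
  · funext i
    unfold ramX
    rw [if_pos rfl]

/-- **the data of a run** -/
theorem ramRun_of_halts {G : List Ins} {d s h₀ b N : ℕ} (hG : RSz s d G) (hs : s ≤ 2 * h₀)
    (_ : 2 ≤ h₀) {z : Inp} (hN : RHalts (eval G z) d N) (hb : N < 2 ^ b) :
    RamRun G z d h₀ b N := ramRun hG hs hb hN

end Pool.Agent.NUM
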