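import Pool.Agent.NUM.GView
import Pool.Agent.NUM.RRead

/-!
# Theorem H(γ) for random access machines: the program of the refuter (virtual input and guard)
-/

set_option autoImplicit false

namespace Pool.Agent.NUM

open Filter

/-! ## truncated strings -/

theorem ubit_trc {p : GPar} {m : ℕ} (hm : uLen p ≤ m) (v : Inp) (f r : ℕ) :
    ubit p (trc m v) f r = ubit p v f r := by
  show trc m v _ = _
  rw [trc, if_pos]
  · rfl
  · simp only [List.length_cons, List.length_append, length_bits]
    unfold uLen at hm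
    omega

theorem uj_trc {p : GPar} {m : ℕ} (hm : uLen p ≤ m) (v : Inp) : uj p (trc m v) = uj p v :=
  ubit_trc hm v 0 0

theorem uk_trc {p : GPar} {m : ℕ} (hm : uLen p ≤ m) (v : Inp) : uk p (trc m v) = uk p v :=
  num_congr fun r _ => ubit_trc hm v 1 r

theorem uk'_trc {p : GPar} {m : ℕ} (hm : uLen p ≤ m) (v : Inp) : uk' p (trc m v) = uk' p v :=
  num_congr fun r _ => ubit_trc hm v 2 r

theorem ui_trc {p : GPar} {m : ℕ} (hm : uLen p ≤ m) (v : Inp) : ui p (trc m v) = ui p v :=
  num_congr fun r _ => ubit_trc hm v 3 r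

theorem ue_trc {p : GPar} {m : ℕ} (hm : uLen p ≤ m) (v : Inp) : ue p (trc m v) = ue p v :=
  num_congr fun r _ => ubit_trc hm v 4 r

theorem rStepC_trc {p : GPar} {m : ℕ} (hm : uLen p ≤ m) (l y v : Inp) :
    RStepC p l y (trc m v) ↔ RStepC p l y v := by
  unfold RStepC
  rw [uj_trc hm, uk_trc hm, ui_trc hm, ue_trc hm]

theorem rTopC_trc {p : GPar} {m : ℕ} (hm : uLen p ≤ m) (y v : Inp) :
    RTopC p y (trc m v) ↔ RTopC p y v := by
  unfold RTopC
  rw [uj_trc hm, uk_trc hm, ui_trc hm, ue_trc hm]

theorem trc_pair (n : ℕ) (A B : Inp) : trc (n + 1) (pair A B) = pair (trc n A) (trc n B) := by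
  funext a
  cases a with
  | nil => simp [trc]
  | cons b a =>
    cases b
    · show (if a.length + 1 ≤ n + 1 then A a else false) = if a.length ≤ n then A a else false
      by_cases h : a.length ≤ n
      · rw [if_pos (by omega), if_pos h]
      · rw [if_neg (by omega), if_neg h]
    · show (if a.length + 1 ≤ n + 1 then B a else false) = if a.length ≤ n then B a else false
      by_cases h : a.length ≤ n
      · rw [if_pos (by omega), if_pos h]
      · rw [if_neg (by omega), if_neg h]

/-! ## the virtual input -/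

/-- the record at the index in field `f`: `Y` and `V` are the addresses of `y` and `v` -/
def rcF (p : GPar) (f : ℕ) (Y V : List Bool) (z : Inp) : Inp :=
  trc (hLen p.w p.σ) fun a =>
    z (Y ++ ((List.range 1).map (fun _ => z (V ++ (false :: (bits 3 0 ++ bits p.σ 0)))) ++
      ([true, false] ++ ((List.range p.q).map (fun r =>
        z (V ++ (false :: (bits 3 f ++ bits p.σ r)))) ++ a))))

theorem locF_rcF (p : ℕ → GPar) (hX : SubExp fun L => (p L).X) (f : ℕ) (Y V : List Bool) :
    LocF (fun L z => rcF (p L) f Y V z) := by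
  have hq : SubExp fun L => (p L).q :=
    hX.mono' (Eventually.of_forall fun L => by unfold GPar.X; omega)
  have hσ : SubExp fun L => (p L).σ :=
    hX.mono' (Eventually.of_forall fun L => by unfold GPar.X; omega)
  have hs : SubExp fun L => 12 * (V.length + 4 + (p L).σ) + 1 :=
    ((SubExp.const 12).mul ((SubExp.const (V.length + 4)).add hσ)).add (SubExp.const 1)
  refine LocF.trc (B := fun L => hLen (p L).w (p L).σ) ?_
  have h1 : LocF (fun (_ : ℕ) (z : Inp) (a : List Bool) => z (Y ++ a)) := LocF.shift Y LocF.id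
  have h2 := h1.pref (r := fun _ => 1) (s := fun L => 12 * (V.length + 4 + (p L).σ) + 1)
    (g := fun L _ z => z (V ++ (false :: (bits 3 0 ++ bits (p L).σ 0)))) (SubExp.const 1) hs
    fun L r _ => (Cp.askConst 0 _).mono le_rfl (by
      simp only [List.length_append, List.length_cons, length_bits]
      omega)
  have h3 := LocF.shift [true, false] h2
  exact h3.pref hq (s := fun L => 12 * (V.length + 4 + (p L).σ) + 1)
    (g := fun L r z => z (V ++ (false :: (bits 3 f ++ bits (p L).σ r)))) hs
    fun L r _ => (Cp.askConst 0 _).mono le_rfl (by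
      simp only [List.length_append, List.length_cons, length_bits]
      omega)

/-- the record in the truncated strings -/
theorem rcF_eq {p : GPar} {m : ℕ} (hm : uLen p ≤ m) (f : ℕ) {y v z : Inp} {Y V : List Bool}
    (hy : ∀ a, z (Y ++ a) = trc (rLen p) y a) (hv : ∀ a, z (V ++ a) = trc m v a) :
    rcF p f Y V z =
      trc (hLen p.w p.σ) (gRec p (pk y (uj p v)) (num p.q (ubit p v f))) := by
  have hb : ∀ g r, z (V ++ (false :: (bits 3 g ++ bits p.σ r))) = ubit p v g r := by
    intro g r
    rw [hv]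
    exact ubit_trc hm v g r
  have hk : (List.range p.q).map (fun r => z (V ++ (false :: (bits 3 f ++ bits p.σ r)))) =
      bits p.q (num p.q (ubit p v f)) := by
    rw [bits_num]
    exact List.map_congr_left fun r _ => hb f r
  have hj : (List.range 1).map (fun _ => z (V ++ (false :: (bits 3 0 ++ bits p.σ 0)))) =
      [uj p v] := by
    rw [hb]
    rfl
  unfold rcF
  rw [hk, hj]
  funext a
  unfold trc
  by_cases ha : a.length ≤ hLen p.w p.σ
  · rw [if_pos ha, if_pos ha]
    beta_reduce
    rw [hy, trc, if_pos]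
    · rfl
    · simp only [List.length_cons, List.length_append, length_bits, List.length_nil]
      unfold hLen at ha
      unfold rLen gLen
      have := le_max_left (p.q + p.w) p.w₁
      omega
  · rw [if_neg ha, if_neg ha]

/-- the next instance in the truncated strings -/
theorem rNext_eq {p : GPar} {m : ℕ} (hm : uLen p ≤ m) {y v z : Inp} {Y V : List Bool}
    (hy : ∀ a, z (Y ++ a) = trc (rLen p) y a) (hv : ∀ a, z (V ++ a) = trc m v a) :
    pair (rcF p 1 Y V z) (rcF p 2 Y V z) = trc (lLen p.w p.σ) (rNext p y v) := by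
  rw [rcF_eq hm 1 hy hv, rcF_eq hm 2 hy hv]
  exact (trc_pair (hLen p.w p.σ) _ _).symm

/-- **the refuter in the step** -/
theorem refute_stepR (hcode : RCodeOK) {T : Type} {π : Pres T} (p : ℕ → GPar)
    (hp : ∀ L, (p L).Ok) (hX : SubExp fun L => (p L).X) {β : ℕ → ℕ} {u e : ℝ} (hβ : Lin u β)
    {A : (T × Inp) × Inp → Prop} (he : 0 ≤ e)
    (hA : InH ((π.ext fun L => lLen (p L).w (p L).σ).ext β) A e) :
    InH (((π.ext fun L => lLen ((p L).w₁ - 1) (p L).σ).ext fun L => rLen (p L)).ext
      fun L => max (uLen (p L)) (β L + 1))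
      (fun x => ¬ RStepC (p (π.idx x.1.1.1)) x.1.1.2 x.1.2 x.2 ∨
        A ((x.1.1.1, rNext (p (π.idx x.1.1.1)) x.1.2 x.2), fun a => x.2 (true :: a))) e := by
  have _ := hβ
  choose f hf hfs using fun L => (hcode (p L) (hp L)).1
  have h1 : InH (((π.ext fun L => lLen ((p L).w₁ - 1) (p L).σ).ext fun L => rLen (p L)).ext
      fun L => max (uLen (p L)) (β L + 1))
      (fun x => A ((x.1.1.1, rNext (p (π.idx x.1.1.1)) x.1.2 x.2),
          fun a => x.2 (true :: a))) e := by
    refine InH.virt hA
      (f := fun x : ((T × Inp) × Inp) × Inp =>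
        ((x.1.1.1, rNext (p (π.idx x.1.1.1)) x.1.2 x.2), fun a => x.2 (true :: a)))
      (fun _ => rfl)
      (fun L z => pair (pair (fun a => z ([false, false, false] ++ a))
          (pair (rcF (p L) 1 [false, true] [true] z) (rcF (p L) 2 [false, true] [true] z)))
        (trc (β L) fun a => z (([true] ++ [true]) ++ a)))
      (LocF.pair (LocF.pair (LocF.shift [false, false, false] LocF.id)
        (LocF.pair (locF_rcF p hX 1 [false, true] [true])
          (locF_rcF p hX 2 [false, true] [true])))
        (LocF.trc (LocF.shift ([true] ++ [true]) LocF.id) β)) ⟨0, fun x _ => ?_⟩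
    show pair (pair (π.inp x.1.1.1) (trc _ _)) (trc _ _) = _
    set z : Inp := (((π.ext fun L => lLen ((p L).w₁ - 1) (p L).σ).ext fun L => rLen (p L)).ext
      fun L => max (uLen (p L)) (β L + 1)).inp x with hz
    have hy : ∀ a, z ([false, true] ++ a) = trc (rLen (p (π.idx x.1.1.1))) x.1.2 a := fun a => rfl
    have hv : ∀ a, z ([true] ++ a) =
      trc (max (uLen (p (π.idx x.1.1.1))) (β (π.idx x.1.1.1) + 1)) x.2 a := fun a => rfl
    have e1 := rNext_eq (p := p (π.idx x.1.1.1)) (le_max_left _ _) hy hv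
    have e2 := vRest_eq (β := β (π.idx x.1.1.1)) (le_max_right _ _) hv
    exact (congrArg₂ pair (congrArg₂ pair rfl e1) e2).symm
  refine (InG.congr (h1.guard he (hX.pow _) hf) fun x => ?_)
  refine or_congr ?_ Iff.rfl
  have h2 := hfs (π.idx x.1.1.1) (π.inp x.1.1.1) x.1.1.2 x.1.2
    (trc (max (uLen (p (π.idx x.1.1.1))) (β (π.idx x.1.1.1) + 1)) x.2)
  rw [rStepC_trc (le_max_left _ _)] at h2
  rw [← h2, Bool.not_eq_true]
  rfl

/-- **the refuter at the top** -/
theorem refute_topR (hcode : RCodeOK) {T : Type} {π : Pres T} (p : ℕ → GPar)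
    (hp : ∀ L, (p L).Ok) (hX : SubExp fun L => (p L).X) {β : ℕ → ℕ} {u e : ℝ} (hβ : Lin u β)
    {A : (T × Inp) × Inp → Prop} (he : 0 ≤ e)
    (hA : InH ((π.ext fun L => lLen (p L).w (p L).σ).ext β) A e) :
    InH ((π.ext fun L => rLen (p L)).ext fun L => max (uLen (p L)) (β L + 1))
      (fun x => ¬ RTopC (p (π.idx x.1.1)) x.1.2 x.2 ∨
        A ((x.1.1, rNext (p (π.idx x.1.1)) x.1.2 x.2), fun a => x.2 (true :: a))) e := by
  have _ := hβ
  choose f hf hfs using fun L => (hcode (p L) (hp L)).2
  have h1 : InH ((π.ext fun L => rLen (p L)).ext fun L => max (uLen (p L)) (β L + 1))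
      (fun x => A ((x.1.1, rNext (p (π.idx x.1.1)) x.1.2 x.2),
          fun a => x.2 (true :: a))) e := by
    refine InH.virt hA
      (f := fun x : (T × Inp) × Inp =>
        ((x.1.1, rNext (p (π.idx x.1.1)) x.1.2 x.2), fun a => x.2 (true :: a)))
      (fun _ => rfl)
      (fun L z => pair (pair (fun a => z ([false, false] ++ a))
          (pair (rcF (p L) 1 [false, true] [true] z) (rcF (p L) 2 [false, true] [true] z)))
        (trc (β L) fun a => z (([true] ++ [true]) ++ a)))
      (LocF.pair (LocF.pair (LocF.shift [false, false] LocF.id)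
        (LocF.pair (locF_rcF p hX 1 [false, true] [true])
          (locF_rcF p hX 2 [false, true] [true])))
        (LocF.trc (LocF.shift ([true] ++ [true]) LocF.id) β)) ⟨0, fun x _ => ?_⟩
    show pair (pair (π.inp x.1.1) (trc _ _)) (trc _ _) = _
    set z : Inp := ((π.ext fun L => rLen (p L)).ext
      fun L => max (uLen (p L)) (β L + 1)).inp x with hz
    have hy : ∀ a, z ([false, true] ++ a) = trc (rLen (p (π.idx x.1.1))) x.1.2 a := fun a => rfl
    have hv : ∀ a, z ([true] ++ a) =
      trc (max (uLen (p (π.idx x.1.1))) (β (π.idx x.1.1) + 1)) x.2 a := fun a => rfl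
    have e1 := rNext_eq (p := p (π.idx x.1.1)) (le_max_left _ _) hy hv
    have e2 := vRest_eq (β := β (π.idx x.1.1)) (le_max_right _ _) hv
    exact (congrArg₂ pair (congrArg₂ pair rfl e1) e2).symm
  refine (InG.congr (h1.guard he (hX.pow _) hf) fun x => ?_)
  refine or_congr ?_ Iff.rfl
  have h2 := hfs (π.idx x.1.1) (π.inp x.1.1) x.1.2
    (trc (max (uLen (p (π.idx x.1.1))) (β (π.idx x.1.1) + 1)) x.2)
  rw [rTopC_trc (le_max_left _ _)] at h2
  rw [← h2, Bool.not_eq_true]
  rfl

end Pool.Agent.NUM
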