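import Pool.Agent.NUM.RToC
import Pool.Agent.NUM.BTrade

/-!
# Theorem H(b, γ) for random access machines: the field `toC`
-/

set_option autoImplicit false

namespace Pool.Agent.NUM

open Filter

/-- **The field `toC`.** -/
theorem toCB_of_code (hcode : RTCodeOK) (γ β₀ : ℝ) : ToCB γ β₀ := by
  rintro T π P b e - he ⟨k, -, G, s, t, d, L₀, h1, h2, h3, h4⟩
  have hs : SubExp s := ex_zero_iff.1 h1
  have ht : ExpLe e t := ex_iff.1 h2
  have hK : Lin e (fun L => Nat.size (t L + 4)) :=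
    (ht.add (SubExp.toExp (SubExp.const 4) he)).lin_size he
  have hd : SubExp d := hs.mono' (Eventually.of_forall fun L => by have := (h3 L).2; omega)
  have hb : SubExp (fun L => Nat.size (t L + 4) + d L + 1) :=
    (hK.subExp'.add hd).add (SubExp.const 1)
  have hσ : Lin 0 (fun L => Nat.size (s L + 2 + (Nat.size (t L + 4) + d L + 1))) :=
    (SubExp.toExp ((hs.add (SubExp.const 2)).add hb) le_rfl).lin_size le_rfl
  choose f hf hf' using fun L => (hcode (runPar (s L) (t L) (d L)) (G L) (runPar_ok (h3 L).2)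
    ((h3 L).1.mono (by show s L ≤ 2 * (s L + 2); omega))).2
  have hX : SubExp (fun L => (runPar (s L) (t L) (d L)).X ^ 60) := by
    apply SubExp.pow
    exact (SubExp.const 1000).mul (((((((hs.add (SubExp.const 2)).add hb).add hσ.subExp').add
      hd).add (SubExp.const 1)).add hK.subExp').add (SubExp.const 10))
  refine ⟨fun L => max (hLen 1 (runPar (s L) (t L) (d L)).σ)
      (tLen (runPar (s L) (t L) (d L)).k (runPar (s L) (t L) (d L)).σ) + 1,
    fun q => ∀ x < 2 ^ (runPar (s (π.idx q.1)) (t (π.idx q.1)) (d (π.idx q.1))).k,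
      RunAt (runPar (s (π.idx q.1)) (t (π.idx q.1)) (d (π.idx q.1))) (G (π.idx q.1))
        (π.inp q.1) q.2 x, ?_, ?_, L₀, fun τ hτ => ?_⟩
  · have h5 := (hK.add hσ).add (Lin.const 0 le_rfl 5)
    simp only [add_zero] at h5
    refine h5.mono' fun L => ?_
    show max (1 + (3 + Nat.size (s L + 2 + (Nat.size (t L + 4) + d L + 1))))
      (Nat.size (t L + 4) + Nat.size (s L + 2 + (Nat.size (t L + 4) + d L + 1)) + 4) + 1 ≤ _
    omega
  · refine InG.congr (inH_loop (k := fun L => Nat.size (t L + 4))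
      (σ := fun L => Nat.size (s L + 2 + (Nat.size (t L + 4) + d L + 1))) he hK hσ.subExp' hX f hf)
      fun q => ?_
    refine forall_congr' fun x => forall_congr' fun hx => ?_
    have h6 := hf' (π.idx q.1) (π.inp q.1) q.2
      (trc (runPar (s (π.idx q.1)) (t (π.idx q.1)) (d (π.idx q.1))).σ
        (kstr (runPar (s (π.idx q.1)) (t (π.idx q.1)) (d (π.idx q.1))).k
          (runPar (s (π.idx q.1)) (t (π.idx q.1)) (d (π.idx q.1))).σ x))
    have h7 : rdX (runPar (s (π.idx q.1)) (t (π.idx q.1)) (d (π.idx q.1))).k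
        (runPar (s (π.idx q.1)) (t (π.idx q.1)) (d (π.idx q.1))).σ
        (trc (runPar (s (π.idx q.1)) (t (π.idx q.1)) (d (π.idx q.1))).σ
          (kstr (runPar (s (π.idx q.1)) (t (π.idx q.1)) (d (π.idx q.1))).k
            (runPar (s (π.idx q.1)) (t (π.idx q.1)) (d (π.idx q.1))).σ x)) = x :=
      rdX_kstr (runPar_ok (h3 (π.idx q.1)).2).kσ hx
    rw [trc_trc, h7] at h6
    exact h6
  · obtain ⟨⟨a, ⟨N, hN, hH, hA⟩, haP⟩, -⟩ := h4 τ hτ
    have hlt : t (π.idx τ) + 4 < 2 ^ Nat.size (t (π.idx τ) + 4) := Nat.lt_size_self _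
    have hNb : N + 2 < 2 ^ (Nat.size (t (π.idx τ) + 4) + d (π.idx τ) + 1) :=
      lt_of_lt_of_le (by omega) (Nat.pow_le_pow_right (by norm_num)
        (show Nat.size (t (π.idx τ) + 4) ≤ _ by omega))
    have hR : RamRun (G (π.idx τ)) (π.inp τ)
        (runPar (s (π.idx τ)) (t (π.idx τ)) (d (π.idx τ))).d
        (runPar (s (π.idx τ)) (t (π.idx τ)) (d (π.idx τ))).h₀
        (runPar (s (π.idx τ)) (t (π.idx τ)) (d (π.idx τ))).b N :=
      ramRun_of_halts (h3 (π.idx τ)) (by show s (π.idx τ) ≤ 2 * (s (π.idx τ) + 2); omega)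
        (runPar_ok (h3 _).2).h2 hH (lt_of_le_of_lt (Nat.le_add_right N 2) hNb)
    constructor
    · intro hP
      have ha : a = true := haP.2 hP
      obtain ⟨v, hv⟩ := exists_runAt (runPar_ok (h3 (π.idx τ)).2) hR (hA.trans ha)
        (show N + 2 ≤ 2 ^ Nat.size (t (π.idx τ) + 4) by omega)
        (show N + 2 ^ 1 < 2 ^ (Nat.size (t (π.idx τ) + 4) + d (π.idx τ) + 1) from hNb)
      exact ⟨v, fun x _ => hv x⟩
    · intro hP v hv
      exact hP (haP.1 (hA.symm.trans (runAt_sound hR hv)))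

end Pool.Agent.NUM
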