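import Pool.Agent.NUM.BFam
import Pool.Agent.NUM.BToC
import Pool.Agent.NUM.RTCode
import Pool.Agent.NUM.RCode

/-!
# Theorem H(b, γ) for random access machines: the lower bound for satisfiability, final statement
-/

set_option autoImplicit false

namespace Pool.Agent.NUM

open S3

/-- **The lower bound for the satisfiability of 3-CNF formulas** by random access programs whose
data-flow graphs have hereditary separators of size `2 ^ ((b + o(1)) m) * |W| ^ γ`, in every window of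
lengths. -/
theorem sat_ram_bound₂ {b c γ : ℝ} (hb : 0 ≤ b) (hγ : 0 ≤ γ) (hγ1 : γ < 1) (hc : 1 < c)
    (h : ∃ n : ℕ, c ^ 2 - 1 + b * c * ∑ i ∈ Finset.range (n + 1), (1 - γ) ^ i <
      ∑ i ∈ Finset.range n, ((1 - γ) / (c * (c - 1 + γ + b))) ^ (i + 1) +
        c * ((1 - γ) / (c * (c - 1 + γ + b))) ^ (n + 1)) :
    ∃ (δ : ℝ) (A M₀ : ℕ), 0 < δ ∧ ∀ M : ℕ, M₀ ≤ M → ∃ m : ℕ, M ≤ m ∧ m ≤ A * M ∧
      ∀ (G : List Ins) (d s T K : ℕ), RSz s d G →
      (s : ℝ) ≤ 2 ^ (δ * m) → (T : ℝ) ≤ 2 ^ (c * m) → (K : ℝ) ≤ 2 ^ ((b + δ) * m) →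
        ¬ RamDecides G d (satLen m) T γ K (SAT m) := by
  have hc0 : 0 < c := by linarith
  obtain ⟨r, x, y, h1, -, -, -⟩ := exists_reach_of_cond hc hγ hγ1 h
  obtain ⟨-, -, h2, h3⟩ := h1.pos hc hγ hγ1 hb
  have h4 : b / c ≤ 1 - γ := by
    rw [div_le_iff₀ hc0]
    exact h2.trans (mul_le_mul_of_nonneg_left h3 (by linarith))
  exact sat_ram_windowB hc hγ hγ1 hb h (toCB_of_code rtCodeOK γ (b / c))
    (famB hγ hγ1 (div_nonneg hb hc0.le) h4)

end Pool.Agent.NUM
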