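import Pool.Agent.NUM.BAbs

/-!
# Theorem H(b, γ): from the closed condition to the chain of levels
-/

set_option autoImplicit false

namespace Pool.Agent.NUM

open Finset

/-- the level at position `i` if `k` levels follow -/
def blev (c t b : ℝ) (X : ℕ → ℝ) : ℕ → ℕ → ℝ
  | 0, i => c * X (i + 1)
  | k + 1, i => X (i + 1) - b + t * blev c t b X k (i + 1)

theorem blev_eq (c t b : ℝ) (X : ℕ → ℝ) : ∀ k i : ℕ, blev c t b X k i =
    ∑ j ∈ range k, t ^ j * X (i + j + 1) + t ^ k * (c * X (i + k + 1)) - b * ∑ j ∈ range k, t ^ j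
  | 0, i => by simp [blev]
  | k + 1, i => by
    rw [blev, blev_eq c t b X k (i + 1), sum_range_succ' (fun j => t ^ j * X (i + j + 1)),
      sum_range_succ' (fun j => t ^ j) k]
    have e1 : ∑ j ∈ range k, t ^ (j + 1) * X (i + (j + 1) + 1) =
        t * ∑ j ∈ range k, t ^ j * X (i + 1 + j + 1) := by
      rw [mul_sum]
      refine sum_congr rfl fun j _ => ?_
      rw [show i + (j + 1) = i + 1 + j by ring]
      ring
    have e2 : ∑ j ∈ range k, t ^ (j + 1) = t * ∑ j ∈ range k, t ^ j := by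
      rw [mul_sum]
      refine sum_congr rfl fun j _ => ?_
      ring
    rw [e1, e2, show i + (k + 1) = i + 1 + k by ring]
    simp only [pow_zero, one_mul, add_zero]
    ring

section

variable {c γ b : ℝ}

/-- the chain of levels for a decreasing sequence of sizes -/
theorem reach_lev (hc : 1 < c) (hγ : 0 ≤ γ) (hγ1 : γ < 1) {X : ℕ → ℝ} {n : ℕ} (hX0 : 0 < X (n + 1))
    (hXn : b ≤ (1 - γ) * (c * X (n + 1))) (hXc : c * X (n + 1) ≤ c) (hX : ∀ i, X (i + 1) ≤ X i)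
    (hXn' : b + (c - 1) * X n ≤ (1 - γ) * (c * X (n + 1)))
    (hmX : ∀ i, c * (c - 1 + γ + b) * X (i + 1) < X i) :
    ∀ k i : ℕ, i + k = n → BReach c γ b (min (blev c (1 - γ) b X k i) c) (X (i + 1)) ∧
      b + γ * blev c (1 - γ) b X k i ≤ X i := by
  have h1γ : 0 < 1 - γ := by linarith
  have hc0 : 0 < c := by linarith
  intro k
  induction k with
  | zero =>
    intro i hi
    rw [Nat.add_zero] at hi
    subst hi
    rw [blev, min_eq_left hXc]
    refine ⟨?_, ?_⟩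
    · have h1 := BReach.base (c := c) (γ := γ) (b := b) (mul_pos hc0 hX0) hXn hXc
      rwa [mul_div_cancel_left₀ _ hc0.ne'] at h1
    · have h2 := mul_le_mul_of_nonneg_left (hX i) hc0.le
      linarith
  | succ k ih =>
    intro i hi
    obtain ⟨h1, h4⟩ := ih (i + 1) (by omega)
    have h5 : b + γ * blev c (1 - γ) b X (k + 1) i ≤ X (i + 1) := by
      rw [blev]
      nlinarith
    have h6 : blev c (1 - γ) b X k (i + 1) ≤ blev c (1 - γ) b X (k + 1) i := by
      rw [blev]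
      linarith
    refine ⟨?_, h5.trans (hX i)⟩
    refine BReach.step h1 (min_le_min_right _ h6) (min_le_right _ _) ?_ (hmX _) ?_
    · rcases le_total (blev c (1 - γ) b X k (i + 1)) c with h7 | h7
      · rw [min_eq_left h7]
        have h8 := min_le_left (blev c (1 - γ) b X (k + 1) i) c
        have h9 : blev c (1 - γ) b X (k + 1) i =
          X (i + 1) - b + (1 - γ) * blev c (1 - γ) b X k (i + 1) := by rw [blev]
        linarith
      · rw [min_eq_right h7]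
        have h8 := min_le_right (blev c (1 - γ) b X (k + 1) i) c
        have h9 : γ * c ≤ γ * blev c (1 - γ) b X k (i + 1) := mul_le_mul_of_nonneg_left h7 hγ
        linarith
    · have h8 := min_le_left (blev c (1 - γ) b X (k + 1) i) c
      have h9 := mul_le_mul_of_nonneg_left h8 hγ
      linarith

/-- the condition, with a number `m' ≥ m`, `m' ≥ 1` -/
theorem exists_reach (hc : 1 < c) (hγ : 0 ≤ γ) (hγ1 : γ < 1) {m' : ℝ} (hm1 : 1 ≤ m')
    (hm : c * (c - 1 + γ + b) ≤ m')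
    (h : ∃ n : ℕ, c ^ 2 - 1 + b * c * ∑ i ∈ range (n + 1), (1 - γ) ^ i <
      ∑ i ∈ range n, ((1 - γ) / m') ^ (i + 1) + c * ((1 - γ) / m') ^ (n + 1)) :
    ∃ r x y : ℝ, BReach c γ b r x ∧ c + b - (1 - γ) * r ≤ y ∧
      c * (c - 1 + γ + b) * x < y ∧ c * y < 1 := by
  classical
  have h1γ : 0 < 1 - γ := by linarith
  have hc0 : 0 < c := by linarith
  have hm0 : 0 < m' := by linarith
  obtain ⟨n, hn, hmin⟩ : ∃ n : ℕ, c ^ 2 - 1 + b * c * ∑ i ∈ range (n + 1), (1 - γ) ^ i <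
      ∑ i ∈ range n, ((1 - γ) / m') ^ (i + 1) + c * ((1 - γ) / m') ^ (n + 1) ∧ ∀ k < n,
      ∑ i ∈ range k, ((1 - γ) / m') ^ (i + 1) + c * ((1 - γ) / m') ^ (k + 1) ≤
        c ^ 2 - 1 + b * c * ∑ i ∈ range (k + 1), (1 - γ) ^ i :=
    ⟨Nat.find h, Nat.find_spec h, fun k hk => not_lt.1 (Nat.find_min h hk)⟩
  -- the last term is large
  have hlast : b * c * (1 - γ) ^ n + (c - 1) * ((1 - γ) / m') ^ n < c * ((1 - γ) / m') ^ (n + 1) := by
    rcases n with _ | n
    · simp only [zero_add, range_one, sum_singleton, range_zero, sum_empty, pow_zero, mul_one,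
        pow_one] at hn ⊢
      nlinarith
    · have h1 := hmin n (Nat.lt_succ_self n)
      rw [sum_range_succ _ n, sum_range_succ _ (n + 1)] at hn
      nlinarith
  have hlast' : b + (c - 1) * (1 / (c * m' ^ n)) < (1 - γ) * (c * (1 / (c * m' ^ (n + 1)))) := by
    have h2 : c * ((1 - γ) / m') ^ (n + 1) =
        (1 - γ) ^ n * (c * ((1 - γ) * (c * (1 / (c * m' ^ (n + 1)))))) := by
      rw [div_pow, pow_succ (1 - γ)]
      field_simp
    have h3 : b * c * (1 - γ) ^ n + (c - 1) * ((1 - γ) / m') ^ n =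
        (1 - γ) ^ n * (c * (b + (c - 1) * (1 / (c * m' ^ n)))) := by
      rw [div_pow]
      field_simp
    rw [h2, h3] at hlast
    exact lt_of_mul_lt_mul_left (lt_of_mul_lt_mul_left hlast (by positivity)) hc0.le
  have hsum : c + b * ∑ i ∈ range (n + 1), (1 - γ) ^ i - 1 / c <
      ∑ i ∈ range n, (1 - γ) ^ (i + 1) * (1 / (c * m' ^ (i + 1))) +
        (1 - γ) ^ (n + 1) * (c * (1 / (c * m' ^ (n + 1)))) := by
    have h2 : ∑ i ∈ range n, (1 - γ) ^ (i + 1) * (1 / (c * m' ^ (i + 1))) =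
        1 / c * ∑ i ∈ range n, ((1 - γ) / m') ^ (i + 1) := by
      rw [mul_sum]
      refine sum_congr rfl fun i _ => ?_
      rw [div_pow]
      field_simp
    have h4 : (1 - γ) ^ (n + 1) * (c * (1 / (c * m' ^ (n + 1)))) =
        1 / c * (c * ((1 - γ) / m') ^ (n + 1)) := by
      rw [div_pow]
      field_simp
    have h3 : c + b * ∑ i ∈ range (n + 1), (1 - γ) ^ i - 1 / c =
        1 / c * (c ^ 2 - 1 + b * c * ∑ i ∈ range (n + 1), (1 - γ) ^ i) := by
      field_simp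
      ring
    rw [h2, h3, h4, ← mul_add]
    exact mul_lt_mul_of_pos_left hn (by positivity)
  -- a number `θ < 1`
  have hcont1 : Continuous fun θ : ℝ => (1 - γ) * (c * (θ ^ (n + 2) / (c * m' ^ (n + 1)))) -
      (c - 1) * (θ ^ (n + 1) / (c * m' ^ n)) := by fun_prop
  have hcont2 : Continuous fun θ : ℝ => ∑ i ∈ range n,
      (1 - γ) ^ (i + 1) * (θ ^ (i + 2) / (c * m' ^ (i + 1))) +
      (1 - γ) ^ (n + 1) * (c * (θ ^ (n + 2) / (c * m' ^ (n + 1)))) + θ / c := by fun_prop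
  have hev1 : ∀ᶠ θ : ℝ in nhds 1, b < (1 - γ) * (c * (θ ^ (n + 2) / (c * m' ^ (n + 1)))) -
      (c - 1) * (θ ^ (n + 1) / (c * m' ^ n)) :=
    hcont1.continuousAt.eventually (lt_mem_nhds (by simp only [one_pow]; linarith))
  have hev2 : ∀ᶠ θ : ℝ in nhds 1, c + b * ∑ i ∈ range (n + 1), (1 - γ) ^ i <
      ∑ i ∈ range n, (1 - γ) ^ (i + 1) * (θ ^ (i + 2) / (c * m' ^ (i + 1))) +
      (1 - γ) ^ (n + 1) * (c * (θ ^ (n + 2) / (c * m' ^ (n + 1)))) + θ / c := by
    refine hcont2.continuousAt.eventually (lt_mem_nhds ?_)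
    simp only [one_pow]
    linarith
  have hev3 : ∀ᶠ θ : ℝ in nhdsWithin 1 (Set.Iio 1), θ ∈ Set.Ioo (0 : ℝ) 1 :=
    Ioo_mem_nhdsLT (by norm_num)
  have hev1' : ∀ᶠ θ : ℝ in nhdsWithin 1 (Set.Iio 1),
      b < (1 - γ) * (c * (θ ^ (n + 2) / (c * m' ^ (n + 1)))) -
      (c - 1) * (θ ^ (n + 1) / (c * m' ^ n)) := nhdsWithin_le_nhds hev1
  have hev2' : ∀ᶠ θ : ℝ in nhdsWithin 1 (Set.Iio 1), c + b * ∑ i ∈ range (n + 1), (1 - γ) ^ i <
      ∑ i ∈ range n, (1 - γ) ^ (i + 1) * (θ ^ (i + 2) / (c * m' ^ (i + 1))) +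
      (1 - γ) ^ (n + 1) * (c * (θ ^ (n + 2) / (c * m' ^ (n + 1)))) + θ / c :=
    nhdsWithin_le_nhds hev2
  obtain ⟨θ, h1, h2, hθ0, hθ1⟩ := (hev1'.and (hev2'.and hev3)).exists
  set X : ℕ → ℝ := fun i => θ ^ (i + 1) / (c * m' ^ i) with hX
  have hXpos : ∀ i, 0 < X i := fun i => by rw [hX]; positivity
  have hXs : ∀ i, m' * X (i + 1) = θ * X i := by
    intro i
    have e1 : θ ^ (i + 1 + 1) = θ * θ ^ (i + 1) := by ring
    have e2 : m' ^ (i + 1) = m' * m' ^ i := by ring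
    show m' * (θ ^ (i + 1 + 1) / (c * m' ^ (i + 1))) = θ * (θ ^ (i + 1) / (c * m' ^ i))
    rw [e1, e2]
    field_simp
  have hX1 : ∀ i, X (i + 1) ≤ X i := by
    intro i
    have h3 := hXs i
    have h4 : θ * X i ≤ 1 * X i := mul_le_mul_of_nonneg_right hθ1.le (hXpos i).le
    have h5 : 1 * X (i + 1) ≤ m' * X (i + 1) := mul_le_mul_of_nonneg_right hm1 (hXpos _).le
    linarith
  have hX2 : ∀ i, c * (c - 1 + γ + b) * X (i + 1) < X i := by
    intro i
    have h3 := hXs i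
    have h4 : θ * X i < 1 * X i := mul_lt_mul_of_pos_right hθ1 (hXpos i)
    have h5 : c * (c - 1 + γ + b) * X (i + 1) ≤ m' * X (i + 1) :=
      mul_le_mul_of_nonneg_right hm (hXpos _).le
    linarith
  have hX0 : X 0 = θ / c := by
    show θ ^ (0 + 1) / (c * m' ^ 0) = θ / c
    rw [zero_add, pow_one, pow_zero, mul_one]
  have hXle : ∀ i, X i ≤ X 0 := by
    intro i
    induction i with
    | zero => exact le_rfl
    | succ i ih => exact (hX1 i).trans ih
  have hcX : c * X (n + 1) ≤ c := by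
    have h3 : X (n + 1) ≤ θ / c := (hXle (n + 1)).trans hX0.le
    rw [le_div_iff₀ hc0] at h3
    nlinarith
  have hb1 : b < (1 - γ) * (c * X (n + 1)) - (c - 1) * X n := h1
  have hb0 : b ≤ (1 - γ) * (c * X (n + 1)) := by
    have := mul_pos (show 0 < c - 1 by linarith) (hXpos n)
    linarith
  obtain ⟨h3, h4⟩ := reach_lev hc hγ hγ1 (hXpos (n + 1)) hb0 hcX hX1 (by linarith) hX2 n 0
    (Nat.zero_add n)
  refine ⟨_, _, X 0, h3, ?_, hX2 0, ?_⟩
  · rcases le_total (blev c (1 - γ) b X n 0) c with h7 | h7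
    · rw [min_eq_left h7, blev_eq]
      have e1 : (1 - γ) * (∑ j ∈ range n, (1 - γ) ^ j * X (0 + j + 1) +
          (1 - γ) ^ n * (c * X (0 + n + 1)) - b * ∑ j ∈ range n, (1 - γ) ^ j) =
          ∑ j ∈ range n, (1 - γ) ^ (j + 1) * X (j + 1) + (1 - γ) ^ (n + 1) * (c * X (n + 1)) -
          b * ∑ j ∈ range n, (1 - γ) ^ (j + 1) := by
        rw [mul_sub, mul_add, mul_sum]
        congr 1
        · congr 1
          · refine sum_congr rfl fun j _ => ?_
            rw [Nat.zero_add]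
            ring
          · rw [Nat.zero_add]
            ring
        · rw [← mul_assoc, mul_comm (1 - γ) b, mul_assoc, mul_sum]
          congr 1
          refine sum_congr rfl fun j _ => ?_
          ring
      have e2 : ∑ i ∈ range (n + 1), (1 - γ) ^ i = ∑ j ∈ range n, (1 - γ) ^ (j + 1) + 1 := by
        rw [sum_range_succ']
        simp
      rw [e1]
      rw [e2] at h2
      have e3 : ∑ j ∈ range n, (1 - γ) ^ (j + 1) * X (j + 1) = ∑ i ∈ range n,
          (1 - γ) ^ (i + 1) * (θ ^ (i + 2) / (c * m' ^ (i + 1))) := rfl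
      have e4 : X (n + 1) = θ ^ (n + 2) / (c * m' ^ (n + 1)) := rfl
      rw [e3, e4, hX0]
      linarith
    · rw [min_eq_right h7]
      have h9 : γ * c ≤ γ * blev c (1 - γ) b X n 0 := mul_le_mul_of_nonneg_left h7 hγ
      linarith
  · rw [hX0, mul_div_cancel₀ θ hc0.ne']
    exact hθ1

/-- for `m < 1` the condition holds with `m' = 1` -/
theorem exists_sum_of_lt (hc : 1 < c) (hγ : 0 ≤ γ) (hγ1 : γ < 1)
    (hm : c * (c - 1 + γ + b) < 1) :
    ∃ n : ℕ, c ^ 2 - 1 + b * c * ∑ i ∈ range (n + 1), (1 - γ) ^ i <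
      ∑ i ∈ range (n + 1), ((1 - γ) / 1) ^ (i + 1) := by
  have h1γ : 0 < 1 - γ := by linarith
  have hc0 : 0 < c := by linarith
  have h1 : b * c + γ * c ^ 2 < 1 := by
    have h2 : 0 ≤ (1 - γ) * c * (c - 1) := mul_nonneg (mul_nonneg h1γ.le hc0.le) (by linarith)
    nlinarith
  have e1 : ∀ n : ℕ, ∑ i ∈ range (n + 1), ((1 - γ) / 1) ^ (i + 1) =
      (1 - γ) * ∑ i ∈ range (n + 1), (1 - γ) ^ i := by
    intro n
    rw [mul_sum]
    refine sum_congr rfl fun i _ => ?_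
    rw [div_one]
    ring
  have hbc : b * c < 1 - γ := by nlinarith
  suffices hs : ∃ n : ℕ, c ^ 2 - 1 < (1 - γ - b * c) * ∑ i ∈ range (n + 1), (1 - γ) ^ i by
    obtain ⟨n, hn⟩ := hs
    refine ⟨n, ?_⟩
    rw [e1]
    linarith
  rcases hγ.eq_or_lt with h0 | h0
  · obtain ⟨n, hn⟩ := exists_nat_gt ((c ^ 2 - 1) / (1 - γ - b * c))
    refine ⟨n, ?_⟩
    rw [div_lt_iff₀ (by linarith)] at hn
    have e2 : ∑ i ∈ range (n + 1), (1 - γ) ^ i = n + 1 := by
      rw [← h0]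
      simp
    rw [e2]
    nlinarith
  · have hlim : Filter.Tendsto (fun n : ℕ => (1 - γ) ^ (n + 1)) Filter.atTop (nhds 0) :=
      (tendsto_pow_atTop_nhds_zero_of_lt_one h1γ.le (by linarith)).comp
        (Filter.tendsto_add_atTop_nat 1)
    have h3 : 0 < 1 - b * c - γ * c ^ 2 := by linarith
    have hev := hlim.eventually (gt_mem_nhds (show 0 < (1 - b * c - γ * c ^ 2) / (1 - γ - b * c) by
      exact div_pos h3 (by linarith)))
    obtain ⟨n, hn⟩ := hev.exists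
    refine ⟨n, ?_⟩
    rw [lt_div_iff₀ (by linarith)] at hn
    have e2 : γ * ∑ i ∈ range (n + 1), (1 - γ) ^ i = 1 - (1 - γ) ^ (n + 1) := by
      have := mul_neg_geom_sum (1 - γ) (n + 1)
      rw [show 1 - (1 - γ) = γ by ring] at this
      exact this
    have h4 : γ * (c ^ 2 - 1) < γ * ((1 - γ - b * c) * ∑ i ∈ range (n + 1), (1 - γ) ^ i) := by
      have e3 : γ * ((1 - γ - b * c) * ∑ i ∈ range (n + 1), (1 - γ) ^ i) =
          (1 - γ - b * c) * (γ * ∑ i ∈ range (n + 1), (1 - γ) ^ i) := by ring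
      rw [e3, e2]
      nlinarith
    exact lt_of_mul_lt_mul_left h4 hγ

theorem exists_sum_of_lt' (hc : 1 < c) (hγ : 0 ≤ γ) (hγ1 : γ < 1)
    (hm : c * (c - 1 + γ + b) < 1) :
    ∃ n : ℕ, c ^ 2 - 1 + b * c * ∑ i ∈ range (n + 1), (1 - γ) ^ i <
      ∑ i ∈ range n, ((1 - γ) / 1) ^ (i + 1) + c * ((1 - γ) / 1) ^ (n + 1) := by
  obtain ⟨n, hn⟩ := exists_sum_of_lt hc hγ hγ1 hm
  refine ⟨n, hn.trans_le ?_⟩
  rw [sum_range_succ _ n]
  have h1 : 0 ≤ ((1 - γ) / 1) ^ (n + 1) := pow_nonneg (div_nonneg (by linarith) zero_le_one) _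
  nlinarith

/-- **The closed condition.** -/
theorem exists_reach_of_cond (hc : 1 < c) (hγ : 0 ≤ γ) (hγ1 : γ < 1)
    (h : ∃ n : ℕ, c ^ 2 - 1 + b * c * ∑ i ∈ range (n + 1), (1 - γ) ^ i <
      ∑ i ∈ range n, ((1 - γ) / (c * (c - 1 + γ + b))) ^ (i + 1) +
        c * ((1 - γ) / (c * (c - 1 + γ + b))) ^ (n + 1)) :
    ∃ r x y : ℝ, BReach c γ b r x ∧ c + b - (1 - γ) * r ≤ y ∧
      c * (c - 1 + γ + b) * x < y ∧ c * y < 1 := by
  rcases lt_or_ge (c * (c - 1 + γ + b)) 1 with hm | hm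
  · exact exists_reach hc hγ hγ1 le_rfl hm.le (exists_sum_of_lt' hc hγ hγ1 hm)
  · exact exists_reach hc hγ hγ1 hm le_rfl h

end

end Pool.Agent.NUM
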