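import Pool.Agent.NUM.HSep

/-!
# Hereditary separators of the computation graphs of one-tape machines

In step `t + 1` the machine uses the state `t` and the last earlier state `rc t` in which the head was
at the present position.
-/

set_option autoImplicit false

namespace Pool.Agent.NUM

open Finset

/-- a median -/
theorem exists_median {α β : Type} [LinearOrder β] (W : Finset α) (f : α → β) (hW : W.Nonempty) :
    ∃ t ∈ W, 2 * (W.filter fun u => f u < f t).card ≤ W.card ∧
      2 * (W.filter fun u => f t < f u).card ≤ W.card := by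
  classical
  obtain ⟨S, hS⟩ : ∃ S : Finset α,
      S = W.filter fun t => W.card ≤ 2 * (W.filter fun u => f u ≤ f t).card := ⟨_, rfl⟩
  have hSne : S.Nonempty := by
    obtain ⟨t, ht, hmax⟩ := W.exists_max_image f hW
    refine ⟨t, ?_⟩
    rw [hS, mem_filter]
    refine ⟨ht, ?_⟩
    have : (W.filter fun u => f u ≤ f t) = W := by
      rw [filter_eq_self]
      exact fun u hu => hmax u hu
    rw [this]
    omega
  obtain ⟨t, ht, hmin⟩ := S.exists_min_image f hSne
  rw [hS, mem_filter] at ht
  refine ⟨t, ht.1, ?_, ?_⟩
  · by_contra hcon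
    push Not at hcon
    have hne : (W.filter fun u => f u < f t).Nonempty := by
      rw [← card_pos]
      omega
    obtain ⟨v, hv, hmax⟩ := (W.filter fun u => f u < f t).exists_max_image f hne
    rw [mem_filter] at hv
    have he : (W.filter fun u => f u < f t) = W.filter fun u => f u ≤ f v := by
      ext u
      rw [mem_filter, mem_filter]
      constructor
      · rintro ⟨h1, h2⟩
        exact ⟨h1, hmax u (mem_filter.2 ⟨h1, h2⟩)⟩
      · rintro ⟨h1, h2⟩
        exact ⟨h1, lt_of_le_of_lt h2 hv.2⟩
    have hvS : v ∈ S := by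
      rw [hS, mem_filter]
      refine ⟨hv.1, ?_⟩
      rw [← he]
      omega
    exact absurd (hmin v hvS) (not_le.2 hv.2)
  · have h1 : (W.filter fun u => f u ≤ f t).card + (W.filter fun u => f t < f u).card = W.card := by
      rw [← card_union_of_disjoint]
      · congr 1
        ext u
        rw [mem_union, mem_filter, mem_filter]
        constructor
        · rintro (h | h)
          · exact h.1
          · exact h.1
        · intro h
          rcases le_or_gt (f u) (f t) with h2 | h2
          · exact Or.inl ⟨h, h2⟩
          · exact Or.inr ⟨h, h2⟩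
      · rw [disjoint_filter]
        intro u _ h2
        exact not_lt.2 h2
    omega

/-- Classes which are not joined, each with at most two thirds of the states, can be put into two
groups. Class `0` is deleted. -/
theorem exists_group (W : Finset ℕ) (rc cl : ℕ → ℕ)
    (h1 : ∀ i, 1 ≤ i → 3 * (W.filter fun t => cl t = i).card ≤ 2 * W.card)
    (h2 : ∀ t, t + 1 ∈ W → cl (t + 1) ≠ 0 → (t ∈ W → cl t ≠ 0 → cl t = cl (t + 1)) ∧
      (rc t ≤ t → rc t ∈ W → cl (rc t) ≠ 0 → cl (rc t) = cl (t + 1))) :
    ∃ A ⊆ W, ∃ B ⊆ W, Disjoint A B ∧ NoEdge rc A B ∧ 3 * A.card ≤ 2 * W.card ∧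
      3 * B.card ≤ 2 * W.card ∧ W \ (A ∪ B) = W.filter fun t => cl t = 0 := by
  -- the two groups for a predicate `p`
  obtain ⟨g, hg⟩ : ∃ g : (ℕ → Bool) → Bool → Finset ℕ,
      g = fun p b => W.filter fun t => cl t ≠ 0 ∧ p (cl t) = b := ⟨_, rfl⟩
  have hgm : ∀ p b t, t ∈ g p b ↔ t ∈ W ∧ cl t ≠ 0 ∧ p (cl t) = b := by
    intro p b t
    rw [hg]
    simp only [mem_filter]
  have hsplit : ∀ p, (g p true).card + (g p false).card ≤ W.card := by
    intro p
    rw [← card_union_of_disjoint]
    · apply card_le_card
      intro t ht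
      rw [mem_union, hgm, hgm] at ht
      rcases ht with h | h
      · exact h.1
      · exact h.1
    · rw [disjoint_left]
      intro t h3 h4
      rw [hgm] at h3 h4
      rw [h3.2.2] at h4
      exact absurd h4.2.2 (by simp)
  -- the choice of the groups
  obtain ⟨p, hp1, hp2⟩ : ∃ p : ℕ → Bool, 3 * (g p true).card ≤ 2 * W.card ∧
      3 * (g p false).card ≤ 2 * W.card := by
    obtain ⟨P, hP⟩ : ∃ P : ℕ → ℕ → Bool, P = fun j i => decide (i ≤ j) := ⟨_, rfl⟩
    obtain ⟨Q, hQ⟩ : ∃ Q : ℕ → ℕ → Bool, Q = fun j i => decide (i = j) := ⟨_, rfl⟩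
    have hPm : ∀ j t, t ∈ g (P j) true ↔ t ∈ W ∧ cl t ≠ 0 ∧ cl t ≤ j := by
      intro j t
      rw [hgm, hP, decide_eq_true_iff]
    have hQm : ∀ j t, t ∈ g (Q j) true ↔ t ∈ W ∧ cl t ≠ 0 ∧ cl t = j := by
      intro j t
      rw [hgm, hQ, decide_eq_true_iff]
    by_cases hex : ∃ j, W.card ≤ 3 * (g (P j) true).card
    · obtain ⟨j, hj, hmin⟩ : ∃ j, W.card ≤ 3 * (g (P j) true).card ∧
          ∀ i < j, 3 * (g (P i) true).card < W.card := by
        refine ⟨Nat.find hex, Nat.find_spec hex, fun i hi => ?_⟩
        have := Nat.find_min hex hi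
        omega
      by_cases hle : 3 * (g (P j) true).card ≤ 2 * W.card
      · refine ⟨P j, hle, ?_⟩
        have h3 := hsplit (P j)
        omega
      · have hj0 : j ≠ 0 := by
          rintro rfl
          apply hle
          have : g (P 0) true = ∅ := by
            ext t
            rw [hPm]
            constructor
            · rintro ⟨_, h, h'⟩
              omega
            · intro h
              exact absurd h (notMem_empty t)
          rw [this]
          simp
        have h3 := hmin (j - 1) (by omega)
        have h4 : (g (P j) true).card ≤ (g (P (j - 1)) true).card + (g (Q j) true).card := by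
          refine le_trans (card_le_card ?_) (card_union_le _ _)
          intro t ht
          rw [hPm] at ht
          rw [mem_union, hPm, hQm]
          rcases Nat.lt_or_ge (cl t) j with h | h
          · exact Or.inl ⟨ht.1, ht.2.1, by omega⟩
          · exact Or.inr ⟨ht.1, ht.2.1, by omega⟩
        have h5 : (g (Q j) true).card ≤ (W.filter fun t => cl t = j).card := by
          apply card_le_card
          intro t ht
          rw [hQm] at ht
          rw [mem_filter]
          exact ⟨ht.1, ht.2.2⟩
        have h6 := hsplit (Q j)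
        have h7 := h1 j (by omega)
        exact ⟨Q j, by omega, by omega⟩
    · push Not at hex
      obtain ⟨j, hj⟩ : ∃ j, ∀ t ∈ W, cl t ≤ j := by
        obtain ⟨j, hj⟩ := (W.image cl).bddAbove
        exact ⟨j, fun t ht => hj (by
          rw [mem_coe, mem_image]
          exact ⟨t, ht, rfl⟩)⟩
      refine ⟨P j, ?_, ?_⟩
      · have := hex j
        omega
      · have h4 : g (P j) false = ∅ := by
          ext t
          rw [hgm, hP]
          constructor
          · rintro ⟨h5, _, h7⟩
            rw [decide_eq_false_iff_not] at h7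
            exact absurd (hj t h5) h7
          · intro h
            exact absurd h (notMem_empty t)
        rw [h4]
        simp
  have hne : ∀ b b', b ≠ b' → ∀ t, (t + 1 ∈ g p b → t ∉ g p b' ∧ (rc t ≤ t → rc t ∉ g p b')) := by
    intro b b' hb t ht
    rw [hgm] at ht
    obtain ⟨h3, h4, h5⟩ := ht
    obtain ⟨h6, h7⟩ := h2 t h3 h4
    refine ⟨?_, ?_⟩
    · intro h8
      rw [hgm] at h8
      rw [h6 h8.1 h8.2.1] at h8
      exact hb (h5.symm.trans h8.2.2)
    · intro hle h8
      rw [hgm] at h8
      rw [h7 hle h8.1 h8.2.1] at h8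
      exact hb (h5.symm.trans h8.2.2)
  refine ⟨g p true, ?_, g p false, ?_, ?_, ?_, hp1, hp2, ?_⟩
  · intro t ht
    exact ((hgm _ _ _).1 ht).1
  · intro t ht
    exact ((hgm _ _ _).1 ht).1
  · rw [disjoint_left]
    intro t h3 h4
    rw [hgm] at h3 h4
    rw [h3.2.2] at h4
    exact absurd h4.2.2 (by simp)
  · intro t
    exact ⟨hne true false (by simp) t, hne false true (by simp) t⟩
  · ext t
    rw [mem_sdiff, mem_union, hgm, hgm, mem_filter]
    constructor
    · rintro ⟨h3, h4⟩
      refine ⟨h3, ?_⟩
      by_contra h6
      cases h7 : p (cl t) with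
      | true => exact h4 (Or.inl ⟨h3, h6, h7⟩)
      | false => exact h4 (Or.inr ⟨h3, h6, h7⟩)
    · rintro ⟨h3, h4⟩
      refine ⟨h3, ?_⟩
      rintro (h | h)
      · exact h.2.1 h4
      · exact h.2.1 h4

/-- **Hereditary separators of one-tape machines.** `pos t` is the position of the head in the state
`t`; the state `rc t` is the last earlier state at the position of the state `t + 1`, or the state
`0`. -/
theorem hsep_oneTape {N : ℕ} {rc : ℕ → ℕ} (pos : ℕ → ℤ)
    (hpos : ∀ t < N, |pos (t + 1) - pos t| ≤ 1)
    (hrc : ∀ t < N, rc t ≤ t → rc t = 0 ∨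
      (pos (rc t) = pos (t + 1) ∧ ∀ u, rc t < u → u ≤ t → pos u ≠ pos (t + 1))) :
    HSep N rc (1 / 2) 4 := by
  classical
  intro W hW
  rcases W.eq_empty_or_nonempty with hW0 | hWne
  · subst hW0
    refine ⟨∅, by simp, ∅, by simp, by simp, NoEdge.empty, by simp, by simp, ?_⟩
    simp
  obtain ⟨n, hn⟩ : ∃ n, n = W.card := ⟨_, rfl⟩
  have hn1 : 1 ≤ n := by rw [hn]; exact card_pos.2 hWne
  obtain ⟨q, hq⟩ : ∃ q, q = Nat.sqrt n := ⟨_, rfl⟩
  have hq1 : q * q ≤ n := by rw [hq]; exact Nat.sqrt_le n
  have hq2 : n < (q + 1) * (q + 1) := by rw [hq]; exact Nat.lt_succ_sqrt n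
  have hq0 : 1 ≤ q := by
    by_contra h
    have : q = 0 := by omega
    subst this
    omega
  obtain ⟨cnt, hcnt⟩ : ∃ cnt : ℤ → ℕ, cnt = fun x => (W.filter fun t => pos t = x).card :=
    ⟨_, rfl⟩
  -- the median column
  obtain ⟨t₀, -, hm1, hm2⟩ := exists_median W pos hWne
  obtain ⟨m, hm⟩ : ∃ m, m = pos t₀ := ⟨_, rfl⟩
  rw [← hm] at hm1 hm2
  -- far away columns are empty
  obtain ⟨K, hK⟩ : ∃ K : ℕ, ∀ t ∈ W, |pos t - m| < K := by
    obtain ⟨K, hK⟩ := (W.image fun t => |pos t - m|).bddAbove
    refine ⟨K.toNat + 1, fun t ht => ?_⟩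
    have h1 : |pos t - m| ≤ K := hK (by
      rw [mem_coe, mem_image]
      exact ⟨t, ht, rfl⟩)
    push_cast
    have := Int.self_le_toNat K
    omega
  have hempty : ∀ x : ℤ, (K : ℤ) ≤ |x - m| → cnt x = 0 := by
    intro x hx
    rw [hcnt]
    show (W.filter fun t => pos t = x).card = 0
    rw [card_eq_zero, filter_eq_empty_iff]
    intro t ht h
    have := hK t ht
    rw [h] at this
    omega
  -- the light columns next to the median
  obtain ⟨a, ha1, ha2, ha3⟩ : ∃ a ≤ m, cnt a ≤ q ∧ ∀ x, a < x → x ≤ m → q < cnt x := by
    have hex : ∃ k : ℕ, cnt (m - k) ≤ q := by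
      refine ⟨K, ?_⟩
      rw [hempty _ (by
        have : m - (K : ℤ) - m = -(K : ℤ) := by ring
        rw [this, abs_neg, abs_of_nonneg (Int.natCast_nonneg K)])]
      exact Nat.zero_le _
    refine ⟨m - (Nat.find hex : ℕ), by omega, Nat.find_spec hex, fun x hx hxm => ?_⟩
    have h1 : (m - x).toNat < Nat.find hex := by omega
    have h2 := Nat.find_min hex h1
    rw [show m - ((m - x).toNat : ℤ) = x by omega] at h2
    omega
  obtain ⟨b, hb1, hb2, hb3⟩ : ∃ b, m ≤ b ∧ cnt b ≤ q ∧ ∀ x, m ≤ x → x < b → q < cnt x := by
    have hex : ∃ k : ℕ, cnt (m + k) ≤ q := by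
      refine ⟨K, ?_⟩
      rw [hempty _ (by
        have : m + (K : ℤ) - m = (K : ℤ) := by ring
        rw [this, abs_of_nonneg (Int.natCast_nonneg K)])]
      exact Nat.zero_le _
    refine ⟨m + (Nat.find hex : ℕ), by omega, Nat.find_spec hex, fun x hx hxm => ?_⟩
    have h1 : (x - m).toNat < Nat.find hex := by omega
    have h2 := Nat.find_min hex h1
    rw [show m + ((x - m).toNat : ℤ) = x by omega] at h2
    omega
  -- the number of columns in the band
  have hband : (Ioo a b).card ≤ q := by
    have h1 : ∀ x ∈ Ioo a b, q + 1 ≤ cnt x := by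
      intro x hx
      rw [mem_Ioo] at hx
      rcases le_or_gt x m with h | h
      · exact ha3 x hx.1 h
      · exact hb3 x h.le hx.2
    have h2 : (Ioo a b).card * (q + 1) ≤ n := by
      calc (Ioo a b).card * (q + 1) = ∑ _x ∈ Ioo a b, (q + 1) := by simp
        _ ≤ ∑ x ∈ Ioo a b, cnt x := sum_le_sum h1
        _ = ∑ x ∈ Ioo a b, (W.filter fun t => pos t = x).card := by rw [hcnt]
        _ = ((Ioo a b).biUnion fun x => W.filter fun t => pos t = x).card := by
            rw [card_biUnion]
            intro x _ y _ hxy
            show Disjoint (W.filter fun t => pos t = x) (W.filter fun t => pos t = y)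
            rw [disjoint_filter]
            intro t _ h3 h4
            exact hxy (h3.symm.trans h4)
        _ ≤ W.card := by
            apply card_le_card
            intro t ht
            rw [mem_biUnion] at ht
            obtain ⟨x, _, hx⟩ := ht
            exact (mem_filter.1 hx).1
        _ = n := hn.symm
    by_contra h3
    push Not at h3
    have h4 : (q + 1) * (q + 1) ≤ (Ioo a b).card * (q + 1) := Nat.mul_le_mul_right _ h3
    omega
  -- the median time of the band
  obtain ⟨M, hM⟩ : ∃ M, M = W.filter fun t => a < pos t ∧ pos t < b := ⟨_, rfl⟩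
  have hMn : M.card ≤ n := by rw [hM, hn]; exact card_filter_le _ _
  obtain ⟨τ, hτ1, hτ2⟩ : ∃ τ, 2 * (M.filter fun u => u < τ).card ≤ n ∧
      2 * (M.filter fun u => τ < u).card ≤ n := by
    rcases M.eq_empty_or_nonempty with h | h
    · exact ⟨0, by rw [h]; simp, by rw [h]; simp⟩
    · obtain ⟨τ, -, h1, h2⟩ := exists_median M (fun u => u) h
      exact ⟨τ, h1.trans hMn, h2.trans hMn⟩
  -- the classes
  obtain ⟨lastv, hlast⟩ : ∃ lastv : ℕ → Prop,
      lastv = fun u => ∀ v, u < v → v ≤ τ → pos v ≠ pos u := ⟨_, rfl⟩
  have hlastd : ∀ u, lastv u ↔ ∀ v, u < v → v ≤ τ → pos v ≠ pos u := by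
    intro u
    rw [hlast]
  obtain ⟨cl, hcl⟩ : ∃ cl : ℕ → ℕ, cl = fun t => if t = 0 then 0 else if pos t < a then 1 else
      if b < pos t then 2 else if pos t = a ∨ pos t = b then 0 else if τ < t then 4 else
      if lastv t then 0 else 3 := ⟨_, rfl⟩
  have key : ∀ t, (cl t = 0 ∧ t = 0) ∨ (cl t = 1 ∧ pos t < a) ∨ (cl t = 2 ∧ b < pos t) ∨
      (cl t = 0 ∧ (pos t = a ∨ pos t = b)) ∨ (cl t = 4 ∧ a < pos t ∧ pos t < b ∧ τ < t) ∨
      (cl t = 0 ∧ a < pos t ∧ pos t < b ∧ t ≤ τ ∧ lastv t) ∨
      (cl t = 3 ∧ a < pos t ∧ pos t < b ∧ t < τ ∧ ¬ lastv t) := by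
    intro t
    have h : cl t = if t = 0 then 0 else if pos t < a then 1 else
      if b < pos t then 2 else if pos t = a ∨ pos t = b then 0 else if τ < t then 4 else
      if lastv t then 0 else 3 := by rw [hcl]
    by_cases g1 : t = 0
    · rw [if_pos g1] at h
      exact Or.inl ⟨h, g1⟩
    rw [if_neg g1] at h
    by_cases g2 : pos t < a
    · rw [if_pos g2] at h
      exact Or.inr (Or.inl ⟨h, g2⟩)
    rw [if_neg g2] at h
    by_cases g3 : b < pos t
    · rw [if_pos g3] at h
      exact Or.inr (Or.inr (Or.inl ⟨h, g3⟩))
    rw [if_neg g3] at h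
    by_cases g4 : pos t = a ∨ pos t = b
    · rw [if_pos g4] at h
      exact Or.inr (Or.inr (Or.inr (Or.inl ⟨h, g4⟩)))
    rw [if_neg g4] at h
    have g5 : a < pos t ∧ pos t < b := by omega
    by_cases g6 : τ < t
    · rw [if_pos g6] at h
      exact Or.inr (Or.inr (Or.inr (Or.inr (Or.inl ⟨h, g5.1, g5.2, g6⟩))))
    rw [if_neg g6] at h
    by_cases g7 : lastv t
    · rw [if_pos g7] at h
      exact Or.inr (Or.inr (Or.inr (Or.inr (Or.inr (Or.inl ⟨h, g5.1, g5.2, by omega, g7⟩)))))
    rw [if_neg g7] at h
    refine Or.inr (Or.inr (Or.inr (Or.inr (Or.inr (Or.inr ⟨h, g5.1, g5.2, ?_, g7⟩)))))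
    rcases Nat.lt_or_ge t τ with h1 | h1
    · exact h1
    · exfalso
      apply g7
      rw [hlastd]
      intro v hv hv'
      omega
  have c1 : ∀ t, cl t = 1 → pos t < a := by
    intro t h
    rcases key t with k | k | k | k | k | k | k
    · omega
    · exact k.2
    · omega
    · omega
    · omega
    · omega
    · omega
  have c2 : ∀ t, cl t = 2 → b < pos t := by
    intro t h
    rcases key t with k | k | k | k | k | k | k
    · omega
    · omega
    · exact k.2
    · omega
    · omega
    · omega
    · omega
  have c3 : ∀ t, cl t = 3 → a < pos t ∧ pos t < b ∧ t < τ ∧ ¬ lastv t := by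
    intro t h
    rcases key t with k | k | k | k | k | k | k
    · omega
    · omega
    · omega
    · omega
    · omega
    · omega
    · exact k.2
  have c4 : ∀ t, cl t = 4 → a < pos t ∧ pos t < b ∧ τ < t := by
    intro t h
    rcases key t with k | k | k | k | k | k | k
    · omega
    · omega
    · omega
    · omega
    · exact k.2
    · omega
    · omega
  have c5 : ∀ t, cl t = 0 ∨ cl t = 1 ∨ cl t = 2 ∨ cl t = 3 ∨ cl t = 4 := by
    intro t
    rcases key t with k | k | k | k | k | k | k <;> omega
  have c0 : ∀ t, cl t = 0 → t = 0 ∨ pos t = a ∨ pos t = b ∨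
      (a < pos t ∧ pos t < b ∧ t ≤ τ ∧ lastv t) := by
    intro t h
    rcases key t with k | k | k | k | k | k | k
    · exact Or.inl k.2
    · omega
    · omega
    · rcases k.2 with k | k
      · exact Or.inr (Or.inl k)
      · exact Or.inr (Or.inr (Or.inl k))
    · omega
    · exact Or.inr (Or.inr (Or.inr k.2))
    · omega
  have hz : cl 0 = 0 := by
    rw [hcl]
    simp
  obtain ⟨A, hA, B, hB, hAB, hNE, hAc, hBc, hX⟩ := exists_group W rc cl
    (by
      intro i hi
      by_cases h1 : i = 1
      · subst h1
        have h2 : (W.filter fun t => cl t = 1).card ≤ (W.filter fun t => pos t < m).card := by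
          apply card_le_card
          intro t ht
          rw [mem_filter] at ht ⊢
          exact ⟨ht.1, lt_of_lt_of_le (c1 t ht.2) ha1⟩
        omega
      · by_cases h2 : i = 2
        · subst h2
          have h3 : (W.filter fun t => cl t = 2).card ≤ (W.filter fun t => m < pos t).card := by
            apply card_le_card
            intro t ht
            rw [mem_filter] at ht ⊢
            exact ⟨ht.1, lt_of_le_of_lt hb1 (c2 t ht.2)⟩
          omega
        · by_cases h3 : i = 3
          · subst h3
            have h4 : (W.filter fun t => cl t = 3).card ≤ (M.filter fun u => u < τ).card := by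
              apply card_le_card
              intro t ht
              rw [mem_filter] at ht
              obtain ⟨g1, g2, g3, -⟩ := c3 t ht.2
              rw [mem_filter, hM, mem_filter]
              exact ⟨⟨ht.1, g1, g2⟩, g3⟩
            omega
          · by_cases h4 : i = 4
            · subst h4
              have h5 : (W.filter fun t => cl t = 4).card ≤ (M.filter fun u => τ < u).card := by
                apply card_le_card
                intro t ht
                rw [mem_filter] at ht
                obtain ⟨g1, g2, g3⟩ := c4 t ht.2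
                rw [mem_filter, hM, mem_filter]
                exact ⟨⟨ht.1, g1, g2⟩, g3⟩
              omega
            · have h5 : (W.filter fun t => cl t = i) = ∅ := by
                rw [filter_eq_empty_iff]
                intro t _ h
                have := c5 t
                omega
              rw [h5]
              simp)
    (by
      intro t ht hc
      have htN : t < N := by
        have := mem_range.1 (hW ht)
        omega
      constructor
      · intro _ hct
        have h1 := hpos t htN
        rw [abs_le] at h1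
        have d1 := c5 t
        have d2 := c5 (t + 1)
        have e1 := c1 t
        have e2 := c2 t
        have e3 := c3 t
        have e4 := c4 t
        have f1 := c1 (t + 1)
        have f2 := c2 (t + 1)
        have f3 := c3 (t + 1)
        have f4 := c4 (t + 1)
        have hab : a ≤ b := ha1.trans hb1
        rcases d1 with d1 | d1 | d1 | d1 | d1
        · exact absurd d1 hct
        · have := e1 d1
          rcases d2 with d2 | d2 | d2 | d2 | d2
          · exact absurd d2 hc
          · omega
          · have := f2 d2; omega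
          · have := (f3 d2).1; omega
          · have := (f4 d2).1; omega
        · have := e2 d1
          rcases d2 with d2 | d2 | d2 | d2 | d2
          · exact absurd d2 hc
          · have := f1 d2; omega
          · omega
          · have := (f3 d2).2.1; omega
          · have := (f4 d2).2.1; omega
        · have g1 := (e3 d1).1
          have g2 := (e3 d1).2.1
          have g3 := (e3 d1).2.2.1
          rcases d2 with d2 | d2 | d2 | d2 | d2
          · exact absurd d2 hc
          · have := f1 d2; omega
          · have := f2 d2; omega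
          · omega
          · have := (f4 d2).2.2; omega
        · have g1 := (e4 d1).1
          have g2 := (e4 d1).2.1
          have g3 := (e4 d1).2.2
          rcases d2 with d2 | d2 | d2 | d2 | d2
          · exact absurd d2 hc
          · have := f1 d2; omega
          · have := f2 d2; omega
          · have := (f3 d2).2.2.1; omega
          · omega
      · intro hle _ hct
        rcases hrc t htN hle with h0 | ⟨hp, hl⟩
        · rw [h0] at hct
          exact absurd hz hct
        · have d1 := c5 (rc t)
          have d2 := c5 (t + 1)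
          have hab : a ≤ b := ha1.trans hb1
          rcases d1 with d1 | d1 | d1 | d1 | d1
          · exact absurd d1 hct
          · have := c1 _ d1
            rcases d2 with d2 | d2 | d2 | d2 | d2
            · exact absurd d2 hc
            · omega
            · have := c2 _ d2; omega
            · have := (c3 _ d2).1; omega
            · have := (c4 _ d2).1; omega
          · have := c2 _ d1
            rcases d2 with d2 | d2 | d2 | d2 | d2
            · exact absurd d2 hc
            · have := c1 _ d2; omega
            · omega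
            · have := (c3 _ d2).2.1; omega
            · have := (c4 _ d2).2.1; omega
          · obtain ⟨g1, g2, g3, g4⟩ := c3 _ d1
            rcases d2 with d2 | d2 | d2 | d2 | d2
            · exact absurd d2 hc
            · have := c1 _ d2; omega
            · have := c2 _ d2; omega
            · omega
            · exfalso
              apply g4
              rw [hlastd]
              intro v hv hv'
              rw [hp]
              have := (c4 _ d2).2.2
              exact hl v hv (by omega)
          · obtain ⟨g1, g2, g3⟩ := c4 _ d1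
            rcases d2 with d2 | d2 | d2 | d2 | d2
            · exact absurd d2 hc
            · have := c1 _ d2; omega
            · have := c2 _ d2; omega
            · have := (c3 _ d2).2.2.1; omega
            · omega)
  refine ⟨A, hA, B, hB, hAB, hNE, hAc, hBc, ?_⟩
  rw [hX]
  -- the number of deleted states
  have hcard : (W.filter fun t => cl t = 0).card ≤ 1 + q + q + q := by
    have h1 : (W.filter fun t => cl t = 0) ⊆ ((({0} : Finset ℕ) ∪ (W.filter fun t => pos t = a)) ∪
        (W.filter fun t => pos t = b)) ∪ (M.filter fun t => t ≤ τ ∧ lastv t) := by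
      intro t ht
      rw [mem_filter] at ht
      rw [mem_union, mem_union, mem_union, mem_singleton, mem_filter, mem_filter, mem_filter, hM,
        mem_filter]
      rcases c0 t ht.2 with h | h | h | ⟨h2, h3, h4, h5⟩
      · exact Or.inl (Or.inl (Or.inl h))
      · exact Or.inl (Or.inl (Or.inr ⟨ht.1, h⟩))
      · exact Or.inl (Or.inr ⟨ht.1, h⟩)
      · exact Or.inr ⟨⟨ht.1, h2, h3⟩, h4, h5⟩
    have h2 : (M.filter fun t => t ≤ τ ∧ lastv t).card ≤ q := by
      refine le_trans ?_ hband
      apply card_le_card_of_injOn pos
      · intro t ht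
        rw [mem_coe, mem_filter, hM, mem_filter] at ht
        rw [mem_coe, mem_Ioo]
        exact ht.1.2
      · intro t ht u hu htu
        rw [mem_coe, mem_filter] at ht hu
        rcases Nat.lt_trichotomy t u with h | h | h
        · exact absurd htu.symm ((hlastd t).1 ht.2.2 u h hu.2.1)
        · exact h
        · exact absurd htu ((hlastd u).1 hu.2.2 t h ht.2.1)
    have h3 : (W.filter fun t => pos t = a).card ≤ q := by
      rw [hcnt] at ha2
      exact ha2
    have h4 : (W.filter fun t => pos t = b).card ≤ q := by
      rw [hcnt] at hb2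
      exact hb2
    calc (W.filter fun t => cl t = 0).card ≤ _ := card_le_card h1
      _ ≤ ((({0} : Finset ℕ) ∪ (W.filter fun t => pos t = a)) ∪
        (W.filter fun t => pos t = b)).card + (M.filter fun t => t ≤ τ ∧ lastv t).card :=
          card_union_le _ _
      _ ≤ ((({0} : Finset ℕ) ∪ (W.filter fun t => pos t = a)).card +
        (W.filter fun t => pos t = b).card) + q := by
          have := card_union_le (({0} : Finset ℕ) ∪ (W.filter fun t => pos t = a))
            (W.filter fun t => pos t = b)
          omega
      _ ≤ ((1 + (W.filter fun t => pos t = a).card) + q) + q := by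
          have := card_union_le ({0} : Finset ℕ) (W.filter fun t => pos t = a)
          rw [card_singleton] at this
          omega
      _ ≤ 1 + q + q + q := by omega
  have hreal : (q : ℝ) ≤ (W.card : ℝ) ^ (1 / 2 : ℝ) := by
    rw [← Real.sqrt_eq_rpow]
    apply Real.le_sqrt_of_sq_le
    have : ((q * q : ℕ) : ℝ) ≤ (n : ℝ) := by exact_mod_cast hq1
    rw [← hn]
    push_cast at this
    nlinarith
  have h5 : ((W.filter fun t => cl t = 0).card : ℝ) ≤ ((4 * q : ℕ) : ℝ) := by
    exact_mod_cast (by omega : (W.filter fun t => cl t = 0).card ≤ 4 * q)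
  calc ((W.filter fun t => cl t = 0).card : ℝ) ≤ ((4 * q : ℕ) : ℝ) := h5
    _ = 4 * (q : ℝ) := by push_cast; ring
    _ ≤ 4 * (W.card : ℝ) ^ (1 / 2 : ℝ) := by linarith
    _ = ((4 : ℕ) : ℝ) * (W.card : ℝ) ^ (1 / 2 : ℝ) := by norm_num

end Pool.Agent.NUM
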