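import Pool.Agent.NUM.RBasic
import Pool.Agent.NUM.RStmt
import Pool.Agent.NUM.HSepTape

/-!
# Random access computations which use few addresses

A computation in which at most `S` addresses are written has hereditary separators of `S + 2` states
(`γ = 0`): cut a set `W` of states at its median in time and delete the last steps before the cut in
which the addresses were written.
-/

set_option autoImplicit false

namespace Pool.Agent.NUM

open Finset

/-- separators of a computation which uses few addresses -/
theorem hsep_space {f : Mem → Mem} {d N S : ℕ}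
    (hS : ((range (N + 1)).image fun n => wad d (rst f d n)).card ≤ S) :
    HSep N (rsrc f d) 0 (S + 2) := by
  classical
  intro W hW
  rcases W.eq_empty_or_nonempty with rfl | hne
  · exact ⟨∅, subset_rfl, ∅, subset_rfl, disjoint_empty_left _, NoEdge.empty, by simp, by simp,
      by simp; positivity⟩
  obtain ⟨m, hm, hlo, hhi⟩ := exists_median W (fun u => u) hne
  have hmN : m < N + 1 := mem_range.1 (hW hm)
  -- the last steps before the cut in which the addresses were written
  set Z : Finset ℕ := (range m).filter fun p => 0 < p ∧ ∀ q, p < q → q < m →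
    wad d (rst f d q) ≠ wad d (rst f d p) with hZ
  have hmZ : ∀ p, p ∈ Z ↔ p < m ∧ (0 < p ∧ ∀ q, p < q → q < m →
      wad d (rst f d q) ≠ wad d (rst f d p)) := by
    intro p
    rw [hZ, mem_filter, mem_range]
  have hZc : Z.card ≤ S := by
    refine le_trans ?_ hS
    refine Finset.card_le_card_of_injOn (fun n => wad d (rst f d n)) ?_ ?_
    · intro p hp
      have hp' := ((hmZ p).1 (mem_coe.1 hp)).1
      exact mem_coe.2 (mem_image.2 ⟨p, mem_range.2 (by omega), rfl⟩)
    · intro p hp q hq hpq
      have hp' := (hmZ p).1 (mem_coe.1 hp)
      have hq' := (hmZ q).1 (mem_coe.1 hq)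
      simp only at hpq
      rcases Nat.lt_trichotomy p q with h | h | h
      · exact absurd hpq.symm (hp'.2.2 q h hq'.1)
      · exact h
      · exact absurd hpq (hq'.2.2 p h hp'.1)
  set D : Finset ℕ := insert m (insert 0 Z) with hD
  have hDc : D.card ≤ S + 2 := by
    refine (card_insert_le _ _).trans ?_
    have := card_insert_le 0 Z
    omega
  refine ⟨(W.filter fun u => u < m) \ D, sdiff_subset.trans (filter_subset _ _),
    W.filter fun u => m < u, filter_subset _ _, ?_, ?_, ?_, ?_, ?_⟩
  · rw [disjoint_left]
    intro v hv hv'
    have h1 := (mem_filter.1 (mem_sdiff.1 hv).1).2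
    have h2 := (mem_filter.1 hv').2
    omega
  · intro t
    constructor
    · intro ht
      have h1 := (mem_filter.1 (mem_sdiff.1 ht).1).2
      refine ⟨fun h2 => ?_, fun h3 h2 => ?_⟩
      · have h4 := (mem_filter.1 h2).2
        omega
      · have h4 := (mem_filter.1 h2).2
        omega
    · intro ht
      have h1 := (mem_filter.1 ht).2
      refine ⟨fun h2 => ?_, fun h3 h2 => ?_⟩
      · have h4 := (mem_filter.1 (mem_sdiff.1 h2).1).2
        omega
      · have h4 := (mem_filter.1 (mem_sdiff.1 h2).1).2
        have h5 := (mem_sdiff.1 h2).2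
        refine h5 (mem_insert_of_mem ?_)
        rcases Nat.eq_zero_or_pos (rsrc f d t) with h6 | h6
        · rw [h6]
          exact mem_insert_self _ _
        · refine mem_insert_of_mem ((hmZ _).2 ⟨h4, h6, fun q hq1 hq2 => ?_⟩)
          rw [rsrc_wad h6]
          exact rsrc_last hq1 (by omega)
  · have h1 : ((W.filter fun u => u < m) \ D).card ≤ (W.filter fun u => u < m).card :=
      card_le_card sdiff_subset
    omega
  · omega
  · have h1 : W \ ((W.filter fun u => u < m) \ D ∪ W.filter fun u => m < u) ⊆ D := by
      intro v hv
      rw [mem_sdiff, mem_union] at hv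
      by_contra hcon
      refine hv.2 ?_
      rcases Nat.lt_trichotomy v m with h | h | h
      · exact Or.inl (mem_sdiff.2 ⟨mem_filter.2 ⟨hv.1, h⟩, hcon⟩)
      · exact absurd (h ▸ mem_insert_self _ _) hcon
      · exact Or.inr (mem_filter.2 ⟨hv.1, h⟩)
    have h2 := (card_le_card h1).trans hDc
    rw [Real.rpow_zero, mul_one]
    exact_mod_cast h2

/-- `G`, with `d` address cells of each kind, decides `P` on the inputs of support `B` within `T`
steps and writes at most `S` addresses -/
def SpaceDecides (G : List Ins) (d B T S : ℕ) (P : Inp → Prop) : Prop :=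
  ∀ z, Supp B z → ∃ N ≤ T, RHalts (eval G z) d N ∧ (rst (eval G z) d N 2 = true ↔ P z) ∧
    ((range (N + 1)).image fun n => wad d (rst (eval G z) d n)).card ≤ S

/-- programs which write at most `S` addresses have separators of `S + 2` states -/
theorem SpaceDecides.ram {G : List Ins} {d B T S : ℕ} {P : Inp → Prop}
    (h : SpaceDecides G d B T S P) : RamDecides G d B T 0 (S + 2) P := by
  intro z hz
  obtain ⟨N, hN, h1, h2, h3⟩ := h z hz
  exact ⟨N, hN, h1, h2, hsep_space h3⟩

end Pool.Agent.NUM
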