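import Pool.Agent.NUM.Basic

/-!
# Block calculus: definitions

* `Fit c s C`: the code `C` has at most `s` instructions, uses cells below `c + s`, asks addresses
  of length at most `s` (`c` = base of the scratch cells);
* `Cp b s f`: the Boolean function `f : Inp → Mem → Bool` (depending on the cells below `b`) is
  computable by relocatable code of size `s`, into any cell `o`, keeping all other cells below the
  scratch base `c ≥ b`;
* `Tr b s F`: the same for a transformation `F` of the cells below `b`;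
* `Loc l t φ`: the bits of `φ z` at addresses of length `≤ l` are computable by code of size `t`.
-/

namespace Pool.Agent.NUM

/-- length of the address of an `ask` instruction -/
def Ins.len : Ins → ℕ
  | .nand _ _ _ => 0
  | .ask _ _ l => l

/-- size of a piece of code with scratch base `c` -/
def Fit (c s : ℕ) (C : List Ins) : Prop :=
  C.length ≤ s ∧ ∀ i ∈ C, i.top ≤ c + s ∧ i.len ≤ s

/-- `f` is computable by relocatable code of size `s` from the cells below `b` -/
structure Cp (b s : ℕ) (f : Inp → Mem → Bool) : Prop where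
  dep : ∀ z M M', Agr b M M' → f z M = f z M'
  code : ∀ c, b ≤ c → ∀ o, o < c → ∃ C : List Ins, Fit c s C ∧
    ∀ z M, eval C z M o = f z M ∧ ∀ q, q < c → q ≠ o → eval C z M q = M q

/-- `F` on the cells below `b`, identity above -/
def lift (b : ℕ) (F : Inp → Mem → Mem) : Inp → Mem → Mem :=
  fun z M q => if q < b then F z M q else M q

/-- `F` (on the cells below `b`) is computable by relocatable code of size `s` -/
structure Tr (b s : ℕ) (F : Inp → Mem → Mem) : Prop where
  dep : ∀ z M M', Agr b M M' → Agr b (F z M) (F z M')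
  code : ∀ c, b ≤ c → ∃ C : List Ins, Fit c s C ∧ ∀ z M, Agr c (eval C z M) (lift b F z M)

/-- `φ` is a local map of inputs: every bit of `φ z` at an address of length at most `l` is
computable by code of size `t` -/
def Loc (l t : ℕ) (φ : Inp → Inp) : Prop :=
  ∀ k, k ≤ l → ∀ j, Cp (j + k) t (fun z M => φ z (word M j k))

/-! ## Fit -/

theorem Fit.mono {c s c' s' : ℕ} {C : List Ins} (h : Fit c s C) (hs : s ≤ s')
    (hc : c + s ≤ c' + s') : Fit c' s' C :=
  ⟨h.1.trans hs, fun i hi => ⟨(h.2 i hi).1.trans hc, (h.2 i hi).2.trans hs⟩⟩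

theorem Fit.append {c s c₁ s₁ c₂ s₂ : ℕ} {C₁ C₂ : List Ins} (h₁ : Fit c₁ s₁ C₁)
    (h₂ : Fit c₂ s₂ C₂) (hs : s₁ + s₂ ≤ s) (hc₁ : c₁ + s₁ ≤ c + s) (hc₂ : c₂ + s₂ ≤ c + s) :
    Fit c s (C₁ ++ C₂) := by
  refine ⟨?_, ?_⟩
  · rw [List.length_append]; have := h₁.1; have := h₂.1; omega
  · intro i hi
    rw [List.mem_append] at hi
    rcases hi with hi | hi
    · have := h₁.2 i hi; omega
    · have := h₂.2 i hi; omega

theorem Fit.nil (c s : ℕ) : Fit c s [] := ⟨Nat.zero_le _, by simp⟩

theorem Fit.nand {c s i j k : ℕ} (hs : 1 ≤ s) (hi : i < c + s) (hj : j < c + s)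
    (hk : k < c + s) : Fit c s [Ins.nand i j k] := by
  refine ⟨by simpa using hs, ?_⟩
  intro x hx
  rw [List.mem_singleton] at hx
  subst hx
  simp only [Ins.top, Ins.len, max_le_iff]
  omega

theorem Fit.ask {c s i j l : ℕ} (hs : 1 ≤ s) (hi : i < c + s) (hj : j + l ≤ c + s)
    (hl : l ≤ s) : Fit c s [Ins.ask i j l] := by
  refine ⟨by simpa using hs, ?_⟩
  intro x hx
  rw [List.mem_singleton] at hx
  subst hx
  simp only [Ins.top, Ins.len, max_le_iff]
  omega

/-! ## Cp: monotonicity -/

theorem Cp.mono {b s b' s' : ℕ} {f : Inp → Mem → Bool} (h : Cp b s f) (hb : b ≤ b')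
    (hs : s ≤ s') : Cp b' s' f := by
  refine ⟨fun z M M' hM => h.dep z M M' (hM.mono hb), fun c hc o ho => ?_⟩
  obtain ⟨C, hC, h1⟩ := h.code c (hb.trans hc) o ho
  exact ⟨C, hC.mono hs (by omega), h1⟩

theorem Cp.congr {b s : ℕ} {f g : Inp → Mem → Bool} (h : Cp b s f) (hfg : ∀ z M, f z M = g z M) :
    Cp b s g := by
  have : f = g := by funext z M; exact hfg z M
  rwa [← this]

/-- code computing `f` into `o`, with target possibly in the scratch part -/
theorem Cp.code' {b s : ℕ} {f : Inp → Mem → Bool} (h : Cp b s f) (c : ℕ) (hc : b ≤ c) (o : ℕ)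
    (ho : o < c) : ∃ C : List Ins, Fit c s C ∧
      ∀ z M M', Agr b M M' → eval C z M o = f z M' ∧ ∀ q, q < c → q ≠ o → eval C z M q = M q := by
  obtain ⟨C, hC, h1⟩ := h.code c hc o ho
  refine ⟨C, hC, fun z M M' hM => ⟨?_, (h1 z M).2⟩⟩
  rw [(h1 z M).1]
  exact h.dep z M M' hM

/-! ## basic functions -/

theorem Cp.nand {b s t : ℕ} {f g : Inp → Mem → Bool} (hf : Cp b s f) (hg : Cp b t g) :
    Cp b (s + t + 2) (fun z M => !(f z M && g z M)) := by
  refine ⟨fun z M M' hM => ?_, fun c hc o ho => ?_⟩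
  · show (!(f z M && g z M)) = !(f z M' && g z M')
    rw [hf.dep z M M' hM, hg.dep z M M' hM]
  · obtain ⟨C₁, hC₁, h₁⟩ := hf.code' (c + 1) (by omega) c (by omega)
    obtain ⟨C₂, hC₂, h₂⟩ := hg.code' (c + 2) (by omega) (c + 1) (by omega)
    refine ⟨C₁ ++ (C₂ ++ [Ins.nand o c (c + 1)]), ?_, ?_⟩
    · refine Fit.append (s₂ := t + 1) (c₂ := c + 1) hC₁ (Fit.append (s₂ := 1) (c₂ := c + 1) hC₂
        (Fit.nand (by omega) (by omega) (by omega) (by omega)) ?_ ?_ ?_) ?_ ?_ ?_ <;> omega
    · intro z M
      rw [eval_append, eval_append]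
      set M₁ := eval C₁ z M with hM₁
      set M₂ := eval C₂ z M₁ with hM₂
      have e1 : M₁ c = f z M := (h₁ z M M (Agr.refl _ _)).1
      have e2 : ∀ q, q < c → M₁ q = M q := fun q hq =>
        (h₁ z M M (Agr.refl _ _)).2 q (by omega) (by omega)
      have e3 : M₂ (c + 1) = g z M :=
        (h₂ z M₁ M (fun q hq => e2 q (by omega))).1
      have e4 : ∀ q, q < c + 1 → M₂ q = M₁ q := fun q hq =>
        (h₂ z M₁ M (fun q hq => e2 q (by omega))).2 q (by omega) (by omega)
      have e5 : M₂ c = f z M := by rw [e4 c (by omega), e1]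
      simp only [eval_cons, eval_nil, Ins.exec, e5, e3]
      refine ⟨by simp, fun q hq hqo => ?_⟩
      rw [Function.update_of_ne hqo, e4 q (by omega), e2 q hq]

theorem Cp.cell {b i : ℕ} (hi : i < b) : Cp b 2 (fun _ M => M i) := by
  refine ⟨fun z M M' hM => hM i hi, fun c hc o ho => ?_⟩
  refine ⟨[Ins.nand c i i, Ins.nand o c c], ?_, ?_⟩
  · refine ⟨by simp, ?_⟩
    intro x hx
    simp only [List.mem_cons, List.not_mem_nil, or_false] at hx
    rcases hx with rfl | rfl <;> simp only [Ins.top, Ins.len, max_le_iff] <;> omega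
  · intro z M
    simp only [eval_cons, eval_nil, Ins.exec]
    refine ⟨by simp, fun q hq hqo => ?_⟩
    rw [Function.update_of_ne hqo, Function.update_of_ne (by omega)]

theorem Cp.true' (b : ℕ) : Cp b 3 (fun _ _ => true) := by
  refine ⟨fun z M M' hM => rfl, fun c hc o ho => ?_⟩
  refine ⟨[Ins.nand c c c, Ins.nand (c + 1) c c, Ins.nand o c (c + 1)], ?_, ?_⟩
  · refine ⟨by simp, ?_⟩
    intro x hx
    simp only [List.mem_cons, List.not_mem_nil, or_false] at hx
    rcases hx with rfl | rfl | rfl <;> simp only [Ins.top, Ins.len, max_le_iff] <;> omega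
  · intro z M
    simp only [eval_cons, eval_nil, Ins.exec]
    refine ⟨?_, fun q hq hqo => ?_⟩
    · rw [Function.update_self, Function.update_self, Function.update_of_ne (by omega),
        Function.update_self]
      simp
    · rw [Function.update_of_ne hqo, Function.update_of_ne (by omega),
        Function.update_of_ne (by omega)]

theorem Cp.not {b s : ℕ} {f : Inp → Mem → Bool} (hf : Cp b s f) :
    Cp b (s + 5) (fun z M => !(f z M)) :=
  (hf.nand (Cp.true' b)).congr (by intro z M; simp)

theorem Cp.const (b : ℕ) (v : Bool) : Cp b 8 (fun _ _ => v) := by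
  cases v
  · exact ((Cp.true' b).not).congr (by intro z M; simp)
  · exact (Cp.true' b).mono le_rfl (by omega)

theorem Cp.and {b s t : ℕ} {f g : Inp → Mem → Bool} (hf : Cp b s f) (hg : Cp b t g) :
    Cp b (s + t + 7) (fun z M => f z M && g z M) :=
  ((hf.nand hg).not).congr (by intro z M; simp)

theorem Cp.or {b s t : ℕ} {f g : Inp → Mem → Bool} (hf : Cp b s f) (hg : Cp b t g) :
    Cp b (s + t + 12) (fun z M => f z M || g z M) :=
  (((hf.not).nand (hg.not)).congr (by intro z M; simp)).mono le_rfl (by omega)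

theorem Cp.ite {b s t u : ℕ} {f g h : Inp → Mem → Bool} (hf : Cp b s f) (hg : Cp b t g)
    (hh : Cp b u h) : Cp b (2 * s + t + u + 31) (fun z M => bif f z M then g z M else h z M) :=
  (((hf.and hg).or ((hf.not).and hh)).congr (by
    intro z M; cases f z M <;> simp)).mono le_rfl (by omega)

theorem Cp.beq {b s t : ℕ} {f g : Inp → Mem → Bool} (hf : Cp b s f) (hg : Cp b t g) :
    Cp b (2 * s + 2 * t + 36) (fun z M => f z M == g z M) :=
  ((Cp.ite hf hg hg.not).congr (by
    intro z M; cases f z M <;> cases g z M <;> rfl)).mono le_rfl (by omega)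

end Pool.Agent.NUM
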