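import Pool.Agent.NUM.CpList

/-!
# Block calculus: exclusive or, comparison and successor of computed numbers
-/

namespace Pool.Agent.NUM

/-- exclusive or, both arguments are computed only once -/
theorem Cp.xor {b s t : ℕ} {f g : Inp → Mem → Bool} (hf : Cp b s f) (hg : Cp b t g) :
    Cp b (s + t + 8) (fun z M => (f z M ^^ g z M)) := by
  refine ⟨fun z M M' hM => ?_, fun c hc o ho => ?_⟩
  · show (f z M ^^ g z M) = (f z M' ^^ g z M')
    rw [hf.dep z M M' hM, hg.dep z M M' hM]
  · obtain ⟨C₁, hC₁, h₁⟩ := hf.code' (c + 1) (by omega) c (by omega)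
    obtain ⟨C₂, hC₂, h₂⟩ := hg.code' (c + 2) (by omega) (c + 1) (by omega)
    refine ⟨C₁ ++ (C₂ ++ [Ins.nand (c + 2) c (c + 1), Ins.nand c c (c + 2),
      Ins.nand (c + 1) (c + 1) (c + 2), Ins.nand o c (c + 1)]), ?_, ?_⟩
    · refine Fit.append (s₂ := t + 5) (c₂ := c + 1) hC₁ (Fit.append (s₂ := 4) (c₂ := c + 1) hC₂
        ?_ ?_ ?_ ?_) ?_ ?_ ?_
      · refine ⟨by simp, ?_⟩
        intro x hx
        simp only [List.mem_cons, List.not_mem_nil, or_false] at hx
        rcases hx with rfl | rfl | rfl | rfl <;> simp only [Ins.top, Ins.len, max_le_iff] <;> omega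
      all_goals omega
    · intro z M
      rw [eval_append, eval_append]
      set M₁ := eval C₁ z M with hM₁
      set M₂ := eval C₂ z M₁ with hM₂
      have e1 : M₁ c = f z M := (h₁ z M M (Agr.refl _ _)).1
      have e2 : ∀ q, q < c → M₁ q = M q := fun q hq =>
        (h₁ z M M (Agr.refl _ _)).2 q (by omega) (by omega)
      have e3 : M₂ (c + 1) = g z M :=
        (h₂ z M₁ M (fun q hq => e2 q (by omega))).1
      have e4 : ∀ q, q < c + 1 → M₂ q = M₁ q := fun q hq =>
        (h₂ z M₁ M (fun q hq => e2 q (by omega))).2 q (by omega) (by omega)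
      have e5 : M₂ c = f z M := by rw [e4 c (by omega), e1]
      simp only [eval_cons, eval_nil, Ins.exec]
      refine ⟨?_, fun q hq hqo => ?_⟩
      · simp only [Function.update_self, ne_eq, Nat.add_eq_left, OfNat.ofNat_ne_zero,
          not_false_eq_true, Function.update_of_ne, Nat.add_left_cancel_iff,
          OfNat.one_ne_ofNat, e5, e3, Nat.left_eq_add, one_ne_zero]
        cases f z M <;> cases g z M <;> rfl
      · rw [Function.update_of_ne hqo, Function.update_of_ne (by omega),
          Function.update_of_ne (by omega), Function.update_of_ne (by omega), e4 q (by omega),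
          e2 q hq]

/-- comparison of two numbers by their digits -/
theorem num_lt_iff (n : ℕ) (g g' : ℕ → Bool) : num n g < num n g' ↔
    ∃ i < n, g i = false ∧ g' i = true ∧ ∀ j < n, i < j → g j = g' j := by
  induction n with
  | zero => simp [num]
  | succ n ih =>
    have h1 := num_lt n g
    have h2 := num_lt n g'
    rw [num_succ, num_succ]
    cases hg : g n <;> cases hg' : g' n
    · simp only [Bool.false_eq_true, if_false, add_zero]
      rw [ih]
      constructor
      · rintro ⟨i, hi, h3, h4, h5⟩
        refine ⟨i, by omega, h3, h4, fun j hj hij => ?_⟩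
        rcases Nat.lt_or_ge j n with h | h
        · exact h5 j h hij
        · rw [show j = n by omega, hg, hg']
      · rintro ⟨i, hi, h3, h4, h5⟩
        have : i ≠ n := by rintro rfl; rw [hg'] at h4; exact absurd h4 (by simp)
        exact ⟨i, by omega, h3, h4, fun j hj hij => h5 j (by omega) hij⟩
    · simp only [Bool.false_eq_true, if_false, add_zero, if_true]
      refine ⟨fun _ => ⟨n, by omega, hg, hg', fun j hj hij => by omega⟩, fun _ => by omega⟩
    · simp only [Bool.false_eq_true, if_false, add_zero, if_true]
      refine ⟨fun h => by omega, ?_⟩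
      rintro ⟨i, hi, h3, h4, h5⟩
      exfalso
      rcases Nat.lt_or_ge i n with h | h
      · have := h5 n (by omega) h
        rw [hg, hg'] at this
        exact absurd this (by simp)
      · rw [show i = n by omega, hg] at h3
        exact absurd h3 (by simp)
    · simp only [if_true]
      rw [Nat.add_lt_add_iff_right, ih]
      constructor
      · rintro ⟨i, hi, h3, h4, h5⟩
        refine ⟨i, by omega, h3, h4, fun j hj hij => ?_⟩
        rcases Nat.lt_or_ge j n with h | h
        · exact h5 j h hij
        · rw [show j = n by omega, hg, hg']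
      · rintro ⟨i, hi, h3, h4, h5⟩
        have : i ≠ n := by rintro rfl; rw [hg] at h3; exact absurd h3 (by simp)
        exact ⟨i, by omega, h3, h4, fun j hj hij => h5 j (by omega) hij⟩

/-- comparison of two computed numbers -/
theorem Cp.numLt {b s t n : ℕ} {g g' : ℕ → Inp → Mem → Bool} (h : ∀ i < n, Cp b s (g i))
    (h' : ∀ i < n, Cp b t (g' i)) :
    Cp b (n * (n * (2 * s + 2 * t + 100) + 2 * s + 2 * t + 200) + 50)
      (fun z M => decide (num n (fun i => g i z M) < num n (fun i => g' i z M))) := by
  have hall : ∀ i, Cp b (n * (2 * s + 2 * t + 36 + 30) + 30) (fun z M =>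
      (List.range n).all fun j => bif decide (i < j) then g j z M == g' j z M else true) := by
    intro i
    refine Cp.all (f := fun j z M => bif decide (i < j) then g j z M == g' j z M else true)
      (fun j hj => ?_)
    by_cases hij : i < j
    · refine ((h j hj).beq (h' j hj)).congr ?_
      intro z M
      simp [hij]
    · refine ((Cp.true' b).congr ?_).mono le_rfl (by omega)
      intro z M
      simp [hij]
  have h1 := Cp.any (n := n) (f := fun i z M => ((!(g i z M)) && g' i z M) &&
      (List.range n).all fun j => bif decide (i < j) then g j z M == g' j z M else true)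
    (fun i hi => (((h i hi).not).and (h' i hi)).and (hall i))
  refine (h1.congr ?_).mono le_rfl ?_
  · intro z M
    rw [Bool.eq_iff_iff, List.any_eq_true, decide_eq_true_iff, num_lt_iff]
    simp only [List.mem_range, Bool.and_eq_true, Bool.not_eq_true', List.all_eq_true]
    constructor
    · rintro ⟨i, hi, ⟨h3, h4⟩, h5⟩
      refine ⟨i, hi, h3, h4, fun j hj hij => ?_⟩
      have := h5 j hj
      simpa [hij] using this
    · rintro ⟨i, hi, h3, h4, h5⟩
      refine ⟨i, hi, ⟨h3, h4⟩, fun j hj => ?_⟩
      by_cases hij : i < j
      · simpa [hij] using h5 j hj hij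
      · simp [hij]
  · have e1 : n * (2 * s + 2 * t + 36 + 30) ≤ n * (2 * s + 2 * t + 100) :=
      Nat.mul_le_mul_left _ (by omega)
    have e2 : n * (s + 5 + t + 7 + (n * (2 * s + 2 * t + 36 + 30) + 30) + 7 + 30) ≤
        n * (n * (2 * s + 2 * t + 100) + 2 * s + 2 * t + 200) :=
      Nat.mul_le_mul_left _ (by omega)
    exact Nat.add_le_add e2 (by norm_num)

/-- a digit of the successor of a number -/
theorem testBit_num_add_one (n : ℕ) (g : ℕ → Bool) {i : ℕ} (hi : i < n) :
    (num n g + 1).testBit i = (g i ^^ ((List.range i).all fun j => g j)) := by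
  induction n with
  | zero => omega
  | succ n ih =>
    have hlt := num_lt n g
    rw [num_succ]
    rcases Nat.lt_or_ge i n with h | h
    · rw [← ih h]
      split_ifs with hg
      · rw [show num n g + 2 ^ n + 1 = 2 ^ n * 1 + (num n g + 1) by ring]
        rcases Nat.lt_or_ge (num n g + 1) (2 ^ n) with h2 | h2
        · rw [Nat.testBit_two_pow_mul_add _ h2, if_pos h]
        · have h3 : num n g + 1 = 2 ^ n := by omega
          rw [h3, mul_one]
          rw [Nat.testBit_two_pow_of_ne (by omega), ← two_mul, ← pow_succ',
            Nat.testBit_two_pow_of_ne (by omega)]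
      · rw [add_zero]
    · have hin : i = n := by omega
      subst hin
      have key : ((List.range i).all fun j => g j) = decide (num i g + 1 = 2 ^ i) := by
        rw [Bool.eq_iff_iff, List.all_eq_true, decide_eq_true_iff]
        simp only [List.mem_range]
        have hpos : 0 < 2 ^ i := by positivity
        have e : (num i g + 1 = 2 ^ i) ↔ num i g = 2 ^ i - 1 := by omega
        rw [e, num_eq_iff i g _ (by omega)]
        constructor
        · intro h2 j hj
          rw [h2 j hj, Nat.testBit_two_pow_sub_one]
          simp [hj]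
        · intro h2 j hj
          rw [h2 j hj, Nat.testBit_two_pow_sub_one]
          simp [hj]
      rw [key]
      rcases Nat.lt_or_ge (num i g + 1) (2 ^ i) with h2 | h2
      · have e : decide (num i g + 1 = 2 ^ i) = false := by simp; omega
        rw [e, Bool.xor_false]
        split_ifs with hg
        · rw [show num i g + 2 ^ i + 1 = 2 ^ i * 1 + (num i g + 1) by ring,
            Nat.testBit_two_pow_mul_add _ h2, hg]
          simp
        · rw [add_zero, Nat.testBit_lt_two_pow h2]
          simpa using hg
      · have h3 : num i g + 1 = 2 ^ i := by omega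
        have e : decide (num i g + 1 = 2 ^ i) = true := by simp [h3]
        rw [e, Bool.xor_true]
        split_ifs with hg
        · rw [show num i g + 2 ^ i + 1 = 2 ^ (i + 1) by rw [pow_succ]; omega,
            Nat.testBit_two_pow_of_ne (by omega), hg]
          rfl
        · rw [add_zero, h3, Nat.testBit_two_pow_self]
          simpa using hg

/-- a binary digit of the successor -/
theorem Cp.succBit {b s n : ℕ} {g : ℕ → Inp → Mem → Bool} (h : ∀ i < n, Cp b s (g i)) (i : ℕ)
    (hi : i < n) :
    Cp b (n * (s + 50) + 2 * s + 200) (fun z M => (num n (fun i => g i z M) + 1).testBit i) := by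
  have h1 := (h i hi).xor (Cp.all (n := i) (f := g) fun j hj => h j (by omega))
  refine (h1.congr ?_).mono le_rfl ?_
  · intro z M
    rw [testBit_num_add_one n (fun i => g i z M) hi]
  · have e1 : i * (s + 30) ≤ n * (s + 50) := Nat.mul_le_mul (by omega) (by omega)
    omega

end Pool.Agent.NUM
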