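import Pool.Agent.NUM.ChkDef
import Pool.Agent.NUM.Trans
import Pool.Agent.NUM.CpList
import Pool.Agent.NUM.CpArith

/-! The CHECK machine is computable by small code. -/

namespace Pool.Agent.NUM

namespace ChkPar

/-- all data of the CHECK machine are computable by code of size `N` -/
structure Comp (P : ChkPar) (N : ℕ) : Prop where
  hN : 100 ≤ N
  hs : P.s ≤ N
  hs3 : 3 ≤ P.s
  hw : P.w ≤ N
  g : Tr P.s N P.g
  m : ∀ p < P.s, Cp 0 N (fun z _ => P.m z p)
  v : ∀ p < P.s, Cp 0 N (fun z _ => P.v z p)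
  m1 : ∀ p < P.s, Cp 0 N (fun z _ => P.m1 z p)
  v1 : ∀ p < P.s, Cp 0 N (fun z _ => P.v1 z p)
  m2 : ∀ p < P.s, Cp 0 N (fun z _ => P.m2 z p)
  v2 : ∀ p < P.s, Cp 0 N (fun z _ => P.v2 z p)
  t1 : ∀ i < P.w, Cp 0 N (fun z _ => P.t1 z i)
  t2 : ∀ i < P.w, Cp 0 N (fun z _ => P.t2 z i)
  h1 : Cp 0 N (fun z _ => P.h1 z)
  h2 : Cp 0 N (fun z _ => P.h2 z)
  skip : Cp 0 N (fun z _ => P.skip z)
  ok : Cp 0 N (fun z _ => P.ok z)

variable {P : ChkPar} {N : ℕ}

theorem cp_same {b s t u : ℕ} {x y : Inp → Mem → ℕ → Bool}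
    (hx : ∀ p < s, Cp b t (fun z M => x z M p)) (hy : ∀ p < s, Cp b u (fun z M => y z M p)) :
    Cp b (s * (2 * t + 2 * u + 66) + 30) (fun z M => same s (x z M) (y z M)) := by
  have h := Cp.all (b := b) (s := 2 * t + 2 * u + 36) (n := s)
    (f := fun i z M => x z M i == y z M i) (fun i hi => (hx i hi).beq (hy i hi))
  exact h

theorem Comp.cp_cur (h : P.Comp N) {p : ℕ} (hp : p < P.s) :
    Cp (P.s + 2 + P.w) (N + 37) (fun z M => P.cur z M p) := by
  have h1 : Cp (P.s + 2 + P.w) 2 (fun _ M => M P.s) := Cp.cell (by omega)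
  have h2 : Cp (P.s + 2 + P.w) 2 (fun _ M => M p) := Cp.cell (by omega)
  have h3 := (h.m p hp).mono (Nat.zero_le (P.s + 2 + P.w)) le_rfl
  refine ((Cp.ite h1 h2 h3).congr (fun z M => ?_)).mono le_rfl (by omega)
  simp only [cur, cut, if_pos hp, mode]

theorem Comp.cp_cntEq (h : P.Comp N) {x : Inp → ℕ → Bool}
    (hx : ∀ i < P.w, Cp 0 N (fun z _ => x z i)) :
    Cp (P.s + 2 + P.w) (4 * N ^ 2) (fun z M => decide (P.cnt M = num P.w (x z))) := by
  have h1 : ∀ i < P.w, Cp (P.s + 2 + P.w) 2 (fun _ M => M (P.s + 2 + i)) := fun i hi =>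
    Cp.cell (by omega)
  have h2 := Cp.numEq₂ (g' := fun i z _ => x z i) h1
    (fun i hi => (hx i hi).mono (Nat.zero_le (P.s + 2 + P.w)) le_rfl)
  refine Cp.mono h2 le_rfl ?_
  have := h.hN
  calc P.w * (2 * 2 + 2 * N + 100) + 50 ≤ N * (2 * 2 + 2 * N + 100) + 50 := by
        gcongr; exact h.hw
    _ ≤ 4 * N ^ 2 := by nlinarith

theorem Comp.cp_now1 (h : P.Comp N) :
    Cp (P.s + 2 + P.w) (5 * N ^ 2) (fun z M => P.now1 z M) := by
  have h1 := (h.h1.mono (Nat.zero_le (P.s + 2 + P.w)) le_rfl).and (h.cp_cntEq h.t1)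
  refine h1.mono le_rfl ?_
  have := h.hN
  nlinarith

theorem Comp.cp_now2 (h : P.Comp N) :
    Cp (P.s + 2 + P.w) (10 * N ^ 2) (fun z M => P.now2 z M) := by
  have h1 := (h.h2.mono (Nat.zero_le (P.s + 2 + P.w)) le_rfl).and (h.cp_cntEq h.t2)
  refine ((h.cp_now1.not).and h1).mono le_rfl ?_
  have := h.hN
  nlinarith

theorem Comp.cp_cntLim (h : P.Comp N) :
    Cp (P.s + 2 + P.w) (2 * N ^ 2) (fun _ M => decide (P.cnt M = P.lim)) := by
  have h1 : ∀ i < P.w, Cp (P.s + 2 + P.w) 2 (fun _ M => M (P.s + 2 + i)) := fun i hi =>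
    Cp.cell (by omega)
  have h2 := Cp.numEq h1 P.lim
  refine Cp.mono h2 le_rfl ?_
  have := h.hN
  calc P.w * (2 * 2 + 100) + 50 ≤ N * (2 * 2 + 100) + 50 := by
        gcongr; exact h.hw
    _ ≤ 2 * N ^ 2 := by nlinarith

theorem Comp.cp_sameCur (h : P.Comp N) {x : Inp → ℕ → Bool}
    (hx : ∀ i < P.s, Cp 0 N (fun z _ => x z i)) :
    Cp (P.s + 2 + P.w) (6 * N ^ 2) (fun z M => same P.s (P.cur z M) (x z)) := by
  have h2 := cp_same (y := fun z _ => x z) (fun p hp => h.cp_cur hp)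
    (fun i hi => (hx i hi).mono (Nat.zero_le (P.s + 2 + P.w)) le_rfl)
  refine h2.mono le_rfl ?_
  have := h.hN
  calc P.s * (2 * (N + 37) + 2 * N + 66) + 30 ≤ N * (2 * (N + 37) + 2 * N + 66) + 30 := by
        gcongr; exact h.hs
    _ ≤ 6 * N ^ 2 := by nlinarith

theorem Comp.cp_nbad (h : P.Comp N) :
    Cp (P.s + 2 + P.w) (30 * N ^ 2) (fun z M => P.nbad z M) := by
  have h0 : Cp (P.s + 2 + P.w) 2 (fun _ M => P.bad M) := Cp.cell (by omega)
  refine ((((h0.or h.cp_cntLim)).or (h.cp_now1.and (h.cp_sameCur h.m1).not)).or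
    (h.cp_now2.and (h.cp_sameCur h.m2).not)).mono le_rfl ?_
  have := h.hN
  nlinarith

/-- the memory with the current simulated memory in the cells below `s` -/
def curT (P : ChkPar) (z : Inp) (M : Mem) : Mem := fun q => if q < P.s then P.cur z M q else M q

theorem Comp.tr_curT (h : P.Comp N) : Tr (P.s + 2 + P.w) (5 * N ^ 2) (fun z M => P.curT z M) := by
  have h1 : ∀ q < P.s + 2 + P.w, Cp (P.s + 2 + P.w) (N + 37) (fun z M => P.curT z M q) := by
    intro q hq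
    by_cases hs : q < P.s
    · exact (h.cp_cur hs).congr fun z M => by simp only [curT, if_pos hs]
    · exact ((Cp.cell hq).congr fun z M => by simp only [curT, if_neg hs]).mono le_rfl (by omega)
  refine (Tr.ofCp h1).mono ?_
  have := h.hN
  have := h.hs
  have := h.hw
  calc (P.s + 2 + P.w) * (N + 37 + 3) + 1 ≤ (N + 2 + N) * (N + 37 + 3) + 1 := by gcongr
    _ ≤ 5 * N ^ 2 := by nlinarith

theorem Comp.cp_g (h : P.Comp N) {p : ℕ} (hp : p < P.s) :
    Cp (P.s + 2 + P.w) (7 * N ^ 2) (fun z M => P.g z (P.cur z M) p) := by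
  have h1 : Cp (P.s + 2 + P.w) (N + 4 * (P.s + 2 + P.w) + 4)
      (fun z M => lift P.s P.g z M p) :=
    (h.g.lift (by omega)).cell (by omega)
  have h2 := Cp.comp h1 h.tr_curT (by omega)
  refine (h2.congr (fun z M => ?_)).mono le_rfl ?_
  · rw [lift_lt hp]
    refine h.g.dep z _ _ (fun q hq => ?_) p hp
    simp only [curT, if_pos hq]
  · have := h.hN
    have := h.hs
    have := h.hw
    nlinarith

theorem Comp.cp_nxt (h : P.Comp N) {p : ℕ} (hp : p < P.s) :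
    Cp (P.s + 2 + P.w) (40 * N ^ 2) (fun z M => P.nxt z M p) := by
  have hN := h.hN
  have hv : ∀ {x : Inp → ℕ → Bool}, (∀ i < P.s, Cp 0 N (fun z _ => x z i)) →
      Cp (P.s + 2 + P.w) N (fun z _ => if p < 2 then true else x z p) := by
    intro x hx
    by_cases h2 : p < 2
    · exact ((Cp.true' _).congr fun z M => by rw [if_pos h2]).mono le_rfl (by omega)
    · exact ((hx p hp).congr fun z M => by rw [if_neg h2]).mono (Nat.zero_le _) le_rfl
  have h1 := Cp.ite h.cp_now1 (hv h.v1) (Cp.ite h.cp_now2 (hv h.v2) (h.cp_g hp))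
  refine Cp.mono h1 le_rfl ?_
  nlinarith

theorem Comp.cp_ans (h : P.Comp N) :
    Cp (P.s + 2 + P.w) (90 * N ^ 3) (fun z M => P.ans z M) := by
  have hN := h.hN
  have h1 := cp_same (y := fun z _ => P.v z) (fun p hp => h.cp_nxt hp)
    (fun i hi => (h.v i hi).mono (Nat.zero_le (P.s + 2 + P.w)) le_rfl)
  have h2 : Cp (P.s + 2 + P.w) (82 * N ^ 3) (fun z M => same P.s (P.nxt z M) (P.v z)) := by
    refine Cp.mono h1 le_rfl ?_
    calc P.s * (2 * (40 * N ^ 2) + 2 * N + 66) + 30 ≤ N * (2 * (40 * N ^ 2) + 2 * N + 66) + 30 := by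
          gcongr; exact h.hs
      _ = 80 * N ^ 3 + (2 * N ^ 2 + 66 * N + 30) := by ring
      _ ≤ 80 * N ^ 3 + 2 * N ^ 3 := by
          have : 2 * N ^ 2 + 66 * N + 30 ≤ 200 * N ^ 2 := by nlinarith
          have : 200 * N ^ 2 ≤ 2 * N * N ^ 2 := Nat.mul_le_mul_right _ (by omega)
          nlinarith
      _ = 82 * N ^ 3 := by ring
  refine ((h.skip.mono (Nat.zero_le (P.s + 2 + P.w)) le_rfl).or
    ((h.ok.mono (Nat.zero_le (P.s + 2 + P.w)) le_rfl).and (h.cp_nbad.not.and h2))).mono le_rfl ?_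
  have h3 : N + (N + (30 * N ^ 2 + 5 + 82 * N ^ 3 + 7) + 7) + 12 ≤ 82 * N ^ 3 + 31 * N ^ 2 := by
    nlinarith
  have h4 : 31 * N ^ 2 ≤ 8 * N * N ^ 2 := Nat.mul_le_mul_right _ (by omega)
  nlinarith

theorem Comp.cp_F (h : P.Comp N) {p : ℕ} (hp : p < P.s + 2 + P.w) :
    Cp (P.s + 2 + P.w) (100 * N ^ 3) (fun z M => P.F z M p) := by
  have hN := h.hN
  have hs3 := h.hs3
  have c0 := (h.cp_nbad.or (h.cp_nxt (p := 0) (by omega)))
  have c1 := (h.cp_nbad.or (h.cp_nxt (p := 1) (by omega)))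
  have e1 : 70 * N ^ 2 + 12 ≤ 71 * N ^ 2 := by nlinarith
  have e2 : 100 * N ^ 2 ≤ N * N ^ 2 := Nat.mul_le_mul_right _ (by omega)
  have e3 : N * N ^ 2 = N ^ 3 := by ring
  by_cases p0 : p = 0
  · refine (c0.congr fun z M => ?_).mono le_rfl (by omega)
    simp only [F, if_pos p0]
  by_cases p1 : p = 1
  · refine (c1.congr fun z M => ?_).mono le_rfl (by omega)
    simp only [F, if_neg p0, if_pos p1]
  by_cases p2 : p = 2
  · refine ((Cp.ite (c0.and c1) h.cp_ans (h.cp_nxt (p := 2) (by omega))).congr fun z M => ?_).mono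
      le_rfl (by omega)
    simp only [F, if_neg p0, if_neg p1, if_pos p2]
  by_cases ps : p < P.s
  · refine ((h.cp_nxt ps).congr fun z M => ?_).mono le_rfl (by omega)
    simp only [F, if_neg p0, if_neg p1, if_neg p2, if_pos ps]
  by_cases pe : p = P.s
  · refine ((Cp.true' _).congr fun z M => ?_).mono le_rfl (by omega)
    simp only [F, if_neg p0, if_neg p1, if_neg p2, if_neg ps, if_pos pe]
  by_cases pf : p = P.s + 1
  · refine (h.cp_nbad.congr fun z M => ?_).mono le_rfl (by omega)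
    simp only [F, if_neg p0, if_neg p1, if_neg p2, if_neg ps, if_neg pe, if_pos pf]
  · have h1 : ∀ i < P.w, Cp (P.s + 2 + P.w) 2 (fun _ M => M (P.s + 2 + i)) := fun i hi =>
      Cp.cell (by omega)
    have h2 := Cp.succBit h1 (p - (P.s + 2)) (by omega)
    refine (h2.congr fun z M => ?_).mono le_rfl ?_
    · simp only [F, if_neg p0, if_neg p1, if_neg p2, if_neg ps, if_neg pe, if_neg pf, if_pos hp]
      rfl
    · calc P.w * (2 + 50) + 2 * 2 + 200 ≤ N * (2 + 50) + 2 * 2 + 200 := by gcongr; exact h.hw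
        _ ≤ 100 * N ^ 2 := by nlinarith
        _ ≤ 100 * N ^ 3 := by omega

/-- the CHECK machine is computable by small code -/
theorem Comp.tr_F (h : P.Comp N) : Tr (P.s + 2 + P.w) (400 * N ^ 4) P.F := by
  have hN := h.hN
  have hs := h.hs
  have hw := h.hw
  refine (Tr.ofCp (fun q hq => h.cp_F hq)).mono ?_
  calc (P.s + 2 + P.w) * (100 * N ^ 3 + 3) + 1 ≤ (N + 2 + N) * (100 * N ^ 3 + 3) + 1 := by gcongr
    _ ≤ (3 * N) * (100 * N ^ 3 + 3) + 1 := by gcongr; omega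
    _ = 300 * N ^ 4 + (9 * N + 1) := by ring
    _ ≤ 300 * N ^ 4 + 100 * N ^ 4 := by
        have : N ^ 1 ≤ N ^ 4 := Nat.pow_le_pow_right (by omega) (by omega)
        rw [pow_one] at this
        omega
    _ = 400 * N ^ 4 := by ring

end ChkPar

end Pool.Agent.NUM
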