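import Mathlib

/-! Abstract recursive systems (call / return machines), big-step evaluation `Ev`, evaluation with
jumps `Rev`, simulations, and the abstract CHECK system. -/

namespace Pool.Agent.NUM

/-- outcome of one (macro) step of a recursive procedure with memory `M`, values `V`, stack
symbols `W`: return a value, go on with a new memory, or call. -/
inductive Out (M V W : Type) where
  | ret (v : V)
  | go (m : M)
  | call (m : M) (w : W)

/-- a recursive system: `out` from a memory; `res v w` is the memory with which the caller that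
pushed `w` is resumed when the called procedure returns `v`. -/
structure Sys (M V W : Type) where
  out : M → Out M V W
  res : V → W → M

variable {M V W : Type}

/-- big-step evaluation: started in memory `m` the procedure returns `v` after `k` steps. -/
inductive Sys.Ev (Y : Sys M V W) : ℕ → M → V → Prop
  | ret {m : M} {v : V} (hs : Y.out m = .ret v) : Sys.Ev Y 1 m v
  | go {m m' : M} {v : V} {k : ℕ} (hs : Y.out m = .go m')
      (h1 : Sys.Ev Y k m' v) : Sys.Ev Y (k + 1) m v
  | call {m m' : M} {w : W} {v1 v : V} {k1 k2 : ℕ} (hs : Y.out m = .call m' w)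
      (h1 : Sys.Ev Y k1 m' v1) (h2 : Sys.Ev Y k2 (Y.res v1 w) v) :
      Sys.Ev Y (k1 + k2 + 1) m v

/-- big-step evaluation with jumps: `J t = some (m, v)` means that at the (absolute, reduced)
time `t` the memory must be `m` and the procedure returns `v` at the cost of one step.
`Rev J t m v t'`: started at time `t` in memory `m` the procedure returns `v` at time `t'`. -/
inductive Sys.Rev (Y : Sys M V W) (J : ℕ → Option (M × V)) : ℕ → M → V → ℕ → Prop
  | jump {t : ℕ} {m : M} {v : V} (hJ : J t = some (m, v)) : Sys.Rev Y J t m v (t + 1)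
  | ret {t : ℕ} {m : M} {v : V} (hJ : J t = none)
      (hs : Y.out m = .ret v) : Sys.Rev Y J t m v (t + 1)
  | go {t t' : ℕ} {m m' : M} {v : V} (hJ : J t = none)
      (hs : Y.out m = .go m') (h1 : Sys.Rev Y J (t + 1) m' v t') :
      Sys.Rev Y J t m v t'
  | call {t t1 t2 : ℕ} {m m' : M} {w : W} {v1 v : V}
      (hJ : J t = none) (hs : Y.out m = .call m' w)
      (h1 : Sys.Rev Y J (t + 1) m' v1 t1) (h2 : Sys.Rev Y J t1 (Y.res v1 w) v t2) :
      Sys.Rev Y J t m v t2

theorem Sys.Ev.pos {Y : Sys M V W} {k : ℕ} {m : M} {v : V} (h : Y.Ev k m v) : 1 ≤ k := by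
  induction h <;> omega

/-- every returned value is produced by a `ret` step. -/
theorem Sys.Ev.val {Y : Sys M V W} {k : ℕ} {m : M} {v : V}
    (h : Y.Ev k m v) : ∃ m', Y.out m' = .ret v := by
  induction h with
  | ret hs => exact ⟨_, hs⟩
  | go hs _ ih => exact ih
  | call hs _ _ ih1 ih2 => exact ih2

theorem Sys.Ev.det {Y : Sys M V W} {k k' : ℕ} {m : M} {v v' : V}
    (h : Y.Ev k m v) (h' : Y.Ev k' m v') : k = k' ∧ v = v' := by
  induction h generalizing k' v' with
  | ret hs =>
    cases h' with
    | ret hs' => rw [hs] at hs'; cases hs'; exact ⟨rfl, rfl⟩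
    | go hs' _ => rw [hs] at hs'; cases hs'
    | call hs' _ _ => rw [hs] at hs'; cases hs'
  | go hs _ ih =>
    cases h' with
    | ret hs' => rw [hs] at hs'; cases hs'
    | go hs' h1 =>
      rw [hs] at hs'; cases hs'
      obtain ⟨rfl, rfl⟩ := ih h1
      exact ⟨rfl, rfl⟩
    | call hs' _ _ => rw [hs] at hs'; cases hs'
  | call hs _ _ ih1 ih2 =>
    cases h' with
    | ret hs' => rw [hs] at hs'; cases hs'
    | go hs' _ => rw [hs] at hs'; cases hs'
    | call hs' h1 h2 =>
      rw [hs] at hs'; cases hs'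
      obtain ⟨rfl, rfl⟩ := ih1 h1
      obtain ⟨rfl, rfl⟩ := ih2 h2
      exact ⟨rfl, rfl⟩

/-- an invariant of the memories passes to the returned value. -/
theorem Sys.Ev.inv {Y : Sys M V W} {PM : M → Prop} {PV : V → Prop} {PW : W → Prop}
    (h1 : ∀ m v, PM m → Y.out m = .ret v → PV v)
    (h2 : ∀ m m', PM m → Y.out m = .go m' → PM m')
    (h3 : ∀ m m' w, PM m → Y.out m = .call m' w → PM m' ∧ PW w)
    (h4 : ∀ v w, PV v → PW w → PM (Y.res v w)) {k : ℕ} {m : M} {v : V} (h : Y.Ev k m v)
    (hm : PM m) : PV v := by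
  induction h with
  | ret hs => exact h1 _ _ hm hs
  | go hs _ ih => exact ih (h2 _ _ hm hs)
  | call hs _ _ ih1 ih2 => exact ih2 (h4 _ _ (ih1 (h3 _ _ _ hm hs).1) (h3 _ _ _ hm hs).2)

theorem Sys.Rev.lt {Y : Sys M V W} {J : ℕ → Option (M × V)} {t t' : ℕ} {m : M} {v : V}
    (h : Y.Rev J t m v t') : t < t' := by
  induction h <;> omega

theorem Sys.Rev.det {Y : Sys M V W} {J : ℕ → Option (M × V)} {t t' t'' : ℕ} {m : M} {v v' : V}
    (h : Y.Rev J t m v t') (h' : Y.Rev J t m v' t'') : t' = t'' ∧ v = v' := by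
  induction h generalizing t'' v' with
  | jump hJ =>
    cases h' with
    | jump hJ' => rw [hJ] at hJ'; cases hJ'; exact ⟨rfl, rfl⟩
    | ret hJ' _ => rw [hJ] at hJ'; cases hJ'
    | go hJ' _ _ => rw [hJ] at hJ'; cases hJ'
    | call hJ' _ _ _ => rw [hJ] at hJ'; cases hJ'
  | ret hJ hs =>
    cases h' with
    | jump hJ' => rw [hJ] at hJ'; cases hJ'
    | ret _ hs' => rw [hs] at hs'; cases hs'; exact ⟨rfl, rfl⟩
    | go _ hs' _ => rw [hs] at hs'; cases hs'
    | call _ hs' _ _ => rw [hs] at hs'; cases hs'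
  | go hJ hs _ ih =>
    cases h' with
    | jump hJ' => rw [hJ] at hJ'; cases hJ'
    | ret _ hs' => rw [hs] at hs'; cases hs'
    | go _ hs' h1 => rw [hs] at hs'; cases hs'; exact ih h1
    | call _ hs' _ _ => rw [hs] at hs'; cases hs'
  | call hJ hs _ _ ih1 ih2 =>
    cases h' with
    | jump hJ' => rw [hJ] at hJ'; cases hJ'
    | ret _ hs' => rw [hs] at hs'; cases hs'
    | go _ hs' _ => rw [hs] at hs'; cases hs'
    | call _ hs' h1 h2 =>
      rw [hs] at hs'; cases hs'
      obtain ⟨rfl, rfl⟩ := ih1 h1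
      exact ih2 h2

/-- only the jumps at times in `[t, t')` matter. -/
theorem Sys.Rev.congr {Y : Sys M V W} {J J' : ℕ → Option (M × V)} {t t' : ℕ} {m : M} {v : V}
    (h : Y.Rev J t m v t') (hJ : ∀ u, t ≤ u → u < t' → J u = J' u) : Y.Rev J' t m v t' := by
  induction h with
  | jump h1 => exact .jump (by rw [← hJ _ le_rfl (by omega), h1])
  | ret h1 hs => exact .ret (by rw [← hJ _ le_rfl (by omega), h1]) hs
  | go h1 hs h2 ih =>
    have := h2.lt
    exact .go (by rw [← hJ _ le_rfl (by omega), h1]) hs (ih fun u hu hu' => hJ u (by omega) hu')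
  | call h1 hs h2 h3 ih1 ih2 =>
    have := h2.lt
    have := h3.lt
    exact .call (by rw [← hJ _ le_rfl (by omega), h1]) hs
      (ih1 fun u hu hu' => hJ u (by omega) (by omega))
      (ih2 fun u hu hu' => hJ u (by omega) (by omega))

/-- shift of the time. -/
theorem Sys.Rev.shift {Y : Sys M V W} {J J' : ℕ → Option (M × V)} {t t' : ℕ} {m : M} {v : V}
    (h : Y.Rev J t m v t') (d : ℕ) (hJ : ∀ u, t ≤ u → u < t' → J u = J' (u + d)) :
    Y.Rev J' (t + d) m v (t' + d) := by
  induction h with
  | @jump t m v h1 =>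
    have := Sys.Rev.jump (Y := Y) (J := J') (t := t + d) (m := m) (v := v)
      (by rw [← hJ _ le_rfl (by omega), h1])
    rwa [show t + 1 + d = t + d + 1 by omega]
  | @ret t m v h1 hs =>
    have := Sys.Rev.ret (Y := Y) (J := J') (t := t + d) (m := m) (v := v)
      (by rw [← hJ _ le_rfl (by omega), h1]) hs
    rwa [show t + 1 + d = t + d + 1 by omega]
  | @go t t' m m' v h1 hs h2 ih =>
    have := h2.lt
    have h := ih fun u hu hu' => hJ u (by omega) hu'
    rw [show t + 1 + d = t + d + 1 by omega] at h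
    exact .go (by rw [← hJ _ le_rfl (by omega), h1]) hs h
  | @call t t1 t2 m m' w v1 v h1 hs h2 h3 ih1 ih2 =>
    have := h2.lt
    have := h3.lt
    have h := ih1 fun u hu hu' => hJ u (by omega) (by omega)
    rw [show t + 1 + d = t + d + 1 by omega] at h
    exact .call (by rw [← hJ _ le_rfl (by omega), h1]) hs h
      (ih2 fun u hu hu' => hJ u (by omega) (by omega))

/-- without jumps `Rev` is `Ev`. -/
theorem Sys.Ev.rev {Y : Sys M V W} {k : ℕ} {m : M} {v : V} (h : Y.Ev k m v)
    {J : ℕ → Option (M × V)} {t : ℕ} (hJ : ∀ u, t ≤ u → u < t + k → J u = none) :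
    Y.Rev J t m v (t + k) := by
  induction h generalizing t with
  | ret hs => exact .ret (hJ _ le_rfl (by omega)) hs
  | @go m m' v k hs h1 ih =>
    have := ih (t := t + 1) fun u hu hu' => hJ u (by omega) (by omega)
    rw [show t + 1 + k = t + (k + 1) by omega] at this
    exact .go (hJ _ le_rfl (by omega)) hs this
  | @call m m' w v1 v k1 k2 hs h1 h2 ih1 ih2 =>
    have h1' := ih1 (t := t + 1) fun u hu hu' => hJ u (by omega) (by omega)
    have h2' := ih2 (t := t + 1 + k1) fun u hu hu' => hJ u (by omega) (by omega)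
    rw [show t + 1 + k1 + k2 = t + (k1 + k2 + 1) by omega] at h2'
    exact .call (hJ _ le_rfl (by omega)) hs h1' h2'

/-- an evaluation with jumps all of which are real is an evaluation (of some length). -/
theorem Sys.Rev.ev {Y : Sys M V W} {J : ℕ → Option (M × V)} {t t' : ℕ} {m : M}
    {v : V} (h : Y.Rev J t m v t')
    (hJ : ∀ u b, t ≤ u → u < t' → J u = some b → ∃ T, Y.Ev T b.1 b.2) : ∃ T, Y.Ev T m v := by
  induction h with
  | jump h1 => exact hJ _ _ le_rfl (by omega) h1
  | ret _ hs => exact ⟨_, .ret hs⟩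
  | go _ hs h1 ih =>
    have := h1.lt
    obtain ⟨T, hT⟩ := ih fun u b hu hu' => hJ u b (by omega) hu'
    exact ⟨_, .go hs hT⟩
  | call _ hs h1 h2 ih1 ih2 =>
    have := h1.lt
    have := h2.lt
    obtain ⟨T1, hT1⟩ := ih1 fun u b hu hu' => hJ u b (by omega) (by omega)
    obtain ⟨T2, hT2⟩ := ih2 fun u b hu hu' => hJ u b (by omega) (by omega)
    exact ⟨_, .call hs hT1 hT2⟩

/-! ## Simulation -/

variable {M' V' W' : Type}

/-- two outcomes correspond to each other. -/
inductive Out.Rel (RM : M → M' → Prop) (RV : V → V' → Prop) (RW : W → W' → Prop) :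
    Out M V W → Out M' V' W' → Prop
  | ret {v : V} {v' : V'} (h : RV v v') : Out.Rel RM RV RW (.ret v) (.ret v')
  | go {m : M} {m' : M'} (h : RM m m') : Out.Rel RM RV RW (.go m) (.go m')
  | call {m : M} {m' : M'} {w : W} {w' : W'} (h : RM m m') (hw : RW w w') :
      Out.Rel RM RV RW (.call m w) (.call m' w')

/-- generic simulation lemma: the same number of steps and related values. -/
theorem Sys.Ev.sim {Y : Sys M V W} {Y' : Sys M' V' W'} {RM : M → M' → Prop} {RV : V → V' → Prop}
    {RW : W → W' → Prop} (hout : ∀ m m', RM m m' → Out.Rel RM RV RW (Y.out m) (Y'.out m'))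
    (hres : ∀ v v' w w', RV v v' → RW w w' → RM (Y.res v w) (Y'.res v' w'))
    {k : ℕ} {m : M} {v : V} (h : Y.Ev k m v) {m' : M'} (hm : RM m m') :
    ∃ v', Y'.Ev k m' v' ∧ RV v v' := by
  induction h generalizing m' with
  | @ret m v hs =>
    have := hout _ _ hm
    rw [hs] at this
    generalize ho : Y'.out m' = o at this
    cases this with
    | ret h => exact ⟨_, .ret ho, h⟩
  | @go m m1 v k hs _ ih =>
    have := hout _ _ hm
    rw [hs] at this
    generalize ho : Y'.out m' = o at this
    cases this with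
    | go h =>
      obtain ⟨v', hv, hv'⟩ := ih h
      exact ⟨v', .go ho hv, hv'⟩
  | @call m m1 w v1 v k1 k2 hs _ _ ih1 ih2 =>
    have := hout _ _ hm
    rw [hs] at this
    generalize ho : Y'.out m' = o at this
    cases this with
    | call h hw =>
      obtain ⟨v1', hv1, hv1'⟩ := ih1 h
      obtain ⟨v', hv, hv'⟩ := ih2 (hres _ _ _ _ hv1' hw)
      exact ⟨v', .call ho hv1 hv, hv'⟩

/-! ## The abstract CHECK system -/

open Classical in
/-- one step of the CHECK system: `some (t, m)` is a state at time `t` with memory `m`, `none` is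
the bad state (which returns through all callers). -/
noncomputable def chkOut (Y : Sys M V W) (J : ℕ → Option (M × V)) (lim : ℕ) :
    Option (ℕ × M) → Out (Option (ℕ × M)) (Option (ℕ × V)) W
  | none => .ret none
  | some (t, m) =>
    if lim ≤ t then .ret none else
      match J t with
      | some (mj, vj) => if m = mj then .ret (some (t + 1, vj)) else .ret none
      | none =>
        match Y.out m with
        | .ret v => .ret (some (t + 1, v))
        | .go m' => .go (some (t + 1, m'))
        | .call m' w => .call (some (t + 1, m')) w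

/-- the CHECK system of `Y` with jumps `J` and time limit `lim`. -/
noncomputable def chk (Y : Sys M V W) (J : ℕ → Option (M × V)) (lim : ℕ) :
    Sys (Option (ℕ × M)) (Option (ℕ × V)) W where
  out := chkOut Y J lim
  res := fun v w => v.map fun p => (p.1, Y.res p.2 w)

theorem chk_ev_none {Y : Sys M V W} {J : ℕ → Option (M × V)} {lim : ℕ} :
    (chk Y J lim).Ev 1 none none := .ret rfl

/-- total correctness of the CHECK system. -/
theorem chk_total (Y : Sys M V W) (J : ℕ → Option (M × V)) (lim : ℕ) (t : ℕ) (m : M) :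
    ∃ k c, (chk Y J lim).Ev k (some (t, m)) c ∧ k ≤ 2 * (lim - t) + 1 ∧
      (∀ t' v, c = some (t', v) → Y.Rev J t m v t' ∧ t' ≤ lim ∧ t' = t + k) ∧
      (c = none → ∀ t' v, Y.Rev J t m v t' → lim < t') := by
  induction hd : lim - t using Nat.strong_induction_on generalizing t m with
  | _ d ih =>
  by_cases hlim : lim ≤ t
  · refine ⟨1, none, .ret ?_, by omega, by simp, ?_⟩
    · simp [chk, chkOut, hlim]
    · intro _ t' v h
      have := h.lt
      omega
  have hout : (chk Y J lim).out (some (t, m)) = chkOut Y J lim (some (t, m)) := rfl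
  rcases hJ : J t with _ | ⟨mj, vj⟩
  · rcases hs : Y.out m with v | m' | ⟨m', w⟩
    · refine ⟨1, some (t + 1, v), .ret ?_, by omega, ?_, by simp⟩
      · rw [hout]; simp [chkOut, hlim, hJ, hs]
      · rintro t' v' h
        simp only [Option.some.injEq, Prod.mk.injEq] at h
        obtain ⟨rfl, rfl⟩ := h
        exact ⟨.ret hJ hs, by omega, rfl⟩
    · obtain ⟨k, c, h1, h2, h3, h4⟩ := ih (lim - (t + 1)) (by omega) (t + 1) m' rfl
      refine ⟨k + 1, c, .go (m' := some (t + 1, m')) ?_ h1, by omega, ?_, ?_⟩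
      · rw [hout]; simp [chkOut, hlim, hJ, hs]
      · intro t' v hc
        obtain ⟨g1, g2, g3⟩ := h3 t' v hc
        exact ⟨.go hJ hs g1, g2, by omega⟩
      · intro hc t' v hR
        cases hR with
        | jump hJ' => rw [hJ] at hJ'; cases hJ'
        | ret _ hs' => rw [hs] at hs'; cases hs'
        | go _ hs' g => rw [hs] at hs'; cases hs'; exact h4 hc _ _ g
        | call _ hs' _ _ => rw [hs] at hs'; cases hs'
    · obtain ⟨k1, c1, h1, h2, h3, h4⟩ := ih (lim - (t + 1)) (by omega) (t + 1) m' rfl
      have hstep : (chk Y J lim).out (some (t, m)) = .call (some (t + 1, m')) w := by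
        rw [hout]; simp [chkOut, hlim, hJ, hs]
      rcases hc1 : c1 with _ | ⟨t1, v1⟩
      · refine ⟨k1 + 1 + 1, none, .call (v1 := none) hstep (hc1 ▸ h1) ?_, by omega, by simp, ?_⟩
        · exact chk_ev_none
        · intro _ t' v hR
          cases hR with
          | jump hJ' => rw [hJ] at hJ'; cases hJ'
          | ret _ hs' => rw [hs] at hs'; cases hs'
          | go _ hs' g => rw [hs] at hs'; cases hs'
          | call _ hs' g1 g2 =>
            rw [hs] at hs'; cases hs'
            have := h4 hc1 _ _ g1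
            have := g2.lt
            omega
      · obtain ⟨r1, r2, r3⟩ := h3 t1 v1 hc1
        have hk1 := h1.pos
        obtain ⟨k2, c2, e1, e2, e3, e4⟩ := ih (lim - t1) (by omega) t1 (Y.res v1 w) rfl
        refine ⟨k1 + k2 + 1, c2, .call (v1 := some (t1, v1)) hstep (hc1 ▸ h1) e1, by omega, ?_, ?_⟩
        · intro t' v hc
          obtain ⟨g1, g2, g3⟩ := e3 t' v hc
          exact ⟨.call hJ hs r1 g1, g2, by omega⟩
        · intro hc t' v hR
          cases hR with
          | jump hJ' => rw [hJ] at hJ'; cases hJ'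
          | ret _ hs' => rw [hs] at hs'; cases hs'
          | go _ hs' g => rw [hs] at hs'; cases hs'
          | call _ hs' g1 g2 =>
            rw [hs] at hs'; cases hs'
            obtain ⟨rfl, rfl⟩ := r1.det g1
            exact e4 hc _ _ g2
  · by_cases hm : m = mj
    · refine ⟨1, some (t + 1, vj), .ret ?_, by omega, ?_, by simp⟩
      · rw [hout]; simp [chkOut, hlim, hJ, hm]
      · rintro t' v' h
        simp only [Option.some.injEq, Prod.mk.injEq] at h
        obtain ⟨rfl, rfl⟩ := h
        exact ⟨.jump (by rw [hJ, hm]), by omega, rfl⟩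
    · refine ⟨1, none, .ret ?_, by omega, by simp, ?_⟩
      · rw [hout]; simp [chkOut, hlim, hJ, hm]
      · intro _ t' v hR
        cases hR with
        | jump hJ' => rw [hJ] at hJ'; cases hJ'; exact (hm rfl).elim
        | ret hJ' _ => rw [hJ] at hJ'; cases hJ'
        | go hJ' _ _ => rw [hJ] at hJ'; cases hJ'
        | call hJ' _ _ _ => rw [hJ] at hJ'; cases hJ'

end Pool.Agent.NUM
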