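import Pool.Agent.NUM.Basic
import Pool.Agent.NUM.Sys

/-!
# The concrete machines as recursive systems

`sys f` is the recursive system (memories `Mem`, values `Mem`, stack symbols `Bool`) of the step
function `f`; its big step semantics is `Ev f`, and `run` is expressed by it.
-/

namespace Pool.Agent.NUM

/-- the recursive system of a step function -/
def sys (f : Mem → Mem) : Sys Mem Mem Bool where
  out := fun M =>
    if f M 0 = true then (if f M 1 = true then .ret (f M) else .call (f M) (f M 2)) else .go (f M)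
  res := fun V b => Function.update V 2 b

@[simp] theorem sys_res (f : Mem → Mem) (V : Mem) (b : Bool) :
    (sys f).res V b = Function.update V 2 b := rfl

theorem sys_out (f : Mem → Mem) (M : Mem) : (sys f).out M =
    if f M 0 = true then (if f M 1 = true then .ret (f M) else .call (f M) (f M 2))
      else .go (f M) := rfl

theorem sys_out_ret {f : Mem → Mem} {M : Mem} (h0 : f M 0 = true) (h1 : f M 1 = true) :
    (sys f).out M = .ret (f M) := by rw [sys_out, if_pos h0, if_pos h1]

theorem sys_out_call {f : Mem → Mem} {M : Mem} (h0 : f M 0 = true) (h1 : f M 1 = false) :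
    (sys f).out M = .call (f M) (f M 2) := by
  rw [sys_out, if_pos h0, if_neg (by rw [h1]; exact Bool.false_ne_true)]

theorem sys_out_go {f : Mem → Mem} {M : Mem} (h0 : f M 0 = false) :
    (sys f).out M = .go (f M) := by
  rw [sys_out, if_neg (by rw [h0]; exact Bool.false_ne_true)]

theorem sys_out_eq_ret {f : Mem → Mem} {M V : Mem} (h : (sys f).out M = .ret V) :
    f M 0 = true ∧ f M 1 = true ∧ V = f M := by
  rw [sys_out] at h
  split_ifs at h with h0 h1
  · cases h; exact ⟨h0, h1, rfl⟩

theorem sys_out_eq_go {f : Mem → Mem} {M M' : Mem} (h : (sys f).out M = .go M') :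
    f M 0 = false ∧ M' = f M := by
  rw [sys_out] at h
  split_ifs at h with h0 h1
  · cases h; exact ⟨by simpa using h0, rfl⟩

theorem sys_out_eq_call {f : Mem → Mem} {M M' : Mem} {b : Bool}
    (h : (sys f).out M = .call M' b) :
    f M 0 = true ∧ f M 1 = false ∧ M' = f M ∧ b = f M 2 := by
  rw [sys_out] at h
  split_ifs at h with h0 h1
  · cases h; exact ⟨h0, by simpa using h1, rfl, rfl⟩

theorem Ev.toSys {f : Mem → Mem} {k : ℕ} {M V : Mem} (h : Ev f k M V) : (sys f).Ev k M V := by
  induction h with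
  | halt h0 h1 => exact .ret (sys_out_ret h0 h1)
  | go h0 _ ih => exact .go (sys_out_go h0) ih
  | push h0 h1 _ _ ih1 ih2 => exact .call (sys_out_call h0 h1) ih1 ih2

theorem Ev.ofSys {f : Mem → Mem} {k : ℕ} {M V : Mem} (h : (sys f).Ev k M V) : Ev f k M V := by
  induction h with
  | ret hs =>
    obtain ⟨h0, h1, rfl⟩ := sys_out_eq_ret hs
    exact .halt h0 h1
  | go hs _ ih =>
    obtain ⟨h0, rfl⟩ := sys_out_eq_go hs
    exact .go h0 ih
  | call hs _ _ ih1 ih2 =>
    obtain ⟨h0, h1, rfl, rfl⟩ := sys_out_eq_call hs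
    exact .push h0 h1 ih1 ih2

/-- the big step semantics of the concrete machine is the one of its recursive system -/
theorem ev_iff_sys {f : Mem → Mem} {k : ℕ} {M V : Mem} : Ev f k M V ↔ (sys f).Ev k M V :=
  ⟨Ev.toSys, Ev.ofSys⟩

/-- `run` from the empty stack, in terms of the recursive system -/
theorem run_nil_iff_sys {f : Mem → Mem} {T : ℕ} {M : Mem} {b : Bool} :
    run f T M [] = some b ↔ ∃ k ≤ T, ∃ V, (sys f).Ev k M V ∧ V 2 = b := by
  rw [run_nil_iff]
  constructor
  · rintro ⟨k, V, hk, h, hb⟩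
    exact ⟨k, hk, V, h.toSys, hb⟩
  · rintro ⟨k, hk, V, h, hb⟩
    exact ⟨k, V, hk, Ev.ofSys h, hb⟩

/-- `Decides` from the recursive system -/
theorem decides_of_sys {G : List Ins} {B T : ℕ} {P : Inp → Prop}
    (h : ∀ z, Supp B z → ∃ k ≤ T, ∃ V, (sys (eval G z)).Ev k zeroMem V ∧ (V 2 = true ↔ P z)) :
    Decides G B T P := by
  intro z hz
  obtain ⟨k, hk, V, hE, hP⟩ := h z hz
  exact ⟨V 2, run_nil_iff_sys.2 ⟨k, hk, V, hE, rfl⟩, hP⟩

/-- the recursive system from `Decides` -/
theorem Decides.to_sys {G : List Ins} {B T : ℕ} {P : Inp → Prop} (h : Decides G B T P) {z : Inp}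
    (hz : Supp B z) : ∃ k ≤ T, ∃ V, (sys (eval G z)).Ev k zeroMem V ∧ (V 2 = true ↔ P z) := by
  obtain ⟨b, hb, hP⟩ := h z hz
  obtain ⟨k, hk, V, hE, rfl⟩ := run_nil_iff_sys.1 hb
  exact ⟨k, hk, V, hE, hP⟩

/-- all values of the recursive system have the two operation cells set -/
theorem sys_ev_final {f : Mem → Mem} {k : ℕ} {M V : Mem} (h : (sys f).Ev k M V) :
    V 0 = true ∧ V 1 = true := (Ev.ofSys h).final

end Pool.Agent.NUM
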