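import Pool.Agent.NUM.Basic
import Pool.Agent.NUM.Sys
import Pool.Agent.NUM.RunEv

/-! The concrete CHECK machine as a function `Inp → Mem → Mem`: definitions. -/

namespace Pool.Agent.NUM

/-- data of the CHECK machine: `s` cells of the simulated machine with step `g`, counter with `w`
bits, time limit `lim`; the bits of the claimed start memory `m`, final memory `v`, of the two
quoted pairs and of the two quotation times are functions of the input. -/
structure ChkPar where
  (s w lim : ℕ)
  g : Inp → Mem → Mem
  (m v m1 v1 m2 v2 t1 t2 : Inp → ℕ → Bool)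
  (h1 h2 skip ok : Inp → Bool)

namespace ChkPar

variable (P : ChkPar)

/-- cut a sequence of bits to the first `s` cells -/
def cut (s : ℕ) (x : ℕ → Bool) : Mem := fun p => if p < s then x p else false

/-- final memories have the cells `0`, `1` set -/
def fix (x : Mem) : Mem := fun p => if p < 2 then true else x p

/-- the simulated step function: `g` on the cells below `s` -/
def step (z : Inp) (M : Mem) : Mem := fun p => if p < P.s then P.g z M p else M p

/-- the quotation times -/
def T1 (z : Inp) : ℕ := num P.w (P.t1 z)
def T2 (z : Inp) : ℕ := num P.w (P.t2 z)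

/-- the jumps -/
def J (z : Inp) (t : ℕ) : Option (Mem × Mem) :=
  if P.h1 z = true ∧ t = P.T1 z then some (cut P.s (P.m1 z), fix (cut P.s (P.v1 z)))
  else if P.h2 z = true ∧ t = P.T2 z then some (cut P.s (P.m2 z), fix (cut P.s (P.v2 z)))
  else none

/-- the predicate decided by the CHECK machine -/
def Pred (z : Inp) : Prop :=
  P.skip z = true ∨ (P.ok z = true ∧ ∃ t' ≤ P.lim,
    (sys (P.step z)).Rev (P.J z) 0 (cut P.s (P.m z)) (cut P.s (P.v z)) t')

/-- cell `s`: initialisation done -/
def mode (M : Mem) : Bool := M P.s
/-- cell `s + 1`: error -/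
def bad (M : Mem) : Bool := M (P.s + 1)
/-- the counter -/
def cnt (M : Mem) : ℕ := num P.w fun i => M (P.s + 2 + i)

/-- the simulated memory at the beginning of an iteration -/
def cur (z : Inp) (M : Mem) : Mem := cut P.s fun p => bif P.mode M then M p else P.m z p

/-- first quotation now -/
def now1 (z : Inp) (M : Mem) : Bool := P.h1 z && decide (P.cnt M = P.T1 z)
/-- second quotation now -/
def now2 (z : Inp) (M : Mem) : Bool := !P.now1 z M && (P.h2 z && decide (P.cnt M = P.T2 z))

/-- equality of the first `s` bits -/
def same (s : ℕ) (x y : ℕ → Bool) : Bool := (List.range s).all fun p => x p == y p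

/-- the new error bit -/
def nbad (z : Inp) (M : Mem) : Bool :=
  P.bad M || decide (P.cnt M = P.lim) || (P.now1 z M && !same P.s (P.cur z M) (P.m1 z)) ||
    (P.now2 z M && !same P.s (P.cur z M) (P.m2 z))

/-- the simulated memory at the end of the iteration -/
def nxt (z : Inp) (M : Mem) (p : ℕ) : Bool :=
  bif P.now1 z M then (if p < 2 then true else P.v1 z p)
  else bif P.now2 z M then (if p < 2 then true else P.v2 z p)
  else P.g z (P.cur z M) p

/-- the answer if the machine halts now -/
def ans (z : Inp) (M : Mem) : Bool :=
  P.skip z || (P.ok z && (!P.nbad z M && same P.s (P.nxt z M) (P.v z)))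

/-- one iteration of the CHECK machine -/
def F (z : Inp) (M : Mem) : Mem := fun p =>
  if p = 0 then P.nbad z M || P.nxt z M 0
  else if p = 1 then P.nbad z M || P.nxt z M 1
  else if p = 2 then
    (bif (P.nbad z M || P.nxt z M 0) && (P.nbad z M || P.nxt z M 1) then P.ans z M else P.nxt z M 2)
  else if p < P.s then P.nxt z M p
  else if p = P.s then true
  else if p = P.s + 1 then P.nbad z M
  else if p < P.s + 2 + P.w then (P.cnt M + 1).testBit (p - (P.s + 2))
  else M p

end ChkPar

end Pool.Agent.NUM
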