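import Pool.Agent.NUM.ChkDef

/-!
# The concrete CHECK machine simulates the abstract CHECK system
-/

namespace Pool.Agent.NUM

namespace ChkSemAux

theorem num_succ (n : ℕ) (g : ℕ → Bool) :
    num (n + 1) g = num n g + (if g n = true then 2 ^ n else 0) := by
  unfold num
  rw [Finset.sum_range_succ]

theorem num_testBit (n x : ℕ) : num n (fun i => x.testBit i) = x % 2 ^ n := by
  induction n with
  | zero => simp [num, Nat.mod_one]
  | succ n ih =>
    rw [num_succ, ih, Nat.mod_pow_succ]
    congr 1
    by_cases h : x.testBit n = true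
    · rw [if_pos h]
      have h1 : x / 2 ^ n % 2 = 1 := by
        rw [Nat.testBit_eq_decide_div_mod_eq] at h
        simpa using h
      rw [h1, mul_one]
    · rw [if_neg h]
      have h1 : x / 2 ^ n % 2 = 0 := by
        rw [Nat.testBit_eq_decide_div_mod_eq] at h
        have h2 : ¬ x / 2 ^ n % 2 = 1 := by simpa using h
        omega
      rw [h1, mul_zero]

theorem num_congr {n : ℕ} {g h : ℕ → Bool} (hgh : ∀ i < n, g i = h i) : num n g = num n h := by
  unfold num
  apply Finset.sum_congr rfl
  intro i hi
  rw [hgh i (Finset.mem_range.1 hi)]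

theorem num_false (n : ℕ) : num n (fun _ => false) = 0 := by simp [num]

theorem same_iff {s : ℕ} {x y : ℕ → Bool} :
    ChkPar.same s x y = true ↔ ∀ p < s, x p = y p := by
  simp [ChkPar.same, List.all_eq_true]

theorem cut_lt {s p : ℕ} (h : p < s) (x : ℕ → Bool) : ChkPar.cut s x p = x p := by
  simp [ChkPar.cut, h]

theorem cut_ge {s p : ℕ} (h : s ≤ p) (x : ℕ → Bool) : ChkPar.cut s x p = false := by
  simp [ChkPar.cut, Nat.not_lt.2 h]

/-- a memory without bits from `s` on is a cut memory iff the bits agree -/
theorem eq_cut_iff {s : ℕ} {x : Mem} (hx : ∀ p, s ≤ p → x p = false) (y : ℕ → Bool) :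
    x = ChkPar.cut s y ↔ ∀ p < s, x p = y p := by
  constructor
  · intro h p hp
    rw [h, cut_lt hp]
  · intro h
    funext p
    by_cases hp : p < s
    · rw [cut_lt hp, h p hp]
    · rw [cut_ge (by omega), hx p (by omega)]

end ChkSemAux

open ChkSemAux

namespace ChkPar

variable (P : ChkPar)

/-- correspondence of the memories -/
def RM (z : Inp) : Option (ℕ × Mem) → Mem → Prop
  | none, MC => P.bad MC = true
  | some (t, m), MC => P.bad MC = false ∧ t ≤ P.lim ∧ P.cnt MC = t ∧
      (∀ p, P.s ≤ p → m p = false) ∧ (P.mode MC = true → ∀ p < P.s, MC p = m p) ∧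
      (P.mode MC = false → ∀ p < P.s, m p = P.m z p)

/-- correspondence of the values -/
def RV (z : Inp) : Option (ℕ × Mem) → Mem → Prop
  | none, VC => P.bad VC = true ∧ (VC 2 = true ↔ P.skip z = true)
  | some (t, v), VC => P.bad VC = false ∧ P.mode VC = true ∧ t ≤ P.lim ∧ P.cnt VC = t ∧
      (∀ p, P.s ≤ p → v p = false) ∧ (∀ p < P.s, p ≠ 2 → VC p = v p) ∧
      (VC 2 = true ↔ (P.skip z = true ∨ (P.ok z = true ∧ v = cut P.s (P.v z))))

theorem F_zero (z : Inp) (M : Mem) : P.F z M 0 = (P.nbad z M || P.nxt z M 0) := by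
  simp [F]

theorem F_one (z : Inp) (M : Mem) : P.F z M 1 = (P.nbad z M || P.nxt z M 1) := by
  simp [F]

theorem F_two (z : Inp) (M : Mem) : P.F z M 2 =
    (bif (P.nbad z M || P.nxt z M 0) && (P.nbad z M || P.nxt z M 1) then P.ans z M
      else P.nxt z M 2) := by
  simp [F]

theorem F_mid {z : Inp} {M : Mem} {p : ℕ} (h3 : 3 ≤ p) (hp : p < P.s) :
    P.F z M p = P.nxt z M p := by
  unfold F
  rw [if_neg (by omega), if_neg (by omega), if_neg (by omega), if_pos hp]

theorem mode_F (hs : 3 ≤ P.s) (z : Inp) (M : Mem) : P.mode (P.F z M) = true := by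
  unfold mode F
  rw [if_neg (by omega), if_neg (by omega), if_neg (by omega), if_neg (by omega), if_pos rfl]

theorem bad_F (hs : 3 ≤ P.s) (z : Inp) (M : Mem) : P.bad (P.F z M) = P.nbad z M := by
  unfold bad F
  rw [if_neg (by omega), if_neg (by omega), if_neg (by omega), if_neg (by omega),
    if_neg (by omega), if_pos rfl]

theorem cnt_F (hs : 3 ≤ P.s) (z : Inp) (M : Mem) :
    P.cnt (P.F z M) = (P.cnt M + 1) % 2 ^ P.w := by
  rw [← ChkSemAux.num_testBit]
  unfold cnt
  apply ChkSemAux.num_congr
  intro i hi
  show P.F z M (P.s + 2 + i) = _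
  unfold F
  rw [if_neg (by omega), if_neg (by omega), if_neg (by omega), if_neg (by omega),
    if_neg (by omega), if_neg (by omega), if_pos (by omega), Nat.add_sub_cancel_left]
  rfl

/-- the current memory is the simulated one -/
theorem cur_eq {z : Inp} {t : ℕ} {m MC : Mem} (h : P.RM z (some (t, m)) MC) :
    P.cur z MC = m := by
  obtain ⟨-, -, -, h1, h2, h3⟩ := h
  funext p
  unfold cur
  by_cases hp : p < P.s
  · rw [cut_lt hp]
    cases hm : P.mode MC with
    | true => exact h2 hm p hp
    | false => exact (h3 hm p hp).symm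
  · rw [cut_ge (by omega), h1 p (by omega)]

/-- an iteration which finds an error returns -/
theorem out_bad (hs : 3 ≤ P.s) {z : Inp} {MC : Mem} (h : P.nbad z MC = true) :
    Out.Rel (P.RM z) (P.RV z) (· = ·) (.ret none) ((sys (P.F z)).out MC) := by
  have h0 : P.F z MC 0 = true := by rw [F_zero, h, Bool.true_or]
  have h1 : P.F z MC 1 = true := by rw [F_one, h, Bool.true_or]
  rw [sys_out_ret h0 h1]
  refine .ret ⟨by rw [bad_F P hs, h], ?_⟩
  rw [F_two, h]
  simp [ans, h]

/-- a memory after an iteration without error -/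
theorem RM_F (hs : 3 ≤ P.s) (hlim : P.lim < 2 ^ P.w) {z : Inp} {MC m' : Mem} {t : ℕ}
    (hc : P.cnt MC = t) (ht : t < P.lim) (hb : P.nbad z MC = false)
    (hm1 : ∀ p < P.s, m' p = P.nxt z MC p) (hm2 : ∀ p, P.s ≤ p → m' p = false)
    (h01 : P.nxt z MC 0 = false ∨ P.nxt z MC 1 = false) :
    P.RM z (some (t + 1, m')) (P.F z MC) := by
  refine ⟨by rw [bad_F P hs, hb], by omega, ?_, hm2, fun _ p hp => ?_, fun h => ?_⟩
  · rw [cnt_F P hs, hc, Nat.mod_eq_of_lt (by omega)]
  · rw [hm1 p hp]
    by_cases hp3 : 3 ≤ p
    · exact F_mid P hp3 hp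
    · obtain rfl | rfl | rfl : p = 0 ∨ p = 1 ∨ p = 2 := by omega
      · rw [F_zero, hb, Bool.false_or]
      · rw [F_one, hb, Bool.false_or]
      · rw [F_two, hb, Bool.false_or, Bool.false_or]
        rcases h01 with h | h
        · rw [h, Bool.false_and, cond_false]
        · rw [h, Bool.and_false, cond_false]
  · rw [mode_F P hs] at h
    exact absurd h (by simp)

/-- a value after an iteration without error -/
theorem RV_F (hs : 3 ≤ P.s) (hlim : P.lim < 2 ^ P.w) {z : Inp} {MC v' : Mem} {t : ℕ}
    (hc : P.cnt MC = t) (ht : t < P.lim) (hb : P.nbad z MC = false)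
    (hm1 : ∀ p < P.s, v' p = P.nxt z MC p) (hm2 : ∀ p, P.s ≤ p → v' p = false)
    (h0 : P.nxt z MC 0 = true) (h1 : P.nxt z MC 1 = true) :
    P.RV z (some (t + 1, v')) (P.F z MC) := by
  refine ⟨by rw [bad_F P hs, hb], mode_F P hs z MC, by omega, ?_, hm2, fun p hp hp2 => ?_, ?_⟩
  · rw [cnt_F P hs, hc, Nat.mod_eq_of_lt (by omega)]
  · rw [hm1 p hp]
    by_cases hp3 : 3 ≤ p
    · exact F_mid P hp3 hp
    · obtain rfl | rfl : p = 0 ∨ p = 1 := by omega
      · rw [F_zero, hb, Bool.false_or]
      · rw [F_one, hb, Bool.false_or]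
  · rw [F_two, hb, h0, h1, eq_cut_iff hm2]
    have h2 : (∀ p < P.s, v' p = P.v z p) ↔ same P.s (P.nxt z MC) (P.v z) = true := by
      rw [same_iff]
      constructor
      · intro h p hp
        rw [← hm1 p hp, h p hp]
      · intro h p hp
        rw [hm1 p hp, h p hp]
    rw [h2]
    simp [ans, hb]

open Classical in
/-- a jump -/
theorem out_jump (hs : 3 ≤ P.s) (hlim : P.lim < 2 ^ P.w) {z : Inp} {m MC : Mem} {t : ℕ}
    (hR : P.RM z (some (t, m)) MC) (ht : t < P.lim) (mj vj : Inp → ℕ → Bool)
    (hnb : P.nbad z MC = !same P.s (P.cur z MC) (mj z))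
    (hnx : ∀ p, P.nxt z MC p = if p < 2 then true else vj z p) :
    Out.Rel (P.RM z) (P.RV z) (· = ·)
      (if m = cut P.s (mj z) then .ret (some (t + 1, fix (cut P.s (vj z)))) else .ret none)
      ((sys (P.F z)).out MC) := by
  have hcur := P.cur_eq hR
  obtain ⟨-, -, hc, hm0, -, -⟩ := hR
  by_cases hm : m = cut P.s (mj z)
  · rw [if_pos hm]
    have hb : P.nbad z MC = false := by
      have : same P.s (P.cur z MC) (mj z) = true := by
        rw [hcur]
        exact same_iff.2 ((eq_cut_iff hm0 _).1 hm)
      rw [hnb, this, Bool.not_true]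
    have h0 : P.nxt z MC 0 = true := by rw [hnx, if_pos (by omega)]
    have h1 : P.nxt z MC 1 = true := by rw [hnx, if_pos (by omega)]
    rw [sys_out_ret (by rw [F_zero, h0, Bool.or_true]) (by rw [F_one, h1, Bool.or_true])]
    refine .ret (RV_F P hs hlim hc ht hb ?_ ?_ h0 h1)
    · intro p hp
      rw [hnx]
      unfold fix
      by_cases hp2 : p < 2
      · rw [if_pos hp2, if_pos hp2]
      · rw [if_neg hp2, if_neg hp2, cut_lt hp]
    · intro p hp
      unfold fix
      rw [if_neg (by omega), cut_ge hp]
  · rw [if_neg hm]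
    apply out_bad P hs
    have : ¬ same P.s (P.cur z MC) (mj z) = true := by
      rw [hcur]
      intro h
      exact hm ((eq_cut_iff hm0 _).2 (same_iff.1 h))
    rw [hnb]
    simpa using this

/-- one step of the simulation -/
theorem out_rel (hs : 3 ≤ P.s) (hlim : P.lim < 2 ^ P.w) (z : Inp) (m : Option (ℕ × Mem))
    (MC : Mem) (hR : P.RM z m MC) :
    Out.Rel (P.RM z) (P.RV z) (· = ·) ((chk (sys (P.step z)) (P.J z) P.lim).out m)
      ((sys (P.F z)).out MC) := by
  rcases m with _ | ⟨t, m⟩
  · refine out_bad P hs ?_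
    have : P.bad MC = true := hR
    simp [nbad, this]
  · have hR' := hR
    obtain ⟨hbad, htl, hc, hm0, -, -⟩ := hR'
    have hcur := P.cur_eq hR
    show Out.Rel _ _ _ (chkOut (sys (P.step z)) (P.J z) P.lim (some (t, m))) _
    unfold chkOut
    by_cases hl : P.lim ≤ t
    · simp only [if_pos hl]
      refine out_bad P hs ?_
      have : P.cnt MC = P.lim := by omega
      simp [nbad, this]
    · simp only [if_neg hl]
      have ht : t < P.lim := by omega
      have hcl : decide (P.cnt MC = P.lim) = false := by simp; omega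
      by_cases hj1 : P.h1 z = true ∧ t = P.T1 z
      · have hn1 : P.now1 z MC = true := by
          unfold now1
          rw [hc, hj1.1, ← hj1.2]; simp
        have hn2 : P.now2 z MC = false := by unfold now2; rw [hn1]; rfl
        have hJ : P.J z t = some (cut P.s (P.m1 z), fix (cut P.s (P.v1 z))) := by
          unfold J; rw [if_pos hj1]
        rw [hJ]
        refine P.out_jump hs hlim hR ht P.m1 P.v1 ?_ ?_
        · unfold nbad; rw [hbad, hcl, hn1, hn2]; simp
        · intro p; unfold nxt; rw [hn1, cond_true]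
      · have hn1 : P.now1 z MC = false := by
          unfold now1
          rw [hc]
          rcases Bool.eq_false_or_eq_true (P.h1 z) with h | h
          · have : t ≠ P.T1 z := fun h' => hj1 ⟨h, h'⟩
            simp [this]
          · simp [h]
        by_cases hj2 : P.h2 z = true ∧ t = P.T2 z
        · have hn2 : P.now2 z MC = true := by
            unfold now2
            rw [hn1, hc, hj2.1, ← hj2.2]; simp
          have hJ : P.J z t = some (cut P.s (P.m2 z), fix (cut P.s (P.v2 z))) := by
            unfold J; rw [if_neg hj1, if_pos hj2]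
          rw [hJ]
          refine P.out_jump hs hlim hR ht P.m2 P.v2 ?_ ?_
          · unfold nbad; rw [hbad, hcl, hn1, hn2]; simp
          · intro p; unfold nxt; rw [hn1, hn2, cond_false, cond_true]
        · have hn2 : P.now2 z MC = false := by
            unfold now2
            rw [hn1, hc]
            rcases Bool.eq_false_or_eq_true (P.h2 z) with h | h
            · have : t ≠ P.T2 z := fun h' => hj2 ⟨h, h'⟩
              simp [this]
            · simp [h]
          have hJ : P.J z t = none := by unfold J; rw [if_neg hj1, if_neg hj2]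
          rw [hJ]
          have hb : P.nbad z MC = false := by unfold nbad; rw [hbad, hcl, hn1, hn2]; simp
          have hnx : ∀ p, P.nxt z MC p = P.g z m p := by
            intro p; unfold nxt; rw [hn1, hn2, hcur, cond_false, cond_false]
          have hst : ∀ p < P.s, P.step z m p = P.nxt z MC p := by
            intro p hp; unfold step; rw [if_pos hp, hnx]
          have hst' : ∀ p, P.s ≤ p → P.step z m p = false := by
            intro p hp; unfold step; rw [if_neg (by omega), hm0 p hp]
          have e0 := hst 0 (by omega)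
          have e1 := hst 1 (by omega)
          have e2 := hst 2 (by omega)
          have f0 : P.F z MC 0 = P.step z m 0 := by rw [F_zero, hb, Bool.false_or, e0]
          have f1 : P.F z MC 1 = P.step z m 1 := by rw [F_one, hb, Bool.false_or, e1]
          cases h0 : P.step z m 0 with
          | false =>
            rw [sys_out_go (f := P.step z) h0, sys_out_go (by rw [f0, h0])]
            exact .go (RM_F P hs hlim hc ht hb hst hst' (Or.inl (by rw [← e0, h0])))
          | true =>
            cases h1 : P.step z m 1 with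
            | false =>
              rw [sys_out_call (f := P.step z) h0 h1,
                sys_out_call (by rw [f0, h0]) (by rw [f1, h1])]
              refine .call (RM_F P hs hlim hc ht hb hst hst' (Or.inr (by rw [← e1, h1]))) ?_
              rw [F_two, hb, Bool.false_or, Bool.false_or, ← e0, ← e1, h0, h1, Bool.true_and,
                cond_false, e2]
            | true =>
              rw [sys_out_ret (f := P.step z) h0 h1,
                sys_out_ret (by rw [f0, h0]) (by rw [f1, h1])]
              exact .ret (RV_F P hs hlim hc ht hb hst hst' (by rw [← e0, h0])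
                (by rw [← e1, h1]))

/-- return to the caller -/
theorem res_rel (hs : 3 ≤ P.s) (z : Inp) (v : Option (ℕ × Mem)) (VC : Mem) (w w' : Bool)
    (hR : P.RV z v VC) (hw : w = w') :
    P.RM z ((chk (sys (P.step z)) (P.J z) P.lim).res v w) ((sys (P.F z)).res VC w') := by
  subst hw
  have hne : ∀ p, P.s ≤ p → Function.update VC 2 w p = VC p := fun p hp =>
    Function.update_of_ne (by omega) _ _
  rcases v with _ | ⟨t, v⟩
  · show Function.update VC 2 w (P.s + 1) = true
    rw [hne _ (by omega)]
    exact hR.1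
  · obtain ⟨h1, h2, h3, h4, h5, h6, -⟩ := hR
    refine ⟨?_, h3, ?_, ?_, ?_, ?_⟩
    · show Function.update VC 2 w (P.s + 1) = false
      rw [hne _ (by omega)]
      exact h1
    · rw [← h4]
      apply ChkSemAux.num_congr
      intro i _
      exact hne _ (by omega)
    · intro p hp
      show Function.update v 2 w p = false
      rw [Function.update_of_ne (by omega), h5 p hp]
    · intro _ p hp
      show Function.update VC 2 w p = Function.update v 2 w p
      by_cases hp2 : p = 2
      · subst hp2; rw [Function.update_self, Function.update_self]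
      · rw [Function.update_of_ne hp2, Function.update_of_ne hp2, h6 p hp hp2]
    · intro h
      have h' : Function.update VC 2 w P.s = false := h
      rw [hne _ le_rfl] at h'
      have h2' : VC P.s = true := h2
      rw [h2'] at h'
      exact absurd h' (by simp)

/-- The CHECK machine decides `Pred`, within `2 lim + 1` steps. -/
theorem chk_sem (hs : 3 ≤ P.s) (hlim : P.lim < 2 ^ P.w) (z : Inp) :
    ∃ k V, Ev (P.F z) k zeroMem V ∧ k ≤ 2 * P.lim + 1 ∧ (V 2 = true ↔ P.Pred z) := by
  obtain ⟨k, c, hE, hk, hsome, hnone⟩ :=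
    chk_total (sys (P.step z)) (P.J z) P.lim 0 (cut P.s (P.m z))
  have hinit : P.RM z (some (0, cut P.s (P.m z))) zeroMem := by
    refine ⟨rfl, Nat.zero_le _, ChkSemAux.num_false _, fun p hp => cut_ge hp _, fun h => ?_,
      fun _ p hp => cut_lt hp _⟩
    exact absurd h (by simp [mode, zeroMem])
  obtain ⟨V, hV, hRV⟩ := hE.sim (Y' := sys (P.F z)) (RM := P.RM z) (RV := P.RV z)
    (RW := (· = ·)) (P.out_rel hs hlim z) (P.res_rel hs z) hinit
  refine ⟨k, V, Ev.ofSys hV, by simpa using hk, ?_⟩
  rcases c with _ | ⟨t', v⟩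
  · rw [hRV.2]
    unfold Pred
    constructor
    · intro h; exact Or.inl h
    · rintro (h | ⟨-, t', ht', hR⟩)
      · exact h
      · have := hnone rfl t' _ hR
        omega
  · obtain ⟨hR, ht', -⟩ := hsome t' v rfl
    rw [hRV.2.2.2.2.2.2]
    unfold Pred
    constructor
    · rintro (h | ⟨h1, h2⟩)
      · exact Or.inl h
      · exact Or.inr ⟨h1, t', ht', h2 ▸ hR⟩
    · rintro (h | ⟨h1, t'', -, h2⟩)
      · exact Or.inl h
      · exact Or.inr ⟨h1, (hR.det h2).2⟩

end ChkPar

end Pool.Agent.NUM
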