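import Mathlib

/-!
# Nonuniform pushdown programs with random access to the input

* inputs are functions on bit lists (`Inp`), `Supp B z` says that only addresses of length at most
  `B` carry bits;
* a program is a list of instructions (`nand`, `ask`) on Boolean cells, one pass over the program is
  one step (`eval`), after each step there is a stack operation given by the cells `0, 1, 2`;
* `run f T M st`: the answer after at most `T` steps, started with memory `M` and stack `st`.
-/

namespace Pool.Agent.NUM

/-- inputs: bits with random access; addresses are bit lists -/
abbrev Inp := List Bool → Bool

/-- memories: cells numbered by natural numbers -/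
abbrev Mem := ℕ → Bool

/-- only addresses of length at most `B` carry bits -/
def Supp (B : ℕ) (z : Inp) : Prop := ∀ a : List Bool, B < a.length → z a = false

/-- instructions: `nand i j k` writes into cell `i` the negated conjunction of the cells `j` and `k`,
`ask i j l` writes into cell `i` the input bit whose address is written in the cells
`j, …, j + l - 1` -/
inductive Ins
  | nand (i j k : ℕ)
  | ask (i j l : ℕ)

/-- all cells touched by the instruction are below this number -/
def Ins.top : Ins → ℕ
  | .nand i j k => max (i + 1) (max (j + 1) (k + 1))
  | .ask i j l => max (i + 1) (j + l)

/-- the cells `j, …, j + l - 1` of `M` -/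
def word (M : Mem) (j l : ℕ) : List Bool := (List.range l).map fun t => M (j + t)

/-- effect of one instruction -/
def Ins.exec (z : Inp) (M : Mem) : Ins → Mem
  | .nand i j k => Function.update M i (!(M j && M k))
  | .ask i j l => Function.update M i (z (word M j l))

/-- one pass over the program -/
def eval (G : List Ins) (z : Inp) (M : Mem) : Mem := G.foldl (fun M c => c.exec z M) M

/-- the program has at most `s` instructions and uses only cells below `s` -/
def Sz (s : ℕ) (G : List Ins) : Prop := G.length ≤ s ∧ ∀ c ∈ G, c.top ≤ s

/-- the computation: after each step, cell `0` says whether there is a stack operation, cell `1`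
whether it is a pop, cell `2` holds the symbol; popping the empty stack halts with answer cell `2` -/
def run (f : Mem → Mem) : ℕ → Mem → List Bool → Option Bool
  | 0, _, _ => none
  | k + 1, M, st =>
    if f M 0 = true then
      if f M 1 = true then
        match st with
        | [] => some (f M 2)
        | b :: st' => run f k (Function.update (f M) 2 b) st'
      else run f k (f M) (f M 2 :: st)
    else run f k (f M) st

/-- initial memory -/
def zeroMem : Mem := fun _ => false

/-- `G` decides `P` on the inputs of support `B` within `T` steps -/
def Decides (G : List Ins) (B T : ℕ) (P : Inp → Prop) : Prop :=
  ∀ z, Supp B z → ∃ b, run (eval G z) T zeroMem [] = some b ∧ (b = true ↔ P z)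

end Pool.Agent.NUM
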