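import Pool.Agent.NUM.Sat

/-!
# Nonuniform pushdown programs: further definitions

The model itself is in `Core.lean`, 3SAT in `Sat.lean`. Here: pairs of inputs, the big step form
`Ev` of `run`, the classes `Cl`, tables of programs (`decode`), the universal problem `U`.
-/

namespace Pool.Agent.NUM

/-- two inputs side by side -/
def pair (p q : Inp) : Inp
  | [] => false
  | false :: a => p a
  | true :: a => q a

@[simp] theorem pair_nil (p q : Inp) : pair p q [] = false := rfl
@[simp] theorem pair_false (p q : Inp) (a : List Bool) : pair p q (false :: a) = p a := rfl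
@[simp] theorem pair_true (p q : Inp) (a : List Bool) : pair p q (true :: a) = q a := rfl

/-- big step semantics: started in `M` with empty (relative) stack, the computation pops the empty
stack in memory `V` at step `k` -/
inductive Ev (f : Mem → Mem) : ℕ → Mem → Mem → Prop
  | halt {M : Mem} : f M 0 = true → f M 1 = true → Ev f 1 M (f M)
  | go {M : Mem} {k : ℕ} {V : Mem} : f M 0 = false → Ev f k (f M) V → Ev f (k + 1) M V
  | push {M : Mem} {k₁ k₂ : ℕ} {V₁ V : Mem} : f M 0 = true → f M 1 = false → Ev f k₁ (f M) V₁ →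
      Ev f k₂ (Function.update V₁ 2 (f M 2)) V → Ev f (k₁ + k₂ + 1) M V

/-- a family `A L` of problems is in `Cl b e`: for inputs of length `2^(b L)`, programs of size
`2^(o(L))`, time `2^((e + o(1)) L)` -/
def Cl (b e : ℝ) (A : ℕ → Inp → Prop) : Prop :=
  ∀ δ : ℝ, 0 < δ → ∃ L₀ : ℕ, ∀ L : ℕ, L₀ ≤ L → ∃ (G : List Ins) (s T : ℕ), Sz s G ∧
    (s : ℝ) ≤ 2 ^ (δ * L) ∧ (T : ℝ) ≤ 2 ^ ((e + δ) * L) ∧ Decides G ⌊b * L⌋₊ T (A L)

/-- the number with the binary digits `g 0, …, g (n - 1)` -/
def num (n : ℕ) (g : ℕ → Bool) : ℕ := ∑ r ∈ Finset.range n, if g r = true then 2 ^ r else 0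

/-- bit `r` of field `f` of instruction `p` in the code table of `z` -/
def cbit (σ : ℕ) (z : Inp) (p f r : ℕ) : Bool :=
  z (false :: (bits σ p ++ bits 2 f ++ bits σ r))

/-- field `f` of instruction `p` -/
def fld (σ : ℕ) (z : Inp) (p f : ℕ) : ℕ := num σ (cbit σ z p f)

/-- the program of `2 ^ σ` instructions which is written in the table of `z` -/
def decode (σ : ℕ) (z : Inp) : List Ins :=
  (List.range (2 ^ σ)).map fun p =>
    if cbit σ z p 3 0 = true then Ins.ask (fld σ z p 0) (fld σ z p 1) (fld σ z p 2)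
    else Ins.nand (fld σ z p 0) (fld σ z p 1) (fld σ z p 2)

/-- universal problem: some `y` (of length `2 ^ B`) makes the program in the table of `z` accept
`(z, y)` within `2 ^ B` steps -/
def U (σ B : ℕ) (z : Inp) : Prop :=
  ∃ y : Inp, Supp B y ∧ run (eval (decode σ z) (pair z y)) (2 ^ B) zeroMem [] = some true

end Pool.Agent.NUM
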