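import Pool.Agent.NUM.Pivot

/-!
# P5: the field `diag` of `Trade`

The diagonal problem is the complement of the pivot on its own input: `D (L, z) = ¬ V (n L) (sg L) z`
with `sg L = ⌊η L⌋`, `n L = a L - sg L`.  If `D τ ↔ ∃ y, B (τ, y)` with `B` decided in time
`2 ^ ((e + o(1)) L)`, `e < a`, then the instance whose input is the table of the program for `B` is
contradictory.
-/

set_option autoImplicit false

namespace Pool.Agent.NUM

open Filter

/-- one instance of the diagonal argument -/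
theorem diag_level (P : PivotB) {n sg s T β L : ℕ} {G : List Ins}
    (hsg : 4 * s + 2 < 2 ^ sg) (hn : n + 3 ≤ 2 ^ sg) (h3 : 3 ≤ sg)
    (hs : 3 ≤ s) (hG : Sz s G) (hβ : β + 2 ≤ n) (htab : 3 * sg + 13 ≤ n) (hL : 3 * sg + 11 ≤ L)
    (hT : T ≤ 2 ^ (n - sg)) :
    ∃ z : Inp, trc L z = z ∧ ∀ B : Inp → Prop,
      (∀ y : Inp, ∃ b, run (eval G (pair z y)) T zeroMem [] = some b ∧ (b = true ↔ B y)) →
      (∀ y, B y ↔ B (trc β y)) → (P.V n sg z ↔ ∃ y, B y) := by
  obtain ⟨G', h1, h2, h4⟩ := exists_trim_run n hG hs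
  have hgood : PGood n sg G' := by
    refine ⟨by have := h1.1; omega, fun c hc => (h1.2 c hc).trans (by omega), h2, hn, h3,
      by omega⟩
  obtain ⟨z, hzdef⟩ : ∃ z : Inp, z = pair (P.enc n sg G') (fun _ => false) := ⟨_, rfl⟩
  have hz : Supp (3 * sg + 11) z := by
    rw [hzdef]
    have h5 : Supp (3 * sg + 10) (fun _ => false : Inp) := fun _ _ => rfl
    have h6 := (P.supp_enc n sg G').pair h5
    rwa [max_self] at h6
  have henc : ∀ a, z (false :: a) = P.enc n sg G' a := by
    intro a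
    rw [hzdef]
    rfl
  refine ⟨z, ?_, fun B hB hBβ => ?_⟩
  · funext a
    unfold trc
    split_ifs with h
    · rfl
    · exact (hz a (by omega)).symm
  have hsupp : ∀ y : Inp, Supp (n - 2) y → ∀ a : List Bool, n ≤ a.length →
      pair z y a = false := by
    intro y hy a ha
    apply hz.pair hy
    have h7 : max (3 * sg + 11) (n - 2) = n - 2 := max_eq_right (by omega)
    rw [h7]
    omega
  have key : ∀ y : Inp, Supp (n - 2) y →
      (run (eval G' (pair z y)) (2 ^ (n - sg)) zeroMem [] = some true ↔ B y) := by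
    intro y hy
    rw [h4 _ (hsupp y hy)]
    obtain ⟨b, hb, hbB⟩ := hB y
    rw [run_mono hb _ hT, ← hbB]
    simp
  constructor
  · intro h
    obtain ⟨y, hy, hr⟩ := P.complete hgood henc h
    exact ⟨y, (key y hy).1 hr⟩
  · rintro ⟨y, hy⟩
    rw [hBβ] at hy
    exact P.sound hgood henc ((key _ ((supp_trc β y).mono (by omega))).2 hy)

/-- the instances of the diagonal problem: all inputs -/
def dpres : Pres (ℕ × Inp) := ⟨Prod.fst, fun p => trc p.1 p.2⟩

theorem size_dpres : Size dpres 1 :=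
  ⟨fun L => L, (by intro ε hε; exact ⟨0, fun L _ => by have : (0 : ℝ) ≤ L := Nat.cast_nonneg L; nlinarith⟩),
    fun τ => supp_trc _ _⟩

/-- the diagonal argument -/
theorem diag_core (P : PivotB) (a : ℕ) (u e : ℝ) (ha : 1 ≤ a) (hue : u ≤ e)
    (hea : e < a) :
    ∃ n sg : ℕ → ℕ, Lin a (fun L => n L + sg L) ∧ Tendsto n atTop atTop ∧ (∀ L, sg L ≤ n L) ∧
      ¬ InE u dpres (fun p => ¬ P.V (n p.1) (sg p.1) (trc p.1 p.2)) e := by
  have ha' : (1 : ℝ) ≤ a := by exact_mod_cast ha
  obtain ⟨e', he'⟩ : ∃ e' : ℝ, e' = max e 0 := ⟨_, rfl⟩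
  have he0 : 0 ≤ e' := by rw [he']; exact le_max_right _ _
  have hee' : e ≤ e' := by rw [he']; exact le_max_left _ _
  have he'a : e' < a := by rw [he']; exact max_lt hea (by linarith)
  obtain ⟨d, hd⟩ : ∃ d : ℝ, d = a - e' := ⟨_, rfl⟩
  have hd0 : 0 < d := by rw [hd]; linarith
  obtain ⟨η, hη⟩ : ∃ η : ℝ, η = min (d / 4) (1 / 8) := ⟨_, rfl⟩
  have hη0 : 0 < η := by rw [hη]; exact lt_min (by linarith) (by norm_num)
  have hηd : η ≤ d / 4 := by rw [hη]; exact min_le_left _ _
  have hη8 : η ≤ 1 / 8 := by rw [hη]; exact min_le_right _ _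
  -- the parameters
  obtain ⟨sg, hsg⟩ : ∃ sg : ℕ → ℕ, sg = fun L : ℕ => ⌊η * (L : ℝ)⌋₊ := ⟨_, rfl⟩
  obtain ⟨n, hn⟩ : ∃ n : ℕ → ℕ, n = fun L => a * L - sg L := ⟨_, rfl⟩
  have hsgle : ∀ L : ℕ, (sg L : ℝ) ≤ η * L := by
    intro L
    rw [hsg]
    exact Nat.floor_le (by positivity)
  have hsggt : ∀ L : ℕ, η * L - 1 < (sg L : ℝ) := by
    intro L
    rw [hsg]
    exact Nat.sub_one_lt_floor _
  have hsgL : ∀ L : ℕ, 8 * sg L ≤ L := by
    intro L
    have h1 := hsgle L
    have h2 : (0 : ℝ) ≤ L := Nat.cast_nonneg L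
    have h3 : (8 : ℝ) * sg L ≤ L := by nlinarith
    exact_mod_cast h3
  have hLa : ∀ L : ℕ, L ≤ a * L := fun L => Nat.le_mul_of_pos_left L ha
  have hnsum : ∀ L, n L + sg L = a * L := by
    intro L
    have h1 := hsgL L
    have h2 := hLa L
    rw [hn]
    show a * L - sg L + sg L = a * L
    omega
  have hnsumR : ∀ L : ℕ, (n L : ℝ) + sg L = a * L := by
    intro L
    exact_mod_cast hnsum L
  refine ⟨n, sg, ?_, ?_, ?_, ?_⟩
  · intro ε hε
    refine ⟨0, fun L _ => ?_⟩
    push_cast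
    rw [hnsumR]
    have : (0 : ℝ) ≤ L := Nat.cast_nonneg L
    nlinarith
  · rw [tendsto_atTop_atTop]
    intro b
    refine ⟨2 * b, fun L hL => ?_⟩
    have h3 := hsgL L
    have h4 := hnsum L
    have h5 := hLa L
    omega
  · intro L
    have h3 := hsgL L
    have h4 := hnsum L
    have h5 := hLa L
    omega
  · rintro ⟨β, B, hβ, hB, L₁, hL₁⟩
    obtain ⟨G, s, t, L₀, hs0, ht, hs3, hG, hrun⟩ := hB.sz3
    -- the wrapper: the string is truncated
    have hloc : LocF (fun L w => pair (fun a => w ([false] ++ a))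
        (trc (β L) fun a => w ([true] ++ a))) :=
      LocF.pair (LocF.shift [false] LocF.id) (LocF.trc (LocF.shift [true] LocF.id) β)
    obtain ⟨t1, ht1, hloc1⟩ := hloc s hs0
    choose G1 hG1 hG1run using fun L => exists_virt_run (hG L) (hs3 L) (hloc1 L) le_rfl
    obtain ⟨s1, hs1⟩ : ∃ s1 : ℕ → ℕ, s1 = fun L => s L * (t1 L + 1) + 2 * s L + t1 L := ⟨_, rfl⟩
    have hs1sub : SubExp s1 := by
      rw [hs1]
      exact ((hs0.mul (ht1.add (SubExp.const 1))).add ((SubExp.const 2).mul hs0)).add ht1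
    have hs1three : ∀ L, 3 ≤ s1 L := by
      intro L
      have := hs3 L
      rw [hs1]
      show 3 ≤ s L * (t1 L + 1) + 2 * s L + t1 L
      omega
    have hG1' : ∀ L, Sz (s1 L) (G1 L) := by
      intro L
      rw [hs1]
      exact hG1 L
    -- a large index
    have hf : SubExp (fun L => 2 * (4 * s1 L + (a * L + 4))) :=
      (SubExp.const 2).mul (((SubExp.const 4).mul hs1sub).add
        (((SubExp.const a).mul SubExp.id).add (SubExp.const 4)))
    have ht' : ExpLe e' t := ht.mono hee'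
    have hβ' : Lin e' β := hβ.mono (hue.trans hee')
    obtain ⟨L₂, hL₂⟩ := hβ' (d / 4) (by linarith)
    obtain ⟨N, hN⟩ := exists_nat_ge (5 / η)
    have hev := (hf η hη0).and ((ht' (d / 4) (by linarith)).and ((eventually_ge_atTop L₀).and
      ((eventually_ge_atTop L₁).and ((eventually_ge_atTop L₂).and ((eventually_ge_atTop N).and
        (eventually_ge_atTop 26))))))
    obtain ⟨L, hfL, htL, hLL₀, hLL₁, hLL₂, hLN, hL26⟩ := hev.exists
    have hLpos : (0 : ℝ) < L := by
      have : (26 : ℝ) ≤ L := by exact_mod_cast hL26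
      linarith
    have hηL : 5 ≤ η * L := by
      have h1 : (N : ℝ) ≤ L := by exact_mod_cast hLN
      have h2 := hN.trans h1
      rw [div_le_iff₀ hη0] at h2
      linarith
    have h2sg : 4 * s1 L + (a * L + 4) ≤ 2 ^ sg L := by
      have h1 : (2 : ℝ) ^ (η * L) ≤ 2 * 2 ^ sg L := by
        have h2 : (2 : ℝ) ^ (η * L) ≤ 2 ^ ((sg L : ℝ) + 1) :=
          Real.rpow_le_rpow_of_exponent_le (by norm_num) (by have := hsggt L; linarith)
        rw [Real.rpow_add (by norm_num), Real.rpow_natCast, Real.rpow_one] at h2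
        linarith
      have h3 : (((2 * (4 * s1 L + (a * L + 4)) : ℕ) : ℝ)) ≤ ((2 * 2 ^ sg L : ℕ) : ℝ) := by
        push_cast
        push_cast at hfL
        exact hfL.trans h1
      have h4 := Nat.cast_le.1 h3
      omega
    have hnle : n L ≤ a * L := by rw [← hnsum L]; exact Nat.le_add_right _ _
    have hsg4 : 4 ≤ sg L := by
      have h1 := hsggt L
      have h2 : (4 : ℝ) < (sg L : ℝ) + 0 + 1 := by linarith
      have h3 : (4 : ℝ) < ((sg L + 1 : ℕ) : ℝ) := by push_cast; linarith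
      have h4 : 4 < sg L + 1 := by exact_mod_cast h3
      omega
    have hsg8 := hsgL L
    have haL := hLa L
    have hnL := hnsum L
    have hnR := hnsumR L
    have hsgR := hsgle L
    -- the guess fits
    have hβn : β L + 2 ≤ n L := by
      have h1 := hL₂ L hLL₂
      have h2 : (β L : ℝ) + 2 ≤ n L := by
        have h3 : η * L ≤ d / 4 * L := mul_le_mul_of_nonneg_right hηd hLpos.le
        have h4 : (a : ℝ) * L = e' * L + d * L := by rw [hd]; ring
        nlinarith
      exact_mod_cast h2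
    have hTn : t L ≤ 2 ^ (n L - sg L) := by
      have h1 : sg L ≤ n L := by omega
      have h2 : ((n L - sg L : ℕ) : ℝ) = (n L : ℝ) - sg L := Nat.cast_sub h1
      have h3 : (t L : ℝ) ≤ (2 : ℝ) ^ (n L - sg L) := by
        rw [← Real.rpow_natCast]
        refine htL.trans (Real.rpow_le_rpow_of_exponent_le (by norm_num) ?_)
        rw [h2]
        have h3 : η * L ≤ d / 4 * L := mul_le_mul_of_nonneg_right hηd hLpos.le
        have h4 : (a : ℝ) * L = e' * L + d * L := by rw [hd]; ring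
        nlinarith
      exact_mod_cast h3
    obtain ⟨z, hz, hV⟩ := diag_level P (n := n L) (sg := sg L) (s := s1 L) (T := t L)
      (β := β L) (L := L) (G := G1 L) (by omega) (by omega) (by omega) (hs1three L) (hG1' L)
      hβn (by omega) (by omega) hTn
    have hBrun : ∀ y : Inp, ∃ b', run (eval (G L) (pair z (trc (β L) y)))
        (t L) zeroMem [] = some b' ∧ (b' = true ↔ B ((L, z), y)) := by
      intro y
      have h1 := hrun ((L, z), y) hLL₀
      have h2 : (dpres.ext β).inp ((L, z), y) = pair z (trc (β L) y) := by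
        show pair (trc L z) (trc (β L) y) = _
        rw [hz]
      rw [h2] at h1
      exact h1
    have htrc : ∀ y : Inp, trc (β L) (trc (β L) y) = trc (β L) y := by
      intro y
      funext a
      simp only [trc]
      split_ifs <;> rfl
    have hfin := hV (fun y => B ((L, z), y)) (fun y => ?_) (fun y => ?_)
    · have h1 := hL₁ (L, z) hLL₁
      rw [← hfin] at h1
      have h2 : P.V (n L) (sg L) (trc L z) = P.V (n L) (sg L) z := by rw [hz]
      change (¬ P.V (n L) (sg L) (trc L z)) ↔ _ at h1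
      rw [h2] at h1
      exact iff_not_self h1.symm
    · obtain ⟨b', hb', hbB⟩ := hBrun y
      exact ⟨b', hG1run _ _ _ _ hb', hbB⟩
    · obtain ⟨b1, hb1, hbB1⟩ := hBrun y
      obtain ⟨b2, hb2, hbB2⟩ := hBrun (trc (β L) y)
      rw [htrc, hb1] at hb2
      have : b1 = b2 := by simpa using hb2
      subst this
      exact hbB1.symm.trans hbB2

/-- **Diagonal problems.** -/
theorem trade_diag {c : ℝ} (P : Pivot c) (a : ℕ) (u e : ℝ) (ha : 1 ≤ a) (hue : u ≤ e)
    (hea : e < a) :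
    ∃ (T : Type) (π : Pres T) (D : T → Prop), Size π 1 ∧ InCl π D (c * a) ∧ ¬ InE u π D e := by
  obtain ⟨n, sg, h1, h2, h3, h4⟩ := diag_core P.toPivotB a u e ha hue hea
  have ha0 : (0 : ℝ) ≤ a := Nat.cast_nonneg a
  obtain ⟨G, s, t, L₀, hs, ht, hG, hrun⟩ := P.dec n sg a ha0 h1 h2 h3
  have h5 : InCl dpres (fun p => P.V (n p.1) (sg p.1) (trc p.1 p.2)) (c * a) :=
    ⟨G, s, t, L₀, hs, ht, hG, fun τ hτ => hrun τ.1 hτ τ.1 (trc τ.1 τ.2) (supp_trc _ _)⟩
  exact ⟨ℕ × Inp, dpres, fun p => ¬ P.V (n p.1) (sg p.1) (trc p.1 p.2), size_dpres, h5.compl, h4⟩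

end Pool.Agent.NUM
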