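import Pool.Agent.NUM.Speed
import Pool.Agent.NUM.Slow
import Pool.Agent.NUM.SlowE
import Pool.Agent.NUM.Diag
import Pool.Agent.NUM.PivotSat

/-!
# Final assembly: satisfiability is not decided in time `2 ^ (c m)`, `c < 2 cos (π / 7)`
-/

set_option autoImplicit false

namespace Pool.Agent.NUM

open S3

/-- all fields of `Trade` from the pivot -/
theorem trade_of_pivot {c : ℝ} (P : Pivot c) : Trade c where
  not := fun hs h => trade_not hs h
  dummy := fun hs hβ h => trade_dummy hs hβ h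
  merge := fun hs hβ hβ' h => trade_merge hs hβ hβ' h
  speedup := fun hs h hx hxe => trade_speedup hs h hx hxe
  slow := fun hb hs hq hw hβ hue h =>
    trade_slow (fun hb' hs' hβ' h' => slowE P hb' hs' hβ' h') hb hs hq hw hβ hue h
  diag := fun a u e ha hue hea => trade_diag P a u e ha hue hea

theorem not_satCl {c : ℝ} (hc : 1 < c) (h : c < 2 * Real.cos (Real.pi / 7)) : ¬ SatCl c := by
  intro H
  obtain ⟨P⟩ := exists_pivot (by linarith) H
  exact trade_bound hc h (trade_of_pivot P)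

theorem one_lt_two_cos : (1 : ℝ) < 2 * Real.cos (Real.pi / 7) := by
  have h1 : Real.cos (Real.pi / 3) < Real.cos (Real.pi / 7) := by
    apply Real.cos_lt_cos_of_nonneg_of_le_pi
    · positivity
    · have := Real.pi_pos; linarith
    · have := Real.pi_pos; linarith
  rw [Real.cos_pi_div_three] at h1
  linarith

/-- the lower bound for satisfiability -/
theorem sat_lower_bound (c : ℝ) (hc : c < 2 * Real.cos (Real.pi / 7)) :
    ∃ δ : ℝ, 0 < δ ∧ ∀ m₀ : ℕ, ∃ m : ℕ, m₀ ≤ m ∧ ∀ (G : List Ins) (s T : ℕ), Sz s G →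
      (s : ℝ) ≤ 2 ^ (δ * m) → (T : ℝ) ≤ 2 ^ (c * m) → ¬ Decides G (satLen m) T (SAT m) := by
  obtain ⟨c', h1, h2⟩ := exists_between (max_lt hc one_lt_two_cos)
  have hcc : c ≤ c' := (le_max_left _ _).trans h1.le
  have h := not_satCl (lt_of_le_of_lt (le_max_right c 1) h1) h2
  unfold SatCl at h
  push Not at h
  obtain ⟨δ, hδ, h⟩ := h
  refine ⟨δ, hδ, fun m₀ => ?_⟩
  obtain ⟨m, hm, h⟩ := h m₀
  refine ⟨m, hm, fun G s T hs h1 h2 hD => h G s T hs h1 (h2.trans ?_) hD⟩
  apply Real.rpow_le_rpow_of_exponent_le (by norm_num)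
  have : (0 : ℝ) ≤ m := by positivity
  nlinarith

end Pool.Agent.NUM
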