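import Mathlib

/-!
# Cutting a tree into fragments with at most two boundary nodes

Nodes are `0, …, m - 1`, `par i < i` is the parent of `i > 0`, `w i` is the weight of the node `i`.
The nodes are cut into fragments of weight at most `l + k`, where every tree edge which leaves a
fragment has an end among the (at most two) boundary nodes of the fragment.
-/

set_option autoImplicit false

namespace Pool.Agent.NUM.Region

open Finset

/-- the state after the edges `(i, par i)`, `i > t`, have been treated: fragments `A ≤ t` are open,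
fragments `m ≤ A < m + r` are closed -/
structure FS (m : ℕ) (par w : ℕ → ℕ) (k l t : ℕ) (cl : ℕ → ℕ) (gd : ℕ → Finset ℕ) (r : ℕ) : Prop where
  cl_lt : ∀ x < m, cl x ≤ t ∨ (m ≤ cl x ∧ cl x < m + r)
  own : ∀ x ≤ t, cl x = x ∨ x ∈ gd x
  mark : ∀ A, (A ≤ t ∨ (m ≤ A ∧ A < m + r)) → ∀ x ∈ gd A, x < m ∧ m ≤ cl x ∧ x ∈ gd (cl x)
  card1 : ∀ A ≤ t, (gd A).card ≤ 1
  card2 : ∀ A, m ≤ A → A < m + r → (gd A).card ≤ 2 ∧ (gd A).Nonempty
  edge : ∀ i, t < i → i < m → cl i = cl (par i) ∨
    ((i ∈ gd (cl i) ∨ par i ∈ gd (cl i)) ∧ (i ∈ gd (cl (par i)) ∨ par i ∈ gd (cl (par i))))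
  weight : ∀ A, ∑ x ∈ (range m).filter (fun x => cl x = A), w x ≤ l + k
  count : ∃ a b, r ≤ 2 * (a + b) ∧ a * l ≤ ∑ x ∈ (range m).filter (fun x => m ≤ cl x), w x ∧
    b + ∑ j ∈ range (t + 1), (gd j).card ≤ a

theorem FS.init {m : ℕ} {par w : ℕ → ℕ} {k l : ℕ} (hm : 0 < m) (hw : ∀ i < m, w i ≤ k) :
    FS m par w k l (m - 1) (fun x => x) (fun _ => ∅) 0 where
  cl_lt x hx := Or.inl (by omega)
  own x _ := Or.inl rfl
  mark A _ x hx := by simp at hx
  card1 A _ := by simp
  card2 A h1 h2 := by omega
  edge i h1 h2 := by omega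
  weight A := by
    by_cases hA : A < m
    · have h1 : (range m).filter (fun x => x = A) = {A} := by
        ext x
        simp only [mem_filter, mem_range, mem_singleton]
        constructor
        · exact fun h => h.2
        · rintro rfl
          exact ⟨hA, rfl⟩
      rw [h1, sum_singleton]
      have := hw A hA
      omega
    · have h1 : (range m).filter (fun x => x = A) = ∅ := by
        ext x
        simp only [mem_filter, mem_range, notMem_empty, iff_false, not_and]
        rintro h rfl
        exact hA h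
      rw [h1]
      simp
  count := ⟨0, 0, by simp, by simp, by simp⟩

/-- the fragments of `par t` and of `t` are united -/
theorem FS.merge {m : ℕ} {par w : ℕ → ℕ} {k l t : ℕ} {cl : ℕ → ℕ} {gd : ℕ → Finset ℕ} {r : ℕ}
    (h : FS m par w k l t cl gd r) (ht : 0 < t) (htm : t < m) (hp : par t < t)
    (hc : (gd (par t)).card + (gd t).card ≤ 1)
    (hW : ∑ x ∈ (range m).filter (fun x => cl x = par t), w x +
      ∑ x ∈ (range m).filter (fun x => cl x = t), w x < l) :
    ∃ (cl' : ℕ → ℕ) (gd' : ℕ → Finset ℕ) (r' : ℕ), FS m par w k l (t - 1) cl' gd' r' := by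
  obtain ⟨p, hpdef⟩ : ∃ p, p = par t := ⟨_, rfl⟩
  rw [← hpdef] at hp hc hW
  obtain ⟨cl', hcl'⟩ : ∃ cl' : ℕ → ℕ, cl' = fun x => if cl x = t then p else cl x := ⟨_, rfl⟩
  obtain ⟨gd', hgd'⟩ : ∃ gd' : ℕ → Finset ℕ, gd' = Function.update gd p (gd p ∪ gd t) := ⟨_, rfl⟩
  have hclt : ∀ x, cl x = t → cl' x = p := by intro x hx; rw [hcl']; simp [hx]
  have hcln : ∀ x, cl x ≠ t → cl' x = cl x := by intro x hx; rw [hcl']; simp [hx]
  have hgp : gd' p = gd p ∪ gd t := by rw [hgd']; simp
  have hgn : ∀ A, A ≠ p → gd' A = gd A := by intro A hA; rw [hgd', Function.update_of_ne hA]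
  have hsub : ∀ A, gd A ⊆ gd' A := by
    intro A
    by_cases hA : A = p
    · rw [hA, hgp]; exact subset_union_left
    · rw [hgn A hA]
  have hsub2 : ∀ x, gd (cl x) ⊆ gd' (cl' x) := by
    intro x
    by_cases hx : cl x = t
    · rw [hclt x hx, hx, hgp]; exact subset_union_right
    · rw [hcln x hx]; exact hsub _
  have hmk : ∀ A, (A ≤ t ∨ (m ≤ A ∧ A < m + r)) → ∀ x ∈ gd A,
      x < m ∧ m ≤ cl' x ∧ x ∈ gd' (cl' x) := by
    intro A hA x hx
    obtain ⟨h1, h2, h3⟩ := h.mark A hA x hx
    refine ⟨h1, ?_, hsub2 x h3⟩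
    rw [hcln x (by omega)]
    exact h2
  refine ⟨cl', gd', r, ?_, ?_, ?_, ?_, ?_, ?_, ?_, ?_⟩
  · intro x hx
    by_cases hxt : cl x = t
    · rw [hclt x hxt]; left; omega
    · rw [hcln x hxt]
      rcases h.cl_lt x hx with h1 | h1
      · left; omega
      · right; exact h1
  · intro x hx
    rcases h.own x (by omega) with h1 | h1
    · left
      rw [hcln x (by omega)]
      exact h1
    · right
      exact hsub x h1
  · intro A hA x hx
    by_cases hAp : A = p
    · rw [hAp, hgp, mem_union] at hx
      rcases hx with hx | hx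
      · exact hmk p (Or.inl (by omega)) x hx
      · exact hmk t (Or.inl le_rfl) x hx
    · rw [hgn A hAp] at hx
      refine hmk A ?_ x hx
      rcases hA with hA | hA
      · left; omega
      · right; exact hA
  · intro A hA
    by_cases hAp : A = p
    · rw [hAp, hgp]
      exact (card_union_le _ _).trans hc
    · rw [hgn A hAp]
      exact h.card1 A (by omega)
  · intro A h1 h2
    rw [hgn A (by omega)]
    exact h.card2 A h1 h2
  · intro i hi him
    rcases Nat.lt_or_ge t i with hti | hti
    · rcases h.edge i hti him with h1 | ⟨h1, h2⟩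
      · left
        rw [hcl']
        simp only [h1]
      · right
        exact ⟨h1.imp (fun h => hsub2 _ h) (fun h => hsub2 _ h),
          h2.imp (fun h => hsub2 _ h) (fun h => hsub2 _ h)⟩
    · have hit : i = t := by omega
      subst hit
      rw [← hpdef]
      rcases h.own p (by omega) with h2 | h2
      · have e2 : cl' p = p := by rw [hcln p (by omega)]; exact h2
        rcases h.own i le_rfl with h1 | h1
        · left
          rw [hclt i h1, e2]
        · right
          obtain ⟨-, h3, h4⟩ := hmk i (Or.inl le_rfl) i h1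
          refine ⟨Or.inl h4, Or.inl ?_⟩
          rw [e2, hgp]
          exact mem_union_right _ h1
      · obtain ⟨-, h3, h4⟩ := hmk p (Or.inl (by omega)) p h2
        right
        refine ⟨?_, Or.inr h4⟩
        rcases h.own i le_rfl with h1 | h1
        · right
          rw [hclt i h1]
          exact hsub _ h2
        · left
          exact (hmk i (Or.inl le_rfl) i h1).2.2
  · intro A
    by_cases hAp : A = p
    · have h1 : (range m).filter (fun x => cl' x = A) =
          (range m).filter (fun x => cl x = p) ∪ (range m).filter (fun x => cl x = t) := by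
        ext x
        simp only [mem_filter, mem_range, mem_union]
        rw [hAp]
        by_cases hx : cl x = t
        · rw [hclt x hx]
          constructor
          · exact fun h => Or.inr ⟨h.1, hx⟩
          · rintro (h | h)
            · exact ⟨h.1, rfl⟩
            · exact ⟨h.1, rfl⟩
        · rw [hcln x hx]
          constructor
          · exact fun h => Or.inl h
          · rintro (h | h)
            · exact h
            · exact absurd h.2 hx
      have h2 : Disjoint ((range m).filter (fun x => cl x = p))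
          ((range m).filter (fun x => cl x = t)) := by
        rw [disjoint_left]
        intro x hx hx'
        simp only [mem_filter] at hx hx'
        omega
      rw [h1, sum_union h2]
      omega
    · refine le_trans (sum_le_sum_of_subset ?_) (h.weight A)
      intro x hx
      simp only [mem_filter, mem_range] at hx ⊢
      refine ⟨hx.1, ?_⟩
      by_cases hxt : cl x = t
      · rw [hclt x hxt] at hx
        exact absurd hx.2.symm hAp
      · rw [hcln x hxt] at hx
        exact hx.2
  · obtain ⟨a, b, h1, h2, h3⟩ := h.count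
    refine ⟨a, b, h1, ?_, ?_⟩
    · refine h2.trans (sum_le_sum_of_subset ?_)
      intro x hx
      simp only [mem_filter, mem_range] at hx ⊢
      refine ⟨hx.1, ?_⟩
      rw [hcln x (by omega)]
      exact hx.2
    · have e1 : t - 1 + 1 = t := by omega
      rw [e1]
      rw [sum_range_succ] at h3
      have h4 : ∑ j ∈ range t, (gd' j).card ≤ ∑ j ∈ range t, (gd j).card + (gd t).card := by
        have hpm : p ∈ range t := mem_range.2 hp
        rw [← add_sum_erase _ _ hpm, ← add_sum_erase (range t) (fun j => (gd j).card) hpm]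
        have h5 : ∑ j ∈ (range t).erase p, (gd' j).card = ∑ j ∈ (range t).erase p, (gd j).card :=
          sum_congr rfl fun j hj => by rw [hgn j (mem_erase.1 hj).1]
        have h6 : (gd' p).card ≤ (gd p).card + (gd t).card := by
          rw [hgp]; exact card_union_le _ _
        rw [h5]
        omega
      omega

/-- the fragments of `par t` and of `t` are closed -/
theorem FS.close {m : ℕ} {par w : ℕ → ℕ} {k l t : ℕ} {cl : ℕ → ℕ} {gd : ℕ → Finset ℕ} {r : ℕ}
    (h : FS m par w k l t cl gd r) (hpar : ∀ i, 0 < i → i < m → par i < i)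
    (ht : 0 < t) (htm : t < m) (hp : par t < t)
    (hc : 2 ≤ (gd (par t)).card + (gd t).card ∨
      l ≤ ∑ x ∈ (range m).filter (fun x => cl x = par t), w x +
      ∑ x ∈ (range m).filter (fun x => cl x = t), w x) :
    ∃ (cl' : ℕ → ℕ) (gd' : ℕ → Finset ℕ) (r' : ℕ), FS m par w k l (t - 1) cl' gd' r' := by
  obtain ⟨p, hpdef⟩ : ∃ p, p = par t := ⟨_, rfl⟩
  rw [← hpdef] at hp hc
  obtain ⟨cl', hcl'⟩ : ∃ cl' : ℕ → ℕ, cl' = fun x => if cl x = t then m + r + 1 else
    if cl x = p then m + r else cl x := ⟨_, rfl⟩
  obtain ⟨gd', hgd'⟩ : ∃ gd' : ℕ → Finset ℕ, gd' = Function.update (Function.update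
    (Function.update gd p {p}) (m + r) (insert p (gd p))) (m + r + 1) (insert p (gd t)) :=
    ⟨_, rfl⟩
  have hclt : ∀ x, cl x = t → cl' x = m + r + 1 := by intro x hx; rw [hcl']; simp [hx]
  have hclp : ∀ x, cl x = p → cl' x = m + r := by
    intro x hx
    rw [hcl']
    have : p ≠ t := by omega
    simp [hx, this]
  have hcln : ∀ x, cl x ≠ t → cl x ≠ p → cl' x = cl x := by
    intro x hx hx'; rw [hcl']; simp [hx, hx']
  have hgp : gd' p = {p} := by
    rw [hgd', Function.update_of_ne (by omega), Function.update_of_ne (by omega),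
      Function.update_self]
  have hg1 : gd' (m + r) = insert p (gd p) := by
    rw [hgd', Function.update_of_ne (by omega), Function.update_self]
  have hg2 : gd' (m + r + 1) = insert p (gd t) := by
    rw [hgd', Function.update_self]
  have hgn : ∀ A, A ≠ p → A ≠ m + r → A ≠ m + r + 1 → gd' A = gd A := by
    intro A h1 h2 h3
    rw [hgd', Function.update_of_ne h3, Function.update_of_ne h2, Function.update_of_ne h1]
  have hsub2 : ∀ x < m, gd (cl x) ⊆ gd' (cl' x) := by
    intro x hxm
    by_cases hx : cl x = t
    · rw [hclt x hx, hx, hg2]; exact subset_insert _ _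
    · by_cases hx' : cl x = p
      · rw [hclp x hx', hx', hg1]; exact subset_insert _ _
      · rw [hcln x hx hx']
        rcases h.cl_lt x hxm with h1 | h1
        · rw [hgn _ hx' (by omega) (by omega)]
        · rw [hgn _ hx' (by omega) (by omega)]
  have hmk : ∀ A, (A ≤ t ∨ (m ≤ A ∧ A < m + r)) → ∀ x ∈ gd A,
      x < m ∧ m ≤ cl' x ∧ x ∈ gd' (cl' x) := by
    intro A hA x hx
    obtain ⟨h1, h2, h3⟩ := h.mark A hA x hx
    refine ⟨h1, ?_, hsub2 x h1 h3⟩
    rw [hcln x (by omega) (by omega)]
    exact h2
  have hmp : p < m ∧ m ≤ cl' p ∧ p ∈ gd' (cl' p) := by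
    rcases h.own p (by omega) with h2 | h2
    · rw [hclp p h2, hg1]
      exact ⟨by omega, by omega, mem_insert_self _ _⟩
    · exact hmk p (Or.inl (by omega)) p h2
  refine ⟨cl', gd', r + 2, ?_, ?_, ?_, ?_, ?_, ?_, ?_, ?_⟩
  · intro x hx
    by_cases hxt : cl x = t
    · rw [hclt x hxt]; right; omega
    · by_cases hxp : cl x = p
      · rw [hclp x hxp]; right; omega
      · rw [hcln x hxt hxp]
        rcases h.cl_lt x hx with h1 | h1
        · left; omega
        · right; omega
  · intro x hx
    by_cases hxp : x = p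
    · right
      rw [hxp, hgp]
      exact mem_singleton_self _
    · rcases h.own x (by omega) with h1 | h1
      · left
        rw [hcln x (by omega) (by omega)]
        exact h1
      · right
        rw [hgn x hxp (by omega) (by omega)]
        exact h1
  · intro A hA x hx
    by_cases hAp : A = p
    · rw [hAp, hgp, mem_singleton] at hx
      rw [hx]
      exact hmp
    · by_cases hA1 : A = m + r
      · rw [hA1, hg1, mem_insert] at hx
        rcases hx with hx | hx
        · rw [hx]; exact hmp
        · exact hmk p (Or.inl (by omega)) x hx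
      · by_cases hA2 : A = m + r + 1
        · rw [hA2, hg2, mem_insert] at hx
          rcases hx with hx | hx
          · rw [hx]; exact hmp
          · exact hmk t (Or.inl le_rfl) x hx
        · rw [hgn A hAp hA1 hA2] at hx
          refine hmk A ?_ x hx
          rcases hA with hA | hA
          · left; omega
          · right; omega
  · intro A hA
    by_cases hAp : A = p
    · rw [hAp, hgp, card_singleton]
    · rw [hgn A hAp (by omega) (by omega)]
      exact h.card1 A (by omega)
  · intro A h1 h2
    by_cases hA1 : A = m + r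
    · rw [hA1, hg1]
      refine ⟨(card_insert_le _ _).trans ?_, insert_nonempty _ _⟩
      have := h.card1 p (by omega)
      omega
    · by_cases hA2 : A = m + r + 1
      · rw [hA2, hg2]
        refine ⟨(card_insert_le _ _).trans ?_, insert_nonempty _ _⟩
        have := h.card1 t le_rfl
        omega
      · rw [hgn A (by omega) hA1 hA2]
        exact h.card2 A h1 (by omega)
  · intro i hi him
    rcases Nat.lt_or_ge t i with hti | hti
    · rcases h.edge i hti him with h1 | ⟨h1, h2⟩
      · left
        rw [hcl']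
        simp only [h1]
      · have hpm : par i < m := (hpar i (by omega) him).trans him
        right
        exact ⟨h1.imp (fun h => hsub2 _ him h) (fun h => hsub2 _ him h),
          h2.imp (fun h => hsub2 _ hpm h) (fun h => hsub2 _ hpm h)⟩
    · have hit : i = t := by omega
      subst hit
      rw [← hpdef]
      right
      refine ⟨?_, Or.inr hmp.2.2⟩
      rcases h.own i le_rfl with h1 | h1
      · right
        rw [hclt i h1, hg2]
        exact mem_insert_self _ _
      · left
        exact (hmk i (Or.inl le_rfl) i h1).2.2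
  · intro A
    by_cases hA2 : A = m + r + 1
    · refine le_trans (sum_le_sum_of_subset ?_) (h.weight t)
      intro x hx
      simp only [mem_filter, mem_range] at hx ⊢
      refine ⟨hx.1, ?_⟩
      by_contra hxt
      by_cases hxp : cl x = p
      · rw [hclp x hxp] at hx
        omega
      · rw [hcln x hxt hxp] at hx
        have := h.cl_lt x hx.1
        omega
    · by_cases hA1 : A = m + r
      · refine le_trans (sum_le_sum_of_subset ?_) (h.weight p)
        intro x hx
        simp only [mem_filter, mem_range] at hx ⊢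
        refine ⟨hx.1, ?_⟩
        by_contra hxp
        by_cases hxt : cl x = t
        · rw [hclt x hxt] at hx
          omega
        · rw [hcln x hxt hxp] at hx
          have := h.cl_lt x hx.1
          omega
      · refine le_trans (sum_le_sum_of_subset ?_) (h.weight A)
        intro x hx
        simp only [mem_filter, mem_range] at hx ⊢
        refine ⟨hx.1, ?_⟩
        by_cases hxt : cl x = t
        · rw [hclt x hxt] at hx
          omega
        · by_cases hxp : cl x = p
          · rw [hclp x hxp] at hx
            omega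
          · rw [hcln x hxt hxp] at hx
            exact hx.2
  · obtain ⟨a, b, h1, h2, h3⟩ := h.count
    have e1 : t - 1 + 1 = t := by omega
    rw [e1]
    rw [sum_range_succ] at h3
    have hpm : p ∈ range t := mem_range.2 hp
    have h4 : ∑ j ∈ range t, (gd' j).card + (gd p).card = ∑ j ∈ range t, (gd j).card + 1 := by
      rw [← add_sum_erase _ _ hpm, ← add_sum_erase (range t) (fun j => (gd j).card) hpm]
      have h5 : ∑ j ∈ (range t).erase p, (gd' j).card = ∑ j ∈ (range t).erase p, (gd j).card :=
        sum_congr rfl fun j hj => by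
          have h6 := mem_erase.1 hj
          have h7 := mem_range.1 h6.2
          rw [hgn j h6.1 (by omega) (by omega)]
      rw [h5, hgp, card_singleton]
      omega
    have hclosed : ∑ x ∈ (range m).filter (fun x => m ≤ cl x), w x ≤
        ∑ x ∈ (range m).filter (fun x => m ≤ cl' x), w x := by
      refine sum_le_sum_of_subset ?_
      intro x hx
      simp only [mem_filter, mem_range] at hx ⊢
      refine ⟨hx.1, ?_⟩
      rw [hcln x (by omega) (by omega)]
      exact hx.2
    rcases hc with hc | hc
    · refine ⟨a, b + 1, by omega, h2.trans hclosed, by omega⟩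
    · refine ⟨a + 1, b, by omega, ?_, by omega⟩
      have h8 : (range m).filter (fun x => m ≤ cl' x) ⊇ ((range m).filter (fun x => m ≤ cl x)) ∪
          ((range m).filter (fun x => cl x = p) ∪ (range m).filter (fun x => cl x = t)) := by
        intro x hx
        simp only [mem_filter, mem_range, mem_union] at hx ⊢
        rcases hx with hx | hx | hx
        · refine ⟨hx.1, ?_⟩
          rw [hcln x (by omega) (by omega)]
          exact hx.2
        · refine ⟨hx.1, ?_⟩
          rw [hclp x hx.2]
          omega
        · refine ⟨hx.1, ?_⟩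
          rw [hclt x hx.2]
          omega
      have h9 : Disjoint ((range m).filter (fun x => cl x = p))
          ((range m).filter (fun x => cl x = t)) := by
        rw [disjoint_left]
        intro x hx hx'
        simp only [mem_filter] at hx hx'
        omega
      have h10 : Disjoint ((range m).filter (fun x => m ≤ cl x))
          ((range m).filter (fun x => cl x = p) ∪ (range m).filter (fun x => cl x = t)) := by
        rw [disjoint_left]
        intro x hx hx'
        simp only [mem_filter, mem_union] at hx hx'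
        omega
      have h11 := sum_le_sum_of_subset (f := w) h8
      rw [sum_union h10, sum_union h9] at h11
      rw [add_mul, one_mul]
      omega

/-- all edges -/
theorem FS.exists_zero {m : ℕ} {par w : ℕ → ℕ} {k l : ℕ} (hm : 0 < m)
    (hpar : ∀ i, 0 < i → i < m → par i < i) (hw : ∀ i < m, w i ≤ k) :
    ∀ n, n < m → ∃ (cl : ℕ → ℕ) (gd : ℕ → Finset ℕ) (r : ℕ), FS m par w k l (m - 1 - n) cl gd r := by
  intro n
  induction n with
  | zero => exact fun _ => ⟨_, _, _, FS.init hm hw⟩
  | succ n ih =>
    intro hn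
    obtain ⟨cl, gd, r, h⟩ := ih (by omega)
    have ht : 0 < m - 1 - n := by omega
    have htm : m - 1 - n < m := by omega
    have hp := hpar _ ht htm
    have e1 : m - 1 - (n + 1) = m - 1 - n - 1 := by omega
    rw [e1]
    by_cases hc : 2 ≤ (gd (par (m - 1 - n))).card + (gd (m - 1 - n)).card ∨
        l ≤ ∑ x ∈ (range m).filter (fun x => cl x = par (m - 1 - n)), w x +
        ∑ x ∈ (range m).filter (fun x => cl x = m - 1 - n), w x
    · exact h.close hpar ht htm hp hc
    · rw [not_or] at hc
      exact h.merge ht htm hp (by omega) (by omega)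

/-- **Fragments.** -/
theorem exists_fragments {m : ℕ} {par w : ℕ → ℕ} {k l N : ℕ} (hm : 0 < m)
    (hpar : ∀ i, 0 < i → i < m → par i < i) (hw : ∀ i < m, w i ≤ k)
    (hN : ∑ x ∈ range m, w x ≤ N) :
    ∃ (r : ℕ) (cl : ℕ → ℕ) (p q : ℕ → ℕ), r * l ≤ 4 * N + l ∧ (∀ x < m, cl x < r) ∧
      (∀ A < r, ∑ x ∈ (range m).filter (fun x => cl x = A), w x ≤ l + k) ∧
      (∀ A < r, (p A < m ∧ (p A = p (cl (p A)) ∨ p A = q (cl (p A)))) ∧
        (q A < m ∧ (q A = p (cl (q A)) ∨ q A = q (cl (q A))))) ∧
      ∀ i, 0 < i → i < m → cl i = cl (par i) ∨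
        (((i = p (cl i) ∨ i = q (cl i)) ∨ (par i = p (cl i) ∨ par i = q (cl i))) ∧
        ((i = p (cl (par i)) ∨ i = q (cl (par i))) ∨
          (par i = p (cl (par i)) ∨ par i = q (cl (par i))))) := by
  obtain ⟨cl, gd, r, h⟩ := FS.exists_zero (k := k) (l := l) hm hpar hw (m - 1) (by omega)
  rw [Nat.sub_self] at h
  -- close the last fragment
  obtain ⟨cl', hcl'⟩ : ∃ cl' : ℕ → ℕ, cl' = fun x => if cl x = 0 then r else cl x - m := ⟨_, rfl⟩
  obtain ⟨G, hG⟩ : ∃ G : ℕ → Finset ℕ, G = fun A => if A = r then insert 0 (gd 0) else gd (m + A) :=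
    ⟨_, rfl⟩
  have hcl0 : ∀ x, cl x = 0 → cl' x = r := by intro x hx; rw [hcl']; simp [hx]
  have hcln : ∀ x < m, cl x ≠ 0 → cl' x = cl x - m ∧ cl x = m + cl' x ∧ cl' x < r := by
    intro x hx h0
    have h1 : cl' x = cl x - m := by rw [hcl']; simp [h0]
    rcases h.cl_lt x hx with h2 | h2
    · omega
    · exact ⟨h1, by omega, by omega⟩
  have hGr : G r = insert 0 (gd 0) := by rw [hG]; simp
  have hGn : ∀ A, A ≠ r → G A = gd (m + A) := by intro A hA; rw [hG]; simp [hA]
  have hGsub : ∀ x < m, gd (cl x) ⊆ G (cl' x) := by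
    intro x hx
    by_cases h0 : cl x = 0
    · rw [hcl0 x h0, h0, hGr]; exact subset_insert _ _
    · obtain ⟨-, h1, h2⟩ := hcln x hx h0
      rw [hGn _ (by omega), ← h1]
  have hG0 : 0 < m ∧ 0 ∈ G (cl' 0) := by
    refine ⟨hm, ?_⟩
    rcases h.own 0 le_rfl with h1 | h1
    · rw [hcl0 0 h1, hGr]; exact mem_insert_self _ _
    · exact hGsub 0 hm (h.mark 0 (Or.inl le_rfl) 0 h1).2.2
  have hGmark : ∀ A < r + 1, ∀ x ∈ G A, x < m ∧ x ∈ G (cl' x) := by
    intro A hA x hx
    by_cases hAr : A = r
    · rw [hAr, hGr, mem_insert] at hx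
      rcases hx with hx | hx
      · rw [hx]; exact hG0
      · obtain ⟨h1, -, h3⟩ := h.mark 0 (Or.inl le_rfl) x hx
        exact ⟨h1, hGsub x h1 h3⟩
    · rw [hGn A hAr] at hx
      obtain ⟨h1, -, h3⟩ := h.mark (m + A) (Or.inr (by omega)) x hx
      exact ⟨h1, hGsub x h1 h3⟩
  have hGcard : ∀ A < r + 1, (G A).card ≤ 2 ∧ (G A).Nonempty := by
    intro A hA
    by_cases hAr : A = r
    · rw [hAr, hGr]
      refine ⟨(card_insert_le _ _).trans ?_, insert_nonempty _ _⟩
      have := h.card1 0 le_rfl
      omega
    · rw [hGn A hAr]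
      exact h.card2 (m + A) (by omega) (by omega)
  have hpq : ∀ A, ∃ p q : ℕ, A < r + 1 → p ∈ G A ∧ q ∈ G A ∧ ∀ x ∈ G A, x = p ∨ x = q := by
    intro A
    by_cases hA : A < r + 1
    · obtain ⟨h1, ⟨x, hx⟩⟩ := hGcard A hA
      by_cases h2 : ∃ y ∈ G A, y ≠ x
      · obtain ⟨y, hy, hyx⟩ := h2
        refine ⟨x, y, fun _ => ⟨hx, hy, fun z hz => ?_⟩⟩
        by_contra hcon
        rw [not_or] at hcon
        have h3 : ({z, x, y} : Finset ℕ) ⊆ G A := by
          intro a ha
          simp only [mem_insert, mem_singleton] at ha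
          rcases ha with rfl | rfl | rfl <;> assumption
        have h4 := card_le_card h3
        have h5 : ({z, x, y} : Finset ℕ).card = 3 := by
          rw [card_eq_three]
          exact ⟨z, x, y, hcon.1, hcon.2, fun h => hyx h.symm, rfl⟩
        omega
      · push Not at h2
        exact ⟨x, x, fun _ => ⟨hx, hx, fun z hz => Or.inl (h2 z hz)⟩⟩
    · exact ⟨0, 0, fun h => absurd h hA⟩
  choose p q hpq using hpq
  have hcllt : ∀ x < m, cl' x < r + 1 := by
    intro x hx
    by_cases h0 : cl x = 0
    · rw [hcl0 x h0]; omega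
    · have := (hcln x hx h0).2.2
      omega
  have hmem : ∀ x < m, ∀ y ∈ gd (cl x), y = p (cl' x) ∨ y = q (cl' x) := fun x hx y hy =>
    (hpq (cl' x) (hcllt x hx)).2.2 y (hGsub x hx hy)
  refine ⟨r + 1, cl', p, q, ?_, hcllt, ?_, ?_, ?_⟩
  · obtain ⟨a, b, h1, h2, h3⟩ := h.count
    have h4 : ∑ x ∈ (range m).filter (fun x => m ≤ cl x), w x ≤ N :=
      (sum_le_sum_of_subset (filter_subset _ _)).trans hN
    have h5 : a * l ≤ N := h2.trans h4
    have h6 : r + 1 ≤ 4 * a + 1 := by omega
    calc (r + 1) * l ≤ (4 * a + 1) * l := Nat.mul_le_mul_right l h6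
      _ = 4 * (a * l) + l := by ring
      _ ≤ 4 * N + l := by omega
  · intro A hA
    by_cases hAr : A = r
    · refine le_trans (sum_le_sum_of_subset ?_) (h.weight 0)
      intro x hx
      simp only [mem_filter, mem_range] at hx ⊢
      refine ⟨hx.1, ?_⟩
      by_contra h0
      have := (hcln x hx.1 h0).2.2
      omega
    · refine le_trans (sum_le_sum_of_subset ?_) (h.weight (m + A))
      intro x hx
      simp only [mem_filter, mem_range] at hx ⊢
      refine ⟨hx.1, ?_⟩
      by_cases h0 : cl x = 0
      · rw [hcl0 x h0] at hx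
        omega
      · have := (hcln x hx.1 h0).2.1
        omega
  · intro A hA
    obtain ⟨h1, h2, -⟩ := hpq A hA
    obtain ⟨h3, h4⟩ := hGmark A hA _ h1
    obtain ⟨h5, h6⟩ := hGmark A hA _ h2
    exact ⟨⟨h3, (hpq _ (hcllt _ h3)).2.2 _ h4⟩, ⟨h5, (hpq _ (hcllt _ h5)).2.2 _ h6⟩⟩
  · intro i hi him
    have hpm : par i < m := (hpar i hi him).trans him
    rcases h.edge i hi him with h1 | ⟨h1, h2⟩
    · left
      rw [hcl']
      simp only [h1]
    · right
      exact ⟨h1.imp (hmem i him i) (hmem i him _), h2.imp (hmem _ hpm _) (hmem _ hpm _)⟩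

end Pool.Agent.NUM.Region
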