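import Mathlib

/-!
# Computation graphs which fall apart

The passes of a computation are `0, …, N`; pass `t + 1` uses the passes `t` and `rc t` (the latter
only if `rc t ≤ t`).
-/

namespace Pool.Agent.NUM

/-- After deleting at most `K` of the passes `0, …, N` (the set `X`) the computation graph falls into
parts of at most `l` passes: `f` is constant along the edges `t — t + 1` and `rc t — t + 1` between
passes which are not deleted. -/
def FragOK (N : ℕ) (rc : ℕ → ℕ) (K l : ℕ) : Prop :=
  ∃ X : Finset ℕ, X.card ≤ K ∧ ∃ f : ℕ → ℕ,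
    (∀ t < N, t + 1 ∉ X → (t ∉ X → f t = f (t + 1)) ∧
      (rc t ≤ t → rc t ∉ X → f (rc t) = f (t + 1))) ∧
    ∀ j, ((Finset.range (N + 1)).filter fun u => u ∉ X ∧ f u = j).card ≤ l

end Pool.Agent.NUM
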