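import Pool.Agent.NUM.HFam

/-!
# Theorem H(γ), abstract part: exponent trading with families of local lists

`Cls` is the class of the problems which are decided by the 3SAT program on virtual instances. From the
interface `TradeG S Cls c γ` we derive a contradiction for `1 < c`,
`c³ - (1 - γ) c² - (2 - γ) c + (1 - γ) < 0`.
-/

set_option autoImplicit false

namespace Pool.Agent.NUM

/-- `Y` has proofs `y` with `2 ^ ((u + o(1)) L)` bits, `Z` has no proofs; the proofs are verified in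
the class `Cls` -/
def Cert (Cls : (T : Type) → Pres T → (T → Prop) → ℝ → Prop) {T : Type} (u : ℝ) (π : Pres T)
    (Y Z : T → Prop) (e : ℝ) : Prop :=
  ∃ (β : ℕ → ℕ) (B : T × Inp → Prop), Lin u β ∧ Cls (T × Inp) (π.ext β) B e ∧
    ∃ L₀, ∀ τ, L₀ ≤ π.idx τ → (Y τ → ∃ y, B (τ, y)) ∧ (Z τ → ∀ y, ¬ B (τ, y))

/-- the class of all problems -/
def ClsH : (T : Type) → Pres T → (T → Prop) → ℝ → Prop := fun _ π P e => InH π P e

/-- `Y` has proofs `y` with `2 ^ ((x + o(1)) L)` bits, which are refuted by strings `v` with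
`2 ^ ((u + o(1)) L)` bits; for `Z` every `y` is refuted -/
def Dual {T : Type} (x u : ℝ) (π : Pres T) (Y Z : T → Prop) (e : ℝ) : Prop :=
  ∃ (β β' : ℕ → ℕ) (A : (T × Inp) × Inp → Prop), Lin x β ∧ Lin u β' ∧
    InH ((π.ext β).ext β') A e ∧
    ∃ L₀, ∀ τ, L₀ ≤ π.idx τ → (Y τ → ∃ y, ∀ v, ¬ A ((τ, y), v)) ∧ (Z τ → ∀ y, ∃ v, A ((τ, y), v))

/-- **Families of list problems.** Level `r` has the instances `(τ, l)`, where `l` is a list with
`2 ^ ((γ r + o(1)) L)` bits about at most `2 ^ ((r + o(1)) L)` passes of the computation on `τ`: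
`Tr r` true lists, `Bad r` bad lists. -/
structure IsFam (γ : ℝ) {T : Type} (π : Pres T) (P : T → Prop) (e₀ : ℝ) (w : ℝ → ℕ → ℕ)
    (Tr Bad : ℝ → T × Inp → Prop) : Prop where
  lin : ∀ r, 0 ≤ r → r ≤ e₀ → Lin (γ * r) (w r)
  /-- simulation along the list -/
  base : ∀ r, 0 ≤ r → r ≤ e₀ → ∃ A : T × Inp → Prop, InH (π.ext (w r)) A r ∧
    ∃ L₀, ∀ p : T × Inp, L₀ ≤ π.idx p.1 → (Bad r p → A p) ∧ (Tr r p → ¬ A p)
  /-- from level `r` to level `e` -/
  step : ∀ r e, 0 ≤ r → r ≤ e → e ≤ e₀ → ∀ u e' : ℝ, 0 ≤ u → 0 ≤ e' →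
    Cert ClsH u (π.ext (w r)) (Bad r) (Tr r) e' →
    Dual (e - (1 - γ) * r) u (π.ext (w e)) (Bad e) (Tr e) e'
  /-- from level `r` to the problem itself -/
  top : ∀ r, 0 ≤ r → r ≤ e₀ → ∀ u e' : ℝ, 0 ≤ u → 0 ≤ e' →
    Cert ClsH u (π.ext (w r)) (Bad r) (Tr r) e' →
    Dual (e₀ - (1 - γ) * r) u π P (fun τ => ¬ P τ) e'

/-- the interface -/
structure TradeG (S : Set ℕ) (Cls : (T : Type) → Pres T → (T → Prop) → ℝ → Prop) (c γ : ℝ) :
    Prop where
  mono : ∀ {T : Type} {π : Pres T} {P : T → Prop} {e e' : ℝ}, Cls T π P e → e ≤ e' → Cls T π P e'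
  not : ∀ {T : Type} {π : Pres T} {P : T → Prop} {b e : ℝ}, Size π b → Cls T π P e →
    Cls T π (fun τ => ¬ P τ) e
  merge : ∀ {T : Type} {π : Pres T} {b u u' e : ℝ} {β β' : ℕ → ℕ}
    {C : (T × Inp) × Inp → Prop}, Size π b → Lin u β → Lin u' β' →
    Cls _ ((π.ext β).ext β') C e →
    ∃ β'' : ℕ → ℕ, Lin (max u u') β'' ∧
      Cls _ (π.ext β'')
        (fun p => C ((p.1, fun a => p.2 (false :: a)), fun a => p.2 (true :: a))) e
  toH : ∀ {T : Type} {π : Pres T} {P : T → Prop} {e : ℝ}, Cls T π P e → InH π P e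
  dummyH : ∀ {T : Type} {π : Pres T} {P : T → Prop} {b u e : ℝ} {β : ℕ → ℕ}, Size π b →
    Lin u β → InH π P e → InH (π.ext β) (fun p => P p.1) e
  elim : ∀ {T : Type} {π : Pres T} {b u e : ℝ} {β : ℕ → ℕ} {A : T × Inp → Prop},
    (∀ τ, π.idx τ ∈ S) → 1 ≤ b → Size π b → Lin u β → InH (π.ext β) A e →
    Cls T π (fun τ => ∃ y, A (τ, y)) (c * max b (max u e))
  fam : ∀ {T : Type} {π : Pres T} {P : T → Prop} {b e : ℝ}, Size π b → 0 ≤ e → Cls T π P e →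
    ∃ (w : ℝ → ℕ → ℕ) (Tr Bad : ℝ → T × Inp → Prop), IsFam γ π P e w Tr Bad
  diag : ∀ (a : ℕ) (u e : ℝ), 1 ≤ a → u ≤ e → e < a →
    ∃ (T : Type) (π : Pres T) (D : T → Prop), (∀ τ, π.idx τ ∈ S) ∧ Size π 1 ∧
      Cls T π D (c * a) ∧ ¬ InEH u π D e

section

variable {S : Set ℕ} {Cls : (T : Type) → Pres T → (T → Prop) → ℝ → Prop} {c γ : ℝ}

theorem Cert.mono (H : TradeG S Cls c γ) {T : Type} {u e e' : ℝ} {π : Pres T} {Y Z : T → Prop}
    (h : Cert Cls u π Y Z e) (he : e ≤ e') : Cert Cls u π Y Z e' := by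
  obtain ⟨β, B, h1, h2, h3⟩ := h
  exact ⟨β, B, h1, H.mono h2 he, h3⟩

theorem Cert.toH (H : TradeG S Cls c γ) {T : Type} {u e : ℝ} {π : Pres T} {Y Z : T → Prop}
    (h : Cert Cls u π Y Z e) : Cert ClsH u π Y Z e := by
  obtain ⟨β, B, h1, h2, h3⟩ := h
  exact ⟨β, B, h1, H.toH h2, h3⟩

/-- slow down -/
theorem Dual.cert (H : TradeG S Cls c γ) {T : Type} {x u e b : ℝ} {π : Pres T} {Y Z : T → Prop}
    (hπ : ∀ τ, π.idx τ ∈ S) (hb : 1 ≤ b) (hs : Size π b) (h : Dual x u π Y Z e) :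
    Cert Cls x π Y Z (c * max (max b x) (max u e)) := by
  obtain ⟨β, β', A, h1, h2, h3, L₀, h4⟩ := h
  have hs' : Size (π.ext β) (max b x) := hs.ext h1
  have h5 := H.elim (fun p => hπ p.1) (hb.trans (le_max_left b x)) hs' h2 h3
  have h6 := H.not hs' h5
  refine ⟨β, _, h1, h6, L₀, fun τ hτ => ?_⟩
  obtain ⟨g1, g2⟩ := h4 τ hτ
  refine ⟨fun hY => ?_, fun hZ y hy => ?_⟩
  · obtain ⟨y, hy⟩ := g1 hY
    exact ⟨y, fun ⟨v, hv⟩ => hy v hv⟩
  · exact hy (g2 hZ y)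

/-- a certificate without string -/
theorem cert_of_base (H : TradeG S Cls c γ) {T : Type} {π : Pres T} {b e : ℝ} {Y Z A : T → Prop}
    (hs : Size π b) (hA : InH π A e)
    (h : ∃ L₀, ∀ τ, L₀ ≤ π.idx τ → (Y τ → A τ) ∧ (Z τ → ¬ A τ)) : Cert ClsH 0 π Y Z e := by
  obtain ⟨L₀, h⟩ := h
  refine ⟨fun _ => 0, fun p => A p.1, Lin.zero le_rfl, H.dummyH hs (Lin.zero le_rfl) hA, L₀,
    fun τ hτ => ⟨fun hY => ⟨fun _ => false, (h τ hτ).1 hY⟩, fun hZ _ => (h τ hτ).2 hZ⟩⟩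

/-- the base certificate of a family -/
theorem IsFam.cert0 (H : TradeG S Cls c γ) {T : Type} {π : Pres T} {P : T → Prop} {b e₀ : ℝ}
    {w : ℝ → ℕ → ℕ} {Tr Bad : ℝ → T × Inp → Prop} (hs : Size π b) (F : IsFam γ π P e₀ w Tr Bad)
    {r : ℝ} (hr : 0 ≤ r) (hre : r ≤ e₀) : Cert ClsH 0 (π.ext (w r)) (Bad r) (Tr r) r := by
  obtain ⟨A, hA, L₀, h⟩ := F.base r hr hre
  exact cert_of_base H (hs.ext (F.lin r hr hre)) hA ⟨L₀, fun p hp => h p hp⟩

/-- one round: speed up, merge, slow down -/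
theorem Cert.round (H : TradeG S Cls c γ) (hγ : 0 ≤ γ) (hγ1 : γ < 1) {T : Type} {π : Pres T}
    {Y Z : T → Prop} {b u e : ℝ} (hπ : ∀ τ, π.idx τ ∈ S) (hb : 1 ≤ b) (hbu : b ≤ u)
    (hs : Size π b) (hue : u ≤ e) (hγe : γ * e ≤ u) (h : Cert Cls u π Y Z e) :
    Cert Cls u π Y Z (c * max u ((e - u) / (1 - γ))) := by
  obtain ⟨β, B, hL, hB, n0, hP⟩ := h
  have hu0 : 0 ≤ u := by linarith
  have h1γ : 0 < 1 - γ := by linarith
  have hs1 : Size (π.ext β) u := by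
    have := hs.ext hL
    rwa [max_eq_right hbu] at this
  obtain ⟨w, Tr, Bad, F⟩ := H.fam hs1 (by linarith) hB
  set r : ℝ := (e - u) / (1 - γ) with hr
  have hr0 : 0 ≤ r := div_nonneg (by linarith) h1γ.le
  have hre : r ≤ e := by
    rw [hr, div_le_iff₀ h1γ]
    linarith
  have hx : e - (1 - γ) * r = u := by
    rw [hr]
    field_simp
    ring
  have hD := F.top r hr0 hre 0 r le_rfl hr0 (F.cert0 H hs1 hr0 hre)
  rw [hx] at hD
  obtain ⟨β', β'', A, h1, h2, h3, L₀, h4⟩ := hD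
  have hs2 : Size ((π.ext β).ext β') u := by
    have := hs1.ext h1
    rwa [max_self] at this
  have h5 := H.not hs2 (H.elim (fun p => hπ p.1.1) (hb.trans hbu) hs2 h2 h3)
  obtain ⟨β₂, hβ₂, h6⟩ := H.merge hs hL h1 h5
  rw [max_self] at hβ₂
  rw [max_eq_right hr0] at h6
  refine ⟨β₂, _, hβ₂, h6, max n0 L₀, fun τ hτ => ?_⟩
  obtain ⟨g1, g2⟩ := hP τ (le_trans (le_max_left _ _) hτ)
  have hτ' : L₀ ≤ π.idx τ := le_trans (le_max_right _ _) hτ
  refine ⟨fun hY => ?_, fun hZ y hy => ?_⟩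
  · obtain ⟨y, hy⟩ := g1 hY
    obtain ⟨y', hy'⟩ := (h4 (τ, y) hτ').1 hy
    exact ⟨pair y y', fun ⟨v, hv⟩ => hy' v hv⟩
  · exact hy ((h4 (τ, fun a => y (false :: a)) hτ').2 (g2 hZ _) _)

/-- rounds until the time is `c u` -/
theorem Cert.reduce (H : TradeG S Cls c γ) (hc : 1 < c) (hγ : 0 ≤ γ) (hγ1 : γ < 1) {T : Type}
    {π : Pres T} {Y Z : T → Prop} {b u : ℝ} (hπ : ∀ τ, π.idx τ ∈ S) (hb : 1 ≤ b) (hbu : b ≤ u)
    (hs : Size π b) (j : ℕ) :
    ∀ e : ℝ, e < c * u / (c - 1 + γ) →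
      c * u / (c - 1 + γ) - (2 - γ) * u ≤ (c * u / (c - 1 + γ) - e) * (c / (1 - γ)) ^ j →
      Cert Cls u π Y Z e → Cert Cls u π Y Z (c * u) := by
  have hu : 0 < u := by linarith
  have h1γ : 0 < 1 - γ := by linarith
  have hcγ : 0 < c - 1 + γ := by linarith
  have hγe : ∀ e, e < c * u / (c - 1 + γ) → γ * e ≤ u := by
    intro e he
    rw [lt_div_iff₀ hcγ] at he
    have h1 : γ * (e * (c - 1 + γ)) ≤ γ * (c * u) := mul_le_mul_of_nonneg_left he.le hγ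
    have h2 : γ * (c * u) ≤ u * (c - 1 + γ) := by nlinarith [mul_pos hu h1γ]
    have h3 : (γ * e) * (c - 1 + γ) ≤ u * (c - 1 + γ) := by linarith
    exact le_of_mul_le_mul_right h3 hcγ
  have base : ∀ e : ℝ, e < c * u / (c - 1 + γ) → e ≤ (2 - γ) * u → Cert Cls u π Y Z e →
      Cert Cls u π Y Z (c * u) := by
    intro e he he2 h
    rcases le_total e u with h1 | h1
    · exact h.mono H (h1.trans (by nlinarith))
    · refine (h.round H hγ hγ1 hπ hb hbu hs h1 (hγe e he)).mono H ?_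
      rw [max_eq_left]
      rw [div_le_iff₀ h1γ]
      linarith
  induction j with
  | zero =>
    intro e he he2 h
    exact base e he (by rw [pow_zero, mul_one] at he2; linarith) h
  | succ j ih =>
    intro e he he2 h
    rcases le_total e ((2 - γ) * u) with h2 | h2
    · exact base e he h2 h
    · have hue : u ≤ e := by nlinarith
      have h3 := h.round H hγ hγ1 hπ hb hbu hs hue (hγe e he)
      rw [max_eq_right (by rw [le_div_iff₀ h1γ]; linarith)] at h3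
      have hkey : c * u / (c - 1 + γ) - c * ((e - u) / (1 - γ)) =
          (c * u / (c - 1 + γ) - e) * (c / (1 - γ)) := by
        field_simp
        ring
      have hpos : 0 < (c * u / (c - 1 + γ) - e) * (c / (1 - γ)) :=
        mul_pos (by linarith) (div_pos (by linarith) h1γ)
      refine ih _ (by linarith) ?_ h3
      rw [hkey]
      calc _ ≤ _ := he2
        _ = _ := by rw [pow_succ]; ring

theorem Cert.reduce' (H : TradeG S Cls c γ) (hc : 1 < c) (hγ : 0 ≤ γ) (hγ1 : γ < 1) {T : Type}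
    {π : Pres T} {Y Z : T → Prop} {b u e : ℝ} (hπ : ∀ τ, π.idx τ ∈ S) (hb : 1 ≤ b) (hbu : b ≤ u)
    (hs : Size π b) (he : e < c * u / (c - 1 + γ)) (h : Cert Cls u π Y Z e) :
    Cert Cls u π Y Z (c * u) := by
  have h1γ : 0 < 1 - γ := by linarith
  have hρ : 1 < c / (1 - γ) := by
    rw [lt_div_iff₀ h1γ]
    linarith
  obtain ⟨j, hj⟩ := pow_unbounded_of_one_lt
    ((c * u / (c - 1 + γ) - (2 - γ) * u) / (c * u / (c - 1 + γ) - e)) hρ
  refine h.reduce H hc hγ hγ1 hπ hb hbu hs j e he ?_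
  have : 0 < c * u / (c - 1 + γ) - e := by linarith
  rw [div_lt_iff₀ this] at hj
  linarith [hj]

/-- the statement `G(f)` for the families of lists -/
def GN (S : Set ℕ) (Cls : (T : Type) → Pres T → (T → Prop) → ℝ → Prop) (c γ f : ℝ) : Prop :=
  ∃ K : ℝ, 0 < K ∧ ∀ (T : Type) (π : Pres T) (P : T → Prop) (b e₀ : ℝ) (w : ℝ → ℕ → ℕ)
    (Tr Bad : ℝ → T × Inp → Prop), (∀ τ, π.idx τ ∈ S) → 1 ≤ b → Size π b →
    IsFam γ π P e₀ w Tr Bad → ∀ r, K * b ≤ r → r ≤ e₀ →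
      Cert Cls (f * r) (π.ext (w r)) (Bad r) (Tr r) (c * (f * r))

theorem GN.one (H : TradeG S Cls c γ) (hγ1 : γ < 1) : GN S Cls c γ 1 := by
  refine ⟨1, one_pos, ?_⟩
  intro T π P b e₀ w Tr Bad hπ hb hs F r hr hre
  rw [one_mul] at hr ⊢
  have hr0 : 0 ≤ r := by linarith
  have hs1 : Size (π.ext (w r)) r := (hs.ext (F.lin r hr0 hre)).mono
    (max_le hr (by nlinarith))
  obtain ⟨A, hA, L₀, h⟩ := F.base r hr0 hre
  have hs2 : Size ((π.ext (w r)).ext fun _ => 0) r := by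
    have := hs1.ext (Lin.zero (le_refl 0))
    rwa [max_eq_left hr0] at this
  have h1 := H.dummyH hs1 (Lin.zero (le_refl 0)) hA
  have h2 := H.dummyH hs2 (Lin.zero (le_refl 0)) h1
  have h3 := H.elim (fun p => hπ p.1.1) (hb.trans hr) hs2 (Lin.zero (le_refl 0)) h2
  rw [max_eq_right hr0, max_self] at h3
  refine ⟨fun _ => 0, _, Lin.zero hr0, h3, L₀, fun p hp => ?_⟩
  obtain ⟨g1, g2⟩ := h p hp
  exact ⟨fun hB => ⟨fun _ => false, fun _ => false, g1 hB⟩, fun hT y ⟨_, hy⟩ => g2 hT hy⟩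

/-- slow down and rounds, for a dual certificate of the right sizes -/
theorem Dual.push (H : TradeG S Cls c γ) (hc : 1 < c) (hc2 : c < 2 - γ) (hγ : 0 ≤ γ) (hγ1 : γ < 1)
    {f f' : ℝ} (hf : 0 < f) (hf' : 0 < f') (hf1 : f' < 1)
    (hff : c * (c - 1 + γ) * f / ((1 - γ) + c * (c - 1 + γ) * f) < f') {T : Type} {π : Pres T}
    {Y Z : T → Prop} {b e : ℝ} (hπ : ∀ τ, π.idx τ ∈ S) (hb : 1 ≤ b) (hs : Size π b) (he : 0 < e)
    (hbe : b ≤ f' * e)
    (h : Dual (f' * e) (f * ((1 - f') * e / (1 - γ))) π Y Z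
      (c * (f * ((1 - f') * e / (1 - γ))))) : Cert Cls (f' * e) π Y Z (c * (f' * e)) := by
  have h1γ : 0 < 1 - γ := by linarith
  have hcγ : 0 < c - 1 + γ := by linarith
  set r : ℝ := (1 - f') * e / (1 - γ) with hr
  have hr0 : 0 ≤ r := div_nonneg (mul_nonneg (by linarith) he.le) h1γ.le
  have hfr : 0 ≤ f * r := mul_nonneg hf.le hr0
  have h1 := h.cert H hπ hb hs
  rw [max_eq_right hbe, max_eq_right (show f * r ≤ c * (f * r) by nlinarith)] at h1
  refine h1.reduce' H hc hγ hγ1 hπ hb hbe hs ?_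
  have hfe : 0 < f' * e := by positivity
  rw [lt_div_iff₀ hcγ]
  rcases le_total (f' * e) (c * (f * r)) with h2 | h2
  · rw [max_eq_right h2]
    have hm : 0 < c * (c - 1 + γ) * f := by positivity
    rw [div_lt_iff₀ (by positivity)] at hff
    have key : c * (c - 1 + γ) * f * (1 - f') < (1 - γ) * f' := by nlinarith
    have e1 : c * (c * (f * r)) * (c - 1 + γ) =
        c * (e / (1 - γ)) * (c * (c - 1 + γ) * f * (1 - f')) := by
      rw [hr]
      ring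
    have e2 : c * (f' * e) = c * (e / (1 - γ)) * ((1 - γ) * f') := by
      field_simp
    rw [e1, e2]
    exact mul_lt_mul_of_pos_left key (by positivity)
  · rw [max_eq_left h2]
    have : c * (f' * e) * (c - 1 + γ) < c * (f' * e) * 1 :=
      mul_lt_mul_of_pos_left (by linarith) (by positivity)
    linarith

theorem GN.step (H : TradeG S Cls c γ) (hc : 1 < c) (hc2 : c < 2 - γ) (hγ : 0 ≤ γ) (hγ1 : γ < 1)
    {f f' : ℝ} (hf : 0 < f) (hf' : 0 < f') (hγf : γ ≤ f') (hf1 : f' < 1)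
    (hff : c * (c - 1 + γ) * f / ((1 - γ) + c * (c - 1 + γ) * f) < f') (h : GN S Cls c γ f) :
    GN S Cls c γ f' := by
  obtain ⟨K, hK, hG⟩ := h
  have h1γ : 0 < 1 - γ := by linarith
  have h1f : 0 < 1 - f' := by linarith
  refine ⟨max (K * (1 - γ) / (1 - f')) (max 1 (1 / f')), by positivity, ?_⟩
  intro T π P b e₀ w Tr Bad hπ hb hs F e he hee
  have hKb : K * b ≤ (1 - f') * e / (1 - γ) := by
    have h2 : K * (1 - γ) / (1 - f') * b ≤ e := le_trans (by gcongr; exact le_max_left _ _) he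
    rw [div_mul_eq_mul_div, div_le_iff₀ h1f] at h2
    rw [le_div_iff₀ h1γ]
    linarith
  have hbe : b ≤ f' * e := by
    have h2 : 1 / f' * b ≤ e :=
      le_trans (by gcongr; exact (le_max_right _ _).trans (le_max_right _ _)) he
    rw [div_mul_eq_mul_div, div_le_iff₀ hf'] at h2
    linarith
  have he0 : 0 < e := by
    have : 0 < f' * e := by linarith
    exact (mul_pos_iff_of_pos_left hf').mp this
  set r : ℝ := (1 - f') * e / (1 - γ) with hr
  have hr0 : 0 ≤ r := div_nonneg (mul_nonneg (by linarith) he0.le) h1γ.le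
  have hre : r ≤ e := by
    rw [hr, div_le_iff₀ h1γ]
    nlinarith
  have hx : e - (1 - γ) * r = f' * e := by
    rw [hr]
    field_simp
    ring
  have h1 := hG T π P b e₀ w Tr Bad hπ hb hs F r hKb (hre.trans hee)
  have hfr : 0 ≤ f * r := mul_nonneg hf.le hr0
  have h2 := F.step r e hr0 hre hee (f * r) (c * (f * r)) hfr
    (mul_nonneg (by linarith) hfr) (h1.toH H)
  rw [hx] at h2
  have hs1 : Size (π.ext (w e)) (max b (γ * e)) := hs.ext (F.lin e he0.le hee)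
  exact h2.push H hc hc2 hγ hγ1 hf hf' hf1 hff (fun p => hπ p.1) (hb.trans (le_max_left _ _)) hs1 he0
    (max_le hbe (by nlinarith))

/-- there is `f` with `G(f)` and `c² f < 1` -/
theorem GN.small (H : TradeG S Cls c γ) (hc : 1 < c) (hc2 : c < 2 - γ) (hγ : 0 ≤ γ) (hγ1 : γ < 1)
    (hcγ2 : c ^ 2 * γ < 1) (hc3 : c ^ 3 - (1 - γ) * c ^ 2 - (2 - γ) * c + (1 - γ) < 0) :
    ∃ f : ℝ, 0 < f ∧ c ^ 2 * f < 1 ∧ GN S Cls c γ f := by
  by_contra hcon
  push Not at hcon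
  have h1γ : 0 < 1 - γ := by linarith
  have hcγ : 0 < c - 1 + γ := by linarith
  have hc0 : 0 < c := by linarith
  set m : ℝ := c * (c - 1 + γ) with hm
  have hm0 : 0 < m := by positivity
  set F : Set ℝ := {f | 0 < f ∧ γ ≤ f ∧ f ≤ 1 ∧ GN S Cls c γ f} with hF
  have h1F : (1 : ℝ) ∈ F := ⟨one_pos, hγ1.le, le_rfl, GN.one H hγ1⟩
  have hbdd : ∀ f ∈ F, 1 / c ^ 2 ≤ f := by
    intro f hf
    by_contra h
    push Not at h
    rw [lt_div_iff₀ (by positivity)] at h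
    exact hcon f hf.1 (by linarith) hf.2.2.2
  set f0 := sInf F with hf0
  have hf0l : 1 / c ^ 2 ≤ f0 := le_csInf ⟨1, h1F⟩ hbdd
  have hf0p : 0 < f0 := lt_of_lt_of_le (by positivity) hf0l
  have hf01 : f0 ≤ 1 := csInf_le ⟨1 / c ^ 2, hbdd⟩ h1F
  have hγf0 : γ < f0 := by
    refine lt_of_lt_of_le ?_ hf0l
    rw [lt_div_iff₀ (by positivity)]
    linarith
  have hk : m < (1 - γ) + m * f0 := by
    have h2 : m < (1 - γ) + m * (1 / c ^ 2) := by
      rw [hm]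
      have h3 : c * (c - 1 + γ) * (1 / c ^ 2) = (c - 1 + γ) / c := by
        field_simp
      rw [h3]
      have h4 : (1 - γ) + (c - 1 + γ) / c = ((1 - γ) * c + (c - 1 + γ)) / c := by
        field_simp
      rw [h4, lt_div_iff₀ hc0]
      nlinarith
    calc m < (1 - γ) + m * (1 / c ^ 2) := h2
      _ ≤ (1 - γ) + m * f0 := by gcongr
  have hg : m * f0 / ((1 - γ) + m * f0) < f0 := by
    rw [div_lt_iff₀ (by positivity)]
    nlinarith
  have hcont : ContinuousAt (fun f : ℝ => m * f / ((1 - γ) + m * f)) f0 := by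
    apply ContinuousAt.div (by fun_prop) (by fun_prop)
    positivity
  have hev : ∀ᶠ f in nhds f0, m * f / ((1 - γ) + m * f) < f0 :=
    hcont.eventually (gt_mem_nhds hg)
  obtain ⟨ε, hε, hball⟩ := Metric.eventually_nhds_iff.mp hev
  obtain ⟨f, hfF, hff0⟩ := exists_lt_of_csInf_lt ⟨1, h1F⟩ (show sInf F < f0 + ε by linarith)
  have hff : f0 ≤ f := csInf_le ⟨1 / c ^ 2, hbdd⟩ hfF
  have hgf : m * f / ((1 - γ) + m * f) < f0 := hball (by
    rw [Real.dist_eq, abs_of_nonneg (by linarith)]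
    linarith)
  obtain ⟨f', hf'1, hf'2⟩ := exists_between (max_lt hgf hγf0)
  have hgf' : m * f / ((1 - γ) + m * f) < f' := lt_of_le_of_lt (le_max_left _ _) hf'1
  have hγf' : γ < f' := lt_of_le_of_lt (le_max_right _ _) hf'1
  have hf'0 : 0 < f' := lt_trans (by have := hfF.1; positivity) hgf'
  have hG' : GN S Cls c γ f' :=
    GN.step H hc hc2 hγ hγ1 hfF.1 hf'0 hγf'.le (by linarith) hgf' hfF.2.2.2
  have : f0 ≤ f' := csInf_le ⟨1 / c ^ 2, hbdd⟩ ⟨hf'0, hγf'.le, by linarith, hG'⟩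
  linarith

theorem not_TradeG' (hc : 1 < c) (hc2 : c < 2 - γ) (hγ : 0 ≤ γ) (hγ1 : γ < 1)
    (hcγ2 : c ^ 2 * γ < 1) (hc3 : c ^ 3 - (1 - γ) * c ^ 2 - (2 - γ) * c + (1 - γ) < 0) :
    ¬ TradeG S Cls c γ := by
  intro H
  obtain ⟨f, hf, hcf, K, hK, hG⟩ := GN.small H hc hc2 hγ hγ1 hcγ2 hc3
  have h1γ : 0 < 1 - γ := by linarith
  have hcγ : 0 < c - 1 + γ := by linarith
  have hc0 : 0 < c := by linarith
  have hc2p : 0 < c ^ 2 := by positivity
  have hm0 : 0 < c * (c - 1 + γ) * f := by positivity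
  -- the factor at the top
  have hg : c * (c - 1 + γ) * f / ((1 - γ) + c * (c - 1 + γ) * f) < 1 / c ^ 2 := by
    rw [div_lt_div_iff₀ (by positivity) hc2p, one_mul]
    have h1 : (c ^ 2 * f) * ((c - 1 + γ) * (c ^ 2 - 1)) ≤ 1 * ((c - 1 + γ) * (c ^ 2 - 1)) :=
      mul_le_mul_of_nonneg_right hcf.le (mul_nonneg hcγ.le (by nlinarith))
    have h2 : (c - 1 + γ) * (c ^ 2 - 1) < c * (1 - γ) := by nlinarith
    have h3 : c * (c * (c - 1 + γ) * f * (c ^ 2 - 1)) < c * (1 - γ) := by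
      calc c * (c * (c - 1 + γ) * f * (c ^ 2 - 1)) =
          (c ^ 2 * f) * ((c - 1 + γ) * (c ^ 2 - 1)) := by ring
        _ ≤ 1 * ((c - 1 + γ) * (c ^ 2 - 1)) := h1
        _ < c * (1 - γ) := by linarith
    have h4 := lt_of_mul_lt_mul_left h3 hc0.le
    nlinarith
  have hγc : γ < 1 / c ^ 2 := by
    rw [lt_div_iff₀ hc2p]
    linarith
  obtain ⟨f', hf'1, hf'2⟩ := exists_between (max_lt hg hγc)
  have hgf' : c * (c - 1 + γ) * f / ((1 - γ) + c * (c - 1 + γ) * f) < f' :=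
    lt_of_le_of_lt (le_max_left _ _) hf'1
  have hγf' : γ < f' := lt_of_le_of_lt (le_max_right _ _) hf'1
  have hf'0 : 0 < f' := lt_trans (by positivity) hgf'
  have hcf' : c ^ 2 * f' < 1 := by
    rw [lt_div_iff₀ hc2p] at hf'2
    linarith
  have hf'1' : f' < 1 := by nlinarith
  have h1f : 0 < 1 - f' := by linarith
  obtain ⟨a, ha⟩ := exists_nat_ge (max 1 (max (K * (1 - γ) / (1 - f')) (1 / f')))
  have ha1 : (1 : ℝ) ≤ a := le_trans (le_max_left _ _) ha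
  have haK : K * (1 - γ) / (1 - f') ≤ a :=
    le_trans (le_trans (le_max_left _ _) (le_max_right _ _)) ha
  have haf : 1 / f' ≤ a := le_trans (le_trans (le_max_right _ _) (le_max_right _ _)) ha
  have hca : (a : ℝ) ≤ c * a := by nlinarith
  have hca0 : 0 < c * a := by positivity
  have he : c * (f' * (c * a)) < a := by
    have : c * (f' * (c * a)) = c ^ 2 * f' * a := by ring
    rw [this]
    nlinarith
  have hue : f' * (c * a) ≤ c * (f' * (c * a)) := by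
    have : 0 ≤ f' * (c * a) := by positivity
    nlinarith
  obtain ⟨T, π, D, hπ, hs, hD, hno⟩ := H.diag a _ _ (by exact_mod_cast ha1) hue he
  obtain ⟨w, Tr, Bad, F⟩ := H.fam hs hca0.le hD
  set r : ℝ := (1 - f') * (c * a) / (1 - γ) with hr
  have hr0 : 0 ≤ r := div_nonneg (mul_nonneg (by linarith) hca0.le) h1γ.le
  have hre : r ≤ c * a := by
    rw [hr, div_le_iff₀ h1γ]
    nlinarith
  have hx : c * a - (1 - γ) * r = f' * (c * a) := by
    rw [hr]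
    field_simp
    ring
  have hKr : K * 1 ≤ r := by
    rw [hr, le_div_iff₀ h1γ]
    rw [div_le_iff₀ h1f] at haK
    nlinarith
  have h1 := hG T π D 1 (c * a) w Tr Bad hπ le_rfl hs F r hKr hre
  have hfr : 0 ≤ f * r := mul_nonneg hf.le hr0
  have h2 := F.top r hr0 hre (f * r) (c * (f * r)) hfr (mul_nonneg hc0.le hfr) (h1.toH H)
  rw [hx] at h2
  have hbe : 1 ≤ f' * (c * a) := by
    rw [div_le_iff₀ hf'0] at haf
    nlinarith
  obtain ⟨β, B, h3, h4, L₀, h5⟩ :=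
    h2.push H hc hc2 hγ hγ1 hf hf'0 hf'1' hgf' hπ le_rfl hs hca0 hbe
  refine hno ⟨β, B, h3, H.toH h4, L₀, fun τ hτ => ?_⟩
  obtain ⟨g1, g2⟩ := h5 τ hτ
  refine ⟨g1, fun ⟨y, hy⟩ => ?_⟩
  by_contra hcon
  exact g2 hcon y hy

/-- **Exponent trading for hereditary separators.** -/
theorem not_TradeG (hc : 1 < c) (hγ : 0 ≤ γ) (hγ1 : γ < 1)
    (hc3 : c ^ 3 - (1 - γ) * c ^ 2 - (2 - γ) * c + (1 - γ) < 0) : ¬ TradeG S Cls c γ := by
  have hc0 : 0 < c := by linarith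
  refine not_TradeG' hc ?_ hγ hγ1 ?_ hc3
  · by_contra h
    push Not at h
    nlinarith [mul_nonneg (show (0:ℝ) ≤ c by linarith) (show (0:ℝ) ≤ c - (2 - γ) by linarith),
      mul_nonneg (sq_nonneg c) (show (0:ℝ) ≤ c - (2 - γ) by linarith)]
  · by_contra h
    push Not at h
    have h2 : c ^ 3 - c ^ 2 - 2 * c + 1 + γ * (c ^ 2 + c - 1) < 0 := by nlinarith
    have h3 : 0 < c ^ 2 + c - 1 := by nlinarith
    have h4 : c ^ 2 * (c ^ 3 - c ^ 2 - 2 * c + 1) + (c ^ 2 + c - 1) < 0 := by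
      have h5 : c ^ 2 * (c ^ 3 - c ^ 2 - 2 * c + 1 + γ * (c ^ 2 + c - 1)) < 0 :=
        mul_neg_of_pos_of_neg (by positivity) h2
      have h6 : (c ^ 2 + c - 1) ≤ (c ^ 2 * γ) * (c ^ 2 + c - 1) := by nlinarith
      nlinarith
    have h7 : c ^ 2 * (c ^ 3 - c ^ 2 - 2 * c + 1) + (c ^ 2 + c - 1) = (c - 1) * (c ^ 2 - 1) ^ 2 := by
      ring
    rw [h7] at h4
    have : 0 ≤ (c - 1) * (c ^ 2 - 1) ^ 2 := mul_nonneg (by linarith) (sq_nonneg _)
    linarith

end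

end Pool.Agent.NUM
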