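import Pool.Agent.NUM.HChkSem

/-!
# Completeness of the check
-/

set_option autoImplicit false

namespace Pool.Agent.NUM

variable {A : Type} [DecidableEq A] {H : HM A} {L : Lst A} {κ w lim : ℕ}

/-- the own pass number at which the check of label `κ` scans entry `i` -/
def epos (L : Lst A) (κ : ℕ) : ℕ → ℕ
  | 0 => 0
  | i + 1 => epos L κ i + 1 + (if L.lb i = κ then L.tm i - L.pv i else 0)

/-- lists with `M` entries which are honest for the check of label `κ`, for a computation which halts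
after pass `N` -/
structure Hon (H : HM A) (L : Lst A) (w κ N M : ℕ) : Prop where
  pos : 0 < M
  le : M ≤ 2 ^ w
  srt : ∀ i < M, L.pv i < L.tm i
  last : L.tm (M - 1) = N
  fin : ∀ i < M, (L.fin i = true ↔ i = M - 1)
  pad : ∀ i < 2 ^ w, M ≤ i → N ≤ L.tm i
  st : ∀ i < M, L.st i = H.U (L.tm i)
  off : ∀ i < M, L.lb i = κ → L.off i = epos L κ i + 1
  rcl : ∀ i < M, L.lb i = κ → ∀ u, L.pv i ≤ u → u < L.tm i → 0 < H.idx (H.U u) →
    H.idx (H.U u) ≤ u → ∃ j < M, L.pv j < H.idx (H.U u) ∧ H.idx (H.U u) ≤ L.tm j ∧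
      (H.idx (H.U u) = L.tm j ∨ L.lb j = κ)

omit [DecidableEq A] in
theorem Hon.tm_mono {N M : ℕ} (h : Hon H L w κ N M) {i j : ℕ} (hij : i ≤ j) (hj : j < M) :
    L.tm i ≤ L.tm j := by
  induction j with
  | zero => rw [show i = 0 by omega]
  | succ j ih =>
    rcases Nat.lt_or_ge i (j + 1) with h1 | h1
    · have h2 := ih (by omega) (by omega)
      have h3 : L.tm j < L.tm (j + 1) := h.srt (j + 1) hj
      omega
    · rw [show i = j + 1 by omega]

omit [DecidableEq A] in
theorem Hon.tm_le_pv {N M : ℕ} (h : Hon H L w κ N M) {i j : ℕ} (hij : i < j) (hj : j < M) :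
    L.tm i ≤ L.pv j := by
  obtain ⟨j', rfl⟩ : ∃ j', j = j' + 1 := ⟨j - 1, by omega⟩
  exact h.tm_mono (by omega) (by omega)

omit [DecidableEq A] in
theorem Hon.tm_le {N M : ℕ} (h : Hon H L w κ N M) {i : ℕ} (hi : i < M) : L.tm i ≤ N := by
  rw [← h.last]
  exact h.tm_mono (by omega) (by have := h.pos; omega)

omit [DecidableEq A] in
theorem Hon.tm_lt {N M : ℕ} (h : Hon H L w κ N M) {i : ℕ} (hi : i + 1 < M) : L.tm i < N := by
  have h1 : L.tm i < L.tm (i + 1) := h.srt (i + 1) hi
  have h2 := h.tm_le hi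
  omega

omit [DecidableEq A] in
theorem Hon.not_bad {N M : ℕ} (h : Hon H L w κ N M) {i u : ℕ} (hi : i < M) (hu : L.pv i ≤ u)
    (hu' : u < L.tm i) (hκ : L.lb i = κ) :
    lkup L H.a0 H.e0 w κ i u (H.idx (H.U u)) ≠ .bad := by
  obtain ⟨τ, hτ⟩ : ∃ τ, τ = H.idx (H.U u) := ⟨_, rfl⟩
  have hr := h.rcl i hi hκ u hu hu'
  rw [← hτ] at hr ⊢
  unfold lkup
  by_cases c1 : u < τ
  · rw [if_pos c1]
    exact fun h => by cases h
  · rw [if_neg c1]
    by_cases c2 : τ = 0
    · rw [if_pos c2]
      exact fun h => by cases h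
    · rw [if_neg c2]
      obtain ⟨j, hj, h1, h2, h3⟩ := hr (by omega) (by omega)
      have hb : bsr L.tm τ w 0 = j := by
        apply bsr_eq (lt_of_lt_of_le hj h.le)
        intro i' hi'
        rcases Nat.lt_or_ge i' M with hM | hM
        · constructor
          · intro h4
            by_contra h5
            have := h.tm_mono (show j ≤ i' by omega) hM
            omega
          · intro h4
            have := h.tm_le_pv h4 hj
            omega
        · have h4 := h.pad i' hi' hM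
          have h5 := h.tm_le hi
          constructor
          · intro h6; omega
          · intro h6; omega
      have hji : j ≤ i := by
        by_contra h4
        have := h.tm_le_pv (show i < j by omega) hj
        omega
      rw [hb, if_pos ⟨hji, h1, h2⟩]
      by_cases c4 : τ = L.tm j
      · rw [if_pos c4]
        exact fun h => by cases h
      · rw [if_neg c4]
        rcases h3 with h3 | h3
        · exact absurd h3 c4
        · rw [if_pos h3]
          exact fun h => by cases h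

/-- `V m` is not halted for `m ≤ n`, with the invariant -/
def Alive (H : HM A) (L : Lst A) (κ w lim n : ℕ) : Prop :=
  ∀ m ≤ n, ((hck H L κ w lim).U m).hlt = false

theorem Alive.inv {n : ℕ} (h : Alive H L κ w lim n) :
    CInv H L κ w lim n ((hck H L κ w lim).U n) :=
  CInv.all (N := n + 1) (fun m hm => h m (by omega)) n (by omega)

theorem Alive.succ {n : ℕ} (h : Alive H L κ w lim n)
    (h' : ((hck H L κ w lim).U (n + 1)).hlt = false) : Alive H L κ w lim (n + 1) := by
  intro m hm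
  rcases Nat.lt_or_ge m (n + 1) with h1 | h1
  · exact h m (by omega)
  · rw [show m = n + 1 by omega]; exact h'

theorem Alive.out {n : ℕ} (h : Alive H L κ w lim n)
    (h' : (hck H L κ w lim).U (n + 1) = ((hck H L κ w lim).U n).yes) :
    (hck H L κ w lim).Out (n + 1) true := by
  refine ⟨fun m hm => h m (by omega), ?_, ?_⟩
  · show ((hck H L κ w lim).U (n + 1)).hlt = true
    rw [h']
    rfl
  · show ((hck H L κ w lim).U (n + 1)).acc = true
    rw [h']
    rfl

/-- a scan pass -/
theorem Hon.scan {N M : ℕ} (h : Hon H L w κ N M) {n i : ℕ} (hi : i < M)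
    (hA : Alive H L κ w lim n) (hs : ((hck H L κ w lim).U n).sim = false)
    (hσi : ((hck H L κ w lim).U n).i = i) (hn : n = epos L κ i) (hlim : n + 1 < lim) :
    (L.lb i = κ ∧ (hck H L κ w lim).U (n + 1) = St.enter H L κ w ((hck H L κ w lim).U n)) ∨
    (L.lb i ≠ κ ∧ i = M - 1 ∧ (hck H L κ w lim).U (n + 1) = ((hck H L κ w lim).U n).yes) ∨
    (L.lb i ≠ κ ∧ i + 1 < M ∧ (hck H L κ w lim).U (n + 1) = ((hck H L κ w lim).U n).nx
      ((hck H L κ w lim).U n).u ((hck H L κ w lim).U n).a) := by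
  have hI := hA.inv
  have hnum := hI.num
  have h1 : (hck H L κ w lim).U (n + 1) = St.scan H L κ w ((hck H L κ w lim).U n) := by
    rw [hck_U_succ]
    unfold St.pass
    rw [if_neg (by rw [hnum]; omega), if_neg (by rw [hs]; simp)]
  rw [h1]
  unfold St.scan
  rw [hσi, if_pos (h.srt i hi)]
  by_cases c1 : L.lb i = κ
  · rw [if_pos c1, if_pos (by rw [h.off i hi c1, hnum, hn])]
    exact Or.inl ⟨c1, rfl⟩
  · rw [if_neg c1]
    right
    by_cases c2 : L.fin i = true
    · rw [if_pos c2]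
      exact Or.inl ⟨c1, (h.fin i hi).1 c2, rfl⟩
    · rw [if_neg c2]
      have h3 : i ≠ M - 1 := fun h4 => c2 ((h.fin i hi).2 h4)
      have h4 := h.le
      unfold St.next
      rw [hσi, if_pos (by omega)]
      refine Or.inr ⟨c1, by omega, ?_⟩
      rw [St.nx, hσi]

/-- a simulation pass -/
theorem Hon.sim {N M : ℕ} (h : Hon H L w κ N M) (hO : H.Out N true) {n i u : ℕ} (hi : i < M)
    (hA : Alive H L κ w lim n) (hs : ((hck H L κ w lim).U n).sim = true)
    (hσi : ((hck H L κ w lim).U n).i = i) (hσu : ((hck H L κ w lim).U n).u = u)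
    (hlim : n + 1 < lim) :
    (u + 1 < L.tm i ∧ (hck H L κ w lim).U (n + 1) =
      St.stay H L κ w ((hck H L κ w lim).U n) (H.U (u + 1))) ∨
    (u + 1 = L.tm i ∧ i = M - 1 ∧ (hck H L κ w lim).U (n + 1) = ((hck H L κ w lim).U n).yes) ∨
    (u + 1 = L.tm i ∧ i + 1 < M ∧ (hck H L κ w lim).U (n + 1) =
      ((hck H L κ w lim).U n).nx (u + 1) (H.U (u + 1))) := by
  have hI := hA.inv
  have hnum := hI.num
  obtain ⟨σ, hσ⟩ : ∃ σ, σ = (hck H L κ w lim).U n := ⟨_, rfl⟩
  rw [← hσ] at hI hnum hs hσi hσu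
  obtain ⟨c1, c2, c3, c4, c5, c6, c7⟩ := hI.cur hs
  rw [hσi, hσu] at c3 c4
  rw [hσi] at c1 c2
  have hT : ∀ j' < σ.i, L.st j' = H.U (L.tm j') := fun j' hj' => h.st j' (by omega)
  have ha : σ.a = H.U u := by rw [(lkup_ok hσ hI hs hT).1, hσu]
  have hbad : lkup L H.a0 H.e0 w κ σ.i σ.u (H.idx σ.a) ≠ .bad := by
    rw [hσi, hσu, ha]
    exact h.not_bad hi c3 c4 c2
  have hmove : (hck H L κ w lim).U (n + 1) = St.move H L κ w σ (H.U (u + 1)) := by
    rw [hck_U_succ, ← hσ]
    unfold St.pass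
    rw [if_neg (by rw [hnum]; omega), if_pos hs]
    obtain ⟨e1, e2, e3⟩ := lkup_ok hσ hI hs hT
    cases hl : lkup L H.a0 H.e0 w κ σ.i σ.u (H.idx σ.a) with
    | bad => exact absurd hl hbad
    | val W =>
      show St.move H L κ w σ (H.step σ.a W) = _
      rw [e2 W hl, ha, hσu, HM.U_succ]
    | own m =>
      show St.move H L κ w σ (H.step σ.a ((hck H L κ w lim).rc n σ.q).a) = _
      rw [e3 m hl, ha, hσu, HM.U_succ]
  rw [hmove, ← hσ]
  unfold St.move
  rw [hσi, hσu]
  have htmN := h.tm_le hi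
  rcases Nat.lt_or_ge (u + 1) (L.tm i) with c | c
  · left
    refine ⟨c, ?_⟩
    have hh : H.hlt (H.U (u + 1)) = false := hO.1 _ (by omega)
    rw [if_neg (by rw [hh]; simp), if_neg (by omega)]
  · have hu : u + 1 = L.tm i := by omega
    right
    by_cases c2 : L.fin i = true
    · left
      have h3 := (h.fin i hi).1 c2
      have hN : L.tm i = N := by rw [h3]; exact h.last
      refine ⟨hu, h3, ?_⟩
      rw [if_neg (by push Not; intro _; exact ⟨hu, c2⟩), if_pos hu, hu,
        if_neg (by rw [h.st i hi]; simp), if_pos c2, hN, if_pos ⟨hO.2.1, hO.2.2⟩]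
    · right
      have h3 : i ≠ M - 1 := fun h4 => c2 ((h.fin i hi).2 h4)
      have h4 := h.le
      have h5 := h.tm_lt (show i + 1 < M by omega)
      have hh : H.hlt (H.U (u + 1)) = false := hO.1 _ (by omega)
      refine ⟨hu, by omega, ?_⟩
      rw [if_neg (by rw [hh]; simp), if_pos hu, if_neg (by rw [h.st i hi, hu]; simp), if_neg c2]
      unfold St.next
      rw [hσi, if_pos (by omega)]
      rw [St.nx, hσi]

omit [DecidableEq A] in
theorem epos_mono {i j : ℕ} (hij : i ≤ j) : epos L κ i ≤ epos L κ j := by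
  induction j with
  | zero => rw [show i = 0 by omega]
  | succ j ih =>
    rcases Nat.lt_or_ge i (j + 1) with h1 | h1
    · have := ih (by omega)
      simp only [epos]
      omega
    · rw [show i = j + 1 by omega]

/-- the simulation of one segment -/
theorem Hon.seg {N M : ℕ} (h : Hon H L w κ N M) (hO : H.Out N true) {i : ℕ} (hi : i < M)
    (hκ : L.lb i = κ) (hlim : epos L κ M < lim)
    (hA : Alive H L κ w lim (epos L κ i + 1))
    (hE : ((hck H L κ w lim).U (epos L κ i + 1)).sim = true ∧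
      ((hck H L κ w lim).U (epos L κ i + 1)).i = i ∧
      ((hck H L κ w lim).U (epos L κ i + 1)).u = L.pv i) :
    ∀ t, L.pv i + t < L.tm i → Alive H L κ w lim (epos L κ i + 1 + t) ∧
      ((hck H L κ w lim).U (epos L κ i + 1 + t)).sim = true ∧
      ((hck H L κ w lim).U (epos L κ i + 1 + t)).i = i ∧
      ((hck H L κ w lim).U (epos L κ i + 1 + t)).u = L.pv i + t := by
  have hM : epos L κ i + 1 + (L.tm i - L.pv i) ≤ epos L κ M := by
    have h1 := epos_mono (L := L) (κ := κ) (show i + 1 ≤ M by omega)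
    simp only [epos, if_pos hκ] at h1
    exact h1
  intro t
  induction t with
  | zero => intro _; exact ⟨hA, hE.1, hE.2.1, hE.2.2⟩
  | succ t ih =>
    intro ht
    obtain ⟨g1, g2, g3, g4⟩ := ih (by omega)
    rcases h.sim hO hi g1 g2 g3 g4 (by omega) with ⟨-, h1⟩ | ⟨h1, -⟩ | ⟨h1, -⟩
    · rw [show epos L κ i + 1 + (t + 1) = epos L κ i + 1 + t + 1 by omega]
      refine ⟨g1.succ (by rw [h1]; rfl), ?_, ?_, ?_⟩
      · rw [h1]; rfl
      · rw [h1]; exact g3
      · rw [h1]
        show ((hck H L κ w lim).U (epos L κ i + 1 + t)).u + 1 = _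
        omega
    · omega
    · omega

/-- the run reaches every entry, or accepts -/
theorem Hon.reach {N M : ℕ} (h : Hon H L w κ N M) (hO : H.Out N true)
    (hlim : epos L κ M < lim) : ∀ i < M, Alive H L κ w lim (epos L κ i) ∧
      ((hck H L κ w lim).U (epos L κ i)).sim = false ∧
      ((hck H L κ w lim).U (epos L κ i)).i = i := by
  intro i
  induction i with
  | zero =>
    intro _
    refine ⟨fun m hm => ?_, rfl, rfl⟩
    have : m = 0 := by
      have : m ≤ 0 := hm
      omega
    subst this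
    rfl
  | succ i ih =>
    intro hi
    obtain ⟨g1, g2, g3⟩ := ih (by omega)
    have hM := epos_mono (L := L) (κ := κ) (show i + 1 ≤ M by omega)
    have hstep : epos L κ (i + 1) = epos L κ i + 1 + (if L.lb i = κ then L.tm i - L.pv i else 0) :=
      rfl
    rcases h.scan (by omega) g1 g2 g3 rfl (by omega) with ⟨h1, h2⟩ | ⟨h1, h2, -⟩ | ⟨h1, -, h2⟩
    · rw [if_pos h1] at hstep
      have hp : L.pv i < L.tm i := h.srt i (by omega)
      obtain ⟨f1, f2, f3, f4⟩ := h.seg hO (by omega) h1 hlim (g1.succ (by rw [h2]; rfl))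
        ⟨by rw [h2]; rfl, by rw [h2]; exact g3, by
          rw [h2]; show L.pv ((hck H L κ w lim).U (epos L κ i)).i = _; rw [g3]⟩
        (L.tm i - L.pv i - 1) (by omega)
      rcases h.sim hO (by omega) f1 f2 f3 f4 (by omega) with ⟨h3, -⟩ | ⟨-, h3, -⟩ | ⟨-, -, h3⟩
      · omega
      · omega
      · have e : epos L κ (i + 1) = epos L κ i + 1 + (L.tm i - L.pv i - 1) + 1 := by omega
        rw [e]
        refine ⟨f1.succ (by rw [h3]; rfl), by rw [h3]; rfl, ?_⟩
        rw [h3]
        show ((hck H L κ w lim).U (epos L κ i + 1 + (L.tm i - L.pv i - 1))).i + 1 = _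
        rw [f3]
    · omega
    · rw [if_neg h1] at hstep
      rw [hstep, Nat.add_zero]
      refine ⟨g1.succ (by rw [h2]; rfl), by rw [h2]; rfl, ?_⟩
      rw [h2]
      show ((hck H L κ w lim).U (epos L κ i)).i + 1 = _
      rw [g3]

/-- **Completeness of the checks.** -/
theorem Hon.accept {N M : ℕ} (h : Hon H L w κ N M) (hO : H.Out N true)
    (hlim : epos L κ M < lim) : ∃ n ≤ epos L κ M, (hck H L κ w lim).Out n true := by
  have hM0 := h.pos
  obtain ⟨i, hi⟩ : ∃ i, M = i + 1 := ⟨M - 1, by omega⟩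
  obtain ⟨g1, g2, g3⟩ := h.reach hO hlim i (by omega)
  have hstep : epos L κ (i + 1) = epos L κ i + 1 + (if L.lb i = κ then L.tm i - L.pv i else 0) :=
    rfl
  rw [hi] at hlim ⊢
  rcases h.scan (by omega) g1 g2 g3 rfl (by omega) with ⟨h1, h2⟩ | ⟨h1, -, h2⟩ | ⟨-, h2, -⟩
  · rw [if_pos h1] at hstep
    have hp : L.pv i < L.tm i := h.srt i (by omega)
    obtain ⟨f1, f2, f3, f4⟩ := h.seg hO (by omega) h1 (by rw [hi]; exact hlim)
      (g1.succ (by rw [h2]; rfl))
      ⟨by rw [h2]; rfl, by rw [h2]; exact g3, by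
        rw [h2]; show L.pv ((hck H L κ w lim).U (epos L κ i)).i = _; rw [g3]⟩
      (L.tm i - L.pv i - 1) (by omega)
    rcases h.sim hO (by omega) f1 f2 f3 f4 (by omega) with ⟨h3, -⟩ | ⟨-, -, h3⟩ | ⟨-, h3, -⟩
    · omega
    · exact ⟨_, by omega, f1.out h3⟩
    · omega
  · exact ⟨_, by omega, g1.out h2⟩
  · omega

/-- only the entries below `2 ^ w` matter -/
theorem Hon.congr {L' : Lst A} {N M : ℕ} (h : Hon H L w κ N M)
    (hL : ∀ i < 2 ^ w, L'.tm i = L.tm i ∧ L'.st i = L.st i ∧ L'.lb i = L.lb i ∧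
      L'.off i = L.off i ∧ L'.fin i = L.fin i) :
    Hon H L' w κ N M ∧ ∀ i ≤ M, epos L' κ i = epos L κ i := by
  have hM := h.le
  have hM0 := h.pos
  have hpv : ∀ i < M, L'.pv i = L.pv i := by
    intro i hi
    cases i with
    | zero => rfl
    | succ i => exact (hL i (by omega)).1
  have hep : ∀ i ≤ M, epos L' κ i = epos L κ i := by
    intro i
    induction i with
    | zero => intro _; rfl
    | succ i ih =>
      intro hi
      simp only [epos]
      rw [ih (by omega), hpv i (by omega), (hL i (by omega)).1, (hL i (by omega)).2.2.1]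
  refine ⟨⟨hM0, hM, ?_, ?_, ?_, ?_, ?_, ?_, ?_⟩, hep⟩
  · intro i hi
    rw [hpv i hi, (hL i (by omega)).1]
    exact h.srt i hi
  · rw [(hL (M - 1) (by omega)).1]
    exact h.last
  · intro i hi
    rw [(hL i (by omega)).2.2.2.2]
    exact h.fin i hi
  · intro i hi hi'
    rw [(hL i hi).1]
    exact h.pad i hi hi'
  · intro i hi
    rw [(hL i (by omega)).2.1, (hL i (by omega)).1]
    exact h.st i hi
  · intro i hi hκ
    rw [(hL i (by omega)).2.2.1] at hκ
    rw [(hL i (by omega)).2.2.2.1, hep i hi.le]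
    exact h.off i hi hκ
  · intro i hi hκ u hu hu' h0 hle
    rw [(hL i (by omega)).2.2.1] at hκ
    rw [hpv i hi] at hu
    rw [(hL i (by omega)).1] at hu'
    obtain ⟨j, hj, h1, h2, h3⟩ := h.rcl i hi hκ u hu hu' h0 hle
    refine ⟨j, hj, by rw [hpv j hj]; exact h1, by rw [(hL j (by omega)).1]; exact h2, ?_⟩
    rw [(hL j (by omega)).1, (hL j (by omega)).2.2.1]
    exact h3

end Pool.Agent.NUM
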