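import Pool.Agent.NUM.GList
import Pool.Agent.NUM.HChkCompl

/-!
# The simulation along a true list accepts, along a bad list it does not
-/

set_option autoImplicit false

namespace Pool.Agent.NUM

variable {A : Type} {H : HM A} {L : Lst A} {N w lim : ℕ}

/-- some entry is final -/
theorem LStat.exists_fin (h : LStat L w lim) : ∃ F < 2 ^ w, L.fin F = true ∧
    ∀ j < F, L.fin j = false := by
  have hp : 0 < 2 ^ w := Nat.pos_of_ne_zero (by positivity)
  have h1 : L.fin (2 ^ w - 1) = true := by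
    by_contra hcon
    have h2 := (h.run (2 ^ w - 1) (by omega) (by simpa using hcon)).1
    omega
  classical
  have hex : ∃ F, L.fin F = true := ⟨_, h1⟩
  refine ⟨Nat.find hex, ?_, Nat.find_spec hex, fun j hj => ?_⟩
  · have := Nat.find_min' hex h1
    omega
  · simpa using Nat.find_min hex hj

theorem LStat.off_eq (h : LStat L w lim) : ∀ i < 2 ^ w, (∀ j < i, L.fin j = false) →
    L.off i = epos L 1 i + 1 := by
  intro i
  induction i with
  | zero => intro _ _; exact h.off0
  | succ i ih =>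
    intro hi hf
    obtain ⟨-, h1, -⟩ := h.run i (by omega) (hf i (by omega))
    have h2 := ih (by omega) (fun j hj => hf j (by omega))
    rw [h1, h2]
    simp only [epos]
    omega

theorem LStat.epos_lt (h : LStat L w lim) (hlim : 2 ≤ lim) {i : ℕ} (hi : i < 2 ^ w)
    (hf : ∀ j < i, L.fin j = false) : epos L 1 i + 1 < lim := by
  cases i with
  | zero =>
    show 0 + 1 < lim
    omega
  | succ i =>
    obtain ⟨-, -, h3⟩ := h.run i (by omega) (hf i (by omega))
    rw [← h.off_eq (i + 1) hi hf]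
    exact h3

/-- the look-up works -/
theorem TrL.not_bad (h : TrL H N L w lim) {i u : ℕ} (hi : i < 2 ^ w) (hf : L.fin i = false)
    (hu : L.pv i ≤ u) (hu' : u < L.tm i) (hκ : L.lb i = 1) :
    lkup L H.a0 H.e0 w 1 i u (H.idx (H.U u)) ≠ .bad := by
  obtain ⟨τ, hτ⟩ : ∃ τ, τ = H.idx (H.U u) := ⟨_, rfl⟩
  have hr := h.clo i hi hf hκ u hu hu'
  rw [← hτ] at hr ⊢
  unfold lkup
  by_cases c1 : u < τ
  · rw [if_pos c1]
    exact fun h => by cases h
  · rw [if_neg c1]
    by_cases c2 : τ = 0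
    · rw [if_pos c2]
      exact fun h => by cases h
    · rw [if_neg c2]
      obtain ⟨j, hj, h1, h2, h3⟩ := hr (by omega) (by omega)
      have hb : bsr L.tm τ w 0 = j := by
        apply bsr_eq (lt_of_le_of_lt hj hi)
        intro i' hi'
        constructor
        · intro h4
          by_contra h5
          have := h.stat.mono_tm (show j ≤ i' by omega) hi'
          omega
        · intro h4
          have := h.stat.tm_le_pv h4 (lt_of_le_of_lt hj hi)
          omega
      rw [hb, if_pos ⟨hj, h1, h2⟩]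
      by_cases c4 : τ = L.tm j
      · rw [if_pos c4]
        exact fun h => by cases h
      · rw [if_neg c4]
        rcases h3 with h3 | h3
        · exact absurd h3 c4
        · rw [if_pos h3]
          exact fun h => by cases h

variable [DecidableEq A]

/-- a scan pass -/
theorem TrL.scan (h : TrL H N L w lim) (hlim : 2 ≤ lim) {n i : ℕ} (hi : i < 2 ^ w)
    (hf : ∀ j < i, L.fin j = false)
    (hA : Alive H L 1 w lim n) (hs : ((hck H L 1 w lim).U n).sim = false)
    (hσi : ((hck H L 1 w lim).U n).i = i) (hn : n = epos L 1 i) :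
    (L.fin i = false ∧ L.lb i = 1 ∧
      (hck H L 1 w lim).U (n + 1) = St.enter H L 1 w ((hck H L 1 w lim).U n)) ∨
    (L.fin i = true ∧ (hck H L 1 w lim).U (n + 1) = ((hck H L 1 w lim).U n).yes) ∨
    (L.fin i = false ∧ L.lb i ≠ 1 ∧ (hck H L 1 w lim).U (n + 1) = ((hck H L 1 w lim).U n).nx
      ((hck H L 1 w lim).U n).u ((hck H L 1 w lim).U n).a) := by
  have hI := hA.inv
  have hnum := hI.num
  have hl := h.stat.epos_lt hlim hi hf
  have h1 : (hck H L 1 w lim).U (n + 1) = St.scan H L 1 w ((hck H L 1 w lim).U n) := by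
    rw [hck_U_succ]
    unfold St.pass
    rw [if_neg (by rw [hnum]; omega), if_neg (by rw [hs]; simp)]
  rw [h1]
  unfold St.scan
  rw [hσi, if_pos (h.stat.srt i hi)]
  by_cases c2 : L.fin i = true
  · have c1 := (h.stat.fin i hi c2).1
    rw [if_neg c1, if_pos c2]
    exact Or.inr (Or.inl ⟨c2, rfl⟩)
  · have c2' : L.fin i = false := by simpa using c2
    by_cases c1 : L.lb i = 1
    · rw [if_pos c1, if_pos (by rw [h.stat.off_eq i hi hf, hnum, hn])]
      exact Or.inl ⟨c2', c1, rfl⟩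
    · rw [if_neg c1, if_neg c2]
      refine Or.inr (Or.inr ⟨c2', c1, ?_⟩)
      have h4 := (h.stat.run i hi c2').1
      unfold St.next
      rw [hσi, if_pos h4]
      rw [St.nx, hσi]

/-- a simulation pass -/
theorem TrL.sim (h : TrL H N L w lim) (hN : ∀ m ≤ N, H.hlt (H.U m) = false) {n i u : ℕ}
    (hi : i < 2 ^ w) (hf : ∀ j ≤ i, L.fin j = false)
    (hA : Alive H L 1 w lim n) (hs : ((hck H L 1 w lim).U n).sim = true)
    (hσi : ((hck H L 1 w lim).U n).i = i) (hσu : ((hck H L 1 w lim).U n).u = u)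
    (hlim : n + 1 < lim) :
    (u + 1 < L.tm i ∧ (hck H L 1 w lim).U (n + 1) =
      St.stay H L 1 w ((hck H L 1 w lim).U n) (H.U (u + 1))) ∨
    (u + 1 = L.tm i ∧ (hck H L 1 w lim).U (n + 1) =
      ((hck H L 1 w lim).U n).nx (u + 1) (H.U (u + 1))) := by
  have hI := hA.inv
  have hnum := hI.num
  obtain ⟨σ, hσ⟩ : ∃ σ, σ = (hck H L 1 w lim).U n := ⟨_, rfl⟩
  rw [← hσ] at hI hnum hs hσi hσu
  obtain ⟨c1, c2, c3, c4, c5, c6, c7⟩ := hI.cur hs
  rw [hσi, hσu] at c3 c4
  rw [hσi] at c1 c2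
  have hT : ∀ j' < σ.i, L.st j' = H.U (L.tm j') :=
    fun j' hj' => (h.tru j' (by omega) (hf j' (by omega))).2
  have ha : σ.a = H.U u := by rw [(lkup_ok hσ hI hs hT).1, hσu]
  have hbad : lkup L H.a0 H.e0 w 1 σ.i σ.u (H.idx σ.a) ≠ .bad := by
    rw [hσi, hσu, ha]
    exact h.not_bad hi (hf i le_rfl) c3 c4 c2
  have hmove : (hck H L 1 w lim).U (n + 1) = St.move H L 1 w σ (H.U (u + 1)) := by
    rw [hck_U_succ, ← hσ]
    unfold St.pass
    rw [if_neg (by rw [hnum]; omega), if_pos hs]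
    obtain ⟨e1, e2, e3⟩ := lkup_ok hσ hI hs hT
    cases hl : lkup L H.a0 H.e0 w 1 σ.i σ.u (H.idx σ.a) with
    | bad => exact absurd hl hbad
    | val W =>
      show St.move H L 1 w σ (H.step σ.a W) = _
      rw [e2 W hl, ha, hσu, HM.U_succ]
    | own m =>
      show St.move H L 1 w σ (H.step σ.a ((hck H L 1 w lim).rc n σ.q).a) = _
      rw [e3 m hl, ha, hσu, HM.U_succ]
  rw [hmove, ← hσ]
  unfold St.move
  rw [hσi, hσu]
  obtain ⟨htmN, hst⟩ := h.tru i hi (hf i le_rfl)
  have hfi := hf i le_rfl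
  rcases Nat.lt_or_ge (u + 1) (L.tm i) with c | c
  · left
    refine ⟨c, ?_⟩
    have hh : H.hlt (H.U (u + 1)) = false := hN _ (by omega)
    rw [if_neg (by rw [hh]; simp), if_neg (by omega)]
  · have hu : u + 1 = L.tm i := by omega
    right
    have hh : H.hlt (H.U (u + 1)) = false := hN _ (by omega)
    refine ⟨hu, ?_⟩
    rw [if_neg (by rw [hh]; simp), if_pos hu, if_neg (by rw [hst, hu]; simp),
      if_neg (by rw [hfi]; simp)]
    unfold St.next
    rw [hσi, if_pos (h.stat.run i hi hfi).1]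
    rw [St.nx, hσi]

/-- the simulation of one segment -/
theorem TrL.seg (h : TrL H N L w lim) (hN : ∀ m ≤ N, H.hlt (H.U m) = false) {i : ℕ}
    (hi : i < 2 ^ w) (hf : ∀ j ≤ i, L.fin j = false)
    (hκ : L.lb i = 1)
    (hA : Alive H L 1 w lim (epos L 1 i + 1))
    (hE : ((hck H L 1 w lim).U (epos L 1 i + 1)).sim = true ∧
      ((hck H L 1 w lim).U (epos L 1 i + 1)).i = i ∧
      ((hck H L 1 w lim).U (epos L 1 i + 1)).u = L.pv i) :
    ∀ t, L.pv i + t < L.tm i → Alive H L 1 w lim (epos L 1 i + 1 + t) ∧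
      ((hck H L 1 w lim).U (epos L 1 i + 1 + t)).sim = true ∧
      ((hck H L 1 w lim).U (epos L 1 i + 1 + t)).i = i ∧
      ((hck H L 1 w lim).U (epos L 1 i + 1 + t)).u = L.pv i + t := by
  have hr := h.stat.run i hi (hf i le_rfl)
  have hM : epos L 1 i + 1 + (L.tm i - L.pv i) + 1 < lim := by
    have h1 := h.stat.off_eq (i + 1) hr.1 (fun j hj => hf j (by omega))
    have h2 := hr.2.2
    rw [h1] at h2
    simp only [epos, if_pos hκ] at h2
    exact h2
  intro t
  induction t with
  | zero => intro _; exact ⟨hA, hE.1, hE.2.1, hE.2.2⟩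
  | succ t ih =>
    intro ht
    obtain ⟨g1, g2, g3, g4⟩ := ih (by omega)
    rcases h.sim hN hi hf g1 g2 g3 g4 (by omega) with ⟨-, h1⟩ | ⟨h1, -⟩
    · rw [show epos L 1 i + 1 + (t + 1) = epos L 1 i + 1 + t + 1 by omega]
      refine ⟨g1.succ (by rw [h1]; rfl), ?_, ?_, ?_⟩
      · rw [h1]; rfl
      · rw [h1]; exact g3
      · rw [h1]
        show ((hck H L 1 w lim).U (epos L 1 i + 1 + t)).u + 1 = _
        omega
    · omega

/-- the run reaches every entry up to the first final one -/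
theorem TrL.reach (h : TrL H N L w lim) (hlim : 2 ≤ lim) (hN : ∀ m ≤ N, H.hlt (H.U m) = false) :
    ∀ i < 2 ^ w, (∀ j < i, L.fin j = false) → Alive H L 1 w lim (epos L 1 i) ∧
      ((hck H L 1 w lim).U (epos L 1 i)).sim = false ∧
      ((hck H L 1 w lim).U (epos L 1 i)).i = i := by
  intro i
  induction i with
  | zero =>
    intro _ _
    refine ⟨fun m hm => ?_, rfl, rfl⟩
    have : m = 0 := by
      have : m ≤ 0 := hm
      omega
    subst this
    rfl
  | succ i ih =>
    intro hi hf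
    obtain ⟨g1, g2, g3⟩ := ih (by omega) (fun j hj => hf j (by omega))
    have hfi : L.fin i = false := hf i (by omega)
    have hM := h.stat.epos_lt hlim hi hf
    have hstep : epos L 1 (i + 1) = epos L 1 i + 1 + (if L.lb i = 1 then L.tm i - L.pv i else 0) :=
      rfl
    rcases h.scan hlim (by omega) (fun j hj => hf j (by omega)) g1 g2 g3 rfl with
      ⟨-, h1, h2⟩ | ⟨h1, -⟩ | ⟨-, h1, h2⟩
    · rw [if_pos h1] at hstep
      have hp : L.pv i < L.tm i := h.stat.srt i (by omega)
      obtain ⟨f1, f2, f3, f4⟩ := h.seg hN (by omega) (fun j hj => hf j (by omega)) h1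
        (g1.succ (by rw [h2]; rfl))
        ⟨by rw [h2]; rfl, by rw [h2]; exact g3, by
          rw [h2]; show L.pv ((hck H L 1 w lim).U (epos L 1 i)).i = _; rw [g3]⟩
        (L.tm i - L.pv i - 1) (by omega)
      rcases h.sim hN (by omega) (fun j hj => hf j (by omega)) f1 f2 f3 f4 (by omega) with
        ⟨h3, -⟩ | ⟨-, h3⟩
      · omega
      · have e : epos L 1 (i + 1) = epos L 1 i + 1 + (L.tm i - L.pv i - 1) + 1 := by omega
        rw [e]
        refine ⟨f1.succ (by rw [h3]; rfl), by rw [h3]; rfl, ?_⟩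
        rw [h3]
        show ((hck H L 1 w lim).U (epos L 1 i + 1 + (L.tm i - L.pv i - 1))).i + 1 = _
        rw [f3]
    · rw [hfi] at h1
      cases h1
    · rw [if_neg h1] at hstep
      rw [hstep, Nat.add_zero]
      refine ⟨g1.succ (by rw [h2]; rfl), by rw [h2]; rfl, ?_⟩
      rw [h2]
      show ((hck H L 1 w lim).U (epos L 1 i)).i + 1 = _
      rw [g3]

/-- **true lists are accepted** -/
theorem TrL.accept (h : TrL H N L w lim) (hlim : 2 ≤ lim)
    (hN : ∀ m ≤ N, H.hlt (H.U m) = false) : ∃ N', (hck H L 1 w lim).Out N' true := by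
  obtain ⟨F, hF, hfF, hfj⟩ := h.stat.exists_fin
  obtain ⟨g1, g2, g3⟩ := h.reach hlim hN F hF hfj
  rcases h.scan hlim hF hfj g1 g2 g3 rfl with ⟨h1, -⟩ | ⟨-, h2⟩ | ⟨h1, -⟩
  · rw [hfF] at h1
    cases h1
  · exact ⟨_, g1.out h2⟩
  · rw [hfF] at h1
    cases h1

/-- **bad lists are not accepted** -/
theorem BadL.not_accept (h : BadL H N L w lim) (hN : H.hlt (H.U (N + 1)) = true) {N' : ℕ} :
    ¬ (hck H L 1 w lim).Out N' true := by
  intro hO
  obtain ⟨F, -, -, hfF, hown, -⟩ := hck_accept hO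
  obtain ⟨i, hi, hf, hl, hT, hbad⟩ := h.bad
  have hiF : i < F := by
    by_contra hcon
    have := h.stat.fin_mono (show F ≤ i by omega) hi hfF
    rw [hf] at this
    cases this
  obtain ⟨h1, h2⟩ := hown i hiF hl (fun j hj => (hT j hj).2)
  apply hbad
  refine ⟨?_, h1⟩
  by_contra hcon
  have hpv : L.pv i ≤ N := by
    cases i with
    | zero => exact Nat.zero_le _
    | succ i => exact (hT i (by omega)).1
  have h3 := h2 (N + 1) (by omega) (by omega)
  rw [hN] at h3
  cases h3

end Pool.Agent.NUM
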