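import Pool.Agent.NUM.HCodeS

/-!
# The code of the check of history programs: encoding, refinement, the theorem
-/

set_option autoImplicit false

namespace Pool.Agent.NUM

/-! ### invariants of the check -/

theorem lkup_num_lt {A : Type} {L : Lst A} {a0 e0 : A} {w κ i u τ b : ℕ}
    (htm : ∀ i, L.tm i < 2 ^ b) (hoff : ∀ i, L.off i < 2 ^ b) :
    (lkup L a0 e0 w κ i u τ).num < 2 ^ (b + 1) := by
  have h0 : (0 : ℕ) < 2 ^ (b + 1) := by positivity
  unfold lkup
  split_ifs with h1 h2 h3 h4 h5
  · exact h0
  · exact h0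
  · exact h0
  · show L.off _ + (τ - L.pv _) < 2 ^ (b + 1)
    have h6 := htm (bsr L.tm τ w 0)
    have h7 := hoff (bsr L.tm τ w 0)
    have h8 := h3.2.2
    rw [pow_succ]
    generalize 2 ^ b = p at *
    omega
  · exact h0
  · exact h0

theorem pv_lt {A : Type} {L : Lst A} {b : ℕ} (htm : ∀ i, L.tm i < 2 ^ b) (i : ℕ) :
    L.pv i < 2 ^ b := by
  cases i with
  | zero => exact Nat.two_pow_pos b
  | succ i => exact htm i

/-- bounds of the fields -/
structure SInv {A : Type} (L : Lst A) (w b : ℕ) (x : St A) : Prop where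
  i : x.i < 2 ^ w
  n : x.n < 2 ^ b
  u : x.u < 2 ^ b
  q : x.q < 2 ^ (b + 1)
  s : x.sim = true → x.u < L.tm x.i

section

variable {A : Type} {L : Lst A} {w b lim : ℕ} {x : St A}

theorem SInv.rej (h : SInv L w b x) : SInv L w b x.rej := ⟨h.i, h.n, h.u, h.q, h.s⟩

theorem SInv.yes (h : SInv L w b x) : SInv L w b x.yes := ⟨h.i, h.n, h.u, h.q, h.s⟩

theorem SInv.next (h : SInv L w b x) (hn : x.n + 1 < 2 ^ b) {u : ℕ} (hu : u < 2 ^ b) (a' : A) :
    SInv L w b (St.next w x u a') := by
  unfold St.next
  split_ifs with h1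
  · exact ⟨h1, hn, hu, by positivity, fun h2 => by simp at h2⟩
  · exact h.rej

variable {H : HM A} {κ : ℕ}

theorem SInv.pass [DecidableEq A] (htm : ∀ i, L.tm i < 2 ^ b) (hoff : ∀ i, L.off i < 2 ^ b)
    (hlim : lim < 2 ^ b) (h : SInv L w b x) (ρ : St A) :
    SInv L w b (St.pass H L κ w lim x ρ) := by
  unfold St.pass
  split_ifs with h1 h2
  · exact h.rej
  · have hn : x.n + 1 < 2 ^ b := by omega
    have key : ∀ a', SInv L w b (St.move H L κ w x a') := by
      intro a'
      have h3 := h.s h2
      have h4 := htm x.i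
      unfold St.move
      split_ifs with h5 h6 h7 h8 h9
      · exact h.rej
      · exact h.rej
      · exact h.yes
      · exact h.rej
      · exact h.next hn (by omega) a'
      · exact ⟨h.i, hn, by show x.u + 1 < 2 ^ b; omega, lkup_num_lt htm hoff,
          fun _ => by show x.u + 1 < L.tm x.i; omega⟩
    cases lkup L H.a0 H.e0 w κ x.i x.u (H.idx x.a) with
    | bad => exact h.rej
    | val W => exact key _
    | own m => exact key _
  · have hn : x.n + 1 < 2 ^ b := by omega
    unfold St.scan
    split_ifs with h5 h6 h7 h8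
    · exact ⟨h.i, hn, pv_lt htm _, lkup_num_lt htm hoff, fun _ => h5⟩
    · exact h.rej
    · exact h.yes
    · exact h.next hn h.u _
    · exact h.rej

theorem SInv.U [DecidableEq A] (htm : ∀ i, L.tm i < 2 ^ b) (hoff : ∀ i, L.off i < 2 ^ b)
    (hlim : lim < 2 ^ b) (n : ℕ) : SInv L w b ((hck H L κ w lim).U n) := by
  induction n with
  | zero =>
    exact ⟨by show 0 < 2 ^ w; positivity, by show 0 < 2 ^ b; positivity,
      by show 0 < 2 ^ b; positivity, by show 0 < 2 ^ (b + 1); positivity,
      fun h => absurd (show false = true from h) (by decide)⟩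
  | succ n ih =>
    rw [HM.U_succ]
    exact ih.pass htm hoff hlim _

end

/-! ### `psF` is the pass -/

section

variable {G : List Ins} {d h w b σ lim : ℕ} {y : Inp} {x : St (Fin h → Bool)}

theorem nxF_eq (u : ℕ) (a' : Fin h → Bool) : nxF h w x u a' = St.next w x u a' := by
  unfold nxF St.next
  by_cases h1 : x.i + 1 < 2 ^ w
  · rw [if_pos h1, decide_eq_true h1]; rfl
  · rw [if_neg h1, decide_eq_false h1]; rfl

theorem stF_eq (hu : x.u + 1 < 2 ^ b) (a' : Fin h → Bool) :
    stF d h w b σ y x a' = St.stay (yH G d h y) (yL h w b σ y) (rdK w σ (kO y)) w x a' := by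
  unfold stF St.stay
  rw [Nat.mod_eq_of_lt hu]
  rfl

theorem enF_eq :
    enF d h w b σ y x = St.enter (yH G d h y) (yL h w b σ y) (rdK w σ (kO y)) w x := rfl

theorem mvF_eq [DecidableEq (Fin h → Bool)] (htm : ∀ i, (yL h w b σ y).tm i < 2 ^ b)
    (hu : x.u < (yL h w b σ y).tm x.i) (a' : Fin h → Bool) :
    mvF d h w b σ y x a' = St.move (yH G d h y) (yL h w b σ y) (rdK w σ (kO y)) w x a' := by
  have e1 : (yH G d h y).hlt a' = embM a' 0 := rfl
  have e2 : (yH G d h y).acc a' = embM a' 2 := rfl
  unfold mvF St.move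
  rw [e1, e2]
  by_cases h2 : x.u + 1 = (yL h w b σ y).tm x.i
  · rw [decide_eq_true h2, if_pos h2]
    cases h3 : (yL h w b σ y).fin x.i <;> cases h4 : embM a' 0
    · rw [if_neg (by simp)]
      by_cases h5 : a' = (yL h w b σ y).st x.i
      · rw [if_neg (by simpa using h5)]
        simp [h5, nxF_eq]
      · rw [if_pos h5]
        simp [h5]
    · rw [if_pos (by simp)]
      simp
    · rw [if_neg (by simp)]
      by_cases h5 : a' = (yL h w b σ y).st x.i
      · rw [if_neg (by simpa using h5)]
        simp [h5]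
      · rw [if_pos h5]
        simp [h5]
    · rw [if_neg (by simp [h2])]
      by_cases h5 : a' = (yL h w b σ y).st x.i
      · rw [if_neg (by simpa using h5)]
        cases h6 : embM a' 2 <;> simp [h5]
      · rw [if_pos h5]
        simp [h5]
  · have h7 := htm x.i
    rw [decide_eq_false h2, if_neg h2, stF_eq (G := G) (by omega)]
    cases h4 : embM a' 0
    · rw [if_neg (by simp)]
      simp
    · rw [if_pos (by simp [h2])]
      simp

theorem scF_eq [DecidableEq (Fin h → Bool)] :
    scF d h w b σ y x = St.scan (yH G d h y) (yL h w b σ y) (rdK w σ (kO y)) w x := by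
  unfold scF St.scan
  by_cases h1 : (yL h w b σ y).pv x.i < (yL h w b σ y).tm x.i
  · rw [decide_eq_true h1, if_pos h1]
    by_cases h2 : (yL h w b σ y).lb x.i = rdK w σ (kO y)
    · rw [decide_eq_true h2, if_pos h2]
      by_cases h3 : (yL h w b σ y).off x.i = x.n + 1
      · rw [decide_eq_true h3, if_pos h3, enF_eq (G := G)]; rfl
      · rw [decide_eq_false h3, if_neg h3]; rfl
    · rw [decide_eq_false h2, if_neg h2]
      cases h3 : (yL h w b σ y).fin x.i
      · simp [nxF_eq]
      · simp
  · rw [decide_eq_false h1, if_neg h1]; rfl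

theorem psF_eq [DecidableEq (Fin h → Bool)] (htm : ∀ i, (yL h w b σ y).tm i < 2 ^ b)
    (hx : SInv (yL h w b σ y) w b x) (ρ : St (Fin h → Bool)) :
    psF G d h w b σ lim y x ρ.a =
      St.pass (yH G d h y) (yL h w b σ y) (rdK w σ (kO y)) w lim x ρ := by
  unfold psF St.pass
  by_cases h1 : lim ≤ x.n + 1
  · rw [decide_eq_true h1, if_pos h1]; rfl
  · rw [decide_eq_false h1, if_neg h1]
    cases h2 : x.sim
    · rw [if_neg (by simp), scF_eq (G := G)]; rfl
    · rw [if_pos rfl]
      have h3 := hx.s h2
      have e1 : lkup (yL h w b σ y) (yH G d h y).a0 (yH G d h y).e0 w (rdK w σ (kO y)) x.i x.u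
        ((yH G d h y).idx x.a) = lkF d h w b σ y x := rfl
      rw [e1]
      cases h4 : lkF d h w b σ y x with
      | bad => rfl
      | val W => exact mvF_eq htm h3 _
      | own m => exact mvF_eq htm h3 _

end

/-! ### the encoding -/

section

variable (h w b : ℕ)

/-- first cell after the pointer -/
abbrev cO : ℕ := 4 * (b + 1) + 2

/-- the memory of a state -/
def encS (x : St (Fin h → Bool)) : Mem := fun c =>
  if c = 0 then x.hlt
  else if c = 2 then x.acc
  else if c < cO b then (if c % 4 = 0 then x.q.testBit (c / 4 - 1) else false)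
  else if c = cO b then x.sim
  else if (c - cO b) / 2 < 1 + w then x.i.testBit ((c - cO b) / 2 - 1)
  else if (c - cO b) / 2 < 1 + w + b then x.n.testBit ((c - cO b) / 2 - (1 + w))
  else if (c - cO b) / 2 < 1 + w + b + b then x.u.testBit ((c - cO b) / 2 - (1 + w + b))
  else if hj : (c - cO b) / 2 - (1 + w + b + b) < h then x.a ⟨_, hj⟩ else false

/-- the state in a memory -/
def decS (V : Mem) : St (Fin h → Bool) where
  hlt := V 0
  acc := V 2
  sim := V (cO b)
  i := num w fun r => V (cO b + 2 * (1 + r))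
  n := num b fun r => V (cO b + 2 * (1 + w + r))
  u := num b fun r => V (cO b + 2 * (1 + w + b + r))
  a := fun r => V (cO b + 2 * (1 + w + b + b + r))
  q := num (b + 1) fun r => V (4 * r + 4)

/-- the simulated state in the recalled memory -/
def decR (V : Mem) : Fin h → Bool := fun r => V (cO b + 2 * (1 + w + b + b + r) + 1)

end

section

variable {h w b : ℕ}

theorem encS_hlt (x : St (Fin h → Bool)) : encS h w b x 0 = x.hlt := by simp [encS]

theorem encS_acc (x : St (Fin h → Bool)) : encS h w b x 2 = x.acc := by simp [encS]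

theorem encS_q (x : St (Fin h → Bool)) {r : ℕ} (hr : r < b + 1) :
    encS h w b x (4 * r + 4) = x.q.testBit r := by
  unfold encS
  rw [if_neg (by omega), if_neg (by omega), if_pos (by unfold cO; omega), if_pos (by omega)]
  congr 1
  omega

theorem encS_sim (x : St (Fin h → Bool)) : encS h w b x (cO b) = x.sim := by
  unfold encS
  rw [if_neg (by unfold cO; omega), if_neg (by unfold cO; omega), if_neg (by omega), if_pos rfl]

theorem encS_i (x : St (Fin h → Bool)) {r : ℕ} (hr : r < w) :
    encS h w b x (cO b + 2 * (1 + r)) = x.i.testBit r := by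
  have e : (cO b + 2 * (1 + r) - cO b) / 2 = 1 + r := by omega
  unfold encS
  rw [if_neg (by unfold cO; omega), if_neg (by unfold cO; omega), if_neg (by omega),
    if_neg (by omega), e, if_pos (by omega)]
  congr 1
  omega

theorem encS_n (x : St (Fin h → Bool)) {r : ℕ} (hr : r < b) :
    encS h w b x (cO b + 2 * (1 + w + r)) = x.n.testBit r := by
  have e : (cO b + 2 * (1 + w + r) - cO b) / 2 = 1 + w + r := by omega
  unfold encS
  rw [if_neg (by unfold cO; omega), if_neg (by unfold cO; omega), if_neg (by omega),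
    if_neg (by omega), e, if_neg (by omega), if_pos (by omega)]
  congr 1
  omega

theorem encS_u (x : St (Fin h → Bool)) {r : ℕ} (hr : r < b) :
    encS h w b x (cO b + 2 * (1 + w + b + r)) = x.u.testBit r := by
  have e : (cO b + 2 * (1 + w + b + r) - cO b) / 2 = 1 + w + b + r := by omega
  unfold encS
  rw [if_neg (by unfold cO; omega), if_neg (by unfold cO; omega), if_neg (by omega),
    if_neg (by omega), e, if_neg (by omega), if_neg (by omega), if_pos (by omega)]
  congr 1
  omega

theorem encS_a (x : St (Fin h → Bool)) (r : Fin h) :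
    encS h w b x (cO b + 2 * (1 + w + b + b + r)) = x.a r := by
  have e : (cO b + 2 * (1 + w + b + b + (r : ℕ)) - cO b) / 2 = 1 + w + b + b + r := by omega
  have e2 : 1 + w + b + b + (r : ℕ) - (1 + w + b + b) = r := by omega
  unfold encS
  rw [if_neg (by unfold cO; omega), if_neg (by unfold cO; omega), if_neg (by omega),
    if_neg (by omega)]
  simp only [e]
  rw [if_neg (by omega), if_neg (by omega), if_neg (by omega)]
  simp only [e2]
  rw [dif_pos r.2]

/-- decoding after merging -/
theorem decS_mrg {L : Lst (Fin h → Bool)} {X : ℕ} (hX : cO b + 2 * (1 + w + b + b + h) ≤ X)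
    {V W : Mem} {x : St (Fin h → Bool)} (hx : SInv L w b x) (hV : EvAgr X V (encS h w b x)) :
    decS h w b (mrg V W) = x := by
  have key : ∀ c, c % 2 = 0 → c < X → mrg V W c = encS h w b x c := by
    intro c h1 h2
    unfold mrg
    rw [if_pos h1]
    exact hV c h2 h1
  have e1 : ∀ n, (num n fun r => x.i.testBit r) = x.i % 2 ^ n := fun n => num_testBit n _
  rcases x with ⟨hlt, acc, sim, i, n, u, a, q⟩
  unfold decS
  congr 1
  · rw [key 0 rfl (by omega), encS_hlt]
  · rw [key 2 rfl (by unfold cO at hX; omega), encS_acc]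
  · rw [key _ (by unfold cO; omega) (by omega), encS_sim]
  · rw [num_congr (h := fun r => i.testBit r) fun r hr => ?_, hc_num_testBit_eq hx.i]
    rw [key _ (by unfold cO; omega) (by omega), encS_i _ hr]
  · rw [num_congr (h := fun r => n.testBit r) fun r hr => ?_, hc_num_testBit_eq hx.n]
    rw [key _ (by unfold cO; omega) (by omega), encS_n _ hr]
  · rw [num_congr (h := fun r => u.testBit r) fun r hr => ?_, hc_num_testBit_eq hx.u]
    rw [key _ (by unfold cO; omega) (by omega), encS_u _ hr]
  · funext r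
    have := r.2
    rw [key _ (by unfold cO; omega) (by omega), encS_a]
  · rw [num_congr (h := fun r => q.testBit r) fun r hr => ?_, hc_num_testBit_eq hx.q]
    rw [key _ (by omega) (by unfold cO at hX; omega), encS_q _ hr]

theorem decR_mrg {X : ℕ} (hX : cO b + 2 * (1 + w + b + b + h) ≤ X)
    {V W : Mem} {x : St (Fin h → Bool)} (hW : EvAgr X W (encS h w b x)) :
    decR h w b (mrg V W) = x.a := by
  funext r
  have hr := r.2
  unfold decR mrg
  rw [if_neg (by unfold cO; omega), Nat.add_sub_cancel,
    hW _ (by omega) (by unfold cO; omega), encS_a]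

theorem ptr_of_enc {L : Lst (Fin h → Bool)} {X : ℕ} (hX : cO b + 2 * (1 + w + b + b + h) ≤ X)
    {V : Mem} {x : St (Fin h → Bool)} (hx : SInv L w b x) (hV : EvAgr X V (encS h w b x)) :
    ptr (b + 1) V = x.q := by
  have h1 : ptr (b + 1) V = num (b + 1) fun r => V (4 * r + 4) := rfl
  rw [h1, num_congr (h := fun r => x.q.testBit r) fun r hr => ?_, hc_num_testBit_eq hx.q]
  rw [hV _ (by unfold cO at hX; omega) (by omega), encS_q _ hr]

end

/-! ### the code -/

section

variable {G : List Ins} {d h w b σ lim X : ℕ}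

/-- the transformation of the memory in one pass -/
def FF (G : List Ins) (d h w b σ lim : ℕ) (y : Inp) (M : Mem) : Mem :=
  encS h w b (psF G d h w b σ lim y (decS h w b M) (decR h w b M))

theorem CStN.dec (hX : 1000 * (h + w + b + σ + 10) ≤ X) :
    CStN X (X ^ 1) w b (fun _ M => decS h w b M) := by
  have hX' : 1000 ≤ X := by omega
  have hi : CN X (X ^ 1) w (fun _ M => num w fun r => M (cO b + 2 * (1 + r))) :=
    CN.of (k := 0) hX' (g := fun r _ M => M (cO b + 2 * (1 + r))) fun r hr =>
      CX.cell hX' (by unfold cO; omega)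
  have hn : CN X (X ^ 1) b (fun _ M => num b fun r => M (cO b + 2 * (1 + w + r))) :=
    CN.of (k := 0) hX' (g := fun r _ M => M (cO b + 2 * (1 + w + r))) fun r hr =>
      CX.cell hX' (by unfold cO; omega)
  have hu : CN X (X ^ 1) b (fun _ M => num b fun r => M (cO b + 2 * (1 + w + b + r))) :=
    CN.of (k := 0) hX' (g := fun r _ M => M (cO b + 2 * (1 + w + b + r))) fun r hr =>
      CX.cell hX' (by unfold cO; omega)
  have hq : CN X (X ^ 1) (b + 1) (fun _ M => num (b + 1) fun r => M (4 * r + 4)) :=
    CN.of (k := 0) hX' (g := fun r _ M => M (4 * r + 4)) fun r hr => CX.cell hX' (by omega)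
  exact
    { hlt := CX.cell hX' (by omega)
      acc := CX.cell hX' (by omega)
      sim := CX.cell hX' (by unfold cO; omega)
      i := hi.bit
      n := hn.bit
      u := hu.bit
      a := fun r => CX.cell hX' (by have := r.2; unfold cO; omega)
      q := hq.bit
      il := hi.lt
      nl := hn.lt
      ul := hu.lt }

theorem CV.decR (hX : 1000 * (h + w + b + σ + 10) ≤ X) :
    CV X (X ^ 1) (fun _ M => decR h w b M) := fun r =>
  CX.cell (by omega) (by have := r.2; unfold cO; omega)

theorem CSt.enc {s : ℕ} (hs : 8 ≤ s) {B : ℕ} {x : Inp → Mem → St (Fin h → Bool)}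
    (hx : CSt B s x) (c : ℕ) : Cp B s (fun y M => encS h w b (x y M) c) := by
  unfold encS
  split_ifs
  · exact hx.hlt
  · exact hx.acc
  · exact hx.q _
  · exact (Cp.const B false).mono le_rfl hs
  · exact hx.sim
  · exact hx.i _
  · exact hx.n _
  · exact hx.u _
  · exact hx.a _
  · exact (Cp.const B false).mono le_rfl hs

theorem exists_hcode (hG : Sz (2 * h) G) (hd : d ≤ b) (hlim : lim < 2 ^ b)
    (hX : 1000 * (h + w + b + σ + 10) ≤ X) :
    ∃ G' : List Ins, Sz (X ^ 60) G' ∧
      ∀ y M M', Agr X M M' → Agr X (eval G' y M) (FF G d h w b σ lim y M') := by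
  have hX' : 1000 ≤ X := by omega
  have h1 := CSt.ps (lim := lim) (σ := σ) hG hX hd hlim (CStN.dec hX) (CV.decR hX)
  have h8 : 8 ≤ X ^ 55 := by
    have := Xpow_le hX' (by norm_num : 1 ≤ 55)
    rw [pow_one] at this
    omega
  have h2 : Tr X (X * (X ^ 55 + 3) + 1) (FF G d h w b σ lim) :=
    Tr.ofCp fun q _ => h1.enc h8 q
  obtain ⟨G', hG', h3⟩ := h2.exists_code
  refine ⟨G', hG'.mono ?_, h3⟩
  have h4 : X + (X * (X ^ 55 + 3) + 1) ≤ X ^ (55 + 2) := Xb2 hX' 55 fun a ha1 ha2 => by
    rw [← ha2]
    have e1 : X * 1 ≤ X * a := Nat.mul_le_mul_left X ha1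
    have e2 : X * (a + 3) = X * a + X * 1 * 3 := by ring
    have e3 : X * (1000 * a) = 1000 * (X * a) := by ring
    rw [e2, e3]
    generalize X * a = p at *
    omega
  exact h4.trans (Xpow_le hX' (by norm_num))

end

section

variable {w σ : ℕ}

theorem rdL_trc (h b : ℕ) (v : Inp) : rdL h w b σ (trc (hLen w σ) v) = rdL h w b σ v := by
  have key : ∀ i f r, hbit w σ (trc (hLen w σ) v) i f r = hbit w σ v i f r := by
    intro i f r
    unfold hbit trc
    rw [if_pos]
    rw [List.length_append, List.length_append, length_bits, length_bits, length_bits]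
    exact le_rfl
  have key' : ∀ i f, hbit w σ (trc (hLen w σ) v) i f = hbit w σ v i f := fun i f => by
    funext r; exact key i f r
  unfold rdL
  simp only [key, key']

theorem rdK_trc (κ : Inp) : rdK w σ (trc σ κ) = rdK w σ κ := by
  unfold rdK trc
  congr 1
  funext r
  rw [if_pos (by rw [length_bits])]

end

/-- **The code of the check** -/
theorem hCodeOK : HCodeOK := by
  intro G d h w b σ lim hG hd hh hdb _ _ _ hlim
  have hX : 1000 * (h + w + b + σ + 10) ≤ 1000 * (h + w + b + σ + 10) := le_rfl
  obtain ⟨G', hG', h1⟩ := exists_hcode (lim := lim) (σ := σ) (w := w) hG hdb hlim hX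
  set X := 1000 * (h + w + b + σ + 10) with hXd
  have hX' : 1000 ≤ X := by omega
  have hc : cO b + 2 * (1 + w + b + b + h) ≤ X := by unfold cO; omega
  have hXX : X ≤ X ^ 60 := by
    have := Xpow_le hX' (by norm_num : 1 ≤ 60)
    rwa [pow_one] at this
  refine ⟨G', X ^ 60, b + 1, ⟨hG', by omega⟩, le_rfl, ?_⟩
  intro z v κ N a hout
  set y : Inp := pair (pair z (trc (hLen w σ) v)) (trc σ κ) with hy
  have e1 : zO y = z := rfl
  have e2 : vO y = trc (hLen w σ) v := rfl
  have e3 : kO y = trc σ κ := rfl
  have e4 : yL h w b σ y = rdL h w b σ v := by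
    show rdL h w b σ (vO y) = _
    rw [e2, rdL_trc]
  have e5 : rdK w σ (kO y) = rdK w σ κ := by rw [e3, rdK_trc]
  have htm := rdL_tm_lt h w b σ v
  have hoff := rdL_off_lt h w b σ v
  have hinv : ∀ n, SInv (rdL h w b σ v) w b ((hchk G d h w b σ lim z v κ).U n) :=
    fun n => SInv.U htm hoff hlim n
  have h0 : EvAgr X zeroMem (encS h w b (hchk G d h w b σ lim z v κ).a0) := by
    intro c _ _
    show false = _
    unfold encS
    split_ifs <;> first | rfl | (symm; exact Nat.zero_testBit _)
  have hsim1 := hsim (f := eval G' y) (d := b + 1) (H := hchk G d h w b σ lim z v κ)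
    (R := fun V x => EvAgr X V (encS h w b x)) (N := N) h0 h0
    (fun n _ V hV => ptr_of_enc hc (hinv n) hV)
    (fun n _ V W hV hW => by
      have h2 : EvAgr X (eval G' y (mrg V W)) (FF G d h w b σ lim y (mrg V W)) :=
        fun q hq _ => h1 y _ _ (Agr.refl _ _) q hq
      have h3 : FF G d h w b σ lim y (mrg V W) =
          encS h w b ((hchk G d h w b σ lim z v κ).U (n + 1)) := by
        unfold FF
        rw [decS_mrg hc (hinv n) hV, decR_mrg hc hW, psF_eq (by rw [e4]; exact htm)
          (by rw [e4]; exact hinv n), HM.U_succ, e4, e5]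
        rfl
      rw [h3] at h2
      exact h2)
  have h20 : ∀ n ≤ N, sta (eval G' y) (b + 1) n 0 = ((hchk G d h w b σ lim z v κ).U n).hlt :=
    fun n hn => by rw [hsim1 n hn 0 (by omega) rfl, encS_hlt]
  have h22 : sta (eval G' y) (b + 1) N 2 = ((hchk G d h w b σ lim z v κ).U N).acc := by
    rw [hsim1 N le_rfl 2 (by omega) rfl, encS_acc]
  have h23 := (Out_iff_of_sim (f := eval G' y) (d := b + 1) (H := hchk G d h w b σ lim z v κ)
    (N := N) (b := a) h20 h22).1 hout
  exact ⟨h23.1, h23.2, fun n hn => ptr_of_enc hc (hinv n) (hsim1 n hn.le)⟩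

end Pool.Agent.NUM
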