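import Pool.Agent.NUM.GDef
import Pool.Agent.NUM.GPar1
import Pool.Agent.NUM.GPar2
import Pool.Agent.NUM.GSim
import Pool.Agent.NUM.HCodeF
import Pool.Agent.NUM.HClosure

/-!
# Theorem H(γ): the base: simulation along a list
-/

set_option autoImplicit false

namespace Pool.Agent.NUM

/-- the string of the label `1` -/
def kOne (σ : ℕ) : Inp := fun a => decide (a = bits σ 0)

theorem rdK_kOne {w σ : ℕ} (hw : 1 ≤ w) (hwσ : w ≤ 2 ^ σ) : rdK w σ (kOne σ) = 1 := by
  unfold rdK
  have h1 : ∀ r < w, kOne σ (bits σ r) = Nat.testBit 1 r := by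
    intro r hr
    unfold kOne
    cases r with
    | zero => simp
    | succ r =>
      have h2 : Nat.testBit 1 (r + 1) = false := by
        rw [Nat.testBit_succ]
        simp
      rw [h2, decide_eq_false_iff_not]
      intro h
      have := bits_inj (by omega) (by positivity) h
      omega
  rw [num_congr h1, num_testBit, Nat.mod_eq_of_lt]
  exact Nat.one_lt_two_pow (by omega)

theorem Loc.kOne (l σ : ℕ) : Loc l (120 * l + 50) (fun _ => kOne σ) := by
  intro k hk j
  by_cases hkσ : k = σ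
  · subst hkσ
    have h1 := Cp.listEq (b := j + k) (n := k) (s := 2) (t := 8) (g := fun i _ M => M (j + i))
      (g' := fun i _ _ => Nat.testBit 0 i) (fun i hi => Cp.cell (by omega))
      (fun i _ => Cp.const _ _)
    refine (h1.congr fun z M => rfl).mono le_rfl ?_
    have h2 : k * (2 * 2 + 2 * 8 + 100) ≤ 120 * l := by omega
    omega
  · refine ((Cp.const (j + k) false).congr fun z M => ?_).mono le_rfl (by omega)
    show false = decide (word M j k = bits σ 0)
    symm
    rw [decide_eq_false_iff_not]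
    intro h
    apply hkσ
    have h2 := congrArg List.length h
    rwa [word_length, length_bits] at h2

theorem LocF.kOne (σ : ℕ → ℕ) : LocF (fun L _ => kOne (σ L)) := fun s hs =>
  ⟨fun L => 120 * s L + 50, ((SubExp.const 120).mul hs).add (SubExp.const 50),
    fun L => Loc.kOne (s L) (σ L)⟩

/-- **base**: there is a program which decides whether the check accepts the list; bad lists are not
accepted, true lists are -/
theorem exists_base {S : GSeq} (hS : S.Ok) {T : Type} {π : Pres T} (G : ℕ → List Ins)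
    (hG : ∀ L, Sz (2 * S.h L) (G L)) {r : ℝ} (hr : 0 ≤ r) (hre : r ≤ S.e₀) :
    ∃ A : T × Inp → Prop, InH (π.ext fun L => hLen (S.w r L) (S.σ L)) A r ∧
      ∀ (p : T × Inp) (N : ℕ), DelRun S (G (π.idx p.1)) (π.inp p.1) (π.idx p.1) N →
        (BadS S (G (π.idx p.1)) (π.inp p.1) (π.idx p.1) N r p.2 → A p) ∧
        (TrS S (G (π.idx p.1)) (π.inp p.1) (π.idx p.1) N r p.2 → ¬ A p) := by
  have hpar : ∀ L, (S.p r r L).Ok := fun L => hS.par le_rfl hre L
  choose G' s' d' h1 h2 h3 using fun L => hCodeOK (G L) (S.d L) (S.h L) (S.w r L) (S.b L) (S.σ L)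
    (S.lim r L) (hG L) (hpar L).hd (hpar L).h2 (hpar L).db (hpar L).hσ (hpar L).wσ (hpar L).bσ
    (hpar L).limb
  -- acceptance, with the label as a string
  set P' : (T × Inp) × Inp → Prop := fun x => ∃ N', (hchk (G (π.idx x.1.1)) (S.d (π.idx x.1.1))
    (S.h (π.idx x.1.1)) (S.w r (π.idx x.1.1)) (S.b (π.idx x.1.1)) (S.σ (π.idx x.1.1))
    (S.lim r (π.idx x.1.1)) (π.inp x.1.1) x.1.2 x.2).Out N' true with hP'
  have hlim : ∀ L, 2 ≤ S.lim r L := fun L => by
    have := (hS.dims r L).2.2.2.2.2.1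
    omega
  have hin : InH ((π.ext fun L => hLen (S.w r L) (S.σ L)).ext S.σ) P' r := by
    refine ⟨G', s', S.lim r, d', 0, ?_, hS.grow_lim hr, h1, fun τ _ =>
      ⟨?_, fun _ _ _ => trivial⟩⟩
    · refine ex_zero_iff.2 (((hS.grow_X hr le_rfl hre).pow 60).mono'
        (Filter.Eventually.of_forall fun L => ?_))
      refine (h2 L).trans (Nat.pow_le_pow_left ?_ 60)
      unfold GPar.X
      show 1000 * (S.h L + S.w r L + S.b L + S.σ L + 10) ≤
        1000 * (S.h L + S.b L + S.σ L + S.d L + S.c L + S.q r r L + S.w r L + S.w r L + 10)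
      omega
    · obtain ⟨⟨τ, v⟩, κ⟩ := τ
      obtain ⟨N', b, hN', hout⟩ := hck_halts (H := finHM (eval (G (π.idx τ)) (π.inp τ))
        (S.d (π.idx τ)) (S.h (π.idx τ))) (L := rdL (S.h (π.idx τ)) (S.w r (π.idx τ))
        (S.b (π.idx τ)) (S.σ (π.idx τ)) v) (κ := rdK (S.w r (π.idx τ)) (S.σ (π.idx τ)) κ)
        (w := S.w r (π.idx τ)) (lim := S.lim r (π.idx τ)) (by have := hlim (π.idx τ); omega)
      obtain ⟨h4, h5, -⟩ := h3 (π.idx τ) (π.inp τ) v κ N' b hout
      refine ⟨b, ⟨N', hN', h4, h5⟩, fun hb => ⟨N', by rw [← hb]; exact hout⟩, ?_⟩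
      rintro ⟨N'', hN''⟩
      exact (HM.Out.unique hout hN'').2
  have hφ : LocF (fun L y => pair y (trc (S.σ L) (kOne (S.σ L)))) :=
    LocF.pair LocF.id (LocF.trc (LocF.kOne S.σ) S.σ)
  have hin2 := InG.virt (ρ := π.ext fun L => hLen (S.w r L) (S.σ L)) hin
    (fun p : T × Inp => (p, kOne (S.σ (π.idx p.1)))) (fun _ => rfl)
    (fun L y => pair y (trc (S.σ L) (kOne (S.σ L)))) hφ ⟨0, fun _ _ => rfl⟩
  refine ⟨fun p => ¬ P' (p, kOne (S.σ (π.idx p.1))),
    InG.mono (InG.compl QLoc.true hin2) le_rfl (fun _ _ _ h => h) (fun _ _ => trivial), ?_⟩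
  intro p N hD
  have hk : rdK (S.w r (π.idx p.1)) (S.σ (π.idx p.1)) (kOne (S.σ (π.idx p.1))) = 1 :=
    rdK_kOne (hS.dims r (π.idx p.1)).2.2.2.2.2.2 (hpar (π.idx p.1)).wσ
  constructor
  · rintro hbad ⟨N', hN'⟩
    unfold hchk at hN'
    simp only [hk] at hN'
    exact BadL.not_accept hbad hD.dead hN'
  · intro htr hno
    apply hno
    obtain ⟨N', hN'⟩ := TrL.accept htr (hlim _) hD.alive
    refine ⟨N', ?_⟩
    unfold hchk
    simp only [hk]
    exact hN'

end Pool.Agent.NUM
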