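import Pool.Agent.NUM.HRd
import Pool.Agent.NUM.CpArith
import Pool.Agent.NUM.Local
import Pool.Agent.NUM.Trans
import Pool.Agent.NUM.Virt

/-!
# The code of the check of history programs: computable numbers

All sizes are of the form `X ^ k` with `1000 ≤ X`; the exponents are not optimized.
* `CN B s n x`: the number `x z M < 2 ^ n` has computable digits;
* `CV B s x`: the vector `x z M : Fin h → Bool` is computable.
-/

set_option autoImplicit false

namespace Pool.Agent.NUM

/-- the three parts of the input of the check -/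
def zO (y : Inp) : Inp := fun a => y (false :: false :: a)

def vO (y : Inp) : Inp := fun a => y (false :: true :: a)

def kO (y : Inp) : Inp := fun a => y (true :: a)

/-- computable number -/
structure CN (B s n : ℕ) (x : Inp → Mem → ℕ) : Prop where
  lt : ∀ z M, x z M < 2 ^ n
  bit : ∀ r, Cp B s (fun z M => (x z M).testBit r)

/-- computable vector -/
def CV (B s : ℕ) {h : ℕ} (x : Inp → Mem → Fin h → Bool) : Prop :=
  ∀ r, Cp B s (fun z M => x z M r)

section

variable {X B k l n m : ℕ}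

/-! ### powers of `X` -/

theorem Xpow_pos (hX : 1000 ≤ X) (k : ℕ) : 1 ≤ X ^ k := Nat.one_le_pow _ _ (by omega)

theorem Xpow_le (hX : 1000 ≤ X) (h : k ≤ l) : X ^ k ≤ X ^ l := Nat.pow_le_pow_right (by omega) h

theorem Xb1 (hX : 1000 ≤ X) (k : ℕ) {s : ℕ} (hs : ∀ a, 1 ≤ a → a = X ^ k → s ≤ 1000 * a) :
    s ≤ X ^ (k + 1) := by
  refine (hs _ (Xpow_pos hX k) rfl).trans ?_
  rw [pow_succ, Nat.mul_comm]
  exact Nat.mul_le_mul_left _ hX

theorem Xb2 (hX : 1000 ≤ X) (k : ℕ) {s : ℕ} (hs : ∀ a, 1 ≤ a → a = X ^ k → s ≤ X * (1000 * a)) :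
    s ≤ X ^ (k + 2) := by
  refine (hs _ (Xpow_pos hX k) rfl).trans ?_
  have h1 : X ^ (k + 2) = X * (X * X ^ k) := by ring
  rw [h1]
  exact Nat.mul_le_mul_left _ (Nat.mul_le_mul_right _ hX)

theorem Xb3 (hX : 1000 ≤ X) (k : ℕ) {s : ℕ}
    (hs : ∀ a, 1 ≤ a → a = X ^ k → s ≤ X * (X * (1000 * a))) : s ≤ X ^ (k + 3) := by
  refine (hs _ (Xpow_pos hX k) rfl).trans ?_
  have h1 : X ^ (k + 3) = X * (X * (X * X ^ k)) := by ring
  rw [h1]
  exact Nat.mul_le_mul_left _ (Nat.mul_le_mul_left _ (Nat.mul_le_mul_right _ hX))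

theorem Cp.up {f : Inp → Mem → Bool} (hf : Cp B (X ^ k) f) (hX : 1000 ≤ X) (h : k ≤ l) :
    Cp B (X ^ l) f := hf.mono le_rfl (Xpow_le hX h)

theorem CX.not {f : Inp → Mem → Bool} (hX : 1000 ≤ X) (hf : Cp B (X ^ k) f) :
    Cp B (X ^ (k + 1)) (fun z M => !(f z M)) :=
  hf.not.mono le_rfl (Xb1 hX k fun a h1 h2 => by rw [← h2]; omega)

theorem CX.and {f g : Inp → Mem → Bool} (hX : 1000 ≤ X) (hf : Cp B (X ^ k) f)
    (hg : Cp B (X ^ k) g) : Cp B (X ^ (k + 1)) (fun z M => f z M && g z M) :=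
  (hf.and hg).mono le_rfl (Xb1 hX k fun a h1 h2 => by rw [← h2]; omega)

theorem CX.or {f g : Inp → Mem → Bool} (hX : 1000 ≤ X) (hf : Cp B (X ^ k) f)
    (hg : Cp B (X ^ k) g) : Cp B (X ^ (k + 1)) (fun z M => f z M || g z M) :=
  (hf.or hg).mono le_rfl (Xb1 hX k fun a h1 h2 => by rw [← h2]; omega)

theorem CX.xor {f g : Inp → Mem → Bool} (hX : 1000 ≤ X) (hf : Cp B (X ^ k) f)
    (hg : Cp B (X ^ k) g) : Cp B (X ^ (k + 1)) (fun z M => (f z M ^^ g z M)) :=
  (hf.xor hg).mono le_rfl (Xb1 hX k fun a h1 h2 => by rw [← h2]; omega)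

theorem CX.bif {f g h : Inp → Mem → Bool} (hX : 1000 ≤ X) (hf : Cp B (X ^ k) f)
    (hg : Cp B (X ^ k) g) (hh : Cp B (X ^ k) h) :
    Cp B (X ^ (k + 1)) (fun z M => bif f z M then g z M else h z M) :=
  (Cp.ite hf hg hh).mono le_rfl (Xb1 hX k fun a h1 h2 => by rw [← h2]; omega)

theorem CX.const (hX : 1000 ≤ X) (v : Bool) : Cp B (X ^ 1) (fun _ _ => v) :=
  (Cp.const B v).mono le_rfl (by rw [pow_one]; omega)

theorem CX.cell (hX : 1000 ≤ X) {i : ℕ} (hi : i < B) : Cp B (X ^ 1) (fun _ M => M i) :=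
  (Cp.cell hi).mono le_rfl (by rw [pow_one]; omega)

/-- a function of the memory after the replacement of the cells `0, …, m - 1` -/
theorem Cp.call {s t : ℕ} {f : Inp → Mem → Bool} (hf : Cp B t f) {g : ℕ → Inp → Mem → Bool}
    (hg : ∀ q < m, Cp B s (g q)) (hB : 0 < B) :
    Cp B (t + (B * (s + 5) + 1) + 4 * B + 4)
      (fun z M => f z (fun q => bif decide (q < m) then g q z M else M q)) := by
  have h1 : Tr B (B * (s + 5) + 1) (fun z M q => bif decide (q < m) then g q z M else M q) :=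
    Tr.setMany (S := fun q => decide (q < m)) (fun q _ hS => hg q (by simpa using hS))
  exact hf.comp h1 hB

theorem CX.call {f : Inp → Mem → Bool} (hX : 1000 ≤ X) (hf : Cp X (X ^ k) f)
    {g : ℕ → Inp → Mem → Bool} (hg : ∀ q < m, Cp X (X ^ k) (g q)) :
    Cp X (X ^ (k + 2)) (fun z M => f z (fun q => bif decide (q < m) then g q z M else M q)) := by
  refine (Cp.call hf hg (by omega)).mono le_rfl (Xb2 hX k fun a h1 h2 => ?_)
  rw [← h2]
  have h3 : X * 1 ≤ X * a := Nat.mul_le_mul_left X h1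
  have h4 : a ≤ X * a := Nat.le_mul_of_pos_left _ (by omega)
  have h5 : X * (a + 5) = X * a + X * 1 * 5 := by ring
  have h6 : X * (1000 * a) = 1000 * (X * a) := by ring
  rw [h5, h6]
  generalize X * a = p at *
  omega

/-! ### numbers -/

theorem hc_num_testBit_eq {n x : ℕ} (h : x < 2 ^ n) : num n (fun r => x.testBit r) = x := by
  rw [num_testBit, Nat.mod_eq_of_lt h]

theorem CN.up {x : Inp → Mem → ℕ} (hx : CN B (X ^ k) n x) (hX : 1000 ≤ X) (h : k ≤ l) :
    CN B (X ^ l) n x := ⟨hx.lt, fun r => (hx.bit r).up hX h⟩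

theorem CN.widen {s : ℕ} {x : Inp → Mem → ℕ} (hx : CN B s n x) (h : n ≤ m) : CN B s m x :=
  ⟨fun z M => (hx.lt z M).trans_le (Nat.pow_le_pow_right (by norm_num) h), hx.bit⟩

theorem CN.congr {s : ℕ} {x y : Inp → Mem → ℕ} (hx : CN B s n x) (h : ∀ z M, x z M = y z M) :
    CN B s n y := by
  have : x = y := by funext z M; exact h z M
  rwa [← this]

theorem CN.of (hX : 1000 ≤ X) {g : ℕ → Inp → Mem → Bool} (hg : ∀ r < n, Cp B (X ^ (k + 1)) (g r)) :
    CN B (X ^ (k + 1)) n (fun z M => num n (fun r => g r z M)) := by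
  refine ⟨fun z M => num_lt n _, fun r => ?_⟩
  by_cases hr : r < n
  · refine (hg r hr).congr fun z M => ?_
    rw [testBit_num]
    simp [hr]
  · refine ((CX.const hX false).up hX (by omega : 1 ≤ k + 1)).congr fun z M => ?_
    rw [testBit_num]
    simp [hr]

theorem CN.const (hX : 1000 ≤ X) {c : ℕ} (hc : c < 2 ^ n) : CN B (X ^ 1) n (fun _ _ => c) :=
  ⟨fun _ _ => hc, fun _ => CX.const hX _⟩

theorem CN.eq {x y : Inp → Mem → ℕ} (hX : 1000 ≤ X) (hn : n ≤ X) (hx : CN B (X ^ k) n x)
    (hy : CN B (X ^ k) n y) : Cp B (X ^ (k + 2)) (fun z M => decide (x z M = y z M)) := by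
  refine ((Cp.numEq₂ (n := n) (fun i _ => hx.bit i) (fun i _ => hy.bit i)).congr
    fun z M => ?_).mono le_rfl (Xb2 hX k fun a h1 h2 => ?_)
  · rw [hc_num_testBit_eq (hx.lt z M), hc_num_testBit_eq (hy.lt z M)]
  · rw [← h2]
    have h3 : X * 1 ≤ X * a := Nat.mul_le_mul_left X h1
    have h4 : n * (2 * a + 2 * a + 100) ≤ X * (104 * a) := Nat.mul_le_mul hn (by omega)
    have h5 : X * (104 * a) = 104 * (X * a) := by ring
    have h6 : X * (1000 * a) = 1000 * (X * a) := by ring
    rw [h5] at h4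
    rw [h6]
    generalize X * a = p at *
    generalize n * (2 * a + 2 * a + 100) = q at *
    omega

theorem CN.ltc {x y : Inp → Mem → ℕ} (hX : 1000 ≤ X) (hn : n ≤ X) (hx : CN B (X ^ k) n x)
    (hy : CN B (X ^ k) n y) : Cp B (X ^ (k + 3)) (fun z M => decide (x z M < y z M)) := by
  refine ((Cp.numLt (n := n) (fun i _ => hx.bit i) (fun i _ => hy.bit i)).congr
    fun z M => ?_).mono le_rfl (Xb3 hX k fun a h1 h2 => ?_)
  · rw [hc_num_testBit_eq (hx.lt z M), hc_num_testBit_eq (hy.lt z M)]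
  · rw [← h2]
    have h3 : X * 1 ≤ X * a := Nat.mul_le_mul_left X h1
    have h3' : a ≤ X * a := Nat.le_mul_of_pos_left _ (by omega)
    have h3'' : X * 1 ≤ X * (X * a) := Nat.mul_le_mul_left X (h1.trans h3')
    have h4 : n * (2 * a + 2 * a + 100) ≤ X * (104 * a) := Nat.mul_le_mul hn (by omega)
    have h5 : X * (104 * a) = 104 * (X * a) := by ring
    rw [h5] at h4
    have h6 : n * (n * (2 * a + 2 * a + 100) + 2 * a + 2 * a + 200) ≤ X * (308 * (X * a)) := by
      refine Nat.mul_le_mul hn ?_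
      generalize X * a = p at *
      generalize n * (2 * a + 2 * a + 100) = q at *
      omega
    have h7 : X * (308 * (X * a)) = 308 * (X * (X * a)) := by ring
    have h8 : X * (X * (1000 * a)) = 1000 * (X * (X * a)) := by ring
    rw [h7] at h6
    rw [h8]
    generalize X * (X * a) = p at *
    generalize n * (n * (2 * a + 2 * a + 100) + 2 * a + 2 * a + 200) = q at *
    omega

theorem CN.lec {x y : Inp → Mem → ℕ} (hX : 1000 ≤ X) (hn : n ≤ X) (hx : CN B (X ^ k) n x)
    (hy : CN B (X ^ k) n y) : Cp B (X ^ (k + 4)) (fun z M => decide (x z M ≤ y z M)) := by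
  refine (CX.not hX (CN.ltc hX hn hy hx)).congr fun z M => ?_
  rw [Bool.eq_iff_iff]
  simp

theorem CN.bif {f : Inp → Mem → Bool} {x y : Inp → Mem → ℕ} (hX : 1000 ≤ X)
    (hf : Cp B (X ^ k) f) (hx : CN B (X ^ k) n x) (hy : CN B (X ^ k) n y) :
    CN B (X ^ (k + 1)) n (fun z M => bif f z M then x z M else y z M) := by
  refine ⟨fun z M => ?_, fun r => (CX.bif hX hf (hx.bit r) (hy.bit r)).congr fun z M => ?_⟩
  · cases f z M
    · exact hy.lt z M
    · exact hx.lt z M
  · cases f z M <;> rfl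

theorem CN.succ {x : Inp → Mem → ℕ} (hX : 1000 ≤ X) (hn : n + 1 ≤ X) (hx : CN B (X ^ k) n x) :
    CN B (X ^ (k + 2)) (n + 1) (fun z M => x z M + 1) := by
  have hp : ∀ z M, x z M + 1 < 2 ^ (n + 1) := by
    intro z M
    have h1 := hx.lt z M
    have h2 : 1 ≤ 2 ^ n := Nat.one_le_two_pow
    rw [pow_succ]
    generalize 2 ^ n = p at *
    omega
  refine ⟨hp, fun r => ?_⟩
  by_cases hr : r < n + 1
  · refine ((Cp.succBit (n := n + 1) (g := fun i z M => (x z M).testBit i)
      (fun i _ => hx.bit i) r hr).congr fun z M => ?_).mono le_rfl (Xb2 hX k fun a h1 h2 => ?_)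
    · have h1 := (hx.widen (Nat.le_succ n)).lt z M
      rw [hc_num_testBit_eq h1]
    · rw [← h2]
      have h3 : X * 1 ≤ X * a := Nat.mul_le_mul_left X h1
      have h3' : a ≤ X * a := Nat.le_mul_of_pos_left _ (by omega)
      have h4 : (n + 1) * (a + 50) ≤ X * (51 * a) := Nat.mul_le_mul hn (by omega)
      have h5 : X * (51 * a) = 51 * (X * a) := by ring
      have h6 : X * (1000 * a) = 1000 * (X * a) := by ring
      rw [h5] at h4
      rw [h6]
      generalize X * a = p at *
      generalize (n + 1) * (a + 50) = q at *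
      omega
  · refine ((CX.const hX false).up hX (by omega : 1 ≤ k + 2)).congr fun z M => ?_
    symm
    apply Nat.testBit_lt_two_pow
    exact (hp z M).trans_le (Nat.pow_le_pow_right (by norm_num) (by omega))

/-- digits of a sum -/
theorem testBit_add_eq (x y r : ℕ) : (x + y).testBit r =
    ((x.testBit r ^^ y.testBit r) ^^ decide (2 ^ r ≤ x % 2 ^ r + y % 2 ^ r)) := by
  have h1 : (x + y) / 2 ^ r = x / 2 ^ r + y / 2 ^ r +
      if 2 ^ r ≤ x % 2 ^ r + y % 2 ^ r then 1 else 0 := Nat.add_div (by positivity)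
  simp only [Nat.testBit_eq_decide_div_mod_eq]
  rw [h1]
  generalize x / 2 ^ r = p
  generalize y / 2 ^ r = q
  by_cases hc : 2 ^ r ≤ x % 2 ^ r + y % 2 ^ r
  · rw [if_pos hc]
    rcases Nat.mod_two_eq_zero_or_one p with hp | hp <;>
      rcases Nat.mod_two_eq_zero_or_one q with hq | hq <;>
      simp [hc, hp, hq, Nat.add_mod]
  · rw [if_neg hc]
    rcases Nat.mod_two_eq_zero_or_one p with hp | hp <;>
      rcases Nat.mod_two_eq_zero_or_one q with hq | hq <;>
      simp [hc, hp, hq, Nat.add_mod]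

/-- digits of a difference -/
theorem testBit_sub_eq {x y : ℕ} (h : y ≤ x) (r : ℕ) : (x - y).testBit r =
    ((x.testBit r ^^ y.testBit r) ^^ decide (x % 2 ^ r < y % 2 ^ r)) := by
  obtain ⟨d, rfl⟩ := Nat.exists_eq_add_of_le' h
  rw [Nat.add_sub_cancel, testBit_add_eq]
  have hc : decide (2 ^ r ≤ d % 2 ^ r + y % 2 ^ r) = decide ((d + y) % 2 ^ r < y % 2 ^ r) := by
    refine decide_eq_decide.2 ?_
    have h1 : d % 2 ^ r < 2 ^ r := Nat.mod_lt _ (by positivity)
    have h2 : y % 2 ^ r < 2 ^ r := Nat.mod_lt _ (by positivity)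
    rw [Nat.add_mod]
    generalize d % 2 ^ r = d' at *
    generalize y % 2 ^ r = y' at *
    generalize 2 ^ r = p at *
    constructor
    · intro h3
      rw [Nat.mod_eq_sub_mod h3, Nat.mod_eq_of_lt (by omega)]
      omega
    · intro h3
      by_contra h4
      rw [Nat.mod_eq_of_lt (by omega)] at h3
      omega
  rw [← hc]
  generalize decide (2 ^ r ≤ d % 2 ^ r + y % 2 ^ r) = c
  cases d.testBit r <;> cases y.testBit r <;> cases c <;> rfl

theorem num_not_eq (x r : ℕ) : num r (fun i => !(x.testBit i)) + x % 2 ^ r + 1 = 2 ^ r := by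
  rw [← num_testBit]
  induction r with
  | zero => simp [num]
  | succ r ih =>
    rw [num_succ, num_succ, pow_succ]
    cases hx : x.testBit r
    · simp only [Bool.not_false, if_true, Bool.false_eq_true, if_false]
      omega
    · simp only [Bool.not_true, Bool.false_eq_true, if_false, if_true]
      omega

/-- sum -/
theorem CN.add {x y : Inp → Mem → ℕ} (hX : 1000 ≤ X) (hn : n + 1 ≤ X) (hx : CN B (X ^ k) n x)
    (hy : CN B (X ^ k) n y) : CN B (X ^ (k + 7)) (n + 1) (fun z M => x z M + y z M) := by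
  have hp : ∀ z M, x z M + y z M < 2 ^ (n + 1) := by
    intro z M
    have h1 := hx.lt z M
    have h2 := hy.lt z M
    rw [pow_succ]
    generalize 2 ^ n = p at *
    omega
  refine ⟨hp, fun r => ?_⟩
  by_cases hr : r < n + 1
  · have h1 : CN B (X ^ (k + 1)) r (fun z M => num r (fun i => !((x z M).testBit i))) :=
      CN.of hX (g := fun i z M => !((x z M).testBit i)) fun i _ => CX.not hX (hx.bit i)
    have h2 : CN B (X ^ (k + 1)) r (fun z M => num r (fun i => (y z M).testBit i)) :=
      CN.of hX (g := fun i z M => (y z M).testBit i) fun i _ => (hy.bit i).up hX (by omega)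
    have h3 := CN.ltc hX (by omega : r ≤ X) h1 h2
    have h4 := CX.xor hX (CX.xor hX ((hx.bit r).up hX (by omega : k ≤ k + 3))
      ((hy.bit r).up hX (by omega))) h3
    refine (h4.congr fun z M => ?_).up hX (by omega)
    rw [testBit_add_eq, num_testBit]
    congr 1
    refine decide_eq_decide.2 ?_
    have h5 := num_not_eq (x z M) r
    generalize num r (fun i => !((x z M).testBit i)) = a at *
    generalize x z M % 2 ^ r = a' at *
    generalize y z M % 2 ^ r = a'' at *
    generalize 2 ^ r = p at *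
    omega
  · refine ((CX.const hX false).up hX (by omega : 1 ≤ k + 7)).congr fun z M => ?_
    symm
    apply Nat.testBit_lt_two_pow
    exact (hp z M).trans_le (Nat.pow_le_pow_right (by norm_num) (by omega))

/-- (truncated) difference -/
theorem CN.sub {x y : Inp → Mem → ℕ} (hX : 1000 ≤ X) (hn : n + 1 ≤ X) (hx : CN B (X ^ k) n x)
    (hy : CN B (X ^ k) n y) : CN B (X ^ (k + 7)) n (fun z M => x z M - y z M) := by
  have hp : ∀ z M, x z M - y z M < 2 ^ n := fun z M => (Nat.sub_le _ _).trans_lt (hx.lt z M)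
  refine ⟨hp, fun r => ?_⟩
  by_cases hr : r < n
  · have h1 : CN B (X ^ (k + 1)) r (fun z M => num r (fun i => (x z M).testBit i)) :=
      CN.of hX (g := fun i z M => (x z M).testBit i) fun i _ => (hx.bit i).up hX (by omega)
    have h2 : CN B (X ^ (k + 1)) r (fun z M => num r (fun i => (y z M).testBit i)) :=
      CN.of hX (g := fun i z M => (y z M).testBit i) fun i _ => (hy.bit i).up hX (by omega)
    have h3 := CN.ltc hX (by omega : r ≤ X) h1 h2
    have h4 := CX.xor hX (CX.xor hX ((hx.bit r).up hX (by omega : k ≤ k + 3))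
      ((hy.bit r).up hX (by omega))) h3
    have h5 := CN.ltc hX (by omega : n ≤ X) hx hy
    have h6 := CX.bif hX (h5.up hX (by omega : k + 3 ≤ k + 3 + 1 + 1))
      ((CX.const hX false).up hX (by omega)) h4
    refine (h6.congr fun z M => ?_).up hX (by omega)
    by_cases h7 : x z M < y z M
    · rw [decide_eq_true h7, Nat.sub_eq_zero_of_le h7.le]
      simp
    · rw [decide_eq_false h7, testBit_sub_eq (by omega), num_testBit, num_testBit]
      rfl
  · refine ((CX.const hX false).up hX (by omega : 1 ≤ k + 7)).congr fun z M => ?_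
    symm
    apply Nat.testBit_lt_two_pow
    exact (hp z M).trans_le (Nat.pow_le_pow_right (by norm_num) (by omega))

/-! ### vectors -/

theorem CV.up {h : ℕ} {x : Inp → Mem → Fin h → Bool} (hx : CV B (X ^ k) x) (hX : 1000 ≤ X)
    (hkl : k ≤ l) : CV B (X ^ l) x := fun r => (hx r).up hX hkl

theorem CV.congr {h s : ℕ} {x y : Inp → Mem → Fin h → Bool} (hx : CV B s x)
    (hxy : ∀ z M, x z M = y z M) : CV B s y := by
  have : x = y := by funext z M; exact hxy z M
  rwa [← this]

theorem CV.bif {h : ℕ} {f : Inp → Mem → Bool} {x y : Inp → Mem → Fin h → Bool} (hX : 1000 ≤ X)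
    (hf : Cp B (X ^ k) f) (hx : CV B (X ^ k) x) (hy : CV B (X ^ k) y) :
    CV B (X ^ (k + 1)) (fun z M => bif f z M then x z M else y z M) := fun r =>
  (CX.bif hX hf (hx r) (hy r)).congr fun z M => by
    show _ = (bif f z M then x z M else y z M) r
    cases f z M <;> rfl

theorem CV.const {h : ℕ} (hX : 1000 ≤ X) (v : Fin h → Bool) : CV B (X ^ 1) (fun _ _ => v) :=
  fun _ => CX.const hX _

theorem CV.eq {h : ℕ} {x y : Inp → Mem → Fin h → Bool} (hX : 1000 ≤ X) (hh : h ≤ X)
    (hx : CV B (X ^ (k + 1)) x) (hy : CV B (X ^ (k + 1)) y) :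
    Cp B (X ^ (k + 3)) (fun z M => decide (x z M = y z M)) := by
  have h1 : ∀ {x : Inp → Mem → Fin h → Bool}, CV B (X ^ (k + 1)) x →
      CN B (X ^ (k + 1)) h (fun z M => num h (fun r => if hr : r < h then x z M ⟨r, hr⟩ else false)) :=
    fun {x} hx => CN.of hX (g := fun r z M => if hr : r < h then x z M ⟨r, hr⟩ else false)
      (fun r hr => (hx ⟨r, hr⟩).congr fun z M => by simp [hr])
  refine (CN.eq hX hh (h1 hx) (h1 hy)).congr fun z M => ?_
  refine decide_eq_decide.2 ?_
  rw [num_inj_iff]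
  constructor
  · intro h2
    funext r
    have := h2 r r.2
    simpa using this
  · intro h2 r hr
    rw [h2]

/-! ### reading the list of claims at a computed index -/

theorem CX.ask (hX : 1000 ≤ X) {c : ℕ} (hc : c + 10 ≤ X) {g : ℕ → Inp → Mem → Bool}
    (hg : ∀ i < c, Cp B (X ^ k) (g i)) :
    Cp B (X ^ (k + 2)) (fun z M => z ((List.range c).map fun i => g i z M)) := by
  refine (Cp.ask hg).mono le_rfl (Xb2 hX k fun a h1 h2 => ?_)
  rw [← h2]
  have h3 : X * 1 ≤ X * a := Nat.mul_le_mul_left X h1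
  have h4 : c * (a + 1) ≤ X * (2 * a) := Nat.mul_le_mul (by omega) (by omega)
  have h5 : X * (2 * a) = 2 * (X * a) := by ring
  have h6 : X * (1000 * a) = 1000 * (X * a) := by ring
  rw [h5] at h4
  rw [h6]
  generalize X * a = p at *
  generalize c * (a + 1) = q at *
  omega

theorem bits_append_map {w : ℕ} (pre post : List Bool) (x : ℕ) :
    (List.range (pre.length + w + post.length)).map (fun i =>
      if i < pre.length then pre.getD i false
      else if i < pre.length + w then x.testBit (i - pre.length)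
      else post.getD (i - pre.length - w) false) = pre ++ (bits w x ++ post) := by
  apply List.ext_getElem
  · simp [bits]; omega
  · intro i h1 h2
    simp only [List.length_map, List.length_range] at h1
    simp only [List.getElem_map, List.getElem_range]
    by_cases h3 : i < pre.length
    · rw [if_pos h3, List.getElem_append_left h3]
      simp [h3]
    · rw [if_neg h3, List.getElem_append_right (by omega)]
      by_cases h4 : i < pre.length + w
      · rw [if_pos h4, List.getElem_append_left (by rw [length_bits]; omega)]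
        simp [bits]
      · rw [if_neg h4, List.getElem_append_right (by rw [length_bits]; omega)]
        have h5 : i - pre.length - w < post.length := by omega
        simp [length_bits, List.getD, h5]

theorem CX.askAt (hX : 1000 ≤ X) {w : ℕ} (pre post : List Bool)
    (hc : pre.length + w + post.length + 10 ≤ X) {i : Inp → Mem → ℕ}
    (hi : CN B (X ^ (k + 1)) w i) :
    Cp B (X ^ (k + 3)) (fun y M => y (pre ++ (bits w (i y M) ++ post))) := by
  refine (CX.ask hX hc (g := fun j y M => if j < pre.length then pre.getD j false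
      else if j < pre.length + w then (i y M).testBit (j - pre.length)
      else post.getD (j - pre.length - w) false) (k := k + 1) fun j hj => ?_).congr fun y M => ?_
  · by_cases h3 : j < pre.length
    · exact ((CX.const hX (pre.getD j false)).up hX (by omega)).congr fun y M => by simp [h3]
    · by_cases h4 : j < pre.length + w
      · exact (hi.bit (j - pre.length)).congr fun y M => by simp [h3, h4]
      · exact ((CX.const hX (post.getD (j - pre.length - w) false)).up hX (by omega)).congr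
          fun y M => by simp [h3, h4]
  · show y _ = y _
    rw [bits_append_map]

variable {h w b σ : ℕ}

theorem CX.hbit (hX : 1000 * (h + w + b + σ + 10) ≤ X) {i : Inp → Mem → ℕ}
    (hi : CN B (X ^ (k + 1)) w i) (f r : ℕ) :
    Cp B (X ^ (k + 3)) (fun y M => hbit w σ (vO y) (i y M) f r) := by
  refine (CX.askAt (by omega) [false, true] (bits 3 f ++ bits σ r) ?_ hi).congr fun y M => rfl
  rw [List.length_append, length_bits, length_bits]
  simp only [List.length_cons, List.length_nil]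
  omega

theorem CX.tm (hX : 1000 * (h + w + b + σ + 10) ≤ X) {i : Inp → Mem → ℕ}
    (hi : CN B (X ^ (k + 1)) w i) :
    CN B (X ^ (k + 3)) b (fun y M => (rdL h w b σ (vO y)).tm (i y M)) :=
  CN.of (by omega) (g := fun r y M => Pool.Agent.NUM.hbit w σ (vO y) (i y M) 0 r)
    fun r _ => CX.hbit hX hi 0 r

theorem CX.off (hX : 1000 * (h + w + b + σ + 10) ≤ X) {i : Inp → Mem → ℕ}
    (hi : CN B (X ^ (k + 1)) w i) :
    CN B (X ^ (k + 3)) b (fun y M => (rdL h w b σ (vO y)).off (i y M)) :=
  CN.of (by omega) (g := fun r y M => Pool.Agent.NUM.hbit w σ (vO y) (i y M) 3 r)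
    fun r _ => CX.hbit hX hi 3 r

theorem CX.lb (hX : 1000 * (h + w + b + σ + 10) ≤ X) {i : Inp → Mem → ℕ}
    (hi : CN B (X ^ (k + 1)) w i) :
    CN B (X ^ (k + 3)) w (fun y M => (rdL h w b σ (vO y)).lb (i y M)) :=
  CN.of (by omega) (g := fun r y M => Pool.Agent.NUM.hbit w σ (vO y) (i y M) 2 r)
    fun r _ => CX.hbit hX hi 2 r

theorem CX.fin (hX : 1000 * (h + w + b + σ + 10) ≤ X) {i : Inp → Mem → ℕ}
    (hi : CN B (X ^ (k + 1)) w i) :
    Cp B (X ^ (k + 3)) (fun y M => (rdL h w b σ (vO y)).fin (i y M)) := CX.hbit hX hi 4 0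

theorem CX.st (hX : 1000 * (h + w + b + σ + 10) ≤ X) {i : Inp → Mem → ℕ}
    (hi : CN B (X ^ (k + 1)) w i) :
    CV B (X ^ (k + 3)) (fun y M => (rdL h w b σ (vO y)).st (i y M)) :=
  fun r => CX.hbit hX hi 1 r

theorem CX.rdK (hX : 1000 * (h + w + b + σ + 10) ≤ X) :
    CN B (X ^ 1) w (fun y _ => rdK w σ (kO y)) := by
  refine CN.of (k := 0) (by omega) (g := fun r y _ => kO y (bits σ r)) fun r _ => ?_
  refine (Cp.askConst B (true :: bits σ r)).mono le_rfl ?_
  rw [List.length_cons, length_bits, Nat.zero_add, pow_one]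
  omega

theorem CX.pred {n : ℕ} (hX : 1000 ≤ X) (hn : n + 2 ≤ X) {x : Inp → Mem → ℕ}
    (hx : CN B (X ^ (k + 1)) n x) : CN B (X ^ (k + 8)) n (fun z M => x z M - 1) := by
  have h1 := CN.sub hX (by omega : n + 1 + 1 ≤ X) (hx.widen (Nat.le_succ n))
    ((CN.const hX (n := n + 1) (c := 1) (Nat.one_lt_two_pow (by omega))).up hX
      (by omega : 1 ≤ k + 1))
  exact ⟨fun z M => (Nat.sub_le _ _).trans_lt (hx.lt z M), h1.bit⟩

theorem CX.isZero {n : ℕ} (hX : 1000 ≤ X) (hn : n ≤ X) {x : Inp → Mem → ℕ}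
    (hx : CN B (X ^ (k + 1)) n x) : Cp B (X ^ (k + 3)) (fun z M => decide (x z M = 0)) :=
  CN.eq hX hn hx ((CN.const hX (by positivity)).up hX (by omega : 1 ≤ k + 1))

theorem pv_eq {A : Type} (L : Lst A) (i : ℕ) :
    L.pv i = bif decide (i = 0) then 0 else L.tm (i - 1) := by
  cases i <;> rfl

theorem ps_eqA {A : Type} (L : Lst A) (a0 : A) (i : ℕ) :
    L.ps a0 i = bif decide (i = 0) then a0 else L.st (i - 1) := by
  cases i <;> rfl

theorem CX.pv (hX : 1000 * (h + w + b + σ + 10) ≤ X) {i : Inp → Mem → ℕ}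
    (hi : CN B (X ^ (k + 1)) w i) :
    CN B (X ^ (k + 12)) b (fun y M => (rdL h w b σ (vO y)).pv (i y M)) := by
  have h1 := CX.pred (by omega) (by omega) hi
  have h2 := CX.tm (h := h) (b := b) (σ := σ) hX (k := k + 7) h1
  have h3 := CX.isZero (by omega) (by omega) hi
  have h4 := CN.bif (by omega) (h3.up (by omega) (by omega : k + 3 ≤ k + 10))
    ((CN.const (by omega) (by positivity : 0 < 2 ^ b)).up (by omega) (by omega)) h2
  exact (h4.congr fun y M => (pv_eq _ _).symm).up (by omega) (by omega)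

theorem CX.ps (hX : 1000 * (h + w + b + σ + 10) ≤ X) {i : Inp → Mem → ℕ}
    (hi : CN B (X ^ (k + 1)) w i) :
    CV B (X ^ (k + 12)) (fun y M => (rdL h w b σ (vO y)).ps (fun _ => false) (i y M)) := by
  have h1 := CX.pred (by omega) (by omega) hi
  have h2 := CX.st (h := h) (b := b) (σ := σ) hX (k := k + 7) h1
  have h3 := CX.isZero (by omega) (by omega) hi
  have h4 := CV.bif (by omega) (h3.up (by omega) (by omega : k + 3 ≤ k + 10))
    ((CV.const (by omega) (fun _ : Fin h => false)).up (by omega) (by omega)) h2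
  exact (h4.congr fun y M => (ps_eqA _ _ _).symm).up (by omega) (by omega)

end

end Pool.Agent.NUM
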