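import Pool.Agent.NUM.GRead
import Pool.Agent.NUM.HCodeA

/-!
# Theorem H(γ): code of the conflict conditions

* `CPr B s P`: the predicate `P` is computable;
* `CL`: a computable list of claims (all fields at a computed index are computable);
* `CL.conf`, `CL.dfAt`, `CL.topL`.
-/

set_option autoImplicit false

namespace Pool.Agent.NUM

/-- computable predicate -/
def CPr (B s : ℕ) (P : Inp → Mem → Prop) : Prop :=
  ∃ f : Inp → Mem → Bool, Cp B s f ∧ ∀ z M, (f z M = true ↔ P z M)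

section

variable {X B k l : ℕ}

theorem CPr.of {s : ℕ} {f : Inp → Mem → Bool} (hf : Cp B s f) : CPr B s fun z M => f z M = true :=
  ⟨f, hf, fun _ _ => Iff.rfl⟩

theorem CPr.ofDec {s : ℕ} {P : Inp → Mem → Prop} [∀ z M, Decidable (P z M)]
    (hf : Cp B s fun z M => decide (P z M)) : CPr B s P := ⟨_, hf, fun z M => by simp⟩

theorem CPr.congr {s : ℕ} {P Q : Inp → Mem → Prop} (h : CPr B s P) (hPQ : ∀ z M, P z M ↔ Q z M) :
    CPr B s Q := by
  obtain ⟨f, hf, h1⟩ := h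
  exact ⟨f, hf, fun z M => (h1 z M).trans (hPQ z M)⟩

theorem CPr.up {P : Inp → Mem → Prop} (hX : 1000 ≤ X) (h : CPr B (X ^ k) P) (hkl : k ≤ l) :
    CPr B (X ^ l) P := by
  obtain ⟨f, hf, h1⟩ := h
  exact ⟨f, hf.up hX hkl, h1⟩

theorem CPr.not {P : Inp → Mem → Prop} (hX : 1000 ≤ X) (h : CPr B (X ^ k) P) :
    CPr B (X ^ (k + 1)) fun z M => ¬ P z M := by
  obtain ⟨f, hf, h1⟩ := h
  exact ⟨_, CX.not hX hf, fun z M => by beta_reduce; rw [← h1 z M]; simp⟩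

theorem CPr.and {P Q : Inp → Mem → Prop} (hX : 1000 ≤ X) (h : CPr B (X ^ k) P)
    (h' : CPr B (X ^ k) Q) : CPr B (X ^ (k + 1)) fun z M => P z M ∧ Q z M := by
  obtain ⟨f, hf, h1⟩ := h
  obtain ⟨g, hg, h2⟩ := h'
  exact ⟨_, CX.and hX hf hg, fun z M => by beta_reduce; rw [← h1 z M, ← h2 z M]; simp⟩

theorem CPr.or {P Q : Inp → Mem → Prop} (hX : 1000 ≤ X) (h : CPr B (X ^ k) P)
    (h' : CPr B (X ^ k) Q) : CPr B (X ^ (k + 1)) fun z M => P z M ∨ Q z M := by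
  obtain ⟨f, hf, h1⟩ := h
  obtain ⟨g, hg, h2⟩ := h'
  exact ⟨_, CX.or hX hf hg, fun z M => by beta_reduce; rw [← h1 z M, ← h2 z M]; simp⟩

theorem CPr.imp {P Q : Inp → Mem → Prop} (hX : 1000 ≤ X) (h : CPr B (X ^ k) P)
    (h' : CPr B (X ^ k) Q) : CPr B (X ^ (k + 2)) fun z M => P z M → Q z M :=
  ((h.not hX).or hX (h'.up hX (by omega))).congr fun z M => by tauto

theorem CPr.numEq {n : ℕ} {x y : Inp → Mem → ℕ} (hX : 1000 ≤ X) (hn : n ≤ X)
    (hx : CN B (X ^ k) n x) (hy : CN B (X ^ k) n y) :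
    CPr B (X ^ (k + 2)) fun z M => x z M = y z M := CPr.ofDec (CN.eq hX hn hx hy)

theorem CPr.numLt {n : ℕ} {x y : Inp → Mem → ℕ} (hX : 1000 ≤ X) (hn : n ≤ X)
    (hx : CN B (X ^ k) n x) (hy : CN B (X ^ k) n y) :
    CPr B (X ^ (k + 3)) fun z M => x z M < y z M := CPr.ofDec (CN.ltc hX hn hx hy)

theorem CPr.numLe {n : ℕ} {x y : Inp → Mem → ℕ} (hX : 1000 ≤ X) (hn : n ≤ X)
    (hx : CN B (X ^ k) n x) (hy : CN B (X ^ k) n y) :
    CPr B (X ^ (k + 4)) fun z M => x z M ≤ y z M := CPr.ofDec (CN.lec hX hn hx hy)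

theorem CPr.vecEq {h : ℕ} {x y : Inp → Mem → Fin h → Bool} (hX : 1000 ≤ X) (hh : h ≤ X)
    (hx : CV B (X ^ (k + 1)) x) (hy : CV B (X ^ (k + 1)) y) :
    CPr B (X ^ (k + 3)) fun z M => x z M = y z M := CPr.ofDec (CV.eq hX hh hx hy)

theorem CPr.isFalse {f : Inp → Mem → Bool} (hX : 1000 ≤ X) (hf : Cp B (X ^ k) f) :
    CPr B (X ^ (k + 1)) fun z M => f z M = false :=
  ((CPr.of hf).not hX).congr fun z M => by simp

/-- a computable list of claims: all fields at a computed index are computable -/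
structure CL (B X k h w b : ℕ) (L : Inp → Mem → Lst (Fin h → Bool)) : Prop where
  tm : ∀ (l : ℕ) (i : Inp → Mem → ℕ), k ≤ l → CN B (X ^ l) w i →
    CN B (X ^ (l + 5)) b fun z M => (L z M).tm (i z M)
  st : ∀ (l : ℕ) (i : Inp → Mem → ℕ), k ≤ l → CN B (X ^ l) w i →
    CV B (X ^ (l + 5)) fun z M => (L z M).st (i z M)
  lb : ∀ (l : ℕ) (i : Inp → Mem → ℕ), k ≤ l → CN B (X ^ l) w i →
    CN B (X ^ (l + 5)) w fun z M => (L z M).lb (i z M)
  off : ∀ (l : ℕ) (i : Inp → Mem → ℕ), k ≤ l → CN B (X ^ l) w i →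
    CN B (X ^ (l + 5)) b fun z M => (L z M).off (i z M)
  fin : ∀ (l : ℕ) (i : Inp → Mem → ℕ), k ≤ l → CN B (X ^ l) w i →
    Cp B (X ^ (l + 5)) fun z M => (L z M).fin (i z M)

variable {h w b : ℕ} {L L' : Inp → Mem → Lst (Fin h → Bool)}

/-- time at the start of segment `i` -/
theorem CL.pv (hL : CL B X k h w b L) (hX : 1000 ≤ X) (hw : w + 2 ≤ X) {i : Inp → Mem → ℕ}
    (hkl : k ≤ l + 1) (hi : CN B (X ^ (l + 1)) w i) :
    CN B (X ^ (l + 14)) b fun z M => (L z M).pv (i z M) := by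
  have h1 := CX.pred hX hw hi
  have h2 := hL.tm (l + 8) _ (by omega) h1
  have h3 := CX.isZero hX (by omega) hi
  have h4 := CN.bif hX (h3.up hX (by omega : l + 3 ≤ l + 8 + 5))
    ((CN.const hX (by positivity : 0 < 2 ^ b)).up hX (by omega)) h2
  exact (h4.congr fun y M => (pv_eq _ _).symm).up hX (by omega)

/-- state at the start of segment `i` -/
theorem CL.ps (hL : CL B X k h w b L) (hX : 1000 ≤ X) (hw : w + 2 ≤ X) {i : Inp → Mem → ℕ}
    (hkl : k ≤ l + 1) (hi : CN B (X ^ (l + 1)) w i) :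
    CV B (X ^ (l + 14)) fun z M => (L z M).ps (fun _ => false) (i z M) := by
  have h1 := CX.pred hX hw hi
  have h2 := hL.st (l + 8) _ (by omega) h1
  have h3 := CX.isZero hX (by omega) hi
  have h4 := CV.bif hX (h3.up hX (by omega : l + 3 ≤ l + 8 + 5))
    ((CV.const hX (fun _ : Fin h => false)).up hX (by omega)) h2
  exact (h4.congr fun y M => (ps_eqA _ _ _).symm).up hX (by omega)

/-- the pointer of a computable state -/
theorem CV.idx {d : ℕ} (hd : 4 * d < 2 * h) {S : Inp → Mem → Fin h → Bool} (hX : 1000 ≤ X)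
    (hS : CV B (X ^ (k + 1)) S) (g : Inp → Inp) :
    CN B (X ^ (k + 1)) d fun z M => (finHM (eval [] (g z)) d h).idx (S z M) := by
  have h1 : CN B (X ^ (k + 1)) d fun z M =>
      num d (fun r => if hr : 2 * r + 2 < h then S z M ⟨2 * r + 2, hr⟩ else false) :=
    CN.of hX (g := fun r z M => if hr : 2 * r + 2 < h then S z M ⟨2 * r + 2, hr⟩ else false)
      fun r hr => (hS ⟨2 * r + 2, by omega⟩).congr fun z M => by
        have h2 : 2 * r + 2 < h := by omega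
        simp [h2]
  refine h1.congr fun z M => ?_
  show num d _ = ptr d (embM (S z M))
  unfold num ptr
  refine Finset.sum_congr rfl fun r hr => ?_
  rw [Finset.mem_range] at hr
  have h2 : 2 * r + 2 < h := by omega
  have h3 : embM (S z M) (4 * r + 4) = S z M ⟨2 * r + 2, h2⟩ := by
    have h4 := embM_even (S z M) ⟨2 * r + 2, h2⟩
    rw [← h4]
    congr 1
    show 4 * r + 4 = 2 * (2 * r + 2)
    omega
  rw [h3]
  simp [h2]

end

section

variable {X B k l : ℕ} {p : GPar}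

/-- the conditions on the parameters and on `X` -/
structure XOk (p : GPar) (X : ℕ) : Prop where
  X1 : 1000 ≤ X
  h : p.h + 10 ≤ X
  b : p.b + 10 ≤ X
  w : p.w + 10 ≤ X
  w₁ : p.w₁ + 10 ≤ X
  q : p.q + 10 ≤ X

theorem GPar.xok (p : GPar) : XOk p p.X := by
  constructor <;> unfold GPar.X <;> omega

/-- the flag of a computable state -/
theorem CV.gfl (hp : p.Ok) {S : Inp → Mem → Fin p.h → Bool} (hS : CV B (X ^ k) S) :
    Cp B (X ^ k) fun z M => gfl p (S z M) := by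
  refine (hS ⟨p.c, hp.ch⟩).congr fun z M => ?_
  unfold Pool.Agent.NUM.gfl
  rw [dif_pos hp.ch]

/-- the answer of a computable state -/
theorem CV.gacc (hp : p.Ok) {S : Inp → Mem → Fin p.h → Bool} (hS : CV B (X ^ k) S) :
    Cp B (X ^ k) fun z M => gacc p (S z M) := by
  have h1 : 1 < p.h := hp.h2
  refine (hS ⟨1, h1⟩).congr fun z M => ?_
  unfold Pool.Agent.NUM.gacc
  rw [dif_pos h1]

variable {w : ℕ} {L L' : Inp → Mem → Lst (Fin p.h → Bool)}

/-- **Conflicts.** -/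
theorem CL.conf (hp : p.Ok) (hX : XOk p X) (hw : w + 10 ≤ X) (hw0 : 1 ≤ w)
    (hL : CL B X k p.h w p.b L)
    {j : Inp → Mem → ℕ} {S : Inp → Mem → Fin p.h → Bool} {u : Inp → Mem → ℕ} (hkl : k ≤ l + 1)
    (hj : CN B (X ^ (l + 1)) w j) (hS : CV B (X ^ (l + 14)) S) (hu : CN B (X ^ (l + 14)) p.b u) :
    CPr B (X ^ (l + 24)) fun z M =>
      Conf (gH p [] fun _ => false) (gfl p) (L z M) (j z M) (S z M) (u z M) := by
  have hX1 := hX.X1
  have hb := hX.b
  have c1 : CPr B (X ^ (l + 20)) fun z M => gfl p (S z M) = true :=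
    (CPr.of (CV.gfl hp hS)).up hX1 (by omega)
  have hi : CN B (X ^ (l + 14)) p.b fun z M => (gH p [] fun _ => false).idx (S z M) :=
    (CV.idx (k := l + 13) hp.hd hX1 hS fun _ => fun _ => false).widen hp.db
  have c2 : CPr B (X ^ (l + 20)) fun z M => 0 < (gH p [] fun _ => false).idx (S z M) :=
    (CPr.numLt hX1 (by omega) ((CN.const hX1 (by positivity : 0 < 2 ^ p.b)).up hX1 (by omega)) hi).up
      hX1 (by omega)
  have c3 : CPr B (X ^ (l + 20)) fun z M => (gH p [] fun _ => false).idx (S z M) ≤ u z M :=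
    (CPr.numLe hX1 (by omega) hi hu).up hX1 (by omega)
  have c4 : CPr B (X ^ (l + 20)) fun z M =>
      (L z M).pv (j z M) < (gH p [] fun _ => false).idx (S z M) :=
    (CPr.numLt hX1 (by omega) (hL.pv hX1 (by omega) hkl hj) hi).up hX1 (by omega)
  have c5 : CPr B (X ^ (l + 20)) fun z M =>
      (gH p [] fun _ => false).idx (S z M) < (L z M).tm (j z M) :=
    (CPr.numLt hX1 (by omega) hi ((hL.tm _ _ hkl hj).up hX1 (by omega))).up hX1 (by omega)
  have c6 : CPr B (X ^ (l + 20)) fun z M => (L z M).lb (j z M) ≠ 1 :=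
    ((CPr.numEq hX1 (by omega : w ≤ X) (hL.lb _ _ hkl hj)
      ((CN.const hX1 (Nat.one_lt_two_pow (by omega))).up hX1 (by omega))).not hX1).up hX1 (by omega)
  exact (c1.up hX1 (by omega)).or hX1 ((((c2.and hX1 c3).and hX1 ((c4.and hX1 c5))).and hX1
    (c6.up hX1 (by omega))).congr fun z M => by tauto)

private theorem GCodeD_prop (I J A₁ A₂ C E D₁ D₂ D₃ D₄ D₅ : Prop) (hI : I) (hJ : J) :
    ((A₁ ∧ A₂) ∧ (C ∨ ((((E ∧ D₁) ∧ (D₂ ∧ D₃)) ∧ D₄) ∧ D₅))) ↔
      (I ∧ J ∧ A₁ ∧ A₂ ∧ (C ∨ (E ∧ D₁ ∧ D₂ ∧ D₃ ∧ D₄ ∧ D₅))) := by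
  constructor
  · rintro ⟨⟨h1, h2⟩, h3 | ⟨⟨⟨⟨h3, h4⟩, h5, h6⟩, h7⟩, h8⟩⟩
    · exact ⟨hI, hJ, h1, h2, Or.inl h3⟩
    · exact ⟨hI, hJ, h1, h2, Or.inr ⟨h3, h4, h5, h6, h7, h8⟩⟩
  · rintro ⟨-, -, h1, h2, h3 | ⟨h3, h4, h5, h6, h7, h8⟩⟩
    · exact ⟨⟨h1, h2⟩, Or.inl h3⟩
    · exact ⟨⟨h1, h2⟩, Or.inr ⟨⟨⟨⟨h3, h4⟩, h5, h6⟩, h7⟩, h8⟩⟩

/-- **The conflict condition of the step.** -/
theorem CL.dfAt (hp : p.Ok) (hX : XOk p X) (hw : w + 10 ≤ X) (hw0 : 1 ≤ w)
    (hL : CL B X k p.h w p.b L) (hL' : CL B X k p.h w p.b L')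
    {i j e : Inp → Mem → ℕ} (hkl : k ≤ l + 1)
    (hi : CN B (X ^ (l + 1)) w i) (hj : CN B (X ^ (l + 1)) w j) (he : CN B (X ^ (l + 1)) w e) :
    CPr B (X ^ (l + 34)) fun z M =>
      DfAt (gH p [] fun _ => false) (gfl p) w (L z M) (L' z M) (i z M) (j z M) (e z M) := by
  have hX1 := hX.X1
  have hb := hX.b
  have hh := hX.h
  have one : CN B (X ^ (l + 1)) w fun _ _ => 1 :=
    (CN.const hX1 (Nat.one_lt_two_pow (by omega))).up hX1 (by omega)
  -- parts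
  have a1 : CPr B (X ^ (l + 25)) fun z M => (L z M).fin (i z M) = false :=
    (CPr.isFalse hX1 (hL.fin _ _ hkl hi)).up hX1 (by omega)
  have a2 : CPr B (X ^ (l + 25)) fun z M => (L z M).lb (i z M) = 1 :=
    (CPr.numEq hX1 (by omega : w ≤ X) (hL.lb _ _ hkl hi) (one.up hX1 (by omega))).up hX1 (by omega)
  have a3 : CPr B (X ^ (l + 24)) fun z M => Conf (gH p [] fun _ => false) (gfl p) (L z M) (j z M)
      ((L z M).ps (fun _ => false) (i z M)) ((L z M).pv (i z M)) :=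
    CL.conf hp hX hw hw0 hL hkl hj (hL.ps hX1 (by omega) hkl hi) (hL.pv hX1 (by omega) hkl hi)
  have b1 : CPr B (X ^ (l + 20)) fun z M => (L' z M).tm (e z M) = (L z M).tm (e z M) :=
    (CPr.numEq hX1 (by omega : p.b ≤ X) (hL'.tm _ _ hkl he) (hL.tm _ _ hkl he)).up hX1 (by omega)
  have b2 : CPr B (X ^ (l + 20)) fun z M => (L' z M).st (e z M) = (L z M).st (e z M) :=
    (CPr.vecEq (k := l + 5) hX1 (by omega : p.h ≤ X) (hL'.st _ _ hkl he) (hL.st _ _ hkl he)).up hX1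
      (by omega)
  have b3 : CPr B (X ^ (l + 20)) fun z M => (L' z M).lb (e z M) = (L z M).lb (e z M) :=
    (CPr.numEq hX1 (by omega : w ≤ X) (hL'.lb _ _ hkl he) (hL.lb _ _ hkl he)).up hX1 (by omega)
  have b4 : CPr B (X ^ (l + 20)) fun z M => (L' z M).fin (e z M) = false :=
    (CPr.isFalse hX1 (hL'.fin _ _ hkl he)).up hX1 (by omega)
  have b0 : CPr B (X ^ (l + 22)) fun z M => e z M < i z M :=
    (CPr.numLt hX1 (by omega : w ≤ X) he hi).up hX1 (by omega)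
  have b5 : CPr B (X ^ (l + 24)) fun z M => e z M < i z M →
      (L' z M).tm (e z M) = (L z M).tm (e z M) ∧ (L' z M).st (e z M) = (L z M).st (e z M) ∧
      (L' z M).lb (e z M) = (L z M).lb (e z M) ∧ (L' z M).fin (e z M) = false :=
    b0.imp hX1 (((b1.and hX1 b2).and hX1 (b3.and hX1 b4)).congr fun z M => by tauto)
  have d1 : CPr B (X ^ (l + 24)) fun z M => (L' z M).fin (i z M) = false :=
    (CPr.isFalse hX1 (hL'.fin _ _ hkl hi)).up hX1 (by omega)
  have d2 : CPr B (X ^ (l + 24)) fun z M => (L' z M).lb (i z M) = 1 :=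
    (CPr.numEq hX1 (by omega : w ≤ X) (hL'.lb _ _ hkl hi) (one.up hX1 (by omega))).up hX1 (by omega)
  have tL' := hL'.tm _ _ hkl hi
  have tL := hL.tm _ _ hkl hi
  have d3 : CPr B (X ^ (l + 24)) fun z M => (L' z M).tm (i z M) ≤ (L z M).tm (i z M) :=
    (CPr.numLe hX1 (by omega : p.b ≤ X) tL' tL).up hX1 (by omega)
  have d4 : CPr B (X ^ (l + 24)) fun z M => (L' z M).tm (i z M) = (L z M).tm (i z M) →
      (L' z M).st (i z M) ≠ (L z M).st (i z M) :=
    (((CPr.numEq hX1 (by omega : p.b ≤ X) tL' tL).up hX1 (by omega : l + 1 + 5 + 2 ≤ l + 22)).imp hX1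
      (((CPr.vecEq (k := l + 5) hX1 (by omega : p.h ≤ X) (hL'.st _ _ hkl hi) (hL.st _ _ hkl hi)).not
        hX1).up hX1 (by omega))).up hX1 (by omega)
  have d5 : CPr B (X ^ (l + 26)) fun z M => (L' z M).tm (i z M) < (L z M).tm (i z M) →
      Conf (gH p [] fun _ => false) (gfl p) (L z M) (j z M) ((L' z M).st (i z M))
        ((L' z M).tm (i z M)) :=
    ((CPr.numLt hX1 (by omega : p.b ≤ X) tL' tL).up hX1 (by omega : l + 1 + 5 + 3 ≤ l + 24)).imp hX1
      (CL.conf hp hX hw hw0 hL hkl hj ((hL'.st _ _ hkl hi).up hX1 (by omega))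
        (tL'.up hX1 (by omega)))
  have g1 := (b5.and hX1 d1).and hX1 ((d2.and hX1 d3))
  have g2 := (g1.and hX1 (d4.up hX1 (by omega))).and hX1 (d5.up hX1 (by omega))
  have g3 := (a3.up hX1 (by omega : l + 24 ≤ l + 28)).or hX1 (g2.up hX1 (by omega))
  have g4 := ((a1.and hX1 a2).up hX1 (by omega : l + 26 ≤ l + 29)).and hX1 g3
  refine (g4.congr fun z M => ?_).up hX1 (by omega)
  have h1 : i z M < 2 ^ w := hi.lt z M
  have h2 : j z M < 2 ^ w := hj.lt z M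
  exact GCodeD_prop _ _ _ _ _ _ _ _ _ _ _ h1 h2

/-- **The condition at the top.** -/
theorem CL.topL (hp : p.Ok) (hX : XOk p X) (hw : w + 10 ≤ X) (hw0 : 1 ≤ w)
    (hL : CL B X k p.h w p.b L) (hkl : k ≤ l + 1) :
    CPr B (X ^ (l + 12)) fun z M => TopL (gfl p) (gacc p) (L z M) := by
  have hX1 := hX.X1
  have zero : CN B (X ^ (l + 1)) w fun _ _ => 0 :=
    (CN.const hX1 (by positivity)).up hX1 (by omega)
  have one : CN B (X ^ (l + 1)) w fun _ _ => 1 :=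
    (CN.const hX1 (Nat.one_lt_two_pow (by omega))).up hX1 (by omega)
  have a1 : CPr B (X ^ (l + 10)) fun z M => (L z M).fin 0 = false :=
    (CPr.isFalse hX1 (hL.fin _ _ hkl zero)).up hX1 (by omega)
  have a2 : CPr B (X ^ (l + 10)) fun z M => (L z M).lb 0 = 1 :=
    (CPr.numEq hX1 (by omega : w ≤ X) (hL.lb _ _ hkl zero) (one.up hX1 (by omega))).up hX1 (by omega)
  have a3 : CPr B (X ^ (l + 10)) fun z M => gfl p ((L z M).st 0) = true :=
    (CPr.of (CV.gfl hp (hL.st _ _ hkl zero))).up hX1 (by omega)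
  have a4 : CPr B (X ^ (l + 10)) fun z M => gacc p ((L z M).st 0) = true :=
    (CPr.of (CV.gacc hp (hL.st _ _ hkl zero))).up hX1 (by omega)
  exact ((a1.and hX1 a2).and hX1 (a3.and hX1 a4)).congr fun z M => by
    unfold TopL
    tauto

end

end Pool.Agent.NUM
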