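import Pool.Agent.NUM.GCodeA

/-!
# The code of the static checks, part S: the readers and the statement `SCom`
-/

set_option autoImplicit false

namespace Pool.Agent.NUM

section

variable {X B k l n n' m c c' : ℕ}

theorem CA.const' (hX : 1000 ≤ X) (u : List Bool) (hm : u.length = m) :
    CA B (X ^ (k + 1)) m (fun _ _ => u) := by
  subst hm
  exact (CA.const hX u).up hX (by omega)

/-! ### the readers -/

variable {p : GPar} {y : Inp → Mem → Inp} {κ i e : Inp → Mem → ℕ}

/-- the record of a child at a computed index -/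
theorem CStr.gRec (p : GPar) (hX : 1000 ≤ X) (hy : CStr B (X ^ (k + 1)) c y)
    (hκ : CN B (X ^ (k + 1)) n κ) :
    CStr B (X ^ (k + 1)) (c + (2 + p.q)) (fun z M => NUM.gRec p (y z M) (κ z M)) :=
  (hy.sub ((CA.const' hX [true, false] rfl).append (CA.bits hX p.q hκ))).congr fun _ _ _ => rfl

theorem CStr.gRstr (hX : 1000 ≤ X) (hy : CStr B (X ^ (k + 1)) c y) :
    CStr B (X ^ (k + 1)) (c + 2) (fun z M a => y z M (false :: false :: a)) :=
  (hy.sub (CA.const' hX [false, false] rfl)).congr fun _ _ _ => rfl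

theorem CA.gpb (p : GPar) (hX : 1000 ≤ X) (hκ : CN B (X ^ (k + 1)) n κ)
    (hi : CN B (X ^ (k + 1)) n' i) (f : ℕ) :
    CA B (X ^ (k + 1)) (3 + (p.q + (p.w + 2))) (fun z M =>
      [true, true, false] ++ (NUM.bits p.q (κ z M) ++ (NUM.bits p.w (i z M) ++ NUM.bits 2 f))) :=
  (CA.const' hX [true, true, false] (m := 3) rfl).append ((CA.bits hX p.q hκ).append
    ((CA.bits hX p.w hi).append (CA.const' hX _ (length_bits 2 f))))

theorem CStr.gpbN (p : GPar) (hX : 1000 ≤ X) (hc : c + (3 + (p.q + (p.w + 2))) + p.σ + 10 ≤ X)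
    (hy : CStr B (X ^ (k + 1)) c y) (hκ : CN B (X ^ (k + 1)) n κ) (hi : CN B (X ^ (k + 1)) n' i)
    (f m : ℕ) :
    CN B (X ^ (k + 3)) m (fun z M => NUM.num m (gpb p (y z M) (κ z M) (i z M) f)) := by
  refine (hy.num hX (CA.gpb p hX hκ hi f) p.σ m hc).congr fun z M => ?_
  refine num_congr fun r _ => ?_
  unfold Pool.Agent.NUM.gpb
  simp only [List.cons_append, List.nil_append, List.append_assoc]

theorem CStr.gX (p : GPar) (hX : 1000 ≤ X) (hc : c + (3 + (p.q + (p.w + 2))) + p.σ + 10 ≤ X)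
    (hy : CStr B (X ^ (k + 1)) c y) (hκ : CN B (X ^ (k + 1)) n κ) (hi : CN B (X ^ (k + 1)) n' i) :
    Cp B (X ^ (k + 3)) (fun z M => NUM.gX p (y z M) (κ z M) (i z M)) := by
  refine (hy.bit hX ((CA.gpb p hX hκ hi 0).append (CA.const' hX _ (length_bits p.σ 0)))
    (by omega)).congr fun z M => ?_
  unfold Pool.Agent.NUM.gX Pool.Agent.NUM.gpb
  simp only [List.cons_append, List.nil_append, List.append_assoc]

theorem CStr.gdbN (p : GPar) (hX : 1000 ≤ X) (hc : c + (3 + (p.w₁ + 1)) + p.σ + 10 ≤ X)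
    (hy : CStr B (X ^ (k + 1)) c y) (he : CN B (X ^ (k + 1)) n e) (f m : ℕ) :
    CN B (X ^ (k + 3)) m (fun z M => NUM.num m (gdb p (y z M) (e z M) f)) := by
  refine (hy.num hX ((CA.const' hX [true, true, true] rfl).append ((CA.bits hX p.w₁ he).append
    (CA.const' hX _ (length_bits 1 f)))) p.σ m hc).congr fun z M => ?_
  refine num_congr fun r _ => ?_
  unfold gdb
  simp only [List.cons_append, List.nil_append, List.append_assoc]

/-- the numbers of the conflict and of the refuter: constant addresses -/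
theorem CStr.numC (hX : 1000 ≤ X) (u : List Bool) (σ m : ℕ) (hc : c + u.length + σ + 10 ≤ X)
    (hy : CStr B (X ^ (k + 1)) c y) :
    CN B (X ^ (k + 3)) m (fun z M => NUM.num m (fun r => y z M (u ++ NUM.bits σ r))) :=
  hy.num hX (CA.const' hX u rfl) σ m hc

/-! ### the static conditions on one list -/

variable {h w b σ : ℕ} {u : Inp → Mem → Inp}

theorem CP.lstatAt (hX : 1000 ≤ X) (hc : c + w + σ + 20 ≤ X) (hb : b + 2 ≤ X) (hw : w + 2 ≤ X)
    (hu : CStr B (X ^ (k + 1)) c u) (hi : CN B (X ^ (k + 1)) w i) (lim : ℕ) :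
    CP B (X ^ (k + 36)) (fun z M => LStatAt (rdL h w b σ (u z M)) w lim (i z M)) := by
  have h0 := CP.eqC hX (by omega) hi 0
  have hz : CN B (X ^ (k + 1)) w (fun _ _ => 0) := (CN.const hX (by positivity)).up hX (by omega)
  have hoff0 := CP.eqC hX (by omega) (CStr.off (h := h) (b := b) hX hc hu hz) 1
  have hA := CP.imp hX (h0.up hX (by omega : k + 3 ≤ k + 2 + 3)) hoff0
  have hpv := CStr.pv (h := h) (b := b) hX hc hw hu hi
  have htm := CStr.tm (h := h) (b := b) hX hc hu hi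
  have hB := CP.ltN hX (by omega) hpv (htm.up hX (by omega : k + 3 ≤ k + 12))
  have hfin := CStr.fin (h := h) (b := b) hX hc hu hi
  have hlb1 := CP.eqC hX (by omega) (CStr.lb (h := h) (b := b) hX hc hu hi) 1
  have hsucc := CN.succ hX (by omega) hi
  have hlt := CP.ltC hX (by omega) (hsucc : CN B (X ^ (k + 2 + 1)) (w + 1) _) (2 ^ w)
  have hfin' := CStr.fin (k := k + 2) (h := h) (b := b) hX hc (hu.up hX (by omega)) hsucc
  have hC1 := CP.imp hX hlt ((CP.ofTrue hfin').up hX (by omega : k + 2 + 3 ≤ k + 2 + 4))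
  have hC2 := CP.and hX ((CP.not hX hlb1).up hX (by omega : k + 2 + 3 + 1 ≤ k + 2 + 4 + 2)) hC1
  have hC := CP.imp hX ((CP.ofTrue hfin).up hX (by omega : k + 3 ≤ k + 2 + 4 + 2 + 1)) hC2
  have hoff := CStr.off (h := h) (b := b) hX hc hu hi
  have hoff' := CStr.off (k := k + 2) (h := h) (b := b) hX hc (hu.up hX (by omega)) hsucc
  have hoff1 := CN.succ hX (by omega) hoff
  have hsub := CN.sub hX (by omega) (htm.up hX (by omega : k + 3 ≤ k + 12)) hpv
  have hite := CN.ite hX (hlb1.up hX (by omega : k + 2 + 3 ≤ k + 12 + 7)) hsub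
    ((CN.const hX (by positivity : 0 < 2 ^ b)).up hX (by omega))
  have hadd := CN.add hX (by omega) (hoff1.up hX (by omega : k + 3 + 2 ≤ k + 12 + 7 + 1))
    (hite.widen (Nat.le_succ b))
  have heq := CP.eqN hX (by omega) ((hoff'.widen (by omega : b ≤ b + 1 + 1)).up hX
    (by omega : k + 2 + 3 ≤ k + 12 + 7 + 1 + 7)) hadd
  have hll := CP.ltC (k := k + 4) hX (by omega) (hoff'.up hX (by omega)) lim
  have hD1 := CP.and hX heq (hll.up hX (by omega))
  have hD2 := CP.and hX (hlt.up hX (by omega)) hD1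
  have hD := CP.imp hX ((CP.ofFalse hX hfin).up hX (by omega)) hD2
  have hCD := CP.and hX (hC.up hX (by omega)) hD
  have hBCD := CP.and hX (hB.up hX (by omega)) hCD
  have hABCD := CP.and hX (hA.up hX (by omega)) hBCD
  exact hABCD.up hX (by omega)

/-! ### pointers -/

variable {u' : Inp → Mem → Inp} {w' h' b' σ' : ℕ}

/-- entry `i` of the list `u` equals entry `e` of the list `u'`, and the flag `fin` of the latter is
`false` -/
theorem CP.same (hX : 1000 ≤ X) (hc : c + w + σ + 20 ≤ X) (hc' : c' + w' + σ + 20 ≤ X)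
    (hb : b ≤ X) (hh : h ≤ X) (hu : CStr B (X ^ (k + 1)) c u) (hu' : CStr B (X ^ (k + 1)) c' u')
    (hi : CN B (X ^ (k + 1)) n i) (he : CN B (X ^ (k + 1)) n' e) :
    CP B (X ^ (k + 6)) (fun z M =>
      (rdL h w' b σ (u' z M)).tm (e z M) = (rdL h w b σ (u z M)).tm (i z M) ∧
      (rdL h w' b σ (u' z M)).st (e z M) = (rdL h w b σ (u z M)).st (i z M)) := by
  have h1 := CP.eqN hX hb (CStr.tm (h := h) (b := b) hX hc' hu' he)
    (CStr.tm (h := h) (b := b) hX hc hu hi)
  have h2 := CP.eqV hX hh (CStr.st (h := h) (b := b) hX hc' hu' he)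
    (CStr.st (h := h) (b := b) hX hc hu hi)
  exact (CP.and hX h1 (h2.up hX (by omega))).up hX (by omega)

end

/-! ### the statement `SCom` -/

theorem GPar.X_big (p : GPar) : 1000 ≤ p.X := by
  unfold GPar.X
  omega

/-- all sizes which occur are small -/
theorem GPar.X_size (p : GPar) :
    p.h + p.b + p.σ + p.d + p.c + p.q + p.w₁ + p.w + 500 ≤ p.X := by
  unfold GPar.X
  omega

section

variable {B k c cv : ℕ} {p : GPar} {y : Inp → Mem → Inp} {κ i e : Inp → Mem → ℕ}

theorem CP.ptrOK (p : GPar) (hc : c ≤ 10) (hy : CStr B (p.X ^ (k + 1)) c y)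
    (hκ : CN B (p.X ^ (k + 1)) p.q κ) (hi : CN B (p.X ^ (k + 1)) p.w i) :
    CP B (p.X ^ (k + 20)) (fun z M => PtrOK p.q p.w₁ p.w (gR p (y z M)) (gC p (y z M))
      (κ z M) (i z M) (gX p (y z M) (κ z M) (i z M)) (gE p (y z M) (κ z M) (i z M))
      (gK p (y z M) (κ z M) (i z M)) (gI p (y z M) (κ z M) (i z M))) := by
  have hX := p.X_big
  have hs := p.X_size
  have hfin := CStr.fin (h := p.h) (b := p.b) (w := p.w) (σ := p.σ) hX (by omega)
    (hy.gRec p hX hκ) hi
  have hlb1 := CP.eqC hX (by omega) (CStr.lb (h := p.h) (b := p.b) (w := p.w) (σ := p.σ) hX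
    (by omega) (hy.gRec p hX hκ) hi) 1
  have hXX := hy.gX p hX (by omega) hκ hi
  have hE := hy.gpbN p hX (by omega) hκ hi 1 p.w₁
  have hK := hy.gpbN p hX (by omega) hκ hi 2 p.q
  have hI := hy.gpbN p hX (by omega) hκ hi 3 p.w
  have hy' : CStr B (p.X ^ (k + 2 + 1)) c y := hy.up hX (by omega)
  have hR := hy'.gRstr hX
  have hC := (hy'.gRec p hX (hκ.up hX (by omega)))
  have hi' : CN B (p.X ^ (k + 2 + 1)) p.w i := hi.up hX (by omega)
  -- external pointer
  have a1 := CP.ltC (k := k + 2) hX (by omega) hE (2 ^ p.w₁)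
  have a2 := CP.ofFalse hX (CStr.fin (h := p.h) (b := p.b) (w := p.w₁) (σ := p.σ) hX (by omega)
    hR hE)
  have a3 := CP.same (h := p.h) (b := p.b) (w := p.w) (w' := p.w₁) (σ := p.σ) hX (by omega)
    (by omega) (by omega) (by omega) hC hR hi' hE
  have a4 := CP.and hX (a2.up hX (by omega)) a3
  have a5 := CP.and hX (a1.up hX (by omega)) a4
  -- internal pointer
  have hC' := hy'.gRec p hX hK
  have b1 := CP.ltC (k := k + 2) hX (by omega) hK (2 ^ p.q)
  have b2 := CP.ltC (k := k + 2) hX (by omega) hI (2 ^ p.w)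
  have b3 := CP.ofFalse hX (CStr.fin (h := p.h) (b := p.b) (w := p.w) (σ := p.σ) hX (by omega)
    hC' hI)
  have b4 := CP.eqC hX (by omega) (CStr.lb (h := p.h) (b := p.b) (w := p.w) (σ := p.σ) hX
    (by omega) hC' hI) 1
  have b5 := CP.same (h := p.h) (b := p.b) (w := p.w) (w' := p.w) (σ := p.σ) hX (by omega)
    (by omega) (by omega) (by omega) hC hC' hi' hI
  have b6 := CP.and hX (b4.up hX (by omega)) b5
  have b7 := CP.and hX (b3.up hX (by omega)) b6
  have b8 := CP.and hX (b2.up hX (by omega)) b7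
  have b9 := CP.and hX (b1.up hX (by omega)) b8
  have c1 := CP.ite hX ((CP.ofTrue hXX).up hX (by omega)) (a5.up hX (by omega)) b9
  have c2 := CP.imp hX ((CP.not hX hlb1).up hX (by omega)) c1
  have c3 := CP.imp hX ((CP.ofFalse hX hfin).up hX (by omega)) c2
  refine (c3.congr fun z M => ?_).up hX (by omega)
  exact Iff.rfl

theorem CP.dirOK (p : GPar) (hc : c ≤ 10) (hy : CStr B (p.X ^ (k + 1)) c y)
    (he : CN B (p.X ^ (k + 1)) p.w₁ e) :
    CP B (p.X ^ (k + 20)) (fun z M => DirOK p.q p.w (gR p (y z M)) (gC p (y z M))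
      (e z M) (gDk p (y z M) (e z M)) (gDi p (y z M) (e z M))) := by
  have hX := p.X_big
  have hs := p.X_size
  have hfin := CStr.fin (h := p.h) (b := p.b) (w := p.w₁) (σ := p.σ) hX (by omega)
    (hy.gRstr hX) he
  have hlb1 := CP.eqC hX (by omega) (CStr.lb (h := p.h) (b := p.b) (w := p.w₁) (σ := p.σ) hX
    (by omega) (hy.gRstr hX) he) 1
  have hK := hy.gdbN p hX (by omega) he 0 p.q
  have hI := hy.gdbN p hX (by omega) he 1 p.w
  have hy' : CStr B (p.X ^ (k + 2 + 1)) c y := hy.up hX (by omega)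
  have hR := hy'.gRstr hX
  have he' : CN B (p.X ^ (k + 2 + 1)) p.w₁ e := he.up hX (by omega)
  have hC' := hy'.gRec p hX hK
  have b1 := CP.ltC (k := k + 2) hX (by omega) hK (2 ^ p.q)
  have b2 := CP.ltC (k := k + 2) hX (by omega) hI (2 ^ p.w)
  have b3 := CP.ofFalse hX (CStr.fin (h := p.h) (b := p.b) (w := p.w) (σ := p.σ) hX (by omega)
    hC' hI)
  have b4 := CP.eqC hX (by omega) (CStr.lb (h := p.h) (b := p.b) (w := p.w) (σ := p.σ) hX
    (by omega) hC' hI) 1
  have b5 := CP.same (h := p.h) (b := p.b) (w := p.w₁) (w' := p.w) (σ := p.σ) hX (by omega)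
    (by omega) (by omega) (by omega) hR hC' he' hI
  have b6 := CP.and hX (b4.up hX (by omega)) b5
  have b7 := CP.and hX (b3.up hX (by omega)) b6
  have b8 := CP.and hX (b2.up hX (by omega)) b7
  have b9 := CP.and hX (b1.up hX (by omega)) b8
  have c2 := CP.imp hX (hlb1.up hX (by omega)) b9
  have c3 := CP.imp hX ((CP.ofFalse hX hfin).up hX (by omega)) c2
  refine (c3.congr fun z M => ?_).up hX (by omega)
  exact Iff.rfl

theorem CP.sCom (p : GPar) (hc : c ≤ 10) (hy : CStr B (p.X ^ (k + 1)) c y)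
    (hκ : CN B (p.X ^ (k + 1)) p.q κ) (hi : CN B (p.X ^ (k + 1)) p.w i)
    (he : CN B (p.X ^ (k + 1)) p.w₁ e) :
    CP B (p.X ^ (k + 40)) (fun z M => SCom p (y z M) (κ z M) (i z M) (e z M)) := by
  have hX := p.X_big
  have hs := p.X_size
  have h1 := CP.lstatAt (h := p.h) (b := p.b) (w := p.w) (σ := p.σ) hX (by omega) (by omega)
    (by omega) (hy.gRec p hX hκ) hi p.lim
  have h2 := CP.lstatAt (h := p.h) (b := p.b) (w := p.w₁) (σ := p.σ) hX (by omega) (by omega)
    (by omega) (hy.gRstr hX) he p.lim₁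
  have h3 := CP.ptrOK p hc hy hκ hi
  have h4 := CP.dirOK p hc hy he
  have h5 := CP.and hX h3 h4
  have h6 := CP.and hX h2 (h5.up hX (by omega))
  have h7 := CP.and hX (h1.up hX (by omega)) h6
  exact (h7.congr fun z M => Iff.rfl).up hX (by omega)

/-- the three numbers of the refuter -/
theorem CN.vnum (p : GPar) {v : Inp → Mem → Inp} (hc : cv ≤ 10) (hv : CStr B (p.X ^ (k + 1)) cv v) :
    CN B (p.X ^ (k + 3)) p.q (fun z M => vk p (v z M)) ∧
    CN B (p.X ^ (k + 3)) p.w (fun z M => vi p (v z M)) ∧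
    CN B (p.X ^ (k + 3)) p.w₁ (fun z M => ve p (v z M)) := by
  have hX := p.X_big
  have hs := p.X_size
  have hl : ∀ f, (false :: bits 2 f).length = 3 := fun f => by
    rw [List.length_cons, length_bits]
  exact ⟨hv.numC hX (false :: bits 2 0) p.σ p.q (by rw [hl]; omega),
    hv.numC hX (false :: bits 2 1) p.σ p.w (by rw [hl]; omega),
    hv.numC hX (false :: bits 2 2) p.σ p.w₁ (by rw [hl]; omega)⟩

/-- the two numbers of the conflict -/
theorem CN.ynum (p : GPar) (hc : c ≤ 10) (hy : CStr B (p.X ^ (k + 1)) c y) :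
    CN B (p.X ^ (k + 3)) p.w₁ (fun z M => gi p (y z M)) ∧
    CN B (p.X ^ (k + 3)) p.w₁ (fun z M => gj p (y z M)) := by
  have hX := p.X_big
  have hs := p.X_size
  have hl : ∀ f, (false :: true :: bits 1 f).length = 3 := fun f => by
    rw [List.length_cons, List.length_cons, length_bits]
  exact ⟨hy.numC hX (false :: true :: bits 1 0) p.σ p.w₁ (by rw [hl]; omega),
    hy.numC hX (false :: true :: bits 1 1) p.σ p.w₁ (by rw [hl]; omega)⟩

/-- **`SCom` on the input** -/
theorem CP.sComV (p : GPar) {v : Inp → Mem → Inp} (hc : c ≤ 10) (hcv : cv ≤ 10)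
    (hy : CStr B (p.X ^ (k + 1)) c y) (hv : CStr B (p.X ^ (k + 1)) cv v) :
    CP B (p.X ^ (k + 42)) (fun z M => SCom p (y z M) (vk p (v z M)) (vi p (v z M))
      (ve p (v z M))) := by
  have hX := p.X_big
  obtain ⟨h1, h2, h3⟩ := CN.vnum p hcv hv
  exact CP.sCom (k := k + 2) p hc (hy.up hX (by omega)) h1 h2 h3

/-- the part `y` of the input -/
theorem CStr.yIn (p : GPar) :
    CStr B (p.X ^ (0 + 1)) 2 (fun x _ a => x (false :: true :: a)) :=
  (CStr.pre p.X_big [false, true]).congr fun _ _ _ => rfl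

/-- the part `v` of the input -/
theorem CStr.vIn (p : GPar) : CStr B (p.X ^ (0 + 1)) 1 (fun x _ a => x (true :: a)) :=
  (CStr.pre p.X_big [true]).congr fun _ _ _ => rfl

/-- the part `l` of the input (step) -/
theorem CStr.lIn (p : GPar) :
    CStr B (p.X ^ (0 + 1)) 3 (fun x _ a => x (false :: false :: true :: a)) :=
  (CStr.pre p.X_big [false, false, true]).congr fun _ _ _ => rfl

end

end Pool.Agent.NUM
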