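import Pool.Agent.NUM.GCodeT
import Pool.Agent.NUM.GCodeD
import Pool.Agent.NUM.GCodeS

/-!
# Theorem H(γ): the code of the static checks
-/

set_option autoImplicit false

namespace Pool.Agent.NUM

/-- a list of claims in a substring is a computable list -/
theorem CStr.cl {B X k c h w b σ : ℕ} {u : Inp → Mem → Inp} (hX : 1000 ≤ X)
    (hc : c + w + σ + 20 ≤ X) (hu : CStr B (X ^ (k + 1)) c u) :
    CL B X (k + 1) h w b fun z M => rdL h w b σ (u z M) := by
  constructor
  · intro l i hl hi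
    obtain ⟨l', rfl⟩ : ∃ l', l = l' + 1 := ⟨l - 1, by omega⟩
    exact (CStr.tm hX hc (hu.up hX hl) hi).up hX (by omega)
  · intro l i hl hi
    obtain ⟨l', rfl⟩ : ∃ l', l = l' + 1 := ⟨l - 1, by omega⟩
    exact (CStr.st hX hc (hu.up hX hl) hi).up hX (by omega)
  · intro l i hl hi
    obtain ⟨l', rfl⟩ : ∃ l', l = l' + 1 := ⟨l - 1, by omega⟩
    exact (CStr.lb (h := h) (b := b) hX hc (hu.up hX hl) hi).up hX (by omega)
  · intro l i hl hi
    obtain ⟨l', rfl⟩ : ∃ l', l = l' + 1 := ⟨l - 1, by omega⟩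
    exact (CStr.off (h := h) hX hc (hu.up hX hl) hi).up hX (by omega)
  · intro l i hl hi
    obtain ⟨l', rfl⟩ : ∃ l', l = l' + 1 := ⟨l - 1, by omega⟩
    exact (CStr.fin (h := h) (b := b) hX hc (hu.up hX hl) hi).up hX (by omega)

/-- a computable statement about the input only -/
theorem CP.inpFun {s : ℕ} {P : Inp → Prop} (h : CP 0 s fun x _ => P x) :
    ∃ f : Inp → Bool, Cp 0 s (fun x _ => f x) ∧ ∀ x, (f x = true ↔ P x) := by
  obtain ⟨f, hf, hP⟩ := h
  refine ⟨fun x => f x zeroMem, hf.congr fun x M => ?_, fun x => hP x zeroMem⟩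
  exact hf.dep x M zeroMem fun q hq => absurd hq (Nat.not_lt_zero q)

/-- the part `l` of the input -/
def lI (x : Inp) : Inp := fun a => x (false :: false :: true :: a)

/-- the part `y` of the input -/
def yI (x : Inp) : Inp := fun a => x (false :: true :: a)

/-- the part `v` of the input -/
def vI (x : Inp) : Inp := fun a => x (true :: a)

/-- **The code of the static checks.** -/
theorem gCodeOK : GCodeOK := by
  intro p hp
  have hX := p.X_big
  have hs := p.X_size
  have hxo := p.xok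
  have hy : CStr 0 (p.X ^ (0 + 1)) 2 (fun x _ => yI x) := CStr.yIn p
  have hv : CStr 0 (p.X ^ (0 + 1)) 1 (fun x _ => vI x) := CStr.vIn p
  have hl : CStr 0 (p.X ^ (0 + 1)) 3 (fun x _ => lI x) := CStr.lIn p
  have h1 := CP.sComV p (by omega) (by omega) hy hv
  have hR : CL 0 p.X (0 + 1) p.h p.w₁ p.b fun x _ => gR p (yI x) :=
    CStr.cl hX (by omega) (hy.gRstr hX)
  obtain ⟨-, -, he⟩ := CN.vnum p (by omega) hv
  obtain ⟨hi, hj⟩ := CN.ynum p (by omega) hy
  constructor
  · have hL : CL 0 p.X (0 + 1) p.h p.w₁ p.b fun x _ => rdL p.h p.w₁ p.b p.σ (lI x) :=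
      CStr.cl hX (by omega) hl
    have h2 := CL.dfAt (l := 2) hp hxo hxo.w₁ hp.w1 hL hR (by omega) hi hj he
    have h3 : CP 0 (p.X ^ (0 + 42)) fun x (_ : Mem) =>
        DfAt (gH p [] fun _ => false) (gfl p) p.w₁ (rdL p.h p.w₁ p.b p.σ (lI x)) (gR p (yI x))
          (gi p (yI x)) (gj p (yI x)) (ve p (vI x)) := CP.up h2 hX (by omega)
    obtain ⟨f, hf, hP⟩ := CP.inpFun (P := fun x => SStep p (lI x) (yI x) (vI x))
      ((CP.and hX h1 h3).up hX (by omega : 0 + 42 + 1 ≤ 60))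
    refine ⟨f, hf, fun z l y v => ?_⟩
    rw [hP]
    exact sstep_trc p l y v
  · have h2 := CL.topL (l := 0) hp hxo hxo.w₁ hp.w1 hR (by omega)
    have h3 : CP 0 (p.X ^ (0 + 42)) fun x (_ : Mem) => TopL (gfl p) (gacc p) (gR p (yI x)) :=
      CP.up h2 hX (by omega)
    obtain ⟨f, hf, hP⟩ := CP.inpFun (P := fun x => STop p (yI x) (vI x))
      ((CP.and hX h1 h3).up hX (by omega : 0 + 42 + 1 ≤ 60))
    refine ⟨f, hf, fun z y v => ?_⟩
    rw [hP]
    exact stop_trc p y v

end Pool.Agent.NUM
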