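import Pool.Agent.NUM.HCodeA
import Pool.Agent.NUM.GRead

/-!
# The code of the static checks, part A: computed addresses, computed lists, computable statements

* `CA B s c a`: the word `a z M` has length `c` and computable digits;
* `CStr B s c u`: the string `u z M` is the substring of the input `z` at a computed address of
  length `c`;
* `CP B s P`: the statement `P z M` is computable.
-/

set_option autoImplicit false

namespace Pool.Agent.NUM

/-- computable address of length `c` -/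
structure CA (B s c : ℕ) (a : Inp → Mem → List Bool) : Prop where
  len : ∀ z M, (a z M).length = c
  bit : ∀ j, Cp B s (fun z M => (a z M).getD j false)

/-- substring at a computed address -/
def CStr (B s c : ℕ) (u : Inp → Mem → Inp) : Prop :=
  ∃ P : Inp → Mem → List Bool, CA B s c P ∧ ∀ z M a, u z M a = z (P z M ++ a)

/-- computable statement -/
def CP (B s : ℕ) (P : Inp → Mem → Prop) : Prop :=
  ∃ f : Inp → Mem → Bool, Cp B s f ∧ ∀ z M, f z M = true ↔ P z M

section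

variable {X B k l n m c c' : ℕ}

/-! ### statements -/

theorem CP.up {P : Inp → Mem → Prop} (h : CP B (X ^ k) P) (hX : 1000 ≤ X) (hkl : k ≤ l) :
    CP B (X ^ l) P := by
  obtain ⟨f, hf, hP⟩ := h
  exact ⟨f, hf.up hX hkl, hP⟩

theorem CP.congr {s : ℕ} {P Q : Inp → Mem → Prop} (h : CP B s P) (hPQ : ∀ z M, P z M ↔ Q z M) :
    CP B s Q := by
  obtain ⟨f, hf, hP⟩ := h
  exact ⟨f, hf, fun z M => (hP z M).trans (hPQ z M)⟩

theorem CP.const (hX : 1000 ≤ X) (p : Prop) : CP B (X ^ 1) (fun _ _ => p) := by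
  classical
  exact ⟨fun _ _ => decide p, CX.const hX _, fun _ _ => decide_eq_true_iff⟩

theorem CP.ofTrue {s : ℕ} {f : Inp → Mem → Bool} (hf : Cp B s f) :
    CP B s (fun z M => f z M = true) := ⟨f, hf, fun _ _ => Iff.rfl⟩

theorem CP.ofFalse {f : Inp → Mem → Bool} (hX : 1000 ≤ X) (hf : Cp B (X ^ k) f) :
    CP B (X ^ (k + 1)) (fun z M => f z M = false) :=
  ⟨fun z M => !(f z M), CX.not hX hf, fun z M => by cases h : f z M <;> simp [h]⟩

theorem CP.not {P : Inp → Mem → Prop} (hX : 1000 ≤ X) (h : CP B (X ^ k) P) :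
    CP B (X ^ (k + 1)) (fun z M => ¬ P z M) := by
  obtain ⟨f, hf, hP⟩ := h
  refine ⟨_, CX.not hX hf, fun z M => ?_⟩
  show (!(f z M)) = true ↔ ¬ P z M
  rw [← hP z M]
  cases f z M <;> simp

theorem CP.and {P Q : Inp → Mem → Prop} (hX : 1000 ≤ X) (h : CP B (X ^ k) P)
    (h' : CP B (X ^ k) Q) : CP B (X ^ (k + 1)) (fun z M => P z M ∧ Q z M) := by
  obtain ⟨f, hf, hP⟩ := h
  obtain ⟨g, hg, hQ⟩ := h'
  refine ⟨_, CX.and hX hf hg, fun z M => ?_⟩
  show (f z M && g z M) = true ↔ P z M ∧ Q z M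
  rw [← hP z M, ← hQ z M, Bool.and_eq_true]

theorem CP.or {P Q : Inp → Mem → Prop} (hX : 1000 ≤ X) (h : CP B (X ^ k) P)
    (h' : CP B (X ^ k) Q) : CP B (X ^ (k + 1)) (fun z M => P z M ∨ Q z M) := by
  obtain ⟨f, hf, hP⟩ := h
  obtain ⟨g, hg, hQ⟩ := h'
  refine ⟨_, CX.or hX hf hg, fun z M => ?_⟩
  show (f z M || g z M) = true ↔ P z M ∨ Q z M
  rw [← hP z M, ← hQ z M, Bool.or_eq_true]

theorem CP.imp {P Q : Inp → Mem → Prop} (hX : 1000 ≤ X) (h : CP B (X ^ k) P)
    (h' : CP B (X ^ k) Q) : CP B (X ^ (k + 2)) (fun z M => P z M → Q z M) := by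
  refine (CP.or hX (CP.not hX h) (h'.up hX (Nat.le_succ k))).congr fun z M => ?_
  tauto

theorem CP.ite {P Q R : Inp → Mem → Prop} [∀ z M, Decidable (P z M)] (hX : 1000 ≤ X)
    (h : CP B (X ^ k) P) (h' : CP B (X ^ k) Q) (h'' : CP B (X ^ k) R) :
    CP B (X ^ (k + 1)) (fun z M => if P z M then Q z M else R z M) := by
  obtain ⟨f, hf, hP⟩ := h
  obtain ⟨g, hg, hQ⟩ := h'
  obtain ⟨g', hg', hR⟩ := h''
  refine ⟨_, CX.bif hX hf hg hg', fun z M => ?_⟩
  show (bif f z M then g z M else g' z M) = true ↔ if P z M then Q z M else R z M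
  by_cases h1 : P z M
  · rw [if_pos h1, ← hQ z M, (hP z M).2 h1]
    rfl
  · rw [if_neg h1, ← hR z M]
    have h2 : f z M = false := by
      by_contra h3
      exact h1 ((hP z M).1 (by simpa using h3))
    rw [h2]
    rfl

theorem CN.ite {P : Inp → Mem → Prop} [∀ z M, Decidable (P z M)] {x y : Inp → Mem → ℕ}
    (hX : 1000 ≤ X) (h : CP B (X ^ k) P) (hx : CN B (X ^ k) n x) (hy : CN B (X ^ k) n y) :
    CN B (X ^ (k + 1)) n (fun z M => if P z M then x z M else y z M) := by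
  obtain ⟨f, hf, hP⟩ := h
  refine (CN.bif hX hf hx hy).congr fun z M => ?_
  by_cases h1 : P z M
  · rw [if_pos h1, (hP z M).2 h1]
    rfl
  · rw [if_neg h1]
    have h2 : f z M = false := by
      by_contra h3
      exact h1 ((hP z M).1 (by simpa using h3))
    rw [h2]
    rfl

theorem CP.eqN {x y : Inp → Mem → ℕ} (hX : 1000 ≤ X) (hn : n ≤ X) (hx : CN B (X ^ k) n x)
    (hy : CN B (X ^ k) n y) : CP B (X ^ (k + 2)) (fun z M => x z M = y z M) :=
  ⟨_, CN.eq hX hn hx hy, fun _ _ => decide_eq_true_iff⟩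

theorem CP.ltN {x y : Inp → Mem → ℕ} (hX : 1000 ≤ X) (hn : n ≤ X) (hx : CN B (X ^ k) n x)
    (hy : CN B (X ^ k) n y) : CP B (X ^ (k + 3)) (fun z M => x z M < y z M) :=
  ⟨_, CN.ltc hX hn hx hy, fun _ _ => decide_eq_true_iff⟩

theorem CP.leN {x y : Inp → Mem → ℕ} (hX : 1000 ≤ X) (hn : n ≤ X) (hx : CN B (X ^ k) n x)
    (hy : CN B (X ^ k) n y) : CP B (X ^ (k + 4)) (fun z M => x z M ≤ y z M) :=
  ⟨_, CN.lec hX hn hx hy, fun _ _ => decide_eq_true_iff⟩

theorem CP.eqV {h : ℕ} {x y : Inp → Mem → Fin h → Bool} (hX : 1000 ≤ X) (hh : h ≤ X)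
    (hx : CV B (X ^ (k + 1)) x) (hy : CV B (X ^ (k + 1)) y) :
    CP B (X ^ (k + 3)) (fun z M => x z M = y z M) :=
  ⟨_, CV.eq hX hh hx hy, fun _ _ => decide_eq_true_iff⟩

/-- comparison with a constant -/
theorem CP.eqC {x : Inp → Mem → ℕ} (hX : 1000 ≤ X) (hn : n ≤ X) (hx : CN B (X ^ (k + 1)) n x)
    (a : ℕ) : CP B (X ^ (k + 3)) (fun z M => x z M = a) := by
  by_cases ha : a < 2 ^ n
  · exact CP.eqN hX hn hx ((CN.const hX ha).up hX (by omega))
  · refine ((CP.const hX False).up hX (by omega)).congr fun z M => ?_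
    have := hx.lt z M
    constructor
    · exact False.elim
    · intro h
      omega

theorem CP.ltC {x : Inp → Mem → ℕ} (hX : 1000 ≤ X) (hn : n ≤ X) (hx : CN B (X ^ (k + 1)) n x)
    (a : ℕ) : CP B (X ^ (k + 4)) (fun z M => x z M < a) := by
  by_cases ha : a < 2 ^ n
  · exact CP.ltN hX hn hx ((CN.const hX ha).up hX (by omega))
  · refine ((CP.const hX True).up hX (by omega)).congr fun z M => ?_
    have := hx.lt z M
    constructor
    · intro _
      omega
    · exact fun _ => trivial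

/-! ### addresses -/

theorem CA.up {a : Inp → Mem → List Bool} (ha : CA B (X ^ k) c a) (hX : 1000 ≤ X) (h : k ≤ l) :
    CA B (X ^ l) c a := ⟨ha.len, fun j => (ha.bit j).up hX h⟩

theorem CA.congr {s : ℕ} {a b : Inp → Mem → List Bool} (ha : CA B s c a)
    (h : ∀ z M, a z M = b z M) : CA B s c b := by
  have : a = b := by funext z M; exact h z M
  rwa [← this]

theorem CA.const (hX : 1000 ≤ X) (u : List Bool) : CA B (X ^ 1) u.length (fun _ _ => u) :=
  ⟨fun _ _ => rfl, fun _ => CX.const hX _⟩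

theorem getD_bits (w x j : ℕ) : (bits w x).getD j false = (decide (j < w) && x.testBit j) := by
  by_cases h : j < w
  · simp [bits, h]
  · simp [bits, h]

theorem CA.bits (hX : 1000 ≤ X) (w : ℕ) {x : Inp → Mem → ℕ} (hx : CN B (X ^ (k + 1)) n x) :
    CA B (X ^ (k + 1)) w (fun z M => bits w (x z M)) := by
  refine ⟨fun z M => length_bits _ _, fun j => ?_⟩
  by_cases h : j < w
  · refine (hx.bit j).congr fun z M => ?_
    rw [getD_bits, decide_eq_true h, Bool.true_and]
  · refine ((CX.const hX false).up hX (by omega : 1 ≤ k + 1)).congr fun z M => ?_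
    rw [getD_bits, decide_eq_false h, Bool.false_and]

theorem CA.append {s : ℕ} {a b : Inp → Mem → List Bool} (ha : CA B s c a) (hb : CA B s c' b) :
    CA B s (c + c') (fun z M => a z M ++ b z M) := by
  refine ⟨fun z M => by rw [List.length_append, ha.len, hb.len], fun j => ?_⟩
  by_cases h : j < c
  · refine (ha.bit j).congr fun z M => ?_
    have := ha.len z M
    rw [List.getD_append _ _ _ _ (by omega)]
  · refine (hb.bit (j - c)).congr fun z M => ?_
    have := ha.len z M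
    rw [List.getD_append_right _ _ _ _ (by omega), this]

theorem CX.askA (hX : 1000 ≤ X) (hc : c + 10 ≤ X) {a : Inp → Mem → List Bool}
    (ha : CA B (X ^ k) c a) : Cp B (X ^ (k + 2)) (fun z M => z (a z M)) := by
  refine (CX.ask hX hc (g := fun j z M => (a z M).getD j false) fun j _ => ha.bit j).congr
    fun z M => ?_
  have h1 := map_getD_range (a z M)
  rw [ha.len] at h1
  rw [h1]

/-! ### substrings -/

theorem CStr.up {u : Inp → Mem → Inp} (hu : CStr B (X ^ k) c u) (hX : 1000 ≤ X) (h : k ≤ l) :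
    CStr B (X ^ l) c u := by
  obtain ⟨P, hP, h1⟩ := hu
  exact ⟨P, hP.up hX h, h1⟩

theorem CStr.congr {s : ℕ} {u v : Inp → Mem → Inp} (hu : CStr B s c u)
    (h : ∀ z M a, u z M a = v z M a) : CStr B s c v := by
  obtain ⟨P, hP, h1⟩ := hu
  exact ⟨P, hP, fun z M a => by rw [← h, h1]⟩

theorem CStr.pre (hX : 1000 ≤ X) (u : List Bool) :
    CStr B (X ^ 1) u.length (fun z _ a => z (u ++ a)) := ⟨_, CA.const hX u, fun _ _ _ => rfl⟩

theorem CStr.sub {s : ℕ} {u : Inp → Mem → Inp} {a : Inp → Mem → List Bool} (hu : CStr B s c u)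
    (ha : CA B s c' a) : CStr B s (c + c') (fun z M b => u z M (a z M ++ b)) := by
  obtain ⟨P, hP, h1⟩ := hu
  refine ⟨_, hP.append ha, fun z M b => ?_⟩
  show u z M (a z M ++ b) = _
  rw [h1, List.append_assoc]

theorem CStr.bit {u : Inp → Mem → Inp} {a : Inp → Mem → List Bool} (hX : 1000 ≤ X)
    (hu : CStr B (X ^ k) c u) (ha : CA B (X ^ k) c' a) (hc : c + c' + 10 ≤ X) :
    Cp B (X ^ (k + 2)) (fun z M => u z M (a z M)) := by
  obtain ⟨P, hP, h1⟩ := hu
  refine (CX.askA hX hc (hP.append ha)).congr fun z M => ?_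
  rw [h1]

/-- a number in a substring -/
theorem CStr.num {u : Inp → Mem → Inp} {a : Inp → Mem → List Bool} (hX : 1000 ≤ X)
    (hu : CStr B (X ^ (k + 1)) c u) (ha : CA B (X ^ (k + 1)) c' a) (σ n : ℕ)
    (hc : c + c' + σ + 10 ≤ X) :
    CN B (X ^ (k + 3)) n (fun z M => num n (fun r => u z M (a z M ++ bits σ r))) := by
  refine CN.of hX (k := k + 2) (g := fun r z M => u z M (a z M ++ Pool.Agent.NUM.bits σ r))
    fun r _ => ?_
  have h1 : CA B (X ^ (k + 1)) σ (fun _ _ => Pool.Agent.NUM.bits σ r) := by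
    have h2 := CA.const (B := B) hX (Pool.Agent.NUM.bits σ r)
    rw [length_bits] at h2
    exact h2.up hX (by omega)
  exact CStr.bit hX hu (ha.append h1) (by omega)

/-! ### lists of claims in substrings -/

variable {h w b σ : ℕ} {u : Inp → Mem → Inp} {i : Inp → Mem → ℕ}

theorem CStr.hbit (hX : 1000 ≤ X) (hc : c + w + σ + 20 ≤ X) (hu : CStr B (X ^ (k + 1)) c u)
    (hi : CN B (X ^ (k + 1)) n i) (f r : ℕ) :
    Cp B (X ^ (k + 3)) (fun z M => hbit w σ (u z M) (i z M) f r) := by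
  have h1 : CA B (X ^ (k + 1)) (bits 3 f ++ bits σ r).length (fun _ _ => bits 3 f ++ bits σ r) :=
    (CA.const hX _).up hX (by omega)
  exact CStr.bit hX hu ((CA.bits hX w hi).append h1)
    (by rw [List.length_append, length_bits, length_bits]; omega)

theorem CStr.tm (hX : 1000 ≤ X) (hc : c + w + σ + 20 ≤ X) (hu : CStr B (X ^ (k + 1)) c u)
    (hi : CN B (X ^ (k + 1)) n i) :
    CN B (X ^ (k + 3)) b (fun z M => (rdL h w b σ (u z M)).tm (i z M)) :=
  CN.of hX (g := fun r z M => Pool.Agent.NUM.hbit w σ (u z M) (i z M) 0 r)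
    fun r _ => CStr.hbit hX hc hu hi 0 r

theorem CStr.off (hX : 1000 ≤ X) (hc : c + w + σ + 20 ≤ X) (hu : CStr B (X ^ (k + 1)) c u)
    (hi : CN B (X ^ (k + 1)) n i) :
    CN B (X ^ (k + 3)) b (fun z M => (rdL h w b σ (u z M)).off (i z M)) :=
  CN.of hX (g := fun r z M => Pool.Agent.NUM.hbit w σ (u z M) (i z M) 3 r)
    fun r _ => CStr.hbit hX hc hu hi 3 r

theorem CStr.lb (hX : 1000 ≤ X) (hc : c + w + σ + 20 ≤ X) (hu : CStr B (X ^ (k + 1)) c u)
    (hi : CN B (X ^ (k + 1)) n i) :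
    CN B (X ^ (k + 3)) w (fun z M => (rdL h w b σ (u z M)).lb (i z M)) :=
  CN.of hX (g := fun r z M => Pool.Agent.NUM.hbit w σ (u z M) (i z M) 2 r)
    fun r _ => CStr.hbit hX hc hu hi 2 r

theorem CStr.fin (hX : 1000 ≤ X) (hc : c + w + σ + 20 ≤ X) (hu : CStr B (X ^ (k + 1)) c u)
    (hi : CN B (X ^ (k + 1)) n i) :
    Cp B (X ^ (k + 3)) (fun z M => (rdL h w b σ (u z M)).fin (i z M)) :=
  CStr.hbit hX hc hu hi 4 0

theorem CStr.st (hX : 1000 ≤ X) (hc : c + w + σ + 20 ≤ X) (hu : CStr B (X ^ (k + 1)) c u)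
    (hi : CN B (X ^ (k + 1)) n i) :
    CV B (X ^ (k + 3)) (fun z M => (rdL h w b σ (u z M)).st (i z M)) :=
  fun r => CStr.hbit hX hc hu hi 1 r

theorem CStr.pv (hX : 1000 ≤ X) (hc : c + w + σ + 20 ≤ X) (hn : n + 2 ≤ X)
    (hu : CStr B (X ^ (k + 1)) c u) (hi : CN B (X ^ (k + 1)) n i) :
    CN B (X ^ (k + 12)) b (fun z M => (rdL h w b σ (u z M)).pv (i z M)) := by
  have h1 := CX.pred hX hn hi
  have h2 := CStr.tm (h := h) (b := b) hX hc (k := k + 7) (hu.up hX (by omega)) h1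
  have h3 := CX.isZero hX (by omega) hi
  have h4 := CN.bif hX (h3.up hX (by omega : k + 3 ≤ k + 10))
    ((CN.const hX (by positivity : 0 < 2 ^ b)).up hX (by omega)) h2
  exact (h4.congr fun y M => (pv_eq _ _).symm).up hX (by omega)

theorem CStr.ps (hX : 1000 ≤ X) (hc : c + w + σ + 20 ≤ X) (hn : n + 2 ≤ X)
    (hu : CStr B (X ^ (k + 1)) c u) (hi : CN B (X ^ (k + 1)) n i) :
    CV B (X ^ (k + 12)) (fun z M => (rdL h w b σ (u z M)).ps (fun _ => false) (i z M)) := by
  have h1 := CX.pred hX hn hi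
  have h2 := CStr.st (h := h) (b := b) hX hc (k := k + 7) (hu.up hX (by omega)) h1
  have h3 := CX.isZero hX (by omega) hi
  have h4 := CV.bif hX (h3.up hX (by omega : k + 3 ≤ k + 10))
    ((CV.const hX (fun _ : Fin h => false)).up hX (by omega)) h2
  exact (h4.congr fun y M => (ps_eqA _ _ _).symm).up hX (by omega)

end

end Pool.Agent.NUM
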