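import Pool.Agent.NUM.GRead

/-!
# Theorem H(γ): the static checks depend on truncated strings only
-/

set_option autoImplicit false

namespace Pool.Agent.NUM

theorem trc_apply_of_le {n : ℕ} {y : Inp} {a : List Bool} (h : a.length ≤ n) : trc n y a = y a :=
  if_pos h

theorem hbit_trc (w σ : ℕ) (v : Inp) (i f r : ℕ) :
    hbit w σ (trc (hLen w σ) v) i f r = hbit w σ v i f r := by
  unfold hbit
  apply trc_apply_of_le
  simp only [List.length_append, length_bits, hLen]
  omega

theorem rdL_congr {h w b σ : ℕ} {v v' : Inp}
    (hv : ∀ i f r, hbit w σ v i f r = hbit w σ v' i f r) : rdL h w b σ v = rdL h w b σ v' := by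
  unfold rdL
  simp only [hv]
  congr 1
  · funext i
    exact num_congr fun r _ => hv i 0 r
  · funext i
    exact num_congr fun r _ => hv i 2 r
  · funext i
    exact num_congr fun r _ => hv i 3 r

theorem gct_rdL_trc (h w b σ : ℕ) (v : Inp) :
    rdL h w b σ (trc (hLen w σ) v) = rdL h w b σ v := rdL_congr fun i f r => hbit_trc w σ v i f r

section

variable (p : GPar) (y : Inp)

theorem gR_trc : gR p (trc (gLen p) y) = gR p y := by
  unfold gR
  refine rdL_congr fun i f r => ?_
  unfold hbit
  apply trc_apply_of_le
  simp only [List.length_cons, List.length_append, length_bits, gLen]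
  omega

theorem gC_trc : gC p (trc (gLen p) y) = gC p y := by
  funext k
  unfold gC
  refine rdL_congr fun i f r => ?_
  unfold hbit
  apply trc_apply_of_le
  simp only [List.length_cons, List.length_append, length_bits, gLen]
  omega

theorem gpb_trc : gpb p (trc (gLen p) y) = gpb p y := by
  funext k i f r
  unfold gpb
  apply trc_apply_of_le
  simp only [List.length_cons, List.length_append, length_bits, gLen]
  omega

theorem gdb_trc : gdb p (trc (gLen p) y) = gdb p y := by
  funext e f r
  unfold gdb
  apply trc_apply_of_le
  simp only [List.length_cons, List.length_append, length_bits, gLen]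
  omega

theorem gi_trc : gi p (trc (gLen p) y) = gi p y := by
  unfold gi
  refine num_congr fun r _ => ?_
  apply trc_apply_of_le
  simp only [List.length_cons, List.length_append, length_bits, gLen]
  omega

theorem gj_trc : gj p (trc (gLen p) y) = gj p y := by
  unfold gj
  refine num_congr fun r _ => ?_
  apply trc_apply_of_le
  simp only [List.length_cons, List.length_append, length_bits, gLen]
  omega

theorem gX_trc : gX p (trc (gLen p) y) = gX p y := by
  funext k i
  unfold gX
  rw [gpb_trc]

theorem gE_trc : gE p (trc (gLen p) y) = gE p y := by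
  funext k i
  unfold gE
  rw [gpb_trc]

theorem gK_trc : gK p (trc (gLen p) y) = gK p y := by
  funext k i
  unfold gK
  rw [gpb_trc]

theorem gI_trc : gI p (trc (gLen p) y) = gI p y := by
  funext k i
  unfold gI
  rw [gpb_trc]

theorem gDk_trc : gDk p (trc (gLen p) y) = gDk p y := by
  funext e
  unfold gDk
  rw [gdb_trc]

theorem gDi_trc : gDi p (trc (gLen p) y) = gDi p y := by
  funext e
  unfold gDi
  rw [gdb_trc]

end

theorem scom_trc (p : GPar) (y : Inp) (k i e : ℕ) :
    SCom p (trc (gLen p) y) k i e ↔ SCom p y k i e := by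
  unfold SCom
  rw [gR_trc, gC_trc, gX_trc, gE_trc, gK_trc, gI_trc, gDk_trc, gDi_trc]

/-- **Truncation, step.** -/
theorem sstep_trc (p : GPar) (l y v : Inp) :
    SStep p (trc (hLen p.w₁ p.σ) l) (trc (gLen p) y) v ↔ SStep p l y v := by
  unfold SStep
  rw [scom_trc, gct_rdL_trc, gR_trc, gi_trc, gj_trc]

/-- **Truncation, top.** -/
theorem stop_trc (p : GPar) (y v : Inp) : STop p (trc (gLen p) y) v ↔ STop p y v := by
  unfold STop
  rw [scom_trc, gR_trc]

end Pool.Agent.NUM
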