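import Pool.Agent.NUM.GParam
import Pool.Agent.NUM.GAbs
import Pool.Agent.NUM.HSep

/-!
# Theorem H(γ): true and bad lists on strings, the delayed computation
-/

set_option autoImplicit false

namespace Pool.Agent.NUM

/-! ## the list problems -/

/-- `l` is a true list of level `r` for the computation of the delayed program `G` on `z` with halting
time `N` -/
def TrS (S : GSeq) (G : List Ins) (z : Inp) (L N : ℕ) (r : ℝ) (l : Inp) : Prop :=
  TrL (finHM (eval G z) (S.d L) (S.h L)) N (rdL (S.h L) (S.w r L) (S.b L) (S.σ L) l) (S.w r L)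
    (S.lim r L)

/-- bad lists -/
def BadS (S : GSeq) (G : List Ins) (z : Inp) (L N : ℕ) (r : ℝ) (l : Inp) : Prop :=
  BadL (finHM (eval G z) (S.d L) (S.h L)) N (rdL (S.h L) (S.w r L) (S.b L) (S.σ L) l) (S.w r L)
    (S.lim r L)

/-- the computation of the delayed program `G` (`exists_delay` on the level of `finHM`) -/
structure DelRun (S : GSeq) (G : List Ins) (z : Inp) (L N : ℕ) : Prop where
  pos : 0 < N
  le : N ≤ S.t L
  alive : ∀ m ≤ N, (finHM (eval G z) (S.d L) (S.h L)).hlt
    ((finHM (eval G z) (S.d L) (S.h L)).U m) = false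
  dead : (finHM (eval G z) (S.d L) (S.h L)).hlt
    ((finHM (eval G z) (S.d L) (S.h L)).U (N + 1)) = true
  flag : ∀ m ≤ N, (gfl (S.p 0 0 L) ((finHM (eval G z) (S.d L) (S.h L)).U m) = true ↔ m = N)
  sep : HSep N (fun n => (finHM (eval G z) (S.d L) (S.h L)).idx
    ((finHM (eval G z) (S.d L) (S.h L)).U n)) S.γ (S.k L)

end Pool.Agent.NUM
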