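import Pool.Agent.NUM.HClosure
import Pool.Agent.NUM.HBasic

/-!
# The delayed form of a history program

The cell `2 s` of a state of `G'` is the halting bit of the state of `G`, the halting bit of `G'`
comes one pass later.
-/

set_option autoImplicit false

namespace Pool.Agent.NUM

/-- the memory before the pass of `G` -/
def dly1 (s : ℕ) (M : Mem) : Mem :=
  Function.update (Function.update M 0 (M (2 * s))) 1 (M (2 * s + 1))

/-- the delayed pass, `R` is the memory after the pass of `G` -/
def dly2 (s : ℕ) (R : Mem) : Mem :=
  Function.update (Function.update (Function.update R (2 * s + 1) (R (2 * s))) (2 * s) (R 0)) 0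
    (R (2 * s))

/-- the delayed form of a pass -/
def dly (f : Mem → Mem) (s : ℕ) (M : Mem) : Mem :=
  dly2 s fun q => if q < s then f (dly1 s M) q else dly1 s M q

theorem dly_zero {f : Mem → Mem} {s : ℕ} (hs : 3 ≤ s) (M : Mem) : dly f s M 0 = M (2 * s) := by
  unfold dly dly2
  rw [Function.update_self]
  show (if 2 * s < s then f (dly1 s M) (2 * s) else dly1 s M (2 * s)) = _
  rw [if_neg (by omega)]
  unfold dly1
  rw [Function.update_of_ne (by omega), Function.update_of_ne (by omega)]

theorem dly_flag {f : Mem → Mem} {s : ℕ} (hs : 3 ≤ s) (M : Mem) :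
    dly f s M (2 * s) = f (dly1 s M) 0 := by
  unfold dly dly2
  rw [Function.update_of_ne (by omega), Function.update_self]
  show (if 0 < s then f (dly1 s M) 0 else dly1 s M 0) = _
  rw [if_pos (by omega)]

theorem dly_lt {f : Mem → Mem} {s : ℕ} (M : Mem) {q : ℕ} (hq : 0 < q) (hqs : q < s) :
    dly f s M q = f (dly1 s M) q := by
  unfold dly dly2
  rw [Function.update_of_ne (by omega), Function.update_of_ne (by omega),
    Function.update_of_ne (by omega), if_pos hqs]

theorem dly_tr {G : List Ins} {s : ℕ} (hG : Sz s G) (hs : 3 ≤ s) :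
    Tr (2 * s + 2) (s + 10) (fun z M => dly (eval G z) s M) := by
  have t1 : Tr (2 * s + 2) 2 (fun _ M => Function.update M 0 (M (2 * s))) :=
    Tr.set (Cp.cell (by omega)) (by omega)
  have t2 : Tr (2 * s + 2) 2 (fun _ M => Function.update M 1 (M (2 * s + 1))) :=
    Tr.set (Cp.cell (by omega)) (by omega)
  have t3 := (Tr.pass hG).lift (show s ≤ 2 * s + 2 by omega)
  have t4 : Tr (2 * s + 2) 2 (fun _ M => Function.update M (2 * s + 1) (M (2 * s))) :=
    Tr.set (Cp.cell (by omega)) (by omega)
  have t5 : Tr (2 * s + 2) 2 (fun _ M => Function.update M (2 * s) (M 0)) :=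
    Tr.set (Cp.cell (by omega)) (by omega)
  have t6 : Tr (2 * s + 2) 2 (fun _ M => Function.update M 0 (M (2 * s + 1))) :=
    Tr.set (Cp.cell (by omega)) (by omega)
  refine ((((((t1.comp t2).comp t3).comp t4).comp t5).comp t6).mono (by omega)).congr ?_
  intro z M q hq
  have e1 : Function.update (Function.update M 0 (M (2 * s))) 1
      (Function.update M 0 (M (2 * s)) (2 * s + 1)) = dly1 s M := by
    unfold dly1
    rw [Function.update_of_ne (show (2 * s + 1) ≠ 0 by omega)]
  show Function.update (Function.update (Function.update (lift s (fun z M => eval G z M) z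
    (Function.update (Function.update M 0 (M (2 * s))) 1
      (Function.update M 0 (M (2 * s)) (2 * s + 1)))) (2 * s + 1) _) (2 * s) _) 0 _ q = _
  rw [e1]
  have e2 : lift s (fun z M => eval G z M) z (dly1 s M) =
      fun q => if q < s then eval G z (dly1 s M) q else dly1 s M q := rfl
  rw [e2]
  unfold dly dly2
  generalize (fun q => if q < s then eval G z (dly1 s M) q else dly1 s M q) = R
  by_cases h0 : q = 0
  · subst h0
    rw [Function.update_self, Function.update_self, Function.update_of_ne (by omega),
      Function.update_self]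
  · rw [Function.update_of_ne h0, Function.update_of_ne h0]
    by_cases h1 : q = 2 * s
    · subst h1
      rw [Function.update_self, Function.update_self, Function.update_of_ne (by omega)]
    · rw [Function.update_of_ne h1, Function.update_of_ne h1]

/-- the invariant of the delayed program -/
theorem dly_inv {G : List Ins} {s d : ℕ} (hG : HSz s d G) (hs : 3 ≤ s) (z : Inp) {N : ℕ}
    (h : ∀ t < N, sta (eval G z) d t 0 = false) : ∀ m ≤ N,
    (∀ q < s, 0 < q → sta (dly (eval G z) s) d m q = sta (eval G z) d m q) ∧
      sta (dly (eval G z) s) d m (2 * s) = sta (eval G z) d m 0 ∧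
      sta (dly (eval G z) s) d m 0 = false := by
  intro m
  induction m using Nat.strong_induction_on with
  | _ m ih =>
    intro hm
    cases m with
    | zero => exact ⟨fun _ _ _ => rfl, rfl, rfl⟩
    | succ m =>
      obtain ⟨i1, i2, i3⟩ := ih m (by omega) (by omega)
      have hr : rcl (dly (eval G z) s) d m = rcl (eval G z) d m := by
        unfold rcl ptr
        refine Finset.sum_congr rfl fun r hr => ?_
        rw [Finset.mem_range] at hr
        have := hG.2
        rw [i1 (4 * r + 4) (by omega) (by omega)]
      obtain ⟨W', hW'⟩ : ∃ W', W' = (if rcl (eval G z) d m ≤ m then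
        sta (dly (eval G z) s) d (rcl (eval G z) d m) else zeroMem) := ⟨_, rfl⟩
      obtain ⟨W, hW⟩ : ∃ W, W = (if rcl (eval G z) d m ≤ m then
        sta (eval G z) d (rcl (eval G z) d m) else zeroMem) := ⟨_, rfl⟩
      have hWW : (∀ q < s, 0 < q → W' q = W q) ∧ W' (2 * s) = W 0 := by
        by_cases h1 : rcl (eval G z) d m ≤ m
        · rw [if_pos h1] at hW hW'
          obtain ⟨j1, j2, j3⟩ := ih _ (show rcl (eval G z) d m < m + 1 by omega) (by omega)
          rw [hW, hW']
          exact ⟨j1, j2⟩
        · rw [if_neg h1] at hW hW'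
          rw [hW, hW']
          exact ⟨fun _ _ _ => rfl, rfl⟩
      have e1 : sta (eval G z) d (m + 1) = eval G z (mrg (sta (eval G z) d m) W) := by
        rw [hcl_succ, hW]
      have e2 : sta (dly (eval G z) s) d (m + 1) =
          dly (eval G z) s (mrg (sta (dly (eval G z) s) d m) W') := by
        rw [hcl_succ, hr, hW']
      have hagr : Agr s (dly1 s (mrg (sta (dly (eval G z) s) d m) W'))
          (mrg (sta (eval G z) d m) W) := by
        intro q hq
        unfold dly1
        have c0 : (2 * s) % 2 = 0 := by omega
        have c1 : (2 * s + 1) % 2 ≠ 0 := by omega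
        by_cases h1 : q = 1
        · subst h1
          rw [Function.update_self]
          unfold mrg
          rw [if_neg c1, if_neg (by omega), Nat.add_sub_cancel]
          exact hWW.2
        · rw [Function.update_of_ne h1]
          by_cases h0 : q = 0
          · subst h0
            rw [Function.update_self]
            unfold mrg
            rw [if_pos c0, if_pos rfl]
            exact i2
          · rw [Function.update_of_ne h0]
            unfold mrg
            by_cases h2 : q % 2 = 0
            · rw [if_pos h2, if_pos h2]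
              exact i1 q hq (by omega)
            · rw [if_neg h2, if_neg h2]
              exact hWW.1 (q - 1) (by omega) (by omega)
      have hev := eval_agr hG.1.2 (z := z) hagr
      rw [e1, e2]
      refine ⟨fun q hq h0 => ?_, ?_, ?_⟩
      · rw [dly_lt _ h0 hq]
        exact hev q hq
      · rw [dly_flag hs]
        exact hev 0 (by omega)
      · rw [dly_zero hs]
        unfold mrg
        rw [if_pos (by omega), i2]
        exact h m (by omega)

/-- **The delayed program.** -/
theorem exists_delay {G : List Ins} {s d : ℕ} (hG : HSz s d G) (hs : 3 ≤ s) :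
    ∃ (G' : List Ins) (c : ℕ), HSz (100 * (s + 10) ^ 2) d G' ∧ 2 * c + 1 ≤ 100 * (s + 10) ^ 2 ∧
      ∀ z N, HaltsAt (eval G z) d N →
        (∀ m ≤ N, sta (eval G' z) d m 0 = false ∧ (sta (eval G' z) d m (2 * c) = true ↔ m = N) ∧
          sta (eval G' z) d m 2 = sta (eval G z) d m 2 ∧
          rcl (eval G' z) d m = rcl (eval G z) d m) ∧
        sta (eval G' z) d (N + 1) 0 = true := by
  obtain ⟨G', hG', h3⟩ := (dly_tr hG.1 hs).exists_code
  have hd := hG.2
  have hsz : 2 * s + 2 + (s + 10) ≤ 100 * (s + 10) ^ 2 := by nlinarith [Nat.zero_le s]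
  refine ⟨G', s, ⟨hG'.mono hsz, by nlinarith⟩, by nlinarith, fun z N hN => ?_⟩
  have h4 : ∀ M M', Agr (2 * s + 2) M M' →
      Agr (2 * s + 2) (eval G' z M) (dly (eval G z) s M') := fun M M' hM => h3 z M M' hM
  have h5 : ∀ n, Agr (2 * s + 2) (sta (eval G' z) d n) (sta (dly (eval G z) s) d n) :=
    hcl_agr (by omega) h4
  have hinv := dly_inv hG hs z hN.2
  refine ⟨fun m hm => ?_, ?_⟩
  · obtain ⟨i1, i2, i3⟩ := hinv m hm
    refine ⟨by rw [h5 m 0 (by omega)]; exact i3, ?_, ?_, ?_⟩
    · rw [h5 m (2 * s) (by omega), i2]
      constructor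
      · intro h
        by_contra hne
        rw [hN.2 m (by omega)] at h
        exact Bool.false_ne_true h
      · rintro rfl
        exact hN.1
    · rw [h5 m 2 (by omega)]
      exact i1 2 (by omega) (by omega)
    · have e : rcl (eval G' z) d m = rcl (dly (eval G z) s) d m := hcl_ptr (by omega) (h5 m)
      rw [e]
      unfold rcl ptr
      refine Finset.sum_congr rfl fun r hr => ?_
      rw [Finset.mem_range] at hr
      rw [i1 (4 * r + 4) (by omega) (by omega)]
  · obtain ⟨i1, i2, i3⟩ := hinv N le_rfl
    rw [h5 (N + 1) 0 (by omega), hcl_succ, dly_zero hs]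
    unfold mrg
    rw [if_pos (by omega), i2]
    exact hN.1

end Pool.Agent.NUM
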