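import Pool.Agent.NUM.GList

/-!
# A bad list has a bad child
-/

set_option autoImplicit false

namespace Pool.Agent.NUM

variable {A : Type} {H : HM A} {N : ℕ}

/-- **A bad list has a bad child**, in every family of lists with right pointers. -/
theorem exists_bad_child {R : Lst A} {C : ℕ → Lst A} {q w₁ lim₁ w lim : ℕ}
    (h : BadL H N R w₁ lim₁) (hC : ∀ k < 2 ^ q, LStat (C k) w lim)
    (px : ℕ → ℕ → Bool) (pe pk pi : ℕ → ℕ → ℕ) (dk di : ℕ → ℕ)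
    (hp : ∀ k < 2 ^ q, ∀ i < 2 ^ w,
      PtrOK q w₁ w R C k i (px k i) (pe k i) (pk k i) (pi k i))
    (hd : ∀ e < 2 ^ w₁, DirOK q w R C e (dk e) (di e)) :
    ∃ k < 2 ^ q, BadL H N (C k) w lim := by
  classical
  obtain ⟨hs, i₀, hi₀, hf₀, hl₀, htr, hbad⟩ := h
  -- the false claim of the bad entry
  obtain ⟨hk₀, hj₀, hfj, hlj, htj, hsj⟩ := hd i₀ hi₀ hf₀ hl₀
  have hbad₀ : ¬ TrueE H N (C (dk i₀)) (di i₀) := by
    rintro ⟨h1, h2⟩
    rw [htj] at h1 h2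
    rw [hsj] at h2
    exact hbad ⟨h1, h2⟩
  obtain ⟨F, hF⟩ : ∃ F : ℕ → Prop, ∀ τ, F τ ↔ ∃ k < 2 ^ q, ∃ i < 2 ^ w,
      (C k).fin i = false ∧ (C k).tm i = τ ∧ ¬ TrueE H N (C k) i := ⟨_, fun _ => Iff.rfl⟩
  have hF₀ : F (R.tm i₀) := (hF _).2 ⟨dk i₀, hk₀, di i₀, hj₀, hfj, htj, hbad₀⟩
  obtain ⟨τ, hτ, hmin⟩ : ∃ τ, F τ ∧ ∀ t < τ, ¬ F t :=
    ⟨Nat.find ⟨_, hF₀⟩, Nat.find_spec ⟨_, hF₀⟩, fun t ht => Nat.find_min _ ht⟩
  -- an own false claim of minimal time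
  have own : ∀ k < 2 ^ q, ∀ i < 2 ^ w, (C k).fin i = false → (C k).lb i = 1 → (C k).tm i = τ →
      ¬ TrueE H N (C k) i → ∃ k < 2 ^ q, BadL H N (C k) w lim := by
    intro k hk i hi hf hl ht hn
    refine ⟨k, hk, hC k hk, i, hi, hf, hl, fun j hj => ?_, hn⟩
    by_contra hcon
    have h1 := (hC k hk).tm_lt hj hi
    exact hmin ((C k).tm j) (by omega)
      ((hF _).2 ⟨k, hk, j, by omega, (hC k hk).nfin hj.le hi hf, rfl, hcon⟩)
  obtain ⟨k, hk, i, hi, hf, ht, hn⟩ := (hF τ).1 hτ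
  by_cases hl : (C k).lb i = 1
  · exact own k hk i hi hf hl ht hn
  · have h1 := hp k hk i hi hf hl
    by_cases hx : px k i = true
    · rw [if_pos hx] at h1
      obtain ⟨he, hfe, hte, hse⟩ := h1
      have hne : ¬ TrueE H N R (pe k i) := by
        rintro ⟨h2, h3⟩
        rw [hte] at h2 h3
        rw [hse] at h3
        exact hn ⟨h2, h3⟩
      have h4 : i₀ ≤ pe k i := by
        by_contra hcon
        exact hne (htr _ (by omega))
      have h5 := hs.mono_tm h4 he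
      have h6 : τ ≤ R.tm i₀ := by
        by_contra hcon
        exact hmin _ (by omega) hF₀
      exact own _ hk₀ _ hj₀ hfj hlj (by omega) hbad₀
    · rw [if_neg hx] at h1
      obtain ⟨h2, h3, h4, h5, h6, h7⟩ := h1
      refine own _ h2 _ h3 h4 h5 (h6.trans ht) ?_
      rintro ⟨h8, h9⟩
      rw [h6] at h8 h9
      rw [h7] at h9
      exact hn ⟨h8, h9⟩

end Pool.Agent.NUM
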