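import Pool.Agent.NUM.HSep

/-!
# Division lemma

A region is a pair `(S, E)` of sets of states: the states of `S` are to be verified from states of `S`
and of `E`.  A region with small hereditary separators can be divided into small regions.
-/

set_option autoImplicit false

namespace Pool.Agent.NUM

open Finset

/-- the states used by states of `S` are in `S ∪ E` -/
def Closed (rc : ℕ → ℕ) (S E : Finset ℕ) : Prop :=
  ∀ t, t + 1 ∈ S → t ∈ S ∪ E ∧ (rc t ≤ t → rc t ∈ S ∪ E)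

/-- the states used by a state of `Y` -/
def deps (rc : ℕ → ℕ) (Y : Finset ℕ) : Finset ℕ :=
  Y.image (fun v => v - 1) ∪ Y.image fun v => rc (v - 1)

theorem card_deps_le (rc : ℕ → ℕ) (Y : Finset ℕ) : (deps rc Y).card ≤ 2 * Y.card := by
  unfold deps
  refine (card_union_le _ _).trans ?_
  have h1 := card_image_le (s := Y) (f := fun v => v - 1)
  have h2 := card_image_le (s := Y) (f := fun v => rc (v - 1))
  omega

theorem mem_deps {rc : ℕ → ℕ} {Y : Finset ℕ} {t : ℕ} (h : t + 1 ∈ Y) :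
    t ∈ deps rc Y ∧ rc t ∈ deps rc Y := by
  unfold deps
  simp only [mem_union, mem_image]
  exact ⟨Or.inl ⟨t + 1, h, by omega⟩, Or.inr ⟨t + 1, h, by simp⟩⟩

/-- a division of the region `(S, E)` -/
structure Division (rc : ℕ → ℕ) (S E : Finset ℕ) (l : List (Finset ℕ × Finset ℕ)) : Prop where
  cov : ∀ v ∈ S, ∃ p ∈ l, v ∈ p.1
  sub : ∀ p ∈ l, p.1 ⊆ S
  disj : ∀ p ∈ l, ∀ p' ∈ l, p = p' ∨ Disjoint p.1 p'.1
  cl : ∀ p ∈ l, Closed rc p.1 p.2
  ent : ∀ p ∈ l, p.2 ⊆ S ∪ E
  old : ∀ p ∈ l, ∀ v ∈ E, v ∈ p.1 → v ∈ p.2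
  exp : ∀ p ∈ l, ∀ p' ∈ l, ∀ v ∈ p.2, v ∈ p'.1 → v ∈ p'.2

theorem Division.single {rc : ℕ → ℕ} {S E : Finset ℕ} (h : Closed rc S E) :
    Division rc S E [(S, E)] := by
  constructor
  · intro v hv
    exact ⟨(S, E), by simp, hv⟩
  · intro p hp
    simp only [List.mem_singleton] at hp
    subst hp
    exact subset_rfl
  · intro p hp p' hp'
    simp only [List.mem_singleton] at hp hp'
    subst hp
    subst hp'
    exact Or.inl rfl
  · intro p hp
    simp only [List.mem_singleton] at hp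
    subst hp
    exact h
  · intro p hp
    simp only [List.mem_singleton] at hp
    subst hp
    exact subset_union_right
  · intro p hp v hv _
    simp only [List.mem_singleton] at hp
    subst hp
    exact hv
  · intro p hp p' hp' v hv _
    simp only [List.mem_singleton] at hp hp'
    subst hp
    subst hp'
    exact hv

theorem Division.append {rc : ℕ → ℕ} {S E S₁ S₂ E₁ E₂ : Finset ℕ}
    {l₁ l₂ : List (Finset ℕ × Finset ℕ)} (hS : S₁ ∪ S₂ = S) (hd : Disjoint S₁ S₂)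
    (h1 : E₁ ⊆ S ∪ E) (h2 : E₂ ⊆ S ∪ E) (h3 : ∀ v ∈ E, v ∈ S₁ → v ∈ E₁)
    (h4 : ∀ v ∈ E, v ∈ S₂ → v ∈ E₂) (h5 : ∀ v ∈ E₁, v ∈ S₂ → v ∈ E₂)
    (h6 : ∀ v ∈ E₂, v ∈ S₁ → v ∈ E₁) (H₁ : Division rc S₁ E₁ l₁) (H₂ : Division rc S₂ E₂ l₂) :
    Division rc S E (l₁ ++ l₂) := by
  subst hS
  have hdis : ∀ v, v ∈ S₁ → v ∈ S₂ → False := fun v a b => disjoint_left.1 hd a b
  constructor
  · intro v hv
    rcases mem_union.1 hv with hv | hv
    · obtain ⟨p, hp, hp'⟩ := H₁.cov v hv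
      exact ⟨p, List.mem_append_left _ hp, hp'⟩
    · obtain ⟨p, hp, hp'⟩ := H₂.cov v hv
      exact ⟨p, List.mem_append_right _ hp, hp'⟩
  · intro p hp
    rcases List.mem_append.1 hp with hp | hp
    · exact (H₁.sub p hp).trans subset_union_left
    · exact (H₂.sub p hp).trans subset_union_right
  · intro p hp p' hp'
    rcases List.mem_append.1 hp with hp | hp <;> rcases List.mem_append.1 hp' with hp' | hp'
    · exact H₁.disj p hp p' hp'
    · exact Or.inr (disjoint_of_subset_left (H₁.sub p hp)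
        (disjoint_of_subset_right (H₂.sub p' hp') hd))
    · exact Or.inr (disjoint_of_subset_left (H₂.sub p hp)
        (disjoint_of_subset_right (H₁.sub p' hp') hd.symm))
    · exact H₂.disj p hp p' hp'
  · intro p hp
    rcases List.mem_append.1 hp with hp | hp
    · exact H₁.cl p hp
    · exact H₂.cl p hp
  · intro p hp
    rcases List.mem_append.1 hp with hp | hp
    · refine (H₁.ent p hp).trans (union_subset ?_ h1)
      exact subset_union_left.trans subset_union_left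
    · refine (H₂.ent p hp).trans (union_subset ?_ h2)
      exact subset_union_right.trans subset_union_left
  · intro p hp v hv hv'
    rcases List.mem_append.1 hp with hp | hp
    · exact H₁.old p hp v (h3 v hv (H₁.sub p hp hv')) hv'
    · exact H₂.old p hp v (h4 v hv (H₂.sub p hp hv')) hv'
  · intro p hp p' hp' v hv hv'
    rcases List.mem_append.1 hp with hp | hp <;> rcases List.mem_append.1 hp' with hp' | hp'
    · exact H₁.exp p hp p' hp' v hv hv'
    · have hv2 := H₂.sub p' hp' hv'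
      have hv1 : v ∈ E₁ := by
        rcases mem_union.1 (H₁.ent p hp hv) with h | h
        · exact (hdis v h hv2).elim
        · exact h
      exact H₂.old p' hp' v (h5 v hv1 hv2) hv'
    · have hv2 := H₁.sub p' hp' hv'
      have hv1 : v ∈ E₂ := by
        rcases mem_union.1 (H₂.ent p hp hv) with h | h
        · exact (hdis v hv2 h).elim
        · exact h
      exact H₁.old p' hp' v (h6 v hv1 hv2) hv'
    · exact H₂.exp p hp p' hp' v hv hv'

/-- the weight of a region -/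
noncomputable def wt (r s : ℝ) (S E : Finset ℕ) : ℝ := (S ∪ E).card / r + E.card / s

/-- **One split.** -/
theorem exists_split {N : ℕ} {rc : ℕ → ℕ} {γ : ℝ} {K : ℕ} (h : HSep N rc γ K) (hγ : 0 ≤ γ)
    {r s : ℝ} (hr : 0 < r) (hs : 0 < s) {S E : Finset ℕ} (hSE : S ∪ E ⊆ range (N + 1))
    (hcl : Closed rc S E) {j : ℕ} (hj : ((S ∪ E).card : ℝ) ≤ (3 / 2) ^ j) :
    ∃ (S₁ E₁ S₂ E₂ : Finset ℕ) (x : ℝ), 0 ≤ x ∧
      x ≤ (j + 1) * K * ((S ∪ E).card : ℝ) ^ γ ∧
      S₁ ∪ S₂ = S ∧ Disjoint S₁ S₂ ∧ E₁ ⊆ S ∪ E ∧ E₂ ⊆ S ∪ E ∧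
      (∀ v ∈ E, v ∈ S₁ → v ∈ E₁) ∧ (∀ v ∈ E, v ∈ S₂ → v ∈ E₂) ∧
      (∀ v ∈ E₁, v ∈ S₂ → v ∈ E₂) ∧ (∀ v ∈ E₂, v ∈ S₁ → v ∈ E₁) ∧
      Closed rc S₁ E₁ ∧ Closed rc S₂ E₂ ∧
      wt r s S₁ E₁ + wt r s S₂ E₂ ≤ wt r s S E + (4 * x / r + 6 * x / s) ∧
      wt r s S₁ E₁ ≤ 2 / 3 * wt r s S E + (3 * x / r + 3 * x / s) ∧
      wt r s S₂ E₂ ≤ 2 / 3 * wt r s S E + (3 * x / r + 3 * x / s) := by
  classical
  obtain ⟨V, hVdef⟩ : ∃ V, V = S ∪ E := ⟨_, rfl⟩
  rw [← hVdef] at hSE hj
  let w : ℕ → ℝ := fun v => 1 / r + if v ∈ E then 1 / s else 0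
  have hw : ∀ v, 0 ≤ w v := by
    intro v
    have : 0 ≤ if v ∈ E then 1 / s else 0 := by split_ifs <;> positivity
    have : 0 ≤ 1 / r := by positivity
    show 0 ≤ 1 / r + _
    linarith
  have hwsum : ∀ Y : Finset ℕ, ∑ v ∈ Y, w v = Y.card / r + (E ∩ Y).card / s := by
    intro Y
    show ∑ v ∈ Y, (1 / r + if v ∈ E then 1 / s else 0) = _
    rw [sum_add_distrib, sum_const, ← sum_filter, sum_const, nsmul_eq_mul, nsmul_eq_mul]
    have : Y.filter (fun v => v ∈ E) = E ∩ Y := by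
      ext v
      simp only [mem_filter, mem_inter]
      tauto
    rw [this]
    ring
  obtain ⟨A, hA, B, hB, h1, h2, h3, h4, h5⟩ := h.exists_weighted hγ hw hSE hj
  obtain ⟨X, hX⟩ : ∃ X, X = V \ (A ∪ B) := ⟨_, rfl⟩
  rw [← hX] at h5
  have hVm : ∀ v, v ∈ V ↔ v ∈ S ∨ v ∈ E := by
    intro v
    rw [hVdef, mem_union]
  have hcov : ∀ v ∈ V, v ∈ X ∨ v ∈ A ∨ v ∈ B := by
    intro v hv
    rw [hX]
    simp only [mem_sdiff, mem_union]
    tauto
  have hXV : X ⊆ V := by rw [hX]; exact sdiff_subset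
  have hXA : ∀ v, v ∈ X → v ∈ A → False := by
    intro v hv hv'
    rw [hX] at hv
    simp only [mem_sdiff, mem_union] at hv
    tauto
  have hXB : ∀ v, v ∈ X → v ∈ B → False := by
    intro v hv hv'
    rw [hX] at hv
    simp only [mem_sdiff, mem_union] at hv
    tauto
  have hAB : ∀ v, v ∈ A → v ∈ B → False := fun v a b => disjoint_left.1 h1 a b
  obtain ⟨Dp, hDp⟩ : ∃ Dp, Dp = deps rc (S ∩ X) ∩ V := ⟨_, rfl⟩
  have hDpV : Dp ⊆ V := by rw [hDp]; exact inter_subset_right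
  have hDpc : Dp.card ≤ 2 * X.card := by
    rw [hDp]
    refine (card_le_card inter_subset_left).trans ((card_deps_le rc _).trans ?_)
    have := card_le_card (inter_subset_right : S ∩ X ⊆ X)
    omega
  obtain ⟨S₁, hS₁⟩ : ∃ S₁, S₁ = S ∩ (A ∪ X) := ⟨_, rfl⟩
  obtain ⟨S₂, hS₂⟩ : ∃ S₂, S₂ = S ∩ B := ⟨_, rfl⟩
  obtain ⟨E₁, hE₁⟩ : ∃ E₁, E₁ = (E ∩ A) ∪ X ∪ Dp := ⟨_, rfl⟩
  obtain ⟨E₂, hE₂⟩ : ∃ E₂, E₂ = (E ∩ B) ∪ X ∪ (Dp ∩ B) := ⟨_, rfl⟩
  have mS₁ : ∀ v, v ∈ S₁ ↔ v ∈ S ∧ (v ∈ A ∨ v ∈ X) := by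
    intro v
    rw [hS₁, mem_inter, mem_union]
  have mS₂ : ∀ v, v ∈ S₂ ↔ v ∈ S ∧ v ∈ B := by
    intro v
    rw [hS₂, mem_inter]
  have mE₁ : ∀ v, v ∈ E₁ ↔ (v ∈ E ∧ v ∈ A) ∨ v ∈ X ∨ v ∈ Dp := by
    intro v
    rw [hE₁, mem_union, mem_union, mem_inter, or_assoc]
  have mE₂ : ∀ v, v ∈ E₂ ↔ (v ∈ E ∧ v ∈ B) ∨ v ∈ X ∨ (v ∈ Dp ∧ v ∈ B) := by
    intro v
    rw [hE₂, mem_union, mem_union, mem_inter, mem_inter, or_assoc]
  -- sizes
  have c1 : (S₁ ∪ E₁).card ≤ A.card + 3 * X.card := by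
    have e1 : S₁ ∪ E₁ ⊆ A ∪ (X ∪ Dp) := by
      intro v hv
      simp only [mem_union, mS₁, mE₁] at hv ⊢
      tauto
    refine (card_le_card e1).trans ((card_union_le _ _).trans ?_)
    have := card_union_le X Dp
    omega
  have c2 : E₁.card ≤ (E ∩ A).card + 3 * X.card := by
    rw [hE₁]
    refine (card_union_le _ _).trans ?_
    have := card_union_le (E ∩ A) X
    omega
  have c3 : (S₂ ∪ E₂).card ≤ B.card + 1 * X.card := by
    have e1 : S₂ ∪ E₂ ⊆ B ∪ X := by
      intro v hv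
      simp only [mem_union, mS₂, mE₂] at hv ⊢
      tauto
    refine (card_le_card e1).trans ((card_union_le _ _).trans ?_)
    omega
  have c4 : E₂.card ≤ (E ∩ B).card + 3 * X.card := by
    rw [hE₂]
    refine (card_union_le _ _).trans ?_
    have e1 := card_union_le (E ∩ B) X
    have e2 := card_le_card (inter_subset_left : Dp ∩ B ⊆ Dp)
    omega
  have hwV : ∑ v ∈ V, w v = wt r s S E := by
    rw [hwsum]
    unfold wt
    rw [← hVdef]
    have : E ∩ V = E := by
      apply inter_eq_left.2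
      rw [hVdef]
      exact subset_union_right
    rw [this]
  have hx0 : (0 : ℝ) ≤ X.card := by positivity
  have w1 : wt r s S₁ E₁ ≤ ∑ v ∈ A, w v + (3 * X.card / r + 3 * X.card / s) := by
    rw [hwsum]
    unfold wt
    have e1 : ((S₁ ∪ E₁).card : ℝ) ≤ A.card + 3 * X.card := by exact_mod_cast c1
    have e2 : (E₁.card : ℝ) ≤ (E ∩ A).card + 3 * X.card := by exact_mod_cast c2
    have e3 : ((S₁ ∪ E₁).card : ℝ) / r ≤ (A.card + 3 * X.card) / r := by gcongr
    have e4 : (E₁.card : ℝ) / s ≤ ((E ∩ A).card + 3 * X.card) / s := by gcongr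
    rw [add_div] at e3 e4
    linarith
  have w2 : wt r s S₂ E₂ ≤ ∑ v ∈ B, w v + (1 * X.card / r + 3 * X.card / s) := by
    rw [hwsum]
    unfold wt
    have e1 : ((S₂ ∪ E₂).card : ℝ) ≤ B.card + 1 * X.card := by exact_mod_cast c3
    have e2 : (E₂.card : ℝ) ≤ (E ∩ B).card + 3 * X.card := by exact_mod_cast c4
    have e3 : ((S₂ ∪ E₂).card : ℝ) / r ≤ (B.card + 1 * X.card) / r := by gcongr
    have e4 : (E₂.card : ℝ) / s ≤ ((E ∩ B).card + 3 * X.card) / s := by gcongr
    rw [add_div] at e3 e4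
    linarith
  have wAB : ∑ v ∈ A, w v + ∑ v ∈ B, w v ≤ ∑ v ∈ V, w v := by
    rw [← sum_union h1]
    exact sum_le_sum_of_subset_of_nonneg (union_subset hA hB) fun v _ _ => hw v
  have hxr : (0 : ℝ) ≤ X.card / r := by positivity
  have hmr : ∀ a : ℝ, a * X.card / r = a * (X.card / r) := fun a => by ring
  have hms : ∀ a : ℝ, a * X.card / s = a * (X.card / s) := fun a => by ring
  rw [hmr, hms] at w1 w2
  rw [hwV] at h3 h4 wAB
  refine ⟨S₁, E₁, S₂, E₂, X.card, hx0, ?_, ?_, ?_, ?_, ?_, ?_, ?_, ?_, ?_, ?_, ?_, ?_, ?_, ?_⟩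
  · rw [← hVdef]; exact h5
  · ext v
    rw [mem_union, mS₁, mS₂]
    constructor
    · tauto
    · intro hv
      rcases hcov v ((hVm v).2 (Or.inl hv)) with h | h | h <;> tauto
  · rw [disjoint_left]
    intro v hv hv'
    rw [mS₁] at hv
    rw [mS₂] at hv'
    rcases hv.2 with h | h
    · exact hAB v h hv'.2
    · exact hXB v h hv'.2
  · intro v hv
    rw [← hVdef]
    rcases (mE₁ v).1 hv with h | h | h
    · exact hA h.2
    · exact hXV h
    · exact hDpV h
  · intro v hv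
    rw [← hVdef]
    rcases (mE₂ v).1 hv with h | h | h
    · exact hB h.2
    · exact hXV h
    · exact hDpV h.1
  · intro v hv hv'
    rw [mS₁] at hv'
    rw [mE₁]
    tauto
  · intro v hv hv'
    rw [mS₂] at hv'
    rw [mE₂]
    tauto
  · intro v hv hv'
    rw [mS₂] at hv'
    rw [mE₁] at hv
    rw [mE₂]
    have := hAB v
    tauto
  · intro v hv hv'
    rw [mS₁] at hv'
    rw [mE₂] at hv
    rw [mE₁]
    have := hAB v
    have := hXB v
    tauto
  · -- closed 1
    intro t ht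
    rw [mS₁] at ht
    obtain ⟨g1, g2⟩ := hcl t ht.1
    have key : ∀ v, v ∈ S ∪ E → (t + 1 ∈ A → v ∉ B) → (t + 1 ∈ S ∩ X → v ∈ deps rc (S ∩ X)) →
        v ∈ S₁ ∪ E₁ := by
      intro v hv hvB hvD
      rw [mem_union, mS₁, mE₁, hDp, mem_inter]
      rw [← hVdef] at hv
      have hv' := (hVm v).1 hv
      rcases ht.2 with h | h
      · have := hvB h
        rcases hcov v hv with h' | h' | h' <;> tauto
      · have := hvD (mem_inter.2 ⟨ht.1, h⟩)
        tauto
    refine ⟨key t g1 (fun h => ((h2 t).1 h).1) (fun h => (mem_deps h).1), fun hrc => ?_⟩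
    exact key (rc t) (g2 hrc) (fun h => ((h2 t).1 h).2 hrc) (fun h => (mem_deps h).2)
  · -- closed 2
    intro t ht
    rw [mS₂] at ht
    obtain ⟨g1, g2⟩ := hcl t ht.1
    have key : ∀ v, v ∈ S ∪ E → v ∉ A → v ∈ S₂ ∪ E₂ := by
      intro v hv hvA
      rw [mem_union, mS₂, mE₂]
      rw [← hVdef] at hv
      have hv' := (hVm v).1 hv
      rcases hcov v hv with h' | h' | h' <;> tauto
    refine ⟨key t g1 ((h2 t).2 ht.2).1, fun hrc => ?_⟩
    exact key (rc t) (g2 hrc) (((h2 t).2 ht.2).2 hrc)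
  · rw [hmr, hms]
    linarith
  · rw [hmr, hms]
    linarith
  · rw [hmr, hms]
    linarith

/-- **Division lemma.** -/
theorem HSep.exists_division {N : ℕ} {rc : ℕ → ℕ} {γ : ℝ} {K : ℕ} (h : HSep N rc γ K)
    (hγ : 0 ≤ γ) (hγ1 : γ ≤ 1) {r s : ℝ} (hs : 0 < s) (hsr : s ≤ r) {D : ℕ} (hD : 12 ≤ D)
    (hK : 10 * (D : ℝ) ^ 2 * K * r ^ γ ≤ s) (d : ℕ) :
    ∀ S E : Finset ℕ, S ∪ E ⊆ range (N + 1) → Closed rc S E →
      ((S ∪ E).card : ℝ) ≤ (3 / 2) ^ (D - 1) → wt r s S E ≤ (4 / 3) ^ d →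
      ∃ l : List (Finset ℕ × Finset ℕ), Division rc S E l ∧
        (∀ p ∈ l, ((p.1 ∪ p.2).card : ℝ) ≤ r ∧ (p.2.card : ℝ) ≤ s) ∧
        (l.length : ℝ) ≤ 1 + d * (1 + 1 / D) ^ d * wt r s S E := by
  have hr : 0 < r := hs.trans_le hsr
  have hD0 : (0 : ℝ) < D := by
    have : (12 : ℝ) ≤ D := by exact_mod_cast hD
    linarith
  have hwt0 : ∀ S E : Finset ℕ, 0 ≤ wt r s S E := by
    intro S E
    unfold wt
    positivity
  have hleaf : ∀ S E : Finset ℕ, Closed rc S E → wt r s S E ≤ 1 → ∀ d : ℕ,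
      ∃ l : List (Finset ℕ × Finset ℕ), Division rc S E l ∧
        (∀ p ∈ l, ((p.1 ∪ p.2).card : ℝ) ≤ r ∧ (p.2.card : ℝ) ≤ s) ∧
        (l.length : ℝ) ≤ 1 + d * (1 + 1 / D) ^ d * wt r s S E := by
    intro S E hcl hw d
    refine ⟨[(S, E)], Division.single hcl, ?_, ?_⟩
    · intro p hp
      simp only [List.mem_singleton] at hp
      subst hp
      have e1 : 0 ≤ ((S ∪ E).card : ℝ) / r := by positivity
      have e2 : 0 ≤ (E.card : ℝ) / s := by positivity
      unfold wt at hw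
      constructor
      · have : ((S ∪ E).card : ℝ) / r ≤ 1 := by linarith
        rwa [div_le_one hr] at this
      · have : (E.card : ℝ) / s ≤ 1 := by linarith
        rwa [div_le_one hs] at this
    · have := hwt0 S E
      have : 0 ≤ (d : ℝ) * (1 + 1 / D) ^ d * wt r s S E := by positivity
      simp only [List.length_singleton, Nat.cast_one]
      linarith
  induction d with
  | zero =>
    intro S E hSE hcl _ hw
    exact hleaf S E hcl (by simpa using hw) 0
  | succ d ih =>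
    intro S E hSE hcl hcard hw
    by_cases h1 : wt r s S E ≤ 1
    · exact hleaf S E hcl h1 (d + 1)
    · rw [not_le] at h1
      obtain ⟨S₁, E₁, S₂, E₂, x, hx0, hx, g1, g2, g3, g4, g5, g6, g7, g8, g9, g10, g11, g12,
        g13⟩ := exists_split h hγ hr hs hSE hcl hcard
      -- the separator is small
      have hcr : ((S ∪ E).card : ℝ) ≤ r * wt r s S E := by
        unfold wt
        have e1 : r * (((S ∪ E).card : ℝ) / r + E.card / s) =
            (S ∪ E).card + r * (E.card / s) := by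
          field_simp
        rw [e1]
        have : 0 ≤ r * ((E.card : ℝ) / s) := by positivity
        linarith
      have hpow : ((S ∪ E).card : ℝ) ^ γ ≤ r ^ γ * wt r s S E := by
        calc ((S ∪ E).card : ℝ) ^ γ ≤ (r * wt r s S E) ^ γ :=
              Real.rpow_le_rpow (by positivity) hcr hγ
          _ = r ^ γ * (wt r s S E) ^ γ := Real.mul_rpow hr.le (hwt0 _ _)
          _ ≤ r ^ γ * (wt r s S E) ^ (1 : ℝ) := by
              apply mul_le_mul_of_nonneg_left _ (by positivity)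
              exact Real.rpow_le_rpow_of_exponent_le h1.le hγ1
          _ = _ := by rw [Real.rpow_one]
      have hDj : (((D - 1 : ℕ) : ℝ) + 1) = D := by
        have : D - 1 + 1 = D := by omega
        exact_mod_cast this
      rw [hDj] at hx
      have hxs : 10 * x / s ≤ wt r s S E / D := by
        rw [div_le_div_iff₀ hs hD0]
        calc 10 * x * D ≤ 10 * ((D : ℝ) * K * (r ^ γ * wt r s S E)) * D := by
              have : x ≤ (D : ℝ) * K * (r ^ γ * wt r s S E) :=
                hx.trans (mul_le_mul_of_nonneg_left hpow (by positivity))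
              nlinarith
          _ = wt r s S E * (10 * (D : ℝ) ^ 2 * K * r ^ γ) := by ring
          _ ≤ wt r s S E * s := mul_le_mul_of_nonneg_left hK (hwt0 _ _)
      have hxr : x / r ≤ x / s := by gcongr
      have hxs' : 10 * (x / s) ≤ wt r s S E / D := by
        have : 10 * x / s = 10 * (x / s) := by ring
        rw [← this]; exact hxs
      have hxs0 : 0 ≤ x / s := by positivity
      have hm : ∀ a y : ℝ, a * x / y = a * (x / y) := fun a y => by ring
      rw [hm, hm] at g11 g12 g13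
      have hD12 : wt r s S E / D ≤ wt r s S E / 12 := by
        have : (12 : ℝ) ≤ D := by exact_mod_cast hD
        have := hwt0 S E
        gcongr
      have hSum : wt r s S₁ E₁ + wt r s S₂ E₂ ≤ (1 + 1 / D) * wt r s S E := by
        have : (1 + 1 / (D : ℝ)) * wt r s S E = wt r s S E + wt r s S E / D := by ring
        rw [this]
        linarith
      have hw' := hw
      rw [pow_succ] at hw'
      have hW1 : wt r s S₁ E₁ ≤ (4 / 3) ^ d := by
        have : wt r s S₁ E₁ ≤ 3 / 4 * wt r s S E := by linarith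
        linarith
      have hW2 : wt r s S₂ E₂ ≤ (4 / 3) ^ d := by
        have : wt r s S₂ E₂ ≤ 3 / 4 * wt r s S E := by linarith
        linarith
      have hsub1 : S₁ ∪ E₁ ⊆ S ∪ E := by
        refine union_subset ?_ g3
        rw [← g1]
        exact subset_union_left.trans subset_union_left
      have hsub2 : S₂ ∪ E₂ ⊆ S ∪ E := by
        refine union_subset ?_ g4
        rw [← g1]
        exact subset_union_right.trans subset_union_left
      obtain ⟨l₁, L1, L2, L3⟩ := ih S₁ E₁ (hsub1.trans hSE) g9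
        (le_trans (by exact_mod_cast card_le_card hsub1) hcard) hW1
      obtain ⟨l₂, M1, M2, M3⟩ := ih S₂ E₂ (hsub2.trans hSE) g10
        (le_trans (by exact_mod_cast card_le_card hsub2) hcard) hW2
      refine ⟨l₁ ++ l₂, Division.append g1 g2 g3 g4 g5 g6 g7 g8 L1 M1, ?_, ?_⟩
      · intro p hp
        rcases List.mem_append.1 hp with hp | hp
        · exact L2 p hp
        · exact M2 p hp
      · rw [List.length_append]
        push_cast
        have hq : (0 : ℝ) ≤ 1 + 1 / D := by positivity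
        have hq1 : (1 : ℝ) ≤ 1 + 1 / D := by
          have : (0 : ℝ) ≤ 1 / D := by positivity
          linarith
        have k1 : (d : ℝ) * (1 + 1 / D) ^ d * (wt r s S₁ E₁ + wt r s S₂ E₂) ≤
            d * (1 + 1 / D) ^ (d + 1) * wt r s S E := by
          calc (d : ℝ) * (1 + 1 / D) ^ d * (wt r s S₁ E₁ + wt r s S₂ E₂) ≤
              d * (1 + 1 / D) ^ d * ((1 + 1 / D) * wt r s S E) :=
                mul_le_mul_of_nonneg_left hSum (by positivity)
            _ = _ := by rw [pow_succ]; ring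
        have k2 : wt r s S E ≤ (1 + 1 / (D : ℝ)) ^ (d + 1) * wt r s S E := by
          have := one_le_pow₀ hq1 (n := d + 1)
          have := hwt0 S E
          nlinarith
        calc (l₁.length : ℝ) + l₂.length ≤
            1 + 1 + (d : ℝ) * (1 + 1 / D) ^ d * (wt r s S₁ E₁ + wt r s S₂ E₂) := by linarith
          _ ≤ 1 + wt r s S E + d * (1 + 1 / D) ^ (d + 1) * wt r s S E := by linarith
          _ ≤ 1 + ((d : ℝ) + 1) * (1 + 1 / D) ^ (d + 1) * wt r s S E := by
              have : ((d : ℝ) + 1) * (1 + 1 / D) ^ (d + 1) * wt r s S E =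
                d * (1 + 1 / D) ^ (d + 1) * wt r s S E +
                  (1 + 1 / (D : ℝ)) ^ (d + 1) * wt r s S E := by ring
              rw [this]
              linarith

/-- ends of intervals are entries -/
theorem Division.gap {rc : ℕ → ℕ} {S E : Finset ℕ} {l : List (Finset ℕ × Finset ℕ)}
    (H : Division rc S E l) (hE : ∀ t ∈ S, t + 1 ∉ S → t ∈ E) :
    ∀ p ∈ l, ∀ t ∈ p.1, t + 1 ∉ p.1 → t ∈ p.2 := by
  intro p hp t ht ht'
  by_cases h : t + 1 ∈ S
  · obtain ⟨p', hp', h1⟩ := H.cov _ h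
    rcases mem_union.1 ((H.cl p' hp') t h1).1 with h2 | h2
    · rcases H.disj p hp p' hp' with h3 | h3
      · subst h3
        exact absurd h1 ht'
      · exact (disjoint_left.1 h3 ht h2).elim
    · exact H.exp p' hp' p hp t h2 ht
  · exact H.old p hp t (hE t (H.sub p hp ht) h) ht

/-- **Division lemma**, with a bound for the depth. -/
theorem HSep.exists_division' {N : ℕ} {rc : ℕ → ℕ} {γ : ℝ} {K : ℕ} (h : HSep N rc γ K)
    (hγ : 0 ≤ γ) (hγ1 : γ ≤ 1) {r s : ℝ} (hs : 1 ≤ s) (hsr : s ≤ r) {D : ℕ} (hD : 12 ≤ D)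
    (hK : 10 * (D : ℝ) ^ 2 * K * r ^ γ ≤ s) {S E : Finset ℕ} (hSE : S ∪ E ⊆ range (N + 1))
    (hcl : Closed rc S E) (hN : 2 * ((N : ℝ) + 1) ≤ (4 / 3) ^ (D - 1)) :
    ∃ l : List (Finset ℕ × Finset ℕ), Division rc S E l ∧
      (∀ p ∈ l, ((p.1 ∪ p.2).card : ℝ) ≤ r ∧ (p.2.card : ℝ) ≤ s) ∧
      (l.length : ℝ) ≤ 1 + 3 * D * (((S ∪ E).card : ℝ) / r + E.card / s) := by
  have hs0 : 0 < s := by linarith
  have hr0 : 0 < r := by linarith
  have hD0 : (0 : ℝ) < D := by
    have : (12 : ℝ) ≤ D := by exact_mod_cast hD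
    linarith
  have hc : (S ∪ E).card ≤ N + 1 := by
    have := card_le_card hSE
    rwa [card_range] at this
  have hc' : ((S ∪ E).card : ℝ) ≤ N + 1 := by exact_mod_cast hc
  have hE' : (E.card : ℝ) ≤ N + 1 := by
    have : E.card ≤ (S ∪ E).card := card_le_card subset_union_right
    exact_mod_cast this.trans hc
  have hN0 : (0 : ℝ) ≤ N := by positivity
  obtain ⟨l, h1, h2, h3⟩ := h.exists_division hγ hγ1 hs0 hsr hD hK D S E hSE hcl (by
      refine hc'.trans ((by linarith : (N : ℝ) + 1 ≤ 2 * (N + 1)).trans (hN.trans ?_))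
      exact pow_le_pow_left₀ (by norm_num) (by norm_num) _) (by
      unfold wt
      have e1 : ((S ∪ E).card : ℝ) / r ≤ N + 1 := by
        rw [div_le_iff₀ hr0]
        nlinarith
      have e2 : (E.card : ℝ) / s ≤ N + 1 := by
        rw [div_le_iff₀ hs0]
        nlinarith
      have e3 : ((4 : ℝ) / 3) ^ (D - 1) ≤ (4 / 3) ^ D :=
        pow_le_pow_right₀ (by norm_num) (by omega)
      linarith)
  refine ⟨l, h1, h2, h3.trans ?_⟩
  have e0 : 0 ≤ ((S ∪ E).card : ℝ) / r + E.card / s := by positivity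
  have e1 : (1 + 1 / (D : ℝ)) ^ D ≤ 3 := by
    have e2 : (1 + 1 / (D : ℝ)) ^ D ≤ Real.exp 1 := by
      calc (1 + 1 / (D : ℝ)) ^ D ≤ (Real.exp (1 / D)) ^ D := by
            apply pow_le_pow_left₀ (by positivity)
            have := Real.add_one_le_exp (1 / (D : ℝ))
            linarith
        _ = Real.exp 1 := by
            rw [← Real.exp_nat_mul]
            congr 1
            field_simp
    have := Real.exp_one_lt_d9
    linarith
  unfold wt
  have e3 : (D : ℝ) * (1 + 1 / D) ^ D ≤ 3 * D := by nlinarith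
  have e4 := mul_le_mul_of_nonneg_right e3 e0
  linarith

end Pool.Agent.NUM
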