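import Pool.Agent.NUM.GList
import Pool.Agent.NUM.HDiv

/-!
# Honest lists from a division (theorem H(γ))
-/

set_option autoImplicit false

namespace Pool.Agent.NUM

open Finset

variable {A : Type}

/-- enumeration of a finite set -/
theorem exists_enumG (F : Finset ℕ) : ∃ f : ℕ → ℕ, (∀ i < F.card, f i ∈ F) ∧
    (∀ i j, i < j → j < F.card → f i < f j) ∧ (∀ x ∈ F, ∃ i < F.card, f i = x) := by
  have key : ∀ i (hi : i < F.card), (fun i => if h : i < F.card then
      F.orderEmbOfFin rfl ⟨i, h⟩ else 0) i = F.orderEmbOfFin rfl ⟨i, hi⟩ := fun i hi => dif_pos hi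
  refine ⟨fun i => if h : i < F.card then F.orderEmbOfFin rfl ⟨i, h⟩ else 0, ?_, ?_, ?_⟩
  · intro i hi
    rw [key i hi]
    exact F.orderEmbOfFin_mem rfl _
  · intro i j hij hj
    rw [key i (hij.trans hj), key j hj]
    exact (F.orderEmbOfFin rfl).strictMono (by simpa using hij)
  · intro x hx
    have h1 : x ∈ Set.range (F.orderEmbOfFin rfl) := by
      rw [F.range_orderEmbOfFin rfl]
      exact hx
    obtain ⟨i, hi⟩ := h1
    refine ⟨i, i.2, ?_⟩
    rw [key i i.2]
    exact hi

/-- the empty list -/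
def nilL (a : A) : Lst A where
  tm := fun i => i + 1
  st := fun _ => a
  lb := fun _ => 0
  off := fun _ => 1
  fin := fun _ => true

theorem nilL_pv (a : A) (i : ℕ) : (nilL a).pv i = i := by cases i <;> rfl

theorem trL_nil (H : HM A) (N : ℕ) (a : A) (w lim : ℕ) : TrL H N (nilL a) w lim := by
  refine ⟨⟨rfl, ?_, ?_, ?_⟩, ?_, ?_⟩
  · intro i _
    rw [nilL_pv]
    exact Nat.lt_succ_self i
  · intro i _ _
    exact ⟨by show (0 : ℕ) ≠ 1; decide, fun _ => rfl⟩
  · intro i _ h
    cases h
  · intro i _ h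
    cases h
  · intro i _ h
    cases h

/-- the numbers of the passes of the check: `off i` from the lengths of the own segments -/
def offs (tm pv : ℕ → ℕ) (own : ℕ → Bool) : ℕ → ℕ
  | 0 => 1
  | i + 1 => offs tm pv own i + 1 + (if own i = true then tm i - pv i else 0)

/-- the honest list of a region -/
theorem exists_honest (H : HM A) {N w lim : ℕ} {S E : Finset ℕ} (hS : S ⊆ range (N + 1))
    (hE : E ⊆ range (N + 1)) (hcl : Closed (fun n => H.idx (H.U n)) S E)
    (hgap : ∀ t ∈ S, t + 1 ∉ S → t ∈ E) (hw : E.card + 2 ≤ 2 ^ w)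
    (hlim : S.card + E.card + 3 ≤ lim) :
    ∃ C : Lst A, TrL H N C w lim ∧ (∀ i < 2 ^ w, C.tm i ≤ N + 2 ^ w + 1) ∧ (∀ i, C.lb i ≤ 1) ∧
      (∀ i, C.off i ≤ lim) ∧
      (∀ i < 2 ^ w, C.fin i = false → C.tm i ∈ E ∧ 0 < C.tm i ∧ C.st i = H.U (C.tm i) ∧
        (C.lb i = 1 ↔ C.tm i ∈ S)) ∧
      (∀ x ∈ E, 0 < x → ∃ i < 2 ^ w, C.fin i = false ∧ C.tm i = x) := by
  classical
  obtain ⟨F, hF⟩ : ∃ F, F = E.filter fun x => 0 < x := ⟨_, rfl⟩
  have memF : ∀ x, x ∈ F ↔ x ∈ E ∧ 0 < x := by
    intro x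
    rw [hF, mem_filter]
  obtain ⟨f, hf1, hf2, hf3⟩ := exists_enumG F
  obtain ⟨M, hM⟩ : ∃ M, M = F.card := ⟨_, rfl⟩
  rw [← hM] at hf1 hf2 hf3
  have hME : M ≤ E.card := by
    rw [hM, hF]
    exact card_filter_le _ _
  have hfN : ∀ i < M, f i ≤ N := by
    intro i hi
    have := mem_range.1 (hE ((memF _).1 (hf1 i hi)).1)
    omega
  have hf0 : ∀ i < M, 0 < f i := fun i hi => ((memF _).1 (hf1 i hi)).2
  let last : ℕ := if M = 0 then 0 else f (M - 1)
  have hlast : last ≤ N := by
    show (if M = 0 then 0 else f (M - 1)) ≤ N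
    split_ifs with h
    · exact Nat.zero_le _
    · exact hfN _ (by omega)
  let tm : ℕ → ℕ := fun i => if i < M then f i else last + (i - M + 1)
  have htm1 : ∀ i < M, tm i = f i := fun i hi => if_pos hi
  have htm2 : ∀ i, M ≤ i → tm i = last + (i - M + 1) := fun i hi => if_neg (by omega)
  let own : ℕ → Bool := fun i => decide (i < M ∧ f i ∈ S)
  have hown : ∀ i, own i = true ↔ i < M ∧ f i ∈ S := fun i => decide_eq_true_iff
  let pv : ℕ → ℕ := fun i => if i = 0 then 0 else tm (i - 1)
  let C : Lst A :=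
    { tm := tm
      st := fun i => if i < M then H.U (f i) else H.a0
      lb := fun i => if own i = true then 1 else 0
      off := fun i => offs tm pv own (min i M)
      fin := fun i => decide (M ≤ i) }
  have hCtm : ∀ i, C.tm i = tm i := fun _ => rfl
  have hClb : ∀ i, C.lb i = 1 ↔ own i = true := by
    intro i
    show (if own i = true then 1 else 0) = 1 ↔ _
    split_ifs with h <;> simp [h]
  have hCfin : ∀ i, C.fin i = false ↔ i < M := by
    intro i
    show decide (M ≤ i) = false ↔ _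
    rw [decide_eq_false_iff_not]
    omega
  have hCst : ∀ i < M, C.st i = H.U (f i) := fun i hi => if_pos hi
  have hpv0 : C.pv 0 = 0 := rfl
  have hpvs : ∀ i, C.pv (i + 1) = tm i := fun _ => rfl
  have hmatch : ∀ i, pv i = C.pv i := by
    intro i
    cases i with
    | zero => exact if_pos rfl
    | succ i => exact if_neg (Nat.succ_ne_zero i)
  have hsrt : ∀ i, C.pv i < tm i := by
    intro i
    cases i with
    | zero =>
      rw [hpv0]
      rcases Nat.eq_zero_or_pos M with h | h
      · rw [htm2 0 (by omega)]; omega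
      · rw [htm1 0 h]; exact hf0 0 h
    | succ i =>
      rw [hpvs]
      rcases Nat.lt_or_ge (i + 1) M with h | h
      · rw [htm1 i (by omega), htm1 (i + 1) h]
        exact hf2 _ _ (Nat.lt_succ_self i) h
      · rcases Nat.lt_or_ge i M with h' | h'
        · rw [htm1 i h', htm2 (i + 1) h]
          have : last = f (M - 1) := by
            show (if M = 0 then 0 else f (M - 1)) = _
            rw [if_neg (by omega)]
          rw [this, show M - 1 = i by omega]
          omega
        · rw [htm2 i h', htm2 (i + 1) h]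
          omega
  -- nothing between two consecutive entries
  have hbetween : ∀ i < M, ∀ t, C.pv i < t → t < tm i → t ∉ E := by
    intro i hi t h1 h2 h3
    have h0 : 0 < t := by omega
    obtain ⟨j, hj, hjt⟩ := hf3 t ((memF t).2 ⟨h3, h0⟩)
    rw [htm1 i hi] at h2
    have hji : j < i := by
      by_contra hcon
      rcases Nat.lt_or_ge i j with h | h
      · have := hf2 i j h hj
        omega
      · have : i = j := by omega
        subst this
        omega
    obtain ⟨i', rfl⟩ : ∃ i', i = i' + 1 := ⟨i - 1, by omega⟩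
    rw [hpvs, htm1 i' (by omega)] at h1
    rcases Nat.lt_or_ge j i' with h | h
    · have := hf2 j i' h (by omega)
      omega
    · have : j = i' := by omega
      subst this
      omega
  -- own segments are contained in `S`
  have hseg : ∀ i < M, f i ∈ S → ∀ t, C.pv i < t → t ≤ tm i → t ∈ S := by
    intro i hi hiS t h1 h2
    rw [htm1 i hi] at h2
    have key : ∀ d, f i - d > C.pv i → f i - d ∈ S := by
      intro d
      induction d with
      | zero => intro _; simpa using hiS
      | succ d ih =>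
        intro hd
        have h3 := ih (by omega)
        obtain ⟨v, hv⟩ : ∃ v, f i - d = v + 1 := ⟨f i - d - 1, by omega⟩
        rw [hv] at h3
        have h4 : f i - (d + 1) = v := by omega
        rw [h4]
        rcases mem_union.1 (hcl v h3).1 with h5 | h5
        · exact h5
        · exfalso
          refine hbetween i hi v (by omega) ?_ h5
          rw [htm1 i hi]
          omega
    have h3 := key (f i - t) (by omega)
    rwa [show f i - (f i - t) = t by omega] at h3
  have hup : ∀ i < M, ∀ t, C.pv i < t → t ≤ tm i → t ∈ S → f i ∈ S := by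
    intro i hi t h1 h2 ht
    rw [htm1 i hi] at h2
    have key : ∀ d, t + d ≤ f i → t + d ∈ S := by
      intro d
      induction d with
      | zero => intro _; simpa using ht
      | succ d ih =>
        intro hd
        have h3 := ih (by omega)
        by_contra hcon
        refine hbetween i hi (t + d) (by omega) (by rw [htm1 i hi]; omega) (hgap _ h3 hcon)
    have h3 := key (f i - t) (by omega)
    rwa [show t + (f i - t) = f i by omega] at h3
  -- offsets
  have hoffs : ∀ i ≤ M, offs tm pv own i ≤ 1 + i + (S.filter fun t => t ≤ C.pv i).card := by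
    intro i
    induction i with
    | zero => intro _; show 1 ≤ _; omega
    | succ i ih =>
      intro hi
      have h1 := ih (by omega)
      show offs tm pv own i + 1 + (if own i = true then tm i - pv i else 0) ≤ _
      rw [hmatch]
      have h2 : (S.filter fun t => t ≤ C.pv i).card ≤ (S.filter fun t => t ≤ C.pv (i + 1)).card := by
        apply card_le_card
        intro t ht
        simp only [mem_filter] at ht ⊢
        have := hsrt i
        rw [hpvs]
        exact ⟨ht.1, by omega⟩
      split_ifs with h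
      · have h3 := (hown i).1 h
        have h4 : (S.filter fun t => t ≤ C.pv i).card + (tm i - C.pv i) ≤
            (S.filter fun t => t ≤ C.pv (i + 1)).card := by
          have h5 : (Ioc (C.pv i) (tm i)).card = tm i - C.pv i := Nat.card_Ioc _ _
          rw [← h5, ← card_union_of_disjoint]
          · apply card_le_card
            intro t ht
            rw [mem_union, mem_filter, mem_Ioc] at ht
            rw [mem_filter, hpvs]
            have := hsrt i
            rcases ht with ht | ht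
            · exact ⟨ht.1, by omega⟩
            · exact ⟨hseg i h3.1 h3.2 t ht.1 ht.2, ht.2⟩
          · rw [disjoint_left]
            intro t ht ht'
            rw [mem_filter] at ht
            rw [mem_Ioc] at ht'
            omega
        omega
      · omega
  have hoffs' : ∀ i ≤ M, offs tm pv own i < lim := by
    intro i hi
    have h1 := hoffs i hi
    have h2 : (S.filter fun t => t ≤ C.pv i).card ≤ S.card := card_filter_le _ _
    omega
  have hMw : M + 1 < 2 ^ w := by omega
  refine ⟨C, ⟨⟨?_, ?_, ?_, ?_⟩, ?_, ?_⟩, ?_, ?_, ?_, ?_, ?_⟩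
  · -- off0
    show offs tm pv own (min 0 M) = 1
    rw [Nat.zero_min]
    rfl
  · intro i _
    exact hsrt i
  · intro i _ hfi
    have h1 : M ≤ i := by
      by_contra hcon
      have := (hCfin i).2 (by omega)
      rw [this] at hfi
      cases hfi
    refine ⟨?_, fun _ => ?_⟩
    · rw [Ne, hClb, hown]
      omega
    · show decide (M ≤ i + 1) = true
      exact decide_eq_true (by omega)
  · intro i _ hfi
    have h1 := (hCfin i).1 hfi
    refine ⟨by omega, ?_, ?_⟩
    · show offs tm pv own (min (i + 1) M) = offs tm pv own (min i M) + 1 + _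
      rw [min_eq_left (by omega : i + 1 ≤ M), min_eq_left h1.le]
      show offs tm pv own i + 1 + (if own i = true then tm i - pv i else 0) = _
      rw [hmatch]
      by_cases h : own i = true
      · rw [if_pos h, if_pos ((hClb i).2 h)]
      · rw [if_neg h, if_neg (fun h' => h ((hClb i).1 h'))]
    · show offs tm pv own (min (i + 1) M) < lim
      exact hoffs' _ (min_le_right _ _)
  · -- tru
    intro i _ hfi
    have h1 := (hCfin i).1 hfi
    refine ⟨?_, ?_⟩
    · rw [hCtm, htm1 i h1]
      exact hfN i h1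
    · rw [hCst i h1, hCtm, htm1 i h1]
  · -- clo
    intro i _ hfi hlb u hu1 hu2 h0 hle
    have h1 := (hCfin i).1 hfi
    have h2 := (hown i).1 ((hClb i).1 hlb)
    have h3 : u + 1 ∈ S := hseg i h1 h2.2 (u + 1) (by omega) hu2
    obtain ⟨τ, hτ⟩ : ∃ τ, τ = H.idx (H.U u) := ⟨_, rfl⟩
    have h4 : τ ∈ S ∪ E := by
      rw [hτ]
      exact (hcl u h3).2 hle
    rw [← hτ] at h0 hle ⊢
    -- the segment of `τ`
    have h5 : ∃ j, j ≤ i ∧ τ ≤ tm j := ⟨i, le_rfl, by
      have : u < tm i := hu2
      omega⟩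
    obtain ⟨j, ⟨hj1, hj2⟩, hj3⟩ : ∃ j, (j ≤ i ∧ τ ≤ tm j) ∧ ∀ j' < j, ¬ (j' ≤ i ∧ τ ≤ tm j') :=
      ⟨Nat.find h5, Nat.find_spec h5, fun j' hj' => Nat.find_min h5 hj'⟩
    have hj4 : C.pv j < τ := by
      cases j with
      | zero => rw [hpv0]; exact h0
      | succ j =>
        rw [hpvs]
        have := hj3 j (Nat.lt_succ_self j)
        omega
    have hjM : j < M := by omega
    refine ⟨j, hj1, hj4, hj2, ?_⟩
    rcases mem_union.1 h4 with h6 | h6
    · right
      exact (hClb j).2 ((hown j).2 ⟨hjM, hup j hjM τ hj4 hj2 h6⟩)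
    · left
      by_contra hcon
      exact hbetween j hjM τ hj4 (lt_of_le_of_ne hj2 hcon) h6
  · -- bounds
    intro i hi
    rw [hCtm]
    rcases Nat.lt_or_ge i M with h | h
    · rw [htm1 i h]
      have := hfN i h
      omega
    · rw [htm2 i h]
      omega
  · intro i
    show (if own i = true then 1 else 0) ≤ 1
    split_ifs <;> omega
  · intro i
    show offs tm pv own (min i M) ≤ lim
    exact (hoffs' _ (min_le_right _ _)).le
  · intro i _ hfi
    have h1 := (hCfin i).1 hfi
    rw [hCtm, htm1 i h1, hCst i h1, hClb, hown]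
    exact ⟨((memF _).1 (hf1 i h1)).1, hf0 i h1, rfl, ⟨fun h => h.2, fun h => ⟨h1, h⟩⟩⟩
  · intro x hx hx0
    obtain ⟨i, hi, hix⟩ := hf3 x ((memF x).2 ⟨hx, hx0⟩)
    refine ⟨i, by omega, (hCfin i).2 hi, ?_⟩
    rw [hCtm, htm1 i hi, hix]

/-- the region of a true list -/
theorem exists_region {H : HM A} {N w₁ lim₁ : ℕ} {R : Lst A} (h : TrL H N R w₁ lim₁) :
    ∃ S E : Finset ℕ, S ⊆ range (N + 1) ∧ E ⊆ range (N + 1) ∧
      Closed (fun n => H.idx (H.U n)) S E ∧ (∀ t ∈ S, t + 1 ∉ S → t ∈ E) ∧
      (S ∪ E).card ≤ lim₁ + 1 ∧ E.card ≤ 2 ^ w₁ ∧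
      (∀ t, t ∈ S ↔ ∃ i < 2 ^ w₁, R.fin i = false ∧ R.lb i = 1 ∧ R.pv i < t ∧ t ≤ R.tm i) ∧
      (∀ t, t ∈ E ↔ t = 0 ∨ ∃ i < 2 ^ w₁, R.fin i = false ∧ R.tm i = t) := by
  classical
  obtain ⟨S, hS⟩ : ∃ S, S = (range (N + 1)).filter fun t =>
    ∃ i < 2 ^ w₁, R.fin i = false ∧ R.lb i = 1 ∧ R.pv i < t ∧ t ≤ R.tm i := ⟨_, rfl⟩
  obtain ⟨E, hE⟩ : ∃ E, E = insert 0 (((range (2 ^ w₁)).filter fun i => R.fin i = false).image
    R.tm) := ⟨_, rfl⟩
  have hst := h.stat
  have memS : ∀ t, t ∈ S ↔ ∃ i < 2 ^ w₁, R.fin i = false ∧ R.lb i = 1 ∧ R.pv i < t ∧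
      t ≤ R.tm i := by
    intro t
    rw [hS, mem_filter, mem_range]
    constructor
    · exact fun h => h.2
    · rintro ⟨i, h1, h2, h3⟩
      have := (h.tru i h1 h2).1
      exact ⟨by omega, i, h1, h2, h3⟩
  have memE : ∀ t, t ∈ E ↔ t = 0 ∨ ∃ i < 2 ^ w₁, R.fin i = false ∧ R.tm i = t := by
    intro t
    rw [hE, mem_insert, mem_image]
    constructor
    · rintro (h1 | ⟨i, h1, h2⟩)
      · exact Or.inl h1
      · rw [mem_filter, mem_range] at h1
        exact Or.inr ⟨i, h1.1, h1.2, h2⟩
    · rintro (h1 | ⟨i, h1, h2, h3⟩)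
      · exact Or.inl h1
      · exact Or.inr ⟨i, mem_filter.2 ⟨mem_range.2 h1, h2⟩, h3⟩
  have hS1 : S ⊆ range (N + 1) := by
    rw [hS]
    exact filter_subset _ _
  have hE1 : E ⊆ range (N + 1) := by
    intro t ht
    rw [mem_range]
    rcases (memE t).1 ht with h1 | ⟨i, h1, h2, h3⟩
    · omega
    · have := (h.tru i h1 h2).1
      omega
  refine ⟨S, E, hS1, hE1, ?_, ?_, ?_, ?_, memS, memE⟩
  · -- closed
    intro t ht
    obtain ⟨i, h1, h2, h3, h4, h5⟩ := (memS _).1 ht
    refine ⟨?_, fun hle => ?_⟩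
    · rcases Nat.lt_or_ge (R.pv i) t with h6 | h6
      · exact mem_union_left _ ((memS t).2 ⟨i, h1, h2, h3, h6, by omega⟩)
      · have h7 : t = R.pv i := by omega
        apply mem_union_right
        rw [memE]
        cases i with
        | zero => exact Or.inl h7
        | succ i =>
          exact Or.inr ⟨i, by omega, hst.nfin (Nat.le_succ i) h1 h2, h7.symm⟩
    · rcases Nat.eq_zero_or_pos (H.idx (H.U t)) with h6 | h6
      · apply mem_union_right
        rw [memE]
        exact Or.inl h6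
      · obtain ⟨j, hj, h7, h8, h9⟩ := h.clo i h1 h2 h3 t (by omega) (by omega) h6 hle
        have hfj := hst.nfin hj h1 h2
        rcases h9 with h9 | h9
        · apply mem_union_right
          rw [memE]
          exact Or.inr ⟨j, by omega, hfj, h9.symm⟩
        · apply mem_union_left
          rw [memS]
          exact ⟨j, by omega, hfj, h9, h7, h8⟩
  · -- ends of segments
    intro t ht ht'
    obtain ⟨i, h1, h2, h3, h4, h5⟩ := (memS _).1 ht
    rw [memE]
    refine Or.inr ⟨i, h1, h2, ?_⟩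
    by_contra hcon
    exact ht' ((memS _).2 ⟨i, h1, h2, h3, by omega, by omega⟩)
  · -- number of states
    have key : ∀ i < 2 ^ w₁, (∀ j < i, R.fin j = false) →
        ((S ∪ E).filter fun t => t ≤ R.pv i).card ≤ R.off i := by
      intro i
      induction i with
      | zero =>
        intro _ _
        rw [hst.off0]
        have h1 : ((S ∪ E).filter fun t => t ≤ R.pv 0) ⊆ {0} := by
          intro t ht
          rw [mem_filter] at ht
          rw [mem_singleton]
          have : t ≤ 0 := ht.2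
          omega
        exact (card_le_card h1).trans (card_singleton _).le
      | succ i ih =>
        intro hi hf
        have h1 := ih (by omega) fun j hj => hf j (by omega)
        have hfi := hf i (Nat.lt_succ_self i)
        obtain ⟨-, h2, -⟩ := hst.run i (by omega) hfi
        have hpv : R.pv (i + 1) = R.tm i := rfl
        have hlt := hst.srt i (by omega)
        rw [h2, hpv]
        by_cases hl : R.lb i = 1
        · rw [if_pos hl]
          have h3 : ((S ∪ E).filter fun t => t ≤ R.tm i) ⊆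
              ((S ∪ E).filter fun t => t ≤ R.pv i) ∪ Ioc (R.pv i) (R.tm i) := by
            intro t ht
            rw [mem_filter] at ht
            rw [mem_union, mem_filter, mem_Ioc]
            rcases Nat.lt_or_ge (R.pv i) t with h | h
            · exact Or.inr ⟨h, ht.2⟩
            · exact Or.inl ⟨ht.1, h⟩
          have h4 := (card_le_card h3).trans (card_union_le _ _)
          rw [Nat.card_Ioc] at h4
          omega
        · rw [if_neg hl]
          have h3 : ((S ∪ E).filter fun t => t ≤ R.tm i) ⊆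
              ((S ∪ E).filter fun t => t ≤ R.pv i) ∪ {R.tm i} := by
            intro t ht
            rw [mem_filter] at ht
            rw [mem_union, mem_filter, mem_singleton]
            rcases Nat.lt_or_ge (R.pv i) t with h | h
            · right
              rcases mem_union.1 ht.1 with h5 | h5
              · exfalso
                obtain ⟨j, g1, g2, g3, g4, g5⟩ := (memS _).1 h5
                rcases Nat.lt_trichotomy i j with h6 | h6 | h6
                · have := hst.tm_le_pv h6 g1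
                  omega
                · subst h6
                  exact hl g3
                · have := hst.tm_le_pv h6 (by omega)
                  omega
              · rcases (memE _).1 h5 with h5 | ⟨j, g1, g2, g3⟩
                · omega
                · rcases Nat.lt_trichotomy i j with h6 | h6 | h6
                  · have := hst.tm_lt h6 g1
                    omega
                  · subst h6
                    exact g3.symm
                  · have := hst.tm_le_pv h6 (by omega)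
                    omega
            · exact Or.inl ⟨ht.1, h⟩
          have h4 := (card_le_card h3).trans (card_union_le _ _)
          rw [card_singleton] at h4
          omega
    -- the first final entry
    have hp : 0 < 2 ^ w₁ := Nat.two_pow_pos _
    have hex : ∃ M, M < 2 ^ w₁ ∧ R.fin M = true := by
      refine ⟨2 ^ w₁ - 1, by omega, ?_⟩
      by_contra hcon
      have := (hst.run (2 ^ w₁ - 1) (by omega) (by simpa using hcon)).1
      omega
    obtain ⟨M, ⟨hM, hMf⟩, hMm⟩ : ∃ M, (M < 2 ^ w₁ ∧ R.fin M = true) ∧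
        ∀ j < M, ¬ (j < 2 ^ w₁ ∧ R.fin j = true) :=
      ⟨Nat.find hex, Nat.find_spec hex, fun j hj => Nat.find_min hex hj⟩
    have hlow : ∀ j < M, R.fin j = false := by
      intro j hj
      have := hMm j hj
      simp only [not_and, Bool.not_eq_true] at this
      exact this (by omega)
    have hMle : ∀ j < 2 ^ w₁, R.fin j = false → j < M := by
      intro j hj hfj
      by_contra hcon
      have := hst.fin_mono (show M ≤ j by omega) hj hMf
      rw [hfj] at this
      cases this
    have h1 := key M hM hlow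
    have h2 : ((S ∪ E).filter fun t => t ≤ R.pv M) = S ∪ E := by
      rw [filter_eq_self]
      intro t ht
      rcases mem_union.1 ht with h5 | h5
      · obtain ⟨j, g1, g2, g3, g4, g5⟩ := (memS _).1 h5
        have := hst.tm_le_pv (hMle j g1 g2) hM
        omega
      · rcases (memE _).1 h5 with h5 | ⟨j, g1, g2, g3⟩
        · omega
        · have := hst.tm_le_pv (hMle j g1 g2) hM
          omega
    rw [h2] at h1
    refine h1.trans ?_
    rcases Nat.eq_zero_or_pos M with h3 | h3
    · subst h3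
      rw [hst.off0]
      omega
    · obtain ⟨M', rfl⟩ : ∃ M', M = M' + 1 := ⟨M - 1, by omega⟩
      have := (hst.run M' (by omega) (hlow M' (Nat.lt_succ_self _))).2.2
      omega
  · -- number of entries
    have hp : 0 < 2 ^ w₁ := Nat.two_pow_pos _
    rw [hE]
    refine (card_insert_le _ _).trans ?_
    have h1 : (((range (2 ^ w₁)).filter fun i => R.fin i = false).image R.tm).card ≤
        (range (2 ^ w₁ - 1)).card := by
      refine card_image_le.trans (card_le_card ?_)
      intro i hi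
      rw [mem_filter, mem_range] at hi
      rw [mem_range]
      have := (hst.run i hi.1 hi.2).1
      omega
    rw [card_range] at h1
    omega

/-- **Honest children.** -/
theorem exists_children {H : HM A} {N : ℕ} {R : Lst A} {g : ℝ} {K r s D q w w₁ lim lim₁ : ℕ}
    (hS : HSep N (fun n => H.idx (H.U n)) g K) (hg : 0 ≤ g) (hg1 : g ≤ 1)
    (h : TrL H N R w₁ lim₁) (hs : 1 ≤ s) (hsr : s ≤ r) (hD : 12 ≤ D)
    (hK : 10 * (D : ℝ) ^ 2 * K * (r : ℝ) ^ g ≤ s)
    (hN : 2 * ((N : ℝ) + 1) ≤ (4 / 3) ^ (D - 1)) (hw : s + 2 ≤ 2 ^ w)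
    (hlim : r + s + 3 ≤ lim)
    (hq : 1 + 3 * (D : ℝ) * (((lim₁ : ℝ) + 1) / r + 2 ^ w₁ / s) ≤ 2 ^ q) :
    ∃ (C : ℕ → Lst A) (px : ℕ → ℕ → Bool) (pe pk pi : ℕ → ℕ → ℕ) (dk di : ℕ → ℕ),
      (∀ k, TrL H N (C k) w lim) ∧
      (∀ k, ∀ i < 2 ^ w, PtrOK q w₁ w R C k i (px k i) (pe k i) (pk k i) (pi k i)) ∧
      (∀ e < 2 ^ w₁, DirOK q w R C e (dk e) (di e)) ∧
      (∀ k, ∀ i < 2 ^ w, (C k).tm i ≤ N + 2 ^ w + 1) ∧ (∀ k i, (C k).lb i ≤ 1) ∧
      (∀ k i, (C k).off i ≤ lim) ∧ (∀ k i, pe k i < 2 ^ w₁ ∧ pk k i < 2 ^ q ∧ pi k i < 2 ^ w) ∧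
      (∀ e, dk e < 2 ^ q ∧ di e < 2 ^ w) := by
  classical
  obtain ⟨S, E, hSr, hEr, hcl, hgap, hc1, hc2, memS, memE⟩ := exists_region h
  obtain ⟨l, hdiv, hsz, hlen⟩ := hS.exists_division' hg hg1 (s := (s : ℝ)) (r := (r : ℝ))
    (by exact_mod_cast hs) (by exact_mod_cast hsr) hD hK (S := S) (E := E)
    (union_subset hSr hEr) hcl hN
  have hs0 : (0 : ℝ) < s := by exact_mod_cast hs
  have hr0 : (0 : ℝ) < r := by exact_mod_cast (lt_of_lt_of_le (by omega : 0 < s) hsr)
  have hlq : l.length ≤ 2 ^ q := by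
    have h1 : ((S ∪ E).card : ℝ) / r + E.card / s ≤ ((lim₁ : ℝ) + 1) / r + 2 ^ w₁ / s := by
      have e1 : ((S ∪ E).card : ℝ) ≤ (lim₁ : ℝ) + 1 := by exact_mod_cast hc1
      have e2 : (E.card : ℝ) ≤ 2 ^ w₁ := by exact_mod_cast hc2
      gcongr
    have h2 : (l.length : ℝ) ≤ 2 ^ q := by
      refine hlen.trans (le_trans ?_ hq)
      have : (0 : ℝ) ≤ 3 * D := by positivity
      have := mul_le_mul_of_nonneg_left h1 this
      linarith
    exact_mod_cast h2
  -- the list of every leaf
  have hleaf : ∀ k, ∃ C : Lst A, TrL H N C w lim ∧ (∀ i < 2 ^ w, C.tm i ≤ N + 2 ^ w + 1) ∧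
      (∀ i, C.lb i ≤ 1) ∧ (∀ i, C.off i ≤ lim) ∧
      (∀ i < 2 ^ w, C.fin i = false → ∃ hk : k < l.length, C.tm i ∈ (l[k]).2 ∧ 0 < C.tm i ∧
        C.st i = H.U (C.tm i) ∧ (C.lb i = 1 ↔ C.tm i ∈ (l[k]).1)) ∧
      (∀ hk : k < l.length, ∀ x ∈ (l[k]).2, 0 < x → ∃ i < 2 ^ w, C.fin i = false ∧
        C.tm i = x) := by
    intro k
    by_cases hk : k < l.length
    · obtain ⟨p, hp⟩ : ∃ p, p = l[k] := ⟨_, rfl⟩
      have hpl : p ∈ l := by rw [hp]; exact List.getElem_mem hk
      have h1 := hsz p hpl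
      have e1 : (p.1 ∪ p.2).card ≤ r := by exact_mod_cast h1.1
      have e2 : p.2.card ≤ s := by exact_mod_cast h1.2
      have e3 : p.1.card ≤ r := (card_le_card subset_union_left).trans e1
      obtain ⟨C, g1, g2, g3, g4, g5, g6⟩ := exists_honest H (w := w) (lim := lim)
        ((hdiv.sub p hpl).trans hSr) ((hdiv.ent p hpl).trans (union_subset hSr hEr))
        (hdiv.cl p hpl) (hdiv.gap hgap p hpl) (by omega) (by omega)
      refine ⟨C, g1, g2, g3, g4, fun i hi hf => ⟨hk, ?_⟩, fun _ => ?_⟩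
      · rw [← hp]
        exact g5 i hi hf
      · rw [← hp]
        exact g6
    · refine ⟨nilL H.a0, trL_nil _ _ _ _ _, fun i hi => ?_, fun i => ?_, fun i => ?_,
        fun i _ hf => ?_, fun h => absurd h hk⟩
      · show i + 1 ≤ _
        omega
      · show 0 ≤ 1
        omega
      · show 1 ≤ lim
        omega
      · cases hf
  choose C c1 c2 c3 c4 c5 c6 using hleaf
  have c1' : ∀ k, LStat (C k) w lim := fun k => (c1 k).stat
  have hw0 : 0 < 2 ^ w := Nat.two_pow_pos _
  have hw1 : 0 < 2 ^ w₁ := Nat.two_pow_pos _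
  have hq0 : 0 < 2 ^ q := Nat.two_pow_pos _
  -- a state of `S` which is an entry of a leaf is an own entry of its leaf
  have hown : ∀ x ∈ S, 0 < x → (∃ p ∈ l, x ∈ p.2) ∨ x ∈ E → ∃ k < 2 ^ q, ∃ i < 2 ^ w,
      (C k).fin i = false ∧ (C k).lb i = 1 ∧ (C k).tm i = x ∧ (C k).st i = H.U x := by
    intro x hx hx0 hxe
    obtain ⟨p, hp, hxp⟩ := hdiv.cov x hx
    have hxp2 : x ∈ p.2 := by
      rcases hxe with ⟨p', hp', hxp'⟩ | hxE
      · exact hdiv.exp p' hp' p hp x hxp' hxp
      · exact hdiv.old p hp x hxE hxp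
    obtain ⟨k, hk, rfl⟩ := List.getElem_of_mem hp
    obtain ⟨i, hi, h1, h2⟩ := c6 k hk x hxp2 hx0
    obtain ⟨hk', h3, h4, h5, h6⟩ := c5 k i hi h1
    refine ⟨k, by omega, i, hi, h1, ?_, h2, ?_⟩
    · rw [h6, h2]
      exact hxp
    · rw [h5, h2]
  have hptr : ∀ k i, ∃ (x : Bool) (e k' i' : ℕ), (i < 2 ^ w → PtrOK q w₁ w R C k i x e k' i') ∧
      e < 2 ^ w₁ ∧ k' < 2 ^ q ∧ i' < 2 ^ w := by
    intro k i
    by_cases hki : i < 2 ^ w ∧ (C k).fin i = false ∧ (C k).lb i ≠ 1
    · obtain ⟨hi, hf, hl⟩ := hki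
      obtain ⟨hk', h3, h4, h5, h6⟩ := c5 k i hi hf
      have hmem : (l[k]) ∈ l := List.getElem_mem hk'
      rcases mem_union.1 (hdiv.ent _ hmem h3) with h7 | h7
      · obtain ⟨k', hk'q, i', hi', g1, g2, g3, g4⟩ := hown _ h7 h4 (Or.inl ⟨_, hmem, h3⟩)
        refine ⟨false, 0, k', i', fun _ _ _ => ?_, hw1, hk'q, hi'⟩
        rw [if_neg (by decide)]
        exact ⟨hk'q, hi', g1, g2, g3, by rw [g4, h5]⟩
      · rcases (memE _).1 h7 with h8 | ⟨e, he, hfe, hte⟩
        · omega
        · refine ⟨true, e, 0, 0, fun _ _ _ => ?_, he, hq0, hw0⟩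
          rw [if_pos rfl]
          exact ⟨he, hfe, hte, by rw [(h.tru e he hfe).2, h5, hte]⟩
    · exact ⟨true, 0, 0, 0, fun hi h1 h2 => absurd ⟨hi, h1, h2⟩ hki, hw1, hq0, hw0⟩
  have hdir : ∀ e, ∃ (k i : ℕ), (e < 2 ^ w₁ → DirOK q w R C e k i) ∧ k < 2 ^ q ∧ i < 2 ^ w := by
    intro e
    by_cases he : e < 2 ^ w₁ ∧ R.fin e = false ∧ R.lb e = 1
    · obtain ⟨he, hf, hl⟩ := he
      have hlt := h.stat.srt e he
      have hx : R.tm e ∈ S := (memS _).2 ⟨e, he, hf, hl, hlt, le_rfl⟩
      have hxE : R.tm e ∈ E := (memE _).2 (Or.inr ⟨e, he, hf, rfl⟩)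
      obtain ⟨k, hk, i, hi, g1, g2, g3, g4⟩ := hown _ hx (by omega) (Or.inr hxE)
      refine ⟨k, i, fun _ _ _ => ⟨hk, hi, g1, g2, g3, ?_⟩, hk, hi⟩
      rw [g4, (h.tru e he hf).2]
    · exact ⟨0, 0, fun h0 h1 h2 => absurd ⟨h0, h1, h2⟩ he, hq0, hw0⟩
  choose px pe pk pi hp1 hp2 hp3 hp4 using hptr
  choose dk di hd1 hd2 hd3 using hdir
  exact ⟨C, px, pe, pk, pi, dk, di, c1, fun k i hi => hp1 k i hi, fun e he => hd1 e he, c2, c3, c4,
    fun k i => ⟨hp2 k i, hp3 k i, hp4 k i⟩, fun e => ⟨hd2 e, hd3 e⟩⟩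

end Pool.Agent.NUM
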