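import Pool.Agent.NUM.GDef
import Pool.Agent.NUM.GStr
import Pool.Agent.NUM.GNeg
import Pool.Agent.NUM.GSplitB
import Pool.Agent.NUM.GSplitT
import Pool.Agent.NUM.GPar1

/-!
# Theorem H(γ): the systems of lists, on strings
-/

set_option autoImplicit false

namespace Pool.Agent.NUM

section

variable {p : GPar}

/-- **a true parent list**: there is a string with true children and right pointers -/
theorem sys_true (hp : p.Ok) {H : HM (Fin p.h → Bool)} {N : ℕ} {R : Lst (Fin p.h → Bool)}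
    {g : ℝ} {K r s D : ℕ} (hS : HSep N (fun n => H.idx (H.U n)) g K) (hg : 0 ≤ g) (hg1 : g ≤ 1)
    (h : TrL H N R p.w₁ p.lim₁) (hs : 1 ≤ s) (hsr : s ≤ r) (hD : 12 ≤ D)
    (hK : 10 * (D : ℝ) ^ 2 * K * (r : ℝ) ^ g ≤ s)
    (hN : 2 * ((N : ℝ) + 1) ≤ (4 / 3) ^ (D - 1)) (hw : s + 2 ≤ 2 ^ p.w)
    (hlim : r + s + 3 ≤ p.lim)
    (hq : 1 + 3 * (D : ℝ) * (((p.lim₁ : ℝ) + 1) / r + 2 ^ p.w₁ / s) ≤ 2 ^ p.q)
    (hb : N + 2 ^ p.w + 1 < 2 ^ p.b)
    (hR : ∀ e < 2 ^ p.w₁, R.tm e < 2 ^ p.b ∧ R.lb e < 2 ^ p.w₁ ∧ R.off e < 2 ^ p.b)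
    {i j : ℕ} (hi : i < 2 ^ p.w₁) (hj : j < 2 ^ p.w₁) :
    ∃ y : Inp, LEq p.w₁ (gR p y) R ∧ gi p y = i ∧ gj p y = j ∧
      ∀ v : Inp, SCom p y (vk p v) (vi p v) (ve p v) ∧
        TrL H N (gC p y (vk p v)) p.w p.lim := by
  have h2w : 2 ≤ 2 ^ p.w := by omega
  obtain ⟨C, px, pe, pk, pi, dk, di, hC, hP, hDr, htm, hlb, hoff, hpb, hdb⟩ :=
    exists_children hS hg hg1 h hs hsr hD hK hN hw hlim hq
  obtain ⟨y, h1, h2, h3, h4, h5, h6⟩ := exists_gy hp R C px pe pk pi dk di i j hR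
    (fun k _ i hi => ⟨(htm k i hi).trans_lt hb, by have := hlb k i; omega,
      (hoff k i).trans_lt hp.limb⟩)
    (fun k _ i _ => hpb k i) (fun e _ => hdb e) hi hj
  refine ⟨y, h1, h5, h6, fun v => ?_⟩
  have hk := vk_lt p v
  have hi' := vi_lt p v
  have he := ve_lt p v
  have hTr : TrL H N (gC p y (vk p v)) p.w p.lim := (h2 _ hk).trL (hC _)
  refine ⟨⟨?_, ?_, ?_, ?_⟩, hTr⟩
  · exact lstat_iff.1 hTr.stat _ hi'
  · exact lstat_iff.1 (h1.stat h.stat) _ he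
  · obtain ⟨e1, e2, e3, e4⟩ := h3 _ hk _ hi'
    rw [e1, e2, e3, e4]
    exact ptrOK_congr h1 h2 hk hi' (hP _ _ hi')
  · obtain ⟨e1, e2⟩ := h4 _ he
    rw [e1, e2]
    exact dirOK_congr h1 h2 he (hDr _ he)

/-- **right systems**: all static conditions -/
theorem sys_static (hp : p.Ok) {y : Inp} (h : ∀ v, SCom p y (vk p v) (vi p v) (ve p v)) :
    (∀ k < 2 ^ p.q, LStat (gC p y k) p.w p.lim) ∧ LStat (gR p y) p.w₁ p.lim₁ ∧
      (∀ k < 2 ^ p.q, ∀ i < 2 ^ p.w, PtrOK p.q p.w₁ p.w (gR p y) (gC p y) k i (gX p y k i)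
        (gE p y k i) (gK p y k i) (gI p y k i)) ∧
      ∀ e < 2 ^ p.w₁, DirOK p.q p.w (gR p y) (gC p y) e (gDk p y e) (gDi p y e) := by
  have key : ∀ k < 2 ^ p.q, ∀ i < 2 ^ p.w, ∀ e < 2 ^ p.w₁, SCom p y k i e := by
    intro k hk i hi e he
    obtain ⟨v, h1, h2, h3, -⟩ := exists_gv hp hk hi he fun _ => false
    have h4 := h v
    rwa [h1, h2, h3] at h4
  have h0q : 0 < 2 ^ p.q := by positivity
  have h0w : 0 < 2 ^ p.w := by positivity
  have h0w₁ : 0 < 2 ^ p.w₁ := by positivity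
  exact ⟨fun k hk => lstat_iff.2 fun i hi => (key k hk i hi 0 h0w₁).1,
    lstat_iff.2 fun e he => (key 0 h0q 0 h0w e he).2.1,
    fun k hk i hi => (key k hk i hi 0 h0w₁).2.2.1,
    fun e he => (key 0 h0q 0 h0w e he).2.2.2⟩

end

theorem gacc_eq {p : GPar} (h1 : 1 < p.h) (S : Fin p.h → Bool) : gacc p S = embM S 2 := by
  have h2 := embM_even S ⟨1, h1⟩
  unfold gacc
  rw [dif_pos h1]
  exact h2.symm

/-- **step, bad lists** -/
theorem step_bad {S : GSeq} (hS : S.Ok) {e r : ℝ} (_ : 0 ≤ r) (hre : r ≤ e) (he : e ≤ S.e₀)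
    {G : List Ins} {z : Inp} {L N : ℕ} (hD : DelRun S G z L N) {l : Inp}
    (h : BadS S G z L N e l) :
    ∃ y : Inp, ∀ v : Inp, SStep (S.p e r L) l y v ∧
      TrS S G z L N r (gRec (S.p e r L) y (vk (S.p e r L) v)) := by
  have hp := hS.par hre he L
  obtain ⟨d1, d2, d3, d4, d5, d6, d7⟩ := hS.dims r L
  obtain ⟨g1, g2, g3, g4, g5, g6, g7⟩ := hS.dims e L
  obtain ⟨t1, t2⟩ := hS.times (hre.trans he) hD.le
  obtain ⟨t3, t4⟩ := hS.times he hD.le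
  obtain ⟨R, i, j, hdf, hR, hRb⟩ := BadL.exists_df hD.flag (by omega) h
  have h2w : 2 ≤ 2 ^ S.w e L := by omega
  have hRb' : ∀ k < 2 ^ S.w e L, R.tm k < 2 ^ S.b L ∧ R.lb k < 2 ^ S.w e L ∧
      R.off k < 2 ^ S.b L := by
    intro k hk
    refine ⟨?_, ?_, ((hRb k).2.2).trans_lt t4⟩
    · have h5 := (hRb k).1
      omega
    · rcases (hRb k).2.1 with h5 | h5
      · omega
      · rw [h5]
        exact rdL_lb_lt _ _ _ _ _ _
  obtain ⟨y, h1, h2, h3, h4⟩ := sys_true (p := S.p e r L) hp hD.sep hS.γ0 hS.γ1.le hR d1 d2 d3 d4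
    (hS.depth hD.le) d5 d6 (hS.num e r L) t1 hRb' hdf.1 hdf.2.1
  refine ⟨y, fun v => ⟨⟨(h4 v).1, ?_⟩, (h4 v).2⟩⟩
  rw [h2, h3]
  have h5 : DfL (finHM (eval G z) (S.d L) (S.h L)) (gfl (S.p 0 0 L)) (S.w e L)
      (rdL (S.h L) (S.w e L) (S.b L) (S.σ L) l) (gR (S.p e r L) y) i j :=
    (LEq.refl _ _).dfL h1 hdf
  exact dfL_iff.1 h5 _ (ve_lt (S.p e r L) v)

/-- **step, true lists** -/
theorem step_true {S : GSeq} (hS : S.Ok) {e r : ℝ} (_ : 0 ≤ r) (hre : r ≤ e) (he : e ≤ S.e₀)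
    {G : List Ins} {z : Inp} {L N : ℕ} (hD : DelRun S G z L N) {l : Inp}
    (h : TrS S G z L N e l) (y : Inp) :
    (∃ v : Inp, ¬ SStep (S.p e r L) l y v) ∨
      ∃ k < 2 ^ S.q e r L, BadS S G z L N r (gRec (S.p e r L) y k) := by
  by_cases hall : ∀ v : Inp, SStep (S.p e r L) l y v
  · right
    have hp := hS.par hre he L
    obtain ⟨h1, h2, h3, h4⟩ := sys_static hp fun v => (hall v).1
    have h5 : DfL (finHM (eval G z) (S.d L) (S.h L)) (gfl (S.p 0 0 L)) (S.w e L)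
        (rdL (S.h L) (S.w e L) (S.b L) (S.σ L) l) (gR (S.p e r L) y) (gi (S.p e r L) y)
        (gj (S.p e r L) y) := by
      refine dfL_iff.2 fun e' he' => ?_
      obtain ⟨v, -, -, g3, -⟩ := exists_gv hp (k := 0) (i := 0) (by positivity) (by positivity)
        he' fun _ => false
      have h6 := (hall v).2
      rw [g3] at h6
      exact h6
    have h6 := TrL.bad_of_df hD.flag h h5 h2
    exact exists_bad_child h6 h1 _ _ _ _ _ _ h3 h4
  · left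
    push Not at hall
    exact hall

/-- **top, accepted inputs** -/
theorem top_yes {S : GSeq} (hS : S.Ok) {r : ℝ} (_ : 0 ≤ r) (hre : r ≤ S.e₀)
    {G : List Ins} {z : Inp} {L N : ℕ} (hD : DelRun S G z L N)
    (hacc : (finHM (eval G z) (S.d L) (S.h L)).acc
      ((finHM (eval G z) (S.d L) (S.h L)).U N) = true) :
    ∃ y : Inp, ∀ v : Inp, STop (S.p S.e₀ r L) y v ∧
      TrS S G z L N r (gRec (S.p S.e₀ r L) y (vk (S.p S.e₀ r L) v)) := by
  have hp := hS.par hre le_rfl L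
  obtain ⟨d1, d2, d3, d4, d5, d6, d7⟩ := hS.dims r L
  obtain ⟨g1, g2, g3, g4, g5, g6, g7⟩ := hS.dims S.e₀ L
  obtain ⟨t1, t2⟩ := hS.times hre hD.le
  obtain ⟨t3, t4⟩ := hS.times (le_refl S.e₀) hD.le
  have hacc' : gacc (S.p S.e₀ r L) ((finHM (eval G z) (S.d L) (S.h L)).U N) = true := by
    have h1 : 1 < S.h L := by
      unfold GSeq.h
      have : 1 ≤ (S.s L + 10) ^ 2 := Nat.one_le_pow _ _ (by omega)
      omega
    rw [gacc_eq (show 1 < (S.p S.e₀ r L).h from h1)]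
    exact hacc
  obtain ⟨R, hR, htop, hRb⟩ := exists_top (w := S.w S.e₀ L) (lim := S.lim S.e₀ L)
    (acc := gacc (S.p S.e₀ r L)) hD.flag hacc' hD.pos g7 (hS.top hD.le)
  have h2w : 2 ≤ 2 ^ S.w S.e₀ L := by omega
  have hRb' : ∀ k < 2 ^ S.w S.e₀ L, R.tm k < 2 ^ S.b L ∧ R.lb k < 2 ^ S.w S.e₀ L ∧
      R.off k < 2 ^ S.b L := by
    intro k hk
    obtain ⟨h5, h6, h7⟩ := hRb k
    exact ⟨by omega, by omega, h7.trans_lt t4⟩
  obtain ⟨y, h1, -, -, h4⟩ := sys_true (p := S.p S.e₀ r L) hp hD.sep hS.γ0 hS.γ1.le hR d1 d2 d3 d4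
    (hS.depth hD.le) d5 d6 (hS.num S.e₀ r L) t1 hRb' (i := 0) (j := 0)
    (by positivity) (by positivity)
  exact ⟨y, fun v => ⟨⟨(h4 v).1, h1.topL htop⟩, (h4 v).2⟩⟩

/-- **top, rejected inputs** -/
theorem top_no {S : GSeq} (hS : S.Ok) {r : ℝ} (_ : 0 ≤ r) (hre : r ≤ S.e₀)
    {G : List Ins} {z : Inp} {L N : ℕ} (hD : DelRun S G z L N)
    (hacc : (finHM (eval G z) (S.d L) (S.h L)).acc
      ((finHM (eval G z) (S.d L) (S.h L)).U N) = false) (y : Inp) :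
    (∃ v : Inp, ¬ STop (S.p S.e₀ r L) y v) ∨
      ∃ k < 2 ^ S.q S.e₀ r L, BadS S G z L N r (gRec (S.p S.e₀ r L) y k) := by
  by_cases hall : ∀ v : Inp, STop (S.p S.e₀ r L) y v
  · right
    have hp := hS.par hre le_rfl L
    obtain ⟨h1, h2, h3, h4⟩ := sys_static hp fun v => (hall v).1
    have hacc' : gacc (S.p S.e₀ r L) ((finHM (eval G z) (S.d L) (S.h L)).U N) = false := by
      have h1 : 1 < S.h L := by
        unfold GSeq.h
        have : 1 ≤ (S.s L + 10) ^ 2 := Nat.one_le_pow _ _ (by omega)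
        omega
      rw [gacc_eq (show 1 < (S.p S.e₀ r L).h from h1)]
      exact hacc
    have h6 : BadL (finHM (eval G z) (S.d L) (S.h L)) N (gR (S.p S.e₀ r L) y) (S.w S.e₀ L)
        (S.lim S.e₀ L) :=
      bad_of_top (fl := gfl (S.p 0 0 L)) (acc := gacc (S.p S.e₀ r L)) hD.flag hacc' h2
        (hall fun _ => false).2
    exact exists_bad_child h6 h1 _ _ _ _ _ _ h3 h4
  · left
    push Not at hall
    exact hall

end Pool.Agent.NUM
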