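import Pool.Agent.NUM.HBasic
import Pool.Agent.NUM.Trans

/-!
# Guards

`exists_guard`: a history program preceded by a test of the input (straight-line code): if the test
succeeds nothing changes, otherwise the program halts after one pass with the answer `false`.
-/

set_option autoImplicit false

namespace Pool.Agent.NUM

/-- the memory with `true` in cell `0` only -/
def stopMem : Mem := fun q => decide (q = 0)

/-- the memory with `true` in cell `0` and `a` in cell `2` -/
def stopMem' (a : Bool) : Mem := fun q => decide (q = 0) || (decide (q = 2) && a)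

/-- size of the guarded program: `s` size of the program, `N` size of the test -/
def guardSz (s N : ℕ) : ℕ := s * (2 * N + 20 * s + 60) + 1 + s

theorem tr_const (b : ℕ) (W : Mem) : Tr b (b * 11 + 1) (fun _ _ => W) :=
  Tr.ofCp (s := 8) fun q _ => Cp.const b (W q)

/-- the guarded step function -/
def guardF (G : List Ins) (g : Inp → Bool) (z : Inp) (M : Mem) : Mem :=
  bif g z then eval G z M else stopMem

/-- **Guard.** -/
theorem exists_guard {G : List Ins} {s d N : ℕ} (hG : HSz s d G) (hs : 3 ≤ s) {g : Inp → Bool}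
    (hg : Cp s N (fun z _ => g z)) :
    ∃ G' : List Ins, HSz (guardSz s N) d G' ∧
      (∀ z, g z = true →
        (∀ n, EvAgr s (sta (eval G' z) d n) (sta (eval G z) d n)) ∧
        (∀ n, HaltsAt (eval G' z) d n ↔ HaltsAt (eval G z) d n) ∧
        (∀ T b, HAns (eval G' z) d T b ↔ HAns (eval G z) d T b) ∧
        (rcl (eval G' z) d = rcl (eval G z) d)) ∧
      (∀ z, g z = false →
        HaltsAt (eval G' z) d 1 ∧ (∀ N', HaltsAt (eval G' z) d N' → N' = 1) ∧
        (∀ T, 1 ≤ T → HAns (eval G' z) d T false) ∧ (∀ T, ¬ HAns (eval G' z) d T true) ∧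
        (∀ n, rcl (eval G' z) d n = 0)) := by
  have h1 : Tr s (s * (2 * N + s + (s * 11 + 1) + 8 * s + 42) + 1) (guardF G g) :=
    (Tr.ite hg (Tr.pass hG.1) (tr_const s stopMem)).congr fun z M => Agr.refl _ _
  obtain ⟨G', hG', h2⟩ := h1.exists_code
  have hsz : HSz (guardSz s N) d G' := by
    refine ⟨hG'.mono ?_, ?_⟩
    · unfold guardSz
      nlinarith
    · have := hG.2
      unfold guardSz
      omega
  refine ⟨G', hsz, fun z hz => ?_, fun z hz => ?_⟩
  · have hfg : ∀ M M', Agr s M M' → EvAgr s (eval G' z M) (eval G z M') := fun M M' hM => by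
      have := h2 z M M' hM
      unfold guardF at this
      rw [hz] at this
      exact this.ev
    have hgf : ∀ M M', Agr s M M' → EvAgr s (eval G z M) (eval G' z M') := fun M M' hM =>
      (hfg M' M hM.symm).symm
    refine ⟨sta_transfer hG.2 hfg, fun n => ⟨?_, ?_⟩, fun T b => ⟨?_, ?_⟩,
      funext fun n => rcl_transfer hG.2 hfg n⟩
    · exact fun h => h.transfer (by omega) hG.2 hfg
    · exact fun h => h.transfer (by omega) hG.2 hgf
    · exact fun h => h.transfer hs hG.2 hfg
    · exact fun h => h.transfer hs hG.2 hgf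
  · have hfg : ∀ M, EvAgr s (eval G' z M) stopMem := fun M => by
      have := h2 z M M (Agr.refl _ _)
      unfold guardF at this
      rw [hz] at this
      exact this.ev
    have hst : ∀ n, EvAgr s (sta (eval G' z) d (n + 1)) stopMem := fun n => by
      rw [sta_succ']
      exact hfg _
    have hH : HaltsAt (eval G' z) d 1 := by
      refine ⟨?_, fun n hn => ?_⟩
      · rw [hst 0 0 (by omega) rfl]
        rfl
      · obtain rfl : n = 0 := by omega
        rfl
    have h2c : sta (eval G' z) d 1 2 = false := by
      rw [hst 0 2 (by omega) rfl]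
      rfl
    refine ⟨hH, fun N' hN' => hN'.unique hH, fun T hT => ⟨1, hT, hH, h2c⟩, fun T hT => ?_,
      fun n => ?_⟩
    · obtain ⟨_, h3⟩ := hT.of_haltsAt hH
      rw [h2c] at h3
      cases h3
    · cases n with
      | zero => exact ptr_zeroMem d
      | succ n =>
        unfold rcl
        rw [ptr_agr hG.2 (hst n)]
        unfold ptr
        refine Finset.sum_eq_zero fun r _ => ?_
        rw [if_neg]
        simp [stopMem]

/-- the guarded step function with answer `a` -/
def guardF' (G : List Ins) (g : Inp → Bool) (a : Bool) (z : Inp) (M : Mem) : Mem :=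
  bif g z then eval G z M else stopMem' a

/-- **Guard** with the answer `a`. -/
theorem exists_guard' {G : List Ins} {s d N : ℕ} (hG : HSz s d G) (hs : 3 ≤ s) {g : Inp → Bool}
    (hg : Cp s N (fun z _ => g z)) (a : Bool) :
    ∃ G' : List Ins, HSz (guardSz s N) d G' ∧
      (∀ z, g z = true →
        (∀ n, EvAgr s (sta (eval G' z) d n) (sta (eval G z) d n)) ∧
        (∀ n, HaltsAt (eval G' z) d n ↔ HaltsAt (eval G z) d n) ∧
        (∀ T b, HAns (eval G' z) d T b ↔ HAns (eval G z) d T b) ∧
        (rcl (eval G' z) d = rcl (eval G z) d)) ∧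
      (∀ z, g z = false →
        HaltsAt (eval G' z) d 1 ∧ (∀ N', HaltsAt (eval G' z) d N' → N' = 1) ∧
        (∀ T, 1 ≤ T → HAns (eval G' z) d T a) ∧ (∀ T, ¬ HAns (eval G' z) d T (!a)) ∧
        (∀ n, rcl (eval G' z) d n = 0)) := by
  have h1 : Tr s (s * (2 * N + s + (s * 11 + 1) + 8 * s + 42) + 1) (guardF' G g a) :=
    (Tr.ite hg (Tr.pass hG.1) (tr_const s (stopMem' a))).congr fun z M => Agr.refl _ _
  obtain ⟨G', hG', h2⟩ := h1.exists_code
  have hsz : HSz (guardSz s N) d G' := by
    refine ⟨hG'.mono ?_, ?_⟩
    · unfold guardSz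
      nlinarith
    · have := hG.2
      unfold guardSz
      omega
  refine ⟨G', hsz, fun z hz => ?_, fun z hz => ?_⟩
  · have hfg : ∀ M M', Agr s M M' → EvAgr s (eval G' z M) (eval G z M') := fun M M' hM => by
      have := h2 z M M' hM
      unfold guardF' at this
      rw [hz] at this
      exact this.ev
    have hgf : ∀ M M', Agr s M M' → EvAgr s (eval G z M) (eval G' z M') := fun M M' hM =>
      (hfg M' M hM.symm).symm
    refine ⟨sta_transfer hG.2 hfg, fun n => ⟨?_, ?_⟩, fun T b => ⟨?_, ?_⟩,
      funext fun n => rcl_transfer hG.2 hfg n⟩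
    · exact fun h => h.transfer (by omega) hG.2 hfg
    · exact fun h => h.transfer (by omega) hG.2 hgf
    · exact fun h => h.transfer hs hG.2 hfg
    · exact fun h => h.transfer hs hG.2 hgf
  · have hfg : ∀ M, EvAgr s (eval G' z M) (stopMem' a) := fun M => by
      have := h2 z M M (Agr.refl _ _)
      unfold guardF' at this
      rw [hz] at this
      exact this.ev
    have hst : ∀ n, EvAgr s (sta (eval G' z) d (n + 1)) (stopMem' a) := fun n => by
      rw [sta_succ']
      exact hfg _
    have hH : HaltsAt (eval G' z) d 1 := by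
      refine ⟨?_, fun n hn => ?_⟩
      · rw [hst 0 0 (by omega) rfl]
        simp [stopMem']
      · obtain rfl : n = 0 := by omega
        rfl
    have h2c : sta (eval G' z) d 1 2 = a := by
      rw [hst 0 2 (by omega) rfl]
      simp [stopMem']
    refine ⟨hH, fun N' hN' => hN'.unique hH, fun T hT => ⟨1, hT, hH, h2c⟩, fun T hT => ?_,
      fun n => ?_⟩
    · obtain ⟨_, h3⟩ := hT.of_haltsAt hH
      rw [h2c] at h3
      cases a <;> cases h3
    · cases n with
      | zero => exact ptr_zeroMem d
      | succ n =>
        unfold rcl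
        rw [ptr_agr hG.2 (hst n)]
        unfold ptr
        refine Finset.sum_eq_zero fun r _ => ?_
        rw [if_neg]
        simp [stopMem']

end Pool.Agent.NUM
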