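import Pool.Agent.NUM.GRead
import Pool.Agent.NUM.HClosure
import Pool.Agent.NUM.HGuard

/-!
# Theorem H(γ): the program of the refuter (virtual input and guard)
-/

set_option autoImplicit false

namespace Pool.Agent.NUM

open Filter

/-! ## a guarded family -/

/-- the family preceded by a test of the input; if the test fails the answer is `true` -/
theorem InH.guard {T : Type} {π : Pres T} {P : T → Prop} {e : ℝ} (h : InH π P e) (he : 0 ≤ e)
    {N : ℕ → ℕ} (hN : SubExp N) {f : ℕ → Inp → Bool}
    (hf : ∀ L, Cp 0 (N L) (fun z _ => f L z)) :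
    InH π (fun τ => f (π.idx τ) (π.inp τ) = false ∨ P τ) e := by
  obtain ⟨G, s, t, d, L₀, h1, h2, h3, h4, h5⟩ := InG.sz3 h
  have hf' : ∀ L, Cp (s L) (N L) (fun z _ => f L z) := fun L =>
    (hf L).mono (Nat.zero_le _) le_rfl
  choose G' hG' hyes hno using fun L => exists_guard' (h4 L) (h3 L) (hf' L) true
  refine ⟨G', fun L => guardSz (s L) (N L), fun L => t L + 1, d, L₀, ?_, ?_, hG', fun τ hτ =>
    ⟨?_, fun _ _ _ => trivial⟩⟩
  · refine ex_zero_iff.2 ?_
    unfold guardSz
    exact ((h1.mul ((((SubExp.const 2).mul hN).add ((SubExp.const 20).mul h1)).add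
      (SubExp.const 60))).add (SubExp.const 1)).add h1
  · refine ex_iff.2 ?_
    have h6 : ExpLe e (fun _ => 1) :=
      (subExp_iff.1 (SubExp.const 1)).mono he
    exact h2.add h6
  · by_cases hz : f (π.idx τ) (π.inp τ) = true
    · obtain ⟨b, hb, hbP⟩ := (h5 τ hτ).1
      refine ⟨b, ((hyes (π.idx τ) (π.inp τ) hz).2.2.1 _ _).2 (hb.mono (Nat.le_succ _)), ?_⟩
      show b = true ↔ (f (π.idx τ) (π.inp τ) = false ∨ P τ)
      rw [hbP, hz]
      simp
    · have hz' : f (π.idx τ) (π.inp τ) = false := by simpa using hz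
      refine ⟨true, (hno (π.idx τ) (π.inp τ) hz').2.2.1 _ (Nat.le_add_left _ _), ?_⟩
      simp [hz']

/-! ## truncated strings -/

theorem vk_trc {p : GPar} {m : ℕ} (hm : vLen p ≤ m) (v : Inp) : vk p (trc m v) = vk p v := by
  refine num_congr fun r _ => ?_
  show trc m v _ = _
  rw [trc, if_pos]
  simp only [List.length_cons, List.length_append, length_bits]
  unfold vLen at hm
  omega

theorem vi_trc {p : GPar} {m : ℕ} (hm : vLen p ≤ m) (v : Inp) : vi p (trc m v) = vi p v := by
  refine num_congr fun r _ => ?_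
  show trc m v _ = _
  rw [trc, if_pos]
  simp only [List.length_cons, List.length_append, length_bits]
  unfold vLen at hm
  omega

theorem ve_trc {p : GPar} {m : ℕ} (hm : vLen p ≤ m) (v : Inp) : ve p (trc m v) = ve p v := by
  refine num_congr fun r _ => ?_
  show trc m v _ = _
  rw [trc, if_pos]
  simp only [List.length_cons, List.length_append, length_bits]
  unfold vLen at hm
  omega

theorem sStep_trc {p : GPar} {m : ℕ} (hm : vLen p ≤ m) (l y v : Inp) :
    SStep p l y (trc m v) ↔ SStep p l y v := by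
  unfold SStep SCom
  rw [vk_trc hm, vi_trc hm, ve_trc hm]

theorem sTop_trc {p : GPar} {m : ℕ} (hm : vLen p ≤ m) (y v : Inp) :
    STop p y (trc m v) ↔ STop p y v := by
  unfold STop SCom
  rw [vk_trc hm, vi_trc hm, ve_trc hm]

/-! ## the virtual input -/

/-- the part of the virtual input with the record: `Y` and `V` are the addresses of `y` and `v` -/
theorem locF_gRec (p : ℕ → GPar) (hX : SubExp fun L => (p L).X) (Y V : List Bool) :
    LocF (fun L z => trc (hLen (p L).w (p L).σ) fun a =>
      z ((Y ++ [true, false]) ++ ((List.range (p L).q).map (fun r =>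
        z (V ++ (false :: (bits 2 0 ++ bits (p L).σ r)))) ++ a))) := by
  have hq : SubExp fun L => (p L).q :=
    hX.mono' (Eventually.of_forall fun L => by unfold GPar.X; omega)
  have hσ : SubExp fun L => (p L).σ :=
    hX.mono' (Eventually.of_forall fun L => by unfold GPar.X; omega)
  refine LocF.trc ?_ _
  have h1 : LocF (fun (_ : ℕ) (z : Inp) (a : List Bool) => z ((Y ++ [true, false]) ++ a)) :=
    LocF.shift (Y ++ [true, false]) LocF.id
  refine h1.pref hq (s := fun L => 12 * (V.length + 3 + (p L).σ) + 1)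
    (((SubExp.const 12).mul ((SubExp.const (V.length + 3)).add hσ)).add (SubExp.const 1)) ?_
  intro L r _
  refine (Cp.askConst 0 _).mono le_rfl ?_
  simp only [List.length_append, List.length_cons, length_bits]
  omega

/-- the record in the truncated strings -/
theorem gRec_eq {p : GPar} {m : ℕ} (hm : vLen p ≤ m) {y v z : Inp} {Y V : List Bool}
    (hy : ∀ a, z (Y ++ a) = trc (gLen p) y a) (hv : ∀ a, z (V ++ a) = trc m v a) :
    (trc (hLen p.w p.σ) fun a =>
      z ((Y ++ [true, false]) ++ ((List.range p.q).map (fun r =>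
        z (V ++ (false :: (bits 2 0 ++ bits p.σ r)))) ++ a))) =
    trc (hLen p.w p.σ) (gRec p y (vk p v)) := by
  have hk : (List.range p.q).map (fun r => z (V ++ (false :: (bits 2 0 ++ bits p.σ r)))) =
      bits p.q (vk p v) := by
    unfold vk
    rw [bits_num]
    apply List.map_congr_left
    intro r _
    rw [hv, trc, if_pos]
    simp only [List.length_cons, List.length_append, length_bits]
    unfold vLen at hm
    omega
  rw [hk]
  funext a
  unfold trc
  by_cases ha : a.length ≤ hLen p.w p.σ
  · rw [if_pos ha, if_pos ha]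
    show z ((Y ++ [true, false]) ++ (bits p.q (vk p v) ++ a)) = _
    rw [List.append_assoc, hy, trc, if_pos]
    · rfl
    · simp only [List.length_cons, List.length_append, length_bits, List.length_nil]
      unfold hLen at ha
      unfold gLen
      have := le_max_left (p.q + p.w) p.w₁
      omega
  · rw [if_neg ha, if_neg ha]

/-- the rest of the string `v` -/
theorem vRest_eq {m β : ℕ} (hm : β + 1 ≤ m) {v z : Inp} {V : List Bool}
    (hv : ∀ a, z (V ++ a) = trc m v a) :
    (trc β fun a => z ((V ++ [true]) ++ a)) = trc β fun a => v (true :: a) := by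
  funext a
  unfold trc
  by_cases ha : a.length ≤ β
  · rw [if_pos ha, if_pos ha]
    show z ((V ++ [true]) ++ a) = _
    rw [List.append_assoc, hv, trc, if_pos]
    · rfl
    · simp only [List.length_cons, List.length_append, List.length_nil]
      omega
  · rw [if_neg ha, if_neg ha]

/-- **the refuter in the step** -/
theorem refute_step (hcode : GCodeOK) {T : Type} {π : Pres T} (p : ℕ → GPar)
    (hp : ∀ L, (p L).Ok) (hX : SubExp fun L => (p L).X) {β : ℕ → ℕ} {u e : ℝ} (hβ : Lin u β)
    {A : (T × Inp) × Inp → Prop} (he : 0 ≤ e)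
    (hA : InH ((π.ext fun L => hLen (p L).w (p L).σ).ext β) A e) :
    InH (((π.ext fun L => hLen (p L).w₁ (p L).σ).ext fun L => gLen (p L)).ext
      fun L => max (vLen (p L)) (β L + 1))
      (fun x => ¬ SStep (p (π.idx x.1.1.1)) x.1.1.2 x.1.2 x.2 ∨
        A ((x.1.1.1, gRec (p (π.idx x.1.1.1)) x.1.2 (vk (p (π.idx x.1.1.1)) x.2)),
          fun a => x.2 (true :: a))) e := by
  have _ := hβ
  choose f hf hfs using fun L => (hcode (p L) (hp L)).1
  have h1 : InH (((π.ext fun L => hLen (p L).w₁ (p L).σ).ext fun L => gLen (p L)).ext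
      fun L => max (vLen (p L)) (β L + 1))
      (fun x => A ((x.1.1.1, gRec (p (π.idx x.1.1.1)) x.1.2 (vk (p (π.idx x.1.1.1)) x.2)),
          fun a => x.2 (true :: a))) e := by
    refine InH.virt hA
      (f := fun x : ((T × Inp) × Inp) × Inp => ((x.1.1.1, gRec (p (π.idx x.1.1.1)) x.1.2 (vk (p (π.idx x.1.1.1)) x.2)),
          fun a => x.2 (true :: a))) (fun _ => rfl)
      (fun L z => pair (pair (fun a => z ([false, false, false] ++ a))
          (trc (hLen (p L).w (p L).σ) fun a =>
            z (([false, true] ++ [true, false]) ++ ((List.range (p L).q).map (fun r =>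
              z ([true] ++ (false :: (bits 2 0 ++ bits (p L).σ r)))) ++ a))))
        (trc (β L) fun a => z (([true] ++ [true]) ++ a)))
      (LocF.pair (LocF.pair (LocF.shift [false, false, false] LocF.id)
        (locF_gRec p hX [false, true] [true]))
        (LocF.trc (LocF.shift ([true] ++ [true]) LocF.id) β)) ⟨0, fun x _ => ?_⟩
    show pair (pair (π.inp x.1.1.1) (trc _ _)) (trc _ _) = _
    set z : Inp := (((π.ext fun L => hLen (p L).w₁ (p L).σ).ext fun L => gLen (p L)).ext
      fun L => max (vLen (p L)) (β L + 1)).inp x with hz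
    have hy : ∀ a, z ([false, true] ++ a) = trc (gLen (p (π.idx x.1.1.1))) x.1.2 a := fun a => rfl
    have hv : ∀ a, z ([true] ++ a) =
      trc (max (vLen (p (π.idx x.1.1.1))) (β (π.idx x.1.1.1) + 1)) x.2 a := fun a => rfl
    have e1 := gRec_eq (p := p (π.idx x.1.1.1)) (le_max_left _ _) hy hv
    have e2 := vRest_eq (β := β (π.idx x.1.1.1)) (le_max_right _ _) hv
    exact (congrArg₂ pair (congrArg₂ pair rfl e1) e2).symm
  refine (InG.congr (h1.guard he (hX.pow _) hf) fun x => ?_)
  refine or_congr ?_ Iff.rfl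
  have h2 := hfs (π.idx x.1.1.1) (π.inp x.1.1.1) x.1.1.2 x.1.2
    (trc (max (vLen (p (π.idx x.1.1.1))) (β (π.idx x.1.1.1) + 1)) x.2)
  rw [sStep_trc (le_max_left _ _)] at h2
  rw [← h2, Bool.not_eq_true]
  rfl

/-- **the refuter at the top** -/
theorem refute_top (hcode : GCodeOK) {T : Type} {π : Pres T} (p : ℕ → GPar)
    (hp : ∀ L, (p L).Ok) (hX : SubExp fun L => (p L).X) {β : ℕ → ℕ} {u e : ℝ} (hβ : Lin u β)
    {A : (T × Inp) × Inp → Prop} (he : 0 ≤ e)
    (hA : InH ((π.ext fun L => hLen (p L).w (p L).σ).ext β) A e) :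
    InH ((π.ext fun L => gLen (p L)).ext fun L => max (vLen (p L)) (β L + 1))
      (fun x => ¬ STop (p (π.idx x.1.1)) x.1.2 x.2 ∨
        A ((x.1.1, gRec (p (π.idx x.1.1)) x.1.2 (vk (p (π.idx x.1.1)) x.2)),
          fun a => x.2 (true :: a))) e := by
  have _ := hβ
  choose f hf hfs using fun L => (hcode (p L) (hp L)).2
  have h1 : InH ((π.ext fun L => gLen (p L)).ext fun L => max (vLen (p L)) (β L + 1))
      (fun x => A ((x.1.1, gRec (p (π.idx x.1.1)) x.1.2 (vk (p (π.idx x.1.1)) x.2)),
          fun a => x.2 (true :: a))) e := by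
    refine InH.virt hA
      (f := fun x : (T × Inp) × Inp => ((x.1.1, gRec (p (π.idx x.1.1)) x.1.2 (vk (p (π.idx x.1.1)) x.2)),
          fun a => x.2 (true :: a))) (fun _ => rfl)
      (fun L z => pair (pair (fun a => z ([false, false] ++ a))
          (trc (hLen (p L).w (p L).σ) fun a =>
            z (([false, true] ++ [true, false]) ++ ((List.range (p L).q).map (fun r =>
              z ([true] ++ (false :: (bits 2 0 ++ bits (p L).σ r)))) ++ a))))
        (trc (β L) fun a => z (([true] ++ [true]) ++ a)))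
      (LocF.pair (LocF.pair (LocF.shift [false, false] LocF.id)
        (locF_gRec p hX [false, true] [true]))
        (LocF.trc (LocF.shift ([true] ++ [true]) LocF.id) β)) ⟨0, fun x _ => ?_⟩
    show pair (pair (π.inp x.1.1) (trc _ _)) (trc _ _) = _
    set z : Inp := ((π.ext fun L => gLen (p L)).ext
      fun L => max (vLen (p L)) (β L + 1)).inp x with hz
    have hy : ∀ a, z ([false, true] ++ a) = trc (gLen (p (π.idx x.1.1))) x.1.2 a := fun a => rfl
    have hv : ∀ a, z ([true] ++ a) =
      trc (max (vLen (p (π.idx x.1.1))) (β (π.idx x.1.1) + 1)) x.2 a := fun a => rfl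
    have e1 := gRec_eq (p := p (π.idx x.1.1)) (le_max_left _ _) hy hv
    have e2 := vRest_eq (β := β (π.idx x.1.1)) (le_max_right _ _) hv
    exact (congrArg₂ pair (congrArg₂ pair rfl e1) e2).symm
  refine (InG.congr (h1.guard he (hX.pow _) hf) fun x => ?_)
  refine or_congr ?_ Iff.rfl
  have h2 := hfs (π.idx x.1.1) (π.inp x.1.1) x.1.2
    (trc (max (vLen (p (π.idx x.1.1))) (β (π.idx x.1.1) + 1)) x.2)
  rw [sTop_trc (le_max_left _ _)] at h2
  rw [← h2, Bool.not_eq_true]
  rfl

end Pool.Agent.NUM
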