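import Pool.Agent.NUM.GBase
import Pool.Agent.NUM.GStep
import Pool.Agent.NUM.GPar1
import Pool.Agent.NUM.GPar2
import Pool.Agent.NUM.GView
import Pool.Agent.NUM.GStr
import Pool.Agent.NUM.GCls
import Pool.Agent.NUM.GDelay

/-!
# Theorem H(γ): the families of list problems
-/

set_option autoImplicit false

namespace Pool.Agent.NUM

/-- the delayed program has the computation which is wanted by the calculus of lists -/
theorem delRun_of {S : GSeq} {G G' : List Ins} {z : Inp} {L N : ℕ}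
    (hG' : HSz (100 * (S.s L + 10) ^ 2) (S.d L) G')
    (hdel : (∀ m ≤ N, sta (eval G' z) (S.d L) m 0 = false ∧
        (sta (eval G' z) (S.d L) m (2 * S.c L) = true ↔ m = N) ∧
        sta (eval G' z) (S.d L) m 2 = sta (eval G z) (S.d L) m 2 ∧
        rcl (eval G' z) (S.d L) m = rcl (eval G z) (S.d L) m) ∧
      sta (eval G' z) (S.d L) (N + 1) 0 = true)
    (hc : 2 * S.c L + 1 ≤ 100 * (S.s L + 10) ^ 2)
    (hN : HaltsAt (eval G z) (S.d L) N) (hNt : N ≤ S.t L)
    (hsep : HSep N (rcl (eval G z) (S.d L)) S.γ (S.k L)) :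
    DelRun S G' z L N ∧
      (finHM (eval G' z) (S.d L) (S.h L)).acc ((finHM (eval G' z) (S.d L) (S.h L)).U N) =
        sta (eval G z) (S.d L) N 2 := by
  have hh : 100 * (S.s L + 10) ^ 2 ≤ 2 * S.h L := by
    show _ ≤ 2 * (100 * (S.s L + 10) ^ 2 + 2)
    omega
  have hh1 : 1 < S.h L := by
    show 1 < 100 * (S.s L + 10) ^ 2 + 2
    omega
  have hd : 4 * S.d L < 2 * S.h L := lt_of_lt_of_le hG'.2 hh
  have hf := eval_evAgr hG'.1 hh z
  have hch : S.c L < S.h L := by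
    show S.c L < 100 * (S.s L + 10) ^ 2 + 2
    omega
  refine ⟨⟨hN.pos, hNt, fun m hm => ?_, ?_, fun m hm => ?_, ?_⟩, ?_⟩
  · rw [finHM_U hd hf, finHM_hlt (by omega)]
    exact (hdel.1 m hm).1
  · rw [finHM_U hd hf, finHM_hlt (by omega)]
    exact hdel.2
  · rw [finHM_U hd hf, ← (hdel.1 m hm).2.1]
    unfold gfl
    rw [dif_pos (show (S.p 0 0 L).c < (S.p 0 0 L).h from hch)]
    rfl
  · refine hsep.congr fun t ht => ?_
    rw [finHM_rcl hd hf]
    exact (hdel.1 t ht.le).2.2.2.symm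
  · rw [finHM_U hd hf, finHM_acc hh1]
    exact (hdel.1 N le_rfl).2.2.1

/-- **The family of list problems** of a problem with computations with hereditary separators. -/
theorem fam_of_clsG (hcode : GCodeOK) {γ : ℝ} (hγ : 0 ≤ γ) (hγ1 : γ < 1) {T : Type} {π : Pres T}
    {P : T → Prop} {e₀ : ℝ} (he₀ : 0 ≤ e₀) (h : ClsG γ T π P e₀) :
    ∃ (w : ℝ → ℕ → ℕ) (Tr Bad : ℝ → T × Inp → Prop), IsFam γ π P e₀ w Tr Bad := by
  obtain ⟨k, hk, h⟩ := h
  obtain ⟨G, s, t, d, L₀, hs, ht, hs3, hG, hrun⟩ := h.sz3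
  choose G' c hG' hc hdel using fun L => exists_delay (hG L) (hs3 L)
  obtain ⟨S, hSdef⟩ : ∃ S : GSeq, S = ⟨γ, e₀, s, t, d, k, c⟩ := ⟨_, rfl⟩
  have hSγ : S.γ = γ := by rw [hSdef]
  have hSe : S.e₀ = e₀ := by rw [hSdef]
  have hSs : S.s = s := by rw [hSdef]
  have hSt : S.t = t := by rw [hSdef]
  have hSd : S.d = d := by rw [hSdef]
  have hSk : S.k = k := by rw [hSdef]
  have hSc : S.c = c := by rw [hSdef]
  have hS : S.Ok := by
    refine ⟨by rw [hSγ]; exact hγ, by rw [hSγ]; exact hγ1, by rw [hSe]; exact he₀, ?_, ?_, ?_, ?_, ?_⟩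
    · rw [hSs]; exact ex_zero_iff.2 hs
    · rw [hSe, hSt]; exact ex_iff.2 ht
    · rw [hSk]; exact hk
    · intro L; rw [hSd, hSs]; exact (hG L).2
    · intro L; rw [hSc, hSs]; exact hc L
  -- the computations
  have hD : ∀ τ, L₀ ≤ π.idx τ → ∃ N, HaltsAt (eval (G (π.idx τ)) (π.inp τ)) (d (π.idx τ)) N ∧
      DelRun S (G' (π.idx τ)) (π.inp τ) (π.idx τ) N ∧
      ((finHM (eval (G' (π.idx τ)) (π.inp τ)) (S.d (π.idx τ)) (S.h (π.idx τ))).acc
        ((finHM (eval (G' (π.idx τ)) (π.inp τ)) (S.d (π.idx τ)) (S.h (π.idx τ))).U N) = true ↔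
          P τ) := by
    intro τ hτ
    obtain ⟨⟨b, ⟨N, hNt, hN, hNb⟩, hbP⟩, hsep⟩ := hrun τ hτ
    have hdel' := hdel (π.idx τ) (π.inp τ) N hN
    have hsep' := hsep trivial N hN
    obtain ⟨h1, h2⟩ := delRun_of (S := S) (G := G (π.idx τ)) (G' := G' (π.idx τ)) (z := π.inp τ)
      (L := π.idx τ) (N := N) (by rw [hSs, hSd]; exact hG' _) (by rw [hSd, hSc]; exact hdel')
      (by rw [hSc, hSs]; exact hc _) (by rw [hSd]; exact hN) (by rw [hSt]; exact hNt)
      (by rw [hSd, hSγ, hSk]; exact hsep')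
    refine ⟨N, hN, h1, ?_⟩
    rw [h2, hSd, hNb]
    exact hbP
  -- the problems
  obtain ⟨Tr, hTr⟩ : ∃ Tr : ℝ → T × Inp → Prop, Tr = fun r p =>
      ∃ N, HaltsAt (eval (G (π.idx p.1)) (π.inp p.1)) (d (π.idx p.1)) N ∧
        TrS S (G' (π.idx p.1)) (π.inp p.1) (π.idx p.1) N r p.2 := ⟨_, rfl⟩
  obtain ⟨Bad, hBad⟩ : ∃ Bad : ℝ → T × Inp → Prop, Bad = fun r p =>
      ∃ N, HaltsAt (eval (G (π.idx p.1)) (π.inp p.1)) (d (π.idx p.1)) N ∧
        BadS S (G' (π.idx p.1)) (π.inp p.1) (π.idx p.1) N r p.2 := ⟨_, rfl⟩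
  have hTr' : ∀ (r : ℝ) (p : T × Inp) (N : ℕ),
      HaltsAt (eval (G (π.idx p.1)) (π.inp p.1)) (d (π.idx p.1)) N →
      (Tr r p ↔ TrS S (G' (π.idx p.1)) (π.inp p.1) (π.idx p.1) N r p.2) := by
    intro r p N hN
    rw [hTr]
    constructor
    · rintro ⟨N', hN', h1⟩
      rwa [hN.unique hN']
    · exact fun h1 => ⟨N, hN, h1⟩
  have hBad' : ∀ (r : ℝ) (p : T × Inp) (N : ℕ),
      HaltsAt (eval (G (π.idx p.1)) (π.inp p.1)) (d (π.idx p.1)) N →
      (Bad r p ↔ BadS S (G' (π.idx p.1)) (π.inp p.1) (π.idx p.1) N r p.2) := by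
    intro r p N hN
    rw [hBad]
    constructor
    · rintro ⟨N', hN', h1⟩
      rwa [hN.unique hN']
    · exact fun h1 => ⟨N, hN, h1⟩

  have hσ0 : Lin 0 S.σ := hS.grow.2.2.2
  have hvLen : ∀ e r : ℝ, Lin 0 (fun L => vLen (S.p e r L)) := by
    intro e r
    have h1 := hσ0.add (Lin.const 0 le_rfl 3)
    rw [add_zero] at h1
    exact h1
  have hβ2 : ∀ (e r u : ℝ) (β : ℕ → ℕ), 0 ≤ u → Lin u β →
      Lin u (fun L => max (vLen (S.p e r L)) (β L + 1)) := by
    intro e r u β hu hβ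
    have h1 := (hvLen e r).max (hβ.add (Lin.const 0 le_rfl 1))
    rw [add_zero, max_eq_right hu] at h1
    exact h1
  refine ⟨fun r L => hLen (S.w r L) (S.σ L), Tr, Bad, ⟨?_, ?_, ?_, ?_⟩⟩
  · -- lengths
    intro r hr _
    have h1 := (hS.grow_w hr).add ((Lin.const 0 le_rfl 3).add hσ0)
    rw [add_zero, add_zero, hSγ] at h1
    exact h1
  · -- base
    intro r hr hre
    have hsz : ∀ L, Sz (2 * S.h L) (G' L) := by
      intro L
      refine (hG' L).1.mono ?_
      show _ ≤ 2 * (100 * (S.s L + 10) ^ 2 + 2)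
      rw [hSs]
      omega
    obtain ⟨A, hA, hA'⟩ := exists_base hS (π := π) G' hsz hr (by rw [hSe]; exact hre)
    refine ⟨A, hA, L₀, fun p hp => ?_⟩
    obtain ⟨N, hN, hDN, -⟩ := hD p.1 hp
    rw [hTr' r p N hN, hBad' r p N hN]
    exact hA' p N hDN
  · -- step
    intro r e hr hre he u e' hu he' hcert
    obtain ⟨β, B, hβ, hB, L₁, hB'⟩ := hcert
    have heS : e ≤ S.e₀ := by rw [hSe]; exact he
    refine ⟨fun L => gLen (S.p e r L), fun L => max (vLen (S.p e r L)) (β L + 1), _, ?_,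
      hβ2 e r u β hu hβ,
      refute_step hcode (fun L => S.p e r L) (fun L => hS.par hre heS L)
        (hS.grow_X hr hre heS) hβ he' hB, max L₀ L₁, ?_⟩
    · have h1 := hS.grow_len hr hre
      rwa [hSγ] at h1
    · intro p hp
      have hp' : max L₀ L₁ ≤ π.idx p.1 := hp
      obtain ⟨N, hN, hDN, -⟩ := hD p.1 (le_trans (le_max_left _ _) hp')
      have hp1 : L₁ ≤ π.idx p.1 := le_trans (le_max_right _ _) hp'
      constructor
      · intro hbad
        obtain ⟨y, hy⟩ := step_bad hS hr hre heS hDN ((hBad' e p N hN).1 hbad)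
        refine ⟨y, fun v => ?_⟩
        obtain ⟨h1, h2⟩ := hy v
        rintro (h3 | h3)
        · exact h3 h1
        · exact (hB' (p.1, gRec (S.p e r (π.idx p.1)) y (vk (S.p e r (π.idx p.1)) v)) hp1).2
            ((hTr' r (p.1, gRec (S.p e r (π.idx p.1)) y (vk (S.p e r (π.idx p.1)) v)) N hN).2 h2) _ h3
      · intro htr y
        rcases step_true hS hr hre heS hDN ((hTr' e p N hN).1 htr) y with ⟨v, hv⟩ | ⟨j, hj, hj'⟩
        · exact ⟨v, Or.inl hv⟩
        · obtain ⟨y', hy'⟩ := (hB' (p.1, gRec (S.p e r (π.idx p.1)) y j) hp1).1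
            ((hBad' r (p.1, gRec (S.p e r (π.idx p.1)) y j) N hN).2 hj')
          obtain ⟨v, hv1, -, -, hv2⟩ := exists_gv (hS.par hre heS (π.idx p.1)) (k := j) hj
            (i := 0) (by positivity) (e := 0) (by positivity) y'
          refine ⟨v, Or.inr ?_⟩
          show B ((p.1, gRec (S.p e r (π.idx p.1)) y (vk (S.p e r (π.idx p.1)) v)),
            fun a => v (true :: a))
          rw [hv1, show (fun a => v (true :: a)) = y' from funext hv2]
          exact hy'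
  · -- top
    intro r hr hre u e' hu he' hcert
    obtain ⟨β, B, hβ, hB, L₁, hB'⟩ := hcert
    have hreS : r ≤ S.e₀ := by rw [hSe]; exact hre
    refine ⟨fun L => gLen (S.p S.e₀ r L), fun L => max (vLen (S.p S.e₀ r L)) (β L + 1), _, ?_,
      hβ2 S.e₀ r u β hu hβ,
      refute_top hcode (fun L => S.p S.e₀ r L) (fun L => hS.par hreS le_rfl L)
        (hS.grow_X hr hreS le_rfl) hβ he' hB, max L₀ L₁, ?_⟩
    · have h1 := hS.grow_len hr hreS
      have e1 : S.e₀ - (1 - S.γ) * r = e₀ - (1 - γ) * r := by rw [hSγ, hSe]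
      rwa [e1] at h1
    · intro τ hτ
      obtain ⟨N, hN, hDN, hacc⟩ := hD τ (le_trans (le_max_left _ _) hτ)
      have hp1 : L₁ ≤ π.idx τ := le_trans (le_max_right _ _) hτ
      constructor
      · intro hP
        obtain ⟨y, hy⟩ := top_yes hS hr hreS hDN (hacc.2 hP)
        refine ⟨y, fun v => ?_⟩
        obtain ⟨h1, h2⟩ := hy v
        rintro (h3 | h3)
        · exact h3 h1
        · exact (hB' (τ, gRec (S.p S.e₀ r (π.idx τ)) y (vk (S.p S.e₀ r (π.idx τ)) v)) hp1).2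
            ((hTr' r (τ, gRec (S.p S.e₀ r (π.idx τ)) y (vk (S.p S.e₀ r (π.idx τ)) v)) N hN).2 h2) _ h3
      · intro hP y
        have hacc' : (finHM (eval (G' (π.idx τ)) (π.inp τ)) (S.d (π.idx τ)) (S.h (π.idx τ))).acc
            ((finHM (eval (G' (π.idx τ)) (π.inp τ)) (S.d (π.idx τ)) (S.h (π.idx τ))).U N) =
            false := by
          by_contra hcon
          exact hP (hacc.1 (by simpa using hcon))
        rcases top_no hS hr hreS hDN hacc' y with ⟨v, hv⟩ | ⟨j, hj, hj'⟩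
        · exact ⟨v, Or.inl hv⟩
        · obtain ⟨y', hy'⟩ := (hB' (τ, gRec (S.p S.e₀ r (π.idx τ)) y j) hp1).1
            ((hBad' r (τ, gRec (S.p S.e₀ r (π.idx τ)) y j) N hN).2 hj')
          obtain ⟨v, hv1, -, -, hv2⟩ := exists_gv (hS.par hreS le_rfl (π.idx τ)) (k := j) hj
            (i := 0) (by positivity) (e := 0) (by positivity) y'
          refine ⟨v, Or.inr ?_⟩
          show B ((τ, gRec (S.p S.e₀ r (π.idx τ)) y (vk (S.p S.e₀ r (π.idx τ)) v)),
            fun a => v (true :: a))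
          rw [hv1, show (fun a => v (true :: a)) = y' from funext hv2]
          exact hy'

end Pool.Agent.NUM
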