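import Pool.Agent.NUM.HCore
import Pool.Agent.NUM.HSep

/-!
# Deciding with computation graphs which have hereditary separators
-/

namespace Pool.Agent.NUM

/-- `G`, with `d` pointer cells, decides `P` on the inputs of support `B` within `T` passes, and for
each of these inputs every set `W` of states of the computation has a balanced separator of at most
`K * |W| ^ γ` states -/
def SepDecides (G : List Ins) (d B T : ℕ) (γ : ℝ) (K : ℕ) (P : Inp → Prop) : Prop :=
  ∀ z, Supp B z → ∃ N ≤ T, HaltsAt (eval G z) d N ∧ (sta (eval G z) d N 2 = true ↔ P z) ∧
    HSep N (rcl (eval G z) d) γ K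

end Pool.Agent.NUM
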