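import Pool.Agent.NUM.HChkSem

/-!
# Local lists of claims: true lists, bad lists, conflicts (theorem H(γ))

`N` is the time of the last state before the machine is halted (delayed machines: cell `0` of `U m` is
`false` for `m ≤ N` and `true` for `m = N + 1`). Segments with label `1` are own segments, the
final entries are terminators (never own).
-/

set_option autoImplicit false

namespace Pool.Agent.NUM

variable {A : Type}

/-- entry `i` is true -/
def TrueE (H : HM A) (N : ℕ) (L : Lst A) (i : ℕ) : Prop := L.tm i ≤ N ∧ L.st i = H.U (L.tm i)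

/-- the static conditions on a list -/
structure LStat (L : Lst A) (w lim : ℕ) : Prop where
  off0 : L.off 0 = 1
  srt : ∀ i < 2 ^ w, L.pv i < L.tm i
  fin : ∀ i < 2 ^ w, L.fin i = true → L.lb i ≠ 1 ∧ (i + 1 < 2 ^ w → L.fin (i + 1) = true)
  run : ∀ i < 2 ^ w, L.fin i = false → i + 1 < 2 ^ w ∧
    L.off (i + 1) = L.off i + 1 + (if L.lb i = 1 then L.tm i - L.pv i else 0) ∧
    L.off (i + 1) < lim

/-- the state after pass `τ` is a claim or is computed in an own segment, before the end of segment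
`i` -/
def Avail (L : Lst A) (i τ : ℕ) : Prop :=
  ∃ j ≤ i, L.pv j < τ ∧ τ ≤ L.tm j ∧ (τ = L.tm j ∨ L.lb j = 1)

/-- **true lists** -/
structure TrL (H : HM A) (N : ℕ) (L : Lst A) (w lim : ℕ) : Prop where
  stat : LStat L w lim
  tru : ∀ i < 2 ^ w, L.fin i = false → TrueE H N L i
  clo : ∀ i < 2 ^ w, L.fin i = false → L.lb i = 1 → ∀ u, L.pv i ≤ u → u < L.tm i →
    0 < H.idx (H.U u) → H.idx (H.U u) ≤ u → Avail L i (H.idx (H.U u))

/-- **bad lists**: some own entry is false although all entries before it are true -/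
structure BadL (H : HM A) (N : ℕ) (L : Lst A) (w lim : ℕ) : Prop where
  stat : LStat L w lim
  bad : ∃ i < 2 ^ w, L.fin i = false ∧ L.lb i = 1 ∧ (∀ j < i, TrueE H N L j) ∧ ¬ TrueE H N L i

/-- the state `S` after pass `u` cannot be followed by an own pass: it is the last one (`fl S`), or it
recalls a state inside the segment `j`, which is not own -/
def Conf (H : HM A) (fl : A → Bool) (L : Lst A) (j : ℕ) (S : A) (u : ℕ) : Prop :=
  fl S = true ∨ (0 < H.idx S ∧ H.idx S ≤ u ∧ L.pv j < H.idx S ∧ H.idx S < L.tm j ∧ L.lb j ≠ 1)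

/-- `L'` shows that the list `L` is wrong at its own segment `i` -/
def DfL (H : HM A) (fl : A → Bool) (w : ℕ) (L L' : Lst A) (i j : ℕ) : Prop :=
  i < 2 ^ w ∧ j < 2 ^ w ∧ L.fin i = false ∧ L.lb i = 1 ∧
  (Conf H fl L j (L.ps H.a0 i) (L.pv i) ∨
    ((∀ j' < i, L'.tm j' = L.tm j' ∧ L'.st j' = L.st j' ∧ L'.lb j' = L.lb j' ∧ L'.fin j' = false) ∧
      L'.fin i = false ∧ L'.lb i = 1 ∧ L'.tm i ≤ L.tm i ∧ (L'.tm i = L.tm i → L'.st i ≠ L.st i) ∧
      (L'.tm i < L.tm i → Conf H fl L j (L'.st i) (L'.tm i))))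

/-- the list is about the last state, which accepts -/
def TopL (fl acc : A → Bool) (L : Lst A) : Prop :=
  L.fin 0 = false ∧ L.lb 0 = 1 ∧ fl (L.st 0) = true ∧ acc (L.st 0) = true

/-- the pointer of entry `i` of list `k` of the family `C` is right: `x = true`: entry `e` of the
parent list `R`, otherwise own entry `i'` of list `k'` -/
def PtrOK (q w₁ w : ℕ) (R : Lst A) (C : ℕ → Lst A) (k i : ℕ) (x : Bool) (e k' i' : ℕ) : Prop :=
  (C k).fin i = false → (C k).lb i ≠ 1 →
    if x = true then e < 2 ^ w₁ ∧ R.fin e = false ∧ R.tm e = (C k).tm i ∧ R.st e = (C k).st i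
    else k' < 2 ^ q ∧ i' < 2 ^ w ∧ (C k').fin i' = false ∧ (C k').lb i' = 1 ∧
      (C k').tm i' = (C k).tm i ∧ (C k').st i' = (C k).st i

/-- the own entry `e` of the parent list is own entry `i` of list `k` -/
def DirOK (q w : ℕ) (R : Lst A) (C : ℕ → Lst A) (e k i : ℕ) : Prop :=
  R.fin e = false → R.lb e = 1 → k < 2 ^ q ∧ i < 2 ^ w ∧ (C k).fin i = false ∧ (C k).lb i = 1 ∧
    (C k).tm i = R.tm e ∧ (C k).st i = R.st e

/-! ### first consequences -/

theorem LStat.mono_tm {L : Lst A} {w lim : ℕ} (h : LStat L w lim) {i j : ℕ} (hij : i ≤ j)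
    (hj : j < 2 ^ w) : L.tm i ≤ L.tm j := by
  induction j with
  | zero => rw [show i = 0 by omega]
  | succ j ih =>
    rcases Nat.lt_or_ge i (j + 1) with h1 | h1
    · have h2 := ih (by omega) (by omega)
      have h3 : L.tm j < L.tm (j + 1) := h.srt (j + 1) hj
      omega
    · rw [show i = j + 1 by omega]

theorem LStat.tm_lt {L : Lst A} {w lim : ℕ} (h : LStat L w lim) {i j : ℕ} (hij : i < j)
    (hj : j < 2 ^ w) : L.tm i < L.tm j := by
  obtain ⟨j', rfl⟩ : ∃ j', j = j' + 1 := ⟨j - 1, by omega⟩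
  have h2 := h.mono_tm (show i ≤ j' by omega) (by omega)
  have h3 : L.tm j' < L.tm (j' + 1) := h.srt (j' + 1) hj
  omega

theorem LStat.tm_le_pv {L : Lst A} {w lim : ℕ} (h : LStat L w lim) {i j : ℕ} (hij : i < j)
    (hj : j < 2 ^ w) : L.tm i ≤ L.pv j := by
  obtain ⟨j', rfl⟩ : ∃ j', j = j' + 1 := ⟨j - 1, by omega⟩
  exact h.mono_tm (show i ≤ j' by omega) (by omega)

/-- `fin` is monotone -/
theorem LStat.fin_mono {L : Lst A} {w lim : ℕ} (h : LStat L w lim) {i j : ℕ} (hij : i ≤ j)
    (hj : j < 2 ^ w) (hi : L.fin i = true) : L.fin j = true := by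
  induction j with
  | zero => rwa [show i = 0 by omega] at hi
  | succ j ih =>
    rcases Nat.lt_or_ge i (j + 1) with h1 | h1
    · exact (h.fin j (by omega) (ih (by omega) (by omega))).2 hj
    · rwa [show i = j + 1 by omega] at hi

theorem LStat.nfin {L : Lst A} {w lim : ℕ} (h : LStat L w lim) {i j : ℕ} (hij : i ≤ j)
    (hj : j < 2 ^ w) (hf : L.fin j = false) : L.fin i = false := by
  by_contra hcon
  have := h.fin_mono hij hj (by simpa using hcon)
  rw [hf] at this
  cases this

end Pool.Agent.NUM
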