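import Pool.Agent.NUM.GRead
import Pool.Agent.NUM.HClosure

/-!
# Theorem H(γ): the parameters

For an InC problem: programs of size `s L` with `d L` pointer digits, `t L` passes, separator constant
`k L`, exponent `e₀`. Level `r`: at most `gR' r L` own passes, at most `gE' r L` entries,
`2 ^ gw r L` slots, clock `glim r L`.
-/

set_option autoImplicit false

namespace Pool.Agent.NUM

/-- the data of the problem -/
structure GSeq where
  γ : ℝ
  e₀ : ℝ
  s : ℕ → ℕ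
  t : ℕ → ℕ
  d : ℕ → ℕ
  k : ℕ → ℕ
  c : ℕ → ℕ

/-- admissible data -/
structure GSeq.Ok (S : GSeq) : Prop where
  γ0 : 0 ≤ S.γ
  γ1 : S.γ < 1
  e0 : 0 ≤ S.e₀
  hs : Ex 0 S.s
  ht : Ex S.e₀ S.t
  hk : Ex 0 S.k
  hd : ∀ L, 4 * S.d L < S.s L
  hc : ∀ L, 2 * S.c L + 1 ≤ 100 * (S.s L + 10) ^ 2

namespace GSeq

variable (S : GSeq)

/-- the depth of the divisions -/
def D (L : ℕ) : ℕ := 3 * Nat.size (2 * (S.t L + 1)) + 13

/-- the number of even cells of the delayed program -/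
def h (L : ℕ) : ℕ := 100 * (S.s L + 10) ^ 2 + 2

/-- subexponential factor -/
noncomputable def A (L : ℕ) : ℕ :=
  (10 * S.D L ^ 2 * S.k L + 2) ^ ⌈1 / (1 - S.γ)⌉₊ * (S.t L / 2 ^ ⌈S.e₀ * L⌉₊ + 1)

/-- bound for the number of own passes -/
noncomputable def R (r : ℝ) (L : ℕ) : ℕ := S.A L * 2 ^ ⌈r * L⌉₊

/-- bound for the number of entries -/
noncomputable def E (r : ℝ) (L : ℕ) : ℕ :=
  ⌈10 * (S.D L : ℝ) ^ 2 * S.k L * (S.R r L : ℝ) ^ S.γ⌉₊ + 1

/-- `2 ^ w` slots -/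
noncomputable def w (r : ℝ) (L : ℕ) : ℕ := Nat.size (S.E r L + 2)

/-- the clock -/
noncomputable def lim (r : ℝ) (L : ℕ) : ℕ := S.R r L + S.E r L + 3

/-- `2 ^ q` children of level `r` for a list of level `e` -/
noncomputable def q (e r : ℝ) (L : ℕ) : ℕ :=
  Nat.size (1 + 3 * S.D L * ((S.lim e L + 1) / S.R r L + 2 ^ S.w e L / S.E r L + 2))

/-- number of bits of times, offsets, … -/
noncomputable def b (L : ℕ) : ℕ :=
  Nat.size (S.t L + S.lim S.e₀ L + 2 ^ S.w S.e₀ L + 10) + S.d L + S.w S.e₀ L +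
    Nat.size (1 + 3 * S.D L * (S.lim S.e₀ L + 1 + 2 ^ S.w S.e₀ L + 2)) + 2

noncomputable def σ (L : ℕ) : ℕ := Nat.size (S.h L + S.b L)

/-- the parameters for the passage from level `r` to level `e` -/
noncomputable def p (e r : ℝ) (L : ℕ) : GPar where
  h := S.h L
  b := S.b L
  σ := S.σ L
  d := S.d L
  c := S.c L
  q := S.q e r L
  w₁ := S.w e L
  w := S.w r L
  lim₁ := S.lim e L
  lim := S.lim r L

end GSeq

end Pool.Agent.NUM
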