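import Pool.Agent.NUM.TStmt
import Pool.Agent.NUM.HSep

/-!
# Computation graphs of small tree-width have small hereditary separators
-/

set_option autoImplicit false

namespace Pool.Agent.NUM

open Finset

/-- `c` is an ancestor of `p` (or `p` itself) -/
inductive Anc (par : ℕ → ℕ) (c : ℕ) : ℕ → Prop
  | refl : Anc par c c
  | up {p : ℕ} (h0 : 0 < p) (h : Anc par c (par p)) : Anc par c p

/-- the child of `j` on the way from `p` to `j` -/
def lab (par : ℕ → ℕ) (j : ℕ) (p : ℕ) : ℕ :=
  if 0 < p ∧ par p < p then (if par p = j then p else lab par j (par p)) else 0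
termination_by p
decreasing_by all_goals omega

theorem lab_eq {par : ℕ → ℕ} {j p : ℕ} (h0 : 0 < p) (h1 : par p < p) (h2 : par p ≠ j) :
    lab par j p = lab par j (par p) := by
  rw [lab, if_pos ⟨h0, h1⟩, if_neg h2]

theorem lab_child {par : ℕ → ℕ} {j p : ℕ} (h0 : 0 < p) (h1 : par p < p) (h2 : par p = j) :
    lab par j p = p := by
  rw [lab, if_pos ⟨h0, h1⟩, if_pos h2]

theorem anc_zero {m : ℕ} {par : ℕ → ℕ} (hpar : ∀ i, 0 < i → i < m → par i < i) :
    ∀ p, p < m → Anc par 0 p := by
  intro p
  induction p using Nat.strong_induction_on with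
  | _ p ih =>
    intro hp
    rcases Nat.eq_zero_or_pos p with h | h
    · subst h
      exact Anc.refl
    · exact Anc.up h (ih (par p) (hpar p h hp) ((hpar p h hp).trans hp))

theorem lab_pos {m : ℕ} {par : ℕ → ℕ} {j : ℕ} :
    ∀ p, p < m → lab par j p ≠ 0 → Anc par (lab par j p) p ∧ par (lab par j p) = j ∧
      lab par j p ≤ p ∧ par (lab par j p) < lab par j p := by
  intro p
  induction p using Nat.strong_induction_on with
  | _ p ih =>
    intro hp hl
    by_cases h : 0 < p ∧ par p < p
    · by_cases h2 : par p = j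
      · rw [lab_child h.1 h.2 h2]
        exact ⟨Anc.refl, h2, le_rfl, h.2⟩
      · rw [lab_eq h.1 h.2 h2] at hl ⊢
        obtain ⟨g1, g2, g3, g4⟩ := ih (par p) h.2 (h.2.trans hp) hl
        exact ⟨Anc.up h.1 g1, g2, g3.trans h.2.le, g4⟩
    · rw [lab, if_neg h] at hl
      exact absurd rfl hl

theorem lab_zero {m : ℕ} {par : ℕ → ℕ} (hpar : ∀ i, 0 < i → i < m → par i < i) {j : ℕ} :
    ∀ p, p < m → Anc par j p → lab par j p = 0 → p = j := by
  intro p
  induction p using Nat.strong_induction_on with
  | _ p ih =>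
    intro hp ha hl
    cases ha with
    | refl => rfl
    | up h0 h =>
      exfalso
      have h1 := hpar p h0 hp
      by_cases h2 : par p = j
      · rw [lab_child h0 h1 h2] at hl
        omega
      · rw [lab_eq h0 h1 h2] at hl
        exact h2 (ih (par p) h1 (h1.trans hp) h hl)

/-- the nodes of a subtree which avoids `j` have the same label -/
theorem lab_const {m : ℕ} {par : ℕ → ℕ} (hpar : ∀ i, 0 < i → i < m → par i < i)
    {S : ℕ → Prop} (hS : ∀ i j, i < m → j < m → S i → S j → (i = 0 ∨ ¬ S (par i)) →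
      (j = 0 ∨ ¬ S (par j)) → i = j)
    {r : ℕ} (hr : r < m) (hSr : S r) (htop : r = 0 ∨ ¬ S (par r)) {j : ℕ} (hj : ¬ S j) :
    ∀ p, p < m → S p → lab par j p = lab par j r := by
  intro p
  induction p using Nat.strong_induction_on with
  | _ p ih =>
    intro hp hSp
    by_cases h : p = 0 ∨ ¬ S (par p)
    · rw [hS p r hp hr hSp hSr h htop]
    · push Not at h
      obtain ⟨h0, h1⟩ := h
      have h2 : 0 < p := by omega
      have h3 := hpar p h2 hp
      have h4 : par p ≠ j := by
        intro h5
        rw [h5] at h1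
        exact hj h1
      rw [lab_eq h2 h3 h4]
      exact ih (par p) h3 (h3.trans hp) h1

/-- classes with at most half of the weight are divided in two balanced parts -/
theorem split_classes {V : Finset ℕ} {w : ℕ} (hV : V.card ≤ w) {l : ℕ → ℕ}
    (hl : ∀ c, 2 * (V.filter fun x => l x = c).card ≤ w) :
    ∃ Λ : ℕ → Prop, ∃ _ : DecidablePred Λ, 3 * (V.filter fun x => Λ (l x)).card ≤ 2 * w ∧
      3 * (V.filter fun x => ¬ Λ (l x)).card ≤ 2 * w := by
  by_cases hsm : 3 * V.card ≤ 2 * w
  · refine ⟨fun _ => True, inferInstance, ?_, ?_⟩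
    · simpa using hsm
    · simp
  · have hex : ∃ n, w < 3 * (V.filter fun x => l x < n).card := by
      refine ⟨V.sup l + 1, ?_⟩
      have : (V.filter fun x => l x < V.sup l + 1) = V := by
        rw [filter_eq_self]
        intro x hx
        exact Nat.lt_succ_of_le (Finset.le_sup (f := l) hx)
      rw [this]
      omega
    obtain ⟨n, hn, hmin⟩ : ∃ n, w < 3 * (V.filter fun x => l x < n).card ∧
        ∀ k < n, ¬ w < 3 * (V.filter fun x => l x < k).card :=
      ⟨Nat.find hex, Nat.find_spec hex, fun k hk => Nat.find_min hex hk⟩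
    cases n with
    | zero => simp at hn
    | succ n =>
      have h1 := hmin n (by omega)
      have h2 : (V.filter fun x => l x < n + 1).card =
          (V.filter fun x => l x < n).card + (V.filter fun x => l x = n).card := by
        rw [← card_union_of_disjoint]
        · congr 1
          ext x
          simp only [mem_filter, mem_union]
          constructor
          · rintro ⟨h, h'⟩
            rcases Nat.lt_or_ge (l x) n with h3 | h3
            · exact Or.inl ⟨h, h3⟩
            · exact Or.inr ⟨h, by omega⟩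
          · rintro (⟨h, h'⟩ | ⟨h, h'⟩)
            · exact ⟨h, by omega⟩
            · exact ⟨h, by omega⟩
        · rw [disjoint_filter]
          intro x _ h3 h4
          omega
      have h3 := hl n
      by_cases h4 : 3 * (V.filter fun x => l x < n + 1).card ≤ 2 * w
      · refine ⟨fun c => c < n + 1, inferInstance, h4, ?_⟩
        have h5 := card_filter_add_card_filter_not (s := V) (fun x => l x < n + 1)
        show 3 * (V.filter fun x => ¬ l x < n + 1).card ≤ 2 * w
        omega
      · refine ⟨fun c => c = n, inferInstance, ?_, ?_⟩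
        · show 3 * (V.filter fun x => l x = n).card ≤ 2 * w
          omega
        · have h5 := card_filter_add_card_filter_not (s := V) (fun x => l x = n)
          show 3 * (V.filter fun x => ¬ l x = n).card ≤ 2 * w
          omega

/-- **Tree-width.**  If the computation graph has tree-width at most `k`, then it has hereditary
separators of at most `k + 1` states. -/
theorem TWle.hsep {N k : ℕ} {rc : ℕ → ℕ} (h : TWle N rc k) {γ : ℝ} (hγ : 0 ≤ γ) :
    HSep N rc γ (k + 1) := by
  classical
  obtain ⟨m, par, bag, h1, h2, h3, h4, h5, h6⟩ := h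
  intro W hW
  rcases Nat.eq_zero_or_pos W.card with hW0 | hW0
  · rw [Finset.card_eq_zero] at hW0
    subst hW0
    refine ⟨∅, empty_subset _, ∅, empty_subset _, disjoint_empty_left _, NoEdge.empty, by simp,
      by simp, ?_⟩
    simp only [union_empty, sdiff_empty, card_empty, Nat.cast_zero]
    positivity
  -- the topmost nodes
  have htop : ∀ x, x ≤ N → ∃ r, r < m ∧ x ∈ bag r ∧ (r = 0 ∨ x ∉ bag (par r)) := by
    intro x hx
    obtain ⟨i, hi, hxi⟩ := h3 x hx
    exact tw_top h1 (S := fun i => x ∈ bag i) i hi hxi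
  choose! top ht1 ht2 ht3 using htop
  have hWN : ∀ x ∈ W, x ≤ N := by
    intro x hx
    have := hW hx
    rw [mem_range] at this
    omega
  obtain ⟨x₀, hx₀⟩ := Finset.card_pos.1 hW0
  have hm0 : 0 < m := lt_of_le_of_lt (Nat.zero_le _) (ht1 x₀ (hWN x₀ hx₀))
  -- the last node with more than half of the weight below it
  obtain ⟨j, hj, hjw, hjmax⟩ : ∃ j < m, W.card < 2 * (W.filter fun x => Anc par j (top x)).card ∧
      ∀ i < m, j < i → ¬ W.card < 2 * (W.filter fun x => Anc par i (top x)).card := by
    have hne : ((range m).filter fun i =>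
        W.card < 2 * (W.filter fun x => Anc par i (top x)).card).Nonempty := by
      refine ⟨0, ?_⟩
      rw [mem_filter]
      refine ⟨mem_range.2 hm0, ?_⟩
      have : (W.filter fun x => Anc par 0 (top x)) = W := by
        rw [filter_eq_self]
        intro x hx
        exact anc_zero h1 _ (ht1 x (hWN x hx))
      rw [this]
      omega
    obtain ⟨j, hj, hjmax⟩ := Finset.exists_max_image _ id hne
    rw [mem_filter, mem_range] at hj
    refine ⟨j, hj.1, hj.2, fun i hi hji hcon => ?_⟩
    have := hjmax i (by rw [mem_filter, mem_range]; exact ⟨hi, hcon⟩)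
    simp only [id] at this
    omega
  -- the classes
  obtain ⟨Λ, hΛ, hA, hB⟩ := split_classes (V := W \ bag j) (w := W.card)
    (card_le_card sdiff_subset) (l := fun x => lab par j (top x)) (by
      intro c
      rcases Nat.eq_zero_or_pos c with hc | hc
      · subst hc
        have e1 : ((W \ bag j).filter fun x => lab par j (top x) = 0) ⊆
            W.filter fun x => ¬ Anc par j (top x) := by
          intro x hx
          rw [mem_filter, mem_sdiff] at hx
          obtain ⟨⟨hx1, hx2⟩, hx3⟩ := hx
          rw [mem_filter]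
          refine ⟨hx1, fun ha => hx2 ?_⟩
          have := lab_zero h1 _ (ht1 x (hWN x hx1)) ha hx3
          rw [← this]
          exact ht2 x (hWN x hx1)
        have e2 := card_le_card e1
        have e3 := card_filter_add_card_filter_not (s := W) (fun x => Anc par j (top x))
        omega
      · rcases ((W \ bag j).filter fun x => lab par j (top x) = c).eq_empty_or_nonempty with
          he | ⟨x, hx⟩
        · rw [he]
          simp
        rw [mem_filter, mem_sdiff] at hx
        obtain ⟨⟨hx1, hx2⟩, hx3⟩ := hx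
        have hxm := ht1 x (hWN x hx1)
        obtain ⟨g1, g2, g3, g4⟩ := lab_pos (par := par) (j := j) (top x) hxm (by omega)
        rw [hx3] at g1 g2 g3 g4
        have e0 := hjmax c (by omega) (by omega)
        have e1 : ((W \ bag j).filter fun x => lab par j (top x) = c) ⊆
            W.filter fun x => Anc par c (top x) := by
          intro y hy
          rw [mem_filter, mem_sdiff] at hy
          obtain ⟨⟨hy1, hy2⟩, hy3⟩ := hy
          rw [mem_filter]
          refine ⟨hy1, ?_⟩
          have := (lab_pos (par := par) (j := j) (top y) (ht1 y (hWN y hy1)) (by omega)).1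
          rw [hy3] at this
          exact this
        have e2 := card_le_card e1
        omega)
  -- joined states have the same label
  have hlab : ∀ x ∈ W \ bag j, ∀ p < m, x ∈ bag p → lab par j p = lab par j (top x) := by
    intro x hx p hp hxp
    rw [mem_sdiff] at hx
    exact lab_const h1 (S := fun i => x ∈ bag i) (fun i j hi hj => h6 x i j hi hj)
      (ht1 x (hWN x hx.1)) (ht2 x (hWN x hx.1)) (ht3 x (hWN x hx.1)) hx.2 p hp hxp
  have hedge : ∀ x ∈ W \ bag j, ∀ y ∈ W \ bag j, (∃ p < m, x ∈ bag p ∧ y ∈ bag p) →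
      lab par j (top x) = lab par j (top y) := by
    rintro x hx y hy ⟨p, hp, hxp, hyp⟩
    rw [← hlab x hx p hp hxp, hlab y hy p hp hyp]
  have hstep : ∀ t, t + 1 ∈ W → ∀ y, (y = t ∨ (rc t ≤ t ∧ y = rc t)) →
      ∃ p < m, t + 1 ∈ bag p ∧ y ∈ bag p := by
    intro t ht y hy
    have htN : t < N := by
      have := hWN _ ht
      omega
    rcases hy with hy | ⟨hy1, hy2⟩
    · obtain ⟨p, hp, g1, g2⟩ := h4 t htN
      exact ⟨p, hp, g2, by rw [hy]; exact g1⟩
    · obtain ⟨p, hp, g1, g2⟩ := h5 t htN hy1
      exact ⟨p, hp, g2, by rw [hy2]; exact g1⟩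
  have hkey : ∀ x ∈ W \ bag j, ∀ y ∈ W \ bag j, Λ (lab par j (top x)) →
      ¬ Λ (lab par j (top y)) → ¬ ∃ p < m, x ∈ bag p ∧ y ∈ bag p := by
    intro x hx y hy hx1 hy1 hp
    rw [hedge x hx y hy hp] at hx1
    exact hy1 hx1
  refine ⟨(W \ bag j).filter fun x => Λ (lab par j (top x)),
    (filter_subset _ _).trans sdiff_subset,
    (W \ bag j).filter fun x => ¬ Λ (lab par j (top x)),
    (filter_subset _ _).trans sdiff_subset, disjoint_filter_filter_not _ _ _, ?_, hA, hB, ?_⟩
  · intro t
    simp only [mem_filter]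
    constructor
    · rintro ⟨g1, g2⟩
      have key : ∀ y, (y = t ∨ (rc t ≤ t ∧ y = rc t)) →
          ¬ (y ∈ W \ bag j ∧ ¬ Λ (lab par j (top y))) := by
        rintro y hy ⟨g3, g4⟩
        exact hkey (t + 1) g1 y g3 g2 g4 (hstep t (mem_sdiff.1 g1).1 y hy)
      exact ⟨key t (Or.inl rfl), fun g5 => key (rc t) (Or.inr ⟨g5, rfl⟩)⟩
    · rintro ⟨g1, g2⟩
      have key : ∀ y, (y = t ∨ (rc t ≤ t ∧ y = rc t)) →
          ¬ (y ∈ W \ bag j ∧ Λ (lab par j (top y))) := by
        rintro y hy ⟨g3, g4⟩
        obtain ⟨p, hp, g6, g7⟩ := hstep t (mem_sdiff.1 g1).1 y hy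
        exact hkey y g3 (t + 1) g1 g4 g2 ⟨p, hp, g7, g6⟩
      exact ⟨key t (Or.inl rfl), fun g5 => key (rc t) (Or.inr ⟨g5, rfl⟩)⟩
  · have e1 : (W \ (((W \ bag j).filter fun x => Λ (lab par j (top x))) ∪
        ((W \ bag j).filter fun x => ¬ Λ (lab par j (top x))))) ⊆ bag j := by
      rw [filter_union_filter_not_eq]
      intro x hx
      rw [mem_sdiff, mem_sdiff] at hx
      by_contra hcon
      exact hx.2 ⟨hx.1, hcon⟩
    have e2 : (((W \ (((W \ bag j).filter fun x => Λ (lab par j (top x))) ∪
        ((W \ bag j).filter fun x => ¬ Λ (lab par j (top x))))).card : ℕ) : ℝ) ≤ (k + 1 : ℕ) := by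
      exact_mod_cast (card_le_card e1).trans (h2 j hj)
    refine e2.trans ?_
    have e3 : (1 : ℝ) ≤ (W.card : ℝ) ^ γ := by
      apply Real.one_le_rpow _ hγ
      exact_mod_cast hW0
    have e4 : (0 : ℝ) ≤ ((k + 1 : ℕ) : ℝ) := Nat.cast_nonneg _
    nlinarith

end Pool.Agent.NUM
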