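import Pool.Agent.NUM.HChk

/-!
# Soundness of the check
-/

set_option autoImplicit false

namespace Pool.Agent.NUM

variable {A : Type} [DecidableEq A] {H : HM A} {L : Lst A} {κ w lim : ℕ}

theorem hck_U_zero : (hck H L κ w lim).U 0 = ⟨false, false, false, 0, 0, 0, H.a0, 0⟩ := rfl

theorem hck_U_succ (n : ℕ) : (hck H L κ w lim).U (n + 1) =
    St.pass H L κ w lim ((hck H L κ w lim).U n)
      ((hck H L κ w lim).rc n ((hck H L κ w lim).U n).q) := HM.U_succ _ n

namespace St

/-- the state after a verified segment or a skipped entry -/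
def nx (σ : St A) (u : ℕ) (a' : A) : St A :=
  { hlt := false, acc := false, sim := false, i := σ.i + 1, n := σ.n + 1, u := u, a := a', q := 0 }

theorem move_run {σ : St A} {a' : A} (h : (move H L κ w σ a').hlt = false) :
    H.hlt a' = false ∧
      ((σ.u + 1 = L.tm σ.i ∧ a' = L.st σ.i ∧ L.fin σ.i = false ∧ σ.i + 1 < 2 ^ w ∧
        move H L κ w σ a' = nx σ (σ.u + 1) a') ∨
      (σ.u + 1 ≠ L.tm σ.i ∧ move H L κ w σ a' = stay H L κ w σ a')) := by
  unfold move at h ⊢
  by_cases h1 : H.hlt a' = true ∧ ¬ (σ.u + 1 = L.tm σ.i ∧ L.fin σ.i = true)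
  · rw [if_pos h1] at h
    simp [rej] at h
  · rw [if_neg h1] at h ⊢
    by_cases h2 : σ.u + 1 = L.tm σ.i
    · rw [if_pos h2] at h ⊢
      by_cases h3 : a' ≠ L.st σ.i
      · rw [if_pos h3] at h
        simp [rej] at h
      · rw [if_neg h3] at h ⊢
        by_cases h4 : L.fin σ.i = true
        · rw [if_pos h4] at h
          split_ifs at h <;> simp [rej, yes] at h
        · rw [if_neg h4] at h ⊢
          unfold next at h ⊢
          by_cases h5 : σ.i + 1 < 2 ^ w
          · rw [if_pos h5]
            refine ⟨?_, Or.inl ⟨h2, not_not.1 h3, by simpa using h4, h5, rfl⟩⟩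
            by_contra h6
            exact h1 ⟨by simpa using h6, fun h7 => h4 h7.2⟩
          · rw [if_neg h5] at h
            simp [rej] at h
    · rw [if_neg h2] at h ⊢
      refine ⟨?_, Or.inr ⟨h2, rfl⟩⟩
      by_contra h6
      exact h1 ⟨by simpa using h6, fun h7 => h2 h7.1⟩

theorem move_yes {σ : St A} {a' : A} (h : (move H L κ w σ a').hlt = true)
    (h' : (move H L κ w σ a').acc = true) :
    σ.u + 1 = L.tm σ.i ∧ a' = L.st σ.i ∧ L.fin σ.i = true ∧ H.hlt a' = true ∧ H.acc a' = true := by
  unfold move at h h'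
  by_cases h1 : H.hlt a' = true ∧ ¬ (σ.u + 1 = L.tm σ.i ∧ L.fin σ.i = true)
  · rw [if_pos h1] at h'
    simp [rej] at h'
  · rw [if_neg h1] at h h'
    by_cases h2 : σ.u + 1 = L.tm σ.i
    · rw [if_pos h2] at h h'
      by_cases h3 : a' ≠ L.st σ.i
      · rw [if_pos h3] at h'
        simp [rej] at h'
      · rw [if_neg h3] at h h'
        by_cases h4 : L.fin σ.i = true
        · rw [if_pos h4] at h h'
          by_cases h5 : H.hlt a' = true ∧ H.acc a' = true
          · exact ⟨h2, not_not.1 h3, h4, h5.1, h5.2⟩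
          · rw [if_neg h5] at h'
            simp [rej] at h'
        · rw [if_neg h4] at h h'
          unfold next at h h'
          split_ifs at h h' <;> simp [rej] at h h'
    · rw [if_neg h2] at h
      simp [stay] at h

theorem scan_run {σ : St A} (h : (scan H L κ w σ).hlt = false) :
    L.pv σ.i < L.tm σ.i ∧
      ((L.lb σ.i = κ ∧ L.off σ.i = σ.n + 1 ∧ scan H L κ w σ = enter H L κ w σ) ∨
      (L.lb σ.i ≠ κ ∧ L.fin σ.i = false ∧ σ.i + 1 < 2 ^ w ∧ scan H L κ w σ = nx σ σ.u σ.a)) := by
  unfold scan at h ⊢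
  by_cases h1 : L.pv σ.i < L.tm σ.i
  · rw [if_pos h1] at h ⊢
    refine ⟨h1, ?_⟩
    by_cases h2 : L.lb σ.i = κ
    · rw [if_pos h2] at h ⊢
      by_cases h3 : L.off σ.i = σ.n + 1
      · rw [if_pos h3]
        exact Or.inl ⟨h2, h3, rfl⟩
      · rw [if_neg h3] at h
        simp [rej] at h
    · rw [if_neg h2] at h ⊢
      by_cases h4 : L.fin σ.i = true
      · rw [if_pos h4] at h
        simp [yes] at h
      · rw [if_neg h4] at h ⊢
        unfold next at h ⊢
        by_cases h5 : σ.i + 1 < 2 ^ w
        · rw [if_pos h5]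
          exact Or.inr ⟨h2, by simpa using h4, h5, rfl⟩
        · rw [if_neg h5] at h
          simp [rej] at h
  · rw [if_neg h1] at h
    simp [rej] at h

theorem scan_yes {σ : St A} (h : (scan H L κ w σ).hlt = true)
    (h' : (scan H L κ w σ).acc = true) :
    L.pv σ.i < L.tm σ.i ∧ L.lb σ.i ≠ κ ∧ L.fin σ.i = true := by
  unfold scan at h h'
  by_cases h1 : L.pv σ.i < L.tm σ.i
  · rw [if_pos h1] at h h'
    refine ⟨h1, ?_⟩
    by_cases h2 : L.lb σ.i = κ
    · rw [if_pos h2] at h h'
      by_cases h3 : L.off σ.i = σ.n + 1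
      · rw [if_pos h3] at h
        simp [enter] at h
      · rw [if_neg h3] at h'
        simp [rej] at h'
    · rw [if_neg h2] at h h'
      by_cases h4 : L.fin σ.i = true
      · exact ⟨h2, h4⟩
      · rw [if_neg h4] at h h'
        unfold next at h h'
        split_ifs at h h' <;> simp [rej] at h h'
  · rw [if_neg h1] at h'
    simp [rej] at h'

end St

/-- the invariant of the check after pass `n` -/
structure CInv (H : HM A) (L : Lst A) (κ w lim n : ℕ) (σ : St A) : Prop where
  num : σ.n = n
  srt : ∀ j < σ.i, L.pv j < L.tm j ∧ L.fin j = false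
  don : ∀ j < σ.i, L.lb j = κ → L.off j + (L.tm j - L.pv j) ≤ n ∧
    ((∀ j' < j, L.st j' = H.U (L.tm j')) → L.st j = H.U (L.tm j) ∧
      ∀ t ≤ L.tm j - L.pv j, ((hck H L κ w lim).U (L.off j + t)).a = H.U (L.pv j + t) ∧
        (0 < t → H.hlt (H.U (L.pv j + t)) = false))
  cur : σ.sim = true → L.pv σ.i < L.tm σ.i ∧ L.lb σ.i = κ ∧ L.pv σ.i ≤ σ.u ∧ σ.u < L.tm σ.i ∧
    n = L.off σ.i + (σ.u - L.pv σ.i) ∧
    σ.q = (lkup L H.a0 H.e0 w κ σ.i σ.u (H.idx σ.a)).num ∧
    ((∀ j' < σ.i, L.st j' = H.U (L.tm j')) →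
      ∀ t ≤ σ.u - L.pv σ.i, ((hck H L κ w lim).U (L.off σ.i + t)).a = H.U (L.pv σ.i + t) ∧
        (0 < t → H.hlt (H.U (L.pv σ.i + t)) = false))

theorem ps_of_true {i : ℕ} (h : ∀ j' < i, L.st j' = H.U (L.tm j')) : L.ps H.a0 i = H.U (L.pv i) := by
  cases i with
  | zero => rfl
  | succ i => exact h i (by omega)

/-- the look-up gives the right state -/
theorem lkup_ok {n : ℕ} {σ : St A} (hσ : σ = (hck H L κ w lim).U n)
    (hI : CInv H L κ w lim n σ) (hs : σ.sim = true)
    (hT : ∀ j' < σ.i, L.st j' = H.U (L.tm j')) :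
    σ.a = H.U σ.u ∧
    (∀ W, lkup L H.a0 H.e0 w κ σ.i σ.u (H.idx σ.a) = .val W → W = H.rc σ.u (H.idx σ.a)) ∧
    (∀ m, lkup L H.a0 H.e0 w κ σ.i σ.u (H.idx σ.a) = .own m →
      ((hck H L κ w lim).rc n σ.q).a = H.rc σ.u (H.idx σ.a)) := by
  obtain ⟨h1, h2, h3, h4, h5, h6, h7⟩ := hI.cur hs
  have hA := (h7 hT (σ.u - L.pv σ.i) le_rfl).1
  rw [← h5, ← hσ, show L.pv σ.i + (σ.u - L.pv σ.i) = σ.u by omega] at hA
  refine ⟨hA, ?_, ?_⟩
  · intro W hW
    unfold lkup at hW
    unfold HM.rc
    by_cases c1 : σ.u < H.idx σ.a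
    · rw [if_pos c1] at hW
      cases hW
      rw [if_neg (by omega)]
    · rw [if_neg c1] at hW
      rw [if_pos (by omega)]
      by_cases c2 : H.idx σ.a = 0
      · rw [if_pos c2] at hW
        cases hW
        rw [c2]
        rfl
      · rw [if_neg c2] at hW
        by_cases c3 : bsr L.tm (H.idx σ.a) w 0 ≤ σ.i ∧ L.pv (bsr L.tm (H.idx σ.a) w 0) < H.idx σ.a ∧
            H.idx σ.a ≤ L.tm (bsr L.tm (H.idx σ.a) w 0)
        · rw [if_pos c3] at hW
          by_cases c4 : H.idx σ.a = L.tm (bsr L.tm (H.idx σ.a) w 0)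
          · rw [if_pos c4] at hW
            cases hW
            have hne : bsr L.tm (H.idx σ.a) w 0 ≠ σ.i := by
              intro h
              rw [h] at c4
              omega
            rw [hT _ (by omega), ← c4]
          · rw [if_neg c4] at hW
            split_ifs at hW <;> cases hW
        · rw [if_neg c3] at hW
          cases hW
  · intro m hm
    have hq : σ.q = m := by
      rw [h6, hm]
      rfl
    unfold lkup at hm
    unfold HM.rc
    by_cases c1 : σ.u < H.idx σ.a
    · rw [if_pos c1] at hm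
      cases hm
    · rw [if_neg c1] at hm
      by_cases c2 : H.idx σ.a = 0
      · rw [if_pos c2] at hm
        cases hm
      · rw [if_neg c2] at hm
        by_cases c3 : bsr L.tm (H.idx σ.a) w 0 ≤ σ.i ∧ L.pv (bsr L.tm (H.idx σ.a) w 0) < H.idx σ.a ∧
            H.idx σ.a ≤ L.tm (bsr L.tm (H.idx σ.a) w 0)
        · rw [if_pos c3] at hm
          by_cases c4 : H.idx σ.a = L.tm (bsr L.tm (H.idx σ.a) w 0)
          · rw [if_pos c4] at hm
            cases hm
          · rw [if_neg c4] at hm
            by_cases c5 : L.lb (bsr L.tm (H.idx σ.a) w 0) = κ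
            · rw [if_pos c5] at hm
              obtain ⟨j, hj⟩ : ∃ j, j = bsr L.tm (H.idx σ.a) w 0 := ⟨_, rfl⟩
              rw [← hj] at hm c3 c4 c5
              have hm' : L.off j + (H.idx σ.a - L.pv j) = m := by
                injection hm
              rw [if_pos (by omega : H.idx σ.a ≤ σ.u), hq]
              rcases Nat.lt_or_ge j σ.i with hlt | hge
              · obtain ⟨e1, e2⟩ := hI.don j hlt c5
                obtain ⟨-, e3⟩ := e2 (fun j' hj' => hT j' (by omega))
                have e4 := (e3 (H.idx σ.a - L.pv j) (by omega)).1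
                rw [if_pos (by omega), ← hm', e4]
                congr 1
                omega
              · have hji : j = σ.i := by omega
                rw [hji] at hm' c3
                have e4 := (h7 hT (H.idx σ.a - L.pv σ.i) (by omega)).1
                rw [if_pos (by omega), ← hm', e4]
                congr 1
                omega
            · rw [if_neg c5] at hm
              cases hm
        · rw [if_neg c3] at hm
          cases hm

/-- one pass of the simulation is right -/
theorem pass_sim {n : ℕ} {σ : St A} (hσ : σ = (hck H L κ w lim).U n)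
    (hI : CInv H L κ w lim n σ) (hs : σ.sim = true) :
    (hck H L κ w lim).U (n + 1) = σ.rej ∨ ∃ a', (hck H L κ w lim).U (n + 1) = St.move H L κ w σ a' ∧
      ((∀ j' < σ.i, L.st j' = H.U (L.tm j')) → a' = H.U (σ.u + 1)) := by
  rw [hck_U_succ, ← hσ]
  unfold St.pass
  by_cases h1 : lim ≤ σ.n + 1
  · rw [if_pos h1]
    exact Or.inl rfl
  · rw [if_neg h1, if_pos hs]
    cases hl : lkup L H.a0 H.e0 w κ σ.i σ.u (H.idx σ.a) with
    | bad => exact Or.inl rfl
    | val W =>
      refine Or.inr ⟨_, rfl, fun hT => ?_⟩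
      obtain ⟨e1, e2, -⟩ := lkup_ok hσ hI hs hT
      rw [e2 W hl, e1, HM.U_succ]
    | own m =>
      refine Or.inr ⟨_, rfl, fun hT => ?_⟩
      obtain ⟨e1, -, e3⟩ := lkup_ok hσ hI hs hT
      rw [e3 m hl, e1, HM.U_succ]

theorem pass_scan {n : ℕ} {σ : St A} (hσ : σ = (hck H L κ w lim).U n) (hs : σ.sim = false) :
    (hck H L κ w lim).U (n + 1) = σ.rej ∨ (hck H L κ w lim).U (n + 1) = St.scan H L κ w σ := by
  rw [hck_U_succ, ← hσ]
  unfold St.pass
  by_cases h1 : lim ≤ σ.n + 1
  · rw [if_pos h1]
    exact Or.inl rfl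
  · rw [if_neg h1, if_neg (by rw [hs]; simp)]
    exact Or.inr rfl

theorem CInv.succ {n : ℕ} (hI : CInv H L κ w lim n ((hck H L κ w lim).U n))
    (hh : ((hck H L κ w lim).U (n + 1)).hlt = false) :
    CInv H L κ w lim (n + 1) ((hck H L κ w lim).U (n + 1)) := by
  obtain ⟨σ, hσ⟩ : ∃ σ, σ = (hck H L κ w lim).U n := ⟨_, rfl⟩
  rw [← hσ] at hI
  have hnum := hI.num
  cases hs : σ.sim with
  | false =>
    rcases pass_scan hσ hs with h1 | h1
    · rw [h1] at hh
      simp [St.rej] at hh
    · rw [h1] at hh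
      obtain ⟨hp, h2 | h2⟩ := St.scan_run hh
      · obtain ⟨hl, ho, h3⟩ := h2
        rw [h3] at h1
        refine ⟨?_, ?_, ?_, ?_⟩
        · rw [h1]; show σ.n + 1 = n + 1; omega
        · rw [h1]; exact hI.srt
        · rw [h1]
          intro j hj hlj
          obtain ⟨e1, e2⟩ := hI.don j hj hlj
          exact ⟨by omega, e2⟩
        · intro _
          rw [h1]
          refine ⟨hp, hl, le_rfl, hp, ?_, rfl, ?_⟩
          · show n + 1 = L.off σ.i + (L.pv σ.i - L.pv σ.i); omega
          · intro hT t ht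
            have ht0 : t = 0 := by
              have : t ≤ L.pv σ.i - L.pv σ.i := ht
              omega
            subst ht0
            refine ⟨?_, fun h => absurd h (lt_irrefl 0)⟩
            show ((hck H L κ w lim).U (L.off σ.i + 0)).a = H.U (L.pv σ.i + 0)
            rw [Nat.add_zero, Nat.add_zero, ho, hnum, h1]
            exact ps_of_true hT
      · obtain ⟨hl, hf, hw, h3⟩ := h2
        rw [h3] at h1
        refine ⟨?_, ?_, ?_, ?_⟩
        · rw [h1]; show σ.n + 1 = n + 1; omega
        · rw [h1]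
          intro j hj
          have hj' : j < σ.i + 1 := hj
          rcases Nat.lt_or_ge j σ.i with h | h
          · exact hI.srt j h
          · have : j = σ.i := by omega
            subst this
            exact ⟨hp, hf⟩
        · rw [h1]
          intro j hj hlj
          have hj' : j < σ.i + 1 := hj
          rcases Nat.lt_or_ge j σ.i with h | h
          · obtain ⟨e1, e2⟩ := hI.don j h hlj
            exact ⟨by omega, e2⟩
          · have : j = σ.i := by omega
            subst this
            exact absurd hlj hl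
        · intro h
          rw [h1] at h
          cases h
  | true =>
    obtain ⟨c1, c2, c3, c4, c5, c6, c7⟩ := hI.cur hs
    rcases pass_sim hσ hI hs with h1 | ⟨a', h1, hU⟩
    · rw [h1] at hh
      simp [St.rej] at hh
    · have hh' := hh
      rw [h1] at hh'
      obtain ⟨ha, h2 | h2⟩ := St.move_run hh'
      · obtain ⟨hu, hst, hf, hw, h3⟩ := h2
        rw [h3] at h1
        have hnew : ∀ t, t ≤ L.tm σ.i - L.pv σ.i → (∀ j' < σ.i, L.st j' = H.U (L.tm j')) →
            ((hck H L κ w lim).U (L.off σ.i + t)).a = H.U (L.pv σ.i + t) ∧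
              (0 < t → H.hlt (H.U (L.pv σ.i + t)) = false) := by
          intro t ht hT
          rcases Nat.lt_or_ge t (L.tm σ.i - L.pv σ.i) with h | h
          · exact c7 hT t (by omega)
          · have e1 : L.off σ.i + t = n + 1 := by omega
            have e2 : L.pv σ.i + t = σ.u + 1 := by omega
            rw [e1, e2, h1, ← hU hT]
            exact ⟨rfl, fun _ => ha⟩
        refine ⟨?_, ?_, ?_, ?_⟩
        · rw [h1]; show σ.n + 1 = n + 1; omega
        · rw [h1]
          intro j hj
          have hj' : j < σ.i + 1 := hj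
          rcases Nat.lt_or_ge j σ.i with h | h
          · exact hI.srt j h
          · have : j = σ.i := by omega
            subst this
            exact ⟨c1, hf⟩
        · rw [h1]
          intro j hj hlj
          have hj' : j < σ.i + 1 := hj
          rcases Nat.lt_or_ge j σ.i with h | h
          · obtain ⟨e1, e2⟩ := hI.don j h hlj
            exact ⟨by omega, e2⟩
          · have : j = σ.i := by omega
            subst this
            refine ⟨by omega, fun hT => ⟨?_, fun t ht => hnew t ht hT⟩⟩
            rw [← hst, hU hT, hu]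
        · intro h
          rw [h1] at h
          cases h
      · obtain ⟨hu, h3⟩ := h2
        rw [h3] at h1
        refine ⟨?_, ?_, ?_, ?_⟩
        · rw [h1]; show σ.n + 1 = n + 1; omega
        · rw [h1]; exact hI.srt
        · rw [h1]
          intro j hj hlj
          obtain ⟨e1, e2⟩ := hI.don j hj hlj
          exact ⟨by omega, e2⟩
        · intro _
          rw [h1]
          refine ⟨c1, c2, ?_, ?_, ?_, rfl, ?_⟩
          · show L.pv σ.i ≤ σ.u + 1; omega
          · show σ.u + 1 < L.tm σ.i; omega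
          · show n + 1 = L.off σ.i + (σ.u + 1 - L.pv σ.i); omega
          · intro hT t ht
            have ht' : t ≤ σ.u + 1 - L.pv σ.i := ht
            show ((hck H L κ w lim).U (L.off σ.i + t)).a = H.U (L.pv σ.i + t) ∧
              (0 < t → H.hlt (H.U (L.pv σ.i + t)) = false)
            rcases Nat.lt_or_ge t (σ.u + 1 - L.pv σ.i) with h | h
            · exact c7 hT t (by omega)
            · have e1 : L.off σ.i + t = n + 1 := by omega
              have e2 : L.pv σ.i + t = σ.u + 1 := by omega
              rw [e1, e2, h1, ← hU hT]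
              exact ⟨rfl, fun _ => ha⟩

theorem CInv.all {N : ℕ} (h : ∀ m < N, ((hck H L κ w lim).U m).hlt = false) :
    ∀ n < N, CInv H L κ w lim n ((hck H L κ w lim).U n) := by
  intro n
  induction n with
  | zero =>
    intro _
    refine ⟨rfl, ?_, ?_, ?_⟩
    · intro j hj; exact absurd hj (Nat.not_lt_zero j)
    · intro j hj; exact absurd hj (Nat.not_lt_zero j)
    · intro hs; cases hs
  | succ n ih =>
    intro hn
    exact (ih (by omega)).succ (h _ hn)

/-- what an accepting run tells -/
theorem hck_accept {N : ℕ} (h : (hck H L κ w lim).Out N true) :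
    ∃ F, (∀ j ≤ F, L.pv j < L.tm j) ∧ (∀ j < F, L.fin j = false) ∧ L.fin F = true ∧
      (∀ j < F, L.lb j = κ → (∀ j' < j, L.st j' = H.U (L.tm j')) →
        L.st j = H.U (L.tm j) ∧ ∀ m, L.pv j < m → m ≤ L.tm j → H.hlt (H.U m) = false) ∧
      (L.lb F = κ → (∀ j' < F, L.st j' = H.U (L.tm j')) →
        H.hlt (H.U (L.tm F)) = true ∧ H.acc (H.U (L.tm F)) = true ∧
        ∀ m, L.pv F < m → m < L.tm F → H.hlt (H.U m) = false) := by
  obtain ⟨h1, h2, h3⟩ := h
  have hN : N ≠ 0 := by
    rintro rfl
    have h2' : ((hck H L κ w lim).U 0).hlt = true := h2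
    rw [hck_U_zero] at h2'
    cases h2'
  obtain ⟨n, rfl⟩ : ∃ n, N = n + 1 := ⟨N - 1, by omega⟩
  have hI := CInv.all h1 n (by omega)
  obtain ⟨σ, hσ⟩ : ∃ σ, σ = (hck H L κ w lim).U n := ⟨_, rfl⟩
  rw [← hσ] at hI
  have h2' : ((hck H L κ w lim).U (n + 1)).hlt = true := h2
  have h3' : ((hck H L κ w lim).U (n + 1)).acc = true := h3
  have hdon : ∀ j < σ.i, L.lb j = κ → (∀ j' < j, L.st j' = H.U (L.tm j')) →
      L.st j = H.U (L.tm j) ∧ ∀ m, L.pv j < m → m ≤ L.tm j → H.hlt (H.U m) = false := by
    intro j hj hlj hT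
    obtain ⟨-, e2⟩ := hI.don j hj hlj
    obtain ⟨e3, e4⟩ := e2 hT
    refine ⟨e3, fun m hm hm' => ?_⟩
    have := (e4 (m - L.pv j) (by omega)).2 (by omega)
    rwa [show L.pv j + (m - L.pv j) = m by omega] at this
  cases hs : σ.sim with
  | false =>
    rcases pass_scan hσ hs with h4 | h4
    · rw [h4] at h3'
      simp [St.rej] at h3'
    · rw [h4] at h2' h3'
      obtain ⟨e1, e2, e3⟩ := St.scan_yes h2' h3'
      refine ⟨σ.i, ?_, fun j hj => (hI.srt j hj).2, e3, hdon, fun hl => absurd hl e2⟩
      intro j hj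
      rcases Nat.lt_or_ge j σ.i with h | h
      · exact (hI.srt j h).1
      · have : j = σ.i := by omega
        subst this
        exact e1
  | true =>
    obtain ⟨c1, c2, c3, c4, c5, c6, c7⟩ := hI.cur hs
    rcases pass_sim hσ hI hs with h4 | ⟨a', h4, hU⟩
    · rw [h4] at h3'
      simp [St.rej] at h3'
    · rw [h4] at h2' h3'
      obtain ⟨e1, e2, e3, e4, e5⟩ := St.move_yes h2' h3'
      refine ⟨σ.i, ?_, fun j hj => (hI.srt j hj).2, e3, hdon, fun _ hT => ?_⟩
      · intro j hj
        rcases Nat.lt_or_ge j σ.i with h | h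
        · exact (hI.srt j h).1
        · have : j = σ.i := by omega
          subst this
          exact c1
      · rw [← e1, ← hU hT]
        refine ⟨e4, e5, fun m hm hm' => ?_⟩
        have := (c7 hT (m - L.pv σ.i) (by omega)).2 (by omega)
        rwa [show L.pv σ.i + (m - L.pv σ.i) = m by omega] at this

/-- **Soundness of the checks.** -/
theorem hck_sound (h0 : H.hlt H.a0 = false) (hlb : ∀ i, L.lb i < 2 ^ w)
    (h : ∀ κ < 2 ^ w, ∃ N, (hck H L κ w lim).Out N true) : ∃ N, H.Out N true := by
  have hmain : ∀ κ < 2 ^ w, _ := fun κ hκ => (hck_accept (h κ hκ).choose_spec)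
  obtain ⟨F, hF1, hF2, hF3, -, -⟩ := hmain 0 (by positivity)
  -- all entries before `F` are true
  have key : ∀ j < F, (L.st j = H.U (L.tm j) ∧
      ∀ m, L.pv j < m → m ≤ L.tm j → H.hlt (H.U m) = false) := by
    intro j
    induction j using Nat.strong_induction_on with
    | _ j ih =>
      intro hj
      obtain ⟨F', g1, g2, g3, g4, -⟩ := hmain (L.lb j) (hlb j)
      have hFF : F' = F := by
        rcases Nat.lt_trichotomy F' F with h | h | h
        · have := hF2 F' h
          rw [g3] at this
          cases this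
        · exact h
        · have := g2 F h
          rw [hF3] at this
          cases this
      subst hFF
      exact g4 j hj rfl (fun j' hj' => (ih j' hj' (by omega)).1)
  obtain ⟨F', g1, g2, g3, -, g5⟩ := hmain (L.lb F) (hlb F)
  have hFF : F' = F := by
    rcases Nat.lt_trichotomy F' F with h | h | h
    · have := hF2 F' h
      rw [g3] at this
      cases this
    · exact h
    · have := g2 F h
      rw [hF3] at this
      cases this
  subst hFF
  obtain ⟨e1, e2, e3⟩ := g5 rfl (fun j' hj' => (key j' hj').1)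
  -- every time before `tm F` is in a segment
  have cover : ∀ i ≤ F', ∀ m, 0 < m → m ≤ L.pv i → H.hlt (H.U m) = false := by
    intro i
    induction i with
    | zero =>
      intro _ m hm hm'
      have : m ≤ 0 := hm'
      omega
    | succ i ih =>
      intro hi m hm hm'
      have hm'' : m ≤ L.tm i := hm'
      rcases Nat.lt_or_ge (L.pv i) m with h | h
      · exact (key i (by omega)).2 m h hm''
      · exact ih (by omega) m hm h
  refine ⟨L.tm F', fun m hm => ?_, e1, e2⟩
  rcases Nat.eq_zero_or_pos m with h | h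
  · subst h
    exact h0
  · rcases Nat.lt_or_ge (L.pv F') m with h' | h'
    · exact e3 m h' hm
    · exact cover F' le_rfl m h h'

/-- **The clock.** -/
theorem hck_halts (hlim : 1 ≤ lim) : ∃ N b, N ≤ lim ∧ (hck H L κ w lim).Out N b := by
  by_contra hcon
  push Not at hcon
  have hnh : ∀ m ≤ lim, ((hck H L κ w lim).U m).hlt = false := by
    intro m
    induction m using Nat.strong_induction_on with
    | _ m ih =>
      intro hm
      by_contra h
      have h' : ((hck H L κ w lim).U m).hlt = true := by simpa using h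
      exact hcon m _ hm ⟨fun m' hm' => ih m' hm' (by omega), h', rfl⟩
  obtain ⟨l, rfl⟩ : ∃ l, lim = l + 1 := ⟨lim - 1, by omega⟩
  have hI := CInv.all (N := l + 1) (fun m hm => hnh m hm.le) l (by omega)
  have h1 := hnh (l + 1) le_rfl
  rw [hck_U_succ] at h1
  unfold St.pass at h1
  rw [if_pos (by rw [hI.num])] at h1
  simp [St.rej] at h1

end Pool.Agent.NUM
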