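import Pool.Agent.NUM.HRd
import Pool.Agent.NUM.CpArith
import Pool.Agent.NUM.Local
import Pool.Agent.NUM.Trans

/-!
# Code of the check: binary search
-/

set_option autoImplicit false

namespace Pool.Agent.NUM

namespace HCodeB

theorem num_true (n : ℕ) : num n (fun _ => true) + 1 = 2 ^ n := by
  induction n with
  | zero => simp [num]
  | succ n ih =>
    rw [num_succ, if_pos rfl, pow_succ]
    omega

theorem hc_num_false (n : ℕ) : num n (fun _ => false) = 0 := by simp [num]

theorem num_split {w k : ℕ} (hk : k < w) (m : ℕ → Bool) :
    num w (fun j => if j < k then true else if j = k then false else m j) + 1 =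
      num w (fun j => if k + 1 ≤ j then m j else false) + 2 ^ k := by
  induction w with
  | zero => omega
  | succ w ih =>
    rw [num_succ, num_succ]
    rcases Nat.lt_or_ge k w with h | h
    · have h1 := ih h
      rw [if_neg (show ¬ w < k by omega), if_neg (show ¬ w = k by omega),
        if_pos (show k + 1 ≤ w by omega)]
      omega
    · obtain rfl : k = w := by omega
      rw [if_neg (lt_irrefl k), if_pos rfl, if_neg (show ¬ (false = true) by simp),
        if_neg (show ¬ (k + 1 ≤ k) by omega), if_neg (show ¬ (false = true) by simp)]
      have h2 : num k (fun j => if j < k then true else if j = k then false else m j) =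
          num k (fun _ => true) := num_congr fun i hi => by rw [if_pos hi]
      have h3 : num k (fun j => if k + 1 ≤ j then m j else false) = num k (fun _ => false) :=
        num_congr fun i hi => by rw [if_neg (by omega)]
      have h4 := num_true k
      rw [h2, h3, hc_num_false]
      omega

theorem num_upd {w k : ℕ} (hk : k < w) (m : ℕ → Bool) (c : Bool) :
    num w (fun j => if k ≤ j then (if j = k then c else m j) else false) =
      num w (fun j => if k + 1 ≤ j then m j else false) + (if c = true then 2 ^ k else 0) := by
  induction w with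
  | zero => omega
  | succ w ih =>
    rw [num_succ, num_succ]
    rcases Nat.lt_or_ge k w with h | h
    · have h1 := ih h
      rw [if_pos (show k ≤ w by omega), if_neg (show ¬ w = k by omega),
        if_pos (show k + 1 ≤ w by omega)]
      omega
    · obtain rfl : k = w := by omega
      have h2 : num k (fun j => if k ≤ j then (if j = k then c else m j) else false) =
          num k (fun _ => false) := num_congr fun i hi => by rw [if_neg (by omega)]
      have h3 : num k (fun j => if k + 1 ≤ j then m j else false) = num k (fun _ => false) :=
        num_congr fun i hi => by rw [if_neg (by omega)]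
      rw [if_pos le_rfl, if_pos rfl, if_neg (show ¬ (k + 1 ≤ k) by omega),
        if_neg (show ¬ (false = true) by simp), h2, h3, hc_num_false]

/-- one stage of the search: bit `k` of the result is computed into the cell `wa + k` -/
def stg (w b wa wt : ℕ) (T : Inp → List Bool → ℕ → Bool) (k : ℕ) (y : Inp) (M : Mem) : Mem :=
  Function.update M (wa + k) (decide
    (num b (fun r => T y ((List.range w).map fun j =>
      if j < k then true else if j = k then false else M (wa + j)) r) <
      num b fun r => M (wt + r)))

/-- `t` stages -/
def lop (w b wa wt : ℕ) (T : Inp → List Bool → ℕ → Bool) : ℕ → Inp → Mem → Mem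
  | 0 => fun _ M => M
  | t + 1 => fun y M => stg w b wa wt T (w - 1 - t) y (lop w b wa wt T t y M)

theorem lop_spec {w b wa wt : ℕ} (T : Inp → List Bool → ℕ → Bool) (y : Inp) (M : Mem)
    (hd : wt + b ≤ wa ∨ wa + w ≤ wt) : ∀ t ≤ w,
    (∀ q, ¬ (wa + (w - t) ≤ q ∧ q < wa + w) → lop w b wa wt T t y M q = M q) ∧
    bsr (fun i => num b (T y (bits w i))) (num b fun r => M (wt + r)) w 0 =
      bsr (fun i => num b (T y (bits w i))) (num b fun r => M (wt + r)) (w - t)
        (num w fun j => if w - t ≤ j then lop w b wa wt T t y M (wa + j) else false) := by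
  intro t
  induction t with
  | zero =>
    intro _
    refine ⟨fun q _ => rfl, ?_⟩
    have h1 : (num w fun j => if w - 0 ≤ j then lop w b wa wt T 0 y M (wa + j) else false) =
        num w (fun _ => false) := num_congr fun i hi => by rw [if_neg (by omega)]
    rw [h1, hc_num_false]
    rfl
  | succ t ih =>
    intro ht
    obtain ⟨h1, h2⟩ := ih (by omega)
    obtain ⟨k, hk⟩ : ∃ k, k = w - 1 - t := ⟨_, rfl⟩
    have hkw : k < w := by omega
    have e1 : w - t = k + 1 := by omega
    have e2 : w - (t + 1) = k := by omega
    rw [e1] at h1 h2
    rw [e2]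
    have hlop : lop w b wa wt T (t + 1) y M = stg w b wa wt T k y (lop w b wa wt T t y M) := by
      rw [hk]; rfl
    rw [hlop]
    generalize hM' : lop w b wa wt T t y M = M' at h1 h2 ⊢
    refine ⟨fun q hq => ?_, ?_⟩
    · unfold stg
      rw [Function.update_of_ne (by omega), h1 q (by omega)]
    · rw [h2]
      have hwt : (num b fun r => M' (wt + r)) = num b fun r => M (wt + r) :=
        num_congr fun r hr => h1 _ (by omega)
      have hA := num_split hkw (fun j => M' (wa + j))
      set A : ℕ := num w (fun j => if k + 1 ≤ j then M' (wa + j) else false) with hAdef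
      have hidx : (List.range w).map (fun j =>
          if j < k then true else if j = k then false else M' (wa + j)) =
          bits w (A + 2 ^ k - 1) := by
        rw [← bits_num]
        congr 1
        omega
      set c : Bool := decide (num b (T y (bits w (A + 2 ^ k - 1))) < num b fun r => M (wt + r))
        with hc
      have hstg : stg w b wa wt T k y M' = Function.update M' (wa + k) c := by
        unfold stg
        rw [hidx, hwt]
      have hnew : (num w fun j => if k ≤ j then stg w b wa wt T k y M' (wa + j) else false) =
          A + (if c = true then 2 ^ k else 0) := by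
        rw [hAdef, ← num_upd hkw (fun j => M' (wa + j)) c]
        refine num_congr fun j _ => ?_
        rw [hstg]
        by_cases hj : j = k
        · subst hj; rw [Function.update_self, if_pos rfl]
        · rw [Function.update_of_ne (by omega), if_neg hj]
      rw [hnew]
      have hb : bsr (fun i => num b (T y (bits w i))) (num b fun r => M (wt + r)) (k + 1) A =
          if num b (T y (bits w (A + 2 ^ k - 1))) < (num b fun r => M (wt + r)) then
            bsr (fun i => num b (T y (bits w i))) (num b fun r => M (wt + r)) k (A + 2 ^ k)
          else bsr (fun i => num b (T y (bits w i))) (num b fun r => M (wt + r)) k A := rfl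
      rw [hb]
      by_cases hcc : num b (T y (bits w (A + 2 ^ k - 1))) < num b fun r => M (wt + r)
      · have : c = true := by rw [hc]; exact decide_eq_true hcc
        rw [if_pos hcc, this, if_pos rfl]
      · have : c = false := by rw [hc]; exact decide_eq_false hcc
        rw [if_neg hcc, this]
        simp

/-- the result of the search is in the cells `wa + j` -/
theorem lop_final {w b wa wt : ℕ} (T : Inp → List Bool → ℕ → Bool) (y : Inp) (M : Mem)
    (hd : wt + b ≤ wa ∨ wa + w ≤ wt) {j : ℕ} (hj : j < w) :
    lop w b wa wt T w y M (wa + j) =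
      (bsr (fun i => num b (T y (bits w i))) (num b fun r => M (wt + r)) w 0).testBit j := by
  rw [(lop_spec T y M hd w le_rfl).2, Nat.sub_self]
  show _ = (num w _).testBit j
  rw [testBit_num]
  simp [hj]

theorem stg_tr {w b wa wt X s : ℕ} {T : Inp → List Bool → ℕ → Bool}
    (hT : ∀ g : ℕ → Inp → Mem → Bool, (∀ j < w, Cp X 8 (g j)) → ∀ r < b,
      Cp X s (fun y M => T y ((List.range w).map fun j => g j y M) r))
    (hwa : wa + w ≤ X) (hwt : wt + b ≤ X) {k : ℕ} (hk : k < w) :
    Tr X (b * (b * (2 * s + 2 * 2 + 100) + 2 * s + 2 * 2 + 200) + 50)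
      (stg w b wa wt T k) := by
  have h1 := Cp.numLt (b := X) (s := s) (t := 2) (n := b)
    (g := fun r y M => T y ((List.range w).map fun j =>
      if j < k then true else if j = k then false else M (wa + j)) r)
    (g' := fun r _ M => M (wt + r))
    (fun r hr => hT (fun j _ M => if j < k then true else if j = k then false else M (wa + j))
      (fun j hj => by
        by_cases h2 : j < k
        · simp only [if_pos h2]; exact Cp.const X true
        · by_cases h3 : j = k
          · simp only [if_neg h2, if_pos h3]; exact Cp.const X false
          · simp only [if_neg h2, if_neg h3]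
            exact (Cp.cell (show wa + j < X by omega)).mono le_rfl (by omega)) r hr)
    (fun r hr => Cp.cell (by omega))
  exact Tr.set h1 (by omega)

theorem lop_tr {w b wa wt X s : ℕ} {T : Inp → List Bool → ℕ → Bool}
    (hT : ∀ g : ℕ → Inp → Mem → Bool, (∀ j < w, Cp X 8 (g j)) → ∀ r < b,
      Cp X s (fun y M => T y ((List.range w).map fun j => g j y M) r))
    (hwa : wa + w ≤ X) (hwt : wt + b ≤ X) : ∀ t ≤ w,
    Tr X (t * (b * (b * (2 * s + 2 * 2 + 100) + 2 * s + 2 * 2 + 200) + 50))
      (lop w b wa wt T t) := by
  intro t
  induction t with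
  | zero => intro _; exact (Tr.id X).mono (Nat.zero_le _)
  | succ t ih =>
    intro ht
    have h1 := (ih (by omega)).comp (stg_tr hT hwa hwt (show w - 1 - t < w by omega))
    exact h1.mono (le_of_eq (Nat.succ_mul _ _).symm)

/-- loading the number that is searched -/
def ldT (b wt : ℕ) (τ : Inp → Mem → ℕ) (y : Inp) (M : Mem) : Mem :=
  fun q => bif decide (wt ≤ q ∧ q < wt + b) then (τ y M).testBit (q - wt) else M q

/-- **binary search**: the bits of the result are computable -/
theorem bsr_bit {w b X s t : ℕ} {T : Inp → List Bool → ℕ → Bool}
    (hT : ∀ g : ℕ → Inp → Mem → Bool, (∀ j < w, Cp X 8 (g j)) → ∀ r < b,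
      Cp X s (fun y M => T y ((List.range w).map fun j => g j y M) r))
    (hX : b + w ≤ X) {τ : Inp → Mem → ℕ} (hτ : ∀ y M, τ y M < 2 ^ b)
    (hτb : ∀ r < b, Cp X t (fun y M => (τ y M).testBit r)) {j : ℕ} (hj : j < w) :
    Cp X (X * (t + 5) + 1 +
        w * (b * (b * (2 * s + 2 * 2 + 100) + 2 * s + 2 * 2 + 200) + 50) + 4 * X + 4)
      (fun y M => (bsr (fun i => num b (T y (bits w i))) (τ y M) w 0).testBit j) := by
  have h1 : Tr X (X * (t + 5) + 1) (ldT b 0 τ) := by
    refine Tr.setMany (b := X) (s := t) (g := fun q y M => (τ y M).testBit (q - 0))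
      (S := fun q => decide (0 ≤ q ∧ q < 0 + b)) fun q hq hS => ?_
    simp only [decide_eq_true_eq] at hS
    exact hτb _ (by omega)
  have h2 := h1.comp (lop_tr (wa := b) (wt := 0) hT (by omega) (by omega) w le_rfl)
  have h3 := h2.cell (q := b + j) (by omega)
  refine h3.congr fun y M => ?_
  show lop w b b 0 T w y (ldT b 0 τ y M) (b + j) = _
  rw [lop_final T y (ldT b 0 τ y M) (Or.inl (by omega)) hj]
  congr 2
  have h4 : (num b fun r => ldT b 0 τ y M (0 + r)) = num b (fun r => (τ y M).testBit r) := by
    refine num_congr fun r hr => ?_
    unfold ldT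
    have : decide (0 ≤ 0 + r ∧ 0 + r < 0 + b) = true := decide_eq_true (by omega)
    rw [this, cond_true]
    congr 1
    omega
  rw [h4, num_testBit, Nat.mod_eq_of_lt (hτ y M)]

end HCodeB

end Pool.Agent.NUM
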