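import Pool.Agent.NUM.HCodeA
import Pool.Agent.NUM.HCodeB

/-!
# The code of the check of history programs: look-up

* `CXL.pred`, `CXL.pv`, `CXL.ps`: predecessor of a computed number; `L.pv`, `L.ps` at a computed index;
* `CX.bsr`: the result of the binary search is a computable number;
* `CLk`: computable result of a look-up; `CLk.lkup`: the look-up is computable.
-/

set_option autoImplicit false

set_option linter.unusedSimpArgs false

namespace Pool.Agent.NUM

/-- the look-up says that something is wrong -/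
def Lk.isBad {A : Type} : Lk A → Bool
  | .bad => true
  | _ => false

/-- the look-up says that a pass is to be recalled -/
def Lk.isOwn {A : Type} : Lk A → Bool
  | .own _ => true
  | _ => false

/-- the value found -/
def Lk.vec {h : ℕ} : Lk (Fin h → Bool) → Fin h → Bool
  | .val W => W
  | _ => fun _ => false

/-- computable result of a look-up -/
structure CLk (B s b : ℕ) {h : ℕ} (x : Inp → Mem → Lk (Fin h → Bool)) : Prop where
  bad : Cp B s (fun y M => (x y M).isBad)
  own : Cp B s (fun y M => (x y M).isOwn)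
  val : CV B s (fun y M => (x y M).vec)
  num : CN B s (b + 1) (fun y M => (x y M).num)

section

variable {X B k l n m h w b σ : ℕ}

/-! ### predecessor -/

theorem num_not (n : ℕ) (g : ℕ → Bool) : num n (fun i => !(g i)) + num n g + 1 = 2 ^ n := by
  induction n with
  | zero => simp [Pool.Agent.NUM.num]
  | succ n ih =>
    rw [num_succ, num_succ, pow_succ]
    cases hg : g n
    · simp only [Bool.not_false, if_true, Bool.false_eq_true, if_false]
      omega
    · simp only [Bool.not_true, if_true, Bool.false_eq_true, if_false]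
      omega

theorem testBit_pred {n x : ℕ} (hx : x < 2 ^ n) {r : ℕ} (hr : r < n) :
    (x - 1).testBit r = (!(decide (num n (fun i => x.testBit i) = 0)) &&
      !((num n (fun i => !(x.testBit i)) + 1).testBit r)) := by
  rw [hc_num_testBit_eq hx]
  rcases Nat.eq_zero_or_pos x with h0 | h0
  · subst h0
    simp
  · have h1 := num_not n (fun i => x.testBit i)
    rw [hc_num_testBit_eq hx] at h1
    set c := num n (fun i => !(x.testBit i)) with hc
    have h2 := num_not n (fun i => (c + 1).testBit i)
    have h3 : c + 1 < 2 ^ n := by omega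
    rw [hc_num_testBit_eq h3] at h2
    have h4 : x - 1 = num n (fun i => !((c + 1).testBit i)) := by omega
    rw [h4, testBit_num]
    have h5 : decide (x = 0) = false := decide_eq_false (by omega)
    rw [h5]
    simp [hr]

theorem CXL.pred (hX : 1000 ≤ X) (hn : n ≤ X) {x : Inp → Mem → ℕ} (hx : CN B (X ^ k) n x) :
    CN B (X ^ (k + 2)) n (fun z M => x z M - 1) := by
  have hp : ∀ z M, x z M - 1 < 2 ^ n := fun z M => by have := hx.lt z M; omega
  refine ⟨hp, fun r => ?_⟩
  by_cases hr : r < n
  · have h1 := (Cp.numEq (n := n) (g := fun i z M => (x z M).testBit i) (fun i _ => hx.bit i) 0).not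
    have h2 := (Cp.succBit (n := n) (g := fun i z M => !((x z M).testBit i))
      (fun i _ => (hx.bit i).not) r hr).not
    refine ((h1.and h2).congr fun z M => ?_).mono le_rfl (Xb2 hX k fun a h1 h2 => ?_)
    · rw [testBit_pred (hx.lt z M) hr]
    · rw [← h2]
      have h3 : X * 1 ≤ X * a := Nat.mul_le_mul_left X h1
      have h3' : a ≤ X * a := Nat.le_mul_of_pos_left _ (by omega)
      have h4 : n * (2 * a + 100) ≤ X * (102 * a) := Nat.mul_le_mul hn (by omega)
      have h4' : n * (a + 5 + 50) ≤ X * (56 * a) := Nat.mul_le_mul hn (by omega)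
      have h5 : X * (102 * a) = 102 * (X * a) := by ring
      have h5' : X * (56 * a) = 56 * (X * a) := by ring
      have h6 : X * (1000 * a) = 1000 * (X * a) := by ring
      rw [h5] at h4
      rw [h5'] at h4'
      rw [h6]
      generalize X * a = p at *
      generalize n * (2 * a + 100) = q at *
      generalize n * (a + 5 + 50) = q' at *
      omega
  · refine ((CX.const hX false).up hX (by omega : 1 ≤ k + 2)).congr fun z M => ?_
    symm
    apply Nat.testBit_lt_two_pow
    exact (hp z M).trans_le (Nat.pow_le_pow_right (by norm_num) (by omega))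

/-- the time before the segment with a computed number -/
theorem CXL.pv (hX : 1000 * (h + w + b + σ + 10) ≤ X) {i : Inp → Mem → ℕ}
    (hi : CN B (X ^ (k + 1)) w i) :
    CN B (X ^ (k + 6)) b (fun y M => (rdL h w b σ (vO y)).pv (i y M)) := by
  have h1 := CX.isZero (by omega) (by omega) hi
  have h2 := CX.tm (h := h) (b := b) (σ := σ) (k := k + 2) hX
    (CXL.pred (by omega) (by omega) hi)
  refine (CN.bif (k := k + 5) (by omega) (h1.up (by omega) (by omega))
    ((CN.const (B := B) (X := X) (n := b) (c := 0) (by omega) (by positivity)).up (by omega)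
      (by omega)) h2).congr fun y M => ?_
  rw [pv_eq]

/-- the state before the segment with a computed number -/
theorem CXL.ps (hX : 1000 * (h + w + b + σ + 10) ≤ X) {i : Inp → Mem → ℕ}
    (hi : CN B (X ^ (k + 1)) w i) (a0 : Fin h → Bool) :
    CV B (X ^ (k + 6)) (fun y M => (rdL h w b σ (vO y)).ps a0 (i y M)) := by
  have h1 := CX.isZero (by omega) (by omega) hi
  have h2 := CX.st (h := h) (b := b) (σ := σ) (k := k + 2) hX
    (CXL.pred (by omega) (by omega) hi)
  refine (CV.bif (k := k + 5) (by omega) (h1.up (by omega) (by omega))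
    ((CV.const (B := B) (X := X) (by omega) a0).up (by omega) (by omega)) h2).congr fun y M => ?_
  rw [ps_eqA]

/-! ### binary search -/

theorem CX.bsr (hX : 1000 * (h + w + b + σ + 10) ≤ X) {t : Inp → Mem → ℕ}
    (ht : CN X (X ^ (k + 1)) b t) :
    CN X (X ^ (k + 7)) w (fun y M => bsr (rdL h w b σ (vO y)).tm (t y M) w 0) := by
  have hX' : 1000 ≤ X := by omega
  have hlt : ∀ y M, Pool.Agent.NUM.bsr (rdL h w b σ (vO y)).tm (t y M) w 0 < 2 ^ w := by
    intro y M
    have := bsr_lt (v := (rdL h w b σ (vO y)).tm) (q := t y M) w 0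
    omega
  refine ⟨hlt, fun r => ?_⟩
  by_cases hr : r < w
  · have hT : ∀ g : ℕ → Inp → Mem → Bool, (∀ j < w, Cp X 8 (g j)) → ∀ r < b,
        Cp X (X ^ 3) (fun y M => (fun (y : Inp) (a : List Bool) (r : ℕ) =>
          y ([false, true] ++ (a ++ (bits 3 0 ++ bits σ r)))) y
            ((List.range w).map fun j => g j y M) r) := by
      intro g hg r _
      have h1 : CN X (X ^ (0 + 1)) w (fun y M => Pool.Agent.NUM.num w (fun j => g j y M)) :=
        CN.of hX' fun j hj => (hg j hj).mono le_rfl (by rw [Nat.zero_add, pow_one]; omega)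
      refine (CX.askAt (k := 0) hX' [false, true] (bits 3 0 ++ bits σ r) ?_ h1).congr
        fun y M => ?_
      · rw [List.length_append, length_bits, length_bits]
        simp only [List.length_cons, List.length_nil]
        omega
      · simp only [bits_num]
    have h2 := HCodeB.bsr_bit (T := fun (y : Inp) (a : List Bool) (r : ℕ) =>
        y ([false, true] ++ (a ++ (bits 3 0 ++ bits σ r)))) (X := X) (s := X ^ 3) hT (by omega)
      (τ := t) (fun y M => ht.lt y M) (fun r _ => ht.bit r) hr
    refine (h2.congr fun y M => rfl).mono le_rfl ?_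
    -- size
    have hx3 : X ^ 3 = X * (X * X) := by ring
    have e1 : 1 ≤ X ^ (k + 1) := Xpow_pos hX' _
    have e2 : X ^ (k + 2) = X * X ^ (k + 1) := by ring
    have e3 : X ^ (k + 7) = X * X ^ (k + 6) := by ring
    have e4 : X ^ (k + 6) = X ^ 6 * X ^ k := by ring
    have e5 : 1 ≤ X ^ k := Xpow_pos hX' _
    have a1 : X * (X ^ (k + 1) + 5) ≤ 6 * X ^ (k + 6) := by
      have : X * (X ^ (k + 1) + 5) ≤ X * (6 * X ^ (k + 1)) := Nat.mul_le_mul_left _ (by omega)
      have h3 : X * (6 * X ^ (k + 1)) = 6 * X ^ (k + 2) := by ring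
      have h4 : X ^ (k + 2) ≤ X ^ (k + 6) := Xpow_le hX' (by omega)
      omega
    have a2 : w * (b * (b * (2 * X ^ 3 + 2 * 2 + 100) + 2 * X ^ 3 + 2 * 2 + 200) + 50) ≤
        2 * X ^ (k + 6) := by
      have b1 : 1 ≤ X ^ 3 := Xpow_pos hX' _
      have b2 : b * (2 * X ^ 3 + 2 * 2 + 100) ≤ X * X ^ 3 := by
        have : 1000 * b ≤ X := by omega
        calc b * (2 * X ^ 3 + 2 * 2 + 100) ≤ b * (1000 * X ^ 3) :=
              Nat.mul_le_mul_left _ (by omega)
          _ = (1000 * b) * X ^ 3 := by ring
          _ ≤ X * X ^ 3 := Nat.mul_le_mul_right _ this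
      have b3 : b * (b * (2 * X ^ 3 + 2 * 2 + 100) + 2 * X ^ 3 + 2 * 2 + 200) ≤
          X * (X * X ^ 3) := by
        have h5 : 1000 * b ≤ X := by omega
        have h6 : X ^ 3 ≤ X * X ^ 3 := Nat.le_mul_of_pos_left _ (by omega)
        calc b * (b * (2 * X ^ 3 + 2 * 2 + 100) + 2 * X ^ 3 + 2 * 2 + 200)
            ≤ b * (1000 * (X * X ^ 3)) := Nat.mul_le_mul_left _ (by omega)
          _ = (1000 * b) * (X * X ^ 3) := by ring
          _ ≤ X * (X * X ^ 3) := Nat.mul_le_mul_right _ h5
      have b4 : w * (b * (b * (2 * X ^ 3 + 2 * 2 + 100) + 2 * X ^ 3 + 2 * 2 + 200) + 50) ≤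
          X * (X * (X * X ^ 3)) := by
        have h5 : 1000 * w ≤ X := by omega
        have h6 : 1 ≤ X * (X * X ^ 3) := by
          have : X * (X * X ^ 3) = X ^ 5 := by ring
          rw [this]; exact Xpow_pos hX' _
        calc w * (b * (b * (2 * X ^ 3 + 2 * 2 + 100) + 2 * X ^ 3 + 2 * 2 + 200) + 50)
            ≤ w * (1000 * (X * (X * X ^ 3))) := Nat.mul_le_mul_left _ (by
              refine (Nat.add_le_add_right b3 50).trans ?_
              generalize X * (X * X ^ 3) = p at h6 ⊢
              omega)
          _ = (1000 * w) * (X * (X * X ^ 3)) := by ring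
          _ ≤ X * (X * (X * X ^ 3)) := Nat.mul_le_mul_right _ h5
      have b5 : X * (X * (X * X ^ 3)) = X ^ 6 := by ring
      have b6 : X ^ 6 ≤ X ^ (k + 6) := Xpow_le hX' (by omega)
      omega
    have a3 : X ≤ X ^ (k + 6) := by
      calc X = X ^ 1 := (pow_one X).symm
        _ ≤ X ^ (k + 6) := Xpow_le hX' (by omega)
    have a4 : 1000 * X ^ (k + 6) ≤ X * X ^ (k + 6) := Nat.mul_le_mul_right _ hX'
    rw [e3]
    generalize X ^ (k + 6) = p at *
    generalize X * (X ^ (k + 1) + 5) = q at *
    generalize w * (b * (b * (2 * X ^ 3 + 2 * 2 + 100) + 2 * X ^ 3 + 2 * 2 + 200) + 50) = q' at *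
    omega
  · refine ((CX.const hX' false).up hX' (by omega : 1 ≤ k + 7)).congr fun z M => ?_
    symm
    apply Nat.testBit_lt_two_pow
    exact (hlt z M).trans_le (Nat.pow_le_pow_right (by norm_num) (by omega))

/-! ### results of look-ups -/

theorem CLk.up {x : Inp → Mem → Lk (Fin h → Bool)} (hx : CLk B (X ^ k) b x) (hX : 1000 ≤ X)
    (hkl : k ≤ l) : CLk B (X ^ l) b x :=
  ⟨hx.bad.up hX hkl, hx.own.up hX hkl, hx.val.up hX hkl, hx.num.up hX hkl⟩

theorem CLk.congr {s : ℕ} {x y : Inp → Mem → Lk (Fin h → Bool)} (hx : CLk B s b x)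
    (hxy : ∀ z M, x z M = y z M) : CLk B s b y := by
  have : x = y := by funext z M; exact hxy z M
  rwa [← this]

theorem CLk.bif {f : Inp → Mem → Bool} {x y : Inp → Mem → Lk (Fin h → Bool)} (hX : 1000 ≤ X)
    (hf : Cp B (X ^ k) f) (hx : CLk B (X ^ k) b x) (hy : CLk B (X ^ k) b y) :
    CLk B (X ^ (k + 1)) b (fun z M => bif f z M then x z M else y z M) :=
  ⟨(CX.bif hX hf hx.bad hy.bad).congr fun z M => by cases f z M <;> rfl,
    (CX.bif hX hf hx.own hy.own).congr fun z M => by cases f z M <;> rfl,
    (CV.bif hX hf hx.val hy.val).congr fun z M => by cases f z M <;> rfl,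
    (CN.bif hX hf hx.num hy.num).congr fun z M => by cases f z M <;> rfl⟩

theorem CLk.cbad (hX : 1000 ≤ X) : CLk B (X ^ (k + 1)) b (fun _ _ => (Lk.bad : Lk (Fin h → Bool))) :=
  ⟨((CX.const hX true).up hX (by omega)).congr fun _ _ => rfl,
    ((CX.const hX false).up hX (by omega)).congr fun _ _ => rfl,
    ((CV.const hX fun _ => false).up hX (by omega)).congr fun _ _ => rfl,
    ((CN.const (c := 0) hX (by positivity)).up hX (by omega)).congr fun _ _ => rfl⟩

theorem CLk.cval (hX : 1000 ≤ X) {x : Inp → Mem → Fin h → Bool} (hx : CV B (X ^ (k + 1)) x) :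
    CLk B (X ^ (k + 1)) b (fun y M => Lk.val (x y M)) :=
  ⟨((CX.const hX false).up hX (by omega)).congr fun _ _ => rfl,
    ((CX.const hX false).up hX (by omega)).congr fun _ _ => rfl,
    hx.congr fun _ _ => rfl,
    ((CN.const (c := 0) hX (by positivity)).up hX (by omega)).congr fun _ _ => rfl⟩

theorem CLk.cown (hX : 1000 ≤ X) {x : Inp → Mem → ℕ} (hx : CN B (X ^ (k + 1)) (b + 1) x) :
    CLk B (X ^ (k + 1)) b (fun y M => (Lk.own (x y M) : Lk (Fin h → Bool))) :=
  ⟨((CX.const hX false).up hX (by omega)).congr fun _ _ => rfl,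
    ((CX.const hX true).up hX (by omega)).congr fun _ _ => rfl,
    ((CV.const hX fun _ => false).up hX (by omega)).congr fun _ _ => rfl,
    hx.congr fun _ _ => rfl⟩

/-- **the look-up is computable** -/
theorem CLk.lkup (hX : 1000 * (h + w + b + σ + 10) ≤ X) {i u t : Inp → Mem → ℕ}
    (hi : CN X (X ^ (k + 1)) w i) (hu : CN X (X ^ (k + 1)) b u) (ht : CN X (X ^ (k + 1)) b t) :
    CLk X (X ^ (k + 31)) b (fun y M => lkup (rdL h w b σ (vO y)) (fun _ => false)
      (fun _ => false) w (rdK w σ (kO y)) (i y M) (u y M) (t y M)) := by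
  have hX' : 1000 ≤ X := by omega
  have hw : w ≤ X := by omega
  have hb : b ≤ X := by omega
  have hb1 : b + 1 ≤ X := by omega
  -- the position
  have hJ : CN X (X ^ (k + 6 + 1)) w
      (fun y M => bsr (rdL h w b σ (vO y)).tm (t y M) w 0) := CX.bsr hX ht
  have hpv := CXL.pv hX hJ
  have htm := CX.tm hX hJ
  have hst := CX.st hX hJ
  have hlb := CX.lb hX hJ
  have hoff := CX.off hX hJ
  have hK : CN X (X ^ (k + 9)) w (fun y _ => rdK w σ (kO y)) := (CX.rdK hX).up hX' (by omega)
  -- conditions
  have c1 : Cp X (X ^ (k + 16)) _ := (CN.lec hX' hw hJ (hi.up hX' (by omega))).up hX' (by omega)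
  have c2 : Cp X (X ^ (k + 16)) _ :=
    (CN.ltc hX' hb hpv (ht.up hX' (by omega))).up hX' (by omega)
  have c3 : Cp X (X ^ (k + 17)) _ :=
    (CN.lec hX' hb (ht.up hX' (by omega)) htm).up hX' (by omega)
  have c4 := CX.and hX' (CX.and hX' c1 c2) c3
  have c5 := CN.eq hX' hb (ht.up hX' (by omega)) htm
  have c6 := CN.eq hX' hw hlb (hK.up hX' (by omega))
  have c7 := CX.isZero hX' hb ht
  have c8 := CN.ltc hX' hb hu ht
  -- the own pass
  have hsub := CN.sub hX' hb1 (ht.up hX' (by omega)) hpv
  have hadd := CN.add hX' hb1 (hoff.up hX' (by omega)) hsub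
  have r1 : CLk X (X ^ (k + 27)) b _ := CLk.bif (h := h) (k := k + 26) hX' (c6.up hX' (by omega))
    (CLk.cown (k := k + 25) hX' (hadd.up hX' (by omega))) (CLk.cbad hX')
  have r2 : CLk X (X ^ (k + 28)) b _ := CLk.bif (k := k + 27) hX' (c5.up hX' (by omega))
    (CLk.cval (k := k + 26) hX' (hst.up hX' (by omega))) r1
  have r3 : CLk X (X ^ (k + 29)) b _ := CLk.bif (k := k + 28) hX' (c4.up hX' (by omega)) r2
    (CLk.cbad hX')
  have r4 : CLk X (X ^ (k + 30)) b _ := CLk.bif (k := k + 29) hX' (c7.up hX' (by omega))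
    (CLk.cval (k := k + 28) hX' ((CV.const hX' fun _ => false).up hX' (by omega))) r3
  have r5 : CLk X (X ^ (k + 31)) b _ := CLk.bif (k := k + 30) hX' (c8.up hX' (by omega))
    (CLk.cval (k := k + 29) hX' ((CV.const hX' fun _ => false).up hX' (by omega))) r4
  refine r5.congr fun y M => ?_
  unfold Pool.Agent.NUM.lkup
  by_cases d1 : u y M < t y M
  · simp [d1]
  · by_cases d2 : t y M = 0
    · simp [d2]
    · by_cases d3 : bsr (rdL h w b σ (vO y)).tm (t y M) w 0 ≤ i y M
      · by_cases d4 : (rdL h w b σ (vO y)).pv (bsr (rdL h w b σ (vO y)).tm (t y M) w 0) < t y M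
        · by_cases d5 : t y M ≤ (rdL h w b σ (vO y)).tm (bsr (rdL h w b σ (vO y)).tm (t y M) w 0)
          · by_cases d6 : t y M =
                (rdL h w b σ (vO y)).tm (bsr (rdL h w b σ (vO y)).tm (t y M) w 0)
            · simp only [d1, d2, d3, d4, d5, decide_false, decide_true, cond_false, cond_true,
                if_false, if_true, and_self, Bool.and_self]
              rw [if_pos d6]
              simp [← d6]
            · by_cases d7 : (rdL h w b σ (vO y)).lb (bsr (rdL h w b σ (vO y)).tm (t y M) w 0) =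
                  rdK w σ (kO y)
              · simp only [d1, d2, d3, d4, d5, d6, d7, decide_false, decide_true, cond_false,
                  cond_true, if_false, if_true, and_self, Bool.and_self]
              · simp only [d1, d2, d3, d4, d5, d6, d7, decide_false, decide_true, cond_false,
                  cond_true, if_false, if_true, and_self, Bool.and_self]
          · simp only [d1, d2, d3, d4, d5, decide_false, decide_true, cond_false, cond_true,
              if_false, if_true, and_false, and_true, Bool.and_false, Bool.and_true]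
        · simp only [d1, d2, d3, d4, decide_false, decide_true, cond_false, cond_true,
              if_false, if_true, and_false, false_and, and_true, Bool.and_false, Bool.and_true,
              Bool.false_and]
      · simp only [d1, d2, d3, decide_false, decide_true, cond_false, cond_true,
              if_false, if_true, and_false, false_and, and_true, Bool.and_false, Bool.and_true,
              Bool.false_and]

end

end Pool.Agent.NUM
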