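import Pool.Agent.NUM.HCore
import Pool.Agent.NUM.FragDef

/-!
# Nondeterministic functional programs

In each pass a choice bit is put into cell `1`.
-/

namespace Pool.Agent.NUM

/-- the table of the states after `n` passes with the choices `c` -/
def histN (f : Mem → Mem) (d : ℕ) (c : ℕ → Bool) : ℕ → ℕ → Mem
  | 0 => fun _ => zeroMem
  | n + 1 => Function.update (histN f d c n) (n + 1)
      (f (Function.update (mrg (histN f d c n n)
        (histN f d c n (ptr d (histN f d c n n)))) 1 (c n)))

/-- state number `n` with the choices `c` -/
def staN (f : Mem → Mem) (d : ℕ) (c : ℕ → Bool) (n : ℕ) : Mem := histN f d c n n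

/-- the pointer in state number `n` -/
def rclN (f : Mem → Mem) (d : ℕ) (c : ℕ → Bool) (n : ℕ) : ℕ := ptr d (staN f d c n)

/-- with the choices `c` the computation halts after exactly `N` passes with answer `true` -/
def AccAt (f : Mem → Mem) (d : ℕ) (c : ℕ → Bool) (N : ℕ) : Prop :=
  staN f d c N 0 = true ∧ (∀ n < N, staN f d c n 0 = false) ∧ staN f d c N 2 = true

/-- The nondeterministic program `G`, with `d` pointer cells, accepts exactly the inputs with `P`
among the inputs of support `B`, within `T` passes, and each of these inputs has an accepting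
computation whose graph falls into parts of at most `l` passes after deleting at most `K` passes. -/
def FragAccepts (G : List Ins) (d B T K l : ℕ) (P : Inp → Prop) : Prop :=
  ∀ z, Supp B z →
    (P z → ∃ c, ∃ N ≤ T, AccAt (eval G z) d c N ∧ FragOK N (rclN (eval G z) d c) K l) ∧
    ∀ c, ∀ N ≤ T, AccAt (eval G z) d c N → P z

end Pool.Agent.NUM
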