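import Pool.Agent.NUM.HNCompl
import Pool.Agent.NUM.HNCore
import Pool.Agent.NUM.HRd

/-!
# The nondeterministic check with choices from a string
-/

set_option autoImplicit false

namespace Pool.Agent.NUM

/-- the computation restricted to the even cells below `2 h` -/
def finHMN (f : Mem → Mem) (d h : ℕ) : HMN (Fin h → Bool) where
  step b a a' := resM h (f (Function.update (mrg (embM a) (embM a')) 1 b))
  idx a := ptr d (embM a)
  a0 := fun _ => false
  e0 := fun _ => false
  hlt a := embM a 0
  acc a := embM a 2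

theorem finHMN_ch (f : Mem → Mem) (d h : ℕ) (b : Bool) :
    (finHMN f d h).ch b = finHM (fun M => f (Function.update M 1 b)) d h := rfl

variable {A : Type} [DecidableEq A]

/-- the check with choice `r n` in pass `n` -/
def hckR (H : HMN A) (L : Lst A) (κ w lim : ℕ) (r : ℕ → Bool) : HM (St A) where
  step := fun σ => St.pass (H.ch (r σ.n)) L κ w lim σ
  idx := St.q
  a0 := ⟨false, false, false, 0, 0, 0, H.a0, 0⟩
  e0 := ⟨false, false, false, 0, 0, 0, H.a0, 0⟩
  hlt := St.hlt
  acc := St.acc

variable {H : HMN A} {L : Lst A} {κ w lim : ℕ} {r : ℕ → Bool}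

/-- one more step -/
theorem hckR_step {N : ℕ} (hN : ((hckN H L κ w lim).U r N).n = N)
    (h : ∀ m ≤ N, (hckR H L κ w lim r).U m = (hckN H L κ w lim).U r m) :
    (hckR H L κ w lim r).U (N + 1) = (hckN H L κ w lim).U r (N + 1) := by
  rw [HM.U_succ, HMN.U_succ, h N le_rfl]
  show St.pass (H.ch (r ((hckN H L κ w lim).U r N).n)) L κ w lim _ _ = _
  rw [hN]
  show _ = St.pass (H.ch (r N)) L κ w lim _ _
  congr 1
  unfold HM.rc HMN.rc
  show (if ((hckN H L κ w lim).U r N).q ≤ N then _ else _) =
    (if ((hckN H L κ w lim).U r N).q ≤ N then _ else _)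
  by_cases h1 : ((hckN H L κ w lim).U r N).q ≤ N
  · rw [if_pos h1, if_pos h1]
    exact h _ h1
  · rw [if_neg h1, if_neg h1]
    rfl

theorem hckR_eq {N : ℕ} (h : ∀ m < N, ((hckN H L κ w lim).U r m).hlt = false) :
    ∀ n ≤ N, (hckR H L κ w lim r).U n = (hckN H L κ w lim).U r n := by
  intro n
  induction n using Nat.strong_induction_on with
  | _ n ih =>
    intro hn
    cases n with
    | zero => rfl
    | succ n =>
      refine hckR_step ?_ fun m hm => ih m (by omega) (by omega)
      exact (CInvN.all (N := N) h n (by omega)).num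

theorem hckR_eq' {N : ℕ} (h : ∀ m < N, ((hckR H L κ w lim r).U m).hlt = false) :
    ∀ n ≤ N, (hckR H L κ w lim r).U n = (hckN H L κ w lim).U r n := by
  intro n
  induction n using Nat.strong_induction_on with
  | _ n ih =>
    intro hn
    cases n with
    | zero => rfl
    | succ n =>
      refine hckR_step ?_ fun m hm => ih m (by omega) (by omega)
      refine (CInvN.all (N := n + 1) (fun m hm => ?_) n (by omega)).num
      rw [← ih m (by omega) (by omega)]
      exact h m (by omega)

/-- the check with choices from a string is the nondeterministic check -/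
theorem hckR_Out {N : ℕ} {b : Bool} :
    (hckR H L κ w lim r).Out N b ↔ (hckN H L κ w lim).Out r N b := by
  constructor
  · rintro ⟨h1, h2, h3⟩
    have h := hckR_eq' h1
    refine ⟨fun m hm => ?_, ?_, ?_⟩
    · rw [← h m hm.le]; exact h1 m hm
    · rw [← h N le_rfl]; exact h2
    · rw [← h N le_rfl]; exact h3
  · rintro ⟨h1, h2, h3⟩
    have h := hckR_eq h1
    refine ⟨fun m hm => ?_, ?_, ?_⟩
    · rw [h m hm.le]; exact h1 m hm
    · rw [h N le_rfl]; exact h2
    · rw [h N le_rfl]; exact h3

/-- **The clock.** -/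
theorem hckR_halts (hlim : 1 ≤ lim) : ∃ N b, N ≤ lim ∧ (hckR H L κ w lim r).Out N b := by
  by_contra hcon
  push Not at hcon
  have hnh : ∀ m ≤ lim, ((hckR H L κ w lim r).U m).hlt = false := by
    intro m
    induction m using Nat.strong_induction_on with
    | _ m ih =>
      intro hm
      by_contra h
      have h' : ((hckR H L κ w lim r).U m).hlt = true := by simpa using h
      exact hcon m _ hm ⟨fun m' hm' => ih m' hm' (by omega), h', rfl⟩
  obtain ⟨l, rfl⟩ : ∃ l, lim = l + 1 := ⟨lim - 1, by omega⟩
  have heq := hckR_eq' (N := l + 1) (fun m hm => hnh m hm.le)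
  have hI := CInvN.all (N := l + 1) (fun m hm => by rw [← heq m hm.le]; exact hnh m hm.le) l
    (by omega)
  have h1 := hnh (l + 1) le_rfl
  rw [heq (l + 1) le_rfl, hckN_U_succ] at h1
  unfold St.pass at h1
  rw [if_pos (by rw [hI.num])] at h1
  simp [St.rej] at h1

/-- only the choices below `lim` matter -/
theorem hckN_congr {r r' : ℕ → Bool} {N : ℕ} {b : Bool} (h : ∀ n < N, r n = r' n)
    (hO : (hckN H L κ w lim).Out r N b) : (hckN H L κ w lim).Out r' N b := by
  have key : ∀ n ≤ N, (hckN H L κ w lim).U r' n = (hckN H L κ w lim).U r n := by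
    intro n
    induction n using Nat.strong_induction_on with
    | _ n ih =>
      intro hn
      cases n with
      | zero => rfl
      | succ n =>
        rw [HMN.U_succ, HMN.U_succ, ih n (by omega) (by omega), h n (by omega)]
        congr 1
        unfold HMN.rc
        split_ifs with h1
        · exact ih _ (by omega) (by omega)
        · rfl
  refine ⟨fun m hm => ?_, ?_, ?_⟩
  · rw [key m hm.le]; exact hO.1 m hm
  · rw [key N le_rfl]; exact hO.2.1
  · rw [key N le_rfl]; exact hO.2.2

omit [DecidableEq A] in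
/-- choices in a string -/
theorem exists_choices (b : ℕ) (c : ℕ → Bool) : ∃ r : Inp, ∀ n < 2 ^ b, r (bits b n) = c n := by
  classical
  refine ⟨fun a => decide (∃ n < 2 ^ b, a = bits b n ∧ c n = true), fun n hn => ?_⟩
  rw [Bool.eq_iff_iff, decide_eq_true_iff]
  constructor
  · rintro ⟨n', hn', h1, h2⟩
    obtain rfl := bits_inj hn hn' h1
    exact h2
  · intro h
    exact ⟨n, hn, rfl, h⟩

/-- the check of a list of claims for the nondeterministic program `G` with `d` pointer cells on the
input `z`, with the choices from the string `r` -/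
def hchkR (G : List Ins) (d h w b bl σ lim T : ℕ) (z v κ r : Inp) : HM (St (Fin h → Bool)) :=
  hckR (finHMN (eval G z) d h) ((rdL h w b σ v).clip T) (rdK w σ κ) w lim
    (fun n => r (bits bl n))

/-- **The statement about the code of the check with choices from a string.** -/
def HCodeRK : Prop :=
  ∀ (G : List Ins) (d h w b bl σ lim T : ℕ), Sz (2 * h) G → 4 * d < 2 * h → 2 ≤ h → d ≤ b →
    h ≤ 2 ^ σ → w ≤ 2 ^ σ → b ≤ 2 ^ σ → lim < 2 ^ bl → bl ≤ b → T < 2 ^ b →
    ∃ (G' : List Ins) (s' d' : ℕ), HSz s' d' G' ∧ s' ≤ (1000 * (h + w + b + σ + 10)) ^ 120 ∧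
      ∀ (z v κ r : Inp) (N : ℕ) (a : Bool), (hchkR G d h w b bl σ lim T z v κ r).Out N a →
        HaltsAt (eval G' (pair (pair (pair z (trc (hLen w σ) v)) (trc σ κ)) (trc bl r))) d' N ∧
        sta (eval G' (pair (pair (pair z (trc (hLen w σ) v)) (trc σ κ)) (trc bl r))) d' N 2 = a

end Pool.Agent.NUM
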