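import Pool.Agent.NUM.HCodeF
import Pool.Agent.NUM.HNRead

/-!
# The code of the check of nondeterministic functional programs
-/

set_option autoImplicit false

namespace Pool.Agent.NUM

section

variable {X k h w b σ d lim bl T : ℕ}

/-- one step of the simulated machine with a choice -/
theorem CX.gpassC {G : List Ins} (hG : Sz (2 * h) G) (hX : 1000 * (h + w + b + σ + 10) ≤ X)
    {a c : Inp → Mem → Fin h → Bool} {c1 : Inp → Mem → Bool} (ha : CV X (X ^ (k + 2)) a)
    (hc : CV X (X ^ (k + 2)) c) (hc1 : Cp X (X ^ (k + 2)) c1) :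
    CV X (X ^ (k + 4))
      (fun y M => ((finHMN (eval G (zO y)) d h).ch (c1 y M)).step (a y M) (c y M)) := by
  intro r
  have hl : Loc (2 * h) (20 * (2 * h + 2) + (2 * h + 2 + 1) + 20) zO :=
    Loc.shift [false, false] (Loc.id (2 * h + 2))
  have h1 := ((Tr.pass hG).virt hl le_rfl).cell (q := 2 * (r : ℕ)) (by have := r.2; omega)
  have h2 : Cp X (X ^ 2) (fun y M => eval G (zO y) M (2 * (r : ℕ))) := by
    refine h1.mono (by omega) ?_
    have e1 : 20 * (2 * h + 2) + (2 * h + 2 + 1) + 20 + 1 ≤ X := by omega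
    have e2 : 2 * h * (20 * (2 * h + 2) + (2 * h + 2 + 1) + 20 + 1) ≤ 2 * h * X :=
      Nat.mul_le_mul_left _ e1
    have e3 : X ^ 2 = X * X := by ring
    have e4 : (2 * h + 1) * X ≤ X * X := Nat.mul_le_mul_right _ (by omega)
    have e5 : (2 * h + 1) * X = 2 * h * X + X := by ring
    rw [e3]
    rw [e5] at e4
    generalize 2 * h * (20 * (2 * h + 2) + (2 * h + 2 + 1) + 20 + 1) = p at *
    generalize 2 * h * X = p' at *
    generalize X * X = p'' at *
    omega
  have h3 := CX.call (m := 2 * h) (by omega) (h2.up (by omega) (by omega : 2 ≤ k + 2))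
    (g := fun q y M => if q = 1 then c1 y M else mrg (embM (a y M)) (embM (c y M)) q)
    (fun q hq => ?_)
  · refine h3.congr fun y M => ?_
    show eval G (zO y) _ (2 * (r : ℕ)) = resM h (eval G (zO y)
      (Function.update (mrg (embM (a y M)) (embM (c y M))) 1 (c1 y M))) r
    refine eval_agr hG.2 (fun q hq => ?_) _ (by have := r.2; omega)
    by_cases hq1 : q = 1
    · subst hq1
      simp [hq]
    · rw [Function.update_of_ne hq1]
      simp [hq, hq1]
  · by_cases hq1 : q = 1
    · exact hc1.congr fun y M => by rw [if_pos hq1]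
    · by_cases hq2 : q % 2 = 0
      · refine (CX.emb (k := k + 1) (by omega) ha q).congr fun y M => ?_
        rw [if_neg hq1]
        unfold mrg
        rw [if_pos hq2]
      · refine (CX.emb (k := k + 1) (by omega) hc (q - 1)).congr fun y M => ?_
        rw [if_neg hq1]
        unfold mrg
        rw [if_neg hq2]

/-! ### clipped lists -/

/-- `fin` of the clipped list -/
def fT (h w b σ T : ℕ) (y : Inp) (i : ℕ) : Bool :=
  (yL h w b σ y).fin i && decide ((yL h w b σ y).tm i ≤ T)

theorem CX.fT (hX : 1000 * (h + w + b + σ + 10) ≤ X) (hT : T < 2 ^ b)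
    {x : Inp → Mem → St (Fin h → Bool)} (hx : CStN X (X ^ 1) w b x) :
    Cp X (X ^ 8) (fun y M => Pool.Agent.NUM.fT h w b σ T y (x y M).i) := by
  have hX' : 1000 ≤ X := by omega
  have htm := CX.tm (k := 0) (h := h) (b := b) (σ := σ) hX hx.iN
  have hfin := CX.fin (k := 0) (h := h) (b := b) (σ := σ) hX hx.iN
  have h1 := CN.lec hX' (by omega) htm
    ((CN.const hX' (n := b) (c := T) hT).up hX' (by omega : 1 ≤ 0 + 3))
  exact CX.and hX' (hfin.up hX' (by omega)) h1

/-- the move to `a'` -/
def mvT (d h w b σ T : ℕ) (y : Inp) (x : St (Fin h → Bool)) (a' : Fin h → Bool) :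
    St (Fin h → Bool) :=
  bif (embM a' 0 && !(decide (x.u + 1 = (yL h w b σ y).tm x.i) && fT h w b σ T y x.i)) then
    x.rej
  else bif decide (x.u + 1 = (yL h w b σ y).tm x.i) then
    bif decide (a' = (yL h w b σ y).st x.i) then
      bif fT h w b σ T y x.i then (bif (embM a' 0 && embM a' 2) then x.yes else x.rej)
      else nxF h w x (x.u + 1) a'
    else x.rej
  else stF d h w b σ y x a'

/-- scanning -/
def scT (d h w b σ T : ℕ) (y : Inp) (x : St (Fin h → Bool)) : St (Fin h → Bool) :=
  bif decide ((yL h w b σ y).pv x.i < (yL h w b σ y).tm x.i) then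
    bif decide ((yL h w b σ y).lb x.i = rdK w σ (kO y)) then
      bif decide ((yL h w b σ y).off x.i = x.n + 1) then enF d h w b σ y x else x.rej
    else bif fT h w b σ T y x.i then x.yes else nxF h w x x.u x.a
  else x.rej

theorem CSt.mvT (hX : 1000 * (h + w + b + σ + 10) ≤ X) (hd : d ≤ b) (hT : T < 2 ^ b)
    {x : Inp → Mem → St (Fin h → Bool)}
    (hx : CStN X (X ^ 1) w b x) {a' : Inp → Mem → Fin h → Bool}
    (ha : CV X (X ^ 34) a') :
    CSt X (X ^ 42) (fun y M => Pool.Agent.NUM.mvT d h w b σ T y (x y M) (a' y M)) := by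
  have hX' : 1000 ≤ X := by omega
  have h4 := CN.succ hX' (by omega) hx.uN
  have htm := CX.tm (k := 0) (h := h) (b := b) (σ := σ) hX hx.iN
  have hfin := CX.fT (T := T) (σ := σ) hX hT hx
  have hst := CX.st (k := 0) (h := h) (b := b) (σ := σ) hX hx.iN
  have h5 := CN.eq hX' (by omega) h4 (htm.widen (Nat.le_succ b))
  have h6 := CV.eq (k := 33) hX' (by omega) ha (hst.up hX' (by omega))
  have e0 := CX.emb (k := 33) hX' ha 0
  have e2 := CX.emb (k := 33) hX' ha 2
  have c1 := CX.and hX' (h5.up hX' (by omega : 1 + 2 + 2 ≤ 8)) hfin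
  have c2 := CX.not hX' c1
  have c3 := CX.and hX' e0 (c2.up hX' (by omega))
  have hrej := CSt.rej (k := 0) hX' hx.toCSt
  have hyes := CSt.yes (k := 0) hX' hx.toCSt
  have hnx := CSt.nx (k := 28) (σ := σ) hX hx (u := fun y M => (x y M).u + 1)
    (fun r => (h4.bit r).up hX' (by omega)) ha
  have hs := CSt.st (σ := σ) hX hd hx ha
  have b1 := CSt.bif hX' ((CX.and hX' e0 e2).up hX' (by omega : 35 ≤ 36)) (hyes.up hX' (by omega))
    (hrej.up hX' (by omega))
  have b2 := CSt.bif hX' (hfin.up hX' (by omega)) b1 (hnx.up hX' (by omega))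
  have b3 := CSt.bif hX' (h6.up hX' (by omega)) b2 (hrej.up hX' (by omega))
  have b4 := CSt.bif hX' (h5.up hX' (by omega)) b3 (hs.up hX' (by omega))
  have b5 := CSt.bif hX' (c3.up hX' (by omega)) (hrej.up hX' (by omega)) b4
  exact b5.up hX' (by omega)

theorem CSt.scT (hX : 1000 * (h + w + b + σ + 10) ≤ X) (hd : d ≤ b) (hT : T < 2 ^ b)
    {x : Inp → Mem → St (Fin h → Bool)} (hx : CStN X (X ^ 1) w b x) :
    CSt X (X ^ 40) (fun y M => Pool.Agent.NUM.scT d h w b σ T y (x y M)) := by
  have hX' : 1000 ≤ X := by omega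
  have h3 := CN.succ hX' (by omega) hx.nN
  have htm := CX.tm (k := 0) (h := h) (b := b) (σ := σ) hX hx.iN
  have hlb := CX.lb (k := 0) (h := h) (b := b) (σ := σ) hX hx.iN
  have hoff := CX.off (k := 0) (h := h) (b := b) (σ := σ) hX hx.iN
  have hfin := CX.fT (T := T) (σ := σ) hX hT hx
  have hpv := CX.pv (k := 0) (h := h) (b := b) (σ := σ) hX hx.iN
  have hk := CX.rdK (B := X) (h := h) (b := b) (w := w) (σ := σ) hX
  have c1 := CN.ltc hX' (by omega) hpv (htm.up hX' (by omega))
  have c2 := CN.eq hX' (by omega) hlb (hk.up hX' (by omega))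
  have c3 := CN.eq hX' (by omega) (hoff.widen (Nat.le_succ b)) h3
  have hrej := CSt.rej (k := 0) hX' hx.toCSt
  have hyes := CSt.yes (k := 0) hX' hx.toCSt
  have hnx := CSt.nx (k := 1) (σ := σ) hX hx (u := fun y M => (x y M).u)
    (fun r => (hx.u r).up hX' (by omega)) (hx.a.up hX' (by omega))
  have hen := CSt.en (σ := σ) hX hd hx
  have b1 := CSt.bif hX' (c3.up hX' (by omega)) hen (hrej.up hX' (by omega))
  have b2 := CSt.bif hX' hfin (hyes.up hX' (by omega)) hnx
  have b3 := CSt.bif hX' (c2.up hX' (by omega)) b1 (b2.up hX' (by omega))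
  have b4 := CSt.bif hX' (c1.up hX' (by omega)) b3 (hrej.up hX' (by omega))
  exact b4.up hX' (by omega)

theorem mvT_eq [DecidableEq (Fin h → Bool)] {G : List Ins} {y : Inp} {x : St (Fin h → Bool)}
    (htm : ∀ i, (yL h w b σ y).tm i < 2 ^ b)
    (hu : x.u < (yL h w b σ y).tm x.i) (a' : Fin h → Bool) :
    mvT d h w b σ T y x a' =
      St.move (yH G d h y) ((yL h w b σ y).clip T) (rdK w σ (kO y)) w x a' := by
  have e1 : (yH G d h y).hlt a' = embM a' 0 := rfl
  have e2 : (yH G d h y).acc a' = embM a' 2 := rfl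
  have e3 : ((yL h w b σ y).clip T).fin x.i = fT h w b σ T y x.i := rfl
  have e4 : ((yL h w b σ y).clip T).tm x.i = (yL h w b σ y).tm x.i := rfl
  have e5 : ((yL h w b σ y).clip T).st x.i = (yL h w b σ y).st x.i := rfl
  unfold mvT St.move
  rw [e1, e2, e3, e4, e5]
  by_cases h2 : x.u + 1 = (yL h w b σ y).tm x.i
  · rw [decide_eq_true h2, if_pos h2]
    cases h3 : fT h w b σ T y x.i <;> cases h4 : embM a' 0
    · rw [if_neg (by simp)]
      by_cases h5 : a' = (yL h w b σ y).st x.i
      · rw [if_neg (by simpa using h5)]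
        simp [h5, nxF_eq]
      · rw [if_pos h5]
        simp [h5]
    · rw [if_pos (by simp)]
      simp
    · rw [if_neg (by simp)]
      by_cases h5 : a' = (yL h w b σ y).st x.i
      · rw [if_neg (by simpa using h5)]
        simp [h5]
      · rw [if_pos h5]
        simp [h5]
    · rw [if_neg (by simp [h2])]
      by_cases h5 : a' = (yL h w b σ y).st x.i
      · rw [if_neg (by simpa using h5)]
        cases h6 : embM a' 2 <;> simp [h5]
      · rw [if_pos h5]
        simp [h5]
  · have h7 := htm x.i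
    rw [decide_eq_false h2, if_neg h2]
    have h8 : St.stay (yH G d h y) ((yL h w b σ y).clip T) (rdK w σ (kO y)) w x a' =
      St.stay (yH G d h y) (yL h w b σ y) (rdK w σ (kO y)) w x a' := rfl
    rw [h8, ← stF_eq (G := G) (by omega)]
    cases h4 : embM a' 0
    · rw [if_neg (by simp)]
      simp
    · rw [if_pos (by simp [h2])]
      simp

theorem scT_eq [DecidableEq (Fin h → Bool)] {G : List Ins} {y : Inp} {x : St (Fin h → Bool)} :
    scT d h w b σ T y x =
      St.scan (yH G d h y) ((yL h w b σ y).clip T) (rdK w σ (kO y)) w x := by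
  have e3 : ((yL h w b σ y).clip T).fin x.i = fT h w b σ T y x.i := rfl
  have e4 : ((yL h w b σ y).clip T).tm x.i = (yL h w b σ y).tm x.i := rfl
  have e5 : ((yL h w b σ y).clip T).lb x.i = (yL h w b σ y).lb x.i := rfl
  have e6 : ((yL h w b σ y).clip T).off x.i = (yL h w b σ y).off x.i := rfl
  have e7 : ((yL h w b σ y).clip T).pv x.i = (yL h w b σ y).pv x.i := rfl
  unfold scT St.scan
  rw [e3, e4, e5, e6, e7]
  by_cases h1 : (yL h w b σ y).pv x.i < (yL h w b σ y).tm x.i
  · rw [decide_eq_true h1, if_pos h1]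
    by_cases h2 : (yL h w b σ y).lb x.i = rdK w σ (kO y)
    · rw [decide_eq_true h2, if_pos h2]
      by_cases h3 : (yL h w b σ y).off x.i = x.n + 1
      · rw [decide_eq_true h3, if_pos h3, enF_eq (G := G)]; rfl
      · rw [decide_eq_false h3, if_neg h3]; rfl
    · rw [decide_eq_false h2, if_neg h2]
      cases h3 : fT h w b σ T y x.i
      · simp [nxF_eq]
      · simp
  · rw [decide_eq_false h1, if_neg h1]; rfl

/-- the pass with a choice -/
def psFC (G : List Ins) (d h w b σ lim T : ℕ) (y : Inp) (x : St (Fin h → Bool))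
    (c : Fin h → Bool) (c1 : Bool) : St (Fin h → Bool) :=
  bif decide (lim ≤ x.n + 1) then x.rej
  else bif x.sim then
    bif (lkF d h w b σ y x).isBad then x.rej
    else mvT d h w b σ T y x (((finHMN (eval G (zO y)) d h).ch c1).step x.a
      (bif (lkF d h w b σ y x).isOwn then c else (lkF d h w b σ y x).vec))
  else scT d h w b σ T y x

theorem CSt.psC {G : List Ins} (hG : Sz (2 * h) G) (hX : 1000 * (h + w + b + σ + 10) ≤ X)
    (hd : d ≤ b) (hlim : lim < 2 ^ b) (hT : T < 2 ^ b)
    {x : Inp → Mem → St (Fin h → Bool)} (hx : CStN X (X ^ 1) w b x)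
    {c : Inp → Mem → Fin h → Bool} (hc : CV X (X ^ 1) c)
    {c1 : Inp → Mem → Bool} (hc1 : Cp X (X ^ 1) c1) :
    CSt X (X ^ 55) (fun y M => psFC G d h w b σ lim T y (x y M) (c y M) (c1 y M)) := by
  have hX' : 1000 ≤ X := by omega
  have h3 := CN.succ hX' (by omega) hx.nN
  have h6 := CX.ptr (k := 0) (b := b) hX' hx.a hd
  have hlk : CLk X (X ^ 31) b (fun y M => lkF d h w b σ y (x y M)) :=
    CLk.lkup (σ := σ) (k := 0) hX hx.iN hx.uN h6
  have hW := CV.bif hX' hlk.own (hc.up hX' (by omega)) hlk.val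
  have hstep := CX.gpassC (d := d) (k := 30) (w := w) (b := b) (σ := σ) hG hX
    (hx.a.up hX' (by omega)) hW (hc1.up hX' (by omega))
  have hmv := CSt.mvT (σ := σ) hX hd hT hx hstep
  have hsc := CSt.scT (σ := σ) hX hd hT hx
  have hrej := CSt.rej (k := 0) hX' hx.toCSt
  have c1 := CN.lec hX' (by omega) ((CN.const hX' (n := b + 1) (c := lim)
    (hlim.trans (Nat.pow_lt_pow_right (by norm_num) (by omega)))).up hX' (by omega : 1 ≤ 3)) h3
  have b1 := CSt.bif hX' (hlk.bad.up hX' (by omega)) (hrej.up hX' (by omega)) hmv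
  have b2 := CSt.bif hX' (hx.sim.up hX' (by omega)) b1 (hsc.up hX' (by omega))
  have b3 := CSt.bif hX' (c1.up hX' (by omega)) (hrej.up hX' (by omega)) b2
  exact b3.up hX' (by omega)

theorem SInv.clip {A : Type} {L : Lst A} {x : St A} (hx : SInv (L.clip T) w b x) : SInv L w b x :=
  ⟨hx.i, hx.n, hx.u, hx.q, hx.s⟩

theorem psFC_eq [DecidableEq (Fin h → Bool)] {G : List Ins} {y : Inp} {x : St (Fin h → Bool)}
    (htm : ∀ i, (yL h w b σ y).tm i < 2 ^ b)
    (hx : SInv (yL h w b σ y) w b x) (ρ : St (Fin h → Bool)) (c1 : Bool) :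
    psFC G d h w b σ lim T y x ρ.a c1 =
      St.pass ((finHMN (eval G (zO y)) d h).ch c1) ((yL h w b σ y).clip T) (rdK w σ (kO y)) w
        lim x ρ := by
  unfold psFC St.pass
  by_cases h1 : lim ≤ x.n + 1
  · rw [decide_eq_true h1, if_pos h1]; rfl
  · rw [decide_eq_false h1, if_neg h1]
    cases h2 : x.sim
    · rw [if_neg (by simp)]
      exact scT_eq (G := G)
    · rw [if_pos rfl]
      have h3 := hx.s h2
      have e1 : lkup ((yL h w b σ y).clip T) ((finHMN (eval G (zO y)) d h).ch c1).a0
        ((finHMN (eval G (zO y)) d h).ch c1).e0 w (rdK w σ (kO y)) x.i x.u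
        (((finHMN (eval G (zO y)) d h).ch c1).idx x.a) = lkF d h w b σ y x := rfl
      rw [e1]
      cases h4 : lkF d h w b σ y x with
      | bad => rfl
      | val W => exact mvT_eq (G := G) htm h3 _
      | own m => exact mvT_eq (G := G) htm h3 _

end

/-! ### the code -/

section

variable {G : List Ins} {d h w b σ lim X bl T : ℕ}

/-- the cell of the choice -/
abbrev cC (h w b : ℕ) : ℕ := cO b + 2 * (1 + w + b + b + h) + 1

/-- the transformation of the memory in one pass, with the choice in the cell `cC` -/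
def FFC (G : List Ins) (d h w b σ lim T : ℕ) (y : Inp) (M : Mem) : Mem :=
  encS h w b (psFC G d h w b σ lim T y (decS h w b M) (decR h w b M) (M (cC h w b)))

/-- one pass, with the choice from the string `y (true :: ·)` -/
def FFR (G : List Ins) (d h w b bl σ lim T : ℕ) (y : Inp) (M : Mem) : Mem :=
  encS h w b (psFC G d h w b σ lim T (fun a => y (false :: a)) (decS h w b M) (decR h w b M)
    (y (true :: bits bl (decS h w b M).n)))

theorem decS_update (M : Mem) (v : Bool) :
    decS h w b (Function.update M (cC h w b) v) = decS h w b M := by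
  have key : ∀ c, c % 2 = 0 → Function.update M (cC h w b) v c = M c := by
    intro c hc
    rw [Function.update_of_ne]
    unfold cC cO
    omega
  have e4 : ∀ n : ℕ, cO b + 2 * n = 2 * (2 * (b + 1) + 1 + n) := by
    intro n
    unfold cO
    ring
  unfold decS
  congr 1
  · exact key 2 rfl
  · exact key _ (by unfold cO; omega)
  · exact num_congr fun r _ => key _ (by rw [e4]; omega)
  · exact num_congr fun r _ => key _ (by rw [e4]; omega)
  · exact num_congr fun r _ => key _ (by rw [e4]; omega)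
  · funext r
    exact key _ (by rw [e4]; omega)
  · exact num_congr fun r _ => key _ (by omega)

theorem decR_update (M : Mem) (v : Bool) :
    decR h w b (Function.update M (cC h w b) v) = decR h w b M := by
  funext r
  have hr := r.2
  unfold decR
  rw [Function.update_of_ne]
  unfold cC
  omega

theorem bits_mod (n x : ℕ) : bits n (x % 2 ^ n) = bits n x := by
  unfold bits
  apply List.map_congr_left
  intro i hi
  rw [List.mem_range] at hi
  rw [Nat.testBit_mod_two_pow]
  simp [hi]

theorem exists_hcodeR (hG : Sz (2 * h) G) (hd : d ≤ b) (hlim : lim < 2 ^ b) (hT : T < 2 ^ b) (hbl : bl ≤ b)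
    (hX : 1000 * (h + w + b + σ + 10) ≤ X) :
    ∃ G' : List Ins, Sz (X ^ 120) G' ∧
      ∀ y M M', Agr X M M' → Agr X (eval G' y M) (FFR G d h w b bl σ lim T y M') := by
  have hX' : 1000 ≤ X := by omega
  have hcc : cC h w b < X := by unfold cC cO; omega
  have h1 := CSt.psC (lim := lim) (σ := σ) hG hX hd hlim hT (CStN.dec hX) (CV.decR hX)
    (CX.cell hX' hcc)
  have h8 : 8 ≤ X ^ 55 := by
    have := Xpow_le hX' (by norm_num : 1 ≤ 55)
    rw [pow_one] at this
    omega
  have h2 : Tr X (X * (X ^ 55 + 3) + 1) (FFC G d h w b σ lim T) :=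
    Tr.ofCp fun q _ => h1.enc h8 q
  have h4 : X * (X ^ 55 + 3) + 1 ≤ X ^ (55 + 2) := Xb2 hX' 55 fun a ha1 ha2 => by
    rw [← ha2]
    have e1 : X * 1 ≤ X * a := Nat.mul_le_mul_left X ha1
    have e2 : X * (a + 3) = X * a + X * 1 * 3 := by ring
    have e3 : X * (1000 * a) = 1000 * (X * a) := by ring
    rw [e2, e3]
    generalize X * a = p at *
    omega
  have h5 : Tr X (X ^ 57) (FFC G d h w b σ lim T) := h2.mono h4
  have hl : Loc (X ^ 57) (20 * (X ^ 57 + 1) + (X ^ 57 + 1 + 1) + 20)
      (fun y a => y ([false] ++ a)) := Loc.shift [false] (Loc.id (X ^ 57 + 1))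
  have h6 := h5.virt hl le_rfl
  -- the choice
  have h7 : Cp X (X ^ 3) (fun y M => y (true :: bits bl (decS h w b M).n)) := by
    have g1 : CN X (X ^ 1) bl (fun _ M => (decS h w b M).n % 2 ^ bl) :=
      CN.clip (k := 0) hX' (CStN.dec hX).nN
    refine (CX.askAt (k := 0) hX' [true] [] ?_ g1).congr fun y M => ?_
    · simp only [List.length_cons, List.length_nil]
      omega
    · rw [bits_mod]
      simp
  have h9 : Tr X (X ^ 3) (fun y M => Function.update M (cC h w b)
      (y (true :: bits bl (decS h w b M).n))) := Tr.set h7 hcc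
  obtain ⟨G', hG', h10⟩ := (h9.comp h6).exists_code
  refine ⟨G', hG'.mono ?_, fun y M M' hM => ?_⟩
  · obtain ⟨p, hp⟩ : ∃ p, p = X ^ 57 := ⟨_, rfl⟩
    have q1 : 1000 ≤ p := by
      rw [hp]
      calc 1000 ≤ X ^ 1 := by rw [pow_one]; exact hX'
        _ ≤ X ^ 57 := Xpow_le hX' (by norm_num)
    have q2 : X + (X ^ 3 + (p * (20 * (p + 1) + (p + 1 + 1) + 20 + 1) + p +
        (20 * (p + 1) + (p + 1 + 1) + 20))) ≤ X ^ 3 * (p * p) := by
      have r1 : X ≤ X ^ 3 := by
        calc X = X ^ 1 := (pow_one X).symm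
          _ ≤ X ^ 3 := Xpow_le hX' (by norm_num)
      have r2 : 1000 ≤ X ^ 3 := hX'.trans r1
      have r3 : p * (20 * (p + 1) + (p + 1 + 1) + 20 + 1) + p +
        (20 * (p + 1) + (p + 1 + 1) + 20) ≤ 200 * (p * p) := by nlinarith
      have r4 : 1 ≤ p * p := Nat.mul_pos (by omega) (by omega)
      have r5 : 1000 * (p * p) ≤ X ^ 3 * (p * p) := Nat.mul_le_mul_right _ r2
      have r6 : X ^ 3 * 1000000 ≤ X ^ 3 * (p * p) := Nat.mul_le_mul_left _ (by nlinarith)
      omega
    have q3 : X ^ 3 * (p * p) ≤ X ^ 120 := by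
      rw [hp, ← pow_add, ← pow_add]
      exact Xpow_le hX' (by norm_num)
    rw [← hp]
    exact q2.trans q3
  · have h11 := h10 y M M' hM
    have h12 : FFC G d h w b σ lim T (fun a => y ([false] ++ a))
        (Function.update M' (cC h w b) (y (true :: bits bl (decS h w b M').n))) =
        FFR G d h w b bl σ lim T y M' := by
      unfold FFC FFR
      rw [decS_update, decR_update, Function.update_self]
      rfl
    rw [h12] at h11
    exact h11

end

/-- **The code of the nondeterministic check** -/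
theorem hCodeRK : HCodeRK := by
  intro G d h w b bl σ lim T hG hd hh hdb _ _ _ hlim hblb hT
  have hlimb : lim < 2 ^ b := hlim.trans_le (Nat.pow_le_pow_right (by norm_num) hblb)
  have hX : 1000 * (h + w + b + σ + 10) ≤ 1000 * (h + w + b + σ + 10) := le_rfl
  obtain ⟨G', hG', h1⟩ := exists_hcodeR (lim := lim) (σ := σ) (w := w) hG hdb hlimb hT hblb hX
  set X := 1000 * (h + w + b + σ + 10) with hXd
  have hX' : 1000 ≤ X := by omega
  have hc : cO b + 2 * (1 + w + b + b + h) ≤ X := by unfold cO; omega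
  have hXX : X ≤ X ^ 120 := by
    have := Xpow_le hX' (by norm_num : 1 ≤ 120)
    rwa [pow_one] at this
  refine ⟨G', X ^ 120, b + 1, ⟨hG', by omega⟩, le_rfl, ?_⟩
  intro z v κ r N a hout
  set y' : Inp := pair (pair z (trc (hLen w σ) v)) (trc σ κ) with hy'
  set y : Inp := pair y' (trc bl r) with hy
  have e0 : (fun a => y (false :: a)) = y' := rfl
  have e1 : zO y' = z := rfl
  have e2 : vO y' = trc (hLen w σ) v := rfl
  have e3 : kO y' = trc σ κ := rfl
  have e4 : yL h w b σ y' = rdL h w b σ v := by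
    show rdL h w b σ (vO y') = _
    rw [e2, rdL_trc]
  have e5 : rdK w σ (kO y') = rdK w σ κ := by rw [e3, rdK_trc]
  have e6 : ∀ n, y (true :: bits bl n) = r (bits bl n) := by
    intro n
    show trc bl r (bits bl n) = _
    unfold trc
    rw [if_pos (by rw [length_bits])]
  have htm := rdL_tm_lt h w b σ v
  have hoff := rdL_off_lt h w b σ v
  have hinv : ∀ n, SInv ((rdL h w b σ v).clip T) w b ((hchkR G d h w b bl σ lim T z v κ r).U n) := by
    intro n
    induction n with
    | zero =>
      exact ⟨by show 0 < 2 ^ w; positivity, by show 0 < 2 ^ b; positivity,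
        by show 0 < 2 ^ b; positivity, by show 0 < 2 ^ (b + 1); positivity,
        fun h => absurd (show false = true from h) (by decide)⟩
    | succ n ih =>
      rw [HM.U_succ]
      exact ih.pass (L := (rdL h w b σ v).clip T) htm hoff hlimb _
  have h0 : EvAgr X zeroMem (encS h w b (hchkR G d h w b bl σ lim T z v κ r).a0) := by
    intro c _ _
    show false = _
    unfold encS
    split_ifs <;> first | rfl | (symm; exact Nat.zero_testBit _)
  have hsim1 := hsim (f := eval G' y) (d := b + 1) (H := hchkR G d h w b bl σ lim T z v κ r)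
    (R := fun V x => EvAgr X V (encS h w b x)) (N := N) h0 h0
    (fun n _ V hV => ptr_of_enc hc (hinv n) hV)
    (fun n _ V W hV hW => by
      have h2 : EvAgr X (eval G' y (mrg V W)) (FFR G d h w b bl σ lim T y (mrg V W)) :=
        fun q hq _ => h1 y _ _ (Agr.refl _ _) q hq
      have h3 : FFR G d h w b bl σ lim T y (mrg V W) =
          encS h w b ((hchkR G d h w b bl σ lim T z v κ r).U (n + 1)) := by
        unfold FFR
        rw [decS_mrg hc (hinv n) hV, decR_mrg hc hW, e0, psFC_eq (by rw [e4]; exact htm)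
          (by rw [e4]; exact SInv.clip (hinv n)), HM.U_succ, e4, e5, e6]
        rfl
      rw [h3] at h2
      exact h2)
  have h20 : ∀ n ≤ N, sta (eval G' y) (b + 1) n 0 =
      ((hchkR G d h w b bl σ lim T z v κ r).U n).hlt :=
    fun n hn => by rw [hsim1 n hn 0 (by omega) rfl, encS_hlt]
  have h22 : sta (eval G' y) (b + 1) N 2 = ((hchkR G d h w b bl σ lim T z v κ r).U N).acc := by
    rw [hsim1 N le_rfl 2 (by omega) rfl, encS_acc]
  exact (Out_iff_of_sim (f := eval G' y) (d := b + 1) (H := hchkR G d h w b bl σ lim T z v κ r)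
    (N := N) (b := a) h20 h22).1 hout

end Pool.Agent.NUM
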