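import Pool.Agent.NUM.HCodeL

/-!
# The code of the check of history programs: the pass

`psF`: one pass of the check as a function of the input, the decoded state and the recalled state of
the simulated machine; all components of the result are computable.
-/

set_option autoImplicit false

namespace Pool.Agent.NUM

/-! ### the look-up with computed arguments -/

theorem lkCall {X k h w b σ : ℕ} (hX : 1000 * (h + w + b + σ + 10) ≤ X) (hk : 31 ≤ k)
    {i u t : Inp → Mem → ℕ} (hi : CN X (X ^ k) w i) (hu : CN X (X ^ k) b u)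
    (ht : CN X (X ^ k) b t) :
    CLk X (X ^ (k + 2)) b (fun y M => lkup (rdL h w b σ (vO y)) (fun _ => false)
      (fun _ => false) w (rdK w σ (kO y)) (i y M) (u y M) (t y M)) := by
  have hX' : 1000 ≤ X := by omega
  have h1 : CN X (X ^ 1) w (fun _ M => num w fun r => M r) :=
    CN.of (k := 0) hX' (g := fun r _ M => M r) fun r hr => CX.cell hX' (by omega)
  have h2 : CN X (X ^ 1) b (fun _ M => num b fun r => M (w + r)) :=
    CN.of (k := 0) hX' (g := fun r _ M => M (w + r)) fun r hr => CX.cell hX' (by omega)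
  have h3 : CN X (X ^ 1) b (fun _ M => num b fun r => M (w + b + r)) :=
    CN.of (k := 0) hX' (g := fun r _ M => M (w + b + r)) fun r hr => CX.cell hX' (by omega)
  have h4 := CLk.lkup (σ := σ) (k := 0) hX h1 h2 h3
  set g : ℕ → Inp → Mem → Bool := fun q y M => if q < w then (i y M).testBit q
    else if q < w + b then (u y M).testBit (q - w) else (t y M).testBit (q - (w + b)) with hg
  have hgc : ∀ q < w + 2 * b, Cp X (X ^ k) (g q) := by
    intro q hq
    rw [hg]
    by_cases e1 : q < w
    · exact (hi.bit q).congr fun y M => by simp [e1]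
    · by_cases e2 : q < w + b
      · exact (hu.bit (q - w)).congr fun y M => by simp [e1, e2]
      · exact (ht.bit (q - (w + b))).congr fun y M => by simp [e1, e2]
  have a1 : ∀ y M, (num w fun r => (bif decide (r < w + 2 * b) then g r y M else M r)) = i y M := by
    intro y M
    rw [num_congr (h := fun r => (i y M).testBit r) fun r hr => ?_, hc_num_testBit_eq (hi.lt y M)]
    rw [hg]
    have e1 : r < w + 2 * b := by omega
    simp [hr, e1]
  have a2 : ∀ y M, (num b fun r => (bif decide (w + r < w + 2 * b) then g (w + r) y M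
      else M (w + r))) = u y M := by
    intro y M
    rw [num_congr (h := fun r => (u y M).testBit r) fun r hr => ?_, hc_num_testBit_eq (hu.lt y M)]
    rw [hg]
    have e1 : w + r < w + 2 * b := by omega
    have e2 : ¬ w + r < w := by omega
    have e3 : w + r < w + b := by omega
    have e4 : w + r - w = r := by omega
    rw [decide_eq_true e1]
    show (if w + r < w then _ else if w + r < w + b then _ else _) = _
    rw [if_neg e2, if_pos e3, e4]
  have a3 : ∀ y M, (num b fun r => (bif decide (w + b + r < w + 2 * b) then g (w + b + r) y M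
      else M (w + b + r))) = t y M := by
    intro y M
    rw [num_congr (h := fun r => (t y M).testBit r) fun r hr => ?_, hc_num_testBit_eq (ht.lt y M)]
    rw [hg]
    have e1 : w + b + r < w + 2 * b := by omega
    have e2 : ¬ w + b + r < w := by omega
    have e3 : ¬ w + b + r < w + b := by omega
    have e4 : w + b + r - (w + b) = r := by omega
    rw [decide_eq_true e1]
    show (if w + b + r < w then _ else if w + b + r < w + b then _ else _) = _
    rw [if_neg e2, if_neg e3, e4]
  have key : ∀ {f : Lk (Fin h → Bool) → Bool},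
      Cp X (X ^ 31) (fun y M => f (lkup (rdL h w b σ (vO y)) (fun _ => false) (fun _ => false) w
        (rdK w σ (kO y)) (num w fun r => M r) (num b fun r => M (w + r))
        (num b fun r => M (w + b + r)))) →
      Cp X (X ^ (k + 2)) (fun y M => f (lkup (rdL h w b σ (vO y)) (fun _ => false)
        (fun _ => false) w (rdK w σ (kO y)) (i y M) (u y M) (t y M))) := by
    intro f hf
    refine (CX.call (m := w + 2 * b) hX' (hf.up hX' hk) hgc).congr fun y M => ?_
    simp only []
    rw [a1, a2, a3]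
  refine ⟨key (f := Lk.isBad) h4.bad, key (f := Lk.isOwn) h4.own,
    fun r => key (f := fun x => x.vec r) (h4.val r), ⟨fun y M => ?_, fun r =>
    key (f := fun x => x.num.testBit r) (h4.num.bit r)⟩⟩
  have h5 := h4.num.lt y (fun q => bif decide (q < w + 2 * b) then g q y M else M q)
  simp only [] at h5
  rw [a1, a2, a3] at h5
  exact h5

/-! ### states -/

/-- computable state (only the digits of the numbers) -/
structure CSt (B s : ℕ) {h : ℕ} (x : Inp → Mem → St (Fin h → Bool)) : Prop where
  hlt : Cp B s (fun y M => (x y M).hlt)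
  acc : Cp B s (fun y M => (x y M).acc)
  sim : Cp B s (fun y M => (x y M).sim)
  i : ∀ r, Cp B s (fun y M => (x y M).i.testBit r)
  n : ∀ r, Cp B s (fun y M => (x y M).n.testBit r)
  u : ∀ r, Cp B s (fun y M => (x y M).u.testBit r)
  a : CV B s (fun y M => (x y M).a)
  q : ∀ r, Cp B s (fun y M => (x y M).q.testBit r)

/-- computable state with bounded numbers -/
structure CStN (B s w b : ℕ) {h : ℕ} (x : Inp → Mem → St (Fin h → Bool)) : Prop
    extends CSt B s x where
  il : ∀ y M, (x y M).i < 2 ^ w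
  nl : ∀ y M, (x y M).n < 2 ^ b
  ul : ∀ y M, (x y M).u < 2 ^ b

section

variable {X B k l : ℕ} {h w b σ d : ℕ}

theorem CStN.iN {s : ℕ} {x : Inp → Mem → St (Fin h → Bool)} (hx : CStN B s w b x) :
    CN B s w (fun y M => (x y M).i) := ⟨hx.il, hx.i⟩

theorem CStN.nN {s : ℕ} {x : Inp → Mem → St (Fin h → Bool)} (hx : CStN B s w b x) :
    CN B s b (fun y M => (x y M).n) := ⟨hx.nl, hx.n⟩

theorem CStN.uN {s : ℕ} {x : Inp → Mem → St (Fin h → Bool)} (hx : CStN B s w b x) :
    CN B s b (fun y M => (x y M).u) := ⟨hx.ul, hx.u⟩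

theorem CSt.up {x : Inp → Mem → St (Fin h → Bool)} (hx : CSt B (X ^ k) x) (hX : 1000 ≤ X)
    (hkl : k ≤ l) : CSt B (X ^ l) x :=
  ⟨hx.hlt.up hX hkl, hx.acc.up hX hkl, hx.sim.up hX hkl, fun r => (hx.i r).up hX hkl,
    fun r => (hx.n r).up hX hkl, fun r => (hx.u r).up hX hkl, hx.a.up hX hkl,
    fun r => (hx.q r).up hX hkl⟩

theorem CSt.congr {s : ℕ} {x x' : Inp → Mem → St (Fin h → Bool)} (hx : CSt B s x)
    (hxx : ∀ y M, x y M = x' y M) : CSt B s x' := by
  have : x = x' := by funext y M; exact hxx y M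
  rwa [← this]

theorem CSt.bif {f : Inp → Mem → Bool} {x x' : Inp → Mem → St (Fin h → Bool)} (hX : 1000 ≤ X)
    (hf : Cp B (X ^ k) f) (hx : CSt B (X ^ k) x) (hx' : CSt B (X ^ k) x') :
    CSt B (X ^ (k + 1)) (fun y M => bif f y M then x y M else x' y M) := by
  refine ⟨?_, ?_, ?_, fun r => ?_, fun r => ?_, fun r => ?_, fun r => ?_, fun r => ?_⟩
  · exact (CX.bif hX hf hx.hlt hx'.hlt).congr fun y M => by cases f y M <;> rfl
  · exact (CX.bif hX hf hx.acc hx'.acc).congr fun y M => by cases f y M <;> rfl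
  · exact (CX.bif hX hf hx.sim hx'.sim).congr fun y M => by cases f y M <;> rfl
  · exact (CX.bif hX hf (hx.i r) (hx'.i r)).congr fun y M => by cases f y M <;> rfl
  · exact (CX.bif hX hf (hx.n r) (hx'.n r)).congr fun y M => by cases f y M <;> rfl
  · exact (CX.bif hX hf (hx.u r) (hx'.u r)).congr fun y M => by cases f y M <;> rfl
  · exact (CX.bif hX hf (hx.a r) (hx'.a r)).congr fun y M => by
      show _ = (bif f y M then x y M else x' y M).a r
      cases f y M <;> rfl
  · exact (CX.bif hX hf (hx.q r) (hx'.q r)).congr fun y M => by cases f y M <;> rfl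

theorem CSt.rej {x : Inp → Mem → St (Fin h → Bool)} (hX : 1000 ≤ X) (hx : CSt B (X ^ (k + 1)) x) :
    CSt B (X ^ (k + 1)) (fun y M => (x y M).rej) :=
  ⟨(CX.const hX true).up hX (by omega), (CX.const hX false).up hX (by omega), hx.sim, hx.i, hx.n,
    hx.u, hx.a, hx.q⟩

theorem CSt.yes {x : Inp → Mem → St (Fin h → Bool)} (hX : 1000 ≤ X) (hx : CSt B (X ^ (k + 1)) x) :
    CSt B (X ^ (k + 1)) (fun y M => (x y M).yes) :=
  ⟨(CX.const hX true).up hX (by omega), (CX.const hX true).up hX (by omega), hx.sim, hx.i, hx.n,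
    hx.u, hx.a, hx.q⟩

/-! ### the simulated machine -/

theorem CX.emb (hX : 1000 ≤ X) {a : Inp → Mem → Fin h → Bool} (ha : CV B (X ^ (k + 1)) a) (q : ℕ) :
    Cp B (X ^ (k + 1)) (fun y M => embM (a y M) q) := by
  by_cases hq : q / 2 < h
  · by_cases hq2 : q % 2 = 0
    · refine (ha ⟨q / 2, hq⟩).congr fun y M => ?_
      unfold embM
      rw [dif_pos hq, if_pos hq2]
    · refine ((CX.const hX false).up hX (by omega)).congr fun y M => ?_
      unfold embM
      rw [dif_pos hq, if_neg hq2]
  · refine ((CX.const hX false).up hX (by omega)).congr fun y M => ?_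
    unfold embM
    rw [dif_neg hq]

/-- pointer of a computed state -/
theorem CX.ptr (hX : 1000 ≤ X) {a : Inp → Mem → Fin h → Bool} (ha : CV B (X ^ (k + 1)) a)
    (hd : d ≤ b) : CN B (X ^ (k + 1)) b (fun y M => ptr d (embM (a y M))) :=
  (CN.of hX (g := fun r y M => embM (a y M) (4 * r + 4)) fun r _ => CX.emb hX ha _).widen hd

/-- one step of the simulated machine -/
theorem CX.gpass {G : List Ins} (hG : Sz (2 * h) G) (hX : 1000 * (h + w + b + σ + 10) ≤ X)
    {a c : Inp → Mem → Fin h → Bool} (ha : CV X (X ^ (k + 2)) a) (hc : CV X (X ^ (k + 2)) c) :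
    CV X (X ^ (k + 4)) (fun y M => (finHM (eval G (zO y)) d h).step (a y M) (c y M)) := by
  intro r
  have hl : Loc (2 * h) (20 * (2 * h + 2) + (2 * h + 2 + 1) + 20) zO :=
    Loc.shift [false, false] (Loc.id (2 * h + 2))
  have h1 := ((Tr.pass hG).virt hl le_rfl).cell (q := 2 * (r : ℕ)) (by have := r.2; omega)
  have h2 : Cp X (X ^ 2) (fun y M => eval G (zO y) M (2 * (r : ℕ))) := by
    refine h1.mono (by omega) ?_
    have e1 : 20 * (2 * h + 2) + (2 * h + 2 + 1) + 20 + 1 ≤ X := by omega
    have e2 : 2 * h * (20 * (2 * h + 2) + (2 * h + 2 + 1) + 20 + 1) ≤ 2 * h * X :=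
      Nat.mul_le_mul_left _ e1
    have e3 : X ^ 2 = X * X := by ring
    have e4 : (2 * h + 1) * X ≤ X * X := Nat.mul_le_mul_right _ (by omega)
    have e5 : (2 * h + 1) * X = 2 * h * X + X := by ring
    rw [e3]
    rw [e5] at e4
    generalize 2 * h * (20 * (2 * h + 2) + (2 * h + 2 + 1) + 20 + 1) = p at *
    generalize 2 * h * X = p' at *
    generalize X * X = p'' at *
    omega
  have h3 := CX.call (m := 2 * h) (by omega) (h2.up (by omega) (by omega : 2 ≤ k + 2))
    (g := fun q y M => mrg (embM (a y M)) (embM (c y M)) q) (fun q hq => ?_)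
  · refine h3.congr fun y M => ?_
    show eval G (zO y) _ (2 * (r : ℕ)) = resM h (eval G (zO y) (mrg (embM (a y M)) (embM (c y M)))) r
    refine eval_agr hG.2 (fun q hq => ?_) _ (by have := r.2; omega)
    simp [hq]
  · by_cases hq2 : q % 2 = 0
    · refine (CX.emb (k := k + 1) (by omega) ha q).congr fun y M => ?_
      unfold mrg
      rw [if_pos hq2]
    · refine (CX.emb (k := k + 1) (by omega) hc (q - 1)).congr fun y M => ?_
      unfold mrg
      rw [if_neg hq2]

theorem CN.clip {n m : ℕ} {x : Inp → Mem → ℕ} (hX : 1000 ≤ X) (hx : CN B (X ^ (k + 1)) n x) :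
    CN B (X ^ (k + 1)) m (fun y M => x y M % 2 ^ m) := by
  refine ⟨fun y M => Nat.mod_lt _ (by positivity), fun r => ?_⟩
  by_cases hr : r < m
  · refine (hx.bit r).congr fun y M => ?_
    rw [Nat.testBit_mod_two_pow]
    simp [hr]
  · refine ((CX.const hX false).up hX (by omega)).congr fun y M => ?_
    rw [Nat.testBit_mod_two_pow]
    simp [hr]

end

/-! ### the pass -/

section

variable (G : List Ins) (d h w b σ lim : ℕ)

/-- the simulated machine of the input -/
abbrev yH (y : Inp) : HM (Fin h → Bool) := finHM (eval G (zO y)) d h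

/-- the list of claims of the input -/
abbrev yL (y : Inp) : Lst (Fin h → Bool) := rdL h w b σ (vO y)

/-- continue -/
def stF (y : Inp) (x : St (Fin h → Bool)) (a' : Fin h → Bool) : St (Fin h → Bool) :=
  { hlt := false, acc := false, sim := true, i := x.i, n := x.n + 1, u := x.u + 1, a := a',
    q := (lkup (yL h w b σ y) (fun _ => false) (fun _ => false) w (rdK w σ (kO y)) x.i
      ((x.u + 1) % 2 ^ b) (ptr d (embM a'))).num }

/-- enter a segment -/
def enF (y : Inp) (x : St (Fin h → Bool)) : St (Fin h → Bool) :=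
  { hlt := false, acc := false, sim := true, i := x.i, n := x.n + 1, u := (yL h w b σ y).pv x.i,
    a := (yL h w b σ y).ps (fun _ => false) x.i,
    q := (lkup (yL h w b σ y) (fun _ => false) (fun _ => false) w (rdK w σ (kO y)) x.i
      ((yL h w b σ y).pv x.i) (ptr d (embM ((yL h w b σ y).ps (fun _ => false) x.i)))).num }

/-- next entry -/
def nxF (x : St (Fin h → Bool)) (u : ℕ) (a' : Fin h → Bool) : St (Fin h → Bool) :=
  bif decide (x.i + 1 < 2 ^ w) then
    { hlt := false, acc := false, sim := false, i := x.i + 1, n := x.n + 1, u := u, a := a',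
      q := 0 }
  else x.rej

/-- the move to `a'` -/
def mvF (y : Inp) (x : St (Fin h → Bool)) (a' : Fin h → Bool) : St (Fin h → Bool) :=
  bif (embM a' 0 && !(decide (x.u + 1 = (yL h w b σ y).tm x.i) && (yL h w b σ y).fin x.i)) then
    x.rej
  else bif decide (x.u + 1 = (yL h w b σ y).tm x.i) then
    bif decide (a' = (yL h w b σ y).st x.i) then
      bif (yL h w b σ y).fin x.i then (bif (embM a' 0 && embM a' 2) then x.yes else x.rej)
      else nxF h w x (x.u + 1) a'
    else x.rej
  else stF d h w b σ y x a'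

/-- scanning -/
def scF (y : Inp) (x : St (Fin h → Bool)) : St (Fin h → Bool) :=
  bif decide ((yL h w b σ y).pv x.i < (yL h w b σ y).tm x.i) then
    bif decide ((yL h w b σ y).lb x.i = rdK w σ (kO y)) then
      bif decide ((yL h w b σ y).off x.i = x.n + 1) then enF d h w b σ y x else x.rej
    else bif (yL h w b σ y).fin x.i then x.yes else nxF h w x x.u x.a
  else x.rej

/-- the look-up for the present step -/
def lkF (y : Inp) (x : St (Fin h → Bool)) : Lk (Fin h → Bool) :=
  lkup (yL h w b σ y) (fun _ => false) (fun _ => false) w (rdK w σ (kO y)) x.i x.u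
    (ptr d (embM x.a))

/-- the pass -/
def psF (y : Inp) (x : St (Fin h → Bool)) (c : Fin h → Bool) : St (Fin h → Bool) :=
  bif decide (lim ≤ x.n + 1) then x.rej
  else bif x.sim then
    bif (lkF d h w b σ y x).isBad then x.rej
    else mvF d h w b σ y x ((yH G d h y).step x.a
      (bif (lkF d h w b σ y x).isOwn then c else (lkF d h w b σ y x).vec))
  else scF d h w b σ y x

end

section

variable {X k h w b σ d lim : ℕ}

theorem CSt.nx (hX : 1000 * (h + w + b + σ + 10) ≤ X) {x : Inp → Mem → St (Fin h → Bool)}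
    (hx : CStN X (X ^ 1) w b x) {u : Inp → Mem → ℕ} {a' : Inp → Mem → Fin h → Bool}
    (hu : ∀ r, Cp X (X ^ (k + 6)) (fun y M => (u y M).testBit r)) (ha : CV X (X ^ (k + 6)) a') :
    CSt X (X ^ (k + 7)) (fun y M => nxF h w (x y M) (u y M) (a' y M)) := by
  have hX' : 1000 ≤ X := by omega
  have h1 := CN.succ hX' (by omega) hx.iN
  have h2 := CN.ltc hX' (by omega) h1
    ((CN.const hX' (n := w + 1) (c := 2 ^ w) (Nat.pow_lt_pow_right (by norm_num) (by omega))).up
      hX' (by omega : 1 ≤ 3))
  have h3 := CN.succ hX' (by omega) hx.nN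
  refine CSt.bif hX' (h2.up hX' (by omega)) ?_ ((CSt.rej hX' hx.toCSt).up hX' (by omega))
  exact ⟨(CX.const hX' _).up hX' (by omega), (CX.const hX' _).up hX' (by omega),
    (CX.const hX' _).up hX' (by omega), fun r => (h1.bit r).up hX' (by omega),
    fun r => (h3.bit r).up hX' (by omega), hu, ha,
    fun r => ((CX.const hX' ((0 : ℕ).testBit r)).up hX' (by omega : 1 ≤ k + 6)).congr
      fun _ _ => rfl⟩

theorem CSt.st (hX : 1000 * (h + w + b + σ + 10) ≤ X) (hd : d ≤ b)
    {x : Inp → Mem → St (Fin h → Bool)}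
    (hx : CStN X (X ^ 1) w b x) {a' : Inp → Mem → Fin h → Bool}
    (ha : CV X (X ^ 34) a') :
    CSt X (X ^ 36) (fun y M => stF d h w b σ y (x y M) (a' y M)) := by
  have hX' : 1000 ≤ X := by omega
  have h3 := CN.succ hX' (by omega) hx.nN
  have h4 := CN.succ hX' (by omega) hx.uN
  have h5 := CN.clip (m := b) (k := 2) hX' h4
  have h6 := CX.ptr (k := 33) (b := b) hX' ha hd
  have h7 := lkCall (σ := σ) hX (by omega) (hx.iN.up hX' (by omega)) (h5.up hX' (by omega)) h6
  exact ⟨(CX.const hX' _).up hX' (by omega), (CX.const hX' _).up hX' (by omega),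
    (CX.const hX' _).up hX' (by omega), fun r => (hx.i r).up hX' (by omega),
    fun r => (h3.bit r).up hX' (by omega), fun r => (h4.bit r).up hX' (by omega),
    ha.up hX' (by omega), fun r => h7.num.bit r⟩

theorem CSt.en (hX : 1000 * (h + w + b + σ + 10) ≤ X) (hd : d ≤ b)
    {x : Inp → Mem → St (Fin h → Bool)} (hx : CStN X (X ^ 1) w b x) :
    CSt X (X ^ 33) (fun y M => enF d h w b σ y (x y M)) := by
  have hX' : 1000 ≤ X := by omega
  have h3 := CN.succ hX' (by omega) hx.nN
  have h4 := CX.pv (k := 0) hX hx.iN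
  have h5 := CX.ps (k := 0) hX hx.iN
  have h6 := CX.ptr (k := 11) (b := b) hX' h5 hd
  have h7 := lkCall (σ := σ) (k := 31) hX le_rfl (hx.iN.up hX' (by omega))
    (h4.up hX' (by omega)) (h6.up hX' (by omega))
  exact ⟨(CX.const hX' _).up hX' (by omega), (CX.const hX' _).up hX' (by omega),
    (CX.const hX' _).up hX' (by omega), fun r => (hx.i r).up hX' (by omega),
    fun r => (h3.bit r).up hX' (by omega), fun r => (h4.bit r).up hX' (by omega),
    h5.up hX' (by omega), fun r => h7.num.bit r⟩

theorem CSt.mv (hX : 1000 * (h + w + b + σ + 10) ≤ X) (hd : d ≤ b)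
    {x : Inp → Mem → St (Fin h → Bool)}
    (hx : CStN X (X ^ 1) w b x) {a' : Inp → Mem → Fin h → Bool}
    (ha : CV X (X ^ 34) a') :
    CSt X (X ^ 42) (fun y M => mvF d h w b σ y (x y M) (a' y M)) := by
  have hX' : 1000 ≤ X := by omega
  have h4 := CN.succ hX' (by omega) hx.uN
  have htm := CX.tm (k := 0) (h := h) (b := b) (σ := σ) hX hx.iN
  have hfin := CX.fin (k := 0) (h := h) (b := b) (σ := σ) hX hx.iN
  have hst := CX.st (k := 0) (h := h) (b := b) (σ := σ) hX hx.iN
  have h5 := CN.eq hX' (by omega) h4 (htm.widen (Nat.le_succ b))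
  have h6 := CV.eq (k := 33) hX' (by omega) ha (hst.up hX' (by omega))
  have e0 := CX.emb (k := 33) hX' ha 0
  have e2 := CX.emb (k := 33) hX' ha 2
  have c1 := CX.and hX' h5 (hfin.up hX' (by omega))
  have c2 := CX.not hX' c1
  have c3 := CX.and hX' e0 (c2.up hX' (by omega))
  have hrej := CSt.rej (k := 0) hX' hx.toCSt
  have hyes := CSt.yes (k := 0) hX' hx.toCSt
  have hnx := CSt.nx (k := 28) (σ := σ) hX hx (u := fun y M => (x y M).u + 1)
    (fun r => (h4.bit r).up hX' (by omega)) ha
  have hs := CSt.st (σ := σ) hX hd hx ha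
  have b1 := CSt.bif hX' ((CX.and hX' e0 e2).up hX' (by omega : 35 ≤ 36)) (hyes.up hX' (by omega))
    (hrej.up hX' (by omega))
  have b2 := CSt.bif hX' (hfin.up hX' (by omega)) b1 (hnx.up hX' (by omega))
  have b3 := CSt.bif hX' (h6.up hX' (by omega)) b2 (hrej.up hX' (by omega))
  have b4 := CSt.bif hX' (h5.up hX' (by omega)) b3 (hs.up hX' (by omega))
  have b5 := CSt.bif hX' (c3.up hX' (by omega)) (hrej.up hX' (by omega)) b4
  exact b5.up hX' (by omega)

theorem CSt.sc (hX : 1000 * (h + w + b + σ + 10) ≤ X) (hd : d ≤ b)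
    {x : Inp → Mem → St (Fin h → Bool)} (hx : CStN X (X ^ 1) w b x) :
    CSt X (X ^ 40) (fun y M => scF d h w b σ y (x y M)) := by
  have hX' : 1000 ≤ X := by omega
  have h3 := CN.succ hX' (by omega) hx.nN
  have htm := CX.tm (k := 0) (h := h) (b := b) (σ := σ) hX hx.iN
  have hlb := CX.lb (k := 0) (h := h) (b := b) (σ := σ) hX hx.iN
  have hoff := CX.off (k := 0) (h := h) (b := b) (σ := σ) hX hx.iN
  have hfin := CX.fin (k := 0) (h := h) (b := b) (σ := σ) hX hx.iN
  have hpv := CX.pv (k := 0) (h := h) (b := b) (σ := σ) hX hx.iN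
  have hk := CX.rdK (B := X) (h := h) (b := b) (w := w) (σ := σ) hX
  have c1 := CN.ltc hX' (by omega) hpv (htm.up hX' (by omega))
  have c2 := CN.eq hX' (by omega) hlb (hk.up hX' (by omega))
  have c3 := CN.eq hX' (by omega) (hoff.widen (Nat.le_succ b)) h3
  have hrej := CSt.rej (k := 0) hX' hx.toCSt
  have hyes := CSt.yes (k := 0) hX' hx.toCSt
  have hnx := CSt.nx (k := 0) (σ := σ) hX hx (u := fun y M => (x y M).u)
    (fun r => (hx.u r).up hX' (by omega)) (hx.a.up hX' (by omega))
  have hen := CSt.en (σ := σ) hX hd hx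
  have b1 := CSt.bif hX' (c3.up hX' (by omega)) hen (hrej.up hX' (by omega))
  have b2 := CSt.bif hX' (hfin.up hX' (by omega)) (hyes.up hX' (by omega)) hnx
  have b3 := CSt.bif hX' (c2.up hX' (by omega)) b1 (b2.up hX' (by omega))
  have b4 := CSt.bif hX' (c1.up hX' (by omega)) b3 (hrej.up hX' (by omega))
  exact b4.up hX' (by omega)

/-- all components of the pass are computable -/
theorem CSt.ps {G : List Ins} (hG : Sz (2 * h) G) (hX : 1000 * (h + w + b + σ + 10) ≤ X)
    (hd : d ≤ b) (hlim : lim < 2 ^ b)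
    {x : Inp → Mem → St (Fin h → Bool)} (hx : CStN X (X ^ 1) w b x)
    {c : Inp → Mem → Fin h → Bool} (hc : CV X (X ^ 1) c) :
    CSt X (X ^ 55) (fun y M => psF G d h w b σ lim y (x y M) (c y M)) := by
  have hX' : 1000 ≤ X := by omega
  have h3 := CN.succ hX' (by omega) hx.nN
  have h6 := CX.ptr (k := 0) (b := b) hX' hx.a hd
  have hlk : CLk X (X ^ 31) b (fun y M => lkF d h w b σ y (x y M)) :=
    CLk.lkup (σ := σ) (k := 0) hX hx.iN hx.uN h6
  have hW := CV.bif hX' hlk.own (hc.up hX' (by omega)) hlk.val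
  have hstep := CX.gpass (d := d) (k := 30) (w := w) (b := b) (σ := σ) hG hX
    (hx.a.up hX' (by omega)) hW
  have hmv := CSt.mv (σ := σ) hX hd hx hstep
  have hsc := CSt.sc (σ := σ) hX hd hx
  have hrej := CSt.rej (k := 0) hX' hx.toCSt
  have c1 := CN.lec hX' (by omega) ((CN.const hX' (n := b + 1) (c := lim)
    (hlim.trans (Nat.pow_lt_pow_right (by norm_num) (by omega)))).up hX' (by omega : 1 ≤ 3)) h3
  have b1 := CSt.bif hX' (hlk.bad.up hX' (by omega)) (hrej.up hX' (by omega)) hmv
  have b2 := CSt.bif hX' (hx.sim.up hX' (by omega)) b1 (hsc.up hX' (by omega))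
  have b3 := CSt.bif hX' (c1.up hX' (by omega)) (hrej.up hX' (by omega)) b2
  exact b3.up hX' (by omega)

end

end Pool.Agent.NUM
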