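import Pool.Agent.NUM.Core

/-!
# Purely functional programs: unlimited memory as read access to the own history

A state is a memory `V`.  In each pass the program gets the even cells of its present state and, in
the odd cells, the even cells of one earlier state, whose number is written in the cells
`4, 8, …, 4 d` of the present state.  The result is the next state.  States are never changed: they
are immutable records with pointers to earlier records.
-/

namespace Pool.Agent.NUM

/-- what a pass sees: the even cells of `V`; cell `2 i + 1` is cell `2 i` of `W` -/
def mrg (V W : Mem) : Mem := fun i => if i % 2 = 0 then V i else W (i - 1)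

/-- the pointer of the state `V`: the number written in the cells `4, 8, …, 4 d` -/
def ptr (d : ℕ) (V : Mem) : ℕ := ∑ r ∈ Finset.range d, if V (4 * r + 4) = true then 2 ^ r else 0

/-- the table of the states after `n` passes; state number `0` is `zeroMem`, and pointers to states
which do not exist yet give `zeroMem` -/
def hist (f : Mem → Mem) (d : ℕ) : ℕ → ℕ → Mem
  | 0 => fun _ => zeroMem
  | n + 1 => Function.update (hist f d n) (n + 1)
      (f (mrg (hist f d n n) (hist f d n (ptr d (hist f d n n)))))

/-- state number `n` -/
def sta (f : Mem → Mem) (d n : ℕ) : Mem := hist f d n n

/-- the computation halts after exactly `N` passes: state number `N` is the first one in which cell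
`0` is `true` -/
def HaltsAt (f : Mem → Mem) (d N : ℕ) : Prop :=
  sta f d N 0 = true ∧ ∀ n < N, sta f d n 0 = false

/-- the pointer in state number `n`: pass number `n + 1` uses the states `n` and `rcl f d n` -/
def rcl (f : Mem → Mem) (d n : ℕ) : ℕ := ptr d (sta f d n)

/-- the computation halts after at most `T` passes with the answer `b` -/
def HAns (f : Mem → Mem) (d T : ℕ) (b : Bool) : Prop :=
  ∃ N ≤ T, HaltsAt f d N ∧ sta f d N 2 = b

/-- size of a program with its `d` pointer cells -/
def HSz (s d : ℕ) (G : List Ins) : Prop := Sz s G ∧ 4 * d < s

end Pool.Agent.NUM
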