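import Pool.Agent.NUM.HFam

/-!
# Families decided by history programs, with a property of the computation; tree-width;
the interface `TradeH` for the exponent trading with small tree-width
-/

set_option autoImplicit false

namespace Pool.Agent.NUM

/-- a tree decomposition with bags of at most `k` states of the states `0, …, N`, where the states
`t`, `t + 1` and the state `rc t` (if `rc t ≤ t`) are together in a bag. The tree has the nodes
`0, …, m - 1`, node `i > 0` is joined to `par i < i`. -/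
structure TreeDec (N : ℕ) (rc : ℕ → ℕ) (k : ℕ) where
  m : ℕ
  par : ℕ → ℕ
  bag : ℕ → Finset ℕ
  par_lt : ∀ i, 0 < i → i < m → par i < i
  card : ∀ i < m, (bag i).card ≤ k
  vert : ∀ t ≤ N, ∃ i < m, t ∈ bag i
  step : ∀ t < N, ∃ i < m, t ∈ bag i ∧ t + 1 ∈ bag i ∧ (rc t ≤ t → rc t ∈ bag i)
  sub : ∀ x i j, i < m → j < m → x ∈ bag i → x ∈ bag j → (i = 0 ∨ x ∉ bag (par i)) →
    (j = 0 ∨ x ∉ bag (par j)) → i = j

/-- tree-width `2 ^ o(L)` on the instances in `D` -/
def InD {T : Type} (π : Pres T) (P : T → Prop) (e : ℝ) (D : T → Prop) : Prop :=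
  ∃ k : ℕ → ℕ, Ex 0 k ∧ InG (fun L N rc => Nonempty (TreeDec N rc (k L))) π P e D

/-- small tree-width everywhere -/
def InC {T : Type} (π : Pres T) (P : T → Prop) (e : ℝ) : Prop := InD π P e fun _ => True

/-- The interface for history programs of small tree-width. -/
structure TradeH (c : ℝ) : Prop where
  not : ∀ {T : Type} {π : Pres T} {P D : T → Prop} {b e : ℝ}, Size π b → InD π P e D →
    InD π (fun τ => ¬ P τ) e D
  dummy : ∀ {T : Type} {π : Pres T} {P D : T → Prop} {b u e : ℝ} {β : ℕ → ℕ}, Size π b →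
    Lin u β → InD π P e D → InD (π.ext β) (fun p => P p.1) e (fun p => D p.1)
  dummyH : ∀ {T : Type} {π : Pres T} {P : T → Prop} {b u e : ℝ} {β : ℕ → ℕ}, Size π b →
    Lin u β → InH π P e → InH (π.ext β) (fun p => P p.1) e
  merge : ∀ {T : Type} {π : Pres T} {b u u' e : ℝ} {β β' : ℕ → ℕ}
    {C D : (T × Inp) × Inp → Prop}, Size π b → Lin u β → Lin u' β' →
    InD ((π.ext β).ext β') C e D →
    ∃ β'' : ℕ → ℕ, Lin (max u u') β'' ∧
      InD (π.ext β'')
        (fun p => C ((p.1, fun a => p.2 (false :: a)), fun a => p.2 (true :: a))) e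
        (fun p => D ((p.1, fun a => p.2 (false :: a)), fun a => p.2 (true :: a)))
  /-- (S) speed up, on the instances with small tree-width: the honest string gives accepting checks,
  every string for a false instance has a rejecting check, and these checks are in `D'` -/
  speedup : ∀ {T : Type} {π : Pres T} {P D : T → Prop} {b e x : ℝ}, Size π b → InD π P e D →
    0 ≤ x → x ≤ e →
    ∃ (q w : ℕ → ℕ) (B D' : T × (List Bool × List Bool × List Bool) × Inp → Prop),
      Lin x q ∧ Lin 0 w ∧ InD (π.view q w) B (e - x) D' ∧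
      ∃ L₀, ∀ τ, L₀ ≤ π.idx τ → D τ →
        (P τ → ∃ y, ∀ κ, D' (τ, κ, y) ∧ B (τ, κ, y)) ∧
        (¬ P τ → ∀ y, ∃ κ, D' (τ, κ, y) ∧ ¬ B (τ, κ, y))
  /-- elimination of a quantifier -/
  elim : ∀ {T : Type} {π : Pres T} {b u e : ℝ} {β : ℕ → ℕ} {A : T × Inp → Prop}, 1 ≤ b →
    Size π b → Lin u β → InH (π.ext β) A e →
    InC π (fun τ => ∃ y, A (τ, y)) (c * max b (max u e))
  /-- (W) slow down -/
  slow : ∀ {T : Type} {π : Pres T} {b x u e : ℝ} {q w β : ℕ → ℕ}
    {A : (T × (List Bool × List Bool × List Bool) × Inp) × Inp → Prop}, 1 ≤ b → Size π b →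
    Lin x q → Lin 0 w → Lin u β → u ≤ e → InH ((π.view q w).ext β) A e →
    InC (π.ext fun L => q L + w L) (fun p => ∀ κ v, A ((p.1, κ, p.2), v)) (c * max (max b x) e)
  /-- (F) -/
  diag : ∀ (a : ℕ) (u e : ℝ), 1 ≤ a → u ≤ e → e < a →
    ∃ (T : Type) (π : Pres T) (D : T → Prop), Size π 1 ∧ InC π D (c * a) ∧ ¬ InEH u π D e

end Pool.Agent.NUM
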