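import Pool.Agent.NUM.HPackDef

/-!
# Packed machines: from a packed machine to a history program
-/

set_option autoImplicit false

namespace Pool.Agent.NUM

namespace Lay

variable {y : Lay}

theorem hp_pack_ix (s : PSt) {r : ℕ} (hr : r < y.W) :
    y.pack s (2 * r + 2) = s.ix.testBit r := by
  unfold pack
  rw [if_neg (by omega), if_neg (by omega), if_pos (by omega), if_pos (by omega)]
  congr 1
  omega

theorem hp_pack_fl (s : PSt) : y.pack s (2 * y.W + 2) = s.fl := by
  unfold pack
  rw [if_neg (by omega), if_neg (by omega), if_neg (by omega), if_pos rfl]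

theorem hp_pack_e (s : PSt) {i : ℕ} (hi : i < y.ke) :
    y.pack s (2 * y.W + 3 + i) = s.e.testBit i := by
  unfold pack
  rw [if_neg (by omega), if_neg (by omega), if_neg (by omega), if_neg (by omega),
    if_pos (by omega)]
  congr 1
  omega

theorem hp_pack_u (s : PSt) {i : ℕ} (hi : i < y.W) :
    y.pack s (2 * y.W + 3 + y.ke + i) = s.u.testBit i := by
  unfold pack
  rw [if_neg (by omega), if_neg (by omega), if_neg (by omega), if_neg (by omega),
    if_neg (by omega), if_pos (by omega)]
  congr 1
  omega

theorem hp_pack_n (s : PSt) {i : ℕ} (hi : i < y.W) :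
    y.pack s (2 * y.W + 3 + y.ke + y.W + i) = s.n.testBit i := by
  unfold pack
  have hb : y.base = 2 * y.W + 3 + y.ke + y.W + y.W := rfl
  rw [if_neg (by omega), if_neg (by omega), if_neg (by omega), if_neg (by omega),
    if_neg (by omega), if_neg (by omega), if_pos (by omega)]
  congr 1
  omega

theorem hp_pack_X (s : PSt) {j : ℕ} (hj : j < y.v) : y.pack s (y.base + j) = s.X j := by
  unfold pack
  have hb : y.base = 2 * y.W + 3 + y.ke + y.W + y.W := rfl
  have ht : y.tot = y.base + y.v := rfl
  rw [if_neg (by omega), if_neg (by omega), if_neg (by omega), if_neg (by omega),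
    if_neg (by omega), if_neg (by omega), if_neg (by omega), if_pos (by omega)]
  congr 1
  omega

theorem hp_num_bits {n x : ℕ} (hx : x < 2 ^ n) {g : ℕ → Bool} (hg : ∀ i < n, g i = x.testBit i) :
    num n g = x := (num_eq_iff n g x hx).2 hg

theorem hp_num_false {n : ℕ} {g : ℕ → Bool} (hg : ∀ i < n, g i = false) : num n g = 0 := by
  rw [num_eq_iff n g 0 (by positivity)]
  intro i hi
  rw [hg i hi, Nat.zero_testBit]

/-- only the bits below `tot` matter -/
theorem hp_unpack_congr {V V' : ℕ → Bool} (h : ∀ q < y.tot, V q = V' q) :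
    y.unpack V = y.unpack V' := by
  have hb : y.base = 2 * y.W + 3 + y.ke + y.W + y.W := rfl
  have ht : y.tot = y.base + y.v := rfl
  unfold unpack
  rw [PSt.mk.injEq]
  refine ⟨h 0 (by omega), h 1 (by omega), h _ (by omega), num_congr fun i hi => h _ (by omega),
    num_congr fun i hi => h _ (by omega), num_congr fun i hi => h _ (by omega),
    num_congr fun i hi => h _ (by omega), ?_⟩
  funext j
  by_cases hj : j < y.v
  · rw [if_pos hj, if_pos hj]
    exact h _ (by omega)
  · rw [if_neg hj, if_neg hj]

theorem hp_pack_init (q : ℕ) : y.pack PSt.init q = false := by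
  unfold pack PSt.init
  simp

end Lay

theorem Lay.unpack_pack {y : Lay} {s : PSt} (h : y.Ok s) : y.unpack (y.pack s) = s := by
  obtain ⟨halt, ans, fl, ix, e, u, n, X⟩ := s
  obtain ⟨h1, h2, h3, h4, h5⟩ := h
  simp only at h1 h2 h3 h4 h5
  unfold Lay.unpack
  rw [PSt.mk.injEq]
  refine ⟨rfl, rfl, Lay.hp_pack_fl _, Lay.hp_num_bits h1 fun i hi => Lay.hp_pack_ix _ hi,
    Lay.hp_num_bits h2 fun i hi => Lay.hp_pack_e _ hi,
    Lay.hp_num_bits h3 fun i hi => Lay.hp_pack_u _ hi,
    Lay.hp_num_bits h4 fun i hi => Lay.hp_pack_n _ hi, ?_⟩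
  funext j
  by_cases hj : j < y.v
  · rw [if_pos hj]
    exact Lay.hp_pack_X _ hj
  · rw [if_neg hj]
    exact (h5 j (by omega)).symm

theorem Lay.unpack_zero (y : Lay) : y.unpack (fun _ => false) = PSt.init := by
  unfold Lay.unpack PSt.init
  rw [PSt.mk.injEq]
  refine ⟨rfl, rfl, rfl, Lay.hp_num_false fun _ _ => rfl, Lay.hp_num_false fun _ _ => rfl,
    Lay.hp_num_false fun _ _ => rfl, Lay.hp_num_false fun _ _ => rfl, ?_⟩
  funext j
  split_ifs <;> rfl

theorem hp_ptr_eq (d : ℕ) (V : Mem) : ptr d V = num d fun r => V (4 * r + 4) := rfl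

theorem hp_prun_eq (nx : PSt → (ℕ → Bool) → PSt) {n m : ℕ} (h : m ≤ n) :
    prun nx n m = prun nx m m := by
  induction n with
  | zero =>
    obtain rfl : m = 0 := by omega
    rfl
  | succ n ih =>
    rcases Nat.lt_or_ge n m with h1 | h1
    · obtain rfl : m = n + 1 := by omega
      rfl
    · rw [prun, Function.update_of_ne (by omega), ih h1]

/-- there is a run -/
theorem exists_isRun (nx : PSt → (ℕ → Bool) → PSt) : ∃ s : ℕ → PSt, ∀ T, IsRun nx s T := by
  refine ⟨fun t => prun nx t t, fun T => ⟨rfl, fun t _ => ?_⟩⟩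
  show prun nx (t + 1) (t + 1) = _
  rw [prun, Function.update_self]
  by_cases h : (prun nx t t).ix ≤ t
  · rw [if_pos h, if_pos h, hp_prun_eq nx h]
  · rw [if_neg h, if_neg h]

/-- a transformation applied to a computed memory -/
theorem Cp.appTr {b s N t : ℕ} {F : Inp → Mem → Mem} (hF : Tr s N F) (hs : s ≤ b) (hb : 0 < b)
    {X : Inp → Mem → Mem} (hX : ∀ q < s, Cp b t (fun z M => X z M q)) {p : ℕ} (hp : p < s) :
    Cp b (N + (b + 1) * (t + 20)) (fun z M => F z (X z M) p) := by
  have _ := hb
  set G : Inp → Mem → Mem := fun z M q => if q < s then X z M q else M q with hG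
  have h1 : Tr b (b * (t + 2 + 3) + 1) G := by
    refine Tr.ofCp (fun q hq => ?_)
    by_cases hqs : q < s
    · exact ((hX q hqs).mono le_rfl (by omega)).congr fun z M => (if_pos hqs).symm
    · exact ((Cp.cell hq).mono le_rfl (by omega)).congr fun z M => (if_neg hqs).symm
  have h2 := (h1.comp (hF.lift hs)).cell (show p < b by omega)
  refine (h2.congr fun z M => ?_).mono le_rfl ?_
  · show NUM.lift s F z (G z M) p = F z (X z M) p
    rw [lift_lt hp]
    exact hF.dep z _ _ (fun q hq => if_pos hq) p hp
  · nlinarith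

/-- **From a packed machine to a history program.** -/
theorem exists_packed {y : Lay} {N : ℕ} {nx : Inp → PSt → (ℕ → Bool) → PSt}
    (h : ∀ q < y.tot, Cp (2 * y.tot) N
      (fun z M => y.pack (nx z (y.unpack (evc M)) (y.unpack (odc M)).X) q)) :
    ∃ G' : List Ins, HSz (2 * y.tot * (N + 5) + 2) y.W G' ∧
      ∀ (z : Inp) (s : ℕ → PSt) (T : ℕ), IsRun (nx z) s T → (∀ t < T, y.Ok (s t)) →
        (∀ t ≤ T, ∀ q < y.tot, sta (eval G' z) y.W t (2 * q) = y.pack (s t) q) ∧
        (∀ t ≤ T, sta (eval G' z) y.W t 0 = (s t).halt) ∧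
        (∀ t ≤ T, sta (eval G' z) y.W t 2 = (s t).ans) ∧
        (∀ t < T, rcl (eval G' z) y.W t = (s t).ix) := by
  have hb : y.base = 2 * y.W + 3 + y.ke + y.W + y.W := rfl
  have ht : y.tot = y.base + y.v := rfl
  set F : Inp → Mem → Mem := fun z M i =>
    y.pack (nx z (y.unpack (evc M)) (y.unpack (odc M)).X) (i / 2) with hF
  have hTr : Tr (2 * y.tot) (2 * y.tot * (N + 3) + 1) F :=
    Tr.ofCp (fun q hq => h (q / 2) (by omega))
  obtain ⟨G', hG', hG⟩ := hTr.exists_code
  refine ⟨G', ⟨hG'.mono (by nlinarith), by nlinarith⟩, fun z s T hrun hok => ?_⟩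
  have key : ∀ t ≤ T, ∀ q < y.tot, sta (eval G' z) y.W t (2 * q) = y.pack (s t) q := by
    intro t
    induction t using Nat.strong_induction_on with
    | _ t ih =>
      intro htT q hq
      cases t with
      | zero =>
        rw [sta_zero, hrun.1, Lay.hp_pack_init]
        rfl
      | succ t =>
        have ih0 := ih t (by omega) (by omega)
        have hrcl : rcl (eval G' z) y.W t = (s t).ix := by
          unfold rcl
          rw [hp_ptr_eq, ← Lay.hp_num_bits (hok t (by omega)).ix fun i hi =>
            Lay.hp_pack_ix (y := y) (s t) hi]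
          refine num_congr fun r hr => ?_
          rw [show 4 * r + 4 = 2 * (2 * r + 2) by ring]
          exact ih0 _ (by omega)
        rw [sta_succ, hG z _ _ (Agr.refl _ _) (2 * q) (by omega)]
        show y.pack (nx z (y.unpack (evc _)) (y.unpack (odc _)).X) (2 * q / 2) = _
        rw [show 2 * q / 2 = q by omega, hrun.2 t (by omega), hrcl]
        have e1 : y.unpack (evc (mrg (sta (eval G' z) y.W t)
            (if (s t).ix ≤ t then sta (eval G' z) y.W (s t).ix else zeroMem))) = s t := by
          rw [← Lay.unpack_pack (hok t (by omega))]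
          refine Lay.hp_unpack_congr fun p hp => ?_
          unfold evc
          rw [mrg_even]
          exact ih0 p hp
        have e2 : (y.unpack (odc (mrg (sta (eval G' z) y.W t)
            (if (s t).ix ≤ t then sta (eval G' z) y.W (s t).ix else zeroMem)))).X =
            if (s t).ix ≤ t then (s (s t).ix).X else fun _ => false := by
          by_cases hix : (s t).ix ≤ t
          · rw [if_pos hix, if_pos hix, ← Lay.unpack_pack (hok (s t).ix (by omega))]
            congr 1
            refine Lay.hp_unpack_congr fun p hp => ?_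
            unfold odc
            rw [mrg_odd]
            exact ih _ (by omega) (by omega) p hp
          · rw [if_neg hix, if_neg hix]
            have : y.unpack (odc (mrg (sta (eval G' z) y.W t) zeroMem)) = PSt.init := by
              rw [← Lay.unpack_zero y]
              refine Lay.hp_unpack_congr fun p _ => ?_
              unfold odc
              rw [mrg_odd]
              rfl
            rw [this]
            rfl
        rw [e1, e2]
  refine ⟨key, fun t htT => key t htT 0 (by omega), fun t htT => key t htT 1 (by omega),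
    fun t htT => ?_⟩
  unfold rcl
  rw [hp_ptr_eq, ← Lay.hp_num_bits (hok t (by omega)).ix fun i hi =>
    Lay.hp_pack_ix (y := y) (s t) hi]
  refine num_congr fun r hr => ?_
  rw [show 4 * r + 4 = 2 * (2 * r + 2) by ring]
  exact key t (by omega) _ (by omega)

end Pool.Agent.NUM
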