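import Pool.Agent.NUM.S3HDefs

/-!
# The pivot for history programs
-/

set_option autoImplicit false

namespace Pool.Agent.NUM

/-- the pivot, without decider -/
structure PivotHB where
  V : ℕ → ℕ → Inp → Prop
  enc : ℕ → ℕ → List Ins → Inp
  supp_enc : ∀ n sg G, Supp (3 * sg + 10) (enc n sg G)
  sound : ∀ {n sg : ℕ} {G : List Ins}, S3.GoodH n sg G → ∀ {z : Inp}, Supp (n - 2) z →
    (∀ a, z (false :: a) = enc n sg G a) → ∀ {y : Inp}, Supp (n - 2) y →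
    S3.HAcc n sg G (pair z y) → V n sg z
  complete : ∀ {n sg : ℕ} {G : List Ins}, S3.GoodH n sg G → ∀ {z : Inp}, Supp (n - 2) z →
    (∀ a, z (false :: a) = enc n sg G a) → V n sg z →
    ∃ y : Inp, Supp (n - 2) y ∧ S3.HAcc n sg G (pair z y)

/-- the pivot; `Qs` is the property of the computations of the 3SAT program -/
structure PivotH (Qs : ℕ → ℕ → (ℕ → ℕ) → Prop) (c : ℝ) extends PivotHB where
  dec : ∀ (n sg : ℕ → ℕ) (E : ℝ), 0 ≤ E → Lin E (fun L => n L + sg L) →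
    Filter.Tendsto n Filter.atTop Filter.atTop → (∀ L, sg L ≤ n L) →
    ∃ (G : ℕ → List Ins) (s t d m : ℕ → ℕ) (L₀ : ℕ), Ex 0 s ∧ Ex (c * E) t ∧ Lin E m ∧
      Filter.Tendsto m Filter.atTop Filter.atTop ∧ (∀ L, HSz (s L) (d L) (G L)) ∧
      ∀ L, L₀ ≤ L → ∀ z : Inp,
        (∃ b, HAns (eval (G L) z) (d L) (t L) b ∧ (b = true ↔ V (n L) (sg L) z)) ∧
        ∀ N, HaltsAt (eval (G L) z) (d L) N → Qs (m L) N (rcl (eval (G L) z) (d L))

end Pool.Agent.NUM
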