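import Pool.Agent.NUM.HNormCp
import Pool.Agent.NUM.HPack
import Pool.Agent.NUM.HPivotDef

/-!
# The normaliser
-/

set_option autoImplicit false

namespace Pool.Agent.NUM

/-- size of the normalised program -/
def normSz (s d' : ℕ) : ℕ := 1000 * (s + d' + 10) ^ 8

/-- **The normaliser**: recalls are always valid, acceptance is read off after `2 ^ d'` passes. -/
theorem exists_norm {G : List Ins} {s d : ℕ} (hG : HSz s d G) (hs : 3 ≤ s) (d' : ℕ) :
    ∃ G' : List Ins, HSz (normSz s d') d' G' ∧ ∀ z : Inp,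
      (∀ t, 1 ≤ t → t < 2 ^ d' → rcl (eval G' z) d' t < t) ∧
      ((sta (eval G' z) d' (2 ^ d') 0 = true ∧ sta (eval G' z) d' (2 ^ d') 2 = true) ↔
        HAns (eval G z) d (2 ^ d') true) := by
  obtain ⟨G', h1, h2⟩ := exists_packed (y := nlay s d') (N := normCp s d')
    (nx := fun z => nxN G s d z) fun q hq => nxN_cp hG hs d' hq
  refine ⟨G', ?_, fun z => ?_⟩
  · refine HSz.mono h1 ?_
    have ht : (nlay s d').tot = 2 * d' + 3 + 1 + d' + d' + s := rfl
    unfold normSz normCp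
    rw [ht]
    set D := s + d' + 10 with hD
    have h3 : 2 * (2 * d' + 3 + 1 + d' + d' + s) ≤ 8 * D := by omega
    have h4 : 1 ≤ D ^ 7 := Nat.one_le_pow _ _ (by omega)
    calc 2 * (2 * d' + 3 + 1 + d' + d' + s) * (100 * D ^ 7 + 5) + 2
        ≤ 8 * D * (100 * D ^ 7 + 5 * D ^ 7) + 2 * (D * D ^ 7) := by
          have h5 : 1 ≤ D * D ^ 7 := Nat.mul_pos (by omega) (by omega)
          exact Nat.add_le_add (Nat.mul_le_mul h3 (by omega)) (by omega)
      _ ≤ 1000 * D ^ 8 := by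
          have h6 : D ^ 8 = D * D ^ 7 := by ring
          rw [h6]
          nlinarith [Nat.zero_le (D * D ^ 7)]
  · obtain ⟨p, hp⟩ := exists_isRun (nxN G s d z)
    obtain ⟨h3, h4, h5, h6⟩ := h2 z p (2 ^ d') (hp _) (nxN_ok hG hs z (hp _))
    refine ⟨fun t ht1 ht2 => ?_, ?_⟩
    · have h7 := h6 t ht2
      have h8 := (nxN_run hG hs z (hp (2 ^ d')) t ht2.le).2.2.2.2.1 ht1
      exact h7 ▸ h8
    · have h7 := h4 _ le_rfl
      have h8 := h5 _ le_rfl
      have h9 := nxN_acc (d' := d') hG hs z (hp _)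
      rw [← h9, ← h7, ← h8]
      rfl

end Pool.Agent.NUM
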