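import Pool.Agent.NUM.HPivotDef
import Pool.Agent.NUM.HNorm
import Pool.Agent.NUM.HClosure
import Pool.Agent.NUM.Pivot

/-!
# History programs: one instance of the pivot

From a program which decides `B y` on the inputs `pair z y`: the table of the normalised and trimmed
program, and `V n sg z ↔ ∃ y, B y` for inputs `z` which begin with the table.
-/

set_option autoImplicit false

namespace Pool.Agent.NUM

open Filter

/-- size of the normalised and trimmed program -/
def hlvSz (s d : ℕ) : ℕ := 4 * normSz s d + 2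

theorem hlevel (P : PivotHB) {n sg s T d : ℕ} {G : List Ins}
    (hG : HSz s d G) (hs : 3 ≤ s)
    (hsg : hlvSz s (n - sg) < 2 ^ sg) (hn : 4 * n + 8 ≤ 2 ^ sg) (h3 : 3 ≤ sg)
    (hle : sg ≤ n) (hT : T ≤ 2 ^ (n - sg)) (hn3 : 3 ≤ n) :
    ∃ tab : Inp, Supp (3 * sg + 10) tab ∧ ∀ (z : Inp) (B : Inp → Prop) (β : ℕ), β + 2 ≤ n →
      Supp (n - 2) z → (∀ a, z (false :: a) = tab a) →
      (∀ y : Inp, ∃ b, HAns (eval G (pair z y)) d T b ∧ (b = true ↔ B y)) →
      (∀ y, B y ↔ B (trc β y)) → (P.V n sg z ↔ ∃ y, B y) := by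
  obtain ⟨G1, hG1, hnorm⟩ := exists_norm hG hs (n - sg)
  obtain ⟨S, hS⟩ : ∃ S, S = normSz s (n - sg) := ⟨_, rfl⟩
  rw [← hS] at hG1
  have hlv : hlvSz s (n - sg) = 4 * S + 2 := by rw [hS]; rfl
  rw [hlv] at hsg
  -- the trimmed program
  have hagr : ∀ Z : Inp, (∀ a : List Bool, n ≤ a.length → Z a = false) →
      ∀ M M' : Mem, Agr S M M' → Agr S (eval (trim n S G1) Z M) (eval G1 Z M') :=
    fun Z hZ => trim_agr hZ G1 hG1.1.2
  have hS3 : 3 ≤ S := by
    rw [hS]
    unfold normSz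
    have : 1 ≤ (s + (n - sg) + 10) ^ 8 := Nat.one_le_pow _ _ (by omega)
    omega
  have hgood : S3.GoodH n sg (trim n S G1) := by
    refine ⟨?_, fun c hc => (trim_top hG1.1.2 c hc).trans (by omega), fun i j l h => trim_ask h, hn,
      h3, hle, fun Z hZ t ht ht' => ?_⟩
    · have h1 := trim_length n S G1
      have h2 := hG1.1.1
      omega
    · rw [hcl_rcl hG1.2 (hagr Z hZ)]
      exact (hnorm Z).1 t ht ht'
  refine ⟨P.enc n sg (trim n S G1), P.supp_enc _ _ _, fun z B β hβ hz htab hB hBβ => ?_⟩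
  have hsupp : ∀ y : Inp, Supp (n - 2) y → ∀ a : List Bool, n ≤ a.length →
      pair z y a = false := by
    intro y hy a ha
    apply hz.pair hy
    rw [max_self]
    omega
  have key : ∀ y : Inp, Supp (n - 2) y → (S3.HAcc n sg (trim n S G1) (pair z y) ↔ B y) := by
    intro y hy
    have h1 := hcl_agr hG1.2 (hagr _ (hsupp y hy)) (2 ^ (n - sg))
    unfold S3.HAcc
    rw [h1 0 (by omega), h1 2 (by omega)]
    rw [(hnorm (pair z y)).2]
    obtain ⟨b, hb, hbB⟩ := hB y
    rw [← hbB]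
    constructor
    · intro h
      exact hcl_det hb h
    · rintro rfl
      obtain ⟨N, hN, h2, h3⟩ := hb
      exact ⟨N, hN.trans hT, h2, h3⟩
  constructor
  · intro h
    obtain ⟨y, hy, hr⟩ := P.complete hgood hz htab h
    exact ⟨y, (key y hy).1 hr⟩
  · rintro ⟨y, hy⟩
    rw [hBβ] at hy
    exact P.sound hgood hz htab ((supp_trc β y).mono (by omega))
      ((key _ ((supp_trc β y).mono (by omega))).2 hy)

end Pool.Agent.NUM
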