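import Pool.Agent.NUM.HNCore
import Pool.Agent.NUM.PFam

/-!
# Classes of problems for nondeterministic functional programs
-/

set_option autoImplicit false

namespace Pool.Agent.NUM

/-- `P` is accepted by nondeterministic functional programs of size `2 ^ o(L)` in
`2 ^ ((e + o(1)) L)` passes; the instances with `P` have an accepting computation with the property
`Q` (of the index, the number of passes and the pointers) -/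
def InGN {T : Type} (Q : ℕ → ℕ → (ℕ → ℕ) → Prop) (π : Pres T) (P : T → Prop) (e : ℝ) : Prop :=
  ∃ (G : ℕ → List Ins) (s t d : ℕ → ℕ) (L₀ : ℕ), Ex 0 s ∧ Ex e t ∧
    (∀ L, HSz (s L) (d L) (G L)) ∧
    ∀ τ, L₀ ≤ π.idx τ →
      (P τ → ∃ c, ∃ N ≤ t (π.idx τ), AccAt (eval (G (π.idx τ)) (π.inp τ)) (d (π.idx τ)) c N ∧
        Q (π.idx τ) N (rclN (eval (G (π.idx τ)) (π.inp τ)) (d (π.idx τ)) c)) ∧
      ∀ c, ∀ N ≤ t (π.idx τ), AccAt (eval (G (π.idx τ)) (π.inp τ)) (d (π.idx τ)) c N → P τ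

/-- `P` is accepted by the unsatisfiability program on virtual instances of order `m L`,
`m L ≤ (E + o(1)) L` -/
def InVN (Qs : ℕ → ℕ → (ℕ → ℕ) → Prop) (c : ℝ) {T : Type} (π : Pres T) (P : T → Prop) (E : ℝ) :
    Prop :=
  ∃ m : ℕ → ℕ, Lin E m ∧ Filter.Tendsto m Filter.atTop Filter.atTop ∧
    InGN (fun L => Qs (m L)) π P (c * E)

/-- the nondeterministic version of `InS` -/
def InSN (c ρ y : ℝ) {T : Type} (π : Pres T) (P : T → Prop) (E : ℝ) : Prop :=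
  ∃ r k : ℕ → ℕ, Ex (ρ * E) r ∧ Ex (y * E) k ∧
    InGN (fun L N rc => PartOK N rc (r L) (k L)) π P (c * E)

theorem InGN.mono {T : Type} {Q Q' : ℕ → ℕ → (ℕ → ℕ) → Prop} {π : Pres T} {P : T → Prop}
    {e e' : ℝ} (h : InGN Q π P e) (he : e ≤ e') (hQ : ∀ L N rc, Q L N rc → Q' L N rc) :
    InGN Q' π P e' := by
  obtain ⟨G, s, t, d, L₀, h1, h2, h3, h4⟩ := h
  refine ⟨G, s, t, d, L₀, h1, h2.mono he, h3, fun τ hτ => ⟨fun hP => ?_, (h4 τ hτ).2⟩⟩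
  obtain ⟨c, N, hN, hA, hQN⟩ := (h4 τ hτ).1 hP
  exact ⟨c, N, hN, hA, hQ _ _ _ hQN⟩

theorem InGN.congr {T : Type} {Q : ℕ → ℕ → (ℕ → ℕ) → Prop} {π : Pres T} {P P' : T → Prop}
    {e : ℝ} (h : InGN Q π P e) (hP : ∀ τ, P τ ↔ P' τ) : InGN Q π P' e := by
  obtain ⟨G, s, t, d, L₀, h1, h2, h3, h4⟩ := h
  exact ⟨G, s, t, d, L₀, h1, h2, h3, fun τ hτ =>
    ⟨fun h => (h4 τ hτ).1 ((hP τ).2 h), fun c N hN hA => (hP τ).1 ((h4 τ hτ).2 c N hN hA)⟩⟩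

theorem InGN.congr_ev {T : Type} {Q : ℕ → ℕ → (ℕ → ℕ) → Prop} {π : Pres T} {P P' : T → Prop}
    {e : ℝ} (h : InGN Q π P e) (hP : ∃ L₁, ∀ τ, L₁ ≤ π.idx τ → (P τ ↔ P' τ)) :
    InGN Q π P' e := by
  obtain ⟨G, s, t, d, L₀, h1, h2, h3, h4⟩ := h
  obtain ⟨L₁, hL₁⟩ := hP
  refine ⟨G, s, t, d, max L₀ L₁, h1, h2, h3, fun τ hτ => ?_⟩
  have g1 := h4 τ (le_trans (le_max_left _ _) hτ)
  have g2 := hL₁ τ (le_trans (le_max_right _ _) hτ)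
  exact ⟨fun h => g1.1 (g2.2 h), fun c N hN hA => g2.1 (g1.2 c N hN hA)⟩

theorem InSN.mono {c ρ y : ℝ} (hc : 0 ≤ c) (hρ : 0 ≤ ρ) (hy : 0 ≤ y) {T : Type} {π : Pres T}
    {P : T → Prop} {E E' : ℝ} (h : InSN c ρ y π P E) (hE : E ≤ E') : InSN c ρ y π P E' := by
  obtain ⟨r, k, hr, hk, h⟩ := h
  exact ⟨r, k, hr.mono (mul_le_mul_of_nonneg_left hE hρ),
    hk.mono (mul_le_mul_of_nonneg_left hE hy),
    h.mono (mul_le_mul_of_nonneg_left hE hc) fun _ _ _ h => h⟩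

theorem InSN.congr {c ρ y : ℝ} {T : Type} {π : Pres T} {P P' : T → Prop} {E : ℝ}
    (h : InSN c ρ y π P E) (hP : ∀ τ, P τ ↔ P' τ) : InSN c ρ y π P' E := by
  obtain ⟨r, k, hr, hk, h⟩ := h
  exact ⟨r, k, hr, hk, h.congr hP⟩

theorem InVN.toS {c ρ y : ℝ} (hρ : 0 ≤ ρ) (hy : 0 ≤ y) {T : Type} {π : Pres T} {P : T → Prop}
    {E : ℝ} (h : InVN (QP ρ y) c π P E) : InSN c ρ y π P E := by
  obtain ⟨m, hm, _, h⟩ := h
  exact ⟨_, _, ex_floor_pow hρ hm, ex_floor_pow hy hm, h⟩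

theorem InEH.mono {T : Type} {u u' e e' : ℝ} {π : Pres T} {P : T → Prop} (h : InEH u π P e)
    (hu : u ≤ u') (he : e ≤ e') : InEH u' π P e' := by
  obtain ⟨β, B, hβ, hB, h⟩ := h
  exact ⟨β, B, hβ.mono hu, hB.mono he, h⟩

theorem InEH.congr {T : Type} {u e : ℝ} {π : Pres T} {P P' : T → Prop} (h : InEH u π P e)
    (hP : ∀ τ, P τ ↔ P' τ) : InEH u π P' e := by
  obtain ⟨β, B, hβ, hB, L₀, h⟩ := h
  exact ⟨β, B, hβ, hB, L₀, fun τ hτ => (hP τ).symm.trans (h τ hτ)⟩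

end Pool.Agent.NUM
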