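import Pool.Agent.NUM.HNRead
import Pool.Agent.NUM.HNFam

/-!
# Basic lemmas on nondeterministic functional programs
-/

set_option autoImplicit false

namespace Pool.Agent.NUM

/-! ### the recursion -/

theorem histN_succ (f : Mem → Mem) (d : ℕ) (c : ℕ → Bool) (n : ℕ) :
    histN f d c (n + 1) = Function.update (histN f d c n) (n + 1)
      (f (Function.update (mrg (histN f d c n n)
        (histN f d c n (ptr d (histN f d c n n)))) 1 (c n))) := rfl

theorem histN_eq (f : Mem → Mem) (d : ℕ) (c : ℕ → Bool) (n m : ℕ) :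
    histN f d c n m = if m ≤ n then staN f d c m else zeroMem := by
  induction n with
  | zero =>
    by_cases hm : m ≤ 0
    · obtain rfl : m = 0 := by omega
      rw [if_pos hm]
      rfl
    · rw [if_neg hm]
      rfl
  | succ n ih =>
    rcases Nat.lt_trichotomy m (n + 1) with h | h | h
    · rw [histN_succ, Function.update_of_ne (by omega), ih, if_pos (by omega), if_pos (by omega)]
    · subst h
      rw [if_pos le_rfl]
      rfl
    · rw [histN_succ, Function.update_of_ne (by omega), ih, if_neg (by omega), if_neg (by omega)]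

theorem staN_zero (f : Mem → Mem) (d : ℕ) (c : ℕ → Bool) : staN f d c 0 = zeroMem := rfl

theorem staN_succ (f : Mem → Mem) (d : ℕ) (c : ℕ → Bool) (n : ℕ) :
    staN f d c (n + 1) = f (Function.update (mrg (staN f d c n)
      (if rclN f d c n ≤ n then staN f d c (rclN f d c n) else zeroMem)) 1 (c n)) := by
  have h : staN f d c (n + 1) = f (Function.update (mrg (histN f d c n n)
      (histN f d c n (ptr d (histN f d c n n)))) 1 (c n)) := by
    show histN f d c (n + 1) (n + 1) = _
    rw [histN_succ, Function.update_self]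
  rw [h, histN_eq f d c n (ptr d (histN f d c n n))]
  rfl

theorem AccAt.pos {f : Mem → Mem} {d : ℕ} {c : ℕ → Bool} {N : ℕ} (h : AccAt f d c N) :
    0 < N := by
  rcases Nat.eq_zero_or_pos N with h0 | h0
  · subst h0
    have := h.1
    simp [staN_zero, zeroMem] at this
  · exact h0

/-! ### transfer -/

theorem upd_agr {s : ℕ} {M M' : Mem} (h : Agr s M M') (i : ℕ) (b : Bool) :
    Agr s (Function.update M i b) (Function.update M' i b) := by
  intro q hq
  by_cases hqi : q = i
  · subst hqi
    simp
  · rw [Function.update_of_ne hqi, Function.update_of_ne hqi]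
    exact h q hq

theorem staN_transfer {f g : Mem → Mem} {s d : ℕ} {c : ℕ → Bool} (hd : 4 * d < s)
    (hfg : ∀ M M', Agr s M M' → EvAgr s (f M) (g M')) :
    ∀ n, EvAgr s (staN f d c n) (staN g d c n) := by
  intro n
  induction n using Nat.strong_induction_on with
  | _ n ih =>
    cases n with
    | zero => exact EvAgr.refl _ _
    | succ n =>
      have h1 := ih n (by omega)
      have h2 : rclN f d c n = rclN g d c n := ptr_agr hd h1
      rw [staN_succ, staN_succ, ← h2]
      refine hfg _ _ (upd_agr (mrg_agr h1 ?_) 1 _)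
      by_cases h3 : rclN f d c n ≤ n
      · rw [if_pos h3, if_pos h3]
        exact ih _ (by omega)
      · rw [if_neg h3, if_neg h3]
        exact EvAgr.refl _ _

theorem rclN_transfer {f g : Mem → Mem} {s d : ℕ} {c : ℕ → Bool} (hd : 4 * d < s)
    (hfg : ∀ M M', Agr s M M' → EvAgr s (f M) (g M')) : rclN f d c = rclN g d c := by
  funext n
  exact ptr_agr hd (staN_transfer hd hfg n)

theorem AccAt.transfer {f g : Mem → Mem} {s d : ℕ} {c : ℕ → Bool} (hs : 3 ≤ s) (hd : 4 * d < s)
    (hfg : ∀ M M', Agr s M M' → EvAgr s (f M) (g M')) {N : ℕ} (h : AccAt f d c N) :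
    AccAt g d c N := by
  have ht := fun n => staN_transfer (c := c) hd hfg n
  refine ⟨?_, fun n hn => ?_, ?_⟩
  · rw [← ht N 0 (by omega) rfl]
    exact h.1
  · rw [← ht n 0 (by omega) rfl]
    exact h.2.1 n hn
  · rw [← ht N 2 (by omega) rfl]
    exact h.2.2

/-! ### the computation restricted to the even cells -/

theorem finHMN_U {f : Mem → Mem} {d h : ℕ} {c : ℕ → Bool} (hd : 4 * d < 2 * h)
    (hf : ∀ M M', Agr (2 * h) M M' → EvAgr (2 * h) (f M) (f M')) (n : ℕ) :
    (finHMN f d h).U c n = resM h (staN f d c n) := by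
  induction n using Nat.strong_induction_on with
  | _ n ih =>
    cases n with
    | zero => rfl
    | succ n =>
      have h1 := ih n (by omega)
      have h2 : (finHMN f d h).idx ((finHMN f d h).U c n) = rclN f d c n := by
        rw [h1]
        exact ptr_agr hd (embM_resM (staN f d c n))
      rw [HMN.U_succ, staN_succ, h2, h1]
      show resM h (f (Function.update (mrg (embM _) (embM _)) 1 (c n))) = _
      refine resM_eq_iff.2 (hf _ _ (upd_agr (mrg_agr (embM_resM _) ?_) 1 _))
      unfold HMN.rc
      by_cases h3 : rclN f d c n ≤ n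
      · rw [if_pos h3, if_pos h3, ih _ (by omega)]
        exact embM_resM _
      · rw [if_neg h3, if_neg h3]
        have h4 : (finHMN f d h).e0 = resM h zeroMem := rfl
        rw [h4]
        exact embM_resM _

theorem finHMN_idx {f : Mem → Mem} {d h : ℕ} (hd : 4 * d < 2 * h) (V : Mem) :
    (finHMN f d h).idx (resM h V) = ptr d V := ptr_agr hd (embM_resM V)

theorem finHMN_rcl {f : Mem → Mem} {d h : ℕ} {c : ℕ → Bool} (hd : 4 * d < 2 * h)
    (hf : ∀ M M', Agr (2 * h) M M' → EvAgr (2 * h) (f M) (f M')) (n : ℕ) :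
    (finHMN f d h).idx ((finHMN f d h).U c n) = rclN f d c n := by
  rw [finHMN_U hd hf, finHMN_idx hd]
  rfl

theorem finHMN_Out {f : Mem → Mem} {d h : ℕ} {c : ℕ → Bool} (hh : 1 < h) (hd : 4 * d < 2 * h)
    (hf : ∀ M M', Agr (2 * h) M M' → EvAgr (2 * h) (f M) (f M')) {N : ℕ} :
    (finHMN f d h).Out c N true ↔ AccAt f d c N := by
  have h0 : ∀ n, (finHMN f d h).hlt ((finHMN f d h).U c n) = staN f d c n 0 := by
    intro n
    rw [finHMN_U hd hf]
    exact embM_resM _ 0 (by omega) rfl
  have h2 : (finHMN f d h).acc ((finHMN f d h).U c N) = staN f d c N 2 := by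
    rw [finHMN_U hd hf]
    exact embM_resM _ 2 (by omega) rfl
  unfold HMN.Out AccAt
  rw [h0 N, h2]
  constructor
  · rintro ⟨h3, h4, h5⟩
    exact ⟨h4, fun n hn => by rw [← h0 n]; exact h3 n hn, h5⟩
  · rintro ⟨h4, h3, h5⟩
    exact ⟨fun n hn => by rw [h0 n]; exact h3 n hn, h4, h5⟩

end Pool.Agent.NUM
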