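import Pool.Agent.NUM.HNFam

/-!
# Nondeterministic functional programs, abstract part

From the interface `TradePN c ρ y` we derive a contradiction for `1 ≤ c`, `c ρ < 1`, `c ^ 2 y < 1`.
-/

set_option autoImplicit false

namespace Pool.Agent.NUM

/-- The interface for nondeterministic functional programs. -/
structure TradePN (c ρ y : ℝ) : Prop where
  /-- the choices are guessed as a string -/
  guess : ∀ {T : Type} {π : Pres T} {P : T → Prop} {b E : ℝ}, Size π b → 0 ≤ E →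
    InSN c ρ y π P E → InEH (c * E) π P (c * E)
  /-- adding a string that is not used -/
  dummy : ∀ {T : Type} {π : Pres T} {P : T → Prop} {b u E : ℝ} {β : ℕ → ℕ}, Size π b → Lin u β →
    InSN c ρ y π P E → InSN c ρ y (π.ext β) (fun p => P p.1) E
  /-- two strings in one -/
  merge : ∀ {T : Type} {π : Pres T} {b u u' E : ℝ} {β β' : ℕ → ℕ}
    {C : (T × Inp) × Inp → Prop}, Size π b → Lin u β → Lin u' β' →
    InSN c ρ y ((π.ext β).ext β') C E →
    ∃ β'' : ℕ → ℕ, Lin (max u u') β'' ∧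
      InSN c ρ y (π.ext β'')
        (fun p => C ((p.1, fun a => p.2 (false :: a)), fun a => p.2 (true :: a))) E
  /-- two strings in one, deterministic programs -/
  mergeH : ∀ {T : Type} {π : Pres T} {b u u' e : ℝ} {β β' : ℕ → ℕ}
    {C : (T × Inp) × Inp → Prop}, Size π b → Lin u β → Lin u' β' →
    InH ((π.ext β).ext β') C e →
    ∃ β'' : ℕ → ℕ, Lin (max u u') β'' ∧
      InH (π.ext β'')
        (fun p => C ((p.1, fun a => p.2 (false :: a)), fun a => p.2 (true :: a))) e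
  /-- (S) speed up: the boundary states are guessed, every class is checked -/
  speedup : ∀ {T : Type} {π : Pres T} {P : T → Prop} {b E : ℝ}, Size π b → 0 ≤ E →
    InSN c ρ y π P E →
    ∃ (β l : ℕ → ℕ) (B : (T × Inp) × Inp → Prop), Lin (y * E) β ∧ Lin 0 l ∧
      InEH (max y ρ * E) ((π.ext β).ext l) B (max y ρ * E) ∧
      ∃ L₀, ∀ τ, L₀ ≤ π.idx τ → (P τ ↔ ∃ v, ∀ κ, B ((τ, v), κ))
  /-- (W) slow down: the assumption on unsatisfiability -/
  slow : ∀ {T : Type} {π : Pres T} {P : T → Prop} {b u e : ℝ}, 1 ≤ b →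
    Size π b → InEH u π P e → InSN c ρ y π (fun τ => ¬ P τ) (max b (max u e))
  /-- (F) diagonal problems -/
  diag : ∀ (a : ℕ) (u e : ℝ), 1 ≤ a → u ≤ e → e < a →
    ∃ (T : Type) (π : Pres T) (D : T → Prop), Size π 1 ∧ InSN c ρ y π D a ∧ ¬ InEH u π D e

/-- an existential quantifier -/
theorem TradePN.exE {c ρ y : ℝ} (H : TradePN c ρ y) {T : Type} {π : Pres T} {b u e : ℝ}
    {l : ℕ → ℕ} {P : T × Inp → Prop} (hs : Size π b) (hl : Lin 0 l) (hu : 0 ≤ u)
    (h : InEH u (π.ext l) P e) : InEH u π (fun τ => ∃ κ, P (τ, κ)) e := by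
  obtain ⟨β, B, hβ, hB, L₀, hP⟩ := h
  obtain ⟨β', hβ', hB'⟩ := H.mergeH hs hl hβ hB
  rw [max_eq_right hu] at hβ'
  refine ⟨β', _, hβ', hB', L₀, fun τ hτ => ?_⟩
  constructor
  · rintro ⟨κ, hκ⟩
    obtain ⟨v, hv⟩ := (hP (τ, κ) hτ).1 hκ
    exact ⟨pair κ v, hv⟩
  · rintro ⟨v, hv⟩
    exact ⟨_, (hP (τ, _) hτ).2 ⟨_, hv⟩⟩

/-- `r` rounds -/
theorem TradePN.rounds {c ρ y : ℝ} (hc : 1 ≤ c) (hρ : 0 ≤ ρ) (hρ1 : c * ρ < 1) (hy : 0 ≤ y)
    (hy1 : c * y < 1) (H : TradePN c ρ y) {T : Type} {π : Pres T} {D : T → Prop} {a : ℝ}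
    (ha : c ≤ a) (hs : Size π 1) (hD : InSN c ρ y π D a) (r : ℕ) :
    ∃ (β : ℕ → ℕ) (B : T × Inp → Prop), Lin (y * a) β ∧
      InSN c ρ y (π.ext β) B (max (c * max 1 (y * a)) ((c * max y ρ) ^ r * a)) ∧
      ∃ L₀, ∀ τ, L₀ ≤ π.idx τ → (D τ ↔ ∃ v, B (τ, v)) := by
  have hc0 : 0 ≤ c := by linarith
  have ha0 : 0 ≤ a := by linarith
  set μ : ℝ := max y ρ with hμ
  have hμ0 : 0 ≤ μ := hy.trans (le_max_left _ _)
  have hcμ1 : c * μ < 1 := by
    rw [hμ, mul_max_of_nonneg _ _ hc0]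
    exact max_lt hy1 hρ1
  have hcμ0 : 0 ≤ c * μ := mul_nonneg hc0 hμ0
  have hcya : c * (y * a) ≤ a := by
    have h1 : c * (y * a) = (c * y) * a := by ring
    rw [h1]
    nlinarith
  induction r with
  | zero =>
    refine ⟨fun _ => 0, fun p => D p.1, Lin.zero (by positivity), ?_, 0, fun τ _ =>
      ⟨fun h => ⟨fun _ => false, h⟩, fun ⟨_, h⟩ => h⟩⟩
    refine (H.dummy hs (Lin.zero le_rfl) hD).mono hc0 hρ hy ?_
    rw [pow_zero, one_mul]
    exact le_max_right _ _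
  | succ r ih =>
    obtain ⟨β, B, hβ, hB, L₁, hP⟩ := ih
    set b : ℝ := max 1 (y * a) with hb
    have hb1 : 1 ≤ b := le_max_left _ _
    have hcb : b ≤ c * b := by nlinarith
    have hcba : c * b ≤ a := by
      rw [hb, mul_max_of_nonneg _ _ hc0]
      exact max_le (by linarith) hcya
    set E : ℝ := max (c * b) ((c * μ) ^ r * a) with hE
    have hE0 : 0 ≤ E := le_trans (by linarith) (le_max_left _ _)
    have hEa : E ≤ a := max_le hcba (by
      have := pow_le_one₀ (n := r) hcμ0 hcμ1.le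
      nlinarith)
    have hs1 : Size (π.ext β) b := hs.ext hβ
    obtain ⟨β', l, B', hβ', hl, hB', L₂, hP'⟩ := H.speedup hs1 hE0 hB
    have hβ'' : Lin (y * a) β' := hβ'.mono (mul_le_mul_of_nonneg_left hEa hy)
    have hs2 : Size ((π.ext β).ext β') b := by
      have := hs1.ext hβ''
      rwa [max_eq_left (le_max_right _ _)] at this
    have hs3 : Size (((π.ext β).ext β').ext l) b := by
      have := hs2.ext hl
      rwa [max_eq_left (by linarith)] at this
    -- the complement of a check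
    have h1 := H.slow hb1 hs3 hB'
    rw [max_self] at h1
    have hx0 : 0 ≤ max b (μ * E) := le_trans (by linarith) (le_max_left _ _)
    have h2 := H.guess hs3 hx0 h1
    -- all checks
    have hcx0 : 0 ≤ c * max b (μ * E) := mul_nonneg hc0 hx0
    have h3 := H.exE hs2 hl hcx0 h2
    have h4 := H.slow hb1 hs2 h3
    rw [max_self] at h4
    have h5 : InSN c ρ y ((π.ext β).ext β') (fun p => ∀ κ, B' (p, κ))
        (max b (c * max b (μ * E))) := h4.congr fun p => by simp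
    obtain ⟨β3, hβ3, h6⟩ := H.merge hs hβ hβ'' h5
    rw [max_self] at hβ3
    refine ⟨β3, _, hβ3, h6.mono hc0 hρ hy ?_, max L₁ L₂, fun τ hτ => ?_⟩
    · refine max_le (hcb.trans (le_max_left _ _)) ?_
      rw [mul_max_of_nonneg _ _ hc0]
      refine max_le (le_max_left _ _) ?_
      rw [← mul_assoc, hE, mul_max_of_nonneg _ _ hcμ0]
      refine max_le ?_ ?_
      · refine le_trans ?_ (le_max_left _ _)
        have : 0 ≤ c * b := by linarith
        nlinarith
      · rw [← mul_assoc, ← pow_succ']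
        exact le_max_right _ _
    · rw [hP τ (le_trans (le_max_left _ _) hτ)]
      have h7 : ∀ v, B (τ, v) ↔ ∃ v', ∀ κ, B' (((τ, v), v'), κ) := fun v =>
        hP' (τ, v) (le_trans (le_max_right _ _) hτ)
      constructor
      · rintro ⟨v, hv⟩
        obtain ⟨v', hv'⟩ := (h7 v).1 hv
        exact ⟨pair v v', fun κ => hv' κ⟩
      · rintro ⟨w, hw⟩
        exact ⟨_, (h7 _).2 ⟨_, hw⟩⟩

/-- the machine-independent part of the theorem on nondeterministic functional programs -/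
theorem not_TradePN {c ρ y : ℝ} (hc : 1 ≤ c) (hρ : 0 ≤ ρ) (hρ1 : c * ρ < 1) (hy : 0 ≤ y)
    (hcy : c ^ 2 * y < 1) : ¬ TradePN c ρ y := by
  intro H
  have hc0 : 0 ≤ c := by linarith
  have hy1 : c * y < 1 := by nlinarith [mul_nonneg hc0 hy]
  obtain ⟨a, ha⟩ := exists_nat_gt (c ^ 2)
  have hcc : c ≤ c ^ 2 := by nlinarith
  have ha1 : (1 : ℝ) < a := by linarith
  have hμ0 : 0 ≤ c * max y ρ := mul_nonneg hc0 (hy.trans (le_max_left _ _))
  have hμ1 : c * max y ρ < 1 := by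
    rw [mul_max_of_nonneg _ _ hc0]
    exact max_lt hy1 hρ1
  have he : c * (c * max 1 (y * a)) < a := by
    have h1 : c * (c * max 1 (y * a)) = c ^ 2 * max 1 (y * a) := by ring
    rw [h1, mul_max_of_nonneg _ _ (by positivity)]
    refine max_lt (by linarith) ?_
    have : c ^ 2 * (y * a) = c ^ 2 * y * a := by ring
    rw [this]
    nlinarith
  have hm1 : (1 : ℝ) ≤ max 1 (y * a) := le_max_left _ _
  have hm2 : y * a ≤ max 1 (y * a) := le_max_right _ _
  obtain ⟨T, π, D, hs, hD, hno⟩ := H.diag a _ _ (by exact_mod_cast ha1.le) le_rfl he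
  obtain ⟨r, hr⟩ := exists_pow_lt_of_lt_one (show (0 : ℝ) < 1 / a by positivity) hμ1
  obtain ⟨β, B, hβ, hB, L₀, hP⟩ := H.rounds hc hρ hρ1 hy hy1 (by linarith) hs hD r
  have hle : (c * max y ρ) ^ r * a ≤ 1 := by
    rw [lt_div_iff₀ (by linarith)] at hr
    exact hr.le
  have hcm : (1 : ℝ) ≤ c * max 1 (y * a) := by nlinarith
  rw [max_eq_left (hle.trans hcm)] at hB
  have hs1 : Size (π.ext β) (max 1 (y * a)) := hs.ext hβ
  obtain ⟨β', B', hβ', hB', L₁, hP'⟩ := H.guess hs1 (by linarith) hB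
  obtain ⟨β'', hβ'', hB''⟩ := H.mergeH hs hβ hβ' hB'
  have hle2 : y * a ≤ c * (c * max 1 (y * a)) := by
    have h1 : max 1 (y * a) ≤ c * max 1 (y * a) := by nlinarith
    have h2 : c * max 1 (y * a) ≤ c * (c * max 1 (y * a)) := by nlinarith
    linarith
  rw [max_eq_right hle2] at hβ''
  refine hno ⟨β'', _, hβ'', hB'', max L₀ L₁, fun τ hτ => ?_⟩
  rw [hP τ (le_trans (le_max_left _ _) hτ)]
  have h7 : ∀ v, B (τ, v) ↔ ∃ v', B' ((τ, v), v') := fun v =>
    hP' (τ, v) (le_trans (le_max_right _ _) hτ)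
  constructor
  · rintro ⟨v, hv⟩
    obtain ⟨v', hv'⟩ := (h7 v).1 hv
    exact ⟨pair v v', hv'⟩
  · rintro ⟨w, hw⟩
    exact ⟨_, (h7 _).2 ⟨_, hw⟩⟩

end Pool.Agent.NUM
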