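import Pool.Agent.NUM.HNBasic
import Pool.Agent.NUM.PNAbs
import Pool.Agent.NUM.HClosure

/-!
# Closure properties of the classes of nondeterministic functional programs
-/

set_option autoImplicit false

namespace Pool.Agent.NUM

open Filter

/-- a nondeterministic program on a virtual input -/
theorem exists_virt_histN {G : List Ins} {s l t d : ℕ} (hG : HSz s d G) (hs : 3 ≤ s)
    {φ : Inp → Inp} (hφ : Loc l t φ) (hl : s ≤ l) :
    ∃ G' : List Ins, HSz (s * (t + 1) + 2 * s + t) d G' ∧ ∀ (z : Inp) (c : ℕ → Bool),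
      (∀ N, AccAt (eval G' z) d c N ↔ AccAt (eval G (φ z)) d c N) ∧
      rclN (eval G' z) d c = rclN (eval G (φ z)) d c := by
  obtain ⟨G', hG', h1⟩ := ((Tr.pass hG.1).virt hφ hl).exists_code
  have hd := hG.2
  refine ⟨G', ⟨hG'.mono (by omega), by nlinarith [Nat.zero_le (s * (t + 1)), Nat.zero_le t]⟩,
    fun z c => ?_⟩
  have h2 : ∀ M M', Agr s M M' → EvAgr s (eval G' z M) (eval G (φ z) M') :=
    fun M M' hM => (h1 z M M' hM).ev
  have h3 : ∀ M M', Agr s M M' → EvAgr s (eval G (φ z) M) (eval G' z M') :=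
    fun M M' hM => (h1 z M' M hM.symm).symm.ev
  exact ⟨fun N => ⟨fun h => h.transfer hs hd h2, fun h => h.transfer hs hd h3⟩,
    rclN_transfer hd h2⟩

section families

variable {T S : Type} {Q : ℕ → ℕ → (ℕ → ℕ) → Prop} {π : Pres T} {ρ : Pres S} {P : T → Prop}
  {e : ℝ}

/-- sizes at least 3 -/
theorem InGN.sz3 (h : InGN Q π P e) :
    ∃ (G : ℕ → List Ins) (s t d : ℕ → ℕ) (L₀ : ℕ), SubExp s ∧ ExpLe e t ∧ (∀ L, 3 ≤ s L) ∧
      (∀ L, HSz (s L) (d L) (G L)) ∧ ∀ τ, L₀ ≤ π.idx τ →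
      (P τ → ∃ c, ∃ N ≤ t (π.idx τ), AccAt (eval (G (π.idx τ)) (π.inp τ)) (d (π.idx τ)) c N ∧
        Q (π.idx τ) N (rclN (eval (G (π.idx τ)) (π.inp τ)) (d (π.idx τ)) c)) ∧
      ∀ c, ∀ N ≤ t (π.idx τ), AccAt (eval (G (π.idx τ)) (π.inp τ)) (d (π.idx τ)) c N → P τ := by
  obtain ⟨G, s, t, d, L₀, h1, h2, h3, h4⟩ := h
  refine ⟨G, fun L => s L + 3, t, d, L₀, (ex_zero_iff.1 h1).add (SubExp.const 3), ex_iff.1 h2,
    fun L => Nat.le_add_left _ _, fun L => ⟨(h3 L).1.mono (Nat.le_add_right _ _), ?_⟩, h4⟩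
  exact lt_of_lt_of_le (h3 L).2 (Nat.le_add_right _ _)

/-- **Virtual inputs for families.** -/
theorem InGN.virt (h : InGN Q π P e)
    (f : S → T) (hidx : ∀ σ, π.idx (f σ) = ρ.idx σ) (φ : ℕ → Inp → Inp)
    (hφ : LocF φ)
    (hinp : ∃ L₁, ∀ σ, L₁ ≤ ρ.idx σ → π.inp (f σ) = φ (ρ.idx σ) (ρ.inp σ)) :
    InGN Q ρ (fun σ => P (f σ)) e := by
  obtain ⟨G, s, t, d, L₀, h1, h2, h3, h4, h5⟩ := h.sz3
  obtain ⟨u, hu, hu'⟩ := hφ s h1
  obtain ⟨L₁, hL₁⟩ := hinp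
  choose G' hG' hrun using fun L => exists_virt_histN (h4 L) (h3 L) (hu' L) le_rfl
  refine ⟨G', fun L => s L * (u L + 1) + 2 * s L + u L, t, d, max L₀ L₁, ?_, ex_iff.2 h2, hG',
    fun σ hσ => ?_⟩
  · exact ex_zero_iff.2 (((h1.mul (hu.add (SubExp.const 1))).add ((SubExp.const 2).mul h1)).add hu)
  · have h6 := h5 (f σ) (by rw [hidx]; exact le_trans (le_max_left _ _) hσ)
    rw [hidx, hL₁ σ (le_trans (le_max_right _ _) hσ)] at h6
    refine ⟨fun hP => ?_, fun c N hN hA => ?_⟩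
    · obtain ⟨c, N, hN, hA, hQ⟩ := h6.1 hP
      obtain ⟨h7, h8⟩ := hrun (ρ.idx σ) (ρ.inp σ) c
      exact ⟨c, N, hN, (h7 N).2 hA, by rw [h8]; exact hQ⟩
    · obtain ⟨h7, h8⟩ := hrun (ρ.idx σ) (ρ.inp σ) c
      exact h6.2 c N hN ((h7 N).1 hA)

theorem InGN.dummy (β : ℕ → ℕ) (h : InGN Q π P e) :
    InGN Q (π.ext β) (fun p => P p.1) e := by
  refine h.virt (ρ := π.ext β) Prod.fst (fun _ => rfl) (fun _ z a => z ([false] ++ a))
    (LocF.shift [false] LocF.id) ⟨0, fun σ _ => ?_⟩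
  rfl

theorem InGN.merge {u u' : ℝ} {β β' : ℕ → ℕ} {C : (T × Inp) × Inp → Prop} (hβ : Lin u β)
    (hβ' : Lin u' β') (h : InGN Q ((π.ext β).ext β') C e) :
    ∃ β'' : ℕ → ℕ, Lin (max u u') β'' ∧
      InGN Q (π.ext β'')
        (fun p => C ((p.1, fun a => p.2 (false :: a)), fun a => p.2 (true :: a))) e := by
  refine ⟨fun L => max (β L) (β' L) + 1, ?_, ?_⟩
  · have := (hβ.max hβ').add (Lin.const 0 le_rfl 1)
    rwa [add_zero] at this
  · exact h.virt (ρ := π.ext fun L => max (β L) (β' L) + 1)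
      (fun p => ((p.1, fun a => p.2 (false :: a)), fun a => p.2 (true :: a))) (fun _ => rfl)
      (fun L z => pair (pair (fun a => z ([false] ++ a)) (trc (β L) fun a => z ([true, false] ++ a)))
        (trc (β' L) fun a => z ([true, true] ++ a)))
      (LocF.pair (LocF.pair (LocF.shift [false] LocF.id)
        (LocF.trc (LocF.shift [true, false] LocF.id) β))
        (LocF.trc (LocF.shift [true, true] LocF.id) β')) ⟨0, fun p _ => ext_merge π β β' p⟩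

end families

/-! ## fields of `TradePN` -/

section fields

variable {T : Type} {π : Pres T} {P : T → Prop} {c ρ y E : ℝ}

theorem tradePN_dummy {b u : ℝ} {β : ℕ → ℕ} (_ : Size π b) (_ : Lin u β)
    (h : InSN c ρ y π P E) : InSN c ρ y (π.ext β) (fun p => P p.1) E := by
  obtain ⟨r, k, hr, hk, h⟩ := h
  exact ⟨r, k, hr, hk, h.dummy β⟩

theorem tradePN_merge {b u u' : ℝ} {β β' : ℕ → ℕ} {C : (T × Inp) × Inp → Prop} (_ : Size π b)
    (hβ : Lin u β) (hβ' : Lin u' β') (h : InSN c ρ y ((π.ext β).ext β') C E) :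
    ∃ β'' : ℕ → ℕ, Lin (max u u') β'' ∧
      InSN c ρ y (π.ext β'')
        (fun p => C ((p.1, fun a => p.2 (false :: a)), fun a => p.2 (true :: a))) E := by
  obtain ⟨r, k, hr, hk, h⟩ := h
  obtain ⟨β'', h1, h2⟩ := InGN.merge hβ hβ' h
  exact ⟨β'', h1, r, k, hr, hk, h2⟩

theorem tradePN_mergeH {b u u' e : ℝ} {β β' : ℕ → ℕ} {C : (T × Inp) × Inp → Prop}
    (_ : Size π b) (hβ : Lin u β) (hβ' : Lin u' β') (h : InH ((π.ext β).ext β') C e) :
    ∃ β'' : ℕ → ℕ, Lin (max u u') β'' ∧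
      InH (π.ext β'')
        (fun p => C ((p.1, fun a => p.2 (false :: a)), fun a => p.2 (true :: a))) e :=
  InG.merge hβ hβ' h

end fields

end Pool.Agent.NUM
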