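import Pool.Agent.NUM.HNSem

/-!
# Completeness of the nondeterministic check

The deterministic completeness theorem is applied to the machine with states `(a, u)`, `u` the time.
-/

set_option autoImplicit false

namespace Pool.Agent.NUM

open Finset

variable {A : Type} [DecidableEq A]

/-- the machine with a clock and fixed choices -/
def HMN.clk {A : Type} (H : HMN A) (c : ℕ → Bool) : HM (A × ℕ) where
  step := fun a b => (H.step (c a.2) a.1 b.1, a.2 + 1)
  idx := fun a => H.idx a.1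
  a0 := (H.a0, 0)
  e0 := (H.e0, 0)
  hlt := fun a => H.hlt a.1
  acc := fun a => H.acc a.1

omit [DecidableEq A] in
theorem HMN.clk_U (H : HMN A) (c : ℕ → Bool) (n : ℕ) : (H.clk c).U n = (H.U c n, n) := by
  induction n using Nat.strong_induction_on with
  | _ n ih =>
    cases n with
    | zero => rfl
    | succ n =>
      rw [HM.U_succ, HMN.U_succ, ih n (by omega)]
      unfold HM.rc HMN.rc
      have h1 : (H.clk c).idx (H.U c n, n) = H.idx (H.U c n) := rfl
      rw [h1]
      by_cases h2 : H.idx (H.U c n) ≤ n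
      · rw [if_pos h2, if_pos h2, ih _ (by omega)]
        rfl
      · rw [if_neg h2, if_neg h2]
        rfl

omit [DecidableEq A] in
theorem HMN.clk_Out {H : HMN A} {c : ℕ → Bool} {N : ℕ} {b : Bool} (h : H.Out c N b) :
    (H.clk c).Out N b := by
  refine ⟨fun m hm => ?_, ?_, ?_⟩
  · rw [HMN.clk_U]; exact h.1 m hm
  · rw [HMN.clk_U]; exact h.2.1
  · rw [HMN.clk_U]; exact h.2.2

/-- the list with clocks -/
def Lst.clk {A : Type} (L : Lst A) : Lst (A × ℕ) :=
  ⟨L.tm, fun i => (L.st i, L.tm i), L.lb, L.off, L.fin⟩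

/-- forget the clock -/
def St.pr {A : Type} (σ : St (A × ℕ)) : St A := ⟨σ.hlt, σ.acc, σ.sim, σ.i, σ.n, σ.u, σ.a.1, σ.q⟩

/-- the look-ups correspond -/
def Lk.pr {A : Type} : Lk (A × ℕ) → Lk A
  | .bad => .bad
  | .val a => .val a.1
  | .own m => .own m

omit [DecidableEq A] in
theorem lkup_pr (L : Lst A) (a0 e0 : A) (w κ i u τ : ℕ) :
    (lkup L.clk (a0, 0) (e0, 0) w κ i u τ).pr = lkup L a0 e0 w κ i u τ := by
  have hpv : ∀ j, L.clk.pv j = L.pv j := by intro j; cases j <;> rfl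
  have htm : L.clk.tm = L.tm := rfl
  unfold lkup
  rw [htm]
  simp only [hpv]
  by_cases c1 : u < τ
  · rw [if_pos c1, if_pos c1]; rfl
  · rw [if_neg c1, if_neg c1]
    by_cases c2 : τ = 0
    · rw [if_pos c2, if_pos c2]; rfl
    · rw [if_neg c2, if_neg c2]
      by_cases c3 : bsr L.tm τ w 0 ≤ i ∧ L.pv (bsr L.tm τ w 0) < τ ∧ τ ≤ L.tm (bsr L.tm τ w 0)
      · rw [if_pos c3, if_pos c3]
        by_cases c4 : τ = L.tm (bsr L.tm τ w 0)
        · rw [if_pos c4, if_pos c4]; rfl
        · rw [if_neg c4, if_neg c4]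
          have hlb : L.clk.lb = L.lb := rfl
          have hoff : L.clk.off = L.off := rfl
          rw [hlb, hoff]
          by_cases c5 : L.lb (bsr L.tm τ w 0) = κ
          · rw [if_pos c5, if_pos c5]; rfl
          · rw [if_neg c5, if_neg c5]; rfl
      · rw [if_neg c3, if_neg c3]; rfl

omit [DecidableEq A] in
theorem lkup_num (L : Lst A) (a0 e0 : A) (w κ i u τ : ℕ) :
    (lkup L.clk (a0, 0) (e0, 0) w κ i u τ).num = (lkup L a0 e0 w κ i u τ).num := by
  rw [← lkup_pr L a0 e0]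
  cases lkup L.clk (a0, 0) (e0, 0) w κ i u τ <;> rfl

/-- the clock is right -/
def St.Ck {A : Type} (σ : St (A × ℕ)) : Prop := σ.sim = true → σ.a.2 = σ.u

variable {H : HMN A} {c : ℕ → Bool} {L : Lst A} {κ w lim : ℕ}

theorem move_pr' {σ : St (A × ℕ)} {a' : A × ℕ} (ha : a'.2 = σ.u + 1) (b : Bool) :
    (St.move (H.clk c) L.clk κ w σ a').pr = St.move (H.ch b) L κ w σ.pr a'.1 := by
  unfold St.move
  by_cases c1 : (H.ch b).hlt a'.1 = true ∧ ¬ (σ.pr.u + 1 = L.tm σ.pr.i ∧ L.fin σ.pr.i = true)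
  · rw [if_pos (show (H.clk c).hlt a' = true ∧
      ¬ (σ.u + 1 = L.clk.tm σ.i ∧ L.clk.fin σ.i = true) from c1), if_pos c1]
    rfl
  · rw [if_neg (show ¬ ((H.clk c).hlt a' = true ∧
      ¬ (σ.u + 1 = L.clk.tm σ.i ∧ L.clk.fin σ.i = true)) from c1), if_neg c1]
    by_cases c2 : σ.pr.u + 1 = L.tm σ.pr.i
    · rw [if_pos (show σ.u + 1 = L.clk.tm σ.i from c2), if_pos c2]
      have e6 : (a' ≠ L.clk.st σ.i) ↔ (a'.1 ≠ L.st σ.pr.i) := by
        have h1 : L.clk.st σ.i = (L.st σ.i, L.tm σ.i) := rfl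
        rw [h1]
        constructor
        · intro h2 h3
          apply h2
          have h4 : a'.2 = L.tm σ.i := by rw [ha]; exact c2
          exact Prod.ext h3 h4
        · intro h2 h3
          apply h2
          rw [h3]
          rfl
      by_cases c3 : a'.1 ≠ L.st σ.pr.i
      · rw [if_pos c3, if_pos (e6.2 c3)]; rfl
      · rw [if_neg c3, if_neg (fun h => c3 (e6.1 h))]
        by_cases c4 : L.fin σ.pr.i = true
        · rw [if_pos (show L.clk.fin σ.i = true from c4), if_pos c4]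
          by_cases c5 : (H.ch b).hlt a'.1 = true ∧ (H.ch b).acc a'.1 = true
          · rw [if_pos (show (H.clk c).hlt a' = true ∧ (H.clk c).acc a' = true from c5), if_pos c5]
            rfl
          · rw [if_neg (show ¬ ((H.clk c).hlt a' = true ∧ (H.clk c).acc a' = true) from c5),
              if_neg c5]
            rfl
        · rw [if_neg (show ¬ L.clk.fin σ.i = true from c4), if_neg c4]
          unfold St.next
          by_cases c6 : σ.pr.i + 1 < 2 ^ w
          · rw [if_pos (show σ.i + 1 < 2 ^ w from c6), if_pos c6]; rfl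
          · rw [if_neg (show ¬ σ.i + 1 < 2 ^ w from c6), if_neg c6]; rfl
    · rw [if_neg (show ¬ σ.u + 1 = L.clk.tm σ.i from c2), if_neg c2]
      unfold St.stay St.pr
      have e8 := lkup_num L H.a0 H.e0 w κ σ.i (σ.u + 1) (H.idx a'.1)
      simp only [St.mk.injEq, true_and, and_true]
      exact e8

omit [DecidableEq A] in
theorem scan_pr {σ : St (A × ℕ)} (b : Bool) :
    (St.scan (H.clk c) L.clk κ w σ).pr = St.scan (H.ch b) L κ w σ.pr := by
  have hpv : ∀ j, L.clk.pv j = L.pv j := by intro j; cases j <;> rfl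
  have hps : ∀ j, (L.clk.ps (H.clk c).a0 j).1 = L.ps (H.ch b).a0 j := by intro j; cases j <;> rfl
  unfold St.scan
  by_cases c1 : L.pv σ.pr.i < L.tm σ.pr.i
  · rw [if_pos (show L.clk.pv σ.i < L.clk.tm σ.i by rw [hpv]; exact c1), if_pos c1]
    by_cases c2 : L.lb σ.pr.i = κ
    · rw [if_pos (show L.clk.lb σ.i = κ from c2), if_pos c2]
      by_cases c3 : L.off σ.pr.i = σ.pr.n + 1
      · rw [if_pos c3, if_pos (show L.clk.off σ.i = σ.n + 1 from c3)]
        unfold St.enter St.pr
        have e8 := lkup_num L H.a0 H.e0 w κ σ.i (L.pv σ.i) (H.idx (L.ps H.a0 σ.i))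
        simp only [St.mk.injEq, true_and]
        refine ⟨hpv σ.i, hps σ.i, ?_⟩
        have e9 : (H.clk c).idx (L.clk.ps (H.clk c).a0 σ.i) = H.idx (L.ps H.a0 σ.i) := by
          show H.idx (L.clk.ps (H.clk c).a0 σ.i).1 = _
          rw [hps σ.i]
          rfl
        rw [hpv, e9]
        exact e8
      · rw [if_neg c3, if_neg (show ¬ L.clk.off σ.i = σ.n + 1 from c3)]; rfl
    · rw [if_neg (show ¬ L.clk.lb σ.i = κ from c2), if_neg c2]
      by_cases c4 : L.fin σ.pr.i = true
      · rw [if_pos (show L.clk.fin σ.i = true from c4), if_pos c4]; rfl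
      · rw [if_neg (show ¬ L.clk.fin σ.i = true from c4), if_neg c4]
        unfold St.next
        by_cases c6 : σ.pr.i + 1 < 2 ^ w
        · rw [if_pos (show σ.i + 1 < 2 ^ w from c6), if_pos c6]; rfl
        · rw [if_neg (show ¬ σ.i + 1 < 2 ^ w from c6), if_neg c6]; rfl
  · rw [if_neg c1, if_neg (show ¬ L.clk.pv σ.i < L.clk.tm σ.i by rw [hpv]; exact c1)]; rfl

theorem pass_pr {σ ρ : St (A × ℕ)} (hσ : σ.Ck) :
    (St.pass (H.clk c) L.clk κ w lim σ ρ).pr =
      St.pass (H.ch (c σ.u)) L κ w lim σ.pr ρ.pr := by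
  unfold St.pass
  by_cases c1 : lim ≤ σ.pr.n + 1
  · rw [if_pos (show lim ≤ σ.n + 1 from c1), if_pos c1]; rfl
  · rw [if_neg (show ¬ lim ≤ σ.n + 1 from c1), if_neg c1]
    by_cases c2 : σ.pr.sim = true
    · rw [if_pos (show σ.sim = true from c2), if_pos c2]
      have hu : σ.a.2 = σ.u := hσ c2
      have hl := lkup_pr L H.a0 H.e0 w κ σ.i σ.u (H.idx σ.a.1)
      have e3 : lkup L.clk (H.clk c).a0 (H.clk c).e0 w κ σ.i σ.u ((H.clk c).idx σ.a) =
          lkup L.clk (H.a0, 0) (H.e0, 0) w κ σ.i σ.u (H.idx σ.a.1) := rfl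
      have e4 : lkup L (H.ch (c σ.u)).a0 (H.ch (c σ.u)).e0 w κ σ.pr.i σ.pr.u
          ((H.ch (c σ.u)).idx σ.pr.a) = lkup L H.a0 H.e0 w κ σ.i σ.u (H.idx σ.a.1) := rfl
      rw [e3, e4, ← hl]
      cases hk : lkup L.clk (H.a0, 0) (H.e0, 0) w κ σ.i σ.u (H.idx σ.a.1) with
      | bad => rfl
      | val W =>
        have h1 := move_pr' (H := H) (c := c) (L := L) (κ := κ) (w := w) (σ := σ)
          (a' := (H.clk c).step σ.a W) (by show σ.a.2 + 1 = σ.u + 1; rw [hu]) (c σ.u)
        show (St.move (H.clk c) L.clk κ w σ ((H.clk c).step σ.a W)).pr = _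
        rw [h1]
        show St.move _ L κ w σ.pr (H.step (c σ.a.2) σ.a.1 W.1) = _
        rw [hu]
        rfl
      | own m =>
        have h1 := move_pr' (H := H) (c := c) (L := L) (κ := κ) (w := w) (σ := σ)
          (a' := (H.clk c).step σ.a ρ.a) (by show σ.a.2 + 1 = σ.u + 1; rw [hu]) (c σ.u)
        show (St.move (H.clk c) L.clk κ w σ ((H.clk c).step σ.a ρ.a)).pr = _
        rw [h1]
        show St.move _ L κ w σ.pr (H.step (c σ.a.2) σ.a.1 ρ.a.1) = _
        rw [hu]
        rfl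
    · rw [if_neg (show ¬ σ.sim = true from c2), if_neg c2]
      exact scan_pr _

theorem pass_Ck {σ ρ : St (A × ℕ)} (hσ : σ.Ck)
    (hh : (St.pass (H.clk c) L.clk κ w lim σ ρ).hlt = false) :
    (St.pass (H.clk c) L.clk κ w lim σ ρ).Ck := by
  unfold St.pass at hh ⊢
  by_cases c1 : lim ≤ σ.n + 1
  · rw [if_pos c1] at hh
    simp [St.rej] at hh
  · rw [if_neg c1] at hh ⊢
    by_cases c2 : σ.sim = true
    · rw [if_pos c2] at hh ⊢
      have hu : σ.a.2 = σ.u := hσ c2
      have key : ∀ a' : A × ℕ, a'.2 = σ.u + 1 → (St.move (H.clk c) L.clk κ w σ a').hlt = false →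
          (St.move (H.clk c) L.clk κ w σ a').Ck := by
        intro a' ha hh'
        obtain ⟨-, h2 | h2⟩ := St.move_run hh'
        · intro hs
          rw [h2.2.2.2.2] at hs
          cases hs
        · intro _
          rw [h2.2]
          exact ha
      cases hk : lkup L.clk (H.clk c).a0 (H.clk c).e0 w κ σ.i σ.u ((H.clk c).idx σ.a) with
      | bad =>
        rw [hk] at hh
        simp [St.rej] at hh
      | val W =>
        rw [hk] at hh
        exact key _ (by show σ.a.2 + 1 = _; rw [hu]) hh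
      | own m =>
        rw [hk] at hh
        exact key _ (by show σ.a.2 + 1 = _; rw [hu]) hh
    · rw [if_neg c2] at hh ⊢
      obtain ⟨-, h2 | h2⟩ := St.scan_run hh
      · rw [h2.2.2]
        intro _
        show (L.clk.ps (H.clk c).a0 σ.i).2 = L.clk.pv σ.i
        cases σ.i <;> rfl
      · rw [h2.2.2.2]
        intro hs
        cases hs

/-- the run of the nondeterministic check which uses the choices of the simulated run -/
theorem hckN_run (H : HMN A) (c : ℕ → Bool) (L : Lst A) (κ w lim N : ℕ)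
    (hN : ∀ m < N, ((hck (H.clk c) L.clk κ w lim).U m).hlt = false) :
    ∀ n ≤ N, (hckN H L κ w lim).U
      (fun n => c ((hck (H.clk c) L.clk κ w lim).U n).u) n =
        ((hck (H.clk c) L.clk κ w lim).U n).pr := by
  have hck' : ∀ n < N, ((hck (H.clk c) L.clk κ w lim).U n).Ck := by
    intro n
    induction n with
    | zero => intro _ hs; cases hs
    | succ n ih =>
      intro hn
      have h1 := hN (n + 1) hn
      rw [hck_U_succ] at h1 ⊢
      exact pass_Ck (ih (by omega)) h1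
  intro n
  induction n using Nat.strong_induction_on with
  | _ n ih =>
    intro hn
    cases n with
    | zero => rfl
    | succ n =>
      rw [hckN_U_succ, hck_U_succ, ih n (by omega) (by omega), pass_pr (hck' n (by omega))]
      congr 1
      unfold HMN.rc HM.rc
      have e1 : ((hck (H.clk c) L.clk κ w lim).U n).pr.q =
          ((hck (H.clk c) L.clk κ w lim).U n).q := rfl
      rw [e1]
      by_cases h1 : ((hck (H.clk c) L.clk κ w lim).U n).q ≤ n
      · rw [if_pos h1, if_pos h1, ih _ (by omega) (by omega)]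
      · rw [if_neg h1, if_neg h1]
        rfl

theorem hckN_out {N : ℕ} {b : Bool} (h : (hck (H.clk c) L.clk κ w lim).Out N b) :
    ∃ c', (hckN H L κ w lim).Out c' N b := by
  have h1 := hckN_run H c L κ w lim N h.1
  refine ⟨fun n => c ((hck (H.clk c) L.clk κ w lim).U n).u, fun m hm => ?_, ?_, ?_⟩
  · show ((hckN H L κ w lim).U _ m).hlt = false
    rw [h1 m hm.le]
    exact h.1 m hm
  · show ((hckN H L κ w lim).U _ N).hlt = true
    rw [h1 N le_rfl]
    exact h.2.1
  · show ((hckN H L κ w lim).U _ N).acc = b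
    rw [h1 N le_rfl]
    exact h.2.2

/-- **Completeness of the nondeterministic checks.** -/
theorem hckN_complete {N r k w lim T : ℕ} (hO : H.Out c N true) (hN : 0 < N) (hT : N ≤ T)
    (cls : ℕ → ℕ) (hr : ∀ j, ((range (N + 1)).filter fun u => cls u = j).card ≤ r) (S : Finset ℕ)
    (hS : S.card ≤ k) (hS' : ∀ u < N, (cls u ≠ cls (u + 1) → u ∈ S) ∧
      (H.idx (H.U c u) ≤ u → cls (H.idx (H.U c u)) ≠ cls (u + 1) → H.idx (H.U c u) ∈ S))
    (hw : k + 1 ≤ 2 ^ w) (hlim : k + 1 + r < lim) :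
    ∃ L : Lst A, (∀ i < 2 ^ w, L.tm i ≤ N ∧ L.lb i < 2 ^ w ∧ L.off i ≤ k + 1 + r) ∧
      ∀ L' : Lst A, (∀ i < 2 ^ w, L'.tm i = L.tm i ∧ L'.st i = L.st i ∧ L'.lb i = L.lb i ∧
        L'.off i = L.off i ∧ L'.fin i = L.fin i) →
      ∀ κ, ∃ c' n, n ≤ k + 1 + r ∧ (hckN H (L'.clip T) κ w lim).Out c' n true := by
  have hS'' : ∀ u < N, (cls u ≠ cls (u + 1) → u ∈ S) ∧
      ((H.clk c).idx ((H.clk c).U u) ≤ u → cls ((H.clk c).idx ((H.clk c).U u)) ≠ cls (u + 1) →
        (H.clk c).idx ((H.clk c).U u) ∈ S) := by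
    intro u hu
    have h1 := hS' u hu
    rw [HMN.clk_U]
    exact h1
  obtain ⟨L, M, h1, h2, h3, h4, h5, h6⟩ := exists_hon (HMN.clk_Out hO) hN cls hr S hS hS'' hw
  refine ⟨⟨L.tm, fun i => (L.st i).1, L.lb, L.off, L.fin⟩, fun i hi => ⟨h4 i, h5 i hi, h6 i⟩,
    fun L' hL κ => ?_⟩
  have hM := (h1 κ).le
  have hagree : ∀ i < 2 ^ w, (L'.clip T).clk.tm i = L.tm i ∧
      (i < M → (L'.clip T).clk.st i = L.st i) ∧ (L'.clip T).clk.lb i = L.lb i ∧
      (L'.clip T).clk.off i = L.off i ∧ (L'.clip T).clk.fin i = L.fin i := by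
    intro i hi
    obtain ⟨g1, g2, g3, g4, g5⟩ := hL i hi
    refine ⟨g1, fun hiM => ?_, g3, g4, ?_⟩
    · show (L'.st i, L'.tm i) = L.st i
      rw [g2, g1]
      have h7 := (h1 κ).st i hiM
      rw [HMN.clk_U] at h7
      show ((L.st i).1, L.tm i) = L.st i
      rw [h7]
    · show (L'.fin i && decide (L'.tm i ≤ T)) = L.fin i
      have h8 : L'.tm i ≤ T := by
        rw [g1]
        exact (h4 i).trans hT
      rw [decide_eq_true h8, Bool.and_true]
      exact g5
  -- replace the states beyond `M`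
  obtain ⟨L2, hL2⟩ : ∃ L2 : Lst (A × ℕ), L2 = ⟨L.tm, fun i => if i < M then L.st i else
    (L'.clip T).clk.st i, L.lb, L.off, L.fin⟩ := ⟨_, rfl⟩
  have hL2hon : Hon (H.clk c) L2 w κ N M ∧ epos L2 κ M = epos L κ M := by
    have hpv : ∀ i, L2.pv i = L.pv i := by intro i; rw [hL2]; cases i <;> rfl
    have hep : ∀ i, epos L2 κ i = epos L κ i := by
      intro i
      induction i with
      | zero => rfl
      | succ i ih =>
        simp only [epos]
        rw [ih, hpv, hL2]
    refine ⟨⟨(h1 κ).pos, hM, ?_, ?_, ?_, ?_, ?_, ?_, ?_⟩, hep M⟩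
    · intro i hi
      have := (h1 κ).srt i hi
      rw [hpv, hL2]
      exact this
    · rw [hL2]; exact (h1 κ).last
    · rw [hL2]; exact (h1 κ).fin
    · rw [hL2]; exact (h1 κ).pad
    · intro i hi
      have := (h1 κ).st i hi
      rw [hL2]
      show (if i < M then L.st i else _) = _
      rw [if_pos hi]
      exact this
    · intro i hi hκ
      rw [hep, hL2]
      rw [hL2] at hκ
      exact (h1 κ).off i hi hκ
    · intro i hi hκ u hu hu' g0 hle
      rw [hpv] at hu
      rw [hL2] at hu' hκ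
      obtain ⟨j, hj, g1, g2, g3⟩ := (h1 κ).rcl i hi hκ u hu hu' g0 hle
      refine ⟨j, hj, by rw [hpv]; exact g1, by rw [hL2]; exact g2, ?_⟩
      rw [hL2]
      exact g3
  obtain ⟨g1, g2⟩ := hL2hon.1.congr (L' := (L'.clip T).clk) (fun i hi => by
    obtain ⟨a1, a2, a3, a4, a5⟩ := hagree i hi
    rw [hL2]
    refine ⟨a1, ?_, a3, a4, a5⟩
    show _ = if i < M then L.st i else (L'.clip T).clk.st i
    by_cases hiM : i < M
    · rw [if_pos hiM]; exact a2 hiM
    · rw [if_neg hiM])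
  have g3 := g2 M le_rfl
  have g4 := h3 κ
  have g5 := hL2hon.2
  obtain ⟨n, hn, g6⟩ := g1.accept (lim := lim) (HMN.clk_Out hO) (by omega)
  obtain ⟨c', hc'⟩ := hckN_out g6
  exact ⟨c', n, by omega, hc'⟩

end Pool.Agent.NUM
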