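import Pool.Agent.NUM.HNFam
import Pool.Agent.NUM.HBasic
import Pool.Agent.NUM.Closure
import Pool.Agent.NUM.CpArith

/-!
# PN: the choices of a nondeterministic functional program are guessed as a string

The program counts its passes in `w` even cells; pass number `i` puts the bit of the string at the
address `bits w i` into cell `1`; when the counter is `t` the computation halts with answer `false`.
-/

set_option autoImplicit false

namespace Pool.Agent.NUM

namespace HNGuessAux

/-! ### the recursion -/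

theorem histN_succ (f : Mem → Mem) (d : ℕ) (c : ℕ → Bool) (n : ℕ) :
    histN f d c (n + 1) = Function.update (histN f d c n) (n + 1)
      (f (Function.update (mrg (histN f d c n n)
        (histN f d c n (ptr d (histN f d c n n)))) 1 (c n))) := rfl

theorem histN_eq (f : Mem → Mem) (d : ℕ) (c : ℕ → Bool) (n m : ℕ) :
    histN f d c n m = if m ≤ n then staN f d c m else zeroMem := by
  induction n with
  | zero =>
    by_cases hm : m ≤ 0
    · obtain rfl : m = 0 := by omega
      rw [if_pos hm]
      rfl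
    · rw [if_neg hm]
      rfl
  | succ n ih =>
    rcases Nat.lt_trichotomy m (n + 1) with h | h | h
    · rw [histN_succ, Function.update_of_ne (by omega), ih, if_pos (by omega), if_pos (by omega)]
    · subst h
      rw [if_pos le_rfl]
      rfl
    · rw [histN_succ, Function.update_of_ne (by omega), ih, if_neg (by omega), if_neg (by omega)]

theorem staN_succ (f : Mem → Mem) (d : ℕ) (c : ℕ → Bool) (n : ℕ) :
    staN f d c (n + 1) =
      f (Function.update (mrg (staN f d c n)
        (if rclN f d c n ≤ n then staN f d c (rclN f d c n) else zeroMem)) 1 (c n)) := by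
  have h : staN f d c (n + 1) = f (Function.update (mrg (histN f d c n n)
      (histN f d c n (ptr d (histN f d c n n)))) 1 (c n)) := by
    show histN f d c (n + 1) (n + 1) = _
    rw [histN_succ, Function.update_self]
  rw [h, histN_eq f d c n (ptr d (histN f d c n n))]
  rfl

theorem staN_congr (f : Mem → Mem) (d : ℕ) {c c' : ℕ → Bool} :
    ∀ n, (∀ i < n, c i = c' i) → staN f d c n = staN f d c' n := by
  intro n
  induction n using Nat.strong_induction_on with
  | _ n ih =>
    intro h
    cases n with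
    | zero => rfl
    | succ n =>
      have h1 := ih n (by omega) (fun i hi => h i (by omega))
      have h2 : rclN f d c n = rclN f d c' n := by
        unfold rclN
        rw [h1]
      rw [staN_succ, staN_succ, ← h2, ← h1, h n (by omega)]
      by_cases h3 : rclN f d c n ≤ n
      · rw [if_pos h3, if_pos h3, ih (rclN f d c n) (by omega) (fun i hi => h i (by omega))]
      · rw [if_neg h3, if_neg h3]

/-! ### the program -/

/-- the pass counter, in even cells -/
def ctr (b0 w : ℕ) (M : Mem) : ℕ := num w fun i => M (b0 + 2 * i)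

/-- end of time: answer `false` -/
def abo : Inp → Mem → Mem := fun _ M =>
  Function.update (Function.update M 0 true) 2 false

/-- read the choice -/
def rdc (b0 w : ℕ) : Inp → Mem → Mem := fun z M =>
  Function.update M 1 (z (true :: (List.range w).map fun i => M (b0 + 2 * i)))

/-- one more pass -/
def incr (b0 w : ℕ) : Inp → Mem → Mem := fun _ M q =>
  bif decide (b0 ≤ q ∧ q < b0 + 2 * w) then (ctr b0 w M + 1).testBit ((q - b0) / 2) else M q

/-- the pass -/
def stp (G : List Ins) (b0 w t : ℕ) : Inp → Mem → Mem := fun z M =>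
  bif decide (ctr b0 w M = t) then abo z M
  else incr b0 w z (lift b0 (fun z M => eval G (fun a => z ([false] ++ a)) M) z (rdc b0 w z M))

theorem ctr_cell {b0 w i : ℕ} (hi : i < w) : Cp (b0 + 2 * w) 2 (fun _ M => M (b0 + 2 * i)) :=
  Cp.cell (by omega)

theorem tr_abo {b : ℕ} (hb : 3 ≤ b) : Tr b 16 abo := by
  have h0 : Tr b 8 (fun _ M => Function.update M 0 true) := Tr.set (Cp.const b true) (by omega)
  have h2 : Tr b 8 (fun _ M => Function.update M 2 false) := Tr.set (Cp.const b false) (by omega)
  exact h0.comp h2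

theorem tr_rdc {b0 w : ℕ} (hb : 4 ≤ b0) :
    Tr (b0 + 2 * w) ((w + 1) * (8 + 1) + 2 * (w + 1) + 1) (rdc b0 w) := by
  have h := Cp.ask (b := b0 + 2 * w) (s := 8) (k := w + 1)
    (g := fun i _ M => if i = 0 then true else M (b0 + 2 * (i - 1))) (fun i hi => by
      by_cases h0 : i = 0
      · simp only [h0, if_true]
        exact Cp.const _ true
      · simp only [h0, if_false]
        exact (Cp.cell (show b0 + 2 * (i - 1) < b0 + 2 * w by omega)).mono le_rfl (by omega))
  refine (Tr.set (h.congr (fun z M => ?_)) (show 1 < b0 + 2 * w by omega))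
  congr 1
  rw [List.range_succ_eq_map, List.map_cons, List.map_map]
  simp only [if_true]
  congr 1

theorem tr_incr {b0 w : ℕ} :
    Tr (b0 + 2 * w) ((b0 + 2 * w) * (w * (2 + 50) + 2 * 2 + 200 + 5) + 1) (incr b0 w) := by
  refine Tr.setMany (b := b0 + 2 * w) (s := w * (2 + 50) + 2 * 2 + 200)
    (g := fun q _ M => (ctr b0 w M + 1).testBit ((q - b0) / 2))
    (S := fun q => decide (b0 ≤ q ∧ q < b0 + 2 * w)) (fun q _ hS => ?_)
  have h := of_decide_eq_true hS
  exact Cp.succBit (b := b0 + 2 * w) (s := 2) (n := w) (g := fun i _ M => M (b0 + 2 * i))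
    (fun i hi => ctr_cell hi) ((q - b0) / 2) (by omega)

/-- size of the code of `stp` -/
def gsz (b0 w : ℕ) : ℕ :=
  (b0 + 2 * w) * (2 * (w * (2 * 2 + 100) + 50) + 16 +
    (((w + 1) * (8 + 1) + 2 * (w + 1) + 1) +
      (b0 * (20 * (b0 + 1) + (b0 + 1 + 1) + 20 + 1) + b0 + (20 * (b0 + 1) + (b0 + 1 + 1) + 20)) +
      ((b0 + 2 * w) * (w * (2 + 50) + 2 * 2 + 200 + 5) + 1)) + 8 * (b0 + 2 * w) + 42) + 1

theorem tr_stp {G : List Ins} {b0 w t : ℕ} (hG : Sz b0 G) (hb : 4 ≤ b0) :
    Tr (b0 + 2 * w) (gsz b0 w) (stp G b0 w t) := by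
  have hc : Cp (b0 + 2 * w) (w * (2 * 2 + 100) + 50) (fun _ M => decide (ctr b0 w M = t)) :=
    Cp.numEq (fun i hi => ctr_cell hi) t
  have hloc : Loc b0 (20 * (b0 + 1) + (b0 + 1 + 1) + 20) (fun z a => z ([false] ++ a)) :=
    Loc.shift [false] (Loc.id (b0 + 1))
  have hB := ((Tr.pass hG).virt hloc le_rfl).lift (b' := b0 + 2 * w) (Nat.le_add_right _ _)
  exact Tr.ite hc (tr_abo (by omega)) (((tr_rdc hb).comp hB).comp tr_incr)

/-! ### semantics -/

theorem num_testBit_eq {w i : ℕ} {g : ℕ → Bool} (hi : i < 2 ^ w) (hg : ∀ j < w, g j = i.testBit j) :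
    num w g = i := by
  rw [num_congr hg, num_testBit, Nat.mod_eq_of_lt hi]

theorem word_eq_bits {M : Mem} {b0 w i : ℕ} (hg : ∀ j < w, M (b0 + 2 * j) = i.testBit j) :
    (List.range w).map (fun j => M (b0 + 2 * j)) = bits w i := by
  unfold bits
  refine List.map_congr_left (fun j hj => ?_)
  exact hg j (List.mem_range.1 hj)

theorem stp_go {G : List Ins} {b0 w t i : ℕ} (hb : 4 ≤ b0) (z : Inp) {M N : Mem} {c : Bool}
    (hG : ∀ x ∈ G, x.top ≤ b0) (hi : i < t) (ht : t < 2 ^ w) (hMN : Agr b0 M N)
    (hN : ∀ j < w, N (b0 + 2 * j) = i.testBit j) (hc : z (true :: bits w i) = c) :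
    Agr b0 (eval G (fun a => z (false :: a)) (Function.update M 1 c)) (stp G b0 w t z N) ∧
      ∀ j < w, stp G b0 w t z N (b0 + 2 * j) = (i + 1).testBit j := by
  have h1 : ctr b0 w N = i := num_testBit_eq (hi.trans ht) hN
  have h2 : stp G b0 w t z N = incr b0 w z
      (lift b0 (fun z M => eval G (fun a => z ([false] ++ a)) M) z (rdc b0 w z N)) := by
    unfold stp
    rw [h1, decide_eq_false (by omega)]
    rfl
  have h3 : rdc b0 w z N = Function.update N 1 c := by
    unfold rdc
    rw [word_eq_bits hN, hc]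
  have h4 : ∀ j < w, lift b0 (fun z M => eval G (fun a => z ([false] ++ a)) M) z (rdc b0 w z N)
      (b0 + 2 * j) = i.testBit j := by
    intro j hj
    rw [lift_ge (by omega), h3, Function.update_of_ne (by omega), hN j hj]
  have h5 : ctr b0 w (lift b0 (fun z M => eval G (fun a => z ([false] ++ a)) M) z
      (rdc b0 w z N)) = i := num_testBit_eq (hi.trans ht) h4
  refine ⟨fun q hq => ?_, fun j hj => ?_⟩
  · rw [h2]
    unfold incr
    rw [decide_eq_false (by omega), cond_false, lift_lt hq, h3]
    exact eval_agr hG (hMN.update 1 c) q hq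
  · rw [h2]
    unfold incr
    rw [decide_eq_true (by omega), cond_true, h5]
    congr 1
    omega

theorem sim {G : List Ins} {b0 w t d : ℕ} (hb : 4 ≤ b0) (hb2 : b0 % 2 = 0) (hd : 4 * d < b0)
    (z : Inp) (hG : ∀ x ∈ G, x.top ≤ b0) (ht : t < 2 ^ w) :
    ∀ n, n ≤ t →
      Agr b0 (staN (eval G (fun a => z (false :: a))) d (fun i => z (true :: bits w i)) n)
        (sta (stp G b0 w t z) d n) ∧
      ∀ j < w, sta (stp G b0 w t z) d n (b0 + 2 * j) = n.testBit j := by
  intro n
  induction n using Nat.strong_induction_on with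
  | _ n ih =>
    intro hn
    cases n with
    | zero =>
      refine ⟨Agr.refl _ _, fun j _ => ?_⟩
      rw [sta_zero]
      simp [zeroMem]
    | succ n =>
      obtain ⟨h1, h2⟩ := ih n (by omega) (by omega)
      have h3 : rclN (eval G (fun a => z (false :: a))) d (fun i => z (true :: bits w i)) n =
          rcl (stp G b0 w t z) d n := ptr_agr hd h1.ev
      rw [staN_succ, sta_succ, h3]
      refine stp_go hb z hG (show n < t by omega) ht ?_ ?_ rfl
      · refine mrg_agr h1.ev ?_
        by_cases h4 : rcl (stp G b0 w t z) d n ≤ n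
        · rw [if_pos h4, if_pos h4]
          exact (ih _ (by omega) (by omega)).1.ev
        · rw [if_neg h4, if_neg h4]
          exact EvAgr.refl _ _
      · intro j hj
        rw [show b0 + 2 * j = 2 * (b0 / 2 + j) by omega, mrg_even,
          show 2 * (b0 / 2 + j) = b0 + 2 * j by omega]
        exact h2 j hj

theorem sta_end {G : List Ins} {b0 w t d : ℕ} (hb : 4 ≤ b0) (hb2 : b0 % 2 = 0) (hd : 4 * d < b0)
    (z : Inp) (hG : ∀ x ∈ G, x.top ≤ b0) (ht : t < 2 ^ w) :
    sta (stp G b0 w t z) d (t + 1) 0 = true ∧ sta (stp G b0 w t z) d (t + 1) 2 = false := by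
  obtain ⟨_, h2⟩ := sim (d := d) hb hb2 hd z hG ht t le_rfl
  rw [sta_succ]
  generalize (if rcl (stp G b0 w t z) d t ≤ t then
    sta (stp G b0 w t z) d (rcl (stp G b0 w t z) d t) else zeroMem) = W
  have h3 : ctr b0 w (mrg (sta (stp G b0 w t z) d t) W) = t := by
    refine num_testBit_eq ht (fun j hj => ?_)
    rw [show b0 + 2 * j = 2 * (b0 / 2 + j) by omega, mrg_even,
      show 2 * (b0 / 2 + j) = b0 + 2 * j by omega]
    exact h2 j hj
  have h4 : ∀ M, ctr b0 w M = t → stp G b0 w t z M = abo z M := by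
    intro M hM
    unfold stp
    rw [decide_eq_true hM]
    rfl
  rw [h4 _ h3]
  unfold abo
  constructor <;> simp

theorem hans_stp {G : List Ins} {b0 w t d : ℕ} (hb : 4 ≤ b0) (hb2 : b0 % 2 = 0)
    (hd : 4 * d < b0) (z : Inp) (hG : ∀ x ∈ G, x.top ≤ b0) (ht : t < 2 ^ w) :
    ∃ b, HAns (stp G b0 w t z) d (t + 1) b ∧ (b = true ↔
      ∃ N ≤ t, AccAt (eval G (fun a => z (false :: a))) d (fun i => z (true :: bits w i)) N) := by
  classical
  have hs := sim (d := d) hb hb2 hd z hG ht
  by_cases h : ∃ n, n ≤ t ∧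
      staN (eval G (fun a => z (false :: a))) d (fun i => z (true :: bits w i)) n 0 = true
  · obtain ⟨h1, h2⟩ := Nat.find_spec h
    set N := Nat.find h with hN
    have h3 : ∀ n < N,
        staN (eval G (fun a => z (false :: a))) d (fun i => z (true :: bits w i)) n 0 = false := by
      intro n hn
      have h4 := Nat.find_min h hn
      by_contra h5
      exact h4 ⟨by omega, by simpa using h5⟩
    refine ⟨_, ⟨N, by omega, ⟨?_, fun n hn => ?_⟩, rfl⟩, ?_⟩
    · rw [← (hs N h1).1 0 (by omega)]
      exact h2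
    · rw [← (hs n (by omega)).1 0 (by omega)]
      exact h3 n hn
    · rw [← (hs N h1).1 2 (by omega)]
      constructor
      · intro h4
        exact ⟨N, h1, h2, h3, h4⟩
      · rintro ⟨N', hN', g1, g2, g3⟩
        have h5 : N' = N := by
          rcases Nat.lt_trichotomy N' N with h6 | h6 | h6
          · rw [h3 N' h6] at g1
            exact absurd g1 (by simp)
          · exact h6
          · rw [g2 N h6] at h2
            exact absurd h2 (by simp)
        rw [← h5]
        exact g3
  · push Not at h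
    obtain ⟨e1, e2⟩ := sta_end (d := d) hb hb2 hd z hG ht
    refine ⟨false, ⟨t + 1, le_rfl, ⟨e1, fun n hn => ?_⟩, e2⟩, ?_⟩
    · rw [← (hs n (by omega)).1 0 (by omega)]
      simpa using h n (by omega)
    · constructor
      · intro h1
        exact absurd h1 (by simp)
      · rintro ⟨N, hN, g1, _⟩
        exact absurd g1 (h N hN)

/-- bound for the cells of the program -/
def base (s : ℕ) : ℕ := 2 * s + 4

theorem exists_prog {G : List Ins} {s d : ℕ} (w t : ℕ) (hG : HSz s d G) (ht : t < 2 ^ w) :
    ∃ G' : List Ins, HSz (base s + 2 * w + gsz (base s) w) d G' ∧ ∀ (z : Inp),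
      ∃ b, HAns (eval G' z) d (t + 1) b ∧ (b = true ↔
        ∃ N ≤ t, AccAt (eval G (fun a => z (false :: a))) d
          (fun i => z (true :: bits w i)) N) := by
  have hb : 4 ≤ base s := by unfold base; omega
  have hs : s ≤ base s := by unfold base; omega
  have hd : 4 * d < base s := lt_of_lt_of_le hG.2 hs
  obtain ⟨G', h1, h2⟩ := (tr_stp (w := w) (t := t) (hG.1.mono hs) hb).exists_code
  refine ⟨G', ⟨h1, by omega⟩, fun z => ?_⟩
  obtain ⟨b, hb1, hb2⟩ := hans_stp (d := d) hb (by unfold base; omega) hd z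
    (fun x hx => (hG.1.2 x hx).trans hs) ht
  refine ⟨b, ?_, hb2⟩
  refine hb1.transfer (s := base s + 2 * w) (by omega) (by omega) (fun M M' hM => ?_)
  exact (h2 z M' M hM.symm).symm.ev

theorem subExp_gsz {s w : ℕ → ℕ} (hs : SubExp s) (hw : SubExp w) :
    SubExp (fun L => base (s L) + 2 * w L + gsz (base (s L)) (w L)) := by
  have c := SubExp.const
  have hb : SubExp (fun L => base (s L)) := ((c 2).mul hs).add (c 4)
  have hbw := hb.add ((c 2).mul hw)
  have hw1 := hw.add (c 1)
  have hb1 := hb.add (c 1)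
  have hA := (((hw1.mul (c (8 + 1))).add ((c 2).mul hw1)).add (c 1))
  have ht := ((((c 20).mul hb1).add (hb1.add (c 1))).add (c 20))
  have hB := ((hb.mul (ht.add (c 1))).add hb).add ht
  have hC := (hbw.mul (((((hw.mul (c (2 + 50))).add (c (2 * 2))).add (c 200)).add (c 5)))).add (c 1)
  have hD := ((c 2).mul ((hw.mul (c (2 * 2 + 100))).add (c 50))).add (c 16)
  have hE := (hbw.mul (((hD.add ((hA.add hB).add hC)).add ((c 8).mul hbw)).add (c 42))).add (c 1)
  exact hbw.add hE

end HNGuessAux

open HNGuessAux in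
/-- field `guess` of `TradePN`, for all conditions on the computations -/
theorem tradePN_guess {T : Type} {π : Pres T} {P : T → Prop} {Q : ℕ → ℕ → (ℕ → ℕ) → Prop}
    {e : ℝ} (he : 0 ≤ e) (h : InGN Q π P e) : InEH e π P e := by
  obtain ⟨G, s, t, d, L₀, hs, ht, hG, hP⟩ := h
  set w : ℕ → ℕ := fun L => Nat.clog 2 (t L + 1) with hw
  have htw : ∀ L, t L < 2 ^ w L := fun L =>
    lt_of_lt_of_le (Nat.lt_succ_self _) (Nat.le_pow_clog (by norm_num) _)
  have ht1 : ExpLe e (fun L => t L + 1) :=
    (ex_iff.1 ht).add (((subExp_iff.1 (SubExp.const 1))).mono he)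
  have hwl : Lin e w := by
    intro ε hε
    exact Filter.eventually_atTop.1 (ht1.clog he ε hε)
  choose G' hG' hrun using fun L => exists_prog (w L) (t L) (hG L) (htw L)
  refine ⟨w, fun p => ∃ N ≤ t (π.idx p.1), AccAt (eval (G (π.idx p.1)) (π.inp p.1))
    (d (π.idx p.1)) (fun i => p.2 (bits (w (π.idx p.1)) i)) N, hwl, ?_, L₀, fun τ hτ => ?_⟩
  · refine ⟨G', fun L => base (s L) + 2 * w L + gsz (base (s L)) (w L), fun L => t L + 1, d, 0,
      ?_, ?_, hG', fun p _ => ⟨?_, fun _ _ _ => trivial⟩⟩
    · exact ex_zero_iff.2 (subExp_gsz (ex_zero_iff.1 hs) hwl.subExp)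
    · rw [ex_iff]
      exact ht1
    · obtain ⟨b, hb1, hb2⟩ := hrun (π.idx p.1) ((π.ext w).inp p)
      refine ⟨b, hb1, hb2.trans ?_⟩
      have e1 : (fun a => (π.ext w).inp p (false :: a)) = π.inp p.1 := rfl
      have e2 : (fun i => (π.ext w).inp p (true :: bits (w (π.idx p.1)) i)) =
          fun i => p.2 (bits (w (π.idx p.1)) i) := by
        funext i
        show trc (w (π.idx p.1)) p.2 (bits (w (π.idx p.1)) i) = _
        unfold trc
        rw [if_pos (length_bits _ _).le]
      rw [e1, e2]
  · obtain ⟨h1, h2⟩ := hP τ hτ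
    constructor
    · intro hPτ
      obtain ⟨c, N, hN, hA, _⟩ := h1 hPτ
      refine ⟨fun a => c (num a.length fun i => a.getD i false), N, hN, ?_⟩
      have hc : ∀ i < t (π.idx τ),
          (fun a : List Bool => c (num a.length fun j => a.getD j false))
            (bits (w (π.idx τ)) i) = c i := by
        intro i hi
        show c (num (bits (w (π.idx τ)) i).length fun j => (bits (w (π.idx τ)) i).getD j false) =
          c i
        congr 1
        rw [length_bits]
        refine num_testBit_eq (hi.trans (htw (π.idx τ))) (fun j hj => ?_)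
        simp [bits, List.getD, hj]
      have hst : ∀ n ≤ t (π.idx τ), staN (eval (G (π.idx τ)) (π.inp τ)) (d (π.idx τ))
          (fun i => (fun a : List Bool => c (num a.length fun j => a.getD j false))
            (bits (w (π.idx τ)) i)) n =
          staN (eval (G (π.idx τ)) (π.inp τ)) (d (π.idx τ)) c n := fun n hn =>
        staN_congr _ _ n fun i hi => hc i (by omega)
      refine ⟨?_, fun n hn => ?_, ?_⟩
      · rw [hst N hN]; exact hA.1
      · rw [hst n (by omega)]; exact hA.2.1 n hn
      · rw [hst N hN]; exact hA.2.2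
    · rintro ⟨v, N, hN, hA⟩
      exact h2 _ N hN hA

/-- field `guess` of `TradePN` -/
theorem tradePN_guess' {c ρ y : ℝ} (hc : 0 ≤ c) {T : Type} {π : Pres T} {P : T → Prop} {b E : ℝ}
    (_ : Size π b) (hE : 0 ≤ E) (h : InSN c ρ y π P E) : InEH (c * E) π P (c * E) := by
  obtain ⟨r, k, _, _, h⟩ := h
  exact tradePN_guess (mul_nonneg hc hE) h

end Pool.Agent.NUM
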