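import Pool.Agent.NUM.HHon

/-!
# Abstract nondeterministic history machines, and their check
-/

set_option autoImplicit false

namespace Pool.Agent.NUM

/-- an abstract nondeterministic history machine: each step has a choice bit -/
structure HMN (A : Type) where
  step : Bool → A → A → A
  idx : A → ℕ
  a0 : A
  e0 : A
  hlt : A → Bool
  acc : A → Bool

namespace HMN

variable {A : Type}

/-- the machine with constant choice `b` -/
def ch (H : HMN A) (b : Bool) : HM A := ⟨H.step b, H.idx, H.a0, H.e0, H.hlt, H.acc⟩

/-- the states after the passes `0, …, n`, with the choices `c` -/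
def hist (H : HMN A) (c : ℕ → Bool) : ℕ → ℕ → A
  | 0 => fun j => if j = 0 then H.a0 else H.e0
  | n + 1 => Function.update (H.hist c n) (n + 1)
      (H.step (c n) (H.hist c n n) (H.hist c n (H.idx (H.hist c n n))))

/-- the state after pass `n` -/
def U (H : HMN A) (c : ℕ → Bool) (n : ℕ) : A := H.hist c n n

/-- the state received by a recall of pass `j` after pass `n` -/
def rc (H : HMN A) (c : ℕ → Bool) (n j : ℕ) : A := if j ≤ n then H.U c j else H.e0

theorem hist_eq (H : HMN A) (c : ℕ → Bool) (n j : ℕ) : H.hist c n j = H.rc c n j := by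
  induction n with
  | zero =>
    unfold rc hist
    by_cases hj : j = 0
    · subst hj; simp [U, hist]
    · rw [if_neg hj, if_neg (by omega)]
  | succ n ih =>
    rcases Nat.lt_trichotomy j (n + 1) with h | h | h
    · have h1 : H.hist c (n + 1) j = H.hist c n j := by
        rw [hist, Function.update_of_ne (by omega)]
      rw [h1, ih]
      unfold rc
      rw [if_pos (by omega), if_pos (by omega)]
    · subst h
      unfold rc
      rw [if_pos le_rfl]
      rfl
    · have h1 : H.hist c (n + 1) j = H.hist c n j := by
        rw [hist, Function.update_of_ne (by omega)]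
      rw [h1, ih]
      unfold rc
      rw [if_neg (by omega), if_neg (by omega)]

theorem U_zero (H : HMN A) (c : ℕ → Bool) : H.U c 0 = H.a0 := rfl

theorem U_succ (H : HMN A) (c : ℕ → Bool) (n : ℕ) :
    H.U c (n + 1) = H.step (c n) (H.U c n) (H.rc c n (H.idx (H.U c n))) := by
  rw [← hist_eq]
  show H.hist c (n + 1) (n + 1) = _
  rw [hist, Function.update_self]
  rfl

/-- the recursion determines the states -/
theorem U_unique {H : HMN A} {c : ℕ → Bool} {W : ℕ → A} {N : ℕ} (h0 : W 0 = H.a0)
    (hs : ∀ n < N, W (n + 1) = H.step (c n) (W n)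
      (if H.idx (W n) ≤ n then W (H.idx (W n)) else H.e0)) :
    ∀ n ≤ N, H.U c n = W n := by
  intro n
  induction n using Nat.strong_induction_on with
  | _ n ih =>
    intro hn
    cases n with
    | zero => rw [h0]; rfl
    | succ n =>
      have h1 : H.U c n = W n := ih n (by omega) (by omega)
      rw [U_succ, hs n (by omega), h1]
      unfold rc
      by_cases h3 : H.idx (W n) ≤ n
      · rw [if_pos h3, if_pos h3, ih _ (by omega) (by omega)]
      · rw [if_neg h3, if_neg h3]

/-- with the choices `c` the computation halts after pass `N` with answer `b` -/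
def Out (H : HMN A) (c : ℕ → Bool) (N : ℕ) (b : Bool) : Prop :=
  (∀ m < N, H.hlt (H.U c m) = false) ∧ H.hlt (H.U c N) = true ∧ H.acc (H.U c N) = b

end HMN

/-- the check of label `κ` for the list `L`, as a nondeterministic machine -/
def hckN {A : Type} [DecidableEq A] (H : HMN A) (L : Lst A) (κ w lim : ℕ) : HMN (St A) where
  step := fun b => St.pass (H.ch b) L κ w lim
  idx := St.q
  a0 := ⟨false, false, false, 0, 0, 0, H.a0, 0⟩
  e0 := ⟨false, false, false, 0, 0, 0, H.a0, 0⟩
  hlt := St.hlt
  acc := St.acc

/-- only entries with times at most `T` may be final -/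
def Lst.clip {A : Type} (L : Lst A) (T : ℕ) : Lst A :=
  { L with fin := fun i => L.fin i && decide (L.tm i ≤ T) }

end Pool.Agent.NUM
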