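import Pool.Agent.NUM.HPivotDef
import Pool.Agent.NUM.HNFam
import Pool.Agent.NUM.Sat

/-!
# The pivot for nondeterministic history programs; the hypothesis on unsatisfiability
-/

set_option autoImplicit false

namespace Pool.Agent.NUM

open S3

/-- the pivot; `Qs` is the property of the computations of the unsatisfiability program -/
structure PivotHN (Qs : ℕ → ℕ → (ℕ → ℕ) → Prop) (c : ℝ) extends PivotHB where
  dec : ∀ (n sg : ℕ → ℕ) (E : ℝ), 0 ≤ E → Lin E (fun L => n L + sg L) →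
    Filter.Tendsto n Filter.atTop Filter.atTop → (∀ L, sg L ≤ n L) →
    ∃ (G : ℕ → List Ins) (s t d m : ℕ → ℕ) (L₀ : ℕ), Ex 0 s ∧ Ex (c * E) t ∧ Lin E m ∧
      Filter.Tendsto m Filter.atTop Filter.atTop ∧ (∀ L, HSz (s L) (d L) (G L)) ∧
      ∀ L, L₀ ≤ L → ∀ z : Inp,
        (¬ V (n L) (sg L) z → ∃ ch, ∃ N ≤ t L, AccAt (eval (G L) z) (d L) ch N ∧
          Qs (m L) N (rclN (eval (G L) z) (d L) ch)) ∧
        ∀ ch, ∀ N ≤ t L, AccAt (eval (G L) z) (d L) ch N → ¬ V (n L) (sg L) z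

/-- the unsatisfiability of 3-CNF formulas with `2 ^ m` variables and `2 ^ m` clauses is accepted by
nondeterministic history programs of size `2 ^ o(m)` with `2 ^ ((c + o(1)) m)` passes; every
unsatisfiable formula has an accepting computation with the property `Qs m` -/
def UnsatG (Qs : ℕ → ℕ → (ℕ → ℕ) → Prop) (c : ℝ) : Prop :=
  ∀ δ : ℝ, 0 < δ → ∃ m₀ : ℕ, ∀ m : ℕ, m₀ ≤ m → ∃ (G : List Ins) (d s T : ℕ), HSz s d G ∧
    (s : ℝ) ≤ 2 ^ (δ * m) ∧ (T : ℝ) ≤ 2 ^ ((c + δ) * m) ∧ ∀ z, Supp (satLen m) z →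
      (¬ SAT m z → ∃ ch, ∃ N ≤ T, AccAt (eval G z) d ch N ∧
        Qs m N (rclN (eval G z) d ch)) ∧
      ∀ ch, ∀ N ≤ T, AccAt (eval G z) d ch N → ¬ SAT m z

end Pool.Agent.NUM
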