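import Pool.Agent.NUM.HNClosure
import Pool.Agent.NUM.HNPivotDef
import Pool.Agent.NUM.HSlow
import Pool.Agent.NUM.HDiag

/-!
# Nondeterministic functional programs: the fields `slow`, `diag` of `TradePN`

`PivotHN Qs c` is the hypothesis on unsatisfiability: the complement of the pivot problem is
accepted by nondeterministic functional programs.
-/

set_option autoImplicit false

namespace Pool.Agent.NUM

open Filter

/-- **Slow-down** for nondeterministic functional programs: the new program is the program for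
unsatisfiability on a virtual instance. -/
theorem hslowN {Qs : ℕ → ℕ → (ℕ → ℕ) → Prop} {c : ℝ} (P : PivotHN Qs c) {T : Type} {π : Pres T}
    {Q : T → Prop} {b u e : ℝ} (hb : 1 ≤ b) (hs : Size π b) (h : InEH u π Q e) :
    InVN Qs c π (fun τ => ¬ Q τ) (max b (max u e)) := by
  obtain ⟨β, B, hβ, hB, L₂, hL₂⟩ := h
  obtain ⟨n, sg, tab, hnsg, hntop, h2w, hw, htab, hle, L₀, hV⟩ :=
    hpivot_reduce P.toPivotHB hb hs hβ hB
  have hE0 : 0 ≤ max b (max u e) := le_trans (by linarith) (le_max_left _ _)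
  obtain ⟨GV, sV, tV, dV, m, L₁, hsV, htV, hm, hm', hGV, hGVrun⟩ := P.dec n sg _ hE0 hnsg
    (tendsto_atTop_mono hntop tendsto_id) hle
  have hsV' : SubExp (fun L => sV L + 3) := (ex_zero_iff.1 hsV).add (SubExp.const 3)
  obtain ⟨t, ht, hloc⟩ := locF_tab h2w hw htab (fun L => sV L + 3) hsV'
  choose G3 hG3 hG3run using fun L => exists_virt_histN
    (show HSz (sV L + 3) (dV L) (GV L) from ⟨(hGV L).1.mono (Nat.le_add_right (sV L) 3),
      by have := (hGV L).2; omega⟩)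
    (Nat.le_add_left _ _) (hloc L) le_rfl
  refine ⟨m, hm, hm', G3, _, tV, dV, max (max L₀ L₁) L₂, ?_, htV, hG3, fun τ hτ => ?_⟩
  · exact ex_zero_iff.2 (((hsV'.mul (ht.add (SubExp.const 1))).add
      ((SubExp.const 2).mul hsV')).add ht)
  · have h0 : L₀ ≤ π.idx τ := le_trans (le_trans (le_max_left _ _) (le_max_left _ _)) hτ
    have h1 : L₁ ≤ π.idx τ := le_trans (le_trans (le_max_right _ _) (le_max_left _ _)) hτ
    have h2 : L₂ ≤ π.idx τ := le_trans (le_max_right _ _) hτ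
    obtain ⟨h3, h4⟩ := hGVrun (π.idx τ) h1 (pair (tab (π.idx τ)) (π.inp τ))
    rw [hV τ h0, ← hL₂ τ h2] at h3 h4
    refine ⟨fun hP => ?_, fun c N hN hA => ?_⟩
    · obtain ⟨c, N, hN, hA, hQ⟩ := h3 hP
      obtain ⟨h5, h6⟩ := hG3run (π.idx τ) (π.inp τ) c
      exact ⟨c, N, hN, (h5 N).2 hA, by rw [h6]; exact hQ⟩
    · obtain ⟨h5, h6⟩ := hG3run (π.idx τ) (π.inp τ) c
      exact h4 c N hN ((h5 N).1 hA)

/-- **Diagonal problems.** -/
theorem hdiagN {Qs : ℕ → ℕ → (ℕ → ℕ) → Prop} {c : ℝ} (P : PivotHN Qs c) (a : ℕ)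
    (u e : ℝ) (ha : 1 ≤ a) (hue : u ≤ e) (hea : e < a) :
    ∃ (T : Type) (π : Pres T) (D : T → Prop), Size π 1 ∧ InVN Qs c π D a ∧ ¬ InEH u π D e := by
  obtain ⟨n, sg, h1, h2, h3, h4⟩ := hdiag_core P.toPivotHB Set.infinite_univ a u e ha hue hea
  have ha0 : (0 : ℝ) ≤ a := Nat.cast_nonneg a
  have hn : Tendsto n atTop atTop := by
    rw [tendsto_atTop_atTop]
    intro b
    exact ⟨2 * b, fun L hL => by have := h2 L; omega⟩
  obtain ⟨G, s, t, d, m, L₀, hs, ht, hm, hm', hG, hrun⟩ := P.dec n sg a ha0 h1 hn h3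
  exact ⟨_, hdpres Set.univ, fun p => ¬ P.V (n p.1) (sg p.1) (trc (p.1 : ℕ) p.2),
    size_hdpres _, ⟨m, hm, hm', G, s, t, d, L₀, hs, ht, hG, fun τ hτ => hrun τ.1 hτ _⟩, h4⟩

/-! ## fields of `TradePN` -/

theorem tradePN_slow {c ρ y : ℝ} (hρ : 0 ≤ ρ) (hy : 0 ≤ y) (P : PivotHN (QP ρ y) c) {T : Type}
    {π : Pres T} {Q : T → Prop} {b u e : ℝ} (hb : 1 ≤ b) (hs : Size π b) (h : InEH u π Q e) :
    InSN c ρ y π (fun τ => ¬ Q τ) (max b (max u e)) :=
  (hslowN P hb hs h).toS hρ hy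

theorem tradePN_diag {c ρ y : ℝ} (hρ : 0 ≤ ρ) (hy : 0 ≤ y) (P : PivotHN (QP ρ y) c) (a : ℕ)
    (u e : ℝ) (ha : 1 ≤ a) (hue : u ≤ e) (hea : e < a) :
    ∃ (T : Type) (π : Pres T) (D : T → Prop), Size π 1 ∧ InSN c ρ y π D a ∧ ¬ InEH u π D e := by
  obtain ⟨T, π, D, h1, h2, h3⟩ := hdiagN P a u e ha hue hea
  exact ⟨T, π, D, h1, h2.toS hρ hy, h3⟩

end Pool.Agent.NUM
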