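import Pool.Agent.NUM.HPivotSat
import Pool.Agent.NUM.HNPivotDef
import Pool.Agent.NUM.HNClosure

/-!
# The pivot for nondeterministic history programs from a program for unsatisfiability
-/

set_option autoImplicit false

namespace Pool.Agent.NUM

open Filter

/-- a nondeterministic history program for unsatisfiability accepts the complement of the pivot
problem, with the same computations -/
theorem S3.V_acceptsHN {n sg T s d : ℕ} {Q : ℕ → (ℕ → ℕ) → Prop} (hsg : sg ≤ n) {G : List Ins}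
    (hs : HSz s d G) (h : ∀ z, Supp (S3.satLen (S3.Vm n sg)) z →
      (¬ S3.SAT (S3.Vm n sg) z → ∃ ch, ∃ N ≤ T, AccAt (eval G z) d ch N ∧
        Q N (rclN (eval G z) d ch)) ∧
      ∀ ch, ∀ N ≤ T, AccAt (eval G z) d ch N → ¬ S3.SAT (S3.Vm n sg) z) :
    ∃ G' : List Ins, HSz ((s + 3) * (S3.VS n sg + 3) * 4) d G' ∧ ∀ z : Inp,
      (¬ S3.V n sg z → ∃ ch, ∃ N ≤ T, AccAt (eval G' z) d ch N ∧
        Q N (rclN (eval G' z) d ch)) ∧
      ∀ ch, ∀ N ≤ T, AccAt (eval G' z) d ch N → ¬ S3.V n sg z := by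
  have hφ : Loc (s + 3) (S3.VS n sg)
      (fun z => S3.Phi n (sg + 1) (Nat.size (S3.nst n)) sg z) := S3.loc_Phi _ _ _ _ hsg _
  obtain ⟨G', hG', h2⟩ := exists_virt_histN (hs.mono (show s ≤ s + 3 by omega)) (by omega) hφ
    le_rfl
  have hle : (s + 3) * (S3.VS n sg + 1) + 2 * (s + 3) + S3.VS n sg ≤
      (s + 3) * (S3.VS n sg + 3) * 4 := by
    nlinarith [Nat.zero_le (s * S3.VS n sg), Nat.zero_le s, Nat.zero_le (S3.VS n sg)]
  refine ⟨G', hG'.mono hle, fun z => ?_⟩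
  obtain ⟨h3, h4⟩ := h (S3.Phi n (sg + 1) (Nat.size (S3.nst n)) sg z) (S3.Supp_Phi _ _ _ _ _)
  refine ⟨fun hV => ?_, fun ch N hN hA => ?_⟩
  · obtain ⟨ch, N, hN, hA, hQ⟩ := h3 hV
    obtain ⟨h6, h7⟩ := h2 z ch
    exact ⟨ch, N, hN, (h6 N).2 hA, by rw [h7]; exact hQ⟩
  · obtain ⟨h6, -⟩ := h2 z ch
    exact h4 ch N hN ((h6 N).1 hA)

/-- **The pivot from nondeterministic history programs for unsatisfiability.** -/
theorem exists_pivotHN {Qs : ℕ → ℕ → (ℕ → ℕ) → Prop} {c : ℝ} (hc : 0 ≤ c) (H : UnsatG Qs c) :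
    Nonempty (PivotHN Qs c) := by
  obtain ⟨G, d, s, T, hs, hT, hG, hQ⟩ := seq_of_deltaH (Q := fun m G d T =>
    ∀ z, Supp (S3.satLen m) z →
      (¬ S3.SAT m z → ∃ ch, ∃ N ≤ T, AccAt (eval G z) d ch N ∧
        Qs m N (rclN (eval G z) d ch)) ∧
      ∀ ch, ∀ N ≤ T, AccAt (eval G z) d ch N → ¬ S3.SAT m z) H
  obtain ⟨m₀, hm₀⟩ := eventually_atTop.1 hQ
  refine ⟨⟨pivotHB_sat, ?_⟩⟩
  intro n sg E hE hlin hn hle
  obtain ⟨hSS, hTm, hmtop⟩ := pivot_sizes hc hs hT hE hlin hn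
  choose G' d' hG' hD using fun L => show ∃ (G' : List Ins) (d' : ℕ),
    HSz ((s (S3.Vm (n L) (sg L)) + 3) * (S3.VS (n L) (sg L) + 3) * 4) d' G' ∧
    (m₀ ≤ S3.Vm (n L) (sg L) → ∀ z : Inp,
      (¬ S3.V (n L) (sg L) z → ∃ ch, ∃ N ≤ T (S3.Vm (n L) (sg L)),
        AccAt (eval G' z) d' ch N ∧ Qs (S3.Vm (n L) (sg L)) N (rclN (eval G' z) d' ch)) ∧
      ∀ ch, ∀ N ≤ T (S3.Vm (n L) (sg L)), AccAt (eval G' z) d' ch N → ¬ S3.V (n L) (sg L) z)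
    from by
      by_cases h : m₀ ≤ S3.Vm (n L) (sg L)
      · obtain ⟨G', h1, h2⟩ := S3.V_acceptsHN (Q := Qs (S3.Vm (n L) (sg L))) (hle L) (hG _)
          (hm₀ _ h)
        exact ⟨G', _, h1, fun _ => h2⟩
      · refine ⟨[], 0, ⟨⟨by simp, by simp⟩, ?_⟩, fun h' => absurd h' h⟩
        nlinarith [Nat.zero_le (s (S3.Vm (n L) (sg L)) * S3.VS (n L) (sg L)),
          Nat.zero_le (s (S3.Vm (n L) (sg L))), Nat.zero_le (S3.VS (n L) (sg L))]
  obtain ⟨L₁, hL₁⟩ := eventually_atTop.1 (hmtop.eventually (eventually_ge_atTop m₀))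
  exact ⟨G', _, _, d', fun L => S3.Vm (n L) (sg L), L₁, hSS, hTm, lin_Vm hlin, hmtop, hG',
    fun L hL => hD L (hL₁ L hL)⟩

end Pool.Agent.NUM
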