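import Pool.Agent.NUM.HNMach

/-!
# Soundness of the nondeterministic check
-/

set_option autoImplicit false

namespace Pool.Agent.NUM

variable {A : Type} [DecidableEq A] {H : HMN A} {L : Lst A} {κ w lim : ℕ} {c : ℕ → Bool}

theorem hckN_U_zero : (hckN H L κ w lim).U c 0 = ⟨false, false, false, 0, 0, 0, H.a0, 0⟩ := rfl

theorem hckN_U_succ (n : ℕ) : (hckN H L κ w lim).U c (n + 1) =
    St.pass (H.ch (c n)) L κ w lim ((hckN H L κ w lim).U c n)
      ((hckN H L κ w lim).rc c n ((hckN H L κ w lim).U c n).q) := HMN.U_succ _ c n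

/-- pass `m + 1` of the check simulates the step from time `u` in segment `j`; the simulated machine
receives `W` and gets into the state `a'` -/
def NStp (H : HMN A) (L : Lst A) (κ w lim : ℕ) (c : ℕ → Bool) (m j u : ℕ) (a' : A) : Prop :=
  ∃ W, (lkup L H.a0 H.e0 w κ j u (H.idx ((hckN H L κ w lim).U c m).a) = .val W ∨
    ∃ m', lkup L H.a0 H.e0 w κ j u (H.idx ((hckN H L κ w lim).U c m).a) = .own m' ∧
      W = ((hckN H L κ w lim).rc c m m').a) ∧
    a' = H.step (c m) ((hckN H L κ w lim).U c m).a W

/-- the invariant of the nondeterministic check after pass `n` -/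
structure CInvN (H : HMN A) (L : Lst A) (κ w lim : ℕ) (c : ℕ → Bool) (n : ℕ) (σ : St A) :
    Prop where
  num : σ.n = n
  srt : ∀ j < σ.i, L.pv j < L.tm j ∧ L.fin j = false
  don : ∀ j < σ.i, L.lb j = κ → L.off j + (L.tm j - L.pv j) ≤ n ∧
    ((hckN H L κ w lim).U c (L.off j)).a = L.ps H.a0 j ∧
    ((hckN H L κ w lim).U c (L.off j + (L.tm j - L.pv j))).a = L.st j ∧
    ∀ t < L.tm j - L.pv j, NStp H L κ w lim c (L.off j + t) j (L.pv j + t)
      ((hckN H L κ w lim).U c (L.off j + t + 1)).a ∧
      H.hlt ((hckN H L κ w lim).U c (L.off j + t + 1)).a = false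
  cur : σ.sim = true → L.pv σ.i < L.tm σ.i ∧ L.lb σ.i = κ ∧ L.pv σ.i ≤ σ.u ∧ σ.u < L.tm σ.i ∧
    n = L.off σ.i + (σ.u - L.pv σ.i) ∧
    σ.q = (lkup L H.a0 H.e0 w κ σ.i σ.u (H.idx σ.a)).num ∧
    ((hckN H L κ w lim).U c (L.off σ.i)).a = L.ps H.a0 σ.i ∧
    ∀ t < σ.u - L.pv σ.i, NStp H L κ w lim c (L.off σ.i + t) σ.i (L.pv σ.i + t)
      ((hckN H L κ w lim).U c (L.off σ.i + t + 1)).a ∧
      H.hlt ((hckN H L κ w lim).U c (L.off σ.i + t + 1)).a = false

theorem passN_scan {n : ℕ} {σ : St A} (hσ : σ = (hckN H L κ w lim).U c n) (hs : σ.sim = false) :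
    (hckN H L κ w lim).U c (n + 1) = σ.rej ∨
      (hckN H L κ w lim).U c (n + 1) = St.scan (H.ch (c n)) L κ w σ := by
  rw [hckN_U_succ, ← hσ]
  unfold St.pass
  by_cases h1 : lim ≤ σ.n + 1
  · rw [if_pos h1]
    exact Or.inl rfl
  · rw [if_neg h1, if_neg (by rw [hs]; simp)]
    exact Or.inr rfl

theorem passN_sim {n : ℕ} {σ : St A} (hσ : σ = (hckN H L κ w lim).U c n)
    (hI : CInvN H L κ w lim c n σ) (hs : σ.sim = true) :
    (hckN H L κ w lim).U c (n + 1) = σ.rej ∨ ∃ a',
      (hckN H L κ w lim).U c (n + 1) = St.move (H.ch (c n)) L κ w σ a' ∧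
      NStp H L κ w lim c n σ.i σ.u a' := by
  obtain ⟨-, -, -, -, -, h6, -⟩ := hI.cur hs
  rw [hckN_U_succ, ← hσ]
  unfold St.pass
  by_cases h1 : lim ≤ σ.n + 1
  · rw [if_pos h1]
    exact Or.inl rfl
  · rw [if_neg h1, if_pos hs]
    have hch : lkup L (H.ch (c n)).a0 (H.ch (c n)).e0 w κ σ.i σ.u ((H.ch (c n)).idx σ.a) =
        lkup L H.a0 H.e0 w κ σ.i σ.u (H.idx σ.a) := rfl
    rw [hch]
    cases hl : lkup L H.a0 H.e0 w κ σ.i σ.u (H.idx σ.a) with
    | bad => exact Or.inl rfl
    | val W =>
      refine Or.inr ⟨_, rfl, W, Or.inl ?_, ?_⟩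
      · rw [← hσ]; exact hl
      · rw [← hσ]; rfl
    | own m =>
      refine Or.inr ⟨_, rfl, ((hckN H L κ w lim).rc c n m).a, Or.inr ⟨m, ?_, rfl⟩, ?_⟩
      · rw [← hσ]; exact hl
      · rw [← hσ, h6, hl]; rfl

theorem CInvN.succ {n : ℕ} (hI : CInvN H L κ w lim c n ((hckN H L κ w lim).U c n))
    (hh : ((hckN H L κ w lim).U c (n + 1)).hlt = false) :
    CInvN H L κ w lim c (n + 1) ((hckN H L κ w lim).U c (n + 1)) := by
  obtain ⟨σ, hσ⟩ : ∃ σ, σ = (hckN H L κ w lim).U c n := ⟨_, rfl⟩
  rw [← hσ] at hI
  have hnum := hI.num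
  cases hs : σ.sim with
  | false =>
    rcases passN_scan hσ hs with h1 | h1
    · rw [h1] at hh
      simp [St.rej] at hh
    · rw [h1] at hh
      obtain ⟨hp, h2 | h2⟩ := St.scan_run hh
      · obtain ⟨hl, ho, h3⟩ := h2
        rw [h3] at h1
        refine ⟨?_, ?_, ?_, ?_⟩
        · rw [h1]; show σ.n + 1 = n + 1; omega
        · rw [h1]; exact hI.srt
        · rw [h1]
          intro j hj hlj
          obtain ⟨e1, e2⟩ := hI.don j hj hlj
          exact ⟨by omega, e2⟩
        · intro _
          rw [h1]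
          refine ⟨hp, hl, le_rfl, hp, ?_, rfl, ?_, ?_⟩
          · show n + 1 = L.off σ.i + (L.pv σ.i - L.pv σ.i); omega
          · show ((hckN H L κ w lim).U c (L.off σ.i)).a = L.ps H.a0 σ.i
            rw [ho, hnum, h1]
            rfl
          · intro t ht
            have : t < L.pv σ.i - L.pv σ.i := ht
            omega
      · obtain ⟨hl, hf, hw, h3⟩ := h2
        rw [h3] at h1
        refine ⟨?_, ?_, ?_, ?_⟩
        · rw [h1]; show σ.n + 1 = n + 1; omega
        · rw [h1]
          intro j hj
          have hj' : j < σ.i + 1 := hj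
          rcases Nat.lt_or_ge j σ.i with h | h
          · exact hI.srt j h
          · have : j = σ.i := by omega
            subst this
            exact ⟨hp, hf⟩
        · rw [h1]
          intro j hj hlj
          have hj' : j < σ.i + 1 := hj
          rcases Nat.lt_or_ge j σ.i with h | h
          · obtain ⟨e1, e2⟩ := hI.don j h hlj
            exact ⟨by omega, e2⟩
          · have : j = σ.i := by omega
            subst this
            exact absurd hlj hl
        · intro h
          rw [h1] at h
          cases h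
  | true =>
    obtain ⟨c1, c2, c3, c4, c5, c6, c7, c8⟩ := hI.cur hs
    rcases passN_sim hσ hI hs with h1 | ⟨a', h1, hU⟩
    · rw [h1] at hh
      simp [St.rej] at hh
    · have hh' := hh
      rw [h1] at hh'
      have hn1 : L.off σ.i + (σ.u - L.pv σ.i) + 1 = n + 1 := by omega
      obtain ⟨ha, h2 | h2⟩ := St.move_run hh'
      · obtain ⟨hu, hst, hf, hw, h3⟩ := h2
        rw [h3] at h1
        refine ⟨?_, ?_, ?_, ?_⟩
        · rw [h1]; show σ.n + 1 = n + 1; omega
        · rw [h1]
          intro j hj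
          have hj' : j < σ.i + 1 := hj
          rcases Nat.lt_or_ge j σ.i with h | h
          · exact hI.srt j h
          · have : j = σ.i := by omega
            subst this
            exact ⟨c1, hf⟩
        · rw [h1]
          intro j hj hlj
          have hj' : j < σ.i + 1 := hj
          rcases Nat.lt_or_ge j σ.i with h | h
          · obtain ⟨e1, e2⟩ := hI.don j h hlj
            exact ⟨by omega, e2⟩
          · have : j = σ.i := by omega
            subst this
            refine ⟨by omega, c7, ?_, fun t ht => ?_⟩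
            · rw [show L.off σ.i + (L.tm σ.i - L.pv σ.i) = n + 1 by omega, h1]
              exact hst
            · rcases Nat.lt_or_ge t (σ.u - L.pv σ.i) with h | h
              · exact c8 t h
              · have e1 : L.off σ.i + t = n := by omega
                have e2 : L.pv σ.i + t = σ.u := by omega
                rw [e1, e2, h1]
                exact ⟨hU, ha⟩
        · intro h
          rw [h1] at h
          cases h
      · obtain ⟨hu, h3⟩ := h2
        rw [h3] at h1
        refine ⟨?_, ?_, ?_, ?_⟩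
        · rw [h1]; show σ.n + 1 = n + 1; omega
        · rw [h1]; exact hI.srt
        · rw [h1]
          intro j hj hlj
          obtain ⟨e1, e2⟩ := hI.don j hj hlj
          exact ⟨by omega, e2⟩
        · intro _
          have hnew : ∀ t < σ.u + 1 - L.pv σ.i,
              NStp H L κ w lim c (L.off σ.i + t) σ.i (L.pv σ.i + t)
                ((hckN H L κ w lim).U c (L.off σ.i + t + 1)).a ∧
              H.hlt ((hckN H L κ w lim).U c (L.off σ.i + t + 1)).a = false := by
            intro t ht
            rcases Nat.lt_or_ge t (σ.u - L.pv σ.i) with h | h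
            · exact c8 t h
            · have e1 : L.off σ.i + t = n := by omega
              have e2 : L.pv σ.i + t = σ.u := by omega
              rw [e1, e2, h1]
              exact ⟨hU, ha⟩
          rw [h1]
          refine ⟨c1, c2, ?_, ?_, ?_, rfl, c7, hnew⟩
          · show L.pv σ.i ≤ σ.u + 1; omega
          · show σ.u + 1 < L.tm σ.i; omega
          · show n + 1 = L.off σ.i + (σ.u + 1 - L.pv σ.i); omega

theorem CInvN.all {N : ℕ} (h : ∀ m < N, ((hckN H L κ w lim).U c m).hlt = false) :
    ∀ n < N, CInvN H L κ w lim c n ((hckN H L κ w lim).U c n) := by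
  intro n
  induction n with
  | zero =>
    intro _
    refine ⟨rfl, ?_, ?_, ?_⟩
    · intro j hj; exact absurd hj (Nat.not_lt_zero j)
    · intro j hj; exact absurd hj (Nat.not_lt_zero j)
    · intro hs; cases hs
  | succ n ih =>
    intro hn
    exact (ih (by omega)).succ (h _ hn)

/-- the facts on the segments of one label, from an accepting run of the check of this label -/
structure NAccF (H : HMN A) (L : Lst A) (κ w lim : ℕ) (c : ℕ → Bool) (F : ℕ) : Prop where
  srt : ∀ j ≤ F, L.pv j < L.tm j
  nfin : ∀ j < F, L.fin j = false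
  fin : L.fin F = true
  fst : ∀ j ≤ F, L.lb j = κ → ((hckN H L κ w lim).U c (L.off j)).a = L.ps H.a0 j
  lst : ∀ j < F, L.lb j = κ →
    ((hckN H L κ w lim).U c (L.off j + (L.tm j - L.pv j))).a = L.st j
  stp : ∀ j ≤ F, L.lb j = κ → ∀ t, L.pv j + t + 1 < L.tm j →
    NStp H L κ w lim c (L.off j + t) j (L.pv j + t)
      ((hckN H L κ w lim).U c (L.off j + t + 1)).a ∧
      H.hlt ((hckN H L κ w lim).U c (L.off j + t + 1)).a = false
  stl : ∀ j ≤ F, L.lb j = κ → ∀ t, L.pv j + t + 1 = L.tm j →
    NStp H L κ w lim c (L.off j + t) j (L.pv j + t) (L.st j) ∧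
      (j < F → H.hlt (L.st j) = false) ∧ (j = F → H.hlt (L.st j) = true ∧ H.acc (L.st j) = true)
  ord : ∀ j j', j < j' → j' ≤ F → L.lb j = κ → L.lb j' = κ →
    L.off j + (L.tm j - L.pv j) ≤ L.off j'

/-- in `CInvN`, segments of the label are in order -/
theorem CInvN.ord {n : ℕ} {σ : St A} (h : ∀ m ≤ n, ((hckN H L κ w lim).U c m).hlt = false)
    (hσ : σ = (hckN H L κ w lim).U c n) :
    ∀ j j', j < j' → (j' < σ.i ∨ (j' = σ.i ∧ σ.sim = true)) → L.lb j = κ → L.lb j' = κ →
      L.off j + (L.tm j - L.pv j) ≤ L.off j' := by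
  induction n generalizing σ with
  | zero =>
    intro j j' _ hj' _ _
    subst hσ
    rcases hj' with h1 | ⟨-, h1⟩
    · exact absurd h1 (Nat.not_lt_zero j')
    · cases h1
  | succ n ih =>
    intro j j' hjj hj' hlj hlj'
    have hI := CInvN.all (N := n + 1) (fun m hm => h m (by omega)) n (by omega)
    have hI' := CInvN.all (N := n + 2) (fun m hm => h m (by omega)) (n + 1) (by omega)
    obtain ⟨ρ, hρ⟩ : ∃ ρ, ρ = (hckN H L κ w lim).U c n := ⟨_, rfl⟩
    have ih' := ih (σ := ρ) (fun m hm => h m (by omega)) hρ j j' hjj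
    have hh : ((hckN H L κ w lim).U c (n + 1)).hlt = false := h _ le_rfl
    rw [← hρ] at hI
    rw [← hσ] at hI' hh
    have hnum := hI.num
    cases hs : ρ.sim with
    | false =>
      rcases passN_scan hρ hs with h1 | h1
      · rw [← hσ] at h1
        rw [h1] at hh
        simp [St.rej] at hh
      · rw [← hσ] at h1
        rw [h1] at hh
        obtain ⟨hp, h2 | h2⟩ := St.scan_run hh
        · obtain ⟨hl, ho, h3⟩ := h2
          rw [h3] at h1
          have hi : σ.i = ρ.i := by rw [h1]; rfl
          rw [hi] at hj'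
          rcases hj' with h4 | ⟨h4, -⟩
          · exact ih' (Or.inl h4) hlj hlj'
          · subst h4
            have h5 := (hI.don j hjj hlj).1
            omega
        · obtain ⟨hl, hf, hw, h3⟩ := h2
          rw [h3] at h1
          have hi : σ.i = ρ.i + 1 := by rw [h1]; rfl
          have hss : σ.sim = false := by rw [h1]; rfl
          rw [hi, hss] at hj'
          rcases hj' with h4 | ⟨-, h4⟩
          · rcases Nat.lt_or_ge j' ρ.i with h5 | h5
            · exact ih' (Or.inl h5) hlj hlj'
            · have : j' = ρ.i := by omega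
              subst this
              exact absurd hlj' hl
          · cases h4
    | true =>
      obtain ⟨c1, c2, c3, c4, c5, c6, c7, c8⟩ := hI.cur hs
      rcases passN_sim hρ hI hs with h1 | ⟨a', h1, hU⟩
      · rw [← hσ] at h1
        rw [h1] at hh
        simp [St.rej] at hh
      · rw [← hσ] at h1
        rw [h1] at hh
        obtain ⟨ha, h2 | h2⟩ := St.move_run hh
        · obtain ⟨hu, hst, hf, hw, h3⟩ := h2
          rw [h3] at h1
          have hi : σ.i = ρ.i + 1 := by rw [h1]; rfl
          have hss : σ.sim = false := by rw [h1]; rfl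
          rw [hi, hss] at hj'
          rcases hj' with h4 | ⟨-, h4⟩
          · rcases Nat.lt_or_ge j' ρ.i with h5 | h5
            · exact ih' (Or.inl h5) hlj hlj'
            · exact ih' (Or.inr ⟨by omega, hs⟩) hlj hlj'
          · cases h4
        · obtain ⟨hu, h3⟩ := h2
          rw [h3] at h1
          have hi : σ.i = ρ.i := by rw [h1]; rfl
          rw [hi] at hj'
          rcases hj' with h4 | ⟨h4, -⟩
          · exact ih' (Or.inl h4) hlj hlj'
          · exact ih' (Or.inr ⟨h4, hs⟩) hlj hlj'

/-- what an accepting run of the nondeterministic check tells -/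
theorem hckN_accept {N : ℕ} (h : (hckN H L κ w lim).Out c N true) :
    ∃ F, NAccF H L κ w lim c F := by
  obtain ⟨h1, h2, h3⟩ := h
  have hN : N ≠ 0 := by
    rintro rfl
    have h2' : ((hckN H L κ w lim).U c 0).hlt = true := h2
    rw [hckN_U_zero] at h2'
    cases h2'
  obtain ⟨n, rfl⟩ : ∃ n, N = n + 1 := ⟨N - 1, by omega⟩
  have hI := CInvN.all h1 n (by omega)
  obtain ⟨σ, hσ⟩ : ∃ σ, σ = (hckN H L κ w lim).U c n := ⟨_, rfl⟩
  have hord := CInvN.ord (fun m hm => h1 m (by omega)) hσ
  rw [← hσ] at hI
  have h2' : ((hckN H L κ w lim).U c (n + 1)).hlt = true := h2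
  have h3' : ((hckN H L κ w lim).U c (n + 1)).acc = true := h3
  refine ⟨σ.i, ?_⟩
  cases hs : σ.sim with
  | false =>
    rcases passN_scan hσ hs with h4 | h4
    · rw [h4] at h3'
      simp [St.rej] at h3'
    · rw [h4] at h2' h3'
      obtain ⟨e1, e2, e3⟩ := St.scan_yes h2' h3'
      have hlt : ∀ j ≤ σ.i, L.lb j = κ → j < σ.i := by
        intro j hj hlj
        rcases Nat.lt_or_ge j σ.i with h | h
        · exact h
        · have : j = σ.i := by omega
          subst this
          exact absurd hlj e2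
      refine ⟨?_, fun j hj => (hI.srt j hj).2, e3, ?_, ?_, ?_, ?_, ?_⟩
      · intro j hj
        rcases Nat.lt_or_ge j σ.i with h | h
        · exact (hI.srt j h).1
        · have : j = σ.i := by omega
          subst this
          exact e1
      · intro j hj hlj
        exact (hI.don j (hlt j hj hlj) hlj).2.1
      · intro j hj hlj
        exact (hI.don j hj hlj).2.2.1
      · intro j hj hlj t ht
        exact (hI.don j (hlt j hj hlj) hlj).2.2.2 t (by omega)
      · intro j hj hlj t ht
        obtain ⟨d1, d2, d3, d4⟩ := hI.don j (hlt j hj hlj) hlj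
        have d5 := d4 t (by omega)
        rw [show L.off j + t + 1 = L.off j + (L.tm j - L.pv j) by omega, d3] at d5
        exact ⟨d5.1, fun _ => d5.2, fun h => absurd (hlt j hj hlj) (by omega)⟩
      · intro j j' hjj hj' hlj hlj'
        exact hord j j' hjj (Or.inl (hlt j' hj' hlj')) hlj hlj'
  | true =>
    obtain ⟨c1, c2, c3, c4, c5, c6, c7, c8⟩ := hI.cur hs
    rcases passN_sim hσ hI hs with h4 | ⟨a', h4, hU⟩
    · rw [h4] at h3'
      simp [St.rej] at h3'
    · rw [h4] at h2' h3'
      obtain ⟨e1, e2, e3, e4, e5⟩ := St.move_yes h2' h3'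
      refine ⟨?_, fun j hj => (hI.srt j hj).2, e3, ?_, ?_, ?_, ?_, ?_⟩
      · intro j hj
        rcases Nat.lt_or_ge j σ.i with h | h
        · exact (hI.srt j h).1
        · have : j = σ.i := by omega
          subst this
          exact c1
      · intro j hj hlj
        rcases Nat.lt_or_ge j σ.i with h | h
        · exact (hI.don j h hlj).2.1
        · have : j = σ.i := by omega
          subst this
          exact c7
      · intro j hj hlj
        exact (hI.don j hj hlj).2.2.1
      · intro j hj hlj t ht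
        rcases Nat.lt_or_ge j σ.i with h | h
        · exact (hI.don j h hlj).2.2.2 t (by omega)
        · have : j = σ.i := by omega
          subst this
          exact c8 t (by omega)
      · intro j hj hlj t ht
        rcases Nat.lt_or_ge j σ.i with h | h
        · obtain ⟨d1, d2, d3, d4⟩ := hI.don j h hlj
          have d5 := d4 t (by omega)
          rw [show L.off j + t + 1 = L.off j + (L.tm j - L.pv j) by omega, d3] at d5
          exact ⟨d5.1, fun _ => d5.2, fun h => by omega⟩
        · have : j = σ.i := by omega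
          subst this
          rw [show L.off σ.i + t = n by omega, show L.pv σ.i + t = σ.u by omega, ← e2]
          exact ⟨hU, fun h => absurd h (lt_irrefl _), fun _ => ⟨e4, e5⟩⟩
      · intro j j' hjj hj' hlj hlj'
        rcases Nat.lt_or_ge j' σ.i with h | h
        · exact hord j j' hjj (Or.inl h) hlj hlj'
        · exact hord j j' hjj (Or.inr ⟨by omega, hs⟩) hlj hlj'

/-- **Soundness of the nondeterministic checks.** -/
theorem hckN_sound (h0 : H.hlt H.a0 = false) (hlb : ∀ i, L.lb i < 2 ^ w)
    (h : ∀ κ < 2 ^ w, ∃ c N, (hckN H L κ w lim).Out c N true) :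
    ∃ c N F, H.Out c N true ∧ L.fin F = true ∧ N = L.tm F := by
  have h' : ∀ κ, κ < 2 ^ w → ∃ c F, NAccF H L κ w lim c F := by
    intro κ hκ
    obtain ⟨c, N, hcN⟩ := h κ hκ
    exact ⟨c, hckN_accept hcN⟩
  choose! cc FF hF using h'
  obtain ⟨F, hF0⟩ : ∃ F, F = FF 0 := ⟨_, rfl⟩
  have hacc0 := hF 0 (by positivity)
  rw [← hF0] at hacc0
  have hacc : ∀ κ < 2 ^ w, NAccF H L κ w lim (cc κ) F := by
    intro κ hκ
    have h1 := hF κ hκ
    have : FF κ = F := by
      rcases Nat.lt_trichotomy (FF κ) F with h2 | h2 | h2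
      · have := hacc0.nfin _ h2
        rw [h1.fin] at this
        cases this
      · exact h2
      · have := h1.nfin _ h2
        rw [hacc0.fin] at this
        cases this
    rwa [this] at h1
  -- increasing times
  have hmono : ∀ i j, i ≤ j → j ≤ F → L.tm i ≤ L.tm j := by
    intro i j hij
    induction j with
    | zero => intro _; rw [show i = 0 by omega]
    | succ j ih =>
      intro hj
      rcases Nat.lt_or_ge i (j + 1) with h1 | h1
      · have h2 := ih (by omega) (by omega)
        have h3 : L.tm j < L.tm (j + 1) := hacc0.srt (j + 1) hj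
        omega
      · rw [show i = j + 1 by omega]
  have hpv : ∀ i j, i < j → j ≤ F → L.tm i ≤ L.pv j := by
    intro i j hij hj
    obtain ⟨j', rfl⟩ : ∃ j', j = j' + 1 := ⟨j - 1, by omega⟩
    exact hmono i j' (by omega) (by omega)
  -- the segment of a time
  have hseg : ∀ u, ∃ j, (0 < u → u ≤ L.tm F → j ≤ F ∧ L.pv j < u ∧ u ≤ L.tm j) := by
    intro u
    by_cases hu : 0 < u ∧ u ≤ L.tm F
    · classical
      have hex : ∃ j, u ≤ L.tm j := ⟨F, hu.2⟩
      obtain ⟨j, hj, hj'⟩ : ∃ j, u ≤ L.tm j ∧ ∀ j' < j, ¬ u ≤ L.tm j' :=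
        ⟨Nat.find hex, Nat.find_spec hex, fun j' hj' => Nat.find_min hex hj'⟩
      refine ⟨j, fun _ _ => ⟨?_, ?_, hj⟩⟩
      · by_contra h1
        exact hj' F (by omega) hu.2
      · cases j with
        | zero => exact hu.1
        | succ j =>
          have h1 : ¬ u ≤ L.tm j := hj' j (by omega)
          show L.tm j < u
          omega
    · exact ⟨0, fun h1 h2 => absurd ⟨h1, h2⟩ hu⟩
  choose sg hsg using hseg
  have hsgu : ∀ u j, j ≤ F → L.pv j < u → u ≤ L.tm j → sg u = j := by
    intro u j hj h1 h2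
    have h3 := hmono j F hj le_rfl
    obtain ⟨g1, g2, g3⟩ := hsg u (by omega) (by omega)
    rcases Nat.lt_trichotomy (sg u) j with h4 | h4 | h4
    · have := hpv _ _ h4 hj
      omega
    · exact h4
    · have := hpv _ _ h4 g1
      omega
  -- the states and the choices
  obtain ⟨V, hV⟩ : ∃ V : ℕ → ℕ → A, V = fun κ m => ((hckN H L κ w lim).U (cc κ) m).a := ⟨_, rfl⟩
  obtain ⟨W, hW⟩ : ∃ W : ℕ → A, W = fun u => if u = 0 then H.a0 else
      if u = L.tm (sg u) then L.st (sg u) else
      V (L.lb (sg u)) (L.off (sg u) + (u - L.pv (sg u))) := ⟨_, rfl⟩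
  obtain ⟨cg, hcg⟩ : ∃ cg : ℕ → Bool, cg = fun u => cc (L.lb (sg (u + 1)))
      (L.off (sg (u + 1)) + (u - L.pv (sg (u + 1)))) := ⟨_, rfl⟩
  have hW0 : W 0 = H.a0 := by rw [hW]; simp
  have hWend : ∀ j ≤ F, W (L.tm j) = L.st j := by
    intro j hj
    have h1 := hacc0.srt j hj
    have h2 := hsgu (L.tm j) j hj h1 le_rfl
    rw [hW]
    show (if L.tm j = 0 then H.a0 else if L.tm j = L.tm (sg (L.tm j)) then L.st (sg (L.tm j)) else
      _) = _
    rw [h2, if_neg (by omega), if_pos rfl]
  have hWin : ∀ j ≤ F, ∀ u, L.pv j < u → u < L.tm j → W u = V (L.lb j) (L.off j + (u - L.pv j)) := by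
    intro j hj u h1 h2
    have h3 := hsgu u j hj h1 h2.le
    rw [hW]
    show (if u = 0 then H.a0 else if u = L.tm (sg u) then L.st (sg u) else _) = _
    rw [h3, if_neg (by omega), if_neg (by omega)]
  -- inside a segment
  have hWV : ∀ j ≤ F, ∀ u, L.pv j ≤ u → u < L.tm j → W u = V (L.lb j) (L.off j + (u - L.pv j)) := by
    intro j hj u h1 h2
    rcases Nat.lt_or_ge (L.pv j) u with h3 | h3
    · exact hWin j hj u h3 h2
    · have h4 : u = L.pv j := by omega
      subst h4
      have h5 := (hacc _ (hlb j)).fst j hj rfl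
      rw [Nat.sub_self, Nat.add_zero, hV]
      show _ = ((hckN H L (L.lb j) w lim).U (cc (L.lb j)) (L.off j)).a
      rw [h5]
      cases j with
      | zero => exact hW0
      | succ j => exact hWend j (by omega)
  -- the look-ups
  have hlook : ∀ j ≤ F, ∀ t, L.pv j + t < L.tm j → ∀ a',
      NStp H L (L.lb j) w lim (cc (L.lb j)) (L.off j + t) j (L.pv j + t) a' →
      a' = H.step (cg (L.pv j + t)) (W (L.pv j + t))
        (if H.idx (W (L.pv j + t)) ≤ L.pv j + t then W (H.idx (W (L.pv j + t))) else H.e0) := by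
    intro j hj t ht a' hst
    obtain ⟨X, hX, ha'⟩ := hst
    have e1 : ((hckN H L (L.lb j) w lim).U (cc (L.lb j)) (L.off j + t)).a = W (L.pv j + t) := by
      rw [hWV j hj (L.pv j + t) (by omega) ht, hV]
      show _ = ((hckN H L (L.lb j) w lim).U (cc (L.lb j)) (L.off j + (L.pv j + t - L.pv j))).a
      rw [show L.pv j + t - L.pv j = t by omega]
    have e2 : cg (L.pv j + t) = cc (L.lb j) (L.off j + t) := by
      rw [hcg]
      show cc (L.lb (sg (L.pv j + t + 1))) (L.off (sg (L.pv j + t + 1)) +
        (L.pv j + t - L.pv (sg (L.pv j + t + 1)))) = _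
      rw [hsgu (L.pv j + t + 1) j hj (by omega) (by omega),
        show L.pv j + t - L.pv j = t by omega]
    rw [e1] at ha' hX
    rw [ha', e2]
    congr 1
    obtain ⟨τ, hτ⟩ : ∃ τ, τ = H.idx (W (L.pv j + t)) := ⟨_, rfl⟩
    rw [← hτ] at hX ⊢
    unfold lkup at hX
    by_cases c1 : L.pv j + t < τ
    · rw [if_pos c1] at hX
      rw [if_neg (by omega)]
      rcases hX with hX | ⟨m', hX, -⟩
      · cases hX; rfl
      · cases hX
    · rw [if_neg c1] at hX
      rw [if_pos (by omega)]
      by_cases c2 : τ = 0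
      · rw [if_pos c2] at hX
        rw [c2, hW0]
        rcases hX with hX | ⟨m', hX, -⟩
        · cases hX; rfl
        · cases hX
      · rw [if_neg c2] at hX
        by_cases c3 : bsr L.tm τ w 0 ≤ j ∧ L.pv (bsr L.tm τ w 0) < τ ∧ τ ≤ L.tm (bsr L.tm τ w 0)
        · rw [if_pos c3] at hX
          obtain ⟨i, hi⟩ : ∃ i, i = bsr L.tm τ w 0 := ⟨_, rfl⟩
          rw [← hi] at hX c3
          by_cases c4 : τ = L.tm i
          · rw [if_pos c4] at hX
            rw [c4, hWend i (by omega)]
            rcases hX with hX | ⟨m', hX, -⟩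
            · cases hX; rfl
            · cases hX
          · rw [if_neg c4] at hX
            by_cases c5 : L.lb i = L.lb j
            · rw [if_pos c5] at hX
              rcases hX with hX | ⟨m', hX, hXm⟩
              · cases hX
              · have hm : L.off i + (τ - L.pv i) = m' := by injection hX
                have h6 : m' ≤ L.off j + t := by
                  rcases Nat.lt_or_ge i j with h7 | h7
                  · have := (hacc _ (hlb j)).ord i j h7 hj c5 rfl
                    omega
                  · have : i = j := by omega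
                    subst this
                    omega
                rw [hXm, hWin i (by omega) τ c3.2.1 (by omega), c5, hm, hV]
                unfold HMN.rc
                rw [if_pos h6]
            · rw [if_neg c5] at hX
              rcases hX with hX | ⟨m', hX, -⟩ <;> cases hX
        · rw [if_neg c3] at hX
          rcases hX with hX | ⟨m', hX, -⟩ <;> cases hX
  -- the recursion
  have hrec : ∀ u < L.tm F, W (u + 1) = H.step (cg u) (W u)
      (if H.idx (W u) ≤ u then W (H.idx (W u)) else H.e0) := by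
    intro u hu
    obtain ⟨g1, g2, g3⟩ := hsg (u + 1) (by omega) (by omega)
    obtain ⟨j, hj⟩ : ∃ j, j = sg (u + 1) := ⟨_, rfl⟩
    rw [← hj] at g1 g2 g3
    obtain ⟨t, rfl⟩ : ∃ t, u = L.pv j + t := ⟨u - L.pv j, by omega⟩
    apply hlook j g1 t (by omega)
    rcases Nat.lt_or_ge (L.pv j + t + 1) (L.tm j) with h1 | h1
    · have h2 := ((hacc _ (hlb j)).stp j g1 rfl t h1).1
      rw [hWin j g1 _ (by omega) h1, hV]
      show NStp H L (L.lb j) w lim (cc (L.lb j)) (L.off j + t) j (L.pv j + t)
        ((hckN H L (L.lb j) w lim).U (cc (L.lb j)) (L.off j + (L.pv j + t + 1 - L.pv j))).a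
      rw [show L.off j + (L.pv j + t + 1 - L.pv j) = L.off j + t + 1 by omega]
      exact h2
    · have h2 := ((hacc _ (hlb j)).stl j g1 rfl t (by omega)).1
      rw [show L.pv j + t + 1 = L.tm j by omega, hWend j g1]
      exact h2
  have hU := HMN.U_unique (H := H) (c := cg) hW0 hrec
  have hlast := (hacc _ (hlb F)).stl F le_rfl rfl (L.tm F - L.pv F - 1)
    (by have := hacc0.srt F le_rfl; omega)
  refine ⟨cg, L.tm F, F, ⟨fun m hm => ?_, ?_, ?_⟩, hacc0.fin, rfl⟩
  · rw [hU m hm.le]
    rcases Nat.eq_zero_or_pos m with h1 | h1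
    · subst h1
      rw [hW0]
      exact h0
    · obtain ⟨g1, g2, g3⟩ := hsg m h1 hm.le
      obtain ⟨j, hj⟩ : ∃ j, j = sg m := ⟨_, rfl⟩
      rw [← hj] at g1 g2 g3
      rcases Nat.lt_or_ge m (L.tm j) with h2 | h2
      · have h3 := ((hacc _ (hlb j)).stp j g1 rfl (m - L.pv j - 1) (by omega)).2
        rw [hWin j g1 m g2 h2, hV]
        show H.hlt ((hckN H L (L.lb j) w lim).U (cc (L.lb j)) (L.off j + (m - L.pv j))).a = false
        rw [show L.off j + (m - L.pv j) = L.off j + (m - L.pv j - 1) + 1 by omega]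
        exact h3
      · have h3 : m = L.tm j := by omega
        have h4 : j ≠ F := by
          rintro rfl
          omega
        have h5 := ((hacc _ (hlb j)).stl j g1 rfl (m - L.pv j - 1) (by omega)).2.1 (by omega)
        rw [h3, hWend j g1]
        exact h5
  · rw [hU _ le_rfl, hWend F le_rfl]
    exact (hlast.2.2 rfl).1
  · rw [hU _ le_rfl, hWend F le_rfl]
    exact (hlast.2.2 rfl).2

end Pool.Agent.NUM
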