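import Pool.Agent.NUM.HNormSem
import Pool.Agent.NUM.HPack
import Pool.Agent.NUM.CpArith

/-!
# The normaliser: size
-/

set_option autoImplicit false

namespace Pool.Agent.NUM

/-- size bound of one cell of one pass of the normalised program -/
def normCp (s d' : ℕ) : ℕ := 100 * (s + d' + 10) ^ 7

/-- comparison of computed numbers, given by their digits -/
theorem Cp.tbLt {b s t n : ℕ} {A B : Inp → Mem → ℕ} (hA : ∀ z M, A z M < 2 ^ n)
    (hB : ∀ z M, B z M < 2 ^ n) (h : ∀ i < n, Cp b s (fun z M => (A z M).testBit i))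
    (h' : ∀ i < n, Cp b t (fun z M => (B z M).testBit i)) :
    Cp b (n * (n * (2 * s + 2 * t + 100) + 2 * s + 2 * t + 200) + 50)
      (fun z M => decide (A z M < B z M)) := by
  refine (Cp.numLt (g := fun i z M => (A z M).testBit i) (g' := fun i z M => (B z M).testBit i)
    h h').congr (fun z M => ?_)
  rw [num_testBit, num_testBit, Nat.mod_eq_of_lt (hA z M), Nat.mod_eq_of_lt (hB z M)]

/-- equality of computed numbers, given by their digits -/
theorem Cp.tbEq {b s t n : ℕ} {A B : Inp → Mem → ℕ} (hA : ∀ z M, A z M < 2 ^ n)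
    (hB : ∀ z M, B z M < 2 ^ n) (h : ∀ i < n, Cp b s (fun z M => (A z M).testBit i))
    (h' : ∀ i < n, Cp b t (fun z M => (B z M).testBit i)) :
    Cp b (n * (2 * s + 2 * t + 100) + 50) (fun z M => decide (A z M = B z M)) := by
  refine (Cp.numEq₂ (g := fun i z M => (A z M).testBit i) (g' := fun i z M => (B z M).testBit i)
    h h').congr (fun z M => ?_)
  rw [num_testBit, num_testBit, Nat.mod_eq_of_lt (hA z M), Nat.mod_eq_of_lt (hB z M)]

/-- a number with `d` digits, written with more digits -/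
theorem num_pad {d n : ℕ} (hdn : d ≤ n) (g : ℕ → Bool) :
    num n (fun i => bif decide (i < d) then g i else false) = num d g := by
  apply Nat.eq_of_testBit_eq
  intro i
  rw [testBit_num, testBit_num]
  by_cases h : i < d
  · have h2 : i < n := by omega
    simp [h, h2]
  · simp [h]

/-- the digits of a number with `d` digits -/
theorem Cp.tbNum {b s d : ℕ} {g : ℕ → Inp → Mem → Bool} (h : ∀ i < d, Cp b s (g i)) (i : ℕ) :
    Cp b (s + 8) (fun z M => (num d fun j => g j z M).testBit i) := by
  by_cases hi : i < d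
  · refine ((h i hi).congr fun z M => ?_).mono le_rfl (by omega)
    rw [testBit_num]
    simp [hi]
  · refine ((Cp.const b false).congr fun z M => ?_).mono le_rfl (by omega)
    rw [testBit_num]
    simp [hi]

/-- the digits of the successor of a number with `d < n` digits -/
theorem Cp.tbSucc {b s d n : ℕ} {g : ℕ → Inp → Mem → Bool} (h : ∀ i < d, Cp b s (g i))
    (hdn : d ≤ n) (i : ℕ) (hi : i < n) :
    Cp b (n * (s + 58) + 2 * s + 216)
      (fun z M => ((num d fun j => g j z M) + 1).testBit i) := by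
  have h1 := Cp.succBit (b := b) (s := s + 8) (n := n)
    (g := fun j z M => bif decide (j < d) then g j z M else false) (fun j _ => ?_) i hi
  · refine (h1.congr fun z M => ?_).mono le_rfl ?_
    · rw [num_pad hdn fun j => g j z M]
    · have : n * (s + 8 + 50) = n * (s + 58) := rfl
      omega
  · by_cases hjd : j < d
    · refine ((h j hjd).congr fun z M => ?_).mono le_rfl (by omega)
      simp [hjd]
    · refine ((Cp.const b false).congr fun z M => ?_).mono le_rfl (by omega)
      simp [hjd]

/-- the packed state is computable if its components are -/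
theorem Lay.cp_pack {y : Lay} {b N : ℕ} (hN : 8 ≤ N) {P : Inp → Mem → PSt}
    (h1 : Cp b N fun z M => (P z M).halt) (h2 : Cp b N fun z M => (P z M).ans)
    (h3 : Cp b N fun z M => (P z M).fl)
    (h4 : ∀ r < y.W, Cp b N fun z M => (P z M).ix.testBit r)
    (h5 : ∀ r < y.ke, Cp b N fun z M => (P z M).e.testBit r)
    (h6 : ∀ r < y.W, Cp b N fun z M => (P z M).u.testBit r)
    (h7 : ∀ r < y.W, Cp b N fun z M => (P z M).n.testBit r)
    (h8 : ∀ j < y.v, Cp b N fun z M => (P z M).X j) (q : ℕ) :
    Cp b N (fun z M => y.pack (P z M) q) := by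
  have hb : y.base = 2 * y.W + 3 + y.ke + y.W + y.W := rfl
  have ht : y.tot = y.base + y.v := rfl
  by_cases c0 : q = 0
  · refine h1.congr fun z M => ?_
    unfold Lay.pack
    rw [if_pos c0]
  by_cases c1 : q = 1
  · refine h2.congr fun z M => ?_
    unfold Lay.pack
    rw [if_neg c0, if_pos c1]
  by_cases c2 : q < 2 * y.W + 2
  · by_cases c2' : q % 2 = 0
    · refine (h4 ((q - 2) / 2) (by omega)).congr fun z M => ?_
      unfold Lay.pack
      rw [if_neg c0, if_neg c1, if_pos c2, if_pos c2']
    · refine ((Cp.const b false).mono le_rfl hN).congr fun z M => ?_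
      unfold Lay.pack
      rw [if_neg c0, if_neg c1, if_pos c2, if_neg c2']
  by_cases c3 : q = 2 * y.W + 2
  · refine h3.congr fun z M => ?_
    unfold Lay.pack
    rw [if_neg c0, if_neg c1, if_neg c2, if_pos c3]
  by_cases c4 : q < 2 * y.W + 3 + y.ke
  · refine (h5 (q - (2 * y.W + 3)) (by omega)).congr fun z M => ?_
    unfold Lay.pack
    rw [if_neg c0, if_neg c1, if_neg c2, if_neg c3, if_pos c4]
  by_cases c5 : q < 2 * y.W + 3 + y.ke + y.W
  · refine (h6 (q - (2 * y.W + 3 + y.ke)) (by omega)).congr fun z M => ?_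
    unfold Lay.pack
    rw [if_neg c0, if_neg c1, if_neg c2, if_neg c3, if_neg c4, if_pos c5]
  by_cases c6 : q < y.base
  · refine (h7 (q - (2 * y.W + 3 + y.ke + y.W)) (by omega)).congr fun z M => ?_
    unfold Lay.pack
    rw [if_neg c0, if_neg c1, if_neg c2, if_neg c3, if_neg c4, if_neg c5, if_pos c6]
  by_cases c7 : q < y.tot
  · refine (h8 (q - y.base) (by omega)).congr fun z M => ?_
    unfold Lay.pack
    rw [if_neg c0, if_neg c1, if_neg c2, if_neg c3, if_neg c4, if_neg c5, if_neg c6, if_pos c7]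
  · refine ((Cp.const b false).mono le_rfl hN).congr fun z M => ?_
    unfold Lay.pack
    rw [if_neg c0, if_neg c1, if_neg c2, if_neg c3, if_neg c4, if_neg c5, if_neg c6, if_neg c7]

/-- the unpacked state of the even cells -/
theorem Lay.cp_pack_unpack {y : Lay} (q : ℕ) :
    Cp (2 * y.tot) 10 (fun _ M => y.pack (y.unpack (evc M)) q) := by
  have hb : y.base = 2 * y.W + 3 + y.ke + y.W + y.W := rfl
  have ht : y.tot = y.base + y.v := rfl
  have hc : ∀ p < y.tot, Cp (2 * y.tot) 2 (fun _ M => evc M p) := fun p hp =>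
    Cp.cell (show 2 * p < 2 * y.tot by omega)
  refine Lay.cp_pack (P := fun _ M => y.unpack (evc M)) (by norm_num)
    ((hc 0 (by omega)).mono le_rfl (by norm_num)) ((hc 1 (by omega)).mono le_rfl (by norm_num))
    ((hc (2 * y.W + 2) (by omega)).mono le_rfl (by norm_num)) ?_ ?_ ?_ ?_ ?_ q
  · intro r _
    exact Cp.tbNum (g := fun r _ M => evc M (2 * r + 2)) (fun i hi => hc _ (by omega)) r
  · intro r _
    exact Cp.tbNum (g := fun i _ M => evc M (2 * y.W + 3 + i)) (fun i hi => hc _ (by omega)) r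
  · intro r _
    exact Cp.tbNum (g := fun i _ M => evc M (2 * y.W + 3 + y.ke + i))
      (fun i hi => hc _ (by omega)) r
  · intro r _
    exact Cp.tbNum (g := fun i _ M => evc M (2 * y.W + 3 + y.ke + y.W + i))
      (fun i hi => hc _ (by omega)) r
  · intro j hj
    refine ((hc (y.base + j) (by omega)).congr fun z M => ?_).mono le_rfl (by norm_num)
    exact (if_pos hj).symm

theorem nxN_cp {G : List Ins} {s d : ℕ} (hG : HSz s d G) (hs : 3 ≤ s) (d' : ℕ) {q : ℕ}
    (hq : q < (nlay s d').tot) :
    Cp (2 * (nlay s d').tot) (normCp s d') (fun z M =>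
      (nlay s d').pack (nxN G s d z ((nlay s d').unpack (evc M))
        ((nlay s d').unpack (odc M)).X) q) := by
  have _ := hq
  obtain ⟨y, hy⟩ : ∃ y, y = nlay s d' := ⟨_, rfl⟩
  rw [← hy]
  have hW : y.W = d' := by rw [hy]; rfl
  have hke : y.ke = 1 := by rw [hy]; rfl
  have hv : y.v = s := by rw [hy]; rfl
  have hbase : y.base = 2 * y.W + 3 + y.ke + y.W + y.W := rfl
  have htot : y.tot = y.base + y.v := rfl
  obtain ⟨b, hb⟩ : ∃ b, b = 2 * y.tot := ⟨_, rfl⟩
  obtain ⟨K, hK⟩ : ∃ K, K = s + d' + 10 := ⟨_, rfl⟩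
  have hbK : b + 1 ≤ 8 * K := by omega
  have hd := hG.2
  -- the cells
  have hcE : ∀ p < y.tot, Cp b 2 (fun _ M => evc M p) := fun p hp =>
    Cp.cell (show 2 * p < b by omega)
  have hcO : ∀ p < y.tot, Cp b 2 (fun _ M => odc M p) := fun p hp =>
    Cp.cell (show 2 * p + 1 < b by omega)
  have hX : ∀ j < s, Cp b 2 (fun _ M => (y.unpack (evc M)).X j) := fun j hj =>
    (hcE (y.base + j) (by omega)).congr fun z M => (if_pos (by omega)).symm
  have hY : ∀ j < s, Cp b 2 (fun _ M => (y.unpack (odc M)).X j) := fun j hj =>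
    (hcO (y.base + j) (by omega)).congr fun z M => (if_pos (by omega)).symm
  have he : Cp b 2 (fun _ M => decide ((y.unpack (evc M)).e = 1)) := by
    refine (hcE (2 * y.W + 3) (by omega)).congr fun z M => ?_
    have h1 : (y.unpack (evc M)).e = num 1 fun i => evc M (2 * y.W + 3 + i) := by
      unfold Lay.unpack
      rw [hke]
    rw [h1, num_succ]
    have h2 : num 0 (fun i => evc M (2 * y.W + 3 + i)) = 0 := by simp [num]
    rw [h2]
    cases evc M (2 * y.W + 3) <;> simp
  have hfl : Cp b 2 (fun _ M => (y.unpack (evc M)).fl) := hcE (2 * y.W + 2) (by omega)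
  -- the received cells
  have hrec : ∀ j < s, Cp b 82 (fun _ M =>
      nrec (y.unpack (evc M)) (y.unpack (odc M)).X j) := fun j hj =>
    (Cp.ite hfl (Cp.const b false) (Cp.ite he (hX j hj) (hY j hj))).mono le_rfl (by norm_num)
  have hwv : ∀ p < s, Cp b 82 (fun _ M => wv (y.unpack (evc M)).X
      (nrec (y.unpack (evc M)) (y.unpack (odc M)).X) p) := by
    intro p hp
    by_cases hp2 : p % 2 = 0
    · refine ((hX (p / 2) (by omega)).congr fun z M => ?_).mono le_rfl (by norm_num)
      unfold wv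
      rw [if_pos hp2]
    · refine ((hrec (p / 2) (by omega)).congr fun z M => ?_)
      unfold wv
      rw [if_neg hp2]
  -- the new cells
  obtain ⟨A, hA⟩ : ∃ A, A = s + (b + 1) * (82 + 20) + 10 := ⟨_, rfl⟩
  have hAK : A ≤ 818 * K := by
    have : (b + 1) * (82 + 20) ≤ 8 * K * 102 := Nat.mul_le_mul hbK le_rfl
    omega
  have hst : ∀ j < s, Cp b A (fun z M => nstep G s z (y.unpack (evc M)).X
      (nrec (y.unpack (evc M)) (y.unpack (odc M)).X) j) := by
    intro j hj
    by_cases hj2 : 2 * j < s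
    · have h1 := Cp.appTr (b := b) (t := 82) (Tr.pass hG.1) (by omega) (by omega)
        (X := fun _ M => wv (y.unpack (evc M)).X
          (nrec (y.unpack (evc M)) (y.unpack (odc M)).X)) hwv hj2
      refine (h1.congr fun z M => ?_).mono le_rfl (by omega)
      unfold nstep
      rw [if_pos hj]
    · refine ((hX j hj).congr fun z M => ?_).mono le_rfl (by omega)
      unfold nstep
      rw [if_pos hj, eval_ge hG.1.2 (by omega)]
      unfold wv
      rw [if_pos (by omega)]
      congr 1
      omega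
  -- the numbers
  obtain ⟨n, hn⟩ : ∃ n, n = max (d' + 1) d := ⟨_, rfl⟩
  have hn1 : d' + 1 ≤ n := by rw [hn]; exact le_max_left _ _
  have hn2 : d ≤ n := by rw [hn]; exact le_max_right _ _
  have hnK : n ≤ K := by
    rw [hn]
    exact max_le (by omega) (by omega)
  set N1 : Inp → Mem → ℕ := fun z M => nptr d (nstep G s z (y.unpack (evc M)).X
      (nrec (y.unpack (evc M)) (y.unpack (odc M)).X)) with hN1
  set N2 : Inp → Mem → ℕ := fun _ M => (y.unpack (evc M)).u + 1 with hN2
  have hN1lt : ∀ z M, N1 z M < 2 ^ n := fun z M =>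
    lt_of_lt_of_le (num_lt _ _) (Nat.pow_le_pow_right (by norm_num) hn2)
  have hN2lt : ∀ z M, N2 z M < 2 ^ n := by
    intro z M
    have h1 : (y.unpack (evc M)).u < 2 ^ y.W := num_lt _ _
    have h2 : 2 ^ (d' + 1) ≤ 2 ^ n := Nat.pow_le_pow_right (by norm_num) hn1
    have h3 : 1 ≤ 2 ^ d' := Nat.one_le_two_pow
    have h4 : 2 ^ (d' + 1) = 2 * 2 ^ d' := by rw [pow_succ]; ring
    rw [hW] at h1
    show (y.unpack (evc M)).u + 1 < 2 ^ n
    omega
  have hN1b : ∀ i < n, Cp b (A + 8) (fun z M => (N1 z M).testBit i) := fun i _ =>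
    Cp.tbNum (g := fun r z M => nstep G s z (y.unpack (evc M)).X
      (nrec (y.unpack (evc M)) (y.unpack (odc M)).X) (2 * r + 2))
      (fun r hr => hst _ (by omega)) i
  obtain ⟨B, hB⟩ : ∃ B, B = 60 * n + 220 := ⟨_, rfl⟩
  have hN2b : ∀ i < n, Cp b B (fun z M => (N2 z M).testBit i) := by
    intro i hi
    have h1 := Cp.tbSucc (b := b) (s := 2) (d := y.W) (n := n)
      (g := fun i _ M => evc M (2 * y.W + 3 + y.ke + i)) (fun i hi => hcE _ (by omega))
      (by omega) i hi
    exact h1.mono le_rfl (by omega)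
  have hBK : B ≤ 90 * K := by omega
  obtain ⟨C, hC⟩ : ∃ C, C = n * (n * (2 * (A + 8) + 2 * B + 100) + 2 * (A + 8) + 2 * B + 200) +
    50 := ⟨_, rfl⟩
  have hlt1 : Cp b C (fun z M => decide (N1 z M < N2 z M)) := by
    rw [hC]; exact Cp.tbLt hN1lt hN2lt hN1b hN2b
  have hlt2 : Cp b C (fun z M => decide (N2 z M < N1 z M)) := by
    refine (Cp.tbLt hN2lt hN1lt hN2b hN1b).mono le_rfl (le_of_eq ?_)
    rw [hC]; ring
  have heq : Cp b C (fun z M => decide (N1 z M = N2 z M)) := by
    refine (Cp.tbEq hN1lt hN2lt hN1b hN2b).mono le_rfl ?_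
    rw [hC]
    rcases Nat.eq_zero_or_pos n with h0 | h0
    · omega
    · have h1 : n * (2 * (A + 8) + 2 * B + 100) ≤
          n * (n * (2 * (A + 8) + 2 * B + 100) + 2 * (A + 8) + 2 * B + 200) := by
        refine Nat.mul_le_mul_left _ ?_
        have := Nat.le_mul_of_pos_left (2 * (A + 8) + 2 * B + 100) h0
        omega
      omega
  -- size of the comparison
  have hK10 : 10 ≤ K := by omega
  have hCK : C ≤ 2100 * K ^ 3 := by
    have e1 : 2 * (A + 8) + 2 * B + 100 ≤ 1830 * K := by omega
    have e2 : 2 * (A + 8) + 2 * B + 200 ≤ 1840 * K := by omega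
    have e3 : n * (2 * (A + 8) + 2 * B + 100) ≤ K * (1830 * K) := Nat.mul_le_mul hnK e1
    have e4 : n * (n * (2 * (A + 8) + 2 * B + 100) + 2 * (A + 8) + 2 * B + 200) ≤
        K * (K * (1830 * K) + 1840 * K) := Nat.mul_le_mul hnK (by omega)
    have e5 : C ≤ K * (K * (1830 * K) + 1840 * K) + 50 := by omega
    refine e5.trans ?_
    have f1 : K * K ≤ K * K * K / 10 := by
      rw [Nat.le_div_iff_mul_le (by norm_num)]
      exact Nat.mul_le_mul_left _ hK10
    have f2 : K * (K * (1830 * K) + 1840 * K) = 1830 * (K * K * K) + 1840 * (K * K) := by ring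
    have f3 : K ^ 3 = K * K * K := by ring
    have f4 : 1000 ≤ K * K * K := by
      calc 1000 = 10 * 10 * 10 := by norm_num
        _ ≤ K * K * K := Nat.mul_le_mul (Nat.mul_le_mul hK10 hK10) hK10
    rw [f2, f3]
    omega
  -- the new state
  obtain ⟨D, hD⟩ : ∃ D, D = 2 * C + (A + 8) + 8 + 31 + B := ⟨_, rfl⟩
  have hnew : Cp b D (fun z M => y.pack (nmk d (N2 z M) (nstep G s z (y.unpack (evc M)).X
      (nrec (y.unpack (evc M)) (y.unpack (odc M)).X))) q) := by
    refine Lay.cp_pack (by omega) ?_ ?_ ?_ ?_ ?_ ?_ ?_ ?_ q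
    · exact (hst 0 (by omega)).mono le_rfl (by omega)
    · exact (hst 1 (by omega)).mono le_rfl (by omega)
    · exact hlt2.mono le_rfl (by omega)
    · intro r hr
      refine ((Cp.ite hlt1 (hN1b r (by omega)) (Cp.const b false)).congr fun z M => ?_).mono
        le_rfl (by omega)
      show (bif decide (N1 z M < N2 z M) then (N1 z M).testBit r else false) =
        (if N1 z M < N2 z M then N1 z M else 0).testBit r
      by_cases h : N1 z M < N2 z M
      · rw [if_pos h, decide_eq_true h, cond_true]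
      · rw [if_neg h, decide_eq_false h, cond_false, Nat.zero_testBit]
    · intro r hr
      obtain rfl : r = 0 := by omega
      refine (heq.congr fun z M => ?_).mono le_rfl (by omega)
      show decide (N1 z M = N2 z M) = (if N1 z M = N2 z M then 1 else 0).testBit 0
      by_cases h : N1 z M = N2 z M
      · rw [if_pos h, decide_eq_true h]
        rfl
      · rw [if_neg h, decide_eq_false h]
        rfl
    · intro r hr
      exact (hN2b r (by omega)).mono le_rfl (by omega)
    · intro r _
      refine ((Cp.const b false).congr fun z M => ?_).mono le_rfl (by omega)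
      exact (Nat.zero_testBit r).symm
    · intro j hj
      exact (hst j (by omega)).mono le_rfl (by omega)
  have hold : Cp b 10 (fun _ M => y.pack (y.unpack (evc M)) q) := by
    rw [hb]; exact Lay.cp_pack_unpack q
  rw [← hb]
  refine ((Cp.ite (hcE 0 (by omega)) hold hnew).congr fun z M => ?_).mono le_rfl ?_
  · unfold nxN
    by_cases h : (y.unpack (evc M)).halt = true
    · rw [if_pos h]
      have h' : evc M 0 = true := h
      rw [h', cond_true]
    · rw [if_neg h]
      have h' : evc M 0 = false := (Bool.not_eq_true _).mp h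
      rw [h', cond_false]
  · have e1 : 2 * 2 + 10 + D + 31 ≤ 4200 * K ^ 3 + 1000 * K := by
      rw [hD]; omega
    refine e1.trans ?_
    unfold normCp
    rw [← hK]
    have f4 : K ≤ K ^ 3 / 100 := by
      rw [Nat.le_div_iff_mul_le (by norm_num)]
      have : K ^ 3 = K * (K * K) := by ring
      rw [this]
      exact Nat.mul_le_mul_left _ (by nlinarith)
    have f5 : 5000 * K ^ 3 ≤ 100 * K ^ 7 := by
      have : K ^ 7 = K ^ 3 * K ^ 4 := by ring
      have h4 : 10 ^ 4 ≤ K ^ 4 := Nat.pow_le_pow_left hK10 4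
      have h5 : K ^ 3 * 10 ^ 4 ≤ K ^ 3 * K ^ 4 := Nat.mul_le_mul_left _ h4
      rw [this]
      omega
    omega

end Pool.Agent.NUM
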