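import Pool.Agent.NUM.HPackDef

/-!
# The normaliser: definitions
-/

set_option autoImplicit false

namespace Pool.Agent.NUM

/-- the memory with even cells `X` and odd cells `S` -/
def wv (X S : ℕ → Bool) : Mem := fun q => if q % 2 = 0 then X (q / 2) else S (q / 2)

/-- the even cells after a pass, from the even cells and the received cells -/
def nstep (G : List Ins) (s : ℕ) (z : Inp) (X S : ℕ → Bool) : ℕ → Bool := fun j =>
  if j < s then eval G z (wv X S) (2 * j) else false

/-- the received cells: flag `fl` = nothing, `e = 1` = the present state, otherwise the recalled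
state -/
def nrec (p : PSt) (Y : ℕ → Bool) : ℕ → Bool := fun j =>
  bif p.fl then false else bif decide (p.e = 1) then p.X j else Y j

/-- the pointer of a state given by its even cells -/
def nptr (d : ℕ) (X : ℕ → Bool) : ℕ := num d fun r => X (2 * r + 2)

/-- the new state if the machine has not halted: `X` are the new even cells, `m` its number -/
def nmk (d m : ℕ) (X : ℕ → Bool) : PSt where
  halt := X 0
  ans := X 1
  fl := decide (m < nptr d X)
  ix := if nptr d X < m then nptr d X else 0
  e := if nptr d X = m then 1 else 0
  u := m
  n := 0
  X := X

/-- one pass of the normalised program -/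
def nxN (G : List Ins) (s d : ℕ) (z : Inp) (p : PSt) (Y : ℕ → Bool) : PSt :=
  if p.halt = true then p else nmk d (p.u + 1) (nstep G s z p.X (nrec p Y))

end Pool.Agent.NUM
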