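import Pool.Agent.NUM.HNormDef

/-!
# The normaliser: semantics
-/

set_option autoImplicit false

namespace Pool.Agent.NUM

/-- the even cells below `2 s`, as a bit vector -/
def evs (s : ℕ) (V : Mem) : ℕ → Bool := fun j => if j < s then V (2 * j) else false

theorem evs_zeroMem (s : ℕ) : evs s zeroMem = fun _ => false := by
  funext j
  unfold evs zeroMem
  split_ifs <;> rfl

theorem wv_agr {s : ℕ} {V W : Mem} {S : ℕ → Bool} (hS : ∀ j < s, S j = W (2 * j)) :
    Agr s (wv (evs s V) S) (mrg V W) := by
  intro q hq
  unfold wv mrg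
  by_cases hq2 : q % 2 = 0
  · rw [if_pos hq2, if_pos hq2]
    unfold evs
    rw [if_pos (by omega)]
    congr 1
    omega
  · rw [if_neg hq2, if_neg hq2, hS _ (by omega)]
    congr 1
    omega

theorem nstep_eq {G : List Ins} {s : ℕ} (hG : Sz s G) (z : Inp) {V W : Mem} {S : ℕ → Bool}
    (hS : ∀ j < s, S j = W (2 * j)) :
    nstep G s z (evs s V) S = evs s (eval G z (mrg V W)) := by
  funext j
  unfold nstep
  show _ = (if j < s then eval G z (mrg V W) (2 * j) else false)
  by_cases hj : j < s
  · rw [if_pos hj, if_pos hj]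
    by_cases hj2 : 2 * j < s
    · exact eval_agr hG.2 (wv_agr hS) _ hj2
    · rw [eval_ge hG.2 (by omega), eval_ge hG.2 (by omega)]
      have h2 : 2 * j / 2 = j := by omega
      have h3 : 2 * j % 2 = 0 := by omega
      unfold wv mrg evs
      rw [if_pos h3, if_pos h3, h2, if_pos hj]
  · rw [if_neg hj, if_neg hj]

theorem nptr_evs {s d : ℕ} (hd : 4 * d < s) (V : Mem) : nptr d (evs s V) = ptr d V := by
  unfold nptr num ptr
  refine Finset.sum_congr rfl fun r hr => ?_
  rw [Finset.mem_range] at hr
  have h1 : evs s V (2 * r + 2) = V (4 * r + 4) := by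
    unfold evs
    rw [if_pos (by omega)]
    congr 1
    omega
  simp only [h1]

/-- the run of the normalised program -/
theorem nxN_run {G : List Ins} {s d : ℕ} (hG : HSz s d G) (hs : 3 ≤ s) (z : Inp)
    {p : ℕ → PSt} {T : ℕ} (hp : IsRun (nxN G s d z) p T) : ∀ t ≤ T,
    (p t).e ≤ 1 ∧ (p t).n = 0 ∧ (p t).u ≤ t ∧ (∀ j, s ≤ j → (p t).X j = false) ∧
    (1 ≤ t → (p t).ix < t) ∧ (t = 0 → (p t).ix = 0) ∧
    ((∀ t' < t, sta (eval G z) d t' 0 = false) →
      (p t).halt = sta (eval G z) d t 0 ∧ (p t).ans = sta (eval G z) d t 2 ∧ (p t).u = t ∧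
      (p t).X = evs s (sta (eval G z) d t) ∧
      ∀ j < s, nrec (p t) (if (p t).ix ≤ t then (p (p t).ix).X else fun _ => false) j =
        rcv (eval G z) d t (rcl (eval G z) d t) (2 * j)) ∧
    (∀ N < t, HaltsAt (eval G z) d N → (p t).halt = true ∧
      (p t).ans = sta (eval G z) d N 2) := by
  obtain ⟨hp0, hps⟩ := hp
  intro t
  induction t using Nat.strong_induction_on with
  | _ t ih =>
    intro ht
    cases t with
    | zero =>
      have h1 : rcl (eval G z) d 0 = 0 := ptr_zeroMem _
      rw [hp0]
      refine ⟨Nat.zero_le _, rfl, le_rfl, fun _ _ => rfl, fun h => absurd h (by omega),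
        fun _ => rfl, fun _ => ⟨rfl, rfl, rfl, (evs_zeroMem s).symm, fun j _ => ?_⟩,
        fun N hN => absurd hN (by omega)⟩
      rw [h1, rcv_of_le le_rfl, sta_zero]
      show nrec PSt.init (if 0 ≤ 0 then (p 0).X else fun _ => false) j = false
      rw [if_pos le_rfl, hp0]
      rfl
    | succ t =>
      obtain ⟨i1, i2, i3, i4, i5, i5', i6, i7⟩ := ih t (by omega) (by omega)
      have hstep := hps t (by omega)
      by_cases hh : (p t).halt = true
      · -- frozen
        have hpt : p (t + 1) = p t := by
          rw [hstep]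
          unfold nxN
          rw [if_pos hh]
        rw [hpt]
        refine ⟨i1, i2, by omega, i4, fun _ => ?_, fun h => absurd h (by omega), fun h => ?_,
          fun N hN hH => ?_⟩
        · rcases Nat.eq_zero_or_pos t with h0 | h0
          · rw [i5' h0]; omega
          · have := i5 h0; omega
        · exfalso
          obtain ⟨h1, -⟩ := i6 fun t' ht' => h t' (by omega)
          rw [hh, h t (by omega)] at h1
          exact absurd h1 (by decide)
        · rcases Nat.lt_or_ge N t with h1 | h1
          · exact i7 N h1 hH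
          · obtain rfl : N = t := by omega
            obtain ⟨h2, h3, -⟩ := i6 hH.2
            exact ⟨hh, h3⟩
      · -- not halted
        have hh' : (p t).halt = false := by simpa using hh
        have hno : ∀ t' < t, sta (eval G z) d t' 0 = false := by
          by_contra hcon
          push Not at hcon
          obtain ⟨t', ht', h0⟩ := hcon
          have h0' : sta (eval G z) d t' 0 = true := by simpa using h0
          obtain ⟨N, hN, hH⟩ := exists_haltsAt h0'
          have := (i7 N (by omega) hH).1
          rw [hh'] at this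
          exact absurd this (by decide)
        obtain ⟨j1, j2, j3, j4, j5⟩ := i6 hno
        have hX : nstep G s z (p t).X
            (nrec (p t) (if (p t).ix ≤ t then (p (p t).ix).X else fun _ => false)) =
            evs s (sta (eval G z) d (t + 1)) := by
          rw [j4, sta_succ']
          exact nstep_eq hG.1 z j5
        have hpt : p (t + 1) = nmk d (t + 1) (evs s (sta (eval G z) d (t + 1))) := by
          rw [hstep]
          unfold nxN
          rw [if_neg hh, j3, hX]
        have hptr : nptr d (evs s (sta (eval G z) d (t + 1))) = rcl (eval G z) d (t + 1) :=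
          nptr_evs hG.2 _
        have hlt0 : ∀ q, q ≤ 1 → evs s (sta (eval G z) d (t + 1)) q =
            sta (eval G z) d (t + 1) (2 * q) := fun q hq => by
          unfold evs
          rw [if_pos (by omega)]
        have f1 : (p (t + 1)).halt = sta (eval G z) d (t + 1) 0 := by
          rw [hpt]; exact hlt0 0 (by omega)
        have f2 : (p (t + 1)).ans = sta (eval G z) d (t + 1) 2 := by
          rw [hpt]; exact hlt0 1 (by omega)
        have f3 : (p (t + 1)).u = t + 1 := by rw [hpt]; rfl
        have f4 : (p (t + 1)).X = evs s (sta (eval G z) d (t + 1)) := by rw [hpt]; rfl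
        have f5 : (p (t + 1)).ix =
            if rcl (eval G z) d (t + 1) < t + 1 then rcl (eval G z) d (t + 1) else 0 := by
          rw [hpt, ← hptr]; rfl
        have f6 : (p (t + 1)).e = if rcl (eval G z) d (t + 1) = t + 1 then 1 else 0 := by
          rw [hpt, ← hptr]; rfl
        have f7 : (p (t + 1)).fl = decide (t + 1 < rcl (eval G z) d (t + 1)) := by
          rw [hpt, ← hptr]; rfl
        have f8 : (p (t + 1)).n = 0 := by rw [hpt]; rfl
        have hix : (p (t + 1)).ix < t + 1 := by
          rw [f5]
          split_ifs with h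
          · exact h
          · omega
        refine ⟨by rw [f6]; split_ifs <;> omega, f8, f3.le, fun j hj => ?_, fun _ => hix,
          fun h => absurd h (by omega), fun hno' => ⟨f1, f2, f3, f4, fun j hj => ?_⟩,
          fun N hN hH => ?_⟩
        · rw [f4]
          unfold evs
          rw [if_neg (by omega)]
        · unfold nrec
          rw [f7, f6, f4]
          rcases Nat.lt_trichotomy (rcl (eval G z) d (t + 1)) (t + 1) with h | h | h
          · rw [rcv_of_le h.le]
            have e1 : (p (t + 1)).ix = rcl (eval G z) d (t + 1) := by rw [f5, if_pos h]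
            rw [e1, if_pos h.le]
            have h5 := (ih _ h (by omega)).2.2.2.2.2.2.1 fun t' ht' => hno' t' (by omega)
            rw [h5.2.2.2.1]
            have g1 : decide (t + 1 < rcl (eval G z) d (t + 1)) = false :=
              decide_eq_false (by omega)
            rw [g1, if_neg (by omega)]
            show evs s (sta (eval G z) d (rcl (eval G z) d (t + 1))) j = _
            unfold evs
            rw [if_pos hj]
          · rw [rcv_of_le h.le, h]
            have g1 : decide (t + 1 < t + 1) = false := decide_eq_false (by omega)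
            rw [g1, if_pos rfl]
            show evs s (sta (eval G z) d (t + 1)) j = _
            unfold evs
            rw [if_pos hj]
          · rw [rcv_of_lt h]
            have g1 : decide (t + 1 < rcl (eval G z) d (t + 1)) = true := decide_eq_true h
            rw [g1]
            rfl
        · exfalso
          rcases Nat.lt_or_ge N t with h1 | h1
          · have := hno N h1
            rw [hH.1] at this
            exact absurd this (by decide)
          · obtain rfl : N = t := by omega
            rw [hH.1, hh'] at j1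
            exact absurd j1 (by decide)

/-- the layout of the normalised program -/
def nlay (s d' : ℕ) : Lay := ⟨d', 1, s⟩

theorem nxN_ok {G : List Ins} {s d d' : ℕ} (hG : HSz s d G) (hs : 3 ≤ s) (z : Inp)
    {p : ℕ → PSt} (hp : IsRun (nxN G s d z) p (2 ^ d')) : ∀ t < 2 ^ d', (nlay s d').Ok (p t) := by
  intro t ht
  obtain ⟨i1, i2, i3, i4, i5, i5', -⟩ := nxN_run hG hs z hp t ht.le
  have h0 : 0 < 2 ^ d' := Nat.two_pow_pos d'
  refine ⟨?_, ?_, ?_, ?_, i4⟩
  · show (p t).ix < 2 ^ d'
    rcases Nat.eq_zero_or_pos t with h | h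
    · rw [i5' h]; exact h0
    · have := i5 h; omega
  · show (p t).e < 2 ^ 1
    omega
  · show (p t).u < 2 ^ d'
    omega
  · show (p t).n < 2 ^ d'
    rw [i2]; exact h0

theorem nxN_acc {G : List Ins} {s d d' : ℕ} (hG : HSz s d G) (hs : 3 ≤ s) (z : Inp)
    {p : ℕ → PSt} (hp : IsRun (nxN G s d z) p (2 ^ d')) :
    ((p (2 ^ d')).halt = true ∧ (p (2 ^ d')).ans = true) ↔ HAns (eval G z) d (2 ^ d') true := by
  obtain ⟨-, -, -, -, -, -, i6, i7⟩ := nxN_run hG hs z hp _ le_rfl
  constructor
  · rintro ⟨h1, h2⟩
    by_cases hno : ∀ t' < 2 ^ d', sta (eval G z) d t' 0 = false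
    · obtain ⟨j1, j2, -⟩ := i6 hno
      exact ⟨2 ^ d', le_rfl, ⟨j1 ▸ h1, hno⟩, j2 ▸ h2⟩
    · push Not at hno
      obtain ⟨t', ht', h0⟩ := hno
      have h0' : sta (eval G z) d t' 0 = true := by simpa using h0
      obtain ⟨N, hN, hH⟩ := exists_haltsAt h0'
      exact ⟨N, by omega, hH, ((i7 N (by omega) hH).2).symm.trans h2⟩
  · rintro ⟨N, hN, hH, h2⟩
    rcases Nat.lt_or_ge N (2 ^ d') with h | h
    · obtain ⟨j1, j2⟩ := i7 N h hH
      exact ⟨j1, j2.trans h2⟩
    · obtain rfl : N = 2 ^ d' := by omega
      obtain ⟨j1, j2, -⟩ := i6 hH.2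
      exact ⟨j1.trans hH.1, j2.trans h2⟩

end Pool.Agent.NUM
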