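import Pool.Agent.NUM.HBasic
import Pool.Agent.NUM.Trans
import Pool.Agent.NUM.CpList

/-!
# Packed machines

A state of an abstract machine (three flags, four numbers, a bit vector) is written into the even
cells of the memory: cell `2 q` is bit `q` of `pack`. The odd cells contain the recalled state.
-/

set_option autoImplicit false

namespace Pool.Agent.NUM

/-- states of the packed machines: halted, answer, a flag, the number of the state to be recalled,
three more numbers, a bit vector -/
structure PSt where
  halt : Bool
  ans : Bool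
  fl : Bool
  ix : ℕ
  e : ℕ
  u : ℕ
  n : ℕ
  X : ℕ → Bool

/-- the initial state -/
def PSt.init : PSt := ⟨false, false, false, 0, 0, 0, 0, fun _ => false⟩

/-- layout: `W` digits for `ix`, `u`, `n`, `ke` digits for `e`, `v` bits for `X` -/
structure Lay where
  W : ℕ
  ke : ℕ
  v : ℕ

namespace Lay

variable (y : Lay)

/-- the first bit of `X` -/
def base : ℕ := 2 * y.W + 3 + y.ke + y.W + y.W

/-- number of bits of a packed state -/
def tot : ℕ := y.base + y.v

/-- the bits of a state -/
def pack (s : PSt) : ℕ → Bool := fun q =>
  if q = 0 then s.halt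
  else if q = 1 then s.ans
  else if q < 2 * y.W + 2 then (if q % 2 = 0 then s.ix.testBit ((q - 2) / 2) else false)
  else if q = 2 * y.W + 2 then s.fl
  else if q < 2 * y.W + 3 + y.ke then s.e.testBit (q - (2 * y.W + 3))
  else if q < 2 * y.W + 3 + y.ke + y.W then s.u.testBit (q - (2 * y.W + 3 + y.ke))
  else if q < y.base then s.n.testBit (q - (2 * y.W + 3 + y.ke + y.W))
  else if q < y.tot then s.X (q - y.base)
  else false

/-- the state with given bits -/
def unpack (V : ℕ → Bool) : PSt where
  halt := V 0
  ans := V 1
  fl := V (2 * y.W + 2)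
  ix := num y.W fun r => V (2 * r + 2)
  e := num y.ke fun i => V (2 * y.W + 3 + i)
  u := num y.W fun i => V (2 * y.W + 3 + y.ke + i)
  n := num y.W fun i => V (2 * y.W + 3 + y.ke + y.W + i)
  X := fun j => if j < y.v then V (y.base + j) else false

/-- the state fits into the layout -/
structure Ok (s : PSt) : Prop where
  ix : s.ix < 2 ^ y.W
  e : s.e < 2 ^ y.ke
  u : s.u < 2 ^ y.W
  n : s.n < 2 ^ y.W
  X : ∀ j, y.v ≤ j → s.X j = false

end Lay

/-- the even cells -/
def evc (M : Mem) : ℕ → Bool := fun q => M (2 * q)

/-- the odd cells -/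
def odc (M : Mem) : ℕ → Bool := fun q => M (2 * q + 1)

/-- `s` is the computation of the step function `nx` (first argument: state, second argument: the bit
vector of the recalled state) during the passes `1, …, T` -/
def IsRun (nx : PSt → (ℕ → Bool) → PSt) (s : ℕ → PSt) (T : ℕ) : Prop :=
  s 0 = PSt.init ∧ ∀ t < T, s (t + 1) =
    nx (s t) (if (s t).ix ≤ t then (s (s t).ix).X else fun _ => false)

/-- the run of a step function -/
def prun (nx : PSt → (ℕ → Bool) → PSt) : ℕ → ℕ → PSt
  | 0 => fun _ => PSt.init
  | t + 1 => Function.update (prun nx t) (t + 1)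
      (nx (prun nx t t) (if (prun nx t t).ix ≤ t then (prun nx t (prun nx t t).ix).X
        else fun _ => false))

end Pool.Agent.NUM
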