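import Pool.Agent.NUM.Blk

/-!
# Block calculus: asks at computed addresses, local maps (first part)
-/

namespace Pool.Agent.NUM

theorem Loc.mono {l t l' t' : ℕ} {φ : Inp → Inp} (h : Loc l t φ) (hl : l' ≤ l) (ht : t ≤ t') :
    Loc l' t' φ := fun k hk j => (h k (hk.trans hl) j).mono le_rfl ht

theorem Loc.id (l : ℕ) : Loc l (l + 1) (fun z => z) := by
  intro k hk j
  refine ⟨fun z M M' hM => ?_, fun c hc o ho => ?_⟩
  · show z (word M j k) = z (word M' j k)
    rw [word_congr hM le_rfl]
  · refine ⟨[Ins.ask o j k], Fit.ask (by omega) (by omega) (by omega) (by omega), ?_⟩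
    intro z M
    simp only [eval_cons, eval_nil, Ins.exec]
    exact ⟨by simp, fun q _ hqo => Function.update_of_ne hqo _ _⟩

/-- the values `g 0, …, g (n - 1)` are written into the cells `c, …, c + n - 1` -/
theorem Cp.store {b s K : ℕ} {g : ℕ → Inp → Mem → Bool} (hg : ∀ i < K, Cp b s (g i)) (c : ℕ)
    (hc : b ≤ c) : ∀ n, n ≤ K → ∃ C : List Ins, C.length ≤ n * s ∧
      (∀ i ∈ C, i.top ≤ c + K + s ∧ i.len ≤ s) ∧
      ∀ z M, (∀ i < n, eval C z M (c + i) = g i z M) ∧
        ∀ q, q < c + K → ¬ (c ≤ q ∧ q < c + n) → eval C z M q = M q := by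
  intro n
  induction n with
  | zero =>
    intro _
    exact ⟨[], by simp, by simp, fun z M => ⟨by simp, fun q _ _ => rfl⟩⟩
  | succ n ih =>
    intro hn
    obtain ⟨C, hC1, hC2, hC3⟩ := ih (by omega)
    obtain ⟨D, hD, hD'⟩ := (hg n (by omega)).code' (c + K) (by omega) (c + n) (by omega)
    refine ⟨C ++ D, ?_, ?_, ?_⟩
    · rw [List.length_append, Nat.succ_mul]
      have := hD.1
      omega
    · intro i hi
      rcases List.mem_append.1 hi with hi | hi
      · exact hC2 i hi
      · exact hD.2 i hi
    · intro z M
      obtain ⟨h1, h2⟩ := hC3 z M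
      have hagr : Agr b (eval C z M) M := fun q hq => h2 q (by omega) (by omega)
      obtain ⟨h3, h4⟩ := hD' z (eval C z M) M hagr
      refine ⟨?_, ?_⟩
      · intro i hi
        rw [eval_append]
        by_cases hin : i = n
        · subst hin; exact h3
        · rw [h4 _ (by omega) (by omega)]
          exact h1 i (by omega)
      · intro q hq hq'
        rw [eval_append, h4 q hq (by omega)]
        exact h2 q hq (by omega)

/-- a bit of `φ z` at a computed address -/
theorem Cp.app {b s k l t : ℕ} {g : ℕ → Inp → Mem → Bool} (hg : ∀ i < k, Cp b s (g i))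
    {φ : Inp → Inp} (hφ : Loc l t φ) (hk : k ≤ l) :
    Cp b (k * (s + 1) + t + k) (fun z M => φ z ((List.range k).map fun i => g i z M)) := by
  refine ⟨fun z M M' hM => ?_, fun c hc o ho => ?_⟩
  · show φ z ((List.range k).map fun i => g i z M) = φ z ((List.range k).map fun i => g i z M')
    congr 1
    apply List.map_congr_left
    intro i hi
    exact (hg i (List.mem_range.1 hi)).dep z M M' hM
  · obtain ⟨C, hC1, hC2, hC3⟩ := Cp.store hg c hc k le_rfl
    obtain ⟨D, hD, hD'⟩ := (hφ k hk c).code (c + k) le_rfl o (by omega)
    refine ⟨C ++ D, ⟨?_, ?_⟩, ?_⟩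
    · rw [List.length_append]
      have := hD.1
      have : k * (s + 1) = k * s + k := by ring
      omega
    · intro i hi
      rcases List.mem_append.1 hi with hi | hi
      · have h5 := hC2 i hi
        have hk0 : 1 ≤ k := by
          by_contra h0
          have : k = 0 := by omega
          subst this
          have : C = [] := by
            apply List.eq_nil_of_length_eq_zero
            omega
          rw [this] at hi
          simp at hi
        have h6 : s + 1 ≤ k * (s + 1) := Nat.le_mul_of_pos_left _ hk0
        constructor
        · have := h5.1; omega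
        · have := h5.2; omega
      · have h5 := hD.2 i hi
        constructor
        · have := h5.1; omega
        · have := h5.2; omega
    · intro z M
      obtain ⟨h1, h2⟩ := hC3 z M
      obtain ⟨h3, h4⟩ := hD' z (eval C z M)
      rw [eval_append]
      refine ⟨?_, ?_⟩
      · rw [h3]
        congr 1
        unfold word
        apply List.map_congr_left
        intro i hi
        exact h1 i (List.mem_range.1 hi)
      · intro q hq hqo
        rw [h4 q (by omega) hqo]
        exact h2 q (by omega) (by omega)

/-- the input at a computed address -/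
theorem Cp.ask {b s k : ℕ} {g : ℕ → Inp → Mem → Bool} (hg : ∀ i < k, Cp b s (g i)) :
    Cp b (k * (s + 1) + 2 * k + 1) (fun z M => z ((List.range k).map fun i => g i z M)) :=
  (Cp.app hg (Loc.id k) le_rfl).mono le_rfl (by omega)

theorem map_getD_range (a : List Bool) :
    (List.range a.length).map (fun i => a.getD i false) = a := by
  apply List.ext_getElem
  · simp
  · intro i h1 h2
    simp [List.getElem?_eq_getElem h2]

/-- the input at a fixed address -/
theorem Cp.askConst (b : ℕ) (a : List Bool) :
    Cp b (12 * a.length + 1) (fun z _ => z a) := by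
  have h := Cp.ask (b := b) (s := 8) (k := a.length) (g := fun i _ _ => a.getD i false)
    (fun i _ => Cp.const b _)
  refine (h.congr fun z M => ?_).mono le_rfl (by omega)
  simp only [map_getD_range]

/-- concatenation of a computed prefix and a word of the memory -/
theorem Cp.appPref {l s t r : ℕ} {φ : Inp → Inp} {g : ℕ → Inp → Bool}
    (hg : ∀ i < r, Cp 0 s (fun z _ => g i z)) (hφ : Loc (l + r) t φ) :
    Loc l ((l + r) * (s + 3) + t + (l + r))
      (fun z a => φ z ((List.range r).map (fun i => g i z) ++ a)) := by
  intro k hk j
  have h := Cp.app (b := j + k) (s := s + 2) (k := r + k) (l := l + r) (t := t) (φ := φ)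
    (g := fun i z M => if i < r then g i z else M (j + (i - r))) ?_ hφ (by omega)
  · refine (h.congr fun z M => ?_).mono le_rfl ?_
    · show φ z _ = φ z _
      congr 1
      apply List.ext_getElem
      · simp [word]
      · intro i h1 h2
        simp only [List.length_map, List.length_range] at h1
        simp only [List.getElem_map, List.getElem_range]
        by_cases hir : i < r
        · rw [if_pos hir, List.getElem_append_left (by simpa using hir)]
          simp
        · rw [if_neg hir, List.getElem_append_right (by simpa using hir)]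
          simp [word]
    · have h1 : (r + k) * (s + 2 + 1) ≤ (l + r) * (s + 3) := Nat.mul_le_mul (by omega) (by omega)
      omega
  · intro i hi
    by_cases hir : i < r
    · simp only [hir, if_true]
      exact (hg i hir).mono (Nat.zero_le _) (by omega)
    · simp only [hir, if_false]
      exact (Cp.cell (by omega)).mono le_rfl (by omega)

/-- computed prefix: `z ↦ (a ↦ φ z (g z ++ a))` -/
theorem Loc.pref {l s t r : ℕ} {φ : Inp → Inp} {g : ℕ → Inp → Bool}
    (hg : ∀ i < r, Cp 0 s (fun z _ => g i z)) (hφ : Loc (l + r) t φ) :
    Loc l ((l + r) * (s + 20) + t + 20)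
      (fun z a => φ z ((List.range r).map (fun i => g i z) ++ a)) := by
  refine (Cp.appPref hg hφ).mono le_rfl ?_
  have : (l + r) * (s + 20) = (l + r) * (s + 3) + 17 * (l + r) := by ring
  omega

/-- fixed prefix: `z ↦ (a ↦ φ z (pre ++ a))`; with `pre = [false]`, `[true]` the components of a
pair -/
theorem Loc.shift {l t : ℕ} {φ : Inp → Inp} (pre : List Bool) (hφ : Loc (l + pre.length) t φ) :
    Loc l (20 * (l + pre.length) + t + 20) (fun z a => φ z (pre ++ a)) := by
  have h := Cp.appPref (l := l) (s := 8) (r := pre.length) (g := fun i _ => pre.getD i false)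
    (fun i _ => Cp.const 0 _) hφ
  simp only [map_getD_range] at h
  refine h.mono le_rfl ?_
  have : (l + pre.length) * (8 + 3) = 11 * (l + pre.length) := by ring
  omega

end Pool.Agent.NUM
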