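import Pool.Agent.NUM.LocalA

/-!
# Block calculus: local maps (second part): pairs, truncation, fixed tables
-/

namespace Pool.Agent.NUM

theorem word_succ (M : Mem) (j k : ℕ) : word M j (k + 1) = M j :: word M (j + 1) k := by
  unfold word
  rw [List.range_succ_eq_map, List.map_cons, List.map_map]
  congr 1
  apply List.map_congr_left
  intro t _
  simp only [Function.comp_apply]
  congr 1
  omega

theorem word_zero (M : Mem) (j : ℕ) : word M j 0 = [] := rfl

theorem Loc.pair {l t t' : ℕ} {φ ψ : Inp → Inp} (hφ : Loc l t φ) (hψ : Loc l t' ψ) :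
    Loc l (t + t' + 40) (fun z => pair (φ z) (ψ z)) := by
  intro k hk j
  cases k with
  | zero =>
    refine ((Cp.const (j + 0) false).congr fun z M => ?_).mono le_rfl (by omega)
    rw [word_zero]
    rfl
  | succ k =>
    have h1 := hψ k (by omega) (j + 1)
    have h2 := hφ k (by omega) (j + 1)
    have h3 : j + 1 + k = j + (k + 1) := by omega
    rw [h3] at h1 h2
    refine ((Cp.ite (Cp.cell (i := j) (by omega)) h1 h2).congr fun z M => ?_).mono le_rfl
      (by omega)
    rw [word_succ]
    cases M j <;> rfl

/-- truncation to addresses of length at most `B` -/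
theorem Loc.trunc {l t : ℕ} {φ : Inp → Inp} (hφ : Loc l t φ) (B : ℕ) :
    Loc l (t + 8) (fun z a => if a.length ≤ B then φ z a else false) := by
  intro k hk j
  by_cases hB : k ≤ B
  · refine ((hφ k hk j).congr fun z M => ?_).mono le_rfl (by omega)
    show φ z (word M j k) = if (word M j k).length ≤ B then φ z (word M j k) else false
    rw [word_length, if_pos hB]
  · refine ((Cp.const (j + k) false).congr fun z M => ?_).mono le_rfl (by omega)
    show false = if (word M j k).length ≤ B then φ z (word M j k) else false
    rw [word_length, if_neg hB]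

/-- size of the code of a table -/
def tabSz : ℕ → ℕ
  | 0 => 8
  | k + 1 => 2 * tabSz k + 35

theorem tabSz_add (k : ℕ) : tabSz k + 35 = 2 ^ k * 43 := by
  induction k with
  | zero => rfl
  | succ k ih => rw [tabSz, pow_succ]; omega

theorem Cp.table : ∀ (k : ℕ) (c : Inp) (j : ℕ),
    Cp (j + k) (tabSz k) (fun _ M => c (word M j k)) := by
  intro k
  induction k with
  | zero =>
    intro c j
    refine (Cp.const (j + 0) (c [])).congr fun z M => ?_
    rw [word_zero]
  | succ k ih =>
    intro c j
    have h1 := ih (fun a => c (true :: a)) (j + 1)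
    have h2 := ih (fun a => c (false :: a)) (j + 1)
    have h3 : j + 1 + k = j + (k + 1) := by omega
    rw [h3] at h1 h2
    refine ((Cp.ite (Cp.cell (i := j) (by omega)) h1 h2).congr fun z M => ?_).mono le_rfl
      (by rw [tabSz]; omega)
    rw [word_succ]
    cases M j <;> rfl

/-- a fixed table -/
theorem Loc.const (l w : ℕ) (c : Inp) (hc : ∀ a : List Bool, w < a.length → c a = false) :
    Loc l (2 ^ w * (w * 200 + 400) + 100) (fun _ => c) := by
  intro k hk j
  by_cases hw : k ≤ w
  · refine (Cp.table k c j).mono le_rfl ?_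
    have h1 := tabSz_add k
    have h2 : 2 ^ k * 43 ≤ 2 ^ w * 43 := Nat.mul_le_mul_right _ (Nat.pow_le_pow_right (by omega) hw)
    have h3 : 2 ^ w * 43 ≤ 2 ^ w * (w * 200 + 400) := Nat.mul_le_mul_left _ (by omega)
    omega
  · refine ((Cp.const (j + k) false).congr fun z M => ?_).mono le_rfl (by omega)
    show false = c (word M j k)
    rw [hc _ (by rw [word_length]; omega)]

end Pool.Agent.NUM
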