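import Pool.Agent.NUM.MCodeC

/-!
# The simulation of a `d`-dimensional tape is a history program
-/

set_option autoImplicit false

namespace Pool.Agent.NUM

section

variable {d s L W B X k : ℕ} {F Y : Inp → Mem → WSt d}

/-- the scanned cell -/
theorem CW.p32 (h : CW d s L B (X ^ (k + 1)) F) (hX : XOkM d s L W B X) :
    FV B (X ^ (k + 7)) (Fintype.piFinset fun _ : Fin d => Finset.Ico (0 : ℤ) 32)
      (fun z M i => (F z M).p i % 32) := by
  refine (FV.pi (k := k + 3) hX.X0 hX.xd (F := fun i z M => (F z M).hb 0 i % 32)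
    fun i => h.hb hX.X0 (Nat.zero_le _) i).congr fun z M => ?_
  funext i
  simp [WSt.hb]

theorem card_p32 (hX : XOkM d s L W B X) :
    (Fintype.piFinset fun _ : Fin d => Finset.Ico (0 : ℤ) 32).card ≤ X := by
  have h1 : (Fintype.piFinset fun _ : Fin d => Finset.Ico (0 : ℤ) 32).card = 32 ^ d := by simp
  rw [h1]
  refine le_trans (le_trans (Nat.pow_le_pow_left (by norm_num) d)
    (Nat.le_mul_of_pos_right _ (Nat.succ_pos _))) hX.xA

/-- the new memory of the machine -/
theorem CW.newV (h : CW d s L B (X ^ (k + 1)) F) (hX : XOkM d s L W B X) (hL : 1 ≤ L)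
    {G : List Ins} (hG : Sz s G) (hsB : s ≤ B) (hB : 0 < B) {j : ℕ} (hj : j < s) :
    Cp B (X ^ (k + 12)) (fun z M => (F z M).newV (eval G z) j) := by
  have hmix : ∀ q < s, Cp B (X ^ (k + 10)) (fun z M =>
      mix (F z M).V ((F z M).R 1 fun i => (F z M).p i % 32) q) := by
    intro q hq
    by_cases hq2 : q % 2 = 0
    · refine ((h.V hq).up hX.X0 (by omega)).congr fun z M => ?_
      unfold mix
      rw [if_pos hq2]
    · refine (FV.selB (k := k + 7) hX.X0 (card_p32 hX) (h.p32 hX)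
        (g := fun β z M => (F z M).R 1 β q) fun β hβ => ?_).congr fun z M => ?_
      · rw [Fintype.mem_piFinset] at hβ
        exact (h.R hL (fun i => Finset.mem_Ico.1 (hβ i)) hq).up hX.X0 (by omega)
      · unfold mix
        rw [if_neg hq2]
  refine (Cp.appTr (b := B) (t := X ^ (k + 10)) (Tr.pass hG) hsB hB
    (X := fun z M => mix (F z M).V ((F z M).R 1 fun i => (F z M).p i % 32)) hmix hj).mono
    le_rfl (Xb2 hX.X0 (k + 10) fun a h1 h2 => ?_)
  rw [← h2]
  have h3 : (B + 1) * (a + 20) ≤ X * (21 * a) := Nat.mul_le_mul hX.xB (by omega)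
  have h4 : X * (21 * a) + X * a ≤ X * (1000 * a) := by
    rw [← Nat.mul_add]
    exact Nat.mul_le_mul_left _ (by omega)
  have h5 : s ≤ X * a := hX.xs.trans (Nat.le_mul_of_pos_right _ (by omega))
  omega

/-- digits of a position after a move -/
theorem toNat_add_mod (x e : ℤ) (n c : ℕ) (he : (c : ℤ) % 2 ^ n = e % 2 ^ n) {r : ℕ}
    (hr : r < n) : ((x + e) % 2 ^ n).toNat.testBit r = ((x % 2 ^ n).toNat + c).testBit r := by
  have h0 : (0 : ℤ) < 2 ^ n := by positivity
  have h1 : ((x + e) % 2 ^ n).toNat = ((x % 2 ^ n).toNat + c) % 2 ^ n := by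
    have h2 : (x + e) % 2 ^ n = ((((x % 2 ^ n).toNat + c) % 2 ^ n : ℕ) : ℤ) := by
      push_cast
      rw [Int.toNat_of_nonneg (Int.emod_nonneg _ h0.ne'), Int.add_emod, ← he, ← Int.add_emod,
        Int.emod_add_emod]
    rw [h2, Int.toNat_natCast]
  rw [h1, Nat.testBit_mod_two_pow]
  simp [hr]

theorem CX.ifP {P : Inp → Mem → Prop} [∀ z M, Decidable (P z M)] {f g : Inp → Mem → Bool}
    (hX : 1000 ≤ X) (hP : CP B (X ^ k) P) (hf : Cp B (X ^ k) f) (hg : Cp B (X ^ k) g) :
    Cp B (X ^ (k + 1)) (fun z M => if P z M then f z M else g z M) := by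
  obtain ⟨b, hb, hbP⟩ := hP
  refine (CX.bif hX hb hf hg).congr fun z M => ?_
  by_cases h1 : P z M
  · rw [if_pos h1, (hbP z M).2 h1, cond_true]
  · have h2 : b z M = false := by
      cases h3 : b z M
      · rfl
      · exact absurd ((hbP z M).1 h3) h1
    rw [if_neg h1, h2, cond_false]

theorem neg_one_mod (n : ℕ) : ((2 ^ n - 1 : ℕ) : ℤ) % 2 ^ n = (-1) % 2 ^ n := by
  have h1 : 1 ≤ 2 ^ n := Nat.one_le_two_pow
  rw [Nat.cast_sub h1]
  push_cast
  rw [show (2 : ℤ) ^ n - 1 = -1 + 2 ^ n by ring, Int.add_emod_right]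

theorem CW.main (h : CW d s L B (X ^ (k + 1)) F) (hX : XOkM d s L W B X) (hL : 1 ≤ L)
    (hs : 4 * d + 7 ≤ s) {G : List Ins} (hG : Sz s G) (hsB : s ≤ B) (hB : 0 < B) :
    CW d s L B (X ^ (k + 14)) (fun z M => (F z M).main (eval G z)) := by
  have hXL := hX.xL
  have hV : ∀ j < s, Cp B (X ^ (k + 12)) (fun z M => (F z M).newV (eval G z) j) :=
    fun j hj => h.newV hX hL hG hsB hB hj
  refine CW.of (fun z M => ⟨(h.inv z M).lev, (h.inv z M).q, (h.inv z M).cnt⟩)
    (fun j hj => (hV j hj).up hX.X0 (by omega)) (fun i r hr => ?_)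
    (fun κ hκ i r hr => (h.gBit i hκ hr).up hX.X0 (by omega)) (fun κ hκ β hβ j hj => ?_)
    (fun r hr => (h.obs (.lev r) hr).up hX.X0 (by omega))
    (fun r hr => (h.obs (.q r) hr).up hX.X0 (by omega))
    (fun r hr => (h.obs (.cnt r) hr).up hX.X0 (by omega))
  · have hi := i.isLt
    have b1 := (CN.succ hX.X0 (by omega) (h.pN hX.X0 i)).bit r
    have b2 := (CN.add hX.X0 (by omega) (h.pN hX.X0 i)
      ((CN.const hX.X0 (show 2 ^ (2 * L + 5) - 1 < 2 ^ (2 * L + 5) from
        Nat.sub_lt (by positivity) (by norm_num))).up hX.X0 (by omega : 1 ≤ k + 1))).bit r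
    have b3 := h.pBit i hr
    refine ((CX.bif (k := k + 13) hX.X0 ((hV (4 + 4 * i) (by omega)).up hX.X0 (by omega))
      (b1.up hX.X0 (by omega))
      (CX.bif (k := k + 12) hX.X0 ((hV (6 + 4 * i) (by omega))) (b2.up hX.X0 (by omega))
        (b3.up hX.X0 (by omega))))).congr fun z M => ?_
    show _ = (((F z M).p i + mvd ((F z M).newV (eval G z)) i) % 2 ^ (2 * L + 5)).toNat.testBit r
    unfold mvd
    cases h4 : (F z M).newV (eval G z) (4 + 4 * i) with
    | true =>
      rw [cond_true, if_pos rfl]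
      exact (toNat_add_mod _ _ _ _ (by norm_num) hr).symm
    | false =>
      rw [cond_false, if_neg (by simp)]
      cases h6 : (F z M).newV (eval G z) (6 + 4 * i) with
      | true =>
        rw [cond_true, if_pos rfl]
        exact (toNat_add_mod _ _ _ _ (neg_one_mod _) hr).symm
      | false =>
        rw [cond_false, if_neg (by simp), add_zero]
  · by_cases h1 : κ = 1
    · subst h1
      have h2 := (h.p32 hX).eq β (Fintype.mem_piFinset.2 fun i => Finset.mem_Ico.2 (hβ i))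
      refine (CX.ifP (k := k + 13) hX.X0 (h2.up hX.X0 (by omega)) ((hV j hj).up hX.X0 (by omega))
        ((h.R hκ hβ hj).up hX.X0 (by omega))).congr fun z M => ?_
      show _ = (if 1 = 1 ∧ β = (fun i => (F z M).p i % 32) then (F z M).newV (eval G z) else
        (F z M).R 1 β) j
      by_cases h3 : (fun i => (F z M).p i % 32) = β
      · rw [if_pos h3, if_pos ⟨rfl, h3.symm⟩]
      · rw [if_neg h3, if_neg fun h4 => h3 h4.2.symm]
    · refine ((h.R hκ hβ hj).up hX.X0 (by omega)).congr fun z M => ?_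
      show _ = (if κ = 1 ∧ β = (fun i => (F z M).p i % 32) then (F z M).newV (eval G z) else
        (F z M).R κ β) j
      rw [if_neg fun h4 => h1 h4.1]

/-! ### the other branches -/

theorem card_q (hX : XOkM d s L W B X) : (Finset.range (8 ^ d + 2)).card ≤ X := by
  rw [Finset.card_range]
  refine le_trans ?_ hX.xA
  exact Nat.le_mul_of_pos_left _ (Nat.pos_of_ne_zero (by positivity))

/-- a new level is chosen -/
theorem CW.start (h : CW d s L B (X ^ (k + 1)) F) (hX : XOkM d s L W B X) (hL : 1 ≤ L) :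
    CW d s L B (X ^ (k + 20)) (fun z M =>
      { F z M with lev := Nat.findGreatest (F z M).Big (L - 1), q := 0, cnt := 0 }) := by
  have hXL := hX.xL
  refine CW.of (fun z M => ⟨?_, Nat.succ_pos _, by show 0 < 2 ^ (2 * L + 1); positivity⟩)
    (fun j hj => (h.V hj).up hX.X0 (by omega)) (fun i r hr => (h.pBit i hr).up hX.X0 (by omega))
    (fun κ hκ i r hr => (h.gBit i hκ hr).up hX.X0 (by omega))
    (fun κ hκ β hβ j hj => (h.R hκ hβ hj).up hX.X0 (by omega))
    (fun r hr => ?_) (fun r hr => ?_) (fun r hr => ?_)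
  · exact Finset.mem_range.1 ((h.fg hX hL).mem z M)
  · exact CP.toCp (FV.pred (k := k + 16) hX.X0 (by rw [Finset.card_range]; omega) (h.fg hX hL)
      (fun a => a.testBit r = true))
  · exact ((CX.const hX.X0 false).up hX.X0 (by omega)).congr fun z M => (Nat.zero_testBit r).symm
  · exact ((CX.const hX.X0 false).up hX.X0 (by omega)).congr fun z M => (Nat.zero_testBit r).symm

/-- the level is finished -/
theorem CW.stop (h : CW d s L B (X ^ (k + 1)) F) (hX : XOkM d s L W B X) (hL : 1 ≤ L) :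
    CW d s L B (X ^ (k + 1)) (fun z M => { F z M with lev := 0, q := 0, cnt := 0 }) := by
  refine CW.of (fun z M => ⟨by show 0 < L; omega, Nat.succ_pos _, by
      show 0 < 2 ^ (2 * L + 1); positivity⟩)
    (fun j hj => h.V hj) (fun i r hr => h.pBit i hr)
    (fun κ hκ i r hr => h.gBit i hκ hr)
    (fun κ hκ β hβ j hj => h.R hκ hβ hj)
    (fun r hr => ?_) (fun r hr => ?_) (fun r hr => ?_)
  · exact ((CX.const hX.X0 false).up hX.X0 (by omega)).congr fun z M => (Nat.zero_testBit r).symm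
  · exact ((CX.const hX.X0 false).up hX.X0 (by omega)).congr fun z M => (Nat.zero_testBit r).symm
  · exact ((CX.const hX.X0 false).up hX.X0 (by omega)).congr fun z M => (Nat.zero_testBit r).symm

/-- waiting -/
theorem CW.wait (h : CW d s L B (X ^ (k + 1)) F) (hX : XOkM d s L W B X) :
    CW d s L B (X ^ (k + 8)) (fun z M =>
      { F z M with cnt := if (F z M).cnt < 4 ^ (F z M).lev then (F z M).cnt + 1
        else (F z M).cnt }) := by
  have hXL := hX.xL
  have hlt : ∀ z M, (if (F z M).cnt < 4 ^ (F z M).lev then (F z M).cnt + 1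
        else (F z M).cnt) < 2 ^ (2 * L + 1) := by
    intro z M
    split_ifs with h1
    · have h3 : 4 ^ (F z M).lev ≤ 4 ^ L := Nat.pow_le_pow_right (by norm_num) (h.inv z M).lev.le
      have h4 : 2 ^ (2 * L + 1) = 2 * 4 ^ L := by
        rw [pow_succ, pow_mul]
        norm_num
        ring
      have h5 : 1 ≤ 4 ^ L := Nat.one_le_pow _ _ (by norm_num)
      omega
    · exact (h.inv z M).cnt
  refine CW.of (fun z M => ⟨(h.inv z M).lev, (h.inv z M).q, hlt z M⟩)
    (fun j hj => (h.V hj).up hX.X0 (by omega)) (fun i r hr => (h.pBit i hr).up hX.X0 (by omega))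
    (fun κ hκ i r hr => (h.gBit i hκ hr).up hX.X0 (by omega))
    (fun κ hκ β hβ j hj => (h.R hκ hβ hj).up hX.X0 (by omega))
    (fun r hr => (h.obs (.lev r) hr).up hX.X0 (by omega))
    (fun r hr => (h.obs (.q r) hr).up hX.X0 (by omega)) (fun r hr => ?_)
  exact (CN.ite (k := k + 7) hX.X0 (h.cntLt hX)
    ((CN.succ hX.X0 (by omega) (h.cntN hX.X0)).up hX.X0 (by omega))
    (((h.cntN hX.X0).widen (Nat.le_succ _)).up hX.X0 (by omega))).bit r

/-- the records of the level are moved up -/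
theorem CW.evict (h : CW d s L B (X ^ (k + 1)) F) (hX : XOkM d s L W B X)
    {m : Inp → Mem → ℕ} (hm : ∀ j < s, Cp B (X ^ (k + 12)) (fun z M => (m z M).testBit j)) :
    CW d s L B (X ^ (k + 13)) (fun z M => (F z M).evict (m z M)) := by
  have hXL := hX.xL
  refine CW.of (fun z M => ⟨(h.inv z M).lev, Nat.succ_lt_succ (Nat.succ_pos _), by
      show 0 < 2 ^ (2 * L + 1)
      positivity⟩)
    (fun j hj => (h.V hj).up hX.X0 (by omega)) (fun i r hr => (h.pBit i hr).up hX.X0 (by omega))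
    (fun κ hκ i r hr => ?_) (fun κ hκ β hβ j hj => ?_)
    (fun r hr => (h.obs (.lev r) hr).up hX.X0 (by omega)) (fun r hr => ?_) (fun r hr => ?_)
  · -- the centres
    have h1 : CP B (X ^ (k + 6)) (fun z M => (F z M).lev = κ) :=
      FV.pred (k := k + 2) hX.X0 (by rw [Finset.card_range]; omega) (h.levF hX) (fun a => a = κ)
    have h2 : Cp B (X ^ (k + 6)) (fun z M => ((F z M).hb κ i % 8).toNat.testBit r) := by
      refine (CP.toCp (f := fun z M => (((F z M).hb κ i % 32) % 8).toNat.testBit r)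
        (FV.pred (k := k + 2) hX.X0 (by simp; have := hX.X0; omega) (h.hb hX.X0 hκ.le i)
          (fun a => (a % 8).toNat.testBit r = true))).congr fun z M => ?_
      rw [Int.emod_emod_of_dvd _ (by norm_num : (8 : ℤ) ∣ 32)]
    refine ((CX.ifP (k := k + 6) hX.X0 h1 h2
      ((h.gBit i hκ hr).up hX.X0 (by omega))).up hX.X0 (by omega)).congr fun z M => ?_
    show _ = ((if κ = (F z M).lev then (F z M).hb κ i % 8 else (F z M).g κ i) % 8).toNat.testBit r
    by_cases h3 : (F z M).lev = κ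
    · rw [if_pos h3, if_pos h3.symm, Int.emod_emod_of_dvd _ dvd_rfl]
    · rw [if_neg h3, if_neg fun h4 => h3 h4.symm]
  · -- the records
    rcases Nat.eq_zero_or_pos κ with h0 | h0
    · subst h0
      refine ((h.R hκ hβ hj).up hX.X0 (by omega)).congr fun z M => ?_
      show _ = (if 0 = (F z M).lev + 1 ∧ ∀ i, (β i - (F z M).cen (F z M).lev i + 4) % 32 < 8 then
        (fun j => (m z M).testBit j) else (F z M).R 0 β) j
      rw [if_neg (by omega)]
    obtain ⟨κ', rfl⟩ := Nat.exists_eq_add_of_le' h0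
    have hκ' : κ' < L := by omega
    have h1 : CP B (X ^ (k + 6)) (fun z M => (F z M).lev = κ') :=
      FV.pred (k := k + 2) hX.X0 (by rw [Finset.card_range]; omega) (h.levF hX) (fun a => a = κ')
    have h2 : CP B (X ^ (k + 11)) (fun z M => ∀ i, (β i - (F z M).cen κ' i + 4) % 32 < 8) := by
      refine (FV.pred (k := k + 7) hX.X0 (AT_le hX) (h.tT hX hκ')
        (fun a => ∀ i, (β i - cenT (a i) + 4) % 32 < 8)).congr fun z M => ?_
      refine forall_congr' fun i => ?_
      have h3 := cen_eq (F z M) κ' i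
      omega
    have h3 := CP.and (k := k + 11) hX.X0 (h1.up hX.X0 (by omega)) h2
    refine (CX.ifP (k := k + 12) hX.X0 h3 (hm j hj)
      ((h.R hκ hβ hj).up hX.X0 (by omega))).congr fun z M => ?_
    show _ = (if κ' + 1 = (F z M).lev + 1 ∧
        ∀ i, (β i - (F z M).cen (F z M).lev i + 4) % 32 < 8 then
        (fun j => (m z M).testBit j) else (F z M).R (κ' + 1) β) j
    by_cases h4 : (F z M).lev = κ'
    · rw [h4]
      by_cases h5 : ∀ i, (β i - (F z M).cen κ' i + 4) % 32 < 8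
      · rw [if_pos ⟨rfl, h5⟩, if_pos ⟨rfl, h5⟩]
      · rw [if_neg fun h6 => h5 h6.2, if_neg fun h6 => h5 h6.2]
    · rw [if_neg fun h6 => h4 h6.1, if_neg fun h6 => h4 (by omega)]
  · exact ((CX.const hX.X0 ((1 : ℕ).testBit r)).up hX.X0 (by omega)).congr fun z M => rfl
  · exact ((CX.const hX.X0 false).up hX.X0 (by omega)).congr fun z M => (Nat.zero_testBit r).symm

/-- a record is loaded -/
theorem CW.load (h : CW d s L B (X ^ (k + 1)) F) (hX : XOkM d s L W B X)
    (hY : ∀ κ ≤ L, ∀ β : Fin d → ℤ, (∀ i, 0 ≤ β i ∧ β i < 32) → ∀ j < s,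
      Cp B (X ^ (k + 1)) (fun z M => (Y z M).R κ β j)) :
    CW d s L B (X ^ (k + 8)) (fun z M =>
      { F z M with
        R := fun κ β => if κ = (F z M).lev ∧ ∀ i, β i / 4 = dig (F z M).q i then
          (Y z M).R κ β else (F z M).R κ β
        q := if (F z M).q ≤ 8 ^ d then (F z M).q + 1 else (F z M).q
        cnt := 0 }) := by
  have hXL := hX.xL
  refine CW.of (fun z M => ⟨(h.inv z M).lev, ?_, by show 0 < 2 ^ (2 * L + 1); positivity⟩)
    (fun j hj => (h.V hj).up hX.X0 (by omega)) (fun i r hr => (h.pBit i hr).up hX.X0 (by omega))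
    (fun κ hκ i r hr => (h.gBit i hκ hr).up hX.X0 (by omega)) (fun κ hκ β hβ j hj => ?_)
    (fun r hr => (h.obs (.lev r) hr).up hX.X0 (by omega)) (fun r hr => ?_) (fun r hr => ?_)
  · show (if (F z M).q ≤ 8 ^ d then (F z M).q + 1 else (F z M).q) < 8 ^ d + 2
    have := (h.inv z M).q
    split_ifs <;> omega
  · have h1 : CP B (X ^ (k + 6)) (fun z M => (F z M).lev = κ) :=
      FV.pred (k := k + 2) hX.X0 (by rw [Finset.card_range]; omega) (h.levF hX) (fun a => a = κ)
    have h2 : CP B (X ^ (k + 6)) (fun z M => ∀ i, β i / 4 = dig (F z M).q i) :=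
      FV.pred (k := k + 2) hX.X0 (card_q hX) (h.qF hX) (fun a => ∀ i, β i / 4 = dig a i)
    refine (CX.ifP (k := k + 7) hX.X0 (CP.and hX.X0 h1 h2) ((hY κ hκ β hβ j hj).up hX.X0
      (by omega)) ((h.R hκ hβ hj).up hX.X0 (by omega))).congr fun z M => ?_
    show _ = (if κ = (F z M).lev ∧ ∀ i, β i / 4 = dig (F z M).q i then
          (Y z M).R κ β else (F z M).R κ β) j
    by_cases h3 : (F z M).lev = κ ∧ ∀ i, β i / 4 = dig (F z M).q i
    · rw [if_pos h3, if_pos ⟨h3.1.symm, h3.2⟩]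
    · rw [if_neg h3, if_neg fun h4 => h3 ⟨h4.1.symm, h4.2⟩]
  · exact (CP.toCp (FV.pred (k := k + 2) hX.X0 (card_q hX) (h.qF hX)
      (fun a => (if a ≤ 8 ^ d then a + 1 else a).testBit r = true))).up hX.X0 (by omega)
  · exact ((CX.const hX.X0 false).up hX.X0 (by omega)).congr fun z M => (Nat.zero_testBit r).symm

/-- one step -/
theorem CW.step (h : CW d s L B (X ^ (k + 1)) F) (hX : XOkM d s L W B X) (hL : 1 ≤ L)
    (hs : 4 * d + 7 ≤ s) {G : List Ins} (hG : Sz s G) (hsB : s ≤ B) (hB : 0 < B)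
    (hY : ∀ κ ≤ L, ∀ β : Fin d → ℤ, (∀ i, 0 ≤ β i ∧ β i < 32) → ∀ j < s,
      Cp B (X ^ (k + 1)) (fun z M => (Y z M).R κ β j))
    {m : Inp → Mem → ℕ} (hm : ∀ j < s, Cp B (X ^ (k + 12)) (fun z M => (m z M + 1).testBit j)) :
    CW d s L B (X ^ (k + 24)) (fun z M => (F z M).step (eval G z) L (m z M) (Y z M)) := by
  have hXL := hX.xL
  have c0 : CP B (X ^ (k + 6)) (fun z M => (F z M).lev = 0) :=
    FV.pred (k := k + 2) hX.X0 (by rw [Finset.card_range]; omega) (h.levF hX) (fun a => a = 0)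
  have c1 : CP B (X ^ (k + 20)) (fun z M => Nat.findGreatest (F z M).Big (L - 1) = 0) :=
    FV.pred (k := k + 16) hX.X0 (by rw [Finset.card_range]; omega) (h.fg hX hL) (fun a => a = 0)
  have c2 := h.cntLt hX
  have c3 : CP B (X ^ (k + 6)) (fun z M => (F z M).q = 0) :=
    FV.pred (k := k + 2) hX.X0 (card_q hX) (h.qF hX) (fun a => a = 0)
  have c4 : CP B (X ^ (k + 6)) (fun z M => (F z M).q ≤ 8 ^ d) :=
    FV.pred (k := k + 2) hX.X0 (card_q hX) (h.qF hX) (fun a => a ≤ 8 ^ d)
  have e1 := CW.ite (k := k + 20) hX.X0 c1 ((h.main hX hL hs hG hsB hB).up hX.X0 (by omega))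
    (h.start hX hL)
  have e2 := CW.ite (k := k + 20) hX.X0 (c4.up hX.X0 (by omega))
    ((h.load hX hY).up hX.X0 (by omega)) ((h.stop hX hL).up hX.X0 (by omega))
  have e3 := CW.ite (k := k + 21) hX.X0 (c3.up hX.X0 (by omega))
    ((h.evict hX hm).up hX.X0 (by omega)) e2
  have e4 := CW.ite (k := k + 22) hX.X0 (c2.up hX.X0 (by omega))
    ((h.wait hX).up hX.X0 (by omega)) e3
  refine (CW.ite (k := k + 23) hX.X0 (c0.up hX.X0 (by omega)) (e1.up hX.X0 (by omega))
    e4).congr fun z M => ?_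
  unfold WSt.step
  by_cases d0 : (F z M).lev = 0
  · rw [if_pos d0, if_pos d0]
  rw [if_neg d0, if_neg d0]
  by_cases d2 : (F z M).cnt < 4 ^ (F z M).lev
  · rw [if_pos d2, if_pos d2, if_pos d2]
  rw [if_neg d2, if_neg d2]
  by_cases d3 : (F z M).q = 0
  · rw [if_pos d3, if_pos d3]
  rw [if_neg d3, if_neg d3]
  by_cases d4 : (F z M).q ≤ 8 ^ d
  · rw [if_pos d4, if_pos d4, if_pos d4]
    rfl
  · rw [if_neg d4, if_neg d4]

/-! ### the program -/

theorem cla_lt {m a : ℕ} (hm : 0 < m) : cla m a < m := by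
  unfold cla
  split_ifs with h
  · exact h
  · exact hm

theorem bitAt_cp {w : Inp → Mem → ℕ → Bool}
    (hw : ∀ j < (obF d s L).card, Cp B (X ^ 1) (fun z M => w z M j)) {x : Ob d}
    (hx : x.ok s L) : Cp B (X ^ 1) (fun z M => bitAt s L (w z M) x) := by
  have h : x ∈ obF d s L := mem_obF.2 hx
  refine (hw ((obF d s L).equivFin ⟨x, h⟩) (Fin.is_lt _)).congr fun z M => ?_
  unfold bitAt
  rw [dif_pos h]

theorem toNat_num_mod (n : ℕ) (g : ℕ → Bool) {r : ℕ} (hr : r < n) :
    (((num n g : ℕ) : ℤ) % 2 ^ n).toNat.testBit r = g r := by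
  have h1 : ((num n g : ℕ) : ℤ) % 2 ^ n = ((num n g : ℕ) : ℤ) := by
    refine Int.emod_eq_of_lt (by positivity) ?_
    exact_mod_cast num_lt n g
  rw [h1, Int.toNat_natCast, testBit_num]
  simp [hr]

theorem dec_cp (hX : XOkM d s L W B X) (hL : 1 ≤ L) {w : Inp → Mem → ℕ → Bool}
    (hw : ∀ j < (obF d s L).card, Cp B (X ^ 1) (fun z M => w z M j)) :
    CW d s L B (X ^ 5) (fun z M => dec s L (w z M)) := by
  have hXL := hX.xL
  have hb : ∀ x : Ob d, x.ok s L → Cp B (X ^ 1) (fun z M => bitAt s L (w z M) x) :=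
    fun x hx => bitAt_cp hw hx
  have hcla : ∀ (n m : ℕ) (g : ℕ → Ob d), n ≤ X → (∀ r < n, (g r).ok s L) →
      CN B (X ^ 5) n (fun z M => cla m (num n fun r => bitAt s L (w z M) (g r))) := by
    intro n m g hn hg
    have h1 : CN B (X ^ (0 + 1)) n (fun z M => num n fun r => bitAt s L (w z M) (g r)) :=
      CN.of hX.X0 (g := fun r z M => bitAt s L (w z M) (g r)) fun r hr => hb _ (hg r hr)
    exact CN.ite (k := 4) hX.X0 (CP.ltC hX.X0 hn h1 m) (h1.up hX.X0 (by norm_num))
      ((CN.const hX.X0 (by positivity)).up hX.X0 (by norm_num))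
  refine ⟨fun z M => ⟨cla_lt hL, cla_lt (Nat.succ_pos _), num_lt _ _⟩, fun x hx => ?_⟩
  cases x with
  | V j => exact (hb _ hx).up hX.X0 (by norm_num)
  | P i r =>
    refine ((hb _ hx).up hX.X0 (by norm_num)).congr fun z M => ?_
    exact (toNat_num_mod (2 * L + 5) (fun r => bitAt s L (w z M) (.P i r)) hx).symm
  | G κ i r =>
    refine ((hb _ hx).up hX.X0 (by norm_num)).congr fun z M => ?_
    exact (toNat_num_mod 3 (fun r => bitAt s L (w z M) (.G κ i r)) hx.2).symm
  | R κ β j =>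
    refine ((hb _ hx).up hX.X0 (by norm_num)).congr fun z M => ?_
    show _ = bitAt s L (w z M) (.R κ (fun i => Fin.ofNat 32 (((β i : ℕ) : ℤ)).toNat) j)
    have h1 : (fun i => Fin.ofNat 32 (((β i : ℕ) : ℤ)).toNat) = β := by
      funext i
      rw [Int.toNat_natCast]
      exact Fin.ofNat_val_eq_self _
    rw [h1]
  | lev r => exact (hcla L L (fun r => .lev r) (by omega) fun r hr => hr).bit r
  | q r => exact (hcla (3 * d + 2) (8 ^ d + 2) (fun r => .q r) hX.xq fun r hr => hr).bit r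
  | cnt r =>
    refine ((hb _ hx).up hX.X0 (by norm_num)).congr fun z M => ?_
    show _ = (num (2 * L + 1) fun r => bitAt s L (w z M) (Ob.cnt r : Ob d)).testBit r
    rw [testBit_num]
    have : r < 2 * L + 1 := hx
    simp [this]

theorem nxW_cp (hX : XOkM d s L W (2 * (wlay d s L W).tot) X) (hL : 1 ≤ L)
    (hs : 4 * d + 7 ≤ s) (hW : W ≤ s) {G : List Ins} (hG : Sz s G) (q : ℕ) :
    Cp (2 * (wlay d s L W).tot) (X ^ 43) (fun z M =>
      (wlay d s L W).pack (nxW d G s L W z ((wlay d s L W).unpack (evc M))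
        ((wlay d s L W).unpack (odc M)).X) q) := by
  obtain ⟨y, hy⟩ : ∃ y, y = wlay d s L W := ⟨_, rfl⟩
  rw [← hy] at hX ⊢
  have hyW : y.W = W := by rw [hy]; rfl
  have hke : y.ke = 0 := by rw [hy]; rfl
  have hv : y.v = (obF d s L).card := by rw [hy]; rfl
  have hbase : y.base = 2 * y.W + 3 + y.ke + y.W + y.W := rfl
  have htot : y.tot = y.base + y.v := rfl
  obtain ⟨b, hb⟩ : ∃ b, b = 2 * y.tot := ⟨_, rfl⟩
  rw [← hb] at hX ⊢
  have hX0 := hX.X0
  have hXW := hX.xW
  have hcE : ∀ p < y.tot, Cp b (X ^ 1) (fun _ M => evc M p) := fun p hp =>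
    CX.cell hX0 (show 2 * p < b by omega)
  have hcO : ∀ p < y.tot, Cp b (X ^ 1) (fun _ M => odc M p) := fun p hp =>
    CX.cell hX0 (show 2 * p + 1 < b by omega)
  have hsb : s ≤ b := by
    have h1 : s ≤ (obF d s L).card := by
      have h2 : (Finset.range s).image Ob.V ⊆ obF d s L := by
        intro x hx
        obtain ⟨j, hj, rfl⟩ := Finset.mem_image.1 hx
        exact mem_obF.2 (Finset.mem_range.1 hj)
      have h3 := Finset.card_le_card h2
      rwa [Finset.card_image_of_injective _ (fun a b h => by simpa using h),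
        Finset.card_range] at h3
    omega
  have h1 : CW d s L b (X ^ (4 + 1)) (fun _ M => dec s L (y.unpack (evc M)).X) :=
    dec_cp hX hL (w := fun _ M => (y.unpack (evc M)).X) fun j hj =>
      (hcE (y.base + j) (by omega)).congr fun z M => (if_pos (by omega)).symm
  have h2 : CW d s L b (X ^ (4 + 1)) (fun _ M => dec s L (y.unpack (odc M)).X) :=
    dec_cp hX hL (w := fun _ M => (y.unpack (odc M)).X) fun j hj =>
      (hcO (y.base + j) (by omega)).congr fun z M => (if_pos (by omega)).symm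
  have hu : CN b (X ^ 1) W (fun _ M => (y.unpack (evc M)).u) := by
    refine (CN.of hX0 (k := 0) (n := W) (g := fun i _ M => evc M (2 * y.W + 3 + y.ke + i))
      fun i hi => hcE _ (by omega)).congr fun z M => ?_
    show _ = num y.W fun i => evc M (2 * y.W + 3 + y.ke + i)
    rw [hyW]
  have hu1 : CN b (X ^ 3) (W + 1) (fun _ M => (y.unpack (evc M)).u + 1) :=
    CN.succ hX0 (by omega) hu
  have h3 := h1.step hX hL hs hG hsb (by omega)
    (Y := fun _ M => dec s L (y.unpack (odc M)).X)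
    (fun κ hκ β hβ j hj => h2.R hκ hβ hj)
    (m := fun _ M => (y.unpack (evc M)).u) fun j _ => (hu1.bit j).up hX0 (by norm_num)
  have h3 : CW d s L b (X ^ (27 + 1)) (fun z M => (dec s L (y.unpack (evc M)).X : WSt d).step
      (eval G z) L (y.unpack (evc M)).u (dec s L (y.unpack (odc M)).X)) := h3
  refine Lay.cp_pack (P := fun z M => nxW d G s L W z (y.unpack (evc M)) (y.unpack (odc M)).X)
    ?_ ?_ ?_ ?_ ?_ ?_ ?_ ?_ ?_ q
  · exact le_trans (by rw [pow_one]; omega : 8 ≤ X ^ 1) (Xpow_le hX0 (by norm_num))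
  · exact (h3.V (j := 0) (by omega)).up hX0 (by norm_num)
  · exact (h3.V (j := 2) (by omega)).up hX0 (by norm_num)
  · exact (CX.const hX0 false).up hX0 (by norm_num)
  · intro r hr
    exact h3.ix hX hW (m := fun _ M => (y.unpack (evc M)).u + 1) (by omega)
      ((hu1.bit r).up hX0 (by norm_num))
  · intro r hr
    omega
  · intro r _
    exact (hu1.bit r).up hX0 (by norm_num)
  · intro r _
    exact ((CX.const hX0 false).up hX0 (by norm_num)).congr fun z M => (Nat.zero_testBit r).symm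
  · intro j hj
    rw [hv] at hj
    refine ((h3.obs _ (mem_obF.1 ((obF d s L).equivFin.symm ⟨j, hj⟩).2)).up hX0
      (by norm_num)).congr fun z M => ?_
    show _ = enc s L _ j
    unfold enc
    rw [dif_pos hj]

end

/-! ### sizes -/

theorem card_obF_le (d s L : ℕ) : (obF d s L).card ≤ s + d * (2 * L + 5) + L * (d * 3) +
    (L + 1) * (32 ^ d * s) + L + (3 * d + 2) + (2 * L + 1) := by
  unfold obF
  refine (Finset.card_union_le _ _).trans (Nat.add_le_add ?_ ?_)
  · refine (Finset.card_union_le _ _).trans (Nat.add_le_add ?_ ?_)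
    · refine (Finset.card_union_le _ _).trans (Nat.add_le_add ?_ ?_)
      · refine (Finset.card_union_le _ _).trans (Nat.add_le_add ?_ ?_)
        · refine (Finset.card_union_le _ _).trans (Nat.add_le_add ?_ ?_)
          · refine (Finset.card_union_le _ _).trans (Nat.add_le_add ?_ ?_)
            · exact Finset.card_image_le.trans (by simp)
            · exact Finset.card_image_le.trans (by simp)
          · exact Finset.card_image_le.trans (by simp)
        · exact Finset.card_image_le.trans (by simp)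
      · exact Finset.card_image_le.trans (by simp)
    · exact Finset.card_image_le.trans (by simp)
  · exact Finset.card_image_le.trans (by simp)

/-- base of the size bounds -/
def wX (d s L : ℕ) : ℕ := 1000 * 4096 ^ (d + 1) * (s + L + 1) ^ 2

theorem wX_ok {d s L W : ℕ} (hs : 4 * d + 7 ≤ s) (hW : W ≤ s) :
    XOkM d s L W (2 * (wlay d s L W).tot) (wX d s L) := by
  obtain ⟨S, hS⟩ : ∃ S, S = s + L + 1 := ⟨_, rfl⟩
  obtain ⟨P, hP⟩ : ∃ P, P = 4096 ^ (d + 1) := ⟨_, rfl⟩
  have hX : wX d s L = 1000 * P * S ^ 2 := by unfold wX; rw [hS, hP]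
  have hP1 : 1 ≤ P := by rw [hP]; exact Nat.one_le_pow _ _ (by norm_num)
  have hSS : S * 8 ≤ S ^ 2 := by
    rw [pow_two]
    exact Nat.mul_le_mul_left _ (by omega)
  have hPS : S ^ 2 ≤ P * S ^ 2 := Nat.le_mul_of_pos_left _ (by omega)
  have hX' : wX d s L = 1000 * (P * S ^ 2) := by rw [hX]; ring
  rw [hX']
  have hS0 : 0 < S := by omega
  have hPP : P ≤ P * S ^ 2 := Nat.le_mul_of_pos_right _ (by positivity)
  have h32 : 32 ^ d ≤ P := by
    rw [hP]
    exact (Nat.pow_le_pow_left (by norm_num) d).trans (Nat.pow_le_pow_right (by norm_num)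
      (by omega))
  have h256 : 256 ^ d * (8 ^ d + 2) ≤ P := by
    have h1 : 1 ≤ 8 ^ d := Nat.one_le_pow _ _ (by norm_num)
    calc 256 ^ d * (8 ^ d + 2) ≤ 256 ^ d * (3 * 8 ^ d) := Nat.mul_le_mul_left _ (by omega)
      _ = 3 * 2048 ^ d := by
        rw [show 2048 = 256 * 8 by norm_num, mul_pow]
        ring
      _ ≤ 4096 * 4096 ^ d := Nat.mul_le_mul (by norm_num) (Nat.pow_le_pow_left (by norm_num) d)
      _ = P := by rw [hP, pow_succ]; ring
  obtain ⟨T, hT⟩ : ∃ T, T = P * S ^ 2 := ⟨_, rfl⟩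
  rw [← hT] at hPS hPP ⊢
  have hcard := card_obF_le d s L
  have e1 : d * (2 * L + 5) ≤ 7 * S ^ 2 := by
    calc d * (2 * L + 5) ≤ S * (7 * S) := Nat.mul_le_mul (by omega) (by omega)
      _ = 7 * S ^ 2 := by ring
  have e2 : L * (d * 3) ≤ 3 * S ^ 2 := by
    calc L * (d * 3) ≤ S * (3 * S) := Nat.mul_le_mul (by omega) (by omega)
      _ = 3 * S ^ 2 := by ring
  have e3 : (L + 1) * (32 ^ d * s) ≤ T := by
    calc (L + 1) * (32 ^ d * s) ≤ S * (P * S) :=
        Nat.mul_le_mul (by omega) (Nat.mul_le_mul h32 (by omega))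
      _ = T := by rw [hT]; ring
  have htot : (wlay d s L W).tot = 2 * W + 3 + 0 + W + W + (obF d s L).card := rfl
  refine ⟨by omega, by omega, by omega, by omega, by omega, by omega, by omega, ?_⟩
  rw [htot]
  omega

theorem size_bound {X C t u b : ℕ} (h0 : 1000 ≤ X) (hXe : X = C * (u + 1) ^ 2) (hu : 1 ≤ u)
    (h3 : t + 1 ≤ X) (hb : b = X ^ 43) : t * (b + 5) + 2 ≤ C ^ 45 * 2 ^ 90 * u ^ 90 := by
  have h4 : 1 ≤ b := by rw [hb]; exact Nat.one_le_pow _ _ (by omega)
  have h5 : t * (b + 5) + 2 ≤ X * (X * b) := by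
    calc t * (b + 5) + 2 ≤ X * (b + 5) + X :=
          Nat.add_le_add (Nat.mul_le_mul (by omega) le_rfl) (by omega)
      _ = X * (b + 6) := by ring
      _ ≤ X * (X * b) := by
        refine Nat.mul_le_mul_left _ ?_
        calc b + 6 ≤ 7 * b := by omega
          _ ≤ X * b := Nat.mul_le_mul_right _ (by omega)
  have h6 : X * (X * b) = X ^ 45 := by
    rw [hb, ← pow_succ', ← pow_succ']
  have h7 : X ^ 45 = C ^ 45 * (u + 1) ^ 90 := by
    rw [hXe, mul_pow, ← pow_mul]
  have h8 : (u + 1) ^ 90 ≤ 2 ^ 90 * u ^ 90 := by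
    rw [← mul_pow]
    exact Nat.pow_le_pow_left (by omega) _
  calc t * (b + 5) + 2 ≤ C ^ 45 * (u + 1) ^ 90 := by rw [← h7, ← h6]; exact h5
    _ ≤ C ^ 45 * (2 ^ 90 * u ^ 90) := Nat.mul_le_mul_left _ h8
    _ = C ^ 45 * 2 ^ 90 * u ^ 90 := by rw [mul_assoc]

/-- **The simulation of a `d`-dimensional tape is a history program.** -/
theorem exists_win_hist (d : ℕ) : ∃ K e : ℕ, ∀ (G : List Ins) (s L W : ℕ), Sz s G →
    4 * d + 7 ≤ s → W ≤ s → 1 ≤ L → 2 * L + 5 ≤ W →
    ∃ G' : List Ins, HSz (K * (s + L) ^ e) W G' ∧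
      ∀ (z : Inp) (st : ℕ → WSt d) (T : ℕ), T < 2 ^ W → WRun (eval G z) L W st T →
        (∀ t ≤ T, sta (eval G' z) W t 0 = (st t).V 0) ∧
        (∀ t ≤ T, sta (eval G' z) W t 2 = (st t).V 2) ∧
        (∀ t < T, rcl (eval G' z) W t = (st t).ix W t) := by
  obtain ⟨C, hC⟩ : ∃ C, C = 1000 * 4096 ^ (d + 1) := ⟨_, rfl⟩
  obtain ⟨K, hK⟩ : ∃ K, K = C ^ 45 * 2 ^ 90 := ⟨_, rfl⟩
  refine ⟨K, 90, ?_⟩
  intro G s L W hG hs hW hL _
  have hX := wX_ok (L := L) hs hW
  obtain ⟨G', h1, h2⟩ := exists_packed (y := wlay d s L W) (N := wX d s L ^ 43)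
    (nx := fun z => nxW d G s L W z) fun q _ => nxW_cp hX hL hs hW hG q
  refine ⟨G', ?_, fun z st T hT hst => ?_⟩
  · refine HSz.mono h1 ?_
    rw [hK]
    exact size_bound hX.X0 (C := C) (by rw [wX, hC]) (by omega) hX.xB rfl
  · obtain ⟨p, hp⟩ := exists_isRun (nxW d G s L W z)
    have hrun := nxW_run hG hs hL hW z (hp T) hst
    obtain ⟨h3, h4, h5, h6⟩ := h2 z p T (hp T) fun t ht => by
      obtain ⟨h7, h8⟩ := hrun t ht.le
      rw [h7]
      refine ⟨?_, Nat.two_pow_pos _, ?_, Nat.two_pow_pos _, fun j hj => enc_ge hj⟩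
      · show (st t).ix W t < 2 ^ W
        unfold WSt.ix
        split_ifs
        · exact num_lt _ _
        · omega
      · show t < 2 ^ W
        omega
    refine ⟨fun t ht => ?_, fun t ht => ?_, fun t ht => ?_⟩
    · have h7 : (p t).halt = (st t).V 0 := by
        rw [(hrun t ht).1]
        rfl
      exact (h4 t ht).trans h7
    · have h7 : (p t).ans = (st t).V 2 := by
        rw [(hrun t ht).1]
        rfl
      exact (h5 t ht).trans h7
    · have h8 : (p t).ix = (st t).ix W t := by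
        rw [(hrun t ht.le).1]
        rfl
      exact (h6 t ht).trans h8

end Pool.Agent.NUM
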