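import Pool.Agent.NUM.GCodeA

/-!
# The code of the simulation of `d`-dimensional tapes, part A: quantities with few values

`FV B s A F`: the value `F z M` lies in the finite set `A` and each statement `F z M = a` is
computable by code of size `s`.
-/

set_option autoImplicit false

namespace Pool.Agent.NUM

section

variable {X B k l n m : ℕ} {α β : Type}

theorem CP.toCp {s : ℕ} {f : Inp → Mem → Bool} (h : CP B s (fun z M => f z M = true)) :
    Cp B s f := by
  obtain ⟨g, hg, h1⟩ := h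
  refine hg.congr fun z M => ?_
  have h2 := h1 z M
  cases hf : f z M <;> cases hg' : g z M <;> simp_all

theorem CP.exF0 {s : ℕ} (A : Finset α) {P : α → Inp → Mem → Prop}
    (h : ∀ a ∈ A, CP B s (P a)) :
    CP B (A.card * (s + 12) + 8) (fun z M => ∃ a ∈ A, P a z M) := by
  classical
  induction A using Finset.induction_on with
  | empty =>
    refine ⟨fun _ _ => false, (Cp.const B false).mono le_rfl (by omega), fun z M => by simp⟩
  | insert a A ha ih =>
    obtain ⟨f, hf, hP⟩ := ih fun b hb => h b (Finset.mem_insert_of_mem hb)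
    obtain ⟨g, hg, hQ⟩ := h a (Finset.mem_insert_self _ _)
    refine ⟨_, (hg.or hf).mono le_rfl ?_, fun z M => ?_⟩
    · rw [Finset.card_insert_of_notMem ha, Nat.succ_mul]
      omega
    · show (g z M || f z M) = true ↔ _
      rw [Bool.or_eq_true, hP z M, hQ z M]
      constructor
      · rintro (h1 | ⟨b, hb, h1⟩)
        · exact ⟨a, Finset.mem_insert_self _ _, h1⟩
        · exact ⟨b, Finset.mem_insert_of_mem hb, h1⟩
      · rintro ⟨b, hb, h1⟩
        rcases Finset.mem_insert.1 hb with rfl | hb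
        · exact Or.inl h1
        · exact Or.inr ⟨b, hb, h1⟩

theorem CP.mono {s t : ℕ} {P : Inp → Mem → Prop} (h : CP B s P) (hs : s ≤ t) : CP B t P := by
  obtain ⟨f, hf, hP⟩ := h
  exact ⟨f, hf.mono le_rfl hs, hP⟩

theorem CP.exF (hX : 1000 ≤ X) {A : Finset α} (hA : A.card ≤ X) {P : α → Inp → Mem → Prop}
    (h : ∀ a ∈ A, CP B (X ^ k) (P a)) : CP B (X ^ (k + 2)) (fun z M => ∃ a ∈ A, P a z M) := by
  refine (CP.exF0 A h).mono (Xb2 hX k fun a h1 h2 => ?_)
  rw [← h2]
  have h3 : A.card * (a + 12) ≤ X * (13 * a) := Nat.mul_le_mul hA (by omega)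
  have h4 : X * (13 * a) + X * a ≤ X * (1000 * a) := by
    rw [← Nat.mul_add]
    exact Nat.mul_le_mul_left _ (by omega)
  have h5 : 8 ≤ X * a := by
    calc 8 ≤ X * 1 := by omega
      _ ≤ X * a := Nat.mul_le_mul_left _ h1
  omega

theorem CP.allF (hX : 1000 ≤ X) {A : Finset α} (hA : A.card ≤ X) {P : α → Inp → Mem → Prop}
    (h : ∀ a ∈ A, CP B (X ^ k) (P a)) : CP B (X ^ (k + 4)) (fun z M => ∀ a ∈ A, P a z M) := by
  refine (CP.not hX (CP.exF hX hA (k := k + 1) fun a ha => CP.not hX (h a ha))).congr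
    fun z M => ?_
  push Not
  rfl

/-- the finitely many values are computable -/
structure FV (B s : ℕ) (A : Finset α) (F : Inp → Mem → α) : Prop where
  mem : ∀ z M, F z M ∈ A
  eq : ∀ a ∈ A, CP B s (fun z M => F z M = a)

theorem FV.up {A : Finset α} {F : Inp → Mem → α} (h : FV B (X ^ k) A F) (hX : 1000 ≤ X)
    (hkl : k ≤ l) : FV B (X ^ l) A F := ⟨h.mem, fun a ha => (h.eq a ha).up hX hkl⟩

theorem FV.congr {s : ℕ} {A : Finset α} {F F' : Inp → Mem → α} (h : FV B s A F)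
    (hF : ∀ z M, F z M = F' z M) : FV B s A F' := by
  have : F = F' := by funext z M; exact hF z M
  rwa [← this]

theorem FV.selP (hX : 1000 ≤ X) {A : Finset α} (hA : A.card ≤ X) {F : Inp → Mem → α}
    (hF : FV B (X ^ k) A F) {P : α → Inp → Mem → Prop} (h : ∀ a ∈ A, CP B (X ^ k) (P a)) :
    CP B (X ^ (k + 3)) (fun z M => P (F z M) z M) := by
  refine (CP.exF hX hA (k := k + 1) fun a ha => CP.and hX (hF.eq a ha) (h a ha)).congr
    fun z M => ?_
  constructor
  · rintro ⟨a, _, h1, h2⟩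
    rw [h1]
    exact h2
  · intro h1
    exact ⟨F z M, hF.mem z M, rfl, h1⟩

theorem FV.pred (hX : 1000 ≤ X) {A : Finset α} (hA : A.card ≤ X) {F : Inp → Mem → α}
    (hF : FV B (X ^ (k + 1)) A F) (P : α → Prop) :
    CP B (X ^ (k + 4)) (fun z M => P (F z M)) :=
  FV.selP hX hA hF (P := fun a _ _ => P a) fun a _ => (CP.const hX _).up hX (by omega)

theorem FV.selB (hX : 1000 ≤ X) {A : Finset α} (hA : A.card ≤ X) {F : Inp → Mem → α}
    (hF : FV B (X ^ k) A F) {g : α → Inp → Mem → Bool} (h : ∀ a ∈ A, Cp B (X ^ k) (g a)) :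
    Cp B (X ^ (k + 3)) (fun z M => g (F z M) z M) :=
  CP.toCp (FV.selP hX hA hF (P := fun a z M => g a z M = true) fun a ha => CP.ofTrue (h a ha))

theorem FV.map [DecidableEq β] (hX : 1000 ≤ X) {A : Finset α} (hA : A.card ≤ X)
    {F : Inp → Mem → α} (hF : FV B (X ^ (k + 1)) A F) (φ : α → β) :
    FV B (X ^ (k + 4)) (A.image φ) (fun z M => φ (F z M)) :=
  ⟨fun z M => Finset.mem_image_of_mem _ (hF.mem z M),
    fun b _ => FV.pred hX hA hF (fun a => φ a = b)⟩

theorem FV.pair {A : Finset α} {A' : Finset β} {F : Inp → Mem → α} {F' : Inp → Mem → β}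
    (hX : 1000 ≤ X) (hF : FV B (X ^ k) A F) (hF' : FV B (X ^ k) A' F') :
    FV B (X ^ (k + 1)) (A ×ˢ A') (fun z M => (F z M, F' z M)) := by
  refine ⟨fun z M => Finset.mem_product.2 ⟨hF.mem z M, hF'.mem z M⟩, fun a ha => ?_⟩
  rw [Finset.mem_product] at ha
  refine (CP.and hX (hF.eq a.1 ha.1) (hF'.eq a.2 ha.2)).congr fun z M => ?_
  rw [Prod.ext_iff]

theorem FV.pi {d : ℕ} (hX : 1000 ≤ X) (hd : d ≤ X) {A : Finset α} {F : Fin d → Inp → Mem → α}
    (h : ∀ i, FV B (X ^ k) A (F i)) :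
    FV B (X ^ (k + 4)) (Fintype.piFinset fun _ : Fin d => A) (fun z M i => F i z M) := by
  refine ⟨fun z M => Fintype.mem_piFinset.2 fun i => (h i).mem z M, fun a ha => ?_⟩
  rw [Fintype.mem_piFinset] at ha
  refine (CP.allF hX (A := (Finset.univ : Finset (Fin d))) (by simpa using hd)
    (P := fun i z M => F i z M = a i) fun i _ => (h i).eq _ (ha i)).congr fun z M => ?_
  rw [funext_iff]
  simp

theorem FV.ofCN (hX : 1000 ≤ X) (hn : n ≤ X) {x : Inp → Mem → ℕ} (hx : CN B (X ^ (k + 1)) n x)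
    (hm : ∀ z M, x z M < m) : FV B (X ^ (k + 3)) (Finset.range m) x :=
  ⟨fun z M => Finset.mem_range.2 (hm z M), fun a _ => CP.eqC hX hn hx a⟩

theorem FV.ofInt (hX : 1000 ≤ X) (hn : n ≤ X) {x : Inp → Mem → ℤ}
    (hx : CN B (X ^ (k + 1)) n (fun z M => (x z M).toNat)) (h0 : ∀ z M, 0 ≤ x z M) {c : ℤ}
    (hc : ∀ z M, x z M < c) : FV B (X ^ (k + 3)) (Finset.Ico 0 c) x := by
  refine ⟨fun z M => Finset.mem_Ico.2 ⟨h0 z M, hc z M⟩, fun a ha => ?_⟩
  refine (CP.eqC hX hn hx a.toNat).congr fun z M => ?_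
  have h1 := h0 z M
  have h2 := (Finset.mem_Ico.1 ha).1
  constructor
  · intro h3
    have h4 := congrArg (fun t : ℕ => (t : ℤ)) h3
    simpa [Int.toNat_of_nonneg h1, Int.toNat_of_nonneg h2] using h4
  · intro h3
    rw [h3]

theorem CN.narrow {s : ℕ} {x : Inp → Mem → ℕ} (hx : CN B s m x) (h : ∀ z M, x z M < 2 ^ n) :
    CN B s n x := ⟨h, hx.bit⟩

end

end Pool.Agent.NUM
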