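import Pool.Agent.NUM.MStep
import Pool.Agent.NUM.HPack
import Pool.Agent.NUM.HNormCp

/-!
# The code of the simulation of `d`-dimensional tapes, part B: states as bit vectors
-/

set_option autoImplicit false

namespace Pool.Agent.NUM

/-- names of the bits of a state -/
inductive Ob (d : ℕ)
  | V (j : ℕ)
  | P (i : Fin d) (r : ℕ)
  | G (k : ℕ) (i : Fin d) (r : ℕ)
  | R (k : ℕ) (β : Fin d → Fin 32) (j : ℕ)
  | lev (r : ℕ)
  | q (r : ℕ)
  | cnt (r : ℕ)
  deriving DecidableEq

/-- the bits which are kept -/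
def Ob.ok {d : ℕ} (s L : ℕ) : Ob d → Prop
  | .V j => j < s
  | .P _ r => r < 2 * L + 5
  | .G k _ r => k < L ∧ r < 3
  | .R k _ j => k ≤ L ∧ j < s
  | .lev r => r < L
  | .q r => r < 3 * d + 2
  | .cnt r => r < 2 * L + 1

/-- the set of the bits which are kept -/
def obF (d s L : ℕ) : Finset (Ob d) :=
  (Finset.range s).image Ob.V ∪
  (((Finset.univ : Finset (Fin d)) ×ˢ Finset.range (2 * L + 5)).image fun x => Ob.P x.1 x.2) ∪
  ((Finset.range L ×ˢ (Finset.univ : Finset (Fin d)) ×ˢ Finset.range 3).image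
    fun x => Ob.G x.1 x.2.1 x.2.2) ∪
  ((Finset.range (L + 1) ×ˢ (Finset.univ : Finset (Fin d → Fin 32)) ×ˢ Finset.range s).image
    fun x => Ob.R x.1 x.2.1 x.2.2) ∪
  (Finset.range L).image Ob.lev ∪ (Finset.range (3 * d + 2)).image Ob.q ∪
  (Finset.range (2 * L + 1)).image Ob.cnt

theorem mem_obF {d s L : ℕ} {x : Ob d} : x ∈ obF d s L ↔ x.ok s L := by
  unfold obF Ob.ok
  cases x <;> simp [Nat.lt_succ_iff]

/-- the bit of a state with a given name -/
def obs {d : ℕ} (L : ℕ) (S : WSt d) : Ob d → Bool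
  | .V j => S.V j
  | .P i r => (S.p i % 2 ^ (2 * L + 5)).toNat.testBit r
  | .G k i r => (S.g k i % 8).toNat.testBit r
  | .R k β j => S.R k (fun i => ((β i : ℕ) : ℤ)) j
  | .lev r => S.lev.testBit r
  | .q r => S.q.testBit r
  | .cnt r => S.cnt.testBit r

section

variable {d : ℕ} (s L : ℕ)

/-- the bit vector of a state -/
noncomputable def enc (S : WSt d) : ℕ → Bool := fun j =>
  if h : j < (obF d s L).card then obs L S ((obF d s L).equivFin.symm ⟨j, h⟩ : Ob d) else false

/-- the bit with a given name in a bit vector -/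
noncomputable def bitAt (w : ℕ → Bool) (x : Ob d) : Bool :=
  if h : x ∈ obF d s L then w ((obF d s L).equivFin ⟨x, h⟩) else false

/-- `a` if `a < m`, otherwise `0` -/
def cla (m a : ℕ) : ℕ := if a < m then a else 0

/-- the state with a given bit vector -/
noncomputable def dec (w : ℕ → Bool) : WSt d where
  V := fun j => bitAt s L w (Ob.V j : Ob d)
  p := fun i => ((num (2 * L + 5) fun r => bitAt s L w (.P i r) : ℕ) : ℤ)
  g := fun k i => ((num 3 fun r => bitAt s L w (.G k i r) : ℕ) : ℤ)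
  R := fun k β j => bitAt s L w (.R k (fun i => Fin.ofNat 32 (β i).toNat) j)
  lev := cla L (num L fun r => bitAt s L w (Ob.lev r : Ob d))
  q := cla (8 ^ d + 2) (num (3 * d + 2) fun r => bitAt s L w (Ob.q r : Ob d))
  cnt := num (2 * L + 1) fun r => bitAt s L w (Ob.cnt r : Ob d)

/-- the bounds of the counters -/
structure WInvC (S : WSt d) : Prop where
  lev : S.lev < L
  q : S.q < 8 ^ d + 2
  cnt : S.cnt < 2 ^ (2 * L + 1)

/-- states with the same bits -/
structure WEq (S S' : WSt d) : Prop where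
  V : ∀ j < s, S.V j = S'.V j
  p : ∀ i, S.p i % 2 ^ (2 * L + 5) = S'.p i % 2 ^ (2 * L + 5)
  g : ∀ k < L, ∀ i, S.g k i % 8 = S'.g k i % 8
  R : ∀ k ≤ L, ∀ β : Fin d → ℤ, (∀ i, 0 ≤ β i ∧ β i < 32) → ∀ j < s, S.R k β j = S'.R k β j
  lev : S.lev = S'.lev
  q : S.q = S'.q
  cnt : S.cnt = S'.cnt

variable {s L} {S S' Y Y' : WSt d} {f : Mem → Mem} {k q m W : ℕ} {i : Fin d}

theorem bitAt_enc {x : Ob d} (hx : x.ok s L) : bitAt s L (enc s L S) x = obs L S x := by
  have h : x ∈ obF d s L := mem_obF.2 hx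
  unfold bitAt enc
  rw [dif_pos h, dif_pos (Fin.is_lt _)]
  simp

theorem enc_ge {j : ℕ} (h : (obF d s L).card ≤ j) : enc s L S j = false := by
  unfold enc
  rw [dif_neg (by omega)]

theorem enc_congr (h : ∀ x : Ob d, x.ok s L → obs L S x = obs L S' x) :
    enc s L S = enc s L S' := by
  funext j
  unfold enc
  by_cases hj : j < (obF d s L).card
  · rw [dif_pos hj, dif_pos hj]
    exact h _ (mem_obF.1 (Subtype.property _))
  · rw [dif_neg hj, dif_neg hj]

theorem WEq.obs (h : WEq s L S S') {x : Ob d} (hx : x.ok s L) :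
    obs L S x = Pool.Agent.NUM.obs L S' x := by
  cases x with
  | V j => exact h.V j hx
  | P i r =>
    show (S.p i % 2 ^ (2 * L + 5)).toNat.testBit r = (S'.p i % 2 ^ (2 * L + 5)).toNat.testBit r
    rw [h.p i]
  | G k i r =>
    show (S.g k i % 8).toNat.testBit r = (S'.g k i % 8).toNat.testBit r
    rw [h.g k hx.1 i]
  | R k β j =>
    exact h.R k hx.1 _ (fun i => ⟨by positivity, by exact_mod_cast (β i).isLt⟩) j hx.2
  | lev r =>
    show S.lev.testBit r = S'.lev.testBit r
    rw [h.lev]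
  | q r =>
    show S.q.testBit r = S'.q.testBit r
    rw [h.q]
  | cnt r =>
    show S.cnt.testBit r = S'.cnt.testBit r
    rw [h.cnt]

theorem WEq.symm (h : WEq s L S S') : WEq s L S' S :=
  ⟨fun j hj => (h.V j hj).symm, fun i => (h.p i).symm, fun k hk i => (h.g k hk i).symm,
    fun k hk β hβ j hj => (h.R k hk β hβ j hj).symm, h.lev.symm, h.q.symm, h.cnt.symm⟩

theorem ofNat_toNat_eq {β : ℤ} (h0 : 0 ≤ β) (h1 : β < 32) :
    (((Fin.ofNat 32 β.toNat : Fin 32) : ℕ) : ℤ) = β := by
  rw [Fin.val_ofNat]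
  omega

theorem dec_enc_R (S : WSt d) {k : ℕ} (hk : k ≤ L) {β : Fin d → ℤ}
    (hβ : ∀ i, 0 ≤ β i ∧ β i < 32) {j : ℕ} (hj : j < s) :
    (dec s L (enc s L S)).R k β j = S.R k β j := by
  show bitAt s L (enc s L S) (.R k (fun i => Fin.ofNat 32 (β i).toNat) j) = S.R k β j
  rw [bitAt_enc (show Ob.ok s L (.R k (fun i => Fin.ofNat 32 (β i).toNat) j) from ⟨hk, hj⟩)]
  show S.R k (fun i => ((((Fin.ofNat 32 (β i).toNat : Fin 32)) : ℕ) : ℤ)) j = S.R k β j
  congr 1
  funext i
  exact ofNat_toNat_eq (hβ i).1 (hβ i).2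

theorem num_eq_of_lt {n a : ℕ} (h : a < 2 ^ n) {g : ℕ → Bool} (hg : ∀ r < n, g r = a.testBit r) :
    num n g = a := Lay.hp_num_bits h hg

theorem q_lt (d : ℕ) : 8 ^ d + 2 < 2 ^ (3 * d + 2) := by
  have h1 : 2 ^ (3 * d + 2) = 4 * 8 ^ d := by
    rw [pow_add, pow_mul]
    norm_num
    ring
  have h2 : 1 ≤ 8 ^ d := Nat.one_le_pow _ _ (by norm_num)
  omega

theorem dec_enc (hS : WInvC L S) : WEq s L (dec s L (enc s L S)) S := by
  refine ⟨fun j hj => ?_, fun i => ?_, fun k hk i => ?_, fun k hk β hβ j hj => dec_enc_R S hk hβ hj,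
    ?_, ?_, ?_⟩
  · exact bitAt_enc (show Ob.ok s L (.V j) from hj)
  · show ((num (2 * L + 5) fun r => bitAt s L (enc s L S) (.P i r) : ℕ) : ℤ) % 2 ^ (2 * L + 5) = _
    have h0 : (0 : ℤ) < 2 ^ (2 * L + 5) := by positivity
    have h1 := Int.emod_nonneg (S.p i) h0.ne'
    have h2 := Int.emod_lt_of_pos (S.p i) h0
    have h3 : (num (2 * L + 5) fun r => bitAt s L (enc s L S) (.P i r)) =
        (S.p i % 2 ^ (2 * L + 5)).toNat := by
      refine num_eq_of_lt ?_ fun r hr => bitAt_enc (show Ob.ok s L (.P i r) from hr)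
      have h4 : ((2 ^ (2 * L + 5) : ℕ) : ℤ) = 2 ^ (2 * L + 5) := by push_cast; rfl
      omega
    rw [h3, Int.toNat_of_nonneg h1, Int.emod_emod_of_dvd _ dvd_rfl]
  · show ((num 3 fun r => bitAt s L (enc s L S) (.G k i r) : ℕ) : ℤ) % 8 = _
    have h3 : (num 3 fun r => bitAt s L (enc s L S) (.G k i r)) = (S.g k i % 8).toNat := by
      refine num_eq_of_lt ?_ fun r hr => bitAt_enc (show Ob.ok s L (.G k i r) from ⟨hk, hr⟩)
      omega
    rw [h3]
    omega
  · show cla L (num L fun r => bitAt s L (enc s L S) (Ob.lev r : Ob d)) = S.lev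
    have h3 : (num L fun r => bitAt s L (enc s L S) (Ob.lev r : Ob d)) = S.lev :=
      num_eq_of_lt (hS.lev.trans Nat.lt_two_pow_self) fun r hr =>
        bitAt_enc (show Ob.ok s L (.lev r) from hr)
    rw [h3, cla, if_pos hS.lev]
  · show cla (8 ^ d + 2) (num (3 * d + 2) fun r =>
      bitAt s L (enc s L S) (Ob.q r : Ob d)) = S.q
    have h3 : (num (3 * d + 2) fun r => bitAt s L (enc s L S) (Ob.q r : Ob d)) = S.q :=
      num_eq_of_lt (hS.q.trans (q_lt d)) fun r hr =>
        bitAt_enc (show Ob.ok s L (.q r) from hr)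
    rw [h3, cla, if_pos hS.q]
  · exact num_eq_of_lt hS.cnt fun r hr => bitAt_enc (show Ob.ok s L (.cnt r) from hr)

theorem enc_init (j : ℕ) : enc s L (WSt.init d) j = false := by
  have h1 : ∀ x : Ob d, obs L (WSt.init d) x = false := by
    intro x
    cases x <;> simp [obs, WSt.init, zeroMem]
  unfold enc
  split_ifs
  · exact h1 _
  · rfl

/-! ### one step depends only on the bits -/

theorem div_mod_congr {a b : ℤ} {n k : ℕ} (h : a % 2 ^ n = b % 2 ^ n) (hk : 2 * k + 5 ≤ n) :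
    a / 4 ^ k % 32 = b / 4 ^ k % 32 := by
  have h1 : ((4 : ℤ) ^ k * 32) ∣ 2 ^ n := by
    have : (4 : ℤ) ^ k * 32 = 2 ^ (2 * k + 5) := by
      rw [pow_add, pow_mul]; norm_num
    rw [this]
    exact pow_dvd_pow _ hk
  have h2 : a % (4 ^ k * 32) = b % (4 ^ k * 32) := by
    rw [← Int.emod_emod_of_dvd a h1, h, Int.emod_emod_of_dvd b h1]
  have h4 : (0 : ℤ) < 4 ^ k := by positivity
  have key : ∀ c : ℤ, c / 4 ^ k % 32 = (c % (4 ^ k * 32)) / 4 ^ k := by
    intro c
    have h5 : c = c % (4 ^ k * 32) + 4 ^ k * (32 * (c / (4 ^ k * 32))) := by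
      have := Int.emod_add_mul_ediv c (4 ^ k * 32)
      linarith
    have h6 : c / 4 ^ k = (c % (4 ^ k * 32)) / 4 ^ k + 32 * (c / (4 ^ k * 32)) := by
      conv_lhs => rw [h5]
      rw [Int.add_mul_ediv_left _ _ h4.ne']
    have h7 : 0 ≤ (c % (4 ^ k * 32)) / 4 ^ k :=
      Int.ediv_nonneg (Int.emod_nonneg _ (by positivity)) h4.le
    have h8 : (c % (4 ^ k * 32)) / 4 ^ k < 32 := by
      apply Int.ediv_lt_of_lt_mul h4
      have := Int.emod_lt_of_pos c (show (0 : ℤ) < 4 ^ k * 32 by positivity)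
      linarith
    rw [h6]
    omega
  rw [key a, key b, h2]

theorem WEq.hb (h : WEq s L S S') (hk : k ≤ L) : S.hb k i % 32 = S'.hb k i % 32 :=
  div_mod_congr (h.p i) (by omega)

theorem WEq.p32 (h : WEq s L S S') : S.p i % 32 = S'.p i % 32 := by
  have := div_mod_congr (k := 0) (h.p i) (by omega)
  simpa using this

theorem WEq.gap (h : WEq s L S S') (hk : k < L) : S.gap k i = S'.gap k i := by
  have h1 := h.hb (i := i) hk.le
  have h2 := h.g k hk i
  unfold WSt.gap
  omega

theorem WEq.big (h : WEq s L S S') (hk : k < L) : S.Big k ↔ S'.Big k := by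
  unfold WSt.Big
  refine exists_congr fun i => ?_
  rw [h.gap hk]

theorem findGreatest_congr' {P Q : ℕ → Prop} [DecidablePred P] [DecidablePred Q] {n : ℕ}
    (h : ∀ k ≤ n, P k ↔ Q k) : Nat.findGreatest P n = Nat.findGreatest Q n := by
  induction n with
  | zero => simp
  | succ n ih =>
    rw [Nat.findGreatest_succ, Nat.findGreatest_succ, ih fun k hk => h k (by omega)]
    by_cases h1 : P (n + 1)
    · rw [if_pos h1, if_pos ((h _ le_rfl).1 h1)]
    · rw [if_neg h1, if_neg fun h2 => h1 ((h _ le_rfl).2 h2)]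

theorem WEq.fg (h : WEq s L S S') (hL : 1 ≤ L) :
    Nat.findGreatest S.Big (L - 1) = Nat.findGreatest S'.Big (L - 1) :=
  findGreatest_congr' fun k hk => h.big (by omega)

theorem WEq.cen (h : WEq s L S S') (hk : k < L) : S.cen k i % 32 = S'.cen k i % 32 := by
  have h1 := h.hb (i := i) hk.le
  have h2 := h.gap (i := i) hk
  unfold WSt.cen
  omega

theorem WEq.sbx (h : WEq s L S S') (hk : k < L) : S.sbx k q i % 32 = S'.sbx k q i % 32 := by
  have h1 := h.cen (i := i) hk
  unfold WSt.sbx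
  omega

theorem mod32_mem (x : ℤ) : 0 ≤ x % 32 ∧ x % 32 < 32 := by omega

theorem WEq.ptr (h : WEq s L S S') (hk : k < L) (hW : W ≤ s) :
    S.ptr W k q = S'.ptr W k q := by
  unfold WSt.ptr
  refine num_congr fun r hr => ?_
  have h1 : (fun i => S'.sbx k q i % 32) = fun i => S.sbx k q i % 32 := by
    funext i
    exact (h.sbx hk).symm
  rw [h1]
  exact h.R (k + 1) (by omega) _ (fun i => mod32_mem _) r (by omega)

theorem WEq.ix (h : WEq s L S S') (hl : S.lev < L) (hW : W ≤ s) :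
    S.ix W m = S'.ix W m := by
  unfold WSt.ix
  rw [h.lev, h.cnt, h.q, h.ptr (h.lev ▸ hl) hW]

theorem WEq.newV (h : WEq s L S S') (hL : 1 ≤ L) {G : List Ins} (hG : Sz s G) (z : Inp) :
    Agr s (S.newV (eval G z)) (S'.newV (eval G z)) := by
  unfold WSt.newV
  have h1 : (fun i => S'.p i % 32) = fun i => S.p i % 32 := by
    funext i
    exact h.p32.symm
  rw [h1]
  refine eval_agr hG.2 fun j hj => ?_
  unfold mix
  split_ifs
  · exact h.V j hj
  · exact h.R 1 hL _ (fun i => mod32_mem _) j hj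

theorem mvd_congr {V V' : Mem} (h : Agr s V V') {i : ℕ} (hi : 4 * i + 7 ≤ s) :
    mvd V i = mvd V' i := by
  unfold mvd
  rw [h _ (by omega), h _ (by omega)]

theorem WEq.step (h : WEq s L S S') (hS : WInvC L S) (hL : 1 ≤ L) (hs : 4 * d + 7 ≤ s)
    {G : List Ins} (hG : Sz s G) (z : Inp)
    (hY : ∀ k ≤ L, ∀ β : Fin d → ℤ, (∀ i, 0 ≤ β i ∧ β i < 32) → ∀ j < s,
      Y.R k β j = Y'.R k β j) :
    WEq s L (S.step (eval G z) L m Y) (S'.step (eval G z) L m Y') := by
  have hlev := hS.lev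
  unfold WSt.step
  rw [h.fg hL, h.lev, h.cnt, h.q]
  rw [h.lev] at hlev
  by_cases c0 : S'.lev = 0
  · rw [if_pos c0, if_pos c0]
    by_cases c1 : Nat.findGreatest S'.Big (L - 1) = 0
    · rw [if_pos c1, if_pos c1]
      have hn := h.newV hL hG z
      refine ⟨hn, fun i => ?_, h.g, fun k hk β hβ j hj => ?_, h.lev, h.q, h.cnt⟩
      · show (S.p i + mvd (S.newV (eval G z)) i) % 2 ^ (2 * L + 5) =
          (S'.p i + mvd (S'.newV (eval G z)) i) % 2 ^ (2 * L + 5)
        rw [mvd_congr hn (by omega), Int.add_emod, h.p i, ← Int.add_emod]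
      · show (if k = 1 ∧ β = (fun i => S.p i % 32) then S.newV (eval G z) else S.R k β) j =
          (if k = 1 ∧ β = (fun i => S'.p i % 32) then S'.newV (eval G z) else S'.R k β) j
        have h1 : (fun i => S'.p i % 32) = fun i => S.p i % 32 := by
          funext i
          exact h.p32.symm
        rw [h1]
        split_ifs
        · exact hn j hj
        · exact h.R k hk β hβ j hj
    · rw [if_neg c1, if_neg c1]
      exact ⟨h.V, h.p, h.g, h.R, rfl, rfl, rfl⟩
  · rw [if_neg c0, if_neg c0]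
    by_cases c2 : S'.cnt < 4 ^ S'.lev
    · rw [if_pos c2, if_pos c2]
      exact ⟨h.V, h.p, h.g, h.R, rfl, rfl, rfl⟩
    rw [if_neg c2, if_neg c2]
    by_cases c3 : S'.q = 0
    · rw [if_pos c3, if_pos c3]
      refine ⟨h.V, h.p, fun k hk i => ?_, fun k hk β hβ j hj => ?_, h.lev, rfl, rfl⟩
      · show (if k = S.lev then S.hb k i % 8 else S.g k i) % 8 =
          (if k = S'.lev then S'.hb k i % 8 else S'.g k i) % 8
        rw [h.lev]
        have h1 := h.hb (i := i) hk.le
        have h2 := h.g k hk i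
        split_ifs
        · omega
        · exact h2
      · show (if k = S.lev + 1 ∧ ∀ i, (β i - S.cen S.lev i + 4) % 32 < 8 then
            (fun j => (m + 1).testBit j) else S.R k β) j =
          (if k = S'.lev + 1 ∧ ∀ i, (β i - S'.cen S'.lev i + 4) % 32 < 8 then
            (fun j => (m + 1).testBit j) else S'.R k β) j
        rw [h.lev]
        have h1 : (∀ i, (β i - S.cen S'.lev i + 4) % 32 < 8) ↔
            ∀ i, (β i - S'.cen S'.lev i + 4) % 32 < 8 := by
          refine forall_congr' fun i => ?_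
          have h2 := h.cen (i := i) hlev
          omega
        simp only [h1]
        split_ifs
        · rfl
        · exact h.R k hk β hβ j hj
    rw [if_neg c3, if_neg c3]
    by_cases c4 : S'.q ≤ 8 ^ d
    · rw [if_pos c4, if_pos c4]
      refine ⟨h.V, h.p, h.g, fun k hk β hβ j hj => ?_, h.lev, ?_, rfl⟩
      · show (if k = S.lev ∧ ∀ i, β i / 4 = dig S.q i then Y.R k β else S.R k β) j =
          (if k = S'.lev ∧ ∀ i, β i / 4 = dig S'.q i then Y'.R k β else S'.R k β) j
        rw [h.lev, h.q]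
        split_ifs
        · exact hY k hk β hβ j hj
        · exact h.R k hk β hβ j hj
      · show S.q + 1 = S'.q + 1
        rw [h.q]
    · rw [if_neg c4, if_neg c4]
      exact ⟨h.V, h.p, h.g, h.R, rfl, rfl, rfl⟩

/-- the bounds are preserved -/
theorem WInvC.step (h : WInvC L S) (hL : 1 ≤ L) : WInvC L (S.step f L m Y) := by
  have h8 : 1 ≤ 8 ^ d := Nat.one_le_pow _ _ (by norm_num)
  have hfg : Nat.findGreatest S.Big (L - 1) < L := by
    have := Nat.findGreatest_le (P := S.Big) (L - 1)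
    omega
  have h2 : 0 < 2 ^ (2 * L + 1) := by positivity
  unfold WSt.step
  split_ifs with c0 c1 c2 c3 c4
  · exact ⟨h.lev, h.q, h.cnt⟩
  · exact ⟨hfg, by show 0 < _; omega, h2⟩
  · refine ⟨h.lev, h.q, ?_⟩
    show S.cnt + 1 < 2 ^ (2 * L + 1)
    have h3 : 4 ^ S.lev ≤ 4 ^ L := Nat.pow_le_pow_right (by norm_num) h.lev.le
    have h4 : 2 ^ (2 * L + 1) = 2 * 4 ^ L := by
      rw [pow_succ, pow_mul]
      norm_num
      ring
    have h5 : 1 ≤ 4 ^ L := Nat.one_le_pow _ _ (by norm_num)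
    omega
  · exact ⟨h.lev, by show 1 < _; omega, h2⟩
  · exact ⟨h.lev, by show S.q + 1 < _; omega, h2⟩
  · exact ⟨by show 0 < L; omega, by show 0 < _; omega, h2⟩

/-! ### the machine -/

/-- the packed state number `m` -/
noncomputable def pkM (s L W m : ℕ) (S : WSt d) : PSt where
  halt := S.V 0
  ans := S.V 2
  fl := false
  ix := S.ix W m
  e := 0
  u := m
  n := 0
  X := enc s L S

/-- the layout -/
def wlay (d s L W : ℕ) : Lay := ⟨W, 0, (obF d s L).card⟩

/-- one pass of the simulation -/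
noncomputable def nxW (d : ℕ) (G : List Ins) (s L W : ℕ) (z : Inp) (p : PSt) (y : ℕ → Bool) : PSt :=
  pkM s L W (p.u + 1)
    ((dec s L p.X : WSt d).step (eval G z) L p.u (dec s L y))

theorem pk_congr (h : WEq s L S S') (hl : S.lev < L) (hW : W ≤ s) (hs : 3 ≤ s) :
    pkM s L W m S = pkM s L W m S' := by
  unfold pkM
  rw [PSt.mk.injEq]
  exact ⟨h.V 0 (by omega), h.V 2 (by omega), rfl, h.ix hl hW, rfl, rfl, rfl,
    enc_congr fun x hx => h.obs hx⟩

theorem pk_init : pkM s L W 0 (WSt.init d) = PSt.init := by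
  unfold pkM PSt.init
  rw [PSt.mk.injEq]
  refine ⟨rfl, rfl, rfl, ?_, rfl, rfl, rfl, ?_⟩
  · unfold WSt.ix
    rw [if_neg (by simp [WSt.init])]
  · funext j
    exact enc_init j

/-- the run of the machine -/
theorem nxW_run {G : List Ins} (hG : Sz s G) (hs : 4 * d + 7 ≤ s) (hL : 1 ≤ L) (hW : W ≤ s)
    (z : Inp) {p : ℕ → PSt} {st : ℕ → WSt d} {T : ℕ} (hp : IsRun (nxW d G s L W z) p T)
    (hst : WRun (eval G z) L W st T) :
    ∀ t ≤ T, p t = pkM s L W t (st t) ∧ WInvC L (st t) := by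
  intro t
  induction t using Nat.strong_induction_on with
  | _ t ih =>
    intro ht
    cases t with
    | zero =>
      rw [hp.1, hst.1, pk_init]
      exact ⟨rfl, by show 0 < L; omega, Nat.succ_pos _, by
        show 0 < 2 ^ (2 * L + 1); positivity⟩
    | succ t =>
      obtain ⟨h1, h2⟩ := ih t (by omega) (by omega)
      have h3 : (p t).ix = (st t).ix W t := by rw [h1]; rfl
      have hinv := h2.step (f := eval G z) (m := t)
        (Y := if (st t).ix W t ≤ t then st ((st t).ix W t) else WSt.init d) hL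
      rw [hst.2 t (by omega)]
      refine ⟨?_, hinv⟩
      have h4 : (if (p t).ix ≤ t then (p (p t).ix).X else fun _ => false) =
          enc s L (if (st t).ix W t ≤ t then st ((st t).ix W t) else WSt.init d) := by
        rw [h3]
        by_cases h5 : (st t).ix W t ≤ t
        · rw [if_pos h5, if_pos h5, (ih _ (by omega) (by omega)).1]
          rfl
        · rw [if_neg h5, if_neg h5]
          funext j
          exact (enc_init j).symm
      rw [hp.2 t (by omega), h4, h1]
      show pkM s L W (t + 1) ((dec s L (enc s L (st t)) : WSt d).step (eval G z) L t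
        (dec s L (enc s L _))) = _
      have h6 := (dec_enc (s := s) h2).symm
      have h7 := h6.step (m := t) (Y' := dec s L (enc s L
        (if (st t).ix W t ≤ t then st ((st t).ix W t) else WSt.init d)))
        (Y := if (st t).ix W t ≤ t then st ((st t).ix W t) else WSt.init d) h2 hL hs hG z
        (fun k hk β hβ j hj => (dec_enc_R _ hk hβ hj).symm)
      exact (pk_congr h7 hinv.lev hW (by omega)).symm

end

end Pool.Agent.NUM
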