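import Pool.Agent.NUM.MCodeA
import Pool.Agent.NUM.MCodeB

/-!
# The code of the simulation of `d`-dimensional tapes, part C: computable states
-/

set_option autoImplicit false

namespace Pool.Agent.NUM

/-- conditions on the base `X` of the size bounds -/
structure XOkM (d s L W B X : ℕ) : Prop where
  X0 : 1000 ≤ X
  xd : d ≤ X
  xA : 256 ^ d * (8 ^ d + 2) ≤ X
  xs : s ≤ X
  xL : 2 * L + 6 ≤ X
  xq : 3 * d + 2 ≤ X
  xW : W + 2 ≤ X
  xB : B + 1 ≤ X

/-- computable states -/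
structure CW (d s L B σ : ℕ) (F : Inp → Mem → WSt d) : Prop where
  inv : ∀ z M, WInvC L (F z M)
  obs : ∀ x : Ob d, x.ok s L → Cp B σ (fun z M => obs L (F z M) x)

section

variable {d s L W B X k : ℕ} {F F' Y : Inp → Mem → WSt d}

theorem CW.up {l : ℕ} (h : CW d s L B (X ^ k) F) (hX : 1000 ≤ X) (hkl : k ≤ l) :
    CW d s L B (X ^ l) F := ⟨h.inv, fun x hx => (h.obs x hx).up hX hkl⟩

theorem CW.congr {σ : ℕ} (h : CW d s L B σ F) (hF : ∀ z M, F z M = F' z M) :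
    CW d s L B σ F' := by
  have : F = F' := by funext z M; exact hF z M
  rwa [← this]

theorem CW.ite {P : Inp → Mem → Prop} [∀ z M, Decidable (P z M)] (hX : 1000 ≤ X)
    (hP : CP B (X ^ k) P) (h : CW d s L B (X ^ k) F) (h' : CW d s L B (X ^ k) F') :
    CW d s L B (X ^ (k + 1)) (fun z M => if P z M then F z M else F' z M) := by
  obtain ⟨f, hf, hfP⟩ := hP
  refine ⟨fun z M => ?_, fun x hx => (CX.bif hX hf (h.obs x hx) (h'.obs x hx)).congr
    fun z M => ?_⟩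
  · split_ifs
    · exact h.inv z M
    · exact h'.inv z M
  · by_cases h1 : P z M
    · rw [if_pos h1, (hfP z M).2 h1, cond_true]
    · have h2 : f z M = false := by
        cases h3 : f z M
        · rfl
        · exact absurd ((hfP z M).1 h3) h1
      rw [if_neg h1, h2, cond_false]

/-- a computable state from its components -/
theorem CW.of {σ : ℕ} (inv : ∀ z M, WInvC L (F z M))
    (V : ∀ j < s, Cp B σ (fun z M => (F z M).V j))
    (p : ∀ i, ∀ r < 2 * L + 5,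
      Cp B σ (fun z M => ((F z M).p i % 2 ^ (2 * L + 5)).toNat.testBit r))
    (g : ∀ k < L, ∀ i, ∀ r < 3, Cp B σ (fun z M => ((F z M).g k i % 8).toNat.testBit r))
    (R : ∀ k ≤ L, ∀ β : Fin d → ℤ, (∀ i, 0 ≤ β i ∧ β i < 32) → ∀ j < s,
      Cp B σ (fun z M => (F z M).R k β j))
    (lev : ∀ r < L, Cp B σ (fun z M => (F z M).lev.testBit r))
    (q : ∀ r < 3 * d + 2, Cp B σ (fun z M => (F z M).q.testBit r))
    (cnt : ∀ r < 2 * L + 1, Cp B σ (fun z M => (F z M).cnt.testBit r)) :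
    CW d s L B σ F := by
  refine ⟨inv, fun x hx => ?_⟩
  cases x with
  | V j => exact V j hx
  | P i r => exact p i r hx
  | G k i r => exact g k hx.1 i r hx.2
  | R k β j =>
    exact R k hx.1 _ (fun i => ⟨by positivity, by exact_mod_cast (β i).isLt⟩) j hx.2
  | lev r => exact lev r hx
  | q r => exact q r hx
  | cnt r => exact cnt r hx

theorem CN.ofBits {n : ℕ} {x : Inp → Mem → ℕ} (hX : 1000 ≤ X) (h : ∀ z M, x z M < 2 ^ n)
    (h' : ∀ r < n, Cp B (X ^ (k + 1)) (fun z M => (x z M).testBit r)) :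
    CN B (X ^ (k + 1)) n x := by
  refine ⟨h, fun r => ?_⟩
  by_cases hr : r < n
  · exact h' r hr
  · refine ((CX.const hX false).up hX (by omega : 1 ≤ k + 1)).congr fun z M => ?_
    symm
    exact Nat.testBit_lt_two_pow ((h z M).trans_le (Nat.pow_le_pow_right (by norm_num)
      (by omega)))

/-! ### components -/

theorem CW.V {σ : ℕ} (h : CW d s L B σ F) {j : ℕ} (hj : j < s) :
    Cp B σ (fun z M => (F z M).V j) := h.obs (.V j) hj

theorem CW.pBit {σ : ℕ} (h : CW d s L B σ F) (i : Fin d) {r : ℕ} (hr : r < 2 * L + 5) :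
    Cp B σ (fun z M => ((F z M).p i % 2 ^ (2 * L + 5)).toNat.testBit r) :=
  h.obs (.P i r) hr

theorem CW.gBit {σ : ℕ} (h : CW d s L B σ F) (i : Fin d) {κ r : ℕ} (hκ : κ < L) (hr : r < 3) :
    Cp B σ (fun z M => ((F z M).g κ i % 8).toNat.testBit r) :=
  h.obs (.G κ i r) ⟨hκ, hr⟩

theorem CW.R {σ : ℕ} (h : CW d s L B σ F) {κ : ℕ} (hκ : κ ≤ L) {β : Fin d → ℤ}
    (hβ : ∀ i, 0 ≤ β i ∧ β i < 32) {j : ℕ} (hj : j < s) :
    Cp B σ (fun z M => (F z M).R κ β j) := by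
  refine (h.obs (.R κ (fun i => Fin.ofNat 32 (β i).toNat) j) ⟨hκ, hj⟩).congr fun z M => ?_
  show (F z M).R κ (fun i => ((((Fin.ofNat 32 (β i).toNat : Fin 32)) : ℕ) : ℤ)) j = _
  congr 1
  funext i
  exact ofNat_toNat_eq (hβ i).1 (hβ i).2

theorem CW.levN (h : CW d s L B (X ^ (k + 1)) F) (hX : 1000 ≤ X) :
    CN B (X ^ (k + 1)) L (fun z M => (F z M).lev) :=
  CN.ofBits hX (fun z M => (h.inv z M).lev.trans Nat.lt_two_pow_self)
    fun r hr => h.obs (.lev r) hr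

theorem CW.qN (h : CW d s L B (X ^ (k + 1)) F) (hX : 1000 ≤ X) :
    CN B (X ^ (k + 1)) (3 * d + 2) (fun z M => (F z M).q) :=
  CN.ofBits hX (fun z M => (h.inv z M).q.trans (q_lt d)) fun r hr => h.obs (.q r) hr

theorem CW.cntN (h : CW d s L B (X ^ (k + 1)) F) (hX : 1000 ≤ X) :
    CN B (X ^ (k + 1)) (2 * L + 1) (fun z M => (F z M).cnt) :=
  CN.ofBits hX (fun z M => (h.inv z M).cnt) fun r hr => h.obs (.cnt r) hr

theorem toNat_mod_lt (x : ℤ) (n : ℕ) : (x % 2 ^ n).toNat < 2 ^ n := by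
  have h0 : (0 : ℤ) < 2 ^ n := by positivity
  have h1 := Int.emod_lt_of_pos x h0
  have h2 := Int.emod_nonneg x h0.ne'
  have h3 : (((x % 2 ^ n).toNat : ℕ) : ℤ) < ((2 ^ n : ℕ) : ℤ) := by
    rw [Int.toNat_of_nonneg h2]
    push_cast
    exact h1
  exact_mod_cast h3

theorem CW.pN (h : CW d s L B (X ^ (k + 1)) F) (hX : 1000 ≤ X) (i : Fin d) :
    CN B (X ^ (k + 1)) (2 * L + 5) (fun z M => ((F z M).p i % 2 ^ (2 * L + 5)).toNat) :=
  CN.ofBits hX (fun _ _ => toNat_mod_lt _ _) fun r hr => h.obs (.P i r) hr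

theorem CW.gN (h : CW d s L B (X ^ (k + 1)) F) (hX : 1000 ≤ X) {κ : ℕ} (hκ : κ < L)
    (i : Fin d) : CN B (X ^ (k + 1)) 3 (fun z M => ((F z M).g κ i % 8).toNat) :=
  CN.ofBits hX (fun z M => by omega) fun r hr => h.obs (.G κ i r) ⟨hκ, hr⟩

theorem CW.levF (h : CW d s L B (X ^ (k + 1)) F) (hX : XOkM d s L W B X) :
    FV B (X ^ (k + 3)) (Finset.range L) (fun z M => (F z M).lev) :=
  FV.ofCN hX.X0 (by have := hX.xL; omega) (h.levN hX.X0) fun z M => (h.inv z M).lev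

theorem CW.qF (h : CW d s L B (X ^ (k + 1)) F) (hX : XOkM d s L W B X) :
    FV B (X ^ (k + 3)) (Finset.range (8 ^ d + 2)) (fun z M => (F z M).q) :=
  FV.ofCN hX.X0 hX.xq (h.qN hX.X0) fun z M => (h.inv z M).q

theorem hb_num (x : ℤ) {n κ : ℕ} (h : 2 * κ + 5 ≤ n) :
    (x / 4 ^ κ % 32).toNat = num 5 (fun r => (x % 2 ^ n).toNat.testBit (2 * κ + r)) := by
  obtain ⟨a, ha⟩ : ∃ a : ℕ, a = (x % 2 ^ n).toNat := ⟨_, rfl⟩
  have h0 : (0 : ℤ) < 2 ^ n := by positivity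
  have h1 := Int.emod_nonneg x h0.ne'
  have h2 : (a : ℤ) = x % 2 ^ n := by rw [ha, Int.toNat_of_nonneg h1]
  have h3 : x / 4 ^ κ % 32 = (a : ℤ) / 4 ^ κ % 32 := by
    refine div_mod_congr ?_ h
    rw [h2, Int.emod_emod_of_dvd _ dvd_rfl]
  have h4 : ((a : ℤ) / 4 ^ κ % 32).toNat = a / 4 ^ κ % 32 := by
    have : (a : ℤ) / 4 ^ κ % 32 = ((a / 4 ^ κ % 32 : ℕ) : ℤ) := by push_cast; rfl
    rw [this, Int.toNat_natCast]
  rw [h3, h4, ← ha]
  have h5 : (4 : ℕ) ^ κ = 2 ^ (2 * κ) := by rw [pow_mul]; norm_num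
  have h6 : (fun r => a.testBit (2 * κ + r)) = fun r => (a / 2 ^ (2 * κ)).testBit r := by
    funext r
    rw [Nat.testBit_div_two_pow, Nat.add_comm]
  rw [h6, num_testBit, h5]
  norm_num

theorem CW.hb (h : CW d s L B (X ^ (k + 1)) F) (hX : 1000 ≤ X) {κ : ℕ} (hκ : κ ≤ L)
    (i : Fin d) : FV B (X ^ (k + 3)) (Finset.Ico (0 : ℤ) 32) (fun z M => (F z M).hb κ i % 32) := by
  refine FV.ofInt hX (n := 5) (by omega) ?_ (fun z M => by omega) (fun z M => by omega)
  refine (CN.of hX (n := 5) (g := fun r z M =>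
    ((F z M).p i % 2 ^ (2 * L + 5)).toNat.testBit (2 * κ + r))
    fun r hr => h.pBit i (by omega)).congr fun z M => ?_
  exact (hb_num ((F z M).p i) (by omega)).symm

theorem CW.g8 (h : CW d s L B (X ^ (k + 1)) F) (hX : 1000 ≤ X) {κ : ℕ} (hκ : κ < L)
    (i : Fin d) : FV B (X ^ (k + 3)) (Finset.Ico (0 : ℤ) 8) (fun z M => (F z M).g κ i % 8) :=
  FV.ofInt hX (n := 3) (by omega) (h.gN hX hκ i) (fun z M => by omega) (fun z M => by omega)

/-- the finite set of the possible residues -/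
noncomputable def AT (d : ℕ) : Finset (Fin d → ℤ × ℤ) :=
  Fintype.piFinset fun _ : Fin d => Finset.Ico (0 : ℤ) 32 ×ˢ Finset.Ico (0 : ℤ) 8

theorem card_AT (d : ℕ) : (AT d).card = 256 ^ d := by
  simp [AT]

/-- the residues of the boxes and centres -/
def tT (S : WSt d) (κ : ℕ) : Fin d → ℤ × ℤ := fun i => (S.hb κ i % 32, S.g κ i % 8)

theorem CW.tT (h : CW d s L B (X ^ (k + 1)) F) (hX : XOkM d s L W B X) {κ : ℕ} (hκ : κ < L) :
    FV B (X ^ (k + 8)) (AT d) (fun z M => tT (F z M) κ) :=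
  FV.pi (k := k + 4) hX.X0 hX.xd
    (F := fun i z M => ((F z M).hb κ i % 32, (F z M).g κ i % 8))
    fun i => FV.pair hX.X0 (h.hb hX.X0 hκ.le i) (h.g8 hX.X0 hκ i)

theorem AT_le (hX : XOkM d s L W B X) : (AT d).card ≤ X := by
  rw [card_AT]
  refine le_trans ?_ hX.xA
  exact Nat.le_mul_of_pos_right _ (Nat.succ_pos _)

/-- gap, centre, box as functions of the residues -/
def gapT (t : ℤ × ℤ) : ℤ := (t.1 - t.2 + 4) % 8

def cenT (t : ℤ × ℤ) : ℤ := t.1 + 4 - gapT t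

def sbxT (q : ℕ) (i : Fin d) (t : ℤ × ℤ) : ℤ := (cenT t - 4 + (dig q i - cenT t + 4) % 8) % 32

theorem gap_eq (S : WSt d) (κ : ℕ) (i : Fin d) : S.gap κ i = gapT (tT S κ i) := by
  unfold WSt.gap gapT tT
  dsimp only
  omega

theorem cen_eq (S : WSt d) (κ : ℕ) (i : Fin d) : S.cen κ i % 32 = cenT (tT S κ i) % 32 := by
  have h := gap_eq S κ i
  unfold WSt.cen cenT
  rw [← h]
  unfold tT
  dsimp only
  omega

theorem sbx_eq (S : WSt d) (κ q : ℕ) (i : Fin d) :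
    S.sbx κ q i % 32 = sbxT q i (tT S κ i) := by
  have h := cen_eq S κ i
  unfold WSt.sbx sbxT
  omega

theorem big_iff (S : WSt d) (κ : ℕ) :
    S.Big κ ↔ ∃ i, gapT (tT S κ i) < 3 ∨ 5 < gapT (tT S κ i) := by
  unfold WSt.Big
  refine exists_congr fun i => ?_
  rw [gap_eq]

theorem CW.big (h : CW d s L B (X ^ (k + 1)) F) (hX : XOkM d s L W B X) {κ : ℕ} (hκ : κ < L) :
    CP B (X ^ (k + 11)) (fun z M => (F z M).Big κ) :=
  (FV.pred (k := k + 7) hX.X0 (AT_le hX) (h.tT hX hκ)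
    (fun a => ∃ i, gapT (a i) < 3 ∨ 5 < gapT (a i))).congr fun _ _ => (big_iff _ _).symm

theorem CW.fg (h : CW d s L B (X ^ (k + 1)) F) (hX : XOkM d s L W B X) (hL : 1 ≤ L) :
    FV B (X ^ (k + 17)) (Finset.range L)
      (fun z M => Nat.findGreatest (F z M).Big (L - 1)) := by
  have hXL := hX.xL
  refine ⟨fun z M => ?_, fun a ha => ?_⟩
  · rw [Finset.mem_range]
    have := Nat.findGreatest_le (P := (F z M).Big) (L - 1)
    omega
  · rw [Finset.mem_range] at ha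
    have h1 : CP B (X ^ (k + 16)) (fun z M => a ≠ 0 → (F z M).Big a) := by
      by_cases h0 : a = 0
      · refine ((CP.const hX.X0 True).up hX.X0 (by omega)).congr fun z M => ?_
        simp [h0]
      · refine ((h.big hX ha).up hX.X0 (by omega)).congr fun z M => ?_
        simp [h0]
    have h2 : CP B (X ^ (k + 16)) (fun z M => ∀ κ ∈ Finset.Ioc a (L - 1), ¬ (F z M).Big κ) := by
      refine CP.allF (k := k + 12) hX.X0 (A := Finset.Ioc a (L - 1)) ?_
        (P := fun κ z M => ¬ (F z M).Big κ) fun κ hκ => ?_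
      · rw [Nat.card_Ioc]
        omega
      · rw [Finset.mem_Ioc] at hκ
        exact CP.not hX.X0 (h.big hX (by omega))
    refine (CP.and hX.X0 h1 h2).congr fun z M => ?_
    rw [Nat.findGreatest_eq_iff]
    constructor
    · rintro ⟨h3, h4⟩
      exact ⟨by omega, h3, fun n hn hn' => h4 n (Finset.mem_Ioc.2 ⟨hn, hn'⟩)⟩
    · rintro ⟨_, h3, h4⟩
      exact ⟨h3, fun n hn => h4 (Finset.mem_Ioc.1 hn).1 (Finset.mem_Ioc.1 hn).2⟩

/-- the pointer of a computable state for a fixed level -/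
theorem CW.ptrBit (h : CW d s L B (X ^ (k + 1)) F) (hX : XOkM d s L W B X) (hW : W ≤ s) {κ : ℕ}
    (hκ : κ < L) {r : ℕ} (hr : r < W) :
    Cp B (X ^ (k + 12)) (fun z M => ((F z M).ptr W κ (F z M).q).testBit r) := by
  have h1 := FV.pair (k := k + 8) hX.X0 (h.tT hX hκ) ((h.qF hX).up hX.X0 (by omega))
  have h2 : (AT d ×ˢ Finset.range (8 ^ d + 2)).card ≤ X := by
    rw [Finset.card_product, card_AT, Finset.card_range]
    exact hX.xA
  refine (FV.selB (k := k + 9) hX.X0 h2 h1 (g := fun a z M =>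
    (F z M).R (κ + 1) (fun i => sbxT a.2 i (a.1 i)) r) fun a _ => ?_).congr fun z M => ?_
  · refine (h.R (by omega) (fun i => ?_) (by omega)).up hX.X0 (by omega)
    exact mod32_mem _
  · unfold WSt.ptr
    rw [testBit_num]
    simp only [decide_eq_true hr, Bool.true_and]
    congr 1
    funext i
    exact (sbx_eq _ _ _ _).symm

theorem CW.ptr (h : CW d s L B (X ^ (k + 1)) F) (hX : XOkM d s L W B X) (hW : W ≤ s)
    {r : ℕ} (hr : r < W) :
    Cp B (X ^ (k + 15)) (fun z M => ((F z M).ptr W (F z M).lev (F z M).q).testBit r) := by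
  have hXL := hX.xL
  exact FV.selB (k := k + 12) hX.X0 (by rw [Finset.card_range]; omega)
    ((h.levF hX).up hX.X0 (by omega))
    (g := fun κ z M => ((F z M).ptr W κ (F z M).q).testBit r)
    fun κ hκ => h.ptrBit hX hW (Finset.mem_range.1 hκ) hr

/-- comparison of the counter with `4 ^ lev` -/
theorem CW.cntEq (h : CW d s L B (X ^ (k + 1)) F) (hX : XOkM d s L W B X) :
    CP B (X ^ (k + 6)) (fun z M => (F z M).cnt = 4 ^ (F z M).lev) := by
  have hXL := hX.xL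
  exact FV.selP (k := k + 3) hX.X0 (by rw [Finset.card_range]; omega) (h.levF hX)
    (P := fun a z M => (F z M).cnt = 4 ^ a) fun a _ =>
    CP.eqC hX.X0 (by omega) (h.cntN hX.X0) _

theorem CW.cntLt (h : CW d s L B (X ^ (k + 1)) F) (hX : XOkM d s L W B X) :
    CP B (X ^ (k + 7)) (fun z M => (F z M).cnt < 4 ^ (F z M).lev) := by
  have hXL := hX.xL
  exact FV.selP (k := k + 4) hX.X0 (by rw [Finset.card_range]; omega)
    ((h.levF hX).up hX.X0 (by omega))
    (P := fun a z M => (F z M).cnt < 4 ^ a) fun a _ =>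
    CP.ltC hX.X0 (by omega) (h.cntN hX.X0) _

/-- the number of the recalled state -/
theorem CW.ix (h : CW d s L B (X ^ (k + 1)) F) (hX : XOkM d s L W B X) (hW : W ≤ s)
    {m : Inp → Mem → ℕ} {r : ℕ} (hr : r < W)
    (hm : Cp B (X ^ (k + 15)) (fun z M => (m z M).testBit r)) :
    Cp B (X ^ (k + 16)) (fun z M => ((F z M).ix W (m z M)).testBit r) := by
  have hXL := hX.xL
  have c1 : CP B (X ^ (k + 6)) (fun z M => 1 ≤ (F z M).lev) :=
    FV.pred (k := k + 2) hX.X0 (by rw [Finset.card_range]; omega) (h.levF hX) (fun a => 1 ≤ a)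
  have hq : (Finset.range (8 ^ d + 2)).card ≤ X := by
    rw [Finset.card_range]
    refine le_trans ?_ hX.xA
    exact Nat.le_mul_of_pos_left _ (Nat.pos_of_ne_zero (by positivity))
  have c2 : CP B (X ^ (k + 6)) (fun z M => 1 ≤ (F z M).q ∧ (F z M).q ≤ 8 ^ d) :=
    FV.pred (k := k + 2) hX.X0 hq (h.qF hX) (fun a => 1 ≤ a ∧ a ≤ 8 ^ d)
  obtain ⟨f, hf, hfP⟩ := CP.and hX.X0 (c1.up hX.X0 (by omega : k + 6 ≤ k + 7))
    (CP.and hX.X0 (h.cntEq hX) c2)
  refine (CX.bif hX.X0 (hf.up hX.X0 (by omega : k + 7 + 1 ≤ k + 15)) (h.ptr hX hW hr)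
    hm).congr fun z M => ?_
  unfold WSt.ix
  by_cases h1 : 1 ≤ (F z M).lev ∧ (F z M).cnt = 4 ^ (F z M).lev ∧ 1 ≤ (F z M).q ∧
      (F z M).q ≤ 8 ^ d
  · rw [if_pos h1, (hfP z M).2 h1, cond_true]
  · have h2 : f z M = false := by
      cases h3 : f z M
      · rfl
      · exact absurd ((hfP z M).1 h3) h1
    rw [if_neg h1, h2, cond_false]

end

end Pool.Agent.NUM
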