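import Pool.Agent.NUM.TapeDefs

/-!
# Machines with one `d`-dimensional tape

A machine has a memory, a tape whose cells are the points of `ℤ ^ d` and contain words, and a head.
In each step a straight-line program (with random access to the input) gets the even cells of the
memory and, in the odd cells, the word in the scanned cell of the tape.
-/

set_option autoImplicit false

namespace Pool.Agent.NUM

/-- configurations: memory, tape, position of the head -/
structure MConf (d : ℕ) where
  mem : Mem
  tape : (Fin d → ℤ) → Mem
  pos : Fin d → ℤ

/-- the move of the head in direction `i`: `1` if cell `4 + 4 i` is `true`, otherwise `-1` if cell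
`6 + 4 i` is `true`, otherwise `0` -/
def mvd (V : Mem) (i : ℕ) : ℤ :=
  if V (4 + 4 * i) = true then 1 else if V (6 + 4 * i) = true then -1 else 0

/-- one step: the result is the new memory, it is written into the scanned cell (only its odd cells
are ever read), and the head moves -/
def MConf.step {d : ℕ} (f : Mem → Mem) (c : MConf d) : MConf d where
  mem := f (mix c.mem (c.tape c.pos))
  tape := Function.update c.tape c.pos (f (mix c.mem (c.tape c.pos)))
  pos := fun i => c.pos i + mvd (f (mix c.mem (c.tape c.pos))) i

/-- the configuration after `n` steps; at the beginning all cells are `false` -/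
def mconf (d : ℕ) (f : Mem → Mem) : ℕ → MConf d
  | 0 => ⟨zeroMem, fun _ => zeroMem, fun _ => 0⟩
  | n + 1 => (mconf d f n).step f

/-- the computation halts after exactly `N` steps: cell `0` is `true` for the first time -/
def MHaltsAt (d : ℕ) (f : Mem → Mem) (N : ℕ) : Prop :=
  (mconf d f N).mem 0 = true ∧ ∀ n < N, (mconf d f n).mem 0 = false

/-- the computation halts after at most `T` steps with the answer `b` -/
def MAns (d : ℕ) (f : Mem → Mem) (T : ℕ) (b : Bool) : Prop :=
  ∃ N ≤ T, MHaltsAt d f N ∧ (mconf d f N).mem 2 = b

/-- the machine with one `d`-dimensional tape and the program `G` decides `P` for all inputs with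
addresses of length at most `B` within `T` steps -/
def MDecides (d : ℕ) (G : List Ins) (B T : ℕ) (P : Inp → Prop) : Prop :=
  ∀ z : Inp, Supp B z → ∃ b : Bool, MAns d (eval G z) T b ∧ (b = true ↔ P z)

end Pool.Agent.NUM
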