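import Pool.Agent.NUM.MPad

/-!
# Hereditary separators of the computation graphs of multi-scale window simulations

The state `t` has the position `pos t`; `kind t = k ≥ 1` for the states in which a record of level `k`
(side `S k`) is stored (`src t`) or loaded, `kind t = 0` for all other states. Before and after a state
of kind `k` there are `S k` states of kind `0`.
-/

set_option autoImplicit false

namespace Pool.Agent.NUM

open Finset

/-- The axioms. -/
structure WGraph (N : ℕ) (rc : ℕ → ℕ) (d L C : ℕ) (S : ℕ → ℕ) (pos : ℕ → Fin d → ℤ)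
    (kind : ℕ → ℕ) (src : ℕ → Prop) (bx : ℕ → Fin d → ℤ) : Prop where
  side : ∀ k, 1 ≤ S k
  lip : ∀ t < N, ∀ i, |pos (t + 1) i - pos t i| ≤ 1
  kle : ∀ t ≤ N, kind t ≤ L
  pad : ∀ t ≤ N, 1 ≤ kind t → ∀ u ≤ N, u ≠ t → u ≤ t + S (kind t) → t ≤ u + S (kind t) →
    kind u = 0
  edge : ∀ t < N, rc t < t → rc t ≠ 0 → 1 ≤ kind (t + 1) ∧ ¬ src (t + 1) ∧
    kind (rc t) = kind (t + 1) ∧ src (rc t) ∧
    ∀ i, |pos (rc t) i - pos (t + 1) i| ≤ C * S (kind (t + 1))
  near : ∀ t < N, rc t < t → rc t ≠ 0 →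
    ∀ i, |S (kind (t + 1)) * bx (t + 1) i - pos (t + 1) i| ≤ C * S (kind (t + 1))
  box : ∀ t₁ t₂, t₁ < t₂ → t₂ < N → rc t₁ < t₁ → rc t₁ ≠ 0 → rc t₂ < t₂ → rc t₂ ≠ 0 →
    kind (t₁ + 1) = kind (t₂ + 1) → bx (t₁ + 1) = bx (t₂ + 1) → t₁ < rc t₂

namespace MH

/-- all states between `u` and `v` are in `W` -/
def Con (W : Finset ℕ) (u v : ℕ) : Prop := ∀ w, min u v ≤ w → w ≤ max u v → w ∈ W

theorem Con.refl {W : Finset ℕ} {u : ℕ} (h : u ∈ W) : Con W u u := by
  intro w h1 h2
  have h3 : w = u := by omega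
  rwa [h3]

theorem Con.symm {W : Finset ℕ} {u v : ℕ} (h : Con W u v) : Con W v u :=
  fun w h1 h2 => h w (by omega) (by omega)

theorem Con.trans {W : Finset ℕ} {u v w : ℕ} (h : Con W u v) (h' : Con W v w) : Con W u w := by
  intro x h1 h2
  by_cases c : min u v ≤ x ∧ x ≤ max u v
  · exact h x c.1 c.2
  · exact h' x (by omega) (by omega)

theorem Con.left {W : Finset ℕ} {u v : ℕ} (h : Con W u v) : u ∈ W := h u (by omega) (by omega)

theorem Con.right {W : Finset ℕ} {u v : ℕ} (h : Con W u v) : v ∈ W := h v (by omega) (by omega)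

/-- the pad before or after `t` is in `W` -/
def Anch (W : Finset ℕ) (s t : ℕ) : Prop := Con W t (t + s) ∨ (s ≤ t ∧ Con W (t - s) t)

theorem near_of_not_anch {W : Finset ℕ} {s t v : ℕ} (h : ¬ Anch W s t) (hc : Con W v t) :
    v < t + s ∧ t < v + s := by
  constructor
  · by_contra h1
    exact h (Or.inl fun w h2 h3 => hc w (by omega) (by omega))
  · by_contra h1
    exact h (Or.inr ⟨by omega, fun w h2 h3 => hc w (by omega) (by omega)⟩)

/-- `t` is a reader -/
def Rdr (N : ℕ) (rc : ℕ → ℕ) (t : ℕ) : Prop :=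
  1 ≤ t ∧ t ≤ N ∧ rc (t - 1) < t - 1 ∧ rc (t - 1) ≠ 0

/-- `v` is moved to `rc (t - 1)` -/
def Mv (N : ℕ) (rc S kind : ℕ → ℕ) (W : Finset ℕ) (t v : ℕ) : Prop :=
  Rdr N rc t ∧ rc (t - 1) ∈ W ∧ ¬ Anch W (S (kind t)) t ∧ Con W v t

open Classical in
/-- the map `φ` -/
noncomputable def ph (N : ℕ) (rc S kind : ℕ → ℕ) (W : Finset ℕ) (v : ℕ) : ℕ :=
  if h : ∃ t, Mv N rc S kind W t v then rc (h.choose - 1) else v

section

variable {N d L C : ℕ} {rc S kind : ℕ → ℕ} {pos : ℕ → Fin d → ℤ} {src : ℕ → Prop}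
  {bx : ℕ → Fin d → ℤ} {W : Finset ℕ}

theorem Rdr.kind_pos (hG : WGraph N rc d L C S pos kind src bx) {t : ℕ} (h : Rdr N rc t) :
    1 ≤ kind t ∧ ¬ src t ∧ kind (rc (t - 1)) = kind t ∧ src (rc (t - 1)) ∧
      ∀ i, |pos (rc (t - 1)) i - pos t i| ≤ C * S (kind t) := by
  obtain ⟨h1, h2, h3, h4⟩ := h
  have h5 := hG.edge (t - 1) (by omega) h3 h4
  rw [Nat.sub_add_cancel h1] at h5
  exact h5

/-- a special state which is connected with a moved reader is the reader -/
theorem Mv.eq_of_kind (hG : WGraph N rc d L C S pos kind src bx) {t v : ℕ}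
    (h : Mv N rc S kind W t v) (hv : v ≤ N) (hk : 1 ≤ kind v) : v = t := by
  by_contra hne
  obtain ⟨h1, h2, h3, h4⟩ := h
  have h5 := near_of_not_anch h3 h4
  have h6 := hG.pad t h1.2.1 (h1.kind_pos hG).1 v hv hne h5.1.le h5.2.le
  omega

theorem Mv.unique (hG : WGraph N rc d L C S pos kind src bx) {t t' v : ℕ}
    (h : Mv N rc S kind W t v) (h' : Mv N rc S kind W t' v) : t = t' := by
  have h1 : Mv N rc S kind W t' t := ⟨h'.1, h'.2.1, h'.2.2.1, h.2.2.2.symm.trans h'.2.2.2⟩
  exact h1.eq_of_kind hG h.1.2.1 (h.1.kind_pos hG).1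

theorem Mv.ph_eq (hG : WGraph N rc d L C S pos kind src bx) {t v : ℕ}
    (h : Mv N rc S kind W t v) : ph N rc S kind W v = rc (t - 1) := by
  have hex : ∃ t, Mv N rc S kind W t v := ⟨t, h⟩
  unfold ph
  rw [dif_pos hex, (hex.choose_spec).unique hG h]

theorem ph_eq_self {v : ℕ} (h : ¬ ∃ t, Mv N rc S kind W t v) : ph N rc S kind W v = v := by
  unfold ph
  rw [dif_neg h]

/-- the two ends of a step -/
theorem ph_step (hG : WGraph N rc d L C S pos kind src bx) {t : ℕ} (h1 : t ∈ W) (h2 : t + 1 ∈ W) :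
    ph N rc S kind W t = ph N rc S kind W (t + 1) ∨
      (ph N rc S kind W t = t ∧ ph N rc S kind W (t + 1) = t + 1) := by
  have hc : Con W t (t + 1) := by
    intro w h3 h4
    rcases (by omega : w = t ∨ w = t + 1) with h5 | h5
    · rwa [h5]
    · rwa [h5]
  by_cases hex : ∃ s, Mv N rc S kind W s t
  · obtain ⟨s, hs⟩ := hex
    left
    have h3 : Mv N rc S kind W s (t + 1) := ⟨hs.1, hs.2.1, hs.2.2.1, hc.symm.trans hs.2.2.2⟩
    rw [hs.ph_eq hG, h3.ph_eq hG]
  · right
    refine ⟨ph_eq_self hex, ph_eq_self ?_⟩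
    rintro ⟨s, hs⟩
    exact hex ⟨s, hs.1, hs.2.1, hs.2.2.1, hc.trans hs.2.2.2⟩

/-- sources are not moved -/
theorem ph_src (hG : WGraph N rc d L C S pos kind src bx) {v : ℕ} (hv : v ≤ N)
    (hk : 1 ≤ kind v) (hs : src v) : ph N rc S kind W v = v := by
  apply ph_eq_self
  rintro ⟨t, ht⟩
  have h1 := ht.eq_of_kind hG hv hk
  subst h1
  exact (ht.1.kind_pos hG).2.1 hs

/-- anchored readers are not moved -/
theorem ph_anch (hG : WGraph N rc d L C S pos kind src bx) {v : ℕ} (hr : Rdr N rc v)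
    (ha : Anch W (S (kind v)) v) : ph N rc S kind W v = v := by
  apply ph_eq_self
  rintro ⟨t, ht⟩
  have h1 := ht.eq_of_kind hG hr.2.1 (hr.kind_pos hG).1
  subst h1
  exact ht.2.2.1 ha

/-- the two ends of a recall -/
theorem ph_recall (hG : WGraph N rc d L C S pos kind src bx) {t : ℕ} (ht : t < N)
    (h1 : t + 1 ∈ W) (h2 : rc t ∈ W) (h3 : rc t < t) (h4 : rc t ≠ 0) :
    ph N rc S kind W (rc t) = rc t ∧
      (ph N rc S kind W (t + 1) = rc t ∨
        (Anch W (S (kind (t + 1))) (t + 1) ∧ ph N rc S kind W (t + 1) = t + 1)) := by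
  have hr : Rdr N rc (t + 1) := ⟨by omega, by omega, by simpa using h3, by simpa using h4⟩
  have hk := hr.kind_pos hG
  rw [Nat.add_sub_cancel] at hk
  refine ⟨ph_src hG (by omega) (by omega) hk.2.2.2.1, ?_⟩
  by_cases ha : Anch W (S (kind (t + 1))) (t + 1)
  · exact Or.inr ⟨ha, ph_anch hG hr ha⟩
  · left
    have h5 : Mv N rc S kind W (t + 1) (t + 1) :=
      ⟨hr, by simpa using h2, ha, Con.refl h1⟩
    rw [h5.ph_eq hG, Nat.add_sub_cancel]

/-! ### Counting -/

/-- few anchored readers of level `k` -/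
theorem card_anch (hG : WGraph N rc d L C S pos kind src bx) (k : ℕ)
    {A : Finset ℕ} (hA : ∀ v ∈ A, Rdr N rc v ∧ kind v = k ∧ Anch W (S k) v) :
    A.card * S k ≤ 2 * W.card := by
  classical
  have hsep : ∀ t ∈ A, ∀ t' ∈ A, t < t' → t + S k < t' := by
    intro t ht t' ht' hlt
    by_contra hcon
    obtain ⟨h1, h2, -⟩ := hA t ht
    obtain ⟨h1', h2', -⟩ := hA t' ht'
    have h3 := (h1.kind_pos hG).1
    have h4 := (h1'.kind_pos hG).1
    have h5 := hG.pad t h1.2.1 h3 t' h1'.2.1 (by omega) (by rw [h2]; omega) (by omega)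
    omega
  obtain ⟨A₁, hA₁⟩ : ∃ A₁, A₁ = A.filter fun t => Con W t (t + S k) := ⟨_, rfl⟩
  obtain ⟨A₂, hA₂⟩ : ∃ A₂, A₂ = A.filter fun t => S k ≤ t ∧ Con W (t - S k) t := ⟨_, rfl⟩
  have hsub : A ⊆ A₁ ∪ A₂ := by
    intro t ht
    rw [mem_union, hA₁, hA₂, mem_filter, mem_filter]
    rcases (hA t ht).2.2 with h | h
    · exact Or.inl ⟨ht, h⟩
    · exact Or.inr ⟨ht, h⟩
  have h1 : A₁.card * S k ≤ W.card := by
    calc A₁.card * S k = ∑ t ∈ A₁, (Ico t (t + S k)).card := by simp
      _ = (A₁.biUnion fun t => Ico t (t + S k)).card := by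
          rw [card_biUnion]
          intro t ht t' ht' hne
          rw [hA₁, mem_coe, mem_filter] at ht ht'
          rw [Function.onFun, disjoint_left]
          intro x hx hx'
          rw [mem_Ico] at hx hx'
          rcases Nat.lt_or_gt_of_ne hne with h | h
          · have := hsep t ht.1 t' ht'.1 h
            omega
          · have := hsep t' ht'.1 t ht.1 h
            omega
      _ ≤ W.card := by
          apply card_le_card
          intro x hx
          rw [mem_biUnion] at hx
          obtain ⟨t, ht, hx⟩ := hx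
          rw [hA₁, mem_filter] at ht
          rw [mem_Ico] at hx
          exact ht.2 x (by omega) (by omega)
  have h2 : A₂.card * S k ≤ W.card := by
    calc A₂.card * S k = ∑ t ∈ A₂, (Ioc (t - S k) t).card := by
          rw [← smul_eq_mul, ← sum_const]
          apply sum_congr rfl
          intro t ht
          rw [hA₂, mem_filter] at ht
          rw [Nat.card_Ioc]
          omega
      _ = (A₂.biUnion fun t => Ioc (t - S k) t).card := by
          rw [card_biUnion]
          intro t ht t' ht' hne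
          rw [hA₂, mem_coe, mem_filter] at ht ht'
          rw [Function.onFun, disjoint_left]
          intro x hx hx'
          rw [mem_Ioc] at hx hx'
          rcases Nat.lt_or_gt_of_ne hne with h | h
          · have := hsep t ht.1 t' ht'.1 h
            omega
          · have := hsep t' ht'.1 t ht.1 h
            omega
      _ ≤ W.card := by
          apply card_le_card
          intro x hx
          rw [mem_biUnion] at hx
          obtain ⟨t, ht, hx⟩ := hx
          rw [hA₂, mem_filter] at ht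
          rw [mem_Ioc] at hx
          exact ht.2.2 x (by omega) (by omega)
  have h3 : A.card ≤ A₁.card + A₂.card := (card_le_card hsub).trans (card_union_le _ _)
  calc A.card * S k ≤ (A₁.card + A₂.card) * S k := Nat.mul_le_mul_right _ h3
    _ = A₁.card * S k + A₂.card * S k := Nat.add_mul _ _ _
    _ ≤ 2 * W.card := by omega

open Classical in
/-- the cost of the hyperplane `x_i = a` -/
noncomputable def cost (N : ℕ) (rc S kind : ℕ → ℕ) (pos : ℕ → Fin d → ℤ) (C : ℕ) (W : Finset ℕ)
    (i : Fin d) (a : ℤ) : ℕ :=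
  (W.filter fun v => pos (ph N rc S kind W v) i = a).card +
    (W.filter fun v => (Rdr N rc v ∧ Anch W (S (kind v)) v) ∧
      |pos v i - a| ≤ C * S (kind v)).card

/-- the total cost -/
theorem sum_cost (hG : WGraph N rc d L C S pos kind src bx) (i : Fin d)
    (T : Finset ℤ) :
    ∑ a ∈ T, cost N rc S kind pos C W i a ≤ (1 + (4 * C + 2) * L) * W.card := by
  classical
  have h1 : ∑ a ∈ T, (W.filter fun v => pos (ph N rc S kind W v) i = a).card ≤ W.card := by
    rw [← card_biUnion]
    · apply card_le_card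
      intro t ht
      rw [mem_biUnion] at ht
      obtain ⟨x, _, hx⟩ := ht
      exact (mem_filter.1 hx).1
    · intro x _ y _ hxy
      rw [Function.onFun, disjoint_filter]
      intro t _ h3 h4
      exact hxy (h3.symm.trans h4)
  obtain ⟨Q, hQ⟩ : ∃ Q, Q = W.filter fun v => Rdr N rc v ∧ Anch W (S (kind v)) v := ⟨_, rfl⟩
  have h2 : ∑ a ∈ T, (W.filter fun v => (Rdr N rc v ∧ Anch W (S (kind v)) v) ∧
      |pos v i - a| ≤ C * S (kind v)).card ≤ ∑ v ∈ Q, (2 * C + 1) * S (kind v) := by
    have e : ∀ a ∈ T, (W.filter fun v => (Rdr N rc v ∧ Anch W (S (kind v)) v) ∧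
        |pos v i - a| ≤ C * S (kind v)).card
        = ∑ v ∈ Q, if |pos v i - a| ≤ C * S (kind v) then 1 else 0 := by
      intro a _
      rw [← filter_filter, ← hQ, card_filter]
    rw [sum_congr rfl e, sum_comm]
    apply sum_le_sum
    intro v _
    rw [← card_filter]
    have h3 : (T.filter fun a => |pos v i - a| ≤ C * S (kind v)) ⊆
        Icc (pos v i - C * S (kind v)) (pos v i + C * S (kind v)) := by
      intro a ha
      rw [mem_filter, abs_le] at ha
      rw [mem_Icc]
      constructor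
      · linarith [ha.2.2]
      · linarith [ha.2.1]
    refine (card_le_card h3).trans ?_
    rw [Int.card_Icc]
    have h4 := hG.side (kind v)
    have h5 : (pos v i + C * S (kind v) + 1 - (pos v i - C * S (kind v))).toNat
        = 2 * (C * S (kind v)) + 1 := by
      have : (pos v i + C * S (kind v) + 1 - (pos v i - C * S (kind v)) : ℤ)
          = ((2 * (C * S (kind v)) + 1 : ℕ) : ℤ) := by
        push_cast
        ring
      rw [this, Int.toNat_natCast]
    rw [h5]
    nlinarith
  have h3 : ∑ v ∈ Q, (2 * C + 1) * S (kind v) ≤ (2 * C + 1) * (L * (2 * W.card)) := by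
    rw [← mul_sum]
    apply Nat.mul_le_mul_left
    have hmap : ∀ v ∈ Q, kind v ∈ Icc 1 L := by
      intro v hv
      rw [hQ, mem_filter] at hv
      have hr := hv.2.1
      rw [mem_Icc]
      exact ⟨(hr.kind_pos hG).1, hG.kle v hr.2.1⟩
    rw [← sum_fiberwise_of_maps_to hmap]
    calc ∑ k ∈ Icc 1 L, ∑ v ∈ Q with kind v = k, S (kind v)
        ≤ ∑ _k ∈ Icc 1 L, 2 * W.card := by
          apply sum_le_sum
          intro k _
          have h4 : ∑ v ∈ Q with kind v = k, S (kind v) = (Q.filter fun v => kind v = k).card * S k := by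
            rw [← smul_eq_mul, ← sum_const]
            apply sum_congr rfl
            intro v hv
            rw [(mem_filter.1 hv).2]
          rw [h4]
          apply card_anch hG k
          intro v hv
          rw [mem_filter, hQ, mem_filter] at hv
          obtain ⟨⟨_, h5, h6⟩, h7⟩ := hv
          rw [h7] at h6
          exact ⟨h5, h7, h6⟩
      _ = L * (2 * W.card) := by simp
  have h4 : ∑ a ∈ T, cost N rc S kind pos C W i a
      = ∑ a ∈ T, (W.filter fun v => pos (ph N rc S kind W v) i = a).card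
        + ∑ a ∈ T, (W.filter fun v => (Rdr N rc v ∧ Anch W (S (kind v)) v) ∧
          |pos v i - a| ≤ C * S (kind v)).card := by
    rw [← sum_add_distrib]
    rfl
  rw [h4]
  calc _ ≤ W.card + (2 * C + 1) * (L * (2 * W.card)) := by omega
    _ = (1 + (4 * C + 2) * L) * W.card := by ring

theorem rpow_mul_rpow {n : ℝ} (hn : 0 < n) (d : ℕ) :
    n ^ (1 / ((d : ℝ) + 1)) * n ^ ((d : ℝ) / (d + 1)) = n := by
  rw [← Real.rpow_add hn, ← add_div, add_comm, div_self (by positivity), Real.rpow_one]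

theorem rpow_pow_eq {n : ℝ} (hn : 0 ≤ n) (d : ℕ) :
    (n ^ (1 / ((d : ℝ) + 1))) ^ d = n ^ ((d : ℝ) / (d + 1)) := by
  rw [← Real.rpow_natCast, ← Real.rpow_mul hn]
  congr 1
  ring

/-- light hyperplanes -/
theorem exists_light (hG : WGraph N rc d L C S pos kind src bx) (hW : 1 ≤ W.card) (i : Fin d)
    (T : Finset ℤ) (hT : ((W.card : ℝ)) ^ (1 / ((d : ℝ) + 1)) < T.card) :
    ∃ a ∈ T, (cost N rc S kind pos C W i a : ℝ) ≤
      ((1 + (4 * C + 2) * L : ℕ) : ℝ) * (W.card : ℝ) ^ ((d : ℝ) / (d + 1)) := by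
  by_contra hcon
  push Not at hcon
  have hn : (0 : ℝ) < W.card := by exact_mod_cast hW
  have h1 := sum_cost (W := W) hG i T
  have h2 : (T.card : ℝ) * (((1 + (4 * C + 2) * L : ℕ) : ℝ) * (W.card : ℝ) ^ ((d : ℝ) / (d + 1)))
      ≤ ((1 + (4 * C + 2) * L : ℕ) : ℝ) * W.card := by
    calc (T.card : ℝ) * (((1 + (4 * C + 2) * L : ℕ) : ℝ) * (W.card : ℝ) ^ ((d : ℝ) / (d + 1)))
        = ∑ _a ∈ T, ((1 + (4 * C + 2) * L : ℕ) : ℝ) * (W.card : ℝ) ^ ((d : ℝ) / (d + 1)) := by
          rw [sum_const, nsmul_eq_mul]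
      _ ≤ ∑ a ∈ T, (cost N rc S kind pos C W i a : ℝ) :=
          sum_le_sum fun a ha => (hcon a ha).le
      _ = ((∑ a ∈ T, cost N rc S kind pos C W i a : ℕ) : ℝ) := by push_cast; rfl
      _ ≤ (((1 + (4 * C + 2) * L) * W.card : ℕ) : ℝ) := by exact_mod_cast h1
      _ = ((1 + (4 * C + 2) * L : ℕ) : ℝ) * W.card := by push_cast; ring
  have hA : (0 : ℝ) < ((1 + (4 * C + 2) * L : ℕ) : ℝ) := by
    exact_mod_cast (by omega : 0 < 1 + (4 * C + 2) * L)
  have hp : (0 : ℝ) < (W.card : ℝ) ^ ((d : ℝ) / (d + 1)) := Real.rpow_pos_of_pos hn _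
  have h3 := mul_lt_mul_of_pos_right hT hp
  rw [rpow_mul_rpow hn] at h3
  have h4 := mul_lt_mul_of_pos_left h3 hA
  linarith

end

end MH

open MH in
/-- **Hereditary separators of multi-scale window simulations.** -/
theorem WGraph.hsep {N d L C : ℕ} {rc S kind : ℕ → ℕ} {pos : ℕ → Fin d → ℤ} {src : ℕ → Prop}
    {bx : ℕ → Fin d → ℤ} (hG : WGraph N rc d L C S pos kind src bx) :
    HSep N rc ((d : ℝ) / (d + 1))
      (3 + 2 * d * (1 + (4 * C + 2) * L) + L * (2 * C + 3) ^ d) := by
  classical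
  intro W hW
  rcases W.eq_empty_or_nonempty with hW0 | hWne
  · subst hW0
    refine ⟨∅, by simp, ∅, by simp, by simp, NoEdge.empty, by simp, by simp, ?_⟩
    simp only [union_empty, sdiff_empty, card_empty, Nat.cast_zero]
    positivity
  obtain ⟨n, hn⟩ : ∃ n, n = W.card := ⟨_, rfl⟩
  have hn1 : 1 ≤ n := by rw [hn]; exact card_pos.2 hWne
  have hnr : (1 : ℝ) ≤ n := by exact_mod_cast hn1
  obtain ⟨r, hr⟩ : ∃ r : ℝ, r = (n : ℝ) ^ (1 / ((d : ℝ) + 1)) := ⟨_, rfl⟩
  obtain ⟨y, hy⟩ : ∃ y : ℝ, y = (n : ℝ) ^ ((d : ℝ) / (d + 1)) := ⟨_, rfl⟩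
  have hr1 : 1 ≤ r := by rw [hr]; exact Real.one_le_rpow hnr (by positivity)
  have hy1 : 1 ≤ y := by rw [hy]; exact Real.one_le_rpow hnr (by positivity)
  have hry : r ^ d = y := by rw [hr, hy]; exact rpow_pow_eq (by linarith) d
  obtain ⟨q, hq⟩ : ∃ q, q = ⌊r⌋₊ := ⟨_, rfl⟩
  have hq1 : 1 ≤ q := by rw [hq]; exact Nat.le_floor (by simpa using hr1)
  have hq2 : (q : ℝ) ≤ r := by rw [hq]; exact Nat.floor_le (by linarith)
  have hq3 : r < q + 1 := by rw [hq]; exact Nat.lt_floor_add_one r
  obtain ⟨φ, hφ⟩ : ∃ φ, φ = ph N rc S kind W := ⟨_, rfl⟩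
  obtain ⟨A', hA'⟩ : ∃ A' : ℕ, A' = 1 + (4 * C + 2) * L := ⟨_, rfl⟩
  obtain ⟨cs, hcs⟩ : ∃ cs : Fin d → ℤ → ℕ, cs = cost N rc S kind pos C W := ⟨_, rfl⟩
  -- the hyperplanes
  have hpl : ∀ i : Fin d, ∃ m a b : ℤ, 2 * (W.filter fun v => pos (φ v) i < m).card ≤ n ∧
      2 * (W.filter fun v => m < pos (φ v) i).card ≤ n ∧ a ≤ m ∧ m ≤ b ∧ b - a ≤ 2 * q ∧
      (cs i a : ℝ) ≤ A' * y ∧ (cs i b : ℝ) ≤ A' * y := by
    intro i
    obtain ⟨t₀, -, hm1, hm2⟩ := exists_median W (fun v => pos (φ v) i) hWne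
    obtain ⟨m, hm⟩ : ∃ m, m = pos (φ t₀) i := ⟨_, rfl⟩
    rw [← hm] at hm1 hm2
    have hl : ∀ T : Finset ℤ, T.card = q + 1 → ∃ a ∈ T, (cs i a : ℝ) ≤ A' * y := by
      intro T hT
      have := exists_light (W := W) hG (by omega) i T (by
        rw [hT, ← hn, ← hr]
        push_cast
        exact hq3)
      rw [hcs, hA', hy, hn]
      exact this
    obtain ⟨a, ha, ha2⟩ := hl (Icc (m - q) m) (by rw [Int.card_Icc]; omega)
    obtain ⟨b, hb, hb2⟩ := hl (Icc m (m + q)) (by rw [Int.card_Icc]; omega)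
    rw [mem_Icc] at ha hb
    exact ⟨m, a, b, by rw [hn]; exact hm1, by rw [hn]; exact hm2, ha.2, hb.1, by omega, ha2, hb2⟩
  choose m a b hml hmr ham hmb hab hca hcb using hpl
  -- the central box and its median
  obtain ⟨cen, hcen⟩ : ∃ cen : ℕ → Prop,
      cen = fun v => ∀ i, a i < pos (φ v) i ∧ pos (φ v) i < b i := ⟨_, rfl⟩
  have cend : ∀ v, cen v ↔ ∀ i, a i < pos (φ v) i ∧ pos (φ v) i < b i := by
    intro v
    rw [hcen]
  obtain ⟨M, hM⟩ : ∃ M, M = W.filter fun v => cen v := ⟨_, rfl⟩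
  have hMn : M.card ≤ n := by rw [hM, hn]; exact card_filter_le _ _
  obtain ⟨v₀, hv1, hv2⟩ : ∃ v₀ : ℕ,
      2 * (M.filter fun u => toLex (φ u, u) < toLex (φ v₀, v₀)).card ≤ n ∧
      2 * (M.filter fun u => toLex (φ v₀, v₀) < toLex (φ u, u)).card ≤ n := by
    rcases M.eq_empty_or_nonempty with h | h
    · exact ⟨0, by rw [h]; simp, by rw [h]; simp⟩
    · obtain ⟨τ, -, h1, h2⟩ := exists_median M (fun u => toLex (φ u, u)) h
      exact ⟨τ, h1.trans hMn, h2.trans hMn⟩
  have hlex : ∀ x y z w : ℕ, toLex (x, y) < toLex (z, w) ↔ x < z ∨ (x = z ∧ y < w) := by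
    intro x y z w
    exact Prod.Lex.toLex_lt_toLex
  -- the deleted states
  obtain ⟨nr, hnr'⟩ : ∃ nr : ℕ → Prop, nr = fun v => Rdr N rc v ∧ Anch W (S (kind v)) v :=
    ⟨_, rfl⟩
  have nrd : ∀ v, nr v ↔ Rdr N rc v ∧ Anch W (S (kind v)) v := by
    intro v
    rw [hnr']
  obtain ⟨hyp, hhyp⟩ : ∃ hyp : ℕ → Fin d → ℤ → Prop,
      hyp = fun v i x => pos (φ v) i = x ∨ (nr v ∧ |pos v i - x| ≤ C * S (kind v)) := ⟨_, rfl⟩
  have hypd : ∀ v i x, hyp v i x ↔ pos (φ v) i = x ∨ (nr v ∧ |pos v i - x| ≤ C * S (kind v)) := by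
    intro v i x
    rw [hhyp]
  obtain ⟨cr, hcr⟩ : ∃ cr : ℕ → Prop,
      cr = fun v => cen v ∧ nr v ∧ rc (v - 1) < φ v₀ ∧ φ v₀ < v := ⟨_, rfl⟩
  have crd : ∀ v, cr v ↔ cen v ∧ nr v ∧ rc (v - 1) < φ v₀ ∧ φ v₀ < v := by
    intro v
    rw [hcr]
  obtain ⟨del, hdel⟩ : ∃ del : ℕ → Prop, del = fun v => v = 0 ∨ v = v₀ ∨ v = φ v₀ ∨
      (∃ i, hyp v i (a i) ∨ hyp v i (b i)) ∨ cr v := ⟨_, rfl⟩
  have deld : ∀ v, del v ↔ v = 0 ∨ v = v₀ ∨ v = φ v₀ ∨
      (∃ i, hyp v i (a i) ∨ hyp v i (b i)) ∨ cr v := by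
    intro v
    rw [hdel]
  have ndel : ∀ v, ¬ del v → v ≠ 0 ∧ v ≠ v₀ ∧ v ≠ φ v₀ ∧
      (∀ i, pos (φ v) i ≠ a i ∧ pos (φ v) i ≠ b i ∧
        (nr v → C * S (kind v) < |pos v i - a i| ∧ C * S (kind v) < |pos v i - b i|)) ∧
      ¬ cr v := by
    intro v hv
    rw [deld] at hv
    push Not at hv
    obtain ⟨h1, h2, h3, h4, h5⟩ := hv
    refine ⟨h1, h2, h3, fun i => ?_, h5⟩
    have h6 := h4 i
    rw [hypd, hypd] at h6
    push Not at h6
    exact ⟨h6.1.1, h6.2.1, fun h => ⟨h6.1.2 h, h6.2.2 h⟩⟩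
  -- the classes
  obtain ⟨sd, hsd⟩ : ∃ sd : ℕ → Fin d → Fin 3,
      sd = fun v i => if pos (φ v) i < a i then 0 else if b i < pos (φ v) i then 1 else 2 :=
    ⟨_, rfl⟩
  have sdd : ∀ v i, sd v i = if pos (φ v) i < a i then 0 else if b i < pos (φ v) i then 1 else 2 := by
    intro v i
    rw [hsd]
  obtain ⟨tm, htm⟩ : ∃ tm : ℕ → Bool,
      tm = fun v => decide (cen v ∧ toLex (φ v₀, v₀) < toLex (φ v, v)) := ⟨_, rfl⟩
  have tmd : ∀ v, tm v = decide (cen v ∧ toLex (φ v₀, v₀) < toLex (φ v, v)) := by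
    intro v
    rw [htm]
  obtain ⟨cl, hcl⟩ : ∃ cl : ℕ → ℕ, cl = fun v => if del v then 0 else
      1 + (Fintype.equivFin ((Fin d → Fin 3) × Bool) (sd v, tm v) : ℕ) := ⟨_, rfl⟩
  have cl0 : ∀ v, cl v = 0 ↔ del v := by
    intro v
    rw [hcl]
    by_cases h : del v
    · simp [h]
    · simp only [h, if_false, iff_false]
      omega
  have cleq : ∀ u v, ¬ del u → ¬ del v → (cl u = cl v ↔ sd u = sd v ∧ tm u = tm v) := by
    intro u v hu hv
    have h1 : cl u = 1 + (Fintype.equivFin ((Fin d → Fin 3) × Bool) (sd u, tm u) : ℕ) := by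
      rw [hcl]; simp [hu]
    have h2 : cl v = 1 + (Fintype.equivFin ((Fin d → Fin 3) × Bool) (sd v, tm v) : ℕ) := by
      rw [hcl]; simp [hv]
    rw [h1, h2]
    constructor
    · intro h
      have h3 : Fintype.equivFin ((Fin d → Fin 3) × Bool) (sd u, tm u)
          = Fintype.equivFin ((Fin d → Fin 3) × Bool) (sd v, tm v) := Fin.ext (by omega)
      have h4 := (Fintype.equivFin ((Fin d → Fin 3) × Bool)).injective h3
      exact Prod.mk.inj h4
    · rintro ⟨h3, h4⟩
      rw [h3, h4]
  -- central states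
  have cenl : ∀ v, ¬ del v → (cen v ↔ ∀ i, sd v i = 2) := by
    intro v hv
    obtain ⟨-, -, -, h4, -⟩ := ndel v hv
    rw [cend]
    apply forall_congr'
    intro i
    rw [sdd]
    have h5 := h4 i
    by_cases g1 : pos (φ v) i < a i
    · rw [if_pos g1]
      constructor
      · intro h; omega
      · intro h; exact absurd h (by decide)
    · rw [if_neg g1]
      by_cases g2 : b i < pos (φ v) i
      · rw [if_pos g2]
        constructor
        · intro h; omega
        · intro h; exact absurd h (by decide)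
      · rw [if_neg g2]
        constructor
        · intro h; rfl
        · intro h
          exact ⟨by have := h5.1; omega, by have := h5.2.1; omega⟩
  have key1 : ∀ u v, ¬ del u → ¬ del v →
      (∀ i, pos (φ u) i < a i ↔ pos (φ v) i < a i) → (∀ i, b i < pos (φ u) i ↔ b i < pos (φ v) i) →
      (cen u → cen v → (toLex (φ v₀, v₀) < toLex (φ u, u) ↔ toLex (φ v₀, v₀) < toLex (φ v, v))) →
      cl u = cl v := by
    intro u v hu hv h1 h2 h3
    have h4 : sd u = sd v := by
      funext i
      rw [sdd, sdd]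
      simp only [h1 i, h2 i]
    have h5 : cen u ↔ cen v := by rw [cenl u hu, cenl v hv, h4]
    rw [cleq u v hu hv]
    refine ⟨h4, ?_⟩
    rw [tmd, tmd]
    apply decide_eq_decide.2
    constructor
    · rintro ⟨h6, h7⟩
      exact ⟨h5.1 h6, (h3 h6 (h5.1 h6)).1 h7⟩
    · rintro ⟨h6, h7⟩
      exact ⟨h5.2 h6, (h3 (h5.2 h6) h6).2 h7⟩
  have hstep : ∀ t, t < N → t ∈ W → t + 1 ∈ W → ¬ del t → ¬ del (t + 1) → cl t = cl (t + 1) := by
    intro t htN ht ht1 hd hd1
    obtain ⟨k1, k2, k3, k4, -⟩ := ndel t hd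
    obtain ⟨l1, l2, l3, l4, -⟩ := ndel (t + 1) hd1
    have hph := ph_step (W := W) hG ht ht1
    rw [← hφ] at hph
    rcases hph with h | ⟨h, h'⟩
    · apply key1 t (t + 1) hd hd1
      · intro i; rw [h]
      · intro i; rw [h]
      · intro _ _
        rw [hlex, hlex, h]
        constructor
        · rintro (h1 | ⟨h1, h2⟩)
          · exact Or.inl h1
          · exact Or.inr ⟨h1, by omega⟩
        · rintro (h1 | ⟨h1, h2⟩)
          · exact Or.inl h1
          · exact Or.inr ⟨h1, by omega⟩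
    · have hl := hG.lip t htN
      apply key1 t (t + 1) hd hd1
      · intro i
        have h1 := hl i
        have h2 := k4 i
        have h3 := l4 i
        rw [h] at h2 ⊢
        rw [h'] at h3 ⊢
        rw [abs_le] at h1
        have h4 := h2.1
        have h5 := h3.1
        constructor <;> intro h6 <;> omega
      · intro i
        have h1 := hl i
        have h2 := k4 i
        have h3 := l4 i
        rw [h] at h2 ⊢
        rw [h'] at h3 ⊢
        rw [abs_le] at h1
        have h4 := h2.2.1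
        have h5 := h3.2.1
        constructor <;> intro h6 <;> omega
      · intro _ _
        rw [hlex, hlex, h, h']
        constructor
        · rintro (h1 | ⟨h1, h2⟩)
          · exact Or.inl (by omega)
          · exact absurd h1.symm k3
        · rintro (h1 | ⟨h1, h2⟩)
          · exact Or.inl (by omega)
          · exact absurd h1.symm l3
  have hrec : ∀ t, t < N → t + 1 ∈ W → rc t ∈ W → rc t < t → rc t ≠ 0 → ¬ del (rc t) →
      ¬ del (t + 1) → cl (rc t) = cl (t + 1) := by
    intro t htN ht1 hs hlt h0 hd hd1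
    obtain ⟨k1, k2, k3, k4, -⟩ := ndel (rc t) hd
    obtain ⟨l1, l2, l3, l4, l5⟩ := ndel (t + 1) hd1
    have hph := ph_recall (W := W) hG htN ht1 hs hlt h0
    rw [← hφ] at hph
    obtain ⟨h, h' | ⟨ha, h'⟩⟩ := hph
    · apply key1 (rc t) (t + 1) hd hd1
      · intro i; rw [h, h']
      · intro i; rw [h, h']
      · intro _ _
        rw [hlex, hlex, h, h']
        constructor
        · rintro (h1 | ⟨h1, h2⟩)
          · exact Or.inl h1
          · exact absurd h1.symm k3
        · rintro (h1 | ⟨h1, h2⟩)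
          · exact Or.inl h1
          · exact absurd h1.symm k3
    · have hr : Rdr N rc (t + 1) := ⟨by omega, by omega, by simpa using hlt, by simpa using h0⟩
      have hnr1 : nr (t + 1) := (nrd _).2 ⟨hr, ha⟩
      have he := (hr.kind_pos hG).2.2.2.2
      rw [Nat.add_sub_cancel] at he
      apply key1 (rc t) (t + 1) hd hd1
      · intro i
        have h1 := he i
        have h2 := k4 i
        have h3 := l4 i
        rw [h] at h2 ⊢
        rw [h'] at h3 ⊢
        have h4 := (h3.2.2 hnr1).1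
        rw [lt_abs] at h4
        rw [abs_le] at h1
        have h5 := h2.1
        have h6 := h3.1
        constructor <;> intro h7 <;> omega
      · intro i
        have h1 := he i
        have h2 := k4 i
        have h3 := l4 i
        rw [h] at h2 ⊢
        rw [h'] at h3 ⊢
        have h4 := (h3.2.2 hnr1).2
        rw [lt_abs] at h4
        rw [abs_le] at h1
        have h5 := h2.2.1
        have h6 := h3.2.1
        constructor <;> intro h7 <;> omega
      · intro _ hc2
        rw [hlex, hlex, h, h']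
        constructor
        · rintro (h1 | ⟨h1, h2⟩)
          · exact Or.inl (by omega)
          · exact absurd h1.symm k3
        · rintro (h1 | ⟨h1, h2⟩)
          · left
            by_contra h3
            apply l5
            rw [crd]
            refine ⟨hc2, hnr1, ?_, h1⟩
            rw [Nat.add_sub_cancel]
            omega
          · exact absurd h1.symm l3
  obtain ⟨A, hA, B, hB, hAB, hNE, hAc, hBc, hX⟩ := exists_group W rc cl
    (by
      intro j hj
      rcases (W.filter fun t => cl t = j).eq_empty_or_nonempty with h | ⟨v₁, h⟩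
      · rw [h]; simp
      rw [mem_filter] at h
      obtain ⟨hv1W, hv1j⟩ := h
      have hv1d : ¬ del v₁ := by
        rw [← cl0]
        omega
      have hsub : ∀ v ∈ W.filter (fun t => cl t = j), v ∈ W ∧ ¬ del v ∧ sd v = sd v₁ ∧
          tm v = tm v₁ := by
        intro v hv
        rw [mem_filter] at hv
        have h1 : ¬ del v := by
          rw [← cl0]
          omega
        exact ⟨hv.1, h1, (cleq v v₁ h1 hv1d).1 (by omega)⟩
      by_cases g1 : ∃ i, sd v₁ i = 0
      · obtain ⟨i, hi⟩ := g1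
        have h2 : (W.filter fun t => cl t = j).card ≤
            (W.filter fun v => pos (φ v) i < m i).card := by
          apply card_le_card
          intro v hv
          obtain ⟨h3, h4, h5, -⟩ := hsub v hv
          rw [mem_filter]
          refine ⟨h3, lt_of_lt_of_le ?_ (ham i)⟩
          rw [← h5, sdd] at hi
          by_contra h6
          rw [if_neg h6] at hi
          split_ifs at hi
          · exact absurd hi (by decide)
          · exact absurd hi (by decide)
        have := hml i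
        omega
      by_cases g2 : ∃ i, sd v₁ i = 1
      · obtain ⟨i, hi⟩ := g2
        have h2 : (W.filter fun t => cl t = j).card ≤
            (W.filter fun v => m i < pos (φ v) i).card := by
          apply card_le_card
          intro v hv
          obtain ⟨h3, h4, h5, -⟩ := hsub v hv
          rw [mem_filter]
          refine ⟨h3, lt_of_le_of_lt (hmb i) ?_⟩
          rw [← h5, sdd] at hi
          by_contra h6
          rw [if_neg h6] at hi
          split_ifs at hi
          · exact absurd hi (by decide)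
          · exact absurd hi (by decide)
        have := hmr i
        omega
      have g3 : ∀ i, sd v₁ i = 2 := by
        intro i
        have h2 : sd v₁ i ≠ 0 := fun h => g1 ⟨i, h⟩
        have h3 : sd v₁ i ≠ 1 := fun h => g2 ⟨i, h⟩
        revert h2 h3
        generalize sd v₁ i = z
        revert z
        decide
      have hcenj : ∀ v ∈ W.filter (fun t => cl t = j), v ∈ M := by
        intro v hv
        obtain ⟨h3, h4, h5, -⟩ := hsub v hv
        rw [hM, mem_filter]
        refine ⟨h3, (cenl v h4).2 ?_⟩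
        rw [h5]
        exact g3
      cases htv : tm v₁ with
      | true =>
        have h2 : (W.filter fun t => cl t = j).card ≤
            (M.filter fun u => toLex (φ v₀, v₀) < toLex (φ u, u)).card := by
          apply card_le_card
          intro v hv
          obtain ⟨h3, h4, h5, h6⟩ := hsub v hv
          rw [htv, tmd, decide_eq_true_iff] at h6
          rw [mem_filter]
          exact ⟨hcenj v hv, h6.2⟩
        omega
      | false =>
        have h2 : (W.filter fun t => cl t = j).card ≤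
            (M.filter fun u => toLex (φ u, u) < toLex (φ v₀, v₀)).card := by
          apply card_le_card
          intro v hv
          obtain ⟨h3, h4, h5, h6⟩ := hsub v hv
          have h7 := hcenj v hv
          rw [htv, tmd, decide_eq_false_iff_not] at h6
          rw [mem_filter]
          refine ⟨h7, ?_⟩
          rw [hM, mem_filter] at h7
          have h8 : ¬ toLex (φ v₀, v₀) < toLex (φ v, v) := fun h => h6 ⟨h7.2, h⟩
          rcases lt_or_eq_of_le (not_lt.1 h8) with h9 | h9
          · exact h9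
          · exfalso
            have h10 := (Prod.mk.inj (toLex.injective h9)).2
            exact (ndel v h4).2.1 h10
        omega)
    (by
      intro t ht hc
      have htN : t < N := by
        have := mem_range.1 (hW ht)
        omega
      have hd1 : ¬ del (t + 1) := by rwa [← cl0]
      constructor
      · intro h1 h2
        exact hstep t htN h1 ht (by rwa [← cl0]) hd1
      · intro hle h1 h2
        rcases Nat.lt_or_ge (rc t) t with h3 | h3
        · by_cases h4 : rc t = 0
          · exfalso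
            apply h2
            rw [cl0, deld]
            exact Or.inl h4
          · exact hrec t htN ht h1 h3 h4 (by rwa [← cl0]) hd1
        · have h4 : rc t = t := le_antisymm hle h3
          rw [h4] at h1 h2 ⊢
          exact hstep t htN h1 ht (by rwa [← cl0]) hd1)
  refine ⟨A, hA, B, hB, hAB, hNE, hAc, hBc, ?_⟩
  rw [hX]
  -- the number of deleted states
  obtain ⟨X, hXd⟩ : ∃ X, X = W.filter fun v => cr v := ⟨_, rfl⟩
  have hsubdel : (W.filter fun t => cl t = 0) ⊆
      (({0} ∪ {v₀}) ∪ {φ v₀}) ∪ ((univ.biUnion fun i : Fin d =>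
        (W.filter fun v => hyp v i (a i)) ∪ (W.filter fun v => hyp v i (b i))) ∪ X) := by
    intro t ht
    rw [mem_filter, cl0, deld] at ht
    simp only [mem_union, mem_singleton, mem_biUnion, mem_univ, true_and, mem_filter, hXd]
    rcases ht.2 with h | h | h | ⟨i, h | h⟩ | h
    · exact Or.inl (Or.inl (Or.inl h))
    · exact Or.inl (Or.inl (Or.inr h))
    · exact Or.inl (Or.inr h)
    · exact Or.inr (Or.inl ⟨i, Or.inl ⟨ht.1, h⟩⟩)
    · exact Or.inr (Or.inl ⟨i, Or.inr ⟨ht.1, h⟩⟩)
    · exact Or.inr (Or.inr ⟨ht.1, h⟩)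
  have hhypc : ∀ i x, (W.filter fun v => hyp v i x).card ≤ cs i x := by
    intro i x
    have h1 : (W.filter fun v => hyp v i x) ⊆ (W.filter fun v => pos (φ v) i = x) ∪
        (W.filter fun v => (Rdr N rc v ∧ Anch W (S (kind v)) v) ∧
          |pos v i - x| ≤ C * S (kind v)) := by
      intro v hv
      rw [mem_filter, hypd, nrd] at hv
      rw [mem_union, mem_filter, mem_filter]
      rcases hv.2 with h | h
      · exact Or.inl ⟨hv.1, h⟩
      · exact Or.inr ⟨hv.1, h⟩
    refine (card_le_card h1).trans ((card_union_le _ _).trans ?_)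
    rw [hcs, hφ]
    exact le_rfl
  have hXc : X.card ≤ L * (2 * q + 2 * C + 1) ^ d := by
    have hXm : ∀ v ∈ X, v ∈ W ∧ cen v ∧ nr v ∧ rc (v - 1) < φ v₀ ∧ φ v₀ < v := by
      intro v hv
      rw [hXd, mem_filter, crd] at hv
      exact hv
    have hmap : ∀ v ∈ X, kind v ∈ Icc 1 L := by
      intro v hv
      have hr := ((nrd v).1 (hXm v hv).2.2.1).1
      rw [mem_Icc]
      exact ⟨(hr.kind_pos hG).1, hG.kle v hr.2.1⟩
    rw [card_eq_sum_card_fiberwise hmap]
    calc ∑ k ∈ Icc 1 L, (X.filter fun v => kind v = k).card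
        ≤ ∑ _k ∈ Icc 1 L, (2 * q + 2 * C + 1) ^ d := by
          apply sum_le_sum
          intro k _
          have hS : (0 : ℤ) < S k := by exact_mod_cast hG.side k
          have h1 : (X.filter fun v => kind v = k).card ≤ (Fintype.piFinset fun i : Fin d =>
              Icc (a i / (S k : ℤ) - C) (b i / (S k : ℤ) + C)).card := by
            apply card_le_card_of_injOn bx
            · intro v hv
              rw [mem_coe, mem_filter] at hv
              obtain ⟨hv, hk⟩ := hv
              obtain ⟨h2, h3, h4, -, -⟩ := hXm v hv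
              obtain ⟨h5, h6⟩ := (nrd v).1 h4
              have h7 : φ v = v := by rw [hφ]; exact ph_anch hG h5 h6
              rw [mem_coe, Fintype.mem_piFinset]
              intro i
              have h8 := (cend v).1 h3 i
              rw [h7] at h8
              obtain ⟨g1, g2, g3, g4⟩ := h5
              have h9 := hG.near (v - 1) (by omega) g3 g4 i
              rw [Nat.sub_add_cancel g1, hk, abs_le] at h9
              rw [mem_Icc]
              constructor
              · have : a i / (S k : ℤ) ≤ bx v i + C := by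
                  apply Int.ediv_le_of_le_mul hS
                  nlinarith [h9.1, h9.2]
                linarith
              · have : bx v i - C ≤ b i / (S k : ℤ) := by
                  apply Int.le_ediv_of_mul_le hS
                  nlinarith [h9.1, h9.2]
                linarith
            · intro v hv w hw hvw
              rw [mem_coe, mem_filter] at hv hw
              obtain ⟨hv, hkv⟩ := hv
              obtain ⟨hw, hkw⟩ := hw
              obtain ⟨-, -, hv4, hv5, hv6⟩ := hXm v hv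
              obtain ⟨-, -, hw4, hw5, hw6⟩ := hXm w hw
              obtain ⟨⟨p1, p2, p3, p4⟩, -⟩ := (nrd v).1 hv4
              obtain ⟨⟨r1, r2, r3, r4⟩, -⟩ := (nrd w).1 hw4
              rcases Nat.lt_trichotomy v w with h | h | h
              · have := hG.box (v - 1) (w - 1) (by omega) (by omega) p3 p4 r3 r4
                  (by rw [Nat.sub_add_cancel p1, Nat.sub_add_cancel r1, hkv, hkw])
                  (by rw [Nat.sub_add_cancel p1, Nat.sub_add_cancel r1, hvw])
                omega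
              · exact h
              · have := hG.box (w - 1) (v - 1) (by omega) (by omega) r3 r4 p3 p4
                  (by rw [Nat.sub_add_cancel p1, Nat.sub_add_cancel r1, hkv, hkw])
                  (by rw [Nat.sub_add_cancel p1, Nat.sub_add_cancel r1, hvw])
                omega
          refine h1.trans ?_
          rw [Fintype.card_piFinset]
          calc ∏ i : Fin d, (Icc (a i / (S k : ℤ) - C) (b i / (S k : ℤ) + C)).card
              ≤ ∏ _i : Fin d, (2 * q + 2 * C + 1) := by
                apply prod_le_prod (fun _ _ => Nat.zero_le _)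
                intro i _
                rw [Int.card_Icc]
                have h2 : b i / (S k : ℤ) ≤ a i / (S k : ℤ) + 2 * q := by
                  have h3 : b i ≤ a i + 2 * q * S k := by
                    have := hab i
                    nlinarith
                  have h4 := Int.ediv_le_ediv hS h3
                  rwa [Int.add_mul_ediv_right _ _ hS.ne'] at h4
                omega
            _ = (2 * q + 2 * C + 1) ^ d := by simp
      _ = L * (2 * q + 2 * C + 1) ^ d := by simp
  have hcard : (W.filter fun t => cl t = 0).card ≤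
      3 + (∑ i : Fin d, (cs i (a i) + cs i (b i)) + L * (2 * q + 2 * C + 1) ^ d) := by
    refine (card_le_card hsubdel).trans ((card_union_le _ _).trans ?_)
    apply Nat.add_le_add
    · refine (card_union_le _ _).trans ?_
      have := card_union_le ({0} : Finset ℕ) {v₀}
      simp only [card_singleton] at this ⊢
      omega
    · refine (card_union_le _ _).trans (Nat.add_le_add ?_ hXc)
      refine card_biUnion_le.trans (sum_le_sum fun i _ => ?_)
      exact (card_union_le _ _).trans (Nat.add_le_add (hhypc i _) (hhypc i _))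
  have hcardr : ((W.filter fun t => cl t = 0).card : ℝ) ≤
      3 + (∑ i : Fin d, ((cs i (a i) : ℝ) + cs i (b i)) + L * (2 * q + 2 * C + 1) ^ d) := by
    exact_mod_cast hcard
  have hs1 : ∑ i : Fin d, ((cs i (a i) : ℝ) + cs i (b i)) ≤ 2 * d * (A' * y) := by
    calc ∑ i : Fin d, ((cs i (a i) : ℝ) + cs i (b i)) ≤ ∑ _i : Fin d, (A' * y + A' * y) :=
          sum_le_sum fun i _ => add_le_add (hca i) (hcb i)
      _ = 2 * d * (A' * y) := by
          rw [sum_const, card_univ, Fintype.card_fin, nsmul_eq_mul]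
          ring
  have hs2 : ((2 * q + 2 * C + 1 : ℝ)) ^ d ≤ (2 * C + 3) ^ d * y := by
    rw [← hry, ← mul_pow]
    apply pow_le_pow_left₀ (by positivity)
    have h1 : (1 : ℝ) ≤ r := hr1
    have h2 : (0 : ℝ) ≤ C := Nat.cast_nonneg C
    nlinarith
  have hs3 : (L : ℝ) * (2 * q + 2 * C + 1 : ℝ) ^ d ≤ L * ((2 * C + 3) ^ d * y) :=
    mul_le_mul_of_nonneg_left hs2 (Nat.cast_nonneg L)
  rw [← hn, ← hy]
  push_cast
  rw [hA'] at hs1
  push_cast at hs1
  nlinarith

theorem PadG.wGraph {d N L C : ℕ} {rc : ℕ → ℕ} {pos : ℕ → Fin d → ℤ} {kind : ℕ → ℕ}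
    {rd : ℕ → Prop} {bx : ℕ → Fin d → ℤ} (h : PadG d N L C rc pos kind rd bx) :
    WGraph N rc d L C (fun k => 4 ^ k) pos kind (fun t => ¬ rd t) bx := by
  have hrd : ∀ t < N, rc t < t → rc t ≠ 0 → rd (t + 1) ∧ ¬ rd (rc t) ∧
      kind (rc t) = kind (t + 1) ∧ ∀ i, |pos (rc t) i - pos (t + 1) i| ≤ C * 4 ^ kind (t + 1) := by
    intro t ht h1 h2
    rcases h.edge t ht h1.le with h3 | h3 | h3
    · omega
    · exact absurd h3 h2
    · exact h3
  refine ⟨fun k => Nat.one_le_pow _ _ (by norm_num), h.lip, h.kind_le, ?_, ?_, ?_, ?_⟩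
  · intro t ht hk u hu hne h1 h2
    exact (h.pad t ht u hu hk hne.symm h1 h2).1
  · intro t ht h1 h2
    obtain ⟨h3, h4, h5, h6⟩ := hrd t ht h1 h2
    refine ⟨h.rd_kind (t + 1) (by omega) h3, not_not.2 h3, h5, h4, fun i => ?_⟩
    have := h6 i
    push_cast
    exact this
  · intro t ht h1 h2 i
    obtain ⟨h3, -⟩ := hrd t ht h1 h2
    have := h.near t ht h3 i
    rw [abs_sub_comm]
    push_cast
    exact this
  · intro t₁ t₂ h12 h2N h3 h4 h5 h6 h7 h8
    have := h.box t₁ t₂ h12 h2N (hrd t₁ (by omega) h3 h4).1 (hrd t₂ h2N h5 h6).1 h7 h8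
    omega

theorem PadG.hsep {d : ℕ} (_hd : 1 ≤ d) (C : ℕ) : ∃ K₀ : ℕ, ∀ (N L : ℕ) (rc : ℕ → ℕ)
    (pos : ℕ → Fin d → ℤ) (kind : ℕ → ℕ) (rd : ℕ → Prop) (bx : ℕ → Fin d → ℤ),
    PadG d N L C rc pos kind rd bx → HSep N rc ((d : ℝ) / (d + 1)) (K₀ * (L + 1)) := by
  refine ⟨3 + 2 * d * (4 * C + 3) + (2 * C + 3) ^ d, fun N L rc pos kind rd bx h => ?_⟩
  refine h.wGraph.hsep.mono ?_
  have h1 : L * (2 * C + 3) ^ d ≤ (2 * C + 3) ^ d * (L + 1) := by
    rw [mul_comm L]
    exact Nat.mul_le_mul_left _ (by omega)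
  have h2 : 2 * d * (1 + (4 * C + 2) * L) ≤ 2 * d * (4 * C + 3) * (L + 1) := by
    rw [mul_assoc (2 * d)]
    apply Nat.mul_le_mul_left
    nlinarith
  nlinarith

end Pool.Agent.NUM
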