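import Pool.Agent.NUM.MWinF
import Pool.Agent.NUM.MCode
import Pool.Agent.NUM.MHSep
import Pool.Agent.NUM.GStmt

/-!
# Machines with one `d`-dimensional tape: from the theorem on hereditary separators
-/

set_option autoImplicit false

namespace Pool.Agent.NUM

open Filter Topology

/-- `C (m + 1) ≤ 2 ^ (δ m)` for large `m` -/
theorem lin_room (C : ℝ) {δ : ℝ} (hδ : 0 < δ) : ∃ m₀ : ℕ, ∀ m : ℕ, m₀ ≤ m →
    C * (m + 1) ≤ 2 ^ (δ * m) := by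
  have hr0 : (0 : ℝ) ≤ 2 ^ (-δ) := by positivity
  have hr1 : (2 : ℝ) ^ (-δ) < 1 := Real.rpow_lt_one_of_one_lt_of_neg (by norm_num) (by linarith)
  have t1 := tendsto_self_mul_const_pow_of_lt_one hr0 hr1
  have t2 := tendsto_pow_atTop_nhds_zero_of_lt_one hr0 hr1
  have t3 : Tendsto (fun n : ℕ => C * ((n : ℝ) * ((2 : ℝ) ^ (-δ)) ^ n + ((2 : ℝ) ^ (-δ)) ^ n))
      atTop (𝓝 (C * (0 + 0))) := (t1.add t2).const_mul C
  have h1 : C * ((0 : ℝ) + 0) < 1 := by norm_num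
  obtain ⟨m₀, hm₀⟩ := eventually_atTop.1 (t3.eventually (gt_mem_nhds h1))
  refine ⟨m₀, fun m hm => ?_⟩
  have h2 := (hm₀ m hm).le
  have h3 : ((2 : ℝ) ^ (-δ)) ^ m = ((2 : ℝ) ^ (δ * m))⁻¹ := by
    rw [← Real.rpow_natCast, ← Real.rpow_mul (by norm_num), ← Real.rpow_neg (by norm_num)]
    ring_nf
  have h4 : (0 : ℝ) < 2 ^ (δ * m) := by positivity
  rw [h3] at h2
  have h5 : C * ((m : ℝ) * ((2 : ℝ) ^ (δ * m))⁻¹ + ((2 : ℝ) ^ (δ * m))⁻¹)
      = C * (m + 1) / (2 ^ (δ * m)) := by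
    rw [div_eq_mul_inv]
    ring
  rw [h5, div_le_one h4] at h2
  exact h2

/-- the number of levels of the simulation of at most `T` steps -/
def mL (T : ℕ) : ℕ := Nat.size T + 1

/-- the number of bits of the pointers -/
def mW (d T : ℕ) : ℕ := 2 * mL T + 5 + Nat.size (wA d * (mL T + 1) + 2)

theorem mW_spec {d T N : ℕ} (hN : N ≤ T) :
    N < 4 ^ mL T ∧ N * (1 + wA d * mL T) + wA d * 4 ^ mL T + 1 < 2 ^ mW d T := by
  obtain ⟨L, hL⟩ : ∃ L, L = mL T := ⟨_, rfl⟩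
  obtain ⟨X, hX⟩ : ∃ X, X = wA d * (mL T + 1) + 2 := ⟨_, rfl⟩
  have h1 : T < 4 ^ L := by
    have h2 : T < 2 ^ Nat.size T := Nat.lt_size_self T
    have h3 : 2 ^ Nat.size T ≤ 2 ^ L := Nat.pow_le_pow_right (by norm_num) (by rw [hL, mL]; omega)
    have h4 : 2 ^ L ≤ 4 ^ L := Nat.pow_le_pow_left (by norm_num) L
    omega
  have h5 : X < 2 ^ Nat.size X := Nat.lt_size_self X
  have h6 : 2 ^ mW d T = 4 ^ L * 32 * 2 ^ Nat.size X := by
    rw [mW, ← hX, ← hL, pow_add, pow_add, pow_mul]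
    norm_num
  rw [← hL, h6]
  refine ⟨by omega, ?_⟩
  have h7 : N * (1 + wA d * L) ≤ 4 ^ L * (1 + wA d * L) := Nat.mul_le_mul_right _ (by omega)
  have h8 : 1 ≤ 4 ^ L := Nat.one_le_pow _ _ (by norm_num)
  have h9 : N * (1 + wA d * L) + wA d * 4 ^ L + 1 ≤ 4 ^ L * X := by
    rw [hX, ← hL]
    nlinarith
  have h10 : 4 ^ L * X < 4 ^ L * 2 ^ Nat.size X := Nat.mul_lt_mul_of_pos_left h5 (by omega)
  nlinarith [Nat.one_le_two_pow (n := Nat.size X)]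

/-- **A machine with one `d`-dimensional tape is simulated by a history program whose computation
graphs have hereditary separators.** -/
theorem exists_tapeD_hist (d : ℕ) (hd : 1 ≤ d) : ∃ K e K₀ : ℕ, ∀ (G : List Ins) (B T s : ℕ)
    (P : Inp → Prop), Sz s G → MDecides d G B T P →
      ∃ (G' : List Ins) (D : ℕ), HSz (K * (s + (4 * d + 7) + mW d T + mL T) ^ e) D G' ∧
        SepDecides G' D B (T * (1 + wA d * mL T)) ((d : ℝ) / (d + 1)) (K₀ * (mL T + 1)) P := by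
  obtain ⟨K, e, h1⟩ := exists_win_hist d
  obtain ⟨K₀, h2⟩ : ∃ K₀ : ℕ, ∀ L, wK d L ≤ K₀ * (L + 1) := by
    refine ⟨3 + 2 * d * (1 + (4 * 16 + 2)) + (2 * 16 + 3) ^ d, fun L => ?_⟩
    rw [wK]
    have h1 : 2 * d * (1 + (4 * 16 + 2) * L) ≤ 2 * d * (1 + (4 * 16 + 2)) * (L + 1) := by
      rw [mul_assoc (2 * d)]
      apply Nat.mul_le_mul_left
      nlinarith
    have h2 : L * (2 * 16 + 3) ^ d ≤ (2 * 16 + 3) ^ d * (L + 1) := by
      rw [mul_comm]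
      exact Nat.mul_le_mul_left _ (by omega)
    have h3 : (3 + 2 * d * (1 + (4 * 16 + 2)) + (2 * 16 + 3) ^ d) * (L + 1) =
      3 * (L + 1) + 2 * d * (1 + (4 * 16 + 2)) * (L + 1) + (2 * 16 + 3) ^ d * (L + 1) := by ring
    rw [h3]
    omega
  refine ⟨K, e, K₀, fun G B T s P hG hD => ?_⟩
  obtain ⟨G', h3, h4⟩ := h1 G (s + (4 * d + 7) + mW d T) (mL T) (mW d T) (hG.mono (by omega))
    (by omega) (by omega) (by rw [mL]; omega) (by rw [mW]; omega)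
  refine ⟨G', mW d T, h3, fun z hz => ?_⟩
  obtain ⟨b, ⟨N, hN, hH, hb⟩, hbP⟩ := hD z hz
  obtain ⟨h5, h6⟩ := mW_spec (d := d) hN
  obtain ⟨st, T', h7, h8, h9, h10, h11, h12⟩ := exists_win_run (d := d) (by rw [mL]; omega) h5 h6 hH
  obtain ⟨h13, h14, h15⟩ := h4 z st T' (by omega) h7
  refine ⟨T', h8.trans (Nat.mul_le_mul_right _ hN), ⟨?_, ?_⟩, ?_, ?_⟩
  · rw [h13 T' le_rfl]
    exact h9
  · intro n hn
    rw [h13 n hn.le]
    exact h11 n hn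
  · rw [h14 T' le_rfl, h10, hb]
    exact hbP
  · exact (h12 _ h15).mono (h2 _)

theorem cast_size_le {c : ℝ} (hc : 0 ≤ c) {T m : ℕ} (hT : (T : ℝ) ≤ 2 ^ (c * m)) :
    ((Nat.size T : ℕ) : ℝ) ≤ c * m + 1 := by
  rcases Nat.eq_zero_or_pos T with h0 | h0
  · subst h0
    have : 0 ≤ c * m := mul_nonneg hc (Nat.cast_nonneg _)
    simp
    linarith
  · have h3 : 2 ^ (Nat.size T - 1) ≤ T := by
      have := (Nat.lt_size (m := Nat.size T - 1) (n := T)).1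
        (by have := Nat.size_pos.2 h0; omega)
      exact this
    have h4 : (2 : ℝ) ^ ((Nat.size T - 1 : ℕ) : ℝ) ≤ 2 ^ (c * m) := by
      rw [Real.rpow_natCast]
      refine le_trans ?_ hT
      exact_mod_cast h3
    have h5 := (Real.rpow_le_rpow_left_iff (by norm_num : (1 : ℝ) < 2)).1 h4
    have h6 : 1 ≤ Nat.size T := Nat.size_pos.2 h0
    rw [Nat.cast_sub h6] at h5
    push_cast at h5
    linarith

theorem size_le_selfM (x : ℕ) : Nat.size x ≤ x := Nat.size_le.2 (Nat.lt_two_pow_self)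

/-- the parameters are small -/
theorem tapeD_room {c c' δ : ℝ} (d K e K₀ : ℕ) (hc : 0 ≤ c) (hcc : c < c') (hδ : 0 < δ) :
    ∃ m₁ : ℕ, ∀ m : ℕ, m₁ ≤ m → ∀ s T : ℕ, (s : ℝ) ≤ 2 ^ (δ / (2 * (e + 1)) * m) →
      (T : ℝ) ≤ 2 ^ (c * m) →
      ((K * (s + (4 * d + 7) + mW d T + mL T) ^ e : ℕ) : ℝ) ≤ 2 ^ (δ * m) ∧
      ((T * (1 + wA d * mL T) : ℕ) : ℝ) ≤ 2 ^ (c' * m) ∧
      ((K₀ * (mL T + 1) : ℕ) : ℝ) ≤ 2 ^ (δ * m) := by
  obtain ⟨a, ha⟩ : ∃ a : ℝ, a = δ / (2 * (e + 1)) := ⟨_, rfl⟩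
  have he : (0 : ℝ) < 2 * (e + 1) := by positivity
  have ha0 : 0 < a := by rw [ha]; positivity
  obtain ⟨C, hC⟩ : ∃ C : ℝ, C = 4 * d + 7 + (3 + wA d) * (c + 2) + wA d * 2 + 20 := ⟨_, rfl⟩
  have hwA : (0 : ℝ) ≤ wA d := Nat.cast_nonneg _
  have hd0 : (0 : ℝ) ≤ d := Nat.cast_nonneg _
  have hC0 : 0 ≤ C := by rw [hC]; positivity
  obtain ⟨m₁, h1⟩ := lin_room C ha0
  obtain ⟨m₂, h2⟩ := lin_room (K + 2) ha0
  obtain ⟨m₃, h3⟩ := lin_room (1 + wA d * (c + 2)) (sub_pos.2 hcc)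
  obtain ⟨m₄, h4⟩ := lin_room (K₀ * (c + 3)) hδ
  refine ⟨max (max m₁ m₂) (max m₃ m₄), fun m hm s T hs hT => ?_⟩
  have hm0 : (0 : ℝ) ≤ m := Nat.cast_nonneg _
  have g1 := h1 m (le_trans (le_trans (le_max_left _ _) (le_max_left _ _)) hm)
  have g2 := h2 m (le_trans (le_trans (le_max_right _ _) (le_max_left _ _)) hm)
  have g3 := h3 m (le_trans (le_trans (le_max_left _ _) (le_max_right _ _)) hm)
  have g4 := h4 m (le_trans (le_trans (le_max_right _ _) (le_max_right _ _)) hm)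
  rw [← ha] at hs
  have hsz := cast_size_le hc hT
  have hL : ((mL T : ℕ) : ℝ) ≤ c * m + 2 := by
    rw [mL]
    push_cast
    linarith
  have hLm : ((mL T : ℕ) : ℝ) ≤ (c + 2) * (m + 1) := by nlinarith
  have hWm : ((mW d T : ℕ) : ℝ) ≤ 2 * (mL T) + 5 + (wA d * (mL T + 1) + 2) := by
    have h5 := size_le_selfM (wA d * (mL T + 1) + 2)
    rw [mW]
    push_cast
    have h6 : ((Nat.size (wA d * (mL T + 1) + 2) : ℕ) : ℝ) ≤ (wA d * (mL T + 1) + 2 : ℕ) := by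
      exact_mod_cast h5
    push_cast at h6
    linarith
  refine ⟨?_, ?_, ?_⟩
  · have h5 : ((s : ℝ) + (4 * d + 7) + mW d T + mL T) ≤ 2 * 2 ^ (a * m) := by
      have h6 : (4 * (d : ℝ) + 7) + mW d T + mL T ≤ C * (m + 1) := by
        have h7 : (3 + (wA d : ℝ)) * mL T ≤ (3 + wA d) * ((c + 2) * (m + 1)) :=
          mul_le_mul_of_nonneg_left hLm (by positivity)
        have h8 : C * (m + 1) = (4 * d + 7 + wA d * 2 + 20) * (m + 1)
            + (3 + wA d) * ((c + 2) * (m + 1)) := by rw [hC]; ring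
        have h9 : (4 * (d : ℝ) + 7 + wA d * 2 + 20) ≤ (4 * d + 7 + wA d * 2 + 20) * (m + 1) := by
          have : 0 ≤ (4 * (d : ℝ) + 7 + wA d * 2 + 20) * m := by positivity
          linarith
        rw [h8]
        linarith
      linarith
    have h10 : (2 : ℝ) ≤ 2 ^ (a * m) := by
      have : ((K : ℝ) + 2) ≤ (K + 2) * (m + 1) := by nlinarith [Nat.cast_nonneg (α := ℝ) K]
      have hK : (0 : ℝ) ≤ K := Nat.cast_nonneg _
      linarith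
    have h11 : (K : ℝ) ≤ 2 ^ (a * m) := by
      have : ((K : ℝ) + 2) ≤ (K + 2) * (m + 1) := by nlinarith [Nat.cast_nonneg (α := ℝ) K]
      linarith
    have hx0 : (0 : ℝ) < 2 ^ (a * m) := by positivity
    push_cast
    calc (K : ℝ) * ((s : ℝ) + (4 * d + 7) + mW d T + mL T) ^ e
        ≤ 2 ^ (a * m) * ((2 ^ (a * m)) ^ 2) ^ e := by
          apply mul_le_mul h11 _ (by positivity) hx0.le
          apply pow_le_pow_left₀ (by positivity)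
          nlinarith
      _ = (2 ^ (a * m)) ^ (2 * e + 1) := by rw [← pow_mul]; ring
      _ ≤ (2 ^ (a * m)) ^ (2 * (e + 1)) := by
          apply pow_le_pow_right₀ (by linarith)
          omega
      _ = 2 ^ (δ * m) := by
          rw [← Real.rpow_natCast, ← Real.rpow_mul (by norm_num)]
          congr 1
          rw [ha]
          push_cast
          field_simp
  · have h5 : (1 : ℝ) + wA d * mL T ≤ 2 ^ ((c' - c) * m) := by
      have h6 : (wA d : ℝ) * mL T ≤ wA d * ((c + 2) * (m + 1)) :=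
        mul_le_mul_of_nonneg_left hLm hwA
      have h7 : (1 + (wA d : ℝ) * (c + 2)) * (m + 1)
          = 1 + m + wA d * ((c + 2) * (m + 1)) := by ring
      linarith
    push_cast
    calc (T : ℝ) * (1 + wA d * mL T) ≤ 2 ^ (c * m) * 2 ^ ((c' - c) * m) := by
          apply mul_le_mul hT h5 (by positivity) (by positivity)
      _ = 2 ^ (c' * m) := by
          rw [← Real.rpow_add (by norm_num)]
          congr 1
          ring
  · push_cast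
    have h5 : (K₀ : ℝ) * (mL T + 1) ≤ K₀ * ((c + 3) * (m + 1)) :=
      mul_le_mul_of_nonneg_left (by nlinarith) (Nat.cast_nonneg _)
    linarith

/-- **One-head machines with a `d`-dimensional tape**, window version, from the lower bound for
history programs with hereditary separators -/
theorem tapeD_window_of {d : ℕ} (hd : 1 ≤ d) {c c' : ℝ} (hc : 0 ≤ c) (hcc : c < c')
    {S : ℕ → Inp → Prop} {B : ℕ → ℕ}
    (h : ∃ (δ : ℝ) (A M₀ : ℕ), 0 < δ ∧ ∀ M : ℕ, M₀ ≤ M → ∃ m : ℕ, M ≤ m ∧ m ≤ A * M ∧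
      ∀ (G : List Ins) (D s T K : ℕ), HSz s D G →
      (s : ℝ) ≤ 2 ^ (δ * m) → (T : ℝ) ≤ 2 ^ (c' * m) → (K : ℝ) ≤ 2 ^ (δ * m) →
        ¬ SepDecides G D (B m) T ((d : ℝ) / (d + 1)) K (S m)) :
    ∃ (δ : ℝ) (A M₀ : ℕ), 0 < δ ∧ ∀ M : ℕ, M₀ ≤ M → ∃ m : ℕ, M ≤ m ∧ m ≤ A * M ∧
      ∀ (G : List Ins) (s T : ℕ), Sz s G →
      (s : ℝ) ≤ 2 ^ (δ * m) → (T : ℝ) ≤ 2 ^ (c * m) → ¬ MDecides d G (B m) T (S m) := by
  obtain ⟨δ, A, M₀, hδ, h⟩ := h
  obtain ⟨K, e, K₀, h1⟩ := exists_tapeD_hist d hd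
  obtain ⟨m₁, h2⟩ := tapeD_room d K e K₀ hc hcc hδ
  refine ⟨δ / (2 * (e + 1)), A, max M₀ m₁, by positivity, fun M hM => ?_⟩
  obtain ⟨m, hm, hmA, h⟩ := h M ((le_max_left _ _).trans hM)
  refine ⟨m, hm, hmA, fun G s T hG hs hT hD => ?_⟩
  obtain ⟨G', D, h3, h4⟩ := h1 G (B m) T s (S m) hG hD
  obtain ⟨h5, h6, h7⟩ := h2 m ((le_max_right _ _).trans (hM.trans hm)) s T hs hT
  exact h G' D _ _ _ h3 h5 h6 h7 h4

/-- the cubic for the exponent `d / (d + 1)` -/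
theorem cubic_tapeD {d : ℕ} {c : ℝ}
    (hc3 : ((d : ℝ) + 1) * c ^ 3 - c ^ 2 - (d + 2) * c + 1 < 0) :
    c ^ 3 - (1 - (d : ℝ) / (d + 1)) * c ^ 2 - (2 - (d : ℝ) / (d + 1)) * c
      + (1 - (d : ℝ) / (d + 1)) < 0 := by
  have h1 : (0 : ℝ) < d + 1 := by positivity
  have h2 : c ^ 3 - (1 - (d : ℝ) / (d + 1)) * c ^ 2 - (2 - (d : ℝ) / (d + 1)) * c
      + (1 - (d : ℝ) / (d + 1)) = (((d : ℝ) + 1) * c ^ 3 - c ^ 2 - (d + 2) * c + 1) / (d + 1) := by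
    field_simp
    ring
  rw [h2]
  exact div_neg_of_neg_of_pos hc3 h1

/-- a strictly larger exponent for which the cubic is negative -/
theorem exists_larger_tapeD {d : ℕ} {c : ℝ}
    (hc3 : ((d : ℝ) + 1) * c ^ 3 - c ^ 2 - (d + 2) * c + 1 < 0) :
    ∃ c' : ℝ, c < c' ∧ ((d : ℝ) + 1) * c' ^ 3 - c' ^ 2 - (d + 2) * c' + 1 < 0 := by
  have hcont : ContinuousAt (fun x : ℝ => ((d : ℝ) + 1) * x ^ 3 - x ^ 2 - (d + 2) * x + 1) c := by
    fun_prop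
  obtain ⟨ε, hε, hball⟩ := Metric.eventually_nhds_iff.mp (hcont.eventually (gt_mem_nhds hc3))
  refine ⟨c + ε / 2, by linarith, hball ?_⟩
  rw [Real.dist_eq, add_sub_cancel_left, abs_of_pos (by positivity)]
  linarith

/-- **One-head machines with a `d`-dimensional tape**, from the separator theorem for all
exponents -/
theorem tapeD_window {d : ℕ} (hd : 1 ≤ d) {c : ℝ} (hc : 1 ≤ c)
    (hc3 : ((d : ℝ) + 1) * c ^ 3 - c ^ 2 - (d + 2) * c + 1 < 0)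
    {S : ℕ → Inp → Prop} {B : ℕ → ℕ}
    (h : ∀ c γ : ℝ, 0 ≤ γ → γ < 1 → 1 ≤ c →
      c ^ 3 - (1 - γ) * c ^ 2 - (2 - γ) * c + (1 - γ) < 0 →
      ∃ (δ : ℝ) (A M₀ : ℕ), 0 < δ ∧ ∀ M : ℕ, M₀ ≤ M → ∃ m : ℕ, M ≤ m ∧ m ≤ A * M ∧
        ∀ (G : List Ins) (D s T K : ℕ), HSz s D G →
        (s : ℝ) ≤ 2 ^ (δ * m) → (T : ℝ) ≤ 2 ^ (c * m) → (K : ℝ) ≤ 2 ^ (δ * m) →
          ¬ SepDecides G D (B m) T γ K (S m)) :
    ∃ (δ : ℝ) (A M₀ : ℕ), 0 < δ ∧ ∀ M : ℕ, M₀ ≤ M → ∃ m : ℕ, M ≤ m ∧ m ≤ A * M ∧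
      ∀ (G : List Ins) (s T : ℕ), Sz s G →
      (s : ℝ) ≤ 2 ^ (δ * m) → (T : ℝ) ≤ 2 ^ (c * m) → ¬ MDecides d G (B m) T (S m) := by
  obtain ⟨c', h1, h2⟩ := exists_larger_tapeD hc3
  have hd1 : (0 : ℝ) < d + 1 := by positivity
  exact tapeD_window_of hd (by linarith) h1 (h c' _ (by positivity)
    (by rw [div_lt_one hd1]; linarith) (by linarith) (cubic_tapeD h2))

end Pool.Agent.NUM
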