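import Pool.Agent.NUM.HSepTape

/-!
# Padded multi-scale computation graphs of walks in `ℤ ^ d`

`kind t = 0`: the state `t` is neither a reader nor a source; otherwise `kind t` is its level.
`rd t`: the state `t` is a reader (of the box `bx t` of its level).
-/

set_option autoImplicit false

namespace Pool.Agent.NUM

/-- the axioms of padded multi-scale computation graphs of walks in `ℤ ^ d` -/
structure PadG (d N L C : ℕ) (rc : ℕ → ℕ) (pos : ℕ → Fin d → ℤ) (kind : ℕ → ℕ) (rd : ℕ → Prop)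
    (bx : ℕ → Fin d → ℤ) : Prop where
  lip : ∀ t < N, ∀ i, |pos (t + 1) i - pos t i| ≤ 1
  kind_le : ∀ t ≤ N, kind t ≤ L
  pad : ∀ t ≤ N, ∀ t' ≤ N, 1 ≤ kind t → t ≠ t' → t' ≤ t + 4 ^ kind t → t ≤ t' + 4 ^ kind t →
    kind t' = 0 ∧ pos t' = pos t
  rd_kind : ∀ t ≤ N, rd t → 1 ≤ kind t
  edge : ∀ t < N, rc t ≤ t → rc t = t ∨ rc t = 0 ∨ (rd (t + 1) ∧ ¬ rd (rc t) ∧
    kind (rc t) = kind (t + 1) ∧ ∀ i, |pos (rc t) i - pos (t + 1) i| ≤ C * 4 ^ kind (t + 1))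
  near : ∀ t < N, rd (t + 1) →
    ∀ i, |pos (t + 1) i - 4 ^ kind (t + 1) * bx (t + 1) i| ≤ C * 4 ^ kind (t + 1)
  box : ∀ t t', t < t' → t' < N → rd (t + 1) → rd (t' + 1) → kind (t + 1) = kind (t' + 1) →
    bx (t + 1) = bx (t' + 1) → t + 1 ≤ rc t'

end Pool.Agent.NUM
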