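import Pool.Agent.NUM.MDefs
import Pool.Agent.NUM.Defs

/-!
# Multi-scale windows: one pass of the simulation of a `d`-dimensional tape by a history

Level `k ≥ 1` has boxes of side `4 ^ k`; the box of the point `x` is `x / 4 ^ k` (coordinatewise).
The level keeps the records of the boxes `b` of the window `-4 ≤ b - cen k ≤ 3`; the record of a box
consists of the entries of its `4 ^ d` sub-boxes `b'` (level `k - 1`, for `k = 1` cells), the entry of
`b'` is `R k (b' % 32)`: for `k = 1` the word in the cell, for `k ≥ 2` the number of a state which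
holds the record of `b'`.  The centre is stored modulo `8`.
-/

set_option autoImplicit false

namespace Pool.Agent.NUM

/-- the states of the simulation -/
structure WSt (d : ℕ) where
  V : Mem
  p : Fin d → ℤ
  g : ℕ → Fin d → ℤ
  R : ℕ → (Fin d → ℤ) → Mem
  lev : ℕ
  q : ℕ
  cnt : ℕ

/-- the initial state -/
def WSt.init (d : ℕ) : WSt d := ⟨zeroMem, fun _ => 0, fun _ _ => 0, fun _ _ => zeroMem, 0, 0, 0⟩

/-- digits of the slot numbers; only `q % 8 ^ d` matters -/
def dig {d : ℕ} (q : ℕ) (i : Fin d) : ℤ := ((q / 8 ^ (i : ℕ) % 8 : ℕ) : ℤ)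

namespace WSt

variable {d : ℕ} (S : WSt d)

/-- the box of level `k` of the head -/
def hb (k : ℕ) (i : Fin d) : ℤ := S.p i / 4 ^ k

/-- `4 +` distance from the centre -/
def gap (k : ℕ) (i : Fin d) : ℤ := (S.hb k i - S.g k i + 4) % 8

/-- the centre of level `k` -/
def cen (k : ℕ) (i : Fin d) : ℤ := S.hb k i + 4 - S.gap k i

/-- level `k` must be re-centred -/
def Big (k : ℕ) : Prop := ∃ i, S.gap k i < 3 ∨ 5 < S.gap k i

instance (k : ℕ) : Decidable (S.Big k) := by
  unfold Big
  infer_instance

/-- the box of level `k` with slot number `q` in the window -/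
def sbx (k q : ℕ) (i : Fin d) : ℤ := S.cen k i - 4 + (dig q i - S.cen k i + 4) % 8

/-- the number of the state which holds the record of the box with slot number `q` -/
def ptr (W k q : ℕ) : ℕ := num W (S.R (k + 1) fun i => S.sbx k q i % 32)

/-- the new memory of the machine -/
def newV (f : Mem → Mem) : Mem := f (mix S.V (S.R 1 fun i => S.p i % 32))

/-- one step of the machine -/
def main (f : Mem → Mem) : WSt d :=
  { S with
    V := S.newV f
    p := fun i => S.p i + mvd (S.newV f) i
    R := fun k β => if k = 1 ∧ β = (fun i => S.p i % 32) then S.newV f else S.R k β }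

/-- all sub-boxes of the window of the level in process get a pointer to the state `m`, and the level
is re-centred -/
def evict (m : ℕ) : WSt d :=
  { S with
    R := fun k β => if k = S.lev + 1 ∧ ∀ i, (β i - S.cen S.lev i + 4) % 32 < 8 then
      (fun j => m.testBit j) else S.R k β
    g := fun k i => if k = S.lev then S.hb k i % 8 else S.g k i
    q := 1
    cnt := 0 }

/-- the record in slot number `q` (that is `q % 8 ^ d`) is loaded from the recalled state `Y` -/
def load (Y : WSt d) : WSt d :=
  { S with
    R := fun k β => if k = S.lev ∧ ∀ i, β i / 4 = dig S.q i then Y.R k β else S.R k β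
    q := S.q + 1
    cnt := 0 }

/-- the state number `m + 1` -/
def step (f : Mem → Mem) (L m : ℕ) (Y : WSt d) : WSt d :=
  if S.lev = 0 then
    (if Nat.findGreatest S.Big (L - 1) = 0 then S.main f
    else { S with lev := Nat.findGreatest S.Big (L - 1), q := 0, cnt := 0 })
  else if S.cnt < 4 ^ S.lev then { S with cnt := S.cnt + 1 }
  else if S.q = 0 then S.evict (m + 1)
  else if S.q ≤ 8 ^ d then S.load Y
  else { S with lev := 0, q := 0, cnt := 0 }

/-- the number of the state recalled in the pass after state `m` -/
def ix (W m : ℕ) : ℕ :=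
  if 1 ≤ S.lev ∧ S.cnt = 4 ^ S.lev ∧ 1 ≤ S.q ∧ S.q ≤ 8 ^ d then S.ptr W S.lev S.q else m

end WSt

/-- `st` is the run of the simulation of `f` during the passes `1, …, T` -/
def WRun {d : ℕ} (f : Mem → Mem) (L W : ℕ) (st : ℕ → WSt d) (T : ℕ) : Prop :=
  st 0 = WSt.init d ∧ ∀ m < T, st (m + 1) = (st m).step f L m
    (if (st m).ix W m ≤ m then st ((st m).ix W m) else WSt.init d)

end Pool.Agent.NUM
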