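import Pool.Agent.NUM.GFinal
import Pool.Agent.NUM.MFinal

/-!
# 3SAT and machines with one `d`-dimensional tape

Corollary of the theorem on hereditary separators.
-/

set_option autoImplicit false

namespace Pool.Agent.NUM

open S3

/-- For `d ≥ 1` and `c ≥ 1` with `(d + 1) c ^ 3 - c ^ 2 - (d + 2) c + 1 < 0` (for example `c = 1.339`
for `d = 1`, `c = 1.207` for `d = 2`) no machine with one `d`-dimensional tape, `n ^ o(1)` memory cells
and random access to the input decides 3SAT in time `n ^ c`. -/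
theorem sat_tape_window {d : ℕ} (hd : 1 ≤ d) {c : ℝ} (hc : 1 ≤ c)
    (h : ((d : ℝ) + 1) * c ^ 3 - c ^ 2 - (d + 2) * c + 1 < 0) :
    ∃ (δ : ℝ) (A M₀ : ℕ), 0 < δ ∧ ∀ M : ℕ, M₀ ≤ M → ∃ m : ℕ, M ≤ m ∧ m ≤ A * M ∧
      ∀ (G : List Ins) (s T : ℕ), Sz s G →
      (s : ℝ) ≤ 2 ^ (δ * m) → (T : ℝ) ≤ 2 ^ (c * m) → ¬ MDecides d G (satLen m) T (SAT m) :=
  tapeD_window hd hc h (fun c' γ h0 h1 h2 h3 => sat_sep_bound h0 h1 h2 (by linarith))

end Pool.Agent.NUM
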