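import Pool.Agent.NUM.MStep

/-!
# Multi-scale windows: the run, ghost variables, geometry
-/

set_option autoImplicit false

namespace Pool.Agent.NUM

/-- the run of the simulation -/
noncomputable def wst {d : ℕ} (f : Mem → Mem) (L W : ℕ) : ℕ → WSt d
  | 0 => WSt.init d
  | m + 1 => @WSt.step d (wst f L W m) f L m
      (if h : @WSt.ix d (wst f L W m) W m ≤ m then wst f L W (@WSt.ix d (wst f L W m) W m)
        else WSt.init d)
  termination_by m => m
  decreasing_by all_goals omega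

variable {d : ℕ}

theorem wst_zero (f : Mem → Mem) (L W : ℕ) : wst (d := d) f L W 0 = WSt.init d := by
  rw [wst]

theorem wst_succ (f : Mem → Mem) (L W m : ℕ) : wst (d := d) f L W (m + 1) =
    (wst f L W m).step f L m (if (wst (d := d) f L W m).ix W m ≤ m then
      wst f L W ((wst (d := d) f L W m).ix W m) else WSt.init d) := by
  rw [wst]
  split_ifs <;> rfl

theorem wrun_wst (f : Mem → Mem) (L W T : ℕ) : WRun f L W (wst (d := d) f L W) T :=
  ⟨wst_zero f L W, fun m _ => wst_succ f L W m⟩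

/-- residues modulo `32` -/
def res (b : Fin d → ℤ) : Fin d → ℤ := fun i => b i % 32

/-- the ancestor `n` levels up -/
def up (n : ℕ) (b : Fin d → ℤ) : Fin d → ℤ := fun i => b i / 4 ^ n

theorem up_zero (b : Fin d → ℤ) : up 0 b = b := by
  funext i
  simp [up]

theorem up_up (m n : ℕ) (b : Fin d → ℤ) : up m (up n b) = up (n + m) b := by
  funext i
  show b i / 4 ^ n / 4 ^ m = b i / 4 ^ (n + m)
  rw [Int.ediv_ediv_of_nonneg (by positivity), pow_add]

/-- the numbers `q % 8 ^ d` and the digits -/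
theorem dig_inj {q q' : ℕ} (h : ∀ i : Fin d, dig q i = dig q' i) : q % 8 ^ d = q' % 8 ^ d := by
  have h1 : ∀ n ≤ d, q % 8 ^ n = q' % 8 ^ n := by
    intro n
    induction n with
    | zero => intro _; simp [Nat.mod_one]
    | succ n ih =>
      intro hn
      have h2 := h ⟨n, by omega⟩
      unfold dig at h2
      have h3 : q / 8 ^ n % 8 = q' / 8 ^ n % 8 := by exact_mod_cast h2
      rw [pow_succ, Nat.mod_mul, Nat.mod_mul, ih (by omega), h3]
  exact h1 d le_rfl

theorem dig_mod (q : ℕ) (i : Fin d) : dig (d := d) (q % 8 ^ d) i = dig q i := by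
  unfold dig
  congr 1
  have h1 : 8 ^ d = 8 ^ (i : ℕ) * 8 ^ (d - i) := by
    rw [← pow_add]
    congr 1
    have := i.2
    omega
  have h2 : 8 ∣ 8 ^ (d - (i : ℕ)) := dvd_pow_self 8 (by have := i.2; omega)
  rw [h1, Nat.mod_mul_right_div_self, Nat.mod_mod_of_dvd _ h2]

theorem exists_dig (σ : Fin d → ℤ) (h : ∀ i, 0 ≤ σ i ∧ σ i < 8) :
    ∃ q : ℕ, 1 ≤ q ∧ q ≤ 8 ^ d ∧ ∀ i, σ i = dig q i := by
  obtain ⟨F, hF⟩ : ∃ F : Fin d → Fin 8, F = fun i => ⟨(σ i).toNat, by have := h i; omega⟩ :=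
    ⟨_, rfl⟩
  obtain ⟨a, ha⟩ : ∃ a : Fin (8 ^ d), a = finFunctionFinEquiv F := ⟨_, rfl⟩
  have h1 : ∀ i, σ i = dig (a : ℕ) i := by
    intro i
    have h2 : finFunctionFinEquiv.symm a i = F i := by rw [ha, Equiv.symm_apply_apply]
    have h3 := congrArg (fun x : Fin 8 => (x : ℕ)) h2
    simp only [finFunctionFinEquiv_symm_apply_val] at h3
    unfold dig
    rw [h3, hF]
    have := h i
    show σ i = (((σ i).toNat : ℕ) : ℤ)
    omega
  rcases Nat.eq_zero_or_pos (a : ℕ) with h0 | h0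
  · refine ⟨8 ^ d, Nat.one_le_two_pow.trans (Nat.pow_le_pow_left (by norm_num) d), le_rfl,
      fun i => ?_⟩
    rw [h1 i, ← dig_mod (8 ^ d), Nat.mod_self, h0]
  · exact ⟨a, h0, a.2.le, h1⟩

namespace WSt

variable (S : WSt d)

theorem gap_nonneg (k : ℕ) (i : Fin d) : 0 ≤ S.gap k i := by
  unfold gap
  omega

theorem gap_lt (k : ℕ) (i : Fin d) : S.gap k i < 8 := by
  unfold gap
  omega

/-- the window of level `k` -/
def win (k : ℕ) (b : Fin d → ℤ) : Prop := ∀ i, -4 ≤ b i - S.cen k i ∧ b i - S.cen k i ≤ 3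

theorem sbx_win (k q : ℕ) : S.win k (S.sbx k q) := by
  intro i
  unfold sbx
  omega

theorem sbx_mod (k q : ℕ) (i : Fin d) : S.sbx k q i % 8 = dig q i := by
  have h1 : 0 ≤ dig q i ∧ dig q i < 8 := by
    unfold dig
    omega
  unfold sbx
  omega

theorem eq_sbx {k q : ℕ} {b : Fin d → ℤ} (hb : S.win k b) (h : ∀ i, b i % 8 = dig q i) :
    b = S.sbx k q := by
  funext i
  have h1 := hb i
  have h2 := h i
  have h3 := S.sbx_win k q i
  have h4 := S.sbx_mod k q i
  omega

/-- the centre is determined by its residue -/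
theorem cen_unique {k : ℕ} {i : Fin d} {c : ℤ} (h1 : (c - S.g k i) % 8 = 0)
    (h2 : -4 ≤ S.hb k i - c) (h3 : S.hb k i - c ≤ 3) : S.cen k i = c := by
  unfold cen gap
  omega

theorem cen_mod (k : ℕ) (i : Fin d) : (S.cen k i - S.g k i) % 8 = 0 := by
  unfold cen gap
  omega

theorem hb_succ (k : ℕ) (i : Fin d) : S.hb (k + 1) i = S.hb k i / 4 := by
  unfold hb
  rw [Int.ediv_ediv_of_nonneg (by positivity), pow_succ]

theorem not_big {k : ℕ} (h : ¬ S.Big k) (i : Fin d) : 3 ≤ S.gap k i ∧ S.gap k i ≤ 5 := by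
  unfold Big at h
  push Not at h
  exact h i

end WSt

end Pool.Agent.NUM
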