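import Pool.Agent.NUM.MWinA
import Pool.Agent.NUM.CpList

/-!
# Multi-scale windows: the invariant
-/

set_option autoImplicit false

namespace Pool.Agent.NUM

variable {d : ℕ}

namespace WSt

variable (S : WSt d)

/-- the pass after this state is a step of the machine -/
def IsMain (L : ℕ) : Prop := S.lev = 0 ∧ Nat.findGreatest S.Big (L - 1) = 0

/-- the pass after this state evicts -/
def IsEv : Prop := 1 ≤ S.lev ∧ ¬ S.cnt < 4 ^ S.lev ∧ S.q = 0

/-- the pass after this state loads -/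
def IsLd : Prop := 1 ≤ S.lev ∧ ¬ S.cnt < 4 ^ S.lev ∧ 1 ≤ S.q ∧ S.q ≤ 8 ^ d

noncomputable instance (L : ℕ) : Decidable (S.IsMain L) := Classical.propDecidable _

noncomputable instance : Decidable S.IsEv := Classical.propDecidable _

noncomputable instance (k : ℕ) (b : Fin d → ℤ) : Decidable (S.win k b) := Classical.propDecidable _

/-- the box `b` belongs to the window of level `k` and its record is there -/
def InW (k : ℕ) (b : Fin d → ℤ) : Prop :=
  S.win k b ∧ (S.lev = k → 1 ≤ S.q → ∃ q', 1 ≤ q' ∧ q' < S.q ∧ ∀ i, b i % 8 = dig q' i)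

theorem cen_congr {S S' : WSt d} {k : ℕ} (hp : S'.p = S.p) (hg : S'.g k = S.g k) :
    S'.cen k = S.cen k := by
  funext i
  unfold cen gap hb
  rw [hp, hg]

theorem win_congr {S S' : WSt d} {k : ℕ} (h : S'.cen k = S.cen k) (b : Fin d → ℤ) :
    S'.win k b ↔ S.win k b := by
  unfold win
  rw [h]

variable (f : Mem → Mem) (L m : ℕ) (Y : WSt d)

theorem step_main (h : S.IsMain L) : S.step f L m Y = S.main f := by
  unfold step
  rw [if_pos h.1, if_pos h.2]

theorem step_set (h : S.lev = 0) (h' : Nat.findGreatest S.Big (L - 1) ≠ 0) :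
    S.step f L m Y = { S with lev := Nat.findGreatest S.Big (L - 1), q := 0, cnt := 0 } := by
  unfold step
  rw [if_pos h, if_neg h']

theorem step_idle (h : 1 ≤ S.lev) (h' : S.cnt < 4 ^ S.lev) :
    S.step f L m Y = { S with cnt := S.cnt + 1 } := by
  unfold step
  rw [if_neg (by omega), if_pos h']

theorem step_ev (h : S.IsEv) : S.step f L m Y = S.evict (m + 1) := by
  unfold step
  rw [if_neg (by have := h.1; omega), if_neg h.2.1, if_pos h.2.2]

theorem step_ld (h : S.IsLd) : S.step f L m Y = S.load Y := by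
  unfold step
  rw [if_neg (by have := h.1; omega), if_neg h.2.1, if_neg (by have := h.2.2.1; omega),
    if_pos h.2.2.2]

theorem step_fin (h : 1 ≤ S.lev) (h' : ¬ S.cnt < 4 ^ S.lev) (hq : 8 ^ d < S.q) :
    S.step f L m Y = { S with lev := 0, q := 0, cnt := 0 } := by
  unfold step
  have h8 : 0 < 8 ^ d := by positivity
  rw [if_neg (by omega), if_neg h', if_neg (by omega), if_neg (by omega)]

/-- the cases of a pass -/
theorem cases : S.IsMain L ∨ (S.lev = 0 ∧ Nat.findGreatest S.Big (L - 1) ≠ 0) ∨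
    (1 ≤ S.lev ∧ S.cnt < 4 ^ S.lev) ∨ S.IsEv ∨ S.IsLd ∨
    (1 ≤ S.lev ∧ ¬ S.cnt < 4 ^ S.lev ∧ 8 ^ d < S.q) := by
  unfold IsMain IsEv IsLd
  rcases Nat.eq_zero_or_pos S.lev with h | h
  · by_cases h' : Nat.findGreatest S.Big (L - 1) = 0
    · exact Or.inl ⟨h, h'⟩
    · exact Or.inr (Or.inl ⟨h, h'⟩)
  · by_cases h' : S.cnt < 4 ^ S.lev
    · exact Or.inr (Or.inr (Or.inl ⟨h, h'⟩))
    · rcases Nat.eq_zero_or_pos S.q with h'' | h''
      · exact Or.inr (Or.inr (Or.inr (Or.inl ⟨h, h', h''⟩)))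
      · by_cases h3 : S.q ≤ 8 ^ d
        · exact Or.inr (Or.inr (Or.inr (Or.inr (Or.inl ⟨h, h', h'', h3⟩))))
        · exact Or.inr (Or.inr (Or.inr (Or.inr (Or.inr ⟨h, h', by omega⟩))))

end WSt

/-- the run -/
structure Run (f : Mem → Mem) (L W : ℕ) (st : ℕ → WSt d) : Prop where
  zero : st 0 = WSt.init d
  succ : ∀ m, st (m + 1) = (st m).step f L m
    (if (st m).ix W m ≤ m then st ((st m).ix W m) else WSt.init d)

theorem run_wst (f : Mem → Mem) (L W : ℕ) : Run f L W (wst (d := d) f L W) :=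
  ⟨wst_zero f L W, wst_succ f L W⟩

/-- the number of steps of the machine in the first `m` passes -/
noncomputable def nst (L : ℕ) (st : ℕ → WSt d) : ℕ → ℕ
  | 0 => 0
  | m + 1 => nst L st m + if (st m).IsMain L then 1 else 0

/-- the last state up to `m` in which the box `b` of level `k` has been evicted -/
noncomputable def lastEv (st : ℕ → WSt d) (k : ℕ) : ℕ → (Fin d → ℤ) → ℕ
  | 0, _ => 0
  | m + 1, b => if (st m).IsEv ∧ (st m).lev = k ∧ (st m).win k b then m + 1 else lastEv st k m b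

theorem lastEv_le (st : ℕ → WSt d) (k m : ℕ) (b : Fin d → ℤ) : lastEv st k m b ≤ m := by
  induction m with
  | zero => exact le_rfl
  | succ m ih =>
    unfold lastEv
    split_ifs
    · exact le_rfl
    · omega

theorem lastEv_spec (st : ℕ → WSt d) (k m : ℕ) (b : Fin d → ℤ) : lastEv st k m b = 0 ∨
    ∃ u < m, lastEv st k m b = u + 1 ∧ (st u).IsEv ∧ (st u).lev = k ∧ (st u).win k b := by
  induction m with
  | zero => exact Or.inl rfl
  | succ m ih =>
    unfold lastEv
    split_ifs with h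
    · exact Or.inr ⟨m, by omega, rfl, h.1, h.2.1, h.2.2⟩
    · rcases ih with h1 | ⟨u, h1, h2⟩
      · exact Or.inl h1
      · exact Or.inr ⟨u, by omega, h2⟩

theorem lastEv_mono (st : ℕ → WSt d) (k m : ℕ) (b : Fin d → ℤ) :
    lastEv st k m b ≤ lastEv st k (m + 1) b := by
  have h := lastEv_le st k m b
  show _ ≤ (if (st m).IsEv ∧ (st m).lev = k ∧ (st m).win k b then m + 1 else lastEv st k m b)
  split_ifs
  · omega
  · exact le_rfl

theorem lastEv_succ_of_not {st : ℕ → WSt d} {k m : ℕ} {b : Fin d → ℤ}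
    (h : ¬ ((st m).IsEv ∧ (st m).lev = k ∧ (st m).win k b)) :
    lastEv st k (m + 1) b = lastEv st k m b := by
  show (if (st m).IsEv ∧ (st m).lev = k ∧ (st m).win k b then m + 1 else lastEv st k m b) = _
  rw [if_neg h]

theorem lastEv_succ_of {st : ℕ → WSt d} {k m : ℕ} {b : Fin d → ℤ}
    (h : (st m).IsEv ∧ (st m).lev = k ∧ (st m).win k b) : lastEv st k (m + 1) b = m + 1 := by
  show (if (st m).IsEv ∧ (st m).lev = k ∧ (st m).win k b then m + 1 else lastEv st k m b) = _
  rw [if_pos h]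

/-- the entry of the box `b` of level `k` found from the record of level `k + n + 1` in state `m` -/
def chain (W : ℕ) (st : ℕ → WSt d) : ℕ → ℕ → ℕ → (Fin d → ℤ) → Mem
  | 0, k, m, b => (st m).R (k + 1) (res b)
  | n + 1, k, m, b => chain W st n k (num W ((st m).R (k + (n + 1) + 1) (res (up (n + 1) b)))) b

theorem chain_congr {W : ℕ} {st : ℕ → WSt d} {n k m m' : ℕ} {b : Fin d → ℤ}
    (h : (st m').R (k + n + 1) (res (up n b)) = (st m).R (k + n + 1) (res (up n b))) :
    chain W st n k m' b = chain W st n k m b := by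
  cases n with
  | zero =>
    rw [up_zero] at h
    exact h
  | succ n =>
    show chain W st n k _ b = chain W st n k _ b
    rw [show k + (n + 1) + 1 = k + (n + 1) + 1 from rfl] at h
    rw [h]

/-- the right entry of the box `b` of level `k` after `m` passes -/
noncomputable def wval (f : Mem → Mem) (L : ℕ) (st : ℕ → WSt d) (k m : ℕ) (b : Fin d → ℤ) : Mem :=
  if k = 0 then (mconf d f (nst L st m)).tape b else fun j => (lastEv st k m b).testBit j

theorem num_testBit_lt {W u : ℕ} (h : u < 2 ^ W) : (num W fun j => u.testBit j) = u := by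
  rw [num_testBit, Nat.mod_eq_of_lt h]

/-- the entries are right -/
def WInv (f : Mem → Mem) (L W : ℕ) (st : ℕ → WSt d) (m : ℕ) : Prop :=
  ∀ (n k : ℕ) (b : Fin d → ℤ), k + n + 1 ≤ L → (st m).InW (k + n + 1) (up (n + 1) b) →
    (∀ i < n, ¬ (st m).InW (k + i + 1) (up (i + 1) b)) → chain W st n k m b = wval f L st k m b

/-- the geometry of the windows and the control -/
structure WGeo (f : Mem → Mem) (L W : ℕ) (st : ℕ → WSt d) (m : ℕ) : Prop where
  mem : (st m).V = (mconf d f (nst L st m)).mem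
  pos : (st m).p = (mconf d f (nst L st m)).pos
  levL : (st m).lev < L
  gapb : ∀ k, 1 ≤ k → k ≤ L → ∀ i, 2 ≤ (st m).gap k i ∧ (st m).gap k i ≤ 6
  gaph : 1 ≤ (st m).lev → ∀ k, (st m).lev < k → k ≤ L → ∀ i,
    3 ≤ (st m).gap k i ∧ (st m).gap k i ≤ 5
  gapL : ∀ i, 3 ≤ (st m).gap L i ∧ (st m).gap L i ≤ 5
  gapq : 1 ≤ (st m).lev → 1 ≤ (st m).q → ∀ i, (st m).gap (st m).lev i = 4
  bigq : 1 ≤ (st m).lev → (st m).q = 0 → (st m).Big (st m).lev
  cntb : 1 ≤ (st m).lev → (st m).cnt ≤ 4 ^ (st m).lev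
  qb : 1 ≤ (st m).lev → (st m).q ≤ 8 ^ d + 1
  gL : ∀ i, (st m).g L i = 0

theorem nst_succ_of {L : ℕ} {st : ℕ → WSt d} {m : ℕ} (h : (st m).IsMain L) :
    nst L st (m + 1) = nst L st m + 1 := by
  show nst L st m + (if (st m).IsMain L then 1 else 0) = _
  rw [if_pos h]

theorem nst_succ_of_not {L : ℕ} {st : ℕ → WSt d} {m : ℕ} (h : ¬ (st m).IsMain L) :
    nst L st (m + 1) = nst L st m := by
  show nst L st m + (if (st m).IsMain L then 1 else 0) = _
  rw [if_neg h]
  rfl

theorem nst_mono {L : ℕ} {st : ℕ → WSt d} {m m' : ℕ} (h : m ≤ m') : nst L st m ≤ nst L st m' := by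
  induction m', h using Nat.le_induction with
  | base => exact le_rfl
  | succ m' _ ih =>
    by_cases h : (st m').IsMain L
    · rw [nst_succ_of h]
      omega
    · rw [nst_succ_of_not h]
      exact ih

theorem mconf_pos_le (f : Mem → Mem) (n : ℕ) (i : Fin d) : |(mconf d f n).pos i| ≤ n := by
  induction n with
  | zero =>
    show |(0 : ℤ)| ≤ _
    simp
  | succ n ih =>
    show |(mconf d f n).pos i + mvd _ i| ≤ _
    have h1 : |mvd (f (mix (mconf d f n).mem ((mconf d f n).tape (mconf d f n).pos))) i| ≤ 1 := by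
      unfold mvd
      split_ifs <;> simp
    have h2 := abs_add_le ((mconf d f n).pos i)
      (mvd (f (mix (mconf d f n).mem ((mconf d f n).tape (mconf d f n).pos))) i)
    push_cast
    omega

end Pool.Agent.NUM
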