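import Pool.Agent.NUM.MWinB

/-!
# Multi-scale windows: the invariant is preserved
-/

set_option autoImplicit false

namespace Pool.Agent.NUM

variable {d : ℕ}

theorem ediv_near {x y M c : ℤ} (hM : 0 < M) (h : x ≤ y + c * M) : x / M ≤ y / M + c := by
  have h1 : x / M ≤ (y + c * M) / M := Int.ediv_le_ediv hM h
  rwa [Int.add_mul_ediv_right _ _ hM.ne'] at h1

theorem mvd_abs (V : Mem) (i : ℕ) : -1 ≤ mvd V i ∧ mvd V i ≤ 1 := by
  unfold mvd
  split_ifs <;> omega

namespace WSt

variable {S : WSt d}

theorem win_of_gap {k : ℕ} (h : ∀ i, 0 ≤ S.gap k i ∧ S.gap k i ≤ 7) : S.win k (S.hb k) := by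
  intro i
  have := h i
  unfold cen
  omega

/-- the head moves by at most one -/
theorem gap_main {f : Mem → Mem} {k : ℕ} {i : Fin d} (h : 3 ≤ S.gap k i ∧ S.gap k i ≤ 5) :
    (S.main f).cen k i = S.cen k i ∧ 2 ≤ (S.main f).gap k i ∧ (S.main f).gap k i ≤ 6 := by
  have hM : (0 : ℤ) < 4 ^ k := by positivity
  have h1 : (1 : ℤ) ≤ 4 ^ k := hM
  have hmv := mvd_abs (S.newV f) i
  have h2 : (S.main f).hb k i ≤ S.hb k i + 1 := by
    show (S.p i + mvd (S.newV f) i) / 4 ^ k ≤ S.p i / 4 ^ k + 1
    exact ediv_near hM (by omega)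
  have h3 : S.hb k i ≤ (S.main f).hb k i + 1 := by
    show S.p i / 4 ^ k ≤ (S.p i + mvd (S.newV f) i) / 4 ^ k + 1
    exact ediv_near hM (by omega)
  have h4 : (S.main f).g k i = S.g k i := rfl
  unfold gap at h
  unfold cen gap
  rw [h4]
  omega

theorem win_up {k : ℕ} {b : Fin d → ℤ} (hb : S.win k b)
    (h1 : ∀ i, 2 ≤ S.gap k i ∧ S.gap k i ≤ 6) (h2 : ∀ i, 3 ≤ S.gap (k + 1) i ∧ S.gap (k + 1) i ≤ 5) :
    S.win (k + 1) (up 1 b) := by
  intro i
  have e1 := hb i
  have e2 := h1 i
  have e3 := h2 i
  have e4 := S.hb_succ k i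
  have e5 : up 1 b i = b i / 4 := by simp [up]
  have e6 : S.cen k i = S.hb k i + 4 - S.gap k i := rfl
  have e7 : S.cen (k + 1) i = S.hb (k + 1) i + 4 - S.gap (k + 1) i := rfl
  rw [e5]
  omega

theorem evict_cond {k : ℕ} {b : Fin d → ℤ} (hb : S.win (k + 1) (up 1 b))
    (h1 : ∀ i, 2 ≤ S.gap k i ∧ S.gap k i ≤ 6) (h2 : ∀ i, 3 ≤ S.gap (k + 1) i ∧ S.gap (k + 1) i ≤ 5) :
    (∀ i, (res b i - S.cen k i + 4) % 32 < 8) ↔ S.win k b := by
  have key : ∀ i, (res b i - S.cen k i + 4) % 32 < 8 ↔
      -4 ≤ b i - S.cen k i ∧ b i - S.cen k i ≤ 3 := by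
    intro i
    have e1 := hb i
    have e2 := h1 i
    have e3 := h2 i
    have e4 := S.hb_succ k i
    have e5 : up 1 b i = b i / 4 := by simp [up]
    have e6 : S.cen k i = S.hb k i + 4 - S.gap k i := rfl
    have e7 : S.cen (k + 1) i = S.hb (k + 1) i + 4 - S.gap (k + 1) i := rfl
    have e8 : res b i = b i % 32 := rfl
    rw [e5] at e1
    rw [e8]
    omega
  exact ⟨fun h i => (key i).1 (h i), fun h i => (key i).2 (h i)⟩

theorem eq_of_res {k : ℕ} {b b' : Fin d → ℤ} (hb : S.win k (up 1 b)) (hb' : S.win k (up 1 b'))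
    (h : res b = res b') : b = b' := by
  funext i
  have e1 := hb i
  have e2 := hb' i
  have e3 := congrFun h i
  have e4 : up 1 b i = b i / 4 := by simp [up]
  have e5 : up 1 b' i = b' i / 4 := by simp [up]
  have e6 : res b i = b i % 32 := rfl
  have e7 : res b' i = b' i % 32 := rfl
  rw [e4] at e1
  rw [e5] at e2
  omega

end WSt

variable {f : Mem → Mem} {L W : ℕ} {st : ℕ → WSt d} {m : ℕ}

theorem WSt.IsEv.not_main {S : WSt d} (h : S.IsEv) (L : ℕ) : ¬ S.IsMain L := by
  intro h'
  have h1 := h.1
  have h2 := h'.1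
  omega

theorem WGeo.win_hb (hg : WGeo f L W st m) {k : ℕ} (h1 : 1 ≤ k) (h2 : k ≤ L) :
    (st m).win k ((st m).hb k) :=
  WSt.win_of_gap fun i => by
    have := hg.gapb k h1 h2 i
    omega

/-- the machine reads the right word -/
theorem read_eq (hg : WGeo f L W st m) (hi : WInv f L W st m) (hL : 1 ≤ L)
    (h : (st m).lev = 0) : (st m).R 1 (fun i => (st m).p i % 32) =
      (mconf d f (nst L st m)).tape (st m).p := by
  have h1 := hi 0 0 (st m).p (by omega) ⟨?_, fun h' => by omega⟩ (fun i hi => absurd hi (by omega))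
  · exact h1
  · have h2 := hg.win_hb le_rfl hL
    have h3 : up (0 + 1) (st m).p = (st m).hb 1 := by
      funext i
      rfl
    rw [h3]
    exact h2

theorem step_ne {S : WSt d} {n : ℕ} (h : S.lev = 0 ∧ Nat.findGreatest S.Big (n - 1) ≠ 0) :
    ¬ S.IsMain n := fun h' => h.2 h'.2

theorem idle_ne {S : WSt d} (n : ℕ) (h : 1 ≤ S.lev) : ¬ S.IsMain n := fun h' => by
  have := h'.1
  omega

theorem WGeo.succ (hr : Run f L W st) (hL : 1 ≤ L) (hn : nst L st (m + 1) < 4 ^ L)
    (hg : WGeo f L W st m) (hi : WInv f L W st m) : WGeo f L W st (m + 1) := by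
  obtain ⟨Y, hY⟩ : ∃ Y, Y = (if (st m).ix W m ≤ m then st ((st m).ix W m) else WSt.init d) :=
    ⟨_, rfl⟩
  have hs := hr.succ m
  rw [← hY] at hs
  rcases (st m).cases L with h | h | h | h | h | h
  · -- a step of the machine
    have hs' : st (m + 1) = (st m).main f := hs.trans (WSt.step_main _ f L m Y h)
    have hnn := nst_succ_of h
    have hread := read_eq hg hi hL h.1
    have hV : (st m).newV f = f (mix (mconf d f (nst L st m)).mem
        ((mconf d f (nst L st m)).tape (mconf d f (nst L st m)).pos)) := by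
      unfold WSt.newV
      rw [hread, hg.mem, hg.pos]
    have hnb : ∀ k, 1 ≤ k → k ≤ L → ∀ i, 3 ≤ (st m).gap k i ∧ (st m).gap k i ≤ 5 := by
      intro k hk hkL i
      rcases Nat.lt_or_ge k L with h1 | h1
      · exact WSt.not_big _ (Nat.findGreatest_eq_zero_iff.1 h.2 (by omega) (by omega)) i
      · have : k = L := by omega
        subst this
        exact hg.gapL i
    have hpos : (st (m + 1)).p = (mconf d f (nst L st (m + 1))).pos := by
      rw [hs', hnn]
      funext i
      show (st m).p i + mvd ((st m).newV f) i = (mconf d f (nst L st m)).pos i + mvd _ i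
      rw [hV, hg.pos]
    refine ⟨?_, hpos, ?_, ?_, ?_, ?_, ?_, ?_, ?_, ?_, ?_⟩
    · rw [hs', hnn]
      exact hV
    · rw [hs']
      exact hg.levL
    · intro k hk hkL i
      rw [hs']
      exact (WSt.gap_main (hnb k hk hkL i)).2
    · intro h1
      rw [hs'] at h1
      have h2 : 1 ≤ (st m).lev := h1
      have := h.1
      omega
    · intro i
      have h1 : (st (m + 1)).g L i = 0 := by
        rw [hs']
        exact hg.gL i
      have h2 := mconf_pos_le f (nst L st (m + 1)) i
      rw [← hpos, abs_le] at h2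
      have h3 : ((nst L st (m + 1) : ℕ) : ℤ) < 4 ^ L := by exact_mod_cast hn
      have hM : (0 : ℤ) < 4 ^ L := by positivity
      have h4 : (st (m + 1)).hb L i ≤ 0 := by
        have := Int.ediv_lt_of_lt_mul (a := (st (m + 1)).p i) (b := 1) (c := 4 ^ L) hM (by omega)
        show (st (m + 1)).p i / 4 ^ L ≤ 0
        omega
      have h5 : -1 ≤ (st (m + 1)).hb L i := by
        show -1 ≤ (st (m + 1)).p i / 4 ^ L
        rw [Int.le_ediv_iff_mul_le hM]
        omega
      unfold WSt.gap
      rw [h1]
      omega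
    · intro h1
      rw [hs'] at h1
      have h2 : 1 ≤ (st m).lev := h1
      have := h.1
      omega
    · intro h1
      rw [hs'] at h1
      have h2 : 1 ≤ (st m).lev := h1
      have := h.1
      omega
    · intro h1
      rw [hs'] at h1
      have h2 : 1 ≤ (st m).lev := h1
      have := h.1
      omega
    · intro h1
      rw [hs'] at h1
      have h2 : 1 ≤ (st m).lev := h1
      have := h.1
      omega
    · intro i
      rw [hs']
      exact hg.gL i
  · -- a level is chosen
    have hs' := hs.trans (WSt.step_set _ f L m Y h.1 h.2)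
    have hnn := nst_succ_of_not (st := st) (m := m) (L := L) (step_ne h)
    have hle := Nat.findGreatest_le (P := (st m).Big) (L - 1)
    refine ⟨?_, ?_, ?_, ?_, ?_, ?_, ?_, ?_, ?_, ?_, ?_⟩
    · rw [hs', hnn]
      exact hg.mem
    · rw [hs', hnn]
      exact hg.pos
    · rw [hs']
      show Nat.findGreatest (st m).Big (L - 1) < L
      omega
    · rw [hs']
      exact hg.gapb
    · rw [hs']
      intro _ k hk hkL i
      show 3 ≤ (st m).gap k i ∧ (st m).gap k i ≤ 5
      have hk' : Nat.findGreatest (st m).Big (L - 1) < k := hk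
      rcases Nat.lt_or_ge k L with h1 | h1
      · exact WSt.not_big _ (Nat.findGreatest_is_greatest hk' (by omega)) i
      · have : k = L := by omega
        subst this
        exact hg.gapL i
    · rw [hs']
      exact hg.gapL
    · rw [hs']
      intro _ h2
      have h3 : 1 ≤ 0 := h2
      omega
    · rw [hs']
      intro _ _
      exact Nat.findGreatest_of_ne_zero rfl h.2
    · rw [hs']
      intro _
      exact Nat.zero_le _
    · rw [hs']
      intro _
      exact Nat.zero_le _
    · rw [hs']
      exact hg.gL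
  · -- idle
    have hs' := hs.trans (WSt.step_idle _ f L m Y h.1 h.2)
    have hnn := nst_succ_of_not (st := st) (m := m) (L := L) (idle_ne L h.1)
    refine ⟨?_, ?_, ?_, ?_, ?_, ?_, ?_, ?_, ?_, ?_, ?_⟩
    · rw [hs', hnn]
      exact hg.mem
    · rw [hs', hnn]
      exact hg.pos
    · rw [hs']
      exact hg.levL
    · rw [hs']
      exact hg.gapb
    · rw [hs']
      exact hg.gaph
    · rw [hs']
      exact hg.gapL
    · rw [hs']
      exact hg.gapq
    · rw [hs']
      exact hg.bigq
    · rw [hs']
      intro _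
      exact h.2
    · rw [hs']
      exact hg.qb
    · rw [hs']
      exact hg.gL
  · -- evict
    have hs' := hs.trans (WSt.step_ev _ f L m Y h)
    have hnn := nst_succ_of_not (st := st) (m := m) (L := L) (idle_ne L h.1)
    have hgap1 : ∀ i, (st (m + 1)).gap (st m).lev i = 4 := by
      intro i
      rw [hs']
      show ((st m).hb (st m).lev i - (if (st m).lev = (st m).lev then (st m).hb (st m).lev i % 8
        else (st m).g (st m).lev i) + 4) % 8 = 4
      rw [if_pos rfl]
      omega
    have hgap2 : ∀ k, k ≠ (st m).lev → ∀ i, (st (m + 1)).gap k i = (st m).gap k i := by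
      intro k hk i
      rw [hs']
      show ((st m).hb k i - (if k = (st m).lev then (st m).hb k i % 8
        else (st m).g k i) + 4) % 8 = _
      rw [if_neg hk]
      rfl
    have hlev : (st (m + 1)).lev = (st m).lev := by rw [hs']; rfl
    have hlL := hg.levL
    refine ⟨?_, ?_, ?_, ?_, ?_, ?_, ?_, ?_, ?_, ?_, ?_⟩
    · rw [hs', hnn]
      exact hg.mem
    · rw [hs', hnn]
      exact hg.pos
    · rw [hlev]
      exact hlL
    · intro k hk hkL i
      by_cases hk' : k = (st m).lev
      · rw [hk', hgap1]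
        omega
      · rw [hgap2 k hk']
        exact hg.gapb k hk hkL i
    · rw [hlev]
      intro h1 k hk hkL i
      rw [hgap2 k (by omega)]
      exact hg.gaph h1 k hk hkL i
    · intro i
      rw [hgap2 L (by omega)]
      exact hg.gapL i
    · rw [hlev]
      intro _ _ i
      exact hgap1 i
    · rw [hlev, hs']
      intro _ h2
      have h3 : 1 = 0 := h2
      omega
    · rw [hs']
      intro _
      exact Nat.zero_le _
    · rw [hs']
      intro _
      show 1 ≤ 8 ^ d + 1
      exact Nat.le_add_left 1 _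
    · intro i
      rw [hs']
      show (if L = (st m).lev then (st m).hb L i % 8 else (st m).g L i) = 0
      rw [if_neg (by omega)]
      exact hg.gL i
  · -- load
    have hs' := hs.trans (WSt.step_ld _ f L m Y h)
    have hnn := nst_succ_of_not (st := st) (m := m) (L := L) (idle_ne L h.1)
    refine ⟨?_, ?_, ?_, ?_, ?_, ?_, ?_, ?_, ?_, ?_, ?_⟩
    · rw [hs', hnn]
      exact hg.mem
    · rw [hs', hnn]
      exact hg.pos
    · rw [hs']
      exact hg.levL
    · rw [hs']
      exact hg.gapb
    · rw [hs']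
      exact hg.gaph
    · rw [hs']
      exact hg.gapL
    · rw [hs']
      intro h1 _
      exact hg.gapq h1 h.2.2.1
    · rw [hs']
      intro _ h2
      have h3 : (st m).q + 1 = 0 := h2
      omega
    · rw [hs']
      intro _
      exact Nat.zero_le _
    · rw [hs']
      intro _
      show (st m).q + 1 ≤ 8 ^ d + 1
      have := h.2.2.2
      omega
    · rw [hs']
      exact hg.gL
  · -- the end of the re-centring
    have hs' := hs.trans (WSt.step_fin _ f L m Y h.1 h.2.1 h.2.2)
    have hnn := nst_succ_of_not (st := st) (m := m) (L := L) (idle_ne L h.1)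
    refine ⟨?_, ?_, ?_, ?_, ?_, ?_, ?_, ?_, ?_, ?_, ?_⟩
    · rw [hs', hnn]
      exact hg.mem
    · rw [hs', hnn]
      exact hg.pos
    · rw [hs']
      show 0 < L
      omega
    · rw [hs']
      exact hg.gapb
    · rw [hs']
      intro h1
      have h3 : 1 ≤ 0 := h1
      omega
    · rw [hs']
      exact hg.gapL
    · rw [hs']
      intro h1
      have h3 : 1 ≤ 0 := h1
      omega
    · rw [hs']
      intro h1
      have h3 : 1 ≤ 0 := h1
      omega
    · rw [hs']
      intro h1
      have h3 : 1 ≤ 0 := h1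
      omega
    · rw [hs']
      intro h1
      have h3 : 1 ≤ 0 := h1
      omega
    · rw [hs']
      exact hg.gL

end Pool.Agent.NUM
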