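import Pool.Agent.NUM.MWinC

/-!
# Multi-scale windows: the entries stay right
-/

set_option autoImplicit false

namespace Pool.Agent.NUM

variable {d : ℕ} {f : Mem → Mem} {L W : ℕ} {st : ℕ → WSt d} {m : ℕ}

theorem wval_congr {k : ℕ} {b : Fin d → ℤ} (hn : nst L st (m + 1) = nst L st m)
    (he : lastEv st k (m + 1) b = lastEv st k m b) :
    wval f L st k (m + 1) b = wval f L st k m b := by
  unfold wval
  rw [hn, he]

theorem mconf_tape_succ (f : Mem → Mem) (n : ℕ) : (mconf d f (n + 1)).tape =
    Function.update (mconf d f n).tape (mconf d f n).pos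
      (f (mix (mconf d f n).mem ((mconf d f n).tape (mconf d f n).pos))) := rfl

theorem up_succ (n : ℕ) (b : Fin d → ℤ) : up 1 (up n b) = up (n + 1) b := up_up 1 n b

theorem res_div (b : Fin d → ℤ) (i : Fin d) : res b i / 4 = up 1 b i % 8 := by
  have e : up 1 b i = b i / 4 := by simp [up]
  rw [e]
  show b i % 32 / 4 = b i / 4 % 8
  omega

/-- passes which change neither records nor windows -/
theorem WInv.same (hi : WInv f L W st m) (hR : (st (m + 1)).R = (st m).R)
    (hn : nst L st (m + 1) = nst L st m) (hE : ¬ (st m).IsEv)
    (hW : ∀ k b, 1 ≤ k → ((st (m + 1)).InW k b ↔ (st m).InW k b)) : WInv f L W st (m + 1) := by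
  intro n k b hk h1 h2
  have e : chain W st n k (m + 1) b = chain W st n k m b := chain_congr (by rw [hR])
  rw [wval_congr hn (lastEv_succ_of_not fun h => hE h.1), e]
  exact hi n k b hk ((hW _ _ (by omega)).1 h1) fun i hi' h3 => h2 i hi' ((hW _ _ (by omega)).2 h3)

/-- the pointer of a box which is not in its window is right -/
theorem ptr_eq (hi : WInv f L W st m) (hm : m < 2 ^ W) {k : ℕ}
    {b : Fin d → ℤ} (hk : 1 ≤ k) (hkL : k + 1 ≤ L) (hb : (st m).InW (k + 1) (up 1 b)) :
    num W ((st m).R (k + 1) (res b)) = lastEv st k m b := by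
  have h1 := hi 0 k b (by omega) hb (fun i hi => absurd hi (by omega))
  have h2 : (st m).R (k + 1) (res b) = wval f L st k m b := h1
  rw [h2]
  unfold wval
  rw [if_neg (by omega)]
  exact num_testBit_lt (lt_of_le_of_lt (lastEv_le _ _ _ _) hm)

/-- during the loads the recalled state is the last one in which the box has been evicted -/
theorem load_ix (hg : WGeo f L W st m) (hi : WInv f L W st m) (hm : m < 2 ^ W)
    (h : (st m).IsLd) : (st m).ix W m =
      lastEv st (st m).lev m ((st m).sbx (st m).lev (st m).q) := by
  have hlL := hg.levL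
  have hcnt := hg.cntb h.1
  have h1 : (st m).ix W m = (st m).ptr W (st m).lev (st m).q := by
    unfold WSt.ix
    have h3 := h.2.1
    rw [if_pos ⟨h.1, by omega, h.2.2.1, h.2.2.2⟩]
  rw [h1]
  have hwin := WSt.sbx_win (st m) (st m).lev (st m).q
  refine ptr_eq hi hm h.1 (by omega) ⟨?_, fun h3 => by omega⟩
  exact WSt.win_up hwin (hg.gapb _ h.1 (by omega)) (hg.gaph h.1 _ (by omega) (by omega))

theorem WInv.succ (hr : Run f L W st) (hL : 1 ≤ L) (hm : m + 1 < 2 ^ W)
    (hg : WGeo f L W st m) (hi : WInv f L W st m) : WInv f L W st (m + 1) := by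
  obtain ⟨Y, hY⟩ : ∃ Y, Y = (if (st m).ix W m ≤ m then st ((st m).ix W m) else WSt.init d) :=
    ⟨_, rfl⟩
  have hs := hr.succ m
  rw [← hY] at hs
  rcases (st m).cases L with h | h | h | h | h | h
  · -- a step of the machine
    have hs' : st (m + 1) = (st m).main f := hs.trans (WSt.step_main _ f L m Y h)
    have hnn := nst_succ_of h
    have hread := read_eq hg hi hL h.1
    have hV : (st m).newV f = f (mix (mconf d f (nst L st m)).mem
        ((mconf d f (nst L st m)).tape (mconf d f (nst L st m)).pos)) := by
      unfold WSt.newV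
      rw [hread, hg.mem, hg.pos]
    have hnb : ∀ k, 1 ≤ k → k ≤ L → ∀ i, 3 ≤ (st m).gap k i ∧ (st m).gap k i ≤ 5 := by
      intro k hk hkL i
      rcases Nat.lt_or_ge k L with h1 | h1
      · exact WSt.not_big _ (Nat.findGreatest_eq_zero_iff.1 h.2 (by omega) (by omega)) i
      · have : k = L := by omega
        subst this
        exact hg.gapL i
    have hcen : ∀ k, 1 ≤ k → k ≤ L → (st (m + 1)).cen k = (st m).cen k := by
      intro k hk hkL
      funext i
      rw [hs']
      exact (WSt.gap_main (hnb k hk hkL i)).1
    have hW : ∀ k b, 1 ≤ k → k ≤ L → ((st (m + 1)).InW k b ↔ (st m).InW k b) := by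
      intro k b hk hkL
      have h1 : (st (m + 1)).lev = 0 := by
        rw [hs']
        exact h.1
      unfold WSt.InW
      rw [WSt.win_congr (hcen k hk hkL), h1, h.1]
      constructor
      · exact fun h2 => ⟨h2.1, fun h3 => by omega⟩
      · exact fun h2 => ⟨h2.1, fun h3 => by omega⟩
    have hE : ¬ (st m).IsEv := fun h' => h'.not_main L h
    have hpw : (st m).InW 1 (up 1 (st m).p) := by
      refine ⟨?_, fun h1 => by have := h.1; omega⟩
      have h3 : up 1 (st m).p = (st m).hb 1 := by
        funext i
        rfl
      rw [h3]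
      exact hg.win_hb le_rfl hL
    have htape : ∀ b, b ≠ (st m).p → (mconf d f (nst L st (m + 1))).tape b =
        (mconf d f (nst L st m)).tape b := by
      intro b hb
      rw [hnn, mconf_tape_succ, Function.update_of_ne]
      rw [← hg.pos]
      exact hb
    intro n k b hk h1 h2
    have h1' := (hW _ _ (by omega) (by omega)).1 h1
    have h2' : ∀ i < n, ¬ (st m).InW (k + i + 1) (up (i + 1) b) := fun i hi' h3 =>
      h2 i hi' ((hW _ _ (by omega) (by omega)).2 h3)
    have hold := hi n k b hk h1' h2'
    -- the value
    have hval : (k = 0 → b ≠ (st m).p) → wval f L st k (m + 1) b = wval f L st k m b := by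
      intro hkb
      unfold wval
      by_cases hk0 : k = 0
      · rw [if_pos hk0, if_pos hk0]
        exact htape b (hkb hk0)
      · rw [if_neg hk0, if_neg hk0, lastEv_succ_of_not fun h' => hE h'.1]
    by_cases hkn : k + n + 1 = 1
    · have hk0 : k = 0 := by omega
      have hn0 : n = 0 := by omega
      subst hk0 hn0
      by_cases hbp : b = (st m).p
      · subst hbp
        show (st (m + 1)).R 1 (res (st m).p) = wval f L st 0 (m + 1) (st m).p
        rw [hs']
        show (if 1 = 1 ∧ res (st m).p = (fun i => (st m).p i % 32) then (st m).newV f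
          else (st m).R 1 (res (st m).p)) = _
        rw [if_pos ⟨rfl, rfl⟩]
        unfold wval
        rw [if_pos rfl, hnn, hV, mconf_tape_succ, hg.pos, Function.update_self]
      · rw [hval fun _ => hbp, ← hold]
        refine chain_congr ?_
        rw [hs']
        show (if 0 + 0 + 1 = 1 ∧ res (up 0 b) = (fun i => (st m).p i % 32) then (st m).newV f
          else (st m).R (0 + 0 + 1) (res (up 0 b))) = _
        rw [if_neg]
        rintro ⟨-, h4⟩
        rw [up_zero] at h4
        exact hbp (WSt.eq_of_res (S := st m) (k := 1) (by simpa using h1'.1) hpw.1 h4)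
    · have h5 : k = 0 → b ≠ (st m).p := by
        intro hk0 hbp
        subst hk0
        apply h2' 0 (by omega)
        rw [hbp]
        exact hpw
      rw [hval h5, ← hold]
      refine chain_congr ?_
      rw [hs']
      show (if k + n + 1 = 1 ∧ res (up n b) = (fun i => (st m).p i % 32) then (st m).newV f
          else (st m).R (k + n + 1) (res (up n b))) = _
      rw [if_neg fun h' => hkn h'.1]
  · -- a level is chosen
    have hs' := hs.trans (WSt.step_set _ f L m Y h.1 h.2)
    refine hi.same ?_ (nst_succ_of_not (step_ne h)) ?_ ?_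
    · rw [hs']
    · intro h'
      have := h'.1
      omega
    · intro k b hk
      rw [hs']
      constructor
      · exact fun h2 => ⟨h2.1, fun h3 => by omega⟩
      · intro h2
        refine ⟨h2.1, fun _ h4 => ?_⟩
        have h5 : 1 ≤ 0 := h4
        omega
  · -- idle
    have hs' := hs.trans (WSt.step_idle _ f L m Y h.1 h.2)
    refine hi.same ?_ (nst_succ_of_not (idle_ne L h.1)) ?_ ?_
    · rw [hs']
    · exact fun h' => h'.2.1 h.2
    · intro k b _
      rw [hs']
      exact Iff.rfl
  · -- evict
    have hs' := hs.trans (WSt.step_ev _ f L m Y h)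
    obtain ⟨κ, hκ⟩ : ∃ κ, κ = (st m).lev := ⟨_, rfl⟩
    have hκ1 : 1 ≤ κ := by rw [hκ]; exact h.1
    have hκL : κ < L := by rw [hκ]; exact hg.levL
    have hlev : (st (m + 1)).lev = κ := by rw [hs', hκ]; rfl
    have hq : (st (m + 1)).q = 1 := by rw [hs']; rfl
    have hnn := nst_succ_of_not (st := st) (m := m) (L := L) (idle_ne L h.1)
    have hgb := hg.gapb κ hκ1 (by omega)
    have hgh : ∀ i, 3 ≤ (st m).gap (κ + 1) i ∧ (st m).gap (κ + 1) i ≤ 5 :=
      hg.gaph h.1 (κ + 1) (by omega) (by omega)
    have hR1 : ∀ k β, k ≠ κ + 1 → (st (m + 1)).R k β = (st m).R k β := by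
      intro k β hk
      rw [hs']
      show (if k = (st m).lev + 1 ∧ ∀ i, (β i - (st m).cen (st m).lev i + 4) % 32 < 8 then
        (fun j => (m + 1).testBit j) else (st m).R k β) = _
      rw [if_neg]
      rintro ⟨h1, -⟩
      omega
    have hR2 : ∀ B, (st m).win (κ + 1) (up 1 B) → (st (m + 1)).R (κ + 1) (res B) =
        if (st m).win κ B then (fun j => (m + 1).testBit j) else (st m).R (κ + 1) (res B) := by
      intro B hB
      rw [hs']
      show (if κ + 1 = (st m).lev + 1 ∧ ∀ i, (res B i - (st m).cen (st m).lev i + 4) % 32 < 8 then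
        (fun j => (m + 1).testBit j) else (st m).R (κ + 1) (res B)) = _
      have hev := WSt.evict_cond hB hgb hgh
      rw [← hκ]
      by_cases hw : (st m).win κ B
      · rw [if_pos ⟨rfl, hev.2 hw⟩, if_pos hw]
      · rw [if_neg fun h' => hw (hev.1 h'.2), if_neg hw]
    have hcen : ∀ k, k ≠ κ → (st (m + 1)).cen k = (st m).cen k := by
      intro k hk
      refine WSt.cen_congr (by rw [hs']; rfl) ?_
      rw [hs']
      funext i
      show (if k = (st m).lev then (st m).hb k i % 8 else (st m).g k i) = _
      rw [if_neg (by omega)]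
    have hW : ∀ k b, 1 ≤ k → k ≠ κ → ((st (m + 1)).InW k b ↔ (st m).InW k b) := by
      intro k b _ hk
      unfold WSt.InW
      rw [WSt.win_congr (hcen k hk), hlev, ← hκ]
      constructor
      · exact fun h2 => ⟨h2.1, fun h3 => absurd h3.symm hk⟩
      · exact fun h2 => ⟨h2.1, fun h3 => absurd h3.symm hk⟩
    have hWκ : ∀ b, ¬ (st (m + 1)).InW κ b := by
      rintro b ⟨-, h2⟩
      obtain ⟨q', h3, h4, -⟩ := h2 hlev (by omega)
      omega
    have hWκ' : ∀ b, (st m).win κ b → (st m).InW κ b := by
      intro b hb
      refine ⟨hb, fun _ h3 => ?_⟩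
      have := h.2.2
      omega
    have hval : ∀ k b, ¬ (k = κ ∧ (st m).win κ b) →
        wval f L st k (m + 1) b = wval f L st k m b := by
      intro k b hkb
      refine wval_congr hnn (lastEv_succ_of_not fun h' => hkb ⟨?_, ?_⟩)
      · rw [← h'.2.1, hκ]
      · rw [hκ]
        rw [← h'.2.1] at h'
        exact h'.2.2
    intro n k b hk h1 h2
    rcases Nat.lt_trichotomy (k + n + 1) κ with hc | hc | hc
    · -- below the level
      rw [hval k b (by omega), chain_congr (hR1 _ _ (by omega))]
      exact hi n k b hk ((hW _ _ (by omega) (by omega)).1 h1) fun i hi' h3 =>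
        h2 i hi' ((hW _ _ (by omega) (by omega)).2 h3)
    · rw [hc] at h1
      exact absurd h1 (hWκ _)
    · have h1' := (hW _ _ (by omega) (by omega)).1 h1
      rcases Nat.lt_or_ge (k + n) (κ + 1) with hc2 | hc2
      · -- the record of the parent
        have hkn : k + n = κ := by omega
        have hpar : (st m).win (κ + 1) (up 1 (up n b)) := by
          rw [up_succ]
          have := h1'.1
          rwa [hkn] at this
        cases n with
        | zero =>
          have hk' : k = κ := by omega
          subst hk'
          rw [up_zero] at hpar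
          show (st (m + 1)).R (k + 1) (res b) = _
          rw [hR2 b hpar]
          by_cases hw : (st m).win k b
          · rw [if_pos hw]
            unfold wval
            rw [if_neg (by omega), lastEv_succ_of ⟨h, hκ.symm, hw⟩]
          · rw [if_neg hw, hval k b fun h' => hw h'.2]
            exact hi 0 k b hk h1' (fun i hi => absurd hi (by omega))
        | succ n =>
          have hkκ : k ≠ κ := by omega
          rw [hval k b (by omega)]
          by_cases hw : (st m).win κ (up (n + 1) b)
          · -- the box was in the window: the pointer leads to the new state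
            have e1 : chain W st (n + 1) k (m + 1) b =
                chain W st n k (num W ((st (m + 1)).R (k + (n + 1) + 1) (res (up (n + 1) b)))) b :=
              rfl
            rw [e1, hkn, hR2 _ hpar, if_pos hw, num_testBit_lt hm,
              chain_congr (hR1 _ _ (by omega))]
            refine hi n k b (by omega) ?_ fun i hi' h3 => ?_
            · rw [show k + n + 1 = κ by omega]
              exact hWκ' _ hw
            · exact h2 i (by omega) ((hW _ _ (by omega) (by omega)).2 h3)
          · have e1 : chain W st (n + 1) k (m + 1) b = chain W st (n + 1) k m b := by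
              refine chain_congr ?_
              rw [hkn, hR2 _ hpar, if_neg hw]
            rw [e1]
            refine hi (n + 1) k b hk h1' fun i hi' h3 => ?_
            rcases Nat.lt_or_ge i n with h4 | h4
            · exact h2 i (by omega) ((hW _ _ (by omega) (by omega)).2 h3)
            · have : i = n := by omega
              subst this
              apply hw
              have h5 := h3.1
              rwa [show k + i + 1 = κ by omega] at h5
      · -- above
        have hnw : ∀ i < n, ¬ (st m).InW (k + i + 1) (up (i + 1) b) := by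
          intro i hi' h3
          by_cases hiκ : k + i + 1 = κ
          · have h4 : (st m).InW (k + (i + 1) + 1) (up (i + 1 + 1) b) := by
              have h5 := WSt.win_up (S := st m) (k := κ) (b := up (i + 1) b)
                (by rw [← hiκ]; exact h3.1) hgb hgh
              rw [up_succ] at h5
              rw [show k + (i + 1) + 1 = κ + 1 by omega]
              exact ⟨h5, fun h6 => by omega⟩
            exact h2 (i + 1) (by omega) ((hW _ _ (by omega) (by omega)).2 h4)
          · exact h2 i hi' ((hW _ _ (by omega) hiκ).2 h3)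
        have hv : ¬ (k = κ ∧ (st m).win κ b) := by
          rintro ⟨hk', hw⟩
          have h5 := WSt.win_up hw hgb hgh
          apply h2 0 (by omega)
          rw [hk']
          exact (hW _ _ (by omega) (by omega)).2 ⟨h5, fun h6 => by omega⟩
        rw [hval k b hv, chain_congr (hR1 _ _ (by omega))]
        exact hi n k b hk h1' hnw
  · -- load
    have hs' := hs.trans (WSt.step_ld _ f L m Y h)
    obtain ⟨κ, hκ⟩ : ∃ κ, κ = (st m).lev := ⟨_, rfl⟩
    have hκ1 : 1 ≤ κ := by rw [hκ]; exact h.1
    have hκL : κ < L := by rw [hκ]; exact hg.levL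
    have hlev : (st (m + 1)).lev = κ := by rw [hs', hκ]; rfl
    have hq : (st (m + 1)).q = (st m).q + 1 := by rw [hs']; rfl
    have hnn := nst_succ_of_not (st := st) (m := m) (L := L) (idle_ne L h.1)
    have hgb := hg.gapb κ hκ1 (by omega)
    have hgh : ∀ i, 3 ≤ (st m).gap (κ + 1) i ∧ (st m).gap (κ + 1) i ≤ 5 :=
      hg.gaph h.1 (κ + 1) (by omega) (by omega)
    obtain ⟨B, hB⟩ : ∃ B, B = (st m).sbx κ (st m).q := ⟨_, rfl⟩
    have hix : (st m).ix W m = lastEv st κ m B := by
      rw [load_ix hg hi (by omega) h, hB, hκ]
    have hY' : Y = st (lastEv st κ m B) := by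
      rw [hY, hix, if_pos (lastEv_le _ _ _ _)]
    have hBw : (st m).win κ B := by
      rw [hB]
      exact WSt.sbx_win _ _ _
    have hBm : ∀ i, B i % 8 = dig (st m).q i := by
      rw [hB]
      exact WSt.sbx_mod _ _ _
    have hR1 : ∀ k β, k ≠ κ → (st (m + 1)).R k β = (st m).R k β := by
      intro k β hk
      rw [hs']
      show (if k = (st m).lev ∧ ∀ i, β i / 4 = dig (st m).q i then Y.R k β else (st m).R k β) = _
      rw [if_neg]
      rintro ⟨h1, -⟩
      omega
    have hR2 : ∀ b', (∀ i, up 1 b' i % 8 = dig (st m).q i) → (st (m + 1)).R κ (res b') =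
        (st (lastEv st κ m B)).R κ (res b') := by
      intro b' hb'
      rw [hs']
      show (if κ = (st m).lev ∧ ∀ i, res b' i / 4 = dig (st m).q i then Y.R κ (res b')
        else (st m).R κ (res b')) = _
      rw [if_pos ⟨hκ, fun i => (res_div b' i).trans (hb' i)⟩, hY']
    have hR3 : ∀ b', ¬ (∀ i, up 1 b' i % 8 = dig (st m).q i) → (st (m + 1)).R κ (res b') =
        (st m).R κ (res b') := by
      intro b' hb'
      rw [hs']
      show (if κ = (st m).lev ∧ ∀ i, res b' i / 4 = dig (st m).q i then Y.R κ (res b')
        else (st m).R κ (res b')) = _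
      rw [if_neg]
      rintro ⟨-, h3⟩
      exact hb' fun i => (res_div b' i).symm.trans (h3 i)
    have hcen : ∀ k, (st (m + 1)).cen k = (st m).cen k := by
      intro k
      exact WSt.cen_congr (by rw [hs']; rfl) (by rw [hs']; rfl)
    have hW : ∀ k b, 1 ≤ k → k ≠ κ → ((st (m + 1)).InW k b ↔ (st m).InW k b) := by
      intro k b _ hk
      unfold WSt.InW
      rw [WSt.win_congr (hcen k), hlev, ← hκ]
      constructor
      · exact fun h2 => ⟨h2.1, fun h3 => absurd h3.symm hk⟩
      · exact fun h2 => ⟨h2.1, fun h3 => absurd h3.symm hk⟩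
    have hWκ : ∀ b, (st m).InW κ b → (st (m + 1)).InW κ b := by
      rintro b ⟨h1, h2⟩
      refine ⟨(WSt.win_congr (hcen κ) b).2 h1, fun _ _ => ?_⟩
      obtain ⟨q', h3, h4, h5⟩ := h2 hκ.symm h.2.2.1
      exact ⟨q', h3, by omega, h5⟩
    have hWκ' : ∀ b, (st (m + 1)).InW κ b → (st m).InW κ b ∨ b = B := by
      rintro b ⟨h1, h2⟩
      have h1' := (WSt.win_congr (hcen κ) b).1 h1
      obtain ⟨q', h3, h4, h5⟩ := h2 hlev (by omega)
      by_cases hq' : q' = (st m).q
      · right
        subst hq'
        rw [hB]
        exact WSt.eq_sbx _ h1' h5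
      · left
        exact ⟨h1', fun _ _ => ⟨q', h3, by omega, h5⟩⟩
    have hnB : ¬ (st m).InW κ B := by
      rintro ⟨-, h2⟩
      obtain ⟨q', h3, h4, h5⟩ := h2 hκ.symm h.2.2.1
      have h6 := dig_inj (d := d) (q := q') (q' := (st m).q) fun i => (h5 i).symm.trans (hBm i)
      have h7 := h.2.2.2
      rw [Nat.mod_eq_of_lt (by omega)] at h6
      rcases Nat.lt_or_ge (st m).q (8 ^ d) with h8 | h8
      · rw [Nat.mod_eq_of_lt h8] at h6
        omega
      · rw [show (st m).q = 8 ^ d by omega, Nat.mod_self] at h6
        omega
    have hE : ¬ (st m).IsEv := by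
      intro h'
      have h3 := h.2.2.1
      have h4 := h'.2.2
      omega
    have hval : ∀ k b, wval f L st k (m + 1) b = wval f L st k m b := fun k b =>
      wval_congr hnn (lastEv_succ_of_not fun h' => hE h'.1)
    intro n k b hk h1 h2
    rw [hval]
    have h2' : ∀ i < n, ¬ (st m).InW (k + i + 1) (up (i + 1) b) := by
      intro i hi' h3
      by_cases hiκ : k + i + 1 = κ
      · apply h2 i hi'
        rw [hiκ] at h3 ⊢
        exact hWκ _ h3
      · exact h2 i hi' ((hW _ _ (by omega) hiκ).2 h3)
    by_cases hc : k + n + 1 = κ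
    · -- the level in process
      rw [hc] at h1
      rcases hWκ' _ h1 with h3 | h3
      · -- another box
        have h4 : ¬ (∀ i, up 1 (up n b) i % 8 = dig (st m).q i) := by
          intro h5
          apply hnB
          have h6 : up (n + 1) b = B := by
            rw [hB]
            refine WSt.eq_sbx _ h3.1 fun i => ?_
            have := h5 i
            rwa [up_succ] at this
          rw [← h6]
          exact h3
        have e1 : chain W st n k (m + 1) b = chain W st n k m b := by
          refine chain_congr ?_
          rw [hc]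
          exact hR3 _ h4
        rw [e1]
        refine hi n k b hk ?_ h2'
        rw [hc]
        exact h3
      · -- the box just loaded
        have h4 : ∀ i, up 1 (up n b) i % 8 = dig (st m).q i := by
          intro i
          rw [up_succ, h3]
          exact hBm i
        have e1 : chain W st n k (m + 1) b = chain W st n k (lastEv st κ m B) b := by
          refine chain_congr ?_
          rw [hc]
          exact hR2 _ h4
        have hBup : (st m).InW (κ + 1) (up 1 B) :=
          ⟨WSt.win_up hBw hgb hgh, fun h5 => by omega⟩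
        have hptr := ptr_eq hi (by omega) hκ1 (by omega) hBup
        have e2 : chain W st (n + 1) k m b = chain W st n k (lastEv st κ m B) b := by
          show chain W st n k (num W ((st m).R (k + (n + 1) + 1) (res (up (n + 1) b)))) b = _
          rw [h3, show k + (n + 1) + 1 = κ + 1 by omega, hptr]
        rw [e1, ← e2]
        refine hi (n + 1) k b (by omega) ?_ ?_
        · rw [show k + (n + 1) + 1 = κ + 1 by omega]
          rw [← h3, up_succ] at hBup
          exact hBup
        · intro i hi'
          rcases Nat.lt_or_ge i n with h5 | h5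
          · exact h2' i h5
          · have : i = n := by omega
            subst this
            rw [h3, hc]
            exact hnB
    · rw [chain_congr (hR1 _ _ hc)]
      exact hi n k b hk ((hW _ _ (by omega) hc).1 h1) h2'
  · -- the end of the re-centring
    have hs' := hs.trans (WSt.step_fin _ f L m Y h.1 h.2.1 h.2.2)
    refine hi.same ?_ (nst_succ_of_not (idle_ne L h.1)) ?_ ?_
    · rw [hs']
    · intro h'
      have h1 := h'.2.2
      have h2 := h.2.2
      rw [h1] at h2
      exact absurd h2 (Nat.not_lt_zero _)
    · intro k b hk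
      rw [hs']
      constructor
      · intro h2
        refine ⟨h2.1, fun h3 h4 => ?_⟩
        obtain ⟨q', h5, h6, h7⟩ := exists_dig (d := d) (fun i => b i % 8) fun i => by omega
        exact ⟨q', h5, by have := h.2.2; omega, h7⟩
      · intro h2
        refine ⟨h2.1, fun h3 => ?_⟩
        have h4 : 0 = k := h3
        omega

end Pool.Agent.NUM
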