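import Pool.Agent.NUM.MWinD

/-!
# Multi-scale windows: time
-/

set_option autoImplicit false

namespace Pool.Agent.NUM

variable {d : ℕ} {f : Mem → Mem} {L W : ℕ} {st : ℕ → WSt d} {m : ℕ}

namespace WSt

variable (S : WSt d)

/-- distance of the head from the centre box in direction `i` -/
def pdi (k : ℕ) (i : Fin d) : ℕ :=
  (max (4 ^ k * S.cen k i - S.p i) (S.p i - 4 ^ k * S.cen k i - 4 ^ k + 1)).toNat

/-- distance of the head from the centre box -/
def pd (k : ℕ) : ℕ := Finset.univ.sup (S.pdi k)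

variable {S}

theorem pd_le {k c : ℕ} (h : ∀ i, S.pdi k i ≤ c) : S.pd k ≤ c := Finset.sup_le fun i _ => h i

theorem pdi_le (k : ℕ) (i : Fin d) : S.pdi k i ≤ S.pd k :=
  Finset.le_sup (f := S.pdi k) (Finset.mem_univ i)

theorem p_bounds (k : ℕ) (i : Fin d) : 4 ^ k * S.hb k i ≤ S.p i ∧
    S.p i < 4 ^ k * S.hb k i + 4 ^ k := by
  have hM : (0 : ℤ) < 4 ^ k := by positivity
  have h1 := Int.mul_ediv_add_emod (S.p i) (4 ^ k)
  have h2 := Int.emod_nonneg (S.p i) hM.ne'
  have h3 := Int.emod_lt_of_pos (S.p i) hM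
  have h4 : S.hb k i = S.p i / 4 ^ k := rfl
  rw [h4]
  constructor
  · omega
  · omega

theorem pd_eq_zero {k : ℕ} (h : ∀ i, S.gap k i = 4) : S.pd k = 0 := by
  refine Nat.le_zero.1 (pd_le fun i => ?_)
  have h1 := S.p_bounds k i
  have h2 : S.cen k i = S.hb k i := by
    unfold cen
    rw [h i]
    ring
  unfold pdi
  rw [h2]
  omega

theorem le_pd {k : ℕ} (hb : S.Big k) (h : ∀ i, 2 ≤ S.gap k i ∧ S.gap k i ≤ 6) :
    4 ^ k ≤ S.pd k := by
  obtain ⟨i, hi⟩ := hb
  refine le_trans ?_ (S.pdi_le k i)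
  have h1 := S.p_bounds k i
  have h2 := h i
  have hM : (0 : ℤ) < 4 ^ k := by positivity
  have h3 : S.cen k i = S.hb k i + 4 - S.gap k i := rfl
  have hc : ((4 ^ k : ℕ) : ℤ) = 4 ^ k := by push_cast; rfl
  unfold pdi
  have key : (4 : ℤ) ^ k ≤ max (4 ^ k * S.cen k i - S.p i)
      (S.p i - 4 ^ k * S.cen k i - 4 ^ k + 1) := by
    rcases hi with h4 | h4
    · have h5 : S.cen k i = S.hb k i + 2 := by omega
      refine le_trans ?_ (le_max_left _ _)
      rw [h5]
      nlinarith
    · have h5 : S.cen k i = S.hb k i - 2 := by omega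
      refine le_trans ?_ (le_max_right _ _)
      rw [h5]
      nlinarith
  omega

theorem pd_main {f : Mem → Mem} {k : ℕ} (h : (S.main f).cen k = S.cen k) :
    (S.main f).pd k ≤ S.pd k + 1 := by
  refine pd_le fun i => ?_
  have h1 := S.pdi_le k i
  refine le_trans ?_ (Nat.add_le_add_right h1 1)
  have h2 := mvd_abs (S.newV f) i
  have h3 : (S.main f).p i = S.p i + mvd (S.newV f) i := rfl
  unfold pdi
  rw [h, h3]
  omega

theorem pd_congr {S' : WSt d} {k : ℕ} (hp : S'.p = S.p) (h : S'.cen k = S.cen k) :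
    S'.pd k = S.pd k := by
  unfold pd pdi
  rw [hp, h]

variable (S)

/-- the potential -/
def pot (L : ℕ) : ℕ := ∑ k ∈ Finset.Ico 1 L, S.pd k

variable {S}

theorem pot_congr {S' : WSt d} {L : ℕ} (h : ∀ k, 1 ≤ k → k < L → S'.pd k = S.pd k) :
    S'.pot L = S.pot L :=
  Finset.sum_congr rfl fun k hk => by
    rw [Finset.mem_Ico] at hk
    exact h k hk.1 hk.2

theorem pot_drop {S' : WSt d} {L κ c : ℕ} (h1 : 1 ≤ κ) (h2 : κ < L)
    (h : ∀ k, k ≠ κ → S'.pd k = S.pd k) (hκ : S'.pd κ + c ≤ S.pd κ) :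
    S'.pot L + c ≤ S.pot L := by
  have hmem : κ ∈ Finset.Ico 1 L := Finset.mem_Ico.2 ⟨h1, h2⟩
  unfold pot
  rw [← Finset.add_sum_erase _ _ hmem, ← Finset.add_sum_erase (a := κ) _ S.pd hmem]
  have h3 : ∑ k ∈ (Finset.Ico 1 L).erase κ, S'.pd k = ∑ k ∈ (Finset.Ico 1 L).erase κ, S.pd k :=
    Finset.sum_congr rfl fun k hk => h k (Finset.ne_of_mem_erase hk)
  omega

end WSt

/-- the constant of the time bound -/
def wA (d : ℕ) : ℕ := 2 * (8 ^ d + 2)

/-- the time invariant -/
structure WTime (L : ℕ) (st : ℕ → WSt d) (m : ℕ) : Prop where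
  t0 : (st m).lev = 0 → m + wA d * (st m).pot L ≤ nst L st m * (1 + wA d * L)
  t1 : 1 ≤ (st m).lev → (st m).q = 0 →
    m + wA d * (st m).pot L ≤ nst L st m * (1 + wA d * L) + 1 + (st m).cnt
  t2 : 1 ≤ (st m).lev → 1 ≤ (st m).q →
    m + wA d * (st m).pot L + wA d * 4 ^ (st m).lev ≤
      nst L st m * (1 + wA d * L) + 1 + (st m).q * (4 ^ (st m).lev + 1) + (st m).cnt

theorem wA_fin (d : ℕ) {κ q c : ℕ} (hκ : 1 ≤ κ) (hq : q ≤ 8 ^ d + 1) (hc : c ≤ 4 ^ κ) :
    q * (4 ^ κ + 1) + c + 2 ≤ wA d * 4 ^ κ := by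
  unfold wA
  have h1 : 4 ≤ 4 ^ κ := by
    calc 4 = 4 ^ 1 := rfl
      _ ≤ 4 ^ κ := Nat.pow_le_pow_right (by norm_num) hκ
  have h2 : 1 ≤ 8 ^ d := Nat.one_le_pow _ _ (by norm_num)
  have h3 : q * (4 ^ κ + 1) ≤ (8 ^ d + 1) * (4 ^ κ + 1) := Nat.mul_le_mul_right _ hq
  generalize 4 ^ κ = x at h1 h3 hc ⊢
  generalize 8 ^ d = y at h2 h3 ⊢
  have h4 : 4 * y ≤ x * y := Nat.mul_le_mul_right y h1
  have h5 : (y + 1) * (x + 1) = x * y + x + y + 1 := by ring
  have h6 : 2 * (y + 2) * x = 2 * (x * y) + 4 * x := by ring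
  rw [h5] at h3
  rw [h6]
  omega

theorem WTime.succ (hr : Run f L W st) (hL : 1 ≤ L) (hg : WGeo f L W st m)
    (ht : WTime L st m) : WTime L st (m + 1) := by
  obtain ⟨Y, hY⟩ : ∃ Y, Y = (if (st m).ix W m ≤ m then st ((st m).ix W m) else WSt.init d) :=
    ⟨_, rfl⟩
  have hs := hr.succ m
  rw [← hY] at hs
  rcases (st m).cases L with h | h | h | h | h | h
  · -- a step of the machine
    have hs' : st (m + 1) = (st m).main f := hs.trans (WSt.step_main _ f L m Y h)
    have hnn := nst_succ_of h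
    have hnb : ∀ k, 1 ≤ k → k ≤ L → ∀ i, 3 ≤ (st m).gap k i ∧ (st m).gap k i ≤ 5 := by
      intro k hk hkL i
      rcases Nat.lt_or_ge k L with h1 | h1
      · exact WSt.not_big _ (Nat.findGreatest_eq_zero_iff.1 h.2 (by omega) (by omega)) i
      · have : k = L := by omega
        subst this
        exact hg.gapL i
    have hpot : (st (m + 1)).pot L ≤ (st m).pot L + L := by
      rw [hs']
      calc ((st m).main f).pot L ≤ ∑ k ∈ Finset.Ico 1 L, ((st m).pd k + 1) := by
            refine Finset.sum_le_sum fun k hk => WSt.pd_main ?_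
            rw [Finset.mem_Ico] at hk
            funext i
            exact (WSt.gap_main (hnb k hk.1 hk.2.le i)).1
        _ = (st m).pot L + (L - 1) := by
            rw [Finset.sum_add_distrib]
            simp [WSt.pot]
        _ ≤ (st m).pot L + L := by omega
    have h0 := ht.t0 h.1
    have hlev : (st (m + 1)).lev = 0 := by
      rw [hs']
      exact h.1
    refine ⟨fun _ => ?_, fun h1 => by omega, fun h1 => by omega⟩
    rw [hnn]
    have h2 := Nat.mul_le_mul_left (wA d) hpot
    rw [Nat.mul_add] at h2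
    rw [Nat.add_mul, Nat.one_mul]
    omega
  · -- a level is chosen
    have hs' := hs.trans (WSt.step_set _ f L m Y h.1 h.2)
    have hnn := nst_succ_of_not (st := st) (m := m) (L := L) (step_ne h)
    have h0 := ht.t0 h.1
    have hlev : (st (m + 1)).lev = Nat.findGreatest (st m).Big (L - 1) := by rw [hs']
    have hq : (st (m + 1)).q = 0 := by rw [hs']
    have hpot : (st (m + 1)).pot L = (st m).pot L := by rw [hs']; rfl
    refine ⟨fun h1 => ?_, fun _ _ => ?_, fun _ h2 => by omega⟩
    · rw [hlev] at h1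
      exact absurd h1 h.2
    · rw [hnn, hpot]
      omega
  · -- idle
    have hs' := hs.trans (WSt.step_idle _ f L m Y h.1 h.2)
    have hnn := nst_succ_of_not (st := st) (m := m) (L := L) (idle_ne L h.1)
    have hlev : (st (m + 1)).lev = (st m).lev := by rw [hs']
    have hq : (st (m + 1)).q = (st m).q := by rw [hs']
    have hc : (st (m + 1)).cnt = (st m).cnt + 1 := by rw [hs']
    have hpot : (st (m + 1)).pot L = (st m).pot L := by rw [hs']; rfl
    refine ⟨fun h1 => ?_, fun h1 h2 => ?_, fun h1 h2 => ?_⟩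
    · have := h.1
      omega
    · rw [hlev] at h1
      rw [hq] at h2
      have := ht.t1 h1 h2
      rw [hnn, hpot, hc]
      omega
    · rw [hlev] at h1
      rw [hq] at h2
      have := ht.t2 h1 h2
      rw [hnn, hpot, hc, hlev, hq]
      omega
  · -- evict
    have hg' := hs.trans (WSt.step_ev _ f L m Y h)
    have hnn := nst_succ_of_not (st := st) (m := m) (L := L) (idle_ne L h.1)
    have hlev : (st (m + 1)).lev = (st m).lev := by rw [hg']; rfl
    have hq : (st (m + 1)).q = 1 := by rw [hg']; rfl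
    have hc : (st (m + 1)).cnt = 0 := by rw [hg']; rfl
    have hgap1 : ∀ i, (st (m + 1)).gap (st m).lev i = 4 := by
      intro i
      rw [hg']
      show ((st m).hb (st m).lev i - (if (st m).lev = (st m).lev then (st m).hb (st m).lev i % 8
        else (st m).g (st m).lev i) + 4) % 8 = 4
      rw [if_pos rfl]
      omega
    have hp : (st (m + 1)).p = (st m).p := by rw [hg']; rfl
    have hcen : ∀ k, k ≠ (st m).lev → (st (m + 1)).cen k = (st m).cen k := by
      intro k hk
      refine WSt.cen_congr hp ?_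
      rw [hg']
      funext i
      show (if k = (st m).lev then (st m).hb k i % 8 else (st m).g k i) = _
      rw [if_neg hk]
    have hpd := WSt.le_pd (hg.bigq h.1 h.2.2) (hg.gapb _ h.1 hg.levL.le)
    have hpot : (st (m + 1)).pot L + 4 ^ (st m).lev ≤ (st m).pot L := by
      refine WSt.pot_drop h.1 hg.levL (fun k hk => WSt.pd_congr hp (hcen k hk)) ?_
      rw [WSt.pd_eq_zero hgap1, Nat.zero_add]
      exact hpd
    have h1 := ht.t1 h.1 h.2.2
    have h2 := hg.cntb h.1
    refine ⟨fun h3 => ?_, fun _ h3 => by omega, fun _ _ => ?_⟩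
    · have := h.1
      omega
    · rw [hnn, hlev, hq, hc]
      have h3 := Nat.mul_le_mul_left (wA d) hpot
      rw [Nat.mul_add] at h3
      omega
  · -- load
    have hs' := hs.trans (WSt.step_ld _ f L m Y h)
    have hnn := nst_succ_of_not (st := st) (m := m) (L := L) (idle_ne L h.1)
    have hlev : (st (m + 1)).lev = (st m).lev := by rw [hs']; rfl
    have hq : (st (m + 1)).q = (st m).q + 1 := by rw [hs']; rfl
    have hc : (st (m + 1)).cnt = 0 := by rw [hs']; rfl
    have hpot : (st (m + 1)).pot L = (st m).pot L := by rw [hs']; rfl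
    have h1 := ht.t2 h.1 h.2.2.1
    have h2 := hg.cntb h.1
    have h3 := h.2.1
    refine ⟨fun h4 => ?_, fun _ h4 => by omega, fun _ _ => ?_⟩
    · have := h.1
      omega
    · rw [hnn, hlev, hq, hc, hpot, Nat.add_mul, Nat.one_mul]
      omega
  · -- the end of the re-centring
    have hs' := hs.trans (WSt.step_fin _ f L m Y h.1 h.2.1 h.2.2)
    have hnn := nst_succ_of_not (st := st) (m := m) (L := L) (idle_ne L h.1)
    have hlev : (st (m + 1)).lev = 0 := by rw [hs']
    have hpot : (st (m + 1)).pot L = (st m).pot L := by rw [hs']; rfl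
    have h8 : 0 < 8 ^ d := by positivity
    have h1 := ht.t2 h.1 (by have := h.2.2; omega)
    have h2 := wA_fin d h.1 (hg.qb h.1) (hg.cntb h.1)
    refine ⟨fun _ => ?_, fun h4 => by omega, fun h4 => by omega⟩
    rw [hnn, hpot]
    omega

theorem WTime.le (hg : WGeo f L W st m) (ht : WTime L st m) :
    m ≤ nst L st m * (1 + wA d * L) + wA d * 4 ^ L := by
  rcases Nat.eq_zero_or_pos (st m).lev with h | h
  · have := ht.t0 h
    omega
  · have h1 : 4 ^ (st m).lev ≤ 4 ^ L := Nat.pow_le_pow_right (by norm_num) hg.levL.le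
    have h2 := wA_fin d h (hg.qb h) (hg.cntb h)
    have h3 := Nat.mul_le_mul_left (wA d) h1
    have h4 := hg.cntb h
    have h6 : 4 ^ (st m).lev + 2 ≤ wA d * 4 ^ (st m).lev := by
      have := wA_fin d h (Nat.zero_le _) (le_refl (4 ^ (st m).lev))
      omega
    rcases Nat.eq_zero_or_pos (st m).q with h5 | h5
    · have := ht.t1 h h5
      omega
    · have := ht.t2 h h5
      omega

/-- all invariants -/
structure WAll (f : Mem → Mem) (L W : ℕ) (st : ℕ → WSt d) (m : ℕ) : Prop where
  geo : WGeo f L W st m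
  inv : WInv f L W st m
  time : WTime L st m

theorem WAll.zero (hr : Run f L W st) (hL : 1 ≤ L) : WAll f L W st 0 := by
  have h0 := hr.zero
  have hgap : ∀ k i, (st 0).gap k i = 4 := by
    intro k i
    rw [h0]
    show ((0 : ℤ) / 4 ^ k - 0 + 4) % 8 = 4
    simp
  have hlev : (st 0).lev = 0 := by rw [h0]; rfl
  refine ⟨⟨?_, ?_, ?_, ?_, ?_, ?_, ?_, ?_, ?_, ?_, ?_⟩, ?_, ⟨?_, ?_, ?_⟩⟩
  · rw [h0]
    rfl
  · rw [h0]
    rfl
  · omega
  · intro k _ _ i
    rw [hgap]
    omega
  · intro h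
    omega
  · intro i
    rw [hgap]
    omega
  · intro h
    omega
  · intro h
    omega
  · intro h
    omega
  · intro h
    omega
  · intro i
    rw [h0]
    rfl
  · intro n k b _ _ _
    have h1 : ∀ n, chain W st n k 0 b = zeroMem := by
      intro n
      induction n with
      | zero =>
        show (st 0).R (k + 1) (res b) = _
        rw [h0]
        rfl
      | succ n ih =>
        have h2 : num W ((st 0).R (k + (n + 1) + 1) (res (up (n + 1) b))) = 0 := by
          rw [h0]
          show num W zeroMem = 0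
          unfold num zeroMem
          simp
        show chain W st n k (num W ((st 0).R (k + (n + 1) + 1) (res (up (n + 1) b)))) b = _
        rw [h2]
        exact ih
    rw [h1]
    unfold wval
    split_ifs
    · rfl
    · funext j
      show false = Nat.testBit 0 j
      simp
  · intro _
    have h1 : (st 0).pot L = 0 := by
      refine Finset.sum_eq_zero fun k _ => WSt.pd_eq_zero fun i => hgap k i
    rw [h1]
    show 0 + wA d * 0 ≤ 0 * _
    simp
  · intro h
    omega
  · intro h
    omega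

theorem WAll.of_run (hr : Run f L W st) (hL : 1 ≤ L) {N : ℕ} (hN : N < 4 ^ L)
    (hW : N * (1 + wA d * L) + wA d * 4 ^ L + 1 < 2 ^ W) :
    ∀ m, nst L st m ≤ N → WAll f L W st m := by
  intro m
  induction m with
  | zero => exact fun _ => WAll.zero hr hL
  | succ m ih =>
    intro h
    have h1 := ih ((nst_mono (Nat.le_succ m)).trans h)
    have h2 := WTime.le h1.geo h1.time
    have h3 : nst L st m * (1 + wA d * L) ≤ N * (1 + wA d * L) :=
      Nat.mul_le_mul_right _ ((nst_mono (Nat.le_succ m)).trans h)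
    exact ⟨WGeo.succ hr hL (by omega) h1.geo h1.inv, WInv.succ hr hL (by omega) h1.geo h1.inv,
      WTime.succ hr hL h1.geo h1.time⟩

/-- **The simulation halts in time.** -/
theorem exists_halt (hr : Run f L W st) (hL : 1 ≤ L) {N : ℕ} (hN : N < 4 ^ L)
    (hW : N * (1 + wA d * L) + wA d * 4 ^ L + 1 < 2 ^ W) (hH : MHaltsAt d f N) :
    ∃ T ≤ N * (1 + wA d * L), (st T).V 0 = true ∧ (st T).V 2 = (mconf d f N).mem 2 ∧
      (∀ t < T, (st t).V 0 = false) ∧ ∀ t ≤ T, WAll f L W st t := by
  have hall := WAll.of_run (f := f) (W := W) hr hL hN hW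
  have hN1 : 1 ≤ N := by
    by_contra h
    have h0 : N = 0 := by omega
    rw [h0] at hH
    have h1 : (zeroMem 0) = true := hH.1
    exact absurd h1 (by simp [zeroMem])
  have hex : ∃ m, N ≤ nst L st m := by
    by_contra hcon
    push Not at hcon
    obtain ⟨m, hm⟩ : ∃ m, m = N * (1 + wA d * L) + wA d * 4 ^ L + 1 := ⟨_, rfl⟩
    have h1 := hall m (hcon m).le
    have h2 := WTime.le h1.geo h1.time
    have h3 : nst L st m * (1 + wA d * L) ≤ N * (1 + wA d * L) :=
      Nat.mul_le_mul_right _ (hcon m).le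
    omega
  obtain ⟨M, hM, hmin⟩ : ∃ M, N ≤ nst L st M ∧ ∀ m < M, nst L st m < N := by
    classical
    exact ⟨Nat.find hex, Nat.find_spec hex, fun m hm => by
      have := Nat.find_min hex hm
      omega⟩
  obtain ⟨M', hM'⟩ : ∃ M', M = M' + 1 := by
    refine ⟨M - 1, ?_⟩
    by_contra h
    have h0 : M = 0 := by omega
    subst h0
    have h1 : N ≤ 0 := hM
    omega
  subst hM'
  have h1 := hmin M' (by omega)
  have hmain : (st M').IsMain L := by
    by_contra h
    rw [nst_succ_of_not h] at hM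
    omega
  have h2 := nst_succ_of hmain
  have h3 : nst L st (M' + 1) = N := by omega
  have hA := hall (M' + 1) h3.le
  have hlev : (st (M' + 1)).lev = 0 := by
    rw [hr.succ M', WSt.step_main _ _ _ _ _ hmain]
    exact hmain.1
  have ht := hA.time.t0 hlev
  refine ⟨M' + 1, ?_, ?_, ?_, ?_, ?_⟩
  · rw [h3] at ht
    omega
  · rw [hA.geo.mem, h3]
    exact hH.1
  · rw [hA.geo.mem, h3]
  · intro t ht'
    have h4 := hmin t ht'
    rw [(hall t h4.le).geo.mem]
    exact hH.2 _ h4
  · intro t ht'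
    exact hall t ((nst_mono ht').trans h3.le)

end Pool.Agent.NUM
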