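import Pool.Agent.NUM.MWinE
import Pool.Agent.NUM.MHSep

/-!
# Multi-scale windows: the computation graph
-/

set_option autoImplicit false

namespace Pool.Agent.NUM

variable {d : ℕ} {f : Mem → Mem} {L W : ℕ} {st : ℕ → WSt d} {m : ℕ}

/-- an operation on a window -/
def WSt.IsOp (S : WSt d) : Prop := 1 ≤ S.lev ∧ ¬ S.cnt < 4 ^ S.lev ∧ S.q ≤ 8 ^ d

noncomputable instance (S : WSt d) : Decidable S.IsOp := Classical.propDecidable _

theorem WSt.IsEv.isOp {S : WSt d} (h : S.IsEv) : S.IsOp :=
  ⟨h.1, h.2.1, by rw [h.2.2]; exact Nat.zero_le _⟩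

theorem WSt.IsLd.isOp {S : WSt d} (h : S.IsLd) : S.IsOp := ⟨h.1, h.2.1, h.2.2.2⟩

/-- the level of a reader or source -/
noncomputable def wkind (st : ℕ → WSt d) : ℕ → ℕ
  | 0 => 0
  | m + 1 => if (st m).IsOp then (st m).lev else 0

/-- the sources -/
def wsrc (st : ℕ → WSt d) : ℕ → Prop
  | 0 => False
  | m + 1 => (st m).IsEv

/-- the box which is loaded -/
def wbx (st : ℕ → WSt d) : ℕ → Fin d → ℤ
  | 0 => fun _ => 0
  | m + 1 => (st m).sbx (st m).lev (st m).q

theorem wkind_succ_of {m : ℕ} (h : (st m).IsOp) : wkind st (m + 1) = (st m).lev := if_pos h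

theorem wkind_succ_of_not {m : ℕ} (h : ¬ (st m).IsOp) : wkind st (m + 1) = 0 := if_neg h

/-- the control after a pass -/
theorem ctl_succ (hr : Run f L W st) (m : ℕ) :
    ((st m).IsMain L ∧ (st (m + 1)).lev = 0) ∨
    ((st m).lev = 0 ∧ (st (m + 1)).cnt = 0 ∧ (st (m + 1)).p = (st m).p) ∨
    (1 ≤ (st m).lev ∧ (st m).cnt < 4 ^ (st m).lev ∧ (st (m + 1)).lev = (st m).lev ∧
      (st (m + 1)).cnt = (st m).cnt + 1 ∧ (st (m + 1)).p = (st m).p) ∨
    ((st m).IsOp ∧ (st (m + 1)).lev = (st m).lev ∧ (st (m + 1)).cnt = 0 ∧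
      (st (m + 1)).p = (st m).p) ∨
    (1 ≤ (st m).lev ∧ ¬ (st m).cnt < 4 ^ (st m).lev ∧ 8 ^ d < (st m).q ∧ (st (m + 1)).lev = 0 ∧
      (st (m + 1)).p = (st m).p) := by
  obtain ⟨Y, hY⟩ : ∃ Y, Y = (if (st m).ix W m ≤ m then st ((st m).ix W m) else WSt.init d) :=
    ⟨_, rfl⟩
  have hs := hr.succ m
  rw [← hY] at hs
  rcases (st m).cases L with h | h | h | h | h | h
  · left
    refine ⟨h, ?_⟩
    rw [hs.trans (WSt.step_main _ f L m Y h)]
    exact h.1
  · right; left
    rw [hs.trans (WSt.step_set _ f L m Y h.1 h.2)]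
    exact ⟨h.1, rfl, rfl⟩
  · right; right; left
    rw [hs.trans (WSt.step_idle _ f L m Y h.1 h.2)]
    exact ⟨h.1, h.2, rfl, rfl, rfl⟩
  · right; right; right; left
    rw [hs.trans (WSt.step_ev _ f L m Y h)]
    exact ⟨h.isOp, rfl, rfl, rfl⟩
  · right; right; right; left
    rw [hs.trans (WSt.step_ld _ f L m Y h)]
    exact ⟨h.isOp, rfl, rfl, rfl⟩
  · right; right; right; right
    rw [hs.trans (WSt.step_fin _ f L m Y h.1 h.2.1 h.2.2)]
    exact ⟨h.1, h.2.1, h.2.2, rfl, rfl⟩

theorem pad_fwd (hr : Run f L W st) {m κ : ℕ} (h : (st m).IsOp) (hκ : (st m).lev = κ) :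
    ∀ j ≤ 4 ^ κ, (st (m + 1 + j)).lev = κ ∧ (st (m + 1 + j)).cnt = j := by
  have hκ1 : 1 ≤ κ := by rw [← hκ]; exact h.1
  intro j
  induction j with
  | zero =>
    intro _
    rcases ctl_succ hr m with h1 | h1 | h1 | h1 | h1
    · have := h1.1.1
      omega
    · omega
    · exact absurd h1.2.1 h.2.1
    · rw [Nat.add_zero, h1.2.1, hκ]
      exact ⟨rfl, h1.2.2.1⟩
    · have := h.2.2
      omega
  | succ j ih =>
    intro hj
    obtain ⟨h2, h3⟩ := ih (by omega)
    rcases ctl_succ hr (m + 1 + j) with h1 | h1 | h1 | h1 | h1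
    · have := h1.1.1
      omega
    · omega
    · rw [← Nat.add_assoc, h1.2.2.1, h1.2.2.2.1, h2, h3]
      exact ⟨rfl, rfl⟩
    · have h4 := h1.1.2.1
      rw [h2, h3] at h4
      omega
    · have h4 := h1.2.1
      rw [h2, h3] at h4
      omega

theorem pad_bwd (hr : Run f L W st) {m κ c : ℕ} (hκ1 : 1 ≤ κ) (hκ : (st m).lev = κ)
    (hc : (st m).cnt = c) : ∀ j ≤ c, j ≤ m ∧ (st (m - j)).lev = κ ∧ (st (m - j)).cnt = c - j := by
  intro j
  induction j with
  | zero =>
    intro _
    exact ⟨Nat.zero_le _, hκ, hc⟩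
  | succ j ih =>
    intro hj
    obtain ⟨h2, h3, h4⟩ := ih (by omega)
    have hne : m - j ≠ 0 := by
      intro h0
      rw [h0, hr.zero] at h3
      have h5 : 0 = κ := h3
      omega
    obtain ⟨v, hv⟩ : ∃ v, v = m - (j + 1) := ⟨_, rfl⟩
    have hv1 : m - j = v + 1 := by omega
    rw [hv1] at h3 h4
    refine ⟨by omega, ?_⟩
    rw [← hv]
    rcases ctl_succ hr v with h1 | h1 | h1 | h1 | h1
    · omega
    · omega
    · omega
    · omega
    · omega

/-- boxes stay in the window until the next eviction -/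
theorem inW_succ (hr : Run f L W st) (hg : WGeo f L W st m) {k : ℕ} {b : Fin d → ℤ} (hk : 1 ≤ k)
    (hkL : k ≤ L) (h : (st m).InW k b) (hE : ¬ ((st m).IsEv ∧ (st m).lev = k)) :
    (st (m + 1)).InW k b := by
  obtain ⟨Y, hY⟩ : ∃ Y, Y = (if (st m).ix W m ≤ m then st ((st m).ix W m) else WSt.init d) :=
    ⟨_, rfl⟩
  have hs := hr.succ m
  rw [← hY] at hs
  rcases (st m).cases L with h1 | h1 | h1 | h1 | h1 | h1
  · have hs' : st (m + 1) = (st m).main f := hs.trans (WSt.step_main _ f L m Y h1)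
    have hnb : ∀ i, 3 ≤ (st m).gap k i ∧ (st m).gap k i ≤ 5 := by
      intro i
      rcases Nat.lt_or_ge k L with h2 | h2
      · exact WSt.not_big _ (Nat.findGreatest_eq_zero_iff.1 h1.2 (by omega) (by omega)) i
      · have : k = L := by omega
        subst this
        exact hg.gapL i
    have hcen : (st (m + 1)).cen k = (st m).cen k := by
      funext i
      rw [hs']
      exact (WSt.gap_main (hnb i)).1
    refine ⟨(WSt.win_congr hcen b).2 h.1, fun h2 => ?_⟩
    rw [hs'] at h2
    have h3 : (st m).lev = k := h2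
    have := h1.1
    omega
  · rw [hs.trans (WSt.step_set _ f L m Y h1.1 h1.2)]
    refine ⟨h.1, fun _ h2 => ?_⟩
    have h3 : 1 ≤ 0 := h2
    omega
  · rw [hs.trans (WSt.step_idle _ f L m Y h1.1 h1.2)]
    exact h
  · have hs' := hs.trans (WSt.step_ev _ f L m Y h1)
    have hne : ¬ (st m).lev = k := fun h2 => hE ⟨h1, h2⟩
    have hcen : (st (m + 1)).cen k = (st m).cen k := by
      refine WSt.cen_congr (by rw [hs']; rfl) ?_
      rw [hs']
      funext i
      show (if k = (st m).lev then (st m).hb k i % 8 else (st m).g k i) = _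
      rw [if_neg fun h2 => hne h2.symm]
    refine ⟨(WSt.win_congr hcen b).2 h.1, fun h2 => ?_⟩
    rw [hs'] at h2
    exact absurd h2 hne
  · have hs' := hs.trans (WSt.step_ld _ f L m Y h1)
    have hcen : (st (m + 1)).cen k = (st m).cen k :=
      WSt.cen_congr (by rw [hs']; rfl) (by rw [hs']; rfl)
    refine ⟨(WSt.win_congr hcen b).2 h.1, fun h2 _ => ?_⟩
    have h3 : (st (m + 1)).q = (st m).q + 1 := by rw [hs']; rfl
    rw [hs'] at h2
    obtain ⟨q', h4, h5, h6⟩ := h.2 h2 h1.2.2.1
    exact ⟨q', h4, by omega, h6⟩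
  · rw [hs.trans (WSt.step_fin _ f L m Y h1.1 h1.2.1 h1.2.2)]
    refine ⟨h.1, fun h2 => ?_⟩
    have h3 : 0 = k := h2
    omega

theorem not_inW_sbx {S : WSt d} (h : S.IsLd) : ¬ S.InW S.lev (S.sbx S.lev S.q) := by
  rintro ⟨-, h2⟩
  obtain ⟨q', h3, h4, h5⟩ := h2 rfl h.2.2.1
  have h6 := dig_inj (d := d) (q := q') (q' := S.q) fun i =>
    (h5 i).symm.trans (WSt.sbx_mod S S.lev S.q i)
  have h7 := h.2.2.2
  rw [Nat.mod_eq_of_lt (by omega)] at h6
  rcases Nat.lt_or_ge S.q (8 ^ d) with h8 | h8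
  · rw [Nat.mod_eq_of_lt h8] at h6
    omega
  · rw [show S.q = 8 ^ d by omega, Nat.mod_self] at h6
    omega

/-- **The computation graph of the simulation.** -/
theorem wGraph_run (hr : Run f L W st) {T : ℕ} (hT : T < 2 ^ W)
    (hA : ∀ t ≤ T, WAll f L W st t) {rc : ℕ → ℕ} (hrc : ∀ t < T, rc t = (st t).ix W t) :
    WGraph T rc d L 16 (fun k => 4 ^ k) (fun t => (st t).p) (wkind st) (wsrc st) (wbx st) := by
  have hld : ∀ t < T, rc t < t → (st t).IsLd := by
    intro t ht h
    rw [hrc t ht] at h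
    unfold WSt.ix at h
    split_ifs at h with h1
    · exact ⟨h1.1, by omega, h1.2.2.1, h1.2.2.2⟩
    · omega
  have hlast : ∀ t < T, rc t < t → rc t = lastEv st (st t).lev t (wbx st (t + 1)) := by
    intro t ht h
    rw [hrc t ht]
    exact load_ix (hA t ht.le).geo (hA t ht.le).inv (by omega) (hld t ht h)
  have hcen : ∀ t < T, rc t < t → (st t).cen (st t).lev = (st t).hb (st t).lev := by
    intro t ht h
    funext i
    have h1 := (hA t ht.le).geo.gapq (hld t ht h).1 (hld t ht h).2.2.1 i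
    show (st t).hb (st t).lev i + 4 - (st t).gap (st t).lev i = _
    rw [h1]
    ring
  have hp : ∀ t, (st t).IsOp → (st (t + 1)).p = (st t).p := by
    intro t h
    rcases ctl_succ hr t with h1 | h1 | h1 | h1 | h1
    · have := h1.1.1
      have := h.1
      omega
    · exact h1.2.2
    · exact h1.2.2.2.2
    · exact h1.2.2.2
    · exact h1.2.2.2.2
  refine ⟨fun k => Nat.one_le_pow _ _ (by norm_num), ?_, ?_, ?_, ?_, ?_, ?_⟩
  · -- the head moves slowly
    intro t _ i
    show |(st (t + 1)).p i - (st t).p i| ≤ 1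
    rcases ctl_succ hr t with h1 | h1 | h1 | h1 | h1
    · rw [hr.succ t, WSt.step_main _ _ _ _ _ h1.1]
      show |(st t).p i + mvd ((st t).newV f) i - (st t).p i| ≤ 1
      have := mvd_abs ((st t).newV f) i
      rw [abs_le]
      omega
    · rw [h1.2.2]
      simp
    · rw [h1.2.2.2.2]
      simp
    · rw [h1.2.2.2]
      simp
    · rw [h1.2.2.2.2]
      simp
  · -- levels
    intro t ht
    cases t with
    | zero => exact Nat.zero_le _
    | succ t =>
      by_cases h : (st t).IsOp
      · rw [wkind_succ_of h]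
        exact (hA t (by omega)).geo.levL.le
      · rw [wkind_succ_of_not h]
        exact Nat.zero_le _
  · -- pads
    intro t ht hk u hu hne h1 h2
    cases t with
    | zero => exact absurd hk (by show ¬ 1 ≤ 0; omega)
    | succ t =>
      have hop : (st t).IsOp := by
        by_contra h
        rw [wkind_succ_of_not h] at hk
        omega
      rw [wkind_succ_of hop] at h1 h2
      have h1' : u ≤ t + 1 + 4 ^ (st t).lev := h1
      have h2' : t + 1 ≤ u + 4 ^ (st t).lev := h2
      cases u with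
      | zero => rfl
      | succ v =>
        refine wkind_succ_of_not fun hv => ?_
        have h3 := hv.2.1
        rcases Nat.lt_or_ge t v with h4 | h4
        · obtain ⟨h5, h6⟩ := pad_fwd hr hop rfl (v - (t + 1)) (by omega)
          rw [show t + 1 + (v - (t + 1)) = v by omega] at h5 h6
          rw [h5, h6] at h3
          omega
        · have h5 := (hA t (by omega)).geo.cntb hop.1
          have h6 := hop.2.1
          obtain ⟨h7, h8, h9⟩ := pad_bwd hr hop.1 rfl rfl (t - v)
            (by have : (st t).cnt = 4 ^ (st t).lev := by omega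
                omega)
          rw [show t - (t - v) = v by omega] at h8 h9
          rw [h8, h9] at h3
          omega
  · -- recall edges
    intro t ht h1 h2
    have h3 := hld t ht h1
    have h4 := hlast t ht h1
    have h0 := h3.isOp
    rcases lastEv_spec st (st t).lev t (wbx st (t + 1)) with h5 | ⟨u, h5, h6, h7, h8, h9⟩
    · exact absurd (h4.trans h5) h2
    · have h10 : rc t = u + 1 := h4.trans h6
      rw [h10, wkind_succ_of h0, wkind_succ_of h7.isOp, h8]
      refine ⟨h3.1, ?_, rfl, h7, fun i => ?_⟩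
      · intro h11
        have h12 : (st t).IsEv := h11
        have h13 := h12.2.2
        have h14 := h3.2.2.1
        omega
      · show |(st (u + 1)).p i - (st (t + 1)).p i| ≤ (16 : ℕ) * (4 ^ (st t).lev : ℕ)
        rw [hp u h7.isOp, hp t h0]
        have e1 := h9 i
        have e2 := (hA u (by omega)).geo.gapb (st t).lev h3.1 (hA t ht.le).geo.levL.le i
        have e3 : (st u).cen (st t).lev i =
          (st u).hb (st t).lev i + 4 - (st u).gap (st t).lev i := rfl
        have e4 : (st t).win (st t).lev (wbx st (t + 1)) := WSt.sbx_win _ _ _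
        have e5 := e4 i
        rw [hcen t ht h1] at e5
        have e6 := WSt.p_bounds (S := st u) (st t).lev i
        have e7 := WSt.p_bounds (S := st t) (st t).lev i
        have hx : (0 : ℤ) < 4 ^ (st t).lev := by positivity
        have e8 : (st u).hb (st t).lev i - (st t).hb (st t).lev i ≤ 10 := by omega
        have e9 : (st t).hb (st t).lev i - (st u).hb (st t).lev i ≤ 10 := by omega
        push_cast
        rw [abs_le]
        constructor
        · nlinarith
        · nlinarith
  · -- boxes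
    intro t ht h1 _ i
    have h3 := hld t ht h1
    have h0 := h3.isOp
    rw [wkind_succ_of h0]
    show |((4 ^ (st t).lev : ℕ) : ℤ) * wbx st (t + 1) i - (st (t + 1)).p i| ≤
      (16 : ℕ) * (4 ^ (st t).lev : ℕ)
    rw [hp t h0]
    have e4 : (st t).win (st t).lev (wbx st (t + 1)) := WSt.sbx_win _ _ _
    have e5 := e4 i
    rw [hcen t ht h1] at e5
    have e7 := WSt.p_bounds (S := st t) (st t).lev i
    have hx : (0 : ℤ) < 4 ^ (st t).lev := by positivity
    push_cast
    rw [abs_le]
    constructor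
    · nlinarith
    · nlinarith
  · -- a box is loaded again only after an eviction
    intro t₁ t₂ h12 h2 hr1 _ hr2 _ hk hb
    have hl1 := hld t₁ (by omega) hr1
    have hl2 := hld t₂ h2 hr2
    rw [wkind_succ_of hl1.isOp, wkind_succ_of hl2.isOp] at hk
    obtain ⟨κ, hκ⟩ : ∃ κ, κ = (st t₁).lev := ⟨_, rfl⟩
    obtain ⟨B, hB⟩ : ∃ B, B = wbx st (t₁ + 1) := ⟨_, rfl⟩
    have hκL := (hA t₁ (by omega)).geo.levL
    have key : ∀ m, t₁ < m → m ≤ t₂ → (st m).InW κ B ∨ t₁ < lastEv st κ m B := by
      intro m hm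
      induction m, hm using Nat.le_induction with
      | base =>
        intro _
        left
        have hs' := (hr.succ t₁).trans (WSt.step_ld _ f L t₁ _ hl1)
        have hcen' : (st (t₁ + 1)).cen κ = (st t₁).cen κ :=
          WSt.cen_congr (by rw [hs']; rfl) (by rw [hs']; rfl)
        refine ⟨(WSt.win_congr hcen' B).2 ?_, fun _ _ => ⟨(st t₁).q, hl1.2.2.1, ?_, fun i => ?_⟩⟩
        · rw [hB, hκ]
          exact WSt.sbx_win _ _ _
        · rw [Nat.succ_eq_add_one, hs']
          show (st t₁).q < (st t₁).q + 1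
          omega
        · rw [hB]
          exact WSt.sbx_mod _ _ _ i
      | succ m hm ih =>
        intro hm2
        rcases ih (by omega) with h3 | h3
        · by_cases h4 : (st m).IsEv ∧ (st m).lev = κ
          · right
            rw [lastEv_succ_of ⟨h4.1, h4.2, h3.1⟩]
            omega
          · left
            exact inW_succ hr (hA m (by omega)).geo (by rw [hκ]; exact hl1.1)
              (by omega) h3 h4
        · right
          exact lt_of_lt_of_le h3 (lastEv_mono st κ m B)
    have h5 := hlast t₂ h2 hr2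
    rcases key t₂ h12 le_rfl with h6 | h6
    · exfalso
      refine not_inW_sbx hl2 ?_
      have h7 : (st t₂).sbx (st t₂).lev (st t₂).q = B := by
        rw [hB, hb]
        rfl
      rw [h7, ← hk, ← hκ]
      exact h6
    · rw [h5, ← hk, ← hκ, ← hb, ← hB]
      exact h6

/-- the constant of the separators -/
def wK (d L : ℕ) : ℕ := 3 + 2 * d * (1 + (4 * 16 + 2) * L) + L * (2 * 16 + 3) ^ d

/-- **Simulation of a `d`-dimensional tape by a history with small separators.** -/
theorem exists_win_run {f : Mem → Mem} {N L W : ℕ} (hL : 1 ≤ L) (hN : N < 4 ^ L)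
    (hW : N * (1 + wA d * L) + wA d * 4 ^ L + 1 < 2 ^ W) (hH : MHaltsAt d f N) :
    ∃ (st : ℕ → WSt d) (T : ℕ), WRun f L W st T ∧ T ≤ N * (1 + wA d * L) ∧ (st T).V 0 = true ∧
      (st T).V 2 = (mconf d f N).mem 2 ∧ (∀ t < T, (st t).V 0 = false) ∧
      ∀ rc : ℕ → ℕ, (∀ t < T, rc t = (st t).ix W t) →
        HSep T rc ((d : ℝ) / (d + 1)) (wK d L) := by
  have hr := run_wst (d := d) f L W
  obtain ⟨T, h1, h2, h3, h4, h5⟩ := exists_halt hr hL hN hW hH
  refine ⟨wst f L W, T, wrun_wst f L W T, h1, h2, h3, h4, fun rc hrc => ?_⟩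
  exact (wGraph_run hr (by omega) h5 hrc).hsep

end Pool.Agent.NUM
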