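import Pool.Agent.NUM.GAbs

/-!
# The nondeterministic theorem H(γ), abstract part

`Cls` is the class of the problems which are accepted by the program for unsatisfiability on virtual
instances. From the interface `TradeNG I Cls c γ` (`I`: the set of the parameters for which the
assumption on satisfiability is available) we derive a contradiction for `1 < c` and `c² < 2 - γ`, or `γ = 0` and `c³ < 4`, or `c⁴ - c² < (1 - γ) (1 - γ + c)` and `γ (1 - γ + c) < 1`.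
-/

set_option autoImplicit false

namespace Pool.Agent.NUM

/-- **Families of list problems.** Level `r` has the instances `(τ, l)`, where `l` is a list with
`2 ^ ((γ r + o(1)) L)` bits about at most `2 ^ ((r + o(1)) L)` passes: `Yes r`: true lists of an
accepting computation, `NReal r`: lists which are not realised by any choices. -/
structure IsFamN (γ : ℝ) {T : Type} (π : Pres T) (P : T → Prop) (e₀ : ℝ) (w : ℝ → ℕ → ℕ)
    (Yes NReal : ℝ → T × Inp → Prop) : Prop where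
  lin : ∀ r, 0 ≤ r → r ≤ e₀ → Lin (γ * r) (w r)
  /-- guess the choices and simulate along the list -/
  base : ∀ r, 0 ≤ r → r ≤ e₀ → Cert ClsH r (π.ext (w r)) (Yes r) (NReal r) r
  /-- from level `r` to level `e` -/
  step : ∀ r e, 0 ≤ r → r ≤ e → e ≤ e₀ → ∀ u e' : ℝ, 0 ≤ u → 0 ≤ e' →
    Cert ClsH u (π.ext (w r)) (NReal r) (Yes r) e' →
    Dual (e - (1 - γ) * r) u (π.ext (w e)) (Yes e) (NReal e) e'
  /-- from level `r` to the problem itself -/
  top : ∀ r, 0 ≤ r → r ≤ e₀ → ∀ u e' : ℝ, 0 ≤ u → 0 ≤ e' →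
    Cert ClsH u (π.ext (w r)) (NReal r) (Yes r) e' →
    Dual (e₀ - (1 - γ) * r) u π P (fun τ => ¬ P τ) e'

/-- the interface -/
structure TradeNG (I : Set ℕ) (Cls : (T : Type) → Pres T → (T → Prop) → ℝ → Prop) (c γ : ℝ) :
    Prop where
  mono : ∀ {T : Type} {π : Pres T} {P : T → Prop} {e e' : ℝ}, Cls T π P e → e ≤ e' → Cls T π P e'
  /-- the choices are guessed as a string -/
  guess : ∀ {T : Type} {π : Pres T} {P : T → Prop} {b e : ℝ}, Size π b → 0 ≤ e → Cls T π P e →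
    InEH e π P e
  /-- the assumption on unsatisfiability -/
  slow : ∀ {T : Type} {π : Pres T} {P : T → Prop} {b u e : ℝ}, (∀ τ, π.idx τ ∈ I) → 1 ≤ b →
    Size π b → InEH u π P e → Cls T π (fun τ => ¬ P τ) (c * max b (max u e))
  mergeH : ∀ {T : Type} {π : Pres T} {b u u' e : ℝ} {β β' : ℕ → ℕ}
    {C : (T × Inp) × Inp → Prop}, Size π b → Lin u β → Lin u' β' →
    InH ((π.ext β).ext β') C e →
    ∃ β'' : ℕ → ℕ, Lin (max u u') β'' ∧
      InH (π.ext β'')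
        (fun p => C ((p.1, fun a => p.2 (false :: a)), fun a => p.2 (true :: a))) e
  fam : ∀ {T : Type} {π : Pres T} {P : T → Prop} {b e : ℝ}, Size π b → 0 ≤ e → Cls T π P e →
    ∃ (w : ℝ → ℕ → ℕ) (Yes NReal : ℝ → T × Inp → Prop), IsFamN γ π P e w Yes NReal
  diag : ∀ (a : ℕ) (u e : ℝ), 1 ≤ a → u ≤ e → e < a →
    ∃ (T : Type) (π : Pres T) (D : T → Prop), (∀ τ, π.idx τ ∈ I) ∧ Size π 1 ∧
      Cls T π D (c * a) ∧ ¬ InEH u π D e

theorem Cert.monoH {T : Type} {u u' e e' : ℝ} {π : Pres T} {Y Z : T → Prop}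
    (h : Cert ClsH u π Y Z e) (hu : u ≤ u') (he : e ≤ e') : Cert ClsH u' π Y Z e' := by
  obtain ⟨β, B, h1, h2, h3⟩ := h
  exact ⟨β, B, h1.mono hu, InH.mono h2 he, h3⟩

theorem InEH.cert {T : Type} {u e : ℝ} {π : Pres T} {P : T → Prop} (h : InEH u π P e) :
    Cert ClsH u π P (fun τ => ¬ P τ) e := by
  obtain ⟨β, B, h1, h2, L₀, h3⟩ := h
  exact ⟨β, B, h1, h2, L₀, fun τ hτ => ⟨fun hP => (h3 τ hτ).1 hP,
    fun hP y hy => hP ((h3 τ hτ).2 ⟨y, hy⟩)⟩⟩

theorem Cert.inEH {T : Type} {u e : ℝ} {π : Pres T} {P : T → Prop}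
    (h : Cert ClsH u π P (fun τ => ¬ P τ) e) : InEH u π P e := by
  obtain ⟨β, B, h1, h2, L₀, h3⟩ := h
  refine ⟨β, B, h1, h2, L₀, fun τ hτ => ⟨(h3 τ hτ).1, ?_⟩⟩
  rintro ⟨y, hy⟩
  by_contra hP
  exact (h3 τ hτ).2 hP y hy

theorem Cert.congr_ev {Cls : (T : Type) → Pres T → (T → Prop) → ℝ → Prop} {T : Type} {u e : ℝ}
    {π : Pres T} {Y Z Y' Z' : T → Prop} (h : Cert Cls u π Y Z e)
    (hY : ∃ L₀, ∀ τ, L₀ ≤ π.idx τ → (Y' τ → Y τ) ∧ (Z' τ → Z τ)) : Cert Cls u π Y' Z' e := by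
  obtain ⟨β, B, h1, h2, L₀, h3⟩ := h
  obtain ⟨L₁, h4⟩ := hY
  exact ⟨β, B, h1, h2, max L₀ L₁, fun τ hτ =>
    ⟨fun hP => (h3 τ (le_trans (le_max_left _ _) hτ)).1
        ((h4 τ (le_trans (le_max_right _ _) hτ)).1 hP),
      fun hP => (h3 τ (le_trans (le_max_left _ _) hτ)).2
        ((h4 τ (le_trans (le_max_right _ _) hτ)).2 hP)⟩⟩

section

variable {I : Set ℕ} {Cls : (T : Type) → Pres T → (T → Prop) → ℝ → Prop} {c γ : ℝ}

/-- slow down: a genuine problem between the two promises -/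
theorem TradeNG.slowC (H : TradeNG I Cls c γ) {T : Type} {π : Pres T} {Y Z : T → Prop} {b u e : ℝ}
    (hπ : ∀ τ, π.idx τ ∈ I) (hb : 1 ≤ b) (hs : Size π b) (h : Cert ClsH u π Y Z e) :
    ∃ N : T → Prop, Cls T π N (c * max b (max u e)) ∧
      ∃ L₀, ∀ τ, L₀ ≤ π.idx τ → (Y τ → ¬ N τ) ∧ (Z τ → N τ) := by
  obtain ⟨β, B, h1, h2, L₀, h3⟩ := h
  have h4 : InEH u π (fun τ => ∃ v, B (τ, v)) e := ⟨β, B, h1, h2, 0, fun τ _ => Iff.rfl⟩
  refine ⟨_, H.slow hπ hb hs h4, L₀, fun τ hτ => ⟨fun hY hN => hN ((h3 τ hτ).1 hY), ?_⟩⟩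
  rintro hZ ⟨v, hv⟩
  exact (h3 τ hτ).2 hZ v hv

/-- slow down and guess, for dual certificates -/
theorem TradeNG.slowD (H : TradeNG I Cls c γ) (hc : 1 < c) {T : Type} {π : Pres T} {Y Z : T → Prop}
    {b x u e : ℝ} (hπ : ∀ τ, π.idx τ ∈ I) (hb : 1 ≤ b) (hs : Size π b) (hbx : b ≤ x) (hux : u ≤ x)
    (hex : e ≤ x) (h : Dual x u π Y Z e) : Cert ClsH (c * x) π Y Z (c * x) := by
  obtain ⟨β, β', A, h1, h2, h3, L₀, h4⟩ := h
  have hx0 : 0 ≤ x := by linarith
  have hs1 : Size (π.ext β) x := by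
    have := hs.ext h1
    rwa [max_eq_right hbx] at this
  have h5 : InEH u (π.ext β) (fun p => ∃ v, A (p, v)) e := ⟨β', A, h2, h3, 0, fun τ _ => Iff.rfl⟩
  have h6 := H.slow (fun p => hπ p.1) (hb.trans hbx) hs1 h5
  rw [max_eq_left (max_le hux hex)] at h6
  have hcx : x ≤ c * x := by nlinarith
  obtain ⟨β₂, B, h7, h8, L₁, h9⟩ := H.guess hs1 (by linarith) h6
  obtain ⟨β₃, h10, h11⟩ := H.mergeH hs h1 h7 h8
  rw [max_eq_right hcx] at h10
  refine ⟨β₃, _, h10, h11, max L₀ L₁, fun τ hτ => ?_⟩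
  obtain ⟨g1, g2⟩ := h4 τ (le_trans (le_max_left _ _) hτ)
  have g3 : ∀ y, (¬ ∃ v, A ((τ, y), v)) ↔ ∃ v, B ((τ, y), v) := fun y =>
    h9 (τ, y) (le_trans (le_max_right _ _) hτ)
  constructor
  · intro hY
    obtain ⟨y, hy⟩ := g1 hY
    obtain ⟨v, hv⟩ := (g3 y).1 (by rintro ⟨v, hv⟩; exact hy v hv)
    exact ⟨pair y v, hv⟩
  · intro hZ y hy
    exact (g3 _).2 ⟨_, hy⟩ (g2 hZ _)

/-- complements of list problems at level `r` have proofs with exponent `h` -/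
def Conv (I : Set ℕ) (Cls : (T : Type) → Pres T → (T → Prop) → ℝ → Prop) (c γ h f : ℝ) : Prop :=
  ∃ K : ℝ, 0 < K ∧ ∀ (T : Type) (π : Pres T) (P : T → Prop) (b r : ℝ), (∀ τ, π.idx τ ∈ I) → 1 ≤ b →
    Size π (max b (γ * r)) → K * b ≤ r → Cls T π P (c * (f * r)) →
    Cert ClsH (h * (c * (f * r))) π P (fun τ => ¬ P τ) (h * (c * (f * r)))

/-- `G(f)` for problems -/
def GPN (I : Set ℕ) (Cls : (T : Type) → Pres T → (T → Prop) → ℝ → Prop) (f : ℝ) : Prop :=
  ∃ K : ℝ, 0 < K ∧ ∀ (T : Type) (π : Pres T) (P : T → Prop) (b e₀ : ℝ), (∀ τ, π.idx τ ∈ I) →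
    1 ≤ b → Size π b → K * b ≤ e₀ → Cls T π P e₀ → Cert ClsH (f * e₀) π P (fun τ => ¬ P τ) (f * e₀)

/-- `G(f)` for the families of lists -/
def GNN (I : Set ℕ) (Cls : (T : Type) → Pres T → (T → Prop) → ℝ → Prop) (γ f : ℝ) : Prop :=
  ∃ K : ℝ, 0 < K ∧ ∀ (T : Type) (π : Pres T) (P : T → Prop) (b e₀ : ℝ) (w : ℝ → ℕ → ℕ)
    (Yes NReal : ℝ → T × Inp → Prop), Cls T π P e₀ → (∀ τ, π.idx τ ∈ I) → 1 ≤ b → Size π b →
    IsFamN γ π P e₀ w Yes NReal → ∀ r, K * b ≤ r → r ≤ e₀ →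
      Cert ClsH (f * r) (π.ext (w r)) (Yes r) (NReal r) (f * r)

theorem Conv.one (H : TradeNG I Cls c γ) (hc : 1 < c) {f : ℝ} (hf : 0 < f) : Conv I Cls c γ 1 f := by
  refine ⟨1, one_pos, fun T π P b r _ hb hs hr hP => ?_⟩
  rw [one_mul]
  have hr0 : 0 ≤ r := by linarith
  exact (H.guess hs (by positivity) hP).cert

theorem Conv.self {f : ℝ} (hc : 1 < c) (hf : 0 < f) (h : GPN I Cls f) : Conv I Cls c 0 f f := by
  obtain ⟨K, hK, h⟩ := h
  have hcf : 0 < c * f := by positivity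
  refine ⟨K / (c * f), by positivity, fun T π P b r hπ hb hs hr hP => ?_⟩
  rw [zero_mul, max_eq_left (by linarith)] at hs
  refine h T π P b _ hπ hb hs ?_ hP
  rw [div_mul_eq_mul_div, div_le_iff₀ hcf] at hr
  linarith

/-- one plain round -/
theorem Conv.round (H : TradeNG I Cls c γ) (hc : 1 < c) (hγ : 0 ≤ γ) (hγ1 : γ < 1) {f : ℝ}
    (hf : 0 < f) (hγf : γ * ((1 - γ) + c) ≤ c * f) :
    Conv I Cls c γ (c ^ 2 / ((1 - γ) + c)) f := by
  have h1γ : 0 < 1 - γ := by linarith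
  have hd : 0 < (1 - γ) + c := by linarith
  have hcf : 0 < c * f := by positivity
  refine ⟨((1 - γ) + c) / (c * f), by positivity, fun T π P b r hπ hb hs hr hP => ?_⟩
  have hbr : ((1 - γ) + c) * b ≤ c * f * r := by
    rw [div_mul_eq_mul_div, div_le_iff₀ hcf] at hr
    linarith
  have hr0 : 0 ≤ r := le_trans (by positivity) hr
  set e₁ : ℝ := c * (f * r) with he₁
  have he0 : 0 ≤ e₁ := by positivity
  set r₁ : ℝ := e₁ / ((1 - γ) + c) with hr₁
  have hr10 : 0 ≤ r₁ := by positivity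
  have hr1e : r₁ ≤ e₁ := by
    rw [hr₁, div_le_iff₀ hd]
    nlinarith
  have hb1 : max b (γ * r) ≤ r₁ := by
    rw [hr₁, le_div_iff₀ hd]
    rcases le_total b (γ * r) with h1 | h1
    · rw [max_eq_right h1]
      calc γ * r * ((1 - γ) + c) = γ * ((1 - γ) + c) * r := by ring
        _ ≤ c * f * r := mul_le_mul_of_nonneg_right hγf hr0
        _ = e₁ := by rw [he₁]; ring
    · rw [max_eq_left h1, he₁]
      linarith
  have hb' : 1 ≤ max b (γ * r) := hb.trans (le_max_left _ _)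
  obtain ⟨w, Yes, NReal, F⟩ := H.fam hs he0 hP
  have hs1 : Size (π.ext (w r₁)) r₁ := (hs.ext (F.lin r₁ hr10 hr1e)).mono
    (max_le hb1 (by nlinarith))
  obtain ⟨N, hN, hN'⟩ := H.slowC (fun p => hπ p.1) (hb'.trans hb1) hs1
    (F.base r₁ hr10 hr1e)
  rw [max_self, max_self] at hN
  have hcr : 0 ≤ c * r₁ := by positivity
  have h1 : Cert ClsH (c * r₁) (π.ext (w r₁)) (NReal r₁) (Yes r₁) (c * r₁) := by
    refine (H.guess hs1 hcr hN).cert.congr_ev ?_
    obtain ⟨L₀, hL₀⟩ := hN'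
    exact ⟨L₀, fun p hp => ⟨(hL₀ p hp).2, (hL₀ p hp).1⟩⟩
  have h2 := F.top r₁ hr10 hr1e _ _ hcr hcr h1
  have hx : e₁ - (1 - γ) * r₁ = c * r₁ := by
    rw [hr₁]
    field_simp
    ring
  rw [hx] at h2
  have h3 := H.slowD hc hπ hb' hs (hb1.trans (by nlinarith)) le_rfl le_rfl h2
  have e1 : c ^ 2 / ((1 - γ) + c) * e₁ = c * (c * r₁) := by
    rw [hr₁]
    field_simp
  rw [e1]
  exact h3

theorem GNN.one : GNN I Cls γ 1 := by
  refine ⟨1, one_pos, fun T π P b e₀ w Yes NReal _ _ hb hs F r hr hre => ?_⟩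
  rw [one_mul]
  exact F.base r (by linarith) hre

theorem GPN.one (H : TradeNG I Cls c γ) : GPN I Cls 1 := by
  refine ⟨1, one_pos, fun T π P b e₀ _ hb hs he hP => ?_⟩
  rw [one_mul]
  exact (H.guess hs (by linarith) hP).cert

theorem GNN.step (H : TradeNG I Cls c γ) (hc : 1 < c) (hγ : 0 ≤ γ) (hγ1 : γ < 1) {f f' h : ℝ}
    (hf : 0 < f) (hγf : γ ≤ f) (hh : 0 < h)
    (hff : c ^ 2 * h * f / ((1 - γ) + c * h * f) ≤ f') (hcγ : c * γ ≤ f') (hf' : 0 < f')
    (hf'1 : f' ≤ 1) (hG : GNN I Cls γ f) (hC : Conv I Cls c γ h f) :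
    GNN I Cls γ f' ∧ GPN I Cls f' := by
  obtain ⟨K₁, hK₁, hG⟩ := hG
  obtain ⟨K₂, hK₂, hC⟩ := hC
  have h1γ : 0 < 1 - γ := by linarith
  have hc0 : 0 < c := by linarith
  have hfc : 0 < 1 - f' / c := by
    rw [sub_pos, div_lt_one hc0]
    linarith
  have hchf : 0 < c * h * f := by positivity
  obtain ⟨K, hKdef⟩ : ∃ K : ℝ, K = max (max (max K₁ K₂) (1 / f) * (1 - γ) / (1 - f' / c)) (c / f') :=
    ⟨_, rfl⟩
  have hKpos : 0 < K := by
    rw [hKdef]
    exact lt_of_lt_of_le (by positivity) (le_max_right _ _)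
  -- the numbers for an exponent `e`
  have hnum : ∀ b e : ℝ, 1 ≤ b → K * b ≤ e → ∃ x r : ℝ, x = f' * e / c ∧ e - (1 - γ) * r = x ∧
      0 ≤ r ∧ r ≤ e ∧ K₁ * b ≤ r ∧ K₂ * b ≤ r ∧ b ≤ f * r ∧ b ≤ x ∧ γ * e ≤ x ∧
      h * (c * (f * r)) ≤ x ∧ c * x = f' * e := by
    intro b e hb he
    have he0 : 0 ≤ e := le_trans (by positivity) he
    obtain ⟨r, hr⟩ : ∃ r : ℝ, r = (1 - f' / c) * e / (1 - γ) := ⟨_, rfl⟩
    have hr0 : 0 ≤ r := by
      rw [hr]
      exact div_nonneg (mul_nonneg hfc.le he0) h1γ.le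
    have hM : max (max K₁ K₂) (1 / f) * b ≤ r := by
      rw [hr, le_div_iff₀ h1γ]
      have h1 : max (max K₁ K₂) (1 / f) * (1 - γ) / (1 - f' / c) * b ≤ e := by
        refine le_trans (mul_le_mul_of_nonneg_right ?_ (by linarith)) he
        rw [hKdef]
        exact le_max_left _ _
      rw [div_mul_eq_mul_div, div_le_iff₀ hfc] at h1
      linarith
    have hb0 : 0 ≤ b := by linarith
    have h2 : c / f' * b ≤ e := by
      refine le_trans (mul_le_mul_of_nonneg_right ?_ hb0) he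
      rw [hKdef]
      exact le_max_right _ _
    refine ⟨f' * e / c, r, rfl, ?_, hr0, ?_, ?_, ?_, ?_, ?_, ?_, ?_, ?_⟩
    · rw [hr]
      field_simp
      ring
    · rw [hr, div_le_iff₀ h1γ]
      have : γ ≤ f' / c := by
        rw [le_div_iff₀ hc0]
        linarith
      nlinarith
    · exact le_trans (mul_le_mul_of_nonneg_right
        ((le_max_left K₁ K₂).trans (le_max_left _ _)) hb0) hM
    · exact le_trans (mul_le_mul_of_nonneg_right
        ((le_max_right K₁ K₂).trans (le_max_left _ _)) hb0) hM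
    · have h3 : 1 / f * b ≤ r := le_trans (mul_le_mul_of_nonneg_right (le_max_right _ _) hb0) hM
      rw [div_mul_eq_mul_div, one_mul, div_le_iff₀ hf] at h3
      linarith
    · rw [le_div_iff₀ hc0]
      rw [div_mul_eq_mul_div, div_le_iff₀ hf'] at h2
      linarith
    · rw [le_div_iff₀ hc0]
      have : γ * e * c = (c * γ) * e := by ring
      rw [this]
      exact mul_le_mul_of_nonneg_right hcγ he0
    · rw [div_le_iff₀ (by linarith)] at hff
      rw [hr, le_div_iff₀ hc0]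
      have h3 : h * (c * (f * ((1 - f' / c) * e / (1 - γ)))) * c =
          (c ^ 2 * h * f - (c * h * f) * f') * e / (1 - γ) := by
        field_simp
      rw [h3, div_le_iff₀ h1γ]
      have h4 : c ^ 2 * h * f - (c * h * f) * f' ≤ f' * (1 - γ) := by linarith
      calc (c ^ 2 * h * f - (c * h * f) * f') * e ≤ f' * (1 - γ) * e :=
            mul_le_mul_of_nonneg_right h4 he0
        _ = f' * e * (1 - γ) := by ring
    · field_simp
  -- the complement at level `r`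
  have hcomp : ∀ (T : Type) (π : Pres T) (P : T → Prop) (b e₀ : ℝ) (w : ℝ → ℕ → ℕ)
      (Yes NReal : ℝ → T × Inp → Prop), Cls T π P e₀ → (∀ τ, π.idx τ ∈ I) → 1 ≤ b → Size π b →
      IsFamN γ π P e₀ w Yes NReal → ∀ r, 0 ≤ r → r ≤ e₀ → K₁ * b ≤ r → K₂ * b ≤ r →
      b ≤ f * r → Cert ClsH (h * (c * (f * r))) (π.ext (w r)) (NReal r) (Yes r)
        (h * (c * (f * r))) := by
    intro T π P b e₀ w Yes NReal hP hπ hb hs F r hr0 hre h1 h2 h3
    have h4 := hG T π P b e₀ w Yes NReal hP hπ hb hs F r h1 hre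
    have hs1 : Size (π.ext (w r)) (max b (γ * r)) := hs.ext (F.lin r hr0 hre)
    obtain ⟨N, hN, L₀, hL₀⟩ := H.slowC (fun p => hπ p.1) (hb.trans (le_max_left _ _)) hs1 h4
    rw [max_self, max_eq_right (max_le h3 (mul_le_mul_of_nonneg_right hγf hr0))] at hN
    exact (hC _ _ N b r (fun p => hπ p.1) hb hs1 h2 hN).congr_ev ⟨L₀, fun p hp => ⟨(hL₀ p hp).2, (hL₀ p hp).1⟩⟩
  constructor
  · refine ⟨K, hKpos, fun T π P b e₀ w Yes NReal hP hπ hb hs F e he hee => ?_⟩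
    obtain ⟨x, r, -, hxr, hr0, hre, h1, h2, h3, h4, h5, h6, h7⟩ := hnum b e hb he
    have h8 := hcomp T π P b e₀ w Yes NReal hP hπ hb hs F r hr0 (hre.trans hee) h1 h2 h3
    have hn : 0 ≤ h * (c * (f * r)) := by positivity
    have h9 := F.step r e hr0 hre hee _ _ hn hn h8
    rw [hxr] at h9
    have hs1 : Size (π.ext (w e)) (max b (γ * e)) := hs.ext (F.lin e (hr0.trans hre) hee)
    have h10 := H.slowD hc (fun p => hπ p.1) (hb.trans (le_max_left _ _)) hs1 (max_le h4 h5) h6 h6 h9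
    rwa [h7] at h10
  · refine ⟨K, hKpos, fun T π P b e₀ hπ hb hs he hP => ?_⟩
    obtain ⟨x, r, -, hxr, hr0, hre, h1, h2, h3, h4, h5, h6, h7⟩ := hnum b e₀ hb he
    obtain ⟨w, Yes, NReal, F⟩ := H.fam hs (hr0.trans hre) hP
    have h8 := hcomp T π P b e₀ w Yes NReal hP hπ hb hs F r hr0 hre h1 h2 h3
    have hn : 0 ≤ h * (c * (f * r)) := by positivity
    have h9 := F.top r hr0 hre _ _ hn hn h8
    rw [hxr] at h9
    have h10 := H.slowD hc hπ hb hs h4 h6 h6 h9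
    rwa [h7] at h10

/-- there is `f` with `G(f)` and `c f < 1` -/
theorem GPN.small (H : TradeNG I Cls c γ) (hc : 1 < c) (hγ : 0 ≤ γ) (hγ1 : γ < 1)
    (hcγ : c ^ 2 * γ < 1) (hfun : ℝ → ℝ) (hcont : Continuous hfun)
    (hpos : ∀ f, 1 / c ≤ f → f ≤ 1 → 0 < hfun f)
    (hconv : ∀ f, 1 / c ≤ f → f ≤ 1 → GPN I Cls f → Conv I Cls c γ (hfun f) f)
    (hlt : ∀ f, 1 / c ≤ f → f ≤ 1 →
      c ^ 2 * hfun f * f / ((1 - γ) + c * hfun f * f) < f) :
    ∃ f : ℝ, 0 < f ∧ c * f < 1 ∧ GPN I Cls f := by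
  by_contra hcon
  push Not at hcon
  have h1γ : 0 < 1 - γ := by linarith
  have hc0 : 0 < c := by linarith
  have h1c : 0 < 1 / c := by positivity
  set S : Set ℝ := {f | 0 < f ∧ f ≤ 1 ∧ GNN I Cls γ f ∧ GPN I Cls f} with hS
  have h1S : (1 : ℝ) ∈ S := ⟨one_pos, le_rfl, GNN.one, GPN.one H⟩
  have hbdd : ∀ f ∈ S, 1 / c ≤ f := by
    intro f hf
    by_contra h
    push Not at h
    rw [lt_div_iff₀ hc0] at h
    exact hcon f hf.1 (by linarith) hf.2.2.2
  set f0 := sInf S with hf0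
  have hf0l : 1 / c ≤ f0 := le_csInf ⟨1, h1S⟩ hbdd
  have hf01 : f0 ≤ 1 := csInf_le ⟨1 / c, hbdd⟩ h1S
  have hf0p : 0 < f0 := lt_of_lt_of_le h1c hf0l
  have hγc : c * γ < 1 / c := by
    rw [lt_div_iff₀ hc0]
    nlinarith
  have hγ1c : γ ≤ 1 / c := by
    rw [le_div_iff₀ hc0]
    nlinarith
  have hg := hlt f0 hf0l hf01
  have hpos0 := hpos f0 hf0l hf01
  have hcontg : ContinuousAt (fun f : ℝ => c ^ 2 * hfun f * f / ((1 - γ) + c * hfun f * f)) f0 := by
    apply ContinuousAt.div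
    · exact ((continuous_const.mul hcont).mul continuous_id).continuousAt
    · exact (continuous_const.add ((continuous_const.mul hcont).mul continuous_id)).continuousAt
    · positivity
  have hev := hcontg.eventually (gt_mem_nhds hg)
  obtain ⟨ε, hε, hball⟩ := Metric.eventually_nhds_iff.mp hev
  obtain ⟨f, hfS, hff0⟩ := exists_lt_of_csInf_lt ⟨1, h1S⟩ (show sInf S < f0 + ε by linarith)
  have hff : f0 ≤ f := csInf_le ⟨1 / c, hbdd⟩ hfS
  have hgf : c ^ 2 * hfun f * f / ((1 - γ) + c * hfun f * f) < f0 := hball (by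
    rw [Real.dist_eq, abs_of_nonneg (by linarith)]
    linarith)
  obtain ⟨f', hf'1, hf'2⟩ := exists_between (max_lt hgf (lt_of_lt_of_le hγc hf0l))
  have hgf' := lt_of_le_of_lt (le_max_left _ _) hf'1
  have hcγ' : c * γ < f' := lt_of_le_of_lt (le_max_right _ _) hf'1
  have hf'0 : 0 < f' := lt_of_le_of_lt (by positivity) hcγ'
  have hfl : 1 / c ≤ f := hf0l.trans hff
  have h5 := GNN.step H hc hγ hγ1 hfS.1 (hγ1c.trans hfl) (hpos f hfl hfS.2.1) hgf'.le hcγ'.le hf'0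
    (by linarith) hfS.2.2.1 (hconv f hfl hfS.2.1 hfS.2.2.2)
  have : f0 ≤ f' := csInf_le ⟨1 / c, hbdd⟩ ⟨hf'0, by linarith, h5.1, h5.2⟩
  linarith

theorem not_of_GPN (H : TradeNG I Cls c γ) (hc : 1 < c) {f : ℝ} (hf : 0 < f) (hcf : c * f < 1)
    (h : GPN I Cls f) : False := by
  obtain ⟨K, hK, h⟩ := h
  obtain ⟨a, ha⟩ := exists_nat_ge (max 1 K)
  have ha1 : (1 : ℝ) ≤ a := (le_max_left _ _).trans ha
  have haK : K ≤ a := (le_max_right _ _).trans ha
  have hc0 : 0 < c := by linarith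
  have hfa : f * (c * a) < a := by
    have : f * (c * a) = c * f * a := by ring
    rw [this]
    nlinarith
  obtain ⟨T, π, D, hπ, hs, hD, hno⟩ := H.diag a (f * (c * a)) (f * (c * a))
    (by exact_mod_cast ha1) le_rfl hfa
  refine hno (h T π D 1 (c * a) hπ le_rfl hs ?_ hD).inEH
  nlinarith

/-- **Exponent trading for nondeterministic programs with hereditary separators.** -/
theorem not_TradeNG (hc : 1 < c) (hγ : 0 ≤ γ) (hγ1 : γ < 1)
    (h : c ^ 2 < 2 - γ ∨ (γ = 0 ∧ c ^ 3 < 4) ∨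
      (c ^ 4 - c ^ 2 < (1 - γ) * (1 - γ + c) ∧ γ * (1 - γ + c) < 1)) : ¬ TradeNG I Cls c γ := by
  intro H
  have hc0 : 0 < c := by linarith
  have h1γ : 0 < 1 - γ := by linarith
  have hcf : ∀ f, 1 / c ≤ f → 1 ≤ c * f := by
    intro f hf
    rw [div_le_iff₀ hc0] at hf
    linarith
  rcases h with h | ⟨hγ0, h⟩ | ⟨h, h'⟩
  · obtain ⟨f, hf, hcf', hG⟩ := GPN.small H hc hγ hγ1 (by
      rcases eq_or_lt_of_le hγ with h0 | h0
      · rw [← h0]
        norm_num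
      · nlinarith [sq_nonneg (1 - γ)]) (fun _ => 1) continuous_const (fun _ _ _ => one_pos)
      (fun f hf hf1 _ => Conv.one H hc (lt_of_lt_of_le (by positivity) hf)) (fun f hf hf1 => by
        have h1 := hcf f hf
        have hf0 : 0 < f := lt_of_lt_of_le (by positivity) hf
        rw [div_lt_iff₀ (by positivity)]
        nlinarith)
    exact not_of_GPN H hc hf hcf' hG
  · subst hγ0
    obtain ⟨f, hf, hcf', hG⟩ := GPN.small H hc hγ hγ1 (by norm_num) (fun f => f) continuous_id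
      (fun f hf _ => lt_of_lt_of_le (by positivity) hf)
      (fun f hf hf1 hG => Conv.self hc (lt_of_lt_of_le (by positivity) hf) hG)
      (fun f hf hf1 => by
        have hf0 : 0 < f := lt_of_lt_of_le (by positivity) hf
        rw [div_lt_iff₀ (by positivity)]
        have h1 : 0 < c * f ^ 2 - c ^ 2 * f + 1 := by
          have h2 : 0 < 4 * c * (c * f ^ 2 - c ^ 2 * f + 1) := by
            have h3 : 4 * c * (c * f ^ 2 - c ^ 2 * f + 1) =
                (2 * c * f - c ^ 2) ^ 2 + c * (4 - c ^ 3) := by ring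
            rw [h3]
            have : 0 < c * (4 - c ^ 3) := mul_pos hc0 (by linarith)
            positivity
          exact (mul_pos_iff_of_pos_left (by positivity)).1 h2
        nlinarith)
    exact not_of_GPN H hc hf hcf' hG
  · have hcγ : c ^ 2 * γ < 1 := by
      by_contra hcon
      push Not at hcon
      have h1 : 1 - γ ≤ (c ^ 2 - 1) / c ^ 2 := by
        rw [le_div_iff₀ (by positivity)]
        linarith
      have h2 : (1 - γ) * (1 - γ + c) ≤ (c ^ 2 - 1) / c ^ 2 * ((c ^ 2 - 1) / c ^ 2 + c) := by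
        have : 0 ≤ (c ^ 2 - 1) / c ^ 2 := h1γ.le.trans h1
        exact mul_le_mul h1 (by linarith) (by linarith) this
      have h3 : (c ^ 2 - 1) / c ^ 2 * ((c ^ 2 - 1) / c ^ 2 + c) =
          (c ^ 2 - 1) * (c ^ 2 - 1 + c ^ 3) / c ^ 4 := by
        field_simp
      rw [h3] at h2
      have h4 : c ^ 4 - c ^ 2 < (c ^ 2 - 1) * (c ^ 2 - 1 + c ^ 3) / c ^ 4 := lt_of_lt_of_le h h2
      rw [lt_div_iff₀ (by positivity)] at h4
      have h5 : 0 < c ^ 2 - 1 := by nlinarith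
      have h6 : c ^ 6 < c ^ 2 - 1 + c ^ 3 := by
        have h7 : (c ^ 4 - c ^ 2) * c ^ 4 = (c ^ 2 - 1) * c ^ 6 := by ring
        rw [h7] at h4
        exact lt_of_mul_lt_mul_left h4 h5.le
      have h8 : 0 ≤ (c - 1) * (c ^ 5 + c ^ 4 + c ^ 3 - c - 1) := by
        apply mul_nonneg (by linarith)
        have h9 : 1 ≤ c ^ 5 := one_le_pow₀ hc.le
        have h10 : 1 ≤ c ^ 3 := one_le_pow₀ hc.le
        have h11 : c ≤ c ^ 4 := by
          calc c = c * 1 := (mul_one c).symm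
            _ ≤ c * c ^ 3 := mul_le_mul_of_nonneg_left h10 hc0.le
            _ = c ^ 4 := by ring
        linarith
      nlinarith
    obtain ⟨h₁, hh₁⟩ : ∃ h₁ : ℝ, h₁ = c ^ 2 / ((1 - γ) + c) := ⟨_, rfl⟩
    have hh0 : 0 < h₁ := by rw [hh₁]; positivity
    have hkey : h₁ * (c ^ 2 - 1) < 1 - γ := by
      rw [hh₁, div_mul_eq_mul_div, div_lt_iff₀ (by linarith)]
      nlinarith
    obtain ⟨f, hf, hcf', hG⟩ := GPN.small H hc hγ hγ1 hcγ (fun _ => h₁) continuous_const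
      (fun _ _ _ => hh0)
      (fun f hf hf1 _ => by
        rw [hh₁]
        refine Conv.round H hc hγ hγ1 (lt_of_lt_of_le (by positivity) hf) ?_
        have := hcf f hf
        linarith)
      (fun f hf hf1 => by
        have h1 := hcf f hf
        have hf0 : 0 < f := lt_of_lt_of_le (by positivity) hf
        rw [div_lt_iff₀ (by positivity)]
        have h2 : h₁ ≤ h₁ * (c * f) := by nlinarith
        have h3 : c ^ 2 * h₁ < (1 - γ) + c * h₁ * f := by nlinarith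
        nlinarith)
    exact not_of_GPN H hc hf hcf' hG

end

end Pool.Agent.NUM
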