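import Pool.Agent.NUM.NGList
import Pool.Agent.NUM.GSim
import Pool.Agent.NUM.HNSem

/-!
# Runs along a list and accepting runs of the nondeterministic check
-/

set_option autoImplicit false

namespace Pool.Agent.NUM

variable {A : Type} {H : HMN A} {L : Lst A} {w lim : ℕ} {V : ℕ → A} {b : ℕ → Bool}

/-- the segment of a time is found by the binary search -/
theorem LStat.bsr_seg (hs : LStat L w lim) {j τ : ℕ} (hj : j < 2 ^ w) (h1 : L.pv j < τ)
    (h2 : τ ≤ L.tm j) : bsr L.tm τ w 0 = j := by
  apply bsr_eq hj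
  intro i' hi'
  constructor
  · intro h4
    by_contra h5
    have := hs.mono_tm (show j ≤ i' by omega) hi'
    omega
  · intro h4
    have := hs.tm_le_pv h4 hj
    omega

/-- the look-ups in a run along the list -/
theorem RunL.lk (hs : LStat L w lim) (h : RunL H L w V b) {i u : ℕ} (hi : i < 2 ^ w)
    (hf : L.fin i = false) (hl : L.lb i = 1) (hu : L.pv i ≤ u) (hu' : u < L.tm i) :
    lkup L H.a0 H.e0 w 1 i u (H.idx (V u)) =
      .val (if H.idx (V u) ≤ u then V (H.idx (V u)) else H.e0) ∨
    ∃ j ≤ i, L.lb j = 1 ∧ L.pv j < H.idx (V u) ∧ H.idx (V u) < L.tm j ∧ H.idx (V u) ≤ u ∧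
      lkup L H.a0 H.e0 w 1 i u (H.idx (V u)) = .own (L.off j + (H.idx (V u) - L.pv j)) := by
  obtain ⟨τ, hτ⟩ : ∃ τ, τ = H.idx (V u) := ⟨_, rfl⟩
  have hr := h.ava i hi hf hl u hu hu'
  rw [← hτ] at hr ⊢
  by_cases c1 : u < τ
  · left
    unfold lkup
    rw [if_pos c1, if_neg (by omega)]
  · by_cases c2 : τ = 0
    · left
      unfold lkup
      rw [if_neg c1, if_pos c2, if_pos (by omega), c2, h.zero]
    · obtain ⟨j, hj, h1, h2, h3⟩ := hr (by omega) (by omega)
      have hj' : j < 2 ^ w := lt_of_le_of_lt hj hi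
      have hb := hs.bsr_seg hj' h1 h2
      have e : lkup L H.a0 H.e0 w 1 i u τ = if τ = L.tm j then .val (L.st j) else
          if L.lb j = 1 then .own (L.off j + (τ - L.pv j)) else .bad := by
        unfold lkup
        rw [if_neg c1, if_neg c2, hb, if_pos ⟨hj, h1, h2⟩]
      rw [e]
      by_cases c4 : τ = L.tm j
      · left
        rw [if_pos c4, if_pos (by omega), c4, h.ent j hj' (hs.nfin hj hi hf)]
      · right
        rcases h3 with h3 | h3
        · exact absurd h3 c4
        · exact ⟨j, hj, h3, h1, by omega, by omega, by rw [if_neg c4, if_pos h3]⟩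

variable [DecidableEq A]

/-- the check with choice `b u` at time `u` -/
def hckT (H : HMN A) (L : Lst A) (κ w lim : ℕ) (b : ℕ → Bool) : HM (St A) where
  step := fun σ => St.pass (H.ch (b σ.u)) L κ w lim σ
  idx := St.q
  a0 := ⟨false, false, false, 0, 0, 0, H.a0, 0⟩
  e0 := ⟨false, false, false, 0, 0, 0, H.a0, 0⟩
  hlt := St.hlt
  acc := St.acc

theorem hckT_eq (κ : ℕ) (n : ℕ) :
    (hckN H L κ w lim).U (fun n => b ((hckT H L κ w lim b).U n).u) n =
      (hckT H L κ w lim b).U n := by
  induction n using Nat.strong_induction_on with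
  | _ n ih =>
    cases n with
    | zero => rfl
    | succ n =>
      rw [HMN.U_succ, HM.U_succ, ih n (by omega)]
      show St.pass (H.ch (b ((hckT H L κ w lim b).U n).u)) L κ w lim _ _ =
        St.pass (H.ch (b ((hckT H L κ w lim b).U n).u)) L κ w lim _ _
      congr 1
      unfold HMN.rc HM.rc
      show (if ((hckT H L κ w lim b).U n).q ≤ n then _ else _) =
        (if ((hckT H L κ w lim b).U n).q ≤ n then _ else _)
      by_cases h1 : ((hckT H L κ w lim b).U n).q ≤ n
      · rw [if_pos h1, if_pos h1]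
        exact ih _ (Nat.lt_succ_of_le h1)
      · rw [if_neg h1, if_neg h1]
        rfl

theorem hckT_succ (κ n : ℕ) : (hckT H L κ w lim b).U (n + 1) =
    St.pass (H.ch (b ((hckT H L κ w lim b).U n).u)) L κ w lim ((hckT H L κ w lim b).U n)
      ((hckT H L κ w lim b).rc n ((hckT H L κ w lim b).U n).q) := HM.U_succ _ n

/-- the state in the simulation of segment `i` -/
structure SimAt (H : HMN A) (L : Lst A) (w : ℕ) (V : ℕ → A) (i t n : ℕ) (σ : St A) : Prop where
  fh : σ.hlt = false
  fs : σ.sim = true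
  fi : σ.i = i
  fn : σ.n = n
  fu : σ.u = L.pv i + t
  fa : σ.a = V (L.pv i + t)
  fq : σ.q = (lkup L H.a0 H.e0 w 1 i (L.pv i + t) (H.idx (V (L.pv i + t)))).num

/-- the state before entry `i` is scanned -/
structure ScanAt (i n : ℕ) (σ : St A) : Prop where
  fh : σ.hlt = false
  fs : σ.sim = false
  fi : σ.i = i
  fn : σ.n = n

omit [DecidableEq A] in
theorem RunL.ps (hs : LStat L w lim) (h : RunL H L w V b) {i : ℕ} (hi : i < 2 ^ w)
    (hf : L.fin i = false) : L.ps H.a0 i = V (L.pv i) := by
  cases i with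
  | zero => exact h.zero.symm
  | succ i => exact (h.ent i (by omega) (hs.nfin (Nat.le_succ i) hi hf)).symm

/-- a scan pass -/
theorem RunL.scan (hs : LStat L w lim) (h : RunL H L w V b) {n i : ℕ} {σ ρ : St A}
    {c : Bool} (hi : i < 2 ^ w) (hf : ∀ j < i, L.fin j = false) (hσ : ScanAt i n σ)
    (hn : n = epos L 1 i) (hlim : n + 1 < lim) :
    (L.fin i = false ∧ L.lb i = 1 ∧ SimAt H L w V i 0 (n + 1)
      (St.pass (H.ch c) L 1 w lim σ ρ)) ∨
    (L.fin i = true ∧ St.pass (H.ch c) L 1 w lim σ ρ = σ.yes) ∨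
    (L.fin i = false ∧ L.lb i ≠ 1 ∧ ScanAt (i + 1) (n + 1) (St.pass (H.ch c) L 1 w lim σ ρ)) := by
  have h1 : St.pass (H.ch c) L 1 w lim σ ρ = St.scan (H.ch c) L 1 w σ := by
    unfold St.pass
    rw [if_neg (by rw [hσ.fn]; omega), if_neg (by rw [hσ.fs]; simp)]
  rw [h1]
  unfold St.scan
  rw [hσ.fi, if_pos (hs.srt i hi)]
  by_cases c2 : L.fin i = true
  · have c1 := (hs.fin i hi c2).1
    rw [if_neg c1, if_pos c2]
    exact Or.inr (Or.inl ⟨c2, rfl⟩)
  · have c2' : L.fin i = false := by simpa using c2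
    by_cases c1 : L.lb i = 1
    · rw [if_pos c1, if_pos (by rw [hs.off_eq i hi hf, hσ.fn, hn])]
      refine Or.inl ⟨c2', c1, rfl, rfl, hσ.fi, ?_, ?_, ?_, ?_⟩
      · show σ.n + 1 = n + 1
        rw [hσ.fn]
      · show L.pv σ.i = L.pv i + 0
        rw [hσ.fi, Nat.add_zero]
      · show L.ps H.a0 σ.i = V (L.pv i + 0)
        rw [hσ.fi, Nat.add_zero]
        exact h.ps hs hi c2'
      · show (lkup L H.a0 H.e0 w 1 σ.i (L.pv σ.i) (H.idx (L.ps H.a0 σ.i))).num = _
        rw [hσ.fi, h.ps hs hi c2', Nat.add_zero]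
    · rw [if_neg c1, if_neg c2]
      refine Or.inr (Or.inr ⟨c2', c1, ?_⟩)
      have h4 := (hs.run i hi c2').1
      unfold St.next
      rw [hσ.fi, if_pos h4]
      exact ⟨rfl, rfl, rfl, by show σ.n + 1 = n + 1; rw [hσ.fn]⟩

/-- a simulation pass -/
theorem RunL.simp' (hs : LStat L w lim) (h : RunL H L w V b) {n i t : ℕ} {σ ρ : St A}
    (hi : i < 2 ^ w) (hf : L.fin i = false) (hl : L.lb i = 1) (ht : L.pv i + t < L.tm i)
    (hσ : SimAt H L w V i t n σ) (hlim : n + 1 < lim)
    (hρ : ∀ j ≤ i, L.lb j = 1 → L.pv j < H.idx (V (L.pv i + t)) →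
      H.idx (V (L.pv i + t)) < L.tm j → H.idx (V (L.pv i + t)) ≤ L.pv i + t →
      ρ.a = V (H.idx (V (L.pv i + t)))) :
    (L.pv i + (t + 1) < L.tm i ∧
      SimAt H L w V i (t + 1) (n + 1) (St.pass (H.ch (b σ.u)) L 1 w lim σ ρ)) ∨
    (L.pv i + (t + 1) = L.tm i ∧
      ScanAt (i + 1) (n + 1) (St.pass (H.ch (b σ.u)) L 1 w lim σ ρ)) := by
  have hstp := h.stp i hi hf hl (L.pv i + t) (by omega) ht
  have hnhl := h.nhl i hi hf hl (L.pv i + t) (by omega) ht
  have hmove : St.pass (H.ch (b σ.u)) L 1 w lim σ ρ =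
      St.move (H.ch (b σ.u)) L 1 w σ (V (L.pv i + t + 1)) := by
    unfold St.pass
    rw [if_neg (by rw [hσ.fn]; omega), if_pos hσ.fs]
    have e1 : lkup L (H.ch (b σ.u)).a0 (H.ch (b σ.u)).e0 w 1 σ.i σ.u ((H.ch (b σ.u)).idx σ.a) =
        lkup L H.a0 H.e0 w 1 i (L.pv i + t) (H.idx (V (L.pv i + t))) := by
      show lkup L H.a0 H.e0 w 1 σ.i σ.u (H.idx σ.a) = _
      rw [hσ.fi, hσ.fu, hσ.fa]
    rw [e1]
    rcases h.lk hs hi hf hl (u := L.pv i + t) (by omega) ht with e2 | ⟨j, hj, e3, e4, e5, e6, e2⟩
    · rw [e2]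
      show St.move (H.ch (b σ.u)) L 1 w σ (H.step (b σ.u) σ.a _) = _
      rw [hσ.fa, hσ.fu, ← hstp]
    · rw [e2]
      show St.move (H.ch (b σ.u)) L 1 w σ (H.step (b σ.u) σ.a ρ.a) = _
      rw [if_pos e6, ← hρ j hj e3 e4 e5 e6] at hstp
      rw [hσ.fa, hσ.fu, ← hstp]
  rw [hmove]
  unfold St.move
  rw [hσ.fi, hσ.fu]
  have hhlt : (H.ch (b (L.pv i + t))).hlt (V (L.pv i + t + 1)) = false := hnhl
  rw [if_neg (by rw [hhlt]; simp)]
  rcases Nat.lt_or_ge (L.pv i + t + 1) (L.tm i) with c | c
  · left
    refine ⟨by omega, ?_⟩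
    rw [if_neg (by omega)]
    refine ⟨rfl, rfl, hσ.fi, ?_, ?_, ?_, ?_⟩
    · show σ.n + 1 = n + 1
      rw [hσ.fn]
    · show σ.u + 1 = _
      rw [hσ.fu]
      rfl
    · rfl
    · show (lkup L H.a0 H.e0 w 1 σ.i (σ.u + 1) (H.idx (V (L.pv i + t + 1)))).num = _
      rw [hσ.fi, hσ.fu]
      rfl
  · right
    have hu : L.pv i + t + 1 = L.tm i := by omega
    refine ⟨by omega, ?_⟩
    rw [if_pos hu, hu, if_neg (by rw [h.ent i hi hf]; simp), if_neg (by rw [hf]; simp)]
    unfold St.next
    rw [hσ.fi, if_pos (hs.run i hi hf).1]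
    exact ⟨rfl, rfl, rfl, by show σ.n + 1 = n + 1; rw [hσ.fn]⟩

/-- the run reaches every entry up to the first final one -/
theorem RunL.reach (hs : LStat L w lim) (hlim : 2 ≤ lim) (h : RunL H L w V b) :
    ∀ i < 2 ^ w, (∀ j < i, L.fin j = false) →
      (∀ m ≤ epos L 1 i, ((hckT H L 1 w lim b).U m).hlt = false) ∧
      ScanAt i (epos L 1 i) ((hckT H L 1 w lim b).U (epos L 1 i)) ∧
      ∀ j < i, L.lb j = 1 → ∀ t, L.pv j + t < L.tm j →
        ((hckT H L 1 w lim b).U (epos L 1 j + 1 + t)).a = V (L.pv j + t) := by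
  intro i
  induction i with
  | zero =>
    intro _ _
    refine ⟨fun m hm => ?_, ⟨rfl, rfl, rfl, rfl⟩, fun j hj => absurd hj (Nat.not_lt_zero j)⟩
    have : m = 0 := by
      have : m ≤ 0 := hm
      omega
    subst this
    rfl
  | succ i ih =>
    intro hi hf
    obtain ⟨g1, g2, g3⟩ := ih (by omega) (fun j hj => hf j (by omega))
    have hfi : L.fin i = false := hf i (by omega)
    have hM := hs.epos_lt hlim hi hf
    have hM0 := hs.epos_lt hlim (show i < 2 ^ w by omega) (fun j hj => hf j (by omega))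
    have hstep : epos L 1 (i + 1) = epos L 1 i + 1 + (if L.lb i = 1 then L.tm i - L.pv i else 0) :=
      rfl
    have hsc := h.scan hs (c := b ((hckT H L 1 w lim b).U (epos L 1 i)).u)
      (ρ := (hckT H L 1 w lim b).rc (epos L 1 i) ((hckT H L 1 w lim b).U (epos L 1 i)).q)
      (show i < 2 ^ w by omega) (fun j hj => hf j (by omega)) g2 rfl (by omega)
    rw [← hckT_succ] at hsc
    rcases hsc with ⟨-, h1, h2⟩ | ⟨h1, -⟩ | ⟨-, h1, h2⟩
    · -- own segment
      rw [if_pos h1] at hstep
      have hp : L.pv i < L.tm i := hs.srt i (by omega)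
      have hseg : ∀ t, L.pv i + t < L.tm i →
          (∀ m ≤ epos L 1 i + 1 + t, ((hckT H L 1 w lim b).U m).hlt = false) ∧
          (∀ t' ≤ t, SimAt H L w V i t' (epos L 1 i + 1 + t')
            ((hckT H L 1 w lim b).U (epos L 1 i + 1 + t'))) := by
        intro t
        induction t with
        | zero =>
          intro _
          refine ⟨fun m hm => ?_, fun t' ht' => ?_⟩
          · rcases Nat.lt_or_ge m (epos L 1 i + 1) with c | c
            · exact g1 m (by omega)
            · rw [show m = epos L 1 i + 1 by omega]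
              exact h2.fh
          · rw [show t' = 0 by omega]
            exact h2
        | succ t iht =>
          intro ht
          obtain ⟨k1, k2⟩ := iht (by omega)
          have hσ := k2 t le_rfl
          have hpass := h.simp' hs (ρ := (hckT H L 1 w lim b).rc (epos L 1 i + 1 + t)
            ((hckT H L 1 w lim b).U (epos L 1 i + 1 + t)).q) (show i < 2 ^ w by omega) hfi h1
            (by omega) hσ (by omega) ?_
          · rw [← hckT_succ] at hpass
            rcases hpass with ⟨-, c2⟩ | ⟨c1, -⟩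
            · refine ⟨fun m hm => ?_, fun t' ht' => ?_⟩
              · rcases Nat.lt_or_ge m (epos L 1 i + 1 + t + 1) with c | c
                · exact k1 m (by omega)
                · rw [show m = epos L 1 i + 1 + t + 1 by omega]
                  exact c2.fh
              · rcases Nat.lt_or_ge t' (t + 1) with c | c
                · exact k2 t' (by omega)
                · rw [show t' = t + 1 by omega]
                  exact c2
            · omega
          · -- the recalled own state
            intro j hj e3 e4 e5 e6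
            have e7 : ((hckT H L 1 w lim b).U (epos L 1 i + 1 + t)).q =
                L.off j + (H.idx (V (L.pv i + t)) - L.pv j) := by
              rw [hσ.fq]
              have hj' : j < 2 ^ w := by omega
              have hb := hs.bsr_seg hj' e4 e5.le
              unfold lkup
              rw [if_neg (by omega), if_neg (by omega), hb, if_pos ⟨hj, e4, e5.le⟩,
                if_neg (by omega), if_pos e3]
              rfl
            have hoff : L.off j = epos L 1 j + 1 := hs.off_eq j (by omega)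
              (fun j' hj' => hf j' (by omega))
            rw [e7, hoff]
            have hmono : epos L 1 j ≤ epos L 1 i := epos_mono hj
            rcases Nat.lt_or_ge j i with c | c
            · have hlt : epos L 1 (j + 1) ≤ epos L 1 i := epos_mono (by omega)
              have hstep' : epos L 1 (j + 1) = epos L 1 j + 1 +
                (if L.lb j = 1 then L.tm j - L.pv j else 0) := rfl
              rw [if_pos e3] at hstep'
              have g4 := g3 j c e3 (H.idx (V (L.pv i + t)) - L.pv j) (by omega)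
              unfold HM.rc
              rw [if_pos (by omega), g4]
              congr 1
              omega
            · have hji : j = i := by omega
              subst hji
              have g4 := (k2 (H.idx (V (L.pv j + t)) - L.pv j) (by omega)).fa
              unfold HM.rc
              rw [if_pos (by omega), g4]
              congr 1
              omega
      obtain ⟨k1, k2⟩ := hseg (L.tm i - L.pv i - 1) (by omega)
      -- the last pass of the segment
      obtain ⟨t, ht⟩ : ∃ t, t = L.tm i - L.pv i - 1 := ⟨_, rfl⟩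
      rw [← ht] at k1 k2
      have hσ := k2 t le_rfl
      have hpass := h.simp' hs (ρ := (hckT H L 1 w lim b).rc (epos L 1 i + 1 + t)
        ((hckT H L 1 w lim b).U (epos L 1 i + 1 + t)).q) (show i < 2 ^ w by omega) hfi h1
        (by omega) hσ (by omega) ?_
      · rw [← hckT_succ] at hpass
        have e : epos L 1 (i + 1) = epos L 1 i + 1 + t + 1 := by omega
        rcases hpass with ⟨c1, -⟩ | ⟨-, c2⟩
        · omega
        · rw [e]
          refine ⟨fun m hm => ?_, c2, fun j hj hlj t' ht' => ?_⟩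
          · rcases Nat.lt_or_ge m (epos L 1 i + 1 + t + 1) with c | c
            · exact k1 m (by omega)
            · rw [show m = epos L 1 i + 1 + t + 1 by omega]
              exact c2.fh
          · rcases Nat.lt_or_ge j i with c | c
            · exact g3 j c hlj t' ht'
            · have hji : j = i := by omega
              subst hji
              exact (k2 t' (by omega)).fa
      · intro j hj e3 e4 e5 e6
        have e7 : ((hckT H L 1 w lim b).U (epos L 1 i + 1 + t)).q =
            L.off j + (H.idx (V (L.pv i + t)) - L.pv j) := by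
          rw [hσ.fq]
          have hj' : j < 2 ^ w := by omega
          have hb := hs.bsr_seg hj' e4 e5.le
          unfold lkup
          rw [if_neg (by omega), if_neg (by omega), hb, if_pos ⟨hj, e4, e5.le⟩,
            if_neg (by omega), if_pos e3]
          rfl
        have hoff : L.off j = epos L 1 j + 1 := hs.off_eq j (by omega)
          (fun j' hj' => hf j' (by omega))
        rw [e7, hoff]
        have hmono : epos L 1 j ≤ epos L 1 i := epos_mono hj
        rcases Nat.lt_or_ge j i with c | c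
        · have hlt : epos L 1 (j + 1) ≤ epos L 1 i := epos_mono (by omega)
          have hstep' : epos L 1 (j + 1) = epos L 1 j + 1 +
            (if L.lb j = 1 then L.tm j - L.pv j else 0) := rfl
          rw [if_pos e3] at hstep'
          have g4 := g3 j c e3 (H.idx (V (L.pv i + t)) - L.pv j) (by omega)
          unfold HM.rc
          rw [if_pos (by omega), g4]
          congr 1
          omega
        · have hji : j = i := by omega
          subst hji
          have g4 := (k2 (H.idx (V (L.pv j + t)) - L.pv j) (by omega)).fa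
          unfold HM.rc
          rw [if_pos (by omega), g4]
          congr 1
          omega
    · rw [hfi] at h1
      cases h1
    · rw [if_neg h1, Nat.add_zero] at hstep
      rw [hstep]
      refine ⟨fun m hm => ?_, h2, fun j hj hlj t' ht' => ?_⟩
      · rcases Nat.lt_or_ge m (epos L 1 i + 1) with c | c
        · exact g1 m (by omega)
        · rw [show m = epos L 1 i + 1 by omega]
          exact h2.fh
      · rcases Nat.lt_or_ge j i with c | c
        · exact g3 j c hlj t' ht'
        · have hji : j = i := by omega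
          subst hji
          exact absurd hlj h1

/-- **A run along the list gives an accepting run of the check.** -/
theorem RunL.accept (hs : LStat L w lim) (hlim : 2 ≤ lim) (h : RunL H L w V b) :
    ∃ c n, (hckN H L 1 w lim).Out c n true := by
  obtain ⟨F, hF, hfF, hfj⟩ := hs.exists_fin
  obtain ⟨g1, g2, -⟩ := h.reach hs hlim F hF hfj
  have hM0 := hs.epos_lt hlim hF hfj
  have hsc := h.scan hs (c := b ((hckT H L 1 w lim b).U (epos L 1 F)).u)
    (ρ := (hckT H L 1 w lim b).rc (epos L 1 F) ((hckT H L 1 w lim b).U (epos L 1 F)).q)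
    hF hfj g2 rfl hM0
  rw [← hckT_succ] at hsc
  rcases hsc with ⟨h1, -⟩ | ⟨-, h2⟩ | ⟨h1, -⟩
  · rw [hfF] at h1
    cases h1
  · refine ⟨fun n => b ((hckT H L 1 w lim b).U n).u, epos L 1 F + 1, fun m hm => ?_, ?_, ?_⟩
    · rw [hckT_eq]
      exact g1 m (by omega)
    · rw [hckT_eq, h2]
      rfl
    · rw [hckT_eq, h2]
      rfl
  · rw [hfF] at h1
    cases h1

/-- **An accepting run of the check gives a run along the list.** -/
theorem RunL.of_accept (hs : LStat L w lim) {c : ℕ → Bool} {n : ℕ}
    (h : (hckN H L 1 w lim).Out c n true) : ∃ V b, RunL H L w V b := by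
  obtain ⟨F, hacc⟩ := hckN_accept h
  have hiF : ∀ i < 2 ^ w, L.fin i = false → i < F := by
    intro i hi hf
    by_contra hcon
    have := hs.fin_mono (show F ≤ i by omega) hi hacc.fin
    rw [hf] at this
    cases this
  -- increasing times
  have hmono : ∀ i j, i ≤ j → j ≤ F → L.tm i ≤ L.tm j := by
    intro i j hij
    induction j with
    | zero => intro _; rw [show i = 0 by omega]
    | succ j ih =>
      intro hj
      rcases Nat.lt_or_ge i (j + 1) with h1 | h1
      · have h2 := ih (by omega) (by omega)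
        have h3 : L.tm j < L.tm (j + 1) := hacc.srt (j + 1) hj
        omega
      · rw [show i = j + 1 by omega]
  have hpv : ∀ i j, i < j → j ≤ F → L.tm i ≤ L.pv j := by
    intro i j hij hj
    obtain ⟨j', rfl⟩ : ∃ j', j = j' + 1 := ⟨j - 1, by omega⟩
    exact hmono i j' (by omega) (by omega)
  -- the segment of a time
  have hseg : ∀ u, ∃ j, ((∃ j' < F, L.pv j' < u ∧ u ≤ L.tm j') → j < F ∧ L.pv j < u ∧ u ≤ L.tm j) := by
    intro u
    by_cases hu : ∃ j' < F, L.pv j' < u ∧ u ≤ L.tm j'
    · obtain ⟨j, hj⟩ := hu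
      exact ⟨j, fun _ => hj⟩
    · exact ⟨0, fun h => absurd h hu⟩
  choose sg hsg using hseg
  have hsgu : ∀ u j, j < F → L.pv j < u → u ≤ L.tm j → sg u = j := by
    intro u j hj h1 h2
    obtain ⟨g1, g2, g3⟩ := hsg u ⟨j, hj, h1, h2⟩
    rcases Nat.lt_trichotomy (sg u) j with h4 | h4 | h4
    · have := hpv _ _ h4 hj.le
      omega
    · exact h4
    · have := hpv _ _ h4 g1.le
      omega
  obtain ⟨W, hW⟩ : ∃ W : ℕ → A, W = fun u => if u = 0 then H.a0 else
      if u = L.tm (sg u) then L.st (sg u) else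
      ((hckN H L 1 w lim).U c (L.off (sg u) + (u - L.pv (sg u)))).a := ⟨_, rfl⟩
  obtain ⟨cg, hcg⟩ : ∃ cg : ℕ → Bool, cg = fun u =>
      c (L.off (sg (u + 1)) + (u - L.pv (sg (u + 1)))) := ⟨_, rfl⟩
  have hW0 : W 0 = H.a0 := by rw [hW]; simp
  have hWend : ∀ j < F, W (L.tm j) = L.st j := by
    intro j hj
    have h1 := hacc.srt j hj.le
    have h2 := hsgu (L.tm j) j hj h1 le_rfl
    rw [hW]
    show (if L.tm j = 0 then H.a0 else if L.tm j = L.tm (sg (L.tm j)) then L.st (sg (L.tm j)) else
      _) = _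
    rw [h2, if_neg (by omega), if_pos rfl]
  have hWin : ∀ j < F, ∀ u, L.pv j < u → u < L.tm j →
      W u = ((hckN H L 1 w lim).U c (L.off j + (u - L.pv j))).a := by
    intro j hj u h1 h2
    have h3 := hsgu u j hj h1 h2.le
    rw [hW]
    show (if u = 0 then H.a0 else if u = L.tm (sg u) then L.st (sg u) else _) = _
    rw [h3, if_neg (by omega), if_neg (by omega)]
  have hWV : ∀ j < F, L.lb j = 1 → ∀ u, L.pv j ≤ u → u < L.tm j →
      W u = ((hckN H L 1 w lim).U c (L.off j + (u - L.pv j))).a := by
    intro j hj hl u h1 h2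
    rcases Nat.lt_or_ge (L.pv j) u with h3 | h3
    · exact hWin j hj u h3 h2
    · have h4 : u = L.pv j := by omega
      subst h4
      rw [Nat.sub_self, Nat.add_zero, hacc.fst j hj.le hl]
      cases j with
      | zero => exact hW0
      | succ j => exact hWend j (by omega)
  -- the look-ups
  have hlook : ∀ j < F, L.lb j = 1 → ∀ t, L.pv j + t < L.tm j → ∀ a',
      NStp H L 1 w lim c (L.off j + t) j (L.pv j + t) a' →
      a' = H.step (cg (L.pv j + t)) (W (L.pv j + t))
        (if H.idx (W (L.pv j + t)) ≤ L.pv j + t then W (H.idx (W (L.pv j + t))) else H.e0) ∧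
      (0 < H.idx (W (L.pv j + t)) → H.idx (W (L.pv j + t)) ≤ L.pv j + t →
        Avail L j (H.idx (W (L.pv j + t)))) := by
    intro j hj hlj t ht a' hst
    obtain ⟨X, hX, ha'⟩ := hst
    have e1 : ((hckN H L 1 w lim).U c (L.off j + t)).a = W (L.pv j + t) := by
      rw [hWV j hj hlj (L.pv j + t) (by omega) ht, show L.pv j + t - L.pv j = t by omega]
    have e2 : cg (L.pv j + t) = c (L.off j + t) := by
      rw [hcg]
      show c (L.off (sg (L.pv j + t + 1)) + (L.pv j + t - L.pv (sg (L.pv j + t + 1)))) = _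
      rw [hsgu (L.pv j + t + 1) j hj (by omega) (by omega),
        show L.pv j + t - L.pv j = t by omega]
    rw [e1] at ha' hX
    rw [ha', e2]
    obtain ⟨τ, hτ⟩ : ∃ τ, τ = H.idx (W (L.pv j + t)) := ⟨_, rfl⟩
    rw [← hτ] at hX ⊢
    unfold lkup at hX
    by_cases c1 : L.pv j + t < τ
    · rw [if_pos c1] at hX
      refine ⟨?_, fun _ h => by omega⟩
      rw [if_neg (by omega)]
      rcases hX with hX | ⟨m', hX, -⟩
      · cases hX; rfl
      · cases hX
    · rw [if_neg c1] at hX
      rw [if_pos (by omega)]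
      by_cases c2 : τ = 0
      · rw [if_pos c2] at hX
        refine ⟨?_, fun h _ => by omega⟩
        rw [c2, hW0]
        rcases hX with hX | ⟨m', hX, -⟩
        · cases hX; rfl
        · cases hX
      · rw [if_neg c2] at hX
        by_cases c3 : bsr L.tm τ w 0 ≤ j ∧ L.pv (bsr L.tm τ w 0) < τ ∧ τ ≤ L.tm (bsr L.tm τ w 0)
        · rw [if_pos c3] at hX
          obtain ⟨i, hi⟩ : ∃ i, i = bsr L.tm τ w 0 := ⟨_, rfl⟩
          rw [← hi] at hX c3
          by_cases c4 : τ = L.tm i
          · rw [if_pos c4] at hX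
            refine ⟨?_, fun _ _ => ⟨i, c3.1, c3.2.1, c3.2.2, Or.inl c4⟩⟩
            rw [c4, hWend i (by omega)]
            rcases hX with hX | ⟨m', hX, -⟩
            · cases hX; rfl
            · cases hX
          · rw [if_neg c4] at hX
            by_cases c5 : L.lb i = 1
            · rw [if_pos c5] at hX
              refine ⟨?_, fun _ _ => ⟨i, c3.1, c3.2.1, c3.2.2, Or.inr c5⟩⟩
              rcases hX with hX | ⟨m', hX, hXm⟩
              · cases hX
              · have hm : L.off i + (τ - L.pv i) = m' := by injection hX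
                have h6 : m' ≤ L.off j + t := by
                  rcases Nat.lt_or_ge i j with h7 | h7
                  · have := hacc.ord i j h7 hj.le c5 hlj
                    omega
                  · have : i = j := by omega
                    subst this
                    omega
                rw [hXm, hWin i (by omega) τ c3.2.1 (by omega), hm]
                unfold HMN.rc
                rw [if_pos h6]
            · rw [if_neg c5] at hX
              rcases hX with hX | ⟨m', hX, -⟩ <;> cases hX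
        · rw [if_neg c3] at hX
          rcases hX with hX | ⟨m', hX, -⟩ <;> cases hX
  -- one step
  have hstep : ∀ i < 2 ^ w, L.fin i = false → L.lb i = 1 → ∀ u, L.pv i ≤ u → u < L.tm i →
      NStp H L 1 w lim c (L.off i + (u - L.pv i)) i (L.pv i + (u - L.pv i)) (W (u + 1)) ∧
      H.hlt (W (u + 1)) = false := by
    intro i hi hf hl u h1 h2
    have hi' := hiF i hi hf
    rcases Nat.lt_or_ge (u + 1) (L.tm i) with h3 | h3
    · have h4 := hacc.stp i hi'.le hl (u - L.pv i) (by omega)
      rw [hWin i hi' (u + 1) (by omega) h3, show L.off i + (u + 1 - L.pv i) =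
        L.off i + (u - L.pv i) + 1 by omega]
      exact h4
    · have h4 := hacc.stl i hi'.le hl (u - L.pv i) (by omega)
      rw [show u + 1 = L.tm i by omega, hWend i hi']
      exact ⟨h4.1, h4.2.1 hi'⟩
  refine ⟨W, cg, hW0, fun i hi hf => hWend i (hiF i hi hf), ?_, ?_, ?_⟩
  · intro i hi hf hl u h1 h2
    have h3 := (hlook i (hiF i hi hf) hl (u - L.pv i) (by omega) _ (hstep i hi hf hl u h1 h2).1).1
    rwa [show L.pv i + (u - L.pv i) = u by omega] at h3
  · intro i hi hf hl u h1 h2
    exact (hstep i hi hf hl u h1 h2).2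
  · intro i hi hf hl u h1 h2
    have h3 := (hlook i (hiF i hi hf) hl (u - L.pv i) (by omega) _ (hstep i hi hf hl u h1 h2).1).2
    rwa [show L.pv i + (u - L.pv i) = u by omega] at h3

omit [DecidableEq A] in
/-- the computation is a run along its true lists -/
theorem TrLN.run {c : ℕ → Bool} {N : ℕ} (h : TrLN H c N L w lim)
    (hN : ∀ m ≤ N, H.hlt (H.U c m) = false) : RunL H L w (H.U c) c := by
  refine ⟨H.U_zero c, fun i hi hf => (h.tru i hi hf).2.symm, fun i hi hf hl u h1 h2 => H.U_succ c u,
    fun i hi hf hl u h1 h2 => ?_, h.clo⟩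
  have := (h.tru i hi hf).1
  exact hN _ (by omega)

omit [DecidableEq A] in
/-- a realised list about the last state gives an accepting computation -/
theorem RunL.top {fl acc : A → Bool} (hs : LStat L w lim) (ht : TopL fl acc L)
    (h0 : H.hlt H.a0 = false) (h : RunL H L w V b) :
    0 < L.tm 0 ∧ (∀ m ≤ L.tm 0, H.hlt (H.U b m) = false) ∧ fl (H.U b (L.tm 0)) = true ∧
      acc (H.U b (L.tm 0)) = true := by
  obtain ⟨t1, t2, t3, t4⟩ := ht
  have hw : 0 < 2 ^ w := by positivity
  have hpv : L.pv 0 = 0 := rfl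
  have hpos : 0 < L.tm 0 := by
    have := hs.srt 0 hw
    omega
  have hU : ∀ n ≤ L.tm 0, H.U b n = V n := by
    apply HMN.U_unique h.zero
    intro n hn
    exact h.stp 0 hw t1 t2 n (by omega) hn
  refine ⟨hpos, fun m hm => ?_, ?_, ?_⟩
  · rw [hU m hm]
    rcases Nat.eq_zero_or_pos m with h1 | h1
    · subst h1
      rw [h.zero]
      exact h0
    · obtain ⟨m', rfl⟩ : ∃ m', m = m' + 1 := ⟨m - 1, by omega⟩
      exact h.nhl 0 hw t1 t2 m' (by omega) (by omega)
  · rw [hU _ le_rfl, h.ent 0 hw t1]
    exact t3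
  · rw [hU _ le_rfl, h.ent 0 hw t1]
    exact t4

omit [DecidableEq A] in
/-- the list about the last state -/
theorem exists_topN {c : ℕ → Bool} {N : ℕ} {fl acc : A → Bool}
    (hfl : fl (H.U c N) = true) (hacc : acc (H.U c N) = true) (hN : 0 < N) (hw : 1 ≤ w)
    (hlim : N + 2 < lim) :
    ∃ L : Lst A, TrLN H c N L w lim ∧ TopL fl acc L ∧
      ∀ k, L.tm k ≤ N + k ∧ L.lb k ≤ 1 ∧ L.off k ≤ lim := by
  have h2w : 2 ≤ 2 ^ w := by
    calc 2 = 2 ^ 1 := rfl
      _ ≤ 2 ^ w := Nat.pow_le_pow_right (by norm_num) hw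
  obtain ⟨L, hL⟩ : ∃ L : Lst A, L = ⟨fun k => N + k, fun _ => H.U c N,
    fun k => if k = 0 then 1 else 0, fun k => if k = 0 then 1 else N + 2,
    fun k => decide (0 < k)⟩ := ⟨_, rfl⟩
  have e1 : ∀ k, L.tm k = N + k := fun k => by rw [hL]
  have e2 : ∀ k, L.st k = H.U c N := fun k => by rw [hL]
  have e3 : L.lb 0 = 1 := by rw [hL]; rfl
  have e4 : ∀ k, 0 < k → L.lb k = 0 := fun k hk => by
    rw [hL]
    show (if k = 0 then 1 else 0) = 0
    rw [if_neg (by omega)]
  have e5 : L.off 0 = 1 := by rw [hL]; rfl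
  have e6 : ∀ k, 0 < k → L.off k = N + 2 := fun k hk => by
    rw [hL]
    show (if k = 0 then 1 else N + 2) = N + 2
    rw [if_neg (by omega)]
  have e7 : L.fin 0 = false := by rw [hL]; rfl
  have e8 : ∀ k, 0 < k → L.fin k = true := fun k hk => by
    rw [hL]
    show decide (0 < k) = true
    rw [decide_eq_true_iff]
    exact hk
  have e9 : L.pv 0 = 0 := rfl
  have hf0 : ∀ k, L.fin k = false → k = 0 := by
    intro k hk
    by_contra hcon
    rw [e8 k (by omega)] at hk
    cases hk
  refine ⟨L, ⟨⟨e5, ?_, ?_, ?_⟩, ?_, ?_⟩, ⟨e7, e3, ?_, ?_⟩, ?_⟩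
  · intro k _
    cases k with
    | zero => rw [e9, e1]; omega
    | succ k =>
      show L.tm k < L.tm (k + 1)
      rw [e1, e1]
      omega
  · intro k _ hk
    have hk0 : 0 < k := by
      rcases Nat.eq_zero_or_pos k with h | h
      · subst h
        rw [e7] at hk
        cases hk
      · exact h
    refine ⟨?_, fun _ => e8 _ (by omega)⟩
    rw [e4 k hk0]
    omega
  · intro k _ hk
    have := hf0 k hk
    subst this
    refine ⟨by omega, ?_, ?_⟩
    · rw [e6 (0 + 1) (by omega), e5, e3, e9, e1, if_pos rfl]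
      omega
    · rw [e6 (0 + 1) (by omega)]
      exact hlim
  · intro k _ hk
    have := hf0 k hk
    subst this
    rw [e1, e2, Nat.add_zero]
    exact ⟨le_rfl, rfl⟩
  · intro k _ hk _ u _ h2 h3 h4
    have := hf0 k hk
    subst this
    rw [e1] at h2
    exact ⟨0, le_rfl, by rw [e9]; exact h3, by rw [e1]; omega, Or.inr e3⟩
  · rw [e2]
    exact hfl
  · rw [e2]
    exact hacc
  · intro k
    rcases Nat.eq_zero_or_pos k with h | h
    · subst h
      rw [e1, e3, e5]
      exact ⟨le_rfl, le_rfl, by omega⟩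
    · rw [e1, e4 k h, e6 k h]
      exact ⟨le_rfl, by omega, by omega⟩

end Pool.Agent.NUM
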