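import Pool.Agent.NUM.NGDef
import Pool.Agent.NUM.NGRun
import Pool.Agent.NUM.GBase

/-!
# Nondeterministic theorem H(γ): the base: guess the choices and simulate along a list
-/

set_option autoImplicit false

namespace Pool.Agent.NUM

theorem Lst.clip_eq {A : Type} {L : Lst A} {T : ℕ} (h : ∀ i, L.tm i ≤ T) : L.clip T = L := by
  unfold Lst.clip
  have h1 : (fun i => L.fin i && decide (L.tm i ≤ T)) = L.fin := by
    funext i
    rw [decide_eq_true (h i), Bool.and_true]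
  rw [h1]

/-- the check accepts before the clock stops it -/
theorem hckN_lt {A : Type} [DecidableEq A] {H : HMN A} {L : Lst A} {κ w lim : ℕ}
    {c : ℕ → Bool} {n : ℕ} (h : (hckN H L κ w lim).Out c n true) : n < lim := by
  obtain ⟨h1, h2, h3⟩ := h
  cases n with
  | zero => exact absurd (show false = true from h2) (by decide)
  | succ n =>
    by_contra hcon
    have hI := CInvN.all (N := n + 1) h1 n (by omega)
    rw [hckN_U_succ] at h3
    unfold St.pass at h3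
    rw [if_pos (by rw [hI.num]; omega)] at h3
    cases h3

/-- **base**: guess the choices and simulate along the list -/
theorem exists_baseN (hcode : HCodeRK) {S : GSeq} (hS : S.Ok) {T : Type} {π : Pres T}
    (G : ℕ → List Ins) (hG : ∀ L, Sz (2 * S.h L) (G L)) {r : ℝ} (hr : 0 ≤ r) (hre : r ≤ S.e₀) :
    ∃ (β : ℕ → ℕ) (B : (T × Inp) × Inp → Prop), Lin r β ∧
      InH ((π.ext fun L => hLen (S.w r L) (S.σ L)).ext β) B r ∧
      ∀ p : T × Inp,
        (∀ (c : ℕ → Bool) (N : ℕ), DelRunN S (G (π.idx p.1)) (π.inp p.1) (π.idx p.1) c N →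
          TrSN S (G (π.idx p.1)) (π.inp p.1) (π.idx p.1) c N r p.2 → ∃ y, B (p, y)) ∧
        (NRealS S (G (π.idx p.1)) (π.inp p.1) (π.idx p.1) r p.2 → ∀ y, ¬ B (p, y)) := by
  have hpar : ∀ L, (S.p r r L).Ok := fun L => hS.par le_rfl hre L
  obtain ⟨bl, hbl⟩ : ∃ bl : ℕ → ℕ, bl = fun L => Nat.size (S.lim r L) := ⟨_, rfl⟩
  have hlimbl : ∀ L, S.lim r L < 2 ^ bl L := fun L => by rw [hbl]; exact Nat.lt_size_self _
  have hblb : ∀ L, bl L ≤ S.b L := fun L => by
    rw [hbl]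
    exact Nat.size_le.2 (hpar L).limb
  have hTb : ∀ L, 2 ^ S.b L - 1 < 2 ^ S.b L := fun L => by
    have : 0 < 2 ^ S.b L := by positivity
    omega
  choose G' s' d' h1 h2 h3 using fun L => hcode (G L) (S.d L) (S.h L) (S.w r L) (S.b L) (bl L)
    (S.σ L) (S.lim r L) (2 ^ S.b L - 1) (hG L) (hpar L).hd (hpar L).h2 (hpar L).db (hpar L).hσ
    (hpar L).wσ (hpar L).bσ (hlimbl L) (hblb L) (hTb L)
  have hlim : ∀ L, 2 ≤ S.lim r L := fun L => by
    have := (hS.dims r L).2.2.2.2.2.1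
    omega
  -- acceptance, with the label as a string
  set P' : ((T × Inp) × Inp) × Inp → Prop := fun x => ∃ N', (hchkR (G (π.idx x.1.1.1))
    (S.d (π.idx x.1.1.1)) (S.h (π.idx x.1.1.1)) (S.w r (π.idx x.1.1.1)) (S.b (π.idx x.1.1.1))
    (bl (π.idx x.1.1.1)) (S.σ (π.idx x.1.1.1)) (S.lim r (π.idx x.1.1.1))
    (2 ^ S.b (π.idx x.1.1.1) - 1) (π.inp x.1.1.1) x.1.1.2 x.1.2 x.2).Out N' true with hP'
  have hin : InH (((π.ext fun L => hLen (S.w r L) (S.σ L)).ext S.σ).ext bl) P' r := by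
    refine ⟨G', s', S.lim r, d', 0, ?_, hS.grow_lim hr, h1, fun τ _ =>
      ⟨?_, fun _ _ _ => trivial⟩⟩
    · refine ex_zero_iff.2 (((hS.grow_X hr le_rfl hre).pow 120).mono'
        (Filter.Eventually.of_forall fun L => ?_))
      refine (h2 L).trans (Nat.pow_le_pow_left ?_ 120)
      unfold GPar.X
      show 1000 * (S.h L + S.w r L + S.b L + S.σ L + 10) ≤
        1000 * (S.h L + S.b L + S.σ L + S.d L + S.c L + S.q r r L + S.w r L + S.w r L + 10)
      omega
    · obtain ⟨⟨⟨τ, v⟩, κ⟩, y⟩ := τ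
      obtain ⟨N', b, hN', hout⟩ := hckR_halts (H := finHMN (eval (G (π.idx τ)) (π.inp τ))
        (S.d (π.idx τ)) (S.h (π.idx τ))) (L := (rdL (S.h (π.idx τ)) (S.w r (π.idx τ))
        (S.b (π.idx τ)) (S.σ (π.idx τ)) v).clip (2 ^ S.b (π.idx τ) - 1))
        (κ := rdK (S.w r (π.idx τ)) (S.σ (π.idx τ)) κ)
        (w := S.w r (π.idx τ)) (lim := S.lim r (π.idx τ))
        (r := fun n => y (bits (bl (π.idx τ)) n)) (by have := hlim (π.idx τ); omega)
      obtain ⟨h4, h5⟩ := h3 (π.idx τ) (π.inp τ) v κ y N' b hout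
      refine ⟨b, ⟨N', hN', h4, h5⟩, fun hb => ⟨N', by rw [← hb]; exact hout⟩, ?_⟩
      rintro ⟨N'', hN''⟩
      exact (HM.Out.unique hout hN'').2
  have hφ : LocF (fun L x => pair (pair (fun a => x ([false] ++ a)) (trc (S.σ L) (kOne (S.σ L))))
      (fun a => x ([true] ++ a))) :=
    LocF.pair (LocF.pair (LocF.shift [false] LocF.id) (LocF.trc (LocF.kOne S.σ) S.σ))
      (LocF.shift [true] LocF.id)
  have hin2 := InG.virt (ρ := (π.ext fun L => hLen (S.w r L) (S.σ L)).ext bl) hin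
    (fun p : (T × Inp) × Inp => ((p.1, kOne (S.σ (π.idx p.1.1))), p.2)) (fun _ => rfl)
    _ hφ ⟨0, fun _ _ => rfl⟩
  have hbll : Lin r bl := by
    rw [hbl]
    exact (hS.gplim hr).lin_size hr
  refine ⟨bl, fun p => P' ((p.1, kOne (S.σ (π.idx p.1.1))), p.2), hbll,
    InG.mono hin2 le_rfl (fun _ _ _ h => h) (fun _ _ => trivial), ?_⟩
  intro p
  have hk : rdK (S.w r (π.idx p.1)) (S.σ (π.idx p.1)) (kOne (S.σ (π.idx p.1))) = 1 :=
    rdK_kOne (hS.dims r (π.idx p.1)).2.2.2.2.2.2 (hpar (π.idx p.1)).wσ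
  have hclip : ∀ l : Inp, (rdL (S.h (π.idx p.1)) (S.w r (π.idx p.1)) (S.b (π.idx p.1))
      (S.σ (π.idx p.1)) l).clip (2 ^ S.b (π.idx p.1) - 1) =
      rdL (S.h (π.idx p.1)) (S.w r (π.idx p.1)) (S.b (π.idx p.1)) (S.σ (π.idx p.1)) l :=
    fun l => Lst.clip_eq fun i => by
      have := rdL_tm_lt (S.h (π.idx p.1)) (S.w r (π.idx p.1)) (S.b (π.idx p.1))
        (S.σ (π.idx p.1)) l i
      omega
  constructor
  · intro c N hD htr
    obtain ⟨c', n, hO⟩ := RunL.accept htr.stat (hlim _) (htr.run hD.alive)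
    obtain ⟨y, hy⟩ := exists_choices (bl (π.idx p.1)) c'
    refine ⟨y, n, ?_⟩
    unfold hchkR
    simp only [hk, hclip]
    rw [hckR_Out]
    refine hckN_congr (fun m hm => (hy m ?_).symm) hO
    have h4 := hckN_lt hO
    have h5 := hlimbl (π.idx p.1)
    omega
  · rintro ⟨hs, hno⟩ y ⟨N', hN'⟩
    apply hno
    unfold hchkR at hN'
    simp only [hk, hclip] at hN'
    rw [hckR_Out] at hN'
    exact RunL.of_accept hs hN'

end Pool.Agent.NUM
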