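import Pool.Agent.NUM.GCls
import Pool.Agent.NUM.HNFam

/-!
# The class of the problems with accepting computations with hereditary separators
-/

set_option autoImplicit false

namespace Pool.Agent.NUM

/-- `P` is accepted in `2 ^ ((e + o(1)) L)` passes by nondeterministic functional programs of size
`2 ^ o(L)`; the instances with `P` have an accepting computation with hereditary separators of size
`2 ^ o(L) * |W| ^ γ` -/
def ClsGN (γ : ℝ) : (T : Type) → Pres T → (T → Prop) → ℝ → Prop := fun _ π P e =>
  ∃ k : ℕ → ℕ, Ex 0 k ∧ InGN (fun L N rc => HSep N rc γ (k L)) π P e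

end Pool.Agent.NUM
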