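import Pool.Agent.NUM.GList
import Pool.Agent.NUM.HNMach

/-!
# Local lists of claims for nondeterministic machines (nondeterministic theorem H(γ))

A list is true for the choices `c` if its entries are the states of the computation with the choices
`c`; it is realised if there is a run along its own segments which starts from its entries.
-/

set_option autoImplicit false

namespace Pool.Agent.NUM

variable {A : Type}

/-- **true lists** for the computation with the choices `c` -/
structure TrLN (H : HMN A) (c : ℕ → Bool) (N : ℕ) (L : Lst A) (w lim : ℕ) : Prop where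
  stat : LStat L w lim
  tru : ∀ i < 2 ^ w, L.fin i = false → L.tm i ≤ N ∧ L.st i = H.U c (L.tm i)
  clo : ∀ i < 2 ^ w, L.fin i = false → L.lb i = 1 → ∀ u, L.pv i ≤ u → u < L.tm i →
    0 < H.idx (H.U c u) → H.idx (H.U c u) ≤ u → Avail L i (H.idx (H.U c u))

/-- **runs along a list**: `V` contains the claimed states and is a run on the own segments, with the
choices `b`; all recalled states are claimed or own -/
structure RunL (H : HMN A) (L : Lst A) (w : ℕ) (V : ℕ → A) (b : ℕ → Bool) : Prop where
  zero : V 0 = H.a0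
  ent : ∀ i < 2 ^ w, L.fin i = false → V (L.tm i) = L.st i
  stp : ∀ i < 2 ^ w, L.fin i = false → L.lb i = 1 → ∀ u, L.pv i ≤ u → u < L.tm i →
    V (u + 1) = H.step (b u) (V u) (if H.idx (V u) ≤ u then V (H.idx (V u)) else H.e0)
  nhl : ∀ i < 2 ^ w, L.fin i = false → L.lb i = 1 → ∀ u, L.pv i ≤ u → u < L.tm i →
    H.hlt (V (u + 1)) = false
  ava : ∀ i < 2 ^ w, L.fin i = false → L.lb i = 1 → ∀ u, L.pv i ≤ u → u < L.tm i →
    0 < H.idx (V u) → H.idx (V u) ≤ u → Avail L i (H.idx (V u))

/-- containment: the own entry `i` of list `k` ends a segment which is inside the own segment `e` of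
the parent list `R` -/
def ContOK (w₁ : ℕ) (R : Lst A) (C : ℕ → Lst A) (k i e : ℕ) : Prop :=
  (C k).fin i = false → (C k).lb i = 1 →
    e < 2 ^ w₁ ∧ R.fin e = false ∧ R.lb e = 1 ∧ R.pv e ≤ (C k).pv i ∧ (C k).tm i ≤ R.tm e

/-- own segments are disjoint -/
def DisjOK (C : ℕ → Lst A) (k i k' i' : ℕ) : Prop :=
  (C k).fin i = false → (C k).lb i = 1 → (C k').fin i' = false → (C k').lb i' = 1 →
    (k = k' ∧ i = i') ∨ (C k).tm i ≤ (C k').pv i' ∨ (C k').tm i' ≤ (C k).pv i

/-- entry `e` is the same -/
def EqAt (L' L : Lst A) (e : ℕ) : Prop :=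
  L'.tm e = L.tm e ∧ L'.st e = L.st e ∧ L'.lb e = L.lb e ∧ L'.off e = L.off e ∧ L'.fin e = L.fin e

end Pool.Agent.NUM
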