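import Pool.Agent.NUM.GRead
import Pool.Agent.NUM.NGList

/-!
# Nondeterministic theorem H(γ): the static conditions on strings

The strings are as in `GRead`; the pointer `gE` of an own entry of a child is the number of the segment
of the parent which contains its segment; the string `v` contains a second pair of numbers.
-/

set_option autoImplicit false

namespace Pool.Agent.NUM

/-- the second pair of numbers of the refuter (`vi'` uses the bits of `ve`) -/
def vk' (p : GPar) (v : Inp) : ℕ := num p.q fun r => v (false :: (bits 2 3 ++ bits p.σ r))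

def vi' (p : GPar) (v : Inp) : ℕ := num p.w fun r => v (false :: (bits 2 2 ++ bits p.σ r))

/-- the static conditions on the system of lists in `y` -/
def NCom (p : GPar) (y v : Inp) : Prop :=
  SCom p y (vk p v) (vi p v) (ve p v) ∧
  ContOK p.w₁ (gR p y) (gC p y) (vk p v) (vi p v) (gE p y (vk p v) (vi p v)) ∧
  DisjOK (gC p y) (vk p v) (vi p v) (vk' p v) (vi' p v)

/-- the static conditions in the step -/
def NStep (p : GPar) (l y v : Inp) : Prop :=
  NCom p y v ∧ EqAt (gR p y) (rdL p.h p.w₁ p.b p.σ l) (ve p v)

/-- the static conditions at the top, for computations with at most `T` passes -/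
def NTop (p : GPar) (T : ℕ) (y v : Inp) : Prop :=
  NCom p y v ∧ TopL (gfl p) (gacc p) (gR p y) ∧ (gR p y).tm 0 ≤ T

/-- **The statement about the code of the static checks.** In the step the input is
`pair (pair (pair z l) y) v`, at the top `pair (pair z y) v`. -/
def NCodeOK : Prop :=
  ∀ p : GPar, p.Ok → ∀ T < 2 ^ p.b,
    (∃ f : Inp → Bool, Cp 0 (p.X ^ 60) (fun x _ => f x) ∧ ∀ z l y v : Inp,
      (f (pair (pair (pair z (trc (hLen p.w₁ p.σ) l)) (trc (gLen p) y)) v) = true ↔ NStep p l y v)) ∧
    ∃ f : Inp → Bool, Cp 0 (p.X ^ 60) (fun x _ => f x) ∧ ∀ z y v : Inp,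
      (f (pair (pair z (trc (gLen p) y)) v) = true ↔ NTop p T y v)

end Pool.Agent.NUM
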