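import Pool.Agent.NUM.GCode
import Pool.Agent.NUM.NGRead

/-!
# Nondeterministic theorem H(γ): the code of the static checks
-/

set_option autoImplicit false

namespace Pool.Agent.NUM

/-! ### truncation -/

theorem ncom_trc (p : GPar) (y v : Inp) : NCom p (trc (gLen p) y) v ↔ NCom p y v := by
  unfold NCom
  rw [scom_trc, gR_trc, gC_trc, gE_trc]

theorem nstep_trc (p : GPar) (l y v : Inp) :
    NStep p (trc (hLen p.w₁ p.σ) l) (trc (gLen p) y) v ↔ NStep p l y v := by
  unfold NStep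
  rw [ncom_trc, gR_trc, gct_rdL_trc]

theorem ntop_trc (p : GPar) (T : ℕ) (y v : Inp) :
    NTop p T (trc (gLen p) y) v ↔ NTop p T y v := by
  unfold NTop
  rw [ncom_trc, gR_trc]

section

variable {B k l c cv : ℕ} {p : GPar} {y : Inp → Mem → Inp} {κ i κ' i' e : Inp → Mem → ℕ}

/-- the code of the containment condition -/
theorem CP.contOK (p : GPar) (hc : c ≤ 10) (hy : CStr B (p.X ^ (k + 1)) c y)
    (hκ : CN B (p.X ^ (k + 1)) p.q κ) (hi : CN B (p.X ^ (k + 1)) p.w i) :
    CP B (p.X ^ (k + 30)) (fun z M => ContOK p.w₁ (gR p (y z M)) (gC p (y z M))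
      (κ z M) (i z M) (gE p (y z M) (κ z M) (i z M))) := by
  have hX := p.X_big
  have hs := p.X_size
  have hC := hy.gRec p hX hκ
  have hfin := CStr.fin (h := p.h) (b := p.b) (w := p.w) (σ := p.σ) hX (by omega) hC hi
  have hlb1 := CP.eqC hX (by omega) (CStr.lb (h := p.h) (b := p.b) (w := p.w) (σ := p.σ) hX
    (by omega) hC hi) 1
  have hpv := CStr.pv (h := p.h) (b := p.b) (w := p.w) (σ := p.σ) hX (by omega) (by omega) hC hi
  have htm := CStr.tm (h := p.h) (b := p.b) (w := p.w) (σ := p.σ) hX (by omega) hC hi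
  have hE := hy.gpbN p hX (by omega) hκ hi 1 p.w₁
  have hy' : CStr B (p.X ^ (k + 2 + 1)) c y := hy.up hX (by omega)
  have hR := hy'.gRstr hX
  have a1 := CP.ltC (k := k + 2) hX (by omega) hE (2 ^ p.w₁)
  have a2 := CP.ofFalse hX (CStr.fin (h := p.h) (b := p.b) (w := p.w₁) (σ := p.σ) hX (by omega)
    hR hE)
  have a3 := CP.eqC hX (by omega) (CStr.lb (h := p.h) (b := p.b) (w := p.w₁) (σ := p.σ) hX
    (by omega) hR hE) 1
  have rpv := CStr.pv (h := p.h) (b := p.b) (w := p.w₁) (σ := p.σ) hX (by omega) (by omega) hR hE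
  have rtm := CStr.tm (h := p.h) (b := p.b) (w := p.w₁) (σ := p.σ) hX (by omega) hR hE
  have a4 := CP.leN hX (by omega) rpv (hpv.up hX (by omega))
  have a5 := CP.leN hX (by omega) (htm.up hX (by omega)) rtm
  have b1 := CP.and hX a4 (a5.up hX (by omega))
  have b2 := CP.and hX (a3.up hX (by omega)) b1
  have b3 := CP.and hX (a2.up hX (by omega)) b2
  have b4 := CP.and hX (a1.up hX (by omega)) b3
  have b5 := CP.imp hX (hlb1.up hX (by omega)) b4
  have b6 := CP.imp hX ((CP.ofFalse hX hfin).up hX (by omega)) b5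
  exact (b6.congr fun z M => Iff.rfl).up hX (by omega)

/-- the code of the disjointness condition -/
theorem CP.disjOK (p : GPar) (hc : c ≤ 10) (hy : CStr B (p.X ^ (k + 1)) c y)
    (hκ : CN B (p.X ^ (k + 1)) p.q κ) (hi : CN B (p.X ^ (k + 1)) p.w i)
    (hκ' : CN B (p.X ^ (k + 1)) p.q κ') (hi' : CN B (p.X ^ (k + 1)) p.w i') :
    CP B (p.X ^ (k + 30)) (fun z M => DisjOK (gC p (y z M)) (κ z M) (i z M) (κ' z M)
      (i' z M)) := by
  have hX := p.X_big
  have hs := p.X_size
  have hC := hy.gRec p hX hκ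
  have hC' := hy.gRec p hX hκ'
  have hfin := CStr.fin (h := p.h) (b := p.b) (w := p.w) (σ := p.σ) hX (by omega) hC hi
  have hlb1 := CP.eqC hX (by omega) (CStr.lb (h := p.h) (b := p.b) (w := p.w) (σ := p.σ) hX
    (by omega) hC hi) 1
  have hpv := CStr.pv (h := p.h) (b := p.b) (w := p.w) (σ := p.σ) hX (by omega) (by omega) hC hi
  have htm := CStr.tm (h := p.h) (b := p.b) (w := p.w) (σ := p.σ) hX (by omega) hC hi
  have hfin' := CStr.fin (h := p.h) (b := p.b) (w := p.w) (σ := p.σ) hX (by omega) hC' hi'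
  have hlb1' := CP.eqC hX (by omega) (CStr.lb (h := p.h) (b := p.b) (w := p.w) (σ := p.σ) hX
    (by omega) hC' hi') 1
  have hpv' := CStr.pv (h := p.h) (b := p.b) (w := p.w) (σ := p.σ) hX (by omega) (by omega) hC' hi'
  have htm' := CStr.tm (h := p.h) (b := p.b) (w := p.w) (σ := p.σ) hX (by omega) hC' hi'
  have a1 := CP.eqN hX (by omega) hκ hκ'
  have a2 := CP.eqN hX (by omega) hi hi'
  have a3 := CP.and hX a1 a2
  have a4 := CP.leN hX (by omega) (htm.up hX (by omega)) hpv'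
  have a5 := CP.leN hX (by omega) (htm'.up hX (by omega)) hpv
  have b1 := CP.or hX a4 a5
  have b2 := CP.or hX (a3.up hX (by omega)) b1
  have b3 := CP.imp hX (hlb1'.up hX (by omega)) b2
  have b4 := CP.imp hX ((CP.ofFalse hX hfin').up hX (by omega)) b3
  have b5 := CP.imp hX (hlb1.up hX (by omega)) b4
  have b6 := CP.imp hX ((CP.ofFalse hX hfin).up hX (by omega)) b5
  exact (b6.congr fun z M => Iff.rfl).up hX (by omega)

/-- the second pair of numbers of the refuter -/
theorem CN.vnum' (p : GPar) {v : Inp → Mem → Inp} (hc : cv ≤ 10)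
    (hv : CStr B (p.X ^ (k + 1)) cv v) :
    CN B (p.X ^ (k + 3)) p.q (fun z M => vk' p (v z M)) ∧
    CN B (p.X ^ (k + 3)) p.w (fun z M => vi' p (v z M)) := by
  have hX := p.X_big
  have hs := p.X_size
  have hl : ∀ f, (false :: bits 2 f).length = 3 := fun f => by
    rw [List.length_cons, length_bits]
  exact ⟨hv.numC hX (false :: bits 2 3) p.σ p.q (by rw [hl]; omega),
    hv.numC hX (false :: bits 2 2) p.σ p.w (by rw [hl]; omega)⟩

/-- **`NCom` on the input** -/
theorem CP.nCom (p : GPar) {v : Inp → Mem → Inp} (hc : c ≤ 10) (hcv : cv ≤ 10)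
    (hy : CStr B (p.X ^ (k + 1)) c y) (hv : CStr B (p.X ^ (k + 1)) cv v) :
    CP B (p.X ^ (k + 44)) (fun z M => NCom p (y z M) (v z M)) := by
  have hX := p.X_big
  obtain ⟨h1, h2, -⟩ := CN.vnum p hcv hv
  obtain ⟨h3, h4⟩ := CN.vnum' p hcv hv
  have a1 := CP.sComV p hc hcv hy hv
  have a2 := CP.contOK (k := k + 2) p hc (hy.up hX (by omega)) h1 h2
  have a3 := CP.disjOK (k := k + 2) p hc (hy.up hX (by omega)) h1 h2 h3 h4
  have a4 := CP.and hX a2 a3
  have a5 := CP.and hX a1 (a4.up hX (by omega))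
  exact (a5.congr fun z M => Iff.rfl).up hX (by omega)

/-- the code of the equality of entries -/
theorem CL.eqAt {X h w b : ℕ} {L L' : Inp → Mem → Lst (Fin h → Bool)} (hX : 1000 ≤ X)
    (hh : h ≤ X) (hw : w ≤ X) (hb : b ≤ X) (hL : CL B X k h w b L) (hL' : CL B X k h w b L')
    (hkl : k ≤ l) (he : CN B (X ^ l) w e) :
    CP B (X ^ (l + 14)) fun z M => EqAt (L' z M) (L z M) (e z M) := by
  have a1 := CP.eqN hX hb (hL'.tm l e hkl he) (hL.tm l e hkl he)
  have a2 := CP.eqV (k := l + 4) hX hh (hL'.st l e hkl he) (hL.st l e hkl he)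
  have a3 := CP.eqN hX hw (hL'.lb l e hkl he) (hL.lb l e hkl he)
  have a4 := CP.eqN hX hb (hL'.off l e hkl he) (hL.off l e hkl he)
  have f1 := hL.fin l e hkl he
  have f2 := hL'.fin l e hkl he
  have b1 := CP.imp hX (CP.ofTrue f1) (CP.ofTrue f2)
  have b2 := CP.imp hX (CP.ofTrue f2) (CP.ofTrue f1)
  have a5 : CP B (X ^ (l + 5 + 2 + 1)) fun z M => (L' z M).fin (e z M) = (L z M).fin (e z M) := by
    refine (CP.and hX b1 b2).congr fun z M => ?_
    cases (L' z M).fin (e z M) <;> cases (L z M).fin (e z M) <;> simp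
  have c1 := CP.and hX (a4.up hX (by omega)) a5
  have c2 := CP.and hX (a3.up hX (by omega)) c1
  have c3 := CP.and hX (a2.up hX (by omega)) c2
  have c4 := CP.and hX (a1.up hX (by omega)) c3
  exact (c4.congr fun z M => Iff.rfl).up hX (by omega)

end

/-- **The code of the static checks.** -/
theorem nCodeOK : NCodeOK := by
  intro p hp T hT
  have hX := p.X_big
  have hs := p.X_size
  have hxo := p.xok
  have hy : CStr 0 (p.X ^ (0 + 1)) 2 (fun x _ => yI x) := CStr.yIn p
  have hv : CStr 0 (p.X ^ (0 + 1)) 1 (fun x _ => vI x) := CStr.vIn p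
  have hl : CStr 0 (p.X ^ (0 + 1)) 3 (fun x _ => lI x) := CStr.lIn p
  have h1 := CP.nCom p (by omega) (by omega) hy hv
  have hR : CL 0 p.X (0 + 1) p.h p.w₁ p.b fun x _ => gR p (yI x) :=
    CStr.cl hX (by omega) (hy.gRstr hX)
  obtain ⟨-, -, he⟩ := CN.vnum p (by omega) hv
  constructor
  · have hL : CL 0 p.X (0 + 1) p.h p.w₁ p.b fun x _ => rdL p.h p.w₁ p.b p.σ (lI x) :=
      CStr.cl hX (by omega) hl
    have h2 := CL.eqAt hX (by omega) (by omega) (by omega) hL hR (by omega) he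
    obtain ⟨f, hf, hP⟩ := CP.inpFun (P := fun x => NStep p (lI x) (yI x) (vI x))
      ((CP.and hX (h1.up hX (by omega : 0 + 44 ≤ 50)) (h2.up hX (by omega))).up hX
        (by omega : 50 + 1 ≤ 60))
    refine ⟨f, hf, fun z l y v => ?_⟩
    rw [hP]
    exact nstep_trc p l y v
  · have h2 := CL.topL (l := 0) hp hxo hxo.w₁ hp.w1 hR (by omega)
    have h3 : CP 0 (p.X ^ (0 + 42)) fun x (_ : Mem) => TopL (gfl p) (gacc p) (gR p (yI x)) :=
      CP.up h2 hX (by omega)
    have zero : CN 0 (p.X ^ (0 + 1)) p.w₁ fun _ _ => 0 :=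
      (CN.const hX (by positivity)).up hX (by omega)
    have h4 := CP.leN hX (by omega) (hR.tm (0 + 1) _ (by omega) zero)
      ((CN.const (B := 0) hX hT).up hX (by omega))
    have h5 := CP.and hX h3 (h4.up hX (by omega))
    obtain ⟨f, hf, hP⟩ := CP.inpFun (P := fun x => NTop p T (yI x) (vI x))
      ((CP.and hX (h1.up hX (by omega : 0 + 44 ≤ 50)) (h5.up hX (by omega))).up hX
        (by omega : 50 + 1 ≤ 60))
    refine ⟨f, hf, fun z y v => ?_⟩
    rw [hP]
    exact ntop_trc p T y v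

end Pool.Agent.NUM
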