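import Pool.Agent.NUM.NGRead
import Pool.Agent.NUM.GParam
import Pool.Agent.NUM.NGAbs
import Pool.Agent.NUM.HNRead
import Pool.Agent.NUM.HSep

/-!
# Nondeterministic theorem H(γ): the list problems on strings
-/

set_option autoImplicit false

namespace Pool.Agent.NUM

/-- the machine of the program `G` on level `L` -/
noncomputable abbrev ngH (S : GSeq) (G : List Ins) (z : Inp) (L : ℕ) : HMN (Fin (S.h L) → Bool) :=
  finHMN (eval G z) (S.d L) (S.h L)

/-- the list in the string `l` -/
noncomputable abbrev ngL (S : GSeq) (L : ℕ) (r : ℝ) (l : Inp) : Lst (Fin (S.h L) → Bool) :=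
  rdL (S.h L) (S.w r L) (S.b L) (S.σ L) l

/-- `l` is a true list of level `r` for the computation with the choices `c` -/
def TrSN (S : GSeq) (G : List Ins) (z : Inp) (L : ℕ) (c : ℕ → Bool) (N : ℕ) (r : ℝ) (l : Inp) :
    Prop :=
  TrLN (ngH S G z L) c N (ngL S L r l) (S.w r L) (S.lim r L)

/-- `l` satisfies the static conditions but is not realised by any choices -/
def NRealS (S : GSeq) (G : List Ins) (z : Inp) (L : ℕ) (r : ℝ) (l : Inp) : Prop :=
  LStat (ngL S L r l) (S.w r L) (S.lim r L) ∧ ¬ ∃ V b, RunL (ngH S G z L) (ngL S L r l) (S.w r L) V b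

/-- an accepting computation of the delayed program `G`, with separators; `N` is the number of passes
of the original program -/
structure DelRunN (S : GSeq) (G : List Ins) (z : Inp) (L : ℕ) (c : ℕ → Bool) (N : ℕ) : Prop where
  pos : 0 < N
  le : N ≤ S.t L
  alive : ∀ m ≤ N, (ngH S G z L).hlt ((ngH S G z L).U c m) = false
  flag : gfl (S.p 0 0 L) ((ngH S G z L).U c N) = true
  acc : gacc (S.p 0 0 L) ((ngH S G z L).U c N) = true
  sep : HSep N (fun n => (ngH S G z L).idx ((ngH S G z L).U c n)) S.γ (S.k L)

end Pool.Agent.NUM
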