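import Pool.Agent.NUM.GDelay
import Pool.Agent.NUM.HNBasic

/-!
# The delayed form of a nondeterministic history program

The cell `2 s` of a state of `G'` is the halting bit of the state of `G`, the halting bit of `G'`
comes one pass later.
-/

set_option autoImplicit false

namespace Pool.Agent.NUM

/-- the delayed form of a pass with a choice bit in cell `1` -/
def dlyN (f : Mem → Mem) (s : ℕ) (M : Mem) : Mem :=
  dly2 s fun q => if q < s then f (Function.update M 0 (M (2 * s))) q
    else Function.update M 0 (M (2 * s)) q

theorem dlyN_zero {f : Mem → Mem} {s : ℕ} (hs : 3 ≤ s) (M : Mem) : dlyN f s M 0 = M (2 * s) := by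
  unfold dlyN dly2
  rw [Function.update_self]
  show (if 2 * s < s then f (Function.update M 0 (M (2 * s))) (2 * s)
    else Function.update M 0 (M (2 * s)) (2 * s)) = _
  rw [if_neg (by omega), Function.update_of_ne (by omega)]

theorem dlyN_flag {f : Mem → Mem} {s : ℕ} (hs : 3 ≤ s) (M : Mem) :
    dlyN f s M (2 * s) = f (Function.update M 0 (M (2 * s))) 0 := by
  unfold dlyN dly2
  rw [Function.update_of_ne (by omega), Function.update_self]
  show (if 0 < s then f (Function.update M 0 (M (2 * s))) 0 else _) = _
  rw [if_pos (by omega)]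

theorem dlyN_lt {f : Mem → Mem} {s : ℕ} (M : Mem) {q : ℕ} (hq : 0 < q) (hqs : q < s) :
    dlyN f s M q = f (Function.update M 0 (M (2 * s))) q := by
  unfold dlyN dly2
  rw [Function.update_of_ne (by omega), Function.update_of_ne (by omega),
    Function.update_of_ne (by omega), if_pos hqs]

theorem dlyN_tr {G : List Ins} {s : ℕ} (hG : Sz s G) (hs : 3 ≤ s) :
    Tr (2 * s + 2) (s + 10) (fun z M => dlyN (eval G z) s M) := by
  have t1 : Tr (2 * s + 2) 2 (fun _ M => Function.update M 0 (M (2 * s))) :=
    Tr.set (Cp.cell (by omega)) (by omega)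
  have t3 := (Tr.pass hG).lift (show s ≤ 2 * s + 2 by omega)
  have t4 : Tr (2 * s + 2) 2 (fun _ M => Function.update M (2 * s + 1) (M (2 * s))) :=
    Tr.set (Cp.cell (by omega)) (by omega)
  have t5 : Tr (2 * s + 2) 2 (fun _ M => Function.update M (2 * s) (M 0)) :=
    Tr.set (Cp.cell (by omega)) (by omega)
  have t6 : Tr (2 * s + 2) 2 (fun _ M => Function.update M 0 (M (2 * s + 1))) :=
    Tr.set (Cp.cell (by omega)) (by omega)
  refine (((((t1.comp t3).comp t4).comp t5).comp t6).mono (by omega)).congr ?_
  intro z M q hq
  show Function.update (Function.update (Function.update (lift s (fun z M => eval G z M) z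
    (Function.update M 0 (M (2 * s)))) (2 * s + 1) _) (2 * s) _) 0 _ q = _
  have e2 : lift s (fun z M => eval G z M) z (Function.update M 0 (M (2 * s))) =
      fun q => if q < s then eval G z (Function.update M 0 (M (2 * s))) q
        else Function.update M 0 (M (2 * s)) q := rfl
  rw [e2]
  unfold dlyN dly2
  generalize (fun q => if q < s then eval G z (Function.update M 0 (M (2 * s))) q
    else Function.update M 0 (M (2 * s)) q) = R
  by_cases h0 : q = 0
  · subst h0
    rw [Function.update_self, Function.update_self, Function.update_of_ne (by omega),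
      Function.update_self]
  · rw [Function.update_of_ne h0, Function.update_of_ne h0]
    by_cases h1 : q = 2 * s
    · subst h1
      rw [Function.update_self, Function.update_self, Function.update_of_ne (by omega)]
    · rw [Function.update_of_ne h1, Function.update_of_ne h1]

/-- the halting bit of the delayed program is the flag of the previous pass -/
theorem staN_dlyN_zero {f : Mem → Mem} {s d : ℕ} {c : ℕ → Bool} (hs : 3 ≤ s) (m : ℕ) :
    staN (dlyN f s) d c (m + 1) 0 = staN (dlyN f s) d c m (2 * s) := by
  rw [staN_succ, dlyN_zero hs, Function.update_of_ne (by omega)]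
  unfold mrg
  rw [if_pos (by omega)]

/-- the invariant of the delayed program -/
theorem dlyN_inv {G : List Ins} {s d : ℕ} (hG : HSz s d G) (hs : 3 ≤ s) (z : Inp)
    (c : ℕ → Bool) {N : ℕ} (h : ∀ t < N, staN (eval G z) d c t 0 = false) : ∀ m ≤ N,
    (∀ q < s, 0 < q → staN (dlyN (eval G z) s) d c m q = staN (eval G z) d c m q) ∧
      staN (dlyN (eval G z) s) d c m (2 * s) = staN (eval G z) d c m 0 ∧
      staN (dlyN (eval G z) s) d c m 0 = false := by
  intro m
  induction m using Nat.strong_induction_on with
  | _ m ih =>
    intro hm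
    cases m with
    | zero => exact ⟨fun _ _ _ => rfl, rfl, rfl⟩
    | succ m =>
      obtain ⟨i1, i2, i3⟩ := ih m (by omega) (by omega)
      have hr : rclN (dlyN (eval G z) s) d c m = rclN (eval G z) d c m := by
        unfold rclN ptr
        refine Finset.sum_congr rfl fun r hr => ?_
        rw [Finset.mem_range] at hr
        have := hG.2
        rw [i1 (4 * r + 4) (by omega) (by omega)]
      obtain ⟨W', hW'⟩ : ∃ W', W' = (if rclN (eval G z) d c m ≤ m then
        staN (dlyN (eval G z) s) d c (rclN (eval G z) d c m) else zeroMem) := ⟨_, rfl⟩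
      obtain ⟨W, hW⟩ : ∃ W, W = (if rclN (eval G z) d c m ≤ m then
        staN (eval G z) d c (rclN (eval G z) d c m) else zeroMem) := ⟨_, rfl⟩
      have hWW : ∀ q < s, 0 < q → W' q = W q := by
        by_cases h1 : rclN (eval G z) d c m ≤ m
        · rw [if_pos h1] at hW hW'
          obtain ⟨j1, j2, j3⟩ := ih _ (show rclN (eval G z) d c m < m + 1 by omega) (by omega)
          rw [hW, hW']
          exact j1
        · rw [if_neg h1] at hW hW'
          rw [hW, hW']
          exact fun _ _ _ => rfl
      have e1 : staN (eval G z) d c (m + 1) =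
          eval G z (Function.update (mrg (staN (eval G z) d c m) W) 1 (c m)) := by
        rw [staN_succ, hW]
      have e2 : staN (dlyN (eval G z) s) d c (m + 1) =
          dlyN (eval G z) s
            (Function.update (mrg (staN (dlyN (eval G z) s) d c m) W') 1 (c m)) := by
        rw [staN_succ, hr, hW']
      obtain ⟨M', hM'⟩ : ∃ M', M' = Function.update
        (mrg (staN (dlyN (eval G z) s) d c m) W') 1 (c m) := ⟨_, rfl⟩
      have hM2 : M' (2 * s) = staN (eval G z) d c m 0 := by
        rw [hM', Function.update_of_ne (by omega)]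
        unfold mrg
        rw [if_pos (by omega)]
        exact i2
      have hagr : Agr s (Function.update M' 0 (M' (2 * s)))
          (Function.update (mrg (staN (eval G z) d c m) W) 1 (c m)) := by
        intro q hq
        by_cases h0 : q = 0
        · subst h0
          rw [Function.update_self, hM2, Function.update_of_ne (by omega)]
          unfold mrg
          rw [if_pos rfl]
        · rw [Function.update_of_ne h0, hM']
          by_cases h1 : q = 1
          · subst h1
            rw [Function.update_self, Function.update_self]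
          · rw [Function.update_of_ne h1, Function.update_of_ne h1]
            unfold mrg
            by_cases h2 : q % 2 = 0
            · rw [if_pos h2, if_pos h2]
              exact i1 q hq (by omega)
            · rw [if_neg h2, if_neg h2]
              exact hWW (q - 1) (by omega) (by omega)
      have hev := eval_agr hG.1.2 (z := z) hagr
      rw [e1, e2, ← hM']
      refine ⟨fun q hq h0 => ?_, ?_, ?_⟩
      · rw [dlyN_lt _ h0 hq]
        exact hev q hq
      · rw [dlyN_flag hs]
        exact hev 0 (by omega)
      · rw [dlyN_zero hs, hM2]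
        exact h m (by omega)

/-- **The delayed nondeterministic program**: it halts one pass later, the flag shows the last pass. -/
theorem exists_delayN {G : List Ins} {s d : ℕ} (hG : HSz s d G) (hs : 3 ≤ s) :
    ∃ (G' : List Ins) (c : ℕ), HSz (100 * (s + 10) ^ 2) d G' ∧ 2 * c + 1 ≤ 100 * (s + 10) ^ 2 ∧
      ∀ (z : Inp) (ch : ℕ → Bool) (N : ℕ),
        (AccAt (eval G z) d ch N → (∀ m ≤ N, staN (eval G' z) d ch m 0 = false ∧
            rclN (eval G' z) d ch m = rclN (eval G z) d ch m) ∧
          staN (eval G' z) d ch N (2 * c) = true ∧ staN (eval G' z) d ch N 2 = true) ∧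
        ((∀ m ≤ N, staN (eval G' z) d ch m 0 = false) → staN (eval G' z) d ch N (2 * c) = true →
          staN (eval G' z) d ch N 2 = true → AccAt (eval G z) d ch N) := by
  obtain ⟨G', hG', h3⟩ := (dlyN_tr hG.1 hs).exists_code
  have hd := hG.2
  have hsz : 2 * s + 2 + (s + 10) ≤ 100 * (s + 10) ^ 2 := by nlinarith [Nat.zero_le s]
  refine ⟨G', s, ⟨hG'.mono hsz, by nlinarith⟩, by nlinarith, fun z ch N => ?_⟩
  have h4 : ∀ M M', Agr (2 * s + 2) M M' →
      EvAgr (2 * s + 2) (eval G' z M) (dlyN (eval G z) s M') :=
    fun M M' hM q hq _ => h3 z M M' hM q hq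
  have h5 : ∀ n, EvAgr (2 * s + 2) (staN (eval G' z) d ch n) (staN (dlyN (eval G z) s) d ch n) :=
    staN_transfer (by omega) h4
  have h6 : ∀ n, rclN (eval G' z) d ch n = rclN (dlyN (eval G z) s) d ch n := fun n =>
    congrFun (rclN_transfer (by omega) h4) n
  constructor
  · intro hN
    have hinv := dlyN_inv hG hs z ch hN.2.1
    refine ⟨fun m hm => ?_, ?_, ?_⟩
    · obtain ⟨i1, i2, i3⟩ := hinv m hm
      refine ⟨by rw [h5 m 0 (by omega) rfl]; exact i3, ?_⟩
      rw [h6 m]
      unfold rclN ptr
      refine Finset.sum_congr rfl fun r hr => ?_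
      rw [Finset.mem_range] at hr
      rw [i1 (4 * r + 4) (by omega) (by omega)]
    · rw [h5 N (2 * s) (by omega) (by omega), (hinv N le_rfl).2.1]
      exact hN.1
    · rw [h5 N 2 (by omega) rfl, (hinv N le_rfl).1 2 (by omega) (by omega)]
      exact hN.2.2
  · intro h7 h8 h9
    have h10 : ∀ t ≤ N, ∀ t' < t, staN (eval G z) d ch t' 0 = false := by
      intro t
      induction t with
      | zero => intro _ t' ht'; omega
      | succ t ih =>
        intro ht t' ht'
        have ih' := ih (by omega)
        rcases Nat.lt_or_ge t' t with h11 | h11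
        · exact ih' t' h11
        · obtain rfl : t' = t := by omega
          have h12 := (dlyN_inv hG hs z ch ih' t' le_rfl).2.1
          have h13 := h7 (t' + 1) ht
          rw [h5 (t' + 1) 0 (by omega) rfl, staN_dlyN_zero hs, h12] at h13
          exact h13
    have hinv := dlyN_inv hG hs z ch (h10 N le_rfl) N le_rfl
    refine ⟨?_, h10 N le_rfl, ?_⟩
    · rw [← hinv.2.1, ← h5 N (2 * s) (by omega) (by omega)]
      exact h8
    · rw [← hinv.1 2 (by omega) (by omega), ← h5 N 2 (by omega) rfl]
      exact h9

end Pool.Agent.NUM
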