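import Pool.Agent.NUM.NGRead
import Pool.Agent.NUM.GStr

/-!
# Nondeterministic theorem H(γ): strings for the refuter; invariance
-/

set_option autoImplicit false

namespace Pool.Agent.NUM

theorem vk'_lt (p : GPar) (v : Inp) : vk' p v < 2 ^ p.q := num_lt _ _

theorem vi'_lt (p : GPar) (v : Inp) : vi' p v < 2 ^ p.w := num_lt _ _

/-- a string for the refuter -/
theorem exists_gvN {p : GPar} (hp : p.Ok) {k i e k' : ℕ} (hk : k < 2 ^ p.q) (hi : i < 2 ^ p.w)
    (he : e < 2 ^ p.w₁) (hk' : k' < 2 ^ p.q) (u : Inp) :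
    ∃ v : Inp, vk p v = k ∧ vi p v = i ∧ ve p v = e ∧ vk' p v = k' ∧ ∀ a, v (true :: a) = u a := by
  have hqσ := hp.qσ
  have hw₁σ := hp.w₁σ
  have hwσ := hp.wσ
  obtain ⟨s, hs⟩ : ∃ s : Inp, s = famS 2 fun f => famS p.σ fun r _ =>
    if f = 0 then k.testBit r else if f = 1 then i.testBit r else if f = 2 then e.testBit r
      else k'.testBit r := ⟨_, rfl⟩
  have eS : ∀ f < 2 ^ 2, ∀ r < 2 ^ p.σ, s (bits 2 f ++ bits p.σ r) =
      if f = 0 then k.testBit r else if f = 1 then i.testBit r else if f = 2 then e.testBit r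
        else k'.testBit r := by
    intro f hf r hr
    rw [hs, famS_apply hf, famS_apply' hr]
  refine ⟨pair s u, ?_, ?_, ?_, ?_, fun a => rfl⟩
  · refine num_eq_of_testBit hk fun r hr => ?_
    show s (bits 2 0 ++ bits p.σ r) = _
    rw [eS 0 (by norm_num) r (by omega), if_pos rfl]
  · refine num_eq_of_testBit hi fun r hr => ?_
    show s (bits 2 1 ++ bits p.σ r) = _
    rw [eS 1 (by norm_num) r (by omega), if_neg (by norm_num), if_pos rfl]
  · refine num_eq_of_testBit he fun r hr => ?_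
    show s (bits 2 2 ++ bits p.σ r) = _
    rw [eS 2 (by norm_num) r (by omega), if_neg (by norm_num), if_neg (by norm_num), if_pos rfl]
  · refine num_eq_of_testBit hk' fun r hr => ?_
    show s (bits 2 3 ++ bits p.σ r) = _
    rw [eS 3 (by norm_num) r (by omega), if_neg (by norm_num), if_neg (by norm_num),
      if_neg (by norm_num)]

theorem exists_gvN' {p : GPar} (hp : p.Ok) {k i k' i' : ℕ} (hk : k < 2 ^ p.q) (hi : i < 2 ^ p.w)
    (hk' : k' < 2 ^ p.q) (hi' : i' < 2 ^ p.w) (u : Inp) :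
    ∃ v : Inp, vk p v = k ∧ vi p v = i ∧ vk' p v = k' ∧ vi' p v = i' ∧
      ∀ a, v (true :: a) = u a := by
  have hqσ := hp.qσ
  have hwσ := hp.wσ
  obtain ⟨s, hs⟩ : ∃ s : Inp, s = famS 2 fun f => famS p.σ fun r _ =>
    if f = 0 then k.testBit r else if f = 1 then i.testBit r else if f = 2 then i'.testBit r
      else k'.testBit r := ⟨_, rfl⟩
  have eS : ∀ f < 2 ^ 2, ∀ r < 2 ^ p.σ, s (bits 2 f ++ bits p.σ r) =
      if f = 0 then k.testBit r else if f = 1 then i.testBit r else if f = 2 then i'.testBit r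
        else k'.testBit r := by
    intro f hf r hr
    rw [hs, famS_apply hf, famS_apply' hr]
  refine ⟨pair s u, ?_, ?_, ?_, ?_, fun a => rfl⟩
  · refine num_eq_of_testBit hk fun r hr => ?_
    show s (bits 2 0 ++ bits p.σ r) = _
    rw [eS 0 (by norm_num) r (by omega), if_pos rfl]
  · refine num_eq_of_testBit hi fun r hr => ?_
    show s (bits 2 1 ++ bits p.σ r) = _
    rw [eS 1 (by norm_num) r (by omega), if_neg (by norm_num), if_pos rfl]
  · refine num_eq_of_testBit hk' fun r hr => ?_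
    show s (bits 2 3 ++ bits p.σ r) = _
    rw [eS 3 (by norm_num) r (by omega), if_neg (by norm_num), if_neg (by norm_num),
      if_neg (by norm_num)]
  · refine num_eq_of_testBit hi' fun r hr => ?_
    show s (bits 2 2 ++ bits p.σ r) = _
    rw [eS 2 (by norm_num) r (by omega), if_neg (by norm_num), if_neg (by norm_num), if_pos rfl]

section

variable {A : Type} {w : ℕ} {L L' : Lst A}

theorem LEq.trLN {H : HMN A} {c : ℕ → Bool} {N lim : ℕ} (h : LEq w L' L)
    (ht : TrLN H c N L w lim) : TrLN H c N L' w lim := by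
  refine ⟨h.stat ht.stat, fun i hi hf => ?_, fun i hi hf hl u h1 h2 h3 h4 => ?_⟩
  · rw [(h i hi).2.2.2.2] at hf
    rw [(h i hi).1, (h i hi).2.1]
    exact ht.tru i hi hf
  · rw [(h i hi).2.2.2.2] at hf
    rw [(h i hi).2.2.1] at hl
    rw [h.pv hi.le] at h1
    rw [(h i hi).1] at h2
    exact h.avail hi (ht.clo i hi hf hl u h1 h2 h3 h4)

theorem LEq.runL {H : HMN A} {V : ℕ → A} {b : ℕ → Bool} (h : LEq w L' L)
    (ht : RunL H L w V b) : RunL H L' w V b := by
  refine ⟨ht.zero, fun i hi hf => ?_, fun i hi hf hl u h1 h2 => ?_, fun i hi hf hl u h1 h2 => ?_,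
    fun i hi hf hl u h1 h2 h3 h4 => ?_⟩
  · rw [(h i hi).2.2.2.2] at hf
    rw [(h i hi).1, (h i hi).2.1]
    exact ht.ent i hi hf
  · rw [(h i hi).2.2.2.2] at hf
    rw [(h i hi).2.2.1] at hl
    rw [h.pv hi.le] at h1
    rw [(h i hi).1] at h2
    exact ht.stp i hi hf hl u h1 h2
  · rw [(h i hi).2.2.2.2] at hf
    rw [(h i hi).2.2.1] at hl
    rw [h.pv hi.le] at h1
    rw [(h i hi).1] at h2
    exact ht.nhl i hi hf hl u h1 h2
  · rw [(h i hi).2.2.2.2] at hf
    rw [(h i hi).2.2.1] at hl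
    rw [h.pv hi.le] at h1
    rw [(h i hi).1] at h2
    exact h.avail hi (ht.ava i hi hf hl u h1 h2 h3 h4)

theorem contOK_congr {q w₁ : ℕ} {R R' : Lst A} {C C' : ℕ → Lst A} (hR : LEq w₁ R' R)
    (hC : ∀ k < 2 ^ q, LEq w (C' k) (C k)) {k i : ℕ} (hk : k < 2 ^ q) (hi : i < 2 ^ w)
    {e : ℕ} (h : ContOK w₁ R C k i e) : ContOK w₁ R' C' k i e := by
  intro h1 h2
  obtain ⟨e1, e2, e3, e4, e5⟩ := hC k hk i hi
  rw [e5] at h1
  rw [e3] at h2
  obtain ⟨g1, g2, g3, g4, g5⟩ := h h1 h2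
  obtain ⟨f1, f2, f3, f4, f5⟩ := hR e g1
  refine ⟨g1, f5.trans g2, f3.trans g3, ?_, ?_⟩
  · rw [hR.pv g1.le, (hC k hk).pv hi.le]
    exact g4
  · rw [e1, f1]
    exact g5

theorem disjOK_congr {q : ℕ} {C C' : ℕ → Lst A} (hC : ∀ k < 2 ^ q, LEq w (C' k) (C k))
    {k i k' i' : ℕ} (hk : k < 2 ^ q) (hi : i < 2 ^ w) (hk' : k' < 2 ^ q) (hi' : i' < 2 ^ w)
    (h : DisjOK C k i k' i') : DisjOK C' k i k' i' := by
  intro h1 h2 h3 h4
  obtain ⟨e1, e2, e3, e4, e5⟩ := hC k hk i hi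
  obtain ⟨f1, f2, f3, f4, f5⟩ := hC k' hk' i' hi'
  rw [e5] at h1
  rw [e3] at h2
  rw [f5] at h3
  rw [f3] at h4
  rw [e1, f1, (hC k hk).pv hi.le, (hC k' hk').pv hi'.le]
  exact h h1 h2 h3 h4

end

end Pool.Agent.NUM
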