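import Pool.Agent.NUM.NGRead
import Pool.Agent.NUM.GView

/-!
# Nondeterministic theorem H(γ): the program of the refuter (virtual input and guard)
-/

set_option autoImplicit false

namespace Pool.Agent.NUM

open Filter

/-! ## truncated strings -/

theorem vk'_trc {p : GPar} {m : ℕ} (hm : vLen p ≤ m) (v : Inp) : vk' p (trc m v) = vk' p v := by
  refine num_congr fun r _ => ?_
  show trc m v _ = _
  rw [trc, if_pos]
  simp only [List.length_cons, List.length_append, length_bits]
  unfold vLen at hm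
  omega

theorem vi'_trc {p : GPar} {m : ℕ} (hm : vLen p ≤ m) (v : Inp) : vi' p (trc m v) = vi' p v := by
  refine num_congr fun r _ => ?_
  show trc m v _ = _
  rw [trc, if_pos]
  simp only [List.length_cons, List.length_append, length_bits]
  unfold vLen at hm
  omega

theorem nStep_trcV {p : GPar} {m : ℕ} (hm : vLen p ≤ m) (l y v : Inp) :
    NStep p l y (trc m v) ↔ NStep p l y v := by
  unfold NStep NCom
  rw [vk_trc hm, vi_trc hm, ve_trc hm, vk'_trc hm, vi'_trc hm]

theorem nTop_trcV {p : GPar} {T m : ℕ} (hm : vLen p ≤ m) (y v : Inp) :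
    NTop p T y (trc m v) ↔ NTop p T y v := by
  unfold NTop NCom
  rw [vk_trc hm, vi_trc hm, ve_trc hm, vk'_trc hm, vi'_trc hm]

/-- **the refuter in the step** -/
theorem refuteN_step (hcode : NCodeOK) {T : Type} {π : Pres T} (p : ℕ → GPar)
    (hp : ∀ L, (p L).Ok) (hX : SubExp fun L => (p L).X) {β : ℕ → ℕ} {u e : ℝ} (hβ : Lin u β)
    {A : (T × Inp) × Inp → Prop} (he : 0 ≤ e)
    (hA : InH ((π.ext fun L => hLen (p L).w (p L).σ).ext β) A e) :
    InH (((π.ext fun L => hLen (p L).w₁ (p L).σ).ext fun L => gLen (p L)).ext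
      fun L => max (vLen (p L)) (β L + 1))
      (fun x => ¬ NStep (p (π.idx x.1.1.1)) x.1.1.2 x.1.2 x.2 ∨
        A ((x.1.1.1, gRec (p (π.idx x.1.1.1)) x.1.2 (vk (p (π.idx x.1.1.1)) x.2)),
          fun a => x.2 (true :: a))) e := by
  have _ := hβ
  choose f hf hfs using fun L => (hcode (p L) (hp L) 0 (by positivity)).1
  have h1 : InH (((π.ext fun L => hLen (p L).w₁ (p L).σ).ext fun L => gLen (p L)).ext
      fun L => max (vLen (p L)) (β L + 1))
      (fun x => A ((x.1.1.1, gRec (p (π.idx x.1.1.1)) x.1.2 (vk (p (π.idx x.1.1.1)) x.2)),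
          fun a => x.2 (true :: a))) e := by
    refine InH.virt hA
      (f := fun x : ((T × Inp) × Inp) × Inp => ((x.1.1.1, gRec (p (π.idx x.1.1.1)) x.1.2 (vk (p (π.idx x.1.1.1)) x.2)),
          fun a => x.2 (true :: a))) (fun _ => rfl)
      (fun L z => pair (pair (fun a => z ([false, false, false] ++ a))
          (trc (hLen (p L).w (p L).σ) fun a =>
            z (([false, true] ++ [true, false]) ++ ((List.range (p L).q).map (fun r =>
              z ([true] ++ (false :: (bits 2 0 ++ bits (p L).σ r)))) ++ a))))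
        (trc (β L) fun a => z (([true] ++ [true]) ++ a)))
      (LocF.pair (LocF.pair (LocF.shift [false, false, false] LocF.id)
        (locF_gRec p hX [false, true] [true]))
        (LocF.trc (LocF.shift ([true] ++ [true]) LocF.id) β)) ⟨0, fun x _ => ?_⟩
    show pair (pair (π.inp x.1.1.1) (trc _ _)) (trc _ _) = _
    set z : Inp := (((π.ext fun L => hLen (p L).w₁ (p L).σ).ext fun L => gLen (p L)).ext
      fun L => max (vLen (p L)) (β L + 1)).inp x with hz
    have hy : ∀ a, z ([false, true] ++ a) = trc (gLen (p (π.idx x.1.1.1))) x.1.2 a := fun a => rfl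
    have hv : ∀ a, z ([true] ++ a) =
      trc (max (vLen (p (π.idx x.1.1.1))) (β (π.idx x.1.1.1) + 1)) x.2 a := fun a => rfl
    have e1 := gRec_eq (p := p (π.idx x.1.1.1)) (le_max_left _ _) hy hv
    have e2 := vRest_eq (β := β (π.idx x.1.1.1)) (le_max_right _ _) hv
    exact (congrArg₂ pair (congrArg₂ pair rfl e1) e2).symm
  refine (InG.congr (h1.guard he (hX.pow _) hf) fun x => ?_)
  refine or_congr ?_ Iff.rfl
  have h2 := hfs (π.idx x.1.1.1) (π.inp x.1.1.1) x.1.1.2 x.1.2
    (trc (max (vLen (p (π.idx x.1.1.1))) (β (π.idx x.1.1.1) + 1)) x.2)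
  rw [nStep_trcV (le_max_left _ _)] at h2
  rw [← h2, Bool.not_eq_true]
  rfl

/-- **the refuter at the top** -/
theorem refuteN_top (hcode : NCodeOK) {T : Type} {π : Pres T} (p : ℕ → GPar)
    (hp : ∀ L, (p L).Ok) (hX : SubExp fun L => (p L).X) (t : ℕ → ℕ) (ht : ∀ L, t L < 2 ^ (p L).b)
    {β : ℕ → ℕ} {u e : ℝ} (hβ : Lin u β)
    {A : (T × Inp) × Inp → Prop} (he : 0 ≤ e)
    (hA : InH ((π.ext fun L => hLen (p L).w (p L).σ).ext β) A e) :
    InH ((π.ext fun L => gLen (p L)).ext fun L => max (vLen (p L)) (β L + 1))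
      (fun x => ¬ NTop (p (π.idx x.1.1)) (t (π.idx x.1.1)) x.1.2 x.2 ∨
        A ((x.1.1, gRec (p (π.idx x.1.1)) x.1.2 (vk (p (π.idx x.1.1)) x.2)),
          fun a => x.2 (true :: a))) e := by
  have _ := hβ
  choose f hf hfs using fun L => (hcode (p L) (hp L) (t L) (ht L)).2
  have h1 : InH ((π.ext fun L => gLen (p L)).ext fun L => max (vLen (p L)) (β L + 1))
      (fun x => A ((x.1.1, gRec (p (π.idx x.1.1)) x.1.2 (vk (p (π.idx x.1.1)) x.2)),
          fun a => x.2 (true :: a))) e := by
    refine InH.virt hA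
      (f := fun x : (T × Inp) × Inp => ((x.1.1, gRec (p (π.idx x.1.1)) x.1.2 (vk (p (π.idx x.1.1)) x.2)),
          fun a => x.2 (true :: a))) (fun _ => rfl)
      (fun L z => pair (pair (fun a => z ([false, false] ++ a))
          (trc (hLen (p L).w (p L).σ) fun a =>
            z (([false, true] ++ [true, false]) ++ ((List.range (p L).q).map (fun r =>
              z ([true] ++ (false :: (bits 2 0 ++ bits (p L).σ r)))) ++ a))))
        (trc (β L) fun a => z (([true] ++ [true]) ++ a)))
      (LocF.pair (LocF.pair (LocF.shift [false, false] LocF.id)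
        (locF_gRec p hX [false, true] [true]))
        (LocF.trc (LocF.shift ([true] ++ [true]) LocF.id) β)) ⟨0, fun x _ => ?_⟩
    show pair (pair (π.inp x.1.1) (trc _ _)) (trc _ _) = _
    set z : Inp := ((π.ext fun L => gLen (p L)).ext
      fun L => max (vLen (p L)) (β L + 1)).inp x with hz
    have hy : ∀ a, z ([false, true] ++ a) = trc (gLen (p (π.idx x.1.1))) x.1.2 a := fun a => rfl
    have hv : ∀ a, z ([true] ++ a) =
      trc (max (vLen (p (π.idx x.1.1))) (β (π.idx x.1.1) + 1)) x.2 a := fun a => rfl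
    have e1 := gRec_eq (p := p (π.idx x.1.1)) (le_max_left _ _) hy hv
    have e2 := vRest_eq (β := β (π.idx x.1.1)) (le_max_right _ _) hv
    exact (congrArg₂ pair (congrArg₂ pair rfl e1) e2).symm
  refine (InG.congr (h1.guard he (hX.pow _) hf) fun x => ?_)
  refine or_congr ?_ Iff.rfl
  have h2 := hfs (π.idx x.1.1) (π.inp x.1.1) x.1.2
    (trc (max (vLen (p (π.idx x.1.1))) (β (π.idx x.1.1) + 1)) x.2)
  rw [nTop_trcV (le_max_left _ _)] at h2
  rw [← h2, Bool.not_eq_true]
  rfl

end Pool.Agent.NUM
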