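import Pool.Agent.NUM.NGStep
import Pool.Agent.NUM.NGDelay
import Pool.Agent.NUM.NGBase
import Pool.Agent.NUM.NGStr
import Pool.Agent.NUM.NGView
import Pool.Agent.NUM.NGCode
import Pool.Agent.NUM.GPar1
import Pool.Agent.NUM.GPar2
import Pool.Agent.NUM.NGCls

/-!
# Nondeterministic theorem H(γ): the families of list problems
-/

set_option autoImplicit false

namespace Pool.Agent.NUM

/-- no accepting computation has length `0` -/
theorem AccAt.pos' {f : Mem → Mem} {d N : ℕ} {c : ℕ → Bool} (h : AccAt f d c N) : 0 < N := by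
  rcases Nat.eq_zero_or_pos N with h0 | h0
  · subst h0
    have := h.1
    exact absurd this (by show ¬ (zeroMem 0 = true); unfold zeroMem; simp)
  · exact h0

/-- accepting computations of the delayed program -/
theorem delRunN_of {S : GSeq} {G G' : List Ins} {z : Inp} {L N : ℕ} {ch : ℕ → Bool}
    (hG' : HSz (100 * (S.s L + 10) ^ 2) (S.d L) G')
    (hdel : (∀ m ≤ N, staN (eval G' z) (S.d L) ch m 0 = false ∧
        rclN (eval G' z) (S.d L) ch m = rclN (eval G z) (S.d L) ch m) ∧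
      staN (eval G' z) (S.d L) ch N (2 * S.c L) = true ∧ staN (eval G' z) (S.d L) ch N 2 = true)
    (hc : 2 * S.c L + 1 ≤ 100 * (S.s L + 10) ^ 2)
    (hN : AccAt (eval G z) (S.d L) ch N) (hNt : N ≤ S.t L)
    (hsep : HSep N (rclN (eval G z) (S.d L) ch) S.γ (S.k L)) :
    DelRunN S G' z L ch N := by
  have hh : 100 * (S.s L + 10) ^ 2 ≤ 2 * S.h L := by
    show _ ≤ 2 * (100 * (S.s L + 10) ^ 2 + 2)
    omega
  have hh1 : 1 < S.h L := by
    show 1 < 100 * (S.s L + 10) ^ 2 + 2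
    omega
  have hd : 4 * S.d L < 2 * S.h L := lt_of_lt_of_le hG'.2 hh
  have hf := eval_evAgr hG'.1 hh z
  have hch : S.c L < S.h L := by
    show S.c L < 100 * (S.s L + 10) ^ 2 + 2
    omega
  refine ⟨hN.pos', hNt, fun m hm => ?_, ?_, ?_, ?_⟩
  · rw [finHMN_U hd hf]
    exact (embM_resM (staN (eval G' z) (S.d L) ch m) 0 (show 0 < 2 * S.h L by omega) rfl).trans
      (hdel.1 m hm).1
  · rw [finHMN_U hd hf]
    unfold gfl
    rw [dif_pos (show (S.p 0 0 L).c < (S.p 0 0 L).h from hch)]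
    exact hdel.2.1
  · rw [finHMN_U hd hf]
    unfold gacc
    rw [dif_pos (show 1 < (S.p 0 0 L).h from hh1)]
    exact hdel.2.2
  · refine hsep.congr fun t ht => ?_
    rw [finHMN_rcl hd hf]
    exact (hdel.1 t ht.le).2.symm

/-- soundness of the delayed program -/
theorem accAt_of_del {S : GSeq} {G G' : List Ins} {z : Inp} {L N : ℕ} {ch : ℕ → Bool}
    (hG' : HSz (100 * (S.s L + 10) ^ 2) (S.d L) G')
    (hdel : (∀ m ≤ N, staN (eval G' z) (S.d L) ch m 0 = false) →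
      staN (eval G' z) (S.d L) ch N (2 * S.c L) = true → staN (eval G' z) (S.d L) ch N 2 = true →
      AccAt (eval G z) (S.d L) ch N)
    (hc : 2 * S.c L + 1 ≤ 100 * (S.s L + 10) ^ 2)
    (h1 : ∀ m ≤ N, (ngH S G' z L).hlt ((ngH S G' z L).U ch m) = false)
    (h2 : gfl (S.p 0 0 L) ((ngH S G' z L).U ch N) = true)
    (h3 : gacc (S.p 0 0 L) ((ngH S G' z L).U ch N) = true) :
    AccAt (eval G z) (S.d L) ch N := by
  have hh : 100 * (S.s L + 10) ^ 2 ≤ 2 * S.h L := by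
    show _ ≤ 2 * (100 * (S.s L + 10) ^ 2 + 2)
    omega
  have hh1 : 1 < S.h L := by
    show 1 < 100 * (S.s L + 10) ^ 2 + 2
    omega
  have hd : 4 * S.d L < 2 * S.h L := lt_of_lt_of_le hG'.2 hh
  have hf := eval_evAgr hG'.1 hh z
  have hch : S.c L < S.h L := by
    show S.c L < 100 * (S.s L + 10) ^ 2 + 2
    omega
  refine hdel (fun m hm => ?_) ?_ ?_
  · have h4 := h1 m hm
    rw [finHMN_U hd hf] at h4
    exact (embM_resM (staN (eval G' z) (S.d L) ch m) 0 (show 0 < 2 * S.h L by omega)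
      rfl).symm.trans h4
  · rw [finHMN_U hd hf] at h2
    unfold gfl at h2
    rw [dif_pos (show (S.p 0 0 L).c < (S.p 0 0 L).h from hch)] at h2
    exact h2
  · rw [finHMN_U hd hf] at h3
    unfold gacc at h3
    rw [dif_pos (show 1 < (S.p 0 0 L).h from hh1)] at h3
    exact h3

/-- **The family of list problems**, nondeterministic version. -/
theorem famN_of_clsGN (hcode : HCodeRK) {γ : ℝ} (hγ : 0 ≤ γ) (hγ1 : γ < 1) {T : Type} {π : Pres T}
    {P : T → Prop} {e₀ : ℝ} (he₀ : 0 ≤ e₀) (h : ClsGN γ T π P e₀) :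
    ∃ (w : ℝ → ℕ → ℕ) (Yes NReal : ℝ → T × Inp → Prop), IsFamN γ π P e₀ w Yes NReal := by
  obtain ⟨k, hk, G, s₀, t, d, L₀, hs₀, ht, hG₀, hrun⟩ := h
  obtain ⟨s, hsdef⟩ : ∃ s : ℕ → ℕ, s = fun L => s₀ L + 3 := ⟨_, rfl⟩
  have hsL : ∀ L, s L = s₀ L + 3 := fun L => by rw [hsdef]
  have hs : SubExp s := by
    rw [hsdef]
    exact (ex_zero_iff.1 hs₀).add (SubExp.const 3)
  have hG : ∀ L, HSz (s L) (d L) (G L) := fun L => by
    rw [hsL]
    exact ⟨(hG₀ L).1.mono (Nat.le_add_right _ _), lt_of_lt_of_le (hG₀ L).2 (Nat.le_add_right _ _)⟩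
  have hs3 : ∀ L, 3 ≤ s L := fun L => by rw [hsL]; omega
  choose G' c hG' hc hdel using fun L => exists_delayN (hG L) (hs3 L)
  obtain ⟨S, hSdef⟩ : ∃ S : GSeq, S = ⟨γ, e₀, s, t, d, k, c⟩ := ⟨_, rfl⟩
  have hSγ : S.γ = γ := by rw [hSdef]
  have hSe : S.e₀ = e₀ := by rw [hSdef]
  have hSs : S.s = s := by rw [hSdef]
  have hSt : S.t = t := by rw [hSdef]
  have hSd : S.d = d := by rw [hSdef]
  have hSk : S.k = k := by rw [hSdef]
  have hSc : S.c = c := by rw [hSdef]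
  have hS : S.Ok := by
    refine ⟨by rw [hSγ]; exact hγ, by rw [hSγ]; exact hγ1, by rw [hSe]; exact he₀, ?_, ?_, ?_, ?_, ?_⟩
    · rw [hSs]; exact ex_zero_iff.2 hs
    · rw [hSe, hSt]; exact ht
    · rw [hSk]; exact hk
    · intro L; rw [hSd, hSs]; exact (hG L).2
    · intro L; rw [hSc, hSs]; exact hc L
  have hG'S : ∀ L, HSz (100 * (S.s L + 10) ^ 2) (S.d L) (G' L) := fun L => by
    rw [hSs, hSd]; exact hG' L
  have hcS : ∀ L, 2 * S.c L + 1 ≤ 100 * (S.s L + 10) ^ 2 := fun L => by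
    rw [hSc, hSs]; exact hc L
  -- the computations
  have hD : ∀ τ, L₀ ≤ π.idx τ → P τ → ∃ ch N, DelRunN S (G' (π.idx τ)) (π.inp τ) (π.idx τ) ch N := by
    intro τ hτ hP
    obtain ⟨ch, N, hNt, hN, hsep⟩ := (hrun τ hτ).1 hP
    have hdel' := (hdel (π.idx τ) (π.inp τ) ch N).1 hN
    exact ⟨ch, N, delRunN_of (S := S) (G := G (π.idx τ)) (hG'S _)
      (by rw [hSd, hSc]; exact ⟨hdel'.1, hdel'.2.1, hdel'.2.2⟩) (hcS _) (by rw [hSd]; exact hN)
      (by rw [hSt]; exact hNt) (by rw [hSd, hSγ, hSk]; exact hsep)⟩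
  have hD' : ∀ τ, L₀ ≤ π.idx τ → ¬ P τ → ∀ (ch : ℕ → Bool) (N : ℕ), 0 < N → N ≤ S.t (π.idx τ) →
      (∀ m ≤ N, (ngH S (G' (π.idx τ)) (π.inp τ) (π.idx τ)).hlt
        ((ngH S (G' (π.idx τ)) (π.inp τ) (π.idx τ)).U ch m) = false) →
      gfl (S.p 0 0 (π.idx τ)) ((ngH S (G' (π.idx τ)) (π.inp τ) (π.idx τ)).U ch N) = true →
      ¬ gacc (S.p 0 0 (π.idx τ)) ((ngH S (G' (π.idx τ)) (π.inp τ) (π.idx τ)).U ch N) = true := by
    intro τ hτ hP ch N _ hNt h1 h2 h3
    refine hP ((hrun τ hτ).2 ch N (by rw [← hSt]; exact hNt) ?_)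
    have h4 := accAt_of_del (S := S) (G := G (π.idx τ)) (hG'S _)
      (by rw [hSd, hSc]; exact (hdel (π.idx τ) (π.inp τ) ch N).2) (hcS _) h1 h2 h3
    rwa [hSd] at h4
  -- the problems
  obtain ⟨Yes, hYes⟩ : ∃ Yes : ℝ → T × Inp → Prop, Yes = fun r p =>
      ∃ ch N, DelRunN S (G' (π.idx p.1)) (π.inp p.1) (π.idx p.1) ch N ∧
        TrSN S (G' (π.idx p.1)) (π.inp p.1) (π.idx p.1) ch N r p.2 := ⟨_, rfl⟩
  obtain ⟨NReal, hNReal⟩ : ∃ NReal : ℝ → T × Inp → Prop, NReal = fun r p =>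
      NRealS S (G' (π.idx p.1)) (π.inp p.1) (π.idx p.1) r p.2 := ⟨_, rfl⟩
  have hYes' : ∀ (r : ℝ) (p : T × Inp), Yes r p ↔
      ∃ ch N, DelRunN S (G' (π.idx p.1)) (π.inp p.1) (π.idx p.1) ch N ∧
        TrSN S (G' (π.idx p.1)) (π.inp p.1) (π.idx p.1) ch N r p.2 := fun r p => by rw [hYes]
  have hNReal' : ∀ (r : ℝ) (p : T × Inp), NReal r p ↔
      NRealS S (G' (π.idx p.1)) (π.inp p.1) (π.idx p.1) r p.2 := fun r p => by rw [hNReal]
  have hσ0 : Lin 0 S.σ := hS.grow.2.2.2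
  have hvLen : ∀ e r : ℝ, Lin 0 (fun L => vLen (S.p e r L)) := by
    intro e r
    have h1 := hσ0.add (Lin.const 0 le_rfl 3)
    rw [add_zero] at h1
    exact h1
  have hβ2 : ∀ (e r u : ℝ) (β : ℕ → ℕ), 0 ≤ u → Lin u β →
      Lin u (fun L => max (vLen (S.p e r L)) (β L + 1)) := by
    intro e r u β hu hβ
    have h1 := (hvLen e r).max (hβ.add (Lin.const 0 le_rfl 1))
    rw [add_zero, max_eq_right hu] at h1
    exact h1
  refine ⟨fun r L => hLen (S.w r L) (S.σ L), Yes, NReal, ⟨?_, ?_, ?_, ?_⟩⟩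
  · -- lengths
    intro r hr _
    have h1 := (hS.grow_w hr).add ((Lin.const 0 le_rfl 3).add hσ0)
    rw [add_zero, add_zero, hSγ] at h1
    exact h1
  · -- base
    intro r hr hre
    have hsz : ∀ L, Sz (2 * S.h L) (G' L) := by
      intro L
      refine (hG' L).1.mono ?_
      show _ ≤ 2 * (100 * (S.s L + 10) ^ 2 + 2)
      rw [hSs]
      omega
    obtain ⟨β, B, hβ, hB, hB'⟩ := exists_baseN hcode hS (π := π) G' hsz hr (by rw [hSe]; exact hre)
    refine ⟨β, B, hβ, hB, 0, fun p _ => ?_⟩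
    rw [hYes' r p, hNReal' r p]
    obtain ⟨h1, h2⟩ := hB' p
    exact ⟨fun ⟨ch, N, h3, h4⟩ => h1 ch N h3 h4, h2⟩
  · -- step
    intro r e hr hre he u e' hu he' hcert
    obtain ⟨β, B, hβ, hB, L₁, hB'⟩ := hcert
    have heS : e ≤ S.e₀ := by rw [hSe]; exact he
    refine ⟨fun L => gLen (S.p e r L), fun L => max (vLen (S.p e r L)) (β L + 1), _, ?_,
      hβ2 e r u β hu hβ,
      refuteN_step nCodeOK (fun L => S.p e r L) (fun L => hS.par hre heS L)
        (hS.grow_X hr hre heS) hβ he' hB, max L₀ L₁, ?_⟩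
    · have h1 := hS.grow_len hr hre
      rwa [hSγ] at h1
    · intro p hp
      have hp' : max L₀ L₁ ≤ π.idx p.1 := hp
      have hp1 : L₁ ≤ π.idx p.1 := le_trans (le_max_right _ _) hp'
      constructor
      · intro hyes
        obtain ⟨ch, N, hDN, htr⟩ := (hYes' e p).1 hyes
        obtain ⟨y, hy⟩ := stepN_yes hS hr hre heS hDN htr
        refine ⟨y, fun v => ?_⟩
        obtain ⟨h1, h2⟩ := hy v
        rintro (h3 | h3)
        · exact h3 h1
        · exact (hB' (p.1, gRec (S.p e r (π.idx p.1)) y (vk (S.p e r (π.idx p.1)) v)) hp1).2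
            ((hYes' r (p.1, gRec (S.p e r (π.idx p.1)) y (vk (S.p e r (π.idx p.1)) v))).2
              ⟨ch, N, hDN, h2⟩) _ h3
      · intro hno y
        rcases stepN_no hS hr hre heS ((hNReal' e p).1 hno) y with ⟨v, hv⟩ | ⟨j, hj, hj'⟩
        · exact ⟨v, Or.inl hv⟩
        · obtain ⟨y', hy'⟩ := (hB' (p.1, gRec (S.p e r (π.idx p.1)) y j) hp1).1
            ((hNReal' r (p.1, gRec (S.p e r (π.idx p.1)) y j)).2 hj')
          obtain ⟨v, hv1, -, -, -, hv2⟩ := exists_gvN (hS.par hre heS (π.idx p.1)) (k := j) hj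
            (i := 0) (by positivity) (e := 0) (by positivity) (k' := 0) (by positivity) y'
          refine ⟨v, Or.inr ?_⟩
          show B ((p.1, gRec (S.p e r (π.idx p.1)) y (vk (S.p e r (π.idx p.1)) v)),
            fun a => v (true :: a))
          rw [hv1, show (fun a => v (true :: a)) = y' from funext hv2]
          exact hy'
  · -- top
    intro r hr hre u e' hu he' hcert
    obtain ⟨β, B, hβ, hB, L₁, hB'⟩ := hcert
    have hreS : r ≤ S.e₀ := by rw [hSe]; exact hre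
    have htb : ∀ L, S.t L < 2 ^ (S.p S.e₀ r L).b := fun L => by
      have h1 := (hS.times (r := S.e₀) le_rfl (L := L) (N := S.t L) le_rfl).1
      show S.t L < 2 ^ S.b L
      refine lt_of_le_of_lt ?_ h1
      rw [Nat.add_assoc]
      exact Nat.le_add_right _ _
    refine ⟨fun L => gLen (S.p S.e₀ r L), fun L => max (vLen (S.p S.e₀ r L)) (β L + 1), _, ?_,
      hβ2 S.e₀ r u β hu hβ,
      refuteN_top nCodeOK (fun L => S.p S.e₀ r L) (fun L => hS.par hreS le_rfl L)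
        (hS.grow_X hr hreS le_rfl) S.t htb hβ he' hB, max L₀ L₁, ?_⟩
    · have h1 := hS.grow_len hr hreS
      have e1 : S.e₀ - (1 - S.γ) * r = e₀ - (1 - γ) * r := by rw [hSγ, hSe]
      rwa [e1] at h1
    · intro τ hτ
      have hτ0 : L₀ ≤ π.idx τ := le_trans (le_max_left _ _) hτ
      have hp1 : L₁ ≤ π.idx τ := le_trans (le_max_right _ _) hτ
      constructor
      · intro hP
        obtain ⟨ch, N, hDN⟩ := hD τ hτ0 hP
        obtain ⟨y, hy⟩ := topN_yes hS hr hreS hDN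
        refine ⟨y, fun v => ?_⟩
        obtain ⟨h1, h2⟩ := hy v
        rintro (h3 | h3)
        · exact h3 h1
        · exact (hB' (τ, gRec (S.p S.e₀ r (π.idx τ)) y (vk (S.p S.e₀ r (π.idx τ)) v)) hp1).2
            ((hYes' r (τ, gRec (S.p S.e₀ r (π.idx τ)) y (vk (S.p S.e₀ r (π.idx τ)) v))).2
              ⟨ch, N, hDN, h2⟩) _ h3
      · intro hP y
        rcases topN_no hS hr hreS (hD' τ hτ0 hP) y with ⟨v, hv⟩ | ⟨j, hj, hj'⟩
        · exact ⟨v, Or.inl hv⟩
        · obtain ⟨y', hy'⟩ := (hB' (τ, gRec (S.p S.e₀ r (π.idx τ)) y j) hp1).1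
            ((hNReal' r (τ, gRec (S.p S.e₀ r (π.idx τ)) y j)).2 hj')
          obtain ⟨v, hv1, -, -, -, hv2⟩ := exists_gvN (hS.par hreS le_rfl (π.idx τ)) (k := j) hj
            (i := 0) (by positivity) (e := 0) (by positivity) (k' := 0) (by positivity) y'
          refine ⟨v, Or.inr ?_⟩
          show B ((τ, gRec (S.p S.e₀ r (π.idx τ)) y (vk (S.p S.e₀ r (π.idx τ)) v)),
            fun a => v (true :: a))
          rw [hv1, show (fun a => v (true :: a)) = y' from funext hv2]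
          exact hy'

end Pool.Agent.NUM
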