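import Pool.Agent.NUM.HNCore
import Pool.Agent.NUM.HSep

/-!
# Accepting with computation graphs which have hereditary separators
-/

namespace Pool.Agent.NUM

/-- The nondeterministic program `G`, with `d` pointer cells, accepts exactly the inputs with `P`
among the inputs of support `B`, within `T` passes, and each of these inputs has an accepting
computation in which every set `W` of states has a balanced separator of at most `K * |W| ^ γ`
states. -/
def SepAccepts (G : List Ins) (d B T : ℕ) (γ : ℝ) (K : ℕ) (P : Inp → Prop) : Prop :=
  ∀ z, Supp B z →
    (P z → ∃ c, ∃ N ≤ T, AccAt (eval G z) d c N ∧ HSep N (rclN (eval G z) d c) γ K) ∧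
    ∀ c, ∀ N ≤ T, AccAt (eval G z) d c N → P z

end Pool.Agent.NUM
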