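import Pool.Agent.NUM.NGAbs
import Pool.Agent.NUM.NGCls
import Pool.Agent.NUM.NGStmt
import Pool.Agent.NUM.GTrade
import Pool.Agent.NUM.HNWin
import Pool.Agent.NUM.HNGuess

/-!
# Nondeterministic theorem H(γ): the fields of `TradeNG` from the pivot, the final statement
-/

set_option autoImplicit false

namespace Pool.Agent.NUM

open Filter S3

/-- the field `fam` of `TradeNG` for the class `ClsGN γ` -/
def FamGN (γ : ℝ) : Prop :=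
  ∀ {T : Type} {π : Pres T} {P : T → Prop} {e : ℝ}, 0 ≤ e → ClsGN γ T π P e →
    ∃ (w : ℝ → ℕ → ℕ) (Yes NReal : ℝ → T × Inp → Prop), IsFamN γ π P e w Yes NReal

theorem InVNW.toG {γ : ℝ} {dl : ℕ → ℝ} (hdl0 : ∀ L, 0 ≤ dl L)
    (hdl : ∀ δ : ℝ, 0 < δ → ∀ᶠ L in atTop, dl L ≤ δ) {c : ℝ} {T : Type} {π : Pres T}
    {P : T → Prop} {E : ℝ} (hE : 0 ≤ E) (h : InVNW (fun L => QG γ (dl L)) c π P E) :
    ClsGN γ T π P (c * E) := by
  obtain ⟨m, hm, _, h⟩ := h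
  exact ⟨_, ex_floor_dl hdl0 hdl hE hm, h⟩

/-- the conditions on the exponents -/
def NGCond (γ c : ℝ) : Prop :=
  c ^ 2 < 2 - γ ∨ (γ = 0 ∧ c ^ 3 < 4) ∨
    (c ^ 4 - c ^ 2 < (1 - γ) * (1 - γ + c) ∧ γ * (1 - γ + c) < 1)

/-- the hypothesis on unsatisfiability is refuted, if the field `fam` is given -/
theorem not_unsatGW_G {c γ : ℝ} (hfam : FamGN γ) (hc : 1 < c) (hγ : 0 ≤ γ) (hγ1 : γ < 1)
    (h : NGCond γ c) : ¬ UnsatGW (QG γ) c := by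
  intro H
  obtain ⟨S, dl, hS, hdl0, hdl, ⟨P⟩⟩ := exists_pivotHNW (by linarith) H
  refine not_TradeNG (I := S) (Cls := ClsGN γ) hc hγ hγ1 h ?_
  exact {
    mono := fun ⟨k, hk, h⟩ he => ⟨k, hk, h.mono he fun _ _ _ h => h⟩
    guess := fun _ he ⟨_, _, h⟩ => tradePN_guess he h
    slow := fun hπ hb hs h =>
      (hslowNW P hπ hb hs h).toG hdl0 hdl (le_trans (by linarith) (le_max_left _ _))
    mergeH := fun hs hβ hβ' h => tradePN_mergeH hs hβ hβ' h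
    fam := fun _ he h => hfam he h
    diag := fun a u e ha hue hea => by
      obtain ⟨T, π, D, h0, h1, h2, h3⟩ := hdiagNW hS P a u e ha hue hea
      exact ⟨T, π, D, h0, h1, h2.toG hdl0 hdl (Nat.cast_nonneg a), h3⟩ }

/-- the final statement from the negation of `UnsatGW` -/
theorem sepN_core {c c' γ : ℝ} (hcc : c ≤ c') (hnot : ¬ UnsatGW (QG γ) c') :
    ∃ (δ : ℝ) (A M₀ : ℕ), 0 < δ ∧ ∀ M : ℕ, M₀ ≤ M → ∃ m : ℕ, M ≤ m ∧ m ≤ A * M ∧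
      ∀ (G : List Ins) (d s T K : ℕ), HSz s d G →
      (s : ℝ) ≤ 2 ^ (δ * m) → (T : ℝ) ≤ 2 ^ (c * m) → (K : ℝ) ≤ 2 ^ (δ * m) →
        ¬ SepAccepts G d (satLen m) T γ K (fun z => ¬ SAT m z) := by
  unfold UnsatGW at hnot
  push Not at hnot
  obtain ⟨δ, hδ, A, M₀, h⟩ := hnot
  refine ⟨δ, A, M₀, hδ, fun M hM => ?_⟩
  obtain ⟨m, hm, hmA, h⟩ := h M hM
  refine ⟨m, hm, hmA, fun G d s T K hsz hs hT hK hD => ?_⟩
  have hT' : (T : ℝ) ≤ 2 ^ ((c' + δ) * m) := by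
    refine hT.trans (Real.rpow_le_rpow_of_exponent_le (by norm_num) ?_)
    have : (0 : ℝ) ≤ m := by positivity
    nlinarith
  obtain ⟨z, hz, h⟩ := h G d s T hsz hs hT'
  obtain ⟨h1, h2⟩ := hD z hz
  obtain ⟨ch, N, hN, hA, hsat⟩ := h fun hns => by
    obtain ⟨ch, N, hN, hA, hF⟩ := h1 hns
    exact ⟨ch, N, hN, hA, hF.mono (Nat.le_floor hK)⟩
  exact h2 ch N hN hA hsat

theorem NGCond.exists_larger {c γ : ℝ} (h : NGCond γ c) :
    ∃ ε : ℝ, 0 < ε ∧ NGCond γ (c + ε) := by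
  have key : ∀ f : ℝ → ℝ, Continuous f → f c < 0 → ∃ ε : ℝ, 0 < ε ∧ ∀ x, 0 ≤ x → x ≤ ε →
      f (c + x) < 0 := by
    intro f hf h0
    obtain ⟨ε, hε, hball⟩ := Metric.eventually_nhds_iff.mp
      (hf.continuousAt.eventually (gt_mem_nhds h0))
    refine ⟨ε / 2, by positivity, fun x hx hx' => hball ?_⟩
    rw [Real.dist_eq, add_sub_cancel_left, abs_of_nonneg hx]
    linarith
  rcases h with h | ⟨h0, h⟩ | ⟨h, h'⟩
  · obtain ⟨ε, hε, h1⟩ := key (fun x => x ^ 2 - (2 - γ)) (by fun_prop) (by linarith)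
    exact ⟨ε, hε, Or.inl (by linarith [h1 ε hε.le le_rfl])⟩
  · obtain ⟨ε, hε, h1⟩ := key (fun x => x ^ 3 - 4) (by fun_prop) (by linarith)
    exact ⟨ε, hε, Or.inr (Or.inl ⟨h0, by linarith [h1 ε hε.le le_rfl]⟩)⟩
  · obtain ⟨ε, hε, h1⟩ := key (fun x => x ^ 4 - x ^ 2 - (1 - γ) * (1 - γ + x)) (by fun_prop)
      (by linarith)
    obtain ⟨ε', hε', h2⟩ := key (fun x => γ * (1 - γ + x) - 1) (by fun_prop) (by linarith)
    refine ⟨min ε ε', lt_min hε hε', Or.inr (Or.inr ⟨?_, ?_⟩)⟩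
    · linarith [h1 (min ε ε') (lt_min hε hε').le (min_le_left _ _)]
    · linarith [h2 (min ε ε') (lt_min hε hε').le (min_le_right _ _)]

/-- **The nondeterministic theorem H(γ)**, if the field `fam` is given. -/
theorem unsat_sep_window {γ : ℝ} (hfam : FamGN γ) (hγ : 0 ≤ γ) (hγ1 : γ < 1) {c : ℝ} (hc : 1 ≤ c)
    (h : NGCond γ c) :
    ∃ (δ : ℝ) (A M₀ : ℕ), 0 < δ ∧ ∀ M : ℕ, M₀ ≤ M → ∃ m : ℕ, M ≤ m ∧ m ≤ A * M ∧
      ∀ (G : List Ins) (d s T K : ℕ), HSz s d G →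
      (s : ℝ) ≤ 2 ^ (δ * m) → (T : ℝ) ≤ 2 ^ (c * m) → (K : ℝ) ≤ 2 ^ (δ * m) →
        ¬ SepAccepts G d (satLen m) T γ K (fun z => ¬ SAT m z) := by
  obtain ⟨ε, hε, h1⟩ := h.exists_larger
  exact sepN_core (by linarith) (not_unsatGW_G hfam (by linarith) hγ hγ1 h1)

end Pool.Agent.NUM
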