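import Pool.Agent.NUM.NGFam
import Pool.Agent.NUM.NGTrade
import Pool.Agent.NUM.HCodeR

/-!
# Nondeterministic theorem H(γ): final statement
-/

set_option autoImplicit false

namespace Pool.Agent.NUM

/-- **The nondeterministic theorem H(γ).** -/
theorem unsat_sep_bound {γ c : ℝ} (h0 : 0 ≤ γ) (h1 : γ < 1) (h2 : 1 ≤ c)
    (h3 : c ^ 2 < 2 - γ ∨ (γ = 0 ∧ c ^ 3 < 4) ∨
      (c ^ 4 - c ^ 2 < (1 - γ) * (1 - γ + c) ∧ γ * (1 - γ + c) < 1)) :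
    ∃ (δ : ℝ) (A M₀ : ℕ), 0 < δ ∧ ∀ M : ℕ, M₀ ≤ M → ∃ m : ℕ, M ≤ m ∧ m ≤ A * M ∧
      ∀ (G : List Ins) (d s T K : ℕ), HSz s d G →
      (s : ℝ) ≤ 2 ^ (δ * m) → (T : ℝ) ≤ 2 ^ (c * m) → (K : ℝ) ≤ 2 ^ (δ * m) →
        ¬ SepAccepts G d (S3.satLen m) T γ K (fun z => ¬ S3.SAT m z) :=
  unsat_sep_window (fun he h => famN_of_clsGN hCodeRK h0 h1 he h) h0 h1 h2 h3

end Pool.Agent.NUM
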