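import Pool.Agent.NUM.NGList

/-!
# Composition of the runs along the children
-/

set_option autoImplicit false

namespace Pool.Agent.NUM

variable {A : Type}

/-- time `t` is in the own segment `i` of the list `k` -/
structure OwnT (C : ℕ → Lst A) (q w t k i : ℕ) : Prop where
  hk : k < 2 ^ q
  hi : i < 2 ^ w
  nf : (C k).fin i = false
  own : (C k).lb i = 1
  lt : (C k).pv i < t
  le : t ≤ (C k).tm i

theorem LStat.seg_eq {L : Lst A} {w lim : ℕ} (h : LStat L w lim) {i j t : ℕ} (hi : i < 2 ^ w)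
    (hj : j < 2 ^ w) (h1 : L.pv i < t) (h2 : t ≤ L.tm i) (h3 : L.pv j < t) (h4 : t ≤ L.tm j) :
    i = j := by
  rcases Nat.lt_trichotomy i j with h5 | h5 | h5
  · have := h.tm_le_pv h5 hj
    omega
  · exact h5
  · have := h.tm_le_pv h5 hi
    omega

/-- **Composition** of runs along the children. -/
theorem RunL.compose {H : HMN A} {R : Lst A} {C : ℕ → Lst A} {q w w₁ lim lim₁ : ℕ}
    (hR : LStat R w₁ lim₁) (hC : ∀ k < 2 ^ q, LStat (C k) w lim)
    (hp : ∀ k < 2 ^ q, ∀ i < 2 ^ w, ∃ x e k' i', PtrOK q w₁ w R C k i x e k' i')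
    (hd : ∀ e < 2 ^ w₁, ∃ k i, DirOK q w R C e k i)
    (hc : ∀ k < 2 ^ q, ∀ i < 2 ^ w, ∃ e, ContOK w₁ R C k i e)
    (hj : ∀ k < 2 ^ q, ∀ i < 2 ^ w, ∀ k' < 2 ^ q, ∀ i' < 2 ^ w, DisjOK C k i k' i')
    (hrun : ∀ k < 2 ^ q, ∃ V b, RunL H (C k) w V b) : ∃ V b, RunL H R w₁ V b := by
  classical
  have hrun' : ∀ k, ∃ V b, k < 2 ^ q → RunL H (C k) w V b := by
    intro k
    by_cases hk : k < 2 ^ q
    · obtain ⟨V, b, h⟩ := hrun k hk
      exact ⟨V, b, fun _ => h⟩
    · exact ⟨fun _ => H.a0, fun _ => false, fun h => absurd h hk⟩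
  choose Vk bk hV using hrun'
  -- the owner is unique
  have huniq : ∀ {t k i k' i' : ℕ}, OwnT C q w t k i → OwnT C q w t k' i' → k = k' := by
    intro t k i k' i' h h'
    rcases hj k h.hk i h.hi k' h'.hk i' h'.hi h.nf h.own h'.nf h'.own with h1 | h1 | h1
    · exact h1.1
    · have := h.le
      have := h'.lt
      omega
    · have := h'.le
      have := h.lt
      omega
  -- own entries
  have hownE : ∀ k < 2 ^ q, ∀ i < 2 ^ w, (C k).fin i = false → (C k).lb i = 1 →
      OwnT C q w ((C k).tm i) k i := fun k hk i hi hf hl =>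
    ⟨hk, hi, hf, hl, (hC k hk).srt i hi, le_rfl⟩
  -- own times are in own segments of the parent
  have hcont : ∀ {t k i : ℕ}, OwnT C q w t k i → ∃ p < 2 ^ w₁, R.fin p = false ∧ R.lb p = 1 ∧
      R.pv p < t ∧ t ≤ R.tm p := by
    intro t k i h
    obtain ⟨e, he⟩ := hc k h.hk i h.hi
    obtain ⟨h1, h2, h3, h4, h5⟩ := he h.nf h.own
    have := h.lt
    have := h.le
    exact ⟨e, h1, h2, h3, by omega, by omega⟩
  -- the time of an entry of a child is an own time or the time of an entry of the parent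
  have hent : ∀ k < 2 ^ q, ∀ i < 2 ^ w, (C k).fin i = false →
      (∃ k' i', OwnT C q w ((C k).tm i) k' i' ∧ (C k').tm i' = (C k).tm i ∧
        (C k').st i' = (C k).st i) ∨
      (∃ e < 2 ^ w₁, R.fin e = false ∧ R.tm e = (C k).tm i ∧ R.st e = (C k).st i) := by
    intro k hk i hi hf
    by_cases hl : (C k).lb i = 1
    · exact Or.inl ⟨k, i, hownE k hk i hi hf hl, rfl, rfl⟩
    · obtain ⟨x, e, k', i', hx⟩ := hp k hk i hi
      have h1 := hx hf hl
      by_cases hxt : x = true
      · rw [if_pos hxt] at h1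
        exact Or.inr ⟨e, h1.1, h1.2.1, h1.2.2.1, h1.2.2.2⟩
      · rw [if_neg hxt] at h1
        obtain ⟨h2, h3, h4, h5, h6, h7⟩ := h1
        refine Or.inl ⟨k', i', ?_, h6, h7⟩
        rw [← h6]
        exact hownE k' h2 i' h3 h4 h5
  -- coverage
  have hcov : ∀ p < 2 ^ w₁, R.fin p = false → R.lb p = 1 → ∀ t, R.pv p < t → t ≤ R.tm p →
      ∃ k i, OwnT C q w t k i := by
    intro p hpw hf hl
    have key : ∀ d t, t + d = R.tm p → R.pv p < t → ∃ k i, OwnT C q w t k i := by
      intro d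
      induction d with
      | zero =>
        intro t ht _
        obtain ⟨k, i, hki⟩ := hd p hpw
        obtain ⟨h1, h2, h3, h4, h5, h6⟩ := hki hf hl
        refine ⟨k, i, ?_⟩
        have h7 := hownE k h1 i h2 h3 h4
        rwa [h5, ← ht, Nat.add_zero] at h7
      | succ d ih =>
        intro t ht hpt
        obtain ⟨k, i, h⟩ := ih (t + 1) (by omega) (by omega)
        have h1 := h.lt
        have h2 := h.le
        rcases Nat.lt_or_ge ((C k).pv i) t with h3 | h3
        · exact ⟨k, i, h.hk, h.hi, h.nf, h.own, h3, by omega⟩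
        · have h4 : (C k).pv i = t := by omega
          obtain ⟨i', rfl⟩ : ∃ i', i = i' + 1 := by
            cases i with
            | zero =>
              have : (C k).pv 0 = 0 := rfl
              omega
            | succ i => exact ⟨i, rfl⟩
          have h5 : (C k).tm i' = t := h4
          have h6 := (hC k h.hk).nfin (Nat.le_succ i') h.hi h.nf
          have hi' : i' < 2 ^ w := by
            have := h.hi
            omega
          rcases hent k h.hk i' hi' h6 with ⟨k', i'', h7, -, -⟩ | ⟨e, h7, h8, h9, -⟩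
          · rw [h5] at h7
            exact ⟨k', i'', h7⟩
          · exfalso
            rw [h5] at h9
            rcases Nat.lt_or_ge e p with h10 | h10
            · have := hR.tm_le_pv h10 hpw
              omega
            · have := hR.mono_tm h10 h7
              omega
    intro t h1 h2
    exact key (R.tm p - t) t (by omega) h1
  -- the owner
  have how : ∀ t, ∃ k, ∀ k' i', OwnT C q w t k' i' → k' = k := by
    intro t
    by_cases h : ∃ k i, OwnT C q w t k i
    · obtain ⟨k, i, h⟩ := h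
      exact ⟨k, fun k' i' h' => huniq h' h⟩
    · exact ⟨0, fun k' i' h' => absurd ⟨k', i', h'⟩ h⟩
  choose ow how using how
  have hse : ∀ t, ∃ a : A, ∀ e < 2 ^ w₁, R.fin e = false → R.tm e = t → R.st e = a := by
    intro t
    by_cases h : ∃ e < 2 ^ w₁, R.fin e = false ∧ R.tm e = t
    · obtain ⟨e, h1, h2, h3⟩ := h
      refine ⟨R.st e, fun e' h1' h2' h3' => ?_⟩
      rcases Nat.lt_trichotomy e e' with h4 | h4 | h4
      · have := hR.tm_lt h4 h1'
        omega
      · rw [h4]
      · have := hR.tm_lt h4 h1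
        omega
    · exact ⟨H.a0, fun e h1 h2 h3 => absurd ⟨e, h1, h2, h3⟩ h⟩
  choose se hse using hse
  obtain ⟨V, hVdef⟩ : ∃ V : ℕ → A, V = fun t => if t = 0 then H.a0 else
    if ∃ k i, OwnT C q w t k i then Vk (ow t) t else se t := ⟨_, rfl⟩
  obtain ⟨b, hb⟩ : ∃ b : ℕ → Bool, b = fun t => bk (ow (t + 1)) t := ⟨_, rfl⟩
  have hV0 : V 0 = H.a0 := by rw [hVdef]; exact if_pos rfl
  -- claim 1
  have c1 : ∀ {t k i : ℕ}, OwnT C q w t k i → V t = Vk k t := by
    intro t k i h
    have h0 := h.lt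
    rw [hVdef]
    show (if t = 0 then H.a0 else if ∃ k i, OwnT C q w t k i then Vk (ow t) t else se t) = _
    rw [if_neg (by omega), if_pos ⟨k, i, h⟩, how t k i h]
  -- claim 2
  have c2 : ∀ p < 2 ^ w₁, R.fin p = false → V (R.tm p) = R.st p := by
    intro p hpw hf
    have h0 := hR.srt p hpw
    by_cases hl : R.lb p = 1
    · obtain ⟨k, i, hki⟩ := hd p hpw
      obtain ⟨h1, h2, h3, h4, h5, h6⟩ := hki hf hl
      have h7 := hownE k h1 i h2 h3 h4
      have h8 := (hV k h1).ent i h2 h3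
      rw [← h6, ← h8, ← h5]
      exact c1 h7
    · have h1 : ¬ ∃ k i, OwnT C q w (R.tm p) k i := by
        rintro ⟨k, i, h⟩
        obtain ⟨p', h2, h3, h4, h5, h6⟩ := hcont h
        have := hR.seg_eq h2 hpw h5 h6 h0 le_rfl
        subst this
        exact hl h4
      rw [hVdef]
      show (if R.tm p = 0 then H.a0 else if ∃ k i, OwnT C q w (R.tm p) k i then _ else
        se (R.tm p)) = _
      rw [if_neg (by omega), if_neg h1]
      exact (hse (R.tm p) p hpw hf rfl).symm
  -- claim 3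
  have c3 : ∀ k < 2 ^ q, ∀ i < 2 ^ w, (C k).fin i = false → V ((C k).tm i) = (C k).st i := by
    intro k hk i hi hf
    rcases hent k hk i hi hf with ⟨k', i', h1, h2, h3⟩ | ⟨e, h1, h2, h3, h4⟩
    · rw [c1 h1, ← h2, (hV k' h1.hk).ent i' h1.hi h1.nf, h3]
    · rw [← h3, c2 e h1 h2, h4]
  -- claim 4
  have c4 : ∀ {u k i : ℕ}, OwnT C q w (u + 1) k i → V u = Vk k u := by
    intro u k i h
    have h1 := h.lt
    have h2 := h.le
    rcases Nat.lt_or_ge ((C k).pv i) u with h3 | h3
    · exact c1 (i := i) ⟨h.hk, h.hi, h.nf, h.own, h3, by omega⟩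
    · have h4 : (C k).pv i = u := by omega
      cases i with
      | zero =>
        have h5 : u = 0 := by
          have : (C k).pv 0 = 0 := rfl
          omega
        rw [h5, hV0, (hV k h.hk).zero]
      | succ i =>
        have h5 : (C k).tm i = u := h4
        have hi : i < 2 ^ w := by
          have := h.hi
          omega
        have h6 := (hC k h.hk).nfin (Nat.le_succ i) h.hi h.nf
        rw [← h5, c3 k h.hk i hi h6, (hV k h.hk).ent i hi h6]
  -- claim 5
  have c5 : ∀ {u k i τ : ℕ}, OwnT C q w (u + 1) k i → Avail (C k) i τ → V τ = Vk k τ := by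
    intro u k i τ h hav
    obtain ⟨j, hji, h1, h2, h3⟩ := hav
    have hjw : j < 2 ^ w := lt_of_le_of_lt hji h.hi
    have hfj := (hC k h.hk).nfin hji h.hi h.nf
    rcases h3 with h3 | h3
    · rw [h3, c3 k h.hk j hjw hfj, (hV k h.hk).ent j hjw hfj]
    · exact c1 (i := j) ⟨h.hk, hjw, hfj, h3, h1, h2⟩
  -- availability in the parent
  have hav : ∀ {t p : ℕ}, p < 2 ^ w₁ → t < R.tm p →
      ((∃ k i, OwnT C q w t k i) ∨ ∃ e < 2 ^ w₁, R.fin e = false ∧ R.tm e = t) → Avail R p t := by
    intro t p hpw htp h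
    rcases h with ⟨k, i, h⟩ | ⟨e, h1, h2, h3⟩
    · obtain ⟨p', h2, h3, h4, h5, h6⟩ := hcont h
      refine ⟨p', ?_, h5, h6, Or.inr h4⟩
      by_contra hcon
      have := hR.tm_le_pv (show p < p' by omega) h2
      omega
    · have h4 := hR.srt e h1
      refine ⟨e, ?_, by omega, h3.ge, Or.inl h3.symm⟩
      by_contra hcon
      have := hR.tm_le_pv (show p < e by omega) h1
      omega
  refine ⟨V, b, hV0, c2, ?_, ?_, ?_⟩
  · intro p hpw hf hl u h1 h2
    obtain ⟨k, i, h⟩ := hcov p hpw hf hl (u + 1) (by omega) (by omega)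
    have h3 := h.lt
    have h4 := h.le
    have h5 := (hV k h.hk).stp i h.hi h.nf h.own u (by omega) (by omega)
    have h6 : b u = bk k u := by
      rw [hb]
      show bk (ow (u + 1)) u = _
      rw [← how (u + 1) k i h]
    rw [c1 h, h5, h6, c4 h]
    congr 1
    by_cases h7 : H.idx (Vk k u) ≤ u
    · rw [if_pos h7, if_pos h7]
      rcases Nat.eq_zero_or_pos (H.idx (Vk k u)) with h8 | h8
      · rw [h8, hV0, (hV k h.hk).zero]
      · exact (c5 h ((hV k h.hk).ava i h.hi h.nf h.own u (by omega) (by omega) h8 h7)).symm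
    · rw [if_neg h7, if_neg h7]
  · intro p hpw hf hl u h1 h2
    obtain ⟨k, i, h⟩ := hcov p hpw hf hl (u + 1) (by omega) (by omega)
    have h3 := h.lt
    have h4 := h.le
    rw [c1 h]
    exact (hV k h.hk).nhl i h.hi h.nf h.own u (by omega) (by omega)
  · intro p hpw hf hl u h1 h2 h3 h4
    obtain ⟨k, i, h⟩ := hcov p hpw hf hl (u + 1) (by omega) (by omega)
    have h5 := h.lt
    have h6 := h.le
    rw [c4 h] at h3 h4 ⊢
    obtain ⟨j, hji, h7, h8, h9⟩ := (hV k h.hk).ava i h.hi h.nf h.own u (by omega) (by omega) h3 h4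
    have hjw : j < 2 ^ w := lt_of_le_of_lt hji h.hi
    have hfj := (hC k h.hk).nfin hji h.hi h.nf
    apply hav hpw (by omega)
    rcases h9 with h9 | h9
    · rw [h9]
      rcases hent k h.hk j hjw hfj with ⟨k', i', g1, -, -⟩ | ⟨e, g1, g2, g3, -⟩
      · exact Or.inl ⟨k', i', g1⟩
      · exact Or.inr ⟨e, g1, g2, g3⟩
    · exact Or.inl ⟨k, j, h.hk, hjw, hfj, h9, h7, h8⟩

end Pool.Agent.NUM
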