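import Pool.Agent.NUM.GSplitT
import Pool.Agent.NUM.NGList

/-!
# Honest lists from a division, with containment and disjointness of the own segments;
# nondeterministic machines
-/

set_option autoImplicit false

namespace Pool.Agent.NUM

open Finset

section det

variable {A : Type}

/-- own segments of an honest list are contained in the region -/
theorem own_sub {C : Lst A} {w lim : ℕ} {rc : ℕ → ℕ} {S E : Finset ℕ} (hst : LStat C w lim)
    (hcl : Closed rc S E)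
    (h5 : ∀ i < 2 ^ w, C.fin i = false → C.lb i = 1 → C.tm i ∈ S)
    (h6 : ∀ x ∈ E, 0 < x → ∃ i < 2 ^ w, C.fin i = false ∧ C.tm i = x) :
    ∀ i < 2 ^ w, C.fin i = false → C.lb i = 1 → ∀ t, C.pv i < t → t ≤ C.tm i → t ∈ S := by
  intro i hi hf hl
  have key : ∀ d, C.pv i < C.tm i - d → C.tm i - d ∈ S := by
    intro d
    induction d with
    | zero =>
      intro _
      exact h5 i hi hf hl
    | succ d ih =>
      intro hd
      have h1 := ih (by omega)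
      obtain ⟨v, hv⟩ : ∃ v, C.tm i - d = v + 1 := ⟨C.tm i - d - 1, by omega⟩
      rw [hv] at h1
      rw [show C.tm i - (d + 1) = v by omega]
      rcases mem_union.1 (hcl v h1).1 with h2 | h2
      · exact h2
      · exfalso
        obtain ⟨j, hj, -, hjt⟩ := h6 v h2 (by omega)
        rcases Nat.lt_trichotomy i j with h | h | h
        · have := hst.tm_lt h hj
          omega
        · subst h
          omega
        · have := hst.tm_le_pv h hi
          omega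
  intro t h1 h2
  have h3 := key (C.tm i - t) (by omega)
  rwa [show C.tm i - (C.tm i - t) = t by omega] at h3

/-- a division without repetitions -/
theorem Division.dedup {rc : ℕ → ℕ} {S E : Finset ℕ} {l : List (Finset ℕ × Finset ℕ)}
    (h : Division rc S E l) : Division rc S E l.dedup where
  cov v hv := by
    obtain ⟨p, hp, hp'⟩ := h.cov v hv
    exact ⟨p, List.mem_dedup.2 hp, hp'⟩
  sub p hp := h.sub p (List.mem_dedup.1 hp)
  disj p hp p' hp' := h.disj p (List.mem_dedup.1 hp) p' (List.mem_dedup.1 hp')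
  cl p hp := h.cl p (List.mem_dedup.1 hp)
  ent p hp := h.ent p (List.mem_dedup.1 hp)
  old p hp := h.old p (List.mem_dedup.1 hp)
  exp p hp p' hp' := h.exp p (List.mem_dedup.1 hp) p' (List.mem_dedup.1 hp')

/-- **Honest children**, with containment and disjointness. -/
theorem exists_childrenX {H : HM A} {N : ℕ} {R : Lst A} {g : ℝ} {K r s D q w w₁ lim lim₁ : ℕ}
    (hS : HSep N (fun n => H.idx (H.U n)) g K) (hg : 0 ≤ g) (hg1 : g ≤ 1)
    (h : TrL H N R w₁ lim₁) (hs : 1 ≤ s) (hsr : s ≤ r) (hD : 12 ≤ D)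
    (hK : 10 * (D : ℝ) ^ 2 * K * (r : ℝ) ^ g ≤ s)
    (hN : 2 * ((N : ℝ) + 1) ≤ (4 / 3) ^ (D - 1)) (hw : s + 2 ≤ 2 ^ w)
    (hlim : r + s + 3 ≤ lim)
    (hq : 1 + 3 * (D : ℝ) * (((lim₁ : ℝ) + 1) / r + 2 ^ w₁ / s) ≤ 2 ^ q) :
    ∃ (C : ℕ → Lst A) (px : ℕ → ℕ → Bool) (pe pk pi : ℕ → ℕ → ℕ) (dk di : ℕ → ℕ)
      (ce : ℕ → ℕ → ℕ),
      (∀ k, TrL H N (C k) w lim) ∧
      (∀ k, ∀ i < 2 ^ w, PtrOK q w₁ w R C k i (px k i) (pe k i) (pk k i) (pi k i)) ∧
      (∀ e < 2 ^ w₁, DirOK q w R C e (dk e) (di e)) ∧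
      (∀ k, ∀ i < 2 ^ w, ContOK w₁ R C k i (ce k i)) ∧
      (∀ k k', ∀ i < 2 ^ w, ∀ i' < 2 ^ w, DisjOK C k i k' i') ∧
      (∀ k, ∀ i < 2 ^ w, (C k).tm i ≤ N + 2 ^ w + 1) ∧ (∀ k i, (C k).lb i ≤ 1) ∧
      (∀ k i, (C k).off i ≤ lim) ∧ (∀ k i, pe k i < 2 ^ w₁ ∧ pk k i < 2 ^ q ∧ pi k i < 2 ^ w) ∧
      (∀ e, dk e < 2 ^ q ∧ di e < 2 ^ w) ∧ (∀ k i, ce k i < 2 ^ w₁) := by
  classical
  obtain ⟨S, E, hSr, hEr, hcl, hgap, hc1, hc2, memS, memE⟩ := exists_region h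
  obtain ⟨l₀, hdiv₀, hsz₀, hlen₀⟩ := hS.exists_division' hg hg1 (s := (s : ℝ)) (r := (r : ℝ))
    (by exact_mod_cast hs) (by exact_mod_cast hsr) hD hK (S := S) (E := E)
    (union_subset hSr hEr) hcl hN
  obtain ⟨l, hl⟩ : ∃ l, l = l₀.dedup := ⟨_, rfl⟩
  have hdiv : Division (fun n => H.idx (H.U n)) S E l := by
    rw [hl]
    exact hdiv₀.dedup
  have hsz : ∀ p ∈ l, ((p.1 ∪ p.2).card : ℝ) ≤ r ∧ (p.2.card : ℝ) ≤ s := by
    intro p hp
    rw [hl] at hp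
    exact hsz₀ p (List.mem_dedup.1 hp)
  have hnd : l.Nodup := by
    rw [hl]
    exact l₀.nodup_dedup
  have hlen : (l.length : ℝ) ≤ l₀.length := by
    rw [hl]
    exact_mod_cast (List.dedup_sublist l₀).length_le
  have hs0 : (0 : ℝ) < s := by exact_mod_cast hs
  have hr0 : (0 : ℝ) < r := by exact_mod_cast (lt_of_lt_of_le (by omega : 0 < s) hsr)
  have hlq : l.length ≤ 2 ^ q := by
    have h1 : ((S ∪ E).card : ℝ) / r + E.card / s ≤ ((lim₁ : ℝ) + 1) / r + 2 ^ w₁ / s := by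
      have e1 : ((S ∪ E).card : ℝ) ≤ (lim₁ : ℝ) + 1 := by exact_mod_cast hc1
      have e2 : (E.card : ℝ) ≤ 2 ^ w₁ := by exact_mod_cast hc2
      gcongr
    have h2 : (l.length : ℝ) ≤ 2 ^ q := by
      refine hlen.trans (hlen₀.trans (le_trans ?_ hq))
      have : (0 : ℝ) ≤ 3 * D := by positivity
      have := mul_le_mul_of_nonneg_left h1 this
      linarith
    exact_mod_cast h2
  -- the list of every leaf
  have hleaf : ∀ k, ∃ C : Lst A, TrL H N C w lim ∧ (∀ i < 2 ^ w, C.tm i ≤ N + 2 ^ w + 1) ∧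
      (∀ i, C.lb i ≤ 1) ∧ (∀ i, C.off i ≤ lim) ∧
      (∀ i < 2 ^ w, C.fin i = false → ∃ hk : k < l.length, C.tm i ∈ (l[k]).2 ∧ 0 < C.tm i ∧
        C.st i = H.U (C.tm i) ∧ (C.lb i = 1 ↔ C.tm i ∈ (l[k]).1)) ∧
      (∀ hk : k < l.length, ∀ x ∈ (l[k]).2, 0 < x → ∃ i < 2 ^ w, C.fin i = false ∧
        C.tm i = x) := by
    intro k
    by_cases hk : k < l.length
    · obtain ⟨p, hp⟩ : ∃ p, p = l[k] := ⟨_, rfl⟩
      have hpl : p ∈ l := by rw [hp]; exact List.getElem_mem hk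
      have h1 := hsz p hpl
      have e1 : (p.1 ∪ p.2).card ≤ r := by exact_mod_cast h1.1
      have e2 : p.2.card ≤ s := by exact_mod_cast h1.2
      have e3 : p.1.card ≤ r := (card_le_card subset_union_left).trans e1
      obtain ⟨C, g1, g2, g3, g4, g5, g6⟩ := exists_honest H (w := w) (lim := lim)
        ((hdiv.sub p hpl).trans hSr) ((hdiv.ent p hpl).trans (union_subset hSr hEr))
        (hdiv.cl p hpl) (hdiv.gap hgap p hpl) (by omega) (by omega)
      refine ⟨C, g1, g2, g3, g4, fun i hi hf => ⟨hk, ?_⟩, fun _ => ?_⟩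
      · rw [← hp]
        exact g5 i hi hf
      · rw [← hp]
        exact g6
    · refine ⟨nilL H.a0, trL_nil _ _ _ _ _, fun i hi => ?_, fun i => ?_, fun i => ?_,
        fun i _ hf => ?_, fun h => absurd h hk⟩
      · show i + 1 ≤ _
        omega
      · show 0 ≤ 1
        omega
      · show 1 ≤ lim
        omega
      · cases hf
  choose C c1 c2 c3 c4 c5 c6 using hleaf
  have c1' : ∀ k, LStat (C k) w lim := fun k => (c1 k).stat
  have hw0 : 0 < 2 ^ w := Nat.two_pow_pos _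
  have hw1 : 0 < 2 ^ w₁ := Nat.two_pow_pos _
  have hq0 : 0 < 2 ^ q := Nat.two_pow_pos _
  -- own segments are contained in the leaf
  have hsub : ∀ k, ∀ i < 2 ^ w, (C k).fin i = false → (C k).lb i = 1 →
      ∃ hk : k < l.length, ∀ t, (C k).pv i < t → t ≤ (C k).tm i → t ∈ (l[k]).1 := by
    intro k i hi hf hlb
    obtain ⟨hk, -, -, -, -⟩ := c5 k i hi hf
    refine ⟨hk, ?_⟩
    refine own_sub (c1' k) (hdiv.cl _ (List.getElem_mem hk)) (fun j hj hfj hlj => ?_)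
      (c6 k hk) i hi hf hlb
    obtain ⟨_, -, -, -, h6⟩ := c5 k j hj hfj
    exact h6.1 hlj
  -- a state of `S` which is an entry of a leaf is an own entry of its leaf
  have hown : ∀ x ∈ S, 0 < x → (∃ p ∈ l, x ∈ p.2) ∨ x ∈ E → ∃ k < 2 ^ q, ∃ i < 2 ^ w,
      (C k).fin i = false ∧ (C k).lb i = 1 ∧ (C k).tm i = x ∧ (C k).st i = H.U x := by
    intro x hx hx0 hxe
    obtain ⟨p, hp, hxp⟩ := hdiv.cov x hx
    have hxp2 : x ∈ p.2 := by
      rcases hxe with ⟨p', hp', hxp'⟩ | hxE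
      · exact hdiv.exp p' hp' p hp x hxp' hxp
      · exact hdiv.old p hp x hxE hxp
    obtain ⟨k, hk, rfl⟩ := List.getElem_of_mem hp
    obtain ⟨i, hi, h1, h2⟩ := c6 k hk x hxp2 hx0
    obtain ⟨hk', h3, h4, h5, h6⟩ := c5 k i hi h1
    refine ⟨k, by omega, i, hi, h1, ?_, h2, ?_⟩
    · rw [h6, h2]
      exact hxp
    · rw [h5, h2]
  have hptr : ∀ k i, ∃ (x : Bool) (e k' i' : ℕ), (i < 2 ^ w → PtrOK q w₁ w R C k i x e k' i') ∧
      e < 2 ^ w₁ ∧ k' < 2 ^ q ∧ i' < 2 ^ w := by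
    intro k i
    by_cases hki : i < 2 ^ w ∧ (C k).fin i = false ∧ (C k).lb i ≠ 1
    · obtain ⟨hi, hf, hl⟩ := hki
      obtain ⟨hk', h3, h4, h5, h6⟩ := c5 k i hi hf
      have hmem : (l[k]) ∈ l := List.getElem_mem hk'
      rcases mem_union.1 (hdiv.ent _ hmem h3) with h7 | h7
      · obtain ⟨k', hk'q, i', hi', g1, g2, g3, g4⟩ := hown _ h7 h4 (Or.inl ⟨_, hmem, h3⟩)
        refine ⟨false, 0, k', i', fun _ _ _ => ?_, hw1, hk'q, hi'⟩
        rw [if_neg (by decide)]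
        exact ⟨hk'q, hi', g1, g2, g3, by rw [g4, h5]⟩
      · rcases (memE _).1 h7 with h8 | ⟨e, he, hfe, hte⟩
        · omega
        · refine ⟨true, e, 0, 0, fun _ _ _ => ?_, he, hq0, hw0⟩
          rw [if_pos rfl]
          exact ⟨he, hfe, hte, by rw [(h.tru e he hfe).2, h5, hte]⟩
    · exact ⟨true, 0, 0, 0, fun hi h1 h2 => absurd ⟨hi, h1, h2⟩ hki, hw1, hq0, hw0⟩
  have hdir : ∀ e, ∃ (k i : ℕ), (e < 2 ^ w₁ → DirOK q w R C e k i) ∧ k < 2 ^ q ∧ i < 2 ^ w := by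
    intro e
    by_cases he : e < 2 ^ w₁ ∧ R.fin e = false ∧ R.lb e = 1
    · obtain ⟨he, hf, hl⟩ := he
      have hlt := h.stat.srt e he
      have hx : R.tm e ∈ S := (memS _).2 ⟨e, he, hf, hl, hlt, le_rfl⟩
      have hxE : R.tm e ∈ E := (memE _).2 (Or.inr ⟨e, he, hf, rfl⟩)
      obtain ⟨k, hk, i, hi, g1, g2, g3, g4⟩ := hown _ hx (by omega) (Or.inr hxE)
      refine ⟨k, i, fun _ _ _ => ⟨hk, hi, g1, g2, g3, ?_⟩, hk, hi⟩
      rw [g4, (h.tru e he hf).2]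
    · exact ⟨0, 0, fun h0 h1 h2 => absurd ⟨h0, h1, h2⟩ he, hq0, hw0⟩
  -- containment
  have hcont : ∀ k i, ∃ e, (i < 2 ^ w → ContOK w₁ R C k i e) ∧ e < 2 ^ w₁ := by
    intro k i
    by_cases hki : i < 2 ^ w ∧ (C k).fin i = false ∧ (C k).lb i = 1
    · obtain ⟨hi, hf, hlb⟩ := hki
      obtain ⟨hk, hin⟩ := hsub k i hi hf hlb
      have hlt : (C k).pv i < (C k).tm i := (c1' k).srt i hi
      have hSt : (C k).tm i ∈ S := hdiv.sub _ (List.getElem_mem hk) (hin _ hlt le_rfl)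
      obtain ⟨e, he, hfe, hle, h1, h2⟩ := (memS _).1 hSt
      refine ⟨e, fun _ _ _ => ⟨he, hfe, hle, ?_, h2⟩, he⟩
      -- the start of the parent segment is not inside the child segment
      by_contra hcon
      push Not at hcon
      obtain ⟨x, hx⟩ : ∃ x, x = R.pv e := ⟨_, rfl⟩
      rw [← hx] at hcon h1
      have hxE : x ∈ E := by
        rw [memE]
        cases e with
        | zero => exact Or.inl hx
        | succ e =>
          exact Or.inr ⟨e, by omega, h.stat.nfin (Nat.le_succ e) he hfe, hx.symm⟩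
      have hxl : x ∈ (l[k]).1 := hin x hcon h1.le
      have hxl2 : x ∈ (l[k]).2 := hdiv.old _ (List.getElem_mem hk) x hxE hxl
      obtain ⟨j, hj, hfj, hjx⟩ := c6 k hk x hxl2 (by omega)
      rcases Nat.lt_trichotomy i j with h' | h' | h'
      · have := (c1' k).tm_lt h' hj
        omega
      · subst h'
        omega
      · have := (c1' k).tm_le_pv h' hi
        omega
    · exact ⟨0, fun hi h1 h2 => absurd ⟨hi, h1, h2⟩ hki, hw1⟩
  -- disjointness
  have hdisj : ∀ k k', ∀ i < 2 ^ w, ∀ i' < 2 ^ w, DisjOK C k i k' i' := by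
    intro k k' i hi i' hi' hf hlb hf' hlb'
    by_cases hkk : k = k'
    · subst hkk
      rcases Nat.lt_trichotomy i i' with h' | h' | h'
      · exact Or.inr (Or.inl ((c1' k).tm_le_pv h' hi'))
      · exact Or.inl ⟨rfl, h'⟩
      · exact Or.inr (Or.inr ((c1' k).tm_le_pv h' hi))
    · right
      by_contra hcon
      push Not at hcon
      obtain ⟨hk, hin⟩ := hsub k i hi hf hlb
      obtain ⟨hk', hin'⟩ := hsub k' i' hi' hf' hlb'
      have hlt := (c1' k).srt i hi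
      have hlt' := (c1' k').srt i' hi'
      have hx : ∃ x, ((C k).pv i < x ∧ x ≤ (C k).tm i) ∧ (C k').pv i' < x ∧ x ≤ (C k').tm i' := by
        rcases le_total ((C k).tm i) ((C k').tm i') with h' | h'
        · exact ⟨(C k).tm i, ⟨hlt, le_rfl⟩, hcon.1, h'⟩
        · exact ⟨(C k').tm i', ⟨hcon.2, h'⟩, hlt', le_rfl⟩
      obtain ⟨x, ⟨h1, h2⟩, h3, h4⟩ := hx
      rcases hdiv.disj _ (List.getElem_mem hk) _ (List.getElem_mem hk') with h5 | h5
      · exact hkk ((hnd.getElem_inj_iff).1 h5)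
      · exact disjoint_left.1 h5 (hin x h1 h2) (hin' x h3 h4)
  choose px pe pk pi hp1 hp2 hp3 hp4 using hptr
  choose dk di hd1 hd2 hd3 using hdir
  choose ce hc1 hc2 using hcont
  exact ⟨C, px, pe, pk, pi, dk, di, ce, c1, fun k i hi => hp1 k i hi, fun e he => hd1 e he,
    fun k i hi => hc1 k i hi, hdisj, c2, c3, c4,
    fun k i => ⟨hp2 k i, hp3 k i, hp4 k i⟩, fun e => ⟨hd2 e, hd3 e⟩, hc2⟩

end det

/-! ### machines with choices -/

section ndet

variable {A : Type}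

/-- the machine with the choices `c` and a clock in the state -/
def HMN.lft (H : HMN A) (c : ℕ → Bool) : HM (A × ℕ) where
  step a a' := (H.step (c a.2) a.1 a'.1, a.2 + 1)
  idx a := H.idx a.1
  a0 := (H.a0, 0)
  e0 := (H.e0, 0)
  hlt a := H.hlt a.1
  acc a := H.acc a.1

theorem HMN.lft_U (H : HMN A) (c : ℕ → Bool) (n : ℕ) : (H.lft c).U n = (H.U c n, n) := by
  induction n using Nat.strong_induction_on with
  | _ n ih =>
    cases n with
    | zero => rfl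
    | succ n =>
      rw [HM.U_succ, HMN.U_succ, ih n (Nat.lt_succ_self n)]
      have h1 : ((H.lft c).rc n ((H.lft c).idx (H.U c n, n))).1 =
          H.rc c n (H.idx (H.U c n)) := by
        show ((H.lft c).rc n (H.idx (H.U c n))).1 = _
        unfold HM.rc HMN.rc
        by_cases h : H.idx (H.U c n) ≤ n
        · rw [if_pos h, if_pos h, ih _ (by omega)]
        · rw [if_neg h, if_neg h]
          rfl
      show (H.step (c n) (H.U c n) ((H.lft c).rc n ((H.lft c).idx (H.U c n, n))).1, n + 1) = _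
      rw [h1]

/-- the list with times in the states -/
def Lst.lft (L : Lst A) : Lst (A × ℕ) := ⟨L.tm, fun i => (L.st i, L.tm i), L.lb, L.off, L.fin⟩

/-- the list without times in the states -/
def Lst.drp (L : Lst (A × ℕ)) : Lst A := ⟨L.tm, fun i => (L.st i).1, L.lb, L.off, L.fin⟩

theorem Lst.lft_pv (L : Lst A) (i : ℕ) : L.lft.pv i = L.pv i := by cases i <;> rfl

theorem Lst.drp_pv (L : Lst (A × ℕ)) (i : ℕ) : L.drp.pv i = L.pv i := by cases i <;> rfl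

theorem LStat.lft {L : Lst A} {w lim : ℕ} (h : LStat L w lim) : LStat L.lft w lim := by
  refine ⟨h.off0, fun i hi => ?_, h.fin, fun i hi hf => ?_⟩
  · rw [Lst.lft_pv]
    exact h.srt i hi
  · rw [Lst.lft_pv]
    exact h.run i hi hf

theorem LStat.drp {L : Lst (A × ℕ)} {w lim : ℕ} (h : LStat L w lim) : LStat L.drp w lim := by
  refine ⟨h.off0, fun i hi => ?_, h.fin, fun i hi hf => ?_⟩
  · rw [Lst.drp_pv]
    exact h.srt i hi
  · rw [Lst.drp_pv]
    exact h.run i hi hf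

theorem TrLN.lft {H : HMN A} {c : ℕ → Bool} {N w lim : ℕ} {L : Lst A} (h : TrLN H c N L w lim) :
    TrL (H.lft c) N L.lft w lim := by
  refine ⟨h.stat.lft, fun i hi hf => ?_, fun i hi hf hl u hu hu' h1 h2 => ?_⟩
  · obtain ⟨h1, h2⟩ := h.tru i hi hf
    refine ⟨h1, ?_⟩
    rw [HMN.lft_U]
    show (L.st i, L.tm i) = (H.U c (L.tm i), L.tm i)
    rw [h2]
  · rw [Lst.lft_pv] at hu
    rw [HMN.lft_U] at h1 h2 ⊢
    obtain ⟨j, hj, g1, g2, g3⟩ := h.clo i hi hf hl u hu hu' h1 h2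
    exact ⟨j, hj, by rw [Lst.lft_pv]; exact g1, g2, g3⟩

theorem TrL.drp {H : HMN A} {c : ℕ → Bool} {N w lim : ℕ} {L : Lst (A × ℕ)}
    (h : TrL (H.lft c) N L w lim) : TrLN H c N L.drp w lim := by
  refine ⟨h.stat.drp, fun i hi hf => ?_, fun i hi hf hl u hu hu' h1 h2 => ?_⟩
  · obtain ⟨h1, h2⟩ := h.tru i hi hf
    refine ⟨h1, ?_⟩
    show (L.st i).1 = H.U c (L.tm i)
    rw [h2, HMN.lft_U]
  · rw [Lst.drp_pv] at hu
    have h3 := h.clo i hi hf hl u hu hu'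
    rw [HMN.lft_U] at h3
    obtain ⟨j, hj, g1, g2, g3⟩ := h3 h1 h2
    exact ⟨j, hj, by rw [Lst.drp_pv]; exact g1, g2, g3⟩

/-- **Honest children**, for machines with choices. -/
theorem exists_childrenN {H : HMN A} {ch : ℕ → Bool} {N : ℕ} {R : Lst A} {g : ℝ}
    {K r s D q w w₁ lim lim₁ : ℕ}
    (hS : HSep N (fun n => H.idx (H.U ch n)) g K) (hg : 0 ≤ g) (hg1 : g ≤ 1)
    (h : TrLN H ch N R w₁ lim₁) (hs : 1 ≤ s) (hsr : s ≤ r) (hD : 12 ≤ D)
    (hK : 10 * (D : ℝ) ^ 2 * K * (r : ℝ) ^ g ≤ s)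
    (hN : 2 * ((N : ℝ) + 1) ≤ (4 / 3) ^ (D - 1)) (hw : s + 2 ≤ 2 ^ w)
    (hlim : r + s + 3 ≤ lim)
    (hq : 1 + 3 * (D : ℝ) * (((lim₁ : ℝ) + 1) / r + 2 ^ w₁ / s) ≤ 2 ^ q) :
    ∃ (C : ℕ → Lst A) (px : ℕ → ℕ → Bool) (pe pk pi : ℕ → ℕ → ℕ) (dk di : ℕ → ℕ),
      (∀ k, TrLN H ch N (C k) w lim) ∧
      (∀ k, ∀ i < 2 ^ w, PtrOK q w₁ w R C k i (px k i) (pe k i) (pk k i) (pi k i)) ∧
      (∀ k, ∀ i < 2 ^ w, ContOK w₁ R C k i (pe k i)) ∧
      (∀ k, ∀ i < 2 ^ w, ∀ k', ∀ i' < 2 ^ w, DisjOK C k i k' i') ∧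
      (∀ e < 2 ^ w₁, DirOK q w R C e (dk e) (di e)) ∧
      (∀ k, ∀ i < 2 ^ w, (C k).tm i ≤ N + 2 ^ w + 1) ∧ (∀ k i, (C k).lb i ≤ 1) ∧
      (∀ k i, (C k).off i ≤ lim) ∧ (∀ k i, pe k i < 2 ^ w₁ ∧ pk k i < 2 ^ q ∧ pi k i < 2 ^ w) ∧
      (∀ e, dk e < 2 ^ q ∧ di e < 2 ^ w) := by
  classical
  have hS' : HSep N (fun n => (H.lft ch).idx ((H.lft ch).U n)) g K := by
    have : (fun n => (H.lft ch).idx ((H.lft ch).U n)) = fun n => H.idx (H.U ch n) := by
      funext n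
      rw [HMN.lft_U]
      rfl
    rw [this]
    exact hS
  obtain ⟨C, px, pe, pk, pi, dk, di, ce, c1, c2, c3, c4, c5, c6, c7, c8, c9, c10, c11⟩ :=
    exists_childrenX hS' hg hg1 h.lft hs hsr hD hK hN hw hlim hq
  refine ⟨fun k => (C k).drp, px, fun k i => if (C k).lb i = 1 then ce k i else pe k i, pk, pi,
    dk, di, fun k => (c1 k).drp, ?_, ?_, ?_, ?_, c6, c7, c8, ?_, c10⟩
  · intro k i hi hf hl
    have hl' : (C k).lb i ≠ 1 := hl
    have h1 := c2 k i hi hf hl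
    simp only [if_neg hl']
    by_cases hx : px k i = true
    · rw [if_pos hx] at h1 ⊢
      obtain ⟨g1, g2, g3, g4⟩ := h1
      exact ⟨g1, g2, g3, congrArg Prod.fst g4⟩
    · rw [if_neg hx] at h1 ⊢
      obtain ⟨g1, g2, g3, g4, g5, g6⟩ := h1
      exact ⟨g1, g2, g3, g4, g5, congrArg Prod.fst g6⟩
  · intro k i hi hf hl
    have hl' : (C k).lb i = 1 := hl
    obtain ⟨g1, g2, g3, g4, g5⟩ := c4 k i hi hf hl
    simp only [if_pos hl']
    refine ⟨g1, g2, g3, ?_, g5⟩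
    rw [Lst.drp_pv]
    rw [Lst.lft_pv] at g4
    exact g4
  · intro k i hi k' i' hi' hf hl hf' hl'
    have h1 := c5 k k' i hi i' hi' hf hl hf' hl'
    rw [Lst.drp_pv, Lst.drp_pv]
    exact h1
  · intro e he hf hl
    obtain ⟨g1, g2, g3, g4, g5, g6⟩ := c3 e he hf hl
    exact ⟨g1, g2, g3, g4, g5, congrArg Prod.fst g6⟩
  · intro k i
    obtain ⟨g1, g2, g3⟩ := c9 k i
    refine ⟨?_, g2, g3⟩
    show (if (C k).lb i = 1 then ce k i else pe k i) < 2 ^ w₁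
    split_ifs
    · exact c11 k i
    · exact g1

end ndet

end Pool.Agent.NUM
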