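import Pool.Agent.NUM.NGDef
import Pool.Agent.NUM.NGStr
import Pool.Agent.NUM.NGRun
import Pool.Agent.NUM.NGSplitB
import Pool.Agent.NUM.NGSplitT
import Pool.Agent.NUM.GPar1

/-!
# Nondeterministic theorem H(γ): the systems of lists, on strings
-/

set_option autoImplicit false

namespace Pool.Agent.NUM

section

variable {p : GPar}

/-- **a true parent list**: there is a string with true children and right pointers -/
theorem sysN_true (hp : p.Ok) {H : HMN (Fin p.h → Bool)} {ch : ℕ → Bool} {N : ℕ}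
    {R : Lst (Fin p.h → Bool)} {g : ℝ} {K r s D : ℕ}
    (hS : HSep N (fun n => H.idx (H.U ch n)) g K) (hg : 0 ≤ g) (hg1 : g ≤ 1)
    (h : TrLN H ch N R p.w₁ p.lim₁) (hs : 1 ≤ s) (hsr : s ≤ r) (hD : 12 ≤ D)
    (hK : 10 * (D : ℝ) ^ 2 * K * (r : ℝ) ^ g ≤ s)
    (hN : 2 * ((N : ℝ) + 1) ≤ (4 / 3) ^ (D - 1)) (hw : s + 2 ≤ 2 ^ p.w)
    (hlim : r + s + 3 ≤ p.lim)
    (hq : 1 + 3 * (D : ℝ) * (((p.lim₁ : ℝ) + 1) / r + 2 ^ p.w₁ / s) ≤ 2 ^ p.q)
    (hb : N + 2 ^ p.w + 1 < 2 ^ p.b)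
    (hR : ∀ e < 2 ^ p.w₁, R.tm e < 2 ^ p.b ∧ R.lb e < 2 ^ p.w₁ ∧ R.off e < 2 ^ p.b) :
    ∃ y : Inp, LEq p.w₁ (gR p y) R ∧
      ∀ v : Inp, NCom p y v ∧ TrLN H ch N (gC p y (vk p v)) p.w p.lim := by
  have h2w : 2 ≤ 2 ^ p.w := by omega
  obtain ⟨C, px, pe, pk, pi, dk, di, hC, hP, hCo, hDj, hDr, htm, hlb, hoff, hpb, hdb⟩ :=
    exists_childrenN hS hg hg1 h hs hsr hD hK hN hw hlim hq
  obtain ⟨y, h1, h2, h3, h4, -, -⟩ := exists_gy hp R C px pe pk pi dk di 0 0 hR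
    (fun k _ i hi => ⟨(htm k i hi).trans_lt hb, by have := hlb k i; omega,
      (hoff k i).trans_lt hp.limb⟩)
    (fun k _ i _ => hpb k i) (fun e _ => hdb e) (by positivity) (by positivity)
  refine ⟨y, h1, fun v => ?_⟩
  have hk := vk_lt p v
  have hi' := vi_lt p v
  have he := ve_lt p v
  have hTr : TrLN H ch N (gC p y (vk p v)) p.w p.lim := (h2 _ hk).trLN (hC _)
  obtain ⟨e1, e2, e3, e4⟩ := h3 _ hk _ hi'
  refine ⟨⟨⟨?_, ?_, ?_, ?_⟩, ?_, ?_⟩, hTr⟩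
  · exact lstat_iff.1 hTr.stat _ hi'
  · exact lstat_iff.1 (h1.stat h.stat) _ he
  · rw [e1, e2, e3, e4]
    exact ptrOK_congr h1 h2 hk hi' (hP _ _ hi')
  · obtain ⟨f1, f2⟩ := h4 _ he
    rw [f1, f2]
    exact dirOK_congr h1 h2 he (hDr _ he)
  · rw [e2]
    exact contOK_congr h1 h2 hk hi' (hCo _ _ hi')
  · exact disjOK_congr h2 hk hi' (vk'_lt p v) (vi'_lt p v) (hDj _ _ hi' _ _ (vi'_lt p v))

/-- **right systems**: the parent list is realised if all children are -/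
theorem sysN_run (hp : p.Ok) {H : HMN (Fin p.h → Bool)} {y : Inp} (h : ∀ v, NCom p y v)
    (hr : ∀ k < 2 ^ p.q, LStat (gC p y k) p.w p.lim → ∃ V b, RunL H (gC p y k) p.w V b) :
    LStat (gR p y) p.w₁ p.lim₁ ∧ ∃ V b, RunL H (gR p y) p.w₁ V b := by
  have key : ∀ k < 2 ^ p.q, ∀ i < 2 ^ p.w, ∀ e < 2 ^ p.w₁, SCom p y k i e ∧
      ContOK p.w₁ (gR p y) (gC p y) k i (gE p y k i) := by
    intro k hk i hi e he
    obtain ⟨v, h1, h2, h3, -⟩ := exists_gv hp hk hi he fun _ => false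
    have h4 := h v
    unfold NCom at h4
    rw [h1, h2, h3] at h4
    exact ⟨h4.1, h4.2.1⟩
  have key' : ∀ k < 2 ^ p.q, ∀ i < 2 ^ p.w, ∀ k' < 2 ^ p.q, ∀ i' < 2 ^ p.w,
      DisjOK (gC p y) k i k' i' := by
    intro k hk i hi k' hk' i' hi'
    obtain ⟨v, h1, h2, h3, h4, -⟩ := exists_gvN' hp hk hi hk' hi' fun _ => false
    have h5 := (h v).2.2
    rwa [h1, h2, h3, h4] at h5
  have h0q : 0 < 2 ^ p.q := by positivity
  have h0w : 0 < 2 ^ p.w := by positivity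
  have h0w₁ : 0 < 2 ^ p.w₁ := by positivity
  have hR : LStat (gR p y) p.w₁ p.lim₁ :=
    lstat_iff.2 fun e he => (key 0 h0q 0 h0w e he).1.2.1
  have hC : ∀ k < 2 ^ p.q, LStat (gC p y k) p.w p.lim := fun k hk =>
    lstat_iff.2 fun i hi => (key k hk i hi 0 h0w₁).1.1
  exact ⟨hR, RunL.compose hR hC
    (fun k hk i hi => ⟨_, _, _, _, (key k hk i hi 0 h0w₁).1.2.2.1⟩)
    (fun e he => ⟨_, _, (key 0 h0q 0 h0w e he).1.2.2.2⟩)
    (fun k hk i hi => ⟨_, (key k hk i hi 0 h0w₁).2⟩) key' fun k hk => hr k hk (hC k hk)⟩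

end

/-- the flag does not depend on the levels -/
theorem gfl_p (S : GSeq) (e r e' r' : ℝ) (L : ℕ) (a : Fin (S.h L) → Bool) :
    gfl (S.p e r L) a = gfl (S.p e' r' L) a := by
  have h1 : gfl (S.p e r L) a = if hc : S.c L < S.h L then a ⟨S.c L, hc⟩ else false := rfl
  have h2 : gfl (S.p e' r' L) a = if hc : S.c L < S.h L then a ⟨S.c L, hc⟩ else false := rfl
  rw [h1, h2]

/-- the answer does not depend on the levels -/
theorem gacc_p (S : GSeq) (e r e' r' : ℝ) (L : ℕ) (a : Fin (S.h L) → Bool) :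
    gacc (S.p e r L) a = gacc (S.p e' r' L) a := by
  have h1 : gacc (S.p e r L) a = if hc : 1 < S.h L then a ⟨1, hc⟩ else false := rfl
  have h2 : gacc (S.p e' r' L) a = if hc : 1 < S.h L then a ⟨1, hc⟩ else false := rfl
  rw [h1, h2]

/-- **step, true lists** -/
theorem stepN_yes {S : GSeq} (hS : S.Ok) {e r : ℝ} (hr : 0 ≤ r) (hre : r ≤ e) (he : e ≤ S.e₀)
    {G : List Ins} {z : Inp} {L N : ℕ} {c : ℕ → Bool} (hD : DelRunN S G z L c N) {l : Inp}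
    (h : TrSN S G z L c N e l) :
    ∃ y : Inp, ∀ v : Inp, NStep (S.p e r L) l y v ∧
      TrSN S G z L c N r (gRec (S.p e r L) y (vk (S.p e r L) v)) := by
  have _ := hr
  have hp := hS.par hre he L
  obtain ⟨d1, d2, d3, d4, d5, d6, d7⟩ := hS.dims r L
  obtain ⟨t1, t2⟩ := hS.times (hre.trans he) hD.le
  have hR : ∀ e' < 2 ^ S.w e L, (ngL S L e l).tm e' < 2 ^ S.b L ∧
      (ngL S L e l).lb e' < 2 ^ S.w e L ∧ (ngL S L e l).off e' < 2 ^ S.b L := fun e' _ =>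
    ⟨rdL_tm_lt _ _ _ _ _ _, rdL_lb_lt _ _ _ _ _ _, rdL_off_lt _ _ _ _ _ _⟩
  obtain ⟨y, h1, h2⟩ := sysN_true (p := S.p e r L) hp hD.sep hS.γ0 hS.γ1.le h d1 d2 d3 d4
    (hS.depth hD.le) d5 d6 (hS.num e r L) t1 hR
  refine ⟨y, fun v => ?_⟩
  obtain ⟨h3, h4⟩ := h2 v
  have h5 := h1 _ (ve_lt (S.p e r L) v)
  refine ⟨?_, ?_⟩
  · unfold NStep
    refine ⟨?_, ?_⟩
    · exact h3
    · exact h5
  · unfold TrSN
    exact h4

/-- **step, lists which are not realised** -/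
theorem stepN_no {S : GSeq} (hS : S.Ok) {e r : ℝ} (hr : 0 ≤ r) (hre : r ≤ e) (he : e ≤ S.e₀)
    {G : List Ins} {z : Inp} {L : ℕ} {l : Inp} (h : NRealS S G z L e l) (y : Inp) :
    (∃ v : Inp, ¬ NStep (S.p e r L) l y v) ∨
      ∃ k < 2 ^ S.q e r L, NRealS S G z L r (gRec (S.p e r L) y k) := by
  have _ := hr
  by_cases hall : ∀ v : Inp, NStep (S.p e r L) l y v
  · right
    have hp := hS.par hre he L
    by_contra hcon
    push Not at hcon
    have hr : ∀ k < 2 ^ (S.p e r L).q,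
        LStat (gC (S.p e r L) y k) (S.p e r L).w (S.p e r L).lim →
        ∃ V b, RunL (ngH S G z L) (gC (S.p e r L) y k) (S.p e r L).w V b := by
      intro k hk hk2
      by_contra h3
      exact hcon k hk ⟨hk2, h3⟩
    obtain ⟨h1, V, b, h2⟩ := sysN_run hp (fun v => (hall v).1) hr
    have h3 : LEq (S.w e L) (ngL S L e l) (gR (S.p e r L) y) := by
      refine LEq.symm fun e' he' => ?_
      obtain ⟨v, -, -, g3, -⟩ := exists_gv hp (k := 0) (i := 0) (by positivity) (by positivity)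
        he' fun _ => false
      have h6 := (hall v).2
      rw [g3] at h6
      exact h6
    exact h.2 ⟨V, b, h3.runL h2⟩
  · left
    push Not at hall
    exact hall

/-- **top, accepted inputs** -/
theorem topN_yes {S : GSeq} (hS : S.Ok) {r : ℝ} (hr : 0 ≤ r) (hre : r ≤ S.e₀)
    {G : List Ins} {z : Inp} {L N : ℕ} {c : ℕ → Bool} (hD : DelRunN S G z L c N) :
    ∃ y : Inp, ∀ v : Inp, NTop (S.p S.e₀ r L) (S.t L) y v ∧
      TrSN S G z L c N r (gRec (S.p S.e₀ r L) y (vk (S.p S.e₀ r L) v)) := by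
  have _ := hr
  have hp := hS.par hre le_rfl L
  obtain ⟨d1, d2, d3, d4, d5, d6, d7⟩ := hS.dims r L
  obtain ⟨g1, g2, g3, g4, g5, g6, g7⟩ := hS.dims S.e₀ L
  obtain ⟨t1, t2⟩ := hS.times hre hD.le
  obtain ⟨t3, t4⟩ := hS.times (le_refl S.e₀) hD.le
  have hfl : gfl (S.p S.e₀ r L) ((ngH S G z L).U c N) = true :=
    (gfl_p S _ _ 0 0 L _).trans hD.flag
  have hac : gacc (S.p S.e₀ r L) ((ngH S G z L).U c N) = true :=
    (gacc_p S _ _ 0 0 L _).trans hD.acc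
  obtain ⟨R, hR, htop, hRb⟩ := exists_topN (w := S.w S.e₀ L) (lim := S.lim S.e₀ L)
    (fl := gfl (S.p S.e₀ r L)) (acc := gacc (S.p S.e₀ r L)) hfl hac hD.pos g7 (hS.top hD.le)
  have h2w : 2 ≤ 2 ^ S.w S.e₀ L := by omega
  have hRb' : ∀ k < 2 ^ S.w S.e₀ L, R.tm k < 2 ^ S.b L ∧ R.lb k < 2 ^ S.w S.e₀ L ∧
      R.off k < 2 ^ S.b L := by
    intro k hk
    obtain ⟨h5, h6, h7⟩ := hRb k
    exact ⟨by omega, by omega, h7.trans_lt t4⟩
  obtain ⟨y, h1, h2⟩ := sysN_true (p := S.p S.e₀ r L) hp hD.sep hS.γ0 hS.γ1.le hR d1 d2 d3 d4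
    (hS.depth hD.le) d5 d6 (hS.num S.e₀ r L) t1 hRb'
  refine ⟨y, fun v => ?_⟩
  obtain ⟨h3, h4⟩ := h2 v
  refine ⟨?_, ?_⟩
  · unfold NTop
    refine ⟨h3, h1.topL htop, ?_⟩
    have h5 : (gR (S.p S.e₀ r L) y).tm 0 = R.tm 0 := (h1 0 (by positivity)).1
    rw [h5]
    exact ((hRb 0).1).trans hD.le
  · unfold TrSN
    exact h4

/-- **top, other inputs** -/
theorem topN_no {S : GSeq} (hS : S.Ok) {r : ℝ} (hr : 0 ≤ r) (hre : r ≤ S.e₀)
    {G : List Ins} {z : Inp} {L : ℕ}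
    (h : ∀ (c : ℕ → Bool) (N : ℕ), 0 < N → N ≤ S.t L →
      (∀ m ≤ N, (ngH S G z L).hlt ((ngH S G z L).U c m) = false) →
      gfl (S.p 0 0 L) ((ngH S G z L).U c N) = true →
      ¬ gacc (S.p 0 0 L) ((ngH S G z L).U c N) = true) (y : Inp) :
    (∃ v : Inp, ¬ NTop (S.p S.e₀ r L) (S.t L) y v) ∨
      ∃ k < 2 ^ S.q S.e₀ r L, NRealS S G z L r (gRec (S.p S.e₀ r L) y k) := by
  have _ := hr
  by_cases hall : ∀ v : Inp, NTop (S.p S.e₀ r L) (S.t L) y v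
  · right
    have hp := hS.par hre le_rfl L
    by_contra hcon
    push Not at hcon
    have hr : ∀ k < 2 ^ (S.p S.e₀ r L).q,
        LStat (gC (S.p S.e₀ r L) y k) (S.p S.e₀ r L).w (S.p S.e₀ r L).lim →
        ∃ V b, RunL (ngH S G z L) (gC (S.p S.e₀ r L) y k) (S.p S.e₀ r L).w V b := by
      intro k hk hk2
      by_contra h3
      exact hcon k hk ⟨hk2, h3⟩
    obtain ⟨h1, V, b, h2⟩ := sysN_run hp (fun v => (hall v).1) hr
    obtain ⟨-, h3, h4⟩ := hall fun _ => false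
    have h0 : (ngH S G z L).hlt (ngH S G z L).a0 = false := by
      show embM (fun _ : Fin (S.h L) => false) 0 = false
      unfold embM
      split_ifs <;> rfl
    obtain ⟨k1, k2, k3, k4⟩ := RunL.top h1 h3 h0 h2
    exact h b _ k1 h4 k2 ((gfl_p S 0 0 _ _ L _).trans k3) ((gacc_p S 0 0 _ _ L _).trans k4)
  · left
    push Not at hall
    exact hall

end Pool.Agent.NUM
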