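import Pool.Agent.NUM.NGFam
import Pool.Agent.NUM.NGTrade
import Pool.Agent.NUM.HCodeR

/-!
# The nondeterministic theorem H(γ)
-/

set_option autoImplicit false

namespace Pool.Agent.NUM

open S3

/-- **The nondeterministic theorem H(γ).** -/
theorem unsat_sep_bound {c γ : ℝ} (hγ : 0 ≤ γ) (hγ1 : γ < 1) (hc : 1 ≤ c) (h : NGCond γ c) :
    ∃ (δ : ℝ) (A M₀ : ℕ), 0 < δ ∧ ∀ M : ℕ, M₀ ≤ M → ∃ m : ℕ, M ≤ m ∧ m ≤ A * M ∧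
      ∀ (G : List Ins) (d s T K : ℕ), HSz s d G →
      (s : ℝ) ≤ 2 ^ (δ * m) → (T : ℝ) ≤ 2 ^ (c * m) → (K : ℝ) ≤ 2 ^ (δ * m) →
        ¬ SepAccepts G d (satLen m) T γ K (fun z => ¬ SAT m z) :=
  unsat_sep_window (fun he h => famN_of_clsGN hCodeRK hγ hγ1 he h) hγ hγ1 hc h

end Pool.Agent.NUM
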