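import Pool.Agent.NUM.PWFinal

/-!
# 3SAT is not decided in time `n ^ c` by algorithms whose computation graphs fall apart
-/

namespace Pool.Agent.Results.MP_994c82_lc.SatFragTime

open Pool.Agent.NUM

/-- For all `c`, `ξ`, `lam` with `c ξ < 1` and `lam < 1` there are `δ > 0`, `A` and `M₀` such that every
interval `[M, A M]`, `M ≥ M₀`, contains an `m` such that no history program of size at most `2 ^ (δ m)`
decides within `2 ^ (c m)` steps the satisfiability of 3-CNF formulas with `2 ^ m` clauses and `2 ^ m`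
variables in such a way that for each formula the graph of the computation falls into parts of at most
`2 ^ (lam m)` states after the deletion of at most `2 ^ (ξ m)` states. -/
theorem result (c ξ lam : ℝ) (h1 : c * ξ < 1) (h2 : lam < 1) :
    ∃ (δ : ℝ) (A M₀ : ℕ), 0 < δ ∧ ∀ M : ℕ, M₀ ≤ M → ∃ m : ℕ, M ≤ m ∧ m ≤ A * M ∧
      ∀ (G : List Ins) (d s T K l : ℕ), HSz s d G →
      (s : ℝ) ≤ 2 ^ (δ * m) → (T : ℝ) ≤ 2 ^ (c * m) → (K : ℝ) ≤ 2 ^ (ξ * m) →
        (l : ℝ) ≤ 2 ^ (lam * m) → ¬ FragDecides G d (S3.satLen m) T K l (S3.SAT m) :=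
  sat_frag_window c ξ lam h1 h2

end Pool.Agent.Results.MP_994c82_lc.SatFragTime
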