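import Pool.Agent.NUM.PFam

/-!
# Theorem P, abstract part: partitions of computations of 3SAT programs

From the interface `TradeP c ρ y` we derive a contradiction for `1 ≤ c`, `ρ < 1`, `c y < 1`.
-/

set_option autoImplicit false

namespace Pool.Agent.NUM

/-- The interface for purely functional programs. -/
structure TradeP (c ρ y : ℝ) : Prop where
  /-- complement -/
  not : ∀ {T : Type} {π : Pres T} {P : T → Prop} {b e : ℝ}, Size π b → InH π P e →
    InH π (fun τ => ¬ P τ) e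
  /-- complement -/
  notS : ∀ {T : Type} {π : Pres T} {P : T → Prop} {b E : ℝ}, Size π b → InS c ρ y π P E →
    InS c ρ y π (fun τ => ¬ P τ) E
  /-- adding a string that is not used -/
  dummy : ∀ {T : Type} {π : Pres T} {P : T → Prop} {b u E : ℝ} {β : ℕ → ℕ}, Size π b → Lin u β →
    InS c ρ y π P E → InS c ρ y (π.ext β) (fun p => P p.1) E
  /-- two strings in one -/
  merge : ∀ {T : Type} {π : Pres T} {b u u' E : ℝ} {β β' : ℕ → ℕ}
    {C : (T × Inp) × Inp → Prop}, Size π b → Lin u β → Lin u' β' →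
    InS c ρ y ((π.ext β).ext β') C E →
    ∃ β'' : ℕ → ℕ, Lin (max u u') β'' ∧
      InS c ρ y (π.ext β'')
        (fun p => C ((p.1, fun a => p.2 (false :: a)), fun a => p.2 (true :: a))) E
  /-- (S) speed up: the boundary states are guessed, every class is checked -/
  speedup : ∀ {T : Type} {π : Pres T} {P : T → Prop} {b E : ℝ}, Size π b → 0 ≤ E →
    InS c ρ y π P E →
    ∃ (β l : ℕ → ℕ) (B : (T × Inp) × Inp → Prop), Lin (y * E) β ∧ Lin 0 l ∧
      InH ((π.ext β).ext l) B (max y ρ * E) ∧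
      ∃ L₀, ∀ τ, L₀ ≤ π.idx τ → (P τ ↔ ∃ v, ∀ κ, B ((τ, v), κ))
  /-- (W) slow down: the assumption on 3SAT -/
  slow : ∀ {T : Type} {π : Pres T} {b u e : ℝ} {β : ℕ → ℕ} {B : T × Inp → Prop}, 1 ≤ b →
    Size π b → Lin u β → InH (π.ext β) B e →
    InS c ρ y π (fun τ => ∃ v, B (τ, v)) (max b (max u e))
  /-- (F) diagonal problems -/
  diag : ∀ (a : ℕ) (u e : ℝ), 1 ≤ a → u ≤ e → e < a →
    ∃ (T : Type) (π : Pres T) (D : T → Prop), Size π 1 ∧ InS c ρ y π D a ∧ ¬ InEH u π D e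

/-- `r` rounds -/
theorem TradeP.rounds {c ρ y : ℝ} (hc : 1 ≤ c) (hρ : 0 ≤ ρ) (hρ1 : ρ < 1) (hy : 0 ≤ y)
    (hy1 : y < 1) (H : TradeP c ρ y) {T : Type} {π : Pres T} {D : T → Prop} {a : ℝ} (ha : 1 ≤ a)
    (hs : Size π 1) (hD : InS c ρ y π D a) (r : ℕ) :
    ∃ (β : ℕ → ℕ) (B : T × Inp → Prop), Lin (y * a) β ∧
      InS c ρ y (π.ext β) B (max (max 1 (y * a)) (max y ρ ^ r * a)) ∧
      ∃ L₀, ∀ τ, L₀ ≤ π.idx τ → (D τ ↔ ∃ v, B (τ, v)) := by
  have hc0 : 0 ≤ c := by linarith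
  have ha0 : 0 ≤ a := by linarith
  set μ : ℝ := max y ρ with hμ
  have hμ0 : 0 ≤ μ := hy.trans (le_max_left _ _)
  have hμ1 : μ < 1 := max_lt hy1 hρ1
  have hya : y * a ≤ a := by nlinarith
  induction r with
  | zero =>
    refine ⟨fun _ => 0, fun p => D p.1, Lin.zero (by positivity), ?_, 0, fun τ _ =>
      ⟨fun h => ⟨fun _ => false, h⟩, fun ⟨_, h⟩ => h⟩⟩
    refine (H.dummy hs (Lin.zero le_rfl) hD).mono hc0 hρ hy ?_
    rw [pow_zero, one_mul]
    exact le_max_right _ _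
  | succ r ih =>
    obtain ⟨β, B, hβ, hB, L₁, hP⟩ := ih
    set b : ℝ := max 1 (y * a) with hb
    have hb1 : 1 ≤ b := le_max_left _ _
    have hba : b ≤ a := max_le ha hya
    set E : ℝ := max b (μ ^ r * a) with hE
    have hE0 : 0 ≤ E := le_trans (by linarith) (le_max_left _ _)
    have hEa : E ≤ a := max_le hba (by
      have := pow_le_one₀ (n := r) hμ0 hμ1.le
      nlinarith)
    have hs1 : Size (π.ext β) b := hs.ext hβ
    obtain ⟨β', l, B', hβ', hl, hB', L₂, hP'⟩ := H.speedup hs1 hE0 hB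
    have hβ'' : Lin (y * a) β' := hβ'.mono (mul_le_mul_of_nonneg_left hEa hy)
    have hs2 : Size ((π.ext β).ext β') b := by
      have := hs1.ext hβ''
      rwa [max_eq_left (le_max_right _ _)] at this
    have h1 := H.not (hs2.ext hl) hB'
    have h2 := (H.notS hs2 (H.slow hb1 hs2 hl h1)).congr
      (P' := fun p => ∀ κ, B' (p, κ)) (fun p => by simp)
    obtain ⟨β3, hβ3, h3⟩ := H.merge hs hβ hβ'' h2
    rw [max_self] at hβ3
    refine ⟨β3, _, hβ3, h3.mono hc0 hρ hy ?_, max L₁ L₂, fun τ hτ => ?_⟩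
    · refine max_le (le_max_left _ _) (max_le ((by linarith : (0 : ℝ) ≤ b).trans (le_max_left _ _))
        ?_)
      rw [← hμ, hE, mul_max_of_nonneg _ _ hμ0]
      refine max_le ((mul_le_of_le_one_left (by linarith) hμ1.le).trans (le_max_left _ _)) ?_
      rw [← mul_assoc, ← pow_succ']
      exact le_max_right _ _
    · rw [hP τ (le_trans (le_max_left _ _) hτ)]
      have h5 : ∀ v, B (τ, v) ↔ ∃ v', ∀ κ, B' (((τ, v), v'), κ) := fun v =>
        hP' (τ, v) (le_trans (le_max_right _ _) hτ)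
      constructor
      · rintro ⟨v, hv⟩
        obtain ⟨v', hv'⟩ := (h5 v).1 hv
        exact ⟨pair v v', fun κ => hv' κ⟩
      · rintro ⟨w, hw⟩
        exact ⟨_, (h5 _).2 ⟨_, hw⟩⟩

/-- the machine-independent part of the theorem on partitions -/
theorem not_TradeP {c ρ y : ℝ} (hc : 1 ≤ c) (hρ : 0 ≤ ρ) (hρ1 : ρ < 1) (hy : 0 ≤ y)
    (hcy : c * y < 1) : ¬ TradeP c ρ y := by
  intro H
  have hy1 : y < 1 := by nlinarith
  obtain ⟨a, ha⟩ := exists_nat_gt c
  have ha1 : (1 : ℝ) < a := by linarith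
  have hμ0 : 0 ≤ max y ρ := hy.trans (le_max_left _ _)
  have hμ1 : max y ρ < 1 := max_lt hy1 hρ1
  have he : c * max 1 (y * a) < a := by
    rw [mul_max_of_nonneg _ _ (by linarith)]
    refine max_lt (by linarith) ?_
    have : c * (y * a) = c * y * a := by ring
    rw [this]
    nlinarith
  have hue : y * a ≤ c * max 1 (y * a) := by
    have h1 : y * a ≤ max 1 (y * a) := le_max_right _ _
    have h2 : (0 : ℝ) ≤ max 1 (y * a) := le_trans (by norm_num) (le_max_left _ _)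
    nlinarith
  obtain ⟨T, π, D, hs, hD, hno⟩ := H.diag a _ _ (by exact_mod_cast ha1.le) hue he
  obtain ⟨r, hr⟩ := exists_pow_lt_of_lt_one (show (0 : ℝ) < 1 / a by positivity) hμ1
  obtain ⟨β, B, hβ, hB, L₀, hP⟩ := H.rounds hc hρ hρ1 hy hy1 ha1.le hs hD r
  have hle : max y ρ ^ r * a ≤ 1 := by
    rw [lt_div_iff₀ (by linarith)] at hr
    exact hr.le
  rw [max_eq_left (hle.trans (le_max_left _ _))] at hB
  exact hno ⟨β, B, hβ, hB.toH, L₀, hP⟩

end Pool.Agent.NUM
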