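import Pool.Agent.NUM.HClosure
import Pool.Agent.NUM.PAbs

/-!
# The fields `not`, `notS`, `dummy`, `merge` of `TradeP`
-/

set_option autoImplicit false

namespace Pool.Agent.NUM

theorem QLoc.part (r k : ℕ → ℕ) : QLoc fun L N rc => PartOK N rc (r L) (k L) :=
  fun _ _ _ _ h hP => hP.congr fun t ht _ => h t ht

variable {T : Type} {π : Pres T} {P : T → Prop} {c ρ y E : ℝ}

theorem InS.compl (h : InS c ρ y π P E) : InS c ρ y π (fun τ => ¬ P τ) E := by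
  obtain ⟨r, k, hr, hk, h⟩ := h
  exact ⟨r, k, hr, hk, h.compl (QLoc.part r k)⟩

theorem InS.dummy (β : ℕ → ℕ) (h : InS c ρ y π P E) : InS c ρ y (π.ext β) (fun p => P p.1) E := by
  obtain ⟨r, k, hr, hk, h⟩ := h
  exact ⟨r, k, hr, hk, h.dummy β⟩

theorem InS.merge {u u' : ℝ} {β β' : ℕ → ℕ} {C : (T × Inp) × Inp → Prop} (hβ : Lin u β)
    (hβ' : Lin u' β') (h : InS c ρ y ((π.ext β).ext β') C E) :
    ∃ β'' : ℕ → ℕ, Lin (max u u') β'' ∧
      InS c ρ y (π.ext β'')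
        (fun p => C ((p.1, fun a => p.2 (false :: a)), fun a => p.2 (true :: a))) E := by
  obtain ⟨r, k, hr, hk, h⟩ := h
  obtain ⟨β'', h1, h2⟩ := InG.merge hβ hβ' h
  exact ⟨β'', h1, r, k, hr, hk, h2⟩

theorem InS.congr_ev {P' : T → Prop} (h : InS c ρ y π P E)
    (hP : ∃ L₁, ∀ τ, L₁ ≤ π.idx τ → (P τ ↔ P' τ)) : InS c ρ y π P' E := by
  obtain ⟨r, k, hr, hk, h⟩ := h
  exact ⟨r, k, hr, hk, h.congr_ev hP⟩

theorem tradeP_not {b e : ℝ} (_ : Size π b) (h : InH π P e) : InH π (fun τ => ¬ P τ) e := h.compl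

theorem tradeP_notS {b : ℝ} (_ : Size π b) (h : InS c ρ y π P E) :
    InS c ρ y π (fun τ => ¬ P τ) E := h.compl

theorem tradeP_dummy {b u : ℝ} {β : ℕ → ℕ} (_ : Size π b) (_ : Lin u β) (h : InS c ρ y π P E) :
    InS c ρ y (π.ext β) (fun p => P p.1) E := h.dummy β

theorem tradeP_merge {b u u' : ℝ} {β β' : ℕ → ℕ} {C : (T × Inp) × Inp → Prop} (_ : Size π b)
    (hβ : Lin u β) (hβ' : Lin u' β') (h : InS c ρ y ((π.ext β).ext β') C E) :
    ∃ β'' : ℕ → ℕ, Lin (max u u') β'' ∧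
      InS c ρ y (π.ext β'')
        (fun p => C ((p.1, fun a => p.2 (false :: a)), fun a => p.2 (true :: a))) E :=
  h.merge hβ hβ'

end Pool.Agent.NUM
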