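import Pool.Agent.NUM.HCore
import Pool.Agent.NUM.FragDef

/-!
# Deciding with computation graphs which fall apart
-/

namespace Pool.Agent.NUM

/-- `G`, with `d` pointer cells, decides `P` on the inputs of support `B` within `T` passes, and for
each of these inputs the computation graph falls into parts of at most `l` passes after deleting at
most `K` passes -/
def FragDecides (G : List Ins) (d B T K l : ℕ) (P : Inp → Prop) : Prop :=
  ∀ z, Supp B z → ∃ N ≤ T, HaltsAt (eval G z) d N ∧ (sta (eval G z) d N 2 = true ↔ P z) ∧
    FragOK N (rcl (eval G z) d) K l

end Pool.Agent.NUM
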