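import Pool.Agent.NUM.PFam
import Pool.Agent.NUM.PStmt
import Pool.Agent.NUM.SatGDef

/-!
# From `SatG` to the statement on computation graphs which fall apart
-/

set_option autoImplicit false

namespace Pool.Agent.NUM

open S3

theorem HaltsAt.inj {f : Mem → Mem} {d N N' : ℕ} (h : HaltsAt f d N) (h' : HaltsAt f d N') :
    N = N' := by
  rcases lt_trichotomy N N' with h1 | h1 | h1
  · exact absurd h.1 (by rw [h'.2 N h1]; decide)
  · exact h1
  · exact absurd h'.1 (by rw [h.2 N' h1]; decide)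

theorem fragOK_all (N : ℕ) (rc : ℕ → ℕ) : FragOK N rc (N + 1) 0 := by
  refine ⟨Finset.range (N + 1), by simp, fun _ => 0, fun t ht h => ?_, fun j => ?_⟩
  · exact absurd (Finset.mem_range.2 (by omega)) h
  · rw [Nat.le_zero, Finset.card_eq_zero, Finset.filter_eq_empty_iff]
    intro u hu h
    exact h.1 hu

/-- `a 2 ^ (x m) ≤ 2 ^ (x' m)` for large `m` -/
theorem pow_room {x x' : ℝ} (h : x < x') (a : ℕ) : ∃ m₀ : ℕ, ∀ m : ℕ, m₀ ≤ m →
    (a : ℝ) * 2 ^ (x * m) ≤ 2 ^ (x' * m) := by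
  obtain ⟨m₀, hm⟩ := exists_nat_ge ((a : ℝ) / (x' - x))
  have hpos : 0 < x' - x := by linarith
  refine ⟨m₀, fun m hmm => ?_⟩
  have h1 : (a : ℝ) ≤ (x' - x) * m := by
    rw [div_le_iff₀ hpos] at hm
    have : (m₀ : ℝ) ≤ m := by exact_mod_cast hmm
    nlinarith
  have h2 : (a : ℝ) ≤ 2 ^ ((x' - x) * m) := by
    have h3 : (a : ℝ) ≤ 2 ^ (a : ℝ) := by
      rw [Real.rpow_natCast]
      exact_mod_cast (Nat.lt_two_pow_self (n := a)).le
    exact h3.trans (Real.rpow_le_rpow_of_exponent_le (by norm_num) h1)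
  have h4 : (2 : ℝ) ^ (x' * m) = 2 ^ ((x' - x) * m) * 2 ^ (x * m) := by
    rw [← Real.rpow_add (by norm_num)]
    congr 1
    ring
  rw [h4]
  exact mul_le_mul_of_nonneg_right h2 (by positivity)

theorem frag_core {c c' ρ y : ℝ} (hcc : c ≤ c') (hnot : ¬ SatG (QP ρ y) c')
    {S : ℕ → ℕ → ℕ → ℕ → Prop}
    (hS : ∃ m₁ : ℕ, ∀ m : ℕ, m₁ ≤ m → ∀ T K l N : ℕ, (T : ℝ) ≤ 2 ^ (c * m) → S m T K l → N ≤ T →
      ∀ rc, FragOK N rc K l → PartOK N rc ⌊(2 : ℝ) ^ (ρ * m)⌋₊ ⌊(2 : ℝ) ^ (y * m)⌋₊) :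
    ∃ δ : ℝ, 0 < δ ∧ ∀ m₀ : ℕ, ∃ m : ℕ, m₀ ≤ m ∧ ∀ (G : List Ins) (d s T K l : ℕ), HSz s d G →
      (s : ℝ) ≤ 2 ^ (δ * m) → (T : ℝ) ≤ 2 ^ (c * m) → S m T K l →
        ¬ FragDecides G d (satLen m) T K l (SAT m) := by
  obtain ⟨m₁, hS⟩ := hS
  unfold SatG at hnot
  push Not at hnot
  obtain ⟨δ, hδ, h⟩ := hnot
  refine ⟨δ, hδ, fun m₀ => ?_⟩
  obtain ⟨m, hm, h⟩ := h (max m₀ m₁)
  refine ⟨m, (le_max_left _ _).trans hm, fun G d s T K l hsz hs hT hSm hD => ?_⟩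
  have hT' : (T : ℝ) ≤ 2 ^ ((c' + δ) * m) := by
    refine hT.trans (Real.rpow_le_rpow_of_exponent_le (by norm_num) ?_)
    have : (0 : ℝ) ≤ m := by positivity
    nlinarith
  obtain ⟨z, hz, h⟩ := h G d s T hsz hs hT'
  obtain ⟨N, hN, h1, h2, h3⟩ := hD z hz
  obtain ⟨N', h4, h5⟩ := h ⟨_, ⟨N, hN, h1, rfl⟩, h2⟩
  have := h1.inj h4
  subst this
  exact h5 (hS m ((le_max_right _ _).trans hm) T K l N hT hSm hN _ h3)

/-- the final statement from the negation of `SatG` -/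
theorem frag_of_not (hnot : ∀ c ρ y : ℝ, 1 ≤ c → 0 ≤ ρ → ρ < 1 → 0 ≤ y → c * y < 1 →
      ¬ SatG (QP ρ y) c) (c ξ lam : ℝ) (h1 : c * ξ < 1) (h2 : lam < 1) :
    ∃ δ : ℝ, 0 < δ ∧ ∀ m₀ : ℕ, ∃ m : ℕ, m₀ ≤ m ∧ ∀ (G : List Ins) (d s T K l : ℕ), HSz s d G →
      (s : ℝ) ≤ 2 ^ (δ * m) → (T : ℝ) ≤ 2 ^ (c * m) → (K : ℝ) ≤ 2 ^ (ξ * m) →
        (l : ℝ) ≤ 2 ^ (lam * m) → ¬ FragDecides G d (satLen m) T K l (SAT m) := by
  rcases lt_or_ge c 1 with hc | hc
  · -- trivial time bound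
    obtain ⟨y, hy1, hy2⟩ := exists_between (max_lt hc zero_lt_one)
    have hcy : c < y := (le_max_left _ _).trans_lt hy1
    have h0y : 0 < y := (le_max_right _ _).trans_lt hy1
    obtain ⟨m₁, hm₁⟩ := pow_room hcy 6
    obtain ⟨m₂, hm₂⟩ := pow_room h0y 6
    obtain ⟨δ, hδ, h⟩ := frag_core (S := fun _ _ _ _ => True) hc.le
      (hnot 1 0 y le_rfl le_rfl zero_lt_one h0y.le (by linarith))
      ⟨max m₁ m₂, fun m hm T K l N hT _ hN rc _ => by
        refine (fragOK_all N rc).partOK.mono ?_ ?_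
        · rw [Nat.le_floor_iff (by positivity)]
          simp
        · rw [Nat.le_floor_iff (by positivity)]
          have h3 := hm₁ m ((le_max_left _ _).trans hm)
          have h4 := hm₂ m ((le_max_right _ _).trans hm)
          have h5 : (N : ℝ) ≤ T := by exact_mod_cast hN
          push_cast at h3 h4 ⊢
          rw [zero_mul, Real.rpow_zero] at h4
          linarith⟩
    refine ⟨δ, hδ, fun m₀ => ?_⟩
    obtain ⟨m, hm, h⟩ := h m₀
    exact ⟨m, hm, fun G d s T K l hsz hs hT _ _ => h G d s T K l hsz hs hT trivial⟩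
  · have hc0 : (0 : ℝ) < c := by linarith
    have h3 : ξ < 1 / c := by rw [lt_div_iff₀ hc0]; linarith
    obtain ⟨y, hy1, hy2⟩ := exists_between (max_lt h3 (show (0 : ℝ) < 1 / c by positivity))
    have hξy : ξ < y := (le_max_left _ _).trans_lt hy1
    have h0y : 0 < y := (le_max_right _ _).trans_lt hy1
    have hcy : c * y < 1 := by
      rw [lt_div_iff₀ hc0] at hy2
      linarith
    obtain ⟨ρ, hρ1, hρ2⟩ := exists_between (max_lt h2 zero_lt_one)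
    have hlρ : lam < ρ := (le_max_left _ _).trans_lt hρ1
    have h0ρ : 0 < ρ := (le_max_right _ _).trans_lt hρ1
    obtain ⟨m₁, hm₁⟩ := pow_room hξy 3
    obtain ⟨δ, hδ, h⟩ := frag_core
      (S := fun m _ K l => (K : ℝ) ≤ 2 ^ (ξ * m) ∧ (l : ℝ) ≤ 2 ^ (lam * m)) le_rfl
      (hnot c ρ y hc h0ρ.le hρ2 h0y.le hcy)
      ⟨m₁, fun m hm T K l N _ hS _ rc hF => by
        have hm0 : (0 : ℝ) ≤ m := by positivity
        refine hF.partOK.mono ?_ ?_
        · rw [Nat.le_floor_iff (by positivity), Nat.cast_max, Nat.cast_one]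
          refine max_le (hS.2.trans ?_) ?_
          · exact Real.rpow_le_rpow_of_exponent_le (by norm_num)
              (mul_le_mul_of_nonneg_right hlρ.le hm0)
          · exact Real.one_le_rpow (by norm_num) (by positivity)
        · rw [Nat.le_floor_iff (by positivity)]
          refine le_trans ?_ (hm₁ m hm)
          push_cast
          linarith [hS.1]⟩
    refine ⟨δ, hδ, fun m₀ => ?_⟩
    obtain ⟨m, hm, h⟩ := h m₀
    exact ⟨m, hm, fun G d s T K l hsz hs hT hK hl => h G d s T K l hsz hs hT ⟨hK, hl⟩⟩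

end Pool.Agent.NUM
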