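import Pool.Agent.NUM.HDiag
import Pool.Agent.NUM.HSlow
import Pool.Agent.NUM.PClosure

/-!
# The fields `slow`, `diag` of `TradeP` from the pivot
-/

set_option autoImplicit false

namespace Pool.Agent.NUM

theorem QLoc.qP (ρ y : ℝ) : QLoc (QP ρ y) := fun _ _ _ _ h hP => hP.congr fun t ht _ => h t ht

theorem tradeP_slow {c ρ y : ℝ} (hρ : 0 ≤ ρ) (hy : 0 ≤ y) (P : PivotH (QP ρ y) c) {T : Type}
    {π : Pres T} {b u e : ℝ} {β : ℕ → ℕ} {B : T × Inp → Prop} (hb : 1 ≤ b)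
    (hs : Size π b) (hβ : Lin u β) (h : InH (π.ext β) B e) :
    InS c ρ y π (fun τ => ∃ v, B (τ, v)) (max b (max u e)) :=
  (hslow P hb hs hβ h).toS hρ hy

theorem tradeP_diag {c ρ y : ℝ} (hρ : 0 ≤ ρ) (hy : 0 ≤ y) (P : PivotH (QP ρ y) c) (a : ℕ)
    (u e : ℝ) (ha : 1 ≤ a) (hue : u ≤ e) (hea : e < a) :
    ∃ (T : Type) (π : Pres T) (D : T → Prop), Size π 1 ∧ InS c ρ y π D a ∧ ¬ InEH u π D e := by
  obtain ⟨T, π, D, h1, h2, h3⟩ := hdiag (QLoc.qP ρ y) P a u e ha hue hea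
  exact ⟨T, π, D, h1, h2.toS hρ hy, h3⟩

end Pool.Agent.NUM
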