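import Pool.Agent.NUM.PWin
import Pool.Agent.NUM.HSpeed
import Pool.Agent.NUM.HCodeF

/-!
# Theorem P, window version
-/

set_option autoImplicit false

namespace Pool.Agent.NUM

open S3

/-- **The lower bound for the satisfiability of 3-CNF formulas** by history programs whose
computation graphs fall apart, in every window of lengths. -/
theorem sat_frag_window (c ξ lam : ℝ) (h1 : c * ξ < 1) (h2 : lam < 1) :
    ∃ (δ : ℝ) (A M₀ : ℕ), 0 < δ ∧ ∀ M : ℕ, M₀ ≤ M → ∃ m : ℕ, M ≤ m ∧ m ≤ A * M ∧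
      ∀ (G : List Ins) (d s T K l : ℕ), HSz s d G →
      (s : ℝ) ≤ 2 ^ (δ * m) → (T : ℝ) ≤ 2 ^ (c * m) → (K : ℝ) ≤ 2 ^ (ξ * m) →
        (l : ℝ) ≤ 2 ^ (lam * m) → ¬ FragDecides G d (satLen m) T K l (SAT m) :=
  frag_of_notW (fun _ _ _ hc hρ hρ1 hy hcy =>
    not_satGW (fun hE h => tradeP_speedup_of hCodeOK (by linarith) hy hE h) hc hρ hρ1 hy hcy) c ξ lam h1 h2

end Pool.Agent.NUM
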