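import Pool.Agent.NUM.HWin
import Pool.Agent.NUM.PPivot
import Pool.Agent.NUM.PFinalA

/-!
# Theorem P relative to a set of indices (window version)
-/

set_option autoImplicit false

namespace Pool.Agent.NUM

open Filter S3

/-- The interface for purely functional programs, with a set `S` of indices for which the assumption
on 3SAT holds. -/
structure TradePW (S : Set ℕ) (c ρ y : ℝ) : Prop where
  not : ∀ {T : Type} {π : Pres T} {P : T → Prop} {b e : ℝ}, Size π b → InH π P e →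
    InH π (fun τ => ¬ P τ) e
  notS : ∀ {T : Type} {π : Pres T} {P : T → Prop} {b E : ℝ}, Size π b → InS c ρ y π P E →
    InS c ρ y π (fun τ => ¬ P τ) E
  dummy : ∀ {T : Type} {π : Pres T} {P : T → Prop} {b u E : ℝ} {β : ℕ → ℕ}, Size π b → Lin u β →
    InS c ρ y π P E → InS c ρ y (π.ext β) (fun p => P p.1) E
  merge : ∀ {T : Type} {π : Pres T} {b u u' E : ℝ} {β β' : ℕ → ℕ}
    {C : (T × Inp) × Inp → Prop}, Size π b → Lin u β → Lin u' β' →
    InS c ρ y ((π.ext β).ext β') C E →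
    ∃ β'' : ℕ → ℕ, Lin (max u u') β'' ∧
      InS c ρ y (π.ext β'')
        (fun p => C ((p.1, fun a => p.2 (false :: a)), fun a => p.2 (true :: a))) E
  speedup : ∀ {T : Type} {π : Pres T} {P : T → Prop} {b E : ℝ}, Size π b → 0 ≤ E →
    InS c ρ y π P E →
    ∃ (β l : ℕ → ℕ) (B : (T × Inp) × Inp → Prop), Lin (y * E) β ∧ Lin 0 l ∧
      InH ((π.ext β).ext l) B (max y ρ * E) ∧
      ∃ L₀, ∀ τ, L₀ ≤ π.idx τ → (P τ ↔ ∃ v, ∀ κ, B ((τ, v), κ))
  slow : ∀ {T : Type} {π : Pres T} {b u e : ℝ} {β : ℕ → ℕ} {B : T × Inp → Prop},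
    (∀ τ, π.idx τ ∈ S) → 1 ≤ b → Size π b → Lin u β → InH (π.ext β) B e →
    InS c ρ y π (fun τ => ∃ v, B (τ, v)) (max b (max u e))
  diag : ∀ (a : ℕ) (u e : ℝ), 1 ≤ a → u ≤ e → e < a →
    ∃ (T : Type) (π : Pres T) (D : T → Prop), (∀ τ, π.idx τ ∈ S) ∧ Size π 1 ∧
      InS c ρ y π D a ∧ ¬ InEH u π D e

/-- `r` rounds -/
theorem TradePW.rounds {S : Set ℕ} {c ρ y : ℝ} (hc : 1 ≤ c) (hρ : 0 ≤ ρ) (hρ1 : ρ < 1)
    (hy : 0 ≤ y) (hy1 : y < 1) (H : TradePW S c ρ y) {T : Type} {π : Pres T}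
    (hπ : ∀ τ, π.idx τ ∈ S) {D : T → Prop} {a : ℝ} (ha : 1 ≤ a)
    (hs : Size π 1) (hD : InS c ρ y π D a) (r : ℕ) :
    ∃ (β : ℕ → ℕ) (B : T × Inp → Prop), Lin (y * a) β ∧
      InS c ρ y (π.ext β) B (max (max 1 (y * a)) (max y ρ ^ r * a)) ∧
      ∃ L₀, ∀ τ, L₀ ≤ π.idx τ → (D τ ↔ ∃ v, B (τ, v)) := by
  have hc0 : 0 ≤ c := by linarith
  have ha0 : 0 ≤ a := by linarith
  set μ : ℝ := max y ρ with hμ
  have hμ0 : 0 ≤ μ := hy.trans (le_max_left _ _)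
  have hμ1 : μ < 1 := max_lt hy1 hρ1
  have hya : y * a ≤ a := by nlinarith
  induction r with
  | zero =>
    refine ⟨fun _ => 0, fun p => D p.1, Lin.zero (by positivity), ?_, 0, fun τ _ =>
      ⟨fun h => ⟨fun _ => false, h⟩, fun ⟨_, h⟩ => h⟩⟩
    refine (H.dummy hs (Lin.zero le_rfl) hD).mono hc0 hρ hy ?_
    rw [pow_zero, one_mul]
    exact le_max_right _ _
  | succ r ih =>
    obtain ⟨β, B, hβ, hB, L₁, hP⟩ := ih
    set b : ℝ := max 1 (y * a) with hb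
    have hb1 : 1 ≤ b := le_max_left _ _
    have hba : b ≤ a := max_le ha hya
    set E : ℝ := max b (μ ^ r * a) with hE
    have hE0 : 0 ≤ E := le_trans (by linarith) (le_max_left _ _)
    have hEa : E ≤ a := max_le hba (by
      have := pow_le_one₀ (n := r) hμ0 hμ1.le
      nlinarith)
    have hs1 : Size (π.ext β) b := hs.ext hβ
    obtain ⟨β', l, B', hβ', hl, hB', L₂, hP'⟩ := H.speedup hs1 hE0 hB
    have hβ'' : Lin (y * a) β' := hβ'.mono (mul_le_mul_of_nonneg_left hEa hy)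
    have hs2 : Size ((π.ext β).ext β') b := by
      have := hs1.ext hβ''
      rwa [max_eq_left (le_max_right _ _)] at this
    have h1 := H.not (hs2.ext hl) hB'
    have h2 := (H.notS hs2 (H.slow (π := (π.ext β).ext β') (fun τ => hπ τ.1.1) hb1 hs2 hl h1)).congr
      (P' := fun p => ∀ κ, B' (p, κ)) (fun p => by simp)
    obtain ⟨β3, hβ3, h3⟩ := H.merge hs hβ hβ'' h2
    rw [max_self] at hβ3
    refine ⟨β3, _, hβ3, h3.mono hc0 hρ hy ?_, max L₁ L₂, fun τ hτ => ?_⟩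
    · refine max_le (le_max_left _ _) (max_le ((by linarith : (0 : ℝ) ≤ b).trans (le_max_left _ _))
        ?_)
      rw [← hμ, hE, mul_max_of_nonneg _ _ hμ0]
      refine max_le ((mul_le_of_le_one_left (by linarith) hμ1.le).trans (le_max_left _ _)) ?_
      rw [← mul_assoc, ← pow_succ']
      exact le_max_right _ _
    · rw [hP τ (le_trans (le_max_left _ _) hτ)]
      have h5 : ∀ v, B (τ, v) ↔ ∃ v', ∀ κ, B' (((τ, v), v'), κ) := fun v =>
        hP' (τ, v) (le_trans (le_max_right _ _) hτ)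
      constructor
      · rintro ⟨v, hv⟩
        obtain ⟨v', hv'⟩ := (h5 v).1 hv
        exact ⟨pair v v', fun κ => hv' κ⟩
      · rintro ⟨w, hw⟩
        exact ⟨_, (h5 _).2 ⟨_, hw⟩⟩

/-- the machine-independent part of the theorem on partitions -/
theorem not_TradePW {S : Set ℕ} {c ρ y : ℝ} (hc : 1 ≤ c) (hρ : 0 ≤ ρ) (hρ1 : ρ < 1)
    (hy : 0 ≤ y) (hcy : c * y < 1) : ¬ TradePW S c ρ y := by
  intro H
  have hy1 : y < 1 := by nlinarith
  obtain ⟨a, ha⟩ := exists_nat_gt c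
  have ha1 : (1 : ℝ) < a := by linarith
  have hμ0 : 0 ≤ max y ρ := hy.trans (le_max_left _ _)
  have hμ1 : max y ρ < 1 := max_lt hy1 hρ1
  have he : c * max 1 (y * a) < a := by
    rw [mul_max_of_nonneg _ _ (by linarith)]
    refine max_lt (by linarith) ?_
    have : c * (y * a) = c * y * a := by ring
    rw [this]
    nlinarith
  have hue : y * a ≤ c * max 1 (y * a) := by
    have h1 : y * a ≤ max 1 (y * a) := le_max_right _ _
    have h2 : (0 : ℝ) ≤ max 1 (y * a) := le_trans (by norm_num) (le_max_left _ _)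
    nlinarith
  obtain ⟨T, π, D, hπ, hs, hD, hno⟩ := H.diag a _ _ (by exact_mod_cast ha1.le) hue he
  obtain ⟨r, hr⟩ := exists_pow_lt_of_lt_one (show (0 : ℝ) < 1 / a by positivity) hμ1
  obtain ⟨β, B, hβ, hB, L₀, hP⟩ := H.rounds hc hρ hρ1 hy hy1 hπ ha1.le hs hD r
  have hle : max y ρ ^ r * a ≤ 1 := by
    rw [lt_div_iff₀ (by linarith)] at hr
    exact hr.le
  rw [max_eq_left (hle.trans (le_max_left _ _))] at hB
  exact hno ⟨β, B, hβ, hB.toH, L₀, hP⟩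

theorem InVW.toS {c ρ y : ℝ} (hρ : 0 ≤ ρ) (hy : 0 ≤ y) {T : Type} {π : Pres T} {P : T → Prop}
    {E : ℝ} (h : InVW (fun _ => QP ρ y) c π P E) : InS c ρ y π P E := by
  obtain ⟨m, hm, _, h⟩ := h
  exact ⟨_, _, ex_floor_pow hρ hm, ex_floor_pow hy hm, h⟩

/-- the hypothesis on 3SAT is refuted, if the field `speedup` is given -/
theorem not_satGW {c ρ y : ℝ}
    (hspeed : ∀ {T : Type} {π : Pres T} {P : T → Prop} {E : ℝ}, 0 ≤ E →
      InS c ρ y π P E →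
      ∃ (β l : ℕ → ℕ) (B : (T × Inp) × Inp → Prop), Lin (y * E) β ∧ Lin 0 l ∧
        InH ((π.ext β).ext l) B (max y ρ * E) ∧
        ∃ L₀, ∀ τ, L₀ ≤ π.idx τ → (P τ ↔ ∃ v, ∀ κ, B ((τ, v), κ)))
    (hc : 1 ≤ c) (hρ : 0 ≤ ρ) (hρ1 : ρ < 1) (hy : 0 ≤ y) (hcy : c * y < 1) :
    ¬ SatGW (fun _ => QP ρ y) c := by
  intro H
  obtain ⟨S, dl, hS, -, -, ⟨P⟩⟩ := exists_pivotHW (by linarith) H
  refine not_TradePW (S := S) hc hρ hρ1 hy hcy ?_
  exact {
    not := fun hs h => tradeP_not hs h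
    notS := fun hs h => tradeP_notS hs h
    dummy := fun hs hβ h => tradeP_dummy hs hβ h
    merge := fun hs hβ hβ' h => tradeP_merge hs hβ hβ' h
    speedup := fun _ hE h => hspeed hE h
    slow := fun hπ hb hs hβ h => (hslowW P hπ hb hs hβ h).toS hρ hy
    diag := fun a u e ha hue hea => by
      obtain ⟨T, π, D, h0, h1, h2, h3⟩ := hdiagW hS (fun _ => QLoc.qP ρ y) P a u e ha hue hea
      exact ⟨T, π, D, h0, h1, h2.toS hρ hy, h3⟩ }

theorem frag_coreW {c c' ρ y : ℝ} (hcc : c ≤ c') (hnot : ¬ SatGW (fun _ => QP ρ y) c')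
    {S : ℕ → ℕ → ℕ → ℕ → Prop}
    (hS : ∃ m₁ : ℕ, ∀ m : ℕ, m₁ ≤ m → ∀ T K l N : ℕ, (T : ℝ) ≤ 2 ^ (c * m) → S m T K l → N ≤ T →
      ∀ rc, FragOK N rc K l → PartOK N rc ⌊(2 : ℝ) ^ (ρ * m)⌋₊ ⌊(2 : ℝ) ^ (y * m)⌋₊) :
    ∃ (δ : ℝ) (A M₀ : ℕ), 0 < δ ∧ ∀ M : ℕ, M₀ ≤ M → ∃ m : ℕ, M ≤ m ∧ m ≤ A * M ∧
      ∀ (G : List Ins) (d s T K l : ℕ), HSz s d G →
      (s : ℝ) ≤ 2 ^ (δ * m) → (T : ℝ) ≤ 2 ^ (c * m) → S m T K l →
        ¬ FragDecides G d (satLen m) T K l (SAT m) := by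
  obtain ⟨m₁, hS⟩ := hS
  unfold SatGW at hnot
  push Not at hnot
  obtain ⟨δ, hδ, A, M₀, h⟩ := hnot
  refine ⟨δ, A, max M₀ m₁, hδ, fun M hM => ?_⟩
  obtain ⟨m, hm, hmA, h⟩ := h M ((le_max_left _ _).trans hM)
  refine ⟨m, hm, hmA, fun G d s T K l hsz hs hT hSm hD => ?_⟩
  have hT' : (T : ℝ) ≤ 2 ^ ((c' + δ) * m) := by
    refine hT.trans (Real.rpow_le_rpow_of_exponent_le (by norm_num) ?_)
    have : (0 : ℝ) ≤ m := by positivity
    nlinarith
  obtain ⟨z, hz, h⟩ := h G d s T hsz hs hT'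
  obtain ⟨N, hN, h1, h2, h3⟩ := hD z hz
  obtain ⟨N', h4, h5⟩ := h ⟨_, ⟨N, hN, h1, rfl⟩, h2⟩
  have := h1.inj h4
  subst this
  exact h5 (hS m (((le_max_right _ _).trans hM).trans hm) T K l N hT hSm hN _ h3)

/-- the final statement from the negation of `SatGW` -/
theorem frag_of_notW (hnot : ∀ c ρ y : ℝ, 1 ≤ c → 0 ≤ ρ → ρ < 1 → 0 ≤ y → c * y < 1 →
      ¬ SatGW (fun _ => QP ρ y) c) (c ξ lam : ℝ) (h1 : c * ξ < 1) (h2 : lam < 1) :
    ∃ (δ : ℝ) (A M₀ : ℕ), 0 < δ ∧ ∀ M : ℕ, M₀ ≤ M → ∃ m : ℕ, M ≤ m ∧ m ≤ A * M ∧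
      ∀ (G : List Ins) (d s T K l : ℕ), HSz s d G →
      (s : ℝ) ≤ 2 ^ (δ * m) → (T : ℝ) ≤ 2 ^ (c * m) → (K : ℝ) ≤ 2 ^ (ξ * m) →
        (l : ℝ) ≤ 2 ^ (lam * m) → ¬ FragDecides G d (satLen m) T K l (SAT m) := by
  rcases lt_or_ge c 1 with hc | hc
  · -- trivial time bound
    obtain ⟨y, hy1, hy2⟩ := exists_between (max_lt hc zero_lt_one)
    have hcy : c < y := (le_max_left _ _).trans_lt hy1
    have h0y : 0 < y := (le_max_right _ _).trans_lt hy1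
    obtain ⟨m₁, hm₁⟩ := pow_room hcy 6
    obtain ⟨m₂, hm₂⟩ := pow_room h0y 6
    obtain ⟨δ, A, M₀, hδ, h⟩ := frag_coreW (S := fun _ _ _ _ => True) hc.le
      (hnot 1 0 y le_rfl le_rfl zero_lt_one h0y.le (by linarith))
      ⟨max m₁ m₂, fun m hm T K l N hT _ hN rc _ => by
        refine (fragOK_all N rc).partOK.mono ?_ ?_
        · rw [Nat.le_floor_iff (by positivity)]
          simp
        · rw [Nat.le_floor_iff (by positivity)]
          have h3 := hm₁ m ((le_max_left _ _).trans hm)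
          have h4 := hm₂ m ((le_max_right _ _).trans hm)
          have h5 : (N : ℝ) ≤ T := by exact_mod_cast hN
          push_cast at h3 h4 ⊢
          rw [zero_mul, Real.rpow_zero] at h4
          linarith⟩
    refine ⟨δ, A, M₀, hδ, fun M hM => ?_⟩
    obtain ⟨m, hm, hmA, h⟩ := h M hM
    exact ⟨m, hm, hmA, fun G d s T K l hsz hs hT _ _ => h G d s T K l hsz hs hT trivial⟩
  · have hc0 : (0 : ℝ) < c := by linarith
    have h3 : ξ < 1 / c := by rw [lt_div_iff₀ hc0]; linarith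
    obtain ⟨y, hy1, hy2⟩ := exists_between (max_lt h3 (show (0 : ℝ) < 1 / c by positivity))
    have hξy : ξ < y := (le_max_left _ _).trans_lt hy1
    have h0y : 0 < y := (le_max_right _ _).trans_lt hy1
    have hcy : c * y < 1 := by
      rw [lt_div_iff₀ hc0] at hy2
      linarith
    obtain ⟨ρ, hρ1, hρ2⟩ := exists_between (max_lt h2 zero_lt_one)
    have hlρ : lam < ρ := (le_max_left _ _).trans_lt hρ1
    have h0ρ : 0 < ρ := (le_max_right _ _).trans_lt hρ1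
    obtain ⟨m₁, hm₁⟩ := pow_room hξy 3
    obtain ⟨δ, A, M₀, hδ, h⟩ := frag_coreW
      (S := fun m _ K l => (K : ℝ) ≤ 2 ^ (ξ * m) ∧ (l : ℝ) ≤ 2 ^ (lam * m)) le_rfl
      (hnot c ρ y hc h0ρ.le hρ2 h0y.le hcy)
      ⟨m₁, fun m hm T K l N _ hS _ rc hF => by
        have hm0 : (0 : ℝ) ≤ m := by positivity
        refine hF.partOK.mono ?_ ?_
        · rw [Nat.le_floor_iff (by positivity), Nat.cast_max, Nat.cast_one]
          refine max_le (hS.2.trans ?_) ?_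
          · exact Real.rpow_le_rpow_of_exponent_le (by norm_num)
              (mul_le_mul_of_nonneg_right hlρ.le hm0)
          · exact Real.one_le_rpow (by norm_num) (by positivity)
        · rw [Nat.le_floor_iff (by positivity)]
          refine le_trans ?_ (hm₁ m hm)
          push_cast
          linarith [hS.1]⟩
    refine ⟨δ, A, M₀, hδ, fun M hM => ?_⟩
    obtain ⟨m, hm, hmA, h⟩ := h M hM
    exact ⟨m, hm, hmA, fun G d s T K l hsz hs hT hK hl => h G d s T K l hsz hs hT ⟨hK, hl⟩⟩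

end Pool.Agent.NUM
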