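import Mathlib
import Pool.Agent.NUM.Sys

/-!
# P3: the piece (separator) lemma

An evaluation `Y.Ev T m v` of a recursive system is certified by records `R k`, `k < N`, as soon as
`2 T + L ≤ N L` (`rec_complete`): record `k` claims that `(R k).m` returns `(R k).v`, and this is
checked by an evaluation with at most two jumps (`Sys.Rev`) of at most `2 L + 1` time units; the jumps
are the claims of the records `(R k).i1` and `(R k).i2` at the times `(R k).t1`, `(R k).t2`; they are
used only if the index is smaller than `k`.  Conversely checked records are true (`rec_sound`).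
-/

set_option autoImplicit false

namespace Pool.Agent.NUM

variable {M V W : Type}

/-! ## Evaluation with a list of pending jumps -/

/-- there is no jump scheduled at time `t`. -/
def NoJump (t : ℕ) (J : List (ℕ × M × V)) : Prop := ∀ b ∈ J.head?, b.1 ≠ t

/-- big-step evaluation with a list of jumps: started at time `t` in memory `m` with the list `J` of
pending jumps (time, memory, value) the procedure returns `v` at time `t'` and `J'` is the list of
jumps that are still pending. -/
inductive LRev (Y : Sys M V W) :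
    ℕ → List (ℕ × M × V) → ℕ → List (ℕ × M × V) → M → V → Prop
  | jump {t : ℕ} {m : M} {v : V} {J : List (ℕ × M × V)} :
      LRev Y t ((t, m, v) :: J) (t + 1) J m v
  | ret {t : ℕ} {m : M} {v : V} {J : List (ℕ × M × V)} (hJ : NoJump t J)
      (hs : Y.out m = .ret v) : LRev Y t J (t + 1) J m v
  | go {t t' : ℕ} {m m' : M} {v : V} {J J' : List (ℕ × M × V)} (hJ : NoJump t J)
      (hs : Y.out m = .go m') (h1 : LRev Y (t + 1) J t' J' m' v) :
      LRev Y t J t' J' m v
  | call {t t1 t2 : ℕ} {m m' : M} {w : W} {v1 v : V} {J J1 J2 : List (ℕ × M × V)}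
      (hJ : NoJump t J) (hs : Y.out m = .call m' w)
      (h1 : LRev Y (t + 1) J t1 J1 m' v1) (h2 : LRev Y t1 J1 t2 J2 (Y.res v1 w) v) :
      LRev Y t J t2 J2 m v

theorem LRev.lt {Y : Sys M V W} {t t' : ℕ} {J J' : List (ℕ × M × V)} {m : M}
    {v : V} (h : LRev Y t J t' J' m v) : t < t' := by
  induction h <;> omega

/-- from lists of jumps to jumps as a partial function of the time -/
theorem LRev.rev {Y : Sys M V W} {t t' : ℕ} {J J' : List (ℕ × M × V)} {m : M} {v : V}
    (h : LRev Y t J t' J' m v) : ∃ U : List (ℕ × M × V), J = U ++ J' ∧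
      (∀ b ∈ U, t ≤ b.1 ∧ b.1 < t') ∧ U.Pairwise (fun a b => a.1 < b.1) ∧
      ∀ F : ℕ → Option (M × V), (∀ b ∈ U, F b.1 = some b.2) →
        (∀ u, t ≤ u → u < t' → (∀ b ∈ U, b.1 ≠ u) → F u = none) → Y.Rev F t m v t' := by
  induction h with
  | @jump t m v J =>
    refine ⟨[(t, m, v)], rfl, fun b hb => ?_, List.pairwise_singleton _ _, fun F h1 _ => ?_⟩
    · rw [List.mem_singleton] at hb
      rw [hb]
      exact ⟨le_rfl, Nat.lt_succ_self _⟩
    · exact .jump (h1 _ List.mem_cons_self)
  | @ret t m v J hJ hs =>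
    refine ⟨[], rfl, fun b hb => (List.not_mem_nil hb).elim, List.Pairwise.nil, fun F _ h2 => ?_⟩
    exact .ret (h2 t le_rfl (Nat.lt_succ_self _) fun b hb => (List.not_mem_nil hb).elim) hs
  | @go t t' m m' v J J' hJ hs h1 ih =>
    obtain ⟨U, a1, a2, a3, a4⟩ := ih
    have hlt := h1.lt
    refine ⟨U, a1, fun b hb => ⟨by have := (a2 b hb).1; omega, (a2 b hb).2⟩, a3, fun F h2 h3 => ?_⟩
    refine .go (h3 t le_rfl (by omega) fun b hb => ?_) hs
      (a4 F h2 fun u hu hu' h4 => h3 u (by omega) hu' h4)
    have := (a2 b hb).1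
    omega
  | @call t t1 t2 m m' w v1 v J J1 J2 hJ hs h1 h2 ih1 ih2 =>
    obtain ⟨U, a1, a2, a3, a4⟩ := ih1
    obtain ⟨U', b1, b2, b3, b4⟩ := ih2
    have hlt := h1.lt
    have hlt' := h2.lt
    refine ⟨U ++ U', by rw [a1, b1, List.append_assoc], fun b hb => ?_, ?_, fun F h3 h4 => ?_⟩
    · rcases List.mem_append.1 hb with hb | hb
      · have := a2 b hb
        omega
      · have := b2 b hb
        omega
    · refine List.pairwise_append.2 ⟨a3, b3, fun a ha b hb => ?_⟩
      have h5 := (a2 a ha).2
      have h6 := (b2 b hb).1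
      omega
    · refine .call (h4 t le_rfl (by omega) fun b hb => ?_) hs
        (a4 F (fun b hb => h3 b (List.mem_append_left _ hb)) fun u hu hu' h5 => ?_)
        (b4 F (fun b hb => h3 b (List.mem_append_right _ hb)) fun u hu hu' h5 => ?_)
      · rcases List.mem_append.1 hb with hb | hb
        · have := a2 b hb
          omega
        · have := b2 b hb
          omega
      · refine h4 u (by omega) (by omega) fun b hb => ?_
        rcases List.mem_append.1 hb with hb | hb
        · exact h5 b hb
        · have := b2 b hb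
          omega
      · refine h4 u (by omega) (by omega) fun b hb => ?_
        rcases List.mem_append.1 hb with hb | hb
        · have := a2 b hb
          omega
        · exact h5 b hb

/-! ## Shifting and combining -/

/-- the jumps moved by `a` time units -/
def shJ (a : ℕ) (J : List (ℕ × M × V)) : List (ℕ × M × V) := J.map fun b => (b.1 + a, b.2)

theorem length_shJ (a : ℕ) (J : List (ℕ × M × V)) : (shJ a J).length = J.length :=
  List.length_map _

theorem mem_shJ {a : ℕ} {J : List (ℕ × M × V)} {b : ℕ × M × V} (hb : b ∈ shJ a J) :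
    a ≤ b.1 ∧ ∃ b' ∈ J, b.2 = b'.2 := by
  obtain ⟨b', hb', rfl⟩ := List.mem_map.1 hb
  exact ⟨Nat.le_add_left _ _, b', hb', rfl⟩

theorem NoJump.shift {t : ℕ} {J : List (ℕ × M × V)} (h : NoJump t J) (a : ℕ) :
    NoJump (t + a) (shJ a J) := by
  intro b hb
  cases J with
  | nil => simp [shJ] at hb
  | cons c J =>
    have hc : b = (c.1 + a, c.2) := by
      have h1 : (shJ a (c :: J)).head? = some (c.1 + a, c.2) := rfl
      rw [h1, Option.mem_some_iff] at hb
      exact hb.symm
    have h2 := h c (by simp)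
    rw [hc]
    intro h3
    apply h2
    have h4 : c.1 + a = t + a := h3
    omega

theorem NoJump.of_le {t : ℕ} {J : List (ℕ × M × V)} (h : ∀ b ∈ J, t < b.1) : NoJump t J := by
  intro b hb
  have h1 := h b (List.mem_of_mem_head? hb)
  omega

theorem NoJump.append {t : ℕ} {J K : List (ℕ × M × V)} (h : NoJump t J)
    (hK : ∀ b ∈ K, t < b.1) : NoJump t (J ++ K) := by
  cases J with
  | nil => exact NoJump.of_le hK
  | cons c J =>
    intro b hb
    exact h b hb

theorem LRev.shift {Y : Sys M V W} {t t' : ℕ} {J J' : List (ℕ × M × V)} {m : M}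
    {v : V} (h : LRev Y t J t' J' m v) (a : ℕ) :
    LRev Y (t + a) (shJ a J) (t' + a) (shJ a J') m v := by
  induction h with
  | @jump t m v J =>
    have h1 : t + 1 + a = t + a + 1 := by omega
    rw [h1]
    exact .jump
  | @ret t m v J hJ hs =>
    have h1 : t + 1 + a = t + a + 1 := by omega
    rw [h1]
    exact .ret (hJ.shift a) hs
  | @go t t' m m' v J J' hJ hs _ ih =>
    have h1 : t + 1 + a = t + a + 1 := by omega
    rw [h1] at ih
    exact .go (hJ.shift a) hs ih
  | @call t t1 t2 m m' w v1 v J J1 J2 hJ hs _ _ ih1 ih2 =>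
    have h1 : t + 1 + a = t + a + 1 := by omega
    rw [h1] at ih1
    exact .call (hJ.shift a) hs ih1 ih2

theorem LRev.append {Y : Sys M V W} {t t' : ℕ} {J J' : List (ℕ × M × V)} {m : M}
    {v : V} (h : LRev Y t J t' J' m v) (K : List (ℕ × M × V)) (hK : ∀ b ∈ K, t' ≤ b.1) :
    LRev Y t (J ++ K) t' (J' ++ K) m v := by
  induction h with
  | jump => exact .jump
  | ret hJ hs =>
    exact .ret (hJ.append fun b hb => by have := hK b hb; omega) hs
  | go hJ hs h1 ih =>
    have h2 := h1.lt
    exact .go (hJ.append fun b hb => by have := hK b hb; omega) hs (ih hK)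
  | call hJ hs h1 h2 ih1 ih2 =>
    have h3 := h1.lt
    have h4 := h2.lt
    exact .call (hJ.append fun b hb => by have := hK b hb; omega) hs
      (ih1 fun b hb => by have := hK b hb; omega) (ih2 hK)

theorem LRev.go0 {Y : Sys M V W} {k : ℕ} {J : List (ℕ × M × V)} {m m' : M}
    {v : V} (hs : Y.out m = .go m') (h1 : LRev Y 0 J k [] m' v) :
    LRev Y 0 (shJ 1 J) (k + 1) [] m v := by
  refine .go (NoJump.of_le fun b hb => ?_) hs ?_
  · exact (mem_shJ hb).1
  · have h2 := h1.shift 1
    rw [Nat.zero_add] at h2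
    exact h2

theorem LRev.call0 {Y : Sys M V W} {k1 k2 : ℕ} {J1 J2 : List (ℕ × M × V)}
    {m m' : M} {w : W} {v1 v : V} (hs : Y.out m = .call m' w)
    (h1 : LRev Y 0 J1 k1 [] m' v1) (h2 : LRev Y 0 J2 k2 [] (Y.res v1 w) v) :
    LRev Y 0 (shJ 1 J1 ++ shJ (k1 + 1) J2) (k1 + k2 + 1) [] m v := by
  have h3 := (h1.shift 1).append (shJ (k1 + 1) J2) fun b hb => (mem_shJ hb).1
  have h4 := h2.shift (k1 + 1)
  rw [Nat.zero_add] at h3 h4
  have h5 : k2 + (k1 + 1) = k1 + k2 + 1 := by omega
  rw [h5] at h4
  refine .call (NoJump.of_le fun b hb => ?_) hs h3 h4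
  rcases List.mem_append.1 hb with hb | hb
  · exact (mem_shJ hb).1
  · have := (mem_shJ hb).1
    omega

/-! ## Chains of pieces (latest piece first) -/

/-- a list of pairs (memory, value), the latest first, each of which is an evaluation of at most `K`
time units with at most two jumps, which are earlier members. -/
inductive Chain (Y : Sys M V W) (PM : M → Prop) (PV : V → Prop) (K : ℕ) : List (M × V) → Prop
  | nil : Chain Y PM PV K []
  | cons {P : List (M × V)} {J : List (ℕ × M × V)} {m : M} {v : V} {k : ℕ}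
      (hP : Chain Y PM PV K P) (hJ : J.length ≤ 2) (hm : ∀ b ∈ J, b.2 ∈ P) (hk : k ≤ K)
      (hPM : PM m) (hPV : PV v) (hR : LRev Y 0 J k [] m v) : Chain Y PM PV K ((m, v) :: P)

theorem Chain.append {Y : Sys M V W} {PM : M → Prop} {PV : V → Prop} {K : ℕ}
    {P Q : List (M × V)} (hQ : Chain Y PM PV K Q) (hP : Chain Y PM PV K P) :
    Chain Y PM PV K (Q ++ P) := by
  induction hQ with
  | nil => exact hP
  | cons _ hJ hm hk hPM hPV hR ih =>
    exact .cons ih hJ (fun b hb => List.mem_append_left _ (hm b hb)) hk hPM hPV hR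

/-- padding by copies of the last piece -/
theorem Chain.pad {Y : Sys M V W} {PM : M → Prop} {PV : V → Prop} {K : ℕ} {P : List (M × V)}
    {m : M} {v : V} (h : Chain Y PM PV K ((m, v) :: P)) (hK : 1 ≤ K) (n : ℕ) :
    Chain Y PM PV K (List.replicate n (m, v) ++ (m, v) :: P) := by
  have hmv : PM m ∧ PV v := by
    cases h with
    | cons _ _ _ _ h1 h2 _ => exact ⟨h1, h2⟩
  induction n with
  | zero => exact h
  | succ n ih =>
    rw [List.replicate_succ, List.cons_append]
    refine .cons ih (J := [(0, m, v)]) (k := 1) (by simp) (fun b hb => ?_) hK hmv.1 hmv.2 .jump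
    rw [List.mem_singleton] at hb
    rw [hb]
    exact List.mem_append_right _ List.mem_cons_self

/-- the state of the construction: closed pieces `P` and an open piece with at most one jump and
fewer than `L` steps -/
def Resid (Y : Sys M V W) (PM : M → Prop) (PV : V → Prop) (L T : ℕ) (m : M) (v : V) : Prop :=
  ∃ (P : List (M × V)) (J : List (ℕ × M × V)) (s : ℕ), Chain Y PM PV (2 * L + 1) P ∧
    J.length ≤ 1 ∧ s < L ∧ (∀ b ∈ J, b.2 ∈ P) ∧ LRev Y 0 J (s + J.length) [] m v ∧
    L * (P.length + J.length) + 2 * s ≤ 2 * T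

theorem resid_of {Y : Sys M V W} {PM : M → Prop} {PV : V → Prop} {L T : ℕ} (hL : 1 ≤ L) {m : M}
    {v : V} {P : List (M × V)} {J : List (ℕ × M × V)} {s : ℕ}
    (hP : Chain Y PM PV (2 * L + 1) P) (hJ : J.length ≤ 2) (hs : s + 1 ≤ 2 * L)
    (hm : ∀ b ∈ J, b.2 ∈ P) (hPM : PM m) (hPV : PV v)
    (hR : LRev Y 0 J (s + J.length) [] m v)
    (hpot : L * (P.length + J.length) + 2 * s ≤ 2 * T) : Resid Y PM PV L T m v := by
  by_cases h : s < L ∧ J.length ≤ 1
  · exact ⟨P, J, s, hP, h.2, h.1, hm, hR, hpot⟩
  · refine ⟨(m, v) :: P, [(0, m, v)], 0, .cons hP hJ hm ?_ hPM hPV hR, le_refl _, hL, ?_,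
      .jump, ?_⟩
    · omega
    · intro b hb
      rw [List.mem_singleton] at hb
      rw [hb]
      exact List.mem_cons_self
    · rw [List.length_cons, List.length_singleton, mul_zero, add_zero]
      have h1 : L ≤ s ∨ 2 ≤ J.length := by
        by_contra h2
        push Not at h2
        exact h ⟨h2.1, by omega⟩
      rcases h1 with h1 | h1
      · have h2 : L * (P.length + 1 + 1) = L * P.length + 2 * L := by ring
        have h3 : L * P.length ≤ L * (P.length + J.length) :=
          Nat.mul_le_mul_left _ (Nat.le_add_right _ _)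
        omega
      · have h2 : L * (P.length + 1 + 1) ≤ L * (P.length + J.length) :=
          Nat.mul_le_mul_left _ (by omega)
        omega

theorem Sys.Ev.resid {Y : Sys M V W} {PM : M → Prop} {PV : V → Prop} {PW : W → Prop}
    (i1 : ∀ m v, PM m → Y.out m = .ret v → PV v)
    (i2 : ∀ m m', PM m → Y.out m = .go m' → PM m')
    (i3 : ∀ m m' w, PM m → Y.out m = .call m' w → PM m' ∧ PW w)
    (i4 : ∀ v w, PV v → PW w → PM (Y.res v w)) {L T : ℕ} (hL : 1 ≤ L) {m : M} {v : V}
    (h : Y.Ev T m v) (hPM : PM m) : Resid Y PM PV L T m v := by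
  induction h with
  | @ret m v hs =>
    refine resid_of hL (P := []) (J := []) (s := 1) .nil (by simp) (by omega) (by simp) hPM
      (i1 _ _ hPM hs) ?_ (by simp)
    exact .ret (NoJump.of_le (by simp)) hs
  | @go m m' v k hs h0 ih =>
    obtain ⟨P, J, s, h1, h2, h3, h4, h5, h6⟩ := ih (i2 _ _ hPM hs)
    refine resid_of hL (P := P) (J := shJ 1 J) (s := s + 1) h1 ?_ (by omega) ?_ hPM
      ((Sys.Ev.go hs h0).inv i1 i2 i3 i4 hPM) ?_ ?_
    · rw [length_shJ]
      omega
    · intro b hb
      obtain ⟨-, b', hb', h7⟩ := mem_shJ hb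
      rw [h7]
      exact h4 b' hb'
    · have h7 := LRev.go0 hs h5
      rw [length_shJ]
      have h8 : s + J.length + 1 = s + 1 + J.length := by omega
      rw [← h8]
      exact h7
    · rw [length_shJ]
      omega
  | @call m m' w v1 v k1 k2 hs e1 e2 ih1 ih2 =>
    obtain ⟨c1, c2⟩ := i3 _ _ _ hPM hs
    have c3 : PV v1 := e1.inv i1 i2 i3 i4 c1
    obtain ⟨P1, J1, s1, a1, a2, a3, a4, a5, a6⟩ := ih1 c1
    obtain ⟨P2, J2, s2, b1, b2, b3, b4, b5, b6⟩ := ih2 (i4 _ _ c3 c2)
    refine resid_of hL (P := P1 ++ P2) (J := shJ 1 J1 ++ shJ (s1 + J1.length + 1) J2)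
      (s := s1 + s2 + 1) (a1.append b1) ?_ (by omega) ?_ hPM
      ((Sys.Ev.call hs e1 e2).inv i1 i2 i3 i4 hPM) ?_ ?_
    · rw [List.length_append, length_shJ, length_shJ]
      omega
    · intro b hb
      rcases List.mem_append.1 hb with hb | hb
      · obtain ⟨-, b', hb', h7⟩ := mem_shJ hb
        rw [h7]
        exact List.mem_append_left _ (a4 b' hb')
      · obtain ⟨-, b', hb', h7⟩ := mem_shJ hb
        rw [h7]
        exact List.mem_append_right _ (b4 b' hb')
    · have h7 := LRev.call0 hs a5 b5
      rw [List.length_append, length_shJ, length_shJ]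
      have h8 : s1 + J1.length + (s2 + J2.length) + 1 =
          s1 + s2 + 1 + (J1.length + J2.length) := by omega
      rw [← h8]
      exact h7
    · rw [List.length_append, List.length_append, length_shJ, length_shJ]
      have h7 : L * (P1.length + P2.length + (J1.length + J2.length)) =
          L * (P1.length + J1.length) + L * (P2.length + J2.length) := by ring
      omega

/-! ## Records -/

/-- a record: the claim that `m` returns `v`, and two quotations: at time `t1` the claim of record `i1`
is used, at time `t2` that of record `i2` (in record `k` only if the index is `< k`). -/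
structure Rec (M V : Type) where
  m : M
  v : V
  t1 : ℕ
  i1 : ℕ
  t2 : ℕ
  i2 : ℕ

/-- the jumps of record `r` with index `k`, if the quoted records are `a` and `b` -/
def recJ (k : ℕ) (r a b : Rec M V) (t : ℕ) : Option (M × V) :=
  if r.i1 < k ∧ t = r.t1 then some (a.m, a.v) else
    if r.i2 < k ∧ t = r.t2 then some (b.m, b.v) else none

/-- the check of record `r` with index `k`, if the quoted records are `a` and `b` -/
def RecOK (Y : Sys M V W) (lim k : ℕ) (r a b : Rec M V) : Prop :=
  ∃ t' ≤ lim, Y.Rev (recJ k r a b) 0 r.m r.v t'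

/-- soundness: checked records are true. -/
theorem rec_sound {Y : Sys M V W} {lim N : ℕ} {R : ℕ → Rec M V}
    (h : ∀ k < N, RecOK Y lim k (R k) (R (R k).i1) (R (R k).i2)) {k : ℕ} (hk : k < N) :
    ∃ T, Y.Ev T (R k).m (R k).v := by
  induction k using Nat.strong_induction_on with
  | _ k ih =>
    obtain ⟨t', -, hR⟩ := h k hk
    refine hR.ev fun u b _ _ hb => ?_
    unfold recJ at hb
    split_ifs at hb with h1 h2
    · rw [Option.some.injEq] at hb
      rw [← hb]
      exact ih _ h1.1 (by omega)
    · rw [Option.some.injEq] at hb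
      rw [← hb]
      exact ih _ h2.1 (by omega)

/-- from chains to records -/
theorem Chain.recs {Y : Sys M V W} {PM : M → Prop} {PV : V → Prop} {K : ℕ} {P : List (M × V)}
    (h : Chain Y PM PV K P) (d : M × V) : ∃ R : ℕ → Rec M V,
      (∀ k < P.length, P.reverse[k]? = some ((R k).m, (R k).v)) ∧
      ∀ k < P.length, RecOK Y K k (R k) (R (R k).i1) (R (R k).i2) ∧ (R k).i1 ≤ k ∧
        (R k).i2 ≤ k ∧ (R k).t1 < K ∧ (R k).t2 < K ∧ PM (R k).m ∧ PV (R k).v := by
  induction h with
  | nil => exact ⟨fun _ => ⟨d.1, d.2, 0, 0, 0, 0⟩, fun k hk => absurd hk (Nat.not_lt_zero _),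
      fun k hk => absurd hk (Nat.not_lt_zero _)⟩
  | @cons P J m v k0 hP hJ hm hkK hPM hPV hR ih =>
    obtain ⟨R, h1, h2⟩ := ih
    obtain ⟨U, u1, u2, u3, u4⟩ := hR.rev
    rw [List.append_nil] at u1
    subst u1
    have hKpos : 0 < K := lt_of_lt_of_le hR.lt hkK
    -- the index of a quoted claim
    have h3 : ∀ b ∈ J, ∃ i < P.length, (b.2.1, b.2.2) = ((R i).m, (R i).v) := by
      intro b hb
      have h4 : b.2 ∈ P.reverse := List.mem_reverse.2 (hm b hb)
      obtain ⟨i, hi, hib⟩ := List.getElem_of_mem h4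
      rw [List.length_reverse] at hi
      refine ⟨i, hi, ?_⟩
      have h5 := h1 i hi
      rw [List.getElem?_eq_some_iff] at h5
      obtain ⟨_, h6⟩ := h5
      rw [← hib, h6]
    -- the new record
    have h4 : ∃ t1 i1 t2 i2, i1 ≤ P.length ∧ i2 ≤ P.length ∧ t1 < K ∧ t2 < K ∧
        (∀ b ∈ J, (i1 < P.length ∧ b.1 = t1) ∨ (i2 < P.length ∧ b.1 = t2)) ∧
        (i1 < P.length → ∃ b ∈ J, b.1 = t1 ∧ b.2 = ((R i1).m, (R i1).v)) ∧
        (i2 < P.length → ∃ b ∈ J, b.1 = t2 ∧ b.2 = ((R i2).m, (R i2).v) ∧
          (i1 < P.length → t1 ≠ t2)) := by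
      rcases J with _ | ⟨b, _ | ⟨c, _ | ⟨e, J⟩⟩⟩
      · exact ⟨0, P.length, 0, P.length, le_rfl, le_rfl, hKpos, hKpos,
          fun b hb => (List.not_mem_nil hb).elim, fun h => absurd h (lt_irrefl _),
          fun h => absurd h (lt_irrefl _)⟩
      · obtain ⟨i, hi, hib⟩ := h3 b List.mem_cons_self
        have hb := u2 b List.mem_cons_self
        refine ⟨b.1, i, 0, P.length, hi.le, le_rfl, by omega, hKpos, fun c hc => ?_, fun _ => ?_,
          fun h => absurd h (lt_irrefl _)⟩
        · rw [List.mem_singleton] at hc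
          rw [hc]
          exact Or.inl ⟨hi, rfl⟩
        · exact ⟨b, List.mem_cons_self, rfl, hib⟩
      · obtain ⟨i, hi, hib⟩ := h3 b List.mem_cons_self
        obtain ⟨j, hj, hjc⟩ := h3 c (List.mem_cons_of_mem _ List.mem_cons_self)
        have hb := u2 b List.mem_cons_self
        have hc := u2 c (List.mem_cons_of_mem _ List.mem_cons_self)
        have hbc : b.1 < c.1 := (List.pairwise_cons.1 u3).1 c List.mem_cons_self
        refine ⟨b.1, i, c.1, j, hi.le, hj.le, by omega, by omega, fun e he => ?_, fun _ => ?_,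
          fun _ => ?_⟩
        · rcases List.mem_cons.1 he with he | he
          · rw [he]
            exact Or.inl ⟨hi, rfl⟩
          · rw [List.mem_singleton] at he
            rw [he]
            exact Or.inr ⟨hj, rfl⟩
        · exact ⟨b, List.mem_cons_self, rfl, hib⟩
        · exact ⟨c, List.mem_cons_of_mem _ List.mem_cons_self, rfl, hjc, fun _ => by omega⟩
      · exfalso
        simp only [List.length_cons] at hJ
        omega
    obtain ⟨t1, i1, t2, i2, q1, q2, q3, q4, q5, q6, q7⟩ := h4
    have hlen : ((m, v) :: P).length = P.length + 1 := rfl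
    obtain ⟨R', hR'⟩ : ∃ R' : ℕ → Rec M V, R' = fun k => if k < P.length then R k else
      ⟨m, v, t1, i1, t2, i2⟩ := ⟨_, rfl⟩
    have hlt : ∀ k < P.length, R' k = R k := by
      intro k hk
      rw [hR']
      exact if_pos hk
    have hge : ∀ k, P.length ≤ k → R' k = ⟨m, v, t1, i1, t2, i2⟩ := by
      intro k hk
      rw [hR']
      exact if_neg (not_lt.2 hk)
    -- the check does not depend on the records quoted if the index is not smaller
    have hcongr : ∀ (k : ℕ) (r a b a' b' : Rec M V), (r.i1 < k → (a.m, a.v) = (a'.m, a'.v)) →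
        (r.i2 < k → (b.m, b.v) = (b'.m, b'.v)) → RecOK Y K k r a b → RecOK Y K k r a' b' := by
      rintro k r a b a' b' e1 e2 ⟨t', ht', hr⟩
      refine ⟨t', ht', hr.congr fun u _ _ => ?_⟩
      unfold recJ
      split_ifs with g1 g2
      · rw [e1 g1.1]
      · rw [e2 g2.1]
      · rfl
    refine ⟨R', fun k hk => ?_, fun k hk => ?_⟩
    · rw [hlen] at hk
      rw [List.reverse_cons]
      by_cases h5 : k < P.length
      · rw [hlt k h5, List.getElem?_append_left (by rw [List.length_reverse]; exact h5)]
        exact h1 k h5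
      · have h6 : k = P.length := by omega
        rw [hge k (by omega), List.getElem?_append_right (by rw [List.length_reverse]; omega),
          List.length_reverse, h6, Nat.sub_self]
        rfl
    · rw [hlen] at hk
      by_cases h5 : k < P.length
      · obtain ⟨a1, a2, a3, a4, a5, a6, a7⟩ := h2 k h5
        rw [hlt k h5]
        refine ⟨hcongr k _ _ _ _ _ (fun g => ?_) (fun g => ?_) a1, a2, a3, a4, a5, a6, a7⟩
        · rw [hlt _ (by omega)]
        · rw [hlt _ (by omega)]
      · have h6 : k = P.length := by omega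
        rw [h6, hge P.length le_rfl]
        refine ⟨⟨_, hkK, u4 _ (fun b hb => ?_) fun u _ _ hu => ?_⟩, q1, q2, q3, q4, hPM, hPV⟩
        · unfold recJ
          rcases q5 b hb with ⟨g1, g2⟩ | ⟨g1, g2⟩
          · rw [if_pos ⟨g1, g2⟩]
            obtain ⟨b', hb', g3, g4⟩ := q6 g1
            have g5 : b' = b := by
              by_contra hne
              rcases List.mem_iff_getElem.1 hb with ⟨x, hx, rfl⟩
              rcases List.mem_iff_getElem.1 hb' with ⟨y, hy, rfl⟩
              have hxy : x ≠ y := by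
                rintro rfl
                exact hne rfl
              rcases lt_or_gt_of_ne hxy with hlt' | hlt'
              · have := List.pairwise_iff_getElem.1 u3 x y hx hy hlt'
                omega
              · have := List.pairwise_iff_getElem.1 u3 y x hy hx hlt'
                omega
            rw [← g5, g4]
            show some ((R' i1).m, (R' i1).v) = _
            rw [hlt i1 g1]
          · obtain ⟨b', hb', g3, g4, g6⟩ := q7 g1
            have g7 : ¬ (i1 < P.length ∧ b.1 = t1) := by
              rintro ⟨g8, g9⟩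
              exact g6 g8 (by omega)
            rw [if_neg g7, if_pos ⟨g1, g2⟩]
            have g5 : b' = b := by
              by_contra hne
              rcases List.mem_iff_getElem.1 hb with ⟨x, hx, rfl⟩
              rcases List.mem_iff_getElem.1 hb' with ⟨y, hy, rfl⟩
              have hxy : x ≠ y := by
                rintro rfl
                exact hne rfl
              rcases lt_or_gt_of_ne hxy with hlt' | hlt'
              · have := List.pairwise_iff_getElem.1 u3 x y hx hy hlt'
                omega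
              · have := List.pairwise_iff_getElem.1 u3 y x hy hx hlt'
                omega
            rw [← g5, g4]
            show some ((R' i2).m, (R' i2).v) = _
            rw [hlt i2 g1]
        · unfold recJ
          rw [if_neg, if_neg]
          · rintro ⟨g1, g2⟩
            obtain ⟨b', hb', g3, -, -⟩ := q7 g1
            exact hu b' hb' (by rw [g3, g2])
          · rintro ⟨g1, g2⟩
            obtain ⟨b', hb', g3, -⟩ := q6 g1
            exact hu b' hb' (by rw [g3, g2])

/-- completeness: an evaluation of length `T` is certified by `N` records with checks of at most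
`2 L + 1` time units as soon as `2 T + L ≤ N L`; the last record is the evaluation itself.  Invariants
`PM`, `PV` of the memories and values hold for all records. -/
theorem rec_complete_inv {Y : Sys M V W} {PM : M → Prop} {PV : V → Prop} {PW : W → Prop}
    (i1 : ∀ m v, PM m → Y.out m = .ret v → PV v)
    (i2 : ∀ m m', PM m → Y.out m = .go m' → PM m')
    (i3 : ∀ m m' w, PM m → Y.out m = .call m' w → PM m' ∧ PW w)
    (i4 : ∀ v w, PV v → PW w → PM (Y.res v w)) {T : ℕ} {m : M} {v : V}
    (h : Y.Ev T m v) (hPM : PM m) {L N : ℕ} (hL : 1 ≤ L) (hN : 2 * T + L ≤ N * L) :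
    ∃ R : ℕ → Rec M V, (R (N - 1)).m = m ∧ (R (N - 1)).v = v ∧
      ∀ k < N, RecOK Y (2 * L + 1) k (R k) (R (R k).i1) (R (R k).i2) ∧ (R k).i1 ≤ k ∧
        (R k).i2 ≤ k ∧ (R k).t1 < 2 * L + 1 ∧ (R k).t2 < 2 * L + 1 ∧ PM (R k).m ∧
        PV (R k).v := by
  obtain ⟨P, J, s, h1, h2, h3, h4, h5, h6⟩ := h.resid i1 i2 i3 i4 hL hPM
  have hC : Chain Y PM PV (2 * L + 1) ((m, v) :: P) :=
    .cons h1 (by omega) h4 (by omega) hPM (h.inv i1 i2 i3 i4 hPM) h5
  have h9 : P.length + 1 ≤ N := by
    have h10 : L * P.length ≤ L * (P.length + J.length) :=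
      Nat.mul_le_mul_left _ (Nat.le_add_right _ _)
    have h11 : (P.length + 1) * L ≤ N * L := by
      have h12 : (P.length + 1) * L = L * P.length + L := by ring
      omega
    exact Nat.le_of_mul_le_mul_right h11 hL
  have hC' := hC.pad (by omega) (N - (P.length + 1))
  obtain ⟨R, h7, h8⟩ := hC'.recs (m, v)
  have hlen : (List.replicate (N - (P.length + 1)) (m, v) ++ (m, v) :: P).length = N := by
    rw [List.length_append, List.length_replicate, List.length_cons]
    omega
  rw [hlen] at h7 h8
  have hlast : (R (N - 1)).m = m ∧ (R (N - 1)).v = v := by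
    have h10 := h7 (N - 1) (by omega)
    have h12 : (List.replicate (N - (P.length + 1)) (m, v) ++ (m, v) :: P).reverse[N - 1]? =
        some (m, v) := by
      rw [List.getElem?_reverse (by rw [hlen]; omega), hlen]
      have h13 : N - 1 - (N - 1) = 0 := by omega
      rw [h13]
      cases N - (P.length + 1) with
      | zero => rfl
      | succ n => rfl
    rw [h12, Option.some.injEq, Prod.mk.injEq] at h10
    exact ⟨h10.1.symm, h10.2.symm⟩
  exact ⟨R, hlast.1, hlast.2, h8⟩

/-- completeness without invariants -/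
theorem rec_complete {Y : Sys M V W} {T : ℕ} {m : M} {v : V} (h : Y.Ev T m v) {L N : ℕ}
    (hL : 1 ≤ L) (hN : 2 * T + L ≤ N * L) :
    ∃ R : ℕ → Rec M V, (R (N - 1)).m = m ∧ (R (N - 1)).v = v ∧
      ∀ k < N, RecOK Y (2 * L + 1) k (R k) (R (R k).i1) (R (R k).i2) ∧ (R k).i1 ≤ k ∧
        (R k).i2 ≤ k ∧ (R k).t1 < 2 * L + 1 ∧ (R k).t2 < 2 * L + 1 := by
  obtain ⟨R, h1, h2, h3⟩ := rec_complete_inv (PM := fun _ => True) (PV := fun _ => True)
    (PW := fun _ => True) (fun _ _ _ _ => trivial) (fun _ _ _ _ => trivial)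
    (fun _ _ _ _ _ => ⟨trivial, trivial⟩) (fun _ _ _ _ => trivial) h trivial hL hN
  exact ⟨R, h1, h2, fun k hk => ⟨(h3 k hk).1, (h3 k hk).2.1, (h3 k hk).2.2.1, (h3 k hk).2.2.2.1,
    (h3 k hk).2.2.2.2.1⟩⟩

end Pool.Agent.NUM
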