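import Pool.Agent.NUM.HCore

/-!
# Random access machines

A state is a memory `V` (a small one: programs have `2 ^ o(n)` cells).  The unlimited memory is a
table of records: in each step the program gets the even cells of its present state and, in the odd
cells, the even cells of the record at the address which is written in the cells `4, 8, …, 4 d` of
the present state.  The result is the next state.  It is stored at the address which is written in
its cells `6, 10, …, 4 d + 2`.
-/

set_option autoImplicit false

namespace Pool.Agent.NUM

/-- the address at which the state `V` is stored: the number written in the cells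
`6, 10, …, 4 d + 2` -/
def wad (d : ℕ) (V : Mem) : ℕ := ∑ r ∈ Finset.range d, if V (4 * r + 6) = true then 2 ^ r else 0

/-- the state and the table of the records after `n` steps -/
def ram (f : Mem → Mem) (d : ℕ) : ℕ → Mem × (ℕ → Mem)
  | 0 => (zeroMem, fun _ => zeroMem)
  | n + 1 =>
    let V := f (mrg (ram f d n).1 ((ram f d n).2 (ptr d (ram f d n).1)))
    (V, Function.update (ram f d n).2 (wad d V) V)

/-- the state after `n` steps -/
def rst (f : Mem → Mem) (d n : ℕ) : Mem := (ram f d n).1

/-- the computation halts after exactly `N` steps: state number `N` is the first one in which cell
`0` is `true` -/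
def RHalts (f : Mem → Mem) (d N : ℕ) : Prop :=
  rst f d N 0 = true ∧ ∀ n < N, rst f d n 0 = false

/-- the data flow: the record which is read in step `n + 1` was stored in step `rsrc f d n` (the last
step `≤ n` which wrote the address), `0` if nothing was stored there -/
def rsrc (f : Mem → Mem) (d n : ℕ) : ℕ :=
  Nat.findGreatest (fun p => 0 < p ∧ wad d (rst f d p) = ptr d (rst f d n)) n

/-- the computation halts after at most `T` steps with the answer `b` -/
def RAns (f : Mem → Mem) (d T : ℕ) (b : Bool) : Prop :=
  ∃ N ≤ T, RHalts f d N ∧ rst f d N 2 = b

/-- size of a program with its `d` address cells -/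
def RSz (s d : ℕ) (G : List Ins) : Prop := Sz s G ∧ 4 * d + 2 < s

end Pool.Agent.NUM
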