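import Pool.Agent.NUM.GParam
import Pool.Agent.NUM.RRead
import Pool.Agent.NUM.RExtDef
import Pool.Agent.NUM.RAbs
import Pool.Agent.NUM.RCls

/-!
# Theorem H(γ) for random access machines: true and bad pairs of lists on strings

The sequences of parameters are those of `GParam` (`S.s` bounds the size of the programs, `S.t` the
number of steps, `S.c` is not used).
-/

set_option autoImplicit false

namespace Pool.Agent.NUM

namespace GSeq

variable (S : GSeq)

/-- the parameters for the passage from level `r` to level `e` -/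
noncomputable def pr (e r : ℝ) (L : ℕ) : GPar where
  h := S.h L + S.b L
  b := S.b L
  σ := S.σ L
  d := 0
  c := S.h L
  q := S.q e r L + 1
  w₁ := S.w e L + 1
  w := S.w r L
  lim₁ := S.lim e L + 1
  lim := S.lim r L

end GSeq

/-- `l` is a pair of true lists of level `r` for the computation of the random access program `G` on
`z` with `N` steps -/
def TrP (S : GSeq) (G : List Ins) (z : Inp) (L N : ℕ) (r : ℝ) (l : Inp) : Prop :=
  ∀ j : Bool, TrR (ramX (eval G z) (S.d L) (S.h L) (S.b L)) (rsrc (eval G z) (S.d L)) N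
    (rdL (S.h L + S.b L) (S.w r L) (S.b L) (S.σ L) (pk l j)) (S.w r L) (S.lim r L)

/-- bad pairs -/
def BadP (S : GSeq) (G : List Ins) (z : Inp) (L N : ℕ) (r : ℝ) (l : Inp) : Prop :=
  Bad1 (ramX (eval G z) (S.d L) (S.h L) (S.b L)) (rsrc (eval G z) (S.d L)) N
    (rdL (S.h L + S.b L) (S.w r L) (S.b L) (S.σ L) (pk l false)) (S.w r L) (S.lim r L) ∨
  Stale (ramX (eval G z) (S.d L) (S.h L) (S.b L)) (rsrc (eval G z) (S.d L)) N
    (rdL (S.h L + S.b L) (S.w r L) (S.b L) (S.σ L) (pk l false))
    (rdL (S.h L + S.b L) (S.w r L) (S.b L) (S.σ L) (pk l true)) (S.w r L) (S.lim r L)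

/-- the computation of the random access program `G` -/
structure RRun (S : GSeq) (G : List Ins) (z : Inp) (L N : ℕ) : Prop where
  le : N ≤ S.t L
  run : RamRun G z (S.d L) (S.h L) (S.b L) N
  sep : HSep N (rsrc (eval G z) (S.d L)) S.γ (S.k L)

end Pool.Agent.NUM
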