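import Pool.Agent.NUM.RBase
import Pool.Agent.NUM.RPar
import Pool.Agent.NUM.RStr
import Pool.Agent.NUM.RStep
import Pool.Agent.NUM.RView
import Pool.Agent.NUM.RCode
import Pool.Agent.NUM.RExt
import Pool.Agent.NUM.RTrade

/-!
# Theorem H(γ) for random access machines: the families of list problems
-/

set_option autoImplicit false

namespace Pool.Agent.NUM

/-- **The family of list problems** of a problem with random access computations with hereditary
separators. -/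
theorem fam_of_clsR (hcode : RCodeOK) {γ : ℝ} (hγ : 0 ≤ γ) (hγ1 : γ < 1) {T : Type} {π : Pres T}
    {P : T → Prop} {e₀ : ℝ} (he₀ : 0 ≤ e₀) (h : ClsR γ T π P e₀) :
    ∃ (w : ℝ → ℕ → ℕ) (Tr Bad : ℝ → T × Inp → Prop), IsFamR γ π P e₀ w Tr Bad := by
  obtain ⟨k, hk, h⟩ := h
  obtain ⟨G, s, t, d, L₀, hs, ht, hs3, hG, hrun⟩ := h.sz3
  obtain ⟨S, hSdef⟩ : ∃ S : GSeq, S = ⟨γ, e₀, s, t, d, k, fun _ => 0⟩ := ⟨_, rfl⟩
  have hSγ : S.γ = γ := by rw [hSdef]
  have hSe : S.e₀ = e₀ := by rw [hSdef]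
  have hSs : S.s = s := by rw [hSdef]
  have hSt : S.t = t := by rw [hSdef]
  have hSd : S.d = d := by rw [hSdef]
  have hSk : S.k = k := by rw [hSdef]
  have hSc : S.c = fun _ => 0 := by rw [hSdef]
  have hS : S.Ok := by
    refine ⟨by rw [hSγ]; exact hγ, by rw [hSγ]; exact hγ1, by rw [hSe]; exact he₀, ?_, ?_, ?_, ?_, ?_⟩
    · rw [hSs]; exact ex_zero_iff.2 hs
    · rw [hSe, hSt]; exact ex_iff.2 ht
    · rw [hSk]; exact hk
    · intro L; rw [hSd, hSs]; have := (hG L).2; omega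
    · intro L
      rw [hSc, hSs]
      have h1 : 1 ≤ (s L + 10) ^ 2 := Nat.one_le_pow _ _ (by omega)
      show 2 * 0 + 1 ≤ _
      omega
  -- the computations
  have hD : ∀ τ, L₀ ≤ π.idx τ → ∃ N, RHalts (eval (G (π.idx τ)) (π.inp τ)) (d (π.idx τ)) N ∧
      RRun S (G (π.idx τ)) (π.inp τ) (π.idx τ) N ∧
      (rst (eval (G (π.idx τ)) (π.inp τ)) (S.d (π.idx τ)) N 2 = true ↔ P τ) := by
    intro τ hτ
    obtain ⟨⟨b, ⟨N, hNt, hN, hNb⟩, hbP⟩, hsep⟩ := hrun τ hτ
    have hsep' := hsep trivial N hN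
    have hNt' : N ≤ S.t (π.idx τ) := by rw [hSt]; exact hNt
    refine ⟨N, hN, ⟨hNt', ?_, ?_⟩, ?_⟩
    · rw [hSd]
      have h1 : (s (π.idx τ) + 10) ≤ (s (π.idx τ) + 10) ^ 2 := Nat.le_self_pow (by norm_num) _
      have h2 : S.h (π.idx τ) = 100 * (s (π.idx τ) + 10) ^ 2 + 2 := by
        rw [← hSs]
        rfl
      exact ramRun_of_halts (hG (π.idx τ)) (by omega) (by omega) hN (hS.stepsR hNt')
    · rw [hSd, hSγ, hSk]
      exact hsep'
    · rw [hSd, hNb]
      exact hbP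
  -- the problems
  obtain ⟨Tr, hTr⟩ : ∃ Tr : ℝ → T × Inp → Prop, Tr = fun r p =>
      ∃ N, RHalts (eval (G (π.idx p.1)) (π.inp p.1)) (d (π.idx p.1)) N ∧
        TrP S (G (π.idx p.1)) (π.inp p.1) (π.idx p.1) N r p.2 := ⟨_, rfl⟩
  obtain ⟨Bad, hBad⟩ : ∃ Bad : ℝ → T × Inp → Prop, Bad = fun r p =>
      ∃ N, RHalts (eval (G (π.idx p.1)) (π.inp p.1)) (d (π.idx p.1)) N ∧
        BadP S (G (π.idx p.1)) (π.inp p.1) (π.idx p.1) N r p.2 := ⟨_, rfl⟩
  have hTr' : ∀ (r : ℝ) (p : T × Inp) (N : ℕ),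
      RHalts (eval (G (π.idx p.1)) (π.inp p.1)) (d (π.idx p.1)) N →
      (Tr r p ↔ TrP S (G (π.idx p.1)) (π.inp p.1) (π.idx p.1) N r p.2) := by
    intro r p N hN
    rw [hTr]
    constructor
    · rintro ⟨N', hN', h1⟩
      rwa [rhalts_unique hN hN']
    · exact fun h1 => ⟨N, hN, h1⟩
  have hBad' : ∀ (r : ℝ) (p : T × Inp) (N : ℕ),
      RHalts (eval (G (π.idx p.1)) (π.inp p.1)) (d (π.idx p.1)) N →
      (Bad r p ↔ BadP S (G (π.idx p.1)) (π.inp p.1) (π.idx p.1) N r p.2) := by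
    intro r p N hN
    rw [hBad]
    constructor
    · rintro ⟨N', hN', h1⟩
      rwa [rhalts_unique hN hN']
    · exact fun h1 => ⟨N, hN, h1⟩
  have hβ2 : ∀ (e r u : ℝ) (β : ℕ → ℕ), 0 ≤ u → Lin u β →
      Lin u (fun L => max (uLen (S.pr e r L)) (β L + 1)) := by
    intro e r u β hu hβ
    have h1 := (hS.grow_uLen e r).max (hβ.add (Lin.const 0 le_rfl 1))
    rw [add_zero, max_eq_right hu] at h1
    exact h1
  refine ⟨fun r L => lLen (S.w r L) (S.σ L), Tr, Bad, ⟨?_, ?_, ?_, ?_⟩⟩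
  · -- lengths
    intro r hr _
    have h1 := hS.grow_lLen hr
    rwa [hSγ] at h1
  · -- base
    intro r hr hre
    obtain ⟨β, A, hβ, hA, hA'⟩ := exists_baseR hS (π := π) G (by rw [hSs, hSd]; exact hG) hr
      (by rw [hSe]; exact hre)
    refine ⟨β, A, hβ, hA, L₀, fun p hp => ?_⟩
    obtain ⟨N, hN, hDN, -⟩ := hD p.1 hp
    rw [hTr' r p N hN, hBad' r p N hN]
    exact hA' p N hDN
  · -- step
    intro r e hr hre he u e' hu he' hcert
    obtain ⟨β, B, hβ, hB, L₁, hB'⟩ := hcert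
    have heS : e ≤ S.e₀ := by rw [hSe]; exact he
    refine ⟨fun L => rLen (S.pr e r L), fun L => max (uLen (S.pr e r L)) (β L + 1), _, ?_,
      hβ2 e r u β hu hβ,
      refute_stepR hcode (fun L => S.pr e r L) (fun L => hS.parR hre heS L)
        (hS.grow_XR hr hre heS) hβ he' hB, max L₀ L₁, ?_⟩
    · have h1 := hS.grow_rLen hr hre
      rwa [hSγ] at h1
    · intro p hp
      have hp' : max L₀ L₁ ≤ π.idx p.1 := hp
      obtain ⟨N, hN, hDN, -⟩ := hD p.1 (le_trans (le_max_left _ _) hp')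
      have hp1 : L₁ ≤ π.idx p.1 := le_trans (le_max_right _ _) hp'
      constructor
      · intro hbad
        obtain ⟨y, hy⟩ := step_badR hS hr hre heS hDN ((hBad' e p N hN).1 hbad)
        refine ⟨y, fun v => ?_⟩
        obtain ⟨h1, h2⟩ := hy v
        rintro (h3 | h3)
        · exact h3 h1
        · exact (hB' (p.1, rNext (S.pr e r (π.idx p.1)) y v) hp1).2
            ((hTr' r (p.1, rNext (S.pr e r (π.idx p.1)) y v) N hN).2 h2) _ h3
      · intro htr y
        rcases step_trueR hS hr hre heS hDN ((hTr' e p N hN).1 htr) y with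
          ⟨v, hv⟩ | ⟨j, a, ha, a', ha', hb⟩
        · exact ⟨v, Or.inl hv⟩
        · obtain ⟨y', hy'⟩ := (hB' (p.1, rRec (S.pr e r (π.idx p.1)) y j a a') hp1).1
            ((hBad' r (p.1, rRec (S.pr e r (π.idx p.1)) y j a a') N hN).2 hb)
          obtain ⟨v, hv1, hv2, hv3, -, -, hv4⟩ := exists_uv (hS.parR hre heS (π.idx p.1)) j ha ha'
            (i := 0) (by positivity) (e := 0) (by positivity) y'
          refine ⟨v, Or.inr ?_⟩
          show B ((p.1, rRec (S.pr e r (π.idx p.1)) y (uj (S.pr e r (π.idx p.1)) v)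
            (uk (S.pr e r (π.idx p.1)) v) (uk' (S.pr e r (π.idx p.1)) v)), fun a => v (true :: a))
          rw [hv1, hv2, hv3, show (fun a => v (true :: a)) = y' from funext hv4]
          exact hy'
  · -- top
    intro r hr hre u e' hu he' hcert
    obtain ⟨β, B, hβ, hB, L₁, hB'⟩ := hcert
    have hreS : r ≤ S.e₀ := by rw [hSe]; exact hre
    refine ⟨fun L => rLen (S.pr S.e₀ r L), fun L => max (uLen (S.pr S.e₀ r L)) (β L + 1), _, ?_,
      hβ2 S.e₀ r u β hu hβ,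
      refute_topR hcode (fun L => S.pr S.e₀ r L) (fun L => hS.parR hreS le_rfl L)
        (hS.grow_XR hr hreS le_rfl) hβ he' hB, max L₀ L₁, ?_⟩
    · have h1 := hS.grow_rLen hr hreS
      have e1 : S.e₀ - (1 - S.γ) * r = e₀ - (1 - γ) * r := by rw [hSγ, hSe]
      rwa [e1] at h1
    · intro τ hτ
      obtain ⟨N, hN, hDN, hacc⟩ := hD τ (le_trans (le_max_left _ _) hτ)
      have hp1 : L₁ ≤ π.idx τ := le_trans (le_max_right _ _) hτ
      constructor
      · intro hP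
        obtain ⟨y, hy⟩ := top_yesR hS hr hreS hDN (hacc.2 hP)
        refine ⟨y, fun v => ?_⟩
        obtain ⟨h1, h2⟩ := hy v
        rintro (h3 | h3)
        · exact h3 h1
        · exact (hB' (τ, rNext (S.pr S.e₀ r (π.idx τ)) y v) hp1).2
            ((hTr' r (τ, rNext (S.pr S.e₀ r (π.idx τ)) y v) N hN).2 h2) _ h3
      · intro hP y
        have hacc' : rst (eval (G (π.idx τ)) (π.inp τ)) (S.d (π.idx τ)) N 2 = false := by
          by_contra hcon
          exact hP (hacc.1 (by simpa using hcon))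
        rcases top_noR hS hr hreS hDN hacc' y with ⟨v, hv⟩ | ⟨j, a, ha, a', ha', hb⟩
        · exact ⟨v, Or.inl hv⟩
        · obtain ⟨y', hy'⟩ := (hB' (τ, rRec (S.pr S.e₀ r (π.idx τ)) y j a a') hp1).1
            ((hBad' r (τ, rRec (S.pr S.e₀ r (π.idx τ)) y j a a') N hN).2 hb)
          obtain ⟨v, hv1, hv2, hv3, -, -, hv4⟩ := exists_uv (hS.parR hreS le_rfl (π.idx τ)) j ha ha'
            (i := 0) (by positivity) (e := 0) (by positivity) y'
          refine ⟨v, Or.inr ?_⟩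
          show B ((τ, rRec (S.pr S.e₀ r (π.idx τ)) y (uj (S.pr S.e₀ r (π.idx τ)) v)
            (uk (S.pr S.e₀ r (π.idx τ)) v) (uk' (S.pr S.e₀ r (π.idx τ)) v)),
            fun a => v (true :: a))
          rw [hv1, hv2, hv3, show (fun a => v (true :: a)) = y' from funext hv4]
          exact hy'

/-- the field `fam` of `TradeR` -/
theorem famR {γ : ℝ} (hγ : 0 ≤ γ) (hγ1 : γ < 1) : FamR γ :=
  fun _ he h => fam_of_clsR rCodeOK hγ hγ1 he h

end Pool.Agent.NUM
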