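import Pool.Agent.NUM.RTraceF1
import Pool.Agent.NUM.RTStr
import Pool.Agent.NUM.RExt
import Pool.Agent.NUM.RLoop
import Pool.Agent.NUM.RTrade
import Pool.Agent.NUM.HSpeed
import Pool.Agent.NUM.GPar2

/-!
# Theorem H(γ) for random access machines: the field `toC`

An accepting run of a random access program is certified by the transcript of the whole run: a list
with one own segment, and the transcript of its simulation.
-/

set_option autoImplicit false

namespace Pool.Agent.NUM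

open Filter

/-- transcripts of runs are sound -/
theorem runAt_sound {p : TPar} {G : List Ins} {z : Inp} {N : ℕ}
    (hR : RamRun G z p.d p.h₀ p.b N) {v : Inp} (h : ∀ x < 2 ^ p.k, RunAt p G z v x) :
    rst (eval G z) p.d N 2 = true := by
  have hx : (rdT (p.h₀ + p.b) p.w p.k p.b p.σ (fun a => v (true :: a)) false).x < 2 ^ p.k :=
    num_lt _ _
  have hOK := (Trc.ok_iff (M := ramXM G z p.d p.h₀ p.b)
    (L := rdL (p.h₀ + p.b) p.w p.b p.σ fun a => v (false :: a)) (a0 := fun _ => false) (κ := 1)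
    (w := p.w) hx).2 fun x hx => (h x hx).1
  rw [← hR.acc]
  rw [← hR.zero] at hOK
  refine Trc.OK.run hR.run hR.fl hR.pos hOK fun x => ?_
  by_cases hxk : x < 2 ^ p.k
  · exact (h x hxk).2
  · obtain ⟨h1, h2, h3, h4, -⟩ := (h 0 (by positivity)).2
    exact ⟨h1, h2, h3, h4, fun _ hx' => absurd (hx'.trans hx) hxk⟩

/-- accepting runs have transcripts -/
theorem exists_runAt {p : TPar} (hp : p.Ok) {G : List Ins} {z : Inp} {N : ℕ}
    (hR : RamRun G z p.d p.h₀ p.b N) (hacc : rst (eval G z) p.d N 2 = true)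
    (hk : N + 2 ≤ 2 ^ p.k) (hb : N + 2 ^ p.w < 2 ^ p.b) :
    ∃ v : Inp, ∀ x, RunAt p G z v x := by
  obtain ⟨L, T, hOK, hRun, hBd, hL⟩ := exists_run hR.run hR.fl hR.pos (hR.acc.trans hacc) hp.w0
  have hw2 : 2 ≤ 2 ^ p.w := by
    calc 2 = 2 ^ 1 := rfl
      _ ≤ 2 ^ p.w := Nat.pow_le_pow_right (by norm_num) hp.w0
  have hkb : 2 ^ p.k ≤ 2 ^ p.b := Nat.pow_le_pow_right (by norm_num) hp.kb
  have hbσ : p.b ≤ 2 ^ p.σ := by have := hp.hσ; omega
  obtain ⟨v₁, hv₁⟩ := exists_rdL (h := p.h₀ + p.b) (w := p.w) (b := p.b) (σ := p.σ) hp.hσ hp.wσ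
    hbσ L (fun i hi => by have := (hL i).1; omega) (fun i _ => by have := (hL i).2.1; omega)
    (fun i _ => by have := (hL i).2.2; omega)
  have hBd' : T.Bd p.w (2 ^ p.k) (2 ^ p.b) :=
    ⟨hBd.I, fun x => lt_of_lt_of_le (hBd.t x) (by omega), fun x => lt_of_lt_of_le (hBd.Rk x) hk,
      fun x => lt_of_lt_of_le (hBd.Q x) hk, fun x => lt_of_lt_of_le (hBd.J x) hk,
      lt_of_lt_of_le hBd.x hk⟩
  obtain ⟨v₂, hv₂⟩ := exists_rdT (h := p.h₀ + p.b) (w := p.w) (k := p.k) (b := p.b) (σ := p.σ)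
    hp.hσ hp.wσ hp.kσ hbσ (fun _ => T) fun _ => hBd'
  obtain ⟨g1, -, g2⟩ := TEq.ok (M := ramXM G z p.d p.h₀ p.b) (a0 := fun _ => false) (κ := 1)
    (show LEq p.w (rdL (p.h₀ + p.b) p.w p.b p.σ v₁) L from hv₁) (hv₂ false) hBd' (by positivity)
  rw [hR.zero] at hOK
  exact ⟨pair v₁ v₂, fun x => ⟨g1.1 hOK x, g2.1 hRun x⟩⟩

/-- the parameters for the transcript of a whole run: `s` size of the program, `d` address digits,
`t` time bound -/
def runPar (s t d : ℕ) : TPar where
  d := d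
  h₀ := s + 2
  b := Nat.size (t + 4) + d + 1
  σ := Nat.size (s + 2 + (Nat.size (t + 4) + d + 1))
  w := 1
  k := Nat.size (t + 4)

theorem runPar_ok {s t d : ℕ} (hd : 4 * d + 2 < s) : (runPar s t d).Ok := by
  have hσ : s + 2 + (Nat.size (t + 4) + d + 1) <
      2 ^ Nat.size (s + 2 + (Nat.size (t + 4) + d + 1)) := Nat.lt_size_self _
  exact
    { h2 := Nat.le_add_left _ _
      hd := by show 4 * d + 2 < 2 * (s + 2); omega
      db := by show d ≤ Nat.size (t + 4) + d + 1; omega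
      hσ := hσ.le
      kσ := by
        show Nat.size (t + 4) ≤ 2 ^ Nat.size (s + 2 + (Nat.size (t + 4) + d + 1))
        omega
      wσ := Nat.one_le_two_pow
      w0 := le_rfl
      wb := by show 1 ≤ Nat.size (t + 4) + d + 1; omega
      kb := by show Nat.size (t + 4) ≤ Nat.size (t + 4) + d + 1; omega }

theorem trc_trc (n : ℕ) (y : Inp) : trc n (trc n y) = trc n y := by
  funext a
  unfold trc
  split <;> simp_all

/-- **The field `toC`.** -/
theorem toCR_of_code (hcode : RTCodeOK) (γ : ℝ) : ToCR γ := by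
  rintro T π P b e - he ⟨k, -, G, s, t, d, L₀, h1, h2, h3, h4⟩
  have hs : SubExp s := ex_zero_iff.1 h1
  have ht : ExpLe e t := ex_iff.1 h2
  have hK : Lin e (fun L => Nat.size (t L + 4)) :=
    (ht.add (SubExp.toExp (SubExp.const 4) he)).lin_size he
  have hd : SubExp d := hs.mono' (Eventually.of_forall fun L => by have := (h3 L).2; omega)
  have hb : SubExp (fun L => Nat.size (t L + 4) + d L + 1) :=
    (hK.subExp'.add hd).add (SubExp.const 1)
  have hσ : Lin 0 (fun L => Nat.size (s L + 2 + (Nat.size (t L + 4) + d L + 1))) :=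
    (SubExp.toExp ((hs.add (SubExp.const 2)).add hb) le_rfl).lin_size le_rfl
  choose f hf hf' using fun L => (hcode (runPar (s L) (t L) (d L)) (G L) (runPar_ok (h3 L).2)
    ((h3 L).1.mono (by show s L ≤ 2 * (s L + 2); omega))).2
  have hX : SubExp (fun L => (runPar (s L) (t L) (d L)).X ^ 60) := by
    apply SubExp.pow
    exact (SubExp.const 1000).mul (((((((hs.add (SubExp.const 2)).add hb).add hσ.subExp').add
      hd).add (SubExp.const 1)).add hK.subExp').add (SubExp.const 10))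
  refine ⟨fun L => max (hLen 1 (runPar (s L) (t L) (d L)).σ)
      (tLen (runPar (s L) (t L) (d L)).k (runPar (s L) (t L) (d L)).σ) + 1,
    fun q => ∀ x < 2 ^ (runPar (s (π.idx q.1)) (t (π.idx q.1)) (d (π.idx q.1))).k,
      RunAt (runPar (s (π.idx q.1)) (t (π.idx q.1)) (d (π.idx q.1))) (G (π.idx q.1))
        (π.inp q.1) q.2 x, ?_, ?_, L₀, fun τ hτ => ?_⟩
  · have h5 := (hK.add hσ).add (Lin.const 0 le_rfl 5)
    simp only [add_zero] at h5
    refine h5.mono' fun L => ?_
    show max (1 + (3 + Nat.size (s L + 2 + (Nat.size (t L + 4) + d L + 1))))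
      (Nat.size (t L + 4) + Nat.size (s L + 2 + (Nat.size (t L + 4) + d L + 1)) + 4) + 1 ≤ _
    omega
  · refine InG.congr (inH_loop (k := fun L => Nat.size (t L + 4))
      (σ := fun L => Nat.size (s L + 2 + (Nat.size (t L + 4) + d L + 1))) he hK hσ.subExp' hX f hf)
      fun q => ?_
    refine forall_congr' fun x => forall_congr' fun hx => ?_
    have h6 := hf' (π.idx q.1) (π.inp q.1) q.2
      (trc (runPar (s (π.idx q.1)) (t (π.idx q.1)) (d (π.idx q.1))).σ
        (kstr (runPar (s (π.idx q.1)) (t (π.idx q.1)) (d (π.idx q.1))).k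
          (runPar (s (π.idx q.1)) (t (π.idx q.1)) (d (π.idx q.1))).σ x))
    have h7 : rdX (runPar (s (π.idx q.1)) (t (π.idx q.1)) (d (π.idx q.1))).k
        (runPar (s (π.idx q.1)) (t (π.idx q.1)) (d (π.idx q.1))).σ
        (trc (runPar (s (π.idx q.1)) (t (π.idx q.1)) (d (π.idx q.1))).σ
          (kstr (runPar (s (π.idx q.1)) (t (π.idx q.1)) (d (π.idx q.1))).k
            (runPar (s (π.idx q.1)) (t (π.idx q.1)) (d (π.idx q.1))).σ x)) = x :=
      rdX_kstr (runPar_ok (h3 (π.idx q.1)).2).kσ hx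
    rw [trc_trc, h7] at h6
    exact h6
  · obtain ⟨⟨a, ⟨N, hN, hH, hA⟩, haP⟩, -⟩ := h4 τ hτ
    have hlt : t (π.idx τ) + 4 < 2 ^ Nat.size (t (π.idx τ) + 4) := Nat.lt_size_self _
    have hNb : N + 2 < 2 ^ (Nat.size (t (π.idx τ) + 4) + d (π.idx τ) + 1) :=
      lt_of_lt_of_le (by omega) (Nat.pow_le_pow_right (by norm_num)
        (show Nat.size (t (π.idx τ) + 4) ≤ _ by omega))
    have hR : RamRun (G (π.idx τ)) (π.inp τ)
        (runPar (s (π.idx τ)) (t (π.idx τ)) (d (π.idx τ))).d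
        (runPar (s (π.idx τ)) (t (π.idx τ)) (d (π.idx τ))).h₀
        (runPar (s (π.idx τ)) (t (π.idx τ)) (d (π.idx τ))).b N :=
      ramRun_of_halts (h3 (π.idx τ)) (by show s (π.idx τ) ≤ 2 * (s (π.idx τ) + 2); omega)
        (runPar_ok (h3 _).2).h2 hH (lt_of_le_of_lt (Nat.le_add_right N 2) hNb)
    constructor
    · intro hP
      have ha : a = true := haP.2 hP
      obtain ⟨v, hv⟩ := exists_runAt (runPar_ok (h3 (π.idx τ)).2) hR (hA.trans ha)
        (show N + 2 ≤ 2 ^ Nat.size (t (π.idx τ) + 4) by omega)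
        (show N + 2 ^ 1 < 2 ^ (Nat.size (t (π.idx τ) + 4) + d (π.idx τ) + 1) from hNb)
      exact ⟨v, fun x _ => hv x⟩
    · intro hP v hv
      exact hP (haP.1 (hA.symm.trans (runAt_sound hR hv)))

end Pool.Agent.NUM
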