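import Pool.Agent.NUM.RFam
import Pool.Agent.NUM.RToC
import Pool.Agent.NUM.RTCode
import Pool.Agent.NUM.RCode

/-!
# Theorem H(γ) for random access machines: the lower bound for satisfiability, final statement
-/

set_option autoImplicit false

namespace Pool.Agent.NUM

open S3

/-- **The lower bound for the satisfiability of 3-CNF formulas** by random access programs whose
data-flow graphs have hereditary separators, in every window of lengths. -/
theorem sat_ram_bound {c γ : ℝ} (hγ : 0 ≤ γ) (hγ1 : γ < 1) (hc : 1 ≤ c)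
    (h : (c ^ 2 - 1) * (c + γ - 1) < (1 - γ) * c) :
    ∃ (δ : ℝ) (A M₀ : ℕ), 0 < δ ∧ ∀ M : ℕ, M₀ ≤ M → ∃ m : ℕ, M ≤ m ∧ m ≤ A * M ∧
      ∀ (G : List Ins) (d s T K : ℕ), RSz s d G →
      (s : ℝ) ≤ 2 ^ (δ * m) → (T : ℝ) ≤ 2 ^ (c * m) → (K : ℝ) ≤ 2 ^ (δ * m) →
        ¬ RamDecides G d (satLen m) T γ K (SAT m) :=
  sat_ram_window (toCR_of_code rtCodeOK γ) (fun _ he h => fam_of_clsR rCodeOK hγ hγ1 he h)
    hγ hγ1 hc h

end Pool.Agent.NUM
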