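import Pool.Agent.NUM.HClosure
import Pool.Agent.NUM.HNormCp
import Pool.Agent.NUM.HCodeA
import Pool.Agent.NUM.HRd

/-!
# Loops over straight-line checks

* `Cp.virtM`: a straight-line program on a virtual input which depends on the memory;
* `exists_loop_hist`: all numbers `x < 2 ^ w` are checked by a history program, one in each pass;
* `inH_loopM`, `inH_loop`: the same for families.
-/

set_option autoImplicit false

namespace Pool.Agent.NUM

/-! ### virtual inputs which depend on the memory -/

/-- `φ` is a local map of inputs which also depends on `B` cells of the memory (at any place `e`) -/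
def LocM (B l t : ℕ) (φ : Inp → Mem → Inp) : Prop :=
  ∀ k, k ≤ l → ∀ j e, Cp (max (e + B) (j + k)) t
    (fun z M => φ z (fun i => M (e + i)) (word M j k))

namespace RLoop

theorem ins_virtM {c s l t B e : ℕ} {φ : Inp → Mem → Inp} (hφ : LocM B l t φ)
    (hdep : ∀ z M M', Agr B M M' → φ z M = φ z M') (he : c + s ≤ e) {I : Ins}
    (hI : I.top ≤ c + s) (hl : I.len ≤ l) :
    ∃ C' : List Ins, C'.length ≤ t + 1 ∧ (∀ x ∈ C', x.top ≤ e + B + t ∧ x.len ≤ t) ∧
      ∀ z M M' Y, Agr (c + s) M M' → (∀ i < B, M (e + i) = Y i) →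
        Agr (c + s) (eval C' z M) (I.exec (φ z Y) M') ∧
        ∀ i < B, eval C' z M (e + i) = Y i := by
  cases I with
  | nand i j k =>
    simp only [Ins.top, max_le_iff] at hI
    refine ⟨[.nand i j k], by simp, ?_, ?_⟩
    · intro x hx
      rw [List.mem_singleton] at hx
      subst hx
      simp only [Ins.top, Ins.len, max_le_iff]
      omega
    · intro z M M' Y hM hY
      refine ⟨Ins.exec_agr (show (Ins.nand i j k).top ≤ c + s by
        simp only [Ins.top, max_le_iff]; exact hI) hM, fun q hq => ?_⟩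
      simp only [eval_cons, eval_nil, Ins.exec]
      rw [Function.update_of_ne (by omega)]
      exact hY q hq
  | ask i j k =>
    simp only [Ins.top, max_le_iff] at hI
    simp only [Ins.len] at hl
    obtain ⟨C', hC', h1⟩ := (hφ k hl j e).code' (e + B) (max_le le_rfl (by omega)) i (by omega)
    refine ⟨C', by have := hC'.1; omega, fun x hx => hC'.2 x hx, fun z M M' Y hM hY => ?_⟩
    obtain ⟨h2, h3⟩ := h1 z M M (Agr.refl _ _)
    have h4 : φ z (fun i => M (e + i)) = φ z Y := hdep _ _ _ fun q hq => hY q hq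
    rw [h4] at h2
    refine ⟨fun q hq => ?_, fun q hq => ?_⟩
    · simp only [Ins.exec]
      by_cases e1 : q = i
      · subst e1
        rw [h2, Function.update_self, word_congr hM hI.2]
      · rw [Function.update_of_ne e1, h3 q (by omega) e1, hM q hq]
    · rw [h3 _ (by omega) (by omega)]
      exact hY q hq

theorem list_virtM {c s l t B e : ℕ} {φ : Inp → Mem → Inp} (hφ : LocM B l t φ)
    (hdep : ∀ z M M', Agr B M M' → φ z M = φ z M') (he : c + s ≤ e) : ∀ C : List Ins,
    (∀ x ∈ C, x.top ≤ c + s ∧ x.len ≤ l) →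
    ∃ C' : List Ins, C'.length ≤ C.length * (t + 1) ∧
      (∀ x ∈ C', x.top ≤ e + B + t ∧ x.len ≤ t) ∧
      ∀ z M M' Y, Agr (c + s) M M' → (∀ i < B, M (e + i) = Y i) →
        Agr (c + s) (eval C' z M) (eval C (φ z Y) M') := by
  intro C
  induction C with
  | nil => intro _; exact ⟨[], by simp, by simp, fun z M M' Y hM _ => hM⟩
  | cons I C ih =>
    intro hC
    obtain ⟨A, hA1, hA2, hA3⟩ := ins_virtM (s := s) (c := c) hφ hdep he
      (hC I List.mem_cons_self).1 (hC I List.mem_cons_self).2
    obtain ⟨D, hB1, hB2, hB3⟩ := ih (fun x hx => hC x (List.mem_cons_of_mem _ hx))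
    refine ⟨A ++ D, ?_, ?_, ?_⟩
    · rw [List.length_append, List.length_cons, Nat.succ_mul]; omega
    · intro x hx
      rcases List.mem_append.1 hx with hx | hx
      · exact hA2 x hx
      · exact hB2 x hx
    · intro z M M' Y hM hY
      rw [eval_append, eval_cons]
      exact hB3 z _ _ Y (hA3 z M M' Y hM hY).1 (hA3 z M M' Y hM hY).2

end RLoop

/-- **A straight-line program on a virtual input which depends on the memory.** -/
theorem Cp.virtM {B s l t : ℕ} {f : Inp → Bool} (hf : Cp 0 s (fun z _ => f z))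
    {φ : Inp → Mem → Inp} (hφ : LocM B l t φ)
    (hdep : ∀ z M M', Agr B M M' → φ z M = φ z M') (hs : s ≤ l) :
    Cp B (s * (t + 1) + s + t + 3 * B + 2) (fun z M => f (φ z M)) := by
  refine ⟨fun z M M' hM => ?_, fun c hc o ho => ?_⟩
  · show f (φ z M) = f (φ z M')
    rw [hdep z M M' hM]
  · obtain ⟨C, hC, h1⟩ := hf.code c (Nat.zero_le _) o ho
    obtain ⟨A, hA1, hA2, hA3⟩ := Cp.store (b := B) (s := 2) (K := B) (g := fun i _ M => M i)
      (fun i hi => Cp.cell hi) (c + s) (by omega) B le_rfl
    obtain ⟨C', hC1, hC2, hC3⟩ := RLoop.list_virtM (c := c) (s := s) (e := c + s) hφ hdep le_rfl C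
      (fun x hx => ⟨(hC.2 x hx).1, (hC.2 x hx).2.trans hs⟩)
    refine ⟨A ++ C', ⟨?_, fun x hx => ?_⟩, fun z M => ?_⟩
    · rw [List.length_append]
      have := Nat.mul_le_mul_right (t + 1) hC.1
      omega
    · rcases List.mem_append.1 hx with hx | hx
      · have := hA2 x hx; omega
      · have := hC2 x hx; omega
    · obtain ⟨h2, h3⟩ := hA3 z M
      have hag : Agr (c + s) (eval A z M) M := fun q hq => h3 q (by omega) (by omega)
      have h4 := hC3 z (eval A z M) M M hag h2
      rw [eval_append]
      refine ⟨?_, fun q hq hqo => ?_⟩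
      · rw [h4 o (by omega), (h1 (φ z M) M).1]
      · rw [h4 q (by omega), (h1 (φ z M) M).2 q hq hqo]

/-! ### the string which contains a number -/

/-- the string which contains the number `x` -/
def kstr (k σ x : ℕ) : Inp := fun a => decide (∃ r < k, a = bits σ r ∧ x.testBit r = true)

theorem kstr_bits {k σ x r : ℕ} (hσ : k ≤ 2 ^ σ) (hr : r < k) :
    trc σ (kstr k σ x) (bits σ r) = x.testBit r := by
  unfold trc kstr
  rw [if_pos (by rw [length_bits]), Bool.eq_iff_iff, decide_eq_true_iff]
  constructor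
  · rintro ⟨r', hr', h1, h2⟩
    obtain rfl := bits_inj (by omega) (by omega) h1
    exact h2
  · intro h
    exact ⟨r, hr, rfl, h⟩

theorem num_kstr {k σ x : ℕ} (hσ : k ≤ 2 ^ σ) (hx : x < 2 ^ k) :
    num k (fun r => trc σ (kstr k σ x) (bits σ r)) = x := by
  rw [num_congr fun r hr => kstr_bits hσ hr, num_testBit, Nat.mod_eq_of_lt hx]

theorem word_eq_iff_map {M : Mem} {j σ r : ℕ} : word M j σ = bits σ r ↔
    (List.range σ).map (fun i => M (j + i)) = (List.range σ).map (fun i => r.testBit i) :=
  Iff.rfl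

/-- size of the code of the virtual input of a loop -/
def loopSz (k σ l : ℕ) : ℕ := k * (σ * 200 + 200) + l + 200

/-- the virtual input of a loop is local -/
theorem locM_kstr (k σ l : ℕ) :
    LocM k l (loopSz k σ l) (fun z M => pair z (trc σ (kstr k σ (num k M)))) := by
  intro m hm j e
  cases m with
  | zero =>
    refine ((Cp.const _ false).congr fun z M => ?_).mono le_rfl (by unfold loopSz; omega)
    rw [word_zero]
    rfl
  | succ m =>
    have hb1 : j + 1 + m ≤ max (e + k) (j + (m + 1)) := by omega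
    have hb2 : e + k ≤ max (e + k) (j + (m + 1)) := le_max_left _ _
    obtain ⟨b, hb⟩ : ∃ b, b = max (e + k) (j + (m + 1)) := ⟨_, rfl⟩
    rw [← hb] at hb1 hb2 ⊢
    have h1 : Cp b (m + 1) (fun z M => z (word M (j + 1) m)) :=
      (Loc.id m m le_rfl (j + 1)).mono hb1 le_rfl
    have h2 : Cp b (k * (σ * 200 + 200) + 50)
        (fun _ M => trc σ (kstr k σ (num k fun i => M (e + i))) (word M (j + 1) m)) := by
      by_cases hmσ : m = σ
      · subst hmσ
        have h0 : ∀ r < k, Cp b (m * (2 * 2 + 2 * 8 + 100) + 50 + 2 + 7)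
            (fun _ M => decide ((List.range m).map (fun i => M (j + 1 + i)) =
              (List.range m).map (fun i => r.testBit i)) && M (e + r)) := by
          intro r hr
          have a1 := Cp.listEq (b := b) (s := 2) (t := 8) (n := m)
            (g := fun i _ M => M (j + 1 + i)) (g' := fun i _ _ => r.testBit i)
            (fun i hi => Cp.cell (by omega)) (fun i _ => Cp.const _ _)
          have a2 : Cp b 2 (fun _ M => M (e + r)) := Cp.cell (by omega)
          exact a1.and a2
        have h3 := Cp.any h0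
        refine (h3.congr fun z M => ?_).mono le_rfl ?_
        · unfold trc kstr
          rw [if_pos (by rw [word_length]), Bool.eq_iff_iff, decide_eq_true_iff,
            List.any_eq_true]
          constructor
          · rintro ⟨r, hr, h⟩
            rw [Bool.and_eq_true, decide_eq_true_iff] at h
            refine ⟨r, List.mem_range.1 hr, word_eq_iff_map.2 h.1, ?_⟩
            rw [testBit_num, decide_eq_true (List.mem_range.1 hr)]
            exact h.2
          · rintro ⟨r, hr, h, h'⟩
            refine ⟨r, List.mem_range.2 hr, ?_⟩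
            rw [Bool.and_eq_true, decide_eq_true_iff]
            refine ⟨word_eq_iff_map.1 h, ?_⟩
            rw [testBit_num, decide_eq_true hr] at h'
            exact h'
        · have h5 : k * (m * (2 * 2 + 2 * 8 + 100) + 50 + 2 + 7 + 30) ≤ k * (m * 200 + 200) :=
            Nat.mul_le_mul_left _ (by omega)
          omega
      · refine ((Cp.const b false).congr fun z M => ?_).mono le_rfl (by omega)
        unfold trc
        by_cases hle : (word M (j + 1) m).length ≤ σ
        · rw [if_pos hle]
          unfold kstr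
          symm
          rw [decide_eq_false_iff_not]
          rintro ⟨r, _, h, _⟩
          have := congrArg List.length h
          rw [word_length, length_bits] at this
          exact hmσ this
        · rw [if_neg hle]
    have hcj : Cp b 2 (fun _ M => M j) := Cp.cell (by omega)
    refine ((Cp.ite hcj h2 h1).congr fun z M => ?_).mono le_rfl ?_
    · rw [word_succ]
      cases M j <;> rfl
    · unfold loopSz
      omega

/-! ### the loop -/

/-- one pass of the loop: the number `u` is checked -/
def nxl (g : ℕ → Bool) (w : ℕ) (p : PSt) (_ : ℕ → Bool) : PSt :=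
  ⟨!(g p.u) || decide (p.u + 1 = 2 ^ w), g p.u, false, 0, 0, p.u + 1, 0, fun _ => false⟩

/-- the layout of the states of the loop -/
def llay (w : ℕ) : Lay := ⟨w, 0, 0⟩

/-- the states of the loop -/
def lst' (g : ℕ → Bool) (w t : ℕ) : PSt :=
  if t = 0 then PSt.init else
    ⟨!(g (t - 1)) || decide (t = 2 ^ w), g (t - 1), false, 0, 0, t, 0, fun _ => false⟩

theorem lst'_u (g : ℕ → Bool) (w t : ℕ) : (lst' g w t).u = t := by
  unfold lst'
  by_cases h : t = 0
  · subst h
    rfl
  · rw [if_neg h]

theorem lst'_run (g : ℕ → Bool) (w T : ℕ) : IsRun (nxl g w) (lst' g w) T := by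
  refine ⟨rfl, fun t _ => ?_⟩
  unfold nxl
  rw [lst'_u]
  rfl

theorem lst'_ok (g : ℕ → Bool) {w t : ℕ} (ht : t < 2 ^ w) : (llay w).Ok (lst' g w t) := by
  refine ⟨?_, ?_, ?_, ?_, ?_⟩
  · unfold lst'
    by_cases h : t = 0
    · rw [if_pos h]; exact Nat.two_pow_pos _
    · rw [if_neg h]; exact Nat.two_pow_pos _
  · unfold lst'
    by_cases h : t = 0
    · rw [if_pos h]; exact Nat.two_pow_pos _
    · rw [if_neg h]; exact Nat.two_pow_pos _
  · rw [lst'_u]
    exact ht
  · unfold lst'
    by_cases h : t = 0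
    · rw [if_pos h]; exact Nat.two_pow_pos _
    · rw [if_neg h]; exact Nat.two_pow_pos _
  · intro j _
    unfold lst'
    by_cases h : t = 0
    · rw [if_pos h]; rfl
    · rw [if_neg h]

/-- size of the code of one cell of the loop -/
def loopCp (w X : ℕ) : ℕ := X + (6 * w + 10) * 200 + w * 300 + 1000

theorem nxl_cp {w X : ℕ} {f : Inp → ℕ → Bool} (hf : Cp w X (fun z M => f z (num w M))) (q : ℕ) :
    Cp (2 * (llay w).tot) (loopCp w X) (fun z M =>
      (llay w).pack (nxl (f z) w ((llay w).unpack (evc M)) ((llay w).unpack (odc M)).X) q) := by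
  have hb : (llay w).base = 2 * w + 3 + 0 + w + w := rfl
  have ht : (llay w).tot = (llay w).base + 0 := rfl
  obtain ⟨b, hbb⟩ : ∃ b, b = 2 * (llay w).tot := ⟨_, rfl⟩
  rw [← hbb]
  have hbe : b = 8 * w + 6 := by omega
  have hu : ∀ i < w, Cp b 2 (fun _ M => evc M (2 * w + 3 + 0 + i)) := fun i hi =>
    Cp.cell (show 2 * (2 * w + 3 + 0 + i) < b by omega)
  -- the check
  have hcall := Cp.call (m := w) (hf.mono (show w ≤ b by omega) le_rfl)
    (g := fun i _ M => evc M (2 * w + 3 + 0 + i)) hu (by omega)
  have hg : Cp b (X + (b * (2 + 5) + 1) + 4 * b + 4)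
      (fun z M => f z (num w fun i => evc M (2 * w + 3 + 0 + i))) := by
    refine hcall.congr fun z M => ?_
    congr 1
    refine num_congr fun i hi => ?_
    rw [decide_eq_true hi]
    rfl
  -- the last number
  have hall : Cp b (w * (2 + 30) + 30)
      (fun _ M => decide ((num w fun i => evc M (2 * w + 3 + 0 + i)) + 1 = 2 ^ w)) := by
    refine (Cp.all (n := w) (f := fun i _ M => evc M (2 * w + 3 + 0 + i)) hu).congr
      fun z M => ?_
    have h1 : num w (fun _ => true) + 1 = 2 ^ w := by
      clear hf hcall hg hu hbe hbb hb ht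
      induction w with
      | zero => rfl
      | succ w ih =>
        rw [num_succ, if_pos rfl, pow_succ]
        omega
    rw [Bool.eq_iff_iff, List.all_eq_true, decide_eq_true_iff]
    constructor
    · intro h
      rw [← h1]
      congr 1
      exact num_congr fun i hi => h i (List.mem_range.2 hi)
    · intro h i hi
      have h2 : (num w fun i => evc M (2 * w + 3 + 0 + i)) = num w fun _ => true := by omega
      exact (num_inj_iff w _ _).1 h2 i (List.mem_range.1 hi)
  obtain ⟨N, hN⟩ : ∃ N, N = loopCp w X := ⟨_, rfl⟩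
  rw [← hN]
  have hN' : N = X + (6 * w + 10) * 200 + w * 300 + 1000 := hN
  refine Lay.cp_pack (P := fun z M => nxl (f z) w ((llay w).unpack (evc M))
    ((llay w).unpack (odc M)).X) (by omega) ?_ ?_ ?_ ?_ ?_ ?_ ?_ ?_ q
  · exact (Cp.or hg.not hall).mono le_rfl (by omega)
  · exact hg.mono le_rfl (by omega)
  · exact (Cp.const b false).mono le_rfl (by omega)
  · intro r _
    refine ((Cp.const b false).congr fun z M => ?_).mono le_rfl (by omega)
    exact (Nat.zero_testBit r).symm
  · intro r hr
    exact absurd hr (Nat.not_lt_zero _)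
  · intro r hr
    have h1 := Cp.tbSucc (b := b) (s := 2) (d := w) (n := w)
      (g := fun i _ M => evc M (2 * w + 3 + 0 + i)) hu le_rfl r hr
    exact h1.mono le_rfl (by omega)
  · intro r _
    refine ((Cp.const b false).congr fun z M => ?_).mono le_rfl (by omega)
    exact (Nat.zero_testBit r).symm
  · intro r hr
    exact absurd hr (Nat.not_lt_zero _)

/-- **The loop over a straight-line check as a history program.** -/
theorem exists_loop_hist {w X : ℕ} {f : Inp → ℕ → Bool}
    (hf : Cp w X (fun z M => f z (num w M))) :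
    ∃ G : List Ins, HSz (2 * (4 * w + 3) * (loopCp w X + 5) + 2) w G ∧
      ∀ z, ∃ b, HAns (eval G z) w (2 ^ w) b ∧ (b = true ↔ ∀ x < 2 ^ w, f z x = true) := by
  have ht : (llay w).tot = 4 * w + 3 := by
    show 2 * w + 3 + 0 + w + w + 0 = 4 * w + 3
    omega
  obtain ⟨G, hG, hrun⟩ := exists_packed (y := llay w) (N := loopCp w X)
    (nx := fun z p X' => nxl (f z) w p X') (fun q _ => nxl_cp hf q)
  rw [ht] at hG
  refine ⟨G, hG, fun z => ?_⟩
  have hpos : 0 < 2 ^ w := Nat.two_pow_pos _
  obtain ⟨_, h1, h2, _⟩ := hrun z (lst' (f z) w) (2 ^ w) (lst'_run _ _ _)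
    (fun t ht => lst'_ok _ ht)
  -- the first halting state
  have hex : ∃ t, 0 < t ∧ (f z (t - 1) = false ∨ t = 2 ^ w) := ⟨2 ^ w, hpos, Or.inr rfl⟩
  classical
  obtain ⟨N, hN1, hN2⟩ : ∃ N, (0 < N ∧ (f z (N - 1) = false ∨ N = 2 ^ w)) ∧
      ∀ m < N, ¬ (0 < m ∧ (f z (m - 1) = false ∨ m = 2 ^ w)) :=
    ⟨Nat.find hex, Nat.find_spec hex, fun m hm => Nat.find_min hex hm⟩
  have hNle : N ≤ 2 ^ w := by
    by_contra h
    exact hN2 (2 ^ w) (by omega) ⟨hpos, Or.inr rfl⟩
  have hst : ∀ t, 0 < t → lst' (f z) w t =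
      ⟨!(f z (t - 1)) || decide (t = 2 ^ w), f z (t - 1), false, 0, 0, t, 0,
        fun _ => false⟩ := fun t ht0 => if_neg (by omega)
  refine ⟨f z (N - 1), ⟨N, hNle, ⟨?_, fun n hn => ?_⟩, ?_⟩, ?_⟩
  · rw [show sta (eval G z) w N 0 = (lst' (f z) w N).halt from h1 N hNle, hst N hN1.1]
    show (!(f z (N - 1)) || decide (N = 2 ^ w)) = true
    rcases hN1.2 with h | h
    · rw [h]; rfl
    · rw [decide_eq_true h, Bool.or_true]
  · rw [show sta (eval G z) w n 0 = (lst' (f z) w n).halt from h1 n (by omega)]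
    rcases Nat.eq_zero_or_pos n with h0 | h0
    · subst h0
      rfl
    · have h3 := hN2 n hn
      rw [hst n h0]
      show (!(f z (n - 1)) || decide (n = 2 ^ w)) = false
      have h4 : f z (n - 1) = true := by
        by_contra h5
        exact h3 ⟨h0, Or.inl ((Bool.not_eq_true _).mp h5)⟩
      have h5 : n ≠ 2 ^ w := fun h6 => h3 ⟨h0, Or.inr h6⟩
      rw [h4, decide_eq_false h5]
      rfl
  · rw [show sta (eval G z) w N 2 = (lst' (f z) w N).ans from h2 N hNle, hst N hN1.1]
  · constructor
    · intro h x hx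
      have hNe : N = 2 ^ w := by
        rcases hN1.2 with h3 | h3
        · rw [h] at h3; cases h3
        · exact h3
      by_contra h4
      have h5 : f z x = false := (Bool.not_eq_true _).mp h4
      by_cases h6 : x + 1 < N
      · exact hN2 (x + 1) h6 ⟨by omega, Or.inl h5⟩
      · have h7 : N - 1 = x := by omega
        rw [h7] at h
        rw [h] at h5
        cases h5
    · intro h
      exact h _ (by omega)

/-- **A straight-line check for all numbers `x < 2 ^ w` in the memory.** -/
theorem inH_loopM {T : Type} {π : Pres T} {e : ℝ} {w X : ℕ → ℕ} (hw : Lin e w) (hX : SubExp X)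
    (f : ℕ → Inp → ℕ → Bool) (hf : ∀ L, Cp (w L) (X L) (fun z M => f L z (num (w L) M))) :
    InH π (fun τ => ∀ x < 2 ^ w (π.idx τ), f (π.idx τ) (π.inp τ) x = true) e := by
  choose G hG hrun using fun L => exists_loop_hist (hf L)
  have hws : SubExp w := hw.subExp
  refine ⟨G, fun L => 2 * (4 * w L + 3) * (loopCp (w L) (X L) + 5) + 2, fun L => 2 ^ w L, w, 0,
    ?_, ?_, hG, fun τ _ => ⟨hrun _ _, fun _ _ _ => trivial⟩⟩
  · rw [ex_zero_iff]
    unfold loopCp
    have c : ∀ n, SubExp (fun _ => n) := SubExp.const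
    exact (((c 2).mul (((c 4).mul hws).add (c 3))).mul ((((hX.add
      ((((c 6).mul hws).add (c 10)).mul (c 200))).add (hws.mul (c 300))).add (c 1000)).add
      (c 5))).add (c 2)
  · intro ε hε
    obtain ⟨L₀, hL₀⟩ := hw ε hε
    refine ⟨L₀, fun L hL => ?_⟩
    have h1 := hL₀ L hL
    push_cast
    rw [← Real.rpow_natCast]
    exact Real.rpow_le_rpow_of_exponent_le (by norm_num) h1

/-- **A straight-line check for all numbers `x < 2 ^ k`.** -/
theorem inH_loop {T : Type} {π : Pres T} {e : ℝ} {k σ X : ℕ → ℕ} (he : 0 ≤ e) (hk : Lin e k)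
    (hσ : SubExp σ) (hX : SubExp X) (f : ℕ → Inp → Bool)
    (hf : ∀ L, Cp 0 (X L) (fun x _ => f L x)) :
    InH π (fun τ => ∀ x < 2 ^ k (π.idx τ), f (π.idx τ)
      (pair (π.inp τ) (trc (σ (π.idx τ)) (kstr (k (π.idx τ)) (σ (π.idx τ)) x))) = true) e := by
  have _ := he
  have hks : SubExp k := hk.subExp
  refine inH_loopM (w := k) (X := fun L => X L * (loopSz (k L) (σ L) (X L) + 1) + X L +
    loopSz (k L) (σ L) (X L) + 3 * k L + 2) hk ?_
    (fun L z x => f L (pair z (trc (σ L) (kstr (k L) (σ L) x)))) fun L => ?_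
  · unfold loopSz
    have c : ∀ n, SubExp (fun _ => n) := SubExp.const
    have h1 : SubExp (fun L => k L * (σ L * 200 + 200) + X L + 200) :=
      ((hks.mul ((hσ.mul (c 200)).add (c 200))).add hX).add (c 200)
    exact ((((hX.mul (h1.add (c 1))).add hX).add h1).add ((c 3).mul hks)).add (c 2)
  · refine Cp.virtM (hf L) (locM_kstr (k L) (σ L) (X L)) (fun z M M' hM => ?_) le_rfl
    rw [num_congr fun i hi => hM i hi]

end Pool.Agent.NUM
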