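import Pool.Agent.NUM.GCode
import Pool.Agent.NUM.HCodeS
import Pool.Agent.NUM.RTraceRd

/-!
# The code of the check of transcripts, part A: machine, list, transcript as computable objects

* `XCtx X h b Mx`: the machine `Mx z` on extended states has computable operations;
* `Ctx B X h w b κ L T`: the list `L z M` and the transcript `T z M` have computable fields.
-/

set_option autoImplicit false

namespace Pool.Agent.NUM

namespace RTC

section

variable {X B k l n m c c' : ℕ}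

/-! ### statements -/

theorem imp {P Q : Inp → Mem → Prop} (hX : 1000 ≤ X) (h : CP B (X ^ k) P)
    (h' : CP B (X ^ k) Q) : CP B (X ^ (k + 1)) (fun z M => P z M → Q z M) := by
  obtain ⟨f, hf, hP⟩ := h
  obtain ⟨g, hg, hQ⟩ := h'
  refine ⟨fun z M => (!(f z M)) || g z M, (hf.not.or hg).mono le_rfl
    (Xb1 hX k fun a h1 h2 => by rw [← h2]; omega), fun z M => ?_⟩
  show ((!(f z M)) || g z M) = true ↔ (P z M → Q z M)
  rw [← hP z M, ← hQ z M]
  cases f z M <;> cases g z M <;> simp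

theorem klt {a t a' t' : Inp → Mem → ℕ} (hX : 1000 ≤ X) (hn : n ≤ X) (ha : CN B (X ^ k) n a)
    (ht : CN B (X ^ k) n t) (ha' : CN B (X ^ k) n a') (ht' : CN B (X ^ k) n t') :
    CP B (X ^ (k + 5)) (fun z M => KLt (a z M) (t z M) (a' z M) (t' z M)) := by
  have h1 := CP.ltN hX hn ha ha'
  have h2 := CP.eqN hX hn ha ha'
  have h3 := CP.ltN hX hn ht ht'
  have h4 := CP.and hX (h2.up hX (by omega : k + 2 ≤ k + 3)) h3
  exact (CP.or hX (h1.up hX (by omega)) h4).congr fun z M => Iff.rfl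

/-- a function of the input only: no cells are needed -/
theorem drop {s : ℕ} {f : Inp → Bool} (h : Cp B s (fun x _ => f x)) :
    Cp 0 (s + B) (fun x _ => f x) := by
  refine ⟨fun _ _ _ _ => rfl, fun c _ o ho => ?_⟩
  obtain ⟨C, hC, h1⟩ := h.code (c + B) (by omega) o (by omega)
  exact ⟨C, hC.mono (by omega) (by omega), fun z M => ⟨(h1 z M).1, fun q hq hqo =>
    (h1 z M).2 q (by omega) hqo⟩⟩

theorem inpFun {s : ℕ} {P : Inp → Prop} (h : CP B s fun x _ => P x) :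
    ∃ f : Inp → Bool, Cp 0 (s + B) (fun x _ => f x) ∧ ∀ x, (f x = true ↔ P x) := by
  obtain ⟨f, hf, hP⟩ := h
  have h1 : Cp B s (fun x _ => f x zeroMem) := hf.congr fun x M => by
    rw [Bool.eq_iff_iff, hP, hP]
  exact ⟨fun x => f x zeroMem, drop h1, fun x => hP x zeroMem⟩

/-! ### the machine -/

/-- a step of the program: the input of the program is a part of the input -/
theorem gpass {G : List Ins} {h h₀ : ℕ} (hG : Sz (2 * h₀) G) (hX : 1000 * (h₀ + 10) ≤ X)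
    (pre : List Bool) (hpre : pre.length ≤ 3)
    {a c : Inp → Mem → Fin h → Bool} (ha : CV X (X ^ (k + 2)) a) (hc : CV X (X ^ (k + 2)) c)
    {r : ℕ} (hr : r < h₀) :
    Cp X (X ^ (k + 4)) (fun y M => eval G (fun w => y (pre ++ w))
      (mrg (embM (a y M)) (embM (c y M))) (2 * r)) := by
  have hl : Loc (2 * h₀) (20 * (2 * h₀ + pre.length) + (2 * h₀ + pre.length + 1) + 20)
      (fun (y : Inp) w => y (pre ++ w)) := Loc.shift pre (Loc.id (2 * h₀ + pre.length))
  have h1 := ((Tr.pass hG).virt hl le_rfl).cell (q := 2 * r) (by omega)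
  have h2 : Cp X (X ^ 2) (fun y M => eval G (fun w => y (pre ++ w)) M (2 * r)) := by
    refine h1.mono (by omega) ?_
    have e1 : 20 * (2 * h₀ + pre.length) + (2 * h₀ + pre.length + 1) + 20 + 1 ≤ X := by omega
    have e2 : 2 * h₀ * (20 * (2 * h₀ + pre.length) + (2 * h₀ + pre.length + 1) + 20 + 1) ≤
        2 * h₀ * X := Nat.mul_le_mul_left _ e1
    have e3 : X ^ 2 = X * X := by ring
    have e4 : (2 * h₀ + 1) * X ≤ X * X := Nat.mul_le_mul_right _ (by omega)
    have e5 : (2 * h₀ + 1) * X = 2 * h₀ * X + X := by ring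
    rw [e3]
    rw [e5] at e4
    generalize 2 * h₀ * (20 * (2 * h₀ + pre.length) + (2 * h₀ + pre.length + 1) + 20 + 1) = p at *
    generalize 2 * h₀ * X = p' at *
    generalize X * X = p'' at *
    omega
  have h3 := CX.call (m := 2 * h₀) (by omega) (h2.up (by omega) (by omega : 2 ≤ k + 2))
    (g := fun q y M => mrg (embM (a y M)) (embM (c y M)) q) (fun q hq => ?_)
  · refine h3.congr fun y M => ?_
    refine eval_agr hG.2 (fun q hq => ?_) _ (by omega)
    simp [hq]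
  · by_cases hq2 : q % 2 = 0
    · refine (CX.emb (k := k + 1) (by omega) ha q).congr fun y M => ?_
      unfold mrg
      rw [if_pos hq2]
    · refine (CX.emb (k := k + 1) (by omega) hc (q - 1)).congr fun y M => ?_
      unfold mrg
      rw [if_neg hq2]

/-- a machine with computable operations -/
structure XCtx (X h b : ℕ) (Mx : Inp → XM (Fin h → Bool)) : Prop where
  xs : ∀ (k l n : ℕ) (a c : Inp → Mem → Fin h → Bool) (p : Inp → Mem → ℕ), CV X (X ^ (k + 2)) a →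
    CV X (X ^ (k + 2)) c → CN X (X ^ l) n p → k + 4 ≤ l →
    CV X (X ^ l) (fun y M => (Mx y).xs (a y M) (c y M) (p y M))
  rad : ∀ (k : ℕ) (S : Inp → Mem → Fin h → Bool), CV X (X ^ (k + 1)) S →
    CN X (X ^ (k + 1)) b (fun y M => (Mx y).rad (S y M))
  wad : ∀ (k : ℕ) (S : Inp → Mem → Fin h → Bool), CV X (X ^ (k + 1)) S →
    CN X (X ^ (k + 1)) b (fun y M => (Mx y).wad (S y M))
  srx : ∀ (k : ℕ) (S : Inp → Mem → Fin h → Bool), CV X (X ^ (k + 1)) S →
    CN X (X ^ (k + 1)) b (fun y M => (Mx y).srx (S y M))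
  fl : ∀ (k : ℕ) (S : Inp → Mem → Fin h → Bool), CV X (X ^ (k + 1)) S →
    Cp X (X ^ (k + 1)) (fun y M => (Mx y).fl (S y M))
  acc : ∀ (k : ℕ) (S : Inp → Mem → Fin h → Bool), CV X (X ^ (k + 1)) S →
    Cp X (X ^ (k + 1)) (fun y M => (Mx y).acc (S y M))

theorem xCtx {G : List Ins} {h₀ b d : ℕ} (hG : Sz (2 * h₀) G) (hX : 1000 * (h₀ + 10) ≤ X)
    (hd : d ≤ b) (pre : List Bool) (hpre : pre.length ≤ 3) :
    XCtx X (h₀ + b) b (fun y => ramXM G (fun w => y (pre ++ w)) d h₀ b) := by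
  have hX' : 1000 ≤ X := by omega
  refine ⟨fun k l n a c p ha hc hp hkl i => ?_, fun k S hS => ?_, fun k S hS => ?_,
    fun k S hS => ?_, fun k S hS => ?_, fun k S hS => ?_⟩
  · by_cases hi : (i : ℕ) < h₀
    · refine ((gpass hG hX pre hpre ha hc hi).up hX' hkl).congr fun y M => ?_
      show _ = (if (i : ℕ) < h₀ then _ else _)
      rw [if_pos hi]
    · refine (hp.bit ((i : ℕ) - h₀)).congr fun y M => ?_
      show _ = (if (i : ℕ) < h₀ then _ else _)
      rw [if_neg hi]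
  · exact (CN.of hX' (g := fun r y M => embM (S y M) (4 * r + 4)) fun r _ =>
      CX.emb hX' hS _).widen hd
  · exact (CN.of hX' (g := fun r y M => embM (S y M) (4 * r + 6)) fun r _ =>
      CX.emb hX' hS _).widen hd
  · exact CN.of hX' (g := fun r y M => embM (S y M) (2 * (h₀ + r))) fun r _ => CX.emb hX' hS _
  · exact CX.emb hX' hS 0
  · exact CX.emb hX' hS 2

/-! ### lists and transcripts -/

/-- a list, a label and a transcript with computable fields -/
structure Ctx (B X h w b kk : ℕ) (L : Inp → Mem → Lst (Fin h → Bool)) (κ : Inp → Mem → ℕ)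
    (T : Inp → Mem → Trc (Fin h → Bool)) : Prop where
  X1 : 1000 ≤ X
  hh : h ≤ X
  hw : w + 2 ≤ X
  hb : b + 5 ≤ X
  hk : kk + 2 ≤ X
  κ : CN B (X ^ (0 + 3)) w κ
  tm : ∀ (k : ℕ) (i : Inp → Mem → ℕ), CN B (X ^ (k + 1)) w i →
    CN B (X ^ (k + 3)) b fun z M => (L z M).tm (i z M)
  st : ∀ (k : ℕ) (i : Inp → Mem → ℕ), CN B (X ^ (k + 1)) w i →
    CV B (X ^ (k + 3)) fun z M => (L z M).st (i z M)
  lb : ∀ (k : ℕ) (i : Inp → Mem → ℕ), CN B (X ^ (k + 1)) w i →
    CN B (X ^ (k + 3)) w fun z M => (L z M).lb (i z M)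
  fin : ∀ (k : ℕ) (i : Inp → Mem → ℕ), CN B (X ^ (k + 1)) w i →
    Cp B (X ^ (k + 3)) fun z M => (L z M).fin (i z M)
  I : ∀ (k n : ℕ) (i : Inp → Mem → ℕ), CN B (X ^ (k + 1)) n i →
    CN B (X ^ (k + 3)) w fun z M => (T z M).I (i z M)
  W : ∀ (k n : ℕ) (i : Inp → Mem → ℕ), CN B (X ^ (k + 1)) n i →
    CV B (X ^ (k + 3)) fun z M => (T z M).W (i z M)
  Rk : ∀ (k n : ℕ) (i : Inp → Mem → ℕ), CN B (X ^ (k + 1)) n i →
    CN B (X ^ (k + 3)) kk fun z M => (T z M).Rk (i z M)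
  Q : ∀ (k n : ℕ) (i : Inp → Mem → ℕ), CN B (X ^ (k + 1)) n i →
    CN B (X ^ (k + 3)) kk fun z M => (T z M).Q (i z M)
  J : ∀ (k n : ℕ) (i : Inp → Mem → ℕ), CN B (X ^ (k + 1)) n i →
    CN B (X ^ (k + 3)) kk fun z M => (T z M).J (i z M)
  t : ∀ (k n : ℕ) (i : Inp → Mem → ℕ), CN B (X ^ (k + 1)) n i →
    CN B (X ^ (k + 3)) b fun z M => (T z M).t (i z M)
  x : CN B (X ^ (0 + 3)) kk fun z M => (T z M).x

theorem tbit (hX : 1000 ≤ X) {kk σ : ℕ} {u : Inp → Mem → Inp} {i : Inp → Mem → ℕ}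
    (hc : c + kk + σ + 20 ≤ X) (hu : CStr B (X ^ (k + 1)) c u)
    (hi : CN B (X ^ (k + 1)) n i) (g : Bool) (f r : ℕ) :
    Cp B (X ^ (k + 3)) (fun z M => NUM.tbit kk σ (u z M) g f (i z M) r) := by
  have h1 : CA B (X ^ (k + 1)) 4 (fun _ _ => g :: bits 3 f) :=
    CA.const' hX _ (by rw [List.length_cons, length_bits])
  have h2 : CA B (X ^ (k + 1)) σ (fun _ _ => bits σ r) := CA.const' hX _ (length_bits σ r)
  exact (CStr.bit hX hu (h1.append ((CA.bits hX kk hi).append h2)) (by omega)).congr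
    fun z M => by
      unfold NUM.tbit
      rfl

/-- lists and transcripts in parts of the input -/
theorem mkCtx {h w b kk σ cL cT : ℕ} {uL uT : Inp → Mem → Inp} {κ : Inp → Mem → ℕ} (g : Bool)
    (hX : 1000 ≤ X) (hh : h ≤ X) (hcL : cL + w + σ + 20 ≤ X) (hcT : cT + kk + σ + 20 ≤ X)
    (hb : b + 5 ≤ X) (hκ : CN B (X ^ (0 + 3)) w κ) (hL : CStr B (X ^ 1) cL uL)
    (hT : CStr B (X ^ 1) cT uT) :
    Ctx B X h w b kk (fun z M => rdL h w b σ (uL z M)) κ
      (fun z M => rdT h w kk b σ (uT z M) g) := by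
  have hL' : ∀ k, CStr B (X ^ (k + 1)) cL uL := fun k => hL.up hX (by omega)
  have hT' : ∀ k, CStr B (X ^ (k + 1)) cT uT := fun k => hT.up hX (by omega)
  have hz : CN B (X ^ (0 + 1)) 1 (fun _ _ => 0) := CN.const hX (by norm_num)
  refine ⟨hX, hh, by omega, hb, by omega, hκ, fun k i hi => ?_, fun k i hi => ?_,
    fun k i hi => ?_, fun k i hi => ?_, fun k n i hi => ?_, fun k n i hi => ?_,
    fun k n i hi => ?_, fun k n i hi => ?_, fun k n i hi => ?_, fun k n i hi => ?_, ?_⟩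
  · exact CStr.tm hX hcL (hL' k) hi
  · exact CStr.st hX hcL (hL' k) hi
  · exact CStr.lb (h := h) (b := b) hX hcL (hL' k) hi
  · exact CStr.fin (h := h) (b := b) hX hcL (hL' k) hi
  · exact CN.of hX (g := fun r z M => NUM.tbit kk σ (uT z M) g 0 (i z M) r)
      fun r _ => tbit hX hcT (hT' k) hi g 0 r
  · exact fun r => tbit hX hcT (hT' k) hi g 1 r
  · exact CN.of hX (g := fun r z M => NUM.tbit kk σ (uT z M) g 2 (i z M) r)
      fun r _ => tbit hX hcT (hT' k) hi g 2 r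
  · exact CN.of hX (g := fun r z M => NUM.tbit kk σ (uT z M) g 3 (i z M) r)
      fun r _ => tbit hX hcT (hT' k) hi g 3 r
  · exact CN.of hX (g := fun r z M => NUM.tbit kk σ (uT z M) g 4 (i z M) r)
      fun r _ => tbit hX hcT (hT' k) hi g 4 r
  · exact CN.of hX (g := fun r z M => NUM.tbit kk σ (uT z M) g 5 (i z M) r)
      fun r _ => tbit hX hcT (hT' k) hi g 5 r
  · exact CN.of hX (g := fun r z M => NUM.tbit kk σ (uT z M) g 6 0 r)
      fun r _ => tbit hX hcT (hT' 0) hz g 6 r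

variable {h w b kk : ℕ} {L L' : Inp → Mem → Lst (Fin h → Bool)} {κ κ' : Inp → Mem → ℕ}
  {T T' : Inp → Mem → Trc (Fin h → Bool)} {i x : Inp → Mem → ℕ}

theorem Ctx.lbk (H : Ctx B X h w b kk L κ T) (hi : CN B (X ^ (k + 1)) w i) :
    CP B (X ^ (k + 5)) fun z M => (L z M).lb (i z M) = κ z M :=
  CP.eqN H.X1 (by have := H.hw; omega) (H.lb k i hi) (H.κ.up H.X1 (by omega))

/-- the previous position -/
theorem Ctx.pred (H : Ctx B X h w b kk L κ T) (hx : CN B (X ^ (k + 1)) kk x) :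
    CN B (X ^ (k + 8)) kk (fun z M => x z M - 1) := CX.pred H.X1 H.hk hx

theorem Ctx.two (H : Ctx B X h w b kk L κ T) (hx : CN B (X ^ (k + 1)) kk x) :
    CP B (X ^ (k + 5)) (fun z M => 2 ≤ x z M) :=
  (CP.not H.X1 (CP.ltC H.X1 (by have := H.hk; omega) hx 2)).congr fun z M => by omega

theorem Ctx.one (H : Ctx B X h w b kk L κ T) (hx : CN B (X ^ (k + 1)) kk x) :
    CP B (X ^ (k + 5)) (fun z M => 1 ≤ x z M) :=
  (CP.not H.X1 (CP.ltC H.X1 (by have := H.hk; omega) hx 1)).congr fun z M => by omega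

end

end RTC

end Pool.Agent.NUM
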