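import Pool.Agent.NUM.RTCodeA

/-!
# The code of the check of transcripts, part B: the conditions
-/

set_option autoImplicit false

namespace Pool.Agent.NUM

namespace RTC

section

variable {X k l n m c c' : ℕ} {h w b kk : ℕ} {L L' : Inp → Mem → Lst (Fin h → Bool)}
  {κ κ' : Inp → Mem → ℕ} {T T' : Inp → Mem → Trc (Fin h → Bool)} {Mx : Inp → XM (Fin h → Bool)}
  {i x j : Inp → Mem → ℕ}

theorem pos (H : Ctx X X h w b kk L κ T) (hx : CN X (X ^ (k + 1)) kk x) :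
    CP X (X ^ (k + 24)) (fun z M => (T z M).Pos (L z M) (κ z M) w (x z M)) := by
  have hX := H.X1
  have hb := H.hb
  have hw := H.hw
  have hk := H.hk
  have hI := H.I k kk x hx
  have hxm := H.pred hx
  have hIm := H.I (k + 7) kk _ hxm
  have htx := H.t k kk x hx
  have htm := H.t (k + 7) kk _ hxm
  have hfin := CP.ofFalse hX (H.fin (k + 2) _ hI)
  have htwo := H.two hx
  have hlb := H.lbk (k := k + 2) hI
  have hTm := H.tm (k + 2) _ hI
  have hTmm := H.tm (k + 9) _ hIm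
  have ht1 := CN.succ hX (by omega) htm
  -- first case
  have a2 := CP.eqN hX (by omega) (hI.up hX (by omega : k + 3 ≤ k + 7 + 3)) hIm
  have a4 := CP.ltN hX (by omega) htm (hTm.up hX (by omega : k + 2 + 3 ≤ k + 7 + 3))
  have a5 := CP.eqN hX (by omega) ((htx.widen (Nat.le_succ b)).up hX
    (by omega : k + 3 ≤ k + 7 + 3 + 2)) ht1
  have a6 := CP.and hX (a4.up hX (by omega : k + 7 + 3 + 3 ≤ k + 7 + 3 + 2 + 2)) a5
  have a7 := CP.and hX (hlb.up hX (by omega : k + 2 + 5 ≤ k + 7 + 3 + 2 + 2 + 1)) a6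
  have a8 := CP.and hX (a2.up hX (by omega : k + 7 + 3 + 2 ≤ k + 7 + 3 + 2 + 2 + 1 + 1)) a7
  have a9 := CP.and hX (htwo.up hX (by omega : k + 5 ≤ k + 7 + 3 + 2 + 2 + 1 + 1 + 1)) a8
  -- second case
  have b1 := CP.eqC hX (by omega) hx 1
  have b2 := CP.eqC (k := k + 2) hX (by omega) hI 0
  have b3 := CP.and hX (b1.up hX (by omega : k + 3 ≤ k + 2 + 3)) b2
  have b4 := CP.eqN hX (by omega) ((hI.widen (Nat.le_succ w)).up hX
    (by omega : k + 3 ≤ k + 7 + 3 + 2)) (CN.succ hX (by omega) hIm)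
  have b5 := CP.eqN hX (by omega) (htm.up hX (by omega : k + 7 + 3 ≤ k + 9 + 3)) hTmm
  have b6 := CP.and hX b4 (b5.up hX (by omega : k + 9 + 3 + 2 ≤ k + 7 + 3 + 2 + 2))
  have b7 := CP.and hX (htwo.up hX (by omega : k + 5 ≤ k + 7 + 3 + 2 + 2 + 1)) b6
  have b8 := CP.or hX (b3.up hX (by omega : k + 2 + 3 + 1 ≤ k + 7 + 3 + 2 + 2 + 1 + 1)) b7
  have c1 := imp hX (hlb.up hX (by omega : k + 2 + 5 ≤ k + 7 + 3 + 2 + 2)) a5
  have c2 := CP.eqN hX (by omega) (htx.up hX (by omega : k + 3 ≤ k + 2 + 3)) hTm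
  have c3 := imp hX (CP.not hX hlb) (c2.up hX (by omega : k + 2 + 3 + 2 ≤ k + 2 + 5 + 1))
  have c4 := CP.and hX c1 (c3.up hX (by omega : k + 2 + 5 + 1 + 1 ≤ k + 7 + 3 + 2 + 2 + 1))
  have c5 := CP.and hX b8 (c4.up hX (by omega : k + 7 + 3 + 2 + 2 + 1 + 1 ≤ k + 7 + 3 + 2 + 2 + 1 + 1 + 1))
  have d1 := CP.or hX a9 (c5.up hX (by omega : k + 7 + 3 + 2 + 2 + 1 + 1 + 1 + 1 ≤
    k + 7 + 3 + 2 + 2 + 1 + 1 + 1 + 1))
  have d2 := CP.and hX (hfin.up hX (by omega : k + 2 + 3 + 1 ≤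
    k + 7 + 3 + 2 + 2 + 1 + 1 + 1 + 1 + 1)) d1
  refine (d2.congr fun z M => ?_).up hX (by omega)
  exact ⟨fun hh => ⟨hI.lt z M, hh.1, hh.2⟩, fun hh => ⟨hh.2.1, hh.2.2⟩⟩

theorem hit (HM : XCtx X h b Mx) (H : Ctx X X h w b kk L κ T) (hx : CN X (X ^ (k + 1)) kk x) :
    CP X (X ^ (k + 18)) (fun z M => (T z M).Hit (Mx z) (x z M)) := by
  have hX := H.X1
  have hb := H.hb
  have hk := H.hk
  have hJ := H.J k kk x hx
  have h1 := CP.ltN hX (by omega : kk ≤ X) ((CN.const hX (by positivity : 0 < 2 ^ kk)).up hX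
    (by omega : 1 ≤ k + 3)) hJ
  have hQ := H.Q (k + 9) kk _ (H.pred (k := k + 2) hJ)
  have hW := H.W (k + 11) kk _ hQ
  have h2 := HM.wad (k + 13) _ hW
  have h3 := HM.rad (k + 9) _ (H.W (k + 7) kk _ (H.pred hx))
  have h4 := CP.eqN hX (by omega) h2 (h3.up hX (by omega : k + 9 + 1 ≤ k + 13 + 1))
  refine ((CP.and hX (h1.up hX (by omega : k + 3 + 3 ≤ k + 13 + 1 + 2)) h4).congr
    fun z M => Iff.rfl).up hX (by omega)

/-- order of a position `q` and a pair -/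
theorem kltAt (HM : XCtx X h b Mx) (H : Ctx X X h w b kk L κ T) {q : Inp → Mem → ℕ}
    (hq : CN X (X ^ (k + 1)) n q) {a t : Inp → Mem → ℕ} (ha : CN X (X ^ (k + 3)) b a)
    (ht : CN X (X ^ (k + 3)) b t) :
    CP X (X ^ (k + 8)) (fun z M => KLt ((Mx z).wad ((T z M).W (q z M)))
      ((T z M).t (q z M)) (a z M) (t z M)) := by
  have hX := H.X1
  have hb := H.hb
  exact klt hX (by omega) (HM.wad (k + 2) _ (H.W k n q hq)) (H.t k n q hq) ha ht

theorem sta (HM : XCtx X h b Mx) (H : Ctx X X h w b kk L κ T) (hx : CN X (X ^ (k + 1)) kk x) :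
    CP X (X ^ (k + 28)) (fun z M => (T z M).Sta (Mx z) (L z M) (fun _ => false) (κ z M) (x z M)) := by
  have hX := H.X1
  have hb := H.hb
  have hk := H.hk
  have hh := H.hh
  have hI := H.I k kk x hx
  have hlb := H.lbk (k := k + 2) hI
  have hJ := H.J k kk x hx
  have hJm := H.pred (k := k + 2) hJ
  have hQ := H.Q (k + 2) kk _ hJ
  have hQm := H.Q (k + 9) kk _ hJm
  have hWx := H.W k kk x hx
  have hWm := H.W (k + 7) kk _ (H.pred hx)
  have hWQ := H.W (k + 11) kk _ hQm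
  have hrad := HM.rad (k + 9) _ hWm
  have ht := H.t k kk x hx
  have htQ := H.t (k + 11) kk _ hQm
  have f1 := CP.eqV (k := k + 4) hX hh (hWx.up hX (by omega)) (H.st (k + 2) _ hI)
  have f2 := imp hX (CP.not hX hlb) (f1.up hX (by omega : k + 4 + 3 ≤ k + 2 + 5 + 1))
  have a1 := CP.leN hX (by omega : kk ≤ X) hJ (H.x.up hX (by omega : 0 + 3 ≤ k + 3))
  have a2 := CP.ltN hX (by omega : kk ≤ X) hJ (H.x.up hX (by omega : 0 + 3 ≤ k + 3))
  have a3 := CP.not hX (kltAt HM H (k := k + 7) (hQ.up hX (by omega)) (hrad.up hX (by omega))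
    (ht.up hX (by omega)))
  have a4 := imp hX (a2.up hX (by omega : k + 3 + 3 ≤ k + 7 + 8 + 1)) a3
  have b1 := CP.ltN hX (by omega : kk ≤ X) ((CN.const hX (by positivity : 0 < 2 ^ kk)).up hX
    (by omega : 1 ≤ k + 3)) hJ
  have b2 := kltAt HM H (k := k + 11) hQm (hrad.up hX (by omega)) (ht.up hX (by omega))
  have b3 := imp hX (b1.up hX (by omega : k + 3 + 3 ≤ k + 11 + 8)) b2
  have hh1 := hit HM H hx
  have c1 := HM.xs (k + 12) (k + 16) b _ _ _ (hWm.up hX (by omega)) (hWQ.up hX (by omega))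
    (htQ.up hX (by omega)) (by omega)
  have c2 := CP.eqV (k := k + 15) hX hh (hWx.up hX (by omega)) c1
  have c3 := imp hX (hh1.up hX (by omega : k + 18 ≤ k + 15 + 3)) c2
  have d1 := HM.xs (k + 12) (k + 16) 1 _ (fun _ _ _ => false) (fun _ _ => 0)
    (hWm.up hX (by omega)) ((CV.const hX (fun _ => false)).up hX (by omega))
    ((CN.const hX (by norm_num)).up hX (by omega)) (by omega)
  have d2 := CP.eqV (k := k + 15) hX hh (hWx.up hX (by omega)) d1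
  have d3 := imp hX ((CP.not hX hh1).up hX (by omega : k + 18 + 1 ≤ k + 15 + 3 + 1))
    (d2.up hX (by omega : k + 15 + 3 ≤ k + 15 + 3 + 1))
  have e1 := CP.and hX (c3.up hX (by omega : k + 15 + 3 + 1 ≤ k + 15 + 3 + 1 + 1)) d3
  have e2 := CP.and hX (b3.up hX (by omega : k + 11 + 8 + 1 ≤ k + 15 + 3 + 1 + 1 + 1)) e1
  have e3 := CP.and hX (a4.up hX (by omega : k + 7 + 8 + 1 + 1 ≤ k + 15 + 3 + 1 + 1 + 1 + 1)) e2
  have e4 := CP.and hX (a1.up hX (by omega : k + 3 + 4 ≤ k + 15 + 3 + 1 + 1 + 1 + 1 + 1)) e3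
  have e5 := imp hX (hlb.up hX (by omega : k + 2 + 5 ≤ k + 15 + 3 + 1 + 1 + 1 + 1 + 1 + 1)) e4
  have e6 := CP.and hX (f2.up hX (by omega : k + 2 + 5 + 1 + 1 ≤
    k + 15 + 3 + 1 + 1 + 1 + 1 + 1 + 1 + 1)) e5
  exact (e6.congr fun z M => Iff.rfl).up hX (by omega)

theorem at_ (HM : XCtx X h b Mx) (H : Ctx X X h w b kk L κ T) (hx : CN X (X ^ (k + 1)) kk x) :
    CP X (X ^ (k + 32)) (fun z M =>
      (T z M).At (Mx z) (L z M) (fun _ => false) (κ z M) w (x z M)) := by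
  have hX := H.X1
  have hk := H.hk
  have hR := H.Rk k kk x hx
  have e1 := CP.ltN hX (by omega : kk ≤ X) hR (H.x.up hX (by omega : 0 + 3 ≤ k + 3))
  have e2 := CP.eqN hX (by omega : kk ≤ X) (H.Q (k + 2) kk _ hR)
    (hx.up hX (by omega : k + 1 ≤ k + 2 + 3))
  have e3 := CP.and hX (e1.up hX (by omega : k + 3 + 3 ≤ k + 2 + 3 + 2)) e2
  have e4 := CP.and hX (sta HM H hx) (e3.up hX (by omega : k + 2 + 3 + 2 + 1 ≤ k + 28))
  have e5 := CP.and hX ((pos H hx).up hX (by omega : k + 24 ≤ k + 28 + 1)) e4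
  exact (e5.congr fun z M => Iff.rfl).up hX (by omega)

theorem arrAt (HM : XCtx X h b Mx) (H : Ctx X X h w b kk L κ T) (hx : CN X (X ^ (k + 1)) kk x) :
    CP X (X ^ (k + 30)) (fun z M => (T z M).ArrAt (Mx z) (x z M)) := by
  have hX := H.X1
  have hb := H.hb
  have hk := H.hk
  have hQ := H.Q k kk x hx
  have hs := CN.succ hX (by omega) hx
  have hQs := H.Q (k + 2) (kk + 1) _ hs
  have a1 := H.one (k := k + 2) hQ
  have a2 := CP.leN hX (by omega : kk ≤ X) hQ (H.x.up hX (by omega : 0 + 3 ≤ k + 3))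
  have b1 := CP.ltN hX (by omega : kk + 1 ≤ X) hs ((H.x.widen (Nat.le_succ kk)).up hX
    (by omega : 0 + 3 ≤ k + 1 + 2))
  have b2 := kltAt HM H (k := k + 4) (hQ.up hX (by omega)) (a := fun z M =>
      (Mx z).wad ((T z M).W ((T z M).Q (x z M + 1))))
    (t := fun z M => (T z M).t ((T z M).Q (x z M + 1)))
    ((HM.wad (k + 6) _ (H.W (k + 4) kk _ hQs)).up hX (by omega))
    (H.t (k + 4) kk _ hQs)
  have b3 := imp hX (b1.up hX (by omega : k + 1 + 2 + 3 ≤ k + 4 + 8)) b2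
  have c2 := CP.and hX (a2.up hX (by omega : k + 3 + 4 ≤ k + 4 + 8 + 1)) b3
  have c3 := CP.and hX (a1.up hX (by omega : k + 2 + 5 ≤ k + 4 + 8 + 1 + 1)) c2
  exact (c3.congr fun z M => Iff.rfl).up hX (by omega)

/-- **the conditions of a transcript** -/
theorem cnd (HM : XCtx X h b Mx) (H : Ctx X X h w b kk L κ T) (hx : CN X (X ^ (k + 1)) kk x) :
    CP X (X ^ (k + 40)) (fun z M =>
      (T z M).Cnd (Mx z) (L z M) (fun _ => false) (κ z M) w (x z M)) := by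
  have hX := H.X1
  have hb := H.hb
  have hk := H.hk
  have hz : CN X (X ^ (0 + 1)) 1 (fun _ _ => 0) := CN.const hX (by norm_num)
  have a1 := H.one (k := 2) H.x
  have a2 := CP.eqC (k := 2) hX (by omega) (H.t 0 1 _ hz) 0
  have a3 := CP.eqV (k := 2) hX H.hh (H.W 0 1 _ hz) ((CV.const hX (fun _ => false)).up hX (by omega))
  have b1 := H.one hx
  have b2 := CP.leN hX (by omega : kk ≤ X) (hx.up hX (by omega : k + 1 ≤ k + 3))
    (H.x.up hX (by omega : 0 + 3 ≤ k + 3))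
  have b3 := imp hX (b2.up hX (by omega : k + 3 + 4 ≤ k + 32)) (at_ HM H hx)
  have b4 := imp hX (b1.up hX (by omega : k + 5 ≤ k + 32 + 1)) b3
  have c1 := CP.ltN hX (by omega : kk ≤ X) (hx.up hX (by omega : k + 1 ≤ k + 3))
    (H.x.up hX (by omega : 0 + 3 ≤ k + 3))
  have c2 := imp hX (c1.up hX (by omega : k + 3 + 3 ≤ k + 30)) (arrAt HM H hx)
  have d1 := CP.and hX b4 (c2.up hX (by omega : k + 30 + 1 ≤ k + 32 + 1 + 1))
  have d2 := CP.and hX (a3.up hX (by omega : 2 + 3 ≤ k + 32 + 1 + 1 + 1)) d1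
  have d3 := CP.and hX (a2.up hX (by omega : 2 + 3 ≤ k + 32 + 1 + 1 + 1 + 1)) d2
  have d4 := CP.and hX (a1.up hX (by omega : 2 + 5 ≤ k + 32 + 1 + 1 + 1 + 1 + 1)) d3
  exact (d4.congr fun z M => Iff.rfl).up hX (by omega)

/-! ### failures -/

theorem fail1 (HM : XCtx X h b Mx) (H : Ctx X X h w b kk L κ T) :
    CP X (X ^ 40) (fun z M => (T z M).Fail1 (Mx z) (L z M) (κ z M)) := by
  have hX := H.X1
  have hb := H.hb
  have hh := H.hh
  have hI := H.I 2 kk _ H.x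
  have hW := H.W 2 kk _ H.x
  have hWm := H.W 9 kk _ (H.pred (k := 2) H.x)
  have hlb := H.lbk (k := 4) hI
  have htm := H.tm 4 _ hI
  have ht := H.t 2 kk _ H.x
  have a1 := CP.ofTrue (HM.fl 11 _ hWm)
  have b1 := CP.eqN hX (by omega) (ht.up hX (by omega : 2 + 3 ≤ 4 + 3)) htm
  have b2 := CP.not hX (CP.eqV (k := 6) hX hh (hW.up hX (by omega)) (H.st 4 _ hI))
  have b3 := CP.and hX (b1.up hX (by omega : 4 + 3 + 2 ≤ 6 + 3 + 1)) b2
  have c1 := CP.or hX (a1.up hX (by omega : 11 + 1 ≤ 20)) (b3.up hX (by omega : 6 + 3 + 1 + 1 ≤ 20))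
  have c2 := CP.and hX (hlb.up hX (by omega : 4 + 5 ≤ 20 + 1)) c1
  exact (c2.congr fun z M => Iff.rfl).up hX (by omega)

theorem fail2 (HM : XCtx X h b Mx) (H : Ctx X X h w b kk L κ T) (H' : Ctx X X h w b kk L' κ' T') :
    CP X (X ^ 40) (fun z M => (T z M).Fail2 (Mx z) (L z M) (κ z M) (T' z M)) := by
  have hX := H.X1
  have hb := H.hb
  have hI := H.I 2 kk _ H.x
  have hW := H.W 2 kk _ H.x
  have hlb := H.lbk (k := 4) hI
  have hW' := H'.W 2 kk _ H'.x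
  have hWm := H.W 9 kk _ (H.pred (k := 2) H.x)
  have ht := H.t 2 kk _ H.x
  have ht' := H'.t 2 kk _ H'.x
  have a3 := CP.eqN hX (by omega) ((HM.wad 4 _ hW').up hX (by omega : 4 + 1 ≤ 11 + 1))
    (HM.rad 11 _ hWm)
  have a4 := CP.ltN hX (by omega) ht' ht
  have a5 := CP.ltN hX (by omega) (HM.srx 4 _ hW) ht'
  have b1 := CP.and hX a4 a5
  have b2 := CP.and hX (a3.up hX (by omega : 11 + 1 + 2 ≤ 20)) (b1.up hX
    (by omega : 2 + 3 + 3 + 1 ≤ 20))
  have b5 := CP.and hX (hlb.up hX (by omega : 4 + 5 ≤ 20 + 1)) b2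
  exact (b5.congr fun z M => Iff.rfl).up hX (by omega)

theorem run (HM : XCtx X h b Mx) (H : Ctx X X h w b kk L κ T) (hx : CN X (X ^ (0 + 1)) kk x) :
    CP X (X ^ 40) (fun z M => (T z M).Run (Mx z) (L z M) (κ z M) (x z M)) := by
  have hX := H.X1
  have hk := H.hk
  have hw := H.hw
  have hz : CN X (X ^ (0 + 1)) w (fun _ _ => 0) := CN.const hX (by positivity)
  have hI := H.I 2 kk _ H.x
  have hW := H.W 2 kk _ H.x
  have a1 := H.lbk hz
  have a2 := CP.eqC (k := 4) hX (by omega) hI 0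
  have a3 := CP.ofTrue (HM.fl 4 _ hW)
  have a4 := CP.ofTrue (HM.acc 4 _ hW)
  have b1 := H.one hx
  have b2 := CP.ltN hX (by omega : kk ≤ X) (hx.up hX (by omega : 0 + 1 ≤ 0 + 3)) H.x
  have b3 := CP.ofFalse hX (HM.fl 2 _ (H.W 0 kk x hx))
  have b4 := imp hX (b2.up hX (by omega : 0 + 3 + 3 ≤ 20)) (b3.up hX (by omega : 2 + 1 + 1 ≤ 20))
  have b5 := imp hX (b1.up hX (by omega : 0 + 5 ≤ 20 + 1)) b4
  have c1 := CP.and hX (a4.up hX (by omega : 4 + 1 ≤ 20 + 1 + 1)) b5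
  have c2 := CP.and hX (a3.up hX (by omega : 4 + 1 ≤ 20 + 1 + 1 + 1)) c1
  have c3 := CP.and hX (a2.up hX (by omega : 4 + 3 ≤ 20 + 1 + 1 + 1 + 1)) c2
  have c4 := CP.and hX (a1.up hX (by omega : 0 + 5 ≤ 20 + 1 + 1 + 1 + 1 + 1)) c3
  exact (c4.congr fun z M => Iff.rfl).up hX (by omega)

/-- **the condition of the base case** -/
theorem baseC (HM : XCtx X h b Mx) (H : Ctx X X h w b kk L κ T) (H' : Ctx X X h w b kk L' κ' T')
    (hx : CN X (X ^ (0 + 1)) kk x) :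
    CP X (X ^ 50) (fun z M => BaseC (Mx z) (fun _ => false) w (L z M) (L' z M) (κ z M) (κ' z M)
      (T z M) (T' z M) (x z M)) := by
  have hX := H.X1
  have h5 := CP.and hX ((fail2 HM H H').up hX (by omega : 40 ≤ 0 + 40)) (cnd HM H' hx)
  have h6 := CP.or hX ((fail1 HM H).up hX (by omega : 40 ≤ 0 + 40 + 1)) h5
  have h7 := CP.and hX ((cnd HM H hx).up hX (by omega : 0 + 40 ≤ 0 + 40 + 1 + 1)) h6
  exact (h7.congr fun z M => Iff.rfl).up hX (by omega)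

end

end RTC

end Pool.Agent.NUM
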