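import Pool.Agent.NUM.HSepTape

/-!
# Hereditary separators of the data-flow graphs of `d`-dimensional walks

In step `t + 1` the machine uses the state `t` and the last earlier state `rc t` whose position is the
position of the state `t + 1`.
-/

set_option autoImplicit false

namespace Pool.Agent.NUM

open Finset

namespace RT

theorem rpow_mul_rpow {n : ℝ} (hn : 0 < n) (d : ℕ) :
    n ^ (1 / ((d : ℝ) + 1)) * n ^ ((d : ℝ) / (d + 1)) = n := by
  rw [← Real.rpow_add hn, ← add_div, add_comm, div_self (by positivity), Real.rpow_one]

theorem rpow_pow_eq {n : ℝ} (hn : 0 ≤ n) (d : ℕ) :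
    (n ^ (1 / ((d : ℝ) + 1))) ^ d = n ^ ((d : ℝ) / (d + 1)) := by
  rw [← Real.rpow_natCast, ← Real.rpow_mul hn]
  congr 1
  ring

/-- a light hyperplane -/
theorem exists_light {d : ℕ} {W : Finset ℕ} (hW : 1 ≤ W.card) (x : ℕ → ℤ)
    (T : Finset ℤ) (hT : ((W.card : ℝ)) ^ (1 / ((d : ℝ) + 1)) < T.card) :
    ∃ a ∈ T, ((W.filter fun t => x t = a).card : ℝ) ≤ (W.card : ℝ) ^ ((d : ℝ) / (d + 1)) := by
  classical
  by_contra hcon
  push Not at hcon
  have hn : (0 : ℝ) < W.card := by exact_mod_cast hW
  have h1 : ∑ a ∈ T, (W.filter fun t => x t = a).card ≤ W.card := by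
    rw [← card_biUnion]
    · apply card_le_card
      intro t ht
      rw [mem_biUnion] at ht
      obtain ⟨a, _, ha⟩ := ht
      exact (mem_filter.1 ha).1
    · intro a _ b _ hab
      rw [Function.onFun, disjoint_filter]
      intro t _ h3 h4
      exact hab (h3.symm.trans h4)
  have h2 : (T.card : ℝ) * ((W.card : ℝ) ^ ((d : ℝ) / (d + 1))) ≤ W.card := by
    calc (T.card : ℝ) * ((W.card : ℝ) ^ ((d : ℝ) / (d + 1)))
        = ∑ _a ∈ T, (W.card : ℝ) ^ ((d : ℝ) / (d + 1)) := by
          rw [sum_const, nsmul_eq_mul]
      _ ≤ ∑ a ∈ T, ((W.filter fun t => x t = a).card : ℝ) :=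
          sum_le_sum fun a ha => (hcon a ha).le
      _ = ((∑ a ∈ T, (W.filter fun t => x t = a).card : ℕ) : ℝ) := by push_cast; rfl
      _ ≤ ((W.card : ℕ) : ℝ) := by exact_mod_cast h1
  have hp : (0 : ℝ) < (W.card : ℝ) ^ ((d : ℝ) / (d + 1)) := Real.rpow_pos_of_pos hn _
  have h3 := mul_lt_mul_of_pos_right hT hp
  rw [rpow_mul_rpow hn] at h3
  linarith

/-- the class of a point with respect to the hyperplanes `x_i = a_i`, `x_i = b_i`, in terms of the
first coordinate (among the first `k`) which is not strictly between `a_i` and `b_i`: `0` on a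
hyperplane, `2 i + 1` below, `2 i + 2` above; `none` if there is no such coordinate -/
def clv (a b x : ℕ → ℤ) : ℕ → Option ℕ
  | 0 => none
  | k + 1 =>
    match clv a b x k with
    | some c => some c
    | none => if x k < a k then some (2 * k + 1) else if b k < x k then some (2 * k + 2) else
        if x k = a k ∨ x k = b k then some 0 else none

theorem clv_none {a b x : ℕ → ℤ} {k : ℕ} (h : clv a b x k = none) :
    ∀ i < k, a i < x i ∧ x i < b i := by
  induction k with
  | zero => intro i hi; omega
  | succ k ih =>
    rw [clv] at h
    cases hk : clv a b x k with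
    | some c => rw [hk] at h; exact absurd h (by simp)
    | none =>
      rw [hk] at h
      simp only at h
      split_ifs at h with h1 h2 h3
      intro i hi
      rcases Nat.lt_or_ge i k with h4 | h4
      · exact ih hk i h4
      · have h5 : i = k := by omega
        subst h5
        have h6 : x i ≠ a i := fun h => h3 (Or.inl h)
        have h7 : x i ≠ b i := fun h => h3 (Or.inr h)
        constructor <;> omega

theorem clv_some {a b x : ℕ → ℤ} {k c : ℕ} (h : clv a b x k = some c) :
    ∃ i < k, (∀ j < i, a j < x j ∧ x j < b j) ∧
      ((x i < a i ∧ c = 2 * i + 1) ∨ (b i < x i ∧ c = 2 * i + 2) ∨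
        ((x i = a i ∨ x i = b i) ∧ c = 0)) := by
  induction k with
  | zero => exact absurd h (by simp [clv])
  | succ k ih =>
    rw [clv] at h
    cases hk : clv a b x k with
    | some c' =>
      rw [hk] at h
      simp only [Option.some.injEq] at h
      subst h
      obtain ⟨i, hi, h1⟩ := ih hk
      exact ⟨i, by omega, h1⟩
    | none =>
      rw [hk] at h
      simp only at h
      split_ifs at h with h1 h2 h3
      · refine ⟨k, by omega, clv_none hk, Or.inl ⟨h1, ?_⟩⟩
        simpa using h.symm
      · refine ⟨k, by omega, clv_none hk, Or.inr (Or.inl ⟨h2, ?_⟩)⟩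
        simpa using h.symm
      · refine ⟨k, by omega, clv_none hk, Or.inr (Or.inr ⟨h3, ?_⟩)⟩
        simpa using h.symm

/-- neighbouring points outside the hyperplanes are in the same class -/
theorem clv_adj {a b x y : ℕ → ℤ} {k : ℕ} (hab : ∀ i < k, a i ≤ b i)
    (h : ∀ i < k, |y i - x i| ≤ 1) (hx : clv a b x k ≠ some 0) (hy : clv a b y k ≠ some 0) :
    clv a b x k = clv a b y k := by
  have hd : ∀ i < k, y i - x i ≤ 1 ∧ -1 ≤ y i - x i := fun i hi => by
    have := h i hi
    rw [abs_le] at this
    exact ⟨this.2, this.1⟩
  cases hcx : clv a b x k with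
  | none =>
    cases hcy : clv a b y k with
    | none => rfl
    | some c =>
      obtain ⟨i, hi, h1, h2⟩ := clv_some hcy
      have h3 := clv_none hcx i hi
      have h4 := hd i hi
      rcases h2 with h2 | h2 | h2
      · omega
      · omega
      · exact absurd (by rw [hcy, h2.2]) hy
  | some c =>
    obtain ⟨i, hi, h1, h2⟩ := clv_some hcx
    cases hcy : clv a b y k with
    | none =>
      have h3 := clv_none hcy i hi
      have h4 := hd i hi
      rcases h2 with h2 | h2 | h2
      · omega
      · omega
      · exact absurd (by rw [hcx, h2.2]) hx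
    | some c' =>
      obtain ⟨j, hj, h1', h2'⟩ := clv_some hcy
      have h3 := hd i hi
      have h4 := hd j hj
      have h5 := hab i hi
      rcases h2 with h2 | h2 | h2
      · rcases h2' with h2' | h2' | h2'
        · rcases Nat.lt_trichotomy i j with h6 | h6 | h6
          · have := h1' i h6; omega
          · subst h6; rw [h2.2, h2'.2]
          · have := h1 j h6; omega
        · rcases Nat.lt_trichotomy i j with h6 | h6 | h6
          · have := h1' i h6; omega
          · subst h6; omega
          · have := h1 j h6; omega
        · exact absurd (by rw [hcy, h2'.2]) hy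
      · rcases h2' with h2' | h2' | h2'
        · rcases Nat.lt_trichotomy i j with h6 | h6 | h6
          · have := h1' i h6; omega
          · subst h6; omega
          · have := h1 j h6; omega
        · rcases Nat.lt_trichotomy i j with h6 | h6 | h6
          · have := h1' i h6; omega
          · subst h6; rw [h2.2, h2'.2]
          · have := h1 j h6; omega
        · exact absurd (by rw [hcy, h2'.2]) hy
      · exact absurd (by rw [hcx, h2.2]) hx

end RT

open RT in
/-- **Hereditary separators of walks.** `pos t` is the position of the state `t`; the state `rc t` is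
the last earlier state at the position of the state `t + 1`, or the state `0`. -/
theorem hsep_walk {d N : ℕ} {rc : ℕ → ℕ} (pos : ℕ → Fin d → ℤ)
    (hpos : ∀ t < N, ∀ i, |pos (t + 1) i - pos t i| ≤ 1)
    (hrc : ∀ t < N, rc t ≤ t → rc t = 0 ∨
      (pos (rc t) = pos (t + 1) ∧ ∀ u, rc t < u → u ≤ t → pos u ≠ pos (t + 1))) :
    HSep N rc ((d : ℝ) / (d + 1)) (1 + 2 * d + 2 ^ d) := by
  classical
  intro W hW
  rcases W.eq_empty_or_nonempty with hW0 | hWne
  · subst hW0
    refine ⟨∅, by simp, ∅, by simp, by simp, NoEdge.empty, by simp, by simp, ?_⟩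
    simp only [union_empty, sdiff_empty, card_empty, Nat.cast_zero]
    positivity
  obtain ⟨n, hn⟩ : ∃ n, n = W.card := ⟨_, rfl⟩
  have hn1 : 1 ≤ n := by rw [hn]; exact card_pos.2 hWne
  have hnr : (1 : ℝ) ≤ n := by exact_mod_cast hn1
  obtain ⟨r, hr⟩ : ∃ r : ℝ, r = (n : ℝ) ^ (1 / ((d : ℝ) + 1)) := ⟨_, rfl⟩
  obtain ⟨y, hy⟩ : ∃ y : ℝ, y = (n : ℝ) ^ ((d : ℝ) / (d + 1)) := ⟨_, rfl⟩
  have hr1 : 1 ≤ r := by rw [hr]; exact Real.one_le_rpow hnr (by positivity)
  have hy1 : 1 ≤ y := by rw [hy]; exact Real.one_le_rpow hnr (by positivity)
  have hry : r ^ d = y := by rw [hr, hy]; exact rpow_pow_eq (by linarith) d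
  obtain ⟨q, hq⟩ : ∃ q, q = ⌊r⌋₊ := ⟨_, rfl⟩
  have hq1 : 1 ≤ q := by rw [hq]; exact Nat.le_floor (by simpa using hr1)
  have hq2 : (q : ℝ) ≤ r := by rw [hq]; exact Nat.floor_le (by linarith)
  have hq3 : r < q + 1 := by rw [hq]; exact Nat.lt_floor_add_one r
  -- the hyperplanes
  have hpl : ∀ i : Fin d, ∃ m a b : ℤ, 2 * (W.filter fun t => pos t i < m).card ≤ n ∧
      2 * (W.filter fun t => m < pos t i).card ≤ n ∧ a ≤ m ∧ m ≤ b ∧ b - a ≤ 2 * q ∧
      ((W.filter fun t => pos t i = a).card : ℝ) ≤ y ∧
      ((W.filter fun t => pos t i = b).card : ℝ) ≤ y := by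
    intro i
    obtain ⟨t₀, -, hm1, hm2⟩ := exists_median W (fun v => pos v i) hWne
    obtain ⟨m, hm⟩ : ∃ m, m = pos t₀ i := ⟨_, rfl⟩
    rw [← hm] at hm1 hm2
    have hl : ∀ T : Finset ℤ, T.card = q + 1 →
        ∃ a ∈ T, ((W.filter fun t => pos t i = a).card : ℝ) ≤ y := by
      intro T hT
      rw [hy, hn]
      apply exists_light (by omega)
      rw [hT, ← hn, ← hr]
      push_cast
      exact hq3
    obtain ⟨a, ha, ha'⟩ := hl (Icc (m - q) m) (by
      rw [Int.card_Icc]
      omega)
    obtain ⟨b, hb, hb'⟩ := hl (Icc m (m + q)) (by
      rw [Int.card_Icc]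
      omega)
    rw [mem_Icc] at ha hb
    refine ⟨m, a, b, ?_, ?_, by omega, by omega, by omega, ha', hb'⟩
    · rw [hn]; exact hm1
    · rw [hn]; exact hm2
  choose m a b hm1 hm2 ham hmb hab hca hcb using hpl
  -- extension to all numbers
  obtain ⟨ex, hex⟩ : ∃ ex : (Fin d → ℤ) → ℕ → ℤ,
      ex = fun x i => if h : i < d then x ⟨i, h⟩ else 0 := ⟨_, rfl⟩
  have hexi : ∀ (x : Fin d → ℤ) (i : ℕ) (h : i < d), ex x i = x ⟨i, h⟩ := by
    intro x i h
    rw [hex]
    simp only
    rw [dif_pos h]
  obtain ⟨bc, hbc⟩ : ∃ bc : ℕ → Option ℕ, bc = fun t => clv (ex a) (ex b) (ex (pos t)) d :=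
    ⟨_, rfl⟩
  have hbcd : ∀ t, bc t = clv (ex a) (ex b) (ex (pos t)) d := fun t => by rw [hbc]
  -- the box
  obtain ⟨M, hM⟩ : ∃ M, M = W.filter fun t => bc t = none := ⟨_, rfl⟩
  have hMn : M.card ≤ n := by rw [hM, hn]; exact card_filter_le _ _
  obtain ⟨τ, hτ1, hτ2⟩ : ∃ τ, 2 * (M.filter fun u => u < τ).card ≤ n ∧
      2 * (M.filter fun u => τ < u).card ≤ n := by
    rcases M.eq_empty_or_nonempty with h | h
    · exact ⟨0, by rw [h]; simp, by rw [h]; simp⟩
    · obtain ⟨τ, -, h1, h2⟩ := exists_median M (fun u => u) h
      exact ⟨τ, h1.trans hMn, h2.trans hMn⟩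
  obtain ⟨lastv, hlast⟩ : ∃ lastv : ℕ → Prop,
      lastv = fun u => ∀ v, u < v → v ≤ τ → pos v ≠ pos u := ⟨_, rfl⟩
  have hlastd : ∀ u, lastv u ↔ ∀ v, u < v → v ≤ τ → pos v ≠ pos u := by
    intro u
    rw [hlast]
  -- the classes
  obtain ⟨cl, hcl⟩ : ∃ cl : ℕ → ℕ, cl = fun t => if t = 0 then 0 else
      match bc t with
      | some c => c
      | none => if τ < t then 2 * d + 2 else if lastv t then 0 else 2 * d + 1 := ⟨_, rfl⟩
  have hz : cl 0 = 0 := by
    rw [hcl]
    simp
  have hcs : ∀ t c, t ≠ 0 → bc t = some c → cl t = c := by
    intro t c h0 h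
    rw [hcl]
    simp only
    rw [if_neg h0, h]
  have hcn : ∀ t, t ≠ 0 → bc t = none →
      cl t = if τ < t then 2 * d + 2 else if lastv t then 0 else 2 * d + 1 := by
    intro t h0 h
    rw [hcl]
    simp only
    rw [if_neg h0, h]
  have hsc : ∀ t c, bc t = some c → ∃ i : Fin d,
      (pos t i < a i ∧ c = 2 * (i : ℕ) + 1) ∨ (b i < pos t i ∧ c = 2 * (i : ℕ) + 2) ∨
        ((pos t i = a i ∨ pos t i = b i) ∧ c = 0) := by
    intro t c h
    rw [hbcd] at h
    obtain ⟨i, hi, -, h2⟩ := clv_some h
    refine ⟨⟨i, hi⟩, ?_⟩
    rw [hexi _ i hi, hexi _ i hi, hexi _ i hi] at h2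
    exact h2
  have hnone : ∀ t, bc t = none → ∀ i : Fin d, a i < pos t i ∧ pos t i < b i := by
    intro t h i
    rw [hbcd] at h
    have h1 := clv_none h i i.2
    rw [hexi _ i i.2, hexi _ i i.2, hexi _ i i.2] at h1
    exact h1
  have hpeq : ∀ t u, pos t = pos u → bc t = bc u := by
    intro t u h
    rw [hbcd, hbcd, h]
  obtain ⟨A, hA, B, hB, hAB, hNE, hAc, hBc, hX⟩ := exists_group W rc cl
    (by
      intro i hi
      -- the outer classes
      by_cases h1 : ∃ j : Fin d, i = 2 * (j : ℕ) + 1
      · obtain ⟨j, hj⟩ := h1
        have h2 : (W.filter fun t => cl t = i).card ≤ (W.filter fun t => pos t j < m j).card := by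
          apply card_le_card
          intro t ht
          rw [mem_filter] at ht ⊢
          refine ⟨ht.1, ?_⟩
          have h0 : t ≠ 0 := by
            rintro rfl
            omega
          cases hb : bc t with
          | none =>
            have h3 := hcn t h0 hb
            have := j.2
            rw [ht.2] at h3
            split_ifs at h3 <;> omega
          | some c =>
            have h3 := hcs t c h0 hb
            obtain ⟨k, h4⟩ := hsc t c hb
            rcases h4 with h4 | h4 | h4
            · have h5 : k = j := by
                apply Fin.ext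
                omega
              subst h5
              exact lt_of_lt_of_le h4.1 (ham _)
            · omega
            · omega
        have := hm1 j
        omega
      by_cases h2 : ∃ j : Fin d, i = 2 * (j : ℕ) + 2
      · obtain ⟨j, hj⟩ := h2
        have h2 : (W.filter fun t => cl t = i).card ≤ (W.filter fun t => m j < pos t j).card := by
          apply card_le_card
          intro t ht
          rw [mem_filter] at ht ⊢
          refine ⟨ht.1, ?_⟩
          have h0 : t ≠ 0 := by
            rintro rfl
            omega
          cases hb : bc t with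
          | none =>
            have h3 := hcn t h0 hb
            have := j.2
            rw [ht.2] at h3
            split_ifs at h3 <;> omega
          | some c =>
            have h3 := hcs t c h0 hb
            obtain ⟨k, h4⟩ := hsc t c hb
            rcases h4 with h4 | h4 | h4
            · omega
            · have h5 : k = j := by
                apply Fin.ext
                omega
              subst h5
              exact lt_of_le_of_lt (hmb _) h4.1
            · omega
        have := hm2 j
        omega
      -- the two classes of the box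
      have hout : ∀ t, cl t = i → bc t = none ∧ t ≠ 0 := by
        intro t ht
        have h0 : t ≠ 0 := by
          rintro rfl
          omega
        refine ⟨?_, h0⟩
        cases hb : bc t with
        | none => rfl
        | some c =>
          exfalso
          have h3 := hcs t c h0 hb
          obtain ⟨k, h4⟩ := hsc t c hb
          rcases h4 with h4 | h4 | h4
          · exact h1 ⟨k, by omega⟩
          · exact h2 ⟨k, by omega⟩
          · omega
      by_cases h3 : i = 2 * d + 1
      · have h4 : (W.filter fun t => cl t = i).card ≤ (M.filter fun u => u < τ).card := by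
          apply card_le_card
          intro t ht
          rw [mem_filter] at ht
          obtain ⟨h5, h6⟩ := hout t ht.2
          rw [mem_filter, hM, mem_filter]
          refine ⟨⟨ht.1, h5⟩, ?_⟩
          have h7 := hcn t h6 h5
          rw [ht.2] at h7
          split_ifs at h7 with h8 h9
          · omega
          · omega
          · rcases Nat.lt_or_ge t τ with h10 | h10
            · exact h10
            · exfalso
              apply h9
              rw [hlastd]
              intro v hv hv'
              omega
        omega
      by_cases h4 : i = 2 * d + 2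
      · have h5 : (W.filter fun t => cl t = i).card ≤ (M.filter fun u => τ < u).card := by
          apply card_le_card
          intro t ht
          rw [mem_filter] at ht
          obtain ⟨h5, h6⟩ := hout t ht.2
          rw [mem_filter, hM, mem_filter]
          refine ⟨⟨ht.1, h5⟩, ?_⟩
          have h7 := hcn t h6 h5
          rw [ht.2] at h7
          split_ifs at h7 with h8 h9
          · exact h8
          · omega
          · omega
        omega
      · have h5 : (W.filter fun t => cl t = i) = ∅ := by
          rw [filter_eq_empty_iff]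
          intro t _ h
          obtain ⟨h5, h6⟩ := hout t h
          have h7 := hcn t h6 h5
          rw [h] at h7
          split_ifs at h7 <;> omega
        rw [h5]
        simp)
    (by
      intro t ht hc
      have htN : t < N := by
        have := mem_range.1 (hW ht)
        omega
      have hb0 : bc (t + 1) ≠ some 0 := fun h => hc (hcs _ _ (by omega) h)
      constructor
      · intro _ hct
        have h0 : t ≠ 0 := by
          rintro rfl
          exact hct hz
        have hb1 : bc t ≠ some 0 := fun h => hct (hcs _ _ h0 h)
        have h1 : bc t = bc (t + 1) := by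
          rw [hbcd] at hb0 hb1 ⊢
          rw [hbcd]
          refine clv_adj ?_ ?_ hb1 hb0
          · intro i hi
            rw [hexi _ i hi, hexi _ i hi]
            exact (ham _).trans (hmb _)
          · intro i hi
            rw [hexi _ i hi, hexi _ i hi]
            exact hpos t htN _
        cases hb : bc t with
        | some c =>
          rw [hcs t c h0 hb, hcs (t + 1) c (by omega) (by rw [← h1, hb])]
        | none =>
          have h2 := hcn t h0 hb
          have h3 := hcn (t + 1) (by omega) (by rw [← h1, hb])
          rw [h2, h3]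
          rw [h2] at hct
          rw [h3] at hc
          by_cases g1 : τ < t
          · rw [if_pos g1, if_pos (by omega)]
          · rw [if_neg g1] at hct ⊢
            by_cases g2 : lastv t
            · rw [if_pos g2] at hct
              exact absurd rfl hct
            · rw [if_neg g2]
              have g3 : t ≠ τ := by
                intro h
                apply g2
                rw [hlastd]
                intro v hv hv'
                omega
              rw [if_neg (by omega)] at hc ⊢
              by_cases g4 : lastv (t + 1)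
              · rw [if_pos g4] at hc
                exact absurd rfl hc
              · rw [if_neg g4]
      · intro hle _ hct
        rcases hrc t htN hle with h0 | ⟨hp, hl⟩
        · rw [h0] at hct
          exact absurd hz hct
        · have h0 : rc t ≠ 0 := by
            intro h
            rw [h] at hct
            exact hct hz
          have h1 : bc (rc t) = bc (t + 1) := hpeq _ _ hp
          cases hb : bc (rc t) with
          | some c =>
            rw [hcs (rc t) c h0 hb, hcs (t + 1) c (by omega) (by rw [← h1, hb])]
          | none =>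
            have h2 := hcn (rc t) h0 hb
            have h3 := hcn (t + 1) (by omega) (by rw [← h1, hb])
            rw [h2, h3]
            rw [h2] at hct
            rw [h3] at hc
            by_cases g1 : τ < rc t
            · rw [if_pos g1, if_pos (by omega)]
            · rw [if_neg g1] at hct ⊢
              by_cases g2 : lastv (rc t)
              · rw [if_pos g2] at hct
                exact absurd rfl hct
              · rw [if_neg g2]
                have g3 : ¬ τ < t + 1 := by
                  intro h
                  apply g2
                  rw [hlastd]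
                  intro v hv hv'
                  rw [hp]
                  exact hl v hv (by omega)
                rw [if_neg g3] at hc ⊢
                by_cases g4 : lastv (t + 1)
                · rw [if_pos g4] at hc
                  exact absurd rfl hc
                · rw [if_neg g4])
  refine ⟨A, hA, B, hB, hAB, hNE, hAc, hBc, ?_⟩
  rw [hX, ← hn, ← hy]
  -- the number of deleted states
  have hsub : (W.filter fun t => cl t = 0) ⊆ (({0} : Finset ℕ) ∪
      ((univ : Finset (Fin d)).biUnion fun i => (W.filter fun t => pos t i = a i) ∪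
        (W.filter fun t => pos t i = b i))) ∪ (M.filter fun t => t ≤ τ ∧ lastv t) := by
    intro t ht
    rw [mem_filter] at ht
    rw [mem_union, mem_union, mem_singleton, mem_biUnion, mem_filter, hM, mem_filter]
    by_cases h0 : t = 0
    · exact Or.inl (Or.inl h0)
    cases hb : bc t with
    | none =>
      have h3 := hcn t h0 hb
      rw [ht.2] at h3
      split_ifs at h3 with h4 h5
      exact Or.inr ⟨⟨ht.1, rfl⟩, by omega, h5⟩
    | some c =>
      have h3 := hcs t c h0 hb
      obtain ⟨k, h4⟩ := hsc t c hb
      left; right
      refine ⟨k, mem_univ _, ?_⟩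
      rw [mem_union, mem_filter, mem_filter]
      rcases h4 with h4 | h4 | h4
      · omega
      · omega
      · rcases h4.1 with h5 | h5
        · exact Or.inl ⟨ht.1, h5⟩
        · exact Or.inr ⟨ht.1, h5⟩
  have hbox : ((M.filter fun t => t ≤ τ ∧ lastv t).card : ℝ) ≤ 2 ^ d * y := by
    have h1 : (M.filter fun t => t ≤ τ ∧ lastv t).card ≤
        (Fintype.piFinset fun i : Fin d => Ioo (a i) (b i)).card := by
      apply card_le_card_of_injOn pos
      · intro t ht
        rw [mem_coe, mem_filter, hM, mem_filter] at ht
        rw [mem_coe, Fintype.mem_piFinset]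
        intro i
        rw [mem_Ioo]
        exact hnone t ht.1.2 i
      · intro t ht u hu htu
        rw [mem_coe, mem_filter] at ht hu
        rcases Nat.lt_trichotomy t u with h | h | h
        · exact absurd htu.symm ((hlastd t).1 ht.2.2 u h hu.2.1)
        · exact h
        · exact absurd htu ((hlastd u).1 hu.2.2 t h ht.2.1)
    have h2 : (Fintype.piFinset fun i : Fin d => Ioo (a i) (b i)).card ≤ (2 * q) ^ d := by
      rw [Fintype.card_piFinset]
      calc ∏ i : Fin d, (Ioo (a i) (b i)).card ≤ ∏ _i : Fin d, 2 * q := by
            apply prod_le_prod'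
            intro i _
            rw [Int.card_Ioo]
            have := hab i
            omega
        _ = (2 * q) ^ d := by simp
    have h3 : ((2 * q : ℕ) : ℝ) ^ d ≤ 2 ^ d * y := by
      push_cast
      rw [mul_pow, ← hry]
      apply mul_le_mul_of_nonneg_left _ (by positivity)
      exact pow_le_pow_left₀ (by positivity) hq2 d
    calc ((M.filter fun t => t ≤ τ ∧ lastv t).card : ℝ) ≤ (((2 * q) ^ d : ℕ) : ℝ) := by
          exact_mod_cast h1.trans h2
      _ = ((2 * q : ℕ) : ℝ) ^ d := by push_cast; ring
      _ ≤ 2 ^ d * y := h3
  have hplane : (((univ : Finset (Fin d)).biUnion fun i => (W.filter fun t => pos t i = a i) ∪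
        (W.filter fun t => pos t i = b i)).card : ℝ) ≤ 2 * d * y := by
    calc (((univ : Finset (Fin d)).biUnion fun i => (W.filter fun t => pos t i = a i) ∪
        (W.filter fun t => pos t i = b i)).card : ℝ)
        ≤ ((∑ i : Fin d, ((W.filter fun t => pos t i = a i) ∪
        (W.filter fun t => pos t i = b i)).card : ℕ) : ℝ) := by
          exact_mod_cast card_biUnion_le
      _ = ∑ i : Fin d, (((W.filter fun t => pos t i = a i) ∪
        (W.filter fun t => pos t i = b i)).card : ℝ) := by push_cast; rfl
      _ ≤ ∑ _i : Fin d, (2 * y) := by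
          apply sum_le_sum
          intro i _
          have h1 : (((W.filter fun t => pos t i = a i) ∪
            (W.filter fun t => pos t i = b i)).card : ℝ) ≤
            ((W.filter fun t => pos t i = a i).card : ℝ) +
              ((W.filter fun t => pos t i = b i).card : ℝ) := by
            exact_mod_cast card_union_le _ _
          have h2 := hca i
          have h3 := hcb i
          linarith
      _ = 2 * d * y := by
          rw [sum_const, card_univ, Fintype.card_fin, nsmul_eq_mul]
          ring
  have h1 : ((W.filter fun t => cl t = 0).card : ℝ) ≤ 1 +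
      (((univ : Finset (Fin d)).biUnion fun i => (W.filter fun t => pos t i = a i) ∪
        (W.filter fun t => pos t i = b i)).card : ℝ) +
      ((M.filter fun t => t ≤ τ ∧ lastv t).card : ℝ) := by
    have h2 := (card_le_card hsub).trans ((card_union_le _ _).trans
      (Nat.add_le_add_right (card_union_le _ _) _))
    rw [card_singleton] at h2
    exact_mod_cast h2
  calc ((W.filter fun t => cl t = 0).card : ℝ) ≤ y + 2 * d * y + 2 ^ d * y := by linarith
    _ = ((1 + 2 * d + 2 ^ d : ℕ) : ℝ) * y := by push_cast; ring

end Pool.Agent.NUM
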