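import Pool.Agent.NUM.RTapeSim

/-!
# Machines with one `d`-dimensional tape: the window version

From the lower bound for random access machines whose data-flow graphs have hereditary separators.
-/

set_option autoImplicit false

namespace Pool.Agent.NUM

open Filter Topology

namespace RT

/-- `C (m + 1) ≤ 2 ^ (δ m)` for large `m` -/
theorem lin_room (C : ℝ) {δ : ℝ} (hδ : 0 < δ) : ∃ m₀ : ℕ, ∀ m : ℕ, m₀ ≤ m →
    C * (m + 1) ≤ 2 ^ (δ * m) := by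
  have hr0 : (0 : ℝ) ≤ 2 ^ (-δ) := by positivity
  have hr1 : (2 : ℝ) ^ (-δ) < 1 := Real.rpow_lt_one_of_one_lt_of_neg (by norm_num) (by linarith)
  have t1 := tendsto_self_mul_const_pow_of_lt_one hr0 hr1
  have t2 := tendsto_pow_atTop_nhds_zero_of_lt_one hr0 hr1
  have t3 : Tendsto (fun n : ℕ => C * ((n : ℝ) * ((2 : ℝ) ^ (-δ)) ^ n + ((2 : ℝ) ^ (-δ)) ^ n))
      atTop (𝓝 (C * (0 + 0))) := (t1.add t2).const_mul C
  have h1 : C * ((0 : ℝ) + 0) < 1 := by norm_num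
  obtain ⟨m₀, hm₀⟩ := eventually_atTop.1 (t3.eventually (gt_mem_nhds h1))
  refine ⟨m₀, fun m hm => ?_⟩
  have h2 := (hm₀ m hm).le
  have h3 : ((2 : ℝ) ^ (-δ)) ^ m = ((2 : ℝ) ^ (δ * m))⁻¹ := by
    rw [← Real.rpow_natCast, ← Real.rpow_mul (by norm_num), ← Real.rpow_neg (by norm_num)]
    ring_nf
  have h4 : (0 : ℝ) < 2 ^ (δ * m) := by positivity
  rw [h3] at h2
  have h5 : C * ((m : ℝ) * ((2 : ℝ) ^ (δ * m))⁻¹ + ((2 : ℝ) ^ (δ * m))⁻¹)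
      = C * (m + 1) / (2 ^ (δ * m)) := by
    rw [div_eq_mul_inv]
    ring
  rw [h5, div_le_one h4] at h2
  exact h2

theorem cast_size_le {c : ℝ} (hc : 0 ≤ c) {T m : ℕ} (hT : (T : ℝ) ≤ 2 ^ (c * m)) :
    ((Nat.size T : ℕ) : ℝ) ≤ c * m + 1 := by
  rcases Nat.eq_zero_or_pos T with h0 | h0
  · subst h0
    have : 0 ≤ c * m := mul_nonneg hc (Nat.cast_nonneg _)
    simp
    linarith
  · have h3 : 2 ^ (Nat.size T - 1) ≤ T := by
      have := (Nat.lt_size (m := Nat.size T - 1) (n := T)).1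
        (by have := Nat.size_pos.2 h0; omega)
      exact this
    have h4 : (2 : ℝ) ^ ((Nat.size T - 1 : ℕ) : ℝ) ≤ 2 ^ (c * m) := by
      rw [Real.rpow_natCast]
      refine le_trans ?_ hT
      exact_mod_cast h3
    have h5 := (Real.rpow_le_rpow_left_iff (by norm_num : (1 : ℝ) < 2)).1 h4
    have h6 : 1 ≤ Nat.size T := Nat.size_pos.2 h0
    rw [Nat.cast_sub h6] at h5
    push_cast at h5
    linarith

/-- the parameters are small -/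
theorem rtape_room {c δ : ℝ} (d : ℕ) (hc : 0 ≤ c) (hδ : 0 < δ) :
    ∃ m₁ : ℕ, ∀ m : ℕ, m₁ ≤ m → ∀ s T : ℕ, (s : ℝ) ≤ 2 ^ (δ / 8 * m) →
      (T : ℝ) ≤ 2 ^ (c * m) →
      ((rtSz d (s + (4 * d + 3)) (Nat.size T) : ℕ) : ℝ) ≤ 2 ^ (δ * m) ∧
      ((1 + 2 * d + 2 ^ d : ℕ) : ℝ) ≤ 2 ^ (δ * m) := by
  obtain ⟨a, ha⟩ : ∃ a : ℝ, a = δ / 8 := ⟨_, rfl⟩
  have ha0 : 0 < a := by rw [ha]; positivity
  obtain ⟨m₁, h1⟩ := lin_room (4 * d + 20000 + c + 2 ^ d) ha0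
  refine ⟨m₁, fun m hm s T hs hT => ?_⟩
  have g1 := h1 m hm
  rw [← ha] at hs
  have hsz := cast_size_le hc hT
  obtain ⟨x, hx⟩ : ∃ x : ℝ, x = 2 ^ (a * m) := ⟨_, rfl⟩
  rw [← hx] at g1 hs
  have hm0 : (0 : ℝ) ≤ m := Nat.cast_nonneg _
  have hd0 : (0 : ℝ) ≤ d := Nat.cast_nonneg _
  have hp : (0 : ℝ) < 2 ^ d := by positivity
  have hs0 : (0 : ℝ) ≤ s := Nat.cast_nonneg _
  have g2 : 4 * (d : ℝ) + 20000 + c * m + 2 ^ d ≤ x := by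
    have e1 : (4 * (d : ℝ) + 20000 + c + 2 ^ d) * (m + 1) =
        4 * (d : ℝ) + 20000 + c * m + 2 ^ d + c +
          (4 * (d : ℝ) + 20000 + 2 ^ d) * m := by ring
    have e2 : 0 ≤ (4 * (d : ℝ) + 20000 + 2 ^ d) * m := by positivity
    linarith
  have hcm : 0 ≤ c * m := mul_nonneg hc hm0
  have hx1 : 20000 ≤ x := by linarith
  have hx8 : (2 : ℝ) ^ (δ * m) = x ^ 8 := by
    rw [hx, ← Real.rpow_natCast, ← Real.rpow_mul (by norm_num)]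
    congr 1
    rw [ha]
    push_cast
    ring
  have hxx : x ≤ x ^ 8 := by
    calc x = x ^ 1 := (pow_one x).symm
      _ ≤ x ^ 8 := pow_le_pow_right₀ (by linarith) (by norm_num)
  rw [hx8]
  constructor
  · have h2 : ((rtSz d (s + (4 * d + 3)) (Nat.size T) : ℕ) : ℝ) ≤
        10000 * (((d : ℝ) + 1) * ((s : ℝ) + (4 * d + 3) + (Nat.size T : ℕ) + 10)) ^ 2 := by
      exact_mod_cast rtSz_le d (s + (4 * d + 3)) (Nat.size T)
    have h3 : (s : ℝ) + (4 * d + 3) + (Nat.size T : ℕ) + 10 ≤ 2 * x := by linarith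
    have h4 : (d : ℝ) + 1 ≤ x := by linarith
    have h5 : ((d : ℝ) + 1) * ((s : ℝ) + (4 * d + 3) + (Nat.size T : ℕ) + 10) ≤ x * (2 * x) := by
      apply mul_le_mul h4 h3 (by positivity) (by linarith)
    have h6 : (((d : ℝ) + 1) * ((s : ℝ) + (4 * d + 3) + (Nat.size T : ℕ) + 10)) ^ 2 ≤
        (x * (2 * x)) ^ 2 := pow_le_pow_left₀ (by positivity) h5 2
    calc ((rtSz d (s + (4 * d + 3)) (Nat.size T) : ℕ) : ℝ)
        ≤ 10000 * (x * (2 * x)) ^ 2 := by linarith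
      _ = 40000 * x ^ 4 := by ring
      _ ≤ x ^ 2 * x ^ 4 := by
          apply mul_le_mul_of_nonneg_right _ (by positivity)
          nlinarith
      _ = x ^ 6 := by ring
      _ ≤ x ^ 8 := pow_le_pow_right₀ (by linarith) (by norm_num)
  · push_cast
    linarith

end RT

/-- **Machines with one `d`-dimensional tape**, window version, from the lower bound for random access
machines whose data-flow graphs have hereditary separators -/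
theorem tapeD_window_ram {d : ℕ} {c : ℝ} (hc : 0 ≤ c) {S : ℕ → Inp → Prop} {B : ℕ → ℕ}
    (h : ∃ (δ : ℝ) (A M₀ : ℕ), 0 < δ ∧ ∀ M : ℕ, M₀ ≤ M → ∃ m : ℕ, M ≤ m ∧ m ≤ A * M ∧
      ∀ (G : List Ins) (D s T K : ℕ), RSz s D G →
      (s : ℝ) ≤ 2 ^ (δ * m) → (T : ℝ) ≤ 2 ^ (c * m) → (K : ℝ) ≤ 2 ^ (δ * m) →
        ¬ RamDecides G D (B m) T ((d : ℝ) / (d + 1)) K (S m)) :
    ∃ (δ : ℝ) (A M₀ : ℕ), 0 < δ ∧ ∀ M : ℕ, M₀ ≤ M → ∃ m : ℕ, M ≤ m ∧ m ≤ A * M ∧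
      ∀ (G : List Ins) (s T : ℕ), Sz s G →
      (s : ℝ) ≤ 2 ^ (δ * m) → (T : ℝ) ≤ 2 ^ (c * m) → ¬ MDecides d G (B m) T (S m) := by
  obtain ⟨δ, A, M₀, hδ, h⟩ := h
  obtain ⟨m₁, h2⟩ := RT.rtape_room (c := c) d hc hδ
  refine ⟨δ / 8, A, max M₀ m₁, by positivity, fun M hM => ?_⟩
  obtain ⟨m, hm, hmA, h⟩ := h M ((le_max_left _ _).trans hM)
  refine ⟨m, hm, hmA, fun G s T hG hs hT hD => ?_⟩
  obtain ⟨G', h3, h4⟩ := hD.ram hG
  obtain ⟨h5, h6⟩ := h2 m ((le_max_right _ _).trans (hM.trans hm)) s T hs hT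
  exact h G' _ _ T _ h3 h5 hT h6 h4

/-- the cubic for the exponent `d / (d + 1)` -/
theorem RT.cubic {d : ℕ} {c : ℝ}
    (hc3 : ((d : ℝ) + 1) * c ^ 3 - c ^ 2 - (d + 2) * c + 1 < 0) :
    (c ^ 2 - 1) * (c + (d : ℝ) / (d + 1) - 1) < (1 - (d : ℝ) / (d + 1)) * c := by
  have h1 : (0 : ℝ) < d + 1 := by positivity
  have h2 : (c ^ 2 - 1) * (c + (d : ℝ) / (d + 1) - 1) - (1 - (d : ℝ) / (d + 1)) * c
      = (((d : ℝ) + 1) * c ^ 3 - c ^ 2 - (d + 2) * c + 1) / (d + 1) := by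
    field_simp
    ring
  have h3 : (((d : ℝ) + 1) * c ^ 3 - c ^ 2 - (d + 2) * c + 1) / (d + 1) < 0 :=
    div_neg_of_neg_of_pos hc3 h1
  linarith

/-- **Machines with one `d`-dimensional tape**, window version, from the lower bound for random access
machines for all exponents `γ`, in the form of the final theorem -/
theorem tapeD_window_ram' {d : ℕ} {c : ℝ} (hc : 1 ≤ c)
    (hc3 : ((d : ℝ) + 1) * c ^ 3 - c ^ 2 - (d + 2) * c + 1 < 0)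
    {S : ℕ → Inp → Prop} {B : ℕ → ℕ}
    (h : ∀ c γ : ℝ, 0 ≤ γ → γ < 1 → 1 ≤ c → (c ^ 2 - 1) * (c + γ - 1) < (1 - γ) * c →
      ∃ (δ : ℝ) (A M₀ : ℕ), 0 < δ ∧ ∀ M : ℕ, M₀ ≤ M → ∃ m : ℕ, M ≤ m ∧ m ≤ A * M ∧
      ∀ (G : List Ins) (D s T K : ℕ), RSz s D G →
      (s : ℝ) ≤ 2 ^ (δ * m) → (T : ℝ) ≤ 2 ^ (c * m) → (K : ℝ) ≤ 2 ^ (δ * m) →
        ¬ RamDecides G D (B m) T γ K (S m)) :
    ∃ (δ : ℝ) (A M₀ : ℕ), 0 < δ ∧ ∀ M : ℕ, M₀ ≤ M → ∃ m : ℕ, M ≤ m ∧ m ≤ A * M ∧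
      ∀ (G : List Ins) (s T : ℕ), Sz s G →
      (s : ℝ) ≤ 2 ^ (δ * m) → (T : ℝ) ≤ 2 ^ (c * m) → ¬ MDecides d G (B m) T (S m) := by
  have hd1 : (0 : ℝ) < d + 1 := by positivity
  exact tapeD_window_ram (by linarith) (h c _ (by positivity)
    (by rw [div_lt_one hd1]; linarith) hc (RT.cubic hc3))

end Pool.Agent.NUM
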