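import Pool.Agent.NUM.RTape
import Pool.Agent.NUM.RBasic
import Pool.Agent.NUM.RStmt
import Pool.Agent.NUM.MDefs
import Pool.Agent.NUM.HNormCp

/-!
# Machines with one `d`-dimensional tape are random access machines

The machine is simulated step by step. The address of a cell of the tape is the list of the last `W`
digits of its coordinates. The record which is read in a step was stored in the last step in which the
head was in the same cell.
-/

set_option autoImplicit false

namespace Pool.Agent.NUM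

namespace RT

/-! ### digits of integers -/

/-- digit `j` of the integer `x` modulo `2 ^ W` -/
def cb (W : ℕ) (x : ℤ) (j : ℕ) : Bool := (x % 2 ^ W).toNat.testBit j

theorem toNat_lt (W : ℕ) (x : ℤ) : (x % 2 ^ W).toNat < 2 ^ W := by
  have h1 : (0 : ℤ) < 2 ^ W := by positivity
  have h2 := Int.emod_lt_of_pos x h1
  have h3 := Int.emod_nonneg x h1.ne'
  have h4 : ((x % 2 ^ W).toNat : ℤ) = x % 2 ^ W := Int.toNat_of_nonneg h3
  exact_mod_cast (by rw [h4]; exact_mod_cast h2 : ((x % 2 ^ W).toNat : ℤ) < ((2 ^ W : ℕ) : ℤ))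

theorem toNat_cast (W : ℕ) (x : ℤ) : ((x % 2 ^ W).toNat : ℤ) = x % 2 ^ W :=
  Int.toNat_of_nonneg (Int.emod_nonneg x (by positivity))

theorem cb_zero (W j : ℕ) : cb W 0 j = false := by
  unfold cb
  rw [Int.zero_emod]
  exact Nat.zero_testBit j

theorem cb_succ {W j : ℕ} (x : ℤ) (hj : j < W) :
    cb W (x + 1) j = ((x % 2 ^ W).toNat + 1).testBit j := by
  have h1 : ((x + 1) % 2 ^ W).toNat = ((x % 2 ^ W).toNat + 1) % 2 ^ W := by
    have h2 : (((x + 1) % 2 ^ W).toNat : ℤ) = ((((x % 2 ^ W).toNat + 1) % 2 ^ W : ℕ) : ℤ) := by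
      push_cast
      rw [toNat_cast, toNat_cast, Int.emod_add_emod]
    exact_mod_cast h2
  unfold cb
  rw [h1, Nat.testBit_mod_two_pow]
  simp [hj]

theorem cb_pred {W j : ℕ} (x : ℤ) (hj : j < W) :
    cb W (x - 1) j = !((2 ^ W - ((x % 2 ^ W).toNat + 1)) + 1).testBit j := by
  obtain ⟨n, hn⟩ : ∃ n, n = (x % 2 ^ W).toNat := ⟨_, rfl⟩
  have hlt : n < 2 ^ W := by rw [hn]; exact toNat_lt W x
  have hc : (n : ℤ) = x % 2 ^ W := by rw [hn]; exact toNat_cast W x
  rw [← hn]
  unfold cb
  rcases Nat.eq_zero_or_pos n with h0 | h0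
  · subst h0
    have h1 : ((x - 1) % 2 ^ W).toNat = 2 ^ W - (0 + 1) := by
      have h2 : (x - 1) % 2 ^ W = 2 ^ W - 1 := by
        have h3 : x % 2 ^ W = 0 := by rw [← hc]; rfl
        obtain ⟨k, hk⟩ := Int.dvd_of_emod_eq_zero h3
        rw [hk]
        have h4 : (2 : ℤ) ^ W * k - 1 = (2 ^ W - 1) + 2 ^ W * (k - 1) := by ring
        rw [h4, Int.add_mul_emod_self_left]
        apply Int.emod_eq_of_lt
        · have : (1 : ℤ) ≤ 2 ^ W := one_le_pow₀ (by norm_num)
          linarith
        · linarith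
      have h5 : (((x - 1) % 2 ^ W).toNat : ℤ) = ((2 ^ W - (0 + 1) : ℕ) : ℤ) := by
        rw [toNat_cast, h2, Nat.cast_sub (by simpa using Nat.one_le_two_pow)]
        push_cast
        ring
      exact_mod_cast h5
    rw [h1, Nat.testBit_two_pow_sub_succ (by positivity)]
    have h6 : 2 ^ W - (0 + 1) + 1 = 2 ^ W := by
      have := Nat.one_le_two_pow (n := W)
      omega
    rw [h6, Nat.testBit_two_pow_of_ne (by omega)]
    simp [hj]
  · obtain ⟨k, rfl⟩ : ∃ k, n = k + 1 := ⟨n - 1, by omega⟩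
    have h1 : ((x - 1) % 2 ^ W).toNat = k := by
      have h2 : (((x - 1) % 2 ^ W).toNat : ℤ) = (k : ℤ) := by
        have h3 : x - 1 = (k : ℤ) + 2 ^ W * (x / 2 ^ W) := by
          have h4 := Int.emod_add_mul_ediv x (2 ^ W)
          rw [← hc] at h4
          push_cast at h4
          linarith
        rw [toNat_cast, h3, Int.add_mul_emod_self_left]
        exact Int.emod_eq_of_lt (by omega) (by exact_mod_cast (by omega : k < 2 ^ W))
      exact_mod_cast h2
    rw [h1]
    have h6 : 2 ^ W - (k + 1 + 1) + 1 = 2 ^ W - (k + 1) := by omega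
    rw [h6, Nat.testBit_two_pow_sub_succ (by omega)]
    simp [hj]

/-- few integers have the same digits -/
theorem cb_inj {W : ℕ} {x y : ℤ} (h : ∀ j < W, cb W x j = cb W y j) (hxy : |x - y| < 2 ^ W) :
    x = y := by
  have h1 : (x % 2 ^ W).toNat = (y % 2 ^ W).toNat := by
    apply Nat.eq_of_testBit_eq
    intro j
    rcases Nat.lt_or_ge j W with hj | hj
    · exact h j hj
    · have h2 : ∀ z : ℤ, (z % 2 ^ W).toNat.testBit j = false := fun z =>
        Nat.testBit_lt_two_pow ((toNat_lt W z).trans_le (Nat.pow_le_pow_right (by norm_num) hj))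
      rw [h2, h2]
  have h2 : x % 2 ^ W = y % 2 ^ W := by
    rw [← toNat_cast, ← toNat_cast W y, h1]
  have h3 : (2 : ℤ) ^ W ∣ x - y := Int.ModEq.dvd (Int.ModEq.symm h2)
  have h4 := Int.eq_zero_of_abs_lt_dvd h3 hxy
  linarith

variable {d : ℕ}

/-- digit number `r` of the address of the position `p` -/
def pb (W : ℕ) (p : Fin d → ℤ) (r : ℕ) : Bool :=
  if h : r / W < d then cb W (p ⟨r / W, h⟩) (r % W) else false

theorem pb_zero (W r : ℕ) : pb W (fun _ : Fin d => (0 : ℤ)) r = false := by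
  unfold pb
  split_ifs
  · exact cb_zero _ _
  · rfl

theorem pb_mul {W : ℕ} (p : Fin d → ℤ) (i : Fin d) {j : ℕ} (hj : j < W) :
    pb W p (i * W + j) = cb W (p i) j := by
  have h1 : ((i : ℕ) * W + j) / W = i := by
    rw [Nat.mul_comm, Nat.mul_add_div (by omega), Nat.div_eq_of_lt hj, Nat.add_zero]
  have h2 : ((i : ℕ) * W + j) % W = j := by
    rw [Nat.mul_comm, Nat.mul_add_mod, Nat.mod_eq_of_lt hj]
  unfold pb
  rw [dif_pos (by rw [h1]; exact i.2), h2]
  congr 2
  exact Fin.ext h1

theorem mul_add_lt {W : ℕ} (i : Fin d) {j : ℕ} (hj : j < W) : (i : ℕ) * W + j < d * W := by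
  have h1 : ((i : ℕ) + 1) * W ≤ d * W := Nat.mul_le_mul_right _ i.2
  rw [Nat.add_mul] at h1
  omega

/-- the state: the cells `0` and `2`, the digits of the address of the present position in the cells
`4 r + 4`, of the last position in the cells `4 r + 6`, and the memory -/
def rmem (s W : ℕ) (V : Mem) (p q : Fin d → ℤ) : Mem := fun i =>
  if i % 2 = 1 then false
  else if i / 2 < 2 then V i
  else if i / 2 < 2 + 2 * (d * W) then
    (if i / 2 % 2 = 0 then pb W p ((i / 2 - 2) / 2) else pb W q ((i / 2 - 2) / 2))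
  else if i / 2 < 2 + 2 * (d * W) + s then V (i / 2 - (2 + 2 * (d * W))) else false

theorem rmem_zeroMem (s W : ℕ) : rmem s W zeroMem (fun _ : Fin d => (0 : ℤ)) (fun _ => 0) =
    zeroMem := by
  funext i
  unfold rmem
  rw [pb_zero]
  split_ifs <;> rfl

theorem rmem_low (s W : ℕ) (V : Mem) (p q : Fin d → ℤ) {i : ℕ} (h : i = 0 ∨ i = 2) :
    rmem s W V p q i = V i := by
  unfold rmem
  rw [if_neg (by omega), if_pos (by omega)]

theorem rmem_ptr (s W : ℕ) (V : Mem) (p q : Fin d → ℤ) {r : ℕ} (h : r < d * W) :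
    rmem s W V p q (4 * r + 4) = pb W p r := by
  unfold rmem
  rw [if_neg (by omega), if_neg (by omega), if_pos (by omega), if_pos (by omega)]
  congr 1
  omega

theorem rmem_wad (s W : ℕ) (V : Mem) (p q : Fin d → ℤ) {r : ℕ} (h : r < d * W) :
    rmem s W V p q (4 * r + 6) = pb W q r := by
  unfold rmem
  rw [if_neg (by omega), if_neg (by omega), if_pos (by omega), if_neg (by omega)]
  congr 1
  omega

theorem rmem_X (s W : ℕ) (V : Mem) (p q : Fin d → ℤ) {j : ℕ} (h : j < s) :
    rmem s W V p q (2 * (2 + 2 * (d * W) + j)) = V j := by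
  unfold rmem
  rw [if_neg (by omega), if_neg (by omega), if_neg (by omega), if_pos (by omega)]
  congr 1
  omega

/-- the address of the present position -/
theorem ptr_rmem (s W : ℕ) (V : Mem) (p q : Fin d → ℤ) :
    ptr (d * W) (rmem s W V p q) = num (d * W) (pb W p) := by
  rw [hp_ptr_eq]
  exact num_congr fun r hr => rmem_ptr s W V p q hr

/-- the address of the last position -/
theorem wad_rmem (s W : ℕ) (V : Mem) (p q : Fin d → ℤ) :
    wad (d * W) (rmem s W V p q) = num (d * W) (pb W q) := by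
  have h1 : wad (d * W) (rmem s W V p q) = num (d * W) fun r => rmem s W V p q (4 * r + 6) := rfl
  rw [h1]
  exact num_congr fun r hr => rmem_wad s W V p q hr

/-- different positions have different addresses -/
theorem num_pb_inj {W : ℕ} {p q : Fin d → ℤ} (h : num (d * W) (pb W p) = num (d * W) (pb W q))
    (hpq : ∀ i, |p i - q i| < 2 ^ W) : p = q := by
  funext i
  refine cb_inj (W := W) (fun j hj => ?_) (hpq i)
  have h1 := mul_add_lt i hj
  have h2 : (num (d * W) (pb W p)).testBit (i * W + j) =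
      (num (d * W) (pb W q)).testBit (i * W + j) := by rw [h]
  rw [testBit_num, testBit_num, decide_eq_true h1, Bool.true_and, Bool.true_and, pb_mul p i hj,
    pb_mul q i hj] at h2
  exact h2

/-! ### one step -/

/-- the memory and the scanned word -/
def xin (s B : ℕ) (M : Mem) : Mem := fun j =>
  if j < s then (if j % 2 = 0 then M (2 * (B + j)) else M (2 * (B + j) + 1)) else false

/-- digit `r` of the address of the new position -/
def nb (W : ℕ) (V M : Mem) (r : ℕ) : Bool :=
  bif V (4 + 4 * (r / W)) then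
    ((num W fun j => M (4 * (r / W * W + j) + 4)) + 1).testBit (r % W)
  else bif V (6 + 4 * (r / W)) then
    !((num W fun j => !M (4 * (r / W * W + j) + 4)) + 1).testBit (r % W)
  else M (4 * r + 4)

/-- one step of the simulation -/
def rstep (G : List Ins) (z : Inp) (d s W : ℕ) (M : Mem) : Mem := fun i =>
  if i % 2 = 1 then false
  else if i / 2 < 2 then eval G z (xin s (2 + 2 * (d * W)) M) i
  else if i / 2 < 2 + 2 * (d * W) then
    (if i / 2 % 2 = 0 then nb W (eval G z (xin s (2 + 2 * (d * W)) M)) M ((i / 2 - 2) / 2)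
      else M (4 * ((i / 2 - 2) / 2) + 4))
  else if i / 2 < 2 + 2 * (d * W) + s then
    eval G z (xin s (2 + 2 * (d * W)) M) (i / 2 - (2 + 2 * (d * W)))
  else false

theorem num_not {W : ℕ} (x : ℤ) : (num W fun j => !cb W x j) = 2 ^ W - ((x % 2 ^ W).toNat + 1) := by
  apply Nat.eq_of_testBit_eq
  intro j
  rw [testBit_num, Nat.testBit_two_pow_sub_succ (toNat_lt W x)]
  rfl

theorem num_cb {W : ℕ} (x : ℤ) : (num W fun j => cb W x j) = (x % 2 ^ W).toNat := by
  apply Nat.eq_of_testBit_eq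
  intro j
  rw [testBit_num]
  rcases Nat.lt_or_ge j W with hj | hj
  · rw [decide_eq_true hj, Bool.true_and]
    rfl
  · rw [decide_eq_false (by omega), Bool.false_and]
    exact (Nat.testBit_lt_two_pow
      ((toNat_lt W x).trans_le (Nat.pow_le_pow_right (by norm_num) hj))).symm

/-- the new address -/
theorem nb_eq {W : ℕ} {V M : Mem} {p : Fin d → ℤ}
    (hM : ∀ r < d * W, M (4 * r + 4) = pb W p r) {r : ℕ} (hr : r < d * W) :
    nb W V M r = pb W (fun i => p i + mvd V i) r := by
  have hW : 0 < W := by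
    rcases Nat.eq_zero_or_pos W with h | h
    · subst h
      rw [Nat.mul_zero] at hr
      omega
    · exact h
  have hi : r / W < d := (Nat.div_lt_iff_lt_mul hW).2 hr
  have hj : r % W < W := Nat.mod_lt _ hW
  obtain ⟨i, hii⟩ : ∃ i : Fin d, (i : ℕ) = r / W := ⟨⟨r / W, hi⟩, rfl⟩
  obtain ⟨j, hjj⟩ : ∃ j, j = r % W := ⟨_, rfl⟩
  have hrr : r = i * W + j := by
    rw [hii, hjj]
    exact (Nat.div_add_mod' r W).symm
  have hcell : ∀ k < W, M (4 * (i * W + k) + 4) = cb W (p i) k := by
    intro k hk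
    rw [hM _ (mul_add_lt i hk), pb_mul p i hk]
  have hn1 : (num W fun k => M (4 * (i * W + k) + 4)) = (p i % 2 ^ W).toNat := by
    rw [← num_cb]
    exact num_congr hcell
  have hn2 : (num W fun k => !M (4 * (i * W + k) + 4)) = 2 ^ W - ((p i % 2 ^ W).toNat + 1) := by
    rw [← num_not]
    exact num_congr fun k hk => by rw [hcell k hk]
  rw [← hjj] at hj
  unfold nb
  rw [← hii, ← hjj, hn1, hn2, hrr, hcell j hj, pb_mul _ i hj]
  unfold mvd
  cases h4 : V (4 + 4 * i) with
  | true => rw [if_pos rfl, cb_succ _ hj, cond_true]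
  | false =>
    rw [if_neg Bool.false_ne_true, cond_false]
    cases h6 : V (6 + 4 * i) with
    | true =>
      rw [if_pos rfl, cond_true, ← Int.sub_eq_add_neg, cb_pred _ hj]
    | false => rw [if_neg Bool.false_ne_true, cond_false, Int.add_zero]

/-- the step on the right states -/
theorem rstep_rmem {G : List Ins} {s W : ℕ} (hG : Sz s G) (hs : 4 * d + 3 ≤ s) (z : Inp)
    (V Y : Mem) (p q p' q' : Fin d → ℤ) :
    rstep G z d s W (mrg (rmem s W V p q) (rmem s W Y p' q')) =
      rmem s W (eval G z (mix V Y)) (fun i => p i + mvd (eval G z (mix V Y)) i) p := by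
  obtain ⟨M, hM⟩ : ∃ M, M = mrg (rmem s W V p q) (rmem s W Y p' q') := ⟨_, rfl⟩
  obtain ⟨B, hB⟩ : ∃ B, B = 2 + 2 * (d * W) := ⟨_, rfl⟩
  have hx : Agr s (xin s B M) (mix V Y) := by
    intro j hj
    unfold xin mix
    rw [if_pos hj, hM]
    by_cases h2 : j % 2 = 0
    · rw [if_pos h2, if_pos h2, mrg_even, hB, rmem_X _ _ _ _ _ hj]
    · rw [if_neg h2, if_neg h2, mrg_odd, hB, rmem_X _ _ _ _ _ hj]
  have hV : Agr s (eval G z (xin s B M)) (eval G z (mix V Y)) := eval_agr hG.2 hx
  obtain ⟨V', hV'⟩ : ∃ V', V' = eval G z (mix V Y) := ⟨_, rfl⟩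
  rw [← hV'] at hV
  have hMp : ∀ r < d * W, M (4 * r + 4) = pb W p r := by
    intro r hr
    rw [hM, show 4 * r + 4 = 2 * (2 * r + 2) by ring, mrg_even,
      show 2 * (2 * r + 2) = 4 * r + 4 by ring]
    exact rmem_ptr _ _ _ _ _ hr
  rw [← hM, ← hV']
  funext i
  unfold rstep rmem
  rw [← hB]
  by_cases h1 : i % 2 = 1
  · rw [if_pos h1, if_pos h1]
  rw [if_neg h1, if_neg h1]
  by_cases h2 : i / 2 < 2
  · rw [if_pos h2, if_pos h2]
    exact hV i (by omega)
  rw [if_neg h2, if_neg h2]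
  by_cases h3 : i / 2 < B
  · rw [if_pos h3, if_pos h3]
    have hr : (i / 2 - 2) / 2 < d * W := by omega
    by_cases h4 : i / 2 % 2 = 0
    · rw [if_pos h4, if_pos h4, nb_eq hMp hr]
      congr 1
      funext k
      congr 1
      unfold mvd
      have := k.2
      rw [hV _ (by omega), hV _ (by omega)]
    · rw [if_neg h4, if_neg h4, hMp _ hr]
  rw [if_neg h3, if_neg h3]
  by_cases h4 : i / 2 < B + s
  · rw [if_pos h4, if_pos h4]
    exact hV _ (by omega)
  · rw [if_neg h4, if_neg h4]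

/-! ### the run -/

/-- the last step `≤ n` in which the head was in the cell `p` -/
def lv (f : Mem → Mem) (p : Fin d → ℤ) (n : ℕ) : ℕ :=
  Nat.findGreatest (fun t => 0 < t ∧ (mconf d f (t - 1)).pos = p) n

theorem mconf_succ (f : Mem → Mem) (n : ℕ) : mconf d f (n + 1) = (mconf d f n).step f := rfl

/-- the word in a cell of the tape -/
theorem tape_eq (f : Mem → Mem) (n : ℕ) (p : Fin d → ℤ) :
    (mconf d f n).tape p = (mconf d f (lv f p n)).mem := by
  induction n with
  | zero => rfl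
  | succ n ih =>
    have h1 : (mconf d f (n + 1)).tape =
        Function.update (mconf d f n).tape (mconf d f n).pos (mconf d f (n + 1)).mem := rfl
    unfold lv
    rw [h1, Nat.findGreatest_succ]
    by_cases h : (mconf d f n).pos = p
    · rw [if_pos ⟨Nat.succ_pos n, h⟩, ← h, Function.update_self]
    · rw [if_neg fun h2 => h h2.2, Function.update_of_ne fun h2 => h h2.symm, ih]
      rfl

/-- the state of the simulation after `n` steps -/
def rU (f : Mem → Mem) (d s W n : ℕ) : Mem :=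
  rmem s W (mconf d f n).mem (mconf d f n).pos (mconf d f (n - 1)).pos

theorem mvd_abs (V : Mem) (i : ℕ) : |mvd V i| ≤ 1 := by
  unfold mvd
  split_ifs <;> norm_num

theorem pos_step (f : Mem → Mem) (n : ℕ) (i : Fin d) :
    |(mconf d f (n + 1)).pos i - (mconf d f n).pos i| ≤ 1 := by
  have h : (mconf d f (n + 1)).pos i =
      (mconf d f n).pos i + mvd (mconf d f (n + 1)).mem i := rfl
  rw [h, add_sub_cancel_left]
  exact mvd_abs _ _

theorem pos_dist (f : Mem → Mem) {m n : ℕ} (h : m ≤ n) (i : Fin d) :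
    |(mconf d f n).pos i - (mconf d f m).pos i| ≤ n - m := by
  induction n, h using Nat.le_induction with
  | base => simp
  | succ n h ih =>
    have h1 := pos_step f n i
    have h2 : (mconf d f (n + 1)).pos i - (mconf d f m).pos i =
        ((mconf d f (n + 1)).pos i - (mconf d f n).pos i) +
          ((mconf d f n).pos i - (mconf d f m).pos i) := by ring
    rw [h2]
    refine (abs_add_le _ _).trans ?_
    push_cast
    linarith

theorem lv_le (f : Mem → Mem) (p : Fin d → ℤ) (n : ℕ) : lv f p n ≤ n := Nat.findGreatest_le n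

theorem lv_pos {f : Mem → Mem} {p : Fin d → ℤ} {n : ℕ} (h : 0 < lv f p n) :
    (mconf d f (lv f p n - 1)).pos = p :=
  (Nat.findGreatest_of_ne_zero (P := fun t => 0 < t ∧ (mconf d f (t - 1)).pos = p)
    rfl (ne_of_gt h)).2

theorem lv_last {f : Mem → Mem} {p : Fin d → ℤ} {n u : ℕ} (h : lv f p n < u) (hu : u ≤ n) :
    (mconf d f (u - 1)).pos ≠ p := fun h1 =>
  Nat.findGreatest_is_greatest (P := fun t => 0 < t ∧ (mconf d f (t - 1)).pos = p) h hu
    ⟨by omega, h1⟩

/-- the run of the simulation -/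
theorem rst_rstep {G : List Ins} {s W N : ℕ} (hG : Sz s G) (hs : 4 * d + 3 ≤ s) (z : Inp)
    (hN : N < 2 ^ W) : ∀ n ≤ N, rst (rstep G z d s W) (d * W) n = rU (eval G z) d s W n ∧
      (n < N → rsrc (rstep G z d s W) (d * W) n =
        lv (eval G z) (mconf d (eval G z) n).pos n) := by
  obtain ⟨f, hf⟩ : ∃ f, f = eval G z := ⟨_, rfl⟩
  rw [← hf]
  refine rst_unique (sc := fun n => lv f (mconf d f n).pos n) ?_ ?_ ?_ ?_ ?_
  · exact rmem_zeroMem s W
  · intro n _
    have h1 := rstep_rmem (d := d) (W := W) hG hs z (mconf d f n).mem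
      (mconf d f (lv f (mconf d f n).pos n)).mem (mconf d f n).pos (mconf d f (n - 1)).pos
      (mconf d f (lv f (mconf d f n).pos n)).pos (mconf d f (lv f (mconf d f n).pos n - 1)).pos
    rw [← hf] at h1
    have h2 : (mconf d f (n + 1)).mem =
        f (mix (mconf d f n).mem (mconf d f (lv f (mconf d f n).pos n)).mem) := by
      rw [← tape_eq]
      rfl
    rw [← h2] at h1
    exact h1.symm
  · exact fun n _ => lv_le _ _ _
  · intro n _ h
    unfold rU
    rw [wad_rmem, ptr_rmem, lv_pos h]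
  · intro n hn u hu hun
    unfold rU
    rw [wad_rmem, ptr_rmem]
    intro h
    refine lv_last hu hun (num_pb_inj h fun i => ?_)
    have h1 := pos_dist f (m := u - 1) (n := n) (by omega) i
    rw [abs_sub_comm]
    have h2 : (n : ℤ) < 2 ^ W := by exact_mod_cast hn.trans hN
    have h3 : (0 : ℤ) ≤ ((u - 1 : ℕ) : ℤ) := Int.natCast_nonneg _
    linarith

/-- the data-flow graph of the simulation -/
theorem hsep_lv (f : Mem → Mem) (N : ℕ) :
    HSep N (fun n => lv f (mconf d f n).pos n) ((d : ℝ) / (d + 1)) (1 + 2 * d + 2 ^ d) := by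
  refine hsep_walk (fun t => (mconf d f (t - 1)).pos) (fun t _ i => ?_) (fun t _ _ => ?_)
  · cases t with
    | zero => simp
    | succ t => exact pos_step f t i
  · rcases Nat.eq_zero_or_pos (lv f (mconf d f t).pos t) with h | h
    · exact Or.inl h
    · exact Or.inr ⟨lv_pos h, fun u hu hu' => lv_last hu hu'⟩

/-! ### the code -/

/-- size of one cell of one step -/
def rcpSz (d s W : ℕ) : ℕ :=
  4 * (s + (2 * (2 + 2 * (d * W) + s) + 1) * 22) + 130 * W + 600

theorem Cp.tbPred {b s n : ℕ} {g : ℕ → Inp → Mem → Bool} (h : ∀ i < n, Cp b s (g i)) (i : ℕ)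
    (hi : i < n) : Cp b (n * (s + 63) + 2 * s + 231)
      (fun z M => !((num n fun j => !g j z M) + 1).testBit i) := by
  refine ((Cp.tbSucc (g := fun j z M => !g j z M) (fun j hj => (h j hj).not) le_rfl i hi).not).mono
    le_rfl ?_
  have : n * (s + 5 + 58) = n * (s + 63) := rfl
  omega

theorem rstep_cp {G : List Ins} {s : ℕ} (hG : Sz s G) (hs : 4 * d + 3 ≤ s) (W : ℕ) {q : ℕ}
    (hq : q < 2 * (2 + 2 * (d * W) + s)) :
    Cp (2 * (2 + 2 * (d * W) + s)) (rcpSz d s W) (fun z M => rstep G z d s W M q) := by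
  obtain ⟨B, hB⟩ : ∃ B, B = 2 + 2 * (d * W) := ⟨_, rfl⟩
  obtain ⟨b, hb⟩ : ∃ b, b = 2 * (B + s) := ⟨_, rfl⟩
  obtain ⟨A, hA⟩ : ∃ A, A = s + (b + 1) * (2 + 20) := ⟨_, rfl⟩
  have hcp : rcpSz d s W = 4 * A + 130 * W + 600 := by
    unfold rcpSz
    rw [hA, hb, hB]
  rw [hcp, ← hB, ← hb]
  rw [← hB, ← hb] at hq
  -- the new memory
  have hX : ∀ j < s, Cp b 2 (fun _ M => xin s B M j) := by
    intro j hj
    by_cases h2 : j % 2 = 0
    · refine (Cp.cell (show 2 * (B + j) < b by omega)).congr fun z M => ?_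
      unfold xin
      rw [if_pos hj, if_pos h2]
    · refine (Cp.cell (show 2 * (B + j) + 1 < b by omega)).congr fun z M => ?_
      unfold xin
      rw [if_pos hj, if_neg h2]
  have hV : ∀ j < s, Cp b A (fun z M => eval G z (xin s B M) j) := by
    intro j hj
    rw [hA]
    exact Cp.appTr (b := b) (t := 2) (Tr.pass hG) (by omega) (by omega)
      (X := fun _ M => xin s B M) hX hj
  -- the new address
  have hnb : ∀ r < d * W, Cp b (4 * A + 130 * W + 600)
      (fun z M => nb W (eval G z (xin s B M)) M r) := by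
    intro r hr
    have hW : 0 < W := by
      rcases Nat.eq_zero_or_pos W with h | h
      · subst h
        rw [Nat.mul_zero] at hr
        omega
      · exact h
    have hi : r / W < d := (Nat.div_lt_iff_lt_mul hW).2 hr
    have hj : r % W < W := Nat.mod_lt _ hW
    have hcell : ∀ k < W, Cp b 2 (fun (_ : Inp) (M : Mem) => M (4 * (r / W * W + k) + 4)) := by
      intro k hk
      have := mul_add_lt (d := d) ⟨r / W, hi⟩ hk
      simp only at this
      exact Cp.cell (by omega)
    refine (Cp.ite (hV (4 + 4 * (r / W)) (by omega))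
      (Cp.tbSucc (g := fun k (_ : Inp) (M : Mem) => M (4 * (r / W * W + k) + 4)) hcell le_rfl
        (r % W) hj)
      (Cp.ite (hV (6 + 4 * (r / W)) (by omega))
        (Cp.tbPred (g := fun k (_ : Inp) (M : Mem) => M (4 * (r / W * W + k) + 4)) hcell (r % W) hj)
        (Cp.cell (show 4 * r + 4 < b by omega)))).mono le_rfl ?_
    have e1 : W * (2 + 58) = 60 * W := by ring
    have e2 : W * (2 + 63) = 65 * W := by ring
    rw [e1, e2]
    omega
  unfold rstep
  rw [← hB]
  by_cases h1 : q % 2 = 1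
  · refine ((Cp.const b false).congr fun z M => ?_).mono le_rfl (by omega)
    rw [if_pos h1]
  by_cases h2 : q / 2 < 2
  · refine ((hV q (by omega)).congr fun z M => ?_).mono le_rfl (by omega)
    rw [if_neg h1, if_pos h2]
  by_cases h3 : q / 2 < B
  · have hr : (q / 2 - 2) / 2 < d * W := by omega
    by_cases h4 : q / 2 % 2 = 0
    · refine (hnb _ hr).congr fun z M => ?_
      rw [if_neg h1, if_neg h2, if_pos h3, if_pos h4]
    · refine ((Cp.cell (show 4 * ((q / 2 - 2) / 2) + 4 < b by omega)).congr fun z M => ?_).mono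
        le_rfl (by omega)
      rw [if_neg h1, if_neg h2, if_pos h3, if_neg h4]
  · refine ((hV (q / 2 - B) (by omega)).congr fun z M => ?_).mono le_rfl (by omega)
    rw [if_neg h1, if_neg h2, if_neg h3, if_pos (by omega)]

/-- size of the simulation -/
def rtSz (d s W : ℕ) : ℕ :=
  2 * (2 + 2 * (d * W) + s) + (2 * (2 + 2 * (d * W) + s) * (rcpSz d s W + 3) + 1)

theorem rtSz_le (d s W : ℕ) : rtSz d s W ≤ 10000 * ((d + 1) * (s + W + 10)) ^ 2 := by
  obtain ⟨Q, hQ⟩ : ∃ Q, Q = (d + 1) * (s + W + 10) := ⟨_, rfl⟩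
  obtain ⟨E, hE⟩ : ∃ E, E = d * W := ⟨_, rfl⟩
  have h1 : E + s + W + 10 ≤ Q := by
    rw [hQ, hE]
    nlinarith [Nat.zero_le (d * s)]
  unfold rtSz rcpSz
  rw [← hQ, ← hE]
  have h2 : 2 * (2 + 2 * E + s) ≤ 4 * Q := by omega
  have h3 : 4 * (s + (2 * (2 + 2 * E + s) + 1) * 22) + 130 * W + 600 + 3 ≤ 1000 * Q := by omega
  have h4 : 2 * (2 + 2 * E + s) * (4 * (s + (2 * (2 + 2 * E + s) + 1) * 22) + 130 * W + 600 + 3)
      ≤ 4 * Q * (1000 * Q) := Nat.mul_le_mul h2 h3
  have h5 : 1 ≤ Q := by omega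
  nlinarith

end RT

open RT in
/-- **Machines with one `d`-dimensional tape are random access machines**, without loss of time; the
data-flow graph has hereditary separators with the exponent `d / (d + 1)`. -/
theorem exists_tapeD_ram {G : List Ins} {s : ℕ} (d : ℕ) (hG : Sz s G) (hs : 4 * d + 3 ≤ s)
    (W : ℕ) :
    ∃ G' : List Ins, RSz (rtSz d s W) (d * W) G' ∧ ∀ (z : Inp) (N : ℕ), N < 2 ^ W →
      MHaltsAt d (eval G z) N → RHalts (eval G' z) (d * W) N ∧
        rst (eval G' z) (d * W) N 2 = (mconf d (eval G z) N).mem 2 ∧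
        HSep N (rsrc (eval G' z) (d * W)) ((d : ℝ) / (d + 1)) (1 + 2 * d + 2 ^ d) := by
  obtain ⟨b, hb⟩ : ∃ b, b = 2 * (2 + 2 * (d * W) + s) := ⟨_, rfl⟩
  have hTr : Tr b (b * (rcpSz d s W + 3) + 1) fun z M => rstep G z d s W M :=
    Tr.ofCp fun q hq => by
      rw [hb] at hq ⊢
      exact rstep_cp hG hs W hq
  obtain ⟨G', hG', hev⟩ := hTr.exists_code
  have hd : 4 * (d * W) + 2 < b := by omega
  refine ⟨G', ⟨hG'.mono (by rw [rtSz, ← hb]), ?_⟩, fun z N hN hH => ?_⟩
  · rw [rtSz, ← hb]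
    omega
  · have htr : ∀ M M', Agr b M M' → EvAgr b (eval G' z M) (rstep G z d s W M') :=
      fun M M' h => (hev z M M' h).ev
    have h1 := rst_rstep hG hs z hN
    have h2 : ∀ n ≤ N, EvAgr b (rst (eval G' z) (d * W) n) (rU (eval G z) d s W n) := by
      intro n hn
      rw [← (h1 n hn).1]
      exact rst_transfer hd htr n
    have h3 : ∀ n < N, rsrc (eval G' z) (d * W) n = lv (eval G z) (mconf d (eval G z) n).pos n := by
      intro n hn
      rw [rsrc_transfer hd htr]
      exact (h1 n hn.le).2 hn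
    have h0 : ∀ n ≤ N, rst (eval G' z) (d * W) n 0 = (mconf d (eval G z) n).mem 0 := by
      intro n hn
      rw [h2 n hn 0 (by omega) rfl]
      exact rmem_low _ _ _ _ _ (Or.inl rfl)
    refine ⟨⟨?_, fun n hn => ?_⟩, ?_, ?_⟩
    · rw [h0 N le_rfl]
      exact hH.1
    · rw [h0 n hn.le]
      exact hH.2 n hn
    · rw [h2 N le_rfl 2 (by omega) rfl]
      exact rmem_low _ _ _ _ _ (Or.inr rfl)
    · exact (hsep_lv (eval G z) N).congr fun t ht => (h3 t ht).symm

/-- a fast machine with one `d`-dimensional tape gives a fast random access machine whose data-flow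
graphs have hereditary separators -/
theorem MDecides.ram {d : ℕ} {G : List Ins} {B T s : ℕ} {P : Inp → Prop} (hG : Sz s G)
    (hD : MDecides d G B T P) :
    ∃ G' : List Ins, RSz (RT.rtSz d (s + (4 * d + 3)) (Nat.size T)) (d * Nat.size T) G' ∧
      RamDecides G' (d * Nat.size T) B T ((d : ℝ) / (d + 1)) (1 + 2 * d + 2 ^ d) P := by
  obtain ⟨G', h1, h2⟩ := exists_tapeD_ram (s := s + (4 * d + 3)) d (hG.mono (by omega)) (by omega)
    (Nat.size T)
  refine ⟨G', h1, fun z hz => ?_⟩
  obtain ⟨b, ⟨N, hN, hH, hb⟩, hbS⟩ := hD z hz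
  obtain ⟨h3, h4, h5⟩ := h2 z N (lt_of_le_of_lt hN (Nat.lt_size_self T)) hH
  refine ⟨N, hN, h3, ?_, h5⟩
  rw [h4, hb]
  exact hbS

end Pool.Agent.NUM
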