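import Pool.Agent.NUM.RTapeCor
import Pool.Agent.NUM.RFinal

/-!
# Machines with one `d`-dimensional tape: the corollary of the theorem on random access machines
-/

set_option autoImplicit false

namespace Pool.Agent.NUM

open S3

/-- for `d = 1, 2, 3` the condition is `c < 1.3406`, `c < 1.2084`, `c < 1.1487` -/
theorem sat_tapeD_bound {d : ℕ} {c : ℝ} (hc : 1 ≤ c)
    (hc3 : ((d : ℝ) + 1) * c ^ 3 - c ^ 2 - (d + 2) * c + 1 < 0) :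
    ∃ (δ : ℝ) (A M₀ : ℕ), 0 < δ ∧ ∀ M : ℕ, M₀ ≤ M → ∃ m : ℕ, M ≤ m ∧ m ≤ A * M ∧
      ∀ (G : List Ins) (s T : ℕ), Sz s G →
      (s : ℝ) ≤ 2 ^ (δ * m) → (T : ℝ) ≤ 2 ^ (c * m) → ¬ MDecides d G (satLen m) T (SAT m) :=
  tapeD_window_ram' hc hc3 fun _ _ h0 h1 h2 h3 => sat_ram_bound h0 h1 h2 h3

end Pool.Agent.NUM
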