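import Pool.Agent.NUM.RTraceDef

/-!
# Existence of transcripts
-/

set_option autoImplicit false

namespace Pool.Agent.NUM

variable {A : Type}

namespace TrcEx

/-- the next available step -/
def nxp (L : Lst A) (κ : ℕ) (p : ℕ × ℕ) : ℕ × ℕ :=
  if p.2 < L.tm p.1 ∧ L.lb p.1 = κ then (p.1, p.2 + 1)
  else (p.1 + 1, if L.lb (p.1 + 1) = κ then p.2 + 1 else L.tm (p.1 + 1))

/-- segment and time of the positions -/
def pos (L : Lst A) (κ : ℕ) : ℕ → ℕ × ℕ
  | 0 => (0, 0)
  | 1 => (0, if L.lb 0 = κ then 1 else L.tm 0)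
  | x + 2 => nxp L κ (pos L κ (x + 1))

theorem pos_succ (L : Lst A) (κ : ℕ) {x : ℕ} (hx : 1 ≤ x) : pos L κ (x + 1) = nxp L κ (pos L κ x) := by
  obtain ⟨y, rfl⟩ : ∃ y, x = y + 1 := ⟨x - 1, by omega⟩
  rfl

theorem pos_mono (L : Lst A) (κ : ℕ) {x y : ℕ} (hx : 1 ≤ x) (hxy : x ≤ y) :
    (pos L κ x).1 ≤ (pos L κ y).1 := by
  induction y, hxy using Nat.le_induction with
  | base => exact le_rfl
  | succ y hy ih =>
    refine ih.trans ?_
    rw [pos_succ L κ (hx.trans hy)]
    unfold nxp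
    split_ifs <;> simp

section

variable {L : Lst A} {κ w : ℕ} (hsrt : ∀ i < 2 ^ w, L.pv i < L.tm i)

include hsrt

theorem pos_inv {x : ℕ} (hx : 1 ≤ x) (h : (pos L κ x).1 < 2 ^ w) :
    L.pv (pos L κ x).1 < (pos L κ x).2 ∧ (pos L κ x).2 ≤ L.tm (pos L κ x).1 ∧
      (L.lb (pos L κ x).1 ≠ κ → (pos L κ x).2 = L.tm (pos L κ x).1) := by
  induction x, hx using Nat.le_induction with
  | base =>
    have h1 : L.pv 0 < L.tm 0 := hsrt 0 (Nat.pos_of_ne_zero (by positivity))
    have h2 : L.pv 0 = 0 := rfl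
    change L.pv 0 < (if L.lb 0 = κ then 1 else L.tm 0) ∧ (if L.lb 0 = κ then 1 else L.tm 0) ≤ L.tm 0 ∧
      (L.lb 0 ≠ κ → (if L.lb 0 = κ then 1 else L.tm 0) = L.tm 0)
    by_cases h3 : L.lb 0 = κ
    · simp only [h3, if_true, ne_eq, not_true_eq_false, false_imp_iff, and_true]
      omega
    · simp only [h3, if_false, le_refl, implies_true, and_true]
      omega
  | succ x hx ih =>
    have h1 := pos_mono L κ hx (Nat.le_succ x)
    have h2 := ih (lt_of_le_of_lt h1 h)
    rw [pos_succ L κ hx] at h ⊢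
    obtain ⟨h3, h4, h5⟩ := h2
    unfold nxp at h ⊢
    by_cases h6 : (pos L κ x).2 < L.tm (pos L κ x).1 ∧ L.lb (pos L κ x).1 = κ
    · rw [if_pos h6] at h ⊢
      refine ⟨by simp only; omega, by simp only; omega, fun h7 => absurd h6.2 h7⟩
    · rw [if_neg h6] at h ⊢
      simp only at h ⊢
      have h7 : (pos L κ x).2 = L.tm (pos L κ x).1 := by
        by_cases h8 : L.lb (pos L κ x).1 = κ
        · have : ¬ (pos L κ x).2 < L.tm (pos L κ x).1 := fun h9 => h6 ⟨h9, h8⟩
          omega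
        · exact h5 h8
      have h8 := hsrt _ h
      have h9 : L.pv ((pos L κ x).1 + 1) = L.tm (pos L κ x).1 := rfl
      by_cases h10 : L.lb ((pos L κ x).1 + 1) = κ
      · simp only [h10, if_true, ne_eq, not_true_eq_false, false_imp_iff, and_true]
        omega
      · simp only [h10, if_false, le_refl, implies_true, and_true]
        exact h8

theorem pos_lt {x : ℕ} (h : (pos L κ (x + 1)).1 < 2 ^ w) : (pos L κ x).2 < (pos L κ (x + 1)).2 := by
  have h0 := pos_inv hsrt (κ := κ) (show 1 ≤ x + 1 by omega) h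
  rcases Nat.eq_zero_or_pos x with rfl | hx
  · exact lt_of_le_of_lt (Nat.zero_le _) h0.1
  · have h1 := pos_mono L κ hx (Nat.le_succ x)
    have h2 := pos_inv hsrt hx (lt_of_le_of_lt h1 h)
    rw [pos_succ L κ hx] at h h0 ⊢
    obtain ⟨h3, h4, h5⟩ := h2
    unfold nxp at h h0 ⊢
    by_cases h6 : (pos L κ x).2 < L.tm (pos L κ x).1 ∧ L.lb (pos L κ x).1 = κ
    · rw [if_pos h6]
      simp only
      omega
    · rw [if_neg h6] at h h0 ⊢
      simp only at h h0 ⊢
      have h9 : L.pv ((pos L κ x).1 + 1) = L.tm (pos L κ x).1 := rfl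
      omega

theorem pos_lt_of {x y : ℕ} (hxy : x < y) (h : (pos L κ y).1 < 2 ^ w) :
    (pos L κ x).2 < (pos L κ y).2 := by
  induction y, hxy using Nat.le_induction with
  | base => exact pos_lt hsrt h
  | succ y hy ih =>
    have h1 := pos_mono L κ (show 1 ≤ y by omega) (Nat.le_succ y)
    exact (ih (lt_of_le_of_lt h1 h)).trans (pos_lt hsrt h)

/-- positions satisfy the condition -/
theorem pos_ok {x : ℕ} (hx : 2 ≤ x) (h : (pos L κ x).1 < 2 ^ w) :
    ((pos L κ x).1 = (pos L κ (x - 1)).1 ∧ L.lb (pos L κ x).1 = κ ∧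
      (pos L κ (x - 1)).2 < L.tm (pos L κ x).1 ∧ (pos L κ x).2 = (pos L κ (x - 1)).2 + 1) ∨
    (((pos L κ x).1 = (pos L κ (x - 1)).1 + 1 ∧ (pos L κ (x - 1)).2 = L.tm (pos L κ (x - 1)).1) ∧
      (L.lb (pos L κ x).1 = κ → (pos L κ x).2 = (pos L κ (x - 1)).2 + 1) ∧
      (L.lb (pos L κ x).1 ≠ κ → (pos L κ x).2 = L.tm (pos L κ x).1)) := by
  obtain ⟨y, rfl⟩ : ∃ y, x = y + 1 := ⟨x - 1, by omega⟩
  have hy : 1 ≤ y := by omega
  simp only [Nat.add_sub_cancel]
  have h1 := pos_mono L κ hy (Nat.le_succ y)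
  have h2 := pos_inv hsrt hy (lt_of_le_of_lt h1 h)
  rw [pos_succ L κ hy] at h ⊢
  obtain ⟨h3, h4, h5⟩ := h2
  unfold nxp at h ⊢
  by_cases h6 : (pos L κ y).2 < L.tm (pos L κ y).1 ∧ L.lb (pos L κ y).1 = κ
  · rw [if_pos h6]
    exact Or.inl ⟨rfl, h6.2, h6.1, rfl⟩
  · rw [if_neg h6] at h ⊢
    have h7 : (pos L κ y).2 = L.tm (pos L κ y).1 := by
      by_cases h8 : L.lb (pos L κ y).1 = κ
      · have : ¬ (pos L κ y).2 < L.tm (pos L κ y).1 := fun h9 => h6 ⟨h9, h8⟩
        omega
      · exact h5 h8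
    refine Or.inr ⟨⟨rfl, h7⟩, fun h8 => ?_, fun h8 => ?_⟩
    · exact if_pos h8
    · exact if_neg h8

omit hsrt in
theorem nAv_succ (L : Lst A) (κ i : ℕ) :
    nAv L κ (i + 1) = nAv L κ i + if L.lb i = κ then L.tm i - L.pv i else 1 := by
  unfold nAv
  rw [Finset.sum_range_succ]

omit hsrt in
theorem reach_of_first {i : ℕ} (h : ∃ x, 1 ≤ x ∧
    pos L κ x = (i, if L.lb i = κ then L.pv i + 1 else L.tm i) ∧ x ≤ nAv L κ i + 1) (τ : ℕ)
    (h1 : L.pv i < τ) (h2 : τ ≤ L.tm i) (h3 : L.lb i = κ ∨ τ = L.tm i) :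
    ∃ x, 1 ≤ x ∧ pos L κ x = (i, τ) ∧ x ≤ nAv L κ i + if L.lb i = κ then τ - L.pv i else 1 := by
  obtain ⟨x0, hx0, hp0, hn0⟩ := h
  by_cases h4 : L.lb i = κ
  · rw [if_pos h4] at hp0 ⊢
    induction τ, h1 using Nat.le_induction with
    | base =>
      refine ⟨x0, hx0, hp0, ?_⟩
      omega
    | succ τ hτ ih =>
      obtain ⟨x, h5, h6, h7⟩ := ih (by omega) (Or.inl h4)
      refine ⟨x + 1, by omega, ?_, by omega⟩
      rw [pos_succ L κ h5, h6]
      unfold nxp
      rw [if_pos ⟨by simp only; omega, h4⟩]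
  · rw [if_neg h4] at hp0 ⊢
    have h5 : τ = L.tm i := h3.resolve_left h4
    subst h5
    exact ⟨x0, hx0, hp0, hn0⟩

theorem pos_first {i : ℕ} (hi : i < 2 ^ w) : ∃ x, 1 ≤ x ∧
    pos L κ x = (i, if L.lb i = κ then L.pv i + 1 else L.tm i) ∧ x ≤ nAv L κ i + 1 := by
  induction i with
  | zero => exact ⟨1, le_rfl, rfl, by omega⟩
  | succ i ih =>
    obtain ⟨x, h1, h2, h3⟩ := reach_of_first (ih (by omega)) (L.tm i) (hsrt i (by omega)) le_rfl
      (Or.inr rfl)
    refine ⟨x + 1, by omega, ?_, ?_⟩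
    · rw [pos_succ L κ h1, h2]
      unfold nxp
      rw [if_neg (fun h => absurd h.1 (lt_irrefl _))]
      rfl
    · rw [nAv_succ]
      omega

theorem pos_reach {i : ℕ} (hi : i < 2 ^ w) {τ : ℕ} (h1 : L.pv i < τ) (h2 : τ ≤ L.tm i)
    (h3 : L.lb i = κ ∨ τ = L.tm i) : ∃ x, 1 ≤ x ∧ pos L κ x = (i, τ) ∧ x ≤ nAv L κ (i + 1) := by
  obtain ⟨x, h4, h5, h6⟩ := reach_of_first (pos_first hsrt hi) τ h1 h2 h3
  refine ⟨x, h4, h5, h6.trans ?_⟩
  rw [nAv_succ]
  split_ifs <;> omega

end

/-! ### the states -/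

/-- the table of the states up to position `x` -/
def tab (M : XM A) (L : Lst A) (a0 : A) (κ : ℕ) : ℕ → ℕ → A
  | 0 => fun _ => a0
  | x + 1 => Function.update (tab M L a0 κ x) (x + 1)
      (if L.lb (pos L κ (x + 1)).1 = κ then
        if 0 < Nat.findGreatest (fun y => 0 < y ∧ M.wad (tab M L a0 κ x y) =
            M.rad (tab M L a0 κ x x)) x then
          M.xs (tab M L a0 κ x x) (tab M L a0 κ x (Nat.findGreatest (fun y => 0 < y ∧
            M.wad (tab M L a0 κ x y) = M.rad (tab M L a0 κ x x)) x))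
            (pos L κ (Nat.findGreatest (fun y => 0 < y ∧
            M.wad (tab M L a0 κ x y) = M.rad (tab M L a0 κ x x)) x)).2
        else M.xs (tab M L a0 κ x x) a0 0
      else L.st (pos L κ (x + 1)).1)

/-- the state in position `x` -/
def sta (M : XM A) (L : Lst A) (a0 : A) (κ x : ℕ) : A := tab M L a0 κ x x

theorem tab_eq (M : XM A) (L : Lst A) (a0 : A) (κ : ℕ) {x y : ℕ} (hy : y ≤ x) :
    tab M L a0 κ x y = sta M L a0 κ y := by
  induction x, hy using Nat.le_induction with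
  | base => rfl
  | succ x hx ih =>
    rw [← ih]
    show Function.update _ _ _ _ = _
    rw [Function.update_of_ne (by omega)]

theorem sta_foreign (M : XM A) (L : Lst A) (a0 : A) (κ : ℕ) {x : ℕ}
    (h : L.lb (pos L κ (x + 1)).1 ≠ κ) : sta M L a0 κ (x + 1) = L.st (pos L κ (x + 1)).1 := by
  show Function.update _ _ _ _ = _
  rw [Function.update_self, if_neg h]

theorem sta_hit (M : XM A) (L : Lst A) (a0 : A) (κ : ℕ) {x y : ℕ}
    (h : L.lb (pos L κ (x + 1)).1 = κ) (h0 : 0 < y) (hy : y ≤ x)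
    (he : M.wad (sta M L a0 κ y) = M.rad (sta M L a0 κ x))
    (hl : ∀ z, y < z → z ≤ x → M.wad (sta M L a0 κ z) ≠ M.rad (sta M L a0 κ x)) :
    sta M L a0 κ (x + 1) = M.xs (sta M L a0 κ x) (sta M L a0 κ y) (pos L κ y).2 := by
  have hg : Nat.findGreatest (fun y => 0 < y ∧ M.wad (tab M L a0 κ x y) =
      M.rad (tab M L a0 κ x x)) x = y := by
    rw [Nat.findGreatest_eq_iff]
    refine ⟨hy, fun _ => ⟨h0, ?_⟩, ?_⟩
    · rw [tab_eq M L a0 κ hy, tab_eq M L a0 κ le_rfl]
      exact he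
    · intro z hz hzx hcon
      rw [tab_eq M L a0 κ hzx, tab_eq M L a0 κ le_rfl] at hcon
      exact hl z hz hzx hcon.2
  show Function.update _ _ _ _ = _
  rw [Function.update_self, if_pos h, hg, if_pos h0, tab_eq M L a0 κ hy, tab_eq M L a0 κ le_rfl]

theorem sta_miss (M : XM A) (L : Lst A) (a0 : A) (κ : ℕ) {x : ℕ}
    (h : L.lb (pos L κ (x + 1)).1 = κ)
    (hl : ∀ z, 0 < z → z ≤ x → M.wad (sta M L a0 κ z) ≠ M.rad (sta M L a0 κ x)) :
    sta M L a0 κ (x + 1) = M.xs (sta M L a0 κ x) a0 0 := by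
  have hg : Nat.findGreatest (fun y => 0 < y ∧ M.wad (tab M L a0 κ x y) =
      M.rad (tab M L a0 κ x x)) x = 0 := by
    rw [Nat.findGreatest_eq_zero_iff]
    intro z hz hzx hcon
    rw [tab_eq M L a0 κ hzx, tab_eq M L a0 κ le_rfl] at hcon
    exact hl z hz hzx hcon.2
  show Function.update _ _ _ _ = _
  rw [Function.update_self, if_pos h, hg, if_neg (lt_irrefl 0), tab_eq M L a0 κ le_rfl]

/-! ### sorting -/

instance (a t a' t' : ℕ) : Decidable (KLt a t a' t') := by
  unfold KLt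
  infer_instance

theorem klt_trans {a t a' t' a'' t'' : ℕ} (h : KLt a t a' t') (h' : KLt a' t' a'' t'') :
    KLt a t a'' t'' := by
  unfold KLt at *
  omega

theorem klt_irrefl (a t : ℕ) : ¬ KLt a t a t := by
  unfold KLt
  omega

/-- sorting the positions -/
theorem exists_sort (X : ℕ) (ad t : ℕ → ℕ) (ht : ∀ x y, 1 ≤ x → x < y → y ≤ X → t x < t y) :
    ∃ Rk Q : ℕ → ℕ, (∀ x, 1 ≤ x → x ≤ X → Rk x < X ∧ Q (Rk x) = x) ∧
      (∀ j < X, 1 ≤ Q j ∧ Q j ≤ X ∧ Rk (Q j) = j) ∧
      (∀ j < X, ∀ j' < X, j < j' → KLt (ad (Q j)) (t (Q j)) (ad (Q j')) (t (Q j'))) ∧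
      (∀ x, Rk x ≤ X) ∧ (∀ j, Q j ≤ X) := by
  classical
  set F : ℕ → Finset ℕ := fun x =>
    (Finset.Icc 1 X).filter fun y => KLt (ad y) (t y) (ad x) (t x) with hF
  have hlt : ∀ x ∈ Finset.Icc 1 X, ∀ y, KLt (ad x) (t x) (ad y) (t y) → (F x).card < (F y).card := by
    intro x hx y hxy
    refine Finset.card_lt_card ⟨fun z hz => ?_, fun hcon => ?_⟩
    · rw [hF, Finset.mem_filter] at hz ⊢
      exact ⟨hz.1, klt_trans hz.2 hxy⟩
    · have h1 : x ∈ F y := by
        rw [hF, Finset.mem_filter]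
        exact ⟨hx, hxy⟩
      have h2 := hcon h1
      rw [hF, Finset.mem_filter] at h2
      exact klt_irrefl _ _ h2.2
  have hne : ∀ x ∈ Finset.Icc 1 X, ∀ y ∈ Finset.Icc 1 X, x ≠ y →
      KLt (ad x) (t x) (ad y) (t y) ∨ KLt (ad y) (t y) (ad x) (t x) := by
    intro x hx y hy hxy
    rw [Finset.mem_Icc] at hx hy
    unfold KLt
    rcases Nat.lt_or_ge x y with h | h
    · have := ht x y hx.1 h hy.2
      omega
    · have := ht y x hy.1 (by omega) hx.2
      omega
  have hinj : ∀ x ∈ Finset.Icc 1 X, ∀ y ∈ Finset.Icc 1 X, (F x).card = (F y).card → x = y := by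
    intro x hx y hy hxy
    by_contra hcon
    rcases hne x hx y hy hcon with h | h
    · have := hlt x hx y h
      omega
    · have := hlt y hy x h
      omega
  have hcd : ∀ x ∈ Finset.Icc 1 X, (F x).card < X := by
    intro x hx
    have h1 : (F x).card < (Finset.Icc 1 X).card := by
      refine Finset.card_lt_card ⟨Finset.filter_subset _ _, fun hcon => ?_⟩
      have h2 := hcon hx
      rw [hF, Finset.mem_filter] at h2
      exact klt_irrefl _ _ h2.2
    simpa using h1
  have himg : (Finset.Icc 1 X).image (fun x => (F x).card) = Finset.range X := by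
    refine Finset.eq_of_subset_of_card_le ?_ ?_
    · intro j hj
      rw [Finset.mem_image] at hj
      obtain ⟨x, hx, rfl⟩ := hj
      exact Finset.mem_range.2 (hcd x hx)
    · rw [Finset.card_image_of_injOn (fun x hx y hy h => hinj x hx y hy h)]
      simp
  have hQ : ∀ j, ∃ q, (j < X → q ∈ Finset.Icc 1 X ∧ (F q).card = j) ∧ q ≤ X := by
    intro j
    by_cases hj : j < X
    · have h1 : j ∈ (Finset.Icc 1 X).image (fun x => (F x).card) := by
        rw [himg]
        exact Finset.mem_range.2 hj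
      rw [Finset.mem_image] at h1
      obtain ⟨x, hx, h2⟩ := h1
      exact ⟨x, fun _ => ⟨hx, h2⟩, (Finset.mem_Icc.1 hx).2⟩
    · exact ⟨0, fun h => absurd h hj, Nat.zero_le _⟩
  choose Q hQ1 hQ2 using hQ
  refine ⟨fun x => (F x).card, Q, ?_, ?_, ?_, ?_, hQ2⟩
  · intro x h1 h2
    have hx : x ∈ Finset.Icc 1 X := Finset.mem_Icc.2 ⟨h1, h2⟩
    refine ⟨hcd x hx, ?_⟩
    obtain ⟨h3, h4⟩ := hQ1 _ (hcd x hx)
    exact hinj _ h3 _ hx h4
  · intro j hj
    obtain ⟨h1, h2⟩ := hQ1 j hj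
    exact ⟨(Finset.mem_Icc.1 h1).1, (Finset.mem_Icc.1 h1).2, h2⟩
  · intro j hj j' hj' hjj
    obtain ⟨h1, h2⟩ := hQ1 j hj
    obtain ⟨h3, h4⟩ := hQ1 j' hj'
    have h5 : Q j ≠ Q j' := by
      intro hcon
      rw [hcon, h4] at h2
      omega
    rcases hne _ h1 _ h3 h5 with h | h
    · exact h
    · have := hlt _ h3 _ h
      omega
  · intro x
    refine (Finset.card_filter_le _ _).trans ?_
    simp

/-- the insertion point -/
theorem exists_ins {X : ℕ} {ad t Q : ℕ → ℕ}
    (h : ∀ j < X, ∀ j' < X, j < j' → KLt (ad (Q j)) (t (Q j)) (ad (Q j')) (t (Q j'))) (a τ : ℕ) :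
    ∃ J ≤ X, ∀ j < X, (KLt (ad (Q j)) (t (Q j)) a τ ↔ j < J) := by
  by_cases hex : ∃ j, j < X ∧ ¬ KLt (ad (Q j)) (t (Q j)) a τ
  · classical
    have h1 := Nat.find_spec hex
    refine ⟨Nat.find hex, h1.1.le, fun j hj => ⟨fun h2 => ?_, fun h2 => ?_⟩⟩
    · by_contra h3
      rcases Nat.lt_or_ge (Nat.find hex) j with h4 | h4
      · exact h1.2 (klt_trans (h _ h1.1 _ hj h4) h2)
      · rw [show j = Nat.find hex by omega] at h2
        exact h1.2 h2
    · by_contra h3
      exact Nat.find_min hex h2 ⟨hj, h3⟩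
  · refine ⟨X, le_rfl, fun j hj => ⟨fun _ => hj, fun _ => ?_⟩⟩
    by_contra h3
    exact hex ⟨j, hj, h3⟩

end TrcEx

open TrcEx

variable {M : XM A} {L : Lst A} {κ w lim : ℕ}

/-- **The transcript of the simulation**, up to the available step `τ` of segment `i` -/
theorem exists_trc (M : XM A) (a0 : A) (hsrt : ∀ i < 2 ^ w, L.pv i < L.tm i) {i τ B B' : ℕ}
    (hi : i < 2 ^ w) (hf : ∀ j ≤ i, L.fin j = false) (h1 : L.pv i < τ) (h2 : τ ≤ L.tm i)
    (h3 : L.lb i = κ ∨ τ = L.tm i) (hB : nAv L κ (i + 1) < B) (hB' : L.tm i < B') :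
    ∃ T : Trc A, T.OK M L a0 κ w ∧ T.I T.x = i ∧ T.t T.x = τ ∧ T.Bd w B B' := by
  obtain ⟨X, hX1, hX, hXn⟩ := pos_reach hsrt hi h1 h2 h3
  have hI : ∀ x, 1 ≤ x → x ≤ X → (pos L κ x).1 ≤ i := by
    intro x h4 h5
    have := pos_mono L κ h4 h5
    rwa [hX] at this
  have hw : ∀ x, 1 ≤ x → x ≤ X → (pos L κ x).1 < 2 ^ w :=
    fun x h4 h5 => lt_of_le_of_lt (hI x h4 h5) hi
  have htl : ∀ x y, x < y → y ≤ X → (pos L κ x).2 < (pos L κ y).2 :=
    fun x y h4 h5 => pos_lt_of hsrt h4 (hw y (by omega) h5)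
  have htX : ∀ x ≤ X, (pos L κ x).2 ≤ τ := by
    intro x hx
    rcases Nat.lt_or_ge x X with h4 | h4
    · have := htl x X h4 le_rfl
      rw [hX] at this
      exact this.le
    · rw [show x = X by omega, hX]
  set W : ℕ → A := sta M L a0 κ with hW
  set t : ℕ → ℕ := fun x => (pos L κ x).2 with ht
  set ad : ℕ → ℕ := fun x => M.wad (W x) with had
  obtain ⟨Rk, Q, hR1, hQ1, hQs, hR2, hQ2⟩ := exists_sort X ad t (fun x y _ h5 h6 => htl x y h5 h6)
  have hJ := fun x => exists_ins hQs (M.rad (W (x - 1))) (t x)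
  choose J hJ1 hJ2 using hJ
  set T : Trc A := ⟨fun x => if x ≤ X then (pos L κ x).1 else 0,
    fun x => if x ≤ X then t x else 0, W, fun x => if 1 ≤ x ∧ x ≤ X then Rk x else 0, Q, J, X⟩ with hT
  have tI : ∀ x ≤ X, T.I x = (pos L κ x).1 := fun x hx => if_pos hx
  have tt : ∀ x ≤ X, T.t x = t x := fun x hx => if_pos hx
  refine ⟨T, ?_, ?_, ?_, ?_⟩
  · intro x
    refine ⟨hX1, ?_, rfl, ?_, ?_⟩
    · rw [tt 0 (Nat.zero_le _)]
      rfl
    · intro hx1 hxX
      change x ≤ X at hxX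
      have e1 : T.I x = (pos L κ x).1 := tI x hxX
      have e2 : T.I (x - 1) = (pos L κ (x - 1)).1 := tI (x - 1) (by omega)
      have e3 : T.t x = (pos L κ x).2 := tt x hxX
      have e4 : T.t (x - 1) = (pos L κ (x - 1)).2 := tt (x - 1) (by omega)
      refine ⟨⟨?_, ?_, ?_⟩, ?_, ?_, ?_⟩
      · rw [e1]
        exact hw x hx1 hxX
      · rw [e1]
        exact hf _ (hI x hx1 hxX)
      · rw [e1, e2, e3, e4]
        rcases Nat.lt_or_ge x 2 with h4 | h4
        · obtain rfl : x = 1 := by omega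
          refine Or.inr ⟨Or.inl ⟨rfl, rfl⟩, fun h5 => ?_, fun h5 => ?_⟩
          · change (if L.lb 0 = κ then 1 else L.tm 0) = 0 + 1
            exact if_pos h5
          · change (if L.lb 0 = κ then 1 else L.tm 0) = L.tm 0
            exact if_neg h5
        · rcases pos_ok hsrt h4 (hw x hx1 hxX) with h5 | h5
          · exact Or.inl ⟨h4, h5⟩
          · exact Or.inr ⟨Or.inr ⟨h4, h5.1⟩, h5.2⟩
      · obtain ⟨y, rfl⟩ : ∃ y, x = y + 1 := ⟨x - 1, by omega⟩
        simp only [Nat.add_sub_cancel] at *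
        refine ⟨fun h5 => ?_, fun h5 => ?_⟩
        · rw [e1] at h5 ⊢
          exact sta_foreign M L a0 κ h5
        · rw [e1] at h5
          have hj1 : J (y + 1) ≤ X := hJ1 (y + 1)
          have hj2 := hJ2 (y + 1)
          simp only [Nat.add_sub_cancel] at hj2
          have tQ : ∀ j < X, T.t (Q j) = t (Q j) := fun j hj => tt _ (hQ1 j hj).2.1
          refine ⟨hj1, ?_, ?_, ?_, ?_⟩
          · intro h6
            change J (y + 1) < X at h6
            change ¬ KLt (M.wad (W (Q (J (y + 1))))) (T.t (Q (J (y + 1)))) (M.rad (W (y + 1 - 1)))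
              (T.t (y + 1))
            rw [tQ _ h6, e3]
            intro h7
            exact absurd ((hj2 _ h6).1 h7) (lt_irrefl _)
          · intro h6
            change 0 < J (y + 1) at h6
            change KLt (M.wad (W (Q (J (y + 1) - 1)))) (T.t (Q (J (y + 1) - 1)))
              (M.rad (W (y + 1 - 1))) (T.t (y + 1))
            rw [tQ _ (by omega), e3]
            exact (hj2 _ (by omega)).2 (by omega)
          · rintro ⟨h6, h7⟩
            change 0 < J (y + 1) at h6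
            change M.wad (W (Q (J (y + 1) - 1))) = M.rad (W (y + 1 - 1)) at h7
            change W (y + 1) = M.xs (W (y + 1 - 1)) (W (Q (J (y + 1) - 1))) (T.t (Q (J (y + 1) - 1)))
            simp only [Nat.add_sub_cancel] at h7 ⊢
            rw [tQ _ (by omega)]
            obtain ⟨hq1, hq2, hq3⟩ := hQ1 (J (y + 1) - 1) (by omega)
            set q := Q (J (y + 1) - 1) with hq
            have h8 : KLt (ad q) (t q) (M.rad (W y)) (t (y + 1)) := (hj2 _ (by omega)).2 (by omega)
            have h9 : t q < t (y + 1) := by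
              have : ad q = M.rad (W y) := h7
              unfold KLt at h8
              omega
            have h10 : q ≤ y := by
              by_contra hcon
              rcases Nat.lt_or_ge (y + 1) q with h11 | h11
              · have : t (y + 1) < t q := htl _ _ h11 hq2
                omega
              · rw [show q = y + 1 by omega] at h9
                omega
            refine sta_hit M L a0 κ h5 hq1 h10 h7 fun z hz1 hz2 hcon => ?_
            have hzX : z ≤ X := by omega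
            obtain ⟨hz3, hz4⟩ := hR1 z (by omega) hzX
            have h11 : KLt (ad (Q (Rk z))) (t (Q (Rk z))) (M.rad (W y)) (t (y + 1)) := by
              rw [hz4]
              exact Or.inr ⟨hcon, htl _ _ (by omega) hxX⟩
            have h12 : Rk z < J (y + 1) := (hj2 _ hz3).1 h11
            have h13 : KLt (ad q) (t q) (ad z) (t z) :=
              Or.inr ⟨h7.trans hcon.symm, htl _ _ hz1 hzX⟩
            rcases Nat.lt_or_ge (Rk z) (J (y + 1) - 1) with h14 | h14
            · have h15 := hQs _ hz3 _ (show J (y + 1) - 1 < X by omega) h14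
              rw [hz4] at h15
              exact klt_irrefl _ _ (klt_trans h13 h15)
            · have h15 : Rk z = J (y + 1) - 1 := by omega
              rw [← h15, hz4] at hq
              omega
          · intro h6
            change W (y + 1) = M.xs (W (y + 1 - 1)) a0 0
            simp only [Nat.add_sub_cancel]
            refine sta_miss M L a0 κ h5 fun z hz1 hz2 hcon => h6 ?_
            have hzX : z ≤ X := by omega
            obtain ⟨hz3, hz4⟩ := hR1 z (by omega) hzX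
            have h11 : KLt (ad (Q (Rk z))) (t (Q (Rk z))) (M.rad (W y)) (t (y + 1)) := by
              rw [hz4]
              exact Or.inr ⟨hcon, htl _ _ (by omega) hxX⟩
            have h12 : Rk z < J (y + 1) := (hj2 _ hz3).1 h11
            refine ⟨show 0 < J (y + 1) by omega, ?_⟩
            change M.wad (W (Q (J (y + 1) - 1))) = M.rad (W (y + 1 - 1))
            simp only [Nat.add_sub_cancel]
            have h13 : KLt (ad (Q (J (y + 1) - 1))) (t (Q (J (y + 1) - 1))) (M.rad (W y))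
              (t (y + 1)) := (hj2 _ (by omega)).2 (by omega)
            rcases Nat.lt_or_ge (Rk z) (J (y + 1) - 1) with h14 | h14
            · have h15 := hQs _ hz3 _ (show J (y + 1) - 1 < X by omega) h14
              rw [hz4] at h15
              have h16 : ad z = M.rad (W y) := hcon
              change ad (Q (J (y + 1) - 1)) = _
              unfold KLt at h13 h15
              omega
            · rw [show J (y + 1) - 1 = Rk z by omega, hz4]
              exact hcon
      · change (if 1 ≤ x ∧ x ≤ X then Rk x else 0) < X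
        rw [if_pos ⟨hx1, hxX⟩]
        exact (hR1 x hx1 hxX).1
      · change Q (if 1 ≤ x ∧ x ≤ X then Rk x else 0) = x
        rw [if_pos ⟨hx1, hxX⟩]
        exact (hR1 x hx1 hxX).2
    · intro hx
      change x < X at hx
      obtain ⟨h4, h5, h6⟩ := hQ1 x hx
      refine ⟨h4, h5, fun h7 => ?_⟩
      change x + 1 < X at h7
      change KLt (M.wad (W (Q x))) (T.t (Q x)) (M.wad (W (Q (x + 1)))) (T.t (Q (x + 1)))
      rw [tt _ h5, tt _ (hQ1 _ h7).2.1]
      exact hQs x hx (x + 1) h7 (Nat.lt_succ_self x)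
  · change T.I X = i
    rw [tI X le_rfl, hX]
  · change T.t X = τ
    rw [tt X le_rfl]
    show (pos L κ X).2 = τ
    rw [hX]
  · have hXB : X < B := lt_of_le_of_lt hXn hB
    refine ⟨fun x => ?_, fun x => ?_, fun x => ?_, fun x => ?_, fun x => ?_, hXB⟩
    · change (if x ≤ X then (pos L κ x).1 else 0) < 2 ^ w
      split_ifs with h4
      · rcases Nat.eq_zero_or_pos x with rfl | h5
        · exact Nat.pos_of_ne_zero (by positivity)
        · exact hw x h5 h4
      · exact Nat.pos_of_ne_zero (by positivity)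
    · change (if x ≤ X then t x else 0) < B'
      split_ifs with h4
      · exact lt_of_le_of_lt ((htX x h4).trans h2) hB'
      · omega
    · change (if 1 ≤ x ∧ x ≤ X then Rk x else 0) < B
      split_ifs with h4
      · exact (hR1 x h4.1 h4.2).1.trans hXB
      · omega
    · exact lt_of_le_of_lt (hQ2 x) hXB
    · exact lt_of_le_of_lt (hJ1 x) hXB

/-- the number of available steps of a list -/
theorem LStat.nAv_le (hs : LStat L w lim) {i : ℕ} (hi : i < 2 ^ w) (hf : L.fin i = false) :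
    nAv L 1 (i + 1) < lim := by
  suffices h : ∀ j ≤ i, nAv L 1 (j + 1) + 1 ≤ L.off (j + 1) by
    have h1 := h i le_rfl
    have h2 := (hs.run i hi hf).2.2
    omega
  intro j
  induction j with
  | zero =>
    intro _
    have h0 := hs.nfin (Nat.zero_le i) hi hf
    obtain ⟨_, h1, _⟩ := hs.run 0 (Nat.pos_of_ne_zero (by positivity)) h0
    rw [nAv_succ, h1, hs.off0]
    have h2 : nAv L 1 0 = 0 := rfl
    rw [h2]
    split_ifs <;> omega
  | succ j ih =>
    intro hj
    have h0 := hs.nfin hj hi hf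
    obtain ⟨_, h1, _⟩ := hs.run (j + 1) (by omega) h0
    have h2 := ih (by omega)
    rw [nAv_succ, h1]
    split_ifs <;> omega

end Pool.Agent.NUM
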