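import Pool.Agent.NUM.RTraceC
import Pool.Agent.NUM.RTraceS

/-!
# Transcripts: bad lists fail, accepting runs have transcripts
-/

set_option autoImplicit false

namespace Pool.Agent.NUM

variable {A : Type} {M : XM A} {X : ℕ → A} {sc : ℕ → ℕ} {N : ℕ} {L L' : Lst A} {κ w lim : ℕ}

/-- bad lists fail -/
theorem Bad1.exists_fail (hrun : XRun M X sc) (hfl : ∀ m ≤ N, (M.fl (X m) = true ↔ m = N))
    (h : Bad1 X sc N L w lim) {B' : ℕ} (hB' : ∀ i < 2 ^ w, L.tm i < B') :
    ∃ T : Trc A, T.OK M L (X 0) 1 w ∧ T.Bd w lim B' ∧ T.Fail1 M L 1 := by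
  obtain ⟨i, hi, hf, hl, htr, hclo, hbad⟩ := h.bad
  have hst := h.stat
  have hpv : L.pv i ≤ N := by
    rcases Nat.eq_zero_or_pos i with h0 | h0
    · subst h0
      exact Nat.zero_le _
    · obtain ⟨j, rfl⟩ : ∃ j, i = j + 1 := ⟨i - 1, by omega⟩
      exact (htr j (by omega)).1
  have hsrt := hst.srt i hi
  have hnf : ∀ j ≤ i, L.fin j = false := fun j hj => hst.nfin hj hi hf
  have hnav := hst.nAv_le hi hf
  rcases Nat.lt_or_ge N (L.tm i) with hN | hN
  · obtain ⟨T, hOK, hI, ht, hBd⟩ := exists_trc M (X 0) hst.srt (κ := 1) (τ := N + 1) hi hnf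
      (by omega) (by omega) (Or.inl hl) hnav (hB' i hi)
    refine ⟨T, hOK, hBd, ?_⟩
    have hx : 1 ≤ T.x := (hOK 0).1
    have hp := Trc.OK.pos hOK hst.srt T.x hx le_rfl
    rw [hI] at hp
    have ht' := hp.2.2.2.2.2 hl
    have hs := Trc.OK.sound hrun hst.srt hOK (τ := N)
      (fun j hj hfj hlj htj => by
        have hji : j < i := by
          by_contra hcon
          rcases Nat.eq_or_lt_of_le (show i ≤ j by omega) with h1 | h1
          · subst h1
            exact hlj hl
          · have := hst.tm_lt h1 hj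
            omega
        exact (htr j hji).2)
      (by
        rw [← cloTo_iff]
        rwa [Nat.min_eq_right (by omega)] at hclo)
      (T.x - 1) (by omega) (by omega)
    refine ⟨by rw [hI]; exact hl, Or.inl ?_⟩
    rw [hs, show T.t (T.x - 1) = N by omega]
    exact (hfl N le_rfl).2 rfl
  · obtain ⟨T, hOK, hI, ht, hBd⟩ := exists_trc M (X 0) hst.srt (κ := 1) (τ := L.tm i) hi hnf
      (by omega) le_rfl (Or.inl hl) hnav (hB' i hi)
    refine ⟨T, hOK, hBd, ?_⟩
    have hs := Trc.OK.sound hrun hst.srt hOK (τ := L.tm i)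
      (fun j hj hfj hlj htj => by
        have hji : j < i := by
          by_contra hcon
          rcases Nat.eq_or_lt_of_le (show i ≤ j by omega) with h1 | h1
          · subst h1
            exact hlj hl
          · have := hst.tm_lt h1 hj
            omega
        exact (htr j hji).2)
      (by
        rw [← cloTo_iff]
        rwa [Nat.min_eq_left (by omega)] at hclo)
      T.x le_rfl (by omega)
    refine ⟨by rw [hI]; exact hl, Or.inr ⟨by rw [ht, hI], ?_⟩⟩
    rw [hs, ht, hI]
    intro hcon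
    exact hbad ⟨hN, hcon.symm⟩

/-- accepting runs have transcripts -/
theorem exists_run (hrun : XRun M X sc) (hfl : ∀ m ≤ N, (M.fl (X m) = true ↔ m = N)) (hN : 0 < N)
    (hacc : M.acc (X N) = true) (hw : 1 ≤ w) :
    ∃ (L : Lst A) (T : Trc A), T.OK M L (X 0) 1 w ∧ (∀ x, T.Run M L 1 x) ∧
      T.Bd w (N + 2) (N + 2) ∧ ∀ k, L.tm k ≤ N + k ∧ L.lb k ≤ 1 ∧ L.off k ≤ 1 := by
  have hpos : 0 < 2 ^ w := Nat.pos_of_ne_zero (by positivity)
  let L : Lst A := ⟨fun k => N + k, fun _ => X N, fun k => if k = 0 then 1 else 0, fun _ => 1,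
    fun k => decide (k ≠ 0)⟩
  have hlb : ∀ k, L.lb k = if k = 0 then 1 else 0 := fun _ => rfl
  have hfin : ∀ k, L.fin k = decide (k ≠ 0) := fun _ => rfl
  have htm : ∀ k, L.tm k = N + k := fun _ => rfl
  have hf0 : ∀ k, L.fin k = false → k = 0 := fun k hk => by
    rw [hfin] at hk
    simpa using hk
  have hsrt : ∀ i < 2 ^ w, L.pv i < L.tm i := by
    intro i _
    rcases i with _ | i
    · exact hN
    · show N + i < N + (i + 1)
      omega
  have hnav : nAv L 1 (0 + 1) < N + 2 := by
    unfold nAv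
    rw [Finset.sum_range_one, hlb, htm]
    simp only [if_true]
    omega
  obtain ⟨T, hOK, hI, ht, hBd⟩ := exists_trc M (X 0) hsrt (κ := 1) (i := 0) (τ := N)
    (B := N + 2) (B' := N + 2) hpos
    (fun j hj => by rw [hfin]; simp; omega) (show (0 : ℕ) < N from hN) (le_of_eq (by rw [htm]; rfl))
    (Or.inl rfl) hnav (by rw [htm]; omega)
  refine ⟨L, T, hOK, ?_, hBd, fun k => ⟨le_of_eq (htm k), ?_, le_rfl⟩⟩
  · have hpx := Trc.OK.pos hOK hsrt
    have h00 : T.t 0 = 0 := (hOK 0).2.1
    have htx : ∀ x ≤ T.x, T.t x = x := by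
      intro x
      induction x with
      | zero => exact fun _ => h00
      | succ x ih =>
        intro hx
        obtain ⟨-, h2, -, -, -, h6⟩ := hpx (x + 1) (by omega) hx
        have h7 := hf0 _ h2
        have h8 := h6 (by rw [h7]; rfl)
        rw [h8, Nat.add_sub_cancel, ih (by omega)]
    have hxN : T.x = N := by
      rw [← htx T.x le_rfl]
      exact ht
    have hs := Trc.OK.sound hrun hsrt hOK (τ := N)
      (fun j hj hfj hlj _ => absurd (show L.lb j = 1 by rw [hf0 j hfj]; rfl) hlj)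
      (fun j hj hfj hlj u h1 h2 h3 h4 => by
        have hj0 := hf0 j hfj
        subst hj0
        have h5 := hrun.le u
        exact ⟨0, le_rfl, h4, by rw [htm]; omega, Or.inr rfl⟩)
    intro x
    refine ⟨rfl, hI, ?_, ?_, fun h1 h2 => ?_⟩
    · rw [hs T.x le_rfl (by omega), ht]
      exact (hfl N le_rfl).2 rfl
    · rw [hs T.x le_rfl (by omega), ht]
      exact hacc
    · have h3 := htx x (by omega)
      rw [hs x (by omega) (by omega), h3]
      cases hc : M.fl (X x) with
      | false => rfl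
      | true =>
        have := (hfl x (by omega)).1 hc
        omega
  · rw [hlb]
    split_ifs <;> omega

end Pool.Agent.NUM
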