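import Pool.Agent.NUM.Frag

/-!
# Regions of a computation graph of small treewidth

Times are `0, …, N - 1`; the step from `t` to `t + 1` uses the times `t` and `rc t` (if `rc t ≤ t`).
`TreeDec N rc k`: a tree decomposition of width `k` (bags of size at most `k`) of the hypergraph with
the edges `{t, t + 1, rc t}`.
-/

set_option autoImplicit false

namespace Pool.Agent.NUM.Region

open Finset

/-- tree decompositions with bags of size at most `k`: the nodes are `0, …, m - 1`, the parent of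
`i > 0` is `par i < i` -/
structure TreeDec (N : ℕ) (rc : ℕ → ℕ) (k : ℕ) where
  m : ℕ
  par : ℕ → ℕ
  bag : ℕ → Finset ℕ
  pos : 0 < m
  par_lt : ∀ i, 0 < i → i < m → par i < i
  card : ∀ i < m, (bag i).card ≤ k
  /-- every time is in a bag -/
  vert : ∀ t < N, ∃ i < m, t ∈ bag i
  /-- every step is in a bag -/
  cover : ∀ t, t + 1 < N → ∃ i < m, t ∈ bag i ∧ t + 1 ∈ bag i ∧ (rc t ≤ t → rc t ∈ bag i)
  /-- the nodes whose bags contain a given time form a subtree: only one of them has no parent with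
  the same property -/
  conn : ∀ x i j, i < m → j < m → x ∈ bag i → x ∈ bag j → (i = 0 ∨ x ∉ bag (par i)) →
    (j = 0 ∨ x ∉ bag (par j)) → i = j

/-- a node which contains the step into `u` -/
theorem TreeDec.exists_home {N : ℕ} {rc : ℕ → ℕ} {k : ℕ} (D : TreeDec N rc k) :
    ∃ home : ℕ → ℕ, ∀ u < N, home u < D.m ∧ u ∈ D.bag (home u) ∧ ∀ t, u = t + 1 →
      t ∈ D.bag (home u) ∧ (rc t ≤ t → rc t ∈ D.bag (home u)) := by
  have h1 : ∀ u, ∃ i, u < N → i < D.m ∧ u ∈ D.bag i ∧ ∀ t, u = t + 1 →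
      t ∈ D.bag i ∧ (rc t ≤ t → rc t ∈ D.bag i) := by
    intro u
    by_cases hu : u < N
    · rcases Nat.eq_zero_or_pos u with h0 | h0
      · obtain ⟨i, hi, hi'⟩ := D.vert u hu
        exact ⟨i, fun _ => ⟨hi, hi', fun t ht => by omega⟩⟩
      · obtain ⟨t, rfl⟩ : ∃ t, u = t + 1 := ⟨u - 1, by omega⟩
        obtain ⟨i, hi, h2, h3, h4⟩ := D.cover t hu
        refine ⟨i, fun _ => ⟨hi, h3, fun t' ht' => ?_⟩⟩
        have : t' = t := by omega
        subst this
        exact ⟨h2, h4⟩
    · exact ⟨0, fun h => absurd h hu⟩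
  choose home hhome using h1
  exact ⟨home, hhome⟩

/-- **Region lemma.** -/
theorem TreeDec.exists_regions {N : ℕ} {rc : ℕ → ℕ} {k : ℕ} (D : TreeDec N rc k) (l : ℕ) :
    ∃ (r : ℕ) (reg : ℕ → ℕ) (b₁ b₂ : ℕ → Finset ℕ), r * l ≤ 4 * N + l ∧
      (∀ R, (b₁ R).card ≤ k + 2 ∧ (b₂ R).card ≤ k + 2) ∧
      (∀ R, b₁ R ⊆ range N ∧ b₂ R ⊆ range N) ∧
      (∀ R, 0 < N → 0 ∈ b₁ R ∧ 0 ∈ b₂ R ∧ N - 1 ∈ b₁ R ∧ N - 1 ∈ b₂ R) ∧
      (∀ u < N, reg u < r) ∧
      (∀ R, ((range N).filter fun u => reg u = R).card ≤ l + k) ∧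
      (∀ u, u + 1 < N → (u ∈ b₁ (reg (u + 1)) ∨ u ∈ b₂ (reg (u + 1)) ∨ reg u = reg (u + 1)) ∧
        (rc u ≤ u → rc u ∈ b₁ (reg (u + 1)) ∨ rc u ∈ b₂ (reg (u + 1)) ∨
          reg (rc u) = reg (u + 1))) ∧
      (∀ R v, (v ∈ b₁ R ∨ v ∈ b₂ R) → v ∈ b₁ (reg v) ∨ v ∈ b₂ (reg v)) := by
  classical
  obtain ⟨home, hhome⟩ := D.exists_home
  -- weights
  obtain ⟨w, hw⟩ : ∃ w : ℕ → ℕ, w = fun i => ((range N).filter fun u => home u = i).card :=
    ⟨_, rfl⟩
  have hwk : ∀ i < D.m, w i ≤ k := by
    intro i hi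
    rw [hw]
    refine (card_le_card ?_).trans (D.card i hi)
    intro u hu
    simp only [mem_filter, mem_range] at hu
    rw [← hu.2]
    exact (hhome u hu.1).2.1
  have hsum : ∀ S : Finset ℕ, ∑ i ∈ S, w i = ((range N).filter fun u => home u ∈ S).card := by
    intro S
    rw [hw]
    have := card_eq_sum_card_fiberwise (f := home) (s := (range N).filter fun u => home u ∈ S)
      (t := S) (fun u hu => (mem_filter.1 hu).2)
    rw [this]
    refine sum_congr rfl fun i hi => ?_
    refine congrArg Finset.card ?_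
    ext u
    simp only [mem_filter]
    constructor
    · exact fun h => ⟨⟨h.1, by rw [h.2]; exact hi⟩, h.2⟩
    · exact fun h => ⟨h.1.1, h.2⟩
  have hN : ∑ i ∈ range D.m, w i ≤ N := by
    rw [hsum]
    exact (card_le_card (filter_subset _ _)).trans (card_range N).le
  obtain ⟨r, cl, p, q, h1, h2, h3, h4, h5⟩ := exists_fragments (l := l) D.pos D.par_lt hwk hN
  -- the bags
  let ex : Finset ℕ → Finset ℕ := fun b => (insert 0 (insert (N - 1) b)) ∩ range N
  have hexcard : ∀ b : Finset ℕ, b.card ≤ k → (ex b).card ≤ k + 2 := by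
    intro b hb
    refine (card_le_card inter_subset_left).trans ((card_insert_le _ _).trans ?_)
    have := card_insert_le (N - 1) b
    omega
  have hexmem : ∀ (b : Finset ℕ) (v : ℕ), v < N → (v ∈ ex b ↔ v = 0 ∨ v = N - 1 ∨ v ∈ b) := by
    intro b v hv
    simp [ex, hv]
  -- the relation between two nodes which contain a given time
  let Q : ℕ → ℕ → Prop := fun A v => v ∈ D.bag (p A) ∨ v ∈ D.bag (q A)
  have hstep : ∀ i v, 0 < i → i < D.m → v ∈ D.bag i → v ∈ D.bag (D.par i) →
      cl i = cl (D.par i) ∨ (Q (cl i) v ∧ Q (cl (D.par i)) v) := by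
    intro i v hi him hv hv'
    have key : ∀ A, ((i = p A ∨ i = q A) ∨ (D.par i = p A ∨ D.par i = q A)) → Q A v := by
      rintro A ((h | h) | (h | h))
      · left; rw [← h]; exact hv
      · right; rw [← h]; exact hv
      · left; rw [← h]; exact hv'
      · right; rw [← h]; exact hv'
    rcases h5 i hi him with h | ⟨h, h'⟩
    · exact Or.inl h
    · exact Or.inr ⟨key _ h, key _ h'⟩
  have hclimb : ∀ x < D.m, ∀ v, v ∈ D.bag x → ∃ top < D.m, v ∈ D.bag top ∧
      (top = 0 ∨ v ∉ D.bag (D.par top)) ∧ (cl x = cl top ∨ (Q (cl x) v ∧ Q (cl top) v)) := by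
    intro x
    induction x using Nat.strong_induction_on with
    | _ x ih =>
      intro hx v hv
      by_cases hx0 : x = 0 ∨ v ∉ D.bag (D.par x)
      · exact ⟨x, hx, hv, hx0, Or.inl rfl⟩
      · rw [not_or, not_not] at hx0
        have hpos : 0 < x := Nat.pos_of_ne_zero hx0.1
        have hlt := D.par_lt x hpos hx
        obtain ⟨top, ht1, ht2, ht3, ht4⟩ := ih (D.par x) hlt (hlt.trans hx) v hx0.2
        refine ⟨top, ht1, ht2, ht3, ?_⟩
        rcases hstep x v hpos hx hv hx0.2 with h6 | ⟨h6, h7⟩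
        · rw [h6]; exact ht4
        · rcases ht4 with h8 | ⟨h8, h9⟩
          · right
            rw [← h8]
            exact ⟨h6, h7⟩
          · exact Or.inr ⟨h6, h9⟩
  have hrel : ∀ x < D.m, ∀ y < D.m, ∀ v, v ∈ D.bag x → v ∈ D.bag y →
      cl x = cl y ∨ Q (cl x) v := by
    intro x hx y hy v hvx hvy
    obtain ⟨s, hs1, hs2, hs3, hs4⟩ := hclimb x hx v hvx
    obtain ⟨t, ht1, ht2, ht3, ht4⟩ := hclimb y hy v hvy
    have hst : s = t := D.conn v s t hs1 ht1 hs2 ht2 hs3 ht3
    subst hst
    rcases hs4 with h6 | ⟨h6, h7⟩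
    · rcases ht4 with h8 | ⟨h8, h9⟩
      · left; rw [h6, h8]
      · right; rw [h6]; exact h9
    · exact Or.inr h6
  have hQ : ∀ A v, v < N → Q A v → v ∈ ex (D.bag (p A)) ∨ v ∈ ex (D.bag (q A)) := by
    intro A v hv h
    exact h.imp (fun h => (hexmem _ v hv).2 (Or.inr (Or.inr h)))
      (fun h => (hexmem _ v hv).2 (Or.inr (Or.inr h)))
  refine ⟨r, fun u => cl (home u), fun R => if R < r then ex (D.bag (p R)) else ex ∅,
    fun R => if R < r then ex (D.bag (q R)) else ex ∅, h1, ?_, ?_, ?_, ?_, ?_, ?_, ?_⟩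
  · intro R
    by_cases hR : R < r
    · simp only [hR, if_true]
      exact ⟨hexcard _ (D.card _ (h4 R hR).1.1), hexcard _ (D.card _ (h4 R hR).2.1)⟩
    · simp only [hR, if_false]
      exact ⟨hexcard _ (by simp), hexcard _ (by simp)⟩
  · intro R
    by_cases hR : R < r
    · simp only [hR, if_true]
      exact ⟨inter_subset_right, inter_subset_right⟩
    · simp only [hR, if_false]
      exact ⟨inter_subset_right, inter_subset_right⟩
  · intro R hN0
    have h6 : ∀ b : Finset ℕ, 0 ∈ ex b ∧ N - 1 ∈ ex b := fun b =>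
      ⟨(hexmem b 0 hN0).2 (Or.inl rfl), (hexmem b (N - 1) (by omega)).2 (Or.inr (Or.inl rfl))⟩
    by_cases hR : R < r
    · simp only [hR, if_true]
      exact ⟨(h6 _).1, (h6 _).1, (h6 _).2, (h6 _).2⟩
    · simp only [hR, if_false]
      exact ⟨(h6 _).1, (h6 _).1, (h6 _).2, (h6 _).2⟩
  · intro u hu
    exact h2 _ (hhome u hu).1
  · intro R
    by_cases hR : R < r
    · refine le_trans ?_ (h3 R hR)
      rw [hsum]
      refine card_le_card ?_
      intro u hu
      simp only [mem_filter, mem_range] at hu ⊢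
      exact ⟨hu.1, (hhome u hu.1).1, hu.2⟩
    · have h6 : (range N).filter (fun u => cl (home u) = R) = ∅ := by
        ext u
        simp only [mem_filter, mem_range, notMem_empty, iff_false, not_and]
        intro hu h7
        have := h2 _ (hhome u hu).1
        omega
      rw [h6]
      simp
  · intro u hu
    obtain ⟨hx, -, hx'⟩ := hhome (u + 1) hu
    obtain ⟨hx1, hx2⟩ := hx' u rfl
    have hR : cl (home (u + 1)) < r := h2 _ hx
    simp only [hR, if_true]
    have key : ∀ v < N, v ∈ D.bag (home (u + 1)) →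
        v ∈ ex (D.bag (p (cl (home (u + 1))))) ∨ v ∈ ex (D.bag (q (cl (home (u + 1))))) ∨
        cl (home v) = cl (home (u + 1)) := by
      intro v hv hvx
      obtain ⟨hy, hy', -⟩ := hhome v hv
      rcases hrel _ hx _ hy v hvx hy' with h6 | h6
      · exact Or.inr (Or.inr h6.symm)
      · rcases hQ _ v hv h6 with h7 | h7
        · exact Or.inl h7
        · exact Or.inr (Or.inl h7)
    exact ⟨key u (by omega) hx1, fun h => key _ (by omega) (hx2 h)⟩
  · intro R v hv
    have hvN : v < N := by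
      by_cases hR : R < r
      · simp only [hR, if_true] at hv
        rcases hv with h | h <;> exact mem_range.1 (inter_subset_right h)
      · simp only [hR, if_false] at hv
        rcases hv with h | h <;> exact mem_range.1 (inter_subset_right h)
    obtain ⟨hy, hy', -⟩ := hhome v hvN
    have hR' : cl (home v) < r := h2 _ hy
    simp only [hR', if_true]
    -- the extreme times are in all bags
    by_cases hv0 : v = 0 ∨ v = N - 1
    · left
      exact (hexmem _ v hvN).2 (hv0.imp id Or.inl)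
    · have key : ∀ z < D.m, (z = p (cl z) ∨ z = q (cl z)) → v ∈ D.bag z →
          v ∈ ex (D.bag (p (cl (home v)))) ∨ v ∈ ex (D.bag (q (cl (home v)))) := by
        intro z hz hz' hvz
        apply hQ _ v hvN
        rcases hrel _ hy z hz v hy' hvz with h6 | h6
        · rw [h6]
          rcases hz' with h7 | h7
          · left; rw [← h7]; exact hvz
          · right; rw [← h7]; exact hvz
        · exact h6
      by_cases hR : R < r
      · simp only [hR, if_true] at hv
        rcases hv with h | h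
        · rw [hexmem _ v hvN] at h
          have h' : v ∈ D.bag (p R) := by tauto
          exact key _ (h4 R hR).1.1 (h4 R hR).1.2 h'
        · rw [hexmem _ v hvN] at h
          have h' : v ∈ D.bag (q R) := by tauto
          exact key _ (h4 R hR).2.1 (h4 R hR).2.2 h'
      · simp only [hR, if_false] at hv
        rcases hv with h | h
        · rw [hexmem _ v hvN] at h
          simp only [notMem_empty] at h
          tauto
        · rw [hexmem _ v hvN] at h
          simp only [notMem_empty] at h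
          tauto

/-- a region is a union of few intervals: all but two starts of intervals come after a time in a
bag -/
theorem card_starts_le {N : ℕ} {reg : ℕ → ℕ} {b₁ b₂ : ℕ → Finset ℕ} {k : ℕ} {R : ℕ}
    (h₁ : (b₁ R).card ≤ k) (h₂ : (b₂ R).card ≤ k)
    (h : ∀ u, u + 1 < N → (u ∈ b₁ (reg (u + 1)) ∨ u ∈ b₂ (reg (u + 1)) ∨ reg u = reg (u + 1))) :
    ((range N).filter fun u => reg u = R ∧ (u = 0 ∨ reg (u - 1) ≠ R)).card ≤ 2 * k + 1 := by
  have h3 : ((range N).filter fun u => reg u = R ∧ (u = 0 ∨ reg (u - 1) ≠ R)) ⊆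
      insert 0 ((b₁ R ∪ b₂ R).image fun u => u + 1) := by
    intro u hu
    simp only [mem_filter, mem_range, mem_insert, mem_image, mem_union] at hu ⊢
    obtain ⟨h4, h5, h6⟩ := hu
    rcases h6 with h6 | h6
    · exact Or.inl h6
    · rcases Nat.eq_zero_or_pos u with h7 | h7
      · exact Or.inl h7
      · obtain ⟨t, rfl⟩ : ∃ t, u = t + 1 := ⟨u - 1, by omega⟩
        simp only [Nat.add_sub_cancel] at h6
        rcases h t h4 with h8 | h8 | h8
        · rw [h5] at h8
          exact Or.inr ⟨t, Or.inl h8, rfl⟩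
        · rw [h5] at h8
          exact Or.inr ⟨t, Or.inr h8, rfl⟩
        · exact absurd (h8.trans h5) h6
  refine (card_le_card h3).trans ((card_insert_le _ _).trans ?_)
  have h4 := card_image_le (s := b₁ R ∪ b₂ R) (f := fun u => u + 1)
  have h5 := card_union_le (b₁ R) (b₂ R)
  omega

end Pool.Agent.NUM.Region
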