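import Pool.Agent.NUM.Defs

/-!
# 3SAT and the instance which describes a computation

* `SAT m φ`: the 3-CNF formula with `2 ^ m` clauses and `2 ^ m` variables written in `φ` is
  satisfiable;
* `cls`: the clauses which say that the program written in the table of `z` (as a table of local
  3-clauses) accepts `(z, y)` for some `y`; a variable and a clause are named by `Ix n v w`;
* `Phi`: the formula as an input for `SAT`.
-/

namespace Pool.Agent.NUM.S3

/-! ### bit vectors -/

/-- the digits of `x` -/
def bvec (k x : ℕ) : BV k := fun i => x.testBit i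

/-- the number with digits `b` -/
def bval {k : ℕ} (b : BV k) : ℕ := ∑ i : Fin k, if b i = true then 2 ^ (i : ℕ) else 0

/-- digit `i`, `false` beyond the end -/
def gt {k : ℕ} (b : BV k) (i : ℕ) : Bool := if h : i < k then b ⟨i, h⟩ else false

/-- plus one (modulo `2 ^ k`) -/
def inc {k : ℕ} (b : BV k) : BV k := bvec k (bval b + 1)

/-- change digit `j` -/
def flipAt {k : ℕ} (j : ℕ) (b : BV k) : BV k := fun i => if (i : ℕ) = j then !(b i) else b i

/-- the number of a list of digits, lowest first -/
def lnum (a : List Bool) : ℕ := num a.length fun i => a.getD i false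

/-! ### the selection network: `5 k` stages, stage `t` works on bit `sbit k t` -/

/-- the bit of stage `t` -/
def sbit (k t : ℕ) : ℕ :=
  if t < k then t else if t < 2 * k then 2 * k - 1 - t else if t < 3 * k then 3 * k - 1 - t
  else if t < 4 * k then t - 3 * k else 5 * k - 1 - t

/-- where the content of `p` comes from in one stage with selections `c` -/
def src {k : ℕ} (t : ℕ) (c : BV k → Bool) (p : BV k) : BV k :=
  if c p = true then flipAt (sbit k t) p else p

/-- the position at the entrance of stage `0` whose content is found at `p` after `T` stages -/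
def trace {k : ℕ} (c : ℕ → BV k → Bool) : ℕ → BV k → BV k
  | 0, p => p
  | t + 1, p => trace c t (src t (c t) p)

/-! ### names of variables and clauses -/

/-- names of variables and of clauses: tag, position, index, kind, stage -/
@[ext] structure Ix (n v w : ℕ) where
  T : BV 4
  P : BV (n + 1)
  I : BV v
  K : BV 3
  R : BV w

/-- length of a name -/
def mm (n v w : ℕ) : ℕ := 4 + (n + 1) + v + 3 + w

/-- a name as a bit vector -/
def Ix.code {n v w : ℕ} (x : Ix n v w) : BV (mm n v w) := fun i =>
  if (i : ℕ) < 4 then gt x.T i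
  else if (i : ℕ) < 4 + (n + 1) then gt x.P (i - 4)
  else if (i : ℕ) < 4 + (n + 1) + v then gt x.I (i - (4 + (n + 1)))
  else if (i : ℕ) < 4 + (n + 1) + v + 3 then gt x.K (i - (4 + (n + 1) + v))
  else gt x.R (i - (4 + (n + 1) + v + 3))

/-- the name written in a bit vector -/
def Ix.dec {n v w : ℕ} (c : BV (mm n v w)) : Ix n v w where
  T := fun i => gt c i
  P := fun i => gt c (4 + i)
  I := fun i => gt c (4 + (n + 1) + i)
  K := fun i => gt c (4 + (n + 1) + v + i)
  R := fun i => gt c (4 + (n + 1) + v + 3 + i)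

/-- the zero vector -/
def zv (k : ℕ) : BV k := fun _ => false

/-- local variable of kind `K`, index `I` of block `P` -/
def vloc {n v : ℕ} (w : ℕ) (P : BV (n + 1)) (K : BV 3) (I : BV v) : Ix n v w :=
  ⟨bvec 4 0, P, I, K, zv w⟩

/-- network variable at stage `R`, position `P`: bit `I` of the key (`b = false`) or of the payload
(`b = true`) -/
def vnet {n v w : ℕ} (R : BV w) (P : BV (n + 1)) (b : Bool) (I : BV v) : Ix n v w :=
  ⟨bvec 4 1, P, I, ![b, false, false], R⟩

/-- selection of position `P` in stage `R` -/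
def vsel {n w : ℕ} (v : ℕ) (R : BV w) (P : BV (n + 1)) : Ix n v w :=
  ⟨bvec 4 2, P, zv v, zv 3, R⟩

/-! kinds of local variables -/
/-- state before -/
def kB : BV 3 := bvec 3 0
/-- state after -/
def kA : BV 3 := bvec 3 1
/-- what the lookup returns -/
def kR : BV 3 := bvec 3 2
/-- key of the lookup -/
def kK : BV 3 := bvec 3 3
/-- position of the block -/
def kS : BV 3 := bvec 3 4

/-! ### clauses -/

/-- literals -/
abbrev Lit (n v w : ℕ) := Bool × Ix n v w

/-- the trivial clause -/
def ctriv (n v w : ℕ) : Fin 3 → Lit n v w :=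
  ![(true, ⟨zv 4, zv _, zv v, zv 3, zv w⟩), (false, ⟨zv 4, zv _, zv v, zv 3, zv w⟩),
    (true, ⟨zv 4, zv _, zv v, zv 3, zv w⟩)]

/-- the clause `x = s` -/
def cunit {n v w : ℕ} (s : Bool) (x : Ix n v w) : Fin 3 → Lit n v w := ![(s, x), (s, x), (s, x)]

/-- `x → y` (`b = false`) or `y → x` (`b = true`) -/
def ceq {n v w : ℕ} (b : Bool) (x y : Ix n v w) : Fin 3 → Lit n v w :=
  ![(b, x), (!b, y), (!b, y)]

/-- bit number `i` of literal `j` of the local clause `(I, K)` for the type of block `P` (the `sg`
lowest digits of `P`) -/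
def dbit {n v : ℕ} (sg : ℕ) (z : Inp) (P : BV (n + 1)) (I : BV v) (K : BV 3) (j i : ℕ) : Bool :=
  z (false :: ((List.range sg).map (gt P) ++ List.ofFn I ++ List.ofFn K ++ bits 2 j ++
    bits (v + 3) i))

/-- literal `j` of the local clause `(I, K)` in block `P` -/
def dlit {n v : ℕ} (w sg : ℕ) (z : Inp) (P : BV (n + 1)) (I : BV v) (K : BV 3) (j : Fin 3) :
    Lit n v w :=
  (dbit sg z P I K j 0,
    vloc w P (fun i => dbit sg z P I K j (1 + i)) (fun i => dbit sg z P I K j (4 + i)))

/-- the number of digits of the address part of `P` which are used: position of the last digit `1`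
among the digits `0, …, n - 1`, plus one; `0` if all are `0` -/
def lastOne {n : ℕ} (P : BV (n + 1)) : ℕ :=
  Nat.findGreatest (fun i => i ≠ 0 ∧ gt P (i - 1) = true) n

/-- the bit of the input which is forced at position `P` (with top digit `0`): the digits are
`a ++ [1] ++ 0 … 0`, and `a = []` carries `false`, `a = false :: a'` carries `z a'` -/
def inBit {n : ℕ} (z : Inp) (P : BV (n + 1)) : Option Bool :=
  if lastOne P = 0 then none
  else if lastOne P = 1 then some false
  else if gt P 0 = true then none
  else some (z ((List.range (lastOne P - 2)).map fun i => gt P (i + 1)))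

/-- number of stages -/
def nst (n : ℕ) : ℕ := 5 * (n + 1)

/-- tag `0`: local clauses -/
def cl0 {n v w : ℕ} (sg : ℕ) (z : Inp) (c : Ix n v w) : Fin 3 → Lit n v w :=
  if gt c.P n = true then fun j => dlit w sg z c.P c.I c.K j else ctriv n v w

/-- tag `1`: consecutive blocks -/
def cl1 {n v w : ℕ} (c : Ix n v w) : Fin 3 → Lit n v w :=
  if gt c.P n = true ∧ ¬ (∀ i, c.P i = true) then
    ceq (c.K 0) (vloc w c.P kA c.I) (vloc w (inc c.P) kB c.I) else ctriv n v w

/-- tag `2`: initial state -/
def cl2 {n v w : ℕ} (c : Ix n v w) : Fin 3 → Lit n v w :=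
  cunit false (vloc w (bvec (n + 1) (2 ^ n)) kB c.I)

/-- tag `3`: the accepting flag at the end -/
def cl3 (n v w : ℕ) : Fin 3 → Lit n v w :=
  cunit true (vloc w (fun _ => true) kA (fun _ => true))

/-- tag `4`: position of the block -/
def cl4 {n v w : ℕ} (c : Ix n v w) : Fin 3 → Lit n v w :=
  if bval c.I ≤ n then cunit (gt c.P (bval c.I)) (vloc w c.P kS c.I) else ctriv n v w

/-- tag `5`: keys at the entrance of the network -/
def cl5 {n v w : ℕ} (c : Ix n v w) : Fin 3 → Lit n v w :=
  if bval c.I ≤ n then cunit (gt c.P (bval c.I)) (vnet (zv w) c.P false c.I)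
  else ctriv n v w

/-- tag `6`: payloads of the blocks -/
def cl6 {n v w : ℕ} (c : Ix n v w) : Fin 3 → Lit n v w :=
  if gt c.P n = true then ceq (c.K 0) (vnet (zv w) c.P true c.I) (vloc w c.P kB c.I)
  else ctriv n v w

/-- tag `7`: payloads of the input positions -/
def cl7 {n v w : ℕ} (z : Inp) (c : Ix n v w) : Fin 3 → Lit n v w :=
  if gt c.P n = true then ctriv n v w
  else match inBit z c.P with
    | none => ctriv n v w
    | some b => cunit b (vnet (zv w) c.P true (zv v))

/-- tag `8`: the stages of the network -/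
def cl8 {n v w : ℕ} (c : Ix n v w) : Fin 3 → Lit n v w :=
  if bval c.R < nst n then
    ![(!(c.K 1), vsel v c.R c.P),
      (c.K 2, vnet c.R (if c.K 1 = true then flipAt (sbit (n + 1) (bval c.R)) c.P else c.P)
        (c.K 0) c.I),
      (!(c.K 2), vnet (inc c.R) c.P (c.K 0) c.I)]
  else ctriv n v w

/-- tag `9`: the exit of the network -/
def cl9 {n v w : ℕ} (c : Ix n v w) : Fin 3 → Lit n v w :=
  if gt c.P n = true ∧ (c.K 0 = true ∨ bval c.I ≤ n) then
    ceq (c.K 1) (vnet (bvec w (nst n)) c.P (c.K 0) c.I)
      (vloc w c.P (if c.K 0 = true then kR else kK) c.I)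
  else ctriv n v w

/-- the clauses -/
def cls {n v w : ℕ} (sg : ℕ) (z : Inp) (c : Ix n v w) : Fin 3 → Lit n v w :=
  if c.T = bvec 4 0 then cl0 sg z c
  else if c.T = bvec 4 1 then cl1 c
  else if c.T = bvec 4 2 then cl2 c
  else if c.T = bvec 4 3 then cl3 n v w
  else if c.T = bvec 4 4 then cl4 c
  else if c.T = bvec 4 5 then cl5 c
  else if c.T = bvec 4 6 then cl6 c
  else if c.T = bvec 4 7 then cl7 z c
  else if c.T = bvec 4 8 then cl8 c
  else if c.T = bvec 4 9 then cl9 c
  else ctriv n v w

/-- satisfiability with named variables and clauses -/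
def TSat {n v w : ℕ} (f : Ix n v w → Fin 3 → Lit n v w) : Prop :=
  ∃ a : Ix n v w → Bool, ∀ c, ∃ j : Fin 3, a (f c j).2 = (f c j).1

/-- the formula with clauses `cls sg z` as an input -/
def Phi (n v w sg : ℕ) (z : Inp) : Inp := fun a =>
  if a.length = satLen (mm n v w) then
    if lnum ((a.drop (mm n v w)).take 2) < 3 then
      let l := cls (n := n) (v := v) (w := w) sg z (Ix.dec fun i => a.getD i false)
        ⟨lnum ((a.drop (mm n v w)).take 2) % 3, Nat.mod_lt _ (by norm_num)⟩
      if lnum (a.drop (mm n v w + 2)) = 0 then l.1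
      else gt l.2.code (lnum (a.drop (mm n v w + 2)) - 1)
    else false
  else false

/-! ### the constraint satisfaction form -/

/-- local variables `X` and payloads `pay` satisfy all constraints -/
structure Csp {n v : ℕ} (sg : ℕ) (z : Inp) (X : BV (n + 1) → BV 3 → BV v → Bool)
    (pay : BV (n + 1) → BV v → Bool) : Prop where
  loc : ∀ P, gt P n = true → ∀ (I : BV v) (K : BV 3), ∃ j : Fin 3,
    X P (fun i => dbit sg z P I K j (1 + i)) (fun i => dbit sg z P I K j (4 + i)) =
      dbit sg z P I K j 0
  link : ∀ P, gt P n = true → ¬ (∀ i, P i = true) → ∀ I, X P kA I = X (inc P) kB I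
  init : ∀ I, X (bvec (n + 1) (2 ^ n)) kB I = false
  fin : X (fun _ => true) kA (fun _ => true) = true
  self : ∀ P, ∀ I : BV v, bval I ≤ n → X P kS I = gt P (bval I)
  pay1 : ∀ P, gt P n = true → ∀ I, pay P I = X P kB I
  pay0 : ∀ P, gt P n = false → ∀ b, inBit z P = some b → pay P (zv v) = b
  look : ∀ P, gt P n = true → ∃ p, (∀ I : BV v, bval I ≤ n → X P kK I = gt p (bval I)) ∧
    ∀ I, X P kR I = pay p I

/-! ### the table of local clauses of a program

Local variables have kind `0` (before), `1` (after), `2` (returned), `3` (key), `4` (self),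
`5` (auxiliary). The state has the index `c` for cell `c < 2 ^ sg`, `2 ^ sg + t`, `t ≤ n`, for
digit `t` of the position of the block which pushed the top of the stack (`0` for the empty stack),
`2 ^ (sg + 1) - 2` for halted and `2 ^ (sg + 1) - 1` for accepted. -/

/-- local literals: sign, kind, index -/
abbrev LLit := Bool × ℕ × ℕ

/-- trivial -/
def ltriv : Fin 3 → LLit := ![(true, 0, 0), (false, 0, 0), (true, 0, 0)]

/-- `x → y` (`b = false`) or `y → x` (`b = true`) -/
def leq (b : Bool) (x y : ℕ × ℕ) : Fin 3 → LLit := ![(b, x), (!b, y), (!b, y)]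

/-- `c ∨ (x → y)` or `c ∨ (y → x)` -/
def lceq (c : LLit) (b : Bool) (x y : ℕ × ℕ) : Fin 3 → LLit := ![c, (b, x), (!b, y)]

/-- clause `K` (`K < 8`) for `x = y ∧ u` (`u`, `y` literals), `K = 0, 1, 2` -/
def land (K : ℕ) (x : ℕ × ℕ) (y u : LLit) : Fin 3 → LLit :=
  match K with
  | 0 => ![(false, x), y, y]
  | 1 => ![(false, x), u, u]
  | 2 => ![(true, x), (!y.1, y.2), (!u.1, u.2)]
  | _ => ltriv

/-- nothing changes -/
def lkeep (I K : ℕ) : Fin 3 → LLit :=
  match K with
  | 0 => leq false (1, I) (0, I)
  | 1 => leq true (1, I) (0, I)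
  | _ => ltriv

/-- the stack operation at the end of a pass. Auxiliary variables: `0` push, `1` pop of a nonempty
stack, `2` halt, `3` neither push nor (nonempty) pop, `4` pop, `5` halt and cell `2`, `6` accept
now -/
def lctl (n sg I K : ℕ) : Fin 3 → LLit :=
  if I = 0 then (if K < 2 then lkeep I K else land (K - 2) (5, 0) (true, 0, 0) (false, 0, 1))
  else if I = 1 then (if K < 2 then lkeep I K else land (K - 2) (5, 4) (true, 0, 0) (true, 0, 1))
  else if I = 2 then
    match K with
    | 0 => lceq (false, 5, 1) false (1, 2) (2, 2)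
    | 1 => lceq (false, 5, 1) true (1, 2) (2, 2)
    | 2 => lceq (true, 5, 1) false (1, 2) (0, 2)
    | 3 => lceq (true, 5, 1) true (1, 2) (0, 2)
    | _ => ltriv
  else if I = 3 then
    (if K < 2 then lkeep I K else land (K - 2) (5, 1) (true, 5, 4) (true, 0, 2 ^ sg + n))
  else if I = 4 then
    (if K < 2 then lkeep I K else land (K - 2) (5, 2) (true, 5, 4) (false, 0, 2 ^ sg + n))
  else if I = 5 then
    (if K < 2 then lkeep I K else land (K - 2) (5, 3) (false, 5, 0) (false, 5, 1))
  else if I = 6 then
    (if K < 2 then lkeep I K else land (K - 2) (5, 5) (true, 5, 2) (true, 0, 2))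
  else if I = 7 then
    (if K < 2 then lkeep I K else land (K - 2) (5, 6) (true, 5, 5)
      (false, 0, 2 ^ (sg + 1) - 2))
  else if I < 2 ^ sg then lkeep I K
  else if I ≤ 2 ^ sg + n then
    match K with
    | 0 => lceq (false, 5, 0) false (1, I) (4, I - 2 ^ sg)
    | 1 => lceq (false, 5, 0) true (1, I) (4, I - 2 ^ sg)
    | 2 => lceq (false, 5, 1) false (1, I) (2, I)
    | 3 => lceq (false, 5, 1) true (1, I) (2, I)
    | 4 => lceq (false, 5, 3) false (1, I) (0, I)
    | 5 => lceq (false, 5, 3) true (1, I) (0, I)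
    | 6 => leq false (3, I - 2 ^ sg) (0, I)
    | _ => leq true (3, I - 2 ^ sg) (0, I)
  else if I = 2 ^ (sg + 1) - 2 then
    match K with
    | 0 => ![(true, 1, I), (false, 0, I), (false, 0, I)]
    | 1 => ![(true, 1, I), (false, 5, 2), (false, 5, 2)]
    | 2 => ![(false, 1, I), (true, 0, I), (true, 5, 2)]
    | _ => ltriv
  else if I = 2 ^ (sg + 1) - 1 then
    match K with
    | 0 => ![(true, 1, I), (false, 0, I), (false, 0, I)]
    | 1 => ![(true, 1, I), (false, 5, 6), (false, 5, 6)]
    | 2 => ![(false, 1, I), (true, 0, I), (true, 5, 6)]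
    | _ => ltriv
  else lkeep I K

/-- the local clauses for the instruction `nand i j k` -/
def lnand (i j k I K : ℕ) : Fin 3 → LLit :=
  if I = i then
    match K with
    | 0 => ![(true, 1, i), (true, 0, j), (true, 0, j)]
    | 1 => ![(true, 1, i), (true, 0, k), (true, 0, k)]
    | 2 => ![(false, 1, i), (false, 0, j), (false, 0, k)]
    | _ => ltriv
  else lkeep I K

/-- the local clauses for the instruction `ask i j l` -/
def lask (n i j l I K : ℕ) : Fin 3 → LLit :=
  match K with
  | 0 => if I = i then leq false (1, i) (2, 0) else lkeep I 0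
  | 1 => if I = i then leq true (1, i) (2, 0) else lkeep I 1
  | 2 => if I ≤ n then
      (if I < l then leq false (3, I) (0, j + I)
       else ![(decide (I = l), 3, I), (decide (I = l), 3, I), (decide (I = l), 3, I)])
      else ltriv
  | 3 => if I < l then leq true (3, I) (0, j + I) else ltriv
  | _ => ltriv

/-- the local clauses in a block of type `p` -/
def lcl (n sg : ℕ) (G : List Ins) (p I K : ℕ) : Fin 3 → LLit :=
  if p = 2 ^ sg - 1 then lctl n sg I K
  else match G[p]? with
    | none => lkeep I K
    | some (.nand i j k) => lnand i j k I K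
    | some (.ask i j l) => lask n i j l I K

/-- bit `i` of a local literal: sign, three digits of the kind, digits of the index -/
def lbit (l : LLit) (i : ℕ) : Bool :=
  if i = 0 then l.1 else if i < 4 then l.2.1.testBit (i - 1) else l.2.2.testBit (i - 4)

/-- the table of the program `G` -/
def enc (n sg : ℕ) (G : List Ins) : Inp := fun a =>
  let p := lnum (a.take sg)
  let I := lnum ((a.drop sg).take (sg + 1))
  let K := lnum ((a.drop (sg + (sg + 1))).take 3)
  let j := lnum ((a.drop (sg + (sg + 1) + 3)).take 2)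
  let i := lnum (a.drop (sg + (sg + 1) + 3 + 2))
  if a.length = 3 * sg + 10 ∧ j < 3 then
    lbit (lcl n sg G p I K ⟨j % 3, Nat.mod_lt _ (by norm_num)⟩) i else false

/-- the pivot problem: `SAT` of the formula -/
def V (n sg : ℕ) (z : Inp) : Prop :=
  SAT (mm n (sg + 1) (Nat.size (nst n))) (Phi n (sg + 1) (Nat.size (nst n)) sg z)

/-- all asks of the program have length below `n` -/
def AskLt (n : ℕ) (G : List Ins) : Prop := ∀ i j l, Ins.ask i j l ∈ G → l < n

end Pool.Agent.NUM.S3
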