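import Pool.Agent.NUM.S3HDefs

/-! # meaning of the local clauses for history programs -/

set_option autoImplicit false

namespace Pool.Agent.NUM.S3

private theorem holds_mk (x : ℕ → ℕ → Bool) (a b c : LLit) :
    Holds x ![a, b, c] ↔ (x a.2.1 a.2.2 = a.1 ∨ x b.2.1 b.2.2 = b.1 ∨ x c.2.1 c.2.2 = c.1) := by
  unfold Holds
  constructor
  · rintro ⟨j, hj⟩
    fin_cases j
    · exact Or.inl hj
    · exact Or.inr (Or.inl hj)
    · exact Or.inr (Or.inr hj)
  · rintro (h | h | h)
    · exact ⟨0, h⟩
    · exact ⟨1, h⟩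
    · exact ⟨2, h⟩

private theorem holds_triv (x : ℕ → ℕ → Bool) : Holds x ltriv := by
  rw [ltriv, holds_mk]
  cases x 0 0 <;> simp

private theorem forall_lt_eight {Q : ℕ → Prop} :
    (∀ K < 8, Q K) ↔ Q 0 ∧ Q 1 ∧ Q 2 ∧ Q 3 ∧ Q 4 ∧ Q 5 ∧ Q 6 ∧ Q 7 := by
  constructor
  · intro h
    exact ⟨h 0 (by omega), h 1 (by omega), h 2 (by omega), h 3 (by omega), h 4 (by omega),
      h 5 (by omega), h 6 (by omega), h 7 (by omega)⟩
  · rintro ⟨h0, h1, h2, h3, h4, h5, h6, h7⟩ K hK
    interval_cases K <;> assumption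

private theorem leq_f (x : ℕ → ℕ → Bool) (a b : ℕ × ℕ) :
    Holds x (leq false a b) ↔ (x a.1 a.2 = false ∨ x b.1 b.2 = true) := by
  rw [leq, holds_mk]; simp

private theorem leq_t (x : ℕ → ℕ → Bool) (a b : ℕ × ℕ) :
    Holds x (leq true a b) ↔ (x a.1 a.2 = true ∨ x b.1 b.2 = false) := by
  rw [leq, holds_mk]; simp

private theorem keep_iff (x : ℕ → ℕ → Bool) (I : ℕ) :
    (∀ K < 8, Holds x (lkeep I K)) ↔ x 1 I = x 0 I := by
  rw [forall_lt_eight]
  simp only [lkeep, holds_triv, and_true, leq_f, leq_t]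
  cases x 1 I <;> cases x 0 I <;> simp

private theorem nand_iff (x : ℕ → ℕ → Bool) (i j k I : ℕ) :
    (∀ K < 8, Holds x (lnand i j k I K)) ↔
      x 1 I = Function.update (x 0) i (!(x 0 j && x 0 k)) I := by
  by_cases h : I = i
  · subst h
    have e : ∀ K, lnand I j k I K = match K with
      | 0 => ![(true, 1, I), (true, 0, j), (true, 0, j)]
      | 1 => ![(true, 1, I), (true, 0, k), (true, 0, k)]
      | 2 => ![(false, 1, I), (false, 0, j), (false, 0, k)]
      | _ => ltriv := by
      intro K
      unfold lnand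
      rw [if_pos rfl]
      rfl
    rw [forall_lt_eight]
    simp only [e, holds_triv, holds_mk, and_true, Function.update_self]
    cases x 1 I <;> cases x 0 j <;> cases x 0 k <;> simp
  · have e : ∀ K, lnand i j k I K = lkeep I K := fun K => by
      unfold lnand
      rw [if_neg h]
    simp only [e]
    rw [keep_iff, Function.update_of_ne h]

private theorem ask_iff (x : ℕ → ℕ → Bool) (n i j l I : ℕ) (hl : l < n) :
    (∀ K < 8, Holds x (lask n i j l I K)) ↔
      (x 1 I = Function.update (x 0) i (x 2 0) I ∧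
        (I ≤ n → x 3 I = if I < l then x 0 (j + I) else decide (I = l))) := by
  have h0 : ((Holds x (lask n i j l I 0)) ∧ (Holds x (lask n i j l I 1))) ↔
      x 1 I = Function.update (x 0) i (x 2 0) I := by
    by_cases h : I = i
    · subst h
      simp only [lask, if_true, leq_f, leq_t, Function.update_self]
      cases x 1 I <;> cases x 2 0 <;> simp
    · simp only [lask, h, if_false, lkeep, leq_f, leq_t, Function.update_of_ne h]
      cases x 1 I <;> cases x 0 I <;> simp
  have h2 : ((Holds x (lask n i j l I 2)) ∧ (Holds x (lask n i j l I 3))) ↔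
      (I ≤ n → x 3 I = if I < l then x 0 (j + I) else decide (I = l)) := by
    by_cases h : I ≤ n
    · by_cases h3 : I < l
      · simp only [lask, h, h3, if_true, leq_f, leq_t, forall_true_left]
        cases x 3 I <;> cases x 0 (j + I) <;> simp
      · simp only [lask, h, h3, if_true, if_false, holds_mk, holds_triv, forall_true_left]
        simp
    · have h3 : ¬ I < l := by omega
      simp only [lask, h, h3, if_false, holds_triv, false_imp_iff, and_self]
  rw [forall_lt_eight, ← h0, ← h2]
  simp only [lask, holds_triv, and_true, and_assoc]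

private theorem mem_of_getElem? {G : List Ins} {p : ℕ} {c : Ins} (h : G[p]? = some c) : c ∈ G :=
  List.mem_of_getElem? h

private theorem land0 (x : ℕ → ℕ → Bool) (X : ℕ × ℕ) (y u : LLit) :
    ((Holds x (land 0 X y u)) ∧ (Holds x (land 1 X y u)) ∧ Holds x (land 2 X y u)) ↔
      x X.1 X.2 = ((x y.2.1 y.2.2 == y.1) && (x u.2.1 u.2.2 == u.1)) := by
  simp only [land, holds_mk]
  cases x X.1 X.2 <;> cases x y.2.1 y.2.2 <;> cases x u.2.1 u.2.2 <;> cases y.1 <;> cases u.1 <;>
    simp

private theorem ctlH_iff (x : ℕ → ℕ → Bool) {n sg I : ℕ} (hn : n < 2 ^ sg) :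
    (∀ K < 8, Holds x (lctlH n sg I K)) ↔
      (x 1 I = ctlNextH sg (x 0) (x 2) I ∧
        (I ≤ n → x 3 I = if sg ≤ I ∧ I < n then x 0 (4 * (I - sg) + 4) else decide (I = n))) := by
  have hp : 2 ^ (sg + 1) = 2 * 2 ^ sg := by ring
  have hkey : I ≠ 2 ^ (sg + 1) - 1 →
      (((Holds x (lctlH n sg I 2)) ∧ (Holds x (lctlH n sg I 3))) ↔
        (I ≤ n → x 3 I = if sg ≤ I ∧ I < n then x 0 (4 * (I - sg) + 4) else decide (I = n))) := by
    intro hI
    by_cases h1 : I ≤ n
    · by_cases h2 : sg ≤ I ∧ I < n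
      · simp only [lctlH, hI, h1, h2, if_true, if_false, and_self, leq_f, leq_t, forall_true_left]
        cases x 3 I <;> cases x 0 (4 * (I - sg) + 4) <;> simp
      · simp only [lctlH, hI, h1, h2, if_true, if_false, holds_mk, holds_triv, forall_true_left]
        simp
    · have h2 : ¬ (sg ≤ I ∧ I < n) := by omega
      simp only [lctlH, hI, h1, h2, if_false, holds_triv, false_imp_iff, and_self]
  rw [forall_lt_eight]
  have h4 : Holds x (lctlH n sg I 4) := by simp only [lctlH, holds_triv]
  have h5 : Holds x (lctlH n sg I 5) := by simp only [lctlH, holds_triv]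
  have h6 : Holds x (lctlH n sg I 6) := by simp only [lctlH, holds_triv]
  have h7 : Holds x (lctlH n sg I 7) := by simp only [lctlH, holds_triv]
  simp only [h4, h5, h6, h7, and_true]
  by_cases hA : I < 2 ^ sg ∧ I % 2 = 1
  · have hI : I ≠ 2 ^ (sg + 1) - 1 := by omega
    rw [← hkey hI, ← and_assoc]
    refine and_congr ?_ Iff.rfl
    simp only [lctlH, ctlNextH, hA, if_true, and_self, leq_f, leq_t]
    cases x 1 I <;> cases x 2 (I - 1) <;> simp
  · by_cases hB : I = 2 ^ (sg + 1) - 1
    · have h3 : Holds x (lctlH n sg I 3) := by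
        have : ¬ (sg ≤ I ∧ I < n) := by omega
        simp only [lctlH, this, if_false, holds_triv]
      have hIn : ¬ I ≤ n := by omega
      have e0 : lctlH n sg I 0 = land 0 (1, I) (true, 0, 0) (true, 0, 2) := by
        simp only [lctlH, hA, if_false]
        rw [if_pos hB]
      have e1 : lctlH n sg I 1 = land 1 (1, I) (true, 0, 0) (true, 0, 2) := by
        simp only [lctlH, hA, if_false]
        rw [if_pos hB]
      have e2 : lctlH n sg I 2 = land 2 (1, I) (true, 0, 0) (true, 0, 2) := by
        simp only [lctlH]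
        rw [if_pos hB]
      have e3 : ctlNextH sg (x 0) (x 2) I = (x 0 0 && x 0 2) := by
        unfold ctlNextH
        rw [if_neg hA, if_pos hB]
      rw [e0, e1, e2, e3]
      simp only [h3, and_true, hIn, false_imp_iff]
      rw [land0]
      simp
    · rw [← hkey hB, ← and_assoc]
      refine and_congr ?_ Iff.rfl
      have e0 : lctlH n sg I 0 = leq false (1, I) (0, I) := by
        simp only [lctlH, hA, hB, if_false]
      have e1 : lctlH n sg I 1 = leq true (1, I) (0, I) := by
        simp only [lctlH, hA, hB, if_false]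
      have e3 : ctlNextH sg (x 0) (x 2) I = x 0 I := by
        unfold ctlNextH
        rw [if_neg hA, if_neg hB]
      rw [e0, e1, e3, leq_f, leq_t]
      cases x 1 I <;> cases x 0 I <;> simp

theorem local_soundH {n sg : ℕ} {G : List Ins} (hG : GoodH n sg G) {x : ℕ → ℕ → Bool} {p : ℕ}
    (hp : p < 2 ^ sg) (h : ∀ I < 2 ^ (sg + 1), ∀ K < 8, Holds x (lclH n sg G p I K)) :
    (∀ I < 2 ^ (sg + 1), x 1 I = bnextH sg G p (x 0) (x 2) I) ∧
      ∀ f, bkeyH n sg G p (x 0) = some f → ∀ t ≤ n, x 3 t = f t := by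
  have hn := hG.big
  have hn' : n < 2 ^ sg := by omega
  have hp1 : 2 ^ (sg + 1) = 2 * 2 ^ sg := by ring
  unfold lclH at h
  unfold bnextH bkeyH
  by_cases hp2 : p = 2 ^ sg - 1
  · simp only [hp2, if_true] at h ⊢
    refine ⟨fun I hI => ((ctlH_iff x hn').mp (h I hI)).1, fun f hf t ht => ?_⟩
    rw [← Option.some.inj hf]
    exact ((ctlH_iff x hn').mp (h t (by omega))).2 ht
  · simp only [hp2, if_false] at h ⊢
    cases hc : G[p]? with
    | none =>
      simp only [hc] at h ⊢
      exact ⟨fun I hI => (keep_iff x I).mp (h I hI), fun f hf => by simp at hf⟩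
    | some c =>
      cases c with
      | nand i j k =>
        simp only [hc] at h ⊢
        exact ⟨fun I hI => (nand_iff x i j k I).mp (h I hI), fun f hf => by simp at hf⟩
      | ask i j l =>
        simp only [hc] at h ⊢
        have hl : l < n := hG.ask i j l (mem_of_getElem? hc)
        refine ⟨fun I hI => ((ask_iff x n i j l I hl).mp (h I hI)).1, fun f hf t ht => ?_⟩
        rw [← Option.some.inj hf]
        exact ((ask_iff x n i j l t hl).mp (h t (by omega))).2 ht

theorem local_completeH {n sg : ℕ} {G : List Ins} (hG : GoodH n sg G) {x : ℕ → ℕ → Bool} {p : ℕ}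
    (hp : p < 2 ^ sg) (h1 : ∀ I < 2 ^ (sg + 1), x 1 I = bnextH sg G p (x 0) (x 2) I)
    (h3 : ∀ f, bkeyH n sg G p (x 0) = some f → ∀ t ≤ n, x 3 t = f t) :
    ∀ I < 2 ^ (sg + 1), ∀ K < 8, Holds x (lclH n sg G p I K) := by
  have hn := hG.big
  have hn' : n < 2 ^ sg := by omega
  unfold bnextH at h1
  unfold bkeyH at h3
  unfold lclH
  by_cases hp2 : p = 2 ^ sg - 1
  · simp only [hp2, if_true] at h1 h3 ⊢
    exact fun I hI => (ctlH_iff x hn').mpr ⟨h1 I hI, fun ht => h3 _ rfl I ht⟩
  · simp only [hp2, if_false] at h1 h3 ⊢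
    cases hc : G[p]? with
    | none =>
      simp only [hc] at h1 ⊢
      exact fun I hI => (keep_iff x I).mpr (h1 I hI)
    | some c =>
      cases c with
      | nand i j k =>
        simp only [hc] at h1 ⊢
        exact fun I hI => (nand_iff x i j k I).mpr (h1 I hI)
      | ask i j l =>
        simp only [hc] at h1 h3 ⊢
        have hl : l < n := hG.ask i j l (mem_of_getElem? hc)
        exact fun I hI => (ask_iff x n i j l I hl).mpr ⟨h1 I hI, fun ht => h3 _ rfl I ht⟩

private def InR (S : ℕ) (l : LLit) : Prop := l.2.1 < 8 ∧ l.2.2 < S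

private theorem range_mk {S : ℕ} {a b c : LLit} (ha : InR S a) (hb : InR S b) (hc : InR S c)
    (j : Fin 3) : InR S (![a, b, c] j) := by
  fin_cases j
  · exact ha
  · exact hb
  · exact hc

private theorem inr {S : ℕ} {b : Bool} {a m : ℕ} (ha : a < 8) (hm : m < S) : InR S (b, a, m) :=
  ⟨ha, hm⟩

private theorem range_triv {S : ℕ} (hS : 0 < S) (j : Fin 3) : InR S (ltriv j) :=
  range_mk ⟨by norm_num, hS⟩ ⟨by norm_num, hS⟩ ⟨by norm_num, hS⟩ j

private theorem range_leq {S : ℕ} {b : Bool} {x y : ℕ × ℕ} (hx : x.1 < 8 ∧ x.2 < S)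
    (hy : y.1 < 8 ∧ y.2 < S) (j : Fin 3) : InR S (leq b x y j) :=
  range_mk (a := (b, x)) (b := (!b, y)) (c := (!b, y)) hx hy hy j

private theorem range_keep {S I : ℕ} (K : ℕ) (hI : I < S) (j : Fin 3) : InR S (lkeep I K j) := by
  have h1 : (1 : ℕ) < 8 ∧ I < S := ⟨by norm_num, hI⟩
  have h0 : (0 : ℕ) < 8 ∧ I < S := ⟨by norm_num, hI⟩
  match K with
  | 0 => exact range_leq h1 h0 j
  | 1 => exact range_leq h1 h0 j
  | (K + 2) => exact range_triv (by omega) j

private theorem range_land {S : ℕ} (K : ℕ) {x : ℕ × ℕ} {y u : LLit} (hx : x.1 < 8 ∧ x.2 < S)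
    (hy : InR S y) (hu : InR S u) (j : Fin 3) : InR S (land K x y u j) := by
  match K with
  | 0 => exact range_mk (a := (false, x)) hx hy hy j
  | 1 => exact range_mk (a := (false, x)) hx hu hu j
  | 2 => exact range_mk (a := (true, x)) (b := (!y.1, y.2)) (c := (!u.1, u.2)) hx hy hu j
  | (K + 3) => exact range_triv (by omega) j

private theorem range_lctlH {n sg I : ℕ} (K : ℕ) (hn : 4 * n + 8 ≤ 2 ^ sg)
    (hI : I < 2 ^ (sg + 1)) (j : Fin 3) : InR (2 ^ (sg + 1)) (lctlH n sg I K j) := by
  have hp : 2 ^ (sg + 1) = 2 * 2 ^ sg := by ring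
  have gI : ∀ a < 8, a < 8 ∧ I < 2 ^ (sg + 1) := fun a ha => ⟨ha, hI⟩
  have gP : ∀ a < 8, a < 8 ∧ I - 1 < 2 ^ (sg + 1) := fun a ha => ⟨ha, by omega⟩
  have g0 : InR (2 ^ (sg + 1)) (true, 0, 0) := ⟨by norm_num, by positivity⟩
  have g2 : InR (2 ^ (sg + 1)) (true, 0, 2) := ⟨by norm_num, by simp only; omega⟩
  have gK : sg ≤ I ∧ I < n → 4 * (I - sg) + 4 < 2 ^ (sg + 1) := by
    intro h
    omega
  match K with
  | 0 =>
    change InR (2 ^ (sg + 1)) ((if I < 2 ^ sg ∧ I % 2 = 1 then leq false (1, I) (2, I - 1)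
      else if I = 2 ^ (sg + 1) - 1 then land 0 (1, I) (true, 0, 0) (true, 0, 2)
      else leq false (1, I) (0, I)) j)
    split_ifs
    · exact range_leq (gI 1 (by norm_num)) (gP 2 (by norm_num)) j
    · exact range_land 0 (gI 1 (by norm_num)) g0 g2 j
    · exact range_leq (gI 1 (by norm_num)) (gI 0 (by norm_num)) j
  | 1 =>
    change InR (2 ^ (sg + 1)) ((if I < 2 ^ sg ∧ I % 2 = 1 then leq true (1, I) (2, I - 1)
      else if I = 2 ^ (sg + 1) - 1 then land 1 (1, I) (true, 0, 0) (true, 0, 2)
      else leq true (1, I) (0, I)) j)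
    split_ifs
    · exact range_leq (gI 1 (by norm_num)) (gP 2 (by norm_num)) j
    · exact range_land 1 (gI 1 (by norm_num)) g0 g2 j
    · exact range_leq (gI 1 (by norm_num)) (gI 0 (by norm_num)) j
  | 2 =>
    change InR (2 ^ (sg + 1)) ((if I = 2 ^ (sg + 1) - 1 then land 2 (1, I) (true, 0, 0) (true, 0, 2)
      else if I ≤ n then
        (if sg ≤ I ∧ I < n then leq false (3, I) (0, 4 * (I - sg) + 4)
         else ![(decide (I = n), 3, I), (decide (I = n), 3, I), (decide (I = n), 3, I)])
      else ltriv) j)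
    split_ifs with h1 h2 h3
    · exact range_land 2 (gI 1 (by norm_num)) g0 g2 j
    · exact range_leq (gI 3 (by norm_num)) ⟨by norm_num, gK h3⟩ j
    · have g3 : InR (2 ^ (sg + 1)) (decide (I = n), 3, I) := ⟨by norm_num, hI⟩
      exact range_mk g3 g3 g3 j
    · exact range_triv (by omega) j
  | 3 =>
    change InR (2 ^ (sg + 1)) ((if sg ≤ I ∧ I < n then leq true (3, I) (0, 4 * (I - sg) + 4)
      else ltriv) j)
    split_ifs with h3
    · exact range_leq (gI 3 (by norm_num)) ⟨by norm_num, gK h3⟩ j
    · exact range_triv (by omega) j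
  | (K + 4) => exact range_triv (by omega) j

/-- kinds and indices in the local clauses are in range -/
theorem local_rangeH {n sg : ℕ} {G : List Ins} (hG : GoodH n sg G) {p I K : ℕ} (hp : p < 2 ^ sg)
    (hI : I < 2 ^ (sg + 1)) (j : Fin 3) :
    (lclH n sg G p I K j).2.1 < 8 ∧ (lclH n sg G p I K j).2.2 < 2 ^ (sg + 1) := by
  have hn := hG.big
  have hp1 : 2 ^ (sg + 1) = 2 * 2 ^ sg := by ring
  change InR (2 ^ (sg + 1)) (lclH n sg G p I K j)
  unfold lclH
  by_cases hp2 : p = 2 ^ sg - 1
  · rw [if_pos hp2]; exact range_lctlH K hn hI j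
  rw [if_neg hp2]
  cases hc : G[p]? with
  | none => exact range_keep K hI j
  | some c =>
    have htop := hG.top c (mem_of_getElem? hc)
    cases c with
    | nand i j' k =>
      simp only [Ins.top, sup_le_iff] at htop
      obtain ⟨t1, t2, t3⟩ := htop
      change InR (2 ^ (sg + 1)) (lnand i j' k I K j)
      unfold lnand
      by_cases h : I = i
      · rw [if_pos h]
        have g : ∀ (b : Bool) (a m : ℕ), a < 8 → m < 2 ^ sg → InR (2 ^ (sg + 1)) (b, a, m) :=
          fun b a m ha hm => inr ha (by omega)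
        match K with
        | 0 => exact range_mk (g _ 1 i (by norm_num) (by omega)) (g _ 0 j' (by norm_num)
            (by omega)) (g _ 0 j' (by norm_num) (by omega)) j
        | 1 => exact range_mk (g _ 1 i (by norm_num) (by omega)) (g _ 0 k (by norm_num)
            (by omega)) (g _ 0 k (by norm_num) (by omega)) j
        | 2 => exact range_mk (g _ 1 i (by norm_num) (by omega)) (g _ 0 j' (by norm_num)
            (by omega)) (g _ 0 k (by norm_num) (by omega)) j
        | (K + 3) => exact range_triv (by omega) j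
      · rw [if_neg h]; exact range_keep K hI j
    | ask i j' l =>
      simp only [Ins.top, sup_le_iff] at htop
      obtain ⟨t1, t2⟩ := htop
      have hl : l < n := hG.ask i j' l (mem_of_getElem? hc)
      change InR (2 ^ (sg + 1)) (lask n i j' l I K j)
      have g : ∀ (a m : ℕ), a < 8 → m < 2 ^ sg → a < 8 ∧ m < 2 ^ (sg + 1) :=
        fun a m ha hm => ⟨ha, by omega⟩
      match K with
      | 0 =>
        change InR (2 ^ (sg + 1)) ((if I = i then leq false (1, i) (2, 0) else lkeep I 0) j)
        by_cases h : I = i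
        · rw [if_pos h]
          exact range_leq (g 1 i (by norm_num) (by omega)) (g 2 0 (by norm_num) (by omega)) j
        · rw [if_neg h]; exact range_keep 0 hI j
      | 1 =>
        change InR (2 ^ (sg + 1)) ((if I = i then leq true (1, i) (2, 0) else lkeep I 1) j)
        by_cases h : I = i
        · rw [if_pos h]
          exact range_leq (g 1 i (by norm_num) (by omega)) (g 2 0 (by norm_num) (by omega)) j
        · rw [if_neg h]; exact range_keep 1 hI j
      | 2 =>
        change InR (2 ^ (sg + 1)) ((if I ≤ n then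
          (if I < l then leq false (3, I) (0, j' + I)
           else ![(decide (I = l), 3, I), (decide (I = l), 3, I), (decide (I = l), 3, I)])
          else ltriv) j)
        by_cases h : I ≤ n
        · rw [if_pos h]
          by_cases h' : I < l
          · rw [if_pos h']
            exact range_leq (g 3 I (by norm_num) (by omega))
              (g 0 (j' + I) (by norm_num) (by omega)) j
          · rw [if_neg h']
            have g3 : InR (2 ^ (sg + 1)) (decide (I = l), 3, I) :=
              ⟨by norm_num, hI⟩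
            exact range_mk g3 g3 g3 j
        · rw [if_neg h]; exact range_triv (by omega) j
      | 3 =>
        change InR (2 ^ (sg + 1)) ((if I < l then leq true (3, I) (0, j' + I) else ltriv) j)
        by_cases h' : I < l
        · rw [if_pos h']
          exact range_leq (g 3 I (by norm_num) (by omega))
            (g 0 (j' + I) (by norm_num) (by omega)) j
        · rw [if_neg h']; exact range_triv (by omega) j
      | (K + 4) => exact range_triv (by omega) j

end Pool.Agent.NUM.S3
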