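import Pool.Agent.NUM.S3LCore

/-! # the fields of a clause name which is written in the memory -/

namespace Pool.Agent.NUM.S3

/-- the name written in the cells `j, …` -/
def cn (n v w j : ℕ) (M : Mem) : Ix n v w where
  T := fun i => M (j + i)
  P := fun i => M (j + (4 + i))
  I := fun i => M (j + (4 + (n + 1) + i))
  K := fun i => M (j + (4 + (n + 1) + v + i))
  R := fun i => M (j + (4 + (n + 1) + v + 3 + i))

/-- size parameter -/
def SS (n v w : ℕ) : ℕ := n + v + w + 100

variable (n v w j : ℕ)

namespace S3LBasicAux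

theorem getD_word {k t : ℕ} (ht : t < k) (M : Mem) : (word M j k).getD t false = M (j + t) := by
  simp [word, List.getD, ht]

theorem pow2 (n v w : ℕ) : SS n v w ^ 2 = n * n + v * v + w * w + 2 * (n * v) + 2 * (n * w) +
    2 * (v * w) + 200 * n + 200 * v + 200 * w + 10000 := by
  unfold SS; ring

theorem pow3 (n v w : ℕ) : 300 * (n * n) + 300 * (v * v) + 300 * (w * w) + 600 * (n * v) +
    600 * (n * w) + 600 * (v * w) + 30000 * n + 30000 * v + 30000 * w + 1000000 ≤
    SS n v w ^ 3 := by
  have e : SS n v w ^ 3 = 300 * (n * n) + 300 * (v * v) + 300 * (w * w) + 600 * (n * v) +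
    600 * (n * w) + 600 * (v * w) + 30000 * n + 30000 * v + 30000 * w + 1000000 +
    (n + v + w) ^ 3 := by
    unfold SS; ring
  rw [e]
  exact Nat.le_add_right _ _

theorem pow34 (n v w : ℕ) : 100 * SS n v w ^ 3 ≤ SS n v w ^ 4 := by
  rw [pow_succ (SS n v w) 3, mul_comm]
  exact Nat.mul_le_mul_left _ (by unfold SS; omega)

theorem cpv {k b : ℕ} {f : Inp → Mem → BV k} {s : ℕ}
    (h : ∀ i < k, Cp b s (fun z M => gt (f z M) i)) (hs : 8 ≤ s) :
    ∀ i, Cp b s (fun z M => gt (f z M) i) := by
  intro i
  rcases Nat.lt_or_ge i k with hi | hi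
  · exact h i hi
  · refine ((Cp.const b false).congr fun z M => ?_).mono le_rfl hs
    rw [gt_of_le _ hi]

theorem cT (i : ℕ) : Cp (j + mm n v w) 8 (fun _ M => gt (cn n v w j M).T i) := by
  refine cpv (f := fun _ M => (cn n v w j M).T) (fun i hi => ?_) le_rfl i
  refine ((Cp.cell (b := j + mm n v w) (i := j + i) (by unfold mm; omega)).congr
    fun z M => ?_).mono le_rfl (by omega)
  rw [gt_of_lt _ hi]
  rfl

theorem cP (i : ℕ) : Cp (j + mm n v w) 8 (fun _ M => gt (cn n v w j M).P i) := by
  refine cpv (f := fun _ M => (cn n v w j M).P) (fun i hi => ?_) le_rfl i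
  refine ((Cp.cell (b := j + mm n v w) (i := j + (4 + i)) (by unfold mm; omega)).congr
    fun z M => ?_).mono le_rfl (by omega)
  rw [gt_of_lt _ hi]
  rfl

theorem cI (i : ℕ) : Cp (j + mm n v w) 8 (fun _ M => gt (cn n v w j M).I i) := by
  refine cpv (f := fun _ M => (cn n v w j M).I) (fun i hi => ?_) le_rfl i
  refine ((Cp.cell (b := j + mm n v w) (i := j + (4 + (n + 1) + i)) (by unfold mm; omega)).congr
    fun z M => ?_).mono le_rfl (by omega)
  rw [gt_of_lt _ hi]
  rfl

theorem cK (i : ℕ) : Cp (j + mm n v w) 8 (fun _ M => gt (cn n v w j M).K i) := by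
  refine cpv (f := fun _ M => (cn n v w j M).K) (fun i hi => ?_) le_rfl i
  refine ((Cp.cell (b := j + mm n v w) (i := j + (4 + (n + 1) + v + i))
    (by unfold mm; omega)).congr fun z M => ?_).mono le_rfl (by omega)
  rw [gt_of_lt _ hi]
  rfl

theorem cR (i : ℕ) : Cp (j + mm n v w) 8 (fun _ M => gt (cn n v w j M).R i) := by
  refine cpv (f := fun _ M => (cn n v w j M).R) (fun i hi => ?_) le_rfl i
  refine ((Cp.cell (b := j + mm n v w) (i := j + (4 + (n + 1) + v + 3 + i))
    (by unfold mm; omega)).congr fun z M => ?_).mono le_rfl (by omega)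
  rw [gt_of_lt _ hi]
  rfl

theorem eqConst {k b : ℕ} {f : Inp → Mem → BV k} (h : ∀ i, Cp b 8 (fun z M => gt (f z M) i))
    (x : ℕ) : Cp b (116 * k + 50) (fun z M => decide (bval (f z M) = x)) := by
  refine ((Cp.numEq (n := k) (fun i _ => h i) x).congr fun z M => ?_).mono le_rfl ?_
  · rw [bval_eq_num]
  · have : k * (2 * 8 + 100) = 116 * k := by ring
    omega

theorem ltConst {k b : ℕ} {f : Inp → Mem → BV k} (h : ∀ i, Cp b 8 (fun z M => gt (f z M) i))
    (x : ℕ) : Cp b (132 * (k * k) + 232 * k + 50) (fun z M => decide (bval (f z M) < x)) := by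
  by_cases hx : x < 2 ^ k
  · refine ((Cp.numLt (n := k) (s := 8) (t := 8) (g := fun i z M => gt (f z M) i)
      (g' := fun i _ _ => x.testBit i) (fun i _ => h i)
      (fun i _ => Cp.const b _)).congr fun z M => ?_).mono le_rfl ?_
    · rw [bval_eq_num, num_testBit, Nat.mod_eq_of_lt hx]
    · have : k * (k * (2 * 8 + 2 * 8 + 100) + 2 * 8 + 2 * 8 + 200) =
        132 * (k * k) + 232 * k := by ring
      omega
  · refine ((Cp.const b true).congr fun z M => ?_).mono le_rfl (by omega)
    have := bval_lt (f z M)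
    symm
    rw [decide_eq_true_iff]
    omega

theorem incC {k b : ℕ} {f : Inp → Mem → BV k} (h : ∀ i, Cp b 8 (fun z M => gt (f z M) i)) :
    ∀ i, Cp b (58 * k + 216) (fun z M => gt (inc (f z M)) i) := by
  refine cpv (f := fun z M => inc (f z M)) (fun i hi => ?_) (by omega)
  refine ((Cp.succBit (n := k) (fun i _ => h i) i hi).congr fun z M => ?_).mono le_rfl ?_
  · rw [inc, gt_bvec, bval_eq_num]
    simp [hi]
  · have : k * (8 + 50) = 58 * k := by ring
    omega

theorem sbit_ge {k t : ℕ} (ht : 5 * k ≤ t) : sbit k t = 0 := by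
  unfold sbit
  split_ifs <;> omega

theorem gt_flipAt {k : ℕ} (b : BV k) (j i : ℕ) (hi : i < k) :
    gt (flipAt j b) i = (gt b i ^^ decide (j = i)) := by
  rw [gt_of_lt _ hi, gt_of_lt _ hi]
  unfold flipAt
  by_cases h : i = j
  · subst h; simp
  · simp [h, Ne.symm h]

end S3LBasicAux

open S3LBasicAux

theorem dec_word {k : ℕ} (hk : mm n v w ≤ k) (M : Mem) :
    (Ix.dec fun i : Fin (mm n v w) => (word M j k).getD i false) = cn n v w j M := by
  have key : ∀ t, t < mm n v w →
      gt (fun i : Fin (mm n v w) => (word M j k).getD i false) t = M (j + t) := by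
    intro t ht
    rw [gt_of_lt _ ht]
    exact getD_word j (by omega) M
  unfold mm at key
  refine Ix.ext ?_ ?_ ?_ ?_ ?_ <;> funext i <;> have hi := i.isLt
  · exact key _ (by omega)
  · exact key _ (by omega)
  · exact key _ (by omega)
  · exact key _ (by omega)
  · exact key _ (by omega)

theorem cn_ix : CpIx (j + mm n v w) 8 (fun _ M => cn n v w j M) :=
  ⟨cT n v w j, cP n v w j, cI n v w j, cK n v w j, cR n v w j⟩

theorem cn_tag (t : ℕ) :
    Cp (j + mm n v w) (SS n v w ^ 2) (fun _ M => decide ((cn n v w j M).T = bvec 4 t)) := by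
  refine ((eqConst (f := fun _ M => (cn n v w j M).T) (cT n v w j) (t % 2 ^ 4)).congr
    fun z M => ?_).mono le_rfl ?_
  · rw [decide_eq_decide, ← bval_bvec]
    exact bval_injective.eq_iff
  · rw [pow2]; omega

theorem cn_K (i : Fin 3) : Cp (j + mm n v w) 8 (fun _ M => (cn n v w j M).K i) := by
  refine (cK n v w j i).congr fun z M => ?_
  rw [gt_of_lt _ i.isLt]

theorem cn_top : Cp (j + mm n v w) 8 (fun _ M => decide (gt (cn n v w j M).P n = true)) := by
  refine (cP n v w j n).congr fun z M => ?_
  rw [Bool.decide_eq_true]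

theorem cn_allP :
    Cp (j + mm n v w) (SS n v w ^ 2) (fun _ M => decide (∀ i, (cn n v w j M).P i = true)) := by
  refine ((Cp.all (n := n + 1) (f := fun i _ M => gt (cn n v w j M).P i)
    (fun i _ => cP n v w j i)).congr fun z M => ?_).mono le_rfl ?_
  · rw [Bool.eq_iff_iff, List.all_eq_true, decide_eq_true_iff]
    constructor
    · intro h i
      have := h i (List.mem_range.2 i.isLt)
      rwa [gt_of_lt _ i.isLt] at this
    · intro h i hi
      rw [gt_of_lt _ (List.mem_range.1 hi)]
      exact h _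
  · rw [pow2]; omega

theorem cn_leI :
    Cp (j + mm n v w) (SS n v w ^ 3) (fun _ M => decide (bval (cn n v w j M).I ≤ n)) := by
  refine ((ltConst (f := fun _ M => (cn n v w j M).I) (cI n v w j) (n + 1)).congr
    fun z M => ?_).mono le_rfl ?_
  · rw [decide_eq_decide, Nat.lt_succ_iff]
  · have := pow3 n v w
    omega

theorem cn_incP : CpV (j + mm n v w) (SS n v w ^ 2) (fun _ M => inc (cn n v w j M).P) := by
  intro i
  refine (incC (f := fun _ M => (cn n v w j M).P) (cP n v w j) i).mono le_rfl ?_
  rw [pow2]; omega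

theorem cn_incR : CpV (j + mm n v w) (SS n v w ^ 2) (fun _ M => inc (cn n v w j M).R) := by
  intro i
  refine (incC (f := fun _ M => (cn n v w j M).R) (cR n v w j) i).mono le_rfl ?_
  rw [pow2]; omega

theorem cn_ltR :
    Cp (j + mm n v w) (SS n v w ^ 3) (fun _ M => decide (bval (cn n v w j M).R < nst n)) := by
  refine (ltConst (f := fun _ M => (cn n v w j M).R) (cR n v w j) (nst n)).mono le_rfl ?_
  have := pow3 n v w
  omega

theorem cn_selP :
    Cp (j + mm n v w) (SS n v w ^ 3)
      (fun _ M => gt (cn n v w j M).P (bval (cn n v w j M).I)) := by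
  refine ((Cp.any (n := n + 1) (f := fun i _ M => decide (bval (cn n v w j M).I = i) &&
    gt (cn n v w j M).P i) (fun i _ =>
      (eqConst (f := fun _ M => (cn n v w j M).I) (cI n v w j) i).and (cP n v w j i))).congr
    fun z M => ?_).mono le_rfl ?_
  · rw [Bool.eq_iff_iff, List.any_eq_true]
    constructor
    · rintro ⟨i, -, h2⟩
      rw [Bool.and_eq_true, decide_eq_true_iff] at h2
      rw [h2.1]
      exact h2.2
    · intro h2
      refine ⟨_, List.mem_range.2 ?_, by rw [h2]; simp⟩
      by_contra h3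
      rw [gt_of_le _ (Nat.not_lt.1 h3)] at h2
      exact absurd h2 (by simp)
  · have e : (n + 1) * (116 * v + 50 + 8 + 7 + 30) + 30 = 116 * (n * v) + 116 * v + 95 * n + 125 := by
      ring
    have := pow3 n v w
    rw [e]
    omega

/-- the flipped position (`sbit` of the stage is a disjunction over the `5 (n + 1)` stages; for
`nst n ≤ bval R` it is `0`) -/
theorem cn_flip : CpV (j + mm n v w) (SS n v w ^ 4)
    (fun _ M => flipAt (sbit (n + 1) (bval (cn n v w j M).R)) (cn n v w j M).P) := by
  have h8 : 8 ≤ SS n v w ^ 4 := by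
    have := pow34 n v w
    have := pow3 n v w
    omega
  refine cpv (f := fun _ M => flipAt (sbit (n + 1) (bval (cn n v w j M).R)) (cn n v w j M).P)
    (fun i hi => ?_) h8
  have h1 : ∀ t < nst n, Cp (j + mm n v w) (116 * w + 50 + 8 + 7)
      (fun _ M => decide (bval (cn n v w j M).R = t) && decide (sbit (n + 1) t = i)) :=
    fun t _ => (eqConst (f := fun _ M => (cn n v w j M).R) (cR n v w j) t).and (Cp.const _ _)
  have h2 := (Cp.const (j + mm n v w) (decide (0 = i))).and
    (ltConst (f := fun _ M => (cn n v w j M).R) (cR n v w j) (nst n)).not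
  have h3 := (cP n v w j i).xor ((Cp.any (n := nst n) (f := fun t _ M =>
    decide (bval (cn n v w j M).R = t) && decide (sbit (n + 1) t = i)) h1).or h2)
  refine (h3.congr fun z M => ?_).mono le_rfl ?_
  · rw [gt_flipAt _ _ _ hi]
    congr 1
    rw [Bool.eq_iff_iff, Bool.or_eq_true, List.any_eq_true, Bool.and_eq_true,
      decide_eq_true_iff, decide_eq_true_iff, Bool.not_eq_true', decide_eq_false_iff_not]
    constructor
    · rintro (⟨t, -, ht⟩ | ⟨h4, h5⟩)
      · rw [Bool.and_eq_true, decide_eq_true_iff, decide_eq_true_iff] at ht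
        rw [ht.1]
        exact ht.2
      · rw [sbit_ge (by unfold nst at h5; omega)]
        exact h4
    · intro h4
      by_cases h5 : bval (cn n v w j M).R < nst n
      · exact Or.inl ⟨_, List.mem_range.2 h5, by simp [h4]⟩
      · refine Or.inr ⟨?_, h5⟩
        rw [sbit_ge (by unfold nst at h5; omega)] at h4
        exact h4
  · have e : nst n * (116 * w + 50 + 8 + 7 + 30) = 580 * (n * w) + 580 * w + 475 * n + 475 := by
      unfold nst; ring
    have := pow34 n v w
    have := pow3 n v w
    rw [e]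
    omega

end Pool.Agent.NUM.S3
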