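import Pool.Agent.NUM.S3LInp

/-! # the clauses are computable -/

namespace Pool.Agent.NUM.S3

variable (n v w j : ℕ)

private theorem hSS : 100 ≤ SS n v w := by unfold SS; omega

private theorem h2 : 8 ≤ SS n v w ^ 2 := by
  have := hSS n v w
  nlinarith

private theorem h23 : SS n v w ^ 2 * 100 ≤ SS n v w ^ 3 := by
  have := hSS n v w
  rw [pow_succ (SS n v w) 2]
  exact Nat.mul_le_mul le_rfl this

private theorem h34 : SS n v w ^ 3 * 100 ≤ SS n v w ^ 4 := by
  have := hSS n v w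
  rw [pow_succ (SS n v w) 3]
  exact Nat.mul_le_mul le_rfl this

private theorem h45 : SS n v w ^ 4 * 100 ≤ SS n v w ^ 5 := by
  have := hSS n v w
  rw [pow_succ (SS n v w) 4]
  exact Nat.mul_le_mul le_rfl this

private theorem h56 : SS n v w ^ 5 * 100 ≤ SS n v w ^ 6 := by
  have := hSS n v w
  rw [pow_succ (SS n v w) 5]
  exact Nat.mul_le_mul le_rfl this

/-- a name of constant fields except those given -/
private theorem cvP : CpV (j + mm n v w) 8 (fun _ M => (cn n v w j M).P) := (cn_ix n v w j).P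

private theorem cvI : CpV (j + mm n v w) 8 (fun _ M => (cn n v w j M).I) := (cn_ix n v w j).I

private theorem cvK : CpV (j + mm n v w) 8 (fun _ M => (cn n v w j M).K) := (cn_ix n v w j).K

private theorem cvR : CpV (j + mm n v w) 8 (fun _ M => (cn n v w j M).R) := (cn_ix n v w j).R

theorem cp_cl0 (sg : ℕ) (hsg : sg ≤ n) :
    CpCl (j + mm n v w) (SS n v w ^ 5) (fun z M => cl0 sg z (cn n v w j M)) := by
  have e2 := h2 n v w
  have e3 := h23 n v w
  have e4 := h34 n v w
  have e5 := h45 n v w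
  refine CpCl.mono (s := 2 * 8 + SS n v w ^ 3 + 8 + 31) ?_ (by omega)
  exact CpCl.ite (cn_top n v w j) (cp_dlit n v w j sg hsg) (CpCl.triv n v w _)

theorem cp_cl1 : CpCl (j + mm n v w) (SS n v w ^ 5) (fun _ M => cl1 (cn n v w j M)) := by
  have e2 := h2 n v w
  have e3 := h23 n v w
  have e4 := h34 n v w
  have e5 := h45 n v w
  have hc : Cp (j + mm n v w) (SS n v w ^ 3)
      (fun (_ : Inp) M => decide (gt (cn n v w j M).P n = true ∧
        ¬ (∀ i, (cn n v w j M).P i = true))) :=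
    (((cn_top n v w j).and (cn_allP n v w j).not).congr (by
      intro z M; simp only [Bool.decide_and, decide_not])).mono le_rfl (by omega)
  have h1 : CpIx (j + mm n v w) (SS n v w ^ 2)
      (fun (_ : Inp) M => vloc w (cn n v w j M).P kA (cn n v w j M).I) :=
    CpIx.vloc ((cvP n v w j).mono e2) ((CpV.const _ _).mono e2) ((cvI n v w j).mono e2) e2
  have h1' : CpIx (j + mm n v w) (SS n v w ^ 2)
      (fun (_ : Inp) M => vloc w (inc (cn n v w j M).P) kB (cn n v w j M).I) :=
    CpIx.vloc (cn_incP n v w j) ((CpV.const _ _).mono e2) ((cvI n v w j).mono e2) e2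
  refine CpCl.mono (s := 2 * SS n v w ^ 3 + (SS n v w ^ 2 + 5) + 8 + 31) ?_ (by omega)
  exact CpCl.ite hc (CpCl.eq ((cn_K n v w j 0).mono le_rfl e2) h1 h1') (CpCl.triv n v w _)

theorem cp_cl2 : CpCl (j + mm n v w) (SS n v w ^ 5) (fun _ M => cl2 (cn n v w j M)) := by
  have e2 := h2 n v w
  have e3 := h23 n v w
  have e4 := h34 n v w
  have e5 := h45 n v w
  refine CpCl.mono (s := SS n v w ^ 2) ?_ (by omega)
  exact CpCl.unit ((Cp.const _ _).mono le_rfl e2)
    (CpIx.vloc ((CpV.const _ _).mono e2) ((CpV.const _ _).mono e2) ((cvI n v w j).mono e2) e2)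

theorem cp_cl3 : CpCl (j + mm n v w) (SS n v w ^ 5) (fun _ _ => cl3 n v w) := by
  have e2 := h2 n v w
  have e3 := h23 n v w
  have e4 := h34 n v w
  have e5 := h45 n v w
  refine CpCl.mono (s := SS n v w ^ 2) ?_ (by omega)
  exact CpCl.unit ((Cp.const _ _).mono le_rfl e2)
    (CpIx.vloc ((CpV.const _ _).mono e2) ((CpV.const _ _).mono e2) ((CpV.const _ _).mono e2) e2)

theorem cp_cl4 : CpCl (j + mm n v w) (SS n v w ^ 5) (fun _ M => cl4 (cn n v w j M)) := by
  have e2 := h2 n v w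
  have e3 := h23 n v w
  have e4 := h34 n v w
  have e5 := h45 n v w
  refine CpCl.mono (s := 2 * SS n v w ^ 3 + SS n v w ^ 3 + 8 + 31) ?_ (by omega)
  refine CpCl.ite (cn_leI n v w j) (CpCl.unit (cn_selP n v w j) ?_) (CpCl.triv n v w _)
  exact CpIx.vloc ((cvP n v w j).mono (by omega)) ((CpV.const _ _).mono (by omega))
    ((cvI n v w j).mono (by omega)) (by omega)

theorem cp_cl5 : CpCl (j + mm n v w) (SS n v w ^ 5) (fun _ M => cl5 (cn n v w j M)) := by
  have e2 := h2 n v w
  have e3 := h23 n v w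
  have e4 := h34 n v w
  have e5 := h45 n v w
  refine CpCl.mono (s := 2 * SS n v w ^ 3 + SS n v w ^ 3 + 8 + 31) ?_ (by omega)
  refine CpCl.ite (cn_leI n v w j) (CpCl.unit (cn_selP n v w j) ?_) (CpCl.triv n v w _)
  exact CpIx.vnet ((CpV.const _ _).mono (by omega)) ((cvP n v w j).mono (by omega))
    ((Cp.const _ _).mono le_rfl (by omega)) ((cvI n v w j).mono (by omega)) (by omega)

theorem cp_cl6 : CpCl (j + mm n v w) (SS n v w ^ 5) (fun _ M => cl6 (cn n v w j M)) := by
  have e2 := h2 n v w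
  have e3 := h23 n v w
  have e4 := h34 n v w
  have e5 := h45 n v w
  refine CpCl.mono (s := 2 * 8 + (SS n v w ^ 2 + 5) + 8 + 31) ?_ (by omega)
  refine CpCl.ite (cn_top n v w j) (CpCl.eq ((cn_K n v w j 0).mono le_rfl e2) ?_ ?_)
    (CpCl.triv n v w _)
  · exact CpIx.vnet ((CpV.const _ _).mono e2) ((cvP n v w j).mono e2)
      ((Cp.const _ _).mono le_rfl e2) ((cvI n v w j).mono e2) e2
  · exact CpIx.vloc ((cvP n v w j).mono e2) ((CpV.const _ _).mono e2)
      ((cvI n v w j).mono e2) e2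

private theorem cl7_eq {n v w : ℕ} (z : Inp) (c : Ix n v w) :
    cl7 z c = if gt c.P n = true then ctriv n v w
      else if (inBit z c.P).isSome = true then
        cunit ((inBit z c.P).getD false) (vnet (zv w) c.P true (zv v))
      else ctriv n v w := by
  unfold cl7
  by_cases h : gt c.P n = true
  · rw [if_pos h, if_pos h]
  · rw [if_neg h, if_neg h]
    cases hb : inBit z c.P with
    | none => simp
    | some b => simp

theorem cp_cl7 : CpCl (j + mm n v w) (SS n v w ^ 5) (fun z M => cl7 z (cn n v w j M)) := by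
  have e2 := h2 n v w
  have e3 := h23 n v w
  have e4 := h34 n v w
  have e5 := h45 n v w
  have h0 : (fun z M => cl7 z (cn n v w j M)) = fun (z : Inp) (M : Mem) =>
      if gt (cn n v w j M).P n = true then ctriv n v w
      else if (inBit z (cn n v w j M).P).isSome = true then
        cunit ((inBit z (cn n v w j M).P).getD false) (vnet (zv w) (cn n v w j M).P true (zv v))
      else ctriv n v w := by
    funext z M; exact cl7_eq z _
  rw [h0]
  have hs : Cp (j + mm n v w) (SS n v w ^ 4)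
      (fun z M => decide ((inBit z (cn n v w j M).P).isSome = true)) :=
    (cp_inBit_some n v w j).congr (by intro z M; simp)
  refine CpCl.mono (s := 2 * 8 + 8 + (2 * SS n v w ^ 4 + SS n v w ^ 4 + 8 + 31) + 31) ?_ (by omega)
  refine CpCl.ite (cn_top n v w j) (CpCl.triv n v w _)
    (CpCl.ite hs (CpCl.unit (cp_inBit_val n v w j) ?_) (CpCl.triv n v w _))
  exact CpIx.vnet ((CpV.const _ _).mono (by omega)) ((cvP n v w j).mono (by omega))
    ((Cp.const _ _).mono le_rfl (by omega)) ((CpV.const _ _).mono (by omega)) (by omega)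

theorem cp_cl8 : CpCl (j + mm n v w) (SS n v w ^ 5) (fun _ M => cl8 (cn n v w j M)) := by
  have e2 := h2 n v w
  have e3 := h23 n v w
  have e4 := h34 n v w
  have e5 := h45 n v w
  have hK : ∀ i : Fin 3, Cp (j + mm n v w) 8 (fun (_ : Inp) M => (cn n v w j M).K i) :=
    cn_K n v w j
  have hK1 : Cp (j + mm n v w) 8
      (fun (_ : Inp) M => decide ((cn n v w j M).K 1 = true)) :=
    (hK 1).congr (by intro z M; simp)
  have hv : CpV (j + mm n v w) (2 * 8 + SS n v w ^ 4 + 8 + 31) (fun (_ : Inp) M =>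
      if (cn n v w j M).K 1 = true then
        flipAt (sbit (n + 1) (bval (cn n v w j M).R)) (cn n v w j M).P
      else (cn n v w j M).P) :=
    CpV.ite hK1 (cn_flip n v w j) (cvP n v w j)
  refine CpCl.mono (s := 2 * SS n v w ^ 3 + (SS n v w ^ 4 * 2) + 8 + 31) ?_ (by omega)
  refine CpCl.ite (cn_ltR n v w j) (CpCl.three ?_ ?_ ?_) (CpCl.triv n v w _)
  · exact ⟨((hK 1).not).mono le_rfl (by omega),
      CpIx.vsel ((cvR n v w j).mono (by omega)) ((cvP n v w j).mono (by omega)) (by omega)⟩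
  · exact ⟨(hK 2).mono le_rfl (by omega),
      CpIx.vnet ((cvR n v w j).mono (by omega)) (hv.mono (by omega))
        ((hK 0).mono le_rfl (by omega)) ((cvI n v w j).mono (by omega)) (by omega)⟩
  · exact ⟨((hK 2).not).mono le_rfl (by omega),
      CpIx.vnet ((cn_incR n v w j).mono (by omega)) ((cvP n v w j).mono (by omega))
        ((hK 0).mono le_rfl (by omega)) ((cvI n v w j).mono (by omega)) (by omega)⟩

theorem cp_cl9 : CpCl (j + mm n v w) (SS n v w ^ 5) (fun _ M => cl9 (cn n v w j M)) := by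
  have e2 := h2 n v w
  have e3 := h23 n v w
  have e4 := h34 n v w
  have e5 := h45 n v w
  have hK : ∀ i : Fin 3, Cp (j + mm n v w) 8 (fun (_ : Inp) M => (cn n v w j M).K i) :=
    cn_K n v w j
  have hK0 : Cp (j + mm n v w) 8
      (fun (_ : Inp) M => decide ((cn n v w j M).K 0 = true)) :=
    (hK 0).congr (by intro z M; simp)
  have hc : Cp (j + mm n v w) (SS n v w ^ 3 * 2) (fun (_ : Inp) M =>
      decide (gt (cn n v w j M).P n = true ∧
        ((cn n v w j M).K 0 = true ∨ bval (cn n v w j M).I ≤ n))) :=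
    (((cn_top n v w j).and (hK0.or (cn_leI n v w j))).congr (by
      intro z M; simp only [Bool.decide_and, Bool.decide_or])).mono le_rfl (by omega)
  have hv : CpV (j + mm n v w) 64 (fun (_ : Inp) M =>
      if (cn n v w j M).K 0 = true then kR else kK) :=
    CpV.mono (s := 2 * 8 + 8 + 8 + 31) (CpV.ite (s := 8) (t := 8) (u := 8) hK0 (CpV.const _ _)
      (CpV.const _ _)) (by omega)
  refine CpCl.mono (s := 2 * (SS n v w ^ 3 * 2) + (SS n v w ^ 2 + 5) + 8 + 31) ?_ (by omega)
  have e22 : 64 ≤ SS n v w ^ 2 := by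
    have := hSS n v w
    nlinarith
  refine CpCl.ite hc (CpCl.eq ((hK 1).mono le_rfl e2) ?_ ?_) (CpCl.triv n v w _)
  · exact CpIx.vnet ((CpV.const _ _).mono e2) ((cvP n v w j).mono e2)
      ((hK 0).mono le_rfl e2) ((cvI n v w j).mono e2) e2
  · exact CpIx.vloc ((cvP n v w j).mono e2) (hv.mono (by omega)) ((cvI n v w j).mono e2) e2

theorem cp_cls (sg : ℕ) (hsg : sg ≤ n) :
    CpCl (j + mm n v w) (SS n v w ^ 6) (fun z M => cls sg z (cn n v w j M)) := by
  have e2 := h2 n v w
  have e3 := h23 n v w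
  have e4 := h34 n v w
  have e5 := h45 n v w
  have e6 := h56 n v w
  have hT : ∀ t, Cp (j + mm n v w) (SS n v w ^ 2)
      (fun (_ : Inp) M => decide ((cn n v w j M).T = bvec 4 t)) := cn_tag n v w j
  refine CpCl.mono (s := 2 * SS n v w ^ 2 + SS n v w ^ 5 + (2 * SS n v w ^ 2 + SS n v w ^ 5 +
    (2 * SS n v w ^ 2 + SS n v w ^ 5 + (2 * SS n v w ^ 2 + SS n v w ^ 5 +
    (2 * SS n v w ^ 2 + SS n v w ^ 5 + (2 * SS n v w ^ 2 + SS n v w ^ 5 +
    (2 * SS n v w ^ 2 + SS n v w ^ 5 + (2 * SS n v w ^ 2 + SS n v w ^ 5 +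
    (2 * SS n v w ^ 2 + SS n v w ^ 5 + (2 * SS n v w ^ 2 + SS n v w ^ 5 +
    8 + 31) + 31) + 31) + 31) + 31) + 31) + 31) + 31) + 31) + 31) ?_ (by omega)
  unfold cls
  exact CpCl.ite (hT 0) (cp_cl0 n v w j sg hsg) (CpCl.ite (hT 1) (cp_cl1 n v w j)
    (CpCl.ite (hT 2) (cp_cl2 n v w j) (CpCl.ite (hT 3) (cp_cl3 n v w j)
    (CpCl.ite (hT 4) (cp_cl4 n v w j) (CpCl.ite (hT 5) (cp_cl5 n v w j)
    (CpCl.ite (hT 6) (cp_cl6 n v w j) (CpCl.ite (hT 7) (cp_cl7 n v w j)
    (CpCl.ite (hT 8) (cp_cl8 n v w j) (CpCl.ite (hT 9) (cp_cl9 n v w j)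
    (CpCl.triv n v w _))))))))))

end Pool.Agent.NUM.S3
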