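import Pool.Agent.NUM.S3Bv
import Pool.Agent.NUM.CpArith
import Pool.Agent.NUM.Local

/-! # computable names, literals, clauses

`CpIx b s f`: all digits of the fields of the name `f z M` are computable by code of size `s`
(cells below `b`); `CpLit`, `CpCl` for literals and clauses. -/

namespace Pool.Agent.NUM.S3

/-- a computable name -/
structure CpIx {n v w : ℕ} (b s : ℕ) (f : Inp → Mem → Ix n v w) : Prop where
  T : ∀ i, Cp b s (fun z M => gt (f z M).T i)
  P : ∀ i, Cp b s (fun z M => gt (f z M).P i)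
  I : ∀ i, Cp b s (fun z M => gt (f z M).I i)
  K : ∀ i, Cp b s (fun z M => gt (f z M).K i)
  R : ∀ i, Cp b s (fun z M => gt (f z M).R i)

/-- a computable vector -/
def CpV {k : ℕ} (b s : ℕ) (f : Inp → Mem → BV k) : Prop := ∀ i, Cp b s (fun z M => gt (f z M) i)

/-- a computable literal -/
def CpLit {n v w : ℕ} (b s : ℕ) (f : Inp → Mem → Lit n v w) : Prop :=
  Cp b s (fun z M => (f z M).1) ∧ CpIx b s (fun z M => (f z M).2)

/-- a computable clause -/
def CpCl {n v w : ℕ} (b s : ℕ) (f : Inp → Mem → Fin 3 → Lit n v w) : Prop :=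
  ∀ j, CpLit b s (fun z M => f z M j)

variable {n v w b s t u : ℕ}

theorem CpV.mono {k : ℕ} {f : Inp → Mem → BV k} (h : CpV b s f) (hs : s ≤ t) : CpV b t f := by
  exact fun i => (h i).mono le_rfl hs

theorem CpV.const {k : ℕ} (b : ℕ) (x : BV k) : CpV b 8 (fun _ _ => x) := by
  exact fun i => Cp.const b (gt x i)

/-- a vector is computable if its digits below `k` are -/
theorem CpV.mk {k : ℕ} {f : Inp → Mem → BV k} (h : ∀ i < k, Cp b s (fun z M => gt (f z M) i))
    (hs : 8 ≤ s) : CpV b s f := by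
  intro i
  by_cases hi : i < k
  · exact h i hi
  · exact ((Cp.const b false).mono le_rfl hs).congr (fun z M => (gt_of_le _ (Nat.not_lt.1 hi)).symm)

theorem CpV.ite {k : ℕ} {c : Inp → Mem → Prop} [∀ z M, Decidable (c z M)]
    {f g : Inp → Mem → BV k} (hc : Cp b s (fun z M => decide (c z M))) (hf : CpV b t f)
    (hg : CpV b u g) : CpV b (2 * s + t + u + 31) (fun z M => if c z M then f z M else g z M) := by
  intro i
  refine (Cp.ite hc (hf i) (hg i)).congr (fun z M => ?_)
  by_cases h : c z M
  · simp only [h, decide_true, cond_true, if_true]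
  · simp only [h, decide_false, cond_false, if_false]

theorem CpIx.mk' {T : Inp → Mem → BV 4} {P : Inp → Mem → BV (n + 1)} {I : Inp → Mem → BV v}
    {K : Inp → Mem → BV 3} {R : Inp → Mem → BV w} (hT : CpV b s T) (hP : CpV b s P)
    (hI : CpV b s I) (hK : CpV b s K) (hR : CpV b s R) :
    CpIx b s (fun z M => (⟨T z M, P z M, I z M, K z M, R z M⟩ : Ix n v w)) := by
  exact ⟨hT, hP, hI, hK, hR⟩

theorem CpIx.mono {f : Inp → Mem → Ix n v w} (h : CpIx b s f) (hs : s ≤ t) : CpIx b t f := by
  exact ⟨fun i => (h.T i).mono le_rfl hs, fun i => (h.P i).mono le_rfl hs,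
    fun i => (h.I i).mono le_rfl hs, fun i => (h.K i).mono le_rfl hs,
    fun i => (h.R i).mono le_rfl hs⟩

/-- digits of the code of a computable name -/
theorem CpIx.code {f : Inp → Mem → Ix n v w} (h : CpIx b s f) (hs : 8 ≤ s) (i : ℕ) :
    Cp b s (fun z M => gt (f z M).code i) := by
  by_cases hi : i < mm n v w
  · by_cases h1 : i < 4
    · refine (h.T i).congr (fun z M => ?_)
      rw [gt_of_lt _ hi]
      simp only [Ix.code]
      rw [if_pos h1]
    by_cases h2 : i < 4 + (n + 1)
    · refine (h.P (i - 4)).congr (fun z M => ?_)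
      rw [gt_of_lt _ hi]
      simp only [Ix.code]
      rw [if_neg h1, if_pos h2]
    by_cases h3 : i < 4 + (n + 1) + v
    · refine (h.I (i - (4 + (n + 1)))).congr (fun z M => ?_)
      rw [gt_of_lt _ hi]
      simp only [Ix.code]
      rw [if_neg h1, if_neg h2, if_pos h3]
    by_cases h4 : i < 4 + (n + 1) + v + 3
    · refine (h.K (i - (4 + (n + 1) + v))).congr (fun z M => ?_)
      rw [gt_of_lt _ hi]
      simp only [Ix.code]
      rw [if_neg h1, if_neg h2, if_neg h3, if_pos h4]
    · refine (h.R (i - (4 + (n + 1) + v + 3))).congr (fun z M => ?_)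
      rw [gt_of_lt _ hi]
      simp only [Ix.code]
      rw [if_neg h1, if_neg h2, if_neg h3, if_neg h4]
  · exact ((Cp.const b false).mono le_rfl hs).congr
      (fun z M => (gt_of_le _ (Nat.not_lt.1 hi)).symm)

theorem CpIx.vloc {P : Inp → Mem → BV (n + 1)} {K : Inp → Mem → BV 3} {I : Inp → Mem → BV v}
    (hP : CpV b s P) (hK : CpV b s K) (hI : CpV b s I) (hs : 8 ≤ s) :
    CpIx b s (fun z M => vloc w (P z M) (K z M) (I z M)) := by
  exact CpIx.mk' ((CpV.const b _).mono hs) hP hI hK ((CpV.const b _).mono hs)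

theorem CpIx.vnet {R : Inp → Mem → BV w} {P : Inp → Mem → BV (n + 1)} {e : Inp → Mem → Bool}
    {I : Inp → Mem → BV v} (hR : CpV b s R) (hP : CpV b s P) (he : Cp b s e) (hI : CpV b s I)
    (hs : 8 ≤ s) : CpIx b s (fun z M => vnet (R z M) (P z M) (e z M) (I z M)) := by
  refine CpIx.mk' ((CpV.const b _).mono hs) hP hI (CpV.mk (fun i hi => ?_) hs) hR
  have hf : Cp b s (fun _ _ => false) := (Cp.const b false).mono le_rfl hs
  interval_cases i
  · exact he.congr (fun z M => by simp [gt])
  · exact hf.congr (fun z M => by simp [gt])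
  · exact hf.congr (fun z M => by simp [gt])

theorem CpIx.vsel {R : Inp → Mem → BV w} {P : Inp → Mem → BV (n + 1)} (hR : CpV b s R)
    (hP : CpV b s P) (hs : 8 ≤ s) : CpIx b s (fun z M => vsel v (R z M) (P z M)) := by
  exact CpIx.mk' ((CpV.const b _).mono hs) hP ((CpV.const b _).mono hs) ((CpV.const b _).mono hs) hR

theorem CpIx.ite {c : Inp → Mem → Prop} [∀ z M, Decidable (c z M)]
    {f g : Inp → Mem → Ix n v w} (hc : Cp b s (fun z M => decide (c z M))) (hf : CpIx b t f)
    (hg : CpIx b u g) : CpIx b (2 * s + t + u + 31) (fun z M => if c z M then f z M else g z M) := by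
  have key : ∀ (i : ℕ) {k : ℕ} (F : Ix n v w → BV k), Cp b t (fun z M => gt (F (f z M)) i) →
      Cp b u (fun z M => gt (F (g z M)) i) →
      Cp b (2 * s + t + u + 31) (fun z M => gt (F (if c z M then f z M else g z M)) i) := by
    intro i k F h1 h2
    refine (Cp.ite hc h1 h2).congr (fun z M => ?_)
    by_cases h : c z M
    · simp only [h, decide_true, cond_true, if_true]
    · simp only [h, decide_false, cond_false, if_false]
  exact ⟨fun i => key i Ix.T (hf.T i) (hg.T i), fun i => key i Ix.P (hf.P i) (hg.P i),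
    fun i => key i Ix.I (hf.I i) (hg.I i), fun i => key i Ix.K (hf.K i) (hg.K i),
    fun i => key i Ix.R (hf.R i) (hg.R i)⟩

theorem CpCl.mono {f : Inp → Mem → Fin 3 → Lit n v w} (h : CpCl b s f) (hs : s ≤ t) :
    CpCl b t f := by
  exact fun j => ⟨(h j).1.mono le_rfl hs, (h j).2.mono hs⟩

theorem CpCl.ite {c : Inp → Mem → Prop} [∀ z M, Decidable (c z M)]
    {f g : Inp → Mem → Fin 3 → Lit n v w} (hc : Cp b s (fun z M => decide (c z M)))
    (hf : CpCl b t f) (hg : CpCl b u g) :
    CpCl b (2 * s + t + u + 31) (fun z M => if c z M then f z M else g z M) := by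
  intro j
  have e : ∀ z M, (if c z M then f z M else g z M) j = if c z M then f z M j else g z M j := by
    intro z M
    split <;> rfl
  refine ⟨?_, ?_⟩
  · refine (Cp.ite hc (hf j).1 (hg j).1).congr (fun z M => ?_)
    by_cases h : c z M
    · simp only [h, decide_true, cond_true, if_true]
    · simp only [h, decide_false, cond_false, if_false]
  · have h := CpIx.ite hc (hf j).2 (hg j).2
    have e2 : (fun z M => ((if c z M then f z M else g z M) j).2) =
        fun z M => if c z M then (f z M j).2 else (g z M j).2 := by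
      funext z M
      rw [e]
      split <;> rfl
    rw [e2]
    exact h

theorem CpCl.triv (n v w b : ℕ) : CpCl b 8 (fun _ _ => ctriv n v w) := by
  have hx : CpIx b 8 (fun _ _ => (⟨zv 4, zv _, zv v, zv 3, zv w⟩ : Ix n v w)) :=
    CpIx.mk' (CpV.const b _) (CpV.const b _) (CpV.const b _) (CpV.const b _) (CpV.const b _)
  intro j
  fin_cases j
  · exact ⟨Cp.const b true, hx⟩
  · exact ⟨Cp.const b false, hx⟩
  · exact ⟨Cp.const b true, hx⟩

theorem CpCl.unit {e : Inp → Mem → Bool} {f : Inp → Mem → Ix n v w} (he : Cp b s e)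
    (hf : CpIx b s f) : CpCl b s (fun z M => cunit (e z M) (f z M)) := by
  intro j
  fin_cases j
  · exact ⟨he, hf⟩
  · exact ⟨he, hf⟩
  · exact ⟨he, hf⟩

theorem CpCl.eq {e : Inp → Mem → Bool} {f g : Inp → Mem → Ix n v w} (he : Cp b s e)
    (hf : CpIx b s f) (hg : CpIx b s g) :
    CpCl b (s + 5) (fun z M => ceq (e z M) (f z M) (g z M)) := by
  intro j
  fin_cases j
  · exact ⟨he.mono le_rfl (by omega), hf.mono (by omega)⟩
  · exact ⟨he.not, hg.mono (by omega)⟩
  · exact ⟨he.not, hg.mono (by omega)⟩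

/-- three literals -/
theorem CpCl.three {f g h : Inp → Mem → Lit n v w} (hf : CpLit b s f) (hg : CpLit b s g)
    (hh : CpLit b s h) : CpCl b s (fun z M => ![f z M, g z M, h z M]) := by
  intro j
  fin_cases j
  · exact hf
  · exact hg
  · exact hh

end Pool.Agent.NUM.S3
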