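import Pool.Agent.NUM.S3LBasic

/-! # the bits which are read from the input -/

namespace Pool.Agent.NUM.S3

/-- a computable list of bits of fixed length -/
def CpL (b s k : ℕ) (f : Inp → Mem → List Bool) : Prop :=
  (∀ z M, (f z M).length = k) ∧ ∀ i, Cp b s (fun z M => (f z M).getD i false)

section

variable {b s k l : ℕ} {f g : Inp → Mem → List Bool}

theorem CpL.const (b : ℕ) (a : List Bool) : CpL b 8 a.length (fun _ _ => a) :=
  ⟨fun _ _ => rfl, fun i => Cp.const b (a.getD i false)⟩

theorem CpL.mono {t : ℕ} (h : CpL b s k f) (hs : s ≤ t) : CpL b t k f :=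
  ⟨h.1, fun i => (h.2 i).mono le_rfl hs⟩

theorem CpL.append (hf : CpL b s k f) (hg : CpL b s l g) :
    CpL b s (k + l) (fun z M => f z M ++ g z M) := by
  refine ⟨fun z M => by rw [List.length_append, hf.1, hg.1], fun i => ?_⟩
  by_cases hi : i < k
  · refine (hf.2 i).congr fun z M => ?_
    simp only [List.getD_eq_getElem?_getD]
    rw [List.getElem?_append_left (by rw [hf.1]; exact hi)]
  · refine (hg.2 (i - k)).congr fun z M => ?_
    simp only [List.getD_eq_getElem?_getD]
    rw [List.getElem?_append_right (by rw [hf.1]; omega), hf.1]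

theorem CpL.range {h : ℕ → Inp → Mem → Bool} (hh : ∀ i < k, Cp b s (h i)) (hs : 8 ≤ s) :
    CpL b s k (fun z M => (List.range k).map fun i => h i z M) := by
  refine ⟨fun z M => by simp, fun i => ?_⟩
  by_cases hi : i < k
  · refine (hh i hi).congr fun z M => ?_
    simp [hi]
  · refine ((Cp.const b false).congr fun z M => ?_).mono le_rfl hs
    simp [hi]

theorem CpL.ofFn {k : ℕ} {f : Inp → Mem → BV k} (hf : CpV b s f) (hs : 8 ≤ s) :
    CpL b s k (fun z M => List.ofFn (f z M)) := by
  refine ⟨fun z M => by simp, fun i => ?_⟩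
  by_cases hi : i < k
  · refine (hf i).congr fun z M => ?_
    rw [gt_of_lt _ hi]
    simp [hi]
  · refine ((Cp.const b false).congr fun z M => ?_).mono le_rfl hs
    simp [hi]

theorem CpL.ask (hf : CpL b s k f) : Cp b (k * (s + 1) + 2 * k + 1) (fun z M => z (f z M)) := by
  refine (Cp.ask (k := k) (g := fun i z M => (f z M).getD i false) fun i _ => hf.2 i).congr
    fun z M => ?_
  have := map_getD_range (f z M)
  rw [hf.1 z M] at this
  rw [this]

end

variable (n v w j : ℕ)

theorem SS_pow_le {a c : ℕ} (h : a ≤ c) : SS n v w ^ a ≤ SS n v w ^ c :=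
  Nat.pow_le_pow_right (by unfold SS; omega) h

/-- a bit of a local clause, cost before rounding -/
theorem cp_dbit' (sg : ℕ) (s i : ℕ) :
    Cp (j + mm n v w) (11 * (sg + 2 * v + 9) + 1)
      (fun z M => dbit sg z (cn n v w j M).P (cn n v w j M).I (cn n v w j M).K s i) := by
  have hix := cn_ix n v w j
  have h1 : CpL (j + mm n v w) 8 sg (fun _ M => (List.range sg).map fun i =>
      gt (cn n v w j M).P i) := CpL.range (fun i _ => hix.P i) le_rfl
  have h2 : CpL (j + mm n v w) 8 v (fun _ M => List.ofFn (cn n v w j M).I) :=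
    CpL.ofFn (fun i => hix.I i) le_rfl
  have h3 : CpL (j + mm n v w) 8 3 (fun _ M => List.ofFn (cn n v w j M).K) :=
    CpL.ofFn (fun i => hix.K i) le_rfl
  have h4 := CpL.const (j + mm n v w) (bits 2 s)
  have h5 := CpL.const (j + mm n v w) (bits (v + 3) i)
  have h0 := CpL.const (j + mm n v w) [false]
  rw [Pool.Agent.NUM.length_bits] at h4 h5
  have h := (h0.append ((((h1.append h2).append h3).append h4).append h5)).ask
  refine (h.congr fun z M => ?_).mono le_rfl ?_
  · rfl
  · simp only [List.length_singleton]
    omega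

/-- a bit of a local clause -/
theorem cp_dbit (sg : ℕ) (hsg : sg ≤ n) (s i : ℕ) :
    Cp (j + mm n v w) (SS n v w ^ 3)
      (fun z M => dbit sg z (cn n v w j M).P (cn n v w j M).I (cn n v w j M).K s i) := by
  refine (cp_dbit' n v w j sg s i).mono le_rfl ?_
  have h1 : SS n v w ^ 2 ≤ SS n v w ^ 3 := SS_pow_le n v w (by norm_num)
  have h2 : 100 * SS n v w ≤ SS n v w ^ 2 := by
    rw [pow_two]
    exact Nat.mul_le_mul_right _ (by unfold SS; omega)
  have h3 : 11 * (sg + 2 * v + 9) + 1 ≤ 100 * SS n v w := by unfold SS; omega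
  omega

theorem cp_dlit (sg : ℕ) (hsg : sg ≤ n) :
    CpCl (j + mm n v w) (SS n v w ^ 3)
      (fun z M => dlit w sg z (cn n v w j M).P (cn n v w j M).I (cn n v w j M).K) := by
  intro s
  have hS : 8 ≤ SS n v w ^ 3 := by
    have h1 : SS n v w ^ 1 ≤ SS n v w ^ 3 := SS_pow_le n v w (by norm_num)
    have h2 : 8 ≤ SS n v w := by unfold SS; omega
    rw [pow_one] at h1
    omega
  have hix := cn_ix n v w j
  refine ⟨cp_dbit n v w j sg hsg s 0, ?_⟩
  refine CpIx.vloc (P := fun _ M => (cn n v w j M).P)
    (K := fun z M i => dbit sg z (cn n v w j M).P (cn n v w j M).I (cn n v w j M).K s (1 + i))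
    (I := fun z M i => dbit sg z (cn n v w j M).P (cn n v w j M).I (cn n v w j M).K s (4 + i))
    (fun i => (hix.P i).mono le_rfl hS) ?_ ?_ hS
  · refine CpV.mk (fun i hi => ?_) hS
    refine (cp_dbit n v w j sg hsg s (1 + i)).congr fun z M => ?_
    rw [gt_of_lt _ hi]
  · refine CpV.mk (fun i hi => ?_) hS
    refine (cp_dbit n v w j sg hsg s (4 + i)).congr fun z M => ?_
    rw [gt_of_lt _ hi]

/-! ### the last digit `1` -/

theorem lastOne_eq_iff {n : ℕ} (P : BV (n + 1)) {l : ℕ} (hl : l ≠ 0) :
    lastOne P = l ↔ l ≤ n ∧ gt P (l - 1) = true ∧ ∀ i, l ≤ i → i < n → gt P i = false := by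
  unfold lastOne
  rw [Nat.findGreatest_eq_iff]
  constructor
  · rintro ⟨h1, h2, h3⟩
    refine ⟨h1, (h2 hl).2, fun i hi hin => ?_⟩
    have := h3 (n := i + 1) (by omega) (by omega)
    simp only [Nat.add_sub_cancel, not_and] at this
    simpa using this (by omega)
  · rintro ⟨h1, h2, h3⟩
    refine ⟨h1, fun _ => ⟨hl, h2⟩, ?_⟩
    intro i hi hin
    rintro ⟨_, h4⟩
    rw [h3 (i - 1) (by omega) (by omega)] at h4
    cases h4

theorem lastOne_eq_zero_iff {n : ℕ} (P : BV (n + 1)) :
    lastOne P = 0 ↔ ∀ i < n, gt P i = false := by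
  unfold lastOne
  rw [Nat.findGreatest_eq_zero_iff]
  constructor
  · intro h i hi
    have := h (n := i + 1) (by omega) (by omega)
    simp only [Nat.add_sub_cancel, not_and] at this
    simpa using this (by omega)
  · intro h i hi hin
    rintro ⟨_, h4⟩
    rw [h (i - 1) (by omega)] at h4
    cases h4

/-- the conjunction of the negated digits `l, …, n - 1` -/
theorem cp_tail {l : ℕ} :
    Cp (j + mm n v w) (n * 43 + 30)
      (fun _ M => (List.range n).all fun i => decide (i < l) || !gt (cn n v w j M).P i) := by
  refine (Cp.all (n := n) (s := 13)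
    (f := fun i _ M => decide (i < l) || !gt (cn n v w j M).P i) fun i _ => ?_).mono le_rfl
    (by omega)
  by_cases hi : i < l
  · refine ((Cp.const (j + mm n v w) true).congr fun z M => ?_).mono le_rfl (by omega)
    simp [hi]
  · refine (((cn_ix n v w j).P i).not.congr fun z M => ?_).mono le_rfl (by omega)
    simp [hi]

theorem tail_iff {n l : ℕ} (P : BV (n + 1)) :
    ((List.range n).all fun i => decide (i < l) || !gt P i) = true ↔
      ∀ i, l ≤ i → i < n → gt P i = false := by
  rw [List.all_eq_true]
  simp only [List.mem_range, Bool.or_eq_true, decide_eq_true_eq, Bool.not_eq_true']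
  constructor
  · intro h i hi hin
    rcases h i hin with h1 | h1
    · omega
    · exact h1
  · intro h i hin
    by_cases hi : i < l
    · exact Or.inl hi
    · exact Or.inr (h i (by omega) hin)

/-- is the input bit forced? (`lastOne P = l` iff digit `l - 1` is `1` and the digits
`l, …, n - 1` are `0`) -/
theorem cp_inBit_some :
    Cp (j + mm n v w) (SS n v w ^ 4)
      (fun z M => (inBit z (cn n v w j M).P).isSome) := by
  have hix := cn_ix n v w j
  have h0 := cp_tail n v w j (l := 0)
  have h1 := cp_tail n v w j (l := 1)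
  have h := (h0.not).and (h1.or (hix.P 0).not)
  refine (h.congr fun z M => ?_).mono le_rfl ?_
  · set P := (cn n v w j M).P with hP
    have t0 := tail_iff (l := 0) P
    have t1 := tail_iff (l := 1) P
    unfold inBit
    by_cases e0 : lastOne P = 0
    · rw [if_pos e0]
      have := (lastOne_eq_zero_iff P).1 e0
      have h2 : ((List.range n).all fun i => decide (i < 0) || !gt P i) = true :=
        t0.2 fun i _ hi => this i hi
      rw [h2]
      rfl
    · rw [if_neg e0]
      have h2 : ((List.range n).all fun i => decide (i < 0) || !gt P i) = false := by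
        by_contra h3
        rw [Bool.not_eq_false] at h3
        exact e0 ((lastOne_eq_zero_iff P).2 fun i hi => t0.1 h3 i (by omega) hi)
      rw [h2]
      by_cases e1 : lastOne P = 1
      · rw [if_pos e1]
        have := (lastOne_eq_iff P (by norm_num)).1 e1
        have h3 : ((List.range n).all fun i => decide (i < 1) || !gt P i) = true :=
          t1.2 this.2.2
        rw [h3]
        rfl
      · rw [if_neg e1]
        by_cases e2 : gt P 0 = true
        · rw [if_pos e2]
          have h3 : ((List.range n).all fun i => decide (i < 1) || !gt P i) = false := by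
            by_contra h3
            rw [Bool.not_eq_false] at h3
            refine e1 ((lastOne_eq_iff P (by norm_num)).2 ⟨?_, e2, t1.1 h3⟩)
            by_contra h4
            exact e0 ((lastOne_eq_zero_iff P).2 fun i hi => by omega)
          rw [h3, e2]
          rfl
        · rw [if_neg e2]
          rw [Bool.not_eq_true] at e2
          rw [e2]
          simp
  · have h1 : SS n v w ^ 2 ≤ SS n v w ^ 4 := SS_pow_le n v w (by norm_num)
    have h2 : 100 * SS n v w ≤ SS n v w ^ 2 := by
      rw [pow_two]
      exact Nat.mul_le_mul_right _ (by unfold SS; omega)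
    have h3 : 86 * n + 200 ≤ 100 * SS n v w := by unfold SS; omega
    omega

/-- its value: a disjunction over `l = lastOne P ≤ n` of asks of length `l - 2` -/
theorem cp_inBit_val :
    Cp (j + mm n v w) (SS n v w ^ 4)
      (fun z M => (inBit z (cn n v w j M).P).getD false) := by
  have hix := cn_ix n v w j
  have hl : ∀ l < n + 1, Cp (j + mm n v w) (54 * n + 200) (fun z M =>
      decide (2 ≤ l) && ((gt (cn n v w j M).P (l - 1) &&
        (List.range n).all fun i => decide (i < l) || !gt (cn n v w j M).P i) &&
        z ((List.range (l - 2)).map fun i => gt (cn n v w j M).P (i + 1)))) := by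
    intro l hl
    have ha : Cp (j + mm n v w) ((l - 2) * (8 + 1) + 2 * (l - 2) + 1)
        (fun z M => z ((List.range (l - 2)).map fun i => gt (cn n v w j M).P (i + 1))) :=
      Cp.ask fun i _ => hix.P (i + 1)
    by_cases h2 : 2 ≤ l
    · refine ((((hix.P (l - 1)).and (cp_tail n v w j (l := l))).and ha).congr
        fun z M => ?_).mono le_rfl (by omega)
      simp [h2]
    · refine ((Cp.const (j + mm n v w) false).congr fun z M => ?_).mono le_rfl (by omega)
      simp [h2]
  have h := ((hix.P 0).not).and (Cp.any hl)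
  refine (h.congr fun z M => ?_).mono le_rfl ?_
  · set P := (cn n v w j M).P with hP
    unfold inBit
    rw [Bool.eq_iff_iff]
    simp only [Bool.and_eq_true, List.any_eq_true, List.mem_range, decide_eq_true_eq,
      Bool.not_eq_true']
    constructor
    · rintro ⟨p0, l, hln, hl2, ⟨g1, g2⟩, g3⟩
      have e : lastOne P = l :=
        (lastOne_eq_iff P (by omega)).2 ⟨by omega, g1, (tail_iff P).1 g2⟩
      rw [if_neg (by omega), if_neg (by omega), if_neg (by rw [p0]; simp), e]
      exact g3
    · intro h3
      by_cases e0 : lastOne P = 0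
      · rw [if_pos e0] at h3; simp at h3
      · rw [if_neg e0] at h3
        by_cases e1 : lastOne P = 1
        · rw [if_pos e1] at h3; simp at h3
        · rw [if_neg e1] at h3
          by_cases e2 : gt P 0 = true
          · rw [if_pos e2] at h3; simp at h3
          · rw [if_neg e2] at h3
            have h4 := (lastOne_eq_iff P e0).1 rfl
            refine ⟨by simpa using e2, lastOne P, by omega, by omega,
              ⟨h4.2.1, (tail_iff P).2 h4.2.2⟩, by simpa using h3⟩
  · have h1 : SS n v w ^ 3 ≤ SS n v w ^ 4 := SS_pow_le n v w (by norm_num)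
    have h2 : 100 * (SS n v w * SS n v w) ≤ SS n v w ^ 3 := by
      rw [pow_succ, pow_two, Nat.mul_comm]
      exact Nat.mul_le_mul_left _ (by unfold SS; omega)
    have h3 : n + 100 ≤ SS n v w := by unfold SS; omega
    have h4 : (n + 100) * (n + 100) ≤ SS n v w * SS n v w := Nat.mul_le_mul h3 h3
    have h5 : (n + 1) * (54 * n + 200 + 30) + 30 + 30 ≤ 100 * ((n + 100) * (n + 100)) := by
      nlinarith
    omega

end Pool.Agent.NUM.S3
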