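import Pool.Agent.NUM.S3LCls

/-! # the formula is a local function of the input -/

namespace Pool.Agent.NUM.S3

theorem lnum_word (M : Mem) (j k : ℕ) : lnum (word M j k) = num k fun i => M (j + i) := by
  unfold lnum
  rw [word_length]
  apply num_congr
  intro i hi
  simp [word, List.getD_eq_getElem?_getD, hi]

theorem word_drop (M : Mem) (j k d : ℕ) : (word M j k).drop d = word M (j + d) (k - d) := by
  apply List.ext_getElem
  · simp [word]
  · intro i h1 h2
    simp [word, add_assoc]

theorem word_take (M : Mem) (j k d : ℕ) (h : d ≤ k) : (word M j k).take d = word M j d := by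
  apply List.ext_getElem
  · simp [word, h]
  · intro i h1 h2
    simp [word]

/-- bit number `pos` of literal `slot` of the clause named in the memory -/
def litBit (n v w sg j slot pos : ℕ) (z : Inp) (M : Mem) : Bool :=
  if slot < 3 then
    let l := cls (n := n) (v := v) (w := w) sg z (cn n v w j M)
      ⟨slot % 3, Nat.mod_lt _ (by norm_num)⟩
    if pos = 0 then l.1 else gt l.2.code (pos - 1)
  else false

theorem cp_litBit (n v w sg j slot pos : ℕ) (hsg : sg ≤ n) :
    Cp (j + mm n v w) (SS n v w ^ 6) (litBit n v w sg j slot pos) := by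
  have h8 : 8 ≤ SS n v w ^ 6 := by
    have : 100 ≤ SS n v w := by unfold SS; omega
    calc 8 ≤ 100 ^ 6 := by norm_num
      _ ≤ SS n v w ^ 6 := Nat.pow_le_pow_left this 6
  unfold litBit
  by_cases hs : slot < 3
  · simp only [hs, if_true]
    have h1 := cp_cls n v w j sg hsg ⟨slot % 3, Nat.mod_lt _ (by norm_num)⟩
    by_cases hp : pos = 0
    · simp only [hp, if_true]
      exact h1.1
    · simp only [hp, if_false]
      exact h1.2.code h8 (pos - 1)
  · simp only [hs, if_false]
    exact (Cp.const _ false).mono le_rfl h8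

theorem arith_Phi (Y X2 X7 X1 X8 : ℕ) (h1 : Y ≤ X2 + 2 * X7 + X1) (h2 : X2 ≤ X7) (h3 : X1 ≤ X7)
    (h4 : 100 * X7 ≤ X8) (h5 : 1000 ≤ X7) :
    2 ^ 2 * (2 * (2 * 2 + 100) + (Y + 50) + 200) + 50 ≤ X8 := by
  have e : 2 ^ 2 * (2 * (2 * 2 + 100) + (Y + 50) + 200) + 50 = 4 * Y + 1882 := by ring
  linarith

/-- (for `k ≠ satLen (mm n v w)` the value is `false`; otherwise the slot `< 3` and the position
`≤ mm n v w` are found by a disjunction over all constants, `lnum` of a list of cells is `num`) -/
theorem loc_Phi (n v w sg : ℕ) (hsg : sg ≤ n) (l : ℕ) :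
    Loc l (SS n v w ^ 8) (fun z => Phi n v w sg z) := by
  intro k hk j
  set S := SS n v w with hS
  have hS100 : 100 ≤ S := by rw [hS]; unfold SS; omega
  have h8 : 8 ≤ S ^ 8 := by
    calc 8 ≤ 100 ^ 8 := by norm_num
      _ ≤ S ^ 8 := Nat.pow_le_pow_left hS100 8
  set m := mm n v w with hm
  have hmS : m ≤ S := by rw [hm, hS]; unfold mm SS; omega
  by_cases hkl : k = satLen m
  · have hk' : k = m + 2 + Nat.size m := hkl
    set q := Nat.size m with hq
    have hm0 : m ≠ 0 := by rw [hm]; unfold mm; omega
    have hq1 : 1 ≤ q := Nat.size_pos.2 (Nat.pos_of_ne_zero hm0)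
    have h2q : 2 ^ q ≤ 2 * S := by
      obtain ⟨r, hr⟩ : ∃ r, q = r + 1 := ⟨q - 1, by omega⟩
      have h2 : 2 ^ r ≤ m := Nat.lt_size.1 (by omega)
      rw [hr, pow_succ]
      omega
    have hqS : q ≤ S := by
      have : q < 2 ^ q := Nat.lt_two_pow_self
      have h3 : q ≤ m := by
        rw [hq, Nat.size_le]
        exact Nat.lt_two_pow_self
      omega
    -- the bit with computed slot and position
    have hcell : ∀ i, i < k → Cp (j + k) 2 (fun _ M => M (j + i)) := fun i hi =>
      Cp.cell (by omega)
    have h1 : ∀ slot < 2 ^ 2, Cp (j + k) (2 ^ q * (q * (2 * 2 + 100) + S ^ 6 + 200) + 50)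
        (fun z M => litBit n v w sg j slot (num q fun i => M (j + (m + 2) + i)) z M) := by
      intro slot _
      refine Cp.sel (n := q) (s := 2) (t := S ^ 6) (g := fun i _ M => M (j + (m + 2) + i))
        (f := fun pos z M => litBit n v w sg j slot pos z M) ?_ ?_
      · intro i hi
        have := hcell (m + 2 + i) (by omega)
        simpa only [add_assoc] using this
      · intro pos _
        exact (cp_litBit n v w sg j slot pos hsg).mono (by omega) le_rfl
    have h2 : Cp (j + k)
        (2 ^ 2 * (2 * (2 * 2 + 100) + (2 ^ q * (q * (2 * 2 + 100) + S ^ 6 + 200) + 50) + 200) + 50)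
        (fun z M => litBit n v w sg j (num 2 fun i => M (j + m + i))
          (num q fun i => M (j + (m + 2) + i)) z M) := by
      refine Cp.sel (n := 2) (s := 2) (g := fun i _ M => M (j + m + i))
        (f := fun slot z M => litBit n v w sg j slot (num q fun i => M (j + (m + 2) + i)) z M)
        ?_ h1
      intro i hi
      have := hcell (m + i) (by omega)
      simpa only [add_assoc] using this
    refine (h2.congr fun z M => ?_).mono le_rfl ?_
    · show _ = Phi n v w sg z (word M j k)
      unfold Phi
      simp only [word_length]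
      rw [if_pos (show k = satLen (mm n v w) from hkl)]
      have e1 : lnum (((word M j k).drop (mm n v w)).take 2) = num 2 fun i => M (j + m + i) := by
        rw [word_drop, word_take _ _ _ _ (by omega), lnum_word]
      have e2 : lnum ((word M j k).drop (mm n v w + 2)) = num q fun i => M (j + (m + 2) + i) := by
        rw [word_drop, lnum_word, show k - (mm n v w + 2) = q by omega]
      simp only [e1, e2, dec_word n v w j (k := k) (by omega) M]
      rfl
    · have hq3 : 2 ^ q * (q * (2 * 2 + 100) + S ^ 6 + 200) ≤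
          2 * S * (S * (2 * 2 + 100) + S ^ 6 + 200) :=
        Nat.mul_le_mul h2q (by
          have := Nat.mul_le_mul_right (2 * 2 + 100) hqS
          omega)
      have e1 : 2 * S * (S * (2 * 2 + 100) + S ^ 6 + 200) = 208 * S ^ 2 + 2 * S ^ 7 + 400 * S := by
        ring
      have a1 : S ^ 2 ≤ S ^ 7 := Nat.pow_le_pow_right (by omega) (by norm_num)
      have a2 : S ≤ S ^ 7 := by
        calc S = S ^ 1 := (pow_one S).symm
          _ ≤ S ^ 7 := Nat.pow_le_pow_right (by omega) (by norm_num)
      have a0 : 100 ^ 5 ≤ S ^ 5 := Nat.pow_le_pow_left hS100 5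
      have a3 : 208 * S ^ 2 ≤ S ^ 7 := by
        have : S ^ 7 = S ^ 5 * S ^ 2 := by ring
        rw [this]
        exact Nat.mul_le_mul_right _ (by omega)
      have a4 : 400 * S ≤ S ^ 7 := by
        have h5 : S ^ 7 = S ^ 6 * S := by ring
        have h6 : 100 ^ 6 ≤ S ^ 6 := Nat.pow_le_pow_left hS100 6
        rw [h5]
        exact Nat.mul_le_mul_right _ (by omega)
      have a5 : 100 * S ^ 7 ≤ S ^ 8 := by
        have h5 : S ^ 8 = S * S ^ 7 := by ring
        rw [h5]
        exact Nat.mul_le_mul_right _ hS100
      have a6 : 1000 ≤ S ^ 7 := by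
        calc 1000 ≤ 100 ^ 7 := by norm_num
          _ ≤ S ^ 7 := Nat.pow_le_pow_left hS100 7
      rw [e1] at hq3
      exact arith_Phi _ _ _ _ _ hq3 a3 a4 a5 a6
  · refine ((Cp.const (j + k) false).congr fun z M => ?_).mono le_rfl h8
    show false = Phi n v w sg z (word M j k)
    unfold Phi
    rw [word_length, if_neg hkl]

end Pool.Agent.NUM.S3
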