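import Pool.Agent.NUM.S3Bv

/-! # meaning of the local clauses

`x kind index` are the local variables of one block. -/

namespace Pool.Agent.NUM.S3

/-- the clause holds -/
def Holds (x : ℕ → ℕ → Bool) (c : Fin 3 → LLit) : Prop := ∃ j : Fin 3, x (c j).2.1 (c j).2.2 = (c j).1

/-- push in state `s` -/
def isPush (s : ℕ → Bool) : Bool := s 0 && !(s 1)
/-- pop -/
def isPop (s : ℕ → Bool) : Bool := s 0 && s 1
/-- the stack is not empty -/
def isNe (n sg : ℕ) (s : ℕ → Bool) : Bool := s (2 ^ sg + n)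

/-- state after the stack operation, `r` = returned state, `self` = position of the block -/
def ctlNext (n sg : ℕ) (s r self : ℕ → Bool) : ℕ → Bool := fun I =>
  if I = 2 then (if (isPop s && isNe n sg s) = true then r 2 else s 2)
  else if I < 2 ^ sg then s I
  else if I ≤ 2 ^ sg + n then
    (if isPush s = true then self (I - 2 ^ sg)
     else if (isPop s && isNe n sg s) = true then r I else s I)
  else if I = 2 ^ (sg + 1) - 2 then s I || (isPop s && !(isNe n sg s))
  else if I = 2 ^ (sg + 1) - 1 then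
    s I || (isPop s && !(isNe n sg s) && s 2 && !(s (2 ^ (sg + 1) - 2)))
  else s I

/-- state after a block of type `p` -/
def bnext (n sg : ℕ) (G : List Ins) (p : ℕ) (s r self : ℕ → Bool) : ℕ → Bool :=
  if p = 2 ^ sg - 1 then ctlNext n sg s r self
  else match G[p]? with
    | none => s
    | some (.nand i j k) => Function.update s i (!(s j && s k))
    | some (.ask i _ _) => Function.update s i (r 0)

/-- digit `t` of the key of a block of type `p` (where it matters) -/
def bkey (n sg : ℕ) (G : List Ins) (p : ℕ) (s : ℕ → Bool) : Option (ℕ → Bool) :=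
  if p = 2 ^ sg - 1 then some fun t => s (2 ^ sg + t)
  else match G[p]? with
    | some (.ask _ j l) => some fun t => if t < l then s (j + t) else decide (t = l)
    | _ => none

/-- values of the auxiliary variables -/
def auxv (n sg : ℕ) (s : ℕ → Bool) : ℕ → Bool
  | 0 => isPush s
  | 1 => isPop s && isNe n sg s
  | 2 => isPop s && !(isNe n sg s)
  | 3 => !(isPush s) && !(isPop s && isNe n sg s)
  | 4 => isPop s
  | 5 => isPop s && !(isNe n sg s) && s 2
  | 6 => isPop s && !(isNe n sg s) && s 2 && !(s (2 ^ (sg + 1) - 2))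
  | _ => false

/-- cells used by `G` are below `2 ^ sg`, asks are shorter than `n` -/
structure Good (n sg : ℕ) (G : List Ins) : Prop where
  len : G.length < 2 ^ sg
  top : ∀ c ∈ G, c.top ≤ 2 ^ sg
  ask : AskLt n G
  big : n + 3 ≤ 2 ^ sg
  eight : 3 ≤ sg
  le : sg ≤ n

private theorem holds_mk (x : ℕ → ℕ → Bool) (a b c : LLit) :
    Holds x ![a, b, c] ↔ (x a.2.1 a.2.2 = a.1 ∨ x b.2.1 b.2.2 = b.1 ∨ x c.2.1 c.2.2 = c.1) := by
  unfold Holds
  constructor
  · rintro ⟨j, hj⟩
    fin_cases j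
    · exact Or.inl hj
    · exact Or.inr (Or.inl hj)
    · exact Or.inr (Or.inr hj)
  · rintro (h | h | h)
    · exact ⟨0, h⟩
    · exact ⟨1, h⟩
    · exact ⟨2, h⟩

private theorem holds_triv (x : ℕ → ℕ → Bool) : Holds x ltriv := by
  rw [ltriv, holds_mk]
  cases x 0 0 <;> simp

private theorem forall_lt_eight {Q : ℕ → Prop} :
    (∀ K < 8, Q K) ↔ Q 0 ∧ Q 1 ∧ Q 2 ∧ Q 3 ∧ Q 4 ∧ Q 5 ∧ Q 6 ∧ Q 7 := by
  constructor
  · intro h
    exact ⟨h 0 (by omega), h 1 (by omega), h 2 (by omega), h 3 (by omega), h 4 (by omega),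
      h 5 (by omega), h 6 (by omega), h 7 (by omega)⟩
  · rintro ⟨h0, h1, h2, h3, h4, h5, h6, h7⟩ K hK
    interval_cases K <;> assumption

private theorem leq_f (x : ℕ → ℕ → Bool) (a b : ℕ × ℕ) :
    Holds x (leq false a b) ↔ (x a.1 a.2 = false ∨ x b.1 b.2 = true) := by
  rw [leq, holds_mk]; simp

private theorem leq_t (x : ℕ → ℕ → Bool) (a b : ℕ × ℕ) :
    Holds x (leq true a b) ↔ (x a.1 a.2 = true ∨ x b.1 b.2 = false) := by
  rw [leq, holds_mk]; simp

private theorem lceq_f (x : ℕ → ℕ → Bool) (c : LLit) (a b : ℕ × ℕ) :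
    Holds x (lceq c false a b) ↔ (x c.2.1 c.2.2 = c.1 ∨ x a.1 a.2 = false ∨ x b.1 b.2 = true) := by
  rw [lceq, holds_mk]; simp

private theorem lceq_t (x : ℕ → ℕ → Bool) (c : LLit) (a b : ℕ × ℕ) :
    Holds x (lceq c true a b) ↔ (x c.2.1 c.2.2 = c.1 ∨ x a.1 a.2 = true ∨ x b.1 b.2 = false) := by
  rw [lceq, holds_mk]; simp

private theorem keep_iff (x : ℕ → ℕ → Bool) (I : ℕ) :
    (∀ K < 8, Holds x (lkeep I K)) ↔ x 1 I = x 0 I := by
  rw [forall_lt_eight]
  simp only [lkeep, holds_triv, and_true, leq_f, leq_t]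
  cases x 1 I <;> cases x 0 I <;> simp

private theorem keep_land_iff (x : ℕ → ℕ → Bool) (I : ℕ) (X : ℕ × ℕ) (y u : LLit) :
    (∀ K < 8, Holds x (if K < 2 then lkeep I K else land (K - 2) X y u)) ↔
      x 1 I = x 0 I ∧ x X.1 X.2 = ((x y.2.1 y.2.2 == y.1) && (x u.2.1 u.2.2 == u.1)) := by
  rw [forall_lt_eight]
  simp only [lkeep, land, holds_triv, and_true, leq_f, leq_t, holds_mk, Nat.lt_irrefl, if_true,
    if_false, Nat.reduceLT, Nat.reduceSub, Nat.ofNat_pos, Nat.one_lt_ofNat]
  cases x 1 I <;> cases x 0 I <;> cases x X.1 X.2 <;> cases x y.2.1 y.2.2 <;>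
    cases x u.2.1 u.2.2 <;> cases y.1 <;> cases u.1 <;> simp

private theorem e0 (n sg K : ℕ) : lctl n sg 0 K =
    if K < 2 then lkeep 0 K else land (K - 2) (5, 0) (true, 0, 0) (false, 0, 1) := by
  unfold lctl
  rw [if_pos rfl]

private theorem e1 (n sg K : ℕ) : lctl n sg 1 K =
    if K < 2 then lkeep 1 K else land (K - 2) (5, 4) (true, 0, 0) (true, 0, 1) := by
  unfold lctl
  rw [if_neg (by omega), if_pos rfl]

private theorem e2 (n sg K : ℕ) : lctl n sg 2 K = match K with
    | 0 => lceq (false, 5, 1) false (1, 2) (2, 2)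
    | 1 => lceq (false, 5, 1) true (1, 2) (2, 2)
    | 2 => lceq (true, 5, 1) false (1, 2) (0, 2)
    | 3 => lceq (true, 5, 1) true (1, 2) (0, 2)
    | _ => ltriv := by
  unfold lctl
  rw [if_neg (by omega), if_neg (by omega), if_pos rfl]
  rfl

private theorem e3 (n sg K : ℕ) : lctl n sg 3 K =
    if K < 2 then lkeep 3 K else land (K - 2) (5, 1) (true, 5, 4) (true, 0, 2 ^ sg + n) := by
  unfold lctl
  rw [if_neg (by omega), if_neg (by omega), if_neg (by omega), if_pos rfl]

private theorem e4 (n sg K : ℕ) : lctl n sg 4 K =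
    if K < 2 then lkeep 4 K else land (K - 2) (5, 2) (true, 5, 4) (false, 0, 2 ^ sg + n) := by
  unfold lctl
  rw [if_neg (by omega), if_neg (by omega), if_neg (by omega), if_neg (by omega), if_pos rfl]

private theorem e5 (n sg K : ℕ) : lctl n sg 5 K =
    if K < 2 then lkeep 5 K else land (K - 2) (5, 3) (false, 5, 0) (false, 5, 1) := by
  unfold lctl
  rw [if_neg (by omega), if_neg (by omega), if_neg (by omega), if_neg (by omega),
    if_neg (by omega), if_pos rfl]

private theorem e6 (n sg K : ℕ) : lctl n sg 6 K =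
    if K < 2 then lkeep 6 K else land (K - 2) (5, 5) (true, 5, 2) (true, 0, 2) := by
  unfold lctl
  rw [if_neg (by omega), if_neg (by omega), if_neg (by omega), if_neg (by omega),
    if_neg (by omega), if_neg (by omega), if_pos rfl]

private theorem e7 (n sg K : ℕ) : lctl n sg 7 K =
    if K < 2 then lkeep 7 K else land (K - 2) (5, 6) (true, 5, 5)
      (false, 0, 2 ^ (sg + 1) - 2) := by
  unfold lctl
  rw [if_neg (by omega), if_neg (by omega), if_neg (by omega), if_neg (by omega),
    if_neg (by omega), if_neg (by omega), if_neg (by omega), if_pos rfl]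

/-- the aux variables and small cells -/
private theorem ctl_small (x : ℕ → ℕ → Bool) (n sg : ℕ) :
    ((∀ K < 8, Holds x (lctl n sg 0 K)) ↔ x 1 0 = x 0 0 ∧ x 5 0 = (x 0 0 && !(x 0 1))) ∧
    ((∀ K < 8, Holds x (lctl n sg 1 K)) ↔ x 1 1 = x 0 1 ∧ x 5 4 = (x 0 0 && x 0 1)) ∧
    ((∀ K < 8, Holds x (lctl n sg 3 K)) ↔ x 1 3 = x 0 3 ∧ x 5 1 = (x 5 4 && x 0 (2 ^ sg + n))) ∧
    ((∀ K < 8, Holds x (lctl n sg 4 K)) ↔ x 1 4 = x 0 4 ∧ x 5 2 = (x 5 4 && !x 0 (2 ^ sg + n))) ∧
    ((∀ K < 8, Holds x (lctl n sg 5 K)) ↔ x 1 5 = x 0 5 ∧ x 5 3 = (!x 5 0 && !x 5 1)) ∧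
    ((∀ K < 8, Holds x (lctl n sg 6 K)) ↔ x 1 6 = x 0 6 ∧ x 5 5 = (x 5 2 && x 0 2)) ∧
    ((∀ K < 8, Holds x (lctl n sg 7 K)) ↔ x 1 7 = x 0 7 ∧
      x 5 6 = (x 5 5 && !x 0 (2 ^ (sg + 1) - 2))) := by
  have hb : ∀ b : Bool, (b == true) = b := by decide
  have hb' : ∀ b : Bool, (b == false) = !b := by decide
  refine ⟨?_, ?_, ?_, ?_, ?_, ?_, ?_⟩
  · have := keep_land_iff x 0 (5, 0) (true, 0, 0) (false, 0, 1)
    simp only [hb, hb'] at this
    simp only [e0]
    exact this
  · have := keep_land_iff x 1 (5, 4) (true, 0, 0) (true, 0, 1)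
    simp only [hb] at this
    simp only [e1]
    exact this
  · have := keep_land_iff x 3 (5, 1) (true, 5, 4) (true, 0, 2 ^ sg + n)
    simp only [hb] at this
    simp only [e3]
    exact this
  · have := keep_land_iff x 4 (5, 2) (true, 5, 4) (false, 0, 2 ^ sg + n)
    simp only [hb, hb'] at this
    simp only [e4]
    exact this
  · have := keep_land_iff x 5 (5, 3) (false, 5, 0) (false, 5, 1)
    simp only [hb'] at this
    simp only [e5]
    exact this
  · have := keep_land_iff x 6 (5, 5) (true, 5, 2) (true, 0, 2)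
    simp only [hb] at this
    simp only [e6]
    exact this
  · have := keep_land_iff x 7 (5, 6) (true, 5, 5) (false, 0, 2 ^ (sg + 1) - 2)
    simp only [hb, hb'] at this
    simp only [e7]
    exact this

private theorem ctl_two (x : ℕ → ℕ → Bool) (n sg : ℕ) :
    (∀ K < 8, Holds x (lctl n sg 2 K)) ↔ x 1 2 = if x 5 1 = true then x 2 2 else x 0 2 := by
  rw [forall_lt_eight]
  simp only [e2, holds_triv, and_true, lceq_f, lceq_t]
  cases x 5 1 <;> cases x 1 2 <;> cases x 2 2 <;> cases x 0 2 <;> simp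

private theorem bool_ptr : ∀ a b c d e f g k : Bool,
    ((a = false ∨ d = false ∨ e = true) ∧ (a = false ∨ d = true ∨ e = false) ∧
      (b = false ∨ d = false ∨ f = true) ∧ (b = false ∨ d = true ∨ f = false) ∧
      (c = false ∨ d = false ∨ g = true) ∧ (c = false ∨ d = true ∨ g = false) ∧
      (k = false ∨ g = true) ∧ (k = true ∨ g = false)) ↔
    ((a = true → d = e) ∧ (b = true → d = f) ∧ (c = true → d = g) ∧ k = g) := by
  intro a b c d e f g k
  cases a <;> cases b <;> cases c <;> cases d <;> cases e <;> cases f <;> cases g <;> cases k <;>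
    simp

private theorem ctl_keep (x : ℕ → ℕ → Bool) {n sg I : ℕ} (h1 : 8 ≤ I) (h2 : I < 2 ^ sg) :
    (∀ K < 8, Holds x (lctl n sg I K)) ↔ x 1 I = x 0 I := by
  have e : ∀ K, lctl n sg I K = lkeep I K := by
    intro K
    unfold lctl
    rw [if_neg (by omega), if_neg (by omega), if_neg (by omega), if_neg (by omega),
      if_neg (by omega), if_neg (by omega), if_neg (by omega), if_neg (by omega), if_pos h2]
  simp only [e]
  exact keep_iff x I

private theorem ctl_ptr (x : ℕ → ℕ → Bool) {n sg I : ℕ} (h0 : 8 ≤ I) (h1 : 2 ^ sg ≤ I)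
    (h2 : I ≤ 2 ^ sg + n) :
    (∀ K < 8, Holds x (lctl n sg I K)) ↔
      ((x 5 0 = true → x 1 I = x 4 (I - 2 ^ sg)) ∧ (x 5 1 = true → x 1 I = x 2 I) ∧
        (x 5 3 = true → x 1 I = x 0 I) ∧ x 3 (I - 2 ^ sg) = x 0 I) := by
  have e : ∀ K, lctl n sg I K = match K with
    | 0 => lceq (false, 5, 0) false (1, I) (4, I - 2 ^ sg)
    | 1 => lceq (false, 5, 0) true (1, I) (4, I - 2 ^ sg)
    | 2 => lceq (false, 5, 1) false (1, I) (2, I)
    | 3 => lceq (false, 5, 1) true (1, I) (2, I)
    | 4 => lceq (false, 5, 3) false (1, I) (0, I)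
    | 5 => lceq (false, 5, 3) true (1, I) (0, I)
    | 6 => leq false (3, I - 2 ^ sg) (0, I)
    | _ => leq true (3, I - 2 ^ sg) (0, I) := by
    intro K
    unfold lctl
    rw [if_neg (by omega), if_neg (by omega), if_neg (by omega), if_neg (by omega),
      if_neg (by omega), if_neg (by omega), if_neg (by omega), if_neg (by omega),
      if_neg (by omega), if_pos h2]
    rfl
  rw [forall_lt_eight]
  simp only [e, lceq_f, lceq_t, leq_f, leq_t]
  exact bool_ptr _ _ _ _ _ _ _ _

private theorem ctl_halt (x : ℕ → ℕ → Bool) {n sg : ℕ} (h0 : 8 ≤ 2 ^ sg) (h1 : n + 3 ≤ 2 ^ sg) :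
    (∀ K < 8, Holds x (lctl n sg (2 ^ (sg + 1) - 2) K)) ↔
      x 1 (2 ^ (sg + 1) - 2) = (x 0 (2 ^ (sg + 1) - 2) || x 5 2) := by
  have hp : 2 ^ (sg + 1) = 2 * 2 ^ sg := by ring
  have e : ∀ K, lctl n sg (2 ^ (sg + 1) - 2) K = match K with
    | 0 => ![(true, 1, 2 ^ (sg + 1) - 2), (false, 0, 2 ^ (sg + 1) - 2),
        (false, 0, 2 ^ (sg + 1) - 2)]
    | 1 => ![(true, 1, 2 ^ (sg + 1) - 2), (false, 5, 2), (false, 5, 2)]
    | 2 => ![(false, 1, 2 ^ (sg + 1) - 2), (true, 0, 2 ^ (sg + 1) - 2), (true, 5, 2)]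
    | _ => ltriv := by
    intro K
    unfold lctl
    rw [if_neg (by omega), if_neg (by omega), if_neg (by omega), if_neg (by omega),
      if_neg (by omega), if_neg (by omega), if_neg (by omega), if_neg (by omega),
      if_neg (by omega), if_neg (by omega), if_pos rfl]
    rfl
  rw [forall_lt_eight]
  simp only [e, holds_triv, holds_mk, and_true]
  generalize x 1 (2 ^ (sg + 1) - 2) = a
  generalize x 0 (2 ^ (sg + 1) - 2) = b
  generalize x 5 2 = c
  revert a b c
  decide

private theorem ctl_acc (x : ℕ → ℕ → Bool) {n sg : ℕ} (h0 : 8 ≤ 2 ^ sg) (h1 : n + 3 ≤ 2 ^ sg) :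
    (∀ K < 8, Holds x (lctl n sg (2 ^ (sg + 1) - 1) K)) ↔
      x 1 (2 ^ (sg + 1) - 1) = (x 0 (2 ^ (sg + 1) - 1) || x 5 6) := by
  have hp : 2 ^ (sg + 1) = 2 * 2 ^ sg := by ring
  have e : ∀ K, lctl n sg (2 ^ (sg + 1) - 1) K = match K with
    | 0 => ![(true, 1, 2 ^ (sg + 1) - 1), (false, 0, 2 ^ (sg + 1) - 1),
        (false, 0, 2 ^ (sg + 1) - 1)]
    | 1 => ![(true, 1, 2 ^ (sg + 1) - 1), (false, 5, 6), (false, 5, 6)]
    | 2 => ![(false, 1, 2 ^ (sg + 1) - 1), (true, 0, 2 ^ (sg + 1) - 1), (true, 5, 6)]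
    | _ => ltriv := by
    intro K
    unfold lctl
    rw [if_neg (by omega), if_neg (by omega), if_neg (by omega), if_neg (by omega),
      if_neg (by omega), if_neg (by omega), if_neg (by omega), if_neg (by omega),
      if_neg (by omega), if_neg (by omega), if_neg (by omega), if_pos rfl]
    rfl
  rw [forall_lt_eight]
  simp only [e, holds_triv, holds_mk, and_true]
  generalize x 1 (2 ^ (sg + 1) - 1) = a
  generalize x 0 (2 ^ (sg + 1) - 1) = b
  generalize x 5 6 = c
  revert a b c
  decide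

private theorem ctl_rest (x : ℕ → ℕ → Bool) {n sg I : ℕ} (h0 : 8 ≤ 2 ^ sg)
    (h1 : 2 ^ sg + n < I) (h2 : I < 2 ^ (sg + 1) - 2) :
    (∀ K < 8, Holds x (lctl n sg I K)) ↔ x 1 I = x 0 I := by
  have e : ∀ K, lctl n sg I K = lkeep I K := by
    intro K
    unfold lctl
    rw [if_neg (by omega), if_neg (by omega), if_neg (by omega), if_neg (by omega),
      if_neg (by omega), if_neg (by omega), if_neg (by omega), if_neg (by omega),
      if_neg (by omega), if_neg (by omega), if_neg (by omega), if_neg (by omega)]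
  simp only [e]
  exact keep_iff x I

/-- all clauses of a stack block -/
private theorem ctl_iff (x : ℕ → ℕ → Bool) {n sg : ℕ} (h8 : 8 ≤ 2 ^ sg) (hn : n + 3 ≤ 2 ^ sg) :
    (∀ I < 2 ^ (sg + 1), ∀ K < 8, Holds x (lctl n sg I K)) ↔
      ((∀ I < 2 ^ (sg + 1), x 1 I = ctlNext n sg (x 0) (x 2) (x 4) I) ∧
        (∀ t ≤ n, x 3 t = x 0 (2 ^ sg + t)) ∧ ∀ i < 7, x 5 i = auxv n sg (x 0) i) := by
  have hp : 2 ^ (sg + 1) = 2 * 2 ^ sg := by ring
  obtain ⟨s0, s1, s3, s4, s5, s6, s7⟩ := ctl_small x n sg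
  have s2 := ctl_two x n sg
  constructor
  · intro h
    obtain ⟨c0, a0⟩ := s0.mp (h 0 (by omega))
    obtain ⟨c1, a4⟩ := s1.mp (h 1 (by omega))
    have c2 := s2.mp (h 2 (by omega))
    obtain ⟨c3, a1⟩ := s3.mp (h 3 (by omega))
    obtain ⟨c4, a2⟩ := s4.mp (h 4 (by omega))
    obtain ⟨c5, a3⟩ := s5.mp (h 5 (by omega))
    obtain ⟨c6, a5⟩ := s6.mp (h 6 (by omega))
    obtain ⟨c7, a6⟩ := s7.mp (h 7 (by omega))
    have b4 : x 5 4 = isPop (x 0) := a4
    have b1 : x 5 1 = (isPop (x 0) && isNe n sg (x 0)) := by rw [a1, b4]; rfl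
    have b2 : x 5 2 = (isPop (x 0) && !isNe n sg (x 0)) := by rw [a2, b4]; rfl
    have b0 : x 5 0 = isPush (x 0) := a0
    have b3 : x 5 3 = (!isPush (x 0) && !(isPop (x 0) && isNe n sg (x 0))) := by
      rw [a3, b0, b1]
    have b5 : x 5 5 = (isPop (x 0) && !isNe n sg (x 0) && x 0 2) := by rw [a5, b2]
    have b6 : x 5 6 = (isPop (x 0) && !isNe n sg (x 0) && x 0 2 &&
        !(x 0 (2 ^ (sg + 1) - 2))) := by rw [a6, b5]
    refine ⟨?_, ?_, ?_⟩
    · intro I hI
      unfold ctlNext
      by_cases e2 : I = 2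
      · subst e2
        rw [if_pos rfl, c2, b1]
      rw [if_neg e2]
      by_cases e3 : I < 2 ^ sg
      · rw [if_pos e3]
        by_cases e4 : I < 8
        · interval_cases I <;> first | assumption | exact absurd rfl e2
        · exact (ctl_keep x (by omega) e3).mp (h I hI)
      rw [if_neg e3]
      by_cases e4 : I ≤ 2 ^ sg + n
      · rw [if_pos e4]
        obtain ⟨d1, d2, d3, -⟩ := (ctl_ptr x (by omega) (by omega) e4).mp (h I hI)
        rw [b0] at d1
        rw [b1] at d2
        rw [b3] at d3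
        by_cases f1 : isPush (x 0) = true
        · rw [if_pos f1]; exact d1 f1
        · rw [if_neg f1]
          by_cases f2 : (isPop (x 0) && isNe n sg (x 0)) = true
          · rw [if_pos f2]; exact d2 f2
          · rw [if_neg f2]
            apply d3
            simp only [Bool.not_eq_true] at f1 f2
            rw [f1, f2]; rfl
      rw [if_neg e4]
      by_cases e5 : I = 2 ^ (sg + 1) - 2
      · rw [if_pos e5, e5, (ctl_halt x h8 hn).mp (h _ (by omega)), b2]
      rw [if_neg e5]
      by_cases e6 : I = 2 ^ (sg + 1) - 1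
      · rw [if_pos e6, e6, (ctl_acc x h8 hn).mp (h _ (by omega)), b6]
      rw [if_neg e6]
      exact (ctl_rest x h8 (by omega) (by omega)).mp (h I hI)
    · intro t ht
      obtain ⟨-, -, -, d4⟩ := (ctl_ptr x (n := n) (sg := sg) (I := 2 ^ sg + t) (by omega)
        (by omega) (by omega)).mp (h (2 ^ sg + t) (by omega))
      rwa [Nat.add_sub_cancel_left] at d4
    · intro i hi
      interval_cases i <;> assumption
  · rintro ⟨hc, hk, ha⟩ I hI
    have b0 : x 5 0 = isPush (x 0) := ha 0 (by omega)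
    have b1 : x 5 1 = (isPop (x 0) && isNe n sg (x 0)) := ha 1 (by omega)
    have b2 : x 5 2 = (isPop (x 0) && !isNe n sg (x 0)) := ha 2 (by omega)
    have b3 : x 5 3 = (!isPush (x 0) && !(isPop (x 0) && isNe n sg (x 0))) := ha 3 (by omega)
    have b4 : x 5 4 = isPop (x 0) := ha 4 (by omega)
    have b5 : x 5 5 = (isPop (x 0) && !isNe n sg (x 0) && x 0 2) := ha 5 (by omega)
    have b6 : x 5 6 = (isPop (x 0) && !isNe n sg (x 0) && x 0 2 &&
        !(x 0 (2 ^ (sg + 1) - 2))) := ha 6 (by omega)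
    have hsm : ∀ J < 2 ^ sg, J ≠ 2 → x 1 J = x 0 J := by
      intro J hJ hJ2
      rw [hc J (by omega), ctlNext, if_neg hJ2, if_pos hJ]
    by_cases e3 : I < 2 ^ sg
    · by_cases e4 : I < 8
      · interval_cases I
        · exact s0.mpr ⟨hsm 0 e3 (by omega), b0⟩
        · exact s1.mpr ⟨hsm 1 e3 (by omega), b4⟩
        · apply s2.mpr
          rw [hc 2 hI, ctlNext, if_pos rfl, b1]
        · exact s3.mpr ⟨hsm 3 e3 (by omega), by rw [b1, b4]; rfl⟩
        · exact s4.mpr ⟨hsm 4 e3 (by omega), by rw [b2, b4]; rfl⟩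
        · exact s5.mpr ⟨hsm 5 e3 (by omega), by rw [b3, b0, b1]⟩
        · exact s6.mpr ⟨hsm 6 e3 (by omega), by rw [b5, b2]⟩
        · exact s7.mpr ⟨hsm 7 e3 (by omega), by rw [b6, b5]⟩
      · exact (ctl_keep x (by omega) e3).mpr (hsm I e3 (by omega))
    by_cases e4 : I ≤ 2 ^ sg + n
    · apply (ctl_ptr x (by omega) (by omega) e4).mpr
      have hI' := hc I hI
      rw [ctlNext, if_neg (by omega), if_neg e3, if_pos e4] at hI'
      refine ⟨?_, ?_, ?_, ?_⟩
      · intro h5
        rw [b0] at h5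
        rw [hI', if_pos h5]
      · intro h5
        rw [b1] at h5
        have h6 : ¬ (isPush (x 0) = true) := by
          have h7 : isPop (x 0) = true := (Bool.and_eq_true_iff.mp h5).1
          unfold isPop at h7
          unfold isPush
          revert h7
          cases x 0 0 <;> cases x 0 1 <;> simp
        rw [hI', if_neg h6, if_pos h5]
      · intro h5
        rw [b3] at h5
        obtain ⟨h6, h7⟩ := Bool.and_eq_true_iff.mp h5
        have h8' : (isPop (x 0) && isNe n sg (x 0)) = false := by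
          revert h7
          cases (isPop (x 0) && isNe n sg (x 0)) <;> simp
        rw [hI', if_neg (by simpa using h6), if_neg (by rw [h8']; simp)]
      · have := hk (I - 2 ^ sg) (by omega)
        rwa [show 2 ^ sg + (I - 2 ^ sg) = I by omega] at this
    by_cases e5 : I = 2 ^ (sg + 1) - 2
    · subst e5
      apply (ctl_halt x h8 hn).mpr
      rw [hc _ hI, ctlNext, if_neg (by omega), if_neg e3, if_neg e4, if_pos rfl, b2]
    by_cases e6 : I = 2 ^ (sg + 1) - 1
    · subst e6
      apply (ctl_acc x h8 hn).mpr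
      rw [hc _ hI, ctlNext, if_neg (by omega), if_neg e3, if_neg e4, if_neg e5, if_pos rfl, b6]
    apply (ctl_rest x h8 (by omega) (by omega)).mpr
    rw [hc _ hI, ctlNext, if_neg (by omega), if_neg e3, if_neg e4, if_neg e5, if_neg e6]

private theorem nand_iff (x : ℕ → ℕ → Bool) (i j k I : ℕ) :
    (∀ K < 8, Holds x (lnand i j k I K)) ↔
      x 1 I = Function.update (x 0) i (!(x 0 j && x 0 k)) I := by
  by_cases h : I = i
  · subst h
    have e : ∀ K, lnand I j k I K = match K with
      | 0 => ![(true, 1, I), (true, 0, j), (true, 0, j)]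
      | 1 => ![(true, 1, I), (true, 0, k), (true, 0, k)]
      | 2 => ![(false, 1, I), (false, 0, j), (false, 0, k)]
      | _ => ltriv := by
      intro K
      unfold lnand
      rw [if_pos rfl]
      rfl
    rw [forall_lt_eight]
    simp only [e, holds_triv, holds_mk, and_true, Function.update_self]
    cases x 1 I <;> cases x 0 j <;> cases x 0 k <;> simp
  · have e : ∀ K, lnand i j k I K = lkeep I K := fun K => by
      unfold lnand
      rw [if_neg h]
    simp only [e]
    rw [keep_iff, Function.update_of_ne h]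

private theorem ask_iff (x : ℕ → ℕ → Bool) (n i j l I : ℕ) (hl : l < n) :
    (∀ K < 8, Holds x (lask n i j l I K)) ↔
      (x 1 I = Function.update (x 0) i (x 2 0) I ∧
        (I ≤ n → x 3 I = if I < l then x 0 (j + I) else decide (I = l))) := by
  have h0 : ((Holds x (lask n i j l I 0)) ∧ (Holds x (lask n i j l I 1))) ↔
      x 1 I = Function.update (x 0) i (x 2 0) I := by
    by_cases h : I = i
    · subst h
      simp only [lask, if_true, leq_f, leq_t, Function.update_self]
      cases x 1 I <;> cases x 2 0 <;> simp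
    · simp only [lask, h, if_false, lkeep, leq_f, leq_t, Function.update_of_ne h]
      cases x 1 I <;> cases x 0 I <;> simp
  have h2 : ((Holds x (lask n i j l I 2)) ∧ (Holds x (lask n i j l I 3))) ↔
      (I ≤ n → x 3 I = if I < l then x 0 (j + I) else decide (I = l)) := by
    by_cases h : I ≤ n
    · by_cases h3 : I < l
      · simp only [lask, h, h3, if_true, leq_f, leq_t, forall_true_left]
        cases x 3 I <;> cases x 0 (j + I) <;> simp
      · simp only [lask, h, h3, if_true, if_false, holds_mk, holds_triv, forall_true_left]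
        simp
    · have h3 : ¬ I < l := by omega
      simp only [lask, h, h3, if_false, holds_triv, false_imp_iff, and_self]
  rw [forall_lt_eight, ← h0, ← h2]
  simp only [lask, holds_triv, and_true, and_assoc]

private theorem mem_of_getElem? {G : List Ins} {p : ℕ} {c : Ins} (h : G[p]? = some c) : c ∈ G :=
  List.mem_of_getElem? h

theorem local_sound {n sg : ℕ} {G : List Ins} (hG : Good n sg G) {x : ℕ → ℕ → Bool} {p : ℕ}
    (hp : p < 2 ^ sg) (h : ∀ I < 2 ^ (sg + 1), ∀ K < 8, Holds x (lcl n sg G p I K)) :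
    (∀ I < 2 ^ (sg + 1), x 1 I = bnext n sg G p (x 0) (x 2) (x 4) I) ∧
      ∀ f, bkey n sg G p (x 0) = some f → ∀ t ≤ n, x 3 t = f t := by
  have h8 : 8 ≤ 2 ^ sg := by
    calc 8 = 2 ^ 3 := by norm_num
      _ ≤ 2 ^ sg := Nat.pow_le_pow_right (by norm_num) hG.eight
  have hn := hG.big
  have hp1 : 2 ^ (sg + 1) = 2 * 2 ^ sg := by ring
  unfold lcl at h
  unfold bnext bkey
  by_cases hp2 : p = 2 ^ sg - 1
  · simp only [hp2, if_true] at h ⊢
    obtain ⟨h1, h2, -⟩ := (ctl_iff x h8 hn).mp h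
    refine ⟨h1, fun f hf t ht => ?_⟩
    rw [← Option.some.inj hf]
    exact h2 t ht
  · simp only [hp2, if_false] at h ⊢
    cases hc : G[p]? with
    | none =>
      simp only [hc] at h ⊢
      exact ⟨fun I hI => (keep_iff x I).mp (h I hI), fun f hf => by simp at hf⟩
    | some c =>
      cases c with
      | nand i j k =>
        simp only [hc] at h ⊢
        exact ⟨fun I hI => (nand_iff x i j k I).mp (h I hI), fun f hf => by simp at hf⟩
      | ask i j l =>
        simp only [hc] at h ⊢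
        have hl : l < n := hG.ask i j l (mem_of_getElem? hc)
        refine ⟨fun I hI => ((ask_iff x n i j l I hl).mp (h I hI)).1, fun f hf t ht => ?_⟩
        rw [← Option.some.inj hf]
        exact ((ask_iff x n i j l t hl).mp (h t (by omega))).2 ht

theorem local_complete {n sg : ℕ} {G : List Ins} (hG : Good n sg G) {x : ℕ → ℕ → Bool} {p : ℕ}
    (hp : p < 2 ^ sg) (h1 : ∀ I < 2 ^ (sg + 1), x 1 I = bnext n sg G p (x 0) (x 2) (x 4) I)
    (h3 : ∀ f, bkey n sg G p (x 0) = some f → ∀ t ≤ n, x 3 t = f t)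
    (h5 : ∀ i < 7, x 5 i = auxv n sg (x 0) i) :
    ∀ I < 2 ^ (sg + 1), ∀ K < 8, Holds x (lcl n sg G p I K) := by
  have h8 : 8 ≤ 2 ^ sg := by
    calc 8 = 2 ^ 3 := by norm_num
      _ ≤ 2 ^ sg := Nat.pow_le_pow_right (by norm_num) hG.eight
  have hn := hG.big
  unfold bnext at h1
  unfold bkey at h3
  unfold lcl
  by_cases hp2 : p = 2 ^ sg - 1
  · simp only [hp2, if_true] at h1 h3 ⊢
    exact (ctl_iff x h8 hn).mpr ⟨h1, h3 _ rfl, h5⟩
  · simp only [hp2, if_false] at h1 h3 ⊢
    cases hc : G[p]? with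
    | none =>
      simp only [hc] at h1 ⊢
      exact fun I hI => (keep_iff x I).mpr (h1 I hI)
    | some c =>
      cases c with
      | nand i j k =>
        simp only [hc] at h1 ⊢
        exact fun I hI => (nand_iff x i j k I).mpr (h1 I hI)
      | ask i j l =>
        simp only [hc] at h1 h3 ⊢
        have hl : l < n := hG.ask i j l (mem_of_getElem? hc)
        exact fun I hI => (ask_iff x n i j l I hl).mpr ⟨h1 I hI, fun ht => h3 _ rfl I ht⟩

private def InR (S : ℕ) (l : LLit) : Prop := l.2.1 < 8 ∧ l.2.2 < S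

private theorem range_mk {S : ℕ} {a b c : LLit} (ha : InR S a) (hb : InR S b) (hc : InR S c)
    (j : Fin 3) : InR S (![a, b, c] j) := by
  fin_cases j
  · exact ha
  · exact hb
  · exact hc

private theorem inr {S : ℕ} {b : Bool} {a m : ℕ} (ha : a < 8) (hm : m < S) : InR S (b, a, m) :=
  ⟨ha, hm⟩

private theorem range_triv {S : ℕ} (hS : 0 < S) (j : Fin 3) : InR S (ltriv j) :=
  range_mk ⟨by norm_num, hS⟩ ⟨by norm_num, hS⟩ ⟨by norm_num, hS⟩ j

private theorem range_leq {S : ℕ} {b : Bool} {x y : ℕ × ℕ} (hx : x.1 < 8 ∧ x.2 < S)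
    (hy : y.1 < 8 ∧ y.2 < S) (j : Fin 3) : InR S (leq b x y j) :=
  range_mk (a := (b, x)) (b := (!b, y)) (c := (!b, y)) hx hy hy j

private theorem range_lceq {S : ℕ} {b : Bool} {c : LLit} {x y : ℕ × ℕ} (hc : InR S c)
    (hx : x.1 < 8 ∧ x.2 < S) (hy : y.1 < 8 ∧ y.2 < S) (j : Fin 3) : InR S (lceq c b x y j) :=
  range_mk (a := c) (b := (b, x)) (c := (!b, y)) hc hx hy j

private theorem range_keep {S I : ℕ} (K : ℕ) (hI : I < S) (j : Fin 3) : InR S (lkeep I K j) := by
  have h1 : (1 : ℕ) < 8 ∧ I < S := ⟨by norm_num, hI⟩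
  have h0 : (0 : ℕ) < 8 ∧ I < S := ⟨by norm_num, hI⟩
  match K with
  | 0 => exact range_leq h1 h0 j
  | 1 => exact range_leq h1 h0 j
  | (K + 2) => exact range_triv (by omega) j

private theorem range_land {S : ℕ} (K : ℕ) {x : ℕ × ℕ} {y u : LLit} (hx : x.1 < 8 ∧ x.2 < S)
    (hy : InR S y) (hu : InR S u) (j : Fin 3) : InR S (land K x y u j) := by
  match K with
  | 0 => exact range_mk (a := (false, x)) hx hy hy j
  | 1 => exact range_mk (a := (false, x)) hx hu hu j
  | 2 => exact range_mk (a := (true, x)) (b := (!y.1, y.2)) (c := (!u.1, u.2)) hx hy hu j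
  | (K + 3) => exact range_triv (by omega) j

private theorem range_kl {S I : ℕ} (K : ℕ) {x : ℕ × ℕ} {y u : LLit} (hI : I < S)
    (hx : x.1 < 8 ∧ x.2 < S) (hy : InR S y) (hu : InR S u) (j : Fin 3) :
    InR S ((if K < 2 then lkeep I K else land (K - 2) x y u) j) := by
  by_cases h : K < 2
  · rw [if_pos h]; exact range_keep K hI j
  · rw [if_neg h]; exact range_land (K - 2) hx hy hu j

private theorem range_lctl {n sg I : ℕ} (K : ℕ) (h8 : 8 ≤ 2 ^ sg) (hn : n + 3 ≤ 2 ^ sg)
    (hI : I < 2 ^ (sg + 1)) (j : Fin 3) : InR (2 ^ (sg + 1)) (lctl n sg I K j) := by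
  have hp : 2 ^ (sg + 1) = 2 * 2 ^ sg := by ring
  by_cases c0 : I = 0
  · subst c0; rw [e0]
    exact range_kl K hI ⟨by norm_num, by omega⟩ (inr (by norm_num) (by omega))
      (inr (by norm_num) (by omega)) j
  by_cases c1 : I = 1
  · subst c1; rw [e1]
    exact range_kl K hI ⟨by norm_num, by omega⟩ (inr (by norm_num) (by omega))
      (inr (by norm_num) (by omega)) j
  by_cases c2 : I = 2
  · subst c2; rw [e2]
    have h0 : ∀ a < 8, a < 8 ∧ 2 < 2 ^ (sg + 1) := fun a ha => ⟨ha, hI⟩
    have h5 : ∀ b : Bool, InR (2 ^ (sg + 1)) (b, 5, 1) := fun b => inr (by norm_num) (by omega)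
    match K with
    | 0 => exact range_lceq (h5 _) (h0 1 (by norm_num)) (h0 2 (by norm_num)) j
    | 1 => exact range_lceq (h5 _) (h0 1 (by norm_num)) (h0 2 (by norm_num)) j
    | 2 => exact range_lceq (h5 _) (h0 1 (by norm_num)) (h0 0 (by norm_num)) j
    | 3 => exact range_lceq (h5 _) (h0 1 (by norm_num)) (h0 0 (by norm_num)) j
    | (K + 4) => exact range_triv (by omega) j
  by_cases c3 : I = 3
  · subst c3; rw [e3]
    exact range_kl K hI ⟨by norm_num, by omega⟩ (inr (by norm_num) (by omega))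
      (inr (by norm_num) (by omega)) j
  by_cases c4 : I = 4
  · subst c4; rw [e4]
    exact range_kl K hI ⟨by norm_num, by omega⟩ (inr (by norm_num) (by omega))
      (inr (by norm_num) (by omega)) j
  by_cases c5 : I = 5
  · subst c5; rw [e5]
    exact range_kl K hI ⟨by norm_num, by omega⟩ (inr (by norm_num) (by omega))
      (inr (by norm_num) (by omega)) j
  by_cases c6 : I = 6
  · subst c6; rw [e6]
    exact range_kl K hI ⟨by norm_num, by omega⟩ (inr (by norm_num) (by omega))
      (inr (by norm_num) (by omega)) j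
  by_cases c7 : I = 7
  · subst c7; rw [e7]
    exact range_kl K hI ⟨by norm_num, by omega⟩ (inr (by norm_num) (by omega))
      (inr (by norm_num) (by omega)) j
  unfold lctl
  rw [if_neg c0, if_neg c1, if_neg c2, if_neg c3, if_neg c4, if_neg c5, if_neg c6, if_neg c7]
  by_cases d1 : I < 2 ^ sg
  · rw [if_pos d1]; exact range_keep K hI j
  rw [if_neg d1]
  by_cases d2 : I ≤ 2 ^ sg + n
  · rw [if_pos d2]
    have hx : ∀ a < 8, a < 8 ∧ I < 2 ^ (sg + 1) := fun a ha => ⟨ha, hI⟩
    have hy : ∀ a < 8, a < 8 ∧ I - 2 ^ sg < 2 ^ (sg + 1) := fun a ha => ⟨ha, by omega⟩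
    have h5 : ∀ (b : Bool) (i : ℕ), i < 8 → InR (2 ^ (sg + 1)) (b, 5, i) :=
      fun b i hi => inr (by norm_num) (by omega)
    match K with
    | 0 => exact range_lceq (h5 _ _ (by norm_num)) (hx 1 (by norm_num)) (hy 4 (by norm_num)) j
    | 1 => exact range_lceq (h5 _ _ (by norm_num)) (hx 1 (by norm_num)) (hy 4 (by norm_num)) j
    | 2 => exact range_lceq (h5 _ _ (by norm_num)) (hx 1 (by norm_num)) (hx 2 (by norm_num)) j
    | 3 => exact range_lceq (h5 _ _ (by norm_num)) (hx 1 (by norm_num)) (hx 2 (by norm_num)) j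
    | 4 => exact range_lceq (h5 _ _ (by norm_num)) (hx 1 (by norm_num)) (hx 0 (by norm_num)) j
    | 5 => exact range_lceq (h5 _ _ (by norm_num)) (hx 1 (by norm_num)) (hx 0 (by norm_num)) j
    | 6 => exact range_leq (hy 3 (by norm_num)) (hx 0 (by norm_num)) j
    | (K + 7) => exact range_leq (hy 3 (by norm_num)) (hx 0 (by norm_num)) j
  rw [if_neg d2]
  have g0 : ∀ (b : Bool) (a : ℕ), a < 8 → InR (2 ^ (sg + 1)) (b, a, I) :=
    fun b a ha => ⟨ha, hI⟩
  have g5 : ∀ (b : Bool) (i : ℕ), i < 8 → InR (2 ^ (sg + 1)) (b, 5, i) :=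
    fun b i hi => inr (by norm_num) (by omega)
  by_cases d3 : I = 2 ^ (sg + 1) - 2
  · rw [if_pos d3]
    match K with
    | 0 => exact range_mk (g0 _ 1 (by norm_num)) (g0 _ 0 (by norm_num)) (g0 _ 0 (by norm_num)) j
    | 1 => exact range_mk (g0 _ 1 (by norm_num)) (g5 _ 2 (by norm_num)) (g5 _ 2 (by norm_num)) j
    | 2 => exact range_mk (g0 _ 1 (by norm_num)) (g0 _ 0 (by norm_num)) (g5 _ 2 (by norm_num)) j
    | (K + 3) => exact range_triv (by omega) j
  rw [if_neg d3]
  by_cases d4 : I = 2 ^ (sg + 1) - 1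
  · rw [if_pos d4]
    match K with
    | 0 => exact range_mk (g0 _ 1 (by norm_num)) (g0 _ 0 (by norm_num)) (g0 _ 0 (by norm_num)) j
    | 1 => exact range_mk (g0 _ 1 (by norm_num)) (g5 _ 6 (by norm_num)) (g5 _ 6 (by norm_num)) j
    | 2 => exact range_mk (g0 _ 1 (by norm_num)) (g0 _ 0 (by norm_num)) (g5 _ 6 (by norm_num)) j
    | (K + 3) => exact range_triv (by omega) j
  rw [if_neg d4]
  exact range_keep K hI j

/-- kinds and indices in the local clauses are in range -/
theorem local_range {n sg : ℕ} {G : List Ins} (hG : Good n sg G) {p I K : ℕ} (hp : p < 2 ^ sg)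
    (hI : I < 2 ^ (sg + 1)) (j : Fin 3) :
    (lcl n sg G p I K j).2.1 < 8 ∧ (lcl n sg G p I K j).2.2 < 2 ^ (sg + 1) := by
  have h8 : 8 ≤ 2 ^ sg := by
    calc 8 = 2 ^ 3 := by norm_num
      _ ≤ 2 ^ sg := Nat.pow_le_pow_right (by norm_num) hG.eight
  have hn := hG.big
  have hp1 : 2 ^ (sg + 1) = 2 * 2 ^ sg := by ring
  change InR (2 ^ (sg + 1)) (lcl n sg G p I K j)
  unfold lcl
  by_cases hp2 : p = 2 ^ sg - 1
  · rw [if_pos hp2]; exact range_lctl K h8 hn hI j
  rw [if_neg hp2]
  cases hc : G[p]? with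
  | none => exact range_keep K hI j
  | some c =>
    have htop := hG.top c (mem_of_getElem? hc)
    cases c with
    | nand i j' k =>
      simp only [Ins.top, sup_le_iff] at htop
      obtain ⟨t1, t2, t3⟩ := htop
      change InR (2 ^ (sg + 1)) (lnand i j' k I K j)
      unfold lnand
      by_cases h : I = i
      · rw [if_pos h]
        have g : ∀ (b : Bool) (a m : ℕ), a < 8 → m < 2 ^ sg → InR (2 ^ (sg + 1)) (b, a, m) :=
          fun b a m ha hm => inr ha (by omega)
        match K with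
        | 0 => exact range_mk (g _ 1 i (by norm_num) (by omega)) (g _ 0 j' (by norm_num)
            (by omega)) (g _ 0 j' (by norm_num) (by omega)) j
        | 1 => exact range_mk (g _ 1 i (by norm_num) (by omega)) (g _ 0 k (by norm_num)
            (by omega)) (g _ 0 k (by norm_num) (by omega)) j
        | 2 => exact range_mk (g _ 1 i (by norm_num) (by omega)) (g _ 0 j' (by norm_num)
            (by omega)) (g _ 0 k (by norm_num) (by omega)) j
        | (K + 3) => exact range_triv (by omega) j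
      · rw [if_neg h]; exact range_keep K hI j
    | ask i j' l =>
      simp only [Ins.top, sup_le_iff] at htop
      obtain ⟨t1, t2⟩ := htop
      have hl : l < n := hG.ask i j' l (mem_of_getElem? hc)
      change InR (2 ^ (sg + 1)) (lask n i j' l I K j)
      have g : ∀ (a m : ℕ), a < 8 → m < 2 ^ sg → a < 8 ∧ m < 2 ^ (sg + 1) :=
        fun a m ha hm => ⟨ha, by omega⟩
      match K with
      | 0 =>
        change InR (2 ^ (sg + 1)) ((if I = i then leq false (1, i) (2, 0) else lkeep I 0) j)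
        by_cases h : I = i
        · rw [if_pos h]
          exact range_leq (g 1 i (by norm_num) (by omega)) (g 2 0 (by norm_num) (by omega)) j
        · rw [if_neg h]; exact range_keep 0 hI j
      | 1 =>
        change InR (2 ^ (sg + 1)) ((if I = i then leq true (1, i) (2, 0) else lkeep I 1) j)
        by_cases h : I = i
        · rw [if_pos h]
          exact range_leq (g 1 i (by norm_num) (by omega)) (g 2 0 (by norm_num) (by omega)) j
        · rw [if_neg h]; exact range_keep 1 hI j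
      | 2 =>
        change InR (2 ^ (sg + 1)) ((if I ≤ n then
          (if I < l then leq false (3, I) (0, j' + I)
           else ![(decide (I = l), 3, I), (decide (I = l), 3, I), (decide (I = l), 3, I)])
          else ltriv) j)
        by_cases h : I ≤ n
        · rw [if_pos h]
          by_cases h' : I < l
          · rw [if_pos h']
            exact range_leq (g 3 I (by norm_num) (by omega))
              (g 0 (j' + I) (by norm_num) (by omega)) j
          · rw [if_neg h']
            have g3 : InR (2 ^ (sg + 1)) (decide (I = l), 3, I) :=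
              ⟨by norm_num, hI⟩
            exact range_mk g3 g3 g3 j
        · rw [if_neg h]; exact range_triv (by omega) j
      | 3 =>
        change InR (2 ^ (sg + 1)) ((if I < l then leq true (3, I) (0, j' + I) else ltriv) j)
        by_cases h' : I < l
        · rw [if_pos h']
          exact range_leq (g 3 I (by norm_num) (by omega))
            (g 0 (j' + I) (by norm_num) (by omega)) j
        · rw [if_neg h']; exact range_triv (by omega) j
      | (K + 4) => exact range_triv (by omega) j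

end Pool.Agent.NUM.S3
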