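import Pool.Agent.NUM.Basic
import Pool.Agent.NUM.S3Loc

/-! # the computation cut into blocks (one instruction or one stack operation each) -/

namespace Pool.Agent.NUM.S3

/-- what the lookup returns in a block of type `p`, for the list `H` of the states before the
earlier blocks and before this block -/
def brecv (n sg : ℕ) (G : List Ins) (Z : Inp) (p : ℕ) (H : List (ℕ → Bool)) (s : ℕ → Bool) :
    ℕ → Bool :=
  if p = 2 ^ sg - 1 then H.getD (num n fun t => s (2 ^ sg + t)) (fun _ => false)
  else match G[p]? with
    | some (.ask _ j l) => fun _ => Z (word s j l)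
    | _ => fun _ => false

/-- digits of the position of block `k`, `k < 2 ^ n` -/
def selfOf (n k : ℕ) : ℕ → Bool := fun t => (2 ^ n + k).testBit t

/-- the states before the blocks `0, …, k` -/
def hist (n sg : ℕ) (G : List Ins) (Z : Inp) : ℕ → List (ℕ → Bool)
  | 0 => [fun _ => false]
  | k + 1 =>
    let H := hist n sg G Z k
    let s := H.getD k (fun _ => false)
    H ++ [bnext n sg G (k % 2 ^ sg) s (brecv n sg G Z (k % 2 ^ sg) H s) (selfOf n k)]

/-- the state before block `k` -/
def bst (n sg : ℕ) (G : List Ins) (Z : Inp) (k : ℕ) : ℕ → Bool :=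
  (hist n sg G Z k).getD k (fun _ => false)

theorem bst_zero (n sg : ℕ) (G : List Ins) (Z : Inp) : bst n sg G Z 0 = fun _ => false := by
  rfl

/-- what the lookup of block `k` returns -/
def rcv (n sg : ℕ) (G : List Ins) (Z : Inp) (k : ℕ) : ℕ → Bool :=
  brecv n sg G Z (k % 2 ^ sg) (hist n sg G Z k) (bst n sg G Z k)

private theorem hist_length (n sg : ℕ) (G : List Ins) (Z : Inp) (k : ℕ) :
    (hist n sg G Z k).length = k + 1 := by
  induction k with
  | zero => rfl
  | succ k ih => simp [hist, ih]

theorem bst_succ (n sg : ℕ) (G : List Ins) (Z : Inp) (k : ℕ) :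
    bst n sg G Z (k + 1) =
      bnext n sg G (k % 2 ^ sg) (bst n sg G Z k) (rcv n sg G Z k) (selfOf n k) := by
  have h1 := hist_length n sg G Z k
  change (hist n sg G Z (k + 1)).getD (k + 1) (fun _ => false) = _
  simp only [hist]
  rw [List.getD_append_right _ _ _ _ (by rw [h1]), h1, Nat.sub_self]
  rfl

private theorem hist_getD (n sg : ℕ) (G : List Ins) (Z : Inp) (k i : ℕ) (hi : i ≤ k) :
    (hist n sg G Z k).getD i (fun _ => false) = bst n sg G Z i := by
  induction k with
  | zero =>
    have : i = 0 := by omega
    subst this; rfl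
  | succ k ih =>
    by_cases h : i = k + 1
    · subst h; rfl
    · rw [← ih (by omega)]
      simp only [hist]
      rw [List.getD_append _ _ _ _ (by rw [hist_length]; omega)]

theorem rcv_ctl (n sg : ℕ) (G : List Ins) (Z : Inp) (k : ℕ) (h : k % 2 ^ sg = 2 ^ sg - 1)
    (hk : (num n fun t => bst n sg G Z k (2 ^ sg + t)) ≤ k) :
    rcv n sg G Z k = bst n sg G Z (num n fun t => bst n sg G Z k (2 ^ sg + t)) := by
  unfold rcv brecv
  rw [if_pos h, hist_getD _ _ _ _ _ _ hk]

theorem rcv_ask {n sg : ℕ} {G : List Ins} (Z : Inp) (k : ℕ) {i j l : ℕ}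
    (hp : k % 2 ^ sg ≠ 2 ^ sg - 1) (h : G[k % 2 ^ sg]? = some (.ask i j l)) :
    rcv n sg G Z k = fun _ => Z (word (bst n sg G Z k) j l) := by
  unfold rcv brecv
  rw [if_neg hp, h]

/-- instruction blocks execute the instruction -/
private theorem bst_ins {n sg : ℕ} {G : List Ins} (Z : Inp) (k : ℕ)
    (hp : k % 2 ^ sg ≠ 2 ^ sg - 1) :
    bst n sg G Z (k + 1) = match G[k % 2 ^ sg]? with
      | none => bst n sg G Z k
      | some c => c.exec Z (bst n sg G Z k) := by
  rw [bst_succ]
  unfold bnext
  rw [if_neg hp]
  cases h : G[k % 2 ^ sg]? with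
  | none => rfl
  | some c =>
    cases c with
    | nand i j k' => rfl
    | ask i j l =>
      rw [rcv_ask Z k hp h]
      rfl

private theorem bst_ctl {n sg : ℕ} {G : List Ins} (Z : Inp) (k : ℕ)
    (hp : k % 2 ^ sg = 2 ^ sg - 1) :
    bst n sg G Z (k + 1) = ctlNext n sg (bst n sg G Z k) (rcv n sg G Z k) (selfOf n k) := by
  rw [bst_succ]
  unfold bnext
  rw [if_pos hp]

private theorem num_congr' {n : ℕ} {g h : ℕ → Bool} (hgh : ∀ i < n, g i = h i) :
    num n g = num n h := by
  unfold num
  exact Finset.sum_congr rfl fun r hr => by rw [hgh r (Finset.mem_range.1 hr)]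

private theorem num_testBit' (n x : ℕ) (hx : x < 2 ^ n) :
    num n (fun i => (2 ^ n + x).testBit i) = x := by
  apply Nat.eq_of_testBit_eq
  intro i
  rw [testBit_num]
  by_cases hi : i < n
  · rw [decide_eq_true hi, Bool.true_and, Nat.testBit_two_pow_add_gt hi]
  · rw [decide_eq_false hi, Bool.false_and]
    exact (Nat.testBit_eq_false_of_lt (hx.trans_le (Nat.pow_le_pow_right (by norm_num)
      (by omega)))).symm

private theorem self_top (n k : ℕ) (hk : k < 2 ^ n) : selfOf n k n = true := by
  unfold selfOf
  rw [Nat.testBit_two_pow_add_eq, Nat.testBit_eq_false_of_lt hk]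
  rfl

/-- cells of index at least `2 ^ sg` are not changed by instruction blocks -/
private theorem bst_ins_ge {n sg : ℕ} {G : List Ins} (hG : Good n sg G) (Z : Inp) (k : ℕ)
    (hp : k % 2 ^ sg ≠ 2 ^ sg - 1) {q : ℕ} (hq : 2 ^ sg ≤ q) :
    bst n sg G Z (k + 1) q = bst n sg G Z k q := by
  rw [bst_ins Z k hp]
  cases h : G[k % 2 ^ sg]? with
  | none => rfl
  | some c => exact Ins.exec_ge (hG.top c (List.mem_of_getElem? h)) hq

private theorem eight_le {n sg : ℕ} {G : List Ins} (hG : Good n sg G) : 8 ≤ 2 ^ sg := by
  calc 8 = 2 ^ 3 := by norm_num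
    _ ≤ 2 ^ sg := Nat.pow_le_pow_right (by norm_num) hG.eight

/-- the pointer after a stack operation -/
private theorem ctl_ptr {n sg : ℕ} {G : List Ins} (hG : Good n sg G) (s r self : ℕ → Bool)
    {t : ℕ} (ht : t ≤ n) : ctlNext n sg s r self (2 ^ sg + t) =
      if isPush s = true then self t
      else if (isPop s && isNe n sg s) = true then r (2 ^ sg + t) else s (2 ^ sg + t) := by
  have h8 := eight_le hG
  unfold ctlNext
  rw [if_neg (by omega), if_neg (by omega), if_pos (by omega)]
  simp only [Nat.add_sub_cancel_left]

private theorem ptr_inv {n sg : ℕ} {G : List Ins} (hG : Good n sg G) (Z : Inp) (k : ℕ) :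
    k ≤ 2 ^ n →
    (bst n sg G Z k (2 ^ sg + n) = true →
      (num n fun t => bst n sg G Z k (2 ^ sg + t)) < k ∧
      (num n fun t => bst n sg G Z k (2 ^ sg + t)) % 2 ^ sg = 2 ^ sg - 1) ∧
    (bst n sg G Z k (2 ^ sg + n) = false → ∀ t ≤ n, bst n sg G Z k (2 ^ sg + t) = false) := by
  induction k using Nat.strong_induction_on with
  | _ k ih =>
    intro hk
    rcases k with _ | k
    · refine ⟨fun h => ?_, fun _ t _ => rfl⟩
      exact absurd h (by rw [bst_zero]; simp)
    · obtain ⟨ih1, ih2⟩ := ih k (by omega) (by omega)
      by_cases hp : k % 2 ^ sg = 2 ^ sg - 1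
      · set s := bst n sg G Z k with hs
        have hnext : ∀ t, t ≤ n → bst n sg G Z (k + 1) (2 ^ sg + t) =
            if isPush s = true then selfOf n k t
            else if (isPop s && isNe n sg s) = true then rcv n sg G Z k (2 ^ sg + t)
            else s (2 ^ sg + t) := by
          intro t ht
          rw [bst_ctl Z k hp]
          exact ctl_ptr hG _ _ _ ht
        by_cases hpush : isPush s = true
        · simp only [hpush, if_true] at hnext
          refine ⟨fun _ => ?_, fun h => ?_⟩
          · rw [num_congr' (fun t ht => hnext t (by omega))]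
            have h1 : (num n fun t => selfOf n k t) = k := num_testBit' n k (by omega)
            rw [h1]
            exact ⟨by omega, hp⟩
          · rw [hnext n le_rfl, self_top n k (by omega)] at h
            exact absurd h (by decide)
        · by_cases hpop : (isPop s && isNe n sg s) = true
          · simp only [hpush, hpop, if_true, Bool.false_eq_true, if_false] at hnext
            have hne : s (2 ^ sg + n) = true := by
              have := (Bool.and_eq_true_iff.1 hpop).2
              exact this
            obtain ⟨h1, h2⟩ := ih1 hne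
            have h3 := rcv_ctl n sg G Z k hp (Nat.le_of_lt h1)
            set m := num n fun t => bst n sg G Z k (2 ^ sg + t) with hm
            obtain ⟨ih3, ih4⟩ := ih m (by omega) (by omega)
            rw [h3] at hnext
            refine ⟨fun h => ?_, fun h t ht => ?_⟩
            · rw [hnext n le_rfl] at h
              rw [num_congr' (fun t ht => hnext t (by omega))]
              obtain ⟨h4, h5⟩ := ih3 h
              exact ⟨by omega, h5⟩
            · rw [hnext n le_rfl] at h
              rw [hnext t ht]
              exact ih4 h t ht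
          · simp only [hpush, hpop, Bool.false_eq_true, if_false] at hnext
            refine ⟨fun h => ?_, fun h t ht => ?_⟩
            · rw [hnext n le_rfl] at h
              rw [num_congr' (fun t ht => hnext t (by omega))]
              obtain ⟨h4, h5⟩ := ih1 h
              exact ⟨by omega, h5⟩
            · rw [hnext n le_rfl] at h
              rw [hnext t ht]
              exact ih2 h t ht
      · have hnext : ∀ t, bst n sg G Z (k + 1) (2 ^ sg + t) = bst n sg G Z k (2 ^ sg + t) :=
          fun t => bst_ins_ge hG Z k hp (by omega)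
        simp only [hnext]
        refine ⟨fun h => ?_, ih2⟩
        obtain ⟨h4, h5⟩ := ih1 h
        exact ⟨by omega, h5⟩

/-- the stack pointer: if the flag `2 ^ sg + n` is set, the digits below name an earlier block -/
theorem ptr_lt {n sg : ℕ} {G : List Ins} (hG : Good n sg G) (Z : Inp) (k : ℕ) (hk : k ≤ 2 ^ n)
    (h : bst n sg G Z k (2 ^ sg + n) = true) :
    (num n fun t => bst n sg G Z k (2 ^ sg + t)) < k ∧
      (num n fun t => bst n sg G Z k (2 ^ sg + t)) % 2 ^ sg = 2 ^ sg - 1 :=
  (ptr_inv hG Z k hk).1 h

/-- if the flag is not set, all digits are `0` -/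
theorem ptr_zero {n sg : ℕ} {G : List Ins} (hG : Good n sg G) (Z : Inp) (k : ℕ) (hk : k ≤ 2 ^ n)
    (h : bst n sg G Z k (2 ^ sg + n) = false) : ∀ t ≤ n, bst n sg G Z k (2 ^ sg + t) = false :=
  (ptr_inv hG Z k hk).2 h

/-- the state after the first `p` blocks of a pass -/
private theorem bst_pass {n sg : ℕ} {G : List Ins} (Z : Inp) (t p : ℕ) (hp : p ≤ 2 ^ sg - 1) :
    bst n sg G Z (t * 2 ^ sg + p) = eval (G.take p) Z (bst n sg G Z (t * 2 ^ sg)) := by
  induction p with
  | zero => simp
  | succ p ih =>
    have h1 : (t * 2 ^ sg + p) % 2 ^ sg = p := by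
      rw [Nat.mul_comm, Nat.mul_add_mod]
      exact Nat.mod_eq_of_lt (by omega)
    rw [← Nat.add_assoc, bst_ins Z _ (by rw [h1]; omega), h1, ih (by omega), List.take_add_one]
    cases h : G[p]? with
    | none => simp
    | some c => rw [eval_append]; rfl

/-- the state before the stack operation of pass `t` -/
private theorem bst_before {n sg : ℕ} {G : List Ins} (hG : Good n sg G) (Z : Inp) (t : ℕ) :
    bst n sg G Z (t * 2 ^ sg + (2 ^ sg - 1)) = eval G Z (bst n sg G Z (t * 2 ^ sg)) := by
  rw [bst_pass Z t _ le_rfl, List.take_of_length_le]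
  have := hG.len
  omega

/-- the pointer of `s` represents the stack `st` -/
private def rep (n sg : ℕ) (G : List Ins) (Z : Inp) : (ℕ → Bool) → List Bool → Prop
  | s, [] => s (2 ^ sg + n) = false
  | s, b :: st => s (2 ^ sg + n) = true ∧
      bst n sg G Z (num n fun t => s (2 ^ sg + t)) 2 = b ∧
      rep n sg G Z (bst n sg G Z (num n fun t => s (2 ^ sg + t))) st

private theorem rep_congr {n sg : ℕ} {G : List Ins} {Z : Inp} {s s' : ℕ → Bool} {st : List Bool}
    (h : ∀ t ≤ n, s (2 ^ sg + t) = s' (2 ^ sg + t)) (hr : rep n sg G Z s st) :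
    rep n sg G Z s' st := by
  cases st with
  | nil =>
    change s' _ = false
    rw [← h n le_rfl]; exact hr
  | cons b st =>
    have hn : (num n fun t => s (2 ^ sg + t)) = num n fun t => s' (2 ^ sg + t) :=
      num_congr' fun t ht => h t (by omega)
    obtain ⟨h1, h2, h3⟩ := hr
    refine ⟨by rw [← h n le_rfl]; exact h1, ?_, ?_⟩
    · rw [← hn]; exact h2
    · rw [← hn]; exact h3

/-- the invariant at the beginning of pass `t` -/
private theorem pass_inv {n sg : ℕ} {G : List Ins} (hG : Good n sg G) (Z : Inp) (t : ℕ) :
    t * 2 ^ sg ≤ 2 ^ n →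
    (bst n sg G Z (t * 2 ^ sg) (2 ^ (sg + 1) - 2) = false ∧
      bst n sg G Z (t * 2 ^ sg) (2 ^ (sg + 1) - 1) = false ∧
      ∃ (M : Mem) (st : List Bool), Agr (2 ^ sg) (bst n sg G Z (t * 2 ^ sg)) M ∧
        rep n sg G Z (bst n sg G Z (t * 2 ^ sg)) st ∧
        ∀ j, run (eval G Z) (t + j) zeroMem [] = run (eval G Z) j M st) ∨
    (bst n sg G Z (t * 2 ^ sg) (2 ^ (sg + 1) - 2) = true ∧
      run (eval G Z) t zeroMem [] = some (bst n sg G Z (t * 2 ^ sg) (2 ^ (sg + 1) - 1))) := by
  have h8 := eight_le hG
  have hbig := hG.big
  have hpow : 2 ^ (sg + 1) = 2 * 2 ^ sg := by rw [pow_succ]; ring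
  induction t with
  | zero =>
    intro _
    rw [Nat.zero_mul, bst_zero]
    exact Or.inl ⟨rfl, rfl, zeroMem, [], fun _ _ => rfl, rfl, fun j => by rw [Nat.zero_add]⟩
  | succ t ih =>
    intro ht
    have ht' : t * 2 ^ sg + 2 ^ sg ≤ 2 ^ n := by rw [← Nat.succ_mul]; exact ht
    have ih := ih (by omega)
    set S := bst n sg G Z (t * 2 ^ sg) with hS
    set k := t * 2 ^ sg + (2 ^ sg - 1) with hk
    have hk1 : (t + 1) * 2 ^ sg = k + 1 := by rw [Nat.succ_mul]; omega
    have hkmod : k % 2 ^ sg = 2 ^ sg - 1 := by
      rw [hk, Nat.mul_comm, Nat.mul_add_mod]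
      exact Nat.mod_eq_of_lt (by omega)
    set s := bst n sg G Z k with hs
    have hsS : s = eval G Z S := bst_before hG Z t
    have hge : ∀ q, 2 ^ sg ≤ q → s q = S q := fun q hq => by
      rw [hsS]; exact eval_ge hG.top hq
    set N := bst n sg G Z ((t + 1) * 2 ^ sg) with hN
    have hNs : N = ctlNext n sg s (rcv n sg G Z k) (selfOf n k) := by
      rw [hN, hk1]; exact bst_ctl Z k hkmod
    -- flags
    have hflag1 : N (2 ^ (sg + 1) - 2) = (S (2 ^ (sg + 1) - 2) || (isPop s && !(isNe n sg s))) := by
      rw [hNs]
      unfold ctlNext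
      rw [if_neg (by omega), if_neg (by omega), if_neg (by omega), if_pos rfl, hge _ (by omega)]
    have hflag2 : N (2 ^ (sg + 1) - 1) = (S (2 ^ (sg + 1) - 1) ||
        (isPop s && !(isNe n sg s) && s 2 && !(S (2 ^ (sg + 1) - 2)))) := by
      rw [hNs]
      unfold ctlNext
      rw [if_neg (by omega), if_neg (by omega), if_neg (by omega), if_neg (by omega), if_pos rfl,
        hge (2 ^ (sg + 1) - 1) (by omega), hge (2 ^ (sg + 1) - 2) (by omega)]
    rcases ih with ⟨hh, ha, M, st, hM, hrep, hrun⟩ | ⟨hh, hrun⟩
    · -- not halted
      have hfM : Agr (2 ^ sg) s (eval G Z M) := by rw [hsS]; exact eval_agr hG.top hM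
      have e0 : s 0 = eval G Z M 0 := hfM 0 (by omega)
      have e1 : s 1 = eval G Z M 1 := hfM 1 (by omega)
      have e2 : s 2 = eval G Z M 2 := hfM 2 (by omega)
      have hreps : rep n sg G Z s st := rep_congr (fun t ht => (hge _ (by omega)).symm) hrep
      have hrun1 : ∀ j, run (eval G Z) (t + 1 + j) zeroMem [] = run (eval G Z) (j + 1) M st := by
        intro j
        rw [show t + 1 + j = t + (j + 1) by omega]
        exact hrun (j + 1)
      rw [hh] at hflag1 hflag2
      rw [ha] at hflag2
      by_cases c0 : eval G Z M 0 = true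
      · by_cases c1 : eval G Z M 1 = true
        · have hpop : isPop s = true := by unfold isPop; rw [e0, e1, c0, c1]; rfl
          have hpush : isPush s = false := by unfold isPush; rw [e1, c1]; simp
          cases st with
          | nil =>
            -- halt
            right
            have hne : isNe n sg s = false := hreps
            rw [hpop, hne] at hflag1 hflag2
            refine ⟨by rw [hflag1]; rfl, ?_⟩
            have h1 := hrun1 0
            have h2 : run (eval G Z) (0 + 1) M [] = some (eval G Z M 2) := by
              rw [run_succ]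
              simp only [c0, c1, if_true]
            rw [Nat.add_zero] at h1
            rw [h1, h2, hflag2, ← e2]
            simp
          | cons b st =>
            left
            obtain ⟨r1, r2, r3⟩ := hreps
            have hne : isNe n sg s = true := r1
            rw [hpop, hne] at hflag1 hflag2
            refine ⟨by rw [hflag1]; rfl, by rw [hflag2]; rfl,
              Function.update (eval G Z M) 2 b, st, ?_, ?_, ?_⟩
            · intro q hq
              rw [hNs]
              unfold ctlNext
              have hlt := (ptr_lt hG Z k (by omega) r1).1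
              by_cases hq2 : q = 2
              · rw [if_pos hq2, if_pos (by rw [hpop, hne]; rfl), hq2, Function.update_self,
                  rcv_ctl n sg G Z k hkmod (by omega)]
                exact r2
              · rw [if_neg hq2, if_pos hq, Function.update_of_ne hq2]
                exact hfM q hq
            · refine rep_congr (fun t ht => ?_) r3
              have hlt := (ptr_lt hG Z k (by omega) r1).1
              rw [hNs, ctl_ptr hG _ _ _ ht, hpush, hpop, hne,
                rcv_ctl n sg G Z k hkmod (by omega)]
              rfl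
            · intro j
              rw [hrun1 j, run_succ]
              simp only [c0, c1, if_true]
        · -- push
          left
          have c1' : eval G Z M 1 = false := by simpa using c1
          have hpop : isPop s = false := by unfold isPop; rw [e1, c1']; simp
          have hpush : isPush s = true := by unfold isPush; rw [e0, e1, c0, c1']; rfl
          rw [hpop] at hflag1 hflag2
          refine ⟨by rw [hflag1]; rfl, by rw [hflag2]; rfl, eval G Z M, eval G Z M 2 :: st,
            ?_, ?_, ?_⟩
          · intro q hq
            rw [hNs]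
            unfold ctlNext
            by_cases hq2 : q = 2
            · rw [if_pos hq2, hpop, hq2]
              simpa using e2
            · rw [if_neg hq2, if_pos hq]
              exact hfM q hq
          · have hptr : ∀ t ≤ n, N (2 ^ sg + t) = selfOf n k t := by
              intro t ht
              rw [hNs, ctl_ptr hG _ _ _ ht, if_pos hpush]
            have hnum : (num n fun t => N (2 ^ sg + t)) = k := by
              rw [num_congr' fun t ht => hptr t (by omega)]
              exact num_testBit' n k (by omega)
            refine ⟨by rw [hptr n le_rfl]; exact self_top n k (by omega), ?_, ?_⟩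
            · rw [hnum]; exact e2
            · rw [hnum]; exact hreps
          · intro j
            rw [hrun1 j, run_succ]
            simp only [c0, c1, if_true, Bool.false_eq_true, if_false]
      · -- nothing
        left
        have c0' : eval G Z M 0 = false := by simpa using c0
        have hpop : isPop s = false := by unfold isPop; rw [e0, c0']; rfl
        have hpush : isPush s = false := by unfold isPush; rw [e0, c0']; rfl
        rw [hpop] at hflag1 hflag2
        refine ⟨by rw [hflag1]; rfl, by rw [hflag2]; rfl, eval G Z M, st, ?_, ?_, ?_⟩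
        · intro q hq
          rw [hNs]
          unfold ctlNext
          by_cases hq2 : q = 2
          · rw [if_pos hq2, hpop, hq2]
            simpa using e2
          · rw [if_neg hq2, if_pos hq]
            exact hfM q hq
        · refine rep_congr (fun t ht => ?_) hreps
          rw [hNs, ctl_ptr hG _ _ _ ht, hpush, hpop]
          rfl
        · intro j
          rw [hrun1 j, run_succ]
          simp only [c0, Bool.false_eq_true, if_false]
    · -- halted
      right
      rw [hh] at hflag1 hflag2
      refine ⟨by rw [hflag1]; rfl, ?_⟩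
      rw [run_mono hrun (t + 1) (by omega), hflag2]
      simp

/-- the accepting flag at the end tells whether the program accepts -/
theorem run_iff_acc {n sg : ℕ} {G : List Ins} (hG : Good n sg G) (Z : Inp) :
    run (eval G Z) (2 ^ (n - sg)) zeroMem [] = some true ↔
      bst n sg G Z (2 ^ n) (2 ^ (sg + 1) - 1) = true := by
  have hk : 2 ^ (n - sg) * 2 ^ sg = 2 ^ n := by
    rw [← pow_add, Nat.sub_add_cancel hG.le]
  have h := pass_inv hG Z (2 ^ (n - sg)) (by rw [hk])
  rw [hk] at h
  rcases h with ⟨_, ha, M, st, _, _, hrun⟩ | ⟨_, hrun⟩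
  · have h0 := hrun 0
    rw [Nat.add_zero] at h0
    rw [h0, ha]
    simp [run]
  · rw [hrun]
    simp

end Pool.Agent.NUM.S3
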