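import Pool.Agent.NUM.ViewDef

/-! The predicate decided by the CHECK machine on the local view is `ChkV`. -/

namespace Pool.Agent.NUM

namespace ViewSemAux

theorem numc {n : ℕ} {g h : ℕ → Bool} (hgh : ∀ i < n, g i = h i) : num n g = num n h := by
  unfold num
  apply Finset.sum_congr rfl
  intro i hi
  rw [hgh i (Finset.mem_range.1 hi)]

theorem num_tb (n x : ℕ) : num n (fun i => x.testBit i) = x % 2 ^ n := by
  induction n with
  | zero => simp [num, Nat.mod_one]
  | succ n ih =>
    have hs : num (n + 1) (fun i => x.testBit i) =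
        num n (fun i => x.testBit i) + (if x.testBit n = true then 2 ^ n else 0) := by
      unfold num
      rw [Finset.sum_range_succ]
    rw [hs, ih, Nat.mod_pow_succ]
    congr 1
    by_cases h : x.testBit n = true
    · rw [if_pos h]
      have h1 : x / 2 ^ n % 2 = 1 := by
        rw [Nat.testBit_eq_decide_div_mod_eq] at h
        simpa using h
      rw [h1, mul_one]
    · rw [if_neg h]
      have h1 : x / 2 ^ n % 2 = 0 := by
        rw [Nat.testBit_eq_decide_div_mod_eq] at h
        have h2 : ¬ x / 2 ^ n % 2 = 1 := by simpa using h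
        omega
      rw [h1, mul_zero]

theorem length_bits (n x : ℕ) : (bits n x).length = n := by simp [bits]

theorem bits_getD {n x i : ℕ} (h : i < n) : (bits n x).getD i false = x.testBit i := by
  rw [List.getD_eq_getElem _ _ (by rw [length_bits]; exact h)]
  simp [bits]

theorem val_bits {n x : ℕ} (h : x < 2 ^ n) : val (bits n x) = x := by
  unfold val
  rw [length_bits, numc (h := fun i => x.testBit i) fun i hi => bits_getD hi, num_tb,
    Nat.mod_eq_of_lt h]

theorem fit_getD {q i : ℕ} (k : List Bool) (h : i < q) :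
    (fit q k).getD i false = k.getD i false := by
  have hl : (fit q k).length = q := by simp [fit]
  rw [List.getD_eq_getElem _ _ (by rw [hl]; exact h)]
  simp [fit]

/-- a record number read from its compact form -/
theorem num_lst (q : ℕ) (k : List Bool) :
    (num q fun r => lst (Nat.size q) (fit q k) (bits (Nat.size q) r)) = rnum q k := by
  unfold rnum
  apply numc
  intro i hi
  unfold lst
  have h1 : i < 2 ^ Nat.size q := hi.trans (Nat.lt_size_self q)
  rw [if_pos (length_bits _ _).le, val_bits h1, fit_getD k hi]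

theorem cut_cut (s : ℕ) (x : ℕ → Bool) : ChkPar.cut s (ChkPar.cut s x) = ChkPar.cut s x := by
  funext p
  by_cases hp : p < s <;> simp [ChkPar.cut, hp]

theorem fix_cut_fix_cut (s : ℕ) (x : ℕ → Bool) :
    ChkPar.fix (ChkPar.cut s (ChkPar.fix (ChkPar.cut s x))) = ChkPar.fix (ChkPar.cut s x) := by
  funext p
  by_cases hp : p < s <;> by_cases h2 : p < 2 <;> simp [ChkPar.cut, ChkPar.fix, hp, h2]

theorem cut_fix_cut {s : ℕ} (hs : 2 ≤ s) (x : ℕ → Bool) :
    ChkPar.cut s (ChkPar.fix (ChkPar.cut s x)) = ChkPar.fix (ChkPar.cut s x) := by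
  funext p
  by_cases hp : p < s
  · simp [ChkPar.cut, ChkPar.fix, hp]
  · have h2 : ¬ p < 2 := by omega
    simp [ChkPar.cut, ChkPar.fix, hp, h2]

theorem imp_aux (A B C D : Prop) : (¬ (A ∧ B) ∨ (C ∧ D)) ↔ (A → B → C ∧ D) := by tauto

theorem or_aux (A B : Prop) : (¬ A ∨ B) ↔ (A → B) := by tauto

theorem cut_eq_zero {s : ℕ} {x : ℕ → Bool} :
    ((List.range s).all fun p => !(ChkPar.cut s x p)) = true ↔ ChkPar.cut s x = zeroMem := by
  simp only [List.all_eq_true, List.mem_range, Bool.not_eq_true']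
  constructor
  · intro h
    funext p
    by_cases hp : p < s
    · exact h p hp
    · simp [ChkPar.cut, hp, zeroMem]
  · intro h p _
    rw [h]
    rfl

end ViewSemAux

open ViewSemAux

/-- the predicate of the CHECK machine on the local view -/
theorem view_pred {G : List Ins} {s W q σ lim : ℕ} (hG : Sz s G) (hs : 3 ≤ s) (z y : Inp)
    (κ : List Bool × List Bool × List Bool) :
    (vpar G s W q σ lim).Pred (viewInp q (σ + 3) z y κ) ↔ ChkV G s W q σ lim z y κ := by
  have hstep : (vpar G s W q σ lim).step (viewInp q (σ + 3) z y κ) = eval G z := by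
    funext M p
    by_cases hp : p < s
    · have h1 : (vpar G s W q σ lim).step (viewInp q (σ + 3) z y κ) M p =
          (if p < s then eval G z M p else M p) := rfl
      rw [h1, if_pos hp]
    · have h1 : (vpar G s W q σ lim).step (viewInp q (σ + 3) z y κ) M p =
          (if p < s then eval G z M p else M p) := rfl
      rw [h1, if_neg hp, eval_ge hG.2 (Nat.not_lt.1 hp)]
  have hK : kNum q pK (viewInp q (σ + 3) z y κ) = rnum q κ.1 := num_lst q κ.1
  have hI : kNum q pI (viewInp q (σ + 3) z y κ) = rnum q κ.2.1 := num_lst q κ.2.1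
  have hJ : kNum q pJ (viewInp q (σ + 3) z y κ) = rnum q κ.2.2 := num_lst q κ.2.2
  have eK : pRec s W q σ rK (viewInp q (σ + 3) z y κ) = recAt s W q σ y κ.1 := rfl
  have eI : pRec s W q σ rI (viewInp q (σ + 3) z y κ) = recAt s W q σ y κ.2.1 := rfl
  have eJ : pRec s W q σ rJ (viewInp q (σ + 3) z y κ) = recAt s W q σ y κ.2.2 := rfl
  have hT1 : (vpar G s W q σ lim).T1 (viewInp q (σ + 3) z y κ) = (recAt s W q σ y κ.1).t1 := rfl
  have hT2 : (vpar G s W q σ lim).T2 (viewInp q (σ + 3) z y κ) = (recAt s W q σ y κ.1).t2 := rfl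
  have hJJ : (vpar G s W q σ lim).J (viewInp q (σ + 3) z y κ) =
      recJ (rnum q κ.1) (recAt s W q σ y κ.1) (recAt s W q σ y κ.2.1) (recAt s W q σ y κ.2.2) := by
    funext t
    unfold ChkPar.J recJ
    rw [hT1, hT2]
    have h1 : (vpar G s W q σ lim).h1 (viewInp q (σ + 3) z y κ) =
        decide ((recAt s W q σ y κ.1).i1 < rnum q κ.1) := by
      rw [← hK, ← eK]; rfl
    have h2 : (vpar G s W q σ lim).h2 (viewInp q (σ + 3) z y κ) =
        decide ((recAt s W q σ y κ.1).i2 < rnum q κ.1) := by
      rw [← hK, ← eK]; rfl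
    rw [h1, h2]
    simp only [decide_eq_true_eq]
    have c1 : ChkPar.cut (vpar G s W q σ lim).s
        ((vpar G s W q σ lim).m1 (viewInp q (σ + 3) z y κ)) = (recAt s W q σ y κ.2.1).m :=
      cut_cut s _
    have c2 : ChkPar.cut (vpar G s W q σ lim).s
        ((vpar G s W q σ lim).m2 (viewInp q (σ + 3) z y κ)) = (recAt s W q σ y κ.2.2).m :=
      cut_cut s _
    have c3 : ChkPar.fix (ChkPar.cut (vpar G s W q σ lim).s
        ((vpar G s W q σ lim).v1 (viewInp q (σ + 3) z y κ))) = (recAt s W q σ y κ.2.1).v :=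
      fix_cut_fix_cut s _
    have c4 : ChkPar.fix (ChkPar.cut (vpar G s W q σ lim).s
        ((vpar G s W q σ lim).v2 (viewInp q (σ + 3) z y κ))) = (recAt s W q σ y κ.2.2).v :=
      fix_cut_fix_cut s _
    rw [c1, c2, c3, c4]
  have hm : ChkPar.cut (vpar G s W q σ lim).s
      ((vpar G s W q σ lim).m (viewInp q (σ + 3) z y κ)) = (recAt s W q σ y κ.1).m :=
    cut_cut s _
  have hv : ChkPar.cut (vpar G s W q σ lim).s
      ((vpar G s W q σ lim).v (viewInp q (σ + 3) z y κ)) = (recAt s W q σ y κ.1).v :=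
    cut_fix_cut (show 2 ≤ s by omega) _
  have hskip : (vpar G s W q σ lim).skip (viewInp q (σ + 3) z y κ) = true ↔
      ¬ ((recAt s W q σ y κ.1).i1 = rnum q κ.2.1 ∧ (recAt s W q σ y κ.1).i2 = rnum q κ.2.2) := by
    have h1 : (vpar G s W q σ lim).skip (viewInp q (σ + 3) z y κ) =
        !(decide ((recAt s W q σ y κ.1).i1 = rnum q κ.2.1) &&
          decide ((recAt s W q σ y κ.1).i2 = rnum q κ.2.2)) := by
      rw [← hI, ← hJ, ← eK]; rfl
    rw [h1, Bool.not_eq_true', Bool.and_eq_false_iff, decide_eq_false_iff_not,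
      decide_eq_false_iff_not, not_and_or]
  have hok : (vpar G s W q σ lim).ok (viewInp q (σ + 3) z y κ) = true ↔
      (rnum q κ.1 = 2 ^ q - 1 →
        (recAt s W q σ y κ.1).m = zeroMem ∧ (recAt s W q σ y κ.1).v 2 = true) := by
    have h1 : (vpar G s W q σ lim).ok (viewInp q (σ + 3) z y κ) =
        (!decide (rnum q κ.1 = 2 ^ q - 1) ||
          (((List.range s).all fun p => !((recAt s W q σ y κ.1).m p)) &&
            (recAt s W q σ y κ.1).v 2)) := by
      rw [← hK, ← eK]; rfl
    have h2 : ((List.range s).all fun p => !((recAt s W q σ y κ.1).m p)) = true ↔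
        (recAt s W q σ y κ.1).m = zeroMem := cut_eq_zero
    rw [h1, Bool.or_eq_true, Bool.and_eq_true, h2, Bool.not_eq_true', decide_eq_false_iff_not]
    exact or_aux _ _
  unfold ChkPar.Pred ChkV RecOK
  rw [hstep, hJJ, hm, hv, hskip, hok]
  have hlim : (vpar G s W q σ lim).lim = lim := rfl
  rw [hlim]
  exact imp_aux _ _ _ _

end Pool.Agent.NUM
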