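import Pool.Agent.NUM.ViewDef
import Pool.Agent.NUM.ChkCp
import Pool.Agent.NUM.ChkSem
import Pool.Agent.NUM.Local
import Pool.Agent.NUM.Virt
import Pool.Agent.NUM.ViewSem

/-! The CHECK data of the view are computable; the final program. -/

namespace Pool.Agent.NUM

theorem size_le_self (q : ℕ) : Nat.size q ≤ q := Nat.size_le.2 Nat.lt_two_pow_self

theorem length_bits' (n x : ℕ) : (bits n x).length = n := by simp [bits]

/-- a query at a fixed address of length at most `D - 3` costs at most `12 D` -/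
theorem cp_ask_le {D : ℕ} (a : List Bool) (ha : a.length + 3 ≤ D) :
    Cp 0 (12 * D) (fun z _ => z a) := (Cp.askConst 0 a).mono le_rfl (by omega)

theorem cp_m {s W q σ D : ℕ} (hD : s + W + q + σ + 10 = D) {p : List Bool} (hp : p.length ≤ 4)
    {i : ℕ} (hi : i < s) : Cp 0 (12 * D) (fun z _ => (pRec s W q σ p z).m i) := by
  refine (cp_ask_le (D := D) (p ++ (false :: false :: false :: bits σ i)) ?_).congr fun z M => ?_
  · simp only [List.length_append, List.length_cons, length_bits']; omega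
  · simp only [pRec, recOf, ChkPar.cut, if_pos hi]

theorem cp_v {s W q σ D : ℕ} (hD : s + W + q + σ + 10 = D) {p : List Bool} (hp : p.length ≤ 4)
    {i : ℕ} (hi : i < s) : Cp 0 (12 * D) (fun z _ => (pRec s W q σ p z).v i) := by
  by_cases h2 : i < 2
  · refine ((Cp.true' 0).congr fun z M => ?_).mono le_rfl (by omega)
    simp only [pRec, recOf, ChkPar.fix, if_pos h2]
  · refine (cp_ask_le (D := D) (p ++ (false :: false :: true :: bits σ i)) ?_).congr fun z M => ?_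
    · simp only [List.length_append, List.length_cons, length_bits']; omega
    · simp only [pRec, recOf, ChkPar.fix, ChkPar.cut, if_pos hi, if_neg h2]

theorem cp_k {s W q σ D : ℕ} (hD : s + W + q + σ + 10 = D) {p : List Bool} (hp : p.length ≤ 4)
    (r : ℕ) : Cp 0 (12 * D) (fun z _ => z (p ++ bits (Nat.size q) r)) := by
  refine cp_ask_le (D := D) _ ?_
  have := size_le_self q
  simp only [List.length_append, length_bits']; omega

theorem cp_fld {s W q σ D : ℕ} (hD : s + W + q + σ + 10 = D) {p : List Bool} (hp : p.length ≤ 4)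
    (a b c : Bool) (r : ℕ) : Cp 0 (12 * D) (fun z _ => z (p ++ (a :: b :: c :: bits σ r))) := by
  refine cp_ask_le (D := D) _ ?_
  simp only [List.length_append, List.length_cons, length_bits']; omega

theorem pow3_bound {D q : ℕ} (hD : 10 ≤ D) (hq : q ≤ D) :
    q * (q * (2 * (12 * D) + 2 * (12 * D) + 100) + 2 * (12 * D) + 2 * (12 * D) + 200) + 50
      ≤ 100 * D ^ 3 := by
  have h1 : q * (q * (2 * (12 * D) + 2 * (12 * D) + 100) + 2 * (12 * D) + 2 * (12 * D) + 200) + 50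
      ≤ D * (D * (2 * (12 * D) + 2 * (12 * D) + 100) + 2 * (12 * D) + 2 * (12 * D) + 200) + 50 := by
    gcongr
  have h2 : 10 * D ^ 2 ≤ D * D ^ 2 := Nat.mul_le_mul_right _ hD
  have h3 : 10 * D ≤ D * D := Nat.mul_le_mul_right _ hD
  nlinarith

theorem pow2_bound {D q : ℕ} (hD : 10 ≤ D) (hq : q ≤ D) :
    q * (2 * (12 * D) + 2 * (12 * D) + 100) + 50 ≤ 60 * D ^ 2 := by
  have h1 : q * (2 * (12 * D) + 2 * (12 * D) + 100) + 50
      ≤ D * (2 * (12 * D) + 2 * (12 * D) + 100) + 50 := by gcongr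
  have h3 : 10 * D ≤ D * D := Nat.mul_le_mul_right _ hD
  nlinarith

theorem g_bound {D s : ℕ} (hD : 10 ≤ D) (hs : s ≤ D) :
    s * (20 * (s + 1) + (s + 1 + 1) + 20 + 1) + s + (20 * (s + 1) + (s + 1 + 1) + 20)
      ≤ 1000 * D ^ 3 := by
  have h1 : s * (20 * (s + 1) + (s + 1 + 1) + 20 + 1) + s + (20 * (s + 1) + (s + 1 + 1) + 20)
      ≤ D * (20 * (D + 1) + (D + 1 + 1) + 20 + 1) + D + (20 * (D + 1) + (D + 1 + 1) + 20) := by
    gcongr
  have h3 : 10 * D ≤ D * D := Nat.mul_le_mul_right _ hD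
  have h4 : D * (20 * (D + 1) + (D + 1 + 1) + 20 + 1) + D + (20 * (D + 1) + (D + 1 + 1) + 20) =
      21 * (D * D) + 65 * D + 42 := by ring
  have h5 : 10 * (D * D) ≤ D * (D * D) := Nat.mul_le_mul_right _ hD
  have h6 : D * (D * D) = D ^ 3 := by ring
  omega

theorem ok_bound {D s : ℕ} (hD : 10 ≤ D) (hs : s ≤ D) :
    s * (12 * D + 5 + 30) + 30 ≤ 60 * D ^ 2 := by
  have h1 : s * (12 * D + 5 + 30) + 30 ≤ D * (12 * D + 5 + 30) + 30 := by gcongr
  have h3 : 10 * D ≤ D * D := Nat.mul_le_mul_right _ hD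
  have h4 : D * (12 * D + 5 + 30) + 30 = 12 * (D * D) + 35 * D + 30 := by ring
  have h6 : D * D = D ^ 2 := by ring
  omega

theorem add_bound {D x y : ℕ} (hD : 10 ≤ D) (hx : x ≤ 60 * D ^ 2) (hy : y ≤ 60 * D ^ 2) :
    x + y + 7 + 5 ≤ 1000 * D ^ 3 := by
  have h1 : 10 * D ^ 2 ≤ D * D ^ 2 := Nat.mul_le_mul_right _ hD
  have h2 : D * D ^ 2 = D ^ 3 := by ring
  have h3 : 1 ≤ D ^ 2 := Nat.one_le_pow _ _ (by omega)
  omega

theorem add_bound' {D x y : ℕ} (hD : 10 ≤ D) (hx : x ≤ 60 * D ^ 2) (hy : y ≤ 60 * D ^ 2) :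
    x + 5 + (y + 12 * D + 7) + 12 ≤ 1000 * D ^ 3 := by
  have h1 : 10 * D ^ 2 ≤ D * D ^ 2 := Nat.mul_le_mul_right _ hD
  have h2 : D * D ^ 2 = D ^ 3 := by ring
  have h3 : 1 ≤ D ^ 2 := Nat.one_le_pow _ _ (by omega)
  have h4 : 10 * D ≤ D * D := Nat.mul_le_mul_right _ hD
  have h5 : D * D = D ^ 2 := by ring
  omega

theorem D_bound {D : ℕ} (hD : 10 ≤ D) : 100 ≤ 1000 * D ^ 3 ∧ D ≤ 1000 * D ^ 3 ∧
    12 * D ≤ 1000 * D ^ 3 ∧ 100 * D ^ 3 ≤ 1000 * D ^ 3 := by
  have h1 : 10 * D ^ 2 ≤ D * D ^ 2 := Nat.mul_le_mul_right _ hD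
  have h2 : D * D ^ 2 = D ^ 3 := by ring
  have h3 : 1 ≤ D ^ 2 := Nat.one_le_pow _ _ (by omega)
  have h4 : 10 * D ≤ D * D := Nat.mul_le_mul_right _ hD
  have h5 : D * D = D ^ 2 := by ring
  omega

theorem num_bound {D q : ℕ} (hD : 10 ≤ D) (hq : q ≤ D) :
    q * (2 * (12 * D) + 100) + 50 ≤ 60 * D ^ 2 := by
  refine le_trans ?_ (pow2_bound hD hq)
  have h1 : q * (2 * (12 * D) + 100) ≤ q * (2 * (12 * D) + 2 * (12 * D) + 100) :=
    Nat.mul_le_mul_left _ (by omega)
  omega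

theorem cp_lt {s W q σ D : ℕ} (hD : s + W + q + σ + 10 = D) {p r : List Bool} (hp : p.length ≤ 4)
    (hr : r.length ≤ 4) (a b c : Bool) :
    Cp 0 (1000 * D ^ 3) (fun z _ => decide ((num q fun i => z (p ++ (a :: b :: c :: bits σ i))) <
      kNum q r z)) := by
  have h1 := Cp.numLt (b := 0) (n := q)
    (g := fun i z _ => z (p ++ (a :: b :: c :: bits σ i)))
    (g' := fun i z _ => z (r ++ bits (Nat.size q) i))
    (fun i _ => cp_fld hD hp _ _ _ i) (fun i _ => cp_k hD hr i)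
  exact Cp.mono h1 le_rfl ((pow3_bound (by omega) (by omega)).trans (D_bound (by omega)).2.2.2)

theorem cp_eq {s W q σ D : ℕ} (hD : s + W + q + σ + 10 = D) {p r : List Bool} (hp : p.length ≤ 4)
    (hr : r.length ≤ 4) (a b c : Bool) :
    Cp 0 (60 * D ^ 2) (fun z _ => decide ((num q fun i => z (p ++ (a :: b :: c :: bits σ i))) =
      kNum q r z)) := by
  have h1 := Cp.numEq₂ (b := 0) (n := q)
    (g := fun i z _ => z (p ++ (a :: b :: c :: bits σ i)))
    (g' := fun i z _ => z (r ++ bits (Nat.size q) i))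
    (fun i _ => cp_fld hD hp _ _ _ i) (fun i _ => cp_k hD hr i)
  exact Cp.mono h1 le_rfl (pow2_bound (by omega) (by omega))

theorem cp_skip {s W q σ D : ℕ} (hD : s + W + q + σ + 10 = D) :
    Cp 0 (1000 * D ^ 3) (fun z _ => !(decide ((pRec s W q σ rK z).i1 = kNum q pI z) &&
      decide ((pRec s W q σ rK z).i2 = kNum q pJ z))) := by
  have h1 := cp_eq hD (p := rK) (r := pI) (by simp [rK]) (by simp [pI]) false true true
  have h2 := cp_eq hD (p := rK) (r := pJ) (by simp [rK]) (by simp [pJ]) true false true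
  exact Cp.mono (h1.and h2).not le_rfl (add_bound (by omega) le_rfl le_rfl)

theorem cp_ok {s W q σ D : ℕ} (hD : s + W + q + σ + 10 = D) (hs : 3 ≤ s) :
    Cp 0 (1000 * D ^ 3) (fun z _ => !decide (kNum q pK z = 2 ^ q - 1) ||
    (((List.range s).all fun p => !((pRec s W q σ rK z).m p)) && (pRec s W q σ rK z).v 2)) := by
  have h1 : Cp 0 (60 * D ^ 2) (fun z _ => decide (kNum q pK z = 2 ^ q - 1)) := by
    have h := Cp.numEq (b := 0) (n := q) (g := fun i z _ => z (pK ++ bits (Nat.size q) i))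
      (fun i _ => cp_k hD (by simp [pK]) i) (2 ^ q - 1)
    exact Cp.mono h le_rfl (num_bound (by omega) (by omega))
  have h2 : Cp 0 (60 * D ^ 2)
      (fun z _ => (List.range s).all fun p => !((pRec s W q σ rK z).m p)) := by
    have h := Cp.all (b := 0) (n := s) (f := fun p z _ => !((pRec s W q σ rK z).m p))
      (fun p hp => (cp_m hD (by simp [rK]) hp).not)
    exact Cp.mono h le_rfl (ok_bound (by omega) (by omega))
  have h3 : Cp 0 (12 * D) (fun z _ => (pRec s W q σ rK z).v 2) :=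
    cp_v hD (by simp [rK]) (by omega)
  exact Cp.mono (h1.not.or (h2.and h3)) le_rfl (add_bound' (by omega) le_rfl le_rfl)

theorem vpar_comp {G : List Ins} {s W q σ lim : ℕ} (hG : Sz s G) (hs : 3 ≤ s) :
    (vpar G s W q σ lim).Comp (1000 * (s + W + q + σ + 10) ^ 3) := by
  obtain ⟨D, hD⟩ : ∃ D, s + W + q + σ + 10 = D := ⟨_, rfl⟩
  rw [hD]
  have hD10 : 10 ≤ D := by omega
  obtain ⟨e1, e2, e3, -⟩ := D_bound hD10
  exact
    { hN := e1
      hs := (show s ≤ D by omega).trans e2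
      hs3 := hs
      hw := (show W ≤ D by omega).trans e2
      g := (Tr.virt (Tr.pass hG) (Loc.shift (l := s) [false] (Loc.id (s + 1))) le_rfl).mono
        (g_bound hD10 (by omega))
      m := fun p hp => (cp_m hD (by simp [rK]) hp).mono le_rfl e3
      v := fun p hp => (cp_v hD (by simp [rK]) hp).mono le_rfl e3
      m1 := fun p hp => (cp_m hD (by simp [rI]) hp).mono le_rfl e3
      v1 := fun p hp => (cp_v hD (by simp [rI]) hp).mono le_rfl e3
      m2 := fun p hp => (cp_m hD (by simp [rJ]) hp).mono le_rfl e3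
      v2 := fun p hp => (cp_v hD (by simp [rJ]) hp).mono le_rfl e3
      t1 := fun i _ => (cp_fld hD (by simp [rK]) _ _ _ i).mono le_rfl e3
      t2 := fun i _ => (cp_fld hD (by simp [rK]) _ _ _ i).mono le_rfl e3
      h1 := cp_lt hD (by simp [rK]) (by simp [pK]) false true true
      h2 := cp_lt hD (by simp [rK]) (by simp [pK]) true false true
      skip := cp_skip hD
      ok := cp_ok hD hs }

/-- the program that checks one record from its local view -/
theorem par_check {P : ChkPar} {N : ℕ} (hP : P.Comp N) (hlim : P.lim < 2 ^ P.w) :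
    ∃ G' : List Ins, Sz (P.s + 2 + P.w + 400 * N ^ 4) G' ∧
      ∀ z, ∃ b, run (eval G' z) (2 * P.lim + 1) zeroMem [] = some b ∧ (b = true ↔ P.Pred z) := by
  obtain ⟨G', hG', h1⟩ := hP.tr_F.exists_code
  refine ⟨G', hG', fun z => ?_⟩
  obtain ⟨k, V, hE, hk, hV⟩ := P.chk_sem hP.hs3 hlim z
  refine ⟨V 2, ?_, hV⟩
  have hs := hP.hs3
  have h2 : run (P.F z) (2 * P.lim + 1) zeroMem [] = some (V 2) := hE.run_nil hk
  exact run_congr (s := P.s + 2 + P.w) (by omega)
    (fun M M' hM => (h1 z M' M hM.symm).symm) (Agr.refl _ _) h2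

theorem sz_bound {D x : ℕ} (hx : x + 8 ≤ D) :
    x + 400 * (1000 * D ^ 3) ^ 4 ≤ 1000 * (1000 * D ^ 3) ^ 4 := by
  have h1 : x ≤ (1000 * D ^ 3) ^ 4 := by
    have h2 : D ^ 1 ≤ D ^ 3 := Nat.pow_le_pow_right (by omega) (by omega)
    have h3 : D ≤ 1000 * D ^ 3 := by
      rw [pow_one] at h2
      exact h2.trans (Nat.le_mul_of_pos_left _ (by norm_num))
    have h4 : (1000 * D ^ 3) ^ 1 ≤ (1000 * D ^ 3) ^ 4 :=
      Nat.pow_le_pow_right (by omega) (by omega)
    rw [pow_one] at h4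
    exact (show x ≤ D by omega).trans (h3.trans h4)
  generalize (1000 * D ^ 3) ^ 4 = y at *
  omega

/-- the local check of record `k` from the view -/
theorem view_check {G : List Ins} {s W q σ lim : ℕ} (hG : Sz s G) (hs : 3 ≤ s) (_hq : q ≤ 2 ^ σ)
    (_hsσ : s ≤ 2 ^ σ) (_hWσ : W ≤ 2 ^ σ) (hlim : lim < 2 ^ W) :
    ∃ G' : List Ins, Sz (1000 * (1000 * (s + W + q + σ + 10) ^ 3) ^ 4) G' ∧ ∀ z y κ,
      ∃ b, run (eval G' (viewInp q (σ + 3) z y κ)) (2 * lim + 1) zeroMem [] = some b ∧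
        (b = true ↔ ChkV G s W q σ lim z y κ) := by
  obtain ⟨G', h1, h2⟩ := par_check (vpar_comp (W := W) (q := q) (σ := σ) (lim := lim) hG hs) hlim
  refine ⟨G', h1.mono (sz_bound (x := s + 2 + W) (by omega)), fun z y κ => ?_⟩
  obtain ⟨b, hb, hbP⟩ := h2 (viewInp q (σ + 3) z y κ)
  exact ⟨b, hb, hbP.trans (view_pred hG hs z y κ)⟩

end Pool.Agent.NUM
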