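import Pool.Agent.NUM.ViewDef
import Pool.Agent.NUM.CpList

/-! Soundness and completeness of the records in the local view. -/

set_option autoImplicit false

namespace Pool.Agent.NUM

theorem vw_getD_fit {q i : ℕ} (k : List Bool) (hi : i < q) : (fit q k).getD i false = k.getD i false := by
  unfold fit
  rw [List.getD_eq_getElem?_getD, List.getElem?_map, List.getElem?_range hi]
  rfl

theorem vw_length_fit (q : ℕ) (k : List Bool) : (fit q k).length = q := by simp [fit]

theorem vw_rnum_fit (q : ℕ) (k : List Bool) : rnum q (fit q k) = rnum q k :=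
  num_congr fun _ hi => vw_getD_fit k hi

theorem vw_getD_bits {q i : ℕ} (x : ℕ) (hi : i < q) : (bits q x).getD i false = x.testBit i := by
  unfold bits
  rw [List.getD_eq_getElem?_getD, List.getElem?_map, List.getElem?_range hi]
  rfl

theorem vw_rnum_bits {q x : ℕ} (hx : x < 2 ^ q) : rnum q (bits q x) = x := by
  unfold rnum
  rw [num_congr (h := fun i => x.testBit i) fun _ hi => vw_getD_bits x hi, num_testBit,
    Nat.mod_eq_of_lt hx]

theorem vw_rnum_lt (q : ℕ) (k : List Bool) : rnum q k < 2 ^ q := num_lt _ _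

theorem vw_fit_bits (q x : ℕ) : fit q (bits q x) = bits q x := by
  unfold fit
  conv_rhs => unfold bits
  apply List.map_congr_left
  intro i hi
  exact vw_getD_bits x (List.mem_range.1 hi)

theorem view_sound {G : List Ins} {s W q σ lim : ℕ} (hG : Sz s G) (hs : 3 ≤ s) (hq : q ≤ 2 ^ σ)
    (hsσ : s ≤ 2 ^ σ) (hWσ : W ≤ 2 ^ σ) {z y : Inp} (h : ∀ κ, ChkV G s W q σ lim z y κ) :
    ∃ T V, Ev (eval G z) T zeroMem V ∧ V 2 = true := by
  obtain ⟨R, hR⟩ : ∃ R : ℕ → Rec Mem Mem, R = fun k => recAt s W q σ y (bits q k) := ⟨_, rfl⟩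
  have h1 : ∀ k < 2 ^ q, (k = 2 ^ q - 1 → (R k).m = zeroMem ∧ (R k).v 2 = true) ∧
      RecOK (sys (eval G z)) lim k (R k) (R (R k).i1) (R (R k).i2) := by
    intro k hk
    have h2 := h (bits q k, bits q (R k).i1, bits q (R k).i2)
    have e1 : (R k).i1 < 2 ^ q := by rw [hR]; exact num_lt _ _
    have e2 : (R k).i2 < 2 ^ q := by rw [hR]; exact num_lt _ _
    unfold ChkV at h2
    simp only [vw_rnum_bits hk, vw_rnum_bits e1, vw_rnum_bits e2] at h2
    have e3 : ∀ k, recAt s W q σ y (bits q k) = R k := fun k => by rw [hR]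
    simp only [e3] at h2
    exact h2 trivial trivial
  have hN : 2 ^ q - 1 < 2 ^ q := Nat.sub_lt (Nat.two_pow_pos q) one_pos
  obtain ⟨T, hT⟩ := rec_sound (fun k hk => (h1 k hk).2) hN
  obtain ⟨h3, h4⟩ := (h1 _ hN).1 rfl
  rw [h3] at hT
  exact ⟨T, _, Ev.ofSys hT, h4⟩

/-- the string of the records `R` -/
def mkRecs (q σ : ℕ) (R : ℕ → Rec Mem Mem) : Inp := fun a =>
  match a.drop q with
  | false :: false :: false :: b => (R (rnum q (a.take q))).m (rnum σ b)
  | false :: false :: true :: b => (R (rnum q (a.take q))).v (rnum σ b)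
  | false :: true :: false :: b => (R (rnum q (a.take q))).t1.testBit (rnum σ b)
  | false :: true :: true :: b => (R (rnum q (a.take q))).i1.testBit (rnum σ b)
  | true :: false :: false :: b => (R (rnum q (a.take q))).t2.testBit (rnum σ b)
  | true :: false :: true :: b => (R (rnum q (a.take q))).i2.testBit (rnum σ b)
  | _ => false

theorem recAt_mkRecs {s W q σ : ℕ} (hq : q ≤ 2 ^ σ) (hsσ : s ≤ 2 ^ σ) (hWσ : W ≤ 2 ^ σ)
    {R : ℕ → Rec Mem Mem} (k : List Bool)
    (hm : ∀ p, s ≤ p → (R (rnum q k)).m p = false) (hv : ∀ p, s ≤ p → (R (rnum q k)).v p = false)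
    (hv0 : (R (rnum q k)).v 0 = true) (hv1 : (R (rnum q k)).v 1 = true)
    (ht1 : (R (rnum q k)).t1 < 2 ^ W) (ht2 : (R (rnum q k)).t2 < 2 ^ W)
    (hi1 : (R (rnum q k)).i1 < 2 ^ q) (hi2 : (R (rnum q k)).i2 < 2 ^ q) :
    recAt s W q σ (mkRecs q σ R) k = R (rnum q k) := by
  have hlen : ∀ (a b c : Bool) (p : ℕ), (a :: b :: c :: bits σ p).length ≤ σ + 3 := by
    intro a b c p
    simp [length_bits]
  have hdrop : ∀ l : List Bool, (fit q k ++ l).drop q = l := by
    intro l
    have := List.drop_left (l₁ := fit q k) (l₂ := l)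
    rwa [vw_length_fit] at this
  have htake : ∀ l : List Bool, (fit q k ++ l).take q = fit q k := by
    intro l
    have := List.take_left (l₁ := fit q k) (l₂ := l)
    rwa [vw_length_fit] at this
  have k1 : ∀ p, p < 2 ^ σ → blk (σ + 3) (mkRecs q σ R) (fit q k)
      (false :: false :: false :: bits σ p) = (R (rnum q k)).m p := by
    intro p hp
    unfold blk
    rw [if_pos (hlen _ _ _ _)]
    unfold mkRecs
    rw [hdrop, htake, vw_rnum_fit]
    simp only [vw_rnum_bits hp]
  have k2 : ∀ p, p < 2 ^ σ → blk (σ + 3) (mkRecs q σ R) (fit q k)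
      (false :: false :: true :: bits σ p) = (R (rnum q k)).v p := by
    intro p hp
    unfold blk
    rw [if_pos (hlen _ _ _ _)]
    unfold mkRecs
    rw [hdrop, htake, vw_rnum_fit]
    simp only [vw_rnum_bits hp]
  have k3 : ∀ p, p < 2 ^ σ → blk (σ + 3) (mkRecs q σ R) (fit q k)
      (false :: true :: false :: bits σ p) = (R (rnum q k)).t1.testBit p := by
    intro p hp
    unfold blk
    rw [if_pos (hlen _ _ _ _)]
    unfold mkRecs
    rw [hdrop, htake, vw_rnum_fit]
    simp only [vw_rnum_bits hp]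
  have k4 : ∀ p, p < 2 ^ σ → blk (σ + 3) (mkRecs q σ R) (fit q k)
      (false :: true :: true :: bits σ p) = (R (rnum q k)).i1.testBit p := by
    intro p hp
    unfold blk
    rw [if_pos (hlen _ _ _ _)]
    unfold mkRecs
    rw [hdrop, htake, vw_rnum_fit]
    simp only [vw_rnum_bits hp]
  have k5 : ∀ p, p < 2 ^ σ → blk (σ + 3) (mkRecs q σ R) (fit q k)
      (true :: false :: false :: bits σ p) = (R (rnum q k)).t2.testBit p := by
    intro p hp
    unfold blk
    rw [if_pos (hlen _ _ _ _)]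
    unfold mkRecs
    rw [hdrop, htake, vw_rnum_fit]
    simp only [vw_rnum_bits hp]
  have k6 : ∀ p, p < 2 ^ σ → blk (σ + 3) (mkRecs q σ R) (fit q k)
      (true :: false :: true :: bits σ p) = (R (rnum q k)).i2.testBit p := by
    intro p hp
    unfold blk
    rw [if_pos (hlen _ _ _ _)]
    unfold mkRecs
    rw [hdrop, htake, vw_rnum_fit]
    simp only [vw_rnum_bits hp]
  have e1 : (recAt s W q σ (mkRecs q σ R) k).m = (R (rnum q k)).m := by
    funext p
    have e0 : (recAt s W q σ (mkRecs q σ R) k).m = ChkPar.cut s (fun p =>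
      blk (σ + 3) (mkRecs q σ R) (fit q k) (false :: false :: false :: bits σ p)) := rfl
    rw [e0]
    unfold ChkPar.cut
    split_ifs with hp
    · exact k1 p (by omega)
    · exact (hm p (by omega)).symm
  have e2 : (recAt s W q σ (mkRecs q σ R) k).v = (R (rnum q k)).v := by
    funext p
    have e0 : (recAt s W q σ (mkRecs q σ R) k).v = ChkPar.fix (ChkPar.cut s (fun p =>
      blk (σ + 3) (mkRecs q σ R) (fit q k) (false :: false :: true :: bits σ p))) := rfl
    rw [e0]
    unfold ChkPar.fix ChkPar.cut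
    split_ifs with hp2 hp
    · rcases (by omega : p = 0 ∨ p = 1) with rfl | rfl
      · exact hv0.symm
      · exact hv1.symm
    · exact k2 p (by omega)
    · exact (hv p (by omega)).symm
  have e3 : (recAt s W q σ (mkRecs q σ R) k).t1 = (R (rnum q k)).t1 := by
    show num W _ = _
    rw [num_congr (h := fun i => (R (rnum q k)).t1.testBit i) fun i hi => k3 i (by omega),
      num_testBit, Nat.mod_eq_of_lt ht1]
  have e4 : (recAt s W q σ (mkRecs q σ R) k).i1 = (R (rnum q k)).i1 := by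
    show num q _ = _
    rw [num_congr (h := fun i => (R (rnum q k)).i1.testBit i) fun i hi => k4 i (by omega),
      num_testBit, Nat.mod_eq_of_lt hi1]
  have e5 : (recAt s W q σ (mkRecs q σ R) k).t2 = (R (rnum q k)).t2 := by
    show num W _ = _
    rw [num_congr (h := fun i => (R (rnum q k)).t2.testBit i) fun i hi => k5 i (by omega),
      num_testBit, Nat.mod_eq_of_lt ht2]
  have e6 : (recAt s W q σ (mkRecs q σ R) k).i2 = (R (rnum q k)).i2 := by
    show num q _ = _
    rw [num_congr (h := fun i => (R (rnum q k)).i2.testBit i) fun i hi => k6 i (by omega),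
      num_testBit, Nat.mod_eq_of_lt hi2]
  generalize recAt s W q σ (mkRecs q σ R) k = r at e1 e2 e3 e4 e5 e6
  generalize R (rnum q k) = r' at e1 e2 e3 e4 e5 e6
  cases r
  cases r'
  simp only at e1 e2 e3 e4 e5 e6
  subst e1 e2 e3 e4 e5 e6
  rfl

theorem view_complete {G : List Ins} {s W q σ lim : ℕ} (hG : Sz s G) (hs : 3 ≤ s) (hq : q ≤ 2 ^ σ)
    (hsσ : s ≤ 2 ^ σ) (hWσ : W ≤ 2 ^ σ) {z : Inp} {T L : ℕ} {V : Mem}
    (hE : Ev (eval G z) T zeroMem V) (hV : V 2 = true) (hL : 1 ≤ L)
    (hN : 2 * T + L ≤ 2 ^ q * L) (hW : 2 * L + 1 < 2 ^ W) (hlim : lim = 2 * L + 1) :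
    ∃ y : Inp, ∀ κ, ChkV G s W q σ lim z y κ := by
  have hge : ∀ (M : Mem), (∀ p, s ≤ p → M p = false) → ∀ p, s ≤ p → eval G z M p = false := by
    intro M hM p hp
    rw [eval_ge hG.2 hp]
    exact hM p hp
  obtain ⟨R, h1, h2, h3⟩ := rec_complete_inv (Y := sys (eval G z))
    (PM := fun m => ∀ p, s ≤ p → m p = false)
    (PV := fun v => (∀ p, s ≤ p → v p = false) ∧ v 0 = true ∧ v 1 = true) (PW := fun _ => True)
    (fun m v hm hv => by
      obtain ⟨a0, a1, rfl⟩ := sys_out_eq_ret hv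
      exact ⟨hge m hm, a0, a1⟩)
    (fun m m' hm hv => by
      obtain ⟨a0, rfl⟩ := sys_out_eq_go hv
      exact hge m hm)
    (fun m m' w hm hv => by
      obtain ⟨a0, a1, rfl, _⟩ := sys_out_eq_call hv
      exact ⟨hge m hm, trivial⟩)
    (fun v w hv _ => by
      intro p hp
      rw [sys_res, Function.update_of_ne (by omega)]
      exact hv.1 p hp)
    hE.toSys (fun _ _ => rfl) hL hN
  have hrec : ∀ k, recAt s W q σ (mkRecs q σ R) k = R (rnum q k) := by
    intro k
    obtain ⟨_, g1, g2, g3, g4, g5, g6⟩ := h3 (rnum q k) (vw_rnum_lt q k)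
    have g0 := vw_rnum_lt q k
    exact recAt_mkRecs hq hsσ hWσ k g5 g6.1 g6.2.1 g6.2.2 (by omega) (by omega) (by omega)
      (by omega)
  refine ⟨mkRecs q σ R, fun κ => ?_⟩
  unfold ChkV
  rw [hrec, hrec, hrec]
  intro e1 e2
  obtain ⟨g0, _⟩ := h3 (rnum q κ.1) (vw_rnum_lt q _)
  refine ⟨fun hk => ?_, ?_⟩
  · rw [hk, h1, h2]
    exact ⟨rfl, hV⟩
  · rw [hlim, ← e1, ← e2]
    exact g0

end Pool.Agent.NUM
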