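import Pool.Agent.NUM.Closure
import Pool.Agent.NUM.ViewCp
import Pool.Agent.NUM.ViewSC

/-!
# The field `speedup` of the interface `Trade`
-/

set_option autoImplicit false

namespace Pool.Agent.NUM

open Filter

/-- the number of binary digits of a function of exponential growth -/
theorem ExpLe.size {e : ℝ} {f : ℕ → ℕ} (he : 0 ≤ e) (h : ExpLe e f) :
    Lin e (fun L => Nat.size (f L)) := by
  intro ε hε
  obtain ⟨L₁, h1⟩ := eventually_atTop.1 (h (ε / 2) (by positivity))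
  obtain ⟨N, hN⟩ := exists_nat_ge (1 / (ε / 2))
  refine ⟨max L₁ N, fun L hL => ?_⟩
  have h1' := h1 L (le_trans (le_max_left _ _) hL)
  have h3 : (N : ℝ) ≤ L := by exact_mod_cast le_trans (le_max_right _ _) hL
  have h4 : (1 : ℝ) ≤ ε / 2 * L := by
    rw [div_le_iff₀ (by linarith)] at hN
    have := mul_le_mul_of_nonneg_right h3 (show (0 : ℝ) ≤ ε / 2 by linarith)
    linarith
  have hnn : (0 : ℝ) ≤ (e + ε / 2) * L := by positivity
  have h5 : Nat.size (f L) ≤ ⌊(e + ε / 2) * (L : ℝ)⌋₊ + 1 := by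
    rw [Nat.size_le]
    have h6 : (f L : ℝ) < ((2 ^ (⌊(e + ε / 2) * (L : ℝ)⌋₊ + 1) : ℕ) : ℝ) := by
      refine lt_of_le_of_lt h1' ?_
      push_cast
      rw [← Real.rpow_natCast]
      apply Real.rpow_lt_rpow_of_exponent_lt (by norm_num)
      push_cast
      exact Nat.lt_floor_add_one _
    exact_mod_cast h6
  have h6 : ((Nat.size (f L) : ℕ) : ℝ) ≤ (⌊(e + ε / 2) * (L : ℝ)⌋₊ : ℝ) + 1 := by exact_mod_cast h5
  have h7 := Nat.floor_le hnn
  show ((Nat.size (f L) : ℕ) : ℝ) ≤ (e + ε) * L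
  have e1 : (e + ε) * (L : ℝ) = (e + ε / 2) * L + ε / 2 * L := by ring
  linarith

theorem lin_floor {x : ℝ} (hx : 0 ≤ x) : Lin x (fun L => ⌊x * L⌋₊ + 1) := by
  intro ε hε
  obtain ⟨N, hN⟩ := exists_nat_ge (1 / ε)
  refine ⟨N, fun L hL => ?_⟩
  have h3 : (N : ℝ) ≤ L := by exact_mod_cast hL
  have h4 : (1 : ℝ) ≤ ε * L := by
    rw [div_le_iff₀ hε] at hN
    have := mul_le_mul_of_nonneg_right h3 hε.le
    linarith
  have h7 : (⌊x * (L : ℝ)⌋₊ : ℝ) ≤ x * L := Nat.floor_le (by positivity)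
  push_cast
  linarith

/-- the length of the pieces -/
theorem expLe_piece {e x : ℝ} {t : ℕ → ℕ} (hxe : x ≤ e) (ht : ExpLe e t) :
    ExpLe (e - x) (fun L => 4 * (t L / 2 ^ (⌊x * (L : ℝ)⌋₊ + 1)) + 4) := by
  have h1 : ExpLe (e - x) (fun L => t L / 2 ^ (⌊x * (L : ℝ)⌋₊ + 1)) := by
    intro δ hδ
    filter_upwards [ht δ hδ] with L hL
    have h2 : ((t L / 2 ^ (⌊x * (L : ℝ)⌋₊ + 1) : ℕ) : ℝ) ≤ (t L : ℝ) / 2 ^ (x * L) := by
      refine Nat.cast_div_le.trans ?_
      push_cast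
      apply div_le_div_of_nonneg_left (Nat.cast_nonneg _) (by positivity)
      rw [← Real.rpow_natCast]
      apply Real.rpow_le_rpow_of_exponent_le (by norm_num)
      push_cast
      exact (Nat.lt_floor_add_one _).le
    refine h2.trans ?_
    rw [div_le_iff₀ (by positivity), ← Real.rpow_add (by norm_num)]
    refine hL.trans (Real.rpow_le_rpow_of_exponent_le (by norm_num) ?_)
    exact le_of_eq (by ring)
  have hc : ∀ k : ℕ, ExpLe (e - x) (fun _ => k) := fun k =>
    (subExp_iff.1 (SubExp.const k)).mono (by linarith)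
  have h2 := ((subExp_iff.1 (SubExp.const 4)).mul h1).add ((hc 4).mono (by linarith : e - x ≤ 0 + (e - x)))
  simpa using h2

theorem trade_speedup {T : Type} {π : Pres T} {P : T → Prop} {b e x : ℝ} (_ : Size π b)
    (h : InCl π P e) (hx : 0 ≤ x) (hxe : x ≤ e) :
    ∃ (q w : ℕ → ℕ) (B : T × (List Bool × List Bool × List Bool) × Inp → Prop), Lin x q ∧ Lin 0 w ∧
      InCl (π.view q w) B (e - x) ∧
      ∃ L₀, ∀ τ, L₀ ≤ π.idx τ → (P τ ↔ ∃ y, ∀ κ, B (τ, κ, y)) := by
  obtain ⟨G, s, t, L₀, hs, ht, hs3, hG, hrun⟩ := h.sz3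
  have hex : 0 ≤ e - x := by linarith
  set q : ℕ → ℕ := fun L => ⌊x * (L : ℝ)⌋₊ + 1 with hqdef
  set ℓ : ℕ → ℕ := fun L => 4 * (t L / 2 ^ (q L)) + 4 with hℓdef
  set lim : ℕ → ℕ := fun L => 2 * ℓ L + 1 with hlimdef
  set W : ℕ → ℕ := fun L => Nat.size (lim L) with hWdef
  set σ : ℕ → ℕ := fun L => Nat.size (s L + W L + q L) with hσdef
  have hℓ : ExpLe (e - x) ℓ := expLe_piece hxe ht
  have hone : ExpLe (e - x) (fun _ => 1) := (subExp_iff.1 (SubExp.const 1)).mono hex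
  have hlim : ExpLe (e - x) lim := by
    have := (hℓ.add hℓ).add hone
    refine this.mono' (Eventually.of_forall fun L => ?_)
    simp only [hlimdef]
    omega
  have hW : Lin (e - x) W := hlim.size hex
  have hq : Lin x q := lin_floor hx
  have hsum : SubExp (fun L => s L + W L + q L) := (hs.add hW.subExp).add hq.subExp
  have hσ : Lin 0 σ := (subExp_iff.1 hsum).size le_rfl
  have bd : ∀ L, s L + W L + q L < 2 ^ σ L := fun L => Nat.lt_size_self _
  have hlimW : ∀ L, lim L < 2 ^ W L := fun L => Nat.lt_size_self _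
  refine ⟨q, fun L => σ L + 3, fun p =>
    ChkV (G (π.idx p.1)) (s (π.idx p.1)) (W (π.idx p.1)) (q (π.idx p.1)) (σ (π.idx p.1))
      (lim (π.idx p.1)) (π.inp p.1) p.2.2 p.2.1, hq, ?_, ?_, L₀, ?_⟩
  · simpa using hσ.add (Lin.const 0 le_rfl 3)
  · choose G' hG' hrun' using fun L => view_check (hG L) (hs3 L)
      (show q L ≤ 2 ^ σ L by have := bd L; omega) (show s L ≤ 2 ^ σ L by have := bd L; omega)
      (show W L ≤ 2 ^ σ L by have := bd L; omega) (hlimW L)
    refine ⟨G', _, fun L => 2 * lim L + 1, 0, ?_, ?_, hG', fun p _ => ?_⟩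
    · refine ex_zero_iff.2 ((SubExp.const 1000).mul (((SubExp.const 1000).mul
        (((((hs.add hW.subExp).add hq.subExp).add hσ.subExp).add (SubExp.const 10)).pow 3)).pow 4))
    · refine ex_iff.2 (((hlim.add hlim).add hone).mono' (Eventually.of_forall fun L => ?_))
      omega
    · exact hrun' (π.idx p.1) (π.inp p.1) p.2.2 p.2.1
  · intro τ hτ
    obtain ⟨v, hv, hvP⟩ := hrun τ hτ
    set L := π.idx τ with hL
    rw [run_nil_iff] at hv
    obtain ⟨k, V, hk, hE, hV⟩ := hv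
    constructor
    · intro hP
      have hvt : v = true := hvP.2 hP
      have hq1 : 2 * 2 ^ (⌊x * (L : ℝ)⌋₊) = 2 ^ q L := by
        simp only [hqdef]
        rw [pow_succ]
        ring
      have hℓ1 : 1 ≤ ℓ L := by simp only [hℓdef]; omega
      have hdiv : t L < (t L / 2 ^ q L + 1) * 2 ^ q L := by
        have := Nat.lt_div_mul_add (a := t L) (show 0 < 2 ^ q L by positivity)
        calc t L < t L / 2 ^ q L * 2 ^ q L + 2 ^ q L := this
          _ = _ := by ring
      refine view_complete (hG L) (hs3 L) (show q L ≤ 2 ^ σ L by have := bd L; omega)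
        (show s L ≤ 2 ^ σ L by have := bd L; omega) (show W L ≤ 2 ^ σ L by have := bd L; omega)
        hE (hV.trans hvt) hℓ1 ?_ (hlimW L) rfl
      have h1 : ℓ L = 4 * (t L / 2 ^ q L + 1) := by simp only [hℓdef]; ring
      have h2 : 4 * t L ≤ 2 ^ q L * ℓ L := by
        rw [h1]
        calc 4 * t L ≤ 4 * ((t L / 2 ^ q L + 1) * 2 ^ q L) := by omega
          _ = _ := by ring
      have h3 : 2 * ℓ L ≤ 2 ^ q L * ℓ L := by
        apply Nat.mul_le_mul_right
        rw [← hq1]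
        have : 1 ≤ 2 ^ (⌊x * (L : ℝ)⌋₊) := Nat.one_le_two_pow
        omega
      omega
    · rintro ⟨y, hy⟩
      obtain ⟨T', V', hE', hV'⟩ := view_sound (lim := lim L) (z := π.inp τ) (y := y) (hG L) (hs3 L)
        (show q L ≤ 2 ^ σ L by have := bd L; omega) (show s L ≤ 2 ^ σ L by have := bd L; omega)
        (show W L ≤ 2 ^ σ L by have := bd L; omega) (fun κ => hy κ)
      obtain ⟨-, rfl⟩ := hE.det hE'
      exact hvP.1 (hV.symm.trans hV')

end Pool.Agent.NUM
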