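import Pool.Agent.NUM.TapeFinal
import Pool.Agent.NUM.GStmt

/-!
# One-tape machines: the window version
-/

set_option autoImplicit false

namespace Pool.Agent.NUM

/-- `4 ≤ 2 ^ (δ m)` for large `m` -/
theorem four_le_room {δ : ℝ} (hδ : 0 < δ) : ∃ m₁ : ℕ, ∀ m : ℕ, m₁ ≤ m →
    (4 : ℝ) ≤ 2 ^ (δ * m) := by
  obtain ⟨m₁, hm₁⟩ := exists_nat_ge (2 / δ)
  refine ⟨m₁, fun m hm => ?_⟩
  have h1 : (m₁ : ℝ) ≤ m := by exact_mod_cast hm
  have h2 : 2 ≤ δ * m := by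
    have := hm₁.trans h1
    rw [div_le_iff₀ hδ] at this
    linarith
  calc (4 : ℝ) = 2 ^ (2 : ℝ) := by norm_num
    _ ≤ 2 ^ (δ * m) := Real.rpow_le_rpow_of_exponent_le (by norm_num) h2

/-- a fast one-tape machine gives a fast history program whose computation graphs have hereditary
separators -/
theorem TDecides.sep {G : List Ins} {B T s : ℕ} {P : Inp → Prop} (hG : Sz s G)
    (hD : TDecides G B T P) :
    ∃ G' : List Ins, HSz (tapeSz (s + 7) (Nat.size T)) (Nat.size T) G' ∧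
      SepDecides G' (Nat.size T) B T (1 / 2) 4 P := by
  obtain ⟨G', h1, h2⟩ := exists_tape_hist_hsep (s := s + 7) (hG.mono (by omega)) (by omega)
    (Nat.size T)
  refine ⟨G', h1, fun z hz => ?_⟩
  obtain ⟨b, ⟨N, hN, hH, hb⟩, hbS⟩ := hD z hz
  obtain ⟨h3, h4, h5⟩ := h2 z N (lt_of_le_of_lt hN (Nat.lt_size_self T)) hH
  refine ⟨N, hN, h3, ?_, h5⟩
  rw [h4, hb]
  exact hbS

theorem size_le_of_le_rpow {c : ℝ} (hc : 0 ≤ c) {T m : ℕ} (hT : (T : ℝ) ≤ 2 ^ (c * m)) :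
    ((Nat.size T : ℕ) : ℝ) ≤ c * m + 1 := by
  rcases Nat.eq_zero_or_pos T with h0 | h0
  · subst h0
    have : 0 ≤ c * m := mul_nonneg hc (Nat.cast_nonneg _)
    simp
    linarith
  · have h3 : 2 ^ (Nat.size T - 1) ≤ T := by
      have := (Nat.lt_size (m := Nat.size T - 1) (n := T)).1
        (by have := Nat.size_pos.2 h0; omega)
      exact this
    have h4 : (2 : ℝ) ^ ((Nat.size T - 1 : ℕ) : ℝ) ≤ 2 ^ (c * m) := by
      rw [Real.rpow_natCast]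
      refine le_trans ?_ hT
      exact_mod_cast h3
    have h5 := (Real.rpow_le_rpow_left_iff (by norm_num : (1 : ℝ) < 2)).1 h4
    have h6 : 1 ≤ Nat.size T := Nat.size_pos.2 h0
    rw [Nat.cast_sub h6] at h5
    push_cast at h5
    linarith

/-- **One-tape machines**, window version, from the lower bound for history programs with hereditary
separators -/
theorem tape_window_of {c : ℝ} (hc : 0 ≤ c) {S : ℕ → Inp → Prop} {B : ℕ → ℕ}
    (h : ∃ (δ : ℝ) (A M₀ : ℕ), 0 < δ ∧ ∀ M : ℕ, M₀ ≤ M → ∃ m : ℕ, M ≤ m ∧ m ≤ A * M ∧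
      ∀ (G : List Ins) (d s T K : ℕ), HSz s d G →
      (s : ℝ) ≤ 2 ^ (δ * m) → (T : ℝ) ≤ 2 ^ (c * m) → (K : ℝ) ≤ 2 ^ (δ * m) →
        ¬ SepDecides G d (B m) T (1 / 2) K (S m)) :
    ∃ (δ : ℝ) (A M₀ : ℕ), 0 < δ ∧ ∀ M : ℕ, M₀ ≤ M → ∃ m : ℕ, M ≤ m ∧ m ≤ A * M ∧
      ∀ (G : List Ins) (s T : ℕ), Sz s G →
      (s : ℝ) ≤ 2 ^ (δ * m) → (T : ℝ) ≤ 2 ^ (c * m) → ¬ TDecides G (B m) T (S m) := by
  obtain ⟨δ, A, M₀, hδ, h⟩ := h
  obtain ⟨m₁, hm₁⟩ := tape_size_room (c := c) hδ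
  obtain ⟨m₂, hm₂⟩ := four_le_room hδ
  refine ⟨δ / 4, A, max M₀ (max m₁ m₂), by positivity, fun M hM => ?_⟩
  obtain ⟨m, hm, hmA, h⟩ := h M ((le_max_left _ _).trans hM)
  refine ⟨m, hm, hmA, fun G s T hG hs hT hD => ?_⟩
  have hmm : max m₁ m₂ ≤ m := (le_max_right _ _).trans (hM.trans hm)
  obtain ⟨G', h1, h2⟩ := hD.sep hG
  exact h G' _ _ T 4 h1 (hm₁ m ((le_max_left _ _).trans hmm) s _ hs (size_le_of_le_rpow hc hT)) hT
    (by exact_mod_cast hm₂ m ((le_max_right _ _).trans hmm)) h2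

end Pool.Agent.NUM
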