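import Pool.Agent.NUM.StackSim
import Pool.Agent.NUM.TapeCor

/-!
# Programs with an unlimited stack: the lower bound follows from the one for separators
-/

set_option autoImplicit false

namespace Pool.Agent.NUM

theorem stack_size_room {c δ : ℝ} (hδ : 0 < δ) : ∃ m₁ : ℕ, ∀ m : ℕ, m₁ ≤ m → ∀ s W : ℕ,
    (s : ℝ) ≤ 2 ^ (δ / 8 * m) → (W : ℝ) ≤ c * m + 1 →
    ((stackSz (s + 3) W : ℕ) : ℝ) ≤ 2 ^ (δ * m) := by
  obtain ⟨m₁, hm₁⟩ := tape_size_room (c := c) (half_pos hδ)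
  obtain ⟨m₂, hm₂⟩ := four_le_room (half_pos hδ)
  refine ⟨max m₁ m₂, fun m hm s W hs hW => ?_⟩
  have h1 := hm₁ m ((le_max_left _ _).trans hm) s W (by
    rw [show δ / 2 / 4 = δ / 8 by ring]
    exact hs) hW
  have h2 := hm₂ m ((le_max_right _ _).trans hm)
  have h3 : ((stackSz (s + 3) W : ℕ) : ℝ) ≤ 4 * ((tapeSz (s + 7) W : ℕ) : ℝ) := by
    have : stackSz (s + 3) W ≤ 4 * tapeSz (s + 7) W := by
      unfold stackSz tapeSz
      have h4 : (s + 3 + W + 10) ^ 2 ≤ (s + 7 + W + 10) ^ 2 :=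
        Nat.pow_le_pow_left (by omega) 2
      omega
    exact_mod_cast this
  have h4 : (0 : ℝ) < 2 ^ (δ / 2 * m) := Real.rpow_pos_of_pos (by norm_num) _
  calc ((stackSz (s + 3) W : ℕ) : ℝ) ≤ 4 * ((tapeSz (s + 7) W : ℕ) : ℝ) := h3
    _ ≤ 2 ^ (δ / 2 * m) * 2 ^ (δ / 2 * m) :=
        mul_le_mul h2 h1 (Nat.cast_nonneg _) h4.le
    _ = 2 ^ (δ * m) := by
        rw [← Real.rpow_add (by norm_num)]
        congr 1
        ring

/-- a fast program with a stack gives a fast history program whose computation graphs have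
hereditary separators of four states -/
theorem Decides.sep {G : List Ins} {B T s : ℕ} {P : Inp → Prop} (hG : Sz s G)
    (hD : Decides G B T P) {γ : ℝ} (hγ : 0 ≤ γ) :
    ∃ G' : List Ins, HSz (stackSz (s + 3) (Nat.size T)) (Nat.size T) G' ∧
      SepDecides G' (Nat.size T) B T γ 4 P :=
  hD.sepDecides (s := s + 3) (hG.mono (by omega)) (by omega) (Nat.lt_size_self T) hγ

/-- **Programs with an unlimited stack**, window version, from the lower bound for history programs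
with hereditary separators -/
theorem stack_window_of {c γ : ℝ} (hc : 0 ≤ c) (hγ : 0 ≤ γ) {S : ℕ → Inp → Prop} {B : ℕ → ℕ}
    (h : ∃ (δ : ℝ) (A M₀ : ℕ), 0 < δ ∧ ∀ M : ℕ, M₀ ≤ M → ∃ m : ℕ, M ≤ m ∧ m ≤ A * M ∧
      ∀ (G : List Ins) (d s T K : ℕ), HSz s d G →
      (s : ℝ) ≤ 2 ^ (δ * m) → (T : ℝ) ≤ 2 ^ (c * m) → (K : ℝ) ≤ 2 ^ (δ * m) →
        ¬ SepDecides G d (B m) T γ K (S m)) :
    ∃ (δ : ℝ) (A M₀ : ℕ), 0 < δ ∧ ∀ M : ℕ, M₀ ≤ M → ∃ m : ℕ, M ≤ m ∧ m ≤ A * M ∧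
      ∀ (G : List Ins) (s T : ℕ), Sz s G →
      (s : ℝ) ≤ 2 ^ (δ * m) → (T : ℝ) ≤ 2 ^ (c * m) → ¬ Decides G (B m) T (S m) := by
  obtain ⟨δ, A, M₀, hδ, h⟩ := h
  obtain ⟨m₁, hm₁⟩ := stack_size_room (c := c) hδ
  obtain ⟨m₂, hm₂⟩ := four_le_room hδ
  refine ⟨δ / 8, A, max M₀ (max m₁ m₂), by positivity, fun M hM => ?_⟩
  obtain ⟨m, hm, hmA, h⟩ := h M ((le_max_left _ _).trans hM)
  refine ⟨m, hm, hmA, fun G s T hG hs hT hD => ?_⟩
  have hmm : max m₁ m₂ ≤ m := (le_max_right _ _).trans (hM.trans hm)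
  obtain ⟨G', h1, h2⟩ := hD.sep hG hγ
  exact h G' _ _ T 4 h1 (hm₁ m ((le_max_left _ _).trans hmm) s _ hs (size_le_of_le_rpow hc hT)) hT
    (by exact_mod_cast hm₂ m ((le_max_right _ _).trans hmm)) h2

end Pool.Agent.NUM
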