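import Pool.Agent.NUM.StackCor
import Pool.Agent.NUM.GFinal

/-!
# The lower bound for programs with a stack as a corollary of the one for separators
-/

set_option autoImplicit false

namespace Pool.Agent.NUM

open S3

theorem stack_window {c : ℝ} (hc : 1 ≤ c) (h : (c ^ 2 - 1) * (c - 1) < c) :
    ∃ (δ : ℝ) (A M₀ : ℕ), 0 < δ ∧ ∀ M : ℕ, M₀ ≤ M → ∃ m : ℕ, M ≤ m ∧ m ≤ A * M ∧
      ∀ (G : List Ins) (s T : ℕ), Sz s G →
      (s : ℝ) ≤ 2 ^ (δ * m) → (T : ℝ) ≤ 2 ^ (c * m) → ¬ Decides G (satLen m) T (SAT m) :=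
  stack_window_of (by linarith) (le_refl (0 : ℝ))
    (sat_sep_bound (le_refl (0 : ℝ)) one_pos hc (by linarith))

/-- the statement of the earlier hand-in SatStackTime -/
theorem stack_window_cos (c : ℝ) (hc : c < 2 * Real.cos (Real.pi / 7)) :
    ∃ (δ : ℝ) (A M₀ : ℕ), 0 < δ ∧ ∀ M : ℕ, M₀ ≤ M → ∃ m : ℕ, M ≤ m ∧ m ≤ A * M ∧
      ∀ (G : List Ins) (s T : ℕ), Sz s G → (s : ℝ) ≤ 2 ^ (δ * m) → (T : ℝ) ≤ 2 ^ (c * m) →
      ¬ Decides G (satLen m) T (SAT m) := by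
  have h45 : Real.cos (Real.pi / 4) < Real.cos (Real.pi / 7) :=
    Real.cos_lt_cos_of_nonneg_of_le_pi_div_two (by positivity) (by linarith [Real.pi_pos])
      (by linarith [Real.pi_pos])
  rw [Real.cos_pi_div_four] at h45
  have h2 : (1.4 : ℝ) < √2 := by
    rw [show (1.4 : ℝ) = √(1.4 ^ 2) by rw [Real.sqrt_sq (by norm_num)]]
    exact Real.sqrt_lt_sqrt (by norm_num) (by norm_num)
  obtain ⟨c', hc'⟩ : ∃ c', c' = max c 1.3 := ⟨_, rfl⟩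
  have h1 : 1 < c' := by
    rw [hc']
    exact lt_of_lt_of_le (by norm_num) (le_max_right _ _)
  have h3 : c' < 2 * Real.cos (Real.pi / 7) := by
    rw [hc']
    exact max_lt hc (by linarith)
  have h4 := cubic_neg h1 h3
  obtain ⟨δ, A, M₀, hδ, h⟩ := stack_window h1.le (by nlinarith)
  refine ⟨δ, A, M₀, hδ, fun M hM => ?_⟩
  obtain ⟨m, hm, hmA, h⟩ := h M hM
  refine ⟨m, hm, hmA, fun G s T hG hs hT => h G s T hG hs (hT.trans ?_)⟩
  refine Real.rpow_le_rpow_of_exponent_le (by norm_num) ?_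
  refine mul_le_mul_of_nonneg_right ?_ (Nat.cast_nonneg m)
  rw [hc']
  exact le_max_left _ _

/-- one tape -/
theorem tape_window {c : ℝ} (hc : 1 ≤ c) (h : 2 * c ^ 3 - c ^ 2 - 3 * c + 1 < 0) :
    ∃ (δ : ℝ) (A M₀ : ℕ), 0 < δ ∧ ∀ M : ℕ, M₀ ≤ M → ∃ m : ℕ, M ≤ m ∧ m ≤ A * M ∧
      ∀ (G : List Ins) (s T : ℕ), Sz s G →
      (s : ℝ) ≤ 2 ^ (δ * m) → (T : ℝ) ≤ 2 ^ (c * m) → ¬ TDecides G (satLen m) T (SAT m) :=
  tape_window_of (by linarith)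
    (sat_sep_bound (by norm_num) (by norm_num) hc (by linarith))

end Pool.Agent.NUM
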