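import Pool.Agent.NUM.StackTW
import Pool.Agent.NUM.GTw
import Pool.Agent.NUM.GStmt
import Pool.Agent.NUM.HNormCp

/-!
# Programs with an unlimited stack are history programs whose graphs have tree-width at most 3
-/

set_option autoImplicit false

namespace Pool.Agent.NUM

/-- configurations: memory, stack; each entry of the stack is stored with the number of the state
in which it was pushed -/
structure SConf where
  mem : Mem
  stk : List (Bool × ℕ)

/-- one step; `t` is the number of the new state -/
def SConf.step (f : Mem → Mem) (t : ℕ) (c : SConf) : SConf :=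
  if f c.mem 0 = true then
    if f c.mem 1 = true then
      ⟨Function.update (f c.mem) 2 ((c.stk.head?.map Prod.fst).getD false), c.stk.tail⟩
    else ⟨f c.mem, (f c.mem 2, t) :: c.stk⟩
  else ⟨f c.mem, c.stk⟩

/-- the configuration after `t` steps -/
def sconf (f : Mem → Mem) : ℕ → SConf
  | 0 => ⟨zeroMem, []⟩
  | t + 1 => (sconf f t).step f (t + 1)

/-- the number of the state in which the top was pushed -/
def sP (f : Mem → Mem) (t : ℕ) : ℕ := ((sconf f t).stk.head?.map Prod.snd).getD 0

/-- the empty stack is popped in the last step -/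
def sHalt (f : Mem → Mem) : ℕ → Bool
  | 0 => false
  | t + 1 => f (sconf f t).mem 0 && f (sconf f t).mem 1 && decide (sP f t = 0)

/-- the answer -/
def sAns (f : Mem → Mem) : ℕ → Bool
  | 0 => false
  | t + 1 => f (sconf f t).mem 2

section

variable (f : Mem → Mem)

theorem sconf_succ_pop {t : ℕ} (h0 : f (sconf f t).mem 0 = true) (h1 : f (sconf f t).mem 1 = true) :
    sconf f (t + 1) = ⟨Function.update (f (sconf f t).mem) 2
      (((sconf f t).stk.head?.map Prod.fst).getD false), (sconf f t).stk.tail⟩ := by
  show (sconf f t).step f (t + 1) = _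
  unfold SConf.step
  rw [if_pos h0, if_pos h1]

theorem sconf_succ_push {t : ℕ} (h0 : f (sconf f t).mem 0 = true)
    (h1 : f (sconf f t).mem 1 = false) :
    sconf f (t + 1) = ⟨f (sconf f t).mem, (f (sconf f t).mem 2, t + 1) :: (sconf f t).stk⟩ := by
  show (sconf f t).step f (t + 1) = _
  unfold SConf.step
  rw [if_pos h0, if_neg (by rw [h1]; exact Bool.false_ne_true)]

theorem sconf_succ_stay {t : ℕ} (h0 : f (sconf f t).mem 0 = false) :
    sconf f (t + 1) = ⟨f (sconf f t).mem, (sconf f t).stk⟩ := by
  show (sconf f t).step f (t + 1) = _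
  unfold SConf.step
  rw [if_neg (by rw [h0]; exact Bool.false_ne_true)]

/-- the entries of the stack -/
theorem sconf_inv (t : ℕ) : ∀ b u st', (sconf f t).stk = (b, u) :: st' →
    1 ≤ u ∧ u ≤ t ∧ (sconf f (u - 1)).stk = st' ∧ (sconf f u).mem 2 = b := by
  induction t using Nat.strong_induction_on with
  | _ t ih =>
    intro b u st' h
    cases t with
    | zero => exact absurd h (by simp [sconf])
    | succ t =>
      cases h0 : f (sconf f t).mem 0 with
      | false =>
        rw [sconf_succ_stay f h0] at h
        have := ih t (by omega) b u st' h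
        exact ⟨this.1, by omega, this.2.2⟩
      | true =>
        cases h1 : f (sconf f t).mem 1 with
        | false =>
          have h2 := sconf_succ_push f h0 h1
          rw [h2] at h
          have h3 := List.cons.inj h
          have h4 := Prod.mk.inj h3.1
          rw [← h4.2]
          refine ⟨by omega, le_rfl, ?_, ?_⟩
          · rw [Nat.add_sub_cancel]
            exact h3.2
          · rw [h2]
            exact h4.1
        | true =>
          rw [sconf_succ_pop f h0 h1] at h
          cases h5 : (sconf f t).stk with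
          | nil =>
            rw [h5] at h
            exact absurd h (by simp)
          | cons x st₁ =>
            obtain ⟨b₁, u₁⟩ := x
            obtain ⟨g1, g2, g3, -⟩ := ih t (by omega) b₁ u₁ st₁ h5
            rw [h5] at h
            have h6 : (sconf f (u₁ - 1)).stk = (b, u) :: st' := by
              rw [g3]
              exact h
            have := ih (u₁ - 1) (by omega) b u st' h6
            exact ⟨this.1, by omega, this.2.2⟩

theorem sP_nil {t : ℕ} (h : (sconf f t).stk = []) : sP f t = 0 := by
  unfold sP
  rw [h]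
  rfl

theorem sP_cons {t : ℕ} {b : Bool} {u : ℕ} {st' : List (Bool × ℕ)}
    (h : (sconf f t).stk = (b, u) :: st') : sP f t = u := by
  unfold sP
  rw [h]
  rfl

theorem sP_congr {t t' : ℕ} (h : (sconf f t).stk = (sconf f t').stk) : sP f t = sP f t' := by
  unfold sP
  rw [h]

theorem sP_zero : sP f 0 = 0 := rfl

theorem sP_eq_zero {t : ℕ} : sP f t = 0 ↔ (sconf f t).stk = [] := by
  constructor
  · intro h
    cases h5 : (sconf f t).stk with
    | nil => rfl
    | cons x st₁ =>
      obtain ⟨b₁, u₁⟩ := x
      have := (sconf_inv f t b₁ u₁ st₁ h5).1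
      rw [sP_cons f h5] at h
      omega
  · exact sP_nil f

theorem sP_pop {t : ℕ} (h0 : f (sconf f t).mem 0 = true) (h1 : f (sconf f t).mem 1 = true) :
    sP f (t + 1) = sP f (sP f t - 1) := by
  have h2 : (sconf f (t + 1)).stk = (sconf f t).stk.tail := by rw [sconf_succ_pop f h0 h1]
  cases h5 : (sconf f t).stk with
  | nil =>
    rw [sP_nil f h5]
    rw [h5] at h2
    rw [sP_nil f h2]
    rfl
  | cons x st₁ =>
    obtain ⟨b₁, u₁⟩ := x
    obtain ⟨g1, g2, g3, -⟩ := sconf_inv f t b₁ u₁ st₁ h5
    rw [sP_cons f h5]
    apply sP_congr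
    rw [h2, h5, g3]
    rfl

theorem sP_push {t : ℕ} (h0 : f (sconf f t).mem 0 = true) (h1 : f (sconf f t).mem 1 = false) :
    sP f (t + 1) = t + 1 := by
  have h2 : (sconf f (t + 1)).stk = (f (sconf f t).mem 2, t + 1) :: (sconf f t).stk := by
    rw [sconf_succ_push f h0 h1]
  exact sP_cons f h2

theorem sP_stay {t : ℕ} (h0 : f (sconf f t).mem 0 = false) : sP f (t + 1) = sP f t := by
  apply sP_congr
  rw [sconf_succ_stay f h0]

theorem sP_stackPtr : StackPtr (sP f) := by
  refine ⟨rfl, fun t => ?_⟩
  cases h0 : f (sconf f t).mem 0 with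
  | false => exact Or.inl (sP_stay f h0)
  | true =>
    cases h1 : f (sconf f t).mem 1 with
    | false => exact Or.inr (Or.inl (sP_push f h0 h1))
    | true =>
      have h2 := sP_pop f h0 h1
      by_cases h3 : sP f t = 0
      · left
        rw [h2, h3]
        rfl
      · exact Or.inr (Or.inr ⟨h3, h2⟩)

/-- the popped symbol is cell `2` of the recalled state -/
theorem head_eq (t : ℕ) :
    ((sconf f t).stk.head?.map Prod.fst).getD false = (sconf f (sP f t)).mem 2 := by
  cases h5 : (sconf f t).stk with
  | nil =>
    rw [sP_nil f h5]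
    rfl
  | cons x st₁ =>
    obtain ⟨b₁, u₁⟩ := x
    rw [sP_cons f h5, (sconf_inv f t b₁ u₁ st₁ h5).2.2.2]
    rfl

/-- the next memory -/
theorem mem_succ (t : ℕ) : (sconf f (t + 1)).mem =
    if f (sconf f t).mem 0 = true ∧ f (sconf f t).mem 1 = true then
      Function.update (f (sconf f t).mem) 2 ((sconf f (sP f t)).mem 2)
    else f (sconf f t).mem := by
  cases h0 : f (sconf f t).mem 0 with
  | false =>
    rw [sconf_succ_stay f h0, if_neg (by simp)]
  | true =>
    cases h1 : f (sconf f t).mem 1 with
    | false => rw [sconf_succ_push f h0 h1, if_neg (by simp)]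
    | true => rw [sconf_succ_pop f h0 h1, if_pos ⟨rfl, rfl⟩, head_eq]

/-- the next pointer -/
theorem sP_succ (t : ℕ) : sP f (t + 1) =
    if f (sconf f t).mem 0 = true then
      if f (sconf f t).mem 1 = true then sP f (sP f t - 1) else t + 1
    else sP f t := by
  cases h0 : f (sconf f t).mem 0 with
  | false => rw [sP_stay f h0, if_neg (by simp)]
  | true =>
    rw [if_pos rfl]
    cases h1 : f (sconf f t).mem 1 with
    | false => rw [sP_push f h0 h1, if_neg (by simp)]
    | true => rw [sP_pop f h0 h1, if_pos rfl]

/-- the answer of the stack program -/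
theorem run_sconf (k : ℕ) : ∀ (t : ℕ) (b : Bool),
    run f k (sconf f t).mem ((sconf f t).stk.map Prod.fst) = some b →
    ∃ N, t < N ∧ N ≤ t + k ∧ sHalt f N = true ∧ (∀ n, t < n → n < N → sHalt f n = false) ∧
      sAns f N = b := by
  induction k with
  | zero =>
    intro t b h
    exact absurd h (by simp [run])
  | succ k ih =>
    intro t b h
    -- not halting in this step
    have hgo : sHalt f (t + 1) = false →
        run f k (sconf f (t + 1)).mem ((sconf f (t + 1)).stk.map Prod.fst) = some b →
        ∃ N, t < N ∧ N ≤ t + (k + 1) ∧ sHalt f N = true ∧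
          (∀ n, t < n → n < N → sHalt f n = false) ∧ sAns f N = b := by
      intro hh hr
      obtain ⟨N, h1, h2, h3, h4, h5⟩ := ih (t + 1) b hr
      refine ⟨N, by omega, by omega, h3, fun n hn hnN => ?_, h5⟩
      rcases Nat.lt_or_ge (t + 1) n with h6 | h6
      · exact h4 n h6 hnN
      · have : n = t + 1 := by omega
        rw [this, hh]
    unfold run at h
    cases h0 : f (sconf f t).mem 0 with
    | false =>
      rw [if_neg (by rw [h0]; exact Bool.false_ne_true)] at h
      apply hgo
      · simp [sHalt, h0]
      · rw [sconf_succ_stay f h0]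
        exact h
    | true =>
      rw [if_pos h0] at h
      cases h1 : f (sconf f t).mem 1 with
      | false =>
        rw [if_neg (by rw [h1]; exact Bool.false_ne_true)] at h
        apply hgo
        · simp [sHalt, h1]
        · rw [sconf_succ_push f h0 h1]
          exact h
      | true =>
        rw [if_pos h1] at h
        cases h5 : (sconf f t).stk with
        | nil =>
          rw [h5] at h
          refine ⟨t + 1, by omega, by omega, ?_, fun n hn hn' => by omega, ?_⟩
          · simp [sHalt, h0, h1, sP_nil f h5]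
          · exact Option.some.inj h
        | cons x st₁ =>
          obtain ⟨b₁, u₁⟩ := x
          rw [h5] at h
          apply hgo
          · have h6 : sP f t ≠ 0 := by
              rw [Ne, sP_eq_zero, h5]
              simp
            simp [sHalt, h6]
          · rw [sconf_succ_pop f h0 h1, h5]
            exact h

end

/-! ### The simulation -/

/-- the layout: `s` cells of the memory, a pointer -/
def slay (s W : ℕ) : Lay := ⟨W, 0, s + W⟩

/-- the bit vector of a state: memory, pointer to the top of the previous stack -/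
def sX (s W : ℕ) (V : Mem) (Q : ℕ) : ℕ → Bool := fun j =>
  if j < s then V j else if j < s + W then Q.testBit (j - s) else false

/-- the state after `t` steps -/
def sst (f : Mem → Mem) (s W t : ℕ) : PSt where
  halt := sHalt f t
  ans := sAns f t
  fl := false
  ix := sP f t
  e := 0
  u := t
  n := 0
  X := sX s W (sconf f t).mem (sP f (t - 1))

/-- one pass of the simulation -/
def nxS (G : List Ins) (s W : ℕ) (z : Inp) (p : PSt) (Y : ℕ → Bool) : PSt where
  halt := eval G z p.X 0 && eval G z p.X 1 && decide (p.ix = 0)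
  ans := eval G z p.X 2
  fl := false
  ix := if eval G z p.X 0 = true then
      if eval G z p.X 1 = true then num W fun i => Y (s + i) else p.u + 1
    else p.ix
  e := 0
  u := p.u + 1
  n := 0
  X := sX s W (if eval G z p.X 0 = true ∧ eval G z p.X 1 = true then
      Function.update (eval G z p.X) 2 (Y 2) else eval G z p.X) p.ix

theorem sX_lt {s W : ℕ} {V : Mem} {Q j : ℕ} (h : j < s) : sX s W V Q j = V j := if_pos h

theorem sX_Q {s W : ℕ} {V : Mem} {Q i : ℕ} (h : i < W) : sX s W V Q (s + i) = Q.testBit i := by
  unfold sX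
  rw [if_neg (by omega), if_pos (by omega), Nat.add_sub_cancel_left]

theorem sX_congr {s W : ℕ} {V V' : Mem} (h : Agr s V V') (Q : ℕ) : sX s W V Q = sX s W V' Q := by
  funext j
  unfold sX
  by_cases hj : j < s
  · rw [if_pos hj, if_pos hj]
    exact h j hj
  · rw [if_neg hj, if_neg hj]

theorem sst_zero (f : Mem → Mem) (s W : ℕ) : sst f s W 0 = PSt.init := by
  unfold sst PSt.init
  rw [PSt.mk.injEq]
  refine ⟨rfl, rfl, rfl, rfl, rfl, rfl, rfl, ?_⟩
  funext j
  show sX s W zeroMem 0 j = false
  unfold sX zeroMem
  split_ifs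
  · rfl
  · exact Nat.zero_testBit _
  · rfl

/-- one pass of the simulation on the right states -/
theorem nxS_step {G : List Ins} {s W : ℕ} (hG : Sz s G) (hs : 3 ≤ s) (z : Inp) {t : ℕ}
    (ht : t < 2 ^ W) :
    nxS G s W z (sst (eval G z) s W t) (sst (eval G z) s W (sP (eval G z) t)).X =
      sst (eval G z) s W (t + 1) := by
  obtain ⟨f, hf⟩ : ∃ f, f = eval G z := ⟨_, rfl⟩
  have hle := (sP_stackPtr f).le
  have hV : Agr s (f (sst f s W t).X) (f (sconf f t).mem) := by
    rw [hf]
    apply eval_agr hG.2
    rw [← hf]
    intro q hq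
    exact sX_lt hq
  have h0 := hV 0 (by omega)
  have h1 := hV 1 (by omega)
  have h2 := hV 2 (by omega)
  have hQ : (num W fun i => (sst f s W (sP f t)).X (s + i)) = sP f (sP f t - 1) := by
    refine Lay.hp_num_bits ?_ fun i hi => ?_
    · have g1 := hle t
      have g2 := hle (sP f t - 1)
      omega
    · exact sX_Q hi
  have hY : (sst f s W (sP f t)).X 2 = (sconf f (sP f t)).mem 2 := sX_lt (by omega)
  unfold nxS
  rw [← hf, hQ, hY, h0, h1, h2]
  show _ = PSt.mk (sHalt f (t + 1)) (sAns f (t + 1)) false (sP f (t + 1)) 0 (t + 1) 0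
    (sX s W (sconf f (t + 1)).mem (sP f (t + 1 - 1)))
  rw [PSt.mk.injEq]
  refine ⟨rfl, rfl, rfl, (sP_succ f t).symm, rfl, rfl, rfl, ?_⟩
  rw [mem_succ, Nat.add_sub_cancel]
  show sX s W _ (sP f t) = _
  apply sX_congr
  intro q hq
  split_ifs
  · by_cases hq2 : q = 2
    · rw [hq2, Function.update_self, Function.update_self]
    · rw [Function.update_of_ne hq2, Function.update_of_ne hq2]
      exact hV q hq
  · exact hV q hq

/-- the run of the simulation -/
theorem nxS_run {G : List Ins} {s W : ℕ} (hG : Sz s G) (hs : 3 ≤ s) (z : Inp) {p : ℕ → PSt}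
    {T : ℕ} (hT : T < 2 ^ W) (hp : IsRun (nxS G s W z) p T) :
    ∀ t ≤ T, p t = sst (eval G z) s W t := by
  intro t
  induction t using Nat.strong_induction_on with
  | _ t ih =>
    intro ht
    cases t with
    | zero => rw [hp.1, sst_zero]
    | succ t =>
      have h1 := ih t (by omega) (by omega)
      have h2 : (p t).ix = sP (eval G z) t := by rw [h1]; rfl
      have h3 := (sP_stackPtr (eval G z)).le t
      rw [hp.2 t (by omega), h2, if_pos h3, h1, ih _ (by omega) (by omega)]
      exact nxS_step hG hs z (by omega)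

theorem sst_ok {f : Mem → Mem} {s W t : ℕ} (ht : t < 2 ^ W) : (slay s W).Ok (sst f s W t) := by
  refine ⟨lt_of_le_of_lt ((sP_stackPtr f).le t) ht, ?_, ht, ?_, fun j hj => ?_⟩
  · exact Nat.two_pow_pos _
  · exact Nat.two_pow_pos _
  · have hj' : s + W ≤ j := hj
    show sX s W _ _ j = false
    unfold sX
    rw [if_neg (by omega), if_neg (by omega)]

/-- size bound of one cell of one pass -/
def stackCp (s W : ℕ) : ℕ := 3000 * (s + W + 10)

theorem nxS_cp {G : List Ins} {s : ℕ} (hG : Sz s G) (hs : 3 ≤ s) (W : ℕ) (q : ℕ) :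
    Cp (2 * (slay s W).tot) (stackCp s W) (fun z M =>
      (slay s W).pack (nxS G s W z ((slay s W).unpack (evc M))
        ((slay s W).unpack (odc M)).X) q) := by
  obtain ⟨y, hy⟩ : ∃ y, y = slay s W := ⟨_, rfl⟩
  rw [← hy]
  have hW : y.W = W := by rw [hy]; rfl
  have hke : y.ke = 0 := by rw [hy]; rfl
  have hv : y.v = s + W := by rw [hy]; rfl
  have hbase : y.base = 2 * y.W + 3 + y.ke + y.W + y.W := rfl
  have htot : y.tot = y.base + y.v := rfl
  obtain ⟨b, hb⟩ : ∃ b, b = 2 * y.tot := ⟨_, rfl⟩
  rw [← hb]
  have hcE : ∀ p < y.tot, Cp b 2 (fun _ M => evc M p) := fun p hp =>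
    Cp.cell (show 2 * p < b by omega)
  have hcO : ∀ p < y.tot, Cp b 2 (fun _ M => odc M p) := fun p hp =>
    Cp.cell (show 2 * p + 1 < b by omega)
  have hX : ∀ j < s + W, Cp b 2 (fun _ M => (y.unpack (evc M)).X j) := fun j hj =>
    (hcE (y.base + j) (by omega)).congr fun z M => (if_pos (by omega)).symm
  have hY : ∀ j < s + W, Cp b 2 (fun _ M => (y.unpack (odc M)).X j) := fun j hj =>
    (hcO (y.base + j) (by omega)).congr fun z M => (if_pos (by omega)).symm
  -- the new memory
  obtain ⟨A, hA⟩ : ∃ A, A = s + (b + 1) * (2 + 20) := ⟨_, rfl⟩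
  have hV : ∀ j < s, Cp b A (fun z M => eval G z (y.unpack (evc M)).X j) := by
    intro j hj
    rw [hA]
    exact Cp.appTr (b := b) (t := 2) (Tr.pass hG) (by omega) (by omega)
      (X := fun _ M => (y.unpack (evc M)).X) (fun p hp => hX p (by omega)) hj
  -- numbers
  have hu : ∀ r < W, Cp b 2 (fun _ M => (y.unpack (evc M)).u.testBit r) := by
    intro r hr
    refine (hcE (2 * y.W + 3 + y.ke + r) (by omega)).congr fun z M => ?_
    show _ = (num y.W fun i => evc M (2 * y.W + 3 + y.ke + i)).testBit r
    rw [testBit_num]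
    have : r < y.W := by omega
    simp [this]
  have hi : ∀ r < W, Cp b 2 (fun _ M => (y.unpack (evc M)).ix.testBit r) := by
    intro r hr
    refine (hcE (2 * r + 2) (by omega)).congr fun z M => ?_
    show _ = (num y.W fun i => evc M (2 * i + 2)).testBit r
    rw [testBit_num]
    have : r < y.W := by omega
    simp [this]
  have hsucc : ∀ r < W, Cp b (60 * W + 220)
      (fun _ M => ((y.unpack (evc M)).u + 1).testBit r) := by
    intro r hr
    have h1 := Cp.tbSucc (b := b) (s := 2) (d := y.W) (n := y.W)
      (g := fun i _ M => evc M (2 * y.W + 3 + y.ke + i)) (fun i hi => hcE _ (by omega))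
      le_rfl r (by omega)
    exact h1.mono le_rfl (by rw [hW]; omega)
  have hz : Cp b (W * 120 + 50) (fun _ M => decide ((y.unpack (evc M)).ix = 0)) := by
    have h1 := Cp.tbEq (b := b) (s := 2) (t := 8) (n := W) (A := fun _ M => (y.unpack (evc M)).ix)
      (B := fun _ _ => 0) (fun z M => by
        have := num_lt y.W (fun r => evc M (2 * r + 2))
        rw [hW] at this
        show (num y.W fun r => evc M (2 * r + 2)) < 2 ^ W
        rw [hW]
        exact this) (fun _ _ => Nat.two_pow_pos _) hi (fun i _ =>
        (Cp.const b false).congr fun z M => (Nat.zero_testBit i).symm)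
    exact h1.mono le_rfl (by ring_nf; omega)
  have hpop : Cp b (2 * A + 7) (fun z M => eval G z (y.unpack (evc M)).X 0 &&
      eval G z (y.unpack (evc M)).X 1) :=
    ((hV 0 (by omega)).and (hV 1 (by omega))).mono le_rfl (by omega)
  obtain ⟨N, hN⟩ : ∃ N, N = 10 * A + 200 * W + 1000 := ⟨_, rfl⟩
  have hmain : Cp b N (fun z M => y.pack (nxS G s W z (y.unpack (evc M))
      (y.unpack (odc M)).X) q) := by
    refine Lay.cp_pack (P := fun z M => nxS G s W z (y.unpack (evc M)) (y.unpack (odc M)).X)
      (by omega) ?_ ?_ ?_ ?_ ?_ ?_ ?_ ?_ q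
    · exact (hpop.and hz).mono le_rfl (by omega)
    · exact (hV 2 (by omega)).mono le_rfl (by omega)
    · exact (Cp.const b false).mono le_rfl (by omega)
    · intro r hr
      have hr' : r < W := by omega
      refine ((Cp.ite (hV 0 (by omega)) (Cp.ite (hV 1 (by omega)) (Cp.tbNum (d := W)
        (g := fun i _ M => (y.unpack (odc M)).X (s + i)) (fun i hi => hY _ (by omega)) r)
        (hsucc r hr')) (hi r hr')).congr fun z M => ?_).mono le_rfl (by omega)
      show _ = (if eval G z (y.unpack (evc M)).X 0 = true then
        if eval G z (y.unpack (evc M)).X 1 = true then _ else _ else _ : ℕ).testBit r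
      cases h4 : eval G z (y.unpack (evc M)).X 0 with
      | true =>
        rw [if_pos rfl, cond_true]
        cases h5 : eval G z (y.unpack (evc M)).X 1 with
        | true => rw [if_pos rfl, cond_true]
        | false => rw [if_neg Bool.false_ne_true, cond_false]
      | false => rw [if_neg Bool.false_ne_true, cond_false]
    · intro r hr
      omega
    · intro r hr
      exact (hsucc r (by omega)).mono le_rfl (by omega)
    · intro r _
      refine ((Cp.const b false).congr fun z M => ?_).mono le_rfl (by omega)
      exact (Nat.zero_testBit r).symm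
    · intro j hj
      by_cases h1 : j < s
      · by_cases h2 : j = 2
        · refine ((Cp.ite hpop (hY 2 (by omega)) (hV 2 (by omega))).congr fun z M => ?_).mono
            le_rfl (by omega)
          show _ = sX s W _ _ j
          rw [sX_lt h1, h2]
          cases h4 : eval G z (y.unpack (evc M)).X 0 with
          | true =>
            cases h5 : eval G z (y.unpack (evc M)).X 1 with
            | true =>
              rw [if_pos ⟨rfl, rfl⟩, Function.update_self]
              rfl
            | false =>
              rw [if_neg (by simp)]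
              rfl
          | false =>
            rw [if_neg (by simp)]
            rfl
        · refine ((hV j h1).congr fun z M => ?_).mono le_rfl (by omega)
          show _ = sX s W _ _ j
          rw [sX_lt h1]
          split_ifs
          · rw [Function.update_of_ne h2]
          · rfl
      · obtain ⟨i, rfl⟩ := Nat.exists_eq_add_of_le (Nat.not_lt.1 h1)
        refine ((hi i (by omega)).congr fun z M => ?_).mono le_rfl (by omega)
        exact (sX_Q (by omega)).symm
  refine hmain.mono le_rfl ?_
  unfold stackCp
  omega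

/-- size of the simulation -/
def stackSz (s W : ℕ) : ℕ := 40000 * (s + W + 10) ^ 2

/-- **Programs with an unlimited stack are simulated by history programs**, without loss of time;
the recalled state is the one in which the top of the stack was pushed. -/
theorem exists_stack_hist {G : List Ins} {s : ℕ} (hG : Sz s G) (hs : 3 ≤ s) (W : ℕ) :
    ∃ G' : List Ins, HSz (stackSz s W) W G' ∧ ∀ (z : Inp) (T : ℕ), T < 2 ^ W →
      (∀ t ≤ T, sta (eval G' z) W t 0 = sHalt (eval G z) t) ∧
      (∀ t ≤ T, sta (eval G' z) W t 2 = sAns (eval G z) t) ∧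
      (∀ t < T, rcl (eval G' z) W t = sP (eval G z) t) := by
  obtain ⟨G', h1, h2⟩ := exists_packed (y := slay s W) (N := stackCp s W)
    (nx := fun z => nxS G s W z) fun q _ => nxS_cp hG hs W q
  refine ⟨G', ?_, fun z T hT => ?_⟩
  · refine HSz.mono h1 ?_
    have ht : (slay s W).tot = 2 * W + 3 + 0 + W + W + (s + W) := rfl
    unfold stackSz stackCp
    rw [ht]
    obtain ⟨K, hK⟩ : ∃ K, K = s + W + 10 := ⟨_, rfl⟩
    rw [← hK]
    have h3 : 2 * (2 * W + 3 + 0 + W + W + (s + W)) ≤ 10 * K := by omega
    have h4 : 10 ≤ K := by omega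
    calc 2 * (2 * W + 3 + 0 + W + W + (s + W)) * (3000 * K + 5) + 2
        ≤ 10 * K * (3000 * K + K) + 2 := by
          exact Nat.add_le_add (Nat.mul_le_mul h3 (by omega)) le_rfl
      _ ≤ 40000 * K ^ 2 := by nlinarith
  · obtain ⟨p, hp⟩ := exists_isRun (nxS G s W z)
    have hrun := nxS_run hG hs z hT (hp T)
    obtain ⟨h3, h4, h5, h6⟩ := h2 z p T (hp T) fun t ht => by
      rw [hrun t ht.le]
      exact sst_ok (by omega)
    refine ⟨fun t ht => ?_, fun t ht => ?_, fun t ht => ?_⟩
    · have h7 : (p t).halt = sHalt (eval G z) t := by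
        rw [hrun t ht]
        rfl
      exact (h4 t ht).trans h7
    · have h7 : (p t).ans = sAns (eval G z) t := by
        rw [hrun t ht]
        rfl
      exact (h5 t ht).trans h7
    · have h7 := h6 t ht
      have h8 : (p t).ix = sP (eval G z) t := by rw [hrun t ht.le]; rfl
      exact h7.trans h8

/-- **Stack programs are contained in the model of `SepDecides`**, with the exponent `0` and the
constant `4`: a program with an unlimited stack which decides `P` within `T` steps gives a history
program which decides `P` within `T` passes; every set of states of its computations has a balanced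
separator of at most four states. -/
theorem Decides.sepDecides {G : List Ins} {s : ℕ} (hG : Sz s G) (hs : 3 ≤ s) {B T W : ℕ}
    (hT : T < 2 ^ W) {P : Inp → Prop} (h : Decides G B T P) {γ : ℝ} (hγ : 0 ≤ γ) :
    ∃ G' : List Ins, HSz (stackSz s W) W G' ∧ SepDecides G' W B T γ 4 P := by
  obtain ⟨G', h1, h2⟩ := exists_stack_hist hG hs W
  refine ⟨G', h1, fun z hz => ?_⟩
  obtain ⟨b, hb, hP⟩ := h z hz
  obtain ⟨N, hN0, hNT, hNh, hNn, hNa⟩ := run_sconf (eval G z) T 0 b hb
  obtain ⟨h3, h4, h5⟩ := h2 z N (by omega)
  refine ⟨N, by omega, ⟨?_, fun n hn => ?_⟩, ?_, ?_⟩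
  · rw [h3 N le_rfl, hNh]
  · rw [h3 n hn.le]
    rcases Nat.eq_zero_or_pos n with hn0 | hn0
    · rw [hn0]
      rfl
    · exact hNn n hn0 hn
  · rw [h4 N le_rfl, hNa]
    exact hP
  · exact ((((sP_stackPtr (eval G z)).tw N).hsep hγ).congr fun t ht => (h5 t ht).symm)

end Pool.Agent.NUM
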