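import Pool.Agent.NUM.TStmt

/-!
# The computation graphs of stack machines have tree-width at most 3

`P t` is the number of the state in which the top of the stack of the state `t` was pushed.
-/

set_option autoImplicit false

namespace Pool.Agent.NUM

open Finset

/-- pointers to the top of a stack: in each step the pointer is unchanged, or it becomes the number
of the new state (push), or it becomes the pointer before the push of the top (pop) -/
structure StackPtr (P : ℕ → ℕ) : Prop where
  zero : P 0 = 0
  step : ∀ t, P (t + 1) = P t ∨ P (t + 1) = t + 1 ∨ (P t ≠ 0 ∧ P (t + 1) = P (P t - 1))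

namespace StackPtr

variable {P : ℕ → ℕ}

theorem le (h : StackPtr P) (t : ℕ) : P t ≤ t := by
  induction t using Nat.strong_induction_on with
  | _ t ih =>
    cases t with
    | zero => rw [h.zero]
    | succ t =>
      rcases h.step t with h1 | h1 | ⟨h1, h2⟩
      · have := ih t (by omega)
        omega
      · omega
      · have h3 := ih t (by omega)
        have h4 := ih (P t - 1) (by omega)
        omega

/-- since the push of the top nothing below it was on top -/
theorem ge (h : StackPtr P) (t : ℕ) : ∀ u, P t ≤ u → u ≤ t → P t ≤ P u := by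
  induction t using Nat.strong_induction_on with
  | _ t ih =>
    intro u h1 h2
    cases t with
    | zero =>
      have : u = 0 := by omega
      rw [this]
    | succ t =>
      rcases Nat.lt_or_ge t u with h3 | h3
      · have : u = t + 1 := by omega
        rw [this]
      rcases h.step t with h4 | h4 | ⟨h4, h5⟩
      · rw [h4] at h1 ⊢
        exact ih t (by omega) u h1 h3
      · omega
      · have h6 := h.le t
        rcases Nat.lt_or_ge u (P t) with h7 | h7
        · rw [h5] at h1 ⊢
          exact ih (P t - 1) (by omega) u h1 (by omega)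
        · have h8 := ih t (by omega) u h7 h3
          have h9 := h.le (P t - 1)
          omega

theorem fix (h : StackPtr P) (t : ℕ) : P (P t) = P t :=
  le_antisymm (h.le _) (h.ge t (P t) le_rfl (h.le t))

/-- the return from a push -/
theorem ret (h : StackPtr P) {s R : ℕ} (hR : s + 1 < R)
    (h1 : P R < s + 1) (h2 : ∀ t, s + 1 ≤ t → t < R → s + 1 ≤ P t) :
    P (R - 1) = s + 1 ∧ P R = P s := by
  obtain ⟨r, rfl⟩ : ∃ r, R = r + 1 := ⟨R - 1, by omega⟩
  rw [Nat.add_sub_cancel]
  have h3 := h2 r (by omega) (by omega)
  have h4 := h.le r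
  rcases h.step r with h5 | h5 | ⟨h5, h6⟩
  · omega
  · omega
  · rcases Nat.lt_or_ge (s + 1) (P r) with h7 | h7
    · have := h2 (P r - 1) (by omega) (by omega)
      omega
    · have h8 : P r = s + 1 := by omega
      refine ⟨h8, ?_⟩
      rw [h6, h8, Nat.add_sub_cancel]

open Classical in
/-- the next node towards the root -/
noncomputable def up (P : ℕ → ℕ) (N s : ℕ) : ℕ :=
  if h : P (s + 1) = s + 1 ∧ ∃ R, s + 1 < R ∧ P R < s + 1 ∧ R ≤ N + 1 then
    Nat.find h.2 - 1 else s + 1

/-- the bag of the pass `s` -/
def bg (P : ℕ → ℕ) (s : ℕ) : Finset ℕ := {s, s + 1, P s, P (s + 1)}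

theorem mem_bg {s v : ℕ} : v ∈ bg P s ↔ v = s ∨ v = s + 1 ∨ v = P s ∨ v = P (s + 1) := by
  unfold bg
  simp only [mem_insert, mem_singleton]

theorem up_spec (h : StackPtr P) {N s : ℕ} (hs : s < N) : s < up P N s ∧ up P N s ≤ N ∧
    ∀ v ∈ bg P s, ∀ s', s < s' → s' ≤ N → v ∈ bg P s' → v ∈ bg P (up P N s) := by
  classical
  have hle := h.le s
  by_cases hc : P (s + 1) = s + 1 ∧ ∃ R, s + 1 < R ∧ P R < s + 1 ∧ R ≤ N + 1
  · have hup : up P N s = Nat.find hc.2 - 1 := by
      unfold up
      rw [dif_pos hc]
    obtain ⟨R, hR⟩ : ∃ R, R = Nat.find hc.2 := ⟨_, rfl⟩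
    rw [← hR] at hup
    obtain ⟨h1, h2, h3⟩ : s + 1 < R ∧ P R < s + 1 ∧ R ≤ N + 1 := by
      rw [hR]
      exact Nat.find_spec hc.2
    have hmin : ∀ t, s + 1 ≤ t → t < R → s + 1 ≤ P t := by
      intro t ht htR
      rcases Nat.lt_or_ge (s + 1) t with h4 | h4
      · by_contra h5
        rw [hR] at htR
        exact Nat.find_min hc.2 htR ⟨h4, by omega, by omega⟩
      · have : t = s + 1 := by omega
        rw [this, hc.1]
    obtain ⟨h4, h5⟩ := h.ret h1 h2 hmin
    rw [hup]
    refine ⟨by omega, by omega, fun v hv s' hs' hs'N hv' => ?_⟩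
    rw [mem_bg, Nat.sub_add_cancel (by omega : 1 ≤ R), h4, h5]
    rw [mem_bg] at hv hv'
    rcases hv with hv | hv | hv | hv
    · -- `v = s`
      have hfix : P s = s := by
        rcases hv' with h6 | h6 | h6 | h6
        · omega
        · omega
        · rw [← hv, h6]
          exact h.fix _
        · rw [← hv, h6]
          exact h.fix _
      right; right; right
      rw [hfix, hv]
    · exact Or.inr (Or.inr (Or.inl hv))
    · exact Or.inr (Or.inr (Or.inr hv))
    · exact Or.inr (Or.inr (Or.inl (hv.trans hc.1)))
  · have hup : up P N s = s + 1 := by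
      unfold up
      rw [dif_neg hc]
    rw [hup]
    refine ⟨by omega, by omega, fun v hv s' hs' hs'N hv' => ?_⟩
    rw [mem_bg] at hv hv' ⊢
    -- the old top is a top later
    have key : v ≤ s → P s = v → v = s + 1 ∨ v = s + 1 + 1 ∨ v = P (s + 1) ∨ v = P (s + 1 + 1) := by
      intro hvs hPv
      have hlater : ∃ t, s + 1 ≤ t ∧ t ≤ N + 1 ∧ P t = v := by
        rcases hv' with h6 | h6 | h6 | h6
        · omega
        · omega
        · exact ⟨s', by omega, by omega, h6.symm⟩
        · exact ⟨s' + 1, by omega, by omega, h6.symm⟩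
      obtain ⟨t, ht1, ht2, ht3⟩ := hlater
      rcases h.step s with h7 | h7 | ⟨h7, h8⟩
      · right; right; left
        rw [h7, hPv]
      · exfalso
        apply hc
        refine ⟨h7, t, ?_, by omega, ht2⟩
        rcases Nat.lt_or_ge (s + 1) t with h9 | h9
        · exact h9
        · have : t = s + 1 := by omega
          rw [this] at ht3
          omega
      · exfalso
        have h9 := h.ge t (s + 1) (by omega) ht1
        have h10 := h.le (P s - 1)
        omega
    rcases hv with hv | hv | hv | hv
    · have hfix : P s = s := by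
        rcases hv' with h6 | h6 | h6 | h6
        · omega
        · omega
        · rw [← hv, h6]
          exact h.fix _
        · rw [← hv, h6]
          exact h.fix _
      exact key (by omega) (by rw [hfix, hv])
    · exact Or.inl hv
    · exact key (by omega) hv.symm
    · exact Or.inr (Or.inr (Or.inl hv))

/-- **The computation graphs of stack machines have tree-width at most 3.** -/
theorem tw (h : StackPtr P) (N : ℕ) : TWle N P 3 := by
  classical
  refine ⟨N + 1, fun i => N - up P N (N - i), fun i => bg P (N - i), ?_, ?_, ?_, ?_, ?_, ?_⟩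
  · intro i h1 h2
    have h3 := h.up_spec (N := N) (s := N - i) (by omega)
    show N - up P N (N - i) < i
    omega
  · intro i _
    show (bg P (N - i)).card ≤ 4
    unfold bg
    exact card_le_four
  · intro t ht
    refine ⟨N - t, by omega, ?_⟩
    rw [mem_bg]
    left
    omega
  · intro t ht
    refine ⟨N - t, by omega, ?_⟩
    show t ∈ bg P (N - (N - t)) ∧ t + 1 ∈ bg P (N - (N - t))
    rw [show N - (N - t) = t by omega, mem_bg, mem_bg]
    exact ⟨Or.inl rfl, Or.inr (Or.inl rfl)⟩
  · intro t ht _
    refine ⟨N - t, by omega, ?_⟩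
    show P t ∈ bg P (N - (N - t)) ∧ t + 1 ∈ bg P (N - (N - t))
    rw [show N - (N - t) = t by omega, mem_bg, mem_bg]
    exact ⟨Or.inr (Or.inr (Or.inl rfl)), Or.inr (Or.inl rfl)⟩
  · intro x i j hi hj hxi hxj hi' hj'
    by_contra hne
    -- a node which is not the last one with `x` is not topmost
    have hmain : ∀ i j, i < N + 1 → j < i → x ∈ bg P (N - i) → x ∈ bg P (N - j) →
        (i = 0 ∨ x ∉ bg P (N - (N - up P N (N - i)))) → False := by
      intro i j hi hji hxi hxj hi'
      have h3 := h.up_spec (N := N) (s := N - i) (by omega)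
      rcases hi' with h4 | h4
      · omega
      · apply h4
        rw [show N - (N - up P N (N - i)) = up P N (N - i) by omega]
        exact h3.2.2 x hxi (N - j) (by omega) (by omega) hxj
    rcases Nat.lt_or_gt_of_ne hne with h1 | h1
    · exact hmain j i hj h1 hxj hxi hj'
    · exact hmain i j hi h1 hxi hxj hi'

end StackPtr

end Pool.Agent.NUM
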