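import Pool.Agent.NUM.HGen

/-!
# Tree-width of the computation graph

The computation graph of the first `N` passes has the vertices `0, …, N` and the edges `{t, t + 1}`
and `{rc t, t + 1}` (if `rc t ≤ t`), `t < N`.
-/

set_option autoImplicit false

namespace Pool.Agent.NUM

/-- the computation graph has tree-width at most `k`: there is a tree with the nodes `0, …, m - 1`
(node `i > 0` is joined to `par i < i`) and there are bags with at most `k + 1` vertices, such that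
every vertex and every edge is in a bag, and the bags which contain a given vertex form a subtree
(it has at most one topmost node) -/
def TWle (N : ℕ) (rc : ℕ → ℕ) (k : ℕ) : Prop :=
  ∃ (m : ℕ) (par : ℕ → ℕ) (bag : ℕ → Finset ℕ), (∀ i, 0 < i → i < m → par i < i) ∧
    (∀ i < m, (bag i).card ≤ k + 1) ∧ (∀ t ≤ N, ∃ i < m, t ∈ bag i) ∧
    (∀ t < N, ∃ i < m, t ∈ bag i ∧ t + 1 ∈ bag i) ∧
    (∀ t < N, rc t ≤ t → ∃ i < m, rc t ∈ bag i ∧ t + 1 ∈ bag i) ∧
    ∀ x i j, i < m → j < m → x ∈ bag i → x ∈ bag j → (i = 0 ∨ x ∉ bag (par i)) →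
      (j = 0 ∨ x ∉ bag (par j)) → i = j

/-- climbing from a node of a subtree to its topmost node `r` -/
theorem tw_climb {m : ℕ} {par : ℕ → ℕ} (hpar : ∀ i, 0 < i → i < m → par i < i)
    {S : ℕ → Prop} (hS : ∀ i j, i < m → j < m → S i → S j → (i = 0 ∨ ¬ S (par i)) →
      (j = 0 ∨ ¬ S (par j)) → i = j)
    {r : ℕ} (hr : r < m) (hSr : S r) (htop : r = 0 ∨ ¬ S (par r)) :
    ∀ p, p < m → S p → ∃ n, par^[n] p = r ∧ ∀ l, l ≤ n → par^[l] p < m ∧ S (par^[l] p) ∧
      (l < n → 0 < par^[l] p) := by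
  intro p
  induction p using Nat.strong_induction_on with
  | _ p ih =>
    intro hp hSp
    by_cases htp : p = 0 ∨ ¬ S (par p)
    · refine ⟨0, hS p r hp hr hSp hSr htp htop, fun l hl => ?_⟩
      obtain rfl : l = 0 := by omega
      exact ⟨hp, hSp, fun h => by omega⟩
    · push Not at htp
      obtain ⟨h0, h1⟩ := htp
      have h2 := hpar p (by omega) hp
      obtain ⟨n, hn, hn'⟩ := ih (par p) h2 (by omega) h1
      refine ⟨n + 1, by rw [Function.iterate_succ_apply]; exact hn, fun l hl => ?_⟩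
      cases l with
      | zero => exact ⟨hp, hSp, fun _ => by show 0 < p; omega⟩
      | succ l =>
        rw [Function.iterate_succ_apply]
        obtain ⟨g1, g2, g3⟩ := hn' l (by omega)
        exact ⟨g1, g2, fun h => g3 (by omega)⟩

/-- a subtree has a topmost node -/
theorem tw_top {m : ℕ} {par : ℕ → ℕ} (hpar : ∀ i, 0 < i → i < m → par i < i) {S : ℕ → Prop} :
    ∀ p, p < m → S p → ∃ r, r < m ∧ S r ∧ (r = 0 ∨ ¬ S (par r)) := by
  intro p
  induction p using Nat.strong_induction_on with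
  | _ p ih =>
    intro hp hSp
    by_cases htp : p = 0 ∨ ¬ S (par p)
    · exact ⟨p, hp, hSp, htp⟩
    · push Not at htp
      have h2 := hpar p (by omega) hp
      exact ih (par p) h2 (by omega) htp.2

/-- the union of subtrees which meet a given one is a subtree -/
theorem tw_union {m : ℕ} {par : ℕ → ℕ} (hpar : ∀ i, 0 < i → i < m → par i < i)
    {F : ℕ → ℕ → Prop} (hF : ∀ y i j, i < m → j < m → F y i → F y j → (i = 0 ∨ ¬ F y (par i)) →
      (j = 0 ∨ ¬ F y (par j)) → i = j)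
    {x : ℕ} {Y : ℕ → Prop} (hY : ∀ y, Y y → ∃ p, p < m ∧ F x p ∧ F y p) (hx : ∃ p, p < m ∧ F x p)
    {i j : ℕ} (hi : i < m) (hj : j < m) (hSi : F x i ∨ ∃ y, Y y ∧ F y i)
    (hSj : F x j ∨ ∃ y, Y y ∧ F y j)
    (hti : i = 0 ∨ ¬ (F x (par i) ∨ ∃ y, Y y ∧ F y (par i)))
    (htj : j = 0 ∨ ¬ (F x (par j) ∨ ∃ y, Y y ∧ F y (par j))) : i = j := by
  obtain ⟨p0, hp0, hFp0⟩ := hx
  obtain ⟨r, hr, hFr, hrt⟩ := tw_top hpar (S := F x) p0 hp0 hFp0
  -- every topmost node of the union is above `r`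
  have key : ∀ i, i < m → (F x i ∨ ∃ y, Y y ∧ F y i) →
      (i = 0 ∨ ¬ (F x (par i) ∨ ∃ y, Y y ∧ F y (par i))) →
      ∃ n, par^[n] r = i ∧ ∀ l, l < n → 0 < par^[l] r ∧
        (F x (par^[l + 1] r) ∨ ∃ y, Y y ∧ F y (par^[l + 1] r)) := by
    intro i hi hSi hti
    by_cases hxi : F x i
    · have : i = r := hF x i r hi hr hxi hFr (hti.imp_right fun h h' => h (Or.inl h')) hrt
      exact ⟨0, this.symm, fun l hl => by omega⟩
    · rcases hSi with h | ⟨y, hy, hyi⟩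
      · exact absurd h hxi
      obtain ⟨p, hp, hxp, hyp⟩ := hY y hy
      have htiy : i = 0 ∨ ¬ F y (par i) := hti.imp_right fun h h' => h (Or.inr ⟨y, hy, h'⟩)
      obtain ⟨n1, hn1, hn1'⟩ := tw_climb hpar (hF x) hr hFr hrt p hp hxp
      obtain ⟨n2, hn2, hn2'⟩ := tw_climb hpar (hF y) hi hyi htiy p hp hyp
      rcases Nat.lt_or_ge n1 n2 with h | h
      · obtain ⟨k, rfl⟩ : ∃ k, n2 = n1 + k := ⟨n2 - n1, by omega⟩
        have e : ∀ l, par^[l] r = par^[n1 + l] p := by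
          intro l
          rw [Nat.add_comm, Function.iterate_add_apply, hn1]
        refine ⟨k, by rw [e]; exact hn2, fun l hl => ⟨?_, ?_⟩⟩
        · rw [e]
          exact (hn2' (n1 + l) (by omega)).2.2 (by omega)
        · rw [e]
          exact Or.inr ⟨y, hy, (hn2' (n1 + (l + 1)) (by omega)).2.1⟩
      · -- `i` is in the subtree of `x`
        exfalso
        have := (hn1' n2 h).2.1
        rw [hn2] at this
        exact hxi this
  obtain ⟨n, hn, hn'⟩ := key i hi hSi hti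
  obtain ⟨n', hn1, hn1'⟩ := key j hj hSj htj
  have fin : ∀ (i j n n' : ℕ), (i = 0 ∨ ¬ (F x (par i) ∨ ∃ y, Y y ∧ F y (par i))) →
      par^[n] r = i → (∀ l, l < n' → 0 < par^[l] r ∧
        (F x (par^[l + 1] r) ∨ ∃ y, Y y ∧ F y (par^[l + 1] r))) → n < n' → False := by
    intro i j n n' hti hn hn' h
    obtain ⟨h1, h2⟩ := hn' n h
    rw [Function.iterate_succ_apply', hn] at h2
    rw [hn] at h1
    rcases hti with h3 | h3
    · omega
    · exact h3 h2
  rcases Nat.lt_trichotomy n n' with h | h | h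
  · exact (fin i j n n' hti hn hn1' h).elim
  · rw [← hn, ← hn1, h]
  · exact (fin j i n' n htj hn1 hn' h).elim

theorem TWle.treeDec {N k : ℕ} {rc : ℕ → ℕ} (h : TWle N rc k) :
    Nonempty (TreeDec N rc (3 * (k + 1))) := by
  classical
  obtain ⟨m, par, bag, h1, h2, h3, h4, h5, h6⟩ := h
  obtain ⟨par', hpar'⟩ : ∃ par' : ℕ → ℕ, par' = fun i => par i := ⟨_, rfl⟩
  obtain ⟨B, hB⟩ : ∃ B : ℕ → Finset ℕ, B = fun i =>
      bag i ∪ ((bag i).image (fun y => y - 1) ∪ (bag i).image (fun y => rc (y - 1))) := ⟨_, rfl⟩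
  -- the extended bags
  obtain ⟨C, hC⟩ : ∃ C : ℕ → Finset ℕ, C = fun i =>
      (B i).filter fun x => x ∈ bag i ∨ ∃ t, t < N ∧ t + 1 ∈ bag i ∧
        (x = t ∨ (rc t ≤ t ∧ x = rc t)) := ⟨_, rfl⟩
  have memC : ∀ i x, x ∈ C i ↔ (x ∈ bag i ∨ ∃ t, t < N ∧ t + 1 ∈ bag i ∧
        (x = t ∨ (rc t ≤ t ∧ x = rc t))) := by
    intro i x
    rw [hC]
    simp only [Finset.mem_filter, hB, Finset.mem_union, Finset.mem_image]
    constructor
    · exact fun h => h.2
    · intro h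
      refine ⟨?_, h⟩
      rcases h with h | ⟨t, -, ht, h | ⟨-, h⟩⟩
      · exact Or.inl h
      · exact Or.inr (Or.inl ⟨t + 1, ht, by simp [h]⟩)
      · exact Or.inr (Or.inr ⟨t + 1, ht, by simp [h]⟩)
  refine ⟨⟨m, par, C, h1, fun i hi => ?_, fun t ht => ?_, fun t ht => ?_, fun x i j hi hj hxi hxj
    hti htj => ?_⟩⟩
  · have g1 : (C i).card ≤ (B i).card := by
      rw [hC]
      exact Finset.card_filter_le _ _
    have g2 : (B i).card ≤ (bag i).card + ((bag i).card + (bag i).card) := by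
      rw [hB]
      refine (Finset.card_union_le _ _).trans (Nat.add_le_add_left ?_ _)
      refine (Finset.card_union_le _ _).trans (Nat.add_le_add ?_ ?_)
      · exact Finset.card_image_le
      · exact Finset.card_image_le
    have := h2 i hi
    omega
  · obtain ⟨i, hi, hti⟩ := h3 t ht
    exact ⟨i, hi, (memC i t).2 (Or.inl hti)⟩
  · obtain ⟨i, hi, hti⟩ := h3 (t + 1) ht
    refine ⟨i, hi, (memC i t).2 (Or.inr ⟨t, ht, hti, Or.inl rfl⟩), (memC i _).2 (Or.inl hti),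
      fun hrc => (memC i _).2 (Or.inr ⟨t, ht, hti, Or.inr ⟨hrc, rfl⟩⟩)⟩
  · have hF : ∀ y i j, i < m → j < m → y ∈ bag i → y ∈ bag j → (i = 0 ∨ ¬ y ∈ bag (par i)) →
        (j = 0 ∨ ¬ y ∈ bag (par j)) → i = j := h6
    have hconv : ∀ i, x ∈ C i ↔ (x ∈ bag i ∨ ∃ y, (∃ t, t < N ∧ y = t + 1 ∧
        (x = t ∨ (rc t ≤ t ∧ x = rc t))) ∧ y ∈ bag i) := by
      intro i
      rw [memC]
      constructor
      · rintro (h | ⟨t, h7, h8, h9⟩)
        · exact Or.inl h
        · exact Or.inr ⟨t + 1, ⟨t, h7, rfl, h9⟩, h8⟩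
      · rintro (h | ⟨y, ⟨t, h7, rfl, h9⟩, h8⟩)
        · exact Or.inl h
        · exact Or.inr ⟨t, h7, h8, h9⟩
    have hxv : ∃ p, p < m ∧ x ∈ bag p := by
      rcases (memC i x).1 hxi with h | ⟨t, h7, h8, h9 | ⟨h9, h10⟩⟩
      · exact ⟨i, hi, h⟩
      · obtain ⟨p, hp, hxp, -⟩ := h4 t h7
        exact ⟨p, hp, by rw [h9]; exact hxp⟩
      · obtain ⟨p, hp, hxp, -⟩ := h5 t h7 h9
        exact ⟨p, hp, by rw [h10]; exact hxp⟩
    refine tw_union (F := fun y i => y ∈ bag i) h1 hF (x := x)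
      (Y := fun y => ∃ t, t < N ∧ y = t + 1 ∧ (x = t ∨ (rc t ≤ t ∧ x = rc t)))
      ?_ hxv hi hj ((hconv i).1 hxi) ((hconv j).1 hxj) ?_ ?_
    · rintro y ⟨t, h7, rfl, h9 | ⟨h9, h10⟩⟩
      · obtain ⟨p, hp, hxp, hyp⟩ := h4 t h7
        exact ⟨p, hp, by rw [h9]; exact hxp, hyp⟩
      · obtain ⟨p, hp, hxp, hyp⟩ := h5 t h7 h9
        exact ⟨p, hp, by rw [h10]; exact hxp, hyp⟩
    · exact hti.imp_right fun h h' => h ((hconv (par i)).2 h')
    · exact htj.imp_right fun h h' => h ((hconv (par j)).2 h')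

end Pool.Agent.NUM
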