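import Pool.Agent.NUM.Core

/-!
# One-tape machines

A machine has a memory, a tape which is infinite in both directions and whose cells contain words,
and a head.  In each step a straight-line program (with random access to the input) gets the even
cells of the memory and, in the odd cells, the word in the scanned cell of the tape.
-/

set_option autoImplicit false

namespace Pool.Agent.NUM

/-- configurations: memory, tape, position of the head -/
structure TConf where
  mem : Mem
  tape : ℤ → Mem
  pos : ℤ

/-- the even cells of `V` and the odd cells of `T` -/
def mix (V T : Mem) : Mem := fun i => if i % 2 = 0 then V i else T i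

/-- the move of the head: to the right if cell `4` is `true`, otherwise to the left if cell `6` is
`true` -/
def mv (V : Mem) : ℤ := if V 4 = true then 1 else if V 6 = true then -1 else 0

/-- one step: the result is the new memory, its odd cells are written into the scanned cell -/
def TConf.step (f : Mem → Mem) (c : TConf) : TConf where
  mem := f (mix c.mem (c.tape c.pos))
  tape := Function.update c.tape c.pos (f (mix c.mem (c.tape c.pos)))
  pos := c.pos + mv (f (mix c.mem (c.tape c.pos)))

/-- the configuration after `n` steps; at the beginning all cells are `false` -/
def tconf (f : Mem → Mem) : ℕ → TConf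
  | 0 => ⟨zeroMem, fun _ => zeroMem, 0⟩
  | n + 1 => (tconf f n).step f

/-- the computation halts after exactly `N` steps: cell `0` is `true` for the first time -/
def THaltsAt (f : Mem → Mem) (N : ℕ) : Prop :=
  (tconf f N).mem 0 = true ∧ ∀ n < N, (tconf f n).mem 0 = false

/-- the computation halts after at most `T` steps with the answer `b` -/
def TAns (f : Mem → Mem) (T : ℕ) (b : Bool) : Prop :=
  ∃ N ≤ T, THaltsAt f N ∧ (tconf f N).mem 2 = b

/-- the one-tape machine with the program `G` decides `P` for all inputs with addresses of length at
most `B` within `T` steps -/
def TDecides (G : List Ins) (B T : ℕ) (P : Inp → Prop) : Prop :=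
  ∀ z : Inp, Supp B z → ∃ b : Bool, TAns (eval G z) T b ∧ (b = true ↔ P z)

end Pool.Agent.NUM
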