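import Pool.Agent.NUM.TapeHSep

/-!
# One-tape machines: from the theorem on hereditary separators
-/

set_option autoImplicit false

namespace Pool.Agent.NUM

/-- `16000 (2 s + W + 24) ^ 2` is small -/
theorem tape_size_room {c δ : ℝ} (hδ : 0 < δ) : ∃ m₁ : ℕ, ∀ m : ℕ, m₁ ≤ m → ∀ s W : ℕ,
    (s : ℝ) ≤ 2 ^ (δ / 4 * m) → (W : ℝ) ≤ c * m + 1 →
    ((tapeSz (s + 7) W : ℕ) : ℝ) ≤ 2 ^ (δ * m) := by
  -- `x + 60 + |c| m ≤ 2 ^ (δ/4 m) (…)`
  have h1 : ∃ m₁ : ℕ, ∀ m : ℕ, m₁ ≤ m → (|c| + 100) * m + 1000 ≤ (2 : ℝ) ^ (δ / 4 * m) := by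
    obtain ⟨m₁, hm₁⟩ := exists_nat_ge (max 1 ((|c| + 1100) * (64 / δ ^ 2)))
    refine ⟨m₁, fun m hm => ?_⟩
    have hmm : (m₁ : ℝ) ≤ m := by exact_mod_cast hm
    have h2 : (1 : ℝ) ≤ m := (le_max_left _ _).trans (hm₁.trans hmm)
    have h3 : (|c| + 1100) * (64 / δ ^ 2) ≤ m := (le_max_right _ _).trans (hm₁.trans hmm)
    have hx0 : 0 ≤ δ / 4 * m * (1 / 2) := by positivity
    have h4 : (δ / 4 * m * (1 / 2)) ^ 2 ≤ (2 : ℝ) ^ (δ / 4 * m) := by
      have e1 : (2 : ℝ) ^ (δ / 4 * m) = ((2 : ℝ) ^ (δ / 4 * m * (1 / 2))) ^ 2 := by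
        rw [← Real.rpow_natCast, ← Real.rpow_mul (by norm_num)]
        congr 1
        push_cast
        ring
      rw [e1]
      refine pow_le_pow_left₀ hx0 ?_ 2
      have := Real.add_one_le_exp (δ / 4 * m * (1 / 2) * Real.log 2)
      have e2 : (2 : ℝ) ^ (δ / 4 * m * (1 / 2)) = Real.exp (δ / 4 * m * (1 / 2) * Real.log 2) := by
        rw [Real.rpow_def_of_pos (by norm_num)]
        congr 1
        ring
      -- use `2 ^ x ≥ x`
      have e3 : δ / 4 * m * (1 / 2) ≤ (2 : ℝ) ^ (δ / 4 * m * (1 / 2)) := by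
        have := Real.rpow_natCast
        have h5 : (1 : ℝ) + (δ / 4 * m * (1 / 2)) * 1 ≤ (1 + 1) ^ (δ / 4 * m * (1 / 2)) ∨
            δ / 4 * m * (1 / 2) < 1 := by
          rcases lt_or_ge (δ / 4 * m * (1 / 2)) 1 with h | h
          · exact Or.inr h
          · left
            have := one_add_mul_self_le_rpow_one_add (s := 1) (by norm_num) h
            linarith
        rcases h5 with h5 | h5
        · norm_num at h5
          linarith
        · have h6 : (1 : ℝ) ≤ (2 : ℝ) ^ (δ / 4 * m * (1 / 2)) :=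
            Real.one_le_rpow (by norm_num) hx0
          linarith
      exact e3
    have h5 : (|c| + 100) * m + 1000 ≤ (|c| + 1100) * m := by nlinarith
    have h6 : (|c| + 1100) * m ≤ (δ / 4 * m * (1 / 2)) ^ 2 := by
      have e1 : (δ / 4 * m * (1 / 2)) ^ 2 = m * (m * (δ ^ 2 / 64)) := by ring
      rw [e1, mul_comm]
      refine mul_le_mul_of_nonneg_left ?_ (by linarith)
      have e2 : (|c| + 1100) * (64 / δ ^ 2) * (δ ^ 2 / 64) = |c| + 1100 := by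
        field_simp
      rw [← e2]
      exact mul_le_mul_of_nonneg_right h3 (by positivity)
    linarith
  obtain ⟨m₁, hm₁⟩ := h1
  refine ⟨m₁, fun m hm s W hs hW => ?_⟩
  have h2 := hm₁ m hm
  obtain ⟨x, hx⟩ : ∃ x : ℝ, x = (2 : ℝ) ^ (δ / 4 * m) := ⟨_, rfl⟩
  rw [← hx] at h2 hs
  have hm0 : (0 : ℝ) ≤ m := Nat.cast_nonneg _
  have hc0 : 0 ≤ |c| := abs_nonneg c
  have hcm : c * m ≤ |c| * m := mul_le_mul_of_nonneg_right (le_abs_self c) hm0
  have hx1000 : 1000 ≤ x := by nlinarith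
  have h3 : ((s : ℝ) + 7 + W + 10) ≤ 2 * x := by nlinarith
  have h4 : (2 : ℝ) ^ (δ * m) = x ^ 4 := by
    rw [hx, ← Real.rpow_natCast, ← Real.rpow_mul (by norm_num)]
    congr 1
    push_cast
    ring
  rw [h4]
  unfold tapeSz
  push_cast
  have h5 : ((s : ℝ) + 7 + W + 10) ^ 2 ≤ (2 * x) ^ 2 := by
    refine pow_le_pow_left₀ ?_ h3 2
    positivity
  have h6 : (16000 : ℝ) * (2 * x) ^ 2 ≤ x ^ 4 := by
    have : (64000 : ℝ) ≤ x ^ 2 := by nlinarith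
    have hx2 : 0 ≤ x ^ 2 := sq_nonneg x
    nlinarith
  nlinarith

/-- **One-tape machines**, from the lower bound for history programs with hereditary separators. -/
theorem tape_bound_of {c : ℝ} (hc : 0 ≤ c) {S : ℕ → Inp → Prop} {B : ℕ → ℕ}
    (h : ∃ δ : ℝ, 0 < δ ∧ ∀ m₀ : ℕ, ∃ m : ℕ, m₀ ≤ m ∧ ∀ (G : List Ins) (d s T : ℕ), HSz s d G →
      (s : ℝ) ≤ 2 ^ (δ * m) → (T : ℝ) ≤ 2 ^ (c * m) →
        ¬ ∀ z : Inp, Supp (B m) z → ∃ N ≤ T, HaltsAt (eval G z) d N ∧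
          (sta (eval G z) d N 2 = true ↔ S m z) ∧ HSep N (rcl (eval G z) d) (1 / 2) 4) :
    ∃ δ : ℝ, 0 < δ ∧ ∀ m₀ : ℕ, ∃ m : ℕ, m₀ ≤ m ∧ ∀ (G : List Ins) (s T : ℕ), Sz s G →
      (s : ℝ) ≤ 2 ^ (δ * m) → (T : ℝ) ≤ 2 ^ (c * m) → ¬ TDecides G (B m) T (S m) := by
  obtain ⟨δ, hδ, h⟩ := h
  obtain ⟨m₁, hm₁⟩ := tape_size_room (c := c) hδ
  refine ⟨δ / 4, by positivity, fun m₀ => ?_⟩
  obtain ⟨m, hm, h⟩ := h (max m₀ m₁)
  refine ⟨m, (le_max_left _ _).trans hm, fun G s T hG hs hT hD => ?_⟩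
  obtain ⟨G', h1, h2⟩ := exists_tape_hist_hsep (s := s + 7) (hG.mono (by omega)) (by omega)
    (Nat.size T)
  have hW : ((Nat.size T : ℕ) : ℝ) ≤ c * m + 1 := by
    rcases Nat.eq_zero_or_pos T with h0 | h0
    · subst h0
      have : 0 ≤ c * m := mul_nonneg hc (Nat.cast_nonneg _)
      simp
      linarith
    · have h3 : 2 ^ (Nat.size T - 1) ≤ T := by
        have := (Nat.lt_size (m := Nat.size T - 1) (n := T)).1
          (by have := Nat.size_pos.2 h0; omega)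
        exact this
      have h4 : (2 : ℝ) ^ ((Nat.size T - 1 : ℕ) : ℝ) ≤ 2 ^ (c * m) := by
        rw [Real.rpow_natCast]
        refine le_trans ?_ hT
        exact_mod_cast h3
      have h5 := (Real.rpow_le_rpow_left_iff (by norm_num : (1 : ℝ) < 2)).1 h4
      have h6 : 1 ≤ Nat.size T := Nat.size_pos.2 h0
      rw [Nat.cast_sub h6] at h5
      push_cast at h5
      linarith
  refine h G' (Nat.size T) (tapeSz (s + 7) (Nat.size T)) T h1
    (hm₁ m ((le_max_right _ _).trans hm) s _ hs hW) hT fun z hz => ?_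
  obtain ⟨b, ⟨N, hN, hH, hb⟩, hbS⟩ := hD z hz
  obtain ⟨h3, h4, h5⟩ := h2 z N (lt_of_le_of_lt hN (Nat.lt_size_self T)) hH
  refine ⟨N, hN, h3, ?_, h5⟩
  rw [h4, hb]
  exact hbS

end Pool.Agent.NUM
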