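import Pool.Agent.NUM.TapeSim
import Pool.Agent.NUM.HSepTape

/-!
# The computation graph of a one-tape machine has separators of square root size
-/

set_option autoImplicit false

namespace Pool.Agent.NUM

theorem tape_hsep (f : Mem → Mem) (N : ℕ) : HSep N (tprev f) (1 / 2) 4 := by
  refine hsep_oneTape (tpos f) (fun t _ => ?_) (fun t _ _ => ?_)
  · rcases tpos_step f t with h | h | h <;> rw [h]
    · simp
    · simp
    · rw [abs_le]; constructor <;> omega
  · by_cases h0 : tprev f t = 0
    · exact Or.inl h0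
    · exact Or.inr ⟨tlast_pos f h0, fun u hu hu' => tlast_none f hu hu'⟩

/-- **One-tape machines are simulated by history programs whose computation graphs have hereditary
separators with the exponent `1/2`.** -/
theorem exists_tape_hist_hsep {G : List Ins} {s : ℕ} (hG : Sz s G) (hs : 7 ≤ s) (W : ℕ) :
    ∃ G' : List Ins, HSz (tapeSz s W) W G' ∧ ∀ (z : Inp) (N : ℕ), N < 2 ^ W →
      THaltsAt (eval G z) N →
      HaltsAt (eval G' z) W N ∧ sta (eval G' z) W N 2 = (tconf (eval G z) N).mem 2 ∧
        HSep N (rcl (eval G' z) W) (1 / 2) 4 := by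
  obtain ⟨G', h1, h2⟩ := exists_tape_hist hG hs W
  refine ⟨G', h1, fun z N hN hH => ?_⟩
  obtain ⟨h3, h4, h5⟩ := h2 z N hN
  refine ⟨tape_haltsAt h3 hH, h4 N le_rfl, ?_⟩
  exact (tape_hsep (eval G z) N).congr fun t ht => (h5 t ht).symm

end Pool.Agent.NUM
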