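import Pool.Agent.NUM.TapeDefs

/-!
# One-tape machines: the tape as pointers to the last visits
-/

set_option autoImplicit false

namespace Pool.Agent.NUM

/-- the cell scanned in step `t` (`t ≥ 1`) -/
def tpos (f : Mem → Mem) : ℕ → ℤ
  | 0 => 0
  | t + 1 => tpos f t + mv (tconf f t).mem

/-- the last step `≤ t` in which the cell `x` was scanned, `0` if there is none -/
def tlast (f : Mem → Mem) : ℕ → ℤ → ℕ
  | 0, _ => 0
  | t + 1, x => if tpos f (t + 1) = x then t + 1 else tlast f t x

section

variable (f : Mem → Mem)

theorem mv_abs (V : Mem) : mv V = 0 ∨ mv V = 1 ∨ mv V = -1 := by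
  unfold mv
  split_ifs
  · exact Or.inr (Or.inl rfl)
  · exact Or.inr (Or.inr rfl)
  · exact Or.inl rfl

theorem tconf_pos (t : ℕ) : (tconf f t).pos = tpos f (t + 1) := by
  induction t with
  | zero => simp [tconf, tpos, mv, zeroMem]
  | succ t ih =>
    show (tconf f t).pos + mv (tconf f (t + 1)).mem = tpos f (t + 1) + mv (tconf f (t + 1)).mem
    rw [ih]

theorem tpos_one : tpos f 1 = 0 := by simp [tconf, tpos, mv, zeroMem]

theorem tlast_le (t : ℕ) (x : ℤ) : tlast f t x ≤ t := by
  induction t with
  | zero => exact le_rfl
  | succ t ih =>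
    unfold tlast
    split_ifs
    · exact le_rfl
    · omega

theorem tlast_pos {t : ℕ} {x : ℤ} (h : tlast f t x ≠ 0) : tpos f (tlast f t x) = x := by
  induction t with
  | zero => exact absurd rfl h
  | succ t ih =>
    unfold tlast at h ⊢
    split_ifs at h ⊢ with h1
    · exact h1
    · exact ih h

theorem tlast_none {t : ℕ} {x : ℤ} {u : ℕ} (h1 : tlast f t x < u) (h2 : u ≤ t) :
    tpos f u ≠ x := by
  induction t with
  | zero => omega
  | succ t ih =>
    unfold tlast at h1
    split_ifs at h1 with h3
    · omega
    · rcases Nat.lt_or_ge t u with h4 | h4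
      · obtain rfl : u = t + 1 := by omega
        exact h3
      · exact ih h1 h4

/-- no visits between `r` and `t` -/
theorem tlast_eq {r t : ℕ} (hrt : r ≤ t) {x : ℤ} (h : ∀ u, r < u → u ≤ t → tpos f u ≠ x) :
    tlast f t x = tlast f r x := by
  induction t with
  | zero =>
    obtain rfl : r = 0 := by omega
    rfl
  | succ t ih =>
    rcases Nat.lt_or_ge t r with h1 | h1
    · obtain rfl : r = t + 1 := by omega
      rfl
    · show (if tpos f (t + 1) = x then t + 1 else tlast f t x) = _
      rw [if_neg (h (t + 1) (by omega) le_rfl)]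
      exact ih h1 fun u hu hu' => h u hu (by omega)

/-- the memory is the tape content of the last visit -/
theorem tconf_tape (t : ℕ) (x : ℤ) : (tconf f t).tape x = (tconf f (tlast f t x)).mem := by
  induction t with
  | zero => rfl
  | succ t ih =>
    show Function.update (tconf f t).tape (tconf f t).pos (tconf f (t + 1)).mem x = _
    rw [tconf_pos]
    by_cases h : tpos f (t + 1) = x
    · subst h
      rw [Function.update_self]
      unfold tlast
      rw [if_pos rfl]
    · rw [Function.update_of_ne (Ne.symm h), ih]
      show _ = (tconf f (if tpos f (t + 1) = x then t + 1 else tlast f t x)).mem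
      rw [if_neg h]

/-- number of the state recalled in step `t + 1` -/
def tprev (t : ℕ) : ℕ := tlast f t (tpos f (t + 1))

theorem tconf_succ (t : ℕ) :
    (tconf f (t + 1)).mem = f (mix (tconf f t).mem (tconf f (tprev f t)).mem) := by
  show f (mix (tconf f t).mem ((tconf f t).tape (tconf f t).pos)) = _
  rw [tconf_tape, tconf_pos]
  rfl

theorem tlast_self {t : ℕ} : tlast f t (tpos f t) = t := by
  cases t with
  | zero => rfl
  | succ t =>
    unfold tlast
    rw [if_pos rfl]

/-- pointer to the last visit of the right (`e = 1`) or left (`e = -1`) neighbour -/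
def tnb (e : ℤ) (t : ℕ) : ℕ := if t = 0 then 0 else tlast f t (tpos f t + e)

theorem tprev_stay {t : ℕ} (h : mv (tconf f t).mem = 0) : tprev f t = t := by
  unfold tprev
  show tlast f t (tpos f t + mv (tconf f t).mem) = t
  rw [h, add_zero]
  exact tlast_self f

theorem tprev_move {t : ℕ} {e : ℤ} (h : mv (tconf f t).mem = e) (he : e ≠ 0) :
    tprev f t = tnb f e t := by
  have ht : t ≠ 0 := by
    rintro rfl
    rw [← h] at he
    exact he (by simp [tconf, mv, zeroMem])
  unfold tprev tnb
  rw [if_neg ht]
  show tlast f t (tpos f t + mv (tconf f t).mem) = _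
  rw [h]

theorem tpos_step (t : ℕ) : tpos f (t + 1) = tpos f t ∨ tpos f (t + 1) = tpos f t + 1 ∨
    tpos f (t + 1) = tpos f t - 1 := by
  show tpos f t + mv (tconf f t).mem = _ ∨ _
  rcases mv_abs (tconf f t).mem with h | h | h
  · left; show tpos f t + mv (tconf f t).mem = _; rw [h, add_zero]
  · right; left; show tpos f t + mv (tconf f t).mem = _; rw [h]
  · right; right; show tpos f t + mv (tconf f t).mem = _; rw [h]; ring

/-- the head does not jump over `y` (from below) -/
theorem tpos_lt {r t : ℕ} {y : ℤ} (ht : tpos f t < y) (h : ∀ u, r < u → u ≤ t → tpos f u ≠ y)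
    {u : ℕ} (hu : r < u) (hut : u ≤ t) : tpos f u < y := by
  obtain ⟨k, rfl⟩ := Nat.exists_eq_add_of_le hut
  clear hut
  induction k with
  | zero => exact ht
  | succ k ih =>
    refine ih ?_ fun v hv hv' => h v hv (by omega)
    have h1 := h (u + k) (by omega) (by omega)
    rcases tpos_step f (u + k) with h2 | h2 | h2
    · rw [show u + (k + 1) = u + k + 1 by ring] at ht; omega
    · rw [show u + (k + 1) = u + k + 1 by ring] at ht; omega
    · rw [show u + (k + 1) = u + k + 1 by ring] at ht; omega

/-- the head does not jump over `y` (from above) -/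
theorem tpos_gt {r t : ℕ} {y : ℤ} (ht : y < tpos f t) (h : ∀ u, r < u → u ≤ t → tpos f u ≠ y)
    {u : ℕ} (hu : r < u) (hut : u ≤ t) : y < tpos f u := by
  obtain ⟨k, rfl⟩ := Nat.exists_eq_add_of_le hut
  clear hut
  induction k with
  | zero => exact ht
  | succ k ih =>
    refine ih ?_ fun v hv hv' => h v hv (by omega)
    have h1 := h (u + k) (by omega) (by omega)
    rcases tpos_step f (u + k) with h2 | h2 | h2
    · rw [show u + (k + 1) = u + k + 1 by ring] at ht; omega
    · rw [show u + (k + 1) = u + k + 1 by ring] at ht; omega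
    · rw [show u + (k + 1) = u + k + 1 by ring] at ht; omega

/-- the pointers after a step: if the head has moved in the direction `-e`, the neighbour in
direction `e` was visited in the last step, otherwise the pointer is the one of the recalled state -/
theorem tnb_succ (t : ℕ) {e : ℤ} (he : e = 1 ∨ e = -1) :
    tnb f e (t + 1) = if mv (tconf f t).mem = -e then t else tnb f e (tprev f t) := by
  have hdef : tnb f e (t + 1) = tlast f (t + 1) (tpos f (t + 1) + e) := by
    unfold tnb
    rw [if_neg (by omega)]
  have hne : tpos f (t + 1) ≠ tpos f (t + 1) + e := by omega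
  have h1 : tlast f (t + 1) (tpos f (t + 1) + e) = tlast f t (tpos f (t + 1) + e) := by
    show (if tpos f (t + 1) = tpos f (t + 1) + e then t + 1 else _) = _
    rw [if_neg hne]
  rw [hdef, h1]
  have hstep : tpos f (t + 1) = tpos f t + mv (tconf f t).mem := rfl
  by_cases hm : mv (tconf f t).mem = -e
  · rw [if_pos hm]
    have : tpos f (t + 1) + e = tpos f t := by rw [hstep, hm]; ring
    rw [this]
    exact tlast_self f
  · rw [if_neg hm]
    by_cases hm0 : mv (tconf f t).mem = 0
    · rw [tprev_stay f hm0]
      have : tpos f (t + 1) = tpos f t := by rw [hstep, hm0, add_zero]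
      rw [this]
      rcases Nat.eq_zero_or_pos t with ht | ht
      · subst ht
        rfl
      · unfold tnb
        rw [if_neg (by omega)]
    · have hme : mv (tconf f t).mem = e := by
        rcases mv_abs (tconf f t).mem with h | h | h <;> rcases he with he | he <;> omega
      -- the recalled state
      have hr1 : tprev f t ≤ t := tlast_le f _ _
      have hnone : ∀ u, tprev f t < u → u ≤ t → tpos f u ≠ tpos f (t + 1) :=
        fun u hu hu' => tlast_none f hu hu'
      have hnone2 : ∀ u, tprev f t < u → u ≤ t → tpos f u ≠ tpos f (t + 1) + e := by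
        intro u hu hu'
        rcases he with he | he
        · have := tpos_lt f (r := tprev f t) (t := t) (y := tpos f (t + 1)) (by omega) hnone hu hu'
          omega
        · have := tpos_gt f (r := tprev f t) (t := t) (y := tpos f (t + 1)) (by omega) hnone hu hu'
          omega
      rw [tlast_eq f hr1 hnone2]
      unfold tnb
      by_cases h0 : tprev f t = 0
      · rw [if_pos h0, h0]
        rfl
      · rw [if_neg h0]
        have h3 : tpos f (tprev f t) = tpos f (t + 1) := tlast_pos f h0
        rw [h3]

theorem tnb_le (e : ℤ) (t : ℕ) : tnb f e t ≤ t := by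
  unfold tnb
  split_ifs
  · exact Nat.zero_le _
  · exact tlast_le f _ _

theorem tprev_le (t : ℕ) : tprev f t ≤ t := tlast_le f _ _

end

end Pool.Agent.NUM
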