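import Pool.Agent.NUM.TapeLast
import Pool.Agent.NUM.HNormCp

/-!
# One-tape machines are simulated by history programs
-/

set_option autoImplicit false

namespace Pool.Agent.NUM

/-- the layout: `s` cells of the memory, two pointers -/
def tlay (s W : ℕ) : Lay := ⟨W, 0, s + 2 * W⟩

/-- the bit vector of a state: memory, pointer to the right, pointer to the left -/
def tX (s W : ℕ) (V : Mem) (R L : ℕ) : ℕ → Bool := fun j =>
  if j < s then V j else if j < s + W then R.testBit (j - s)
  else if j < s + 2 * W then L.testBit (j - (s + W)) else false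

/-- the state number `m` -/
def tmk (s W m : ℕ) (V : Mem) (R L : ℕ) : PSt where
  halt := V 0
  ans := V 2
  fl := false
  ix := if mv V = 1 then R else if mv V = -1 then L else m
  e := 0
  u := m
  n := 0
  X := tX s W V R L

/-- one pass of the simulation -/
def nxT (G : List Ins) (s W : ℕ) (z : Inp) (p : PSt) (Y : ℕ → Bool) : PSt :=
  tmk s W (p.u + 1) (eval G z (mix p.X Y))
    (if mv p.X = -1 then p.u else num W fun i => Y (s + i))
    (if mv p.X = 1 then p.u else num W fun i => Y (s + W + i))

theorem mv_one_iff (V : Mem) : mv V = 1 ↔ V 4 = true := by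
  unfold mv
  split_ifs with h1 h2 <;> simp [h1]

theorem mv_neg_iff (V : Mem) : mv V = -1 ↔ V 4 = false ∧ V 6 = true := by
  unfold mv
  split_ifs with h1 h2 <;> simp_all

theorem mv_congr {V V' : Mem} (h4 : V 4 = V' 4) (h6 : V 6 = V' 6) : mv V = mv V' := by
  unfold mv
  rw [h4, h6]

theorem tX_lt {s W : ℕ} {V : Mem} {R L j : ℕ} (h : j < s) : tX s W V R L j = V j := if_pos h

theorem tX_R {s W : ℕ} {V : Mem} {R L i : ℕ} (h : i < W) :
    tX s W V R L (s + i) = R.testBit i := by
  unfold tX
  rw [if_neg (by omega), if_pos (by omega), Nat.add_sub_cancel_left]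

theorem tX_L {s W : ℕ} {V : Mem} {R L i : ℕ} (h : i < W) :
    tX s W V R L (s + W + i) = L.testBit i := by
  unfold tX
  rw [if_neg (by omega), if_neg (by omega), if_pos (by omega), Nat.add_sub_cancel_left]

theorem tmk_congr {s W m : ℕ} (hs : 7 ≤ s) {V V' : Mem} (h : Agr s V V') (R L : ℕ) :
    tmk s W m V R L = tmk s W m V' R L := by
  have hm : mv V = mv V' := mv_congr (h 4 (by omega)) (h 6 (by omega))
  unfold tmk
  rw [PSt.mk.injEq]
  refine ⟨h 0 (by omega), h 2 (by omega), rfl, by rw [hm], rfl, rfl, rfl, ?_⟩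
  funext j
  unfold tX
  by_cases hj : j < s
  · rw [if_pos hj, if_pos hj]
    exact h j hj
  · rw [if_neg hj, if_neg hj]

/-- the state of the simulation after `t` steps -/
def tst (f : Mem → Mem) (s W t : ℕ) : PSt :=
  tmk s W t (tconf f t).mem (tnb f 1 t) (tnb f (-1) t)

theorem tst_ix (f : Mem → Mem) (s W t : ℕ) : (tst f s W t).ix = tprev f t := by
  show (if mv (tconf f t).mem = 1 then tnb f 1 t else
    if mv (tconf f t).mem = -1 then tnb f (-1) t else t) = tprev f t
  rcases mv_abs (tconf f t).mem with h | h | h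
  · rw [if_neg (by omega), if_neg (by omega), tprev_stay f h]
  · rw [if_pos h, tprev_move f h (by norm_num)]
  · rw [if_neg (by omega), if_pos h, tprev_move f h (by norm_num)]

theorem tst_zero (f : Mem → Mem) (s W : ℕ) : tst f s W 0 = PSt.init := by
  have hm : mv (zeroMem) = 0 := by simp [mv, zeroMem]
  unfold tst tmk PSt.init
  rw [PSt.mk.injEq]
  refine ⟨rfl, rfl, rfl, ?_, rfl, rfl, rfl, ?_⟩
  · show (if mv zeroMem = 1 then _ else if mv zeroMem = -1 then _ else 0) = 0
    rw [hm]
    rfl
  · funext j
    show tX s W zeroMem 0 0 j = false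
    unfold tX zeroMem
    split_ifs
    · rfl
    · exact Nat.zero_testBit _
    · exact Nat.zero_testBit _
    · rfl

/-- one pass of the simulation on the right states -/
theorem nxT_step {G : List Ins} {s W : ℕ} (hG : Sz s G) (hs : 7 ≤ s) (z : Inp) {t : ℕ}
    (ht : t < 2 ^ W) :
    nxT G s W z (tst (eval G z) s W t) (tst (eval G z) s W (tprev (eval G z) t)).X =
      tst (eval G z) s W (t + 1) := by
  obtain ⟨f, hf⟩ : ∃ f, f = eval G z := ⟨_, rfl⟩
  rw [← hf]
  have hX : ∀ u, (tst f s W u).X = tX s W (tconf f u).mem (tnb f 1 u) (tnb f (-1) u) :=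
    fun _ => rfl
  have hmv : ∀ u, mv (tst f s W u).X = mv (tconf f u).mem := by
    intro u
    rw [hX]
    exact mv_congr (tX_lt (by omega)) (tX_lt (by omega))
  have hr : tprev f t < 2 ^ W := lt_of_le_of_lt (tprev_le f t) ht
  have hR : (num W fun i => (tst f s W (tprev f t)).X (s + i)) = tnb f 1 (tprev f t) := by
    refine Lay.hp_num_bits (lt_of_le_of_lt (tnb_le f 1 _) hr) fun i hi => ?_
    rw [hX, tX_R hi]
  have hL : (num W fun i => (tst f s W (tprev f t)).X (s + W + i)) = tnb f (-1) (tprev f t) := by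
    refine Lay.hp_num_bits (lt_of_le_of_lt (tnb_le f (-1) _) hr) fun i hi => ?_
    rw [hX, tX_L hi]
  have hV : Agr s (eval G z (mix (tst f s W t).X (tst f s W (tprev f t)).X))
      (tconf f (t + 1)).mem := by
    rw [tconf_succ]
    have h1 : Agr s (mix (tst f s W t).X (tst f s W (tprev f t)).X)
        (mix (tconf f t).mem (tconf f (tprev f t)).mem) := by
      intro q hq
      unfold mix
      rw [hX, hX, tX_lt hq, tX_lt hq]
    intro q hq
    rw [hf]
    exact eval_agr hG.2 (by rw [← hf]; exact h1) q hq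
  unfold nxT
  rw [hR, hL, hmv, tmk_congr hs hV]
  show tmk s W (t + 1) (tconf f (t + 1)).mem
    (if mv (tconf f t).mem = -1 then t else tnb f 1 (tprev f t))
    (if mv (tconf f t).mem = 1 then t else tnb f (-1) (tprev f t)) = _
  unfold tst
  rw [tnb_succ f t (e := 1) (Or.inl rfl), tnb_succ f t (e := -1) (Or.inr rfl), neg_neg]

/-- the run of the simulation -/
theorem nxT_run {G : List Ins} {s W : ℕ} (hG : Sz s G) (hs : 7 ≤ s) (z : Inp) {p : ℕ → PSt}
    {T : ℕ} (hT : T < 2 ^ W) (hp : IsRun (nxT G s W z) p T) :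
    ∀ t ≤ T, p t = tst (eval G z) s W t := by
  intro t
  induction t using Nat.strong_induction_on with
  | _ t ih =>
    intro ht
    cases t with
    | zero => rw [hp.1, tst_zero]
    | succ t =>
      have h1 := ih t (by omega) (by omega)
      have h2 : (p t).ix = tprev (eval G z) t := by rw [h1, tst_ix]
      have h3 := tprev_le (eval G z) t
      rw [hp.2 t (by omega), h2, if_pos h3, h1, ih _ (by omega) (by omega)]
      exact nxT_step hG hs z (by omega)

theorem tst_ok {f : Mem → Mem} {s W t : ℕ} (ht : t < 2 ^ W) :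
    (tlay s W).Ok (tst f s W t) := by
  refine ⟨?_, ?_, ht, ?_, fun j hj => ?_⟩
  · rw [tst_ix]
    exact lt_of_le_of_lt (tprev_le f t) ht
  · exact Nat.two_pow_pos _
  · exact Nat.two_pow_pos _
  · have hj' : s + 2 * W ≤ j := hj
    show tX s W _ _ _ j = false
    unfold tX
    rw [if_neg (by omega), if_neg (by omega), if_neg (by omega)]

/-- size bound of one cell of one pass -/
def tapeCp (s W : ℕ) : ℕ := 1300 * (s + W + 10)

theorem nxT_cp {G : List Ins} {s : ℕ} (hG : Sz s G) (hs : 7 ≤ s) (W : ℕ) (q : ℕ) :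
    Cp (2 * (tlay s W).tot) (tapeCp s W) (fun z M =>
      (tlay s W).pack (nxT G s W z ((tlay s W).unpack (evc M))
        ((tlay s W).unpack (odc M)).X) q) := by
  obtain ⟨y, hy⟩ : ∃ y, y = tlay s W := ⟨_, rfl⟩
  rw [← hy]
  have hW : y.W = W := by rw [hy]; rfl
  have hke : y.ke = 0 := by rw [hy]; rfl
  have hv : y.v = s + 2 * W := by rw [hy]; rfl
  have hbase : y.base = 2 * y.W + 3 + y.ke + y.W + y.W := rfl
  have htot : y.tot = y.base + y.v := rfl
  obtain ⟨b, hb⟩ : ∃ b, b = 2 * y.tot := ⟨_, rfl⟩
  rw [← hb]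
  have hcE : ∀ p < y.tot, Cp b 2 (fun _ M => evc M p) := fun p hp =>
    Cp.cell (show 2 * p < b by omega)
  have hcO : ∀ p < y.tot, Cp b 2 (fun _ M => odc M p) := fun p hp =>
    Cp.cell (show 2 * p + 1 < b by omega)
  have hX : ∀ j < s + 2 * W, Cp b 2 (fun _ M => (y.unpack (evc M)).X j) := fun j hj =>
    (hcE (y.base + j) (by omega)).congr fun z M => (if_pos (by omega)).symm
  have hY : ∀ j < s + 2 * W, Cp b 2 (fun _ M => (y.unpack (odc M)).X j) := fun j hj =>
    (hcO (y.base + j) (by omega)).congr fun z M => (if_pos (by omega)).symm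
  have hmix : ∀ p < s, Cp b 2 (fun _ M => mix (y.unpack (evc M)).X (y.unpack (odc M)).X p) := by
    intro p hp
    by_cases hp2 : p % 2 = 0
    · refine (hX p (by omega)).congr fun z M => ?_
      unfold mix
      rw [if_pos hp2]
    · refine (hY p (by omega)).congr fun z M => ?_
      unfold mix
      rw [if_neg hp2]
  -- the new memory
  obtain ⟨A, hA⟩ : ∃ A, A = s + (b + 1) * (2 + 20) := ⟨_, rfl⟩
  have hV : ∀ j < s, Cp b A (fun z M =>
      eval G z (mix (y.unpack (evc M)).X (y.unpack (odc M)).X) j) := by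
    intro j hj
    rw [hA]
    exact Cp.appTr (b := b) (t := 2) (Tr.pass hG) (by omega) (by omega)
      (X := fun _ M => mix (y.unpack (evc M)).X (y.unpack (odc M)).X) hmix hj
  -- numbers
  have hu : ∀ r < W, Cp b 2 (fun _ M => (y.unpack (evc M)).u.testBit r) := by
    intro r hr
    refine (hcE (2 * y.W + 3 + y.ke + r) (by omega)).congr fun z M => ?_
    show _ = (num y.W fun i => evc M (2 * y.W + 3 + y.ke + i)).testBit r
    rw [testBit_num]
    have : r < y.W := by omega
    simp [this]
  have hsucc : ∀ r < W, Cp b (60 * W + 220)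
      (fun _ M => ((y.unpack (evc M)).u + 1).testBit r) := by
    intro r hr
    have h1 := Cp.tbSucc (b := b) (s := 2) (d := y.W) (n := y.W)
      (g := fun i _ M => evc M (2 * y.W + 3 + y.ke + i)) (fun i hi => hcE _ (by omega))
      le_rfl r (by omega)
    exact h1.mono le_rfl (by rw [hW]; omega)
  -- the conditions on the old memory
  have hneg : Cp b 16 (fun _ M => decide (mv (y.unpack (evc M)).X = -1)) := by
    refine (((hX 4 (by omega)).not.and (hX 6 (by omega))).congr fun z M => ?_).mono le_rfl
      (by norm_num)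
    rw [Bool.eq_iff_iff, decide_eq_true_iff, mv_neg_iff]
    simp
  have hone : Cp b 16 (fun _ M => decide (mv (y.unpack (evc M)).X = 1)) := by
    refine ((hX 4 (by omega)).congr fun z M => ?_).mono le_rfl (by norm_num)
    rw [Bool.eq_iff_iff, decide_eq_true_iff, mv_one_iff]
  -- the pointers
  have hR : ∀ r < W, Cp b 75 (fun _ M => (if mv (y.unpack (evc M)).X = -1 then
      (y.unpack (evc M)).u else num W fun i => (y.unpack (odc M)).X (s + i)).testBit r) := by
    intro r hr
    refine ((Cp.ite hneg (hu r hr) (Cp.tbNum (d := W)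
      (g := fun i _ M => (y.unpack (odc M)).X (s + i)) (fun i hi => hY _ (by omega)) r)).congr
      fun z M => ?_).mono le_rfl (by norm_num)
    by_cases h : mv (y.unpack (evc M)).X = -1
    · rw [if_pos h, decide_eq_true h, cond_true]
    · rw [if_neg h, decide_eq_false h, cond_false]
  have hL : ∀ r < W, Cp b 75 (fun _ M => (if mv (y.unpack (evc M)).X = 1 then
      (y.unpack (evc M)).u else num W fun i => (y.unpack (odc M)).X (s + W + i)).testBit r) := by
    intro r hr
    refine ((Cp.ite hone (hu r hr) (Cp.tbNum (d := W)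
      (g := fun i _ M => (y.unpack (odc M)).X (s + W + i)) (fun i hi => hY _ (by omega))
        r)).congr fun z M => ?_).mono le_rfl (by norm_num)
    by_cases h : mv (y.unpack (evc M)).X = 1
    · rw [if_pos h, decide_eq_true h, cond_true]
    · rw [if_neg h, decide_eq_false h, cond_false]
  obtain ⟨N, hN⟩ : ∃ N, N = 4 * A + 60 * W + 500 := ⟨_, rfl⟩
  have hmain : Cp b N (fun z M => y.pack (nxT G s W z (y.unpack (evc M))
      (y.unpack (odc M)).X) q) := by
    refine Lay.cp_pack (P := fun z M => nxT G s W z (y.unpack (evc M)) (y.unpack (odc M)).X)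
      (by omega) ?_ ?_ ?_ ?_ ?_ ?_ ?_ ?_ q
    · exact (hV 0 (by omega)).mono le_rfl (by omega)
    · exact (hV 2 (by omega)).mono le_rfl (by omega)
    · exact (Cp.const b false).mono le_rfl (by omega)
    · intro r hr
      have hr' : r < W := by omega
      refine ((Cp.ite (hV 4 (by omega)) (hR r hr') (Cp.ite (hV 6 (by omega)) (hL r hr')
        (hsucc r hr'))).congr fun z M => ?_).mono le_rfl (by omega)
      show _ = (if mv (eval G z (mix (y.unpack (evc M)).X (y.unpack (odc M)).X)) = 1 then _
        else if mv (eval G z (mix (y.unpack (evc M)).X (y.unpack (odc M)).X)) = -1 then _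
        else (y.unpack (evc M)).u + 1).testBit r
      cases h4 : eval G z (mix (y.unpack (evc M)).X (y.unpack (odc M)).X) 4 with
      | true =>
        rw [if_pos ((mv_one_iff _).2 h4), cond_true]
      | false =>
        have h1 : ¬ mv (eval G z (mix (y.unpack (evc M)).X (y.unpack (odc M)).X)) = 1 := by
          rw [mv_one_iff, h4]
          exact Bool.false_ne_true
        rw [if_neg h1, cond_false]
        cases h6 : eval G z (mix (y.unpack (evc M)).X (y.unpack (odc M)).X) 6 with
        | true =>
          rw [if_pos ((mv_neg_iff _).2 ⟨h4, h6⟩), cond_true]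
        | false =>
          have h2 : ¬ mv (eval G z (mix (y.unpack (evc M)).X (y.unpack (odc M)).X)) = -1 := by
            rw [mv_neg_iff, h6]
            simp
          rw [if_neg h2, cond_false]
    · intro r hr
      omega
    · intro r hr
      exact (hsucc r (by omega)).mono le_rfl (by omega)
    · intro r _
      refine ((Cp.const b false).congr fun z M => ?_).mono le_rfl (by omega)
      exact (Nat.zero_testBit r).symm
    · intro j hj
      by_cases h1 : j < s
      · refine ((hV j h1).congr fun z M => ?_).mono le_rfl (by omega)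
        exact (tX_lt h1).symm
      by_cases h2 : j < s + W
      · obtain ⟨i, rfl⟩ := Nat.exists_eq_add_of_le (Nat.not_lt.1 h1)
        refine ((hR i (by omega)).congr fun z M => ?_).mono le_rfl (by omega)
        exact (tX_R (by omega)).symm
      · obtain ⟨i, rfl⟩ := Nat.exists_eq_add_of_le (Nat.not_lt.1 h2)
        refine ((hL i (by omega)).congr fun z M => ?_).mono le_rfl (by omega)
        exact (tX_L (by omega)).symm
  refine hmain.mono le_rfl ?_
  unfold tapeCp
  omega

/-- size of the simulation -/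
def tapeSz (s W : ℕ) : ℕ := 16000 * (s + W + 10) ^ 2

/-- **One-tape machines are simulated by history programs**, without loss of time; the recalled
state is the last visit of the scanned cell. -/
theorem exists_tape_hist {G : List Ins} {s : ℕ} (hG : Sz s G) (hs : 7 ≤ s) (W : ℕ) :
    ∃ G' : List Ins, HSz (tapeSz s W) W G' ∧ ∀ (z : Inp) (T : ℕ), T < 2 ^ W →
      (∀ t ≤ T, sta (eval G' z) W t 0 = (tconf (eval G z) t).mem 0) ∧
      (∀ t ≤ T, sta (eval G' z) W t 2 = (tconf (eval G z) t).mem 2) ∧
      (∀ t < T, rcl (eval G' z) W t = tprev (eval G z) t) := by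
  obtain ⟨G', h1, h2⟩ := exists_packed (y := tlay s W) (N := tapeCp s W)
    (nx := fun z => nxT G s W z) fun q _ => nxT_cp hG hs W q
  refine ⟨G', ?_, fun z T hT => ?_⟩
  · refine HSz.mono h1 ?_
    have ht : (tlay s W).tot = 2 * W + 3 + 0 + W + W + (s + 2 * W) := rfl
    unfold tapeSz tapeCp
    rw [ht]
    obtain ⟨K, hK⟩ : ∃ K, K = s + W + 10 := ⟨_, rfl⟩
    rw [← hK]
    have h3 : 2 * (2 * W + 3 + 0 + W + W + (s + 2 * W)) ≤ 12 * K := by omega
    have h4 : 10 ≤ K := by omega
    calc 2 * (2 * W + 3 + 0 + W + W + (s + 2 * W)) * (1300 * K + 5) + 2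
        ≤ 12 * K * (1300 * K + K) + 2 := by
          exact Nat.add_le_add (Nat.mul_le_mul h3 (by omega)) le_rfl
      _ ≤ 16000 * K ^ 2 := by nlinarith
  · obtain ⟨p, hp⟩ := exists_isRun (nxT G s W z)
    have hrun := nxT_run hG hs z hT (hp T)
    obtain ⟨h3, h4, h5, h6⟩ := h2 z p T (hp T) fun t ht => by
      rw [hrun t ht.le]
      exact tst_ok (by omega)
    refine ⟨fun t ht => ?_, fun t ht => ?_, fun t ht => ?_⟩
    · have h7 : (p t).halt = (tconf (eval G z) t).mem 0 := by
        rw [hrun t ht]
        rfl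
      exact (h4 t ht).trans h7
    · have h7 : (p t).ans = (tconf (eval G z) t).mem 2 := by
        rw [hrun t ht]
        rfl
      exact (h5 t ht).trans h7
    · have h7 := h6 t ht
      have h8 : (p t).ix = tprev (eval G z) t := by rw [hrun t ht.le, tst_ix]
      exact h7.trans h8

/-- halting and answer of the simulation -/
theorem tape_haltsAt {G G' : List Ins} {W : ℕ} {z : Inp} {N : ℕ}
    (h : ∀ t ≤ N, sta (eval G' z) W t 0 = (tconf (eval G z) t).mem 0)
    (hN : THaltsAt (eval G z) N) : HaltsAt (eval G' z) W N := by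
  refine ⟨?_, fun n hn => ?_⟩
  · rw [h N le_rfl]
    exact hN.1
  · rw [h n hn.le]
    exact hN.2 n hn

end Pool.Agent.NUM
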