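import Pool.Agent.NUM.ChkDef
import Pool.Agent.NUM.Piece
import Pool.Agent.NUM.Fam

/-! Records in the local view: decoding, the CHECK data, the predicate `ChkV`. -/

namespace Pool.Agent.NUM

/-- decoding of a record from a block `R` (addresses of length `3 + σ`): memories with `s` cells,
times with `W` bits, record numbers with `q` bits -/
def recOf (s W q σ : ℕ) (R : Inp) : Rec Mem Mem where
  m := ChkPar.cut s fun p => R (false :: false :: false :: bits σ p)
  v := ChkPar.fix (ChkPar.cut s fun p => R (false :: false :: true :: bits σ p))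
  t1 := num W fun i => R (false :: true :: false :: bits σ i)
  i1 := num q fun i => R (false :: true :: true :: bits σ i)
  t2 := num W fun i => R (true :: false :: false :: bits σ i)
  i2 := num q fun i => R (true :: false :: true :: bits σ i)

/-- the record number of a bit list -/
def rnum (q : ℕ) (k : List Bool) : ℕ := num q fun i => k.getD i false

/-- record number `k` in the string `y` -/
def recAt (s W q σ : ℕ) (y : Inp) (k : List Bool) : Rec Mem Mem :=
  recOf s W q σ (blk (σ + 3) y (fit q k))

/-- the correctness of record `k`, if `i`, `j` are the records that it quotes -/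
def ChkV (G : List Ins) (s W q σ lim : ℕ) (z y : Inp) (κ : List Bool × List Bool × List Bool) :
    Prop :=
  (recAt s W q σ y κ.1).i1 = rnum q κ.2.1 → (recAt s W q σ y κ.1).i2 = rnum q κ.2.2 →
    (rnum q κ.1 = 2 ^ q - 1 →
      (recAt s W q σ y κ.1).m = zeroMem ∧ (recAt s W q σ y κ.1).v 2 = true) ∧
    RecOK (sys (eval G z)) lim (rnum q κ.1) (recAt s W q σ y κ.1) (recAt s W q σ y κ.2.1)
      (recAt s W q σ y κ.2.2)

/-- address prefixes in the view `⟨z, ⟨⟨k, y_k⟩, ⟨⟨i, y_i⟩, ⟨j, y_j⟩⟩⟩⟩` -/
def pK : List Bool := [true, false, false]
def pI : List Bool := [true, true, false, false]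
def pJ : List Bool := [true, true, true, false]
def rK : List Bool := [true, false, true]
def rI : List Bool := [true, true, false, true]
def rJ : List Bool := [true, true, true, true]

/-- the number of the record at the prefix `p` -/
def kNum (q : ℕ) (p : List Bool) (z : Inp) : ℕ :=
  num q fun r => z (p ++ bits (Nat.size q) r)

/-- the record at the prefix `p` -/
def pRec (s W q σ : ℕ) (p : List Bool) (z : Inp) : Rec Mem Mem :=
  recOf s W q σ fun a => z (p ++ a)

/-- the CHECK data read from the view -/
def vpar (G : List Ins) (s W q σ lim : ℕ) : ChkPar where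
  s := s
  w := W
  lim := lim
  g := fun z M => eval G (fun a => z (false :: a)) M
  m := fun z p => (pRec s W q σ rK z).m p
  v := fun z p => (pRec s W q σ rK z).v p
  m1 := fun z p => (pRec s W q σ rI z).m p
  v1 := fun z p => (pRec s W q σ rI z).v p
  m2 := fun z p => (pRec s W q σ rJ z).m p
  v2 := fun z p => (pRec s W q σ rJ z).v p
  t1 := fun z i => z (rK ++ (false :: true :: false :: bits σ i))
  t2 := fun z i => z (rK ++ (true :: false :: false :: bits σ i))
  h1 := fun z => decide ((pRec s W q σ rK z).i1 < kNum q pK z)
  h2 := fun z => decide ((pRec s W q σ rK z).i2 < kNum q pK z)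
  skip := fun z => !(decide ((pRec s W q σ rK z).i1 = kNum q pI z) &&
    decide ((pRec s W q σ rK z).i2 = kNum q pJ z))
  ok := fun z => !decide (kNum q pK z = 2 ^ q - 1) ||
    (((List.range s).all fun p => !((pRec s W q σ rK z).m p)) && (pRec s W q σ rK z).v 2)

end Pool.Agent.NUM
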