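import Pool.Agent.NUM.Abs

/-!
# The derivation of `Abs.lean` relative to a set `S` of indices (window version)
-/

set_option autoImplicit false

namespace Pool.Agent.NUM.W

open NUM

/-- The interface with a set `S` of indices for which the assumption on `SAT` holds: everything that the exponent trading needs to know about the machines. -/
structure Trade (S : Set ℕ) (c : ℝ) : Prop where
  /-- complement -/
  not : ∀ {T : Type} {π : Pres T} {P : T → Prop} {b e : ℝ}, Size π b → InCl π P e →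
    InCl π (fun τ => ¬ P τ) e
  /-- adding a string that is not used -/
  dummy : ∀ {T : Type} {π : Pres T} {P : T → Prop} {b u e : ℝ} {β : ℕ → ℕ}, Size π b → Lin u β →
    InCl π P e → InCl (π.ext β) (fun p => P p.1) e
  /-- two strings in one -/
  merge : ∀ {T : Type} {π : Pres T} {b u u' e : ℝ} {β β' : ℕ → ℕ}
    {C : (T × Inp) × Inp → Prop}, Size π b → Lin u β → Lin u' β' →
    InCl ((π.ext β).ext β') C e →
    ∃ β'' : ℕ → ℕ, Lin (max u u') β'' ∧
      InCl (π.ext β'')
        (fun p => C ((p.1, fun a => p.2 (false :: a)), fun a => p.2 (true :: a))) e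
  /-- (S) speed up: the run is cut into `2 ^ (x L)` pieces; the pieces are checked independently, from
  the instance and the local view of the list of pieces -/
  speedup : ∀ {T : Type} {π : Pres T} {P : T → Prop} {b e x : ℝ}, Size π b → InCl π P e →
    0 ≤ x → x ≤ e →
    ∃ (q w : ℕ → ℕ) (B : T × (List Bool × List Bool × List Bool) × Inp → Prop), Lin x q ∧ Lin 0 w ∧
      InCl (π.view q w) B (e - x) ∧
      ∃ L₀, ∀ τ, L₀ ≤ π.idx τ → (P τ ↔ ∃ y, ∀ κ, B (τ, κ, y))
  /-- (W) slow down -/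
  slow : ∀ {T : Type} {π : Pres T} {b x u e : ℝ} {q w β : ℕ → ℕ}
    {A : (T × (List Bool × List Bool × List Bool) × Inp) × Inp → Prop}, (∀ τ, π.idx τ ∈ S) →
    1 ≤ b → Size π b →
    Lin x q → Lin 0 w → Lin u β → u ≤ e → InCl ((π.view q w).ext β) A e →
    InCl (π.ext fun L => q L + w L) (fun p => ∀ κ v, A ((p.1, κ, p.2), v)) (c * max (max b x) e)
  /-- (F) diagonal problems: the complement of the universal problem with clock `2 ^ (a L)` on inputs
  of `2 ^ L` bits -/
  diag : ∀ (a : ℕ) (u e : ℝ), 1 ≤ a → u ≤ e → e < a →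
    ∃ (T : Type) (π : Pres T) (D : T → Prop), (∀ τ, π.idx τ ∈ S) ∧ Size π 1 ∧
      InCl π D (c * a) ∧ ¬ InE u π D e

/-- one round: speed up by `x = u`, merge, slow down -/
theorem round {S : Set ℕ} {c : ℝ} (H : Trade S c) {T : Type} {π : Pres T} (hπ : ∀ τ, π.idx τ ∈ S)
    {P : T → Prop}
    {b u e : ℝ} (hb : 1 ≤ b) (hbu : b ≤ u) (hs : Size π b) (hue : u ≤ e) (h : InE u π P e) :
    InE u π P (c * max u (e - u)) := by
  obtain ⟨β, B, hL, hB, n0, hP⟩ := h
  have hu0 : 0 ≤ u := by linarith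
  have hs1 : Size (π.ext β) u := by
    have := hs.ext hL
    rwa [max_eq_right hbu] at this
  obtain ⟨q, w, B', hq, hw, hB', n1, hP'⟩ := H.speedup hs1 hB hu0 hue
  have hd : InCl (((π.ext β).view q w).ext (fun _ => 0)) (fun p => B' p.1) (e - u) :=
    H.dummy (hs1.view hu0 hq hw) (Lin.zero le_rfl) hB'
  have hC := H.slow (π := π.ext β) (fun τ => hπ τ.1) (hb.trans hbu) hs1 hq hw (Lin.zero (le_refl 0)) (by linarith) hd
  have hqw : Lin u (fun L => q L + w L) := by simpa using hq.add hw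
  obtain ⟨β'', hL'', hC'⟩ := H.merge hs hL hqw hC
  refine ⟨β'', _, ?_, hC'.mono ?_, max n0 n1, ?_⟩
  · rwa [max_self] at hL''
  · rw [max_self]
  · intro τ hτ
    have h0 : n0 ≤ π.idx τ := le_trans (le_max_left _ _) hτ
    have h1 : n1 ≤ π.idx τ := le_trans (le_max_right _ _) hτ
    rw [hP τ h0]
    constructor
    · rintro ⟨y, hy⟩
      rw [hP' (τ, y) h1] at hy
      obtain ⟨v, hv⟩ := hy
      exact ⟨pair y v, fun k _ => hv k⟩
    · rintro ⟨u', hu'⟩
      refine ⟨fun a => u' (false :: a), ?_⟩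
      rw [hP' (τ, _) h1]
      exact ⟨fun a => u' (true :: a), fun k => hu' k (fun _ => false)⟩

/-- Lemma (R) -/
theorem reduce {S : Set ℕ} {c : ℝ} (hc : 1 < c) (hc2 : c < 2) (H : Trade S c) {T : Type} {π : Pres T}
    (hπ : ∀ τ, π.idx τ ∈ S) {P : T → Prop} {b u : ℝ} (hb : 1 ≤ b) (hbu : b ≤ u) (hs : Size π b) (j : ℕ) :
    ∀ e : ℝ, c * u / (c - 1) - 2 * u ≤ (c * u / (c - 1) - e) * c ^ j → InE u π P e →
      InE u π P (c * u) := by
  have hu : 0 < u := by linarith
  have hc1 : 0 < c - 1 := by linarith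
  have base : ∀ e : ℝ, e ≤ 2 * u → InE u π P e → InE u π P (c * u) := by
    intro e he h
    rcases le_total e u with h1 | h1
    · exact h.mono (h1.trans (by nlinarith))
    · refine (round H hπ hb hbu hs h1 h).mono ?_
      rw [max_eq_left (by linarith)]
  induction j with
  | zero =>
    intro e he h
    exact base e (by simp at he; linarith) h
  | succ j ih =>
    intro e he h
    rcases le_total e (2 * u) with h2 | h2
    · exact base e h2 h
    · have h3 : InE u π P (c * max u (e - u)) := round H hπ hb hbu hs (by linarith) h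
      rw [max_eq_right (by linarith)] at h3
      refine ih _ ?_ h3
      have : (c * u / (c - 1) - c * (e - u)) = (c * u / (c - 1) - e) * c := by
        field_simp
        ring
      rw [this]
      calc _ ≤ _ := he
        _ = _ := by ring

theorem reduce' {S : Set ℕ} {c : ℝ} (hc : 1 < c) (hc2 : c < 2) (H : Trade S c) {T : Type} {π : Pres T}
    (hπ : ∀ τ, π.idx τ ∈ S) {P : T → Prop} {b u e : ℝ} (hb : 1 ≤ b) (hbu : b ≤ u) (hs : Size π b)
    (he : e < c * u / (c - 1)) (h : InE u π P e) : InE u π P (c * u) := by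
  obtain ⟨j, hj⟩ := pow_unbounded_of_one_lt ((c * u / (c - 1) - 2 * u) / (c * u / (c - 1) - e)) hc
  refine reduce hc hc2 H hπ hb hbu hs j e ?_ h
  have : 0 < c * u / (c - 1) - e := by linarith
  rw [div_lt_iff₀ this] at hj
  linarith [hj]

/-- the statement `G(f)` -/
def GG (S : Set ℕ) (c f : ℝ) : Prop :=
  ∃ K : ℝ, 0 < K ∧ ∀ (T : Type) (π : Pres T) (P : T → Prop) (b e : ℝ), (∀ τ, π.idx τ ∈ S) →
    1 ≤ b → Size π b →
    InCl π P e → K * b ≤ e → InE (f * e) π P (c * (f * e))

theorem GG.one {S : Set ℕ} {c : ℝ} (hc : 1 ≤ c) (H : Trade S c) : GG S c 1 := by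
  refine ⟨1, one_pos, ?_⟩
  intro T π P b e hπ hb hs hP he
  have h0 : 0 ≤ e := by linarith
  refine ⟨fun _ => 0, fun p => P p.1, Lin.zero (by linarith), ?_, 0, ?_⟩
  · exact (H.dummy hs (Lin.zero le_rfl) hP).mono (by nlinarith)
  · intro τ _
    exact ⟨fun h => ⟨fun _ => false, h⟩, fun ⟨_, h⟩ => h⟩

theorem GG.step {S : Set ℕ} {c f f' : ℝ} (hc : 1 < c) (hc2 : c < 2) (H : Trade S c) (hf : 0 < f) (hf1 : f' < 1)
    (hff : c * (c - 1) * f / (1 + c * (c - 1) * f) < f') (h : GG S c f) : GG S c f' := by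
  obtain ⟨K, hK, hG⟩ := h
  have hc1 : 0 < c - 1 := by linarith
  have hκ : 0 < c * (c - 1) * f := by positivity
  have hf0 : 0 < f' := lt_trans (by positivity) hff
  refine ⟨max (K / (1 - f')) (max 1 (1 / f')), by positivity, ?_⟩
  intro T π P b e hπ hb hs hP he
  have h1f : 0 < 1 - f' := by linarith
  have hKb : K * b ≤ (1 - f') * e := by
    have : K / (1 - f') * b ≤ e := le_trans (by gcongr; exact le_max_left _ _) he
    rw [div_mul_eq_mul_div, div_le_iff₀ h1f] at this
    linarith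
  have hbe : b ≤ f' * e := by
    have : 1 / f' * b ≤ e :=
      le_trans (by gcongr; exact (le_max_right _ _).trans (le_max_right _ _)) he
    rw [div_mul_eq_mul_div, div_le_iff₀ hf0] at this
    linarith
  have he0 : 0 < e := by
    have : 0 < f' * e := by linarith
    exact (mul_pos_iff_of_pos_left hf0).mp this
  obtain ⟨q, w, A, hq, hw, hA, n0, hPA⟩ :=
    H.speedup hs hP (x := f' * e) (by positivity) (by nlinarith)
  have hs' := hs.view (by linarith) hq hw
  have hG' := hG _ (π.view q w) (fun p => ¬ A p) b (e - f' * e) (fun τ => hπ τ.1) hb hs' (H.not hs' hA)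
    (by linarith)
  obtain ⟨β, B, hL₂, hB, n1, hAB⟩ := hG'
  have hBn := H.not (hs'.ext hL₂) hB
  have hu0 : 0 < e - f' * e := by nlinarith
  have hC := H.slow hπ hb hs hq hw hL₂ (by nlinarith [mul_pos hf hu0]) hBn
  rw [max_eq_right hbe] at hC
  have hqw : Lin (f' * e) (fun L => q L + w L) := by simpa using hq.add hw
  have hE : InE (f' * e) π P (c * max (f' * e) (c * (f * (e - f' * e)))) := by
    refine ⟨_, _, hqw, hC, max n0 n1, ?_⟩
    intro τ hτ
    rw [hPA τ (le_trans (le_max_left _ _) hτ)]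
    refine exists_congr fun y => forall_congr' fun κ => ?_
    have := hAB (τ, κ, y) (le_trans (le_max_right _ _) hτ)
    constructor
    · intro h v hv
      exact (this.mpr ⟨v, hv⟩) h
    · intro h
      by_contra h'
      obtain ⟨v, hv⟩ := this.mp h'
      exact h v hv
  refine reduce' hc hc2 H hπ hb hbe hs ?_ hE
  rw [lt_div_iff₀ hc1]
  have hfe : 0 < f' * e := by positivity
  rw [div_lt_iff₀ (by positivity)] at hff
  rcases le_total (f' * e) (c * (f * (e - f' * e))) with h1 | h1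
  · rw [max_eq_right h1]
    have key : c * (c - 1) * f * (1 - f') < f' := by nlinarith
    have : c * (c * (f * (e - f' * e))) * (c - 1) = c * e * (c * (c - 1) * f * (1 - f')) := by ring
    rw [this]
    calc c * e * (c * (c - 1) * f * (1 - f')) < c * e * f' := by
          apply mul_lt_mul_of_pos_left key (by positivity)
      _ = c * (f' * e) := by ring
  · rw [max_eq_left h1]
    have : c * (f' * e) * (c - 1) < c * (f' * e) * 1 :=
      mul_lt_mul_of_pos_left (by linarith) (by positivity)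
    linarith

/-- there is `f` with `G(f)` and `c^2 f < 1` -/
theorem GG.small {S : Set ℕ} {c : ℝ} (hc : 1 < c) (hc2 : c < 2) (hc3 : c ^ 3 - c ^ 2 - 2 * c + 1 < 0)
    (H : Trade S c) : ∃ f : ℝ, 0 < f ∧ c ^ 2 * f < 1 ∧ GG S c f := by
  by_contra hcon
  push Not at hcon
  have hc1 : 0 < c - 1 := by linarith
  set κ : ℝ := c * (c - 1) with hκ
  have hκ0 : 0 < κ := by positivity
  set F : Set ℝ := {f | 0 < f ∧ f ≤ 1 ∧ GG S c f} with hF
  have h1S : (1 : ℝ) ∈ F := ⟨one_pos, le_rfl, GG.one hc.le H⟩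
  have hbdd : ∀ f ∈ F, 1 / c ^ 2 ≤ f := by
    intro f hf
    by_contra h
    push Not at h
    rw [lt_div_iff₀ (by positivity)] at h
    exact hcon f hf.1 (by linarith) hf.2.2
  set f0 := sInf F with hf0
  have hf0l : 1 / c ^ 2 ≤ f0 := le_csInf ⟨1, h1S⟩ hbdd
  have hf0p : 0 < f0 := lt_of_lt_of_le (by positivity) hf0l
  have hf01 : f0 ≤ 1 := csInf_le ⟨1 / c ^ 2, hbdd⟩ h1S
  -- `κ < 1 + κ f0`
  have hk : κ < 1 + κ * f0 := by
    have : κ < 1 + κ * (1 / c ^ 2) := by
      rw [hκ]
      have : c * (c - 1) * (1 / c ^ 2) = (c - 1) / c := by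
        field_simp
      rw [this]
      have h2 : 1 + (c - 1) / c = (2 * c - 1) / c := by
        field_simp
        ring
      rw [h2, lt_div_iff₀ (by linarith)]
      nlinarith
    calc κ < 1 + κ * (1 / c ^ 2) := this
      _ ≤ 1 + κ * f0 := by gcongr
  -- continuity
  have hg : κ * f0 / (1 + κ * f0) < f0 := by
    rw [div_lt_iff₀ (by positivity)]
    nlinarith
  have hcont : ContinuousAt (fun f : ℝ => κ * f / (1 + κ * f)) f0 := by
    apply ContinuousAt.div (by fun_prop) (by fun_prop)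
    positivity
  have hev : ∀ᶠ f in nhds f0, κ * f / (1 + κ * f) < f0 := hcont.eventually (gt_mem_nhds hg)
  obtain ⟨ε, hε, hball⟩ := Metric.eventually_nhds_iff.mp hev
  obtain ⟨f, hfS, hff0⟩ := exists_lt_of_csInf_lt ⟨1, h1S⟩ (show sInf F < f0 + ε by linarith)
  have hff : f0 ≤ f := csInf_le ⟨1 / c ^ 2, hbdd⟩ hfS
  have hgf : κ * f / (1 + κ * f) < f0 := hball (by
    rw [Real.dist_eq, abs_of_nonneg (by linarith)]
    linarith)
  obtain ⟨f', hf'1, hf'2⟩ := exists_between hgf
  have hf'0 : 0 < f' := lt_trans (by have := hfS.1; positivity) hf'1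
  have hG' : GG S c f' := GG.step hc hc2 H hfS.1 (by linarith) hf'1 hfS.2.2
  have : f0 ≤ f' := csInf_le ⟨1 / c ^ 2, hbdd⟩ ⟨hf'0, by linarith, hG'⟩
  linarith

theorem not_Trade {S : Set ℕ} {c : ℝ} (hc : 1 < c) (hc2 : c < 2) (hc3 : c ^ 3 - c ^ 2 - 2 * c + 1 < 0) :
    ¬ Trade S c := by
  intro H
  obtain ⟨f, hf, hcf, K, hK, hG⟩ := GG.small hc hc2 hc3 H
  obtain ⟨a, ha⟩ := exists_nat_ge (max 1 K)
  have ha1 : (1 : ℝ) ≤ a := le_trans (le_max_left _ _) ha
  have haK : K ≤ a := le_trans (le_max_right _ _) ha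
  have he : c * (f * (c * a)) < a := by
    have : c * (f * (c * a)) = c ^ 2 * f * a := by ring
    rw [this]
    nlinarith
  have hue : f * (c * a) ≤ c * (f * (c * a)) := by
    have : 0 ≤ f * (c * a) := by positivity
    nlinarith
  obtain ⟨T, π, D, hπ, hs, hD, hno⟩ := H.diag a _ _ (by exact_mod_cast ha1) hue he
  exact hno (hG _ π _ 1 (c * a) hπ le_rfl hs hD (by nlinarith))


/-- the machine-independent part of the theorem -/
theorem trade_bound {S : Set ℕ} {c : ℝ} (hc : 1 < c) (h : c < 2 * Real.cos (Real.pi / 7)) :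
    ¬ Trade S c := not_Trade hc (cubic_neg hc h).1 (cubic_neg hc h).2

end Pool.Agent.NUM.W
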