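import Pool.Agent.NUM.WAbs
import Pool.Agent.NUM.Speed
import Pool.Agent.NUM.Slow
import Pool.Agent.NUM.SlowE
import Pool.Agent.NUM.Diag

/-!
# The pivot relative to a set of indices (window version)
-/

set_option autoImplicit false

namespace Pool.Agent.NUM.W

open NUM Filter

/-- the pivot: the decider exists for the indices in `S` only, and only for `n L ≥ L / 2` -/
structure Pivot (S : Set ℕ) (c : ℝ) extends PivotB where
  dec : ∀ (n sg : ℕ → ℕ) (E : ℝ), 0 ≤ E → Lin E (fun L => n L + sg L) → (∀ L, L ≤ 2 * n L) →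
    (∀ L, sg L ≤ n L) →
    ∃ (G : ℕ → List Ins) (s t : ℕ → ℕ) (L₀ : ℕ), Ex 0 s ∧ Ex (c * E) t ∧ (∀ L, Sz (s L) (G L)) ∧
      ∀ L, L ∈ S → L₀ ≤ L → ∀ B, Decides (G L) B (t L) (V (n L) (sg L))

/-- **Slow-down.** -/
theorem slowE {S : Set ℕ} {c : ℝ} (P : Pivot S c) {T : Type} {π : Pres T}
    (hπ : ∀ τ, π.idx τ ∈ S) {B : T × Inp → Prop} {b u e : ℝ}
    {β : ℕ → ℕ} (hb : 1 ≤ b) (hs : Size π b) (hβ : Lin u β)
    (h : InCl (π.ext β) B e) : InCl π (fun τ => ∃ y, B (τ, y)) (c * max b (max u e)) := by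
  obtain ⟨n, sg, tab, hnsg, hntop, h2w, hw, htab, hle, L₀, hV⟩ :=
    pivot_reduce' P.toPivotB hb hs hβ h
  have hE0 : 0 ≤ max b (max u e) := le_trans (by linarith) (le_max_left _ _)
  obtain ⟨GV, sV, tV, L₁, hsV, htV, hGV, hGVrun⟩ := P.dec n sg _ hE0 hnsg
    (fun L => (hntop L).trans (by omega)) hle
  have hsV' : SubExp (fun L => sV L + 3) := (ex_zero_iff.1 hsV).add (SubExp.const 3)
  obtain ⟨t, ht, hloc⟩ := locF_tab h2w hw htab (fun L => sV L + 3) hsV'
  choose G3 hG3 hG3run using fun L => exists_virt_run ((hGV L).mono (Nat.le_add_right (sV L) 3))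
    (Nat.le_add_left _ _) (hloc L) le_rfl
  refine ⟨G3, _, tV, max L₀ L₁, ?_, htV, hG3, fun τ hτ => ?_⟩
  · exact ex_zero_iff.2 (((hsV'.mul (ht.add (SubExp.const 1))).add
      ((SubExp.const 2).mul hsV')).add ht)
  · obtain ⟨βz, -, hsupp⟩ := hs
    obtain ⟨r, hr, hrV⟩ := hGVrun (π.idx τ) (hπ τ) (le_trans (le_max_right _ _) hτ) _
      (pair (tab (π.idx τ)) (π.inp τ)) ((htab (π.idx τ)).pair (hsupp τ))
    exact ⟨r, hG3run _ _ _ _ hr, hrV.trans (hV τ (le_trans (le_max_left _ _) hτ))⟩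

/-- the field `slow` -/
theorem trade_slow {S : Set ℕ} {c : ℝ} (P : Pivot S c)
    {T : Type} {π : Pres T} {b x u e : ℝ} {q w β : ℕ → ℕ}
    {A : (T × (List Bool × List Bool × List Bool) × Inp) × Inp → Prop} (hπ : ∀ τ, π.idx τ ∈ S)
    (hb : 1 ≤ b)
    (hs : Size π b) (hq : Lin x q) (hw : Lin 0 w) (hβ : Lin u β) (hue : u ≤ e)
    (h : InCl ((π.view q w).ext β) A e) :
    InCl (π.ext fun L => q L + w L) (fun p => ∀ κ v, A ((p.1, κ, p.2), v))
      (c * max (max b x) e) := by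
  obtain ⟨β', A', hβ', hA', L₀, hL₀⟩ := slow_wrap hq hβ h.compl
  have hsz : Size (π.ext fun L => q L + w L) (max b x) := by
    have h1 : Lin x (fun L => q L + w L) := by simpa using hq.add hw
    exact hs.ext h1
  have h1 := (slowE (π := π.ext fun L => q L + w L) P (fun τ => hπ τ.1)
    (hb.trans (le_max_left _ _)) hsz hβ' hA').compl
  have e1 : max (max b x) (max (max x u) e) = max (max b x) e := by
    have h2 : max (max x u) e = max x e := by
      rw [max_assoc, max_eq_right hue]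
    rw [h2, max_assoc, ← max_assoc x x e, max_self, ← max_assoc]
  rw [e1] at h1
  refine h1.congr_ev ⟨L₀, fun p hp => ?_⟩
  have h3 := hL₀ p.1 p.2 hp
  constructor
  · intro h4 κ v
    by_contra h5
    exact h4 (h3.2 ⟨κ, v, h5⟩)
  · rintro h4 h5
    obtain ⟨κ, v, h6⟩ := h3.1 h5
    exact h6 (h4 κ v)

/-- the instances of the diagonal problem: all inputs, with indices in `S` -/
def dpres (S : Set ℕ) : Pres ({L : ℕ // L ∈ S} × Inp) :=
  ⟨fun p => (p.1 : ℕ), fun p => trc (p.1 : ℕ) p.2⟩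

theorem size_dpres (S : Set ℕ) : Size (dpres S) 1 :=
  ⟨fun L => L, (by intro ε hε; exact ⟨0, fun L _ => by have : (0 : ℝ) ≤ L := Nat.cast_nonneg L; nlinarith⟩),
    fun τ => supp_trc _ _⟩

/-- the diagonal argument -/
theorem diag_core (P : PivotB) {S : Set ℕ} (hS : S.Infinite) (a : ℕ) (u e : ℝ) (ha : 1 ≤ a) (hue : u ≤ e)
    (hea : e < a) :
    ∃ n sg : ℕ → ℕ, Lin a (fun L => n L + sg L) ∧ (∀ L, L ≤ 2 * n L) ∧ (∀ L, sg L ≤ n L) ∧
      ¬ InE u (dpres S) (fun p => ¬ P.V (n p.1) (sg p.1) (trc (p.1 : ℕ) p.2)) e := by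
  have ha' : (1 : ℝ) ≤ a := by exact_mod_cast ha
  obtain ⟨e', he'⟩ : ∃ e' : ℝ, e' = max e 0 := ⟨_, rfl⟩
  have he0 : 0 ≤ e' := by rw [he']; exact le_max_right _ _
  have hee' : e ≤ e' := by rw [he']; exact le_max_left _ _
  have he'a : e' < a := by rw [he']; exact max_lt hea (by linarith)
  obtain ⟨d, hd⟩ : ∃ d : ℝ, d = a - e' := ⟨_, rfl⟩
  have hd0 : 0 < d := by rw [hd]; linarith
  obtain ⟨η, hη⟩ : ∃ η : ℝ, η = min (d / 4) (1 / 8) := ⟨_, rfl⟩
  have hη0 : 0 < η := by rw [hη]; exact lt_min (by linarith) (by norm_num)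
  have hηd : η ≤ d / 4 := by rw [hη]; exact min_le_left _ _
  have hη8 : η ≤ 1 / 8 := by rw [hη]; exact min_le_right _ _
  -- the parameters
  obtain ⟨sg, hsg⟩ : ∃ sg : ℕ → ℕ, sg = fun L : ℕ => ⌊η * (L : ℝ)⌋₊ := ⟨_, rfl⟩
  obtain ⟨n, hn⟩ : ∃ n : ℕ → ℕ, n = fun L => a * L - sg L := ⟨_, rfl⟩
  have hsgle : ∀ L : ℕ, (sg L : ℝ) ≤ η * L := by
    intro L
    rw [hsg]
    exact Nat.floor_le (by positivity)
  have hsggt : ∀ L : ℕ, η * L - 1 < (sg L : ℝ) := by
    intro L
    rw [hsg]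
    exact Nat.sub_one_lt_floor _
  have hsgL : ∀ L : ℕ, 8 * sg L ≤ L := by
    intro L
    have h1 := hsgle L
    have h2 : (0 : ℝ) ≤ L := Nat.cast_nonneg L
    have h3 : (8 : ℝ) * sg L ≤ L := by nlinarith
    exact_mod_cast h3
  have hLa : ∀ L : ℕ, L ≤ a * L := fun L => Nat.le_mul_of_pos_left L ha
  have hnsum : ∀ L, n L + sg L = a * L := by
    intro L
    have h1 := hsgL L
    have h2 := hLa L
    rw [hn]
    show a * L - sg L + sg L = a * L
    omega
  have hnsumR : ∀ L : ℕ, (n L : ℝ) + sg L = a * L := by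
    intro L
    exact_mod_cast hnsum L
  refine ⟨n, sg, ?_, ?_, ?_, ?_⟩
  · intro ε hε
    refine ⟨0, fun L _ => ?_⟩
    push_cast
    rw [hnsumR]
    have : (0 : ℝ) ≤ L := Nat.cast_nonneg L
    nlinarith
  · intro L
    have h3 := hsgL L
    have h4 := hnsum L
    have h5 := hLa L
    omega
  · intro L
    have h3 := hsgL L
    have h4 := hnsum L
    have h5 := hLa L
    omega
  · rintro ⟨β, B, hβ, hB, L₁, hL₁⟩
    obtain ⟨G, s, t, L₀, hs0, ht, hs3, hG, hrun⟩ := hB.sz3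
    -- the wrapper: the string is truncated
    have hloc : LocF (fun L w => pair (fun a => w ([false] ++ a))
        (trc (β L) fun a => w ([true] ++ a))) :=
      LocF.pair (LocF.shift [false] LocF.id) (LocF.trc (LocF.shift [true] LocF.id) β)
    obtain ⟨t1, ht1, hloc1⟩ := hloc s hs0
    choose G1 hG1 hG1run using fun L => exists_virt_run (hG L) (hs3 L) (hloc1 L) le_rfl
    obtain ⟨s1, hs1⟩ : ∃ s1 : ℕ → ℕ, s1 = fun L => s L * (t1 L + 1) + 2 * s L + t1 L := ⟨_, rfl⟩
    have hs1sub : SubExp s1 := by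
      rw [hs1]
      exact ((hs0.mul (ht1.add (SubExp.const 1))).add ((SubExp.const 2).mul hs0)).add ht1
    have hs1three : ∀ L, 3 ≤ s1 L := by
      intro L
      have := hs3 L
      rw [hs1]
      show 3 ≤ s L * (t1 L + 1) + 2 * s L + t1 L
      omega
    have hG1' : ∀ L, Sz (s1 L) (G1 L) := by
      intro L
      rw [hs1]
      exact hG1 L
    -- a large index
    have hf : SubExp (fun L => 2 * (4 * s1 L + (a * L + 4))) :=
      (SubExp.const 2).mul (((SubExp.const 4).mul hs1sub).add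
        (((SubExp.const a).mul SubExp.id).add (SubExp.const 4)))
    have ht' : ExpLe e' t := ht.mono hee'
    have hβ' : Lin e' β := hβ.mono (hue.trans hee')
    obtain ⟨L₂, hL₂⟩ := hβ' (d / 4) (by linarith)
    obtain ⟨N, hN⟩ := exists_nat_ge (5 / η)
    have hev := (hf η hη0).and ((ht' (d / 4) (by linarith)).and ((eventually_ge_atTop L₀).and
      ((eventually_ge_atTop L₁).and ((eventually_ge_atTop L₂).and ((eventually_ge_atTop N).and
        (eventually_ge_atTop 26))))))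
    have hfreq : ∃ᶠ L : ℕ in atTop, L ∈ S := Nat.frequently_atTop_iff_infinite.2 hS
    obtain ⟨L, hLS, hfL, htL, hLL₀, hLL₁, hLL₂, hLN, hL26⟩ := (hfreq.and_eventually hev).exists
    have hLpos : (0 : ℝ) < L := by
      have : (26 : ℝ) ≤ L := by exact_mod_cast hL26
      linarith
    have hηL : 5 ≤ η * L := by
      have h1 : (N : ℝ) ≤ L := by exact_mod_cast hLN
      have h2 := hN.trans h1
      rw [div_le_iff₀ hη0] at h2
      linarith
    have h2sg : 4 * s1 L + (a * L + 4) ≤ 2 ^ sg L := by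
      have h1 : (2 : ℝ) ^ (η * L) ≤ 2 * 2 ^ sg L := by
        have h2 : (2 : ℝ) ^ (η * L) ≤ 2 ^ ((sg L : ℝ) + 1) :=
          Real.rpow_le_rpow_of_exponent_le (by norm_num) (by have := hsggt L; linarith)
        rw [Real.rpow_add (by norm_num), Real.rpow_natCast, Real.rpow_one] at h2
        linarith
      have h3 : (((2 * (4 * s1 L + (a * L + 4)) : ℕ) : ℝ)) ≤ ((2 * 2 ^ sg L : ℕ) : ℝ) := by
        push_cast
        push_cast at hfL
        exact hfL.trans h1
      have h4 := Nat.cast_le.1 h3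
      omega
    have hnle : n L ≤ a * L := by rw [← hnsum L]; exact Nat.le_add_right _ _
    have hsg4 : 4 ≤ sg L := by
      have h1 := hsggt L
      have h2 : (4 : ℝ) < (sg L : ℝ) + 0 + 1 := by linarith
      have h3 : (4 : ℝ) < ((sg L + 1 : ℕ) : ℝ) := by push_cast; linarith
      have h4 : 4 < sg L + 1 := by exact_mod_cast h3
      omega
    have hsg8 := hsgL L
    have haL := hLa L
    have hnL := hnsum L
    have hnR := hnsumR L
    have hsgR := hsgle L
    -- the guess fits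
    have hβn : β L + 2 ≤ n L := by
      have h1 := hL₂ L hLL₂
      have h2 : (β L : ℝ) + 2 ≤ n L := by
        have h3 : η * L ≤ d / 4 * L := mul_le_mul_of_nonneg_right hηd hLpos.le
        have h4 : (a : ℝ) * L = e' * L + d * L := by rw [hd]; ring
        nlinarith
      exact_mod_cast h2
    have hTn : t L ≤ 2 ^ (n L - sg L) := by
      have h1 : sg L ≤ n L := by omega
      have h2 : ((n L - sg L : ℕ) : ℝ) = (n L : ℝ) - sg L := Nat.cast_sub h1
      have h3 : (t L : ℝ) ≤ (2 : ℝ) ^ (n L - sg L) := by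
        rw [← Real.rpow_natCast]
        refine htL.trans (Real.rpow_le_rpow_of_exponent_le (by norm_num) ?_)
        rw [h2]
        have h3 : η * L ≤ d / 4 * L := mul_le_mul_of_nonneg_right hηd hLpos.le
        have h4 : (a : ℝ) * L = e' * L + d * L := by rw [hd]; ring
        nlinarith
      exact_mod_cast h3
    obtain ⟨z, hz, hV⟩ := diag_level P (n := n L) (sg := sg L) (s := s1 L) (T := t L)
      (β := β L) (L := L) (G := G1 L) (by omega) (by omega) (by omega) (hs1three L) (hG1' L)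
      hβn (by omega) (by omega) hTn
    have hBrun : ∀ y : Inp, ∃ b', run (eval (G L) (pair z (trc (β L) y)))
        (t L) zeroMem [] = some b' ∧ (b' = true ↔ B ((⟨L, hLS⟩, z), y)) := by
      intro y
      have h1 := hrun ((⟨L, hLS⟩, z), y) hLL₀
      have h2 : ((dpres S).ext β).inp ((⟨L, hLS⟩, z), y) = pair z (trc (β L) y) := by
        show pair (trc L z) (trc (β L) y) = _
        rw [hz]
      rw [h2] at h1
      exact h1
    have htrc : ∀ y : Inp, trc (β L) (trc (β L) y) = trc (β L) y := by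
      intro y
      funext a
      simp only [trc]
      split_ifs <;> rfl
    have hfin := hV (fun y => B ((⟨L, hLS⟩, z), y)) (fun y => ?_) (fun y => ?_)
    · have h1 := hL₁ (⟨L, hLS⟩, z) hLL₁
      rw [← hfin] at h1
      have h2 : P.V (n L) (sg L) (trc L z) = P.V (n L) (sg L) z := by rw [hz]
      change (¬ P.V (n L) (sg L) (trc L z)) ↔ _ at h1
      rw [h2] at h1
      exact iff_not_self h1.symm
    · obtain ⟨b', hb', hbB⟩ := hBrun y
      exact ⟨b', hG1run _ _ _ _ hb', hbB⟩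
    · obtain ⟨b1, hb1, hbB1⟩ := hBrun y
      obtain ⟨b2, hb2, hbB2⟩ := hBrun (trc (β L) y)
      rw [htrc, hb1] at hb2
      have : b1 = b2 := by simpa using hb2
      subst this
      exact hbB1.symm.trans hbB2

/-- **Diagonal problems.** -/
theorem trade_diag {S : Set ℕ} (hS : S.Infinite) {c : ℝ} (P : Pivot S c) (a : ℕ) (u e : ℝ)
    (ha : 1 ≤ a) (hue : u ≤ e) (hea : e < a) :
    ∃ (T : Type) (π : Pres T) (D : T → Prop), (∀ τ, π.idx τ ∈ S) ∧ Size π 1 ∧
      InCl π D (c * a) ∧ ¬ InE u π D e := by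
  obtain ⟨n, sg, h1, h2, h3, h4⟩ := diag_core P.toPivotB hS a u e ha hue hea
  have ha0 : (0 : ℝ) ≤ a := Nat.cast_nonneg a
  obtain ⟨G, s, t, L₀, hs, ht, hG, hrun⟩ := P.dec n sg a ha0 h1 h2 h3
  have h5 : InCl (dpres S) (fun p => P.V (n p.1) (sg p.1) (trc (p.1 : ℕ) p.2)) (c * a) :=
    ⟨G, s, t, L₀, hs, ht, hG,
      fun τ hτ => hrun τ.1 τ.1.2 hτ τ.1 (trc (τ.1 : ℕ) τ.2) (supp_trc _ _)⟩
  exact ⟨_, dpres S, fun p => ¬ P.V (n p.1) (sg p.1) (trc (p.1 : ℕ) p.2), fun τ => τ.1.2,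
    size_dpres S, h5.compl, h4⟩

/-- all fields from the pivot -/
theorem trade_of_pivot {S : Set ℕ} (hS : S.Infinite) {c : ℝ} (P : Pivot S c) : Trade S c where
  not := fun hs h => trade_not hs h
  dummy := fun hs hβ h => trade_dummy hs hβ h
  merge := fun hs hβ hβ' h => trade_merge hs hβ hβ' h
  speedup := fun hs h hx hxe => trade_speedup hs h hx hxe
  slow := fun hπ hb hs hq hw hβ hue h => trade_slow P hπ hb hs hq hw hβ hue h
  diag := fun a u e ha hue hea => trade_diag hS P a u e ha hue hea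

end Pool.Agent.NUM.W
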