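import Pool.Agent.NUM.WPivot
import Pool.Agent.NUM.PivotSat

/-!
# Window version: 3SAT
-/

set_option autoImplicit false

namespace Pool.Agent.NUM.W

open NUM Filter

/-- in arbitrarily long windows of lengths 3SAT has small programs of time `2 ^ (c m)` -/
def SatWin (c : ℝ) : Prop :=
  ∀ δ : ℝ, 0 < δ → ∀ A M₀ : ℕ, ∃ M : ℕ, M₀ ≤ M ∧ ∀ m : ℕ, M ≤ m → m ≤ A * M →
    ∃ (G : List Ins) (s T : ℕ), Sz s G ∧
    (s : ℝ) ≤ 2 ^ (δ * m) ∧ (T : ℝ) ≤ 2 ^ ((c + δ) * m) ∧ Decides G (S3.satLen m) T (S3.SAT m)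

/-- the programs exist in the window around `L` -/
def Good (c : ℝ) (k L : ℕ) : Prop :=
  ∀ m : ℕ, L ≤ (k + 1) * m → m ≤ (k + 1) * L → ∃ (G : List Ins) (s T : ℕ), Sz s G ∧
    (s : ℝ) ≤ 2 ^ (1 / ((k : ℝ) + 1) * m) ∧ (T : ℝ) ≤ 2 ^ ((c + 1 / ((k : ℝ) + 1)) * m) ∧
    Decides G (S3.satLen m) T (S3.SAT m)

theorem exists_windows {c : ℝ} (H : SatWin c) :
    ∃ ℓ : ℕ → ℕ, StrictMono ℓ ∧ ∀ k, Good c k (ℓ k) := by
  apply Filter.extraction_forall_of_frequently
  intro k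
  rw [frequently_atTop]
  intro L₀
  obtain ⟨M, hM, h⟩ := H (1 / ((k : ℝ) + 1)) (by positivity) ((k + 1) * (k + 1)) L₀
  refine ⟨(k + 1) * M, ?_, fun m h1 h2 => h m ?_ ?_⟩
  · calc L₀ ≤ M := hM
      _ ≤ (k + 1) * M := Nat.le_mul_of_pos_left M (Nat.succ_pos k)
  · exact Nat.le_of_mul_le_mul_left h1 (Nat.succ_pos k)
  · rw [Nat.mul_assoc]
    exact h2

theorem exists_pivot {c : ℝ} (hc : 0 ≤ c) (H : SatWin c) :
    ∃ S : Set ℕ, S.Infinite ∧ Nonempty (Pivot S c) := by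
  classical
  obtain ⟨ℓ, hℓ, hgood⟩ := exists_windows H
  refine ⟨Set.range ℓ, Set.infinite_range_of_injective hℓ.injective, ⟨⟨pivotB_sat, ?_⟩⟩⟩
  intro n sg E hE hlin hn hle
  -- the number of the window
  obtain ⟨kk, hkk⟩ : ∃ kk : ℕ → ℕ, ∀ L, L ∈ Set.range ℓ → ℓ (kk L) = L := by
    refine ⟨fun L => if h : ∃ k, ℓ k = L then h.choose else 0, fun L hL => ?_⟩
    obtain ⟨k, hk⟩ := hL
    have h : ∃ k, ℓ k = L := ⟨k, hk⟩
    simp only [h, dif_pos]
    exact h.choose_spec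
  have hkkge : ∀ K L, L ∈ Set.range ℓ → ℓ K ≤ L → K ≤ kk L := by
    intro K L hL hK
    rw [← hkk L hL] at hK
    exact hℓ.le_iff_le.1 hK
  -- the sizes of the instances
  obtain ⟨m, hm⟩ : ∃ m : ℕ → ℕ, m = fun L => S3.Vm (n L) (sg L) := ⟨_, rfl⟩
  have hmL : ∀ L, m L = S3.Vm (n L) (sg L) := fun L => by rw [hm]
  have hnlin : Lin E n := hlin.mono' fun L => Nat.le_add_right _ _
  have hsglin : Lin E sg := hlin.mono' fun L => Nat.le_add_left _ _
  have hmlin : Lin E m := by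
    have h1 := (hlin.add hnlin.size_linear).add (Lin.const 0 le_rfl 9)
    simp only [add_zero] at h1
    rw [hm]
    exact h1.mono' fun L => S3.Vm_le _ _
  have hnm : ∀ L, n L ≤ m L := by
    intro L
    rw [hmL]
    show n L ≤ S3.mm _ _ _
    unfold S3.mm
    omega
  -- programs
  obtain ⟨L₁, hL₁⟩ := hmlin 1 one_pos
  obtain ⟨K, hK⟩ := exists_nat_ge (E + 1)
  have hex : ∀ L, ∃ (G : List Ins) (s T : ℕ), Sz s G ∧
      (L ∈ Set.range ℓ → (s : ℝ) ≤ 2 ^ (1 / ((kk L : ℝ) + 1) * m L) ∧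
        (T : ℝ) ≤ 2 ^ ((c + 1 / ((kk L : ℝ) + 1)) * m L)) ∧
      (L ∉ Set.range ℓ → s = 0 ∧ T = 0) ∧
      (L ∈ Set.range ℓ → max L₁ (ℓ (K + 1)) ≤ L → Decides G (S3.satLen (m L)) T (S3.SAT (m L))) := by
    intro L
    by_cases hL : L ∈ Set.range ℓ
    · by_cases hL' : max L₁ (ℓ (K + 1)) ≤ L
      · have h1 := hL₁ L (le_trans (le_max_left _ _) hL')
        have h2 : K + 1 ≤ kk L := hkkge _ L hL (le_trans (le_max_right _ _) hL')
        have h3 : Good c (kk L) L := by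
          have := hgood (kk L)
          rwa [hkk L hL] at this
        have h4 : m L ≤ (kk L + 1) * L := by
          have h5 : (m L : ℝ) ≤ ((kk L + 1 : ℕ) : ℝ) * L := by
            refine h1.trans (mul_le_mul_of_nonneg_right ?_ (Nat.cast_nonneg _))
            have h6 : (K : ℝ) ≤ ((kk L + 1 : ℕ) : ℝ) := by exact_mod_cast (by omega : K ≤ kk L + 1)
            linarith
          exact_mod_cast h5
        have h5 : L ≤ (kk L + 1) * m L := by
          calc L ≤ 2 * n L := hn L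
            _ ≤ 2 * m L := Nat.mul_le_mul_left 2 (hnm L)
            _ ≤ (kk L + 1) * m L := Nat.mul_le_mul_right _ (by omega)
        obtain ⟨G, s, T, h6, h7, h8, h9⟩ := h3 (m L) h5 h4
        exact ⟨G, s, T, h6, fun _ => ⟨h7, h8⟩, fun h => absurd hL h, fun _ _ => h9⟩
      · refine ⟨[], 0, 0, ⟨by simp, by simp⟩, fun _ => ⟨?_, ?_⟩, fun _ => ⟨rfl, rfl⟩,
          fun _ h => absurd h hL'⟩
        · rw [Nat.cast_zero]; positivity
        · rw [Nat.cast_zero]; positivity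
    · exact ⟨[], 0, 0, ⟨by simp, by simp⟩, fun h => absurd h hL, fun _ => ⟨rfl, rfl⟩,
        fun h => absurd h hL⟩
  choose G s T hG hsT h0 hD using hex
  -- asymptotics
  have hkt : ∀ δ : ℝ, 0 < δ → ∀ᶠ L in atTop, L ∈ Set.range ℓ → 1 / ((kk L : ℝ) + 1) ≤ δ := by
    intro δ hδ
    obtain ⟨N, hN⟩ := exists_nat_ge (1 / δ)
    filter_upwards [eventually_ge_atTop (ℓ N)] with L hL hLS
    have h1 : N ≤ kk L := hkkge N L hLS hL
    have h2 : (N : ℝ) ≤ kk L := by exact_mod_cast h1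
    rw [div_le_iff₀ (by positivity)]
    rw [div_le_iff₀ hδ] at hN
    nlinarith
  have hmev : ∀ η : ℝ, 0 < η → ∀ᶠ L : ℕ in atTop, (m L : ℝ) ≤ (E + η) * L := fun η hη =>
    eventually_atTop.2 (hmlin η hη)
  have hs : SubExp s := by
    intro δ hδ
    have hδ' : 0 < δ / (E + 1) := by positivity
    filter_upwards [hkt _ hδ', hmev 1 one_pos] with L h1 h2
    by_cases hL : L ∈ Set.range ℓ
    · refine (hsT L hL).1.trans (Real.rpow_le_rpow_of_exponent_le (by norm_num) ?_)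
      have h3 : (0 : ℝ) ≤ m L := Nat.cast_nonneg _
      calc 1 / ((kk L : ℝ) + 1) * m L ≤ δ / (E + 1) * m L := mul_le_mul_of_nonneg_right (h1 hL) h3
        _ ≤ δ / (E + 1) * ((E + 1) * L) := mul_le_mul_of_nonneg_left h2 hδ'.le
        _ = δ * L := by field_simp
    · rw [(h0 L hL).1, Nat.cast_zero]
      positivity
  have hT : ExpLe (c * E) T := by
    intro δ hδ
    obtain ⟨η, hη⟩ : ∃ η : ℝ, η = δ / (2 * (c + 1)) := ⟨_, rfl⟩
    have hη0 : 0 < η := by rw [hη]; positivity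
    obtain ⟨θ, hθ⟩ : ∃ θ : ℝ, θ = δ / (2 * (E + 1)) := ⟨_, rfl⟩
    have hθ0 : 0 < θ := by rw [hθ]; positivity
    filter_upwards [hkt θ hθ0, hmev (min η 1) (lt_min hη0 one_pos)] with L h1 h2
    by_cases hL : L ∈ Set.range ℓ
    · refine (hsT L hL).2.trans (Real.rpow_le_rpow_of_exponent_le (by norm_num) ?_)
      have h3 : (0 : ℝ) ≤ m L := Nat.cast_nonneg _
      have h4 : (0 : ℝ) ≤ L := Nat.cast_nonneg _
      have h5 : (m L : ℝ) ≤ (E + η) * L :=
        h2.trans (mul_le_mul_of_nonneg_right (by linarith [min_le_left η 1]) h4)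
      have h6 : (m L : ℝ) ≤ (E + 1) * L :=
        h2.trans (mul_le_mul_of_nonneg_right (by linarith [min_le_right η 1]) h4)
      have h7 : c * m L ≤ c * ((E + η) * L) := mul_le_mul_of_nonneg_left h5 hc
      have h8 : 1 / ((kk L : ℝ) + 1) * m L ≤ θ * ((E + 1) * L) :=
        mul_le_mul (h1 hL) h6 h3 hθ0.le
      have h9 : θ * ((E + 1) * L) = δ / 2 * L := by rw [hθ]; field_simp
      have h10 : c * η ≤ δ / 2 := by
        rw [hη]
        have : c * (δ / (2 * (c + 1))) = δ / 2 * (c / (c + 1)) := by field_simp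
        rw [this]
        have h11 : c / (c + 1) ≤ 1 := by
          rw [div_le_one (by linarith)]
          linarith
        calc δ / 2 * (c / (c + 1)) ≤ δ / 2 * 1 := mul_le_mul_of_nonneg_left h11 (by linarith)
          _ = δ / 2 := by ring
      calc (c + 1 / ((kk L : ℝ) + 1)) * m L = c * m L + 1 / ((kk L : ℝ) + 1) * m L := by ring
        _ ≤ c * ((E + η) * L) + δ / 2 * L := by rw [← h9]; exact add_le_add h7 h8
        _ = (c * E + δ / 2) * L + c * η * L := by ring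
        _ ≤ (c * E + δ / 2) * L + δ / 2 * L := by
            have := mul_le_mul_of_nonneg_right h10 h4
            linarith
        _ = (c * E + δ) * L := by ring
    · rw [(h0 L hL).2, Nat.cast_zero]
      positivity
  choose G' hG' hD' using fun L => show ∃ G' : List Ins,
    Sz ((s L + 3) * (S3.VS (n L) (sg L) + 3) * 4) G' ∧
    (L ∈ Set.range ℓ → max L₁ (ℓ (K + 1)) ≤ L → ∀ B, Decides G' B (T L) (S3.V (n L) (sg L)))
    from by
      by_cases h : L ∈ Set.range ℓ ∧ max L₁ (ℓ (K + 1)) ≤ L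
      · have h2 := hD L h.1 h.2
        rw [hmL] at h2
        obtain ⟨G', h3, h4⟩ := S3.V_decides (hle L) (hG L) h2
        exact ⟨G', h3, fun _ _ => h4⟩
      · exact ⟨[], ⟨by simp, by simp⟩, fun h1 h2 => absurd ⟨h1, h2⟩ h⟩
  refine ⟨G', _, T, max L₁ (ℓ (K + 1)), ?_, ex_iff.2 hT, hG', fun L hLS hL => hD' L hLS hL⟩
  have hSS : SubExp (fun L => S3.SS (n L) (sg L + 1) (Nat.size (S3.nst (n L)))) := by
    have h1 : SubExp (fun L => Nat.size (S3.nst (n L))) := hnlin.size_linear.subExp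
    unfold S3.SS
    exact (((hnlin.subExp.add (hsglin.subExp.add (SubExp.const 1))).add h1).add
      (SubExp.const 100))
  exact ex_zero_iff.2 (((hs.add (SubExp.const 3)).mul ((hSS.pow 8).add (SubExp.const 3))).mul
    (SubExp.const 4))

theorem one_lt_two_cos : (1 : ℝ) < 2 * Real.cos (Real.pi / 7) := by
  have h1 : Real.cos (Real.pi / 3) < Real.cos (Real.pi / 7) := by
    apply Real.cos_lt_cos_of_nonneg_of_le_pi
    · positivity
    · have := Real.pi_pos; linarith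
    · have := Real.pi_pos; linarith
  rw [Real.cos_pi_div_three] at h1
  linarith

theorem not_satWin {c : ℝ} (hc : 1 < c) (h : c < 2 * Real.cos (Real.pi / 7)) : ¬ SatWin c := by
  intro H
  obtain ⟨S, hS, ⟨P⟩⟩ := exists_pivot (by linarith) H
  exact trade_bound hc h (trade_of_pivot hS P)

/-- the lower bound for satisfiability, in every window of lengths -/
theorem sat_lower_bound (c : ℝ) (hc : c < 2 * Real.cos (Real.pi / 7)) :
    ∃ (δ : ℝ) (A M₀ : ℕ), 0 < δ ∧ ∀ M : ℕ, M₀ ≤ M → ∃ m : ℕ, M ≤ m ∧ m ≤ A * M ∧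
      ∀ (G : List Ins) (s T : ℕ), Sz s G → (s : ℝ) ≤ 2 ^ (δ * m) → (T : ℝ) ≤ 2 ^ (c * m) →
      ¬ Decides G (S3.satLen m) T (S3.SAT m) := by
  obtain ⟨c', h1, h2⟩ := exists_between (max_lt hc one_lt_two_cos)
  have hcc : c ≤ c' := (le_max_left _ _).trans h1.le
  have h := not_satWin (lt_of_le_of_lt (le_max_right c 1) h1) h2
  unfold SatWin at h
  push Not at h
  obtain ⟨δ, hδ, A, M₀, h⟩ := h
  refine ⟨δ, A, M₀, hδ, fun M hM => ?_⟩
  obtain ⟨m, hm, hm', h⟩ := h M hM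
  refine ⟨m, hm, hm', fun G s T hs h1 h2 hD => h G s T hs h1 (h2.trans ?_) hD⟩
  apply Real.rpow_le_rpow_of_exponent_le (by norm_num)
  have : (0 : ℝ) ≤ m := by positivity
  nlinarith

end Pool.Agent.NUM.W
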